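import Mathlib

namespace Pool.Agent.Helper870.BM

open Finset
open scoped Pointwise

lemma superadd_aux {w1 w2 a b : ℝ} (hw1 : 0 ≤ w1) (hw2 : 0 ≤ w2) (hw : w1 + w2 = 1)
    (ha : 0 ≤ a) (hb : 0 ≤ b) :
    a ^ w1 * b ^ w2 + 1 ≤ (a + 1) ^ w1 * (b + 1) ^ w2 := by
  have ha1 : 0 < a + 1 := by linarith
  have hb1 : 0 < b + 1 := by linarith
  have h1 := Real.geom_mean_le_arith_mean2_weighted hw1 hw2
    (div_nonneg ha ha1.le) (div_nonneg hb hb1.le) hw
  have h2 := Real.geom_mean_le_arith_mean2_weighted hw1 hw2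
    (div_nonneg zero_le_one ha1.le) (div_nonneg zero_le_one hb1.le) hw
  rw [Real.div_rpow ha ha1.le, Real.div_rpow hb hb1.le] at h1
  rw [Real.div_rpow zero_le_one ha1.le, Real.div_rpow zero_le_one hb1.le,
    Real.one_rpow, Real.one_rpow] at h2
  have hA : 0 < (a + 1) ^ w1 := Real.rpow_pos_of_pos ha1 _
  have hB : 0 < (b + 1) ^ w2 := Real.rpow_pos_of_pos hb1 _
  have h3 : w1 * (a / (a + 1)) + w2 * (b / (b + 1)) + (w1 * (1 / (a + 1)) + w2 * (1 / (b + 1))) = 1 := by
    field_simp
    linear_combination ((a + 1) * (b + 1)) * hw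
  have h4 : a ^ w1 / (a + 1) ^ w1 * (b ^ w2 / (b + 1) ^ w2) + 1 / (a + 1) ^ w1 * (1 / (b + 1) ^ w2) ≤ 1 := by
    linarith
  have h5 : a ^ w1 / (a + 1) ^ w1 * (b ^ w2 / (b + 1) ^ w2) + 1 / (a + 1) ^ w1 * (1 / (b + 1) ^ w2)
      = (a ^ w1 * b ^ w2 + 1) / ((a + 1) ^ w1 * (b + 1) ^ w2) := by
    field_simp
  rw [h5, div_le_one (mul_pos hA hB)] at h4
  exact h4

lemma superadd (n : ℕ) {a b : ℝ} (ha : 0 ≤ a) (hb : 0 ≤ b) :
    ((a * b ^ n) ^ ((1:ℝ)/((n+1 : ℕ) : ℝ)) + 1) ^ (n+1) ≤ (a + 1) * (b + 1) ^ n := by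
  have hn : (0:ℝ) < ((n + 1 : ℕ) : ℝ) := by positivity
  set w1 : ℝ := 1 / ((n+1 : ℕ) : ℝ) with hw1
  set w2 : ℝ := n / ((n+1 : ℕ) : ℝ) with hw2
  have h1 : 0 ≤ w1 := by positivity
  have h2 : 0 ≤ w2 := by positivity
  have h12 : w1 + w2 = 1 := by
    rw [hw1, hw2]; push_cast at hn ⊢; field_simp; ring
  have key := superadd_aux h1 h2 h12 ha hb
  have e1 : (a * b ^ n) ^ w1 = a ^ w1 * b ^ w2 := by
    rw [Real.mul_rpow ha (pow_nonneg hb n), ← Real.rpow_natCast b n, ← Real.rpow_mul hb]
    congr 2
    rw [hw1, hw2]; ring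
  rw [e1]
  have h0 : 0 ≤ a ^ w1 * b ^ w2 + 1 := by positivity
  calc (a ^ w1 * b ^ w2 + 1) ^ (n + 1) ≤ ((a + 1) ^ w1 * (b + 1) ^ w2) ^ (n + 1) :=
        pow_le_pow_left₀ h0 key _
    _ = (a + 1) * (b + 1) ^ n := by
        have ha1 : 0 ≤ a + 1 := by linarith
        have hb1 : 0 ≤ b + 1 := by linarith
        rw [mul_pow, ← Real.rpow_natCast _ (n+1), ← Real.rpow_natCast _ (n+1),
          ← Real.rpow_mul ha1, ← Real.rpow_mul hb1]
        have e2 : w1 * ((n + 1 : ℕ) : ℝ) = 1 := by rw [hw1]; field_simp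
        have e3 : w2 * ((n + 1 : ℕ) : ℝ) = n := by rw [hw2]; field_simp
        rw [e2, e3, Real.rpow_one, Real.rpow_natCast]

/-- the discrete cube `{0,1}^d` -/
def cube (d : ℕ) : Finset (Fin d → ℤ) := Fintype.piFinset (fun _ : Fin d => ({0,1} : Finset ℤ))

lemma mem_cube {d : ℕ} {x : Fin d → ℤ} : x ∈ cube d ↔ ∀ i, x i = 0 ∨ x i = 1 := by
  simp [cube, Fintype.mem_piFinset]

/-- fibre of `V` over first coordinate `t` -/
def fib {d : ℕ} (V : Finset (Fin (d+1) → ℤ)) (t : ℤ) : Finset (Fin d → ℤ) :=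
  (V.filter (fun x => x 0 = t)).image Fin.tail

lemma mem_fib {d : ℕ} {V : Finset (Fin (d+1) → ℤ)} {t : ℤ} {y : Fin d → ℤ} :
    y ∈ fib V t ↔ (Fin.cons t y : Fin (d+1) → ℤ) ∈ V := by
  constructor
  · intro h
    simp only [fib, mem_image, mem_filter] at h
    obtain ⟨x, ⟨hx, hx0⟩, rfl⟩ := h
    have : (Fin.cons t (Fin.tail x) : Fin (d+1) → ℤ) = x := by
      rw [← hx0]; exact Fin.cons_self_tail x
    rw [this]; exact hx
  · intro h
    simp only [fib, mem_image, mem_filter]
    exact ⟨_, ⟨h, by simp⟩, by simp⟩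

lemma card_eq_sum_fib {d : ℕ} (V : Finset (Fin (d+1) → ℤ)) :
    V.card = ∑ t ∈ V.image (fun x => x 0), (fib V t).card := by
  rw [Finset.card_eq_sum_card_image (fun x => x 0) V]
  apply Finset.sum_congr rfl
  intro t _
  rw [fib, Finset.card_image_of_injOn]
  intro x hx y hy hxy
  simp only [coe_filter, Set.mem_ofPred_eq] at hx hy
  rw [← Fin.cons_self_tail x, ← Fin.cons_self_tail y, hxy, hx.2, hy.2]

lemma cons_injective {d : ℕ} (t : ℤ) : Function.Injective (fun y : Fin d → ℤ => (Fin.cons t y : Fin (d+1) → ℤ)) := by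
  intro y z h
  have := congrArg Fin.tail h
  simpa using this

lemma card_add_cube_ge {d : ℕ} (V : Finset (Fin (d+1) → ℤ)) (s : ℤ) (hs : (fib V s).Nonempty) :
    ∑ t ∈ V.image (fun x => x 0), (fib V t + cube d).card + (fib V s + cube d).card
      ≤ (V + cube (d+1)).card := by
  classical
  set T := V.image (fun x => x 0) with hT
  have hsT : s ∈ T := by
    obtain ⟨y, hy⟩ := hs
    rw [mem_fib] at hy
    exact mem_image.2 ⟨_, hy, by simp⟩
  let W1 : Finset (Fin (d+1) → ℤ) :=
    (T.filter (fun t => t ≤ s)).biUnion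
      (fun t => (fib V t + cube d).image (fun y => (Fin.cons t y : Fin (d+1) → ℤ)))
  let W2 : Finset (Fin (d+1) → ℤ) :=
    (T.filter (fun t => s ≤ t)).biUnion
      (fun t => (fib V t + cube d).image (fun y => (Fin.cons (t+1) y : Fin (d+1) → ℤ)))
  have hW1 : W1.card = ∑ t ∈ T.filter (fun t => t ≤ s), (fib V t + cube d).card := by
    rw [Finset.card_biUnion]
    · apply Finset.sum_congr rfl
      intro t _
      exact Finset.card_image_of_injective _ (cons_injective t)
    · intro t _ t' _ htt'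
      rw [Function.onFun, Finset.disjoint_left]
      intro x hx hx'
      simp only [mem_image] at hx hx'
      obtain ⟨y, _, rfl⟩ := hx
      obtain ⟨y', _, h⟩ := hx'
      have := congrFun h 0
      simp at this
      exact htt' this.symm
  have hW2 : W2.card = ∑ t ∈ T.filter (fun t => s ≤ t), (fib V t + cube d).card := by
    rw [Finset.card_biUnion]
    · apply Finset.sum_congr rfl
      intro t _
      exact Finset.card_image_of_injective _ (cons_injective (t+1))
    · intro t _ t' _ htt'
      rw [Function.onFun, Finset.disjoint_left]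
      intro x hx hx'
      simp only [mem_image] at hx hx'
      obtain ⟨y, _, rfl⟩ := hx
      obtain ⟨y', _, h⟩ := hx'
      have := congrFun h 0
      simp at this
      exact htt' this.symm
  have hdisj : Disjoint W1 W2 := by
    rw [Finset.disjoint_left]
    intro x hx hx'
    simp only [W1, W2, mem_biUnion, mem_filter, mem_image] at hx hx'
    obtain ⟨t, ⟨_, ht⟩, y, _, rfl⟩ := hx
    obtain ⟨t', ⟨_, ht'⟩, y', _, h⟩ := hx'
    have := congrFun h 0
    simp at this
    omega
  have hsub : W1 ∪ W2 ⊆ V + cube (d+1) := by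
    intro x hx
    rw [mem_union] at hx
    rcases hx with hx | hx
    · simp only [W1, mem_biUnion, mem_filter, mem_image] at hx
      obtain ⟨t, ⟨_, ht⟩, y, hy, rfl⟩ := hx
      obtain ⟨a, ha, b, hb, rfl⟩ := Finset.mem_add.1 hy
      refine Finset.mem_add.2 ⟨Fin.cons t a, mem_fib.1 ha, Fin.cons 0 b, ?_, ?_⟩
      · rw [mem_cube] at hb ⊢
        intro i
        refine Fin.cases ?_ ?_ i
        · left; simp
        · intro j; simpa using hb j
      · funext i
        refine Fin.cases ?_ ?_ i
        · simp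
        · intro j; simp
    · simp only [W2, mem_biUnion, mem_filter, mem_image] at hx
      obtain ⟨t, ⟨_, ht⟩, y, hy, rfl⟩ := hx
      obtain ⟨a, ha, b, hb, rfl⟩ := Finset.mem_add.1 hy
      refine Finset.mem_add.2 ⟨Fin.cons t a, mem_fib.1 ha, Fin.cons 1 b, ?_, ?_⟩
      · rw [mem_cube] at hb ⊢
        intro i
        refine Fin.cases ?_ ?_ i
        · right; simp
        · intro j; simpa using hb j
      · funext i
        refine Fin.cases ?_ ?_ i
        · simp
        · intro j; simp
  have hcard := Finset.card_le_card hsub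
  rw [Finset.card_union_of_disjoint hdisj, hW1, hW2] at hcard
  have hsplit : ∑ t ∈ T, (fib V t + cube d).card + (fib V s + cube d).card
      = ∑ t ∈ T.filter (fun t => t ≤ s), (fib V t + cube d).card
        + ∑ t ∈ T.filter (fun t => s ≤ t), (fib V t + cube d).card := by
    have h1 := Finset.sum_filter_add_sum_filter_not T (fun t => t ≤ s) (fun t => (fib V t + cube d).card)
    have h2 : T.filter (fun t => s ≤ t) = insert s (T.filter (fun t => ¬ t ≤ s)) := by
      ext t
      simp only [mem_filter, mem_insert, not_le]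
      constructor
      · rintro ⟨h1, h2⟩
        rcases h2.eq_or_lt with h | h
        · left; exact h.symm
        · right; exact ⟨h1, h⟩
      · rintro (h | ⟨h1, h2⟩)
        · subst h; exact ⟨hsT, le_rfl⟩
        · exact ⟨h1, h2.le⟩
    rw [h2, Finset.sum_insert (by simp), ← h1]
    ring
  rw [hsplit]
  exact hcard

theorem card_add_cube : ∀ (d : ℕ) (V : Finset (Fin d → ℤ)), V.Nonempty →
    (((V.card : ℝ) ^ ((1:ℝ)/(d:ℝ))) + 1) ^ d ≤ ((V + cube d).card : ℝ) := by
  intro d
  induction d with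
  | zero =>
    intro V hV
    have : (V + cube 0).Nonempty := hV.add ⟨0, by rw [mem_cube]; intro i; exact i.elim0⟩
    simp only [pow_zero]
    exact_mod_cast this.card_pos
  | succ d ih =>
    intro V hV
    classical
    set T := V.image (fun x => x 0) with hT
    have hTne : T.Nonempty := hV.image _
    obtain ⟨s, hsT, hs⟩ := Finset.exists_max_image T (fun t => (fib V t).card) hTne
    have hfibne : ∀ t ∈ T, (fib V t).Nonempty := by
      intro t ht
      obtain ⟨x, hx, rfl⟩ := mem_image.1 ht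
      refine ⟨Fin.tail x, mem_fib.2 ?_⟩
      simpa using hx
    have h1 := card_add_cube_ge V s (hfibne s hsT)
    set M : ℝ := ((fib V s).card : ℝ) with hM
    have hM1 : 1 ≤ M := by
      rw [hM]; exact_mod_cast (hfibne s hsT).card_pos
    have hM0 : 0 < M := by linarith
    set b : ℝ := M ^ ((1:ℝ)/(d:ℝ)) with hb
    have hb1 : 0 < b := Real.rpow_pos_of_pos hM0 _
    have hbd : b ^ d = M := by
      rcases Nat.eq_zero_or_pos d with h0 | h0
      · subst h0
        -- d = 0, so the fibre has exactly one element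
        have : (fib V s).card ≤ 1 := by
          rw [Finset.card_le_one]
          intro a _ b _
          exact Subsingleton.elim a b
        have h2 : (fib V s).card = 1 := le_antisymm this (hfibne s hsT).card_pos
        rw [hM, h2]; simp
      · rw [hb, ← Real.rpow_natCast, ← Real.rpow_mul hM0.le]
        have : (d:ℝ) ≠ 0 := by positivity
        rw [one_div, inv_mul_cancel₀ this, Real.rpow_one]
    -- growth factor
    set g : ℝ := (1 + 1 / b) ^ d with hg
    have hg0 : 0 < g := by positivity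
    have hfibg : ∀ t ∈ T, ((fib V t).card : ℝ) * g ≤ ((fib V t + cube d).card : ℝ) := by
      intro t ht
      have h2 := ih (fib V t) (hfibne t ht)
      refine le_trans ?_ h2
      set v : ℝ := ((fib V t).card : ℝ) with hv
      have hv1 : 1 ≤ v := by rw [hv]; exact_mod_cast (hfibne t ht).card_pos
      have hvM : v ≤ M := by rw [hv, hM]; exact_mod_cast hs t ht
      set a : ℝ := v ^ ((1:ℝ)/(d:ℝ)) with ha
      have ha0 : 0 < a := Real.rpow_pos_of_pos (by linarith) _
      have had : a ^ d = v := by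
        rcases Nat.eq_zero_or_pos d with h0 | h0
        · subst h0
          have : (fib V t).card ≤ 1 := by
            rw [Finset.card_le_one]
            intro a _ b _
            exact Subsingleton.elim a b
          have h2 : (fib V t).card = 1 := le_antisymm this (hfibne t ht).card_pos
          rw [hv, h2]; simp
        · rw [ha, ← Real.rpow_natCast, ← Real.rpow_mul (by linarith)]
          have : (d:ℝ) ≠ 0 := by positivity
          rw [one_div, inv_mul_cancel₀ this, Real.rpow_one]
      have hab : a ≤ b := Real.rpow_le_rpow (by linarith) hvM (by positivity)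
      calc v * g = (a * (1 + 1 / b)) ^ d := by rw [mul_pow, had]
        _ ≤ (a + 1) ^ d := by
          apply pow_le_pow_left₀ (by positivity)
          have : a / b ≤ 1 := (div_le_one hb1).2 hab
          calc a * (1 + 1 / b) = a + a / b := by ring
            _ ≤ a + 1 := by linarith
    have hsum : (V.card : ℝ) * g ≤ ((∑ t ∈ T, (fib V t + cube d).card : ℕ) : ℝ) := by
      rw [card_eq_sum_fib V]
      push_cast
      rw [Finset.sum_mul]
      exact Finset.sum_le_sum hfibg
    have htot : (V.card : ℝ) * g + M * g ≤ ((V + cube (d+1)).card : ℝ) := by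
      have h3 : ((∑ t ∈ T, (fib V t + cube d).card + (fib V s + cube d).card : ℕ) : ℝ)
        ≤ ((V + cube (d+1)).card : ℝ) := by exact_mod_cast h1
      push_cast at h3 hsum
      have h4 := hfibg s hsT
      linarith
    refine le_trans ?_ htot
    have hVM : (V.card : ℝ) = (V.card / M) * b ^ d := by
      rw [hbd]; exact (div_mul_cancel₀ _ hM0.ne').symm
    have hVM0 : 0 ≤ (V.card : ℝ) / M := div_nonneg (Nat.cast_nonneg _) hM0.le
    have hsup := superadd d (a := (V.card : ℝ) / M) (b := b) hVM0 hb1.le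
    rw [← hVM] at hsup
    refine le_trans hsup (le_of_eq ?_)
    have h5 : (b + 1) ^ d = M * g := by
      rw [hg, ← hbd, ← mul_pow]
      congr 1
      rw [mul_add, mul_one_div_cancel hb1.ne', mul_one]
    rw [h5]
    have h6 : ((V.card : ℝ) / M + 1) * (M * g) = ((V.card : ℝ) / M * M + M) * g := by ring
    rw [h6, div_mul_cancel₀ _ hM0.ne']
    ring

end Pool.Agent.Helper870.BM
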