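import Mathlib

set_option autoImplicit false
set_option linter.unusedSectionVars false

namespace Pool.Agent.Helper870.BP

open Finset

section
variable {G X : Type} [Fintype G] [Fintype X]
  (I : G → X → Prop) [∀ g x, Decidable (I g x)]

/-- number of group elements fixing `x` -/
noncomputable def cK (x : X) : ℝ := ((univ.filter (fun g => I g x)).card : ℝ)

/-- number of points fixed by `g` -/
noncomputable def cF (g : G) : ℝ := ((univ.filter (fun x => I g x)).card : ℝ)

/-- distribution of the group element -/
noncomputable def nu (μ : X → ℝ) (g : G) : ℝ := ∑ x, if I g x then μ x / cK I x else 0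

/-- one step of the chain -/
noncomputable def step (μ : X → ℝ) (y : X) : ℝ := ∑ g, if I g y then nu I μ g / cF I g else 0

/-- average of a function over the stabiliser -/
noncomputable def avK (Φ : G → ℝ) (x : X) : ℝ := (∑ g, if I g x then Φ g else 0) / cK I x

/-- two step average of the potential -/
noncomputable def Dr (Φ : G → ℝ) (g : G) : ℝ := (∑ x, if I g x then avK I Φ x else 0) / cF I g

variable {I} {e : G} (he : ∀ x, I e x) (hF : ∀ g, ∃ x, I g x)

include he in
theorem cK_ge_one (x : X) : 1 ≤ cK I x := by
  unfold cK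
  have : 1 ≤ (univ.filter (fun g => I g x)).card :=
    Finset.card_pos.2 ⟨e, by simp [he x]⟩
  exact_mod_cast this

include hF in
theorem cF_ge_one (g : G) : 1 ≤ cF I g := by
  unfold cF
  obtain ⟨x, hx⟩ := hF g
  have : 1 ≤ (univ.filter (fun x => I g x)).card :=
    Finset.card_pos.2 ⟨x, by simp [hx]⟩
  exact_mod_cast this

theorem sum_ite_cK (x : X) (c : ℝ) : (∑ g, if I g x then c else 0) = cK I x * c := by
  rw [← Finset.sum_filter, Finset.sum_const, nsmul_eq_mul]
  rfl

theorem sum_ite_cF (g : G) (c : ℝ) : (∑ x, if I g x then c else 0) = cF I g * c := by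
  rw [← Finset.sum_filter, Finset.sum_const, nsmul_eq_mul]
  rfl

include he in
theorem sum_nu_mul (μ : X → ℝ) (Φ : G → ℝ) : ∑ g, nu I μ g * Φ g = ∑ x, μ x * avK I Φ x := by
  unfold nu avK
  simp only [Finset.sum_mul]
  rw [Finset.sum_comm]
  apply Finset.sum_congr rfl
  intro x _
  rw [mul_div_assoc', Finset.mul_sum, Finset.sum_div]
  apply Finset.sum_congr rfl
  intro g _
  split_ifs
  · ring
  · simp

include he in
theorem sum_nu (μ : X → ℝ) : ∑ g, nu I μ g = ∑ x, μ x := by
  have h := sum_nu_mul (I := I) he μ (fun _ => 1)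
  simp only [mul_one] at h
  rw [h]
  apply Finset.sum_congr rfl
  intro x _
  unfold avK
  rw [sum_ite_cK, mul_one, div_self, mul_one]
  have := cK_ge_one he x
  linarith

include hF in
theorem sum_step_mul (μ : X → ℝ) (f : X → ℝ) :
    ∑ y, step I μ y * f y = ∑ g, nu I μ g * ((∑ x, if I g x then f x else 0) / cF I g) := by
  unfold step
  simp only [Finset.sum_mul]
  rw [Finset.sum_comm]
  apply Finset.sum_congr rfl
  intro g _
  rw [mul_div_assoc', Finset.mul_sum, Finset.sum_div]
  apply Finset.sum_congr rfl
  intro x _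
  split_ifs
  · ring
  · simp

include he hF in
theorem sum_step (μ : X → ℝ) : ∑ y, step I μ y = ∑ x, μ x := by
  have h := sum_step_mul (I := I) hF μ (fun _ => 1)
  simp only [mul_one] at h
  rw [h, ← sum_nu he μ]
  apply Finset.sum_congr rfl
  intro g _
  rw [sum_ite_cF, mul_one, div_self, mul_one]
  have := cF_ge_one hF g
  linarith

include he in
theorem nu_nonneg {μ : X → ℝ} (h : ∀ x, 0 ≤ μ x) (g : G) : 0 ≤ nu I μ g := by
  unfold nu
  apply Finset.sum_nonneg
  intro x _
  split_ifs
  · exact div_nonneg (h x) (by have := cK_ge_one he x; linarith)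
  · exact le_rfl

include he hF in
theorem step_nonneg {μ : X → ℝ} (h : ∀ x, 0 ≤ μ x) (y : X) : 0 ≤ step I μ y := by
  unfold step
  apply Finset.sum_nonneg
  intro g _
  split_ifs
  · exact div_nonneg (nu_nonneg he h g) (by have := cF_ge_one hF g; linarith)
  · exact le_rfl

include he hF in
/-- the drift identity -/
theorem drift_identity (μ : X → ℝ) (Φ : G → ℝ) :
    ∑ g, nu I (step I μ) g * Φ g = ∑ g, nu I μ g * Dr I Φ g := by
  rw [sum_nu_mul he, sum_step_mul hF]
  rfl

include he hF in
/-- lower bound from the identity element -/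
theorem step_ge {μ : X → ℝ} (h : ∀ x, 0 ≤ μ x) (y : X) :
    nu I μ e / Fintype.card X ≤ step I μ y := by
  unfold step
  have h1 : cF I e = Fintype.card X := by
    unfold cF
    rw [Finset.filter_true_of_mem (fun x _ => he x), Finset.card_univ]
  calc nu I μ e / Fintype.card X = if I e y then nu I μ e / cF I e else 0 := by
        rw [if_pos (he y), h1]
    _ ≤ _ := Finset.single_le_sum (f := fun g => if I g y then nu I μ g / cF I g else 0) (fun g _ => by
        split_ifs
        · exact div_nonneg (nu_nonneg he h g) (by have := cF_ge_one hF g; linarith)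
        · exact le_rfl) (Finset.mem_univ e)

theorem step_sub (μ ρ : X → ℝ) (y : X) : step I μ y - step I ρ y = step I (fun x => μ x - ρ x) y := by
  unfold step nu
  rw [← Finset.sum_sub_distrib]
  apply Finset.sum_congr rfl
  intro g _
  split_ifs
  · rw [← sub_div, ← Finset.sum_sub_distrib]
    congr 1
    apply Finset.sum_congr rfl
    intro x _
    split_ifs
    · ring
    · simp
  · simp

/-- the stationary distribution -/
noncomputable def stat (I : G → X → Prop) [∀ g x, Decidable (I g x)] (x : X) : ℝ :=
  cK I x / ∑ y, cK I y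

include he hF in
theorem step_stat (y : X) : step I (stat I) y = stat I y := by
  have hnu : ∀ g, nu I (stat I) g = cF I g / ∑ y, cK I y := by
    intro g
    unfold nu stat
    have : ∀ x, (if I g x then cK I x / (∑ y, cK I y) / cK I x else 0)
        = if I g x then 1 / (∑ y, cK I y) else 0 := by
      intro x
      split_ifs
      · have := cK_ge_one he x
        field_simp
      · rfl
    rw [Finset.sum_congr rfl (fun x _ => this x), sum_ite_cF]
    ring
  unfold step
  have : ∀ g, (if I g y then nu I (stat I) g / cF I g else 0)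
      = if I g y then 1 / (∑ y, cK I y) else 0 := by
    intro g
    split_ifs
    · rw [hnu]
      have := cF_ge_one hF g
      field_simp
    · rfl
  rw [Finset.sum_congr rfl (fun g _ => this g), sum_ite_cK]
  unfold stat
  ring

include he hF in
/-- contraction in `L¹`, with the Doeblin factor -/
theorem contraction (d : X → ℝ) (hd : ∑ x, d x = 0) :
    ∑ y, |step I d y| ≤ (1 - 1 / (Fintype.card G : ℝ)) * ∑ x, |d x| := by
  -- kernel
  set Pk : X → X → ℝ := fun x y => ∑ g, if I g x ∧ I g y then 1 / (cK I x * cF I g) else 0 with hPk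
  have hX : ∀ y : X, 0 < (Fintype.card X : ℝ) := fun y => by
    have : 0 < Fintype.card X := Fintype.card_pos_iff.2 ⟨y⟩
    exact_mod_cast this
  have hG : 0 < (Fintype.card G : ℝ) := by
    have : 0 < Fintype.card G := Fintype.card_pos_iff.2 ⟨e⟩
    exact_mod_cast this
  have hstep : ∀ y, step I d y = ∑ x, d x * Pk x y := by
    intro y
    unfold step nu
    simp only [hPk, Finset.mul_sum]
    rw [Finset.sum_comm]
    apply Finset.sum_congr rfl
    intro g _
    by_cases h : I g y
    · rw [if_pos h, Finset.sum_div]
      apply Finset.sum_congr rfl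
      intro x _
      by_cases h' : I g x
      · simp only [h, h', and_self, if_true]
        have := cK_ge_one he x
        have := cF_ge_one hF g
        field_simp
      · simp [h']
    · rw [if_neg h]
      symm
      apply Finset.sum_eq_zero
      intro x _
      simp [h]
  have hPsum : ∀ x, ∑ y, Pk x y = 1 := by
    intro x
    simp only [hPk]
    rw [Finset.sum_comm]
    have : ∀ g, (∑ y, if I g x ∧ I g y then 1 / (cK I x * cF I g) else 0)
        = if I g x then 1 / cK I x else 0 := by
      intro g
      by_cases h : I g x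
      · simp only [h, true_and, if_true]
        rw [sum_ite_cF]
        have := cK_ge_one he x
        have := cF_ge_one hF g
        field_simp
      · simp [h]
    rw [Finset.sum_congr rfl (fun g _ => this g), sum_ite_cK]
    have := cK_ge_one he x
    field_simp
  have hPge : ∀ x y, 1 / ((Fintype.card G : ℝ) * Fintype.card X) ≤ Pk x y := by
    intro x y
    have h1 : cF I e = Fintype.card X := by
      unfold cF
      rw [Finset.filter_true_of_mem (fun x _ => he x), Finset.card_univ]
    have h2 : cK I x ≤ Fintype.card G := by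
      unfold cK
      exact_mod_cast Finset.card_le_univ _
    have h3 := cK_ge_one he x
    have h4 := hX x
    calc 1 / ((Fintype.card G : ℝ) * Fintype.card X) ≤ 1 / (cK I x * Fintype.card X) := by
          apply one_div_le_one_div_of_le (by positivity)
          exact mul_le_mul_of_nonneg_right h2 h4.le
      _ = if I e x ∧ I e y then 1 / (cK I x * cF I e) else 0 := by
          rw [if_pos ⟨he x, he y⟩, h1]
      _ ≤ _ := Finset.single_le_sum
          (f := fun g => if I g x ∧ I g y then 1 / (cK I x * cF I g) else 0) (fun g _ => by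
            split_ifs
            · have := cF_ge_one hF g
              positivity
            · exact le_rfl) (Finset.mem_univ e)
  have h1 : ∀ y, |step I d y| ≤ ∑ x, |d x| * (Pk x y - 1 / ((Fintype.card G : ℝ) * Fintype.card X)) := by
    intro y
    have h2 : step I d y = ∑ x, d x * (Pk x y - 1 / ((Fintype.card G : ℝ) * Fintype.card X)) := by
      rw [hstep]
      simp only [mul_sub, Finset.sum_sub_distrib]
      rw [← Finset.sum_mul, hd, zero_mul, sub_zero]
    rw [h2]
    refine (Finset.abs_sum_le_sum_abs _ _).trans (Finset.sum_le_sum fun x _ => ?_)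
    rw [abs_mul, abs_of_nonneg (a := Pk x y - _) (sub_nonneg.2 (hPge x y))]
  calc ∑ y, |step I d y| ≤ ∑ y, ∑ x, |d x| * (Pk x y - 1 / ((Fintype.card G : ℝ) * Fintype.card X)) :=
        Finset.sum_le_sum fun y _ => h1 y
    _ = ∑ x, |d x| * (1 - 1 / (Fintype.card G : ℝ)) := by
        rw [Finset.sum_comm]
        apply Finset.sum_congr rfl
        intro x _
        rw [← Finset.mul_sum, Finset.sum_sub_distrib, hPsum, Finset.sum_const, Finset.card_univ,
          nsmul_eq_mul]
        congr 2
        have := hX x
        field_simp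
    _ = _ := by rw [← Finset.sum_mul]; ring

include he hF in
theorem avK_bounds {Φ : G → ℝ} {M : ℝ} (h0 : ∀ g, 0 ≤ Φ g) (hM : ∀ g, Φ g ≤ M) (x : X) :
    0 ≤ avK I Φ x ∧ avK I Φ x ≤ M := by
  have h1 := cK_ge_one he x
  unfold avK
  constructor
  · apply div_nonneg _ (by linarith)
    apply Finset.sum_nonneg
    intro g _
    split_ifs
    · exact h0 g
    · exact le_rfl
  · rw [div_le_iff₀ (by linarith)]
    calc (∑ g, if I g x then Φ g else 0) ≤ ∑ g, if I g x then M else 0 := by
          apply Finset.sum_le_sum
          intro g _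
          split_ifs
          · exact hM g
          · exact le_rfl
      _ = M * cK I x := by rw [sum_ite_cK, mul_comm]

include he hF in
/-- the sum of the potential after one step, under the drift condition -/
theorem drift_sum {Φ : G → ℝ} {ε : ℝ} (hε : 0 ≤ ε)
    (hdr : ∀ g, g ≠ e → Φ g + 1 ≤ Dr I Φ g) (hde : Φ e - ε ≤ Dr I Φ e)
    {μ : X → ℝ} (hμ : ∀ x, 0 ≤ μ x) (hμ1 : ∑ x, μ x = 1) :
    ∑ g, nu I μ g * Φ g + (1 - nu I μ e) - ε ≤ ∑ g, nu I (step I μ) g * Φ g := by
  classical
  rw [drift_identity he hF]
  have h1 : ∑ g, nu I μ g = 1 := by rw [sum_nu he, hμ1]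
  have h2 : ∀ g, nu I μ g * Φ g + nu I μ g * (if g = e then -ε else 1) ≤ nu I μ g * Dr I Φ g := by
    intro g
    rw [← mul_add]
    apply mul_le_mul_of_nonneg_left _ (nu_nonneg he hμ g)
    split_ifs with h
    · rw [h]; linarith
    · exact hdr g h
  have h3 := Finset.sum_le_sum (s := Finset.univ) fun g _ => h2 g
  rw [Finset.sum_add_distrib] at h3
  have h4 : ∑ g, nu I μ g * (if g = e then -ε else 1) = (1 - nu I μ e) - ε * nu I μ e := by
    have : ∀ g, nu I μ g * (if g = e then -ε else 1) =
        nu I μ g - (if g = e then (1 + ε) * nu I μ e else 0) := by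
      intro g
      split_ifs with h
      · rw [h]; ring
      · ring
    rw [Finset.sum_congr rfl fun g _ => this g, Finset.sum_sub_distrib, h1,
      Finset.sum_ite_eq' Finset.univ e]
    simp only [Finset.mem_univ, if_true]
    ring
  have h5 : nu I μ e ≤ 1 := by
    rw [← h1]
    exact Finset.single_le_sum (fun g _ => nu_nonneg he hμ g) (Finset.mem_univ e)
  rw [h4] at h3
  nlinarith [nu_nonneg he hμ e]

include he hF in
theorem stat_props (hX : Nonempty X) : (∀ x, 0 ≤ stat I x) ∧ ∑ x, stat I x = 1 := by
  have h1 : 0 < ∑ y, cK I y := by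
    apply Finset.sum_pos
    · intro x _
      have := cK_ge_one he x
      linarith
    · exact Finset.univ_nonempty
  constructor
  · intro x
    have := cK_ge_one he x
    unfold stat
    positivity
  · unfold stat
    rw [← Finset.sum_div, div_self h1.ne']

include he hF in
/-- **Abstract mixing theorem.** -/
theorem mixing {Φ : G → ℝ} {M ε : ℝ} (h0 : ∀ g, 0 ≤ Φ g) (hM : ∀ g, Φ g ≤ M)
    (hε : 0 ≤ ε) (hε1 : ε ≤ 1 / 16)
    (hdr : ∀ g, g ≠ e → Φ g + 1 ≤ Dr I Φ g) (hde : Φ e - ε ≤ Dr I Φ e)
    (μ : ℕ → X → ℝ) (hμ0 : ∀ x, 0 ≤ μ 0 x) (hμ1 : ∑ x, μ 0 x = 1)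
    (hstep : ∀ t y, μ (t + 1) y = step I (μ t) y) (t : ℕ) (ht : 16 * M + 1 < t) :
    ∑ y, |μ t y - stat I y| ≤ 1 / 4 := by
  classical
  have hXn : Nonempty X := by
    by_contra hcon
    rw [not_nonempty_iff] at hcon
    rw [Finset.univ_eq_empty, Finset.sum_empty] at hμ1
    exact zero_ne_one hμ1
  have hXpos : 0 < (Fintype.card X : ℝ) := by
    have : 0 < Fintype.card X := Fintype.card_pos_iff.2 hXn
    exact_mod_cast this
  obtain ⟨hs0, hs1⟩ := stat_props (I := I) he hF hXn
  have hst : step I (stat I) = stat I := funext (step_stat he hF)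
  have hnn : ∀ t, (∀ x, 0 ≤ μ t x) ∧ ∑ x, μ t x = 1 := by
    intro t
    induction t with
    | zero => exact ⟨hμ0, hμ1⟩
    | succ t ih =>
      constructor
      · intro x; rw [hstep]; exact step_nonneg he hF ih.1 x
      · rw [Finset.sum_congr rfl fun x _ => hstep t x, sum_step he hF, ih.2]
  have hfun : ∀ t, μ (t + 1) = step I (μ t) := fun t => funext (hstep t)
  -- the stationary distribution gives large mass to the identity
  have hnue : 1 - ε ≤ nu I (stat I) e := by
    have := drift_sum he hF hε hdr hde hs0 hs1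
    rw [hst] at this
    linarith
  have hsge : ∀ y, (15 / 16) / Fintype.card X ≤ stat I y := by
    intro y
    have h1 := step_ge he hF hs0 y
    rw [hst] at h1
    refine le_trans ?_ h1
    apply div_le_div_of_nonneg_right _ hXpos.le
    linarith
  -- some early time has large mass at the identity
  have hex : ∃ s : ℕ, s < t ∧ 7 / 8 ≤ nu I (μ s) e ∧ s + 1 ≤ t := by
    by_contra hcon
    push Not at hcon
    have hall : ∀ s, s < t → nu I (μ s) e < 7 / 8 := by
      intro s hs
      by_contra h1
      push Not at h1
      have := hcon s hs h1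
      omega
    have hgrow : ∀ s, s ≤ t → (s : ℝ) * (1 / 16) ≤ ∑ g, nu I (μ s) g * Φ g := by
      intro s
      induction s with
      | zero =>
        intro _
        simp only [Nat.cast_zero, zero_mul]
        exact Finset.sum_nonneg fun g _ => mul_nonneg (nu_nonneg he (hnn 0).1 g) (h0 g)
      | succ s ih =>
        intro hs
        have h1 := ih (by omega)
        have h2 := hall s (by omega)
        have h3 := drift_sum he hF hε hdr hde (hnn s).1 (hnn s).2
        rw [hfun]
        push_cast
        linarith
    have h1 := hgrow t le_rfl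
    have h2 : ∑ g, nu I (μ t) g * Φ g ≤ M := by
      calc ∑ g, nu I (μ t) g * Φ g ≤ ∑ g, nu I (μ t) g * M :=
            Finset.sum_le_sum fun g _ => mul_le_mul_of_nonneg_left (hM g) (nu_nonneg he (hnn t).1 g)
        _ = M := by rw [← Finset.sum_mul, sum_nu he, (hnn t).2, one_mul]
    linarith
  obtain ⟨s, hst1, hs7, hst2⟩ := hex
  have hge : ∀ y, (7 / 8) / Fintype.card X ≤ μ (s + 1) y := by
    intro y
    rw [hstep]
    refine le_trans ?_ (step_ge he hF (hnn s).1 y)
    exact div_le_div_of_nonneg_right hs7 hXpos.le
  have hL1 : ∑ y, |μ (s + 1) y - stat I y| ≤ 1 / 4 := by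
    have h1 : ∀ y, |μ (s + 1) y - stat I y| ≤
        (μ (s + 1) y - (7 / 8) / Fintype.card X) + (stat I y - (7 / 8) / Fintype.card X) := by
      intro y
      have h2 := hge y
      have h3 : (7 / 8 : ℝ) / Fintype.card X ≤ stat I y := by
        refine le_trans ?_ (hsge y)
        apply div_le_div_of_nonneg_right _ hXpos.le
        norm_num
      rw [abs_le]
      constructor <;> linarith
    calc ∑ y, |μ (s + 1) y - stat I y| ≤ ∑ y, ((μ (s + 1) y - (7 / 8) / Fintype.card X) +
          (stat I y - (7 / 8) / Fintype.card X)) := Finset.sum_le_sum fun y _ => h1 y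
      _ = 1 / 4 := by
        rw [Finset.sum_add_distrib, Finset.sum_sub_distrib, Finset.sum_sub_distrib,
          (hnn (s + 1)).2, hs1, Finset.sum_const, Finset.card_univ, nsmul_eq_mul]
        field_simp
        norm_num
  -- monotonicity
  have hmono : ∀ r, ∑ y, |μ (s + 1 + r) y - stat I y| ≤ 1 / 4 := by
    intro r
    induction r with
    | zero => exact hL1
    | succ r ih =>
      refine le_trans ?_ ih
      have h1 : ∀ y, μ (s + 1 + (r + 1)) y - stat I y =
          step I (fun x => μ (s + 1 + r) x - stat I x) y := by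
        intro y
        rw [← step_sub, step_stat he hF]
        rw [show s + 1 + (r + 1) = (s + 1 + r) + 1 by omega, hstep]
      rw [Finset.sum_congr rfl fun y _ => by rw [h1 y]]
      refine (contraction he hF _ ?_).trans ?_
      · rw [Finset.sum_sub_distrib, (hnn _).2, hs1, sub_self]
      · have h2 : 0 ≤ ∑ x, |μ (s + 1 + r) x - stat I x| :=
          Finset.sum_nonneg fun _ _ => abs_nonneg _
        have h3 : 0 ≤ 1 / (Fintype.card G : ℝ) := by positivity
        nlinarith
  have := hmono (t - (s + 1))
  rwa [show s + 1 + (t - (s + 1)) = t by omega] at this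

include he hF in
/-- **Doeblin bound** for every start. -/
theorem doeblin (μ : ℕ → X → ℝ) (hμ0 : ∀ x, 0 ≤ μ 0 x) (hμ1 : ∑ x, μ 0 x = 1)
    (hstep : ∀ t y, μ (t + 1) y = step I (μ t) y) (t : ℕ) :
    ∑ y, |μ t y - stat I y| ≤ 2 * (1 - 1 / (Fintype.card G : ℝ)) ^ t := by
  classical
  have hXn : Nonempty X := by
    by_contra hcon
    rw [not_nonempty_iff] at hcon
    rw [Finset.univ_eq_empty, Finset.sum_empty] at hμ1
    exact zero_ne_one hμ1
  obtain ⟨hs0, hs1⟩ := stat_props (I := I) he hF hXn
  have hnn : ∀ t, (∀ x, 0 ≤ μ t x) ∧ ∑ x, μ t x = 1 := by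
    intro t
    induction t with
    | zero => exact ⟨hμ0, hμ1⟩
    | succ t ih =>
      constructor
      · intro x; rw [hstep]; exact step_nonneg he hF ih.1 x
      · rw [Finset.sum_congr rfl fun x _ => hstep t x, sum_step he hF, ih.2]
  have hG1 : 0 ≤ 1 - 1 / (Fintype.card G : ℝ) := by
    have : (1:ℝ) ≤ Fintype.card G := by
      have : 1 ≤ Fintype.card G := Fintype.card_pos_iff.2 ⟨e⟩
      exact_mod_cast this
    rw [sub_nonneg, div_le_one (by linarith)]
    exact this
  induction t with
  | zero =>
    rw [pow_zero, mul_one]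
    calc ∑ y, |μ 0 y - stat I y| ≤ ∑ y, (μ 0 y + stat I y) := by
          apply Finset.sum_le_sum
          intro y _
          have h1 := (hnn 0).1 y
          have h2 := hs0 y
          rw [abs_le]
          constructor <;> linarith
      _ = 2 := by rw [Finset.sum_add_distrib, (hnn 0).2, hs1]; norm_num
  | succ t ih =>
    have h1 : ∀ y, μ (t + 1) y - stat I y = step I (fun x => μ t x - stat I x) y := by
      intro y
      rw [← step_sub, step_stat he hF, hstep]
    rw [Finset.sum_congr rfl fun y _ => by rw [h1 y]]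
    refine (contraction he hF _ ?_).trans ?_
    · rw [Finset.sum_sub_distrib, (hnn _).2, hs1, sub_self]
    · calc (1 - 1 / (Fintype.card G : ℝ)) * ∑ x, |μ t x - stat I x|
          ≤ (1 - 1 / (Fintype.card G : ℝ)) * (2 * (1 - 1 / (Fintype.card G : ℝ)) ^ t) :=
            mul_le_mul_of_nonneg_left ih hG1
        _ = _ := by ring

end

end Pool.Agent.Helper870.BP
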