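import Mathlib
import Pool.Agent.Helper870.BPAbstract

set_option autoImplicit false
set_option linter.unusedSectionVars false

namespace Pool.Agent.Helper870.BP

open Finset

section
variable {V : Type} [Fintype V] [DecidableEq V] (σ : Equiv.Perm V)

/-- pairs are equivalent when some power of `σ` carries one to the other -/
def pairSetoid : Setoid (Sym2 V) where
  r e e' := ∃ k : ℤ, Sym2.map (⇑(σ ^ k)) e = e'
  iseqv := by
    refine ⟨fun e => ⟨0, ?_⟩, ?_, ?_⟩
    · rw [zpow_zero]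
      exact congrFun Sym2.map_id e
    · rintro e e' ⟨k, rfl⟩
      refine ⟨-k, ?_⟩
      rw [Sym2.map_map, ← Equiv.Perm.coe_mul, ← zpow_add, neg_add_cancel, zpow_zero]
      exact congrFun Sym2.map_id e
    · rintro e e' e'' ⟨k, rfl⟩ ⟨l, rfl⟩
      refine ⟨l + k, ?_⟩
      rw [Sym2.map_map, ← Equiv.Perm.coe_mul, ← zpow_add]

/-- orbits of pairs -/
def Orb : Type := Quotient (pairSetoid σ)

noncomputable instance : Fintype (Orb σ) := by
  classical
  unfold Orb
  exact Fintype.ofFinite _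

noncomputable instance : DecidableEq (Orb σ) := Classical.decEq _

/-- the orbit of the pair `{x, y}` -/
def q (x y : V) : Orb σ := Quotient.mk (pairSetoid σ) s(x, y)

theorem q_comm (x y : V) : q σ x y = q σ y x := by
  unfold q
  rw [Sym2.eq_swap]

theorem q_eq_iff {x y x' y' : V} : q σ x y = q σ x' y' ↔
    ∃ k : ℤ, ((σ ^ k) x = x' ∧ (σ ^ k) y = y') ∨ ((σ ^ k) x = y' ∧ (σ ^ k) y = x') := by
  constructor
  · intro h
    have h1 : (pairSetoid σ).r s(x, y) s(x', y') := Quotient.exact h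
    obtain ⟨k, hk⟩ := h1
    refine ⟨k, ?_⟩
    rw [Sym2.map_mk, Sym2.eq_iff] at hk
    exact hk
  · rintro ⟨k, hk⟩
    apply Quotient.sound (s := pairSetoid σ)
    refine ⟨k, ?_⟩
    rw [Sym2.map_mk, Sym2.eq_iff]
    exact hk

theorem q_zpow (k : ℤ) (x y : V) : q σ ((σ ^ k) x) ((σ ^ k) y) = q σ x y := by
  symm
  rw [q_eq_iff]
  exact ⟨k, Or.inl ⟨rfl, rfl⟩⟩

/-- the graph with given bits -/
def gr (ξ : Orb σ → Bool) : SimpleGraph V where
  Adj x y := x ≠ y ∧ ξ (q σ x y) = true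
  symm := ⟨fun x y h => ⟨h.1.symm, by rw [q_comm]; exact h.2⟩⟩
  loopless := ⟨fun x h => h.1 rfl⟩

theorem gr_adj (ξ : Orb σ → Bool) (x y : V) :
    (gr σ ξ).Adj x y ↔ x ≠ y ∧ ξ (q σ x y) = true := Iff.rfl

theorem gr_fix (ξ : Orb σ → Bool) : SimpleGraph.comap (⇑σ) (gr σ ξ) = gr σ ξ := by
  ext x y
  rw [SimpleGraph.comap_adj, gr_adj, gr_adj]
  have h := q_zpow σ 1 x y
  rw [zpow_one] at h
  rw [h]
  simp

theorem adj_zpow {β : SimpleGraph V} (h : SimpleGraph.comap (⇑σ) β = β) (k : ℤ) (x y : V) :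
    β.Adj ((σ ^ k) x) ((σ ^ k) y) ↔ β.Adj x y := by
  have h1 : ∀ x y, β.Adj (σ x) (σ y) ↔ β.Adj x y := by
    intro x y
    conv_rhs => rw [← h]
    rfl
  have h2 : ∀ (n : ℕ) x y, β.Adj ((σ ^ n) x) ((σ ^ n) y) ↔ β.Adj x y := by
    intro n
    induction n with
    | zero => intro x y; simp
    | succ n ih =>
      intro x y
      rw [pow_succ', Equiv.Perm.mul_apply, Equiv.Perm.mul_apply, h1, ih]
  cases k with
  | ofNat n => exact h2 n x y
  | negSucc n =>
    rw [zpow_negSucc]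
    have h3 := h2 (n + 1) ((σ ^ (n + 1))⁻¹ x) ((σ ^ (n + 1))⁻¹ y)
    have e1 : ∀ z, (σ ^ (n + 1)) ((σ ^ (n + 1))⁻¹ z) = z := by intro z; simp
    rw [e1, e1] at h3
    exact h3.symm

theorem exists_bits {β : SimpleGraph V} (h : SimpleGraph.comap (⇑σ) β = β) :
    ∃ ξ : Orb σ → Bool, gr σ ξ = β := by
  classical
  have hinv : ∀ e e' : Sym2 V, (pairSetoid σ).r e e' →
      decide (e ∈ β.edgeSet) = decide (e' ∈ β.edgeSet) := by
    rintro e e' ⟨k, rfl⟩
    rw [decide_eq_decide]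
    induction e using Sym2.ind with
    | _ x y =>
      rw [Sym2.map_mk, SimpleGraph.mem_edgeSet, SimpleGraph.mem_edgeSet]
      exact (adj_zpow σ h k x y).symm
  let F : Orb σ → Bool := Quotient.lift (s := pairSetoid σ) (fun e => decide (e ∈ β.edgeSet)) hinv
  have hF : ∀ x y, F (q σ x y) = decide (β.Adj x y) := fun x y => rfl
  refine ⟨F, ?_⟩
  ext x y
  rw [gr_adj, hF, decide_eq_true_eq]
  exact ⟨fun h => h.2, fun h => ⟨h.ne, h⟩⟩

theorem gr_eq_iff (ξ η : Orb σ → Bool) :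
    gr σ ξ = gr σ η ↔ ∀ x y, x ≠ y → ξ (q σ x y) = η (q σ x y) := by
  constructor
  · intro h x y hxy
    have h1 : (gr σ ξ).Adj x y ↔ (gr σ η).Adj x y := by rw [h]
    rw [gr_adj, gr_adj] at h1
    simp only [ne_eq, hxy, not_false_eq_true, true_and] at h1
    rwa [Bool.eq_iff_iff]
  · intro h
    ext x y
    rw [gr_adj, gr_adj]
    constructor
    · rintro ⟨h1, h2⟩
      exact ⟨h1, by rw [← h x y h1]; exact h2⟩
    · rintro ⟨h1, h2⟩
      exact ⟨h1, by rw [h x y h1]; exact h2⟩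

open Classical in
/-- the uniform bits give the uniform invariant graph -/
theorem sum_bits (f : SimpleGraph V → ℝ) :
    (∑ β : SimpleGraph V, if SimpleGraph.comap (⇑σ) β = β then f β else 0) /
      ((univ.filter (fun β : SimpleGraph V => SimpleGraph.comap (⇑σ) β = β)).card : ℝ) =
    (∑ ξ : Orb σ → Bool, f (gr σ ξ)) / 2 ^ Fintype.card (Orb σ) := by
  set c : ℕ := (univ.filter (fun ξ : Orb σ → Bool => gr σ ξ = gr σ (fun _ => false))).card with hc
  have hfib : ∀ β ∈ univ.filter (fun β : SimpleGraph V => SimpleGraph.comap (⇑σ) β = β),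
      (univ.filter (fun ξ : Orb σ → Bool => gr σ ξ = β)).card = c := by
    intro β hβ
    obtain ⟨η, rfl⟩ := exists_bits σ (Finset.mem_filter.1 hβ).2
    apply Finset.card_nbij' (i := fun ξ => fun w => xor (ξ w) (η w))
      (j := fun ξ => fun w => xor (ξ w) (η w))
    · intro ξ hξ
      have h1 := (gr_eq_iff σ ξ η).1 (Finset.mem_filter.1 hξ).2
      rw [Finset.mem_coe, Finset.mem_filter]
      refine ⟨Finset.mem_univ _, (gr_eq_iff σ _ _).2 fun x y hxy => ?_⟩
      simp [h1 x y hxy]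
    · intro ξ hξ
      have h1 := (gr_eq_iff σ ξ _).1 (Finset.mem_filter.1 hξ).2
      rw [Finset.mem_coe, Finset.mem_filter]
      refine ⟨Finset.mem_univ _, (gr_eq_iff σ _ _).2 fun x y hxy => ?_⟩
      simp [h1 x y hxy]
    · intro ξ _
      funext w
      simp
    · intro ξ _
      funext w
      simp
  have hmaps : ∀ ξ ∈ (univ : Finset (Orb σ → Bool)),
      gr σ ξ ∈ univ.filter (fun β : SimpleGraph V => SimpleGraph.comap (⇑σ) β = β) := by
    intro ξ _
    exact Finset.mem_filter.2 ⟨Finset.mem_univ _, gr_fix σ ξ⟩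
  have h1 : ∑ ξ : Orb σ → Bool, f (gr σ ξ) =
      c * ∑ β : SimpleGraph V, if SimpleGraph.comap (⇑σ) β = β then f β else 0 := by
    rw [← Finset.sum_fiberwise_of_maps_to hmaps, ← Finset.sum_filter, Finset.mul_sum]
    apply Finset.sum_congr rfl
    intro β hβ
    rw [Finset.sum_congr rfl (fun ξ hξ => by rw [(Finset.mem_filter.1 hξ).2]), Finset.sum_const,
      hfib β hβ, nsmul_eq_mul]
  have h2 : (2 : ℝ) ^ Fintype.card (Orb σ) = c *
      ((univ.filter (fun β : SimpleGraph V => SimpleGraph.comap (⇑σ) β = β)).card : ℝ) := by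
    have h3 : (univ : Finset (Orb σ → Bool)).card = ∑ β ∈ univ.filter
        (fun β : SimpleGraph V => SimpleGraph.comap (⇑σ) β = β),
        (univ.filter (fun ξ : Orb σ → Bool => gr σ ξ = β)).card :=
      Finset.card_eq_sum_card_fiberwise hmaps
    rw [Finset.sum_congr rfl hfib, Finset.sum_const, Finset.card_univ, Fintype.card_fun,
      Fintype.card_bool, smul_eq_mul] at h3
    have h4 := congrArg (fun n : ℕ => (n : ℝ)) h3
    push_cast at h4
    rw [h4]; ring
  have hc0 : (c : ℝ) ≠ 0 := by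
    intro h
    rw [h, zero_mul] at h2
    exact (pow_ne_zero _ (by norm_num)) h2
  rw [h1, h2, mul_div_mul_left _ _ hc0]

end

end Pool.Agent.Helper870.BP
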