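import Mathlib

set_option autoImplicit false
set_option linter.unusedSectionVars false

namespace Pool.Agent.Helper870.BP

open Finset

section
variable {O : Type} [Fintype O] [DecidableEq O]

/-- if the coordinates in `E` are determined by the others on `A`, then `A` is small -/
theorem det_card (A : Finset (O → Bool)) (E : Finset O)
    (h : ∀ ξ ∈ A, ∀ ξ' ∈ A, (∀ e, e ∉ E → ξ e = ξ' e) → ξ = ξ') :
    A.card * 2 ^ E.card ≤ 2 ^ Fintype.card O := by
  have h1 : A.card ≤ Fintype.card ({e // e ∉ E} → Bool) := by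
    rw [← Finset.card_univ]
    apply Finset.card_le_card_of_injOn (fun ξ => fun e : {e // e ∉ E} => ξ e.1)
    · intro ξ _
      simp
    · intro ξ hξ ξ' hξ' heq
      apply h ξ hξ ξ' hξ'
      intro e he
      exact congrFun heq ⟨e, he⟩
  rw [Fintype.card_fun, Fintype.card_bool, Fintype.card_subtype_compl, Fintype.card_coe] at h1
  calc A.card * 2 ^ E.card ≤ 2 ^ (Fintype.card O - E.card) * 2 ^ E.card :=
        Nat.mul_le_mul_right _ h1
    _ = 2 ^ Fintype.card O := by
        rw [← pow_add, Nat.sub_add_cancel (Finset.card_le_univ E)]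

/-- set the coordinates in `S` to true -/
def ov (η : O → Bool) (S : Finset O) : O → Bool := fun w => if w ∈ S then true else η w

theorem v_ov {W : Finset O} {v : (O → Bool) → O → ℤ}
    (h2 : ∀ ξ, ∀ w ∈ W, ∀ w' ∈ W, ∀ b, v (Function.update ξ w' b) w = v ξ w)
    (η : O → Bool) (S : Finset O) (hS : S ⊆ W) (w : O) (hw : w ∈ W) : v (ov η S) w = v η w := by
  induction S using Finset.induction_on with
  | empty => congr 1
  | insert a S ha ih =>
    have h1 : ov η (insert a S) = Function.update (ov η S) a true := by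
      funext u
      by_cases hu : u = a
      · subst hu; simp [ov]
      · rw [Function.update_of_ne hu]
        simp [ov, hu]
    rw [h1, h2 _ w hw a (hS (Finset.mem_insert_self a S)),
      ih (fun x hx => hS (Finset.mem_insert_of_mem hx))]

theorem s_ov {W : Finset O} {s : (O → Bool) → ℤ} {v : (O → Bool) → O → ℤ}
    (h1 : ∀ ξ, ∀ w ∈ W, s (Function.update ξ w true) = s (Function.update ξ w false) + v ξ w)
    (h2 : ∀ ξ, ∀ w ∈ W, ∀ w' ∈ W, ∀ b, v (Function.update ξ w' b) w = v ξ w)
    (η : O → Bool) (S : Finset O) (hS : S ⊆ W) (hη : ∀ w ∈ S, η w = false) :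
    s (ov η S) = s η + ∑ w ∈ S, v η w := by
  induction S using Finset.induction_on with
  | empty =>
    have h0 : ov η ∅ = η := by funext w; simp [ov]
    rw [h0, Finset.sum_empty, add_zero]
  | insert a S ha ih =>
    have ha' : a ∈ W := hS (Finset.mem_insert_self a S)
    have hS' : S ⊆ W := fun x hx => hS (Finset.mem_insert_of_mem hx)
    have e1 : ov η (insert a S) = Function.update (ov η S) a true := by
      funext u
      by_cases hu : u = a
      · subst hu; simp [ov]
      · rw [Function.update_of_ne hu]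
        simp [ov, hu]
    have e2 : Function.update (ov η S) a false = ov η S := by
      rw [Function.update_eq_self_iff]
      simp [ov, ha, hη a (Finset.mem_insert_self a S)]
    rw [e1, h1 _ a ha', e2, ih hS' (fun w hw => hη w (Finset.mem_insert_of_mem hw)),
      v_ov h2 η S hS' a ha', Finset.sum_insert ha]
    ring

/-- the antichain estimate on one fibre -/
theorem fibre_card {W : Finset O} {s : (O → Bool) → ℤ} {v : (O → Bool) → O → ℤ}
    (h1 : ∀ ξ, ∀ w ∈ W, s (Function.update ξ w true) = s (Function.update ξ w false) + v ξ w)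
    (h2 : ∀ ξ, ∀ w ∈ W, ∀ w' ∈ W, ∀ b, v (Function.update ξ w' b) w = v ξ w)
    (η : O → Bool) (S : Finset O) (hS : S ⊆ W) (hη : ∀ w ∈ S, η w = false)
    (hv : ∀ w ∈ S, v η w ≠ 0) (B : Finset (Finset O)) (hB : ∀ R ∈ B, R ⊆ S ∧ s (ov η R) = 0) :
    B.card ≤ S.card.choose (S.card / 2) := by
  classical
  let Ng : Finset O := S.filter (fun w => v η w < 0)
  -- transport to subsets of the subtype
  let φ : Finset O → Finset {w // w ∈ S} := fun R => (symmDiff R Ng).subtype (fun w => w ∈ S)
  have hφ : ∀ R ∈ B, ∀ R' ∈ B, φ R = φ R' → R = R' := by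
    intro R hR R' hR' heq
    have h3 : symmDiff R Ng = symmDiff R' Ng := by
      ext w
      by_cases hw : w ∈ S
      · have := Finset.ext_iff.1 heq ⟨w, hw⟩
        simpa [φ] using this
      · have a1 : w ∉ R := fun h => hw ((hB R hR).1 h)
        have a2 : w ∉ R' := fun h => hw ((hB R' hR').1 h)
        have a3 : w ∉ Ng := fun h => hw (Finset.mem_filter.1 h).1
        simp [Finset.mem_symmDiff, a1, a2, a3]
    exact symmDiff_left_injective Ng h3
  have hsum : ∀ R ⊆ S, ∑ w ∈ R, v η w = ∑ w ∈ symmDiff R Ng, |v η w| + ∑ w ∈ Ng, v η w := by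
    intro R hR
    have e1 : symmDiff R Ng = (R \ Ng) ∪ (Ng \ R) := rfl
    rw [e1, Finset.sum_union (by
      rw [Finset.disjoint_left]
      intro w hw hw'
      exact (Finset.mem_sdiff.1 hw').2 (Finset.mem_sdiff.1 hw).1)]
    have e2 : ∑ w ∈ R \ Ng, |v η w| = ∑ w ∈ R \ Ng, v η w := by
      apply Finset.sum_congr rfl
      intro w hw
      rw [Finset.mem_sdiff] at hw
      apply abs_of_nonneg
      by_contra hcon
      exact hw.2 (Finset.mem_filter.2 ⟨hR hw.1, by omega⟩)
    have e3 : ∑ w ∈ Ng \ R, |v η w| = - ∑ w ∈ Ng \ R, v η w := by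
      rw [← Finset.sum_neg_distrib]
      apply Finset.sum_congr rfl
      intro w hw
      rw [Finset.mem_sdiff] at hw
      exact abs_of_neg (Finset.mem_filter.1 hw.1).2
    have e4 : ∑ w ∈ R, v η w = ∑ w ∈ R \ Ng, v η w + ∑ w ∈ R ∩ Ng, v η w := by
      rw [add_comm, Finset.sum_inter_add_sum_sdiff]
    have e5 : ∑ w ∈ Ng, v η w = ∑ w ∈ Ng \ R, v η w + ∑ w ∈ R ∩ Ng, v η w := by
      rw [Finset.inter_comm, add_comm, Finset.sum_inter_add_sum_sdiff]
    rw [e2, e3, e4, e5]
    ring
  have hanti : IsAntichain (· ⊆ ·) ((B.image φ : Finset (Finset {w // w ∈ S})) :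
      Set (Finset {w // w ∈ S})) := by
    intro P hP Q hQ hne hsub
    rw [Finset.mem_coe, Finset.mem_image] at hP hQ
    obtain ⟨R, hR, rfl⟩ := hP
    obtain ⟨R', hR', rfl⟩ := hQ
    -- strict inclusion of symmetric differences
    have hss : symmDiff R Ng ⊆ symmDiff R' Ng := by
      intro w hw
      have hwS : w ∈ S := by
        rcases Finset.mem_symmDiff.1 hw with h | h
        · exact (hB R hR).1 h.1
        · exact (Finset.mem_filter.1 h.1).1
      have h3 : (⟨w, hwS⟩ : {w // w ∈ S}) ∈ φ R := by simpa [φ] using hw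
      have h4 := hsub h3
      simpa [φ] using h4
    have hne' : symmDiff R Ng ≠ symmDiff R' Ng := by
      intro h3
      apply hne
      simp only [φ, h3]
    have hss' : symmDiff R Ng ⊂ symmDiff R' Ng := Finset.ssubset_iff_subset_ne.2 ⟨hss, hne'⟩
    obtain ⟨w, hw1, hw2⟩ := Finset.exists_of_ssubset hss'
    have hwS : w ∈ S := by
      rcases Finset.mem_symmDiff.1 hw1 with h | h
      · exact (hB R' hR').1 h.1
      · exact (Finset.mem_filter.1 h.1).1
    have h5 : ∑ u ∈ symmDiff R Ng, |v η u| < ∑ u ∈ symmDiff R' Ng, |v η u| := by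
      apply Finset.sum_lt_sum_of_subset hss hw1 hw2 (abs_pos.2 (hv w hwS))
      intro u _ _
      exact abs_nonneg _
    have h6 := s_ov h1 h2 η R ((hB R hR).1.trans hS) (fun w hw => hη w ((hB R hR).1 hw))
    have h7 := s_ov h1 h2 η R' ((hB R' hR').1.trans hS) (fun w hw => hη w ((hB R' hR').1 hw))
    rw [(hB R hR).2, hsum R (hB R hR).1] at h6
    rw [(hB R' hR').2, hsum R' (hB R' hR').1] at h7
    omega
  have hsp := hanti.sperner
  rw [Fintype.card_coe] at hsp
  calc B.card = (B.image φ).card := (Finset.card_image_of_injOn (fun R hR R' hR' h => hφ R hR R' hR' h)).symm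
    _ ≤ _ := hsp

/-- **Littlewood-Offord estimate** in toggle form -/
theorem lo_card (W : Finset O) (s : (O → Bool) → ℤ) (v : (O → Bool) → O → ℤ)
    (h1 : ∀ ξ, ∀ w ∈ W, s (Function.update ξ w true) = s (Function.update ξ w false) + v ξ w)
    (h2 : ∀ ξ, ∀ w ∈ W, ∀ w' ∈ W, ∀ b, v (Function.update ξ w' b) w = v ξ w)
    (N : ℕ) (A : Finset (O → Bool))
    (hA : ∀ ξ ∈ A, s ξ = 0 ∧ N ≤ (W.filter (fun w => v ξ w ≠ 0)).card) :
    A.card * 2 ^ N ≤ 2 ^ Fintype.card O * N.choose (N / 2) := by
  classical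
  -- selection
  have hsel : ∃ sel : Finset O → Finset O, ∀ S : Finset O, N ≤ S.card → sel S ⊆ S ∧ (sel S).card = N := by
    have : ∀ S : Finset O, ∃ T : Finset O, N ≤ S.card → T ⊆ S ∧ T.card = N := by
      intro S
      by_cases h : N ≤ S.card
      · obtain ⟨T, hT⟩ := Finset.exists_subset_card_eq h
        exact ⟨T, fun _ => hT⟩
      · exact ⟨∅, fun h' => absurd h' h⟩
    choose f hf using this
    exact ⟨f, hf⟩
  obtain ⟨sel, hsel⟩ := hsel
  let act : (O → Bool) → Finset O := fun ξ => W.filter (fun w => v ξ w ≠ 0)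
  let W1 : (O → Bool) → Finset O := fun ξ => sel (act ξ)
  let U : Finset (O → Bool) := Finset.univ.filter (fun ξ => N ≤ (act ξ).card)
  let base : (O → Bool) → (O → Bool) := fun ξ => fun w => if w ∈ W1 ξ then false else ξ w
  have hAU : A ⊆ U := by
    intro ξ hξ
    exact Finset.mem_filter.2 ⟨Finset.mem_univ _, (hA ξ hξ).2⟩
  have hW1 : ∀ ξ ∈ U, W1 ξ ⊆ act ξ ∧ (W1 ξ).card = N := fun ξ hξ => hsel _ (Finset.mem_filter.1 hξ).2
  have hW1W : ∀ ξ ∈ U, W1 ξ ⊆ W := fun ξ hξ => (hW1 ξ hξ).1.trans (Finset.filter_subset _ _)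
  -- changing coordinates in W does not change v
  have hvagree : ∀ ξ ξ' : O → Bool, (∀ w, w ∉ W → ξ w = ξ' w) → ∀ w ∈ W, v ξ w = v ξ' w := by
    intro ξ ξ' hag w hw
    have hred : ∀ ζ : O → Bool, v ζ w = v (fun u => if u ∈ W then false else ζ u) w := by
      intro ζ
      have e1 : ζ = ov (fun u => if u ∈ W then false else ζ u) (W.filter (fun u => ζ u = true)) := by
        funext u
        simp only [ov, Finset.mem_filter]
        by_cases hu : u ∈ W
        · by_cases hz : ζ u = true
          · simp [hu, hz]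
          · simp [hu, hz]
        · simp [hu]
      conv_lhs => rw [e1]
      exact v_ov h2 _ _ (Finset.filter_subset _ _) w hw
    rw [hred ξ, hred ξ']
    congr 1
    funext u
    by_cases hu : u ∈ W
    · simp [hu]
    · simp [hu, hag u hu]
  have hactagree : ∀ ξ ξ' : O → Bool, (∀ w, w ∉ W → ξ w = ξ' w) → act ξ = act ξ' := by
    intro ξ ξ' hag
    apply Finset.filter_congr
    intro w hw
    rw [hvagree ξ ξ' hag w hw]
  have hbaseag : ∀ ξ ∈ U, ∀ w, w ∉ W → base ξ w = ξ w := by
    intro ξ hξ w hw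
    simp only [base]
    rw [if_neg]
    exact fun h => hw (hW1W ξ hξ h)
  have hW1base : ∀ ξ ∈ U, W1 (base ξ) = W1 ξ := by
    intro ξ hξ
    simp only [W1]
    rw [hactagree (base ξ) ξ (hbaseag ξ hξ)]
  -- fibres in A are small
  have hfib : ∀ η ∈ A.image base, (A.filter (fun ξ => base ξ = η)).card ≤ N.choose (N / 2) := by
    intro η hη
    obtain ⟨ξ0, hξ0, rfl⟩ := Finset.mem_image.1 hη
    have hξ0U := hAU hξ0
    set η := base ξ0 with hηdef
    have hηU : W1 η = W1 ξ0 := hW1base ξ0 hξ0U
    set S := W1 ξ0 with hS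
    have hSc : S.card = N := (hW1 ξ0 hξ0U).2
    have hη0 : ∀ w ∈ S, η w = false := by
      intro w hw
      simp only [hηdef, base]
      rw [if_pos hw]
    have hvη : ∀ w ∈ S, v η w ≠ 0 := by
      intro w hw
      have h3 : w ∈ act ξ0 := (hW1 ξ0 hξ0U).1 hw
      have h4 := hvagree η ξ0 (hbaseag ξ0 hξ0U) w (hW1W ξ0 hξ0U hw)
      rw [h4]
      exact (Finset.mem_filter.1 h3).2
    -- elements of the fibre
    have hel : ∀ ξ ∈ A.filter (fun ξ => base ξ = η), ξ = ov η (S.filter (fun w => ξ w = true)) := by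
      intro ξ hξ
      obtain ⟨hξA, hξb⟩ := Finset.mem_filter.1 hξ
      have hWS : W1 ξ = S := by
        rw [← hW1base ξ (hAU hξA), hξb, hηU]
      funext w
      simp only [ov, Finset.mem_filter]
      by_cases hw : w ∈ S
      · by_cases hz : ξ w = true
        · simp [hw, hz]
        · have hz' : ξ w = false := by simpa using hz
          simp [hw, hz', hη0 w hw]
      · simp only [hw, false_and, if_false]
        have := congrFun hξb w
        simp only [base] at this
        rw [hWS, if_neg hw] at this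
        exact this
    let B := (A.filter (fun ξ => base ξ = η)).image (fun ξ => S.filter (fun w => ξ w = true))
    have hBc : B.card = (A.filter (fun ξ => base ξ = η)).card := by
      apply Finset.card_image_of_injOn
      intro ξ hξ ξ' hξ' heq
      rw [hel ξ hξ, hel ξ' hξ']
      simp only at heq
      rw [heq]
    rw [← hBc, ← hSc]
    apply fibre_card h1 h2 η S (hW1W ξ0 hξ0U) hη0 hvη B
    intro R hR
    obtain ⟨ξ, hξ, rfl⟩ := Finset.mem_image.1 hR
    refine ⟨Finset.filter_subset _ _, ?_⟩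
    rw [← hel ξ hξ]
    exact (hA ξ (Finset.mem_filter.1 hξ).1).1
  have hup : A.card ≤ N.choose (N / 2) * (A.image base).card :=
    Finset.card_le_mul_card_image A _ hfib
  -- fibres in U are large
  have hfibU : ∀ η ∈ U.image base, 2 ^ N ≤ (U.filter (fun ξ => base ξ = η)).card := by
    intro η hη
    obtain ⟨ξ0, hξ0, rfl⟩ := Finset.mem_image.1 hη
    set η := base ξ0 with hηdef
    set S := W1 ξ0 with hS
    have hSc : S.card = N := (hW1 ξ0 hξ0).2
    have hη0 : ∀ w ∈ S, η w = false := by
      intro w hw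
      simp only [hηdef, base]
      rw [if_pos hw]
    rw [← hSc, ← Finset.card_powerset]
    apply Finset.card_le_card_of_injOn (fun R => ov η R)
    · intro R hR
      have hRS : R ⊆ S := Finset.mem_powerset.1 hR
      have hRW : R ⊆ W := hRS.trans (hW1W ξ0 hξ0)
      have hag : ∀ w, w ∉ W → ov η R w = ξ0 w := by
        intro w hw
        have : w ∉ R := fun h => hw (hRW h)
        simp only [ov, this, if_false]
        exact hbaseag ξ0 hξ0 w hw
      have hact := hactagree (ov η R) ξ0 hag
      have hovU : ov η R ∈ U := by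
        rw [Finset.mem_filter]
        refine ⟨Finset.mem_univ _, ?_⟩
        rw [hact]
        exact (Finset.mem_filter.1 hξ0).2
      rw [Finset.mem_coe, Finset.mem_filter]
      refine ⟨hovU, ?_⟩
      funext w
      have hW1e : W1 (ov η R) = S := by simp only [W1, hact]; rfl
      simp only [base, hW1e]
      by_cases hw : w ∈ S
      · rw [if_pos hw, hη0 w hw]
      · rw [if_neg hw]
        have : w ∉ R := fun h => hw (hRS h)
        simp only [ov, this, if_false]
    · intro R hR R' hR' heq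
      have hRS : R ⊆ S := Finset.mem_powerset.1 hR
      have hRS' : R' ⊆ S := Finset.mem_powerset.1 hR'
      ext w
      have h3 := congrFun heq w
      simp only [ov] at h3
      by_cases hw : w ∈ S
      · rw [hη0 w hw] at h3
        by_cases a : w ∈ R <;> by_cases b : w ∈ R' <;> simp_all
      · constructor
        · intro h; exact absurd (hRS h) hw
        · intro h; exact absurd (hRS' h) hw
  have hlow : 2 ^ N * (U.image base).card ≤ U.card := Finset.mul_card_image_le_card U _ hfibU
  have hUc : U.card ≤ 2 ^ Fintype.card O := by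
    calc U.card ≤ Fintype.card (O → Bool) := Finset.card_le_univ _
      _ = _ := by rw [Fintype.card_fun, Fintype.card_bool]
  have himg : (A.image base).card ≤ (U.image base).card :=
    Finset.card_le_card (Finset.image_subset_image hAU)
  calc A.card * 2 ^ N ≤ (N.choose (N / 2) * (A.image base).card) * 2 ^ N :=
        Nat.mul_le_mul_right _ hup
    _ ≤ (N.choose (N / 2) * (U.image base).card) * 2 ^ N :=
        Nat.mul_le_mul_right _ (Nat.mul_le_mul_left _ himg)
    _ = N.choose (N / 2) * (2 ^ N * (U.image base).card) := by ring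
    _ ≤ N.choose (N / 2) * 2 ^ Fintype.card O := Nat.mul_le_mul_left _ (hlow.trans hUc)
    _ = _ := by ring

end

/-- central binomial coefficients are small -/
theorem centralBinom_sq (n : ℕ) : (n.centralBinom) ^ 2 * (3 * n + 1) ≤ 16 ^ n := by
  induction n with
  | zero => simp
  | succ n ih =>
    have h := Nat.succ_mul_centralBinom_succ n
    -- (n+1) * cb (n+1) = 2 * (2n+1) * cb n
    have h2 : (n + 1) ^ 2 * ((n + 1).centralBinom ^ 2 * (3 * (n + 1) + 1)) * (3 * n + 1) ≤
        (n + 1) ^ 2 * 16 ^ (n + 1) * (3 * n + 1) := by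
      have e1 : (n + 1) ^ 2 * ((n + 1).centralBinom ^ 2 * (3 * (n + 1) + 1)) * (3 * n + 1) =
          ((n + 1) * (n + 1).centralBinom) ^ 2 * (3 * n + 4) * (3 * n + 1) := by ring
      rw [e1, h]
      calc (2 * (2 * n + 1) * n.centralBinom) ^ 2 * (3 * n + 4) * (3 * n + 1)
          = (n.centralBinom ^ 2 * (3 * n + 1)) * (4 * (2 * n + 1) ^ 2 * (3 * n + 4)) := by ring
        _ ≤ 16 ^ n * (4 * (2 * n + 1) ^ 2 * (3 * n + 4)) := Nat.mul_le_mul_right _ ih
        _ ≤ 16 ^ n * (16 * (n + 1) ^ 2 * (3 * n + 1)) := by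
            apply Nat.mul_le_mul_left
            nlinarith
        _ = (n + 1) ^ 2 * 16 ^ (n + 1) * (3 * n + 1) := by rw [pow_succ]; ring
    have h3 : 0 < (n + 1) ^ 2 := by positivity
    have h4 : 0 < 3 * n + 1 := by positivity
    have h5 := Nat.le_of_mul_le_mul_right h2 h4
    exact Nat.le_of_mul_le_mul_left h5 h3

/-- the form used below: `N = 2 * (32 K^4)` -/
theorem choose_small (K : ℕ) (hK : 1 ≤ K) :
    8 * K ^ 2 * (64 * K ^ 4).choose (64 * K ^ 4 / 2) ≤ 2 ^ (64 * K ^ 4) := by
  have h1 : 64 * K ^ 4 / 2 = 32 * K ^ 4 := by omega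
  have h2 : 64 * K ^ 4 = 2 * (32 * K ^ 4) := by ring
  rw [h1]
  have h3 := centralBinom_sq (32 * K ^ 4)
  rw [Nat.centralBinom_eq_two_mul_choose, ← h2] at h3
  have h4 : (8 * K ^ 2 * (64 * K ^ 4).choose (32 * K ^ 4)) ^ 2 ≤ (2 ^ (64 * K ^ 4)) ^ 2 := by
    have e1 : (2 ^ (64 * K ^ 4)) ^ 2 = 16 ^ (32 * K ^ 4) := by
      rw [← pow_mul, show (16:ℕ) = 2 ^ 4 by norm_num, ← pow_mul]
      congr 1
      ring
    rw [e1]
    refine le_trans ?_ h3
    calc (8 * K ^ 2 * (64 * K ^ 4).choose (32 * K ^ 4)) ^ 2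
        = (64 * K ^ 4).choose (32 * K ^ 4) ^ 2 * (64 * K ^ 4) := by ring
      _ ≤ (64 * K ^ 4).choose (32 * K ^ 4) ^ 2 * (3 * (32 * K ^ 4) + 1) := by
          apply Nat.mul_le_mul_left
          nlinarith [pow_pos (show 0 < K by omega) 4]
  exact le_of_pow_le_pow_left₀ (by norm_num) (by positivity) h4

end Pool.Agent.Helper870.BP
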