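import Mathlib
import Pool.Agent.Helper870.BPAbstract
import Pool.Agent.Helper870.BPBits

set_option autoImplicit false
set_option linter.unusedSectionVars false

namespace Pool.Agent.Helper870.BP

open Finset

section
variable {V : Type} [Fintype V] [DecidableEq V]

/-- number of fixed points -/
def fx (τ : Equiv.Perm V) : ℕ := (univ.filter (fun x => τ x = x)).card

/-- the incidence relation: `τ` is an automorphism of `β` -/
def Inc (τ : Equiv.Perm V) (β : SimpleGraph V) : Prop := SimpleGraph.comap (⇑τ) β = β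

noncomputable instance (τ : Equiv.Perm V) (β : SimpleGraph V) : Decidable (Inc τ β) :=
  Classical.dec _

/-- the automorphism group -/
def HK (β : SimpleGraph V) : Subgroup (Equiv.Perm V) where
  carrier := {τ | Inc τ β}
  mul_mem' := by
    intro a b ha hb
    show SimpleGraph.comap (⇑(a * b)) β = β
    have h1 : SimpleGraph.comap (⇑a) β = β := ha
    have h2 : SimpleGraph.comap (⇑b) β = β := hb
    rw [Equiv.Perm.coe_mul]
    calc SimpleGraph.comap (⇑a ∘ ⇑b) β = SimpleGraph.comap (⇑b) (SimpleGraph.comap (⇑a) β) := by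
          ext x y; rfl
      _ = β := by rw [h1, h2]
  one_mem' := by
    show SimpleGraph.comap (⇑(1 : Equiv.Perm V)) β = β
    ext x y; rfl
  inv_mem' := by
    intro a ha
    have h1 : SimpleGraph.comap (⇑a) β = β := ha
    show SimpleGraph.comap (⇑a⁻¹) β = β
    conv_lhs => rw [← h1]
    ext x y
    simp

theorem inc_adj {τ : Equiv.Perm V} {β : SimpleGraph V} (h : Inc τ β) (x y : V) :
    β.Adj (τ x) (τ y) ↔ β.Adj x y := by
  have h1 : SimpleGraph.comap (⇑τ) β = β := h
  conv_rhs => rw [← h1]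
  rfl

/-- Burnside lower bound -/
theorem burnside_le (H : Subgroup (Equiv.Perm V)) {Y : Type} [Fintype Y] [DecidableEq Y]
    [MulAction H Y] (φ : Y → ℕ) (hφ : ∀ (h : H) (y : Y), φ (h • y) = φ y) (S : Finset Y)
    (hS : Set.InjOn φ S) :
    S.card * Nat.card H ≤ ∑ᶠ h : H, Nat.card (MulAction.fixedBy Y h) := by
  classical
  haveI : Fintype H := Fintype.ofFinite H
  have h1 := MulAction.sum_card_fixedBy_eq_card_orbits_mul_card_group H Y
  have h2 : S.card ≤ Fintype.card (Quotient (MulAction.orbitRel H Y)) := by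
    rw [← Finset.card_univ]
    apply Finset.card_le_card_of_injOn (fun y => (Quotient.mk (MulAction.orbitRel H Y) y))
    · intro y _; simp
    · intro y hy y' hy' heq
      apply hS hy hy'
      have h3 : (MulAction.orbitRel H Y).r y y' := Quotient.exact heq
      obtain ⟨h, hh⟩ := h3
      rw [← hh]
      exact hφ h y'
  rw [finsum_eq_sum_of_fintype]
  simp only [Nat.card_eq_fintype_card]
  rw [h1]
  exact Nat.mul_le_mul_right _ h2

theorem cK_eq (β : SimpleGraph V) : cK (Inc) β = (Nat.card (HK β) : ℝ) := by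
  classical
  unfold cK
  haveI : Fintype (HK β) := Fintype.ofFinite _
  rw [Nat.card_eq_fintype_card]
  congr 1
  rw [Fintype.card_of_subtype]
  intro x
  simp only [Finset.mem_filter, Finset.mem_univ, true_and]
  rfl

theorem sum_HK (β : SimpleGraph V) (f : Equiv.Perm V → ℕ) :
    (∑ᶠ h : HK β, f (h : Equiv.Perm V)) = ∑ τ ∈ univ.filter (fun τ => Inc τ β), f τ := by
  classical
  haveI : Fintype (HK β) := Fintype.ofFinite _
  rw [finsum_eq_sum_of_fintype]
  symm
  rw [Finset.sum_subtype (p := fun τ => τ ∈ HK β)]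
  intro x
  simp only [Finset.mem_filter, Finset.mem_univ, true_and]
  rfl

theorem card_fixedBy (H : Subgroup (Equiv.Perm V)) (h : H) :
    Nat.card (MulAction.fixedBy V h) = fx (h : Equiv.Perm V) := by
  classical
  rw [Nat.card_eq_fintype_card]
  unfold fx
  rw [Fintype.card_of_subtype]
  intro x
  simp only [Finset.mem_filter, Finset.mem_univ, true_and, MulAction.mem_fixedBy]
  rfl

theorem card_fixedBy_pair (H : Subgroup (Equiv.Perm V)) (h : H) :
    Nat.card (MulAction.fixedBy (V × V) h) = fx (h : Equiv.Perm V) ^ 2 := by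
  classical
  rw [Nat.card_eq_fintype_card]
  unfold fx
  rw [sq, ← Finset.card_product, Fintype.card_of_subtype]
  rintro ⟨x, y⟩
  simp only [Finset.mem_product, Finset.mem_filter, Finset.mem_univ, true_and,
    MulAction.mem_fixedBy, Prod.smul_mk, Prod.mk.injEq]
  rfl

/-- the potential -/
noncomputable def Pot (τ : Equiv.Perm V) : ℝ := (fx τ : ℝ) ^ 2

theorem avK_pair (β : SimpleGraph V) (φ : V × V → ℕ)
    (hφ : ∀ τ : Equiv.Perm V, Inc τ β → ∀ x y, φ (τ x, τ y) = φ (x, y)) (S : Finset (V × V))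
    (hS : Set.InjOn φ S) : (S.card : ℝ) ≤ avK Inc Pot β := by
  have h1 := burnside_le (HK β) φ (by
    rintro ⟨h, hh⟩ ⟨x, y⟩
    exact hφ h hh x y) S hS
  simp only [card_fixedBy_pair] at h1
  rw [sum_HK β (fun τ => fx τ ^ 2)] at h1
  have h2 : (S.card : ℝ) * cK Inc β ≤ ∑ τ ∈ univ.filter (fun τ => Inc τ β), Pot τ := by
    rw [cK_eq]
    unfold Pot
    exact_mod_cast h1
  have hpos : 0 < cK Inc β := by
    have := cK_ge_one (I := Inc) (e := (1 : Equiv.Perm V)) (fun β => (HK β).one_mem) β
    linarith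
  unfold avK
  rw [le_div_iff₀ hpos, ← Finset.sum_filter]
  exact h2

theorem sum_fx_ge (β : SimpleGraph V) (φ : V → ℕ)
    (hφ : ∀ τ : Equiv.Perm V, Inc τ β → ∀ x, φ (τ x) = φ x) (S : Finset V)
    (hS : Set.InjOn φ S) :
    (S.card : ℝ) * cK Inc β ≤ ∑ τ ∈ univ.filter (fun τ => Inc τ β), (fx τ : ℝ) := by
  have h1 := burnside_le (HK β) φ (by
    rintro ⟨h, hh⟩ x
    exact hφ h hh x) S hS
  simp only [card_fixedBy] at h1
  rw [sum_HK β (fun τ => fx τ)] at h1
  rw [cK_eq]
  exact_mod_cast h1

theorem avK_vertex (β : SimpleGraph V) (φ : V → ℕ)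
    (hφ : ∀ τ : Equiv.Perm V, Inc τ β → ∀ x, φ (τ x) = φ x) (S : Finset V)
    (hS : Set.InjOn φ S) : (S.card : ℝ) ^ 2 ≤ avK Inc Pot β := by
  have h1 := sum_fx_ge β φ hφ S hS
  have hpos : 0 < cK Inc β := by
    have := cK_ge_one (I := Inc) (e := (1 : Equiv.Perm V)) (fun β => (HK β).one_mem) β
    linarith
  have hcs := sq_sum_le_card_mul_sum_sq (s := univ.filter (fun τ : Equiv.Perm V => Inc τ β))
    (f := fun τ => (fx τ : ℝ))
  have hc : ((univ.filter (fun τ : Equiv.Perm V => Inc τ β)).card : ℝ) = cK Inc β := rfl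
  rw [hc] at hcs
  unfold avK
  rw [le_div_iff₀ hpos, ← Finset.sum_filter]
  have h2 : ((S.card : ℝ) * cK Inc β) ^ 2 ≤
      (∑ τ ∈ univ.filter (fun τ => Inc τ β), (fx τ : ℝ)) ^ 2 :=
    pow_le_pow_left₀ (by positivity) h1 2
  have h3 : cK Inc β * ((S.card : ℝ) ^ 2 * cK Inc β) ≤
      cK Inc β * ∑ τ ∈ univ.filter (fun τ => Inc τ β), (fx τ : ℝ) ^ 2 := by
    calc cK Inc β * ((S.card : ℝ) ^ 2 * cK Inc β) = ((S.card : ℝ) * cK Inc β) ^ 2 := by ring
      _ ≤ _ := h2.trans hcs
  exact le_of_mul_le_mul_left h3 hpos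

/-- when every automorphism fixes `F` pointwise -/
theorem avK_fixed (β : SimpleGraph V) (F : Finset V)
    (hF : ∀ τ : Equiv.Perm V, Inc τ β → ∀ x ∈ F, τ x = x) (hne : F ≠ univ) :
    ((F.card : ℝ) + 1) ^ 2 ≤ avK Inc Pot β := by
  obtain ⟨z, hz⟩ : ∃ z, z ∉ F := by
    by_contra hcon
    push Not at hcon
    exact hne (Finset.eq_univ_iff_forall.2 hcon)
  let ix := Fintype.equivFin V
  let φ : V → ℕ := fun x => if x ∈ F then (ix x : ℕ) + 1 else 0
  have h := avK_vertex β φ (by
    intro τ hτ x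
    by_cases hx : x ∈ F
    · rw [hF τ hτ x hx]
    · have : τ x ∉ F := by
        intro h
        have h2 := hF τ hτ _ h
        have h3 := τ.injective h2
        rw [h3] at h
        exact hx h
      simp only [φ, if_neg hx, if_neg this]) (insert z F) (by
    intro x hx y hy hxy
    simp only [φ] at hxy
    by_cases hxF : x ∈ F
    · by_cases hyF : y ∈ F
      · rw [if_pos hxF, if_pos hyF] at hxy
        have : ix x = ix y := Fin.ext (by omega)
        exact ix.injective this
      · rw [if_pos hxF, if_neg hyF] at hxy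
        omega
    · by_cases hyF : y ∈ F
      · rw [if_neg hxF, if_pos hyF] at hxy
        omega
      · have e1 : x = z := by simpa [hxF] using hx
        have e2 : y = z := by simpa [hyF] using hy
        rw [e1, e2])
  rw [Finset.card_insert_of_notMem hz] at h
  push_cast at h
  exact h

/-- when the automorphism group is trivial -/
theorem avK_trivial (β : SimpleGraph V)
    (hF : ∀ τ : Equiv.Perm V, Inc τ β → ∀ x, τ x = x) :
    ((Fintype.card V : ℝ)) ^ 2 ≤ avK Inc Pot β := by
  let ix := Fintype.equivFin V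
  have h := avK_vertex β (fun x => (ix x : ℕ)) (by
    intro τ hτ x
    rw [hF τ hτ x]) univ (by
    intro x _ y _ hxy
    exact ix.injective (Fin.ext hxy))
  rwa [Finset.card_univ] at h

theorem avK_nonneg (β : SimpleGraph V) : 0 ≤ avK Inc Pot β := by
  unfold avK
  apply div_nonneg
  · apply Finset.sum_nonneg
    intro τ _
    split_ifs
    · unfold Pot; positivity
    · exact le_rfl
  · unfold cK; positivity

end

end Pool.Agent.Helper870.BP
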