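import Mathlib
import Pool.Agent.Helper870.BPAbstract
import Pool.Agent.Helper870.BPBits
import Pool.Agent.Helper870.BPCount
import Pool.Agent.Helper870.BPOrbits

set_option autoImplicit false
set_option linter.unusedSectionVars false

namespace Pool.Agent.Helper870.BP

open Finset

section
variable {V : Type} [Fintype V] [DecidableEq V]

theorem indep_subset (T : Finset V) (w : V → V) (hw : Set.InjOn w T) (hne : ∀ x ∈ T, w x ≠ x) :
    ∃ T' ⊆ T, (∀ x ∈ T', w x ∉ T') ∧ T.card ≤ 3 * T'.card := by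
  classical
  obtain ⟨T', hT', hmax⟩ := Finset.exists_max_image
    (T.powerset.filter (fun S => ∀ x ∈ S, w x ∉ S)) (fun S => S.card) ⟨∅, by simp⟩
  rw [Finset.mem_filter, Finset.mem_powerset] at hT'
  refine ⟨T', hT'.1, hT'.2, ?_⟩
  have hcov : T \ T' ⊆ T.filter (fun x => w x ∈ T') ∪ T'.image w := by
    intro x hx
    rw [Finset.mem_sdiff] at hx
    rw [Finset.mem_union, Finset.mem_filter, Finset.mem_image]
    by_contra hcon
    push Not at hcon
    have hins : insert x T' ∈ T.powerset.filter (fun S => ∀ x ∈ S, w x ∉ S) := by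
      rw [Finset.mem_filter, Finset.mem_powerset]
      refine ⟨Finset.insert_subset hx.1 hT'.1, ?_⟩
      intro y hy
      rw [Finset.mem_insert] at hy
      rw [Finset.mem_insert]
      push Not
      rcases hy with rfl | hy
      · exact ⟨hne y hx.1, hcon.1 hx.1⟩
      · exact ⟨hcon.2 y hy, hT'.2 y hy⟩
    have := hmax _ hins
    rw [Finset.card_insert_of_notMem hx.2] at this
    omega
  have h1 : (T.filter (fun x => w x ∈ T')).card ≤ T'.card := by
    apply Finset.card_le_card_of_injOn w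
    · intro x hx
      exact (Finset.mem_filter.1 hx).2
    · intro x hx y hy h
      exact hw (Finset.mem_filter.1 hx).1 (Finset.mem_filter.1 hy).1 h
  have h2 : (T'.image w).card ≤ T'.card := Finset.card_image_le
  have h3 := Finset.card_le_card hcov
  have h4 := Finset.card_union_le (T.filter (fun x => w x ∈ T')) (T'.image w)
  have h5 := Finset.card_sdiff_add_card_eq_card hT'.1
  omega

/-- fixed points as a finset -/
def FS (σ : Equiv.Perm V) : Finset V := univ.filter (fun x => σ x = x)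

theorem zpow_fixed {σ : Equiv.Perm V} {x : V} (h : σ x = x) (k : ℤ) : (σ ^ k) x = x := by
  have h1 : ∀ n : ℕ, (σ ^ n) x = x := by
    intro n
    induction n with
    | zero => simp
    | succ n ih => rw [pow_succ, Equiv.Perm.mul_apply, h, ih]
  cases k with
  | ofNat n => exact h1 n
  | negSucc n =>
    rw [zpow_negSucc]
    rw [Equiv.Perm.inv_eq_iff_eq]
    exact (h1 (n + 1)).symm

theorem q_fixed {σ : Equiv.Perm V} {x y a b : V} (hx : σ x = x) (hy : σ y = y)
    (h : q σ a b = q σ x y) : (a = x ∧ b = y) ∨ (a = y ∧ b = x) := by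
  rw [eq_comm, q_eq_iff] at h
  obtain ⟨k, hk⟩ := h
  rw [zpow_fixed hx, zpow_fixed hy] at hk
  rcases hk with ⟨h1, h2⟩ | ⟨h1, h2⟩
  · exact Or.inl ⟨h1.symm, h2.symm⟩
  · exact Or.inr ⟨h2.symm, h1.symm⟩

/-- bits consistent with the partial map `w` on the fixed points -/
noncomputable def AW (σ : Equiv.Perm V) (w : V → V) : Finset (Orb σ → Bool) := by
  classical
  exact univ.filter (fun ξ => ∀ x ∈ FS σ, ∀ y ∈ FS σ, x ≠ y → ξ (q σ x y) = ξ (q σ (w x) (w y)))

theorem AW_card (σ : Equiv.Perm V) (w : V → V) (hw : Set.InjOn w (FS σ)) (b : ℕ)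
    (hb : 9 * b + 4 ≤ (FS σ).card) :
    (AW σ w).card * 2 ^ (((FS σ).filter (fun x => w x ≠ x)).card * b) ≤ 2 ^ Fintype.card (Orb σ) := by
  classical
  set F := FS σ with hF
  have hFf : ∀ x ∈ F, σ x = x := fun x hx => (Finset.mem_filter.1 hx).2
  set T := F.filter (fun x => w x ≠ x) with hT
  obtain ⟨T', hT'T, hT'i, hT'c⟩ := indep_subset T w
    (hw.mono (by intro x hx; exact (Finset.mem_filter.1 hx).1)) (fun x hx => (Finset.mem_filter.1 hx).2)
  obtain ⟨T2, hT2T', hT2c⟩ := Finset.exists_subset_card_eq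
    (show (T.card + 2) / 3 ≤ T'.card by omega)
  have hT2F : T2 ⊆ F := hT2T'.trans (hT'T.trans (Finset.filter_subset _ _))
  have hT2i : ∀ x ∈ T2, w x ∉ T2 := fun x hx h => hT'i x (hT2T' hx) (hT2T' h)
  set Y := F.filter (fun x => x ∉ T2 ∧ w x ∉ T2) with hY
  have hYc : F.card ≤ Y.card + 2 * T2.card := by
    have h1 : F ⊆ Y ∪ (T2 ∪ F.filter (fun x => w x ∈ T2)) := by
      intro x hx
      rw [Finset.mem_union, Finset.mem_union, hY, Finset.mem_filter, Finset.mem_filter]
      by_cases h1 : x ∈ T2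
      · exact Or.inr (Or.inl h1)
      · by_cases h2 : w x ∈ T2
        · exact Or.inr (Or.inr ⟨hx, h2⟩)
        · exact Or.inl ⟨hx, h1, h2⟩
    have h2 : (F.filter (fun x => w x ∈ T2)).card ≤ T2.card := by
      apply Finset.card_le_card_of_injOn w
      · intro x hx
        exact (Finset.mem_filter.1 hx).2
      · intro x hx y hy h
        exact hw (Finset.mem_filter.1 hx).1 (Finset.mem_filter.1 hy).1 h
    have h3 := Finset.card_le_card h1
    have h4 := Finset.card_union_le Y (T2 ∪ F.filter (fun x => w x ∈ T2))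
    have h5 := Finset.card_union_le T2 (F.filter (fun x => w x ∈ T2))
    omega
  set E : Finset (Orb σ) := (T2 ×ˢ Y).image (fun p => q σ p.1 p.2) with hE
  have hEc : E.card = T2.card * Y.card := by
    rw [hE, Finset.card_image_of_injOn, Finset.card_product]
    rintro ⟨x, y⟩ hxy ⟨x', y'⟩ hxy' heq
    rw [Finset.mem_coe, Finset.mem_product] at hxy hxy'
    simp only at hxy hxy' heq
    have hY1 := Finset.mem_filter.1 hxy.2
    have hY2 := Finset.mem_filter.1 hxy'.2
    rcases q_fixed (hFf _ (hT2F hxy'.1)) (hFf _ hY2.1) heq with ⟨h1, h2⟩ | ⟨h1, h2⟩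
    · rw [h1, h2]
    · exfalso
      rw [h1] at hxy
      exact hY2.2.1 hxy.1
  have hTF : T.card ≤ F.card := Finset.card_filter_le _ _
  have hmul : T.card * b ≤ T2.card * Y.card := by
    have h1 : 3 * b ≤ Y.card := by omega
    have h2 : T.card ≤ 3 * T2.card := by omega
    calc T.card * b ≤ 3 * T2.card * b := Nat.mul_le_mul_right _ h2
      _ = T2.card * (3 * b) := by ring
      _ ≤ T2.card * Y.card := Nat.mul_le_mul_left _ h1
  have hdet := det_card (AW σ w) E (by
    intro ξ hξ ξ' hξ' hag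
    have a1 := (Finset.mem_filter.1 hξ).2
    have a2 := (Finset.mem_filter.1 hξ').2
    funext e
    by_cases he : e ∈ E
    · obtain ⟨⟨x, y⟩, hxy, rfl⟩ := Finset.mem_image.1 he
      rw [Finset.mem_product] at hxy
      simp only at hxy ⊢
      have hYy := Finset.mem_filter.1 hxy.2
      have hxF := hT2F hxy.1
      have hne : x ≠ y := by
        rintro rfl
        exact hYy.2.1 hxy.1
      rw [a1 x hxF y hYy.1 hne, a2 x hxF y hYy.1 hne]
      apply hag
      intro hmem
      obtain ⟨⟨x', y'⟩, hxy', heq⟩ := Finset.mem_image.1 hmem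
      rw [Finset.mem_product] at hxy'
      simp only at hxy' heq
      have hY2 := Finset.mem_filter.1 hxy'.2
      rcases q_fixed (hFf _ (hT2F hxy'.1)) (hFf _ hY2.1) heq.symm with ⟨h1, h2⟩ | ⟨h1, h2⟩
      · rw [← h1] at hxy'
        exact hT2i x hxy.1 hxy'.1
      · rw [← h2] at hxy'
        exact hYy.2.2 hxy'.1
    · exact hag e he)
  rw [hEc] at hdet
  calc (AW σ w).card * 2 ^ (T.card * b) ≤ (AW σ w).card * 2 ^ (T2.card * Y.card) :=
        Nat.mul_le_mul_left _ (Nat.pow_le_pow_right (by norm_num) hmul)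
    _ ≤ _ := hdet

/-- bits for which some automorphism moves a point fixed by `σ` -/
noncomputable def Bad (σ : Equiv.Perm V) : Finset (Orb σ → Bool) := by
  classical
  exact univ.filter (fun ξ => ∃ τ : Equiv.Perm V, Inc τ (gr σ ξ) ∧ ∃ x ∈ FS σ, τ x ≠ x)

/-- extension of a map on the fixed points -/
def ext (σ : Equiv.Perm V) (u : {x // x ∈ FS σ} → V) : V → V :=
  fun x => if h : x ∈ FS σ then u ⟨x, h⟩ else x

theorem ext_apply (σ : Equiv.Perm V) (u : {x // x ∈ FS σ} → V) (x : {x // x ∈ FS σ}) :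
    ext σ u x.1 = u x := by
  unfold ext
  rw [dif_pos x.2]

theorem Bad_card (σ : Equiv.Perm V) (b : ℕ) (hb : 9 * b + 4 ≤ (FS σ).card) :
    ((Bad σ).card : ℝ) ≤ 2 ^ Fintype.card (Orb σ) *
      ((1 + (Fintype.card V : ℝ) * (1 / 2) ^ b) ^ (FS σ).card - 1) := by
  classical
  set F := FS σ with hF
  let mv : ({x // x ∈ F} → V) → ℕ := fun u => (univ.filter (fun x : {x // x ∈ F} => u x ≠ x.1)).card
  let inc : {x // x ∈ F} → V := fun x => x.1
  let C : Finset ({x // x ∈ F} → V) := univ.filter (fun u => Function.Injective u ∧ u ≠ inc)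
  -- covering
  have hcov : Bad σ ⊆ C.biUnion (fun u => AW σ (ext σ u)) := by
    intro ξ hξ
    obtain ⟨τ, hτ, x, hx, hne⟩ := (Finset.mem_filter.1 hξ).2
    rw [Finset.mem_biUnion]
    refine ⟨fun y => τ y.1, ?_, ?_⟩
    · rw [Finset.mem_filter]
      refine ⟨Finset.mem_univ _, fun a c h => Subtype.ext (τ.injective h), ?_⟩
      intro h
      exact hne (congrFun h ⟨x, hx⟩)
    · unfold AW
      rw [Finset.mem_filter]
      refine ⟨Finset.mem_univ _, ?_⟩
      intro a ha c hc hac
      have e1 : ext σ (fun y : {x // x ∈ FS σ} => τ y.1) a = τ a := ext_apply σ _ ⟨a, ha⟩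
      have e2 : ext σ (fun y : {x // x ∈ FS σ} => τ y.1) c = τ c := ext_apply σ _ ⟨c, hc⟩
      rw [e1, e2]
      have h1 := inc_adj hτ a c
      rw [gr_adj, gr_adj] at h1
      have h2 : τ a ≠ τ c := fun h => hac (τ.injective h)
      simp only [ne_eq, hac, h2, not_false_eq_true, true_and] at h1
      rw [Bool.eq_iff_iff]
      exact h1.symm
  -- each term
  have hterm : ∀ u ∈ C, ((AW σ (ext σ u)).card : ℝ) ≤
      2 ^ Fintype.card (Orb σ) * ((1 / 2) ^ b) ^ (mv u) := by
    intro u hu
    have hinj := (Finset.mem_filter.1 hu).2.1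
    have h1 := AW_card σ (ext σ u) (by
      intro x hx y hy h
      have e1 : ext σ u x = u ⟨x, hx⟩ := ext_apply σ u ⟨x, hx⟩
      have e2 : ext σ u y = u ⟨y, hy⟩ := ext_apply σ u ⟨y, hy⟩
      rw [e1, e2] at h
      exact congrArg Subtype.val (hinj h)) b hb
    have h2 : ((FS σ).filter (fun x => ext σ u x ≠ x)).card = mv u := by
      simp only [mv]
      rw [← Finset.card_image_of_injective (univ.filter (fun x : {x // x ∈ F} => u x ≠ x.1))
        Subtype.val_injective]
      congr 1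
      ext x
      simp only [Finset.mem_filter, Finset.mem_image, Finset.mem_univ, true_and]
      constructor
      · rintro ⟨hx, hne⟩
        refine ⟨⟨x, hx⟩, ?_, rfl⟩
        rwa [ext_apply σ u ⟨x, hx⟩] at hne
      · rintro ⟨y, hy, rfl⟩
        exact ⟨y.2, by rw [ext_apply]; exact hy⟩
    rw [h2] at h1
    have h3 : ((AW σ (ext σ u)).card : ℝ) * 2 ^ (mv u * b) ≤ 2 ^ Fintype.card (Orb σ) := by
      exact_mod_cast h1
    have h4 : ((1 / 2 : ℝ) ^ b) ^ (mv u) = 1 / 2 ^ (mv u * b) := by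
      rw [← pow_mul, one_div, inv_pow, mul_comm b, one_div]
    rw [h4, mul_one_div, le_div_iff₀ (by positivity)]
    exact h3
  -- the total sum
  have hsum : ∑ u : ({x // x ∈ F} → V), ((1 / 2 : ℝ) ^ b) ^ (mv u) ≤
      (1 + (Fintype.card V : ℝ) * (1 / 2) ^ b) ^ F.card := by
    have e1 : ∀ u : ({x // x ∈ F} → V), ((1 / 2 : ℝ) ^ b) ^ (mv u) =
        ∏ x : {x // x ∈ F}, (if u x = x.1 then (1 : ℝ) else (1 / 2) ^ b) := by
      intro u
      rw [Finset.prod_ite, Finset.prod_const_one, one_mul, Finset.prod_const]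
    rw [Finset.sum_congr rfl fun u _ => e1 u]
    have e2 := Finset.prod_univ_sum (fun _ : {x // x ∈ F} => (univ : Finset V))
      (fun (x : {x // x ∈ F}) (v : V) => (if v = x.1 then (1 : ℝ) else (1 / 2) ^ b))
    rw [Fintype.piFinset_univ] at e2
    rw [← e2]
    have e3 : ∀ x : {x // x ∈ F}, ∑ v : V, (if v = x.1 then (1 : ℝ) else (1 / 2) ^ b) ≤
        1 + (Fintype.card V : ℝ) * (1 / 2) ^ b := by
      intro x
      calc ∑ v : V, (if v = x.1 then (1 : ℝ) else (1 / 2) ^ b)
          ≤ ∑ v : V, ((if v = x.1 then (1 : ℝ) else 0) + (1 / 2) ^ b) := by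
            apply Finset.sum_le_sum
            intro v _
            split_ifs
            · have : (0:ℝ) ≤ (1 / 2) ^ b := by positivity
              linarith
            · simp
        _ = _ := by
            rw [Finset.sum_add_distrib, Finset.sum_ite_eq' Finset.univ x.1]
            simp
    calc ∏ x : {x // x ∈ F}, ∑ v : V, (if v = x.1 then (1 : ℝ) else (1 / 2) ^ b)
        ≤ ∏ _x : {x // x ∈ F}, (1 + (Fintype.card V : ℝ) * (1 / 2) ^ b) := by
          apply Finset.prod_le_prod
          · intro x _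
            apply Finset.sum_nonneg
            intro v _
            split_ifs <;> positivity
          · intro x _
            exact e3 x
      _ = _ := by rw [Finset.prod_const, Finset.card_univ, Fintype.card_coe]
  have hC : ∑ u ∈ C, ((1 / 2 : ℝ) ^ b) ^ (mv u) + 1 ≤
      ∑ u : ({x // x ∈ F} → V), ((1 / 2 : ℝ) ^ b) ^ (mv u) := by
    have hinc : inc ∉ C := by
      intro h
      exact (Finset.mem_filter.1 h).2.2 rfl
    have h1 : ((1 / 2 : ℝ) ^ b) ^ (mv inc) = 1 := by
      have : mv inc = 0 := by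
        simp only [mv, inc]
        simp
      rw [this, pow_zero]
    have h3 : ∑ u ∈ C, ((1 / 2 : ℝ) ^ b) ^ (mv u) + 1 =
        ∑ u ∈ insert inc C, ((1 / 2 : ℝ) ^ b) ^ (mv u) := by
      rw [Finset.sum_insert hinc, h1, add_comm]
    rw [h3]
    apply Finset.sum_le_sum_of_subset_of_nonneg (Finset.subset_univ _)
    intro u _ _
    positivity
  calc ((Bad σ).card : ℝ) ≤ ((C.biUnion (fun u => AW σ (ext σ u))).card : ℝ) := by
        exact_mod_cast Finset.card_le_card hcov
    _ ≤ ∑ u ∈ C, ((AW σ (ext σ u)).card : ℝ) := by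
        exact_mod_cast Finset.card_biUnion_le
    _ ≤ ∑ u ∈ C, 2 ^ Fintype.card (Orb σ) * ((1 / 2) ^ b) ^ (mv u) :=
        Finset.sum_le_sum hterm
    _ = 2 ^ Fintype.card (Orb σ) * ∑ u ∈ C, ((1 / 2 : ℝ) ^ b) ^ (mv u) := by rw [Finset.mul_sum]
    _ ≤ 2 ^ Fintype.card (Orb σ) * ((1 + (Fintype.card V : ℝ) * (1 / 2) ^ b) ^ F.card - 1) := by
        apply mul_le_mul_of_nonneg_left _ (by positivity)
        linarith

/-- averaging over bits with an exceptional set -/
theorem average_ge (σ : Equiv.Perm V) (B : Finset (Orb σ → Bool)) (η c : ℝ) (hc : 0 ≤ c)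
    (hB : (B.card : ℝ) ≤ 2 ^ Fintype.card (Orb σ) * η)
    (h : ∀ ξ, ξ ∉ B → c ≤ avK Inc Pot (gr σ ξ)) :
    (1 - η) * c ≤ Dr Inc Pot σ := by
  classical
  have h0 := sum_bits σ (fun β => avK Inc Pot β)
  have h1 : Dr Inc Pot σ = (∑ ξ : Orb σ → Bool, avK Inc Pot (gr σ ξ)) / 2 ^ Fintype.card (Orb σ) := by
    rw [← h0]
    unfold Dr cF
    have e1 : (∑ x : SimpleGraph V, if Inc σ x then avK Inc Pot x else 0) =
        ∑ β : SimpleGraph V, if SimpleGraph.comap (⇑σ) β = β then avK Inc Pot β else 0 := by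
      apply Finset.sum_congr rfl
      intro β _
      by_cases hβ : SimpleGraph.comap (⇑σ) β = β
      · rw [if_pos hβ, if_pos (show Inc σ β from hβ)]
      · rw [if_neg hβ, if_neg (show ¬ Inc σ β from hβ)]
    have e2 : (univ.filter (fun x : SimpleGraph V => Inc σ x)).card =
        (univ.filter (fun β : SimpleGraph V => SimpleGraph.comap (⇑σ) β = β)).card := by
      apply congrArg
      ext β
      simp only [Finset.mem_filter, Finset.mem_univ, true_and]
      rfl
    rw [e1, e2]
  rw [h1, le_div_iff₀ (by positivity)]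
  have h2 : ∑ ξ ∈ univ \ B, c ≤ ∑ ξ : Orb σ → Bool, avK Inc Pot (gr σ ξ) := by
    calc ∑ ξ ∈ univ \ B, c ≤ ∑ ξ ∈ univ \ B, avK Inc Pot (gr σ ξ) := by
          apply Finset.sum_le_sum
          intro ξ hξ
          exact h ξ (Finset.mem_sdiff.1 hξ).2
      _ ≤ _ := Finset.sum_le_sum_of_subset_of_nonneg (Finset.subset_univ _)
          (fun ξ _ _ => avK_nonneg _)
  rw [Finset.sum_const, nsmul_eq_mul] at h2
  have h3 : ((univ \ B).card : ℝ) = 2 ^ Fintype.card (Orb σ) - B.card := by
    have h4 := Finset.card_sdiff_add_card_eq_card (Finset.subset_univ B)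
    rw [Finset.card_univ, Fintype.card_fun, Fintype.card_bool] at h4
    have h5 : ((univ \ B).card : ℝ) + B.card = 2 ^ Fintype.card (Orb σ) := by exact_mod_cast h4
    linarith
  rw [h3] at h2
  have h6 : (2 ^ Fintype.card (Orb σ) - 2 ^ Fintype.card (Orb σ) * η) * c ≤
      (2 ^ Fintype.card (Orb σ) - (B.card : ℝ)) * c :=
    mul_le_mul_of_nonneg_right (by linarith) hc
  linarith

end

end Pool.Agent.Helper870.BP
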