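import Mathlib
import Pool.Agent.Helper870.BPAbstract
import Pool.Agent.Helper870.BPBits
import Pool.Agent.Helper870.BPCount
import Pool.Agent.Helper870.BPOrbits
import Pool.Agent.Helper870.BPCaseB

set_option autoImplicit false
set_option linter.unusedSectionVars false

namespace Pool.Agent.Helper870.BP

open Finset

section
variable {V : Type} [Fintype V] [DecidableEq V]

open Classical in
/-- degree -/
noncomputable def dg (β : SimpleGraph V) (x : V) : ℕ := ∑ z, if β.Adj x z then 1 else 0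

theorem dg_inv {τ : Equiv.Perm V} {β : SimpleGraph V} (h : Inc τ β) (x : V) :
    dg β (τ x) = dg β x := by
  classical
  unfold dg
  rw [← Equiv.sum_comp τ]
  apply Finset.sum_congr rfl
  intro z _
  simp only [inc_adj h x z]

open Classical in
theorem dg_gr (σ : Equiv.Perm V) (ξ : Orb σ → Bool) (x : V) :
    (dg (gr σ ξ) x : ℤ) = ∑ z, if x ≠ z ∧ ξ (q σ x z) = true then 1 else 0 := by
  unfold dg
  push_cast
  apply Finset.sum_congr rfl
  intro z _
  simp only [gr_adj]

theorem pair_card (σ : Equiv.Perm V) (N : ℕ) (P : Finset V)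
    (hP : ∀ x ∈ P, ∀ y ∈ P, x ≠ y → ¬ σ.SameCycle x y) (hPc : N + 2 ≤ P.card)
    (x x' : V) (hx : x ∈ P) (hx' : x' ∈ P) (hne : x ≠ x') (A : Finset (Orb σ → Bool))
    (hA : ∀ ξ ∈ A, dg (gr σ ξ) x = dg (gr σ ξ) x') :
    A.card * 2 ^ N ≤ 2 ^ Fintype.card (Orb σ) * N.choose (N / 2) := by
  classical
  set J := (P.erase x).erase x' with hJ
  have hJP : ∀ y ∈ J, y ∈ P ∧ y ≠ x ∧ y ≠ x' := by
    intro y hy
    rw [hJ, Finset.mem_erase, Finset.mem_erase] at hy
    exact ⟨hy.2.2, hy.2.1, hy.1⟩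
  have hJc : N ≤ J.card := by
    rw [hJ, Finset.card_erase_of_mem (Finset.mem_erase.2 ⟨hne.symm, hx'⟩), Finset.card_erase_of_mem hx]
    omega
  set W : Finset (Orb σ) := J.image (fun y => q σ x y) with hW
  let c : Orb σ → ℤ := fun w => ∑ z : V, if x ≠ z ∧ q σ x z = w then 1 else 0
  have hWc : W.card = J.card := by
    apply Finset.card_image_of_injOn
    intro y hy y' hy' heq
    have h1 := hJP y hy
    have h2 := hJP y' hy'
    simp only at heq
    rw [q_eq_iff] at heq
    obtain ⟨k, hk⟩ := heq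
    by_contra hyy
    rcases hk with ⟨_, hk⟩ | ⟨hk, _⟩
    · exact hP y h1.1 y' h2.1 hyy ⟨k, hk⟩
    · exact hP x hx y' h2.1 h2.2.1.symm ⟨k, hk⟩
  apply lo_card W (fun ξ => (dg (gr σ ξ) x : ℤ) - dg (gr σ ξ) x') (fun _ w => c w)
  · intro ξ w hw
    obtain ⟨y, hy, rfl⟩ := Finset.mem_image.1 hw
    have hy1 := hJP y hy
    simp only [dg_gr]
    have e1 : ∑ z, (if x ≠ z ∧ Function.update ξ (q σ x y) true (q σ x z) = true then (1:ℤ) else 0) =
        ∑ z, (if x ≠ z ∧ Function.update ξ (q σ x y) false (q σ x z) = true then (1:ℤ) else 0) +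
          c (q σ x y) := by
      simp only [c]
      rw [← Finset.sum_add_distrib]
      apply Finset.sum_congr rfl
      intro z _
      by_cases h1 : q σ x z = q σ x y
      · rw [h1, Function.update_self, Function.update_self]
        by_cases h2 : x ≠ z
        · simp [h2]
        · simp [h2]
      · rw [Function.update_of_ne h1, Function.update_of_ne h1]
        simp [h1]
    have e2 : ∑ z, (if x' ≠ z ∧ Function.update ξ (q σ x y) true (q σ x' z) = true then (1:ℤ) else 0) =
        ∑ z, (if x' ≠ z ∧ Function.update ξ (q σ x y) false (q σ x' z) = true then (1:ℤ) else 0) := by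
      apply Finset.sum_congr rfl
      intro z _
      have h1 : q σ x' z ≠ q σ x y := by
        intro h
        rw [q_eq_iff] at h
        obtain ⟨k, hk⟩ := h
        rcases hk with ⟨hk, _⟩ | ⟨hk, _⟩
        · exact hP x' hx' x hx hne.symm ⟨k, hk⟩
        · exact hP x' hx' y hy1.1 hy1.2.2.symm ⟨k, hk⟩
      rw [Function.update_of_ne h1, Function.update_of_ne h1]
    rw [e1, e2]
    ring
  · intro ξ w _ w' _ b
    rfl
  · intro ξ hξ
    refine ⟨?_, ?_⟩
    · simp only [hA ξ hξ, sub_self]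
    · rw [Finset.filter_true_of_mem, hWc]
      · exact hJc
      · intro w hw
        obtain ⟨y, hy, rfl⟩ := Finset.mem_image.1 hw
        have hy1 := hJP y hy
        have h1 : (1:ℤ) ≤ c (q σ x y) := by
          simp only [c]
          have h2 : (if x ≠ y ∧ q σ x y = q σ x y then (1:ℤ) else 0) = 1 := by
            simp [hy1.2.1.symm]
          refine le_trans h2.symm.le ?_
          apply Finset.single_le_sum
            (f := fun z => (if x ≠ z ∧ q σ x z = q σ x y then (1:ℤ) else 0))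
          · intro z _
            split_ifs <;> norm_num
          · exact Finset.mem_univ y
        omega

/-- many cycles -/
theorem caseA1 (σ : Equiv.Perm V) (K : ℕ) (hK : 1 ≤ K) (P : Finset V)
    (hP : ∀ x ∈ P, ∀ y ∈ P, x ≠ y → ¬ σ.SameCycle x y) (hPc : 64 * K ^ 4 + 2 ≤ P.card) :
    (1 / 2) * (K : ℝ) ^ 2 ≤ Dr Inc Pot σ := by
  classical
  have hKP : K ≤ P.card := by
    have : K ≤ K ^ 4 := Nat.le_self_pow (by norm_num) K
    omega
  obtain ⟨S, hSP, hSc⟩ := Finset.exists_subset_card_eq hKP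
  set N := 64 * K ^ 4 with hN
  let A : V × V → Finset (Orb σ → Bool) := fun p =>
    univ.filter (fun ξ => dg (gr σ ξ) p.1 = dg (gr σ ξ) p.2)
  set B := ((S ×ˢ S).filter (fun p => p.1 ≠ p.2)).biUnion A with hB
  have hterm : ∀ p ∈ (S ×ˢ S).filter (fun p => p.1 ≠ p.2),
      8 * K ^ 2 * (A p).card ≤ 2 ^ Fintype.card (Orb σ) := by
    intro p hp
    rw [Finset.mem_filter, Finset.mem_product] at hp
    have h1 := pair_card σ N P hP hPc p.1 p.2 (hSP hp.1.1) (hSP hp.1.2) hp.2 (A p)
      (fun ξ hξ => (Finset.mem_filter.1 hξ).2)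
    have h2 := choose_small K hK
    rw [← hN] at h2
    have h3 : 0 < N.choose (N / 2) := Nat.choose_pos (Nat.div_le_self _ _)
    have h4 : 8 * K ^ 2 * (A p).card * N.choose (N / 2) ≤
        2 ^ Fintype.card (Orb σ) * N.choose (N / 2) := by
      calc 8 * K ^ 2 * (A p).card * N.choose (N / 2)
          = (A p).card * (8 * K ^ 2 * N.choose (N / 2)) := by ring
        _ ≤ (A p).card * 2 ^ N := Nat.mul_le_mul_left _ h2
        _ ≤ _ := h1
    exact Nat.le_of_mul_le_mul_right h4 h3
  have hBc : 8 * B.card ≤ 2 ^ Fintype.card (Orb σ) := by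
    have h1 : B.card ≤ ∑ p ∈ (S ×ˢ S).filter (fun p => p.1 ≠ p.2), (A p).card :=
      Finset.card_biUnion_le
    have h2 : ((S ×ˢ S).filter (fun p => p.1 ≠ p.2)).card ≤ K ^ 2 := by
      refine (Finset.card_filter_le _ _).trans ?_
      rw [Finset.card_product, hSc, sq]
    have hK2 : 0 < K ^ 2 := by positivity
    have h3 : K ^ 2 * (8 * B.card) ≤ K ^ 2 * 2 ^ Fintype.card (Orb σ) := by
      calc K ^ 2 * (8 * B.card) ≤ K ^ 2 * (8 * ∑ p ∈ (S ×ˢ S).filter (fun p => p.1 ≠ p.2), (A p).card) :=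
            Nat.mul_le_mul_left _ (Nat.mul_le_mul_left _ h1)
        _ = ∑ p ∈ (S ×ˢ S).filter (fun p => p.1 ≠ p.2), 8 * K ^ 2 * (A p).card := by
            rw [Finset.mul_sum, Finset.mul_sum]
            apply Finset.sum_congr rfl
            intro p _
            ring
        _ ≤ ∑ _p ∈ (S ×ˢ S).filter (fun p => p.1 ≠ p.2), 2 ^ Fintype.card (Orb σ) :=
            Finset.sum_le_sum hterm
        _ ≤ K ^ 2 * 2 ^ Fintype.card (Orb σ) := by
            rw [Finset.sum_const, smul_eq_mul]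
            exact Nat.mul_le_mul_right _ h2
    exact Nat.le_of_mul_le_mul_left h3 hK2
  have hBr : (B.card : ℝ) ≤ 2 ^ Fintype.card (Orb σ) * (1 / 8) := by
    have : (8 : ℝ) * B.card ≤ 2 ^ Fintype.card (Orb σ) := by exact_mod_cast hBc
    linarith
  have h := average_ge σ B (1 / 8) ((K : ℝ) ^ 2) (by positivity) hBr (by
    intro ξ hξ
    rw [← hSc]
    apply avK_vertex (gr σ ξ) (dg (gr σ ξ)) (fun τ hτ x => dg_inv hτ x) S
    intro x hx y hy hxy
    by_contra hne
    apply hξ
    rw [hB, Finset.mem_biUnion]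
    exact ⟨(x, y), Finset.mem_filter.2 ⟨Finset.mem_product.2 ⟨hx, hy⟩, hne⟩,
      Finset.mem_filter.2 ⟨Finset.mem_univ _, hxy⟩⟩)
  have hK2 : (0:ℝ) ≤ (K : ℝ) ^ 2 := by positivity
  linarith

end

end Pool.Agent.Helper870.BP
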