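import Mathlib
import Pool.Agent.Helper870.BPAbstract
import Pool.Agent.Helper870.BPBits
import Pool.Agent.Helper870.BPCount
import Pool.Agent.Helper870.BPOrbits
import Pool.Agent.Helper870.BPCaseB

set_option autoImplicit false
set_option linter.unusedSectionVars false

namespace Pool.Agent.Helper870.BP

open Finset

section
variable {V : Type} [Fintype V] [DecidableEq V]

open Classical in
/-- codegree -/
noncomputable def cdg (β : SimpleGraph V) (x y : V) : ℕ :=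
  ∑ z, if β.Adj x z ∧ β.Adj y z then 1 else 0

theorem cdg_inv {τ : Equiv.Perm V} {β : SimpleGraph V} (h : Inc τ β) (x y : V) :
    cdg β (τ x) (τ y) = cdg β x y := by
  classical
  unfold cdg
  rw [← Equiv.sum_comp τ]
  apply Finset.sum_congr rfl
  intro z _
  simp only [inc_adj h x z, inc_adj h y z]

open Classical in
/-- adjacency bit -/
noncomputable def Bt (σ : Equiv.Perm V) (ξ : Orb σ → Bool) (a b : V) : ℤ :=
  if a ≠ b ∧ ξ (q σ a b) = true then 1 else 0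

theorem cdg_gr (σ : Equiv.Perm V) (ξ : Orb σ → Bool) (x y : V) :
    (cdg (gr σ ξ) x y : ℤ) = ∑ z, Bt σ ξ x z * Bt σ ξ y z := by
  classical
  unfold cdg Bt
  push_cast
  apply Finset.sum_congr rfl
  intro z _
  simp only [gr_adj]
  by_cases h1 : x ≠ z ∧ ξ (q σ x z) = true
  · by_cases h2 : y ≠ z ∧ ξ (q σ y z) = true
    · rw [if_pos ⟨h1, h2⟩, if_pos h1, if_pos h2, one_mul]
    · rw [if_neg (fun h => h2 h.2), if_neg h2, mul_zero]
  · rw [if_neg (fun h => h1 h.1), if_neg h1, zero_mul]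

section cyc
variable (σ : Equiv.Perm V) (x0 : V) (c : ℕ)
  (hc : ∀ i j : ℤ, (σ ^ i) x0 = (σ ^ j) x0 ↔ (c : ℤ) ∣ i - j)

theorem ndvd {c : ℕ} {m : ℤ} (h0 : 0 < m) (h1 : m < c) : ¬ (c : ℤ) ∣ m := by
  intro h
  have := Int.le_of_dvd h0 h
  omega

theorem ndvd' {c : ℕ} {m : ℤ} (h0 : m ≠ 0) (h1 : m < c) (h2 : -m < c) : ¬ (c : ℤ) ∣ m := by
  intro h
  rcases lt_or_gt_of_ne h0 with h3 | h3
  · exact ndvd (c := c) (m := -m) (by omega) h2 ((dvd_neg).2 h)
  · exact ndvd h3 h1 h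

/-- the orbit of the pair `{x_0, x_i}` -/
def qi (i : ℤ) : Orb σ := q σ x0 ((σ ^ i) x0)

theorem q_shift (a b : ℤ) : q σ ((σ ^ a) x0) ((σ ^ b) x0) = qi σ x0 (b - a) := by
  unfold qi
  have h := q_zpow σ a x0 ((σ ^ (b - a)) x0)
  rw [← h, ← Equiv.Perm.mul_apply, ← zpow_add]
  congr 3
  ring

theorem qi_neg (i : ℤ) : qi σ x0 (-i) = qi σ x0 i := by
  have h := q_shift σ x0 i 0
  rw [zpow_zero, Equiv.Perm.one_apply, zero_sub] at h
  rw [← h, q_comm]
  rfl

include hc in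
theorem qi_eq {i j : ℤ} (h : qi σ x0 i = qi σ x0 j) : (c : ℤ) ∣ i - j ∨ (c : ℤ) ∣ i + j := by
  unfold qi at h
  rw [q_eq_iff] at h
  obtain ⟨k, hk⟩ := h
  rw [← Equiv.Perm.mul_apply, ← zpow_add] at hk
  rcases hk with ⟨h1, h2⟩ | ⟨h1, h2⟩
  · left
    have e1 := (hc k 0).1 (by rw [zpow_zero, Equiv.Perm.one_apply]; exact h1)
    have e2 := (hc (k + i) j).1 h2
    have e3 : i - j = (k + i - j) - (k - 0) := by ring
    rw [e3]
    exact dvd_sub e2 e1
  · right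
    have e1 := (hc k j).1 h1
    have e2 := (hc (k + i) 0).1 (by rw [zpow_zero, Equiv.Perm.one_apply]; exact h2)
    have e3 : i + j = (k + i - 0) - (k - j) := by ring
    rw [e3]
    exact dvd_sub e2 e1

include hc in
theorem q_eq_qi {a : ℤ} {z : V} {w : ℤ} (h : q σ ((σ ^ a) x0) z = qi σ x0 w) :
    z = (σ ^ (a + w)) x0 ∨ z = (σ ^ (a - w)) x0 := by
  unfold qi at h
  rw [q_eq_iff] at h
  obtain ⟨k, hk⟩ := h
  rw [← Equiv.Perm.mul_apply, ← zpow_add] at hk
  rcases hk with ⟨h1, h2⟩ | ⟨h1, h2⟩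
  · left
    have e1 := (hc (k + a) 0).1 (by rw [zpow_zero, Equiv.Perm.one_apply]; exact h1)
    have e2 : z = (σ ^ (-k)) ((σ ^ w) x0) := by
      rw [← h2, ← Equiv.Perm.mul_apply, ← zpow_add, neg_add_cancel, zpow_zero,
        Equiv.Perm.one_apply]
    rw [e2, ← Equiv.Perm.mul_apply, ← zpow_add, hc]
    have e3 : -k + w - (a + w) = -(k + a - 0) := by ring
    rw [e3]
    exact (dvd_neg).2 e1
  · right
    have e1 := (hc (k + a) w).1 h1
    have e2 : z = (σ ^ (-k)) x0 := by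
      rw [← h2, ← Equiv.Perm.mul_apply, ← zpow_add, neg_add_cancel, zpow_zero,
        Equiv.Perm.one_apply]
    rw [e2, hc]
    have e3 : -k - (a - w) = -(k + a - w) := by ring
    rw [e3]
    exact (dvd_neg).2 e1

open Classical in
/-- effect of one toggle on the adjacency bits of `x_a` -/
theorem Bt_update (a w : ℤ) (hw : ¬ (c : ℤ) ∣ w) (h2w : ¬ (c : ℤ) ∣ 2 * w)
    (hc : ∀ i j : ℤ, (σ ^ i) x0 = (σ ^ j) x0 ↔ (c : ℤ) ∣ i - j)
    (ξ : Orb σ → Bool) (z : V) :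
    Bt σ (Function.update ξ (qi σ x0 w) true) ((σ ^ a) x0) z =
      Bt σ (Function.update ξ (qi σ x0 w) false) ((σ ^ a) x0) z +
        ((if z = (σ ^ (a + w)) x0 then 1 else 0) + (if z = (σ ^ (a - w)) x0 then 1 else 0)) := by
  have hd : (σ ^ (a + w)) x0 ≠ (σ ^ (a - w)) x0 := by
    rw [Ne, hc]
    have : a + w - (a - w) = 2 * w := by ring
    rw [this]; exact h2w
  unfold Bt
  by_cases h : q σ ((σ ^ a) x0) z = qi σ x0 w
  · rw [h, Function.update_self, Function.update_self]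
    have hne : (σ ^ a) x0 ≠ z := by
      rcases q_eq_qi σ x0 c hc h with h1 | h1
      · rw [h1, Ne, hc]
        have : a - (a + w) = -w := by ring
        rw [this, dvd_neg]; exact hw
      · rw [h1, Ne, hc]
        have : a - (a - w) = w := by ring
        rw [this]; exact hw
    rw [if_pos ⟨hne, rfl⟩, if_neg (fun h => Bool.false_ne_true h.2)]
    rcases q_eq_qi σ x0 c hc h with h1 | h1
    · rw [if_pos h1, if_neg (by rw [h1]; exact hd)]; norm_num
    · rw [if_pos h1, if_neg (by rw [h1]; exact hd.symm)]; norm_num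
  · rw [Function.update_of_ne h, Function.update_of_ne h]
    have h1 : z ≠ (σ ^ (a + w)) x0 := by
      rintro rfl
      apply h
      rw [q_shift]
      congr 1; ring
    have h2 : z ≠ (σ ^ (a - w)) x0 := by
      rintro rfl
      apply h
      rw [q_shift, ← qi_neg]
      congr 1; ring
    rw [if_neg h1, if_neg h2]
    ring

open Classical in
/-- bit of the index `i` -/
noncomputable def bi (ξ : Orb σ → Bool) (i : ℤ) : ℤ := if ξ (qi σ x0 i) = true then 1 else 0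

open Classical in
theorem Bt_bi (hc : ∀ i j : ℤ, (σ ^ i) x0 = (σ ^ j) x0 ↔ (c : ℤ) ∣ i - j)
    (ξ : Orb σ → Bool) (a b : ℤ) (h : ¬ (c : ℤ) ∣ b - a) :
    Bt σ ξ ((σ ^ a) x0) ((σ ^ b) x0) = bi σ x0 ξ (b - a) := by
  unfold Bt bi
  rw [q_shift]
  have hne : (σ ^ a) x0 ≠ (σ ^ b) x0 := by
    rw [Ne, hc]
    have : a - b = -(b - a) := by ring
    rw [this, dvd_neg]; exact h
  simp [hne]

theorem bi_neg (ξ : Orb σ → Bool) (i : ℤ) : bi σ x0 ξ (-i) = bi σ x0 ξ i := by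
  unfold bi
  rw [qi_neg]

theorem bi_update (hc : ∀ i j : ℤ, (σ ^ i) x0 = (σ ^ j) x0 ↔ (c : ℤ) ∣ i - j)
    (ξ : Orb σ → Bool) (i w : ℤ) (b : Bool) (h1 : ¬ (c : ℤ) ∣ i - w) (h2 : ¬ (c : ℤ) ∣ i + w) :
    bi σ x0 (Function.update ξ (qi σ x0 w) b) i = bi σ x0 ξ i := by
  unfold bi
  have h : qi σ x0 i ≠ qi σ x0 w := by
    intro h
    rcases qi_eq σ x0 c hc h with h3 | h3
    · exact h1 h3
    · exact h2 h3
  rw [Function.update_of_ne h]

open Classical in
/-- **toggle lemma** -/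
theorem toggle (hc : ∀ i j : ℤ, (σ ^ i) x0 = (σ ^ j) x0 ↔ (c : ℤ) ∣ i - j)
    (ξ : Orb σ → Bool) (s w : ℤ) (hs : 0 < s) (hsw : s < w) (hwc : 2 * w + s < c) :
    (cdg (gr σ (Function.update ξ (qi σ x0 w) true)) x0 ((σ ^ s) x0) : ℤ) =
      cdg (gr σ (Function.update ξ (qi σ x0 w) false)) x0 ((σ ^ s) x0) +
        2 * (bi σ x0 ξ (w - s) + bi σ x0 ξ (w + s)) := by
  rw [cdg_gr, cdg_gr]
  set ξ1 := Function.update ξ (qi σ x0 w) true with hξ1
  set ξ0 := Function.update ξ (qi σ x0 w) false with hξ0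
  have hw : ¬ (c : ℤ) ∣ w := ndvd (by omega) (by omega)
  have h2w : ¬ (c : ℤ) ∣ 2 * w := ndvd (by omega) (by omega)
  have e0 : x0 = (σ ^ (0 : ℤ)) x0 := by rw [zpow_zero, Equiv.Perm.one_apply]
  have u1 : ∀ z, Bt σ ξ1 x0 z = Bt σ ξ0 x0 z +
      ((if z = (σ ^ w) x0 then 1 else 0) + (if z = (σ ^ (-w)) x0 then 1 else 0)) := by
    intro z
    have := Bt_update σ x0 c 0 w hw h2w hc ξ z
    rwa [← e0, zero_add, zero_sub] at this
  have u2 : ∀ z, Bt σ ξ1 ((σ ^ s) x0) z = Bt σ ξ0 ((σ ^ s) x0) z +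
      ((if z = (σ ^ (s + w)) x0 then 1 else 0) + (if z = (σ ^ (s - w)) x0 then 1 else 0)) :=
    fun z => Bt_update σ x0 c s w hw h2w hc ξ z
  have d1 : (σ ^ w) x0 ≠ (σ ^ (s + w)) x0 := by
    rw [Ne, hc]; exact ndvd' (by omega) (by omega) (by omega)
  have d2 : (σ ^ w) x0 ≠ (σ ^ (s - w)) x0 := by
    rw [Ne, hc]; exact ndvd' (by omega) (by omega) (by omega)
  have d3 : (σ ^ (-w)) x0 ≠ (σ ^ (s + w)) x0 := by
    rw [Ne, hc]; exact ndvd' (by omega) (by omega) (by omega)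
  have d4 : (σ ^ (-w)) x0 ≠ (σ ^ (s - w)) x0 := by
    rw [Ne, hc]; exact ndvd' (by omega) (by omega) (by omega)
  have hprod : ∀ z, Bt σ ξ1 x0 z * Bt σ ξ1 ((σ ^ s) x0) z =
      Bt σ ξ0 x0 z * Bt σ ξ0 ((σ ^ s) x0) z +
      (((if z = (σ ^ w) x0 then Bt σ ξ0 ((σ ^ s) x0) ((σ ^ w) x0) else 0) +
        (if z = (σ ^ (-w)) x0 then Bt σ ξ0 ((σ ^ s) x0) ((σ ^ (-w)) x0) else 0)) +
      ((if z = (σ ^ (s + w)) x0 then Bt σ ξ0 x0 ((σ ^ (s + w)) x0) else 0) +
        (if z = (σ ^ (s - w)) x0 then Bt σ ξ0 x0 ((σ ^ (s - w)) x0) else 0))) := by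
    intro z
    rw [u1, u2]
    have hdw : (σ ^ w) x0 ≠ (σ ^ (-w)) x0 := by
      rw [Ne, hc]; exact ndvd' (by omega) (by omega) (by omega)
    have hds : (σ ^ (s + w)) x0 ≠ (σ ^ (s - w)) x0 := by
      rw [Ne, hc]; exact ndvd' (by omega) (by omega) (by omega)
    by_cases z1 : z = (σ ^ w) x0
    · rw [z1]; simp only [if_true, if_neg d1, if_neg d2, if_neg hdw]; ring
    · by_cases z2 : z = (σ ^ (-w)) x0
      · rw [z2]; simp only [if_true, if_neg d3, if_neg d4, if_neg hdw.symm]; ring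
      · by_cases z3 : z = (σ ^ (s + w)) x0
        · rw [z3]; simp only [if_true, if_neg d1.symm, if_neg d3.symm, if_neg hds]; ring
        · by_cases z4 : z = (σ ^ (s - w)) x0
          · rw [z4]; simp only [if_true, if_neg d2.symm, if_neg d4.symm, if_neg hds.symm]; ring
          · simp only [if_neg z1, if_neg z2, if_neg z3, if_neg z4]; ring
  rw [Finset.sum_congr rfl fun z _ => hprod z, Finset.sum_add_distrib]
  congr 1
  rw [Finset.sum_add_distrib, Finset.sum_add_distrib, Finset.sum_add_distrib]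
  simp only [Finset.sum_ite_eq', Finset.mem_univ, if_true]
  have b1 : Bt σ ξ0 ((σ ^ s) x0) ((σ ^ w) x0) = bi σ x0 ξ (w - s) := by
    rw [Bt_bi σ x0 c hc _ _ _ (ndvd' (by omega) (by omega) (by omega))]
    exact bi_update σ x0 c hc _ _ _ _ (ndvd' (by omega) (by omega) (by omega))
      (ndvd' (by omega) (by omega) (by omega))
  have b2 : Bt σ ξ0 ((σ ^ s) x0) ((σ ^ (-w)) x0) = bi σ x0 ξ (w + s) := by
    rw [Bt_bi σ x0 c hc _ _ _ (ndvd' (by omega) (by omega) (by omega)),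
      show -w - s = -(w + s) by ring, bi_neg]
    exact bi_update σ x0 c hc _ _ _ _ (ndvd' (by omega) (by omega) (by omega))
      (ndvd' (by omega) (by omega) (by omega))
  have b3 : Bt σ ξ0 x0 ((σ ^ (s + w)) x0) = bi σ x0 ξ (w + s) := by
    have h := Bt_bi σ x0 c hc ξ0 0 (s + w) (ndvd' (by omega) (by omega) (by omega))
    rw [← e0] at h
    rw [h, show s + w - 0 = w + s by ring]
    exact bi_update σ x0 c hc _ _ _ _ (ndvd' (by omega) (by omega) (by omega))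
      (ndvd' (by omega) (by omega) (by omega))
  have b4 : Bt σ ξ0 x0 ((σ ^ (s - w)) x0) = bi σ x0 ξ (w - s) := by
    have h := Bt_bi σ x0 c hc ξ0 0 (s - w) (ndvd' (by omega) (by omega) (by omega))
    rw [← e0] at h
    rw [h, show s - w - 0 = -(w - s) by ring, bi_neg]
    exact bi_update σ x0 c hc _ _ _ _ (ndvd' (by omega) (by omega) (by omega))
      (ndvd' (by omega) (by omega) (by omega))
  rw [b1, b2, b3, b4]
  ring

end cyc

end

end Pool.Agent.Helper870.BP
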