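import Mathlib
import Pool.Agent.Helper870.BPAbstract
import Pool.Agent.Helper870.BPBits
import Pool.Agent.Helper870.BPCount
import Pool.Agent.Helper870.BPOrbits
import Pool.Agent.Helper870.BPCaseB
import Pool.Agent.Helper870.BPCaseA2

set_option autoImplicit false
set_option linter.unusedSectionVars false

namespace Pool.Agent.Helper870.BP

open Finset

section
variable {V : Type} [Fintype V] [DecidableEq V]
variable (σ : Equiv.Perm V) (x0 : V) (c : ℕ)

/-- the toggled indices -/
def wi (K : ℕ) (i : ℕ) : ℤ := 4 * (K + 1) * (i + 1)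

/-- the coefficient of the toggle `i` -/
noncomputable def Vc (K : ℕ) (s t : ℤ) (ξ : Orb σ → Bool) (i : ℕ) : ℤ :=
  2 * (bi σ x0 ξ (wi K i - s) + bi σ x0 ξ (wi K i + s)) -
    2 * (bi σ x0 ξ (wi K i - t) + bi σ x0 ξ (wi K i + t))

theorem wi_pos (K i : ℕ) : 4 * ((K : ℤ) + 1) ≤ wi K i := by
  unfold wi
  have : (0 : ℤ) ≤ i := Int.natCast_nonneg i
  have h2 : (0:ℤ) ≤ K := Int.natCast_nonneg K
  nlinarith

theorem wi_lt {K i M : ℕ} (h : i < M) : wi K i ≤ 4 * (K + 1) * M := by
  unfold wi
  have : (i : ℤ) + 1 ≤ M := by exact_mod_cast h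
  have h2 : (0:ℤ) ≤ K := Int.natCast_nonneg K
  nlinarith

theorem wi_sep {K i j : ℕ} (h : i < j) : wi K i + 4 * (K + 1) ≤ wi K j := by
  unfold wi
  have : (i : ℤ) + 1 ≤ j := by exact_mod_cast h
  have h2 : (0:ℤ) ≤ K := Int.natCast_nonneg K
  nlinarith

/-- separation in usable form -/
theorem wi_cases (K i j : ℕ) : i = j ∨ wi K i + 4 * (K + 1) ≤ wi K j ∨ wi K j + 4 * (K + 1) ≤ wi K i := by
  rcases lt_trichotomy i j with h | h | h
  · exact Or.inr (Or.inl (wi_sep h))
  · exact Or.inl h
  · exact Or.inr (Or.inr (wi_sep h))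

variable (hc : ∀ i j : ℤ, (σ ^ i) x0 = (σ ^ j) x0 ↔ (c : ℤ) ∣ i - j)

include hc in
/-- a group of vanishing coefficients is unlikely -/
theorem group_card (K N g : ℕ) (s t : ℤ) (hs : 0 < s) (hst : s < t) (htK : t ≤ K)
    (hcl : 2 * (4 * (K + 1) * (N * N) + (K + 1)) < c) (hg : g < N)
    (Z : Finset (Orb σ → Bool)) (hZ : ∀ ξ ∈ Z, ∀ i, g * N ≤ i → i < g * N + N → Vc σ x0 K s t ξ i = 0) :
    Z.card * 2 ^ N ≤ 2 ^ Fintype.card (Orb σ) := by
  classical
  have hcl' : 2 * (4 * ((K : ℤ) + 1) * (N * N) + (K + 1)) < c := by exact_mod_cast hcl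
  have hiN : ∀ i, i < g * N + N → i < N * N := by
    intro i hi
    have : g * N + N ≤ N * N := by
      have : g + 1 ≤ N := hg
      calc g * N + N = (g + 1) * N := by ring
        _ ≤ N * N := Nat.mul_le_mul_right _ this
    omega
  have hup : ∀ i, i < g * N + N → wi K i ≤ 4 * ((K:ℤ) + 1) * (N * N) := by
    intro i hi
    have := wi_lt (K := K) (hiN i hi)
    push_cast at this
    exact this
  set E : Finset (Orb σ) := (Finset.Ico (g * N) (g * N + N)).image (fun i => qi σ x0 (wi K i + s)) with hE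
  have hEc : E.card = N := by
    rw [hE, Finset.card_image_of_injOn]
    · simp
    · intro i hi j hj heq
      rw [Finset.mem_coe, Finset.mem_Ico] at hi hj
      simp only at heq
      have h1 := hup i hi.2
      have h2 := hup j hj.2
      have h3 := wi_pos K i
      have h4 := wi_pos K j
      rcases wi_cases K i j with h | h | h
      · exact h
      · exfalso
        rcases qi_eq σ x0 c hc heq with h5 | h5
        · exact ndvd' (by omega) (by omega) (by omega) h5
        · exact ndvd' (by omega) (by omega) (by omega) h5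
      · exfalso
        rcases qi_eq σ x0 c hc heq with h5 | h5
        · exact ndvd' (by omega) (by omega) (by omega) h5
        · exact ndvd' (by omega) (by omega) (by omega) h5
  rw [← hEc]
  apply det_card
  intro ξ hξ ξ' hξ' hag
  -- indices not in E
  have hnotE : ∀ (i : ℕ) (r : ℤ), g * N ≤ i → i < g * N + N → (r = -s ∨ r = t ∨ r = -t) →
      qi σ x0 (wi K i + r) ∉ E := by
    intro i r hi1 hi2 hr hmem
    obtain ⟨j, hj, heq⟩ := Finset.mem_image.1 hmem
    rw [Finset.mem_Ico] at hj
    try simp only at heq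
    have h1 := hup i hi2
    have h2 := hup j hj.2
    have h3 := wi_pos K i
    have h4 := wi_pos K j
    rcases qi_eq σ x0 c hc heq with h5 | h5
    · revert h5
      apply ndvd'
      · rcases wi_cases K j i with h | h | h
        · subst h; rcases hr with rfl | rfl | rfl <;> omega
        · rcases hr with rfl | rfl | rfl <;> omega
        · rcases hr with rfl | rfl | rfl <;> omega
      · rcases hr with rfl | rfl | rfl <;> omega
      · rcases hr with rfl | rfl | rfl <;> omega
    · revert h5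
      apply ndvd'
      · rcases hr with rfl | rfl | rfl <;> omega
      · rcases hr with rfl | rfl | rfl <;> omega
      · rcases hr with rfl | rfl | rfl <;> omega
  have hbi : ∀ (i : ℕ) (r : ℤ), g * N ≤ i → i < g * N + N → (r = -s ∨ r = t ∨ r = -t) →
      bi σ x0 ξ (wi K i + r) = bi σ x0 ξ' (wi K i + r) := by
    intro i r hi1 hi2 hr
    unfold bi
    rw [hag _ (hnotE i r hi1 hi2 hr)]
  funext e
  by_cases he : e ∈ E
  · obtain ⟨i, hi, rfl⟩ := Finset.mem_image.1 he
    rw [Finset.mem_Ico] at hi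
    have a1 := hZ ξ hξ i hi.1 hi.2
    have a2 := hZ ξ' hξ' i hi.1 hi.2
    unfold Vc at a1 a2
    have b1 := hbi i (-s) hi.1 hi.2 (Or.inl rfl)
    have b2 := hbi i t hi.1 hi.2 (Or.inr (Or.inl rfl))
    have b3 := hbi i (-t) hi.1 hi.2 (Or.inr (Or.inr rfl))
    rw [← sub_eq_add_neg] at b1 b3
    have h5 : bi σ x0 ξ (wi K i + s) = bi σ x0 ξ' (wi K i + s) := by
      rw [b1, b2, b3] at a1
      linarith
    try simp only at h5 ⊢
    unfold bi at h5
    by_cases p1 : ξ (qi σ x0 (wi K i + s)) = true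
    · by_cases p2 : ξ' (qi σ x0 (wi K i + s)) = true
      · rw [p1, p2]
      · rw [if_pos p1, if_neg p2] at h5
        exact absurd h5 one_ne_zero
    · by_cases p2 : ξ' (qi σ x0 (wi K i + s)) = true
      · rw [if_neg p1, if_pos p2] at h5
        exact absurd h5 zero_ne_one
      · rw [Bool.not_eq_true] at p1 p2
        rw [p1, p2]
  · exact hag e he

include hc in
/-- codegrees at two distances rarely coincide -/
theorem codeg_pair_card (K N : ℕ) (s t : ℤ) (hs : 0 < s) (hst : s < t) (htK : t ≤ K)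
    (hcl : 2 * (4 * (K + 1) * (N * N) + (K + 1)) < c)
    (A : Finset (Orb σ → Bool))
    (hA : ∀ ξ ∈ A, cdg (gr σ ξ) x0 ((σ ^ s) x0) = cdg (gr σ ξ) x0 ((σ ^ t) x0)) :
    A.card * 2 ^ N ≤ 2 ^ Fintype.card (Orb σ) * N.choose (N / 2) + N * 2 ^ Fintype.card (Orb σ) := by
  classical
  have hcl' : 2 * (4 * ((K : ℤ) + 1) * (N * N) + (K + 1)) < c := by exact_mod_cast hcl
  -- exceptional sets
  let Z : ℕ → Finset (Orb σ → Bool) := fun g => univ.filter
    (fun ξ => ∀ i, g * N ≤ i → i < g * N + N → Vc σ x0 K s t ξ i = 0)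
  have hZc : ∀ g ∈ Finset.range N, (Z g).card * 2 ^ N ≤ 2 ^ Fintype.card (Orb σ) := by
    intro g hg
    exact group_card σ x0 c hc K N g s t hs hst htK hcl (Finset.mem_range.1 hg) (Z g)
      (fun ξ hξ => (Finset.mem_filter.1 hξ).2)
  set ZZ := (Finset.range N).biUnion Z with hZZ
  have hZZc : ZZ.card * 2 ^ N ≤ N * 2 ^ Fintype.card (Orb σ) := by
    calc ZZ.card * 2 ^ N ≤ (∑ g ∈ Finset.range N, (Z g).card) * 2 ^ N :=
          Nat.mul_le_mul_right _ Finset.card_biUnion_le
      _ = ∑ g ∈ Finset.range N, (Z g).card * 2 ^ N := by rw [Finset.sum_mul]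
      _ ≤ ∑ _g ∈ Finset.range N, 2 ^ Fintype.card (Orb σ) := Finset.sum_le_sum hZc
      _ = _ := by rw [Finset.sum_const, Finset.card_range, smul_eq_mul]
  -- index function
  have hup : ∀ i, i < N * N → wi K i ≤ 4 * ((K:ℤ) + 1) * (N * N) := by
    intro i hi
    have := wi_lt (K := K) hi
    push_cast at this
    exact this
  have hinj : ∀ i j, i < N * N → j < N * N → qi σ x0 (wi K i) = qi σ x0 (wi K j) → i = j := by
    intro i j hi hj heq
    have h1 := hup i hi
    have h2 := hup j hj
    have h3 := wi_pos K i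
    have h4 := wi_pos K j
    rcases wi_cases K i j with h | h | h
    · exact h
    · exfalso
      rcases qi_eq σ x0 c hc heq with h5 | h5
      · exact ndvd' (by omega) (by omega) (by omega) h5
      · exact ndvd' (by omega) (by omega) (by omega) h5
    · exfalso
      rcases qi_eq σ x0 c hc heq with h5 | h5
      · exact ndvd' (by omega) (by omega) (by omega) h5
      · exact ndvd' (by omega) (by omega) (by omega) h5
  let idx : Orb σ → ℕ := fun e =>
    if h : ∃ i, i < N * N ∧ qi σ x0 (wi K i) = e then h.choose else 0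
  have hidx : ∀ i, i < N * N → idx (qi σ x0 (wi K i)) = i := by
    intro i hi
    have h : ∃ j, j < N * N ∧ qi σ x0 (wi K j) = qi σ x0 (wi K i) := ⟨i, hi, rfl⟩
    simp only [idx, dif_pos h]
    exact hinj _ _ h.choose_spec.1 hi h.choose_spec.2
  set W : Finset (Orb σ) := (Finset.range (N * N)).image (fun i => qi σ x0 (wi K i)) with hW
  have hlo : (A \ ZZ).card * 2 ^ N ≤ 2 ^ Fintype.card (Orb σ) * N.choose (N / 2) := by
    apply lo_card W (fun ξ => (cdg (gr σ ξ) x0 ((σ ^ s) x0) : ℤ) - cdg (gr σ ξ) x0 ((σ ^ t) x0))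
      (fun ξ e => Vc σ x0 K s t ξ (idx e))
    · intro ξ e he
      obtain ⟨i, hi, rfl⟩ := Finset.mem_image.1 he
      rw [Finset.mem_range] at hi
      simp only [hidx i hi]
      have h1 := hup i hi
      have h3 := wi_pos K i
      rw [toggle σ x0 c hc ξ s (wi K i) hs (by omega) (by omega),
        toggle σ x0 c hc ξ t (wi K i) (by omega) (by omega) (by omega)]
      unfold Vc
      ring
    · intro ξ e he e' he' b
      obtain ⟨i, hi, rfl⟩ := Finset.mem_image.1 he
      obtain ⟨j, hj, rfl⟩ := Finset.mem_image.1 he'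
      rw [Finset.mem_range] at hi hj
      simp only [hidx i hi]
      have h1 := hup i hi
      have h2 := hup j hj
      have h3 := wi_pos K i
      have h4 := wi_pos K j
      have hb : ∀ r : ℤ, (r = s ∨ r = -s ∨ r = t ∨ r = -t) →
          bi σ x0 (Function.update ξ (qi σ x0 (wi K j)) b) (wi K i + r) = bi σ x0 ξ (wi K i + r) := by
        intro r hr
        apply bi_update σ x0 c hc
        · apply ndvd'
          · rcases wi_cases K i j with h | h | h
            · subst h; rcases hr with rfl | rfl | rfl | rfl <;> omega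
            · rcases hr with rfl | rfl | rfl | rfl <;> omega
            · rcases hr with rfl | rfl | rfl | rfl <;> omega
          · rcases hr with rfl | rfl | rfl | rfl <;> omega
          · rcases hr with rfl | rfl | rfl | rfl <;> omega
        · apply ndvd'
          · rcases hr with rfl | rfl | rfl | rfl <;> omega
          · rcases hr with rfl | rfl | rfl | rfl <;> omega
          · rcases hr with rfl | rfl | rfl | rfl <;> omega
      unfold Vc
      have b1 := hb s (Or.inl rfl)
      have b2 := hb (-s) (Or.inr (Or.inl rfl))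
      have b3 := hb t (Or.inr (Or.inr (Or.inl rfl)))
      have b4 := hb (-t) (Or.inr (Or.inr (Or.inr rfl)))
      rw [← sub_eq_add_neg] at b2 b4
      rw [b1, b2, b3, b4]
    · intro ξ hξ
      rw [Finset.mem_sdiff] at hξ
      refine ⟨by simp only [hA ξ hξ.1, sub_self], ?_⟩
      -- choose one active toggle in each group
      have hact : ∀ g, g < N → ∃ i, g * N ≤ i ∧ i < g * N + N ∧ Vc σ x0 K s t ξ i ≠ 0 := by
        intro g hg
        by_contra hcon
        push Not at hcon
        apply hξ.2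
        rw [hZZ, Finset.mem_biUnion]
        exact ⟨g, Finset.mem_range.2 hg, Finset.mem_filter.2 ⟨Finset.mem_univ _, hcon⟩⟩
      choose! a ha using hact
      have haN : ∀ g, g < N → a g < N * N := by
        intro g hg
        have h1 := (ha g hg).2.1
        have : g * N + N ≤ N * N := by
          calc g * N + N = (g + 1) * N := by ring
            _ ≤ N * N := Nat.mul_le_mul_right _ hg
        omega
      have h1 : ((Finset.range N).image (fun g => qi σ x0 (wi K (a g)))).card = N := by
        rw [Finset.card_image_of_injOn, Finset.card_range]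
        intro g hg g' hg' heq
        rw [Finset.mem_coe, Finset.mem_range] at hg hg'
        have h2 := hinj _ _ (haN g hg) (haN g' hg') heq
        have h3 := ha g hg
        have h4 := ha g' hg'
        rw [← h2] at h4
        by_contra hne
        rcases Nat.lt_or_gt_of_ne hne with h5 | h5
        · have : g * N + N ≤ g' * N := by
            calc g * N + N = (g + 1) * N := by ring
              _ ≤ g' * N := Nat.mul_le_mul_right _ h5
          omega
        · have : g' * N + N ≤ g * N := by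
            calc g' * N + N = (g' + 1) * N := by ring
              _ ≤ g * N := Nat.mul_le_mul_right _ h5
          omega
      rw [← h1]
      apply Finset.card_le_card
      intro e he
      obtain ⟨g, hg, rfl⟩ := Finset.mem_image.1 he
      rw [Finset.mem_range] at hg
      rw [Finset.mem_filter]
      refine ⟨Finset.mem_image.2 ⟨a g, Finset.mem_range.2 (haN g hg), rfl⟩, ?_⟩
      simp only [hidx _ (haN g hg)]
      exact (ha g hg).2.2
  have hsplit : A.card ≤ (A \ ZZ).card + ZZ.card := by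
    have := Finset.card_le_card (show A ⊆ (A \ ZZ) ∪ ZZ by
      intro ξ hξ
      by_cases h : ξ ∈ ZZ
      · exact Finset.mem_union_right _ h
      · exact Finset.mem_union_left _ (Finset.mem_sdiff.2 ⟨hξ, h⟩))
    exact this.trans (Finset.card_union_le _ _)
  calc A.card * 2 ^ N ≤ ((A \ ZZ).card + ZZ.card) * 2 ^ N := Nat.mul_le_mul_right _ hsplit
    _ = (A \ ZZ).card * 2 ^ N + ZZ.card * 2 ^ N := by ring
    _ ≤ _ := Nat.add_le_add hlo hZZc

theorem sq_le_two_pow (N : ℕ) (h : 4 ≤ N) : N ^ 2 ≤ 2 ^ N := by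
  induction N, h using Nat.le_induction with
  | base => norm_num
  | succ N hN ih =>
    rw [pow_succ 2 N]
    nlinarith

include hc in
/-- one long cycle -/
theorem caseA2 (K : ℕ) (hK : 1 ≤ K)
    (hcl : 2 * (4 * (K + 1) * ((64 * K ^ 4) * (64 * K ^ 4)) + (K + 1)) < c) :
    (1 / 2) * (K : ℝ) ≤ Dr Inc Pot σ := by
  classical
  set N := 64 * K ^ 4 with hN
  have hK4 : 1 ≤ K ^ 4 := Nat.one_le_pow _ _ hK
  let A : ℕ × ℕ → Finset (Orb σ → Bool) := fun p => univ.filter
    (fun ξ => cdg (gr σ ξ) x0 ((σ ^ (p.1 : ℤ)) x0) = cdg (gr σ ξ) x0 ((σ ^ (p.2 : ℤ)) x0))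
  set S := Finset.Icc 1 K with hS
  set B := ((S ×ˢ S).filter (fun p => p.1 < p.2)).biUnion A with hB
  have hterm : ∀ p ∈ (S ×ˢ S).filter (fun p => p.1 < p.2),
      4 * K ^ 2 * (A p).card ≤ 2 ^ Fintype.card (Orb σ) := by
    intro p hp
    rw [Finset.mem_filter, Finset.mem_product, hS, Finset.mem_Icc, Finset.mem_Icc] at hp
    have h1 := codeg_pair_card σ x0 c hc K N (p.1 : ℤ) (p.2 : ℤ) (by omega) (by omega) (by omega)
      hcl (A p) (fun ξ hξ => (Finset.mem_filter.1 hξ).2)
    have h2 := choose_small K hK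
    rw [← hN] at h2
    have h3 : 8 * K ^ 2 * N ≤ 2 ^ N := by
      have h4 := sq_le_two_pow N (by omega)
      have h5 : 8 * K ^ 2 ≤ N := by
        rw [hN]
        have : K ^ 2 ≤ K ^ 4 := Nat.pow_le_pow_right hK (by norm_num)
        omega
      calc 8 * K ^ 2 * N ≤ N * N := Nat.mul_le_mul_right _ h5
        _ = N ^ 2 := by ring
        _ ≤ _ := h4
    have h4 : 8 * K ^ 2 * (A p).card * 2 ^ N ≤ (2 * 2 ^ Fintype.card (Orb σ)) * 2 ^ N := by
      calc 8 * K ^ 2 * (A p).card * 2 ^ N = 8 * K ^ 2 * ((A p).card * 2 ^ N) := by ring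
        _ ≤ 8 * K ^ 2 * (2 ^ Fintype.card (Orb σ) * N.choose (N / 2) + N * 2 ^ Fintype.card (Orb σ)) :=
            Nat.mul_le_mul_left _ h1
        _ = 2 ^ Fintype.card (Orb σ) * (8 * K ^ 2 * N.choose (N / 2)) +
            2 ^ Fintype.card (Orb σ) * (8 * K ^ 2 * N) := by ring
        _ ≤ 2 ^ Fintype.card (Orb σ) * 2 ^ N + 2 ^ Fintype.card (Orb σ) * 2 ^ N :=
            Nat.add_le_add (Nat.mul_le_mul_left _ h2) (Nat.mul_le_mul_left _ h3)
        _ = _ := by ring
    have h5 := Nat.le_of_mul_le_mul_right h4 (by positivity)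
    nlinarith
  have hBc : 4 * B.card ≤ 2 ^ Fintype.card (Orb σ) := by
    have h1 : B.card ≤ ∑ p ∈ (S ×ˢ S).filter (fun p => p.1 < p.2), (A p).card :=
      Finset.card_biUnion_le
    have h2 : ((S ×ˢ S).filter (fun p => p.1 < p.2)).card ≤ K ^ 2 := by
      refine (Finset.card_filter_le _ _).trans ?_
      rw [Finset.card_product, hS, Nat.card_Icc, sq]
      simp
    have hK2 : 0 < K ^ 2 := by positivity
    have h3 : K ^ 2 * (4 * B.card) ≤ K ^ 2 * 2 ^ Fintype.card (Orb σ) := by
      calc K ^ 2 * (4 * B.card) ≤ K ^ 2 * (4 * ∑ p ∈ (S ×ˢ S).filter (fun p => p.1 < p.2), (A p).card) :=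
            Nat.mul_le_mul_left _ (Nat.mul_le_mul_left _ h1)
        _ = ∑ p ∈ (S ×ˢ S).filter (fun p => p.1 < p.2), 4 * K ^ 2 * (A p).card := by
            rw [Finset.mul_sum, Finset.mul_sum]
            apply Finset.sum_congr rfl
            intro p _
            ring
        _ ≤ ∑ _p ∈ (S ×ˢ S).filter (fun p => p.1 < p.2), 2 ^ Fintype.card (Orb σ) :=
            Finset.sum_le_sum hterm
        _ ≤ K ^ 2 * 2 ^ Fintype.card (Orb σ) := by
            rw [Finset.sum_const, smul_eq_mul]
            exact Nat.mul_le_mul_right _ h2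
    exact Nat.le_of_mul_le_mul_left h3 hK2
  have hBr : (B.card : ℝ) ≤ 2 ^ Fintype.card (Orb σ) * (1 / 4) := by
    have : (4 : ℝ) * B.card ≤ 2 ^ Fintype.card (Orb σ) := by exact_mod_cast hBc
    linarith
  have h := average_ge σ B (1 / 4) (K : ℝ) (by positivity) hBr (by
    intro ξ hξ
    have hinj : ∀ a ∈ S, ∀ b ∈ S, cdg (gr σ ξ) x0 ((σ ^ (a : ℤ)) x0) =
        cdg (gr σ ξ) x0 ((σ ^ (b : ℤ)) x0) → a = b := by
      intro a ha b hb hab
      by_contra hne
      apply hξ
      rw [hB, Finset.mem_biUnion]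
      rcases Nat.lt_or_gt_of_ne hne with h5 | h5
      · exact ⟨(a, b), Finset.mem_filter.2 ⟨Finset.mem_product.2 ⟨ha, hb⟩, h5⟩,
          Finset.mem_filter.2 ⟨Finset.mem_univ _, hab⟩⟩
      · exact ⟨(b, a), Finset.mem_filter.2 ⟨Finset.mem_product.2 ⟨hb, ha⟩, h5⟩,
          Finset.mem_filter.2 ⟨Finset.mem_univ _, hab.symm⟩⟩
    have h6 := avK_pair (gr σ ξ) (fun p => cdg (gr σ ξ) p.1 p.2)
      (fun τ hτ x y => cdg_inv hτ x y)
      (S.image (fun a : ℕ => (x0, (σ ^ (a : ℤ)) x0))) (by
        intro p hp r hr hpr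
        rw [Finset.mem_coe, Finset.mem_image] at hp hr
        obtain ⟨a, ha, rfl⟩ := hp
        obtain ⟨b, hb, rfl⟩ := hr
        rw [hinj a ha b hb hpr])
    rw [Finset.card_image_of_injOn, hS, Nat.card_Icc] at h6
    · simpa using h6
    · intro a ha b hb hab
      apply hinj a ha b hb
      simp only [Prod.mk.injEq, true_and] at hab
      rw [hab])
  have hK2 : (0:ℝ) ≤ (K : ℝ) := by positivity
  linarith

end

end Pool.Agent.Helper870.BP
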