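import Mathlib
import Pool.Agent.Helper870.BPAbstract
import Pool.Agent.Helper870.BPBits
import Pool.Agent.Helper870.BPCount
import Pool.Agent.Helper870.BPOrbits
import Pool.Agent.Helper870.BPCaseB
import Pool.Agent.Helper870.BPCaseA1
import Pool.Agent.Helper870.BPCaseA2
import Pool.Agent.Helper870.BPCaseA2b

set_option autoImplicit false
set_option linter.unusedSectionVars false

namespace Pool.Agent.Helper870.BP

open Finset

theorem one_add_pow_le {x : ℝ} (hx : 0 ≤ x) (m : ℕ) (hm : (m : ℝ) * x ≤ 1 / 2) :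
    (1 + x) ^ m ≤ 1 + 2 * (m * x) := by
  rcases Nat.eq_zero_or_pos m with rfl | hmp
  · simp
  have hm1 : (1:ℝ) ≤ m := by exact_mod_cast hmp
  have hx1 : x ≤ 1 / 2 := by nlinarith
  have h1 : 1 - (m : ℝ) * x ≤ (1 - x) ^ m := by
    have := one_add_mul_le_pow (a := -x) (by linarith) m
    calc 1 - (m : ℝ) * x = 1 + m * (-x) := by ring
      _ ≤ (1 + -x) ^ m := this
      _ = (1 - x) ^ m := by ring
  have h2 : (1 + x) ^ m * (1 - x) ^ m ≤ 1 := by
    rw [← mul_pow]
    apply pow_le_one₀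
    · nlinarith
    · nlinarith
  have h3 : (1 + x) ^ m * (1 - (m : ℝ) * x) ≤ 1 :=
    (mul_le_mul_of_nonneg_left h1 (by positivity)).trans h2
  have h4 : 0 ≤ (1 + x) ^ m := by positivity
  have h5 : 1 ≤ (1 + 2 * (m * x)) * (1 - (m : ℝ) * x) := by
    have h6 : 0 ≤ (m : ℝ) * x := by positivity
    nlinarith
  have h7 : 0 < 1 - (m : ℝ) * x := by linarith
  exact le_of_mul_le_mul_right (h3.trans h5) h7

section
variable {V : Type} [Fintype V] [DecidableEq V]

theorem fx_eq (σ : Equiv.Perm V) : fx σ = (FS σ).card := rfl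

/-- large number of fixed points -/
theorem caseB_bad (σ : Equiv.Perm V) (L : ℕ) (hL : 1 ≤ L) (hn1 : 2 ^ L ≤ Fintype.card V)
    (hn2 : Fintype.card V < 2 ^ (L + 1)) (hf : 100 * L ≤ (FS σ).card) :
    ((Bad σ).card : ℝ) ≤ 2 ^ Fintype.card (Orb σ) * (2 / (Fintype.card V : ℝ) ^ 3) := by
  have h := Bad_card σ (10 * L) (by omega)
  refine h.trans (mul_le_mul_of_nonneg_left ?_ (by positivity))
  set n := Fintype.card V with hn
  have hn0 : 1 ≤ n := le_trans Nat.one_le_two_pow hn1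
  have hnr : (1:ℝ) ≤ n := by exact_mod_cast hn0
  have h2L : (n : ℝ) ≤ 2 ^ (2 * L) := by
    have : n ≤ 2 ^ (2 * L) := le_trans hn2.le (Nat.pow_le_pow_right (by norm_num) (by omega))
    exact_mod_cast this
  set x : ℝ := (n : ℝ) * (1 / 2) ^ (10 * L) with hx
  have hx0 : 0 ≤ x := by positivity
  have hxle : (n : ℝ) ^ 4 * x ≤ 1 := by
    have h1 : (n : ℝ) ^ 5 ≤ (2 ^ (2 * L)) ^ 5 := pow_le_pow_left₀ (by linarith) h2L 5
    have h2 : ((2:ℝ) ^ (2 * L)) ^ 5 = 2 ^ (10 * L) := by rw [← pow_mul]; congr 1; ring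
    rw [h2] at h1
    calc (n : ℝ) ^ 4 * x = (n : ℝ) ^ 5 * (1 / 2) ^ (10 * L) := by rw [hx]; ring
      _ ≤ 2 ^ (10 * L) * (1 / 2) ^ (10 * L) := mul_le_mul_of_nonneg_right h1 (by positivity)
      _ = 1 := by rw [← mul_pow]; norm_num
  have hn2' : (2:ℝ) ≤ n := by
    have : 2 ≤ n := le_trans (by calc 2 = 2 ^ 1 := by norm_num
      _ ≤ 2 ^ L := Nat.pow_le_pow_right (by norm_num) hL) hn1
    exact_mod_cast this
  have hxn : (n : ℝ) * x ≤ 1 / (n : ℝ) ^ 3 := by
    rw [le_div_iff₀ (by positivity)]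
    calc (n : ℝ) * x * n ^ 3 = (n : ℝ) ^ 4 * x := by ring
      _ ≤ 1 := hxle
  have h13 : 1 / (n : ℝ) ^ 3 ≤ 1 / 2 := by
    apply one_div_le_one_div_of_le (by norm_num)
    nlinarith [mul_pos (show (0:ℝ) < n by linarith) (show (0:ℝ) < n by linarith)]
  have hFn : (FS σ).card ≤ n := Finset.card_le_univ _
  calc (1 + x) ^ (FS σ).card - 1 ≤ (1 + x) ^ n - 1 := by
        have := pow_le_pow_right₀ (show (1:ℝ) ≤ 1 + x by linarith) hFn
        linarith
    _ ≤ 2 * ((n : ℝ) * x) := by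
        have := one_add_pow_le hx0 n (hxn.trans h13)
        linarith
    _ ≤ 2 * (1 / (n : ℝ) ^ 3) := by linarith
    _ = 2 / (n : ℝ) ^ 3 := by ring

theorem caseB (σ : Equiv.Perm V) (hσ : σ ≠ 1) (L : ℕ) (hL : 1 ≤ L) (hn1 : 2 ^ L ≤ Fintype.card V)
    (hn2 : Fintype.card V < 2 ^ (L + 1)) (hf : 100 * L ≤ (FS σ).card) :
    Pot σ + 1 ≤ Dr Inc Pot σ := by
  have hne : FS σ ≠ univ := by
    intro h
    apply hσ
    ext x
    have : x ∈ FS σ := by rw [h]; exact Finset.mem_univ x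
    exact (Finset.mem_filter.1 this).2
  have hlt : (FS σ).card < Fintype.card V := by
    rw [← Finset.card_univ]
    exact Finset.card_lt_card (Finset.ssubset_univ_iff.2 hne)
  have h := average_ge σ (Bad σ) (2 / (Fintype.card V : ℝ) ^ 3) ((((FS σ).card : ℝ) + 1) ^ 2)
    (by positivity) (caseB_bad σ L hL hn1 hn2 hf) (by
    intro ξ hξ
    apply avK_fixed (gr σ ξ) (FS σ) _ hne
    intro τ hτ x hx
    by_contra hcon
    apply hξ
    unfold Bad
    rw [Finset.mem_filter]
    exact ⟨Finset.mem_univ _, τ, hτ, x, hx, hcon⟩)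
  refine le_trans ?_ h
  unfold Pot
  rw [fx_eq]
  set f : ℝ := ((FS σ).card : ℝ) with hf'
  set n : ℝ := (Fintype.card V : ℝ) with hn
  have hfn : f + 1 ≤ n := by
    rw [hf', hn]
    exact_mod_cast hlt
  have hf1 : 100 ≤ f := by
    have : 100 ≤ (FS σ).card := by omega
    rw [hf']
    exact_mod_cast this
  have h3 : 2 / n ^ 3 * (f + 1) ^ 2 ≤ 2 := by
    have hn0 : (0:ℝ) < n := by linarith
    have hn3 : 0 < n ^ 3 := pow_pos hn0 3
    rw [div_mul_eq_mul_div, div_le_iff₀ hn3]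
    have h4 : (f + 1) ^ 2 ≤ n ^ 2 := pow_le_pow_left₀ (by linarith) hfn 2
    have h5 : n ^ 2 ≤ n ^ 3 := pow_le_pow_right₀ (by linarith) (by norm_num)
    linarith
  nlinarith

theorem caseId (L : ℕ) (hL : 1 ≤ L) (hn1 : 2 ^ L ≤ Fintype.card V)
    (hn2 : Fintype.card V < 2 ^ (L + 1)) (hn3 : 100 * L ≤ Fintype.card V)
    (hn4 : 32 ≤ Fintype.card V) :
    Pot (1 : Equiv.Perm V) - 1 / 16 ≤ Dr Inc Pot (1 : Equiv.Perm V) := by
  have hFS : FS (1 : Equiv.Perm V) = univ := by
    ext x; simp [FS]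
  have h := average_ge (1 : Equiv.Perm V) (Bad 1) (2 / (Fintype.card V : ℝ) ^ 3)
    ((Fintype.card V : ℝ) ^ 2)
    (by positivity) (caseB_bad 1 L hL hn1 hn2 (by rw [hFS, Finset.card_univ]; exact hn3)) (by
    intro ξ hξ
    apply avK_trivial (gr 1 ξ)
    intro τ hτ x
    by_contra hcon
    apply hξ
    unfold Bad
    rw [Finset.mem_filter]
    exact ⟨Finset.mem_univ _, τ, hτ, x, by rw [hFS]; exact Finset.mem_univ x, hcon⟩)
  refine le_trans ?_ h
  unfold Pot
  rw [fx_eq, hFS, Finset.card_univ]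
  set n : ℝ := (Fintype.card V : ℝ) with hn
  have hn4' : (32:ℝ) ≤ n := by rw [hn]; exact_mod_cast hn4
  have h3 : 2 / n ^ 3 * n ^ 2 ≤ 1 / 16 := by
    have : 2 / n ^ 3 * n ^ 2 = 2 / n := by field_simp
    rw [this, div_le_div_iff₀ (by linarith) (by norm_num)]
    linarith
  nlinarith

/-- few fixed points -/
theorem caseA (σ : Equiv.Perm V) (L : ℕ) (hf : (FS σ).card < 100 * L) (K : ℕ)
    (hK : K = 20000 * L ^ 2 + 2)
    (hbig : (64 * K ^ 4 + 2) * (2 * (4 * (K + 1) * ((64 * K ^ 4) * (64 * K ^ 4)) + (K + 1)) + 1)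
      ≤ Fintype.card V) :
    Pot σ + 1 ≤ Dr Inc Pot σ := by
  classical
  have hK1 : 1 ≤ K := by omega
  have hKr : (1:ℝ) ≤ K := by exact_mod_cast hK1
  have hhalf : (1 / 2) * (K : ℝ) ≤ Dr Inc Pot σ := by
    by_cases hm : 64 * K ^ 4 + 2 ≤ Fintype.card (Quotient (Equiv.Perm.SameCycle.setoid σ))
    · -- many cycles
      set P : Finset V := (univ : Finset (Quotient (Equiv.Perm.SameCycle.setoid σ))).image
        Quotient.out with hP
      have hPc : P.card = Fintype.card (Quotient (Equiv.Perm.SameCycle.setoid σ)) := by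
        rw [hP, Finset.card_image_of_injective _ Quotient.out_injective, Finset.card_univ]
      have h := caseA1 σ K hK1 P (by
        intro x hx y hy hne hsc
        rw [hP, Finset.mem_image] at hx hy
        obtain ⟨a, _, rfl⟩ := hx
        obtain ⟨b, _, rfl⟩ := hy
        apply hne
        have : a = b := by
          rw [← Quotient.out_eq a, ← Quotient.out_eq b]
          exact Quotient.sound hsc
        rw [this]) (by rw [hPc]; exact hm)
      refine le_trans ?_ h
      nlinarith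
    · -- a long cycle
      push Not at hm
      set Cc := 2 * (4 * (K + 1) * ((64 * K ^ 4) * (64 * K ^ 4)) + (K + 1)) + 1 with hCc
      have hle : Fintype.card (Quotient (Equiv.Perm.SameCycle.setoid σ)) * Cc ≤ Fintype.card V :=
        le_trans (Nat.mul_le_mul_right _ hm.le) hbig
      haveI : Nonempty (Quotient (Equiv.Perm.SameCycle.setoid σ)) := by
        have hpos : 0 < Fintype.card V := by
          have : 0 < (64 * K ^ 4 + 2) * Cc := by positivity
          omega
        obtain ⟨v⟩ := Fintype.card_pos_iff.1 hpos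
        exact ⟨Quotient.mk _ v⟩
      obtain ⟨y, hy⟩ := Fintype.exists_le_card_fiber_of_mul_le_card
        (fun v : V => (Quotient.mk (Equiv.Perm.SameCycle.setoid σ) v)) hle
      set x0 := y.out with hx0
      set c := MulAction.period σ x0 with hcdef
      have hper : ∀ j : ℤ, (σ ^ j) x0 = x0 ↔ (c : ℤ) ∣ j := by
        intro j
        exact MulAction.zpow_smul_eq_iff_period_dvd (a := x0) (g := σ)
      have hc : ∀ i j : ℤ, (σ ^ i) x0 = (σ ^ j) x0 ↔ (c : ℤ) ∣ i - j := by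
        intro i j
        rw [← hper]
        constructor
        · intro h
          have h1 : (σ ^ (-j)) ((σ ^ i) x0) = (σ ^ (-j)) ((σ ^ j) x0) := by rw [h]
          rw [← Equiv.Perm.mul_apply, ← Equiv.Perm.mul_apply, ← zpow_add, ← zpow_add,
            neg_add_cancel, zpow_zero, Equiv.Perm.one_apply] at h1
          rw [show i - j = -j + i by ring]
          exact h1
        · intro h
          have h1 : (σ ^ j) ((σ ^ (i - j)) x0) = (σ ^ j) x0 := by rw [h]
          rw [← Equiv.Perm.mul_apply, ← zpow_add, show j + (i - j) = i by ring] at h1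
          exact h1
      have hc0 : 0 < c := by
        rcases Nat.eq_zero_or_pos c with h0 | h0
        · exfalso
          have h1 := (hper (orderOf σ : ℤ)).1 (by rw [zpow_natCast, pow_orderOf_eq_one, Equiv.Perm.one_apply])
          rw [h0] at h1
          have h2 := orderOf_pos σ
          simp only [Nat.cast_zero, zero_dvd_iff, Nat.cast_eq_zero] at h1
          omega
        · exact h0
      have hfib : (univ.filter (fun v : V =>
          (Quotient.mk (Equiv.Perm.SameCycle.setoid σ) v) = y)).card ≤ c := by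
        have hsub : univ.filter (fun v : V =>
            (Quotient.mk (Equiv.Perm.SameCycle.setoid σ) v) = y) ⊆
            (Finset.range c).image (fun i : ℕ => (σ ^ (i : ℤ)) x0) := by
          intro v hv
          rw [Finset.mem_filter] at hv
          have h1 : σ.SameCycle x0 v := by
            have h2 : (Quotient.mk (Equiv.Perm.SameCycle.setoid σ) x0) =
                Quotient.mk (Equiv.Perm.SameCycle.setoid σ) v := by
              rw [hv.2, hx0]; exact Quotient.out_eq y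
            exact Quotient.exact h2
          obtain ⟨i, hi⟩ := h1
          rw [Finset.mem_image]
          refine ⟨(i % (c : ℤ)).toNat, ?_, ?_⟩
          · rw [Finset.mem_range]
            have h3 := Int.emod_lt_of_pos i (show (0:ℤ) < c by exact_mod_cast hc0)
            have h4 := Int.emod_nonneg i (show (c:ℤ) ≠ 0 by exact_mod_cast hc0.ne')
            omega
          · have h4 := Int.emod_nonneg i (show (c:ℤ) ≠ 0 by exact_mod_cast hc0.ne')
            rw [Int.toNat_of_nonneg h4, ← hi, hc]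
            exact ⟨-(i / (c : ℤ)), by
              have := Int.emod_add_mul_ediv i (c : ℤ)
              linarith⟩
        calc _ ≤ ((Finset.range c).image (fun i : ℕ => (σ ^ (i : ℤ)) x0)).card :=
              Finset.card_le_card hsub
          _ ≤ (Finset.range c).card := Finset.card_image_le
          _ = c := Finset.card_range c
      apply caseA2 σ x0 c hc K hK1
      omega
  refine le_trans ?_ hhalf
  unfold Pot
  rw [fx_eq, hK]
  push_cast
  have h1 : ((FS σ).card : ℝ) ≤ 100 * L := by exact_mod_cast hf.le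
  have h2 : (0:ℝ) ≤ ((FS σ).card : ℝ) := by positivity
  nlinarith

end

/-- polynomial growth is beaten -/
theorem exists_large : ∃ L0 : ℕ, 1 ≤ L0 ∧ ∀ L : ℕ, L0 ≤ L →
    32 ≤ 2 ^ L ∧ 100 * L ≤ 2 ^ L ∧
    (64 * (20000 * L ^ 2 + 2) ^ 4 + 2) *
      (2 * (4 * ((20000 * L ^ 2 + 2) + 1) * ((64 * (20000 * L ^ 2 + 2) ^ 4) *
        (64 * (20000 * L ^ 2 + 2) ^ 4)) + ((20000 * L ^ 2 + 2) + 1)) + 1) ≤ 2 ^ L := by
  have h1 := tendsto_pow_const_div_const_pow_of_one_lt 26 (show (1:ℝ) < 2 by norm_num)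
  set A : ℝ := 66 * 65541 * 20002 ^ 13 with hA
  have hA0 : 0 < A := by positivity
  have h2 := (h1.eventually_lt_const (show (0:ℝ) < 1 / A by positivity))
  obtain ⟨L1, hL1⟩ := Filter.eventually_atTop.1 h2
  refine ⟨max L1 5, le_trans (by norm_num) (le_max_right _ _), fun L hL => ?_⟩
  have hL5 : 5 ≤ L := le_trans (le_max_right _ _) hL
  have hLr : (5:ℝ) ≤ L := by exact_mod_cast hL5
  have h3 : A * (L : ℝ) ^ 26 ≤ 2 ^ L := by
    have h4 := hL1 L (le_trans (le_max_left _ _) hL)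
    rw [div_lt_div_iff₀ (by positivity) hA0, one_mul] at h4
    linarith
  have hbase : (1:ℝ) ≤ (L:ℝ) ^ 25 := one_le_pow₀ (by linarith)
  have hAL : 100 * (L : ℝ) ≤ A * (L : ℝ) ^ 26 := by
    have e1 : A * (L : ℝ) ^ 26 = (A * L) * (L : ℝ) ^ 25 := by ring
    rw [e1]
    have e2 : (100:ℝ) ≤ A := by rw [hA]; norm_num
    calc 100 * (L : ℝ) ≤ A * L := mul_le_mul_of_nonneg_right e2 (by linarith)
      _ = A * L * 1 := by ring
      _ ≤ _ := mul_le_mul_of_nonneg_left hbase (by positivity)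
  refine ⟨?_, ?_, ?_⟩
  · calc 32 = 2 ^ 5 := by norm_num
      _ ≤ 2 ^ L := Nat.pow_le_pow_right (by norm_num) hL5
  · have : 100 * (L : ℝ) ≤ 2 ^ L := hAL.trans h3
    exact_mod_cast this
  · set K := 20000 * L ^ 2 + 2 with hK
    have hKr : (K : ℝ) ≤ 20002 * (L : ℝ) ^ 2 := by
      rw [hK]; push_cast
      nlinarith
    have hK1 : (1:ℝ) ≤ K := by
      have : 1 ≤ K := by omega
      exact_mod_cast this
    have hpow : (K : ℝ) ^ 13 ≤ 20002 ^ 13 * (L : ℝ) ^ 26 := by
      calc (K : ℝ) ^ 13 ≤ (20002 * (L : ℝ) ^ 2) ^ 13 := pow_le_pow_left₀ (by linarith) hKr 13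
        _ = _ := by ring
    have hfin : ((64 * K ^ 4 + 2) *
      (2 * (4 * (K + 1) * ((64 * K ^ 4) * (64 * K ^ 4)) + (K + 1)) + 1) : ℝ) ≤
        66 * 65541 * (K : ℝ) ^ 13 := by
      have e1 : (64 * (K : ℝ) ^ 4 + 2) ≤ 66 * (K : ℝ) ^ 4 := by
        have : (1:ℝ) ≤ (K : ℝ) ^ 4 := one_le_pow₀ hK1
        linarith
      have e2 : (2 * (4 * ((K : ℝ) + 1) * ((64 * K ^ 4) * (64 * K ^ 4)) + (K + 1)) + 1) ≤
          65541 * (K : ℝ) ^ 9 := by
        have f1 : (K : ℝ) + 1 ≤ 2 * K := by linarith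
        have f2 : (K : ℝ) ≤ (K : ℝ) ^ 9 := le_self_pow₀ hK1 (by norm_num)
        have f3 : (4 * ((K : ℝ) + 1) * ((64 * K ^ 4) * (64 * K ^ 4))) ≤ 32768 * (K : ℝ) ^ 9 := by
          calc (4 * ((K : ℝ) + 1) * ((64 * K ^ 4) * (64 * K ^ 4)))
              ≤ 4 * (2 * K) * ((64 * K ^ 4) * (64 * K ^ 4)) := by gcongr
            _ = 32768 * (K : ℝ) ^ 9 := by ring
        linarith
      calc ((64 * K ^ 4 + 2) *
          (2 * (4 * (K + 1) * ((64 * K ^ 4) * (64 * K ^ 4)) + (K + 1)) + 1) : ℝ)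
          ≤ (66 * (K : ℝ) ^ 4) * (65541 * (K : ℝ) ^ 9) :=
            mul_le_mul e1 e2 (by positivity) (by positivity)
        _ = _ := by ring
    have : ((64 * K ^ 4 + 2) *
      (2 * (4 * (K + 1) * ((64 * K ^ 4) * (64 * K ^ 4)) + (K + 1)) + 1) : ℝ) ≤ 2 ^ L := by
      refine hfin.trans (le_trans ?_ h3)
      calc 66 * 65541 * (K : ℝ) ^ 13 ≤ 66 * 65541 * (20002 ^ 13 * (L : ℝ) ^ 26) :=
            mul_le_mul_of_nonneg_left hpow (by norm_num)
        _ = _ := by rw [hA]; ring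
    exact_mod_cast this

/-- **The drift condition** for large `n`. -/
theorem drift : ∃ n0 : ℕ, ∀ n : ℕ, n0 ≤ n →
    (∀ σ : Equiv.Perm (Fin n), σ ≠ 1 → Pot σ + 1 ≤ Dr Inc Pot σ) ∧
    Pot (1 : Equiv.Perm (Fin n)) - 1 / 16 ≤ Dr Inc Pot (1 : Equiv.Perm (Fin n)) := by
  obtain ⟨L0, hL01, hL0⟩ := exists_large
  refine ⟨2 ^ L0, fun n hn => ?_⟩
  set L := Nat.log 2 n with hLdef
  have hn0 : n ≠ 0 := by
    have : 0 < 2 ^ L0 := by positivity
    omega
  have hn1 : 2 ^ L ≤ n := Nat.pow_log_le_self 2 hn0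
  have hn2 : n < 2 ^ (L + 1) := Nat.lt_pow_succ_log_self (by norm_num) n
  have hLL : L0 ≤ L := (Nat.le_log_iff_pow_le (by norm_num) hn0).2 hn
  obtain ⟨a1, a2, a3⟩ := hL0 L hLL
  constructor
  · intro σ hσ
    by_cases hf : 100 * L ≤ (FS σ).card
    · exact caseB σ hσ L (by omega) (by rw [Fintype.card_fin]; exact hn1)
        (by rw [Fintype.card_fin]; exact hn2) hf
    · push Not at hf
      apply caseA σ L hf _ rfl
      rw [Fintype.card_fin]
      exact a3.trans hn1
  · apply caseId L (by omega) (by rw [Fintype.card_fin]; exact hn1)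
      (by rw [Fintype.card_fin]; exact hn2)
    · rw [Fintype.card_fin]; exact a2.trans hn1
    · rw [Fintype.card_fin]; exact a1.trans hn1

end Pool.Agent.Helper870.BP
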