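import Pool.Agent.Helper870.BPMain

set_option autoImplicit false
set_option linter.unusedSectionVars false

namespace Pool.Agent.Helper870.BP

open Finset

section
variable {G X : Type} [Fintype G] [Fintype X]
  (I : G → X → Prop) [∀ g x, Decidable (I g x)]

/-- iterates of the chain -/
noncomputable def iter (μ : X → ℝ) : ℕ → X → ℝ
  | 0 => μ
  | t + 1 => step I (iter μ t)

/-- point mass -/
noncomputable def pm (x : X) : X → ℝ := by
  classical
  exact fun y => if y = x then 1 else 0

theorem step_lin (ι : Type) [Fintype ι] (c : ι → ℝ) (f : ι → X → ℝ) (y : X) :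
    step I (fun x => ∑ i, c i * f i x) y = ∑ i, c i * step I (f i) y := by
  unfold step nu
  simp only [Finset.mul_sum]
  rw [Finset.sum_comm]
  apply Finset.sum_congr rfl
  intro g _
  by_cases h : I g y
  · simp only [if_pos h]
    rw [Finset.sum_div]
    simp only [Finset.sum_div, Finset.mul_sum]
    rw [Finset.sum_comm]
    apply Finset.sum_congr rfl
    intro x _
    by_cases hx : I g x
    · simp only [if_pos hx]
      rw [Finset.sum_div]
      apply Finset.sum_congr rfl
      intro i _
      ring
    · simp only [if_neg hx]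
      simp
  · simp only [if_neg h]
    simp

theorem iter_decomp (μ : X → ℝ) (t : ℕ) (y : X) :
    iter I μ t y = ∑ x, μ x * iter I (pm x) t y := by
  induction t generalizing y with
  | zero =>
    classical
    unfold iter pm
    simp
  | succ t ih =>
    have h1 : iter I μ (t + 1) y = step I (iter I μ t) y := rfl
    rw [h1]
    have h2 : iter I μ t = fun z => ∑ x, μ x * iter I (pm x) t z := funext ih
    rw [h2, step_lin]
    rfl

variable {I} {e : G} (he : ∀ x, I e x) (hF : ∀ g, ∃ x, I g x)

include he hF in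
theorem iter_sum (μ : X → ℝ) (t : ℕ) : ∑ y, iter I μ t y = ∑ y, μ y := by
  induction t with
  | zero => rfl
  | succ t ih =>
    rw [← ih]
    exact sum_step he hF _

include he hF in
theorem iter_stat (t : ℕ) : iter I (stat I) t = stat I := by
  induction t with
  | zero => rfl
  | succ t ih =>
    have h1 : iter I (stat I) (t + 1) = step I (iter I (stat I) t) := rfl
    rw [h1, ih]
    exact funext (step_stat he hF)

theorem iter_add (μ : X → ℝ) (s t : ℕ) : iter I μ (s + t) = iter I (iter I μ s) t := by
  induction t with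
  | zero => rfl
  | succ t ih =>
    have h1 : iter I μ (s + (t + 1)) = step I (iter I μ (s + t)) := rfl
    have h2 : iter I (iter I μ s) (t + 1) = step I (iter I (iter I μ s) t) := rfl
    rw [h1, h2, ih]

include he hF in
/-- block contraction -/
theorem block (T : ℕ) (hT : ∀ x : X, ∑ y, |iter I (pm x) T y - stat I y| ≤ 1 / 2)
    (d : X → ℝ) (hd : ∑ x, d x = 0) :
    ∑ y, |iter I d T y| ≤ (1 / 2) * ∑ x, |d x| := by
  have h1 : ∀ y, iter I d T y = ∑ x, d x * (iter I (pm x) T y - stat I y) := by
    intro y
    rw [iter_decomp]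
    simp only [mul_sub]
    rw [Finset.sum_sub_distrib, ← Finset.sum_mul, hd, zero_mul, sub_zero]
  calc ∑ y, |iter I d T y| ≤ ∑ y, ∑ x, |d x| * |iter I (pm x) T y - stat I y| := by
        apply Finset.sum_le_sum
        intro y _
        rw [h1]
        refine (Finset.abs_sum_le_sum_abs _ _).trans (le_of_eq ?_)
        exact Finset.sum_congr rfl fun x _ => abs_mul _ _
    _ = ∑ x, |d x| * ∑ y, |iter I (pm x) T y - stat I y| := by
        rw [Finset.sum_comm]
        exact Finset.sum_congr rfl fun x _ => by rw [Finset.mul_sum]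
    _ ≤ ∑ x, |d x| * (1 / 2) :=
        Finset.sum_le_sum fun x _ => mul_le_mul_of_nonneg_left (hT x) (abs_nonneg _)
    _ = _ := by rw [← Finset.sum_mul]; ring

theorem pm_props (x : X) : (∀ y, 0 ≤ pm x y) ∧ ∑ y, pm x y = 1 := by
  classical
  unfold pm
  constructor
  · intro y
    by_cases h : y = x <;> simp [h]
  · simp

theorem iter_sub (μ ρ : X → ℝ) (t : ℕ) (y : X) :
    iter I (fun x => μ x - ρ x) t y = iter I μ t y - iter I ρ t y := by
  rw [iter_decomp I (fun x => μ x - ρ x), iter_decomp I μ, iter_decomp I ρ,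
    ← Finset.sum_sub_distrib]
  exact Finset.sum_congr rfl fun x _ => by ring

include he hF in
theorem decay (T : ℕ) (hT : ∀ x : X, ∑ y, |iter I (pm x) T y - stat I y| ≤ 1 / 2)
    (d : X → ℝ) (hd : ∑ x, d x = 0) (m : ℕ) :
    ∑ y, |iter I d (m * T) y| ≤ (1 / 2) ^ m * ∑ x, |d x| := by
  induction m with
  | zero =>
    rw [Nat.zero_mul, pow_zero, one_mul]
    exact le_rfl
  | succ m ih =>
    rw [Nat.succ_mul, iter_add]
    refine (block he hF T hT _ (by rw [iter_sum he hF, hd])).trans ?_
    rw [pow_succ]
    nlinarith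

include he hF in
theorem decay_mono (d : X → ℝ) (hd : ∑ x, d x = 0) (s : ℕ) :
    ∑ y, |iter I d s y| ≤ ∑ x, |d x| := by
  induction s with
  | zero => exact le_rfl
  | succ s ih =>
    have h1 : iter I d (s + 1) = step I (iter I d s) := rfl
    rw [h1]
    refine (contraction he hF _ (by rw [iter_sum he hF, hd])).trans ?_
    have h2 : 0 ≤ ∑ x, |iter I d s x| := Finset.sum_nonneg fun _ _ => abs_nonneg _
    have h3 : 0 ≤ 1 / (Fintype.card G : ℝ) := by positivity
    nlinarith

include he hF in
theorem decay_all (T : ℕ) (hT : ∀ x : X, ∑ y, |iter I (pm x) T y - stat I y| ≤ 1 / 2)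
    (x : X) (m t : ℕ) (ht : m * T ≤ t) :
    (1 / 2) * ∑ y, |iter I (pm x) t y - stat I y| ≤ (1 / 2) ^ m := by
  obtain ⟨r, rfl⟩ := Nat.exists_eq_add_of_le ht
  obtain ⟨hs0, hs1⟩ := stat_props (I := I) he hF ⟨x⟩
  obtain ⟨hp0, hp1⟩ := pm_props x
  set d : X → ℝ := fun y => pm x y - stat I y with hddef
  have hd : ∑ y, d y = 0 := by
    rw [hddef, Finset.sum_sub_distrib, hs1, hp1, sub_self]
  have h1 : ∀ y, iter I (pm x) (m * T + r) y - stat I y = iter I (iter I d (m * T)) r y := by
    intro y
    rw [← iter_add, iter_sub, iter_stat he hF]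
  have h2 : ∑ y, |d y| ≤ 2 := by
    calc ∑ y, |d y| ≤ ∑ y, (pm x y + stat I y) := by
          apply Finset.sum_le_sum
          intro y _
          have a1 := hp0 y
          have a2 := hs0 y
          rw [hddef, abs_le]
          constructor <;> simp only <;> linarith
      _ = 2 := by rw [Finset.sum_add_distrib, hs1, hp1]; norm_num
  rw [Finset.sum_congr rfl fun y _ => by rw [h1 y]]
  have h3 := decay_mono he hF (iter I d (m * T)) (by rw [iter_sum he hF, hd]) r
  have h4 := decay he hF T hT d hd m
  have h5 : (0:ℝ) < (1 / 2) ^ m := by positivity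
  nlinarith

end

end Pool.Agent.Helper870.BP
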