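import Pool.Agent.Helper870.BPDrift

set_option autoImplicit false
set_option linter.unusedSectionVars false

namespace Pool.Agent.Helper870.BP

open Finset

section
variable {V : Type} [Fintype V] [DecidableEq V]

theorem ncard_K (β : SimpleGraph V) :
    (({τ : Equiv.Perm V | SimpleGraph.comap (⇑τ) β = β}).ncard : ℝ) = cK Inc β := by
  classical
  unfold cK
  rw [← Set.ncard_coe_finset]
  congr 2
  ext τ
  simp [Inc]

theorem ncard_F (σ : Equiv.Perm V) :
    (({δ : SimpleGraph V | SimpleGraph.comap (⇑σ) δ = δ}).ncard : ℝ) = cF Inc σ := by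
  classical
  unfold cF
  rw [← Set.ncard_coe_finset]
  congr 2
  ext τ
  simp [Inc]

theorem step_eq (μ : SimpleGraph V → ℝ) (β : SimpleGraph V) :
    (∑ᶠ γ : SimpleGraph V, μ γ *
        ∑ᶠ σ ∈ {σ : Equiv.Perm V |
            SimpleGraph.comap (⇑σ) γ = γ ∧ SimpleGraph.comap (⇑σ) β = β},
          1 / ((({τ : Equiv.Perm V | SimpleGraph.comap (⇑τ) γ = γ}).ncard : ℝ) *
               (({δ : SimpleGraph V | SimpleGraph.comap (⇑σ) δ = δ}).ncard : ℝ))) =
      step Inc μ β := by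
  classical
  rw [finsum_eq_sum_of_fintype]
  unfold step nu
  have h1 : ∀ γ : SimpleGraph V, (∑ᶠ σ ∈ {σ : Equiv.Perm V |
            SimpleGraph.comap (⇑σ) γ = γ ∧ SimpleGraph.comap (⇑σ) β = β},
          1 / ((({τ : Equiv.Perm V | SimpleGraph.comap (⇑τ) γ = γ}).ncard : ℝ) *
               (({δ : SimpleGraph V | SimpleGraph.comap (⇑σ) δ = δ}).ncard : ℝ))) =
      ∑ σ : Equiv.Perm V, if Inc σ γ ∧ Inc σ β then 1 / (cK Inc γ * cF Inc σ) else 0 := by
    intro γ
    rw [finsum_mem_def, finsum_eq_sum_of_fintype]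
    apply Finset.sum_congr rfl
    intro σ _
    rw [Set.indicator_apply]
    rw [ncard_K, ncard_F]
    have : (σ ∈ {σ : Equiv.Perm V |
            SimpleGraph.comap (⇑σ) γ = γ ∧ SimpleGraph.comap (⇑σ) β = β}) ↔
        (Inc σ γ ∧ Inc σ β) := Iff.rfl
    by_cases h : Inc σ γ ∧ Inc σ β
    · rw [if_pos (this.2 h), if_pos h]
    · rw [if_neg (fun hh => h (this.1 hh)), if_neg h]
  rw [Finset.sum_congr rfl fun γ _ => by rw [h1 γ, Finset.mul_sum]]
  rw [Finset.sum_comm]
  apply Finset.sum_congr rfl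
  intro σ _
  by_cases hβ : Inc σ β
  · rw [if_pos hβ, Finset.sum_div]
    apply Finset.sum_congr rfl
    intro γ _
    by_cases hγ : Inc σ γ
    · rw [if_pos ⟨hγ, hβ⟩, if_pos hγ]
      rw [div_div, mul_one_div]
    · rw [if_neg (fun hh => hγ hh.1), if_neg hγ]
      simp
  · rw [if_neg hβ]
    apply Finset.sum_eq_zero
    intro γ _
    rw [if_neg (fun hh => hβ hh.2), mul_zero]

theorem sum_K : (∑ᶠ γ : SimpleGraph V,
    (({τ : Equiv.Perm V | SimpleGraph.comap (⇑τ) γ = γ}).ncard : ℝ)) =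
      ∑ γ : SimpleGraph V, cK Inc γ := by
  classical
  rw [finsum_eq_sum_of_fintype]
  exact Finset.sum_congr rfl fun γ _ => ncard_K γ

theorem he' : ∀ β : SimpleGraph V, Inc (1 : Equiv.Perm V) β := fun β => (HK β).one_mem

theorem hF' : ∀ σ : Equiv.Perm V, ∃ β : SimpleGraph V, Inc σ β := by
  intro σ
  refine ⟨⊥, ?_⟩
  unfold Inc
  ext x y
  simp

end

theorem pow_small (m : ℕ) (hm : 1 ≤ m) (t : ℕ) (ht : 2 * m ≤ t) :
    2 * (1 - 1 / (m : ℝ)) ^ t ≤ 1 / 2 := by
  have hm' : (1:ℝ) ≤ m := by exact_mod_cast hm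
  have h0 : 0 ≤ 1 - 1 / (m : ℝ) := by
    rw [sub_nonneg, div_le_one (by linarith)]; exact hm'
  have h1 : 1 - 1 / (m : ℝ) ≤ 1 := by
    have : 0 ≤ 1 / (m : ℝ) := by positivity
    linarith
  have h2 : (1 - 1 / (m : ℝ)) ^ t ≤ (1 - 1 / (m : ℝ)) ^ (2 * m) :=
    pow_le_pow_of_le_one h0 h1 ht
  have h3 : 1 - 1 / (m : ℝ) ≤ Real.exp (-(1 / (m:ℝ))) := by
    have := Real.add_one_le_exp (-(1 / (m:ℝ)))
    linarith
  have h4 : (1 - 1 / (m : ℝ)) ^ (2 * m) ≤ Real.exp (-2) := by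
    calc (1 - 1 / (m : ℝ)) ^ (2 * m) ≤ (Real.exp (-(1 / (m:ℝ)))) ^ (2 * m) :=
          pow_le_pow_left₀ h0 h3 _
      _ = Real.exp (-2) := by
          rw [← Real.exp_nat_mul]
          congr 1
          push_cast
          field_simp
  have h5 : Real.exp (-2) ≤ 1 / 4 := by
    have h6 : (2:ℝ) ≤ Real.exp 1 := by
      have := Real.add_one_le_exp (1:ℝ)
      linarith
    have h7 : Real.exp (-2) * (Real.exp 1 * Real.exp 1) = 1 := by
      rw [← Real.exp_add, ← Real.exp_add]; norm_num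
    have h8 : 0 < Real.exp (-2) := Real.exp_pos _
    have h9 : 4 ≤ Real.exp 1 * Real.exp 1 := by nlinarith
    have h10 : Real.exp (-2) * 4 ≤ 1 := by
      rw [← h7]
      exact mul_le_mul_of_nonneg_left h9 h8.le
    linarith
  linarith

/-- the Burnside process on graphs mixes in quadratically many steps -/
theorem main2 : ∃ C : ℕ, ∀ n : ℕ, ∀ α : SimpleGraph (Fin n), ∀ μ : ℕ → SimpleGraph (Fin n) → ℝ,
    μ 0 α = 1 → (∀ β : SimpleGraph (Fin n), β ≠ α → μ 0 β = 0) →
    (∀ (t : ℕ) (β : SimpleGraph (Fin n)), μ (t + 1) β = step Inc (μ t) β) →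
    ∀ t : ℕ, C * (n + 1) ^ 2 ≤ t →
      (1 / 2 : ℝ) * ∑ β : SimpleGraph (Fin n), |μ t β - stat Inc β| ≤ 1 / 4 := by
  classical
  obtain ⟨n0, hn0⟩ := drift
  refine ⟨17 + 2 * (n0).factorial, fun n α μ h1 h2 hstep t ht => ?_⟩
  have hμ0 : ∀ x, 0 ≤ μ 0 x := by
    intro x
    by_cases hx : x = α
    · rw [hx, h1]; norm_num
    · rw [h2 x hx]
  have hμ1 : ∑ x, μ 0 x = 1 := by
    rw [Finset.sum_eq_single α]
    · exact h1
    · intro b _ hb; exact h2 b hb
    · intro hb; exact absurd (Finset.mem_univ _) hb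
  by_cases hn : n0 ≤ n
  · obtain ⟨d1, d2⟩ := hn0 n hn
    have h := mixing (I := Inc) (e := (1 : Equiv.Perm (Fin n))) he' hF' (Φ := Pot)
      (M := (n : ℝ) ^ 2) (ε := 1 / 16) (fun g => by unfold Pot; positivity)
      (fun g => by
        unfold Pot
        have : (fx g : ℝ) ≤ n := by
          have h3 : fx g ≤ n := by
            unfold fx
            calc _ ≤ (univ : Finset (Fin n)).card := Finset.card_le_card (Finset.filter_subset _ _)
              _ = n := by rw [Finset.card_univ, Fintype.card_fin]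
          exact_mod_cast h3
        exact pow_le_pow_left₀ (by positivity) this 2)
      (by norm_num) le_rfl d1 d2 μ hμ0 hμ1 hstep t (by
        have h4 : (((17 + 2 * (n0).factorial) * (n + 1) ^ 2 : ℕ) : ℝ) ≤ t := by exact_mod_cast ht
        push_cast at h4
        have h5 : (0:ℝ) ≤ (n0).factorial := by positivity
        have h6 : (0:ℝ) ≤ n := by positivity
        have h7 : 0 ≤ (n0.factorial : ℝ) * ((n : ℝ) + 1) ^ 2 := by positivity
        nlinarith)
    linarith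
  · push Not at hn
    have h := doeblin (I := Inc) (e := (1 : Equiv.Perm (Fin n))) he' hF' μ hμ0 hμ1 hstep t
    have hc : Fintype.card (Equiv.Perm (Fin n)) = n.factorial := by
      rw [Fintype.card_perm, Fintype.card_fin]
    rw [hc] at h
    have h3 := pow_small n.factorial (Nat.factorial_pos n) t (by
      have h4 : n.factorial ≤ n0.factorial := Nat.factorial_le hn.le
      have h5 : 1 ≤ (n + 1) ^ 2 := Nat.one_le_pow _ _ (by omega)
      calc 2 * n.factorial ≤ 17 + 2 * n0.factorial := by omega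
        _ = (17 + 2 * n0.factorial) * 1 := by ring
        _ ≤ (17 + 2 * n0.factorial) * (n + 1) ^ 2 := Nat.mul_le_mul_left _ h5
        _ ≤ t := ht)
    linarith

/-- the Burnside process on graphs mixes in polynomially many steps -/
theorem main : ∃ C k : ℕ, ∀ n : ℕ, ∀ α : SimpleGraph (Fin n), ∀ μ : ℕ → SimpleGraph (Fin n) → ℝ,
    μ 0 α = 1 → (∀ β : SimpleGraph (Fin n), β ≠ α → μ 0 β = 0) →
    (∀ (t : ℕ) (β : SimpleGraph (Fin n)), μ (t + 1) β = step Inc (μ t) β) →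
    ∀ t : ℕ, C * (n + 1) ^ k ≤ t →
      (1 / 2 : ℝ) * ∑ β : SimpleGraph (Fin n), |μ t β - stat Inc β| ≤ 1 / 4 := by
  obtain ⟨C, h⟩ := main2
  exact ⟨C, 2, h⟩

end Pool.Agent.Helper870.BP
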