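import Mathlib

open MeasureTheory ProbabilityTheory

namespace Pool.Agent.Helper870.KNN

/-- The observation window `[0, n^(1/d)]^d`, a cube of volume `n` in `ℝ^d`. -/
def window (d : ℕ) (n : ℝ) : Set (EuclideanSpace ℝ (Fin d)) :=
  {x | ∀ i, 0 ≤ x i ∧ x i ≤ n ^ ((1 : ℝ) / d)}

/-- `X` is a Poisson point process of intensity one in the set `S`: it is a random finite subset
of `S`, the number of its points in a Borel set `B ⊆ S` is measurable with the Poisson law of mean
`volume B`, and the numbers of points in pairwise disjoint Borel sets are independent. -/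
structure IsPoissonProcess {d : ℕ} {Ω : Type} [MeasurableSpace Ω] (P : Measure Ω)
    (S : Set (EuclideanSpace ℝ (Fin d))) (X : Ω → Set (EuclideanSpace ℝ (Fin d))) : Prop where
  subset : ∀ ω, X ω ⊆ S
  finite : ∀ ω, (X ω).Finite
  measurable : ∀ B : Set (EuclideanSpace ℝ (Fin d)), B ⊆ S → MeasurableSet B →
    Measurable (fun ω => (X ω ∩ B).ncard)
  law : ∀ B : Set (EuclideanSpace ℝ (Fin d)), B ⊆ S → MeasurableSet B → ∀ j : ℕ,
    P {ω | (X ω ∩ B).ncard = j} =
      ENNReal.ofReal (Real.exp (-(volume B).toReal) * (volume B).toReal ^ j / (j.factorial : ℝ))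
  indep : ∀ (r : ℕ) (B : Fin r → Set (EuclideanSpace ℝ (Fin d))),
    (∀ i, B i ⊆ S) → (∀ i, MeasurableSet (B i)) →
    Pairwise (fun i j => Disjoint (B i) (B j)) → iIndepFun (fun i ω => (X ω ∩ B i).ncard) P

/-- `y` is one of the `k` points of `S \ {x}` nearest to `x`: fewer than `k` points of
`S \ {x}` are closer to `x` than `y` is. -/
def IsNearest {d : ℕ} (S : Set (EuclideanSpace ℝ (Fin d))) (k : ℕ)
    (x y : EuclideanSpace ℝ (Fin d)) : Prop :=
  y ≠ x ∧ {z ∈ S | z ≠ x ∧ dist x z < dist x y}.ncard < k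

/-- The (undirected) `k`-nearest neighbour graph on the point set `S`. -/
def knnGraph {d : ℕ} (S : Set (EuclideanSpace ℝ (Fin d))) (k : ℕ) : SimpleGraph S where
  Adj x y := x ≠ y ∧ (IsNearest S k x y ∨ IsNearest S k y x)
  symm := ⟨fun _ _ h => ⟨h.1.symm, h.2.symm⟩⟩
  loopless := ⟨fun _ h => h.1 rfl⟩

/-- The event `Q n` holds with high probability for the Poisson process of intensity one in
`window d n`, as `n → ∞` through the reals. -/
def Whp (d : ℕ) (Q : ℝ → Set (EuclideanSpace ℝ (Fin d)) → Prop) : Prop :=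
  ∀ ε : ℝ, 0 < ε → ∃ n₀ : ℝ, ∀ n : ℝ, n₀ ≤ n →
    ∀ (Ω : Type) [MeasurableSpace Ω] (P : Measure Ω) [IsProbabilityMeasure P]
      (X : Ω → Set (EuclideanSpace ℝ (Fin d))), IsPoissonProcess P (window d n) X →
      P {ω | ¬ Q n (X ω)} ≤ ENNReal.ofReal ε

end Pool.Agent.Helper870.KNN
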