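import Mathlib
import Pool.Agent.Helper870.Defs

open MeasureTheory ProbabilityTheory

namespace Pool.Agent.Helper870.KNN

/-- index of the cell of `x` -/
noncomputable def idx {d : ℕ} (h : ℝ) (m : ℕ) (x : EuclideanSpace ℝ (Fin d)) : Fin d → ℤ :=
  fun i => min ⌊x i / h⌋ ((m:ℤ) - 1)

/-- the union of the cells in `V` -/
def region {d : ℕ} (n h : ℝ) (m : ℕ) (V : Finset (Fin d → ℤ)) : Set (EuclideanSpace ℝ (Fin d)) :=
  {x | x ∈ window d n ∧ idx h m x ∈ V}

lemma region_subset {d : ℕ} (n h : ℝ) (m : ℕ) (V : Finset (Fin d → ℤ)) :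
    region n h m V ⊆ window d n := fun _ hx => hx.1

lemma measurable_coord {d : ℕ} (i : Fin d) :
    Measurable (fun x : EuclideanSpace ℝ (Fin d) => x i) := by
  fun_prop

lemma measurableSet_window (d : ℕ) (n : ℝ) : MeasurableSet (window d n) := by
  have : window d n = ⋂ i, {x : EuclideanSpace ℝ (Fin d) | 0 ≤ x i ∧ x i ≤ n ^ ((1 : ℝ) / d)} := by
    ext x; simp [window]
  rw [this]
  apply MeasurableSet.iInter
  intro i
  have hm := measurable_coord (d := d) i
  exact (measurableSet_le measurable_const hm).inter (measurableSet_le hm measurable_const)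

lemma measurable_idx {d : ℕ} (h : ℝ) (m : ℕ) (i : Fin d) :
    Measurable (fun x : EuclideanSpace ℝ (Fin d) => idx h m x i) := by
  have hm := measurable_coord (d := d) i
  exact (Int.measurable_floor.comp (hm.div_const h)).min measurable_const

lemma measurableSet_region {d : ℕ} (n h : ℝ) (m : ℕ) (V : Finset (Fin d → ℤ)) :
    MeasurableSet (region n h m V) := by
  have : region n h m V = window d n ∩ ⋃ z ∈ V, ⋂ i, {x : EuclideanSpace ℝ (Fin d) | idx h m x i = z i} := by
    ext x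
    simp only [region, Set.mem_inter_iff, Set.mem_iUnion, Set.mem_iInter]
    constructor
    · rintro ⟨h1, h2⟩
      exact ⟨h1, _, h2, fun _ => rfl⟩
    · rintro ⟨h1, z, hz, hzx⟩
      refine ⟨h1, ?_⟩
      have : idx h m x = z := funext hzx
      rw [this]; exact hz
  rw [this]
  apply (measurableSet_window d n).inter
  apply Finset.measurableSet_biUnion
  intro z _
  apply MeasurableSet.iInter
  intro i
  exact measurable_idx h m i (measurableSet_singleton (z i))

section
variable {d : ℕ} {n : ℝ} {m : ℕ}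

/-- cell side -/
noncomputable def side (d : ℕ) (n : ℝ) (m : ℕ) : ℝ := n ^ ((1 : ℝ) / d) / m

lemma side_pos (hn : 0 < n) (hm : 0 < m) : 0 < side d n m := by
  unfold side
  have : 0 < n ^ ((1 : ℝ) / d) := Real.rpow_pos_of_pos hn _
  positivity

lemma m_mul_side (hm : 0 < m) : (m:ℝ) * side d n m = n ^ ((1 : ℝ) / d) := by
  unfold side
  have : (m:ℝ) ≠ 0 := by positivity
  field_simp

lemma idx_range (hn : 0 < n) (hm : 0 < m) {x : EuclideanSpace ℝ (Fin d)} (hx : x ∈ window d n) (i : Fin d) :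
    0 ≤ idx (side d n m) m x i ∧ idx (side d n m) m x i < m := by
  have hs := side_pos (d := d) hn hm
  have h1 : 0 ≤ x i / side d n m := div_nonneg (hx i).1 hs.le
  have h2 : 0 ≤ ⌊x i / side d n m⌋ := Int.floor_nonneg.2 h1
  simp only [idx]
  constructor
  · apply le_min h2; omega
  · have := min_le_right ⌊x i / side d n m⌋ ((m:ℤ) - 1)
    omega

lemma idx_bounds (hn : 0 < n) (hm : 0 < m) {x : EuclideanSpace ℝ (Fin d)} (hx : x ∈ window d n) (i : Fin d) :
    (idx (side d n m) m x i : ℝ) * side d n m ≤ x i ∧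
      x i ≤ ((idx (side d n m) m x i : ℝ) + 1) * side d n m := by
  have hs := side_pos (d := d) hn hm
  have hms := m_mul_side (d := d) (n := n) hm
  set s := side d n m with hsdef
  have h1 : (⌊x i / s⌋ : ℝ) ≤ x i / s := Int.floor_le _
  have h2 : x i / s < ⌊x i / s⌋ + 1 := Int.lt_floor_add_one _
  have hx2 := (hx i).2
  rw [← hms] at hx2
  simp only [idx]
  rcases le_total ⌊x i / s⌋ ((m:ℤ) - 1) with h | h
  · rw [min_eq_left h]
    constructor
    · exact (le_div_iff₀ hs).1 h1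
    · exact ((div_lt_iff₀ hs).1 h2).le
  · rw [min_eq_right h]
    have h' : ((m:ℝ) - 1) ≤ ⌊x i / s⌋ := by exact_mod_cast h
    push_cast
    constructor
    · apply le_trans _ ((le_div_iff₀ hs).1 h1)
      exact mul_le_mul_of_nonneg_right h' hs.le
    · rw [sub_add_cancel]; exact hx2

lemma idx_lipschitz {s : ℝ} (hs : 0 < s) (x y : EuclideanSpace ℝ (Fin d)) (i : Fin d) (r : ℕ)
    (h : |x i - y i| ≤ r * s) : |idx s m x i - idx s m y i| ≤ r + 1 := by
  have key : ∀ a b : ℝ, a - b ≤ r * s → min ⌊a / s⌋ ((m:ℤ) - 1) - min ⌊b / s⌋ ((m:ℤ) - 1) ≤ r + 1 := by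
    intro a b hab
    have h1 : (⌊a / s⌋ : ℝ) ≤ a / s := Int.floor_le _
    have h2 : b / s < ⌊b / s⌋ + 1 := Int.lt_floor_add_one _
    have h3 : a / s - b / s ≤ r := by
      rw [← sub_div, div_le_iff₀ hs]; exact hab
    have h4 : (⌊a / s⌋ : ℝ) < ⌊b / s⌋ + 1 + r := by linarith
    have h5 : ⌊a / s⌋ < ⌊b / s⌋ + 1 + r := by exact_mod_cast h4
    rcases le_total ⌊b / s⌋ ((m:ℤ) - 1) with h | h
    · rw [min_eq_left h]
      have := min_le_left ⌊a / s⌋ ((m:ℤ) - 1)
      omega
    · rw [min_eq_right h]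
      have := min_le_right ⌊a / s⌋ ((m:ℤ) - 1)
      omega
  rw [abs_le] at h ⊢
  simp only [idx]
  constructor
  · have := key (y i) (x i) (by linarith [h.1])
    linarith
  · exact key (x i) (y i) h.2

lemma dist_le_of_coord (x y : EuclideanSpace ℝ (Fin d)) {r : ℝ} (hr : 0 ≤ r)
    (h : ∀ i, |x i - y i| ≤ r) : dist x y ≤ r * Real.sqrt d := by
  rw [EuclideanSpace.dist_eq]
  have h1 : ∑ i, dist (x i) (y i) ^ 2 ≤ d * r ^ 2 := by
    calc ∑ i, dist (x i) (y i) ^ 2 ≤ ∑ _i : Fin d, r ^ 2 := by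
          apply Finset.sum_le_sum
          intro i _
          rw [Real.dist_eq]
          exact pow_le_pow_left₀ (abs_nonneg _) (h i) 2
      _ = d * r ^ 2 := by simp
  calc Real.sqrt (∑ i, dist (x i) (y i) ^ 2) ≤ Real.sqrt (d * r ^ 2) := Real.sqrt_le_sqrt h1
    _ = r * Real.sqrt d := by
      rw [Real.sqrt_mul (Nat.cast_nonneg d), Real.sqrt_sq hr, mul_comm]

lemma coord_le_dist (x y : EuclideanSpace ℝ (Fin d)) (i : Fin d) : |x i - y i| ≤ dist x y := by
  rw [EuclideanSpace.dist_eq, ← Real.dist_eq]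
  have h1 : dist (x i) (y i) ^ 2 ≤ ∑ j, dist (x j) (y j) ^ 2 :=
    Finset.single_le_sum (f := fun j => dist (x j) (y j) ^ 2) (fun _ _ => sq_nonneg _) (Finset.mem_univ i)
  exact Real.le_sqrt_of_sq_le h1

/-- one-dimensional cell -/
def seg (d : ℕ) (n : ℝ) (m : ℕ) (j : ℤ) : Set ℝ :=
  {y | 0 ≤ y ∧ y ≤ n ^ ((1 : ℝ) / d) ∧ min ⌊y / side d n m⌋ ((m:ℤ) - 1) = j}

lemma volume_seg (hn : 0 < n) (hm : 0 < m) {j : ℤ} (hj0 : 0 ≤ j) (hjm : j < m) :
    volume (seg d n m j) = ENNReal.ofReal (side d n m) := by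
  have hs := side_pos (d := d) hn hm
  have hms := m_mul_side (d := d) (n := n) hm
  have hseg : seg d n m j = {y | 0 ≤ y ∧ y ≤ (m:ℝ) * side d n m ∧ min ⌊y / side d n m⌋ ((m:ℤ) - 1) = j} := by
    rw [hms]; rfl
  rw [hseg]
  set s := side d n m with hsdef
  have hj0' : (0:ℝ) ≤ j := by exact_mod_cast hj0
  rcases lt_or_ge j ((m:ℤ) - 1) with h | h
  · have : {y : ℝ | 0 ≤ y ∧ y ≤ (m:ℝ) * s ∧ min ⌊y / s⌋ ((m:ℤ) - 1) = j} = Set.Ico (j * s) ((j + 1) * s) := by
      ext y
      simp only [Set.mem_Ico]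
      constructor
      · rintro ⟨h1, h2, h3⟩
        have h4 : ⌊y / s⌋ = j := by
          rcases le_total ⌊y / s⌋ ((m:ℤ) - 1) with h' | h'
          · rw [min_eq_left h'] at h3; exact h3
          · rw [min_eq_right h'] at h3; omega
        rw [Int.floor_eq_iff] at h4
        constructor
        · exact (le_div_iff₀ hs).1 h4.1
        · exact (div_lt_iff₀ hs).1 h4.2
      · rintro ⟨h1, h2⟩
        have h4 : ⌊y / s⌋ = j := by
          rw [Int.floor_eq_iff]
          exact ⟨(le_div_iff₀ hs).2 h1, (div_lt_iff₀ hs).2 h2⟩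
        refine ⟨le_trans (mul_nonneg hj0' hs.le) h1, ?_, ?_⟩
        · have h5 : ((j:ℝ) + 1) ≤ m := by
            have : j + 1 ≤ (m:ℤ) := by omega
            exact_mod_cast this
          exact h2.le.trans (mul_le_mul_of_nonneg_right h5 hs.le)
        · rw [h4, min_eq_left h.le]
    rw [this, Real.volume_Ico]
    congr 1; ring
  · have hjm1 : j = (m:ℤ) - 1 := by omega
    have hjr : (j:ℝ) = (m:ℝ) - 1 := by rw [hjm1]; push_cast; ring
    have : {y : ℝ | 0 ≤ y ∧ y ≤ (m:ℝ) * s ∧ min ⌊y / s⌋ ((m:ℤ) - 1) = j} = Set.Icc (j * s) ((j + 1) * s) := by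
      ext y
      simp only [Set.mem_Icc]
      constructor
      · rintro ⟨h1, h2, h3⟩
        have h4 : j ≤ ⌊y / s⌋ := by rw [← h3]; exact min_le_left _ _
        rw [Int.le_floor] at h4
        constructor
        · exact (le_div_iff₀ hs).1 h4
        · rw [hjr, sub_add_cancel]; exact h2
      · rintro ⟨h1, h2⟩
        have h4 : j ≤ ⌊y / s⌋ := by
          rw [Int.le_floor]; exact (le_div_iff₀ hs).2 h1
        refine ⟨le_trans (mul_nonneg hj0' hs.le) h1, ?_, ?_⟩
        · rw [hjr, sub_add_cancel] at h2; exact h2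
        · rw [hjm1]; rw [hjm1] at h4; exact min_eq_right h4
    rw [this, Real.volume_Icc]
    congr 1; ring

lemma volume_cell (hn : 0 < n) (hm : 0 < m) (z : Fin d → ℤ) (hz : ∀ i, 0 ≤ z i ∧ z i < m) :
    volume {x : EuclideanSpace ℝ (Fin d) | x ∈ window d n ∧ idx (side d n m) m x = z}
      = ENNReal.ofReal (side d n m) ^ d := by
  have hset : {x : EuclideanSpace ℝ (Fin d) | x ∈ window d n ∧ idx (side d n m) m x = z}
      = (MeasurableEquiv.toLp 2 (Fin d → ℝ)).symm ⁻¹' (Set.pi Set.univ (fun i => seg d n m (z i))) := by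
    ext x
    simp only [Set.mem_preimage, Set.mem_pi, Set.mem_univ, true_implies]
    constructor
    · rintro ⟨h1, h2⟩ i
      exact ⟨(h1 i).1, (h1 i).2, congrFun h2 i⟩
    · intro h
      refine ⟨fun i => ⟨(h i).1, (h i).2.1⟩, funext fun i => (h i).2.2⟩
  rw [hset]
  have hmp := EuclideanSpace.volume_preserving_symm_measurableEquiv_toLp (Fin d)
  rw [hmp.measure_preimage_equiv, volume_pi, Measure.pi_pi]
  rw [Finset.prod_congr rfl (fun i _ => volume_seg hn hm (hz i).1 (hz i).2)]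
  simp

lemma volume_region (hn : 0 < n) (hm : 0 < m) (V : Finset (Fin d → ℤ))
    (hV : ∀ z ∈ V, ∀ i, 0 ≤ z i ∧ z i < m) :
    (volume (region n (side d n m) m V)).toReal = V.card * side d n m ^ d := by
  have hs := side_pos (d := d) hn hm
  have hU : region n (side d n m) m V
      = ⋃ z ∈ V, {x : EuclideanSpace ℝ (Fin d) | x ∈ window d n ∧ idx (side d n m) m x = z} := by
    ext x
    simp only [region, Set.mem_iUnion]
    constructor
    · rintro ⟨h1, h2⟩
      exact ⟨_, h2, h1, rfl⟩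
    · rintro ⟨z, hz, h1, h2⟩
      exact ⟨h1, by rw [h2]; exact hz⟩
  have hmeas : ∀ z ∈ V, MeasurableSet {x : EuclideanSpace ℝ (Fin d) | x ∈ window d n ∧ idx (side d n m) m x = z} := by
    intro z _
    have := measurableSet_region n (side d n m) m ({z} : Finset (Fin d → ℤ))
    simpa [region] using this
  rw [hU, measure_biUnion_finset _ hmeas]
  · rw [Finset.sum_congr rfl (fun z hz => volume_cell hn hm z (hV z hz))]
    rw [Finset.sum_const, nsmul_eq_mul, ENNReal.toReal_mul, ENNReal.toReal_pow,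
      ENNReal.toReal_ofReal hs.le]
    simp
  · intro z _ z' _ hzz'
    rw [Function.onFun, Set.disjoint_left]
    rintro x ⟨_, h1⟩ ⟨_, h2⟩
    exact hzz' (h1.symm.trans h2)

end

end Pool.Agent.Helper870.KNN
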