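import Mathlib

namespace Pool.Agent.Helper870.Det

open Finset

/-- king moves connect a box -/
lemma box_const {d : ℕ} {β : Type*} (f : (Fin d → ℤ) → β) (a b : Fin d → ℤ)
    (hf : ∀ u ∈ Set.Icc a b, ∀ v ∈ Set.Icc a b, (∀ i, |u i - v i| ≤ 1) → f u = f v) :
    ∀ u ∈ Set.Icc a b, ∀ v ∈ Set.Icc a b, f u = f v := by
  have key : ∀ r : ℕ, ∀ u ∈ Set.Icc a b, ∀ v ∈ Set.Icc a b, (∀ i, |u i - v i| ≤ (r:ℤ)) → f u = f v := by
    intro r
    induction r with
    | zero =>
      intro u hu v hv h
      have : u = v := by
        funext i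
        have := h i
        simp only [Nat.cast_zero, abs_nonpos_iff] at this
        linarith
      rw [this]
    | succ r ih =>
      intro u hu v hv h
      let u' : Fin d → ℤ := fun i => if u i < v i then u i + 1 else if v i < u i then u i - 1 else u i
      have hu' : u' ∈ Set.Icc a b := by
        constructor
        · intro i
          have h1 : a i ≤ u i := hu.1 i
          have h2 : a i ≤ v i := hv.1 i
          simp only [u']
          split_ifs <;> omega
        · intro i
          have h1 : u i ≤ b i := hu.2 i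
          have h2 : v i ≤ b i := hv.2 i
          simp only [u']
          split_ifs <;> omega
      have h1 : ∀ i, |u i - u' i| ≤ 1 := by
        intro i
        simp only [u']
        rw [abs_le]
        split_ifs <;> constructor <;> omega
      have h2 : ∀ i, |u' i - v i| ≤ (r:ℤ) := by
        intro i
        have := h i
        rw [abs_le] at this ⊢
        push_cast at this
        simp only [u']
        split_ifs <;> constructor <;> omega
      rw [hf u hu u' hu' h1]
      exact ih u' hu' v hv h2
  intro u hu v hv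
  refine key (∑ i, (u i - v i).natAbs) u hu v hv ?_
  intro i
  have h1 : (u i - v i).natAbs ≤ ∑ i, (u i - v i).natAbs :=
    Finset.single_le_sum (f := fun i => (u i - v i).natAbs) (fun _ _ => Nat.zero_le _) (Finset.mem_univ i)
  have h2 : |u i - v i| = ((u i - v i).natAbs : ℤ) := (Int.natCast_natAbs _).symm
  rw [h2]
  exact_mod_cast h1

/-- cells of the grid within king distance one of `V` -/
noncomputable def nb {d : ℕ} (m : ℕ) (V : Finset (Fin d → ℤ)) : Finset (Fin d → ℤ) := by
  classical
  exact (Finset.Icc (0 : Fin d → ℤ) (fun _ => (m:ℤ) - 1)).filter (fun u => ∃ v ∈ V, ∀ i, |u i - v i| ≤ 1)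

/-- the window with lower corner `w` and side `L` -/
noncomputable def win {d : ℕ} (L : ℕ) (w : Fin d → ℤ) : Finset (Fin d → ℤ) :=
  Finset.Icc w (fun i => w i + L - 1)

lemma mem_win {d : ℕ} {L : ℕ} {w z : Fin d → ℤ} : z ∈ win L w ↔ ∀ i, w i ≤ z i ∧ z i < w i + L := by
  simp only [win, Finset.mem_Icc, Pi.le_def]
  constructor
  · rintro ⟨h1, h2⟩ i
    have := h1 i; have := h2 i
    constructor <;> omega
  · intro h
    constructor
    · intro i; exact (h i).1
    · intro i; have := (h i).2; omega

section abstract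

variable {d : ℕ} {α : Type*} (G : SimpleGraph α) (idx : α → Fin d → ℤ)

open Classical in
/-- the component seen in a cell -/
noncomputable def cc (z : Fin d → ℤ) : Option G.ConnectedComponent :=
  if h : ∃ p, idx p = z then some (G.connectedComponentMk h.choose) else none

variable {G idx}

lemma cc_idx (hadj : ∀ p q, (∀ i, |idx p i - idx q i| ≤ 1) → G.Reachable p q) (p : α) :
    cc G idx (idx p) = some (G.connectedComponentMk p) := by
  have h : ∃ q, idx q = idx p := ⟨p, rfl⟩
  rw [cc, dif_pos h]
  congr 1
  rw [SimpleGraph.ConnectedComponent.eq]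
  apply hadj
  intro i
  rw [h.choose_spec]; simp

lemma cc_adj (hadj : ∀ p q, (∀ i, |idx p i - idx q i| ≤ 1) → G.Reachable p q)
    {u v : Fin d → ℤ} (hu : ∃ p, idx p = u) (hv : ∃ p, idx p = v) (h : ∀ i, |u i - v i| ≤ 1) :
    cc G idx u = cc G idx v := by
  obtain ⟨p, rfl⟩ := hu
  obtain ⟨q, rfl⟩ := hv
  rw [cc_idx hadj, cc_idx hadj]
  congr 1
  rw [SimpleGraph.ConnectedComponent.eq]
  exact hadj p q h

lemma cc_box (hadj : ∀ p q, (∀ i, |idx p i - idx q i| ≤ 1) → G.Reachable p q)
    {a b : Fin d → ℤ} (hocc : ∀ z ∈ Set.Icc a b, ∃ p, idx p = z) :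
    ∀ u ∈ Set.Icc a b, ∀ v ∈ Set.Icc a b, cc G idx u = cc G idx v := by
  apply box_const
  intro u hu v hv h
  exact cc_adj hadj (hocc u hu) (hocc v hv) h

/-- a free slice exists -/
lemma free_slice {L M0 : ℕ} (hL : M0 ≤ L) (w : Fin d → ℤ) (Z : Finset (Fin d → ℤ)) (hZ : Z.card < M0)
    (i : Fin d) : ∃ t : ℤ, w i ≤ t ∧ t < w i + L ∧ ∀ z ∈ Z, z i ≠ t := by
  by_contra hcon
  push Not at hcon
  have hsub : Finset.Ico (w i) (w i + L) ⊆ Z.image (fun z => z i) := by
    intro t ht
    rw [Finset.mem_Ico] at ht
    obtain ⟨z, hz, hzt⟩ := hcon t ht.1 ht.2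
    exact Finset.mem_image.2 ⟨z, hz, hzt⟩
  have h1 := (Finset.card_le_card hsub).trans Finset.card_image_le
  rw [Int.card_Ico] at h1
  have : (w i + L - w i).toNat = L := by simp
  omega

open Classical in
/-- every window with few empty cells has a giant -/
lemma giant_win (hd : 2 ≤ d)
    (hadj : ∀ p q, (∀ i, |idx p i - idx q i| ≤ 1) → G.Reachable p q)
    {L M0 : ℕ} (hL : M0 ≤ L) (w : Fin d → ℤ)
    (hZ : ((win L w).filter (fun z => ∀ p, idx p ≠ z)).card < M0) :
    ∃ c : G.ConnectedComponent, ((win L w).filter (fun z => cc G idx z ≠ some c)).card ≤ M0 ^ 2 := by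
  set Z := (win L w).filter (fun z => ∀ p, idx p ≠ z) with hZdef
  let i0 : Fin d := ⟨0, by omega⟩
  let i1 : Fin d := ⟨1, by omega⟩
  have h01 : i0 ≠ i1 := by
    intro h
    have := congrArg Fin.val h
    simp [i0, i1] at this
  obtain ⟨t0, ht0, ht0', ht0Z⟩ := free_slice hL w Z hZ i0
  obtain ⟨t1, ht1, ht1', ht1Z⟩ := free_slice hL w Z hZ i1
  have hocc : ∀ z ∈ win L w, z ∉ Z → ∃ p, idx p = z := by
    intro z hz hzZ
    by_contra hcon
    push Not at hcon
    exact hzZ (Finset.mem_filter.2 ⟨hz, hcon⟩)
  let top : Fin d → ℤ := fun i => w i + L - 1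
  have hwin : ∀ z, z ∈ win L w ↔ z ∈ Set.Icc w top := by
    intro z; simp [win, top]
  have hwle : ∀ i, w i ≤ top i := by
    intro i
    have h1 : 0 < L := by omega
    simp only [top]; omega
  -- the special cell
  let x0 : Fin d → ℤ := Function.update (Function.update w i0 t0) i1 t1
  have hx0win : x0 ∈ win L w := by
    rw [mem_win]
    intro i
    have h1 : 0 < L := by omega
    simp only [x0, Function.update_apply]
    split_ifs with h h'
    · subst h; exact ⟨ht1, ht1'⟩
    · subst h'; exact ⟨ht0, ht0'⟩
    · constructor <;> omega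
  have hx00 : x0 i0 = t0 := by simp [x0, h01]
  have hx01 : x0 i1 = t1 := by simp [x0]
  have hx0occ : ∃ p, idx p = x0 := hocc x0 hx0win (fun h => ht0Z x0 h hx00)
  obtain ⟨p0, hp0⟩ := hx0occ
  refine ⟨G.connectedComponentMk p0, ?_⟩
  have hcx0 : cc G idx x0 = some (G.connectedComponentMk p0) := by rw [← hp0]; exact cc_idx hadj p0
  -- slices
  have slice : ∀ (i : Fin d) (t : ℤ), w i ≤ t → t < w i + L → (∀ z ∈ Z, z i ≠ t) → x0 i = t →
      ∀ x ∈ win L w, x i = t → cc G idx x = some (G.connectedComponentMk p0) := by
    intro i t hit hit' hfree hx0t x hx hxt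
    rw [← hcx0]
    apply cc_box (a := Function.update w i t) (b := Function.update top i t) hadj
    · intro z hz
      have hzw : z ∈ win L w := by
        rw [mem_win]
        intro j
        have h1 := hz.1 j
        have h2 := hz.2 j
        simp only [Function.update_apply] at h1 h2
        split_ifs at h1 h2 with h
        · subst h; constructor <;> omega
        · simp only [top] at h2; constructor <;> omega
      apply hocc z hzw
      intro hzZ
      apply hfree z hzZ
      have h1 := hz.1 i
      have h2 := hz.2 i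
      simp only [Function.update_self] at h1 h2
      omega
    · constructor
      · intro j
        simp only [Function.update_apply]
        split_ifs with h
        · subst h; omega
        · exact ((mem_win.1 hx) j).1
      · intro j
        simp only [Function.update_apply]
        split_ifs with h
        · subst h; omega
        · have := ((mem_win.1 hx) j).2
          simp only [top]; omega
    · constructor
      · intro j
        simp only [Function.update_apply]
        split_ifs with h
        · subst h; omega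
        · exact ((mem_win.1 hx0win) j).1
      · intro j
        simp only [Function.update_apply]
        split_ifs with h
        · subst h; omega
        · have := ((mem_win.1 hx0win) j).2
          simp only [top]; omega
  have slice0 := slice i0 t0 ht0 ht0' ht0Z hx00
  have slice1 := slice i1 t1 ht1 ht1' ht1Z hx01
  -- lines
  have line : ∀ (i : Fin d) (t : ℤ), w i ≤ t → t < w i + L →
      ∀ x ∈ win L w, (∀ s, w i ≤ s → s < w i + L → Function.update x i s ∉ Z) →
      cc G idx x = cc G idx (Function.update x i t) := by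
    intro i t hit hit' x hx hgood
    have hxi := (mem_win.1 hx) i
    apply cc_box (a := Function.update x i (w i)) (b := Function.update x i (top i)) hadj
    · intro z hz
      have hzeq : z = Function.update x i (z i) := by
        funext j
        by_cases h : j = i
        · subst h; simp
        · have h1 := hz.1 j
          have h2 := hz.2 j
          simp only [Function.update_of_ne h] at h1 h2 ⊢
          omega
      have h1 := hz.1 i
      have h2 := hz.2 i
      simp only [Function.update_self, top] at h1 h2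
      have hzw : z ∈ win L w := by
        rw [mem_win]
        intro j
        by_cases h : j = i
        · subst h; constructor <;> omega
        · rw [hzeq, Function.update_of_ne h]; exact (mem_win.1 hx) j
      apply hocc z hzw
      rw [hzeq]
      exact hgood _ (by omega) (by omega)
    · constructor
      · intro j
        by_cases h : j = i
        · subst h; simp; omega
        · simp [h]
      · intro j
        by_cases h : j = i
        · subst h; simp [top]; omega
        · simp [h]
    · constructor
      · intro j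
        by_cases h : j = i
        · subst h; simp; omega
        · simp [h]
      · intro j
        by_cases h : j = i
        · subst h; simp [top]; omega
        · simp [h]
  have updwin : ∀ (i : Fin d) (t : ℤ), w i ≤ t → t < w i + L → ∀ x ∈ win L w,
      Function.update x i t ∈ win L w := by
    intro i t h1 h2 x hx
    rw [mem_win]
    intro j
    by_cases h : j = i
    · subst h; simp; omega
    · rw [Function.update_of_ne h]; exact (mem_win.1 hx) j
  have hsub : (win L w).filter (fun z => cc G idx z ≠ some (G.connectedComponentMk p0)) ⊆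
      (Z ×ˢ Z).image (fun zz => Function.update zz.1 i0 (zz.2 i0)) := by
    intro x hx
    rw [Finset.mem_filter] at hx
    obtain ⟨hxw, hxc⟩ := hx
    have hbad0 : ∃ s, Function.update x i0 s ∈ Z := by
      by_contra hcon
      push Not at hcon
      apply hxc
      rw [line i0 t0 ht0 ht0' x hxw (fun s _ _ => hcon s)]
      exact slice0 _ (updwin i0 t0 ht0 ht0' x hxw) (by simp)
    have hbad1 : ∃ s, Function.update x i1 s ∈ Z := by
      by_contra hcon
      push Not at hcon
      apply hxc
      rw [line i1 t1 ht1 ht1' x hxw (fun s _ _ => hcon s)]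
      exact slice1 _ (updwin i1 t1 ht1 ht1' x hxw) (by simp)
    obtain ⟨s0, hs0⟩ := hbad0
    obtain ⟨s1, hs1⟩ := hbad1
    rw [Finset.mem_image]
    refine ⟨(Function.update x i0 s0, Function.update x i1 s1), Finset.mem_product.2 ⟨hs0, hs1⟩, ?_⟩
    simp only
    rw [Function.update_of_ne h01, Function.update_idem, Function.update_eq_self]
  calc _ ≤ ((Z ×ˢ Z).image (fun zz => Function.update zz.1 i0 (zz.2 i0))).card := Finset.card_le_card hsub
    _ ≤ (Z ×ˢ Z).card := Finset.card_image_le
    _ = Z.card ^ 2 := by rw [Finset.card_product]; ring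
    _ ≤ M0 ^ 2 := Nat.pow_le_pow_left hZ.le 2

open Classical in
theorem preconnected_of (hd : 2 ≤ d) [Finite α] (m L M0 M2 k : ℕ)
    (hidx : ∀ p i, 0 ≤ idx p i ∧ idx p i < m)
    (hadj : ∀ p q, (∀ i, |idx p i - idx q i| ≤ 1) → G.Reachable p q)
    (hshort : ∀ p q, G.Adj p q → ∀ i, |idx p i - idx q i| ≤ M2)
    (hM2 : 1 ≤ M2) (hL : M0 ≤ L) (hL2 : 2 * M0 ^ 2 < (L - 1) ^ d)
    (hL3 : 2 * ((M0 ^ 2 + 1) * M2) + 1 ≤ L) (hLm : L + 1 ≤ m)
    (hempty : ∀ w : Fin d → ℤ, (∀ i, 0 ≤ w i ∧ w i + L ≤ m) →
      ((win L w).filter (fun z => ∀ p, idx p ≠ z)).card < M0)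
    (hk : ∀ p, k ≤ {q | G.Reachable p q}.ncard)
    (hbig : ∀ w : Fin d → ℤ, (∀ i, 0 ≤ w i ∧ w i + L ≤ m) → ∀ V ⊆ win L w, V.Nonempty →
      k ≤ {p | idx p ∈ V}.ncard → ∃ p, idx p ∈ nb m V \ V) :
    G.Preconnected := by
  have hLpos : 0 < L := by omega
  -- giants
  have hg : ∀ w : Fin d → ℤ, ∃ c : Option G.ConnectedComponent, (∀ i, 0 ≤ w i ∧ w i + L ≤ m) →
      c ≠ none ∧ ((win L w).filter (fun z => cc G idx z ≠ c)).card ≤ M0 ^ 2 := by
    intro w
    by_cases hw : ∀ i, 0 ≤ w i ∧ w i + L ≤ m
    · obtain ⟨c, hc⟩ := giant_win hd hadj hL w (hempty w hw)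
      exact ⟨some c, fun _ => ⟨by simp, hc⟩⟩
    · exact ⟨none, fun h => absurd h hw⟩
  choose g hg using hg
  -- all giants agree
  let a : Fin d → ℤ := fun _ => 0
  let b : Fin d → ℤ := fun _ => (m:ℤ) - L
  have hab : ∀ w, w ∈ Set.Icc a b → ∀ i, 0 ≤ w i ∧ w i + L ≤ m := by
    intro w hw i
    have h1 : a i ≤ w i := hw.1 i
    have h2 : w i ≤ b i := hw.2 i
    simp only [a, b] at h1 h2
    constructor <;> omega
  have hab' : ∀ w : Fin d → ℤ, (∀ i, 0 ≤ w i ∧ w i + L ≤ m) → w ∈ Set.Icc a b := by
    intro w hw
    constructor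
    · intro i; exact (hw i).1
    · intro i; have := (hw i).2; simp only [b]; omega
  have hgconst : ∀ w ∈ Set.Icc a b, ∀ w' ∈ Set.Icc a b, g w = g w' := by
    apply box_const
    intro w hw w' hw' hww
    obtain ⟨_, h1⟩ := hg w (hab w hw)
    obtain ⟨_, h2⟩ := hg w' (hab w' hw')
    -- the overlap
    let O : Finset (Fin d → ℤ) := Finset.Icc (fun i => max (w i) (w' i)) (fun i => min (w i) (w' i) + L - 1)
    have hOcard : (L - 1) ^ d ≤ O.card := by
      rw [Pi.card_Icc]
      have : ∏ _i : Fin d, (L - 1) = (L - 1) ^ d := by simp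
      rw [← this]
      apply Finset.prod_le_prod'
      intro i _
      rw [Int.card_Icc]
      have h3 := hww i
      rw [abs_le] at h3
      omega
    by_contra hne
    have hsub : O ⊆ (win L w).filter (fun z => cc G idx z ≠ g w) ∪ (win L w').filter (fun z => cc G idx z ≠ g w') := by
      intro z hz
      have hz' := Finset.mem_Icc.1 hz
      have hz1 : z ∈ win L w := by
        rw [mem_win]; intro i
        have h3 : max (w i) (w' i) ≤ z i := hz'.1 i
        have h4 : z i ≤ min (w i) (w' i) + L - 1 := hz'.2 i
        constructor <;> omega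
      have hz2 : z ∈ win L w' := by
        rw [mem_win]; intro i
        have h3 : max (w i) (w' i) ≤ z i := hz'.1 i
        have h4 : z i ≤ min (w i) (w' i) + L - 1 := hz'.2 i
        constructor <;> omega
      rw [Finset.mem_union, Finset.mem_filter, Finset.mem_filter]
      by_cases h5 : cc G idx z = g w
      · right
        refine ⟨hz2, ?_⟩
        rw [h5]; exact hne
      · left
        exact ⟨hz1, h5⟩
    have h3 := (Finset.card_le_card hsub).trans (Finset.card_union_le _ _)
    omega
  -- the common giant
  have hm0 : (fun _ => 0 : Fin d → ℤ) ∈ Set.Icc a b := by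
    constructor
    · intro i; exact le_rfl
    · intro i; simp only [b]; omega
  set g0 := g (fun _ => 0) with hg0
  have hgiant : ∀ w : Fin d → ℤ, (∀ i, 0 ≤ w i ∧ w i + L ≤ m) →
      ((win L w).filter (fun z => cc G idx z ≠ g0)).card ≤ M0 ^ 2 := by
    intro w hw
    rw [hg0, hgconst _ hm0 w (hab' w hw)]
    exact (hg w hw).2
  -- every point is in the giant
  suffices hall : ∀ p, some (G.connectedComponentMk p) = g0 by
    intro p q
    have h1 : some (G.connectedComponentMk p) = some (G.connectedComponentMk q) := (hall p).trans (hall q).symm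
    have h2 := Option.some.inj h1
    exact SimpleGraph.ConnectedComponent.exact h2
  intro p0
  by_contra hp0
  set z0 := idx p0 with hz0
  set H := (M0 ^ 2 + 1) * M2 with hH
  -- window around z0
  let w : Fin d → ℤ := fun i => max 0 (min (z0 i - H) ((m:ℤ) - L))
  have hw : ∀ i, 0 ≤ w i ∧ w i + L ≤ m := by
    intro i
    simp only [w]
    constructor
    · omega
    · omega
  have hwin : ∀ z : Fin d → ℤ, (∀ i, 0 ≤ z i ∧ z i < m) → (∀ i, |z i - z0 i| ≤ H) → z ∈ win L w := by
    intro z hz hzz
    rw [mem_win]
    intro i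
    have h1 := hz i
    have h2 := hzz i
    have h3 := hidx p0 i
    rw [← hz0] at h3
    rw [abs_le] at h2
    simp only [w]
    constructor <;> omega
  -- distance
  let δ : (Fin d → ℤ) → ℕ := fun z => Finset.univ.sup (fun i => (z i - z0 i).natAbs)
  have hδ : ∀ z i, |z i - z0 i| ≤ (δ z : ℤ) := by
    intro z i
    have h1 : (z i - z0 i).natAbs ≤ δ z := Finset.le_sup (f := fun i => (z i - z0 i).natAbs) (Finset.mem_univ i)
    rw [← Int.natCast_natAbs]; exact_mod_cast h1
  have hδle : ∀ z (r : ℕ), (∀ i, |z i - z0 i| ≤ (r : ℤ)) → δ z ≤ r := by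
    intro z r h
    apply Finset.sup_le
    intro i _
    have := h i
    rw [← Int.natCast_natAbs] at this
    exact_mod_cast this
  -- cells of the component in the window
  set S := (win L w).filter (fun z => ∃ q, G.Reachable p0 q ∧ idx q = z) with hS
  have hScard : S.card ≤ M0 ^ 2 := by
    refine le_trans (Finset.card_le_card ?_) (hgiant w hw)
    intro z hz
    rw [hS, Finset.mem_filter] at hz
    obtain ⟨hz1, q, hq, rfl⟩ := hz
    rw [Finset.mem_filter]
    refine ⟨hz1, ?_⟩
    rw [cc_idx hadj]
    intro h
    apply hp0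
    rw [← h]
    congr 1
    exact SimpleGraph.ConnectedComponent.sound hq
  have hex : ∃ j ∈ Finset.range (M0 ^ 2 + 1), j ∉ S.image (fun z => δ z / M2) := by
    by_contra hcon
    push Not at hcon
    have h1 : Finset.range (M0 ^ 2 + 1) ⊆ S.image (fun z => δ z / M2) := hcon
    have h2 := (Finset.card_le_card h1).trans Finset.card_image_le
    rw [Finset.card_range] at h2
    omega
  obtain ⟨j, hj, hjS⟩ := hex
  rw [Finset.mem_range] at hj
  have hδ0 : δ z0 = 0 := by
    have := hδle z0 0 (by intro i; simp)
    omega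
  have hz0S : z0 ∈ S := by
    rw [hS, Finset.mem_filter]
    refine ⟨hwin z0 (hidx p0) (by intro i; simp), p0, SimpleGraph.Reachable.refl _, rfl⟩
  have hj0 : j ≠ 0 := by
    intro h
    apply hjS
    rw [Finset.mem_image]
    exact ⟨z0, hz0S, by rw [hδ0, h]; simp⟩
  have hlocal : ∀ q, G.Reachable p0 q → δ (idx q) < j * M2 := by
    intro q hq
    rw [SimpleGraph.reachable_iff_reflTransGen] at hq
    induction hq with
    | refl =>
      rw [← hz0, hδ0]
      exact Nat.mul_pos (Nat.pos_of_ne_zero hj0) hM2
    | @tail q r hq hqr ih =>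
      have h1 : δ (idx r) ≤ δ (idx q) + M2 := by
        apply hδle
        intro i
        have h2 := hδ (idx q) i
        have h3 := hshort q r hqr i
        rw [abs_le] at h2 h3 ⊢
        push_cast
        constructor <;> linarith [h2.1, h2.2, h3.1, h3.2]
      have h4 : δ (idx r) < (j + 1) * M2 := by
        rw [add_mul, one_mul]; omega
      have h5 : (j + 1) * M2 ≤ H := Nat.mul_le_mul_right _ (by omega)
      have hrw : idx r ∈ win L w := by
        apply hwin _ (hidx r)
        intro i
        have := hδ (idx r) i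
        have h6 : (δ (idx r) : ℤ) ≤ H := by exact_mod_cast (h4.le.trans h5)
        linarith
      have hrS : idx r ∈ S := by
        rw [hS, Finset.mem_filter]
        refine ⟨hrw, r, ?_, rfl⟩
        exact ((SimpleGraph.reachable_iff_reflTransGen p0 q).2 hq).trans hqr.reachable
      have h7 : δ (idx r) / M2 ≠ j := by
        intro h
        exact hjS (Finset.mem_image.2 ⟨_, hrS, h⟩)
      have h8 : δ (idx r) / M2 < j + 1 := (Nat.div_lt_iff_lt_mul (by omega)).2 h4
      have h9 : δ (idx r) / M2 < j := by omega
      exact (Nat.div_lt_iff_lt_mul (by omega)).1 h9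
  -- the component's cells
  have hjH : j * M2 ≤ H := Nat.mul_le_mul_right _ (by omega)
  have hVw : ∀ q, G.Reachable p0 q → idx q ∈ win L w := by
    intro q hq
    apply hwin _ (hidx q)
    intro i
    have h1 := hδ (idx q) i
    have h2 := hlocal q hq
    have h3 : (δ (idx q) : ℤ) ≤ H := by exact_mod_cast (h2.le.trans hjH)
    linarith
  have hSne : S.Nonempty := ⟨z0, hz0S⟩
  have hSk : k ≤ {p | idx p ∈ S}.ncard := by
    refine (hk p0).trans ?_
    apply Set.ncard_le_ncard _ (Set.toFinite _)
    intro q hq
    have hq' : G.Reachable p0 q := hq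
    change idx q ∈ S
    rw [hS, Finset.mem_filter]
    exact ⟨hVw q hq', q, hq', rfl⟩
  obtain ⟨p, hp⟩ := hbig w hw S (Finset.filter_subset _ _) hSne hSk
  rw [Finset.mem_sdiff] at hp
  obtain ⟨hp1, hp2⟩ := hp
  rw [nb, Finset.mem_filter] at hp1
  obtain ⟨_, v, hv, hpv⟩ := hp1
  rw [hS, Finset.mem_filter] at hv
  obtain ⟨_, q, hq, rfl⟩ := hv
  have hpq : G.Reachable q p := (hadj p q hpv).symm
  have hpr : G.Reachable p0 p := hq.trans hpq
  apply hp2
  rw [hS, Finset.mem_filter]
  exact ⟨hVw p hpr, p, hpr, rfl⟩

end abstract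

end Pool.Agent.Helper870.Det
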