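import Mathlib
import Pool.Agent.Helper870.BM
import Pool.Agent.Helper870.Det

namespace Pool.Agent.Helper870.Det

open Finset
open scoped Pointwise
open Pool.Agent.Helper870.BM

lemma nb_card_ge {d : ℕ} (m L : ℕ) (hLm : L + 1 ≤ m) (w : Fin d → ℤ)
    (hw : ∀ i, 0 ≤ w i ∧ w i + L ≤ m) (V : Finset (Fin d → ℤ)) (hV : V ⊆ win L w)
    (hVne : V.Nonempty) :
    (((V.card : ℝ) ^ ((1:ℝ)/(d:ℝ))) + 1) ^ d ≤ ((nb m V).card : ℝ) := by
  classical
  let s : Fin d → ℤ := fun i => if w i + L ≤ (m:ℤ) - 1 then 1 else -1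
  have hs : ∀ i, s i * s i = 1 := by
    intro i; simp only [s]; split_ifs <;> norm_num
  let ρ : (Fin d → ℤ) → (Fin d → ℤ) := fun x i => s i * x i
  have hρρ : ∀ x, ρ (ρ x) = x := by
    intro x; funext i
    simp only [ρ]
    rw [← mul_assoc, hs i, one_mul]
  have hρinj : Function.Injective ρ := by
    intro x y h
    rw [← hρρ x, ← hρρ y, h]
  have h1 := card_add_cube d (V.image ρ) (hVne.image ρ)
  rw [Finset.card_image_of_injective _ hρinj] at h1
  refine h1.trans ?_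
  have h2 : (V.image ρ + cube d).image ρ ⊆ nb m V := by
    intro u hu
    rw [Finset.mem_image] at hu
    obtain ⟨y, hy, rfl⟩ := hu
    obtain ⟨a, ha, c, hc, rfl⟩ := Finset.mem_add.1 hy
    obtain ⟨v, hv, rfl⟩ := Finset.mem_image.1 ha
    have hvw := mem_win.1 (hV hv)
    have hval : ∀ i, ρ (ρ v + c) i = v i + s i * c i := by
      intro i
      simp only [ρ, Pi.add_apply]
      rw [mul_add, ← mul_assoc, hs i, one_mul]
    rw [mem_cube] at hc
    rw [nb, Finset.mem_filter, Finset.mem_Icc]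
    refine ⟨⟨?_, ?_⟩, v, hv, ?_⟩
    · intro i
      rw [hval i]
      have h3 := hvw i
      have h4 := hw i
      have h5 := hc i
      change (0:ℤ) ≤ _
      simp only [s]
      split_ifs with h6 <;> rcases h5 with h5 | h5 <;> rw [h5] <;> omega
    · intro i
      rw [hval i]
      have h3 := hvw i
      have h4 := hw i
      have h5 := hc i
      simp only [s]
      split_ifs with h6 <;> rcases h5 with h5 | h5 <;> rw [h5] <;> omega
    · intro i
      rw [hval i]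
      have h5 := hc i
      rw [abs_le]
      simp only [s]
      split_ifs with h6 <;> rcases h5 with h5 | h5 <;> rw [h5] <;> constructor <;> omega
  have h3 := Finset.card_le_card h2
  rw [Finset.card_image_of_injective _ hρinj] at h3
  exact_mod_cast h3

lemma rpow_inv_pow {d : ℕ} (hd : 1 ≤ d) {v : ℝ} (hv : 0 ≤ v) : (v ^ ((1:ℝ)/(d:ℝ))) ^ d = v := by
  rw [← Real.rpow_natCast, ← Real.rpow_mul hv]
  have : (d:ℝ) ≠ 0 := by positivity
  rw [one_div, inv_mul_cancel₀ this, Real.rpow_one]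

lemma grow_small {d : ℕ} (hd : 1 ≤ d) {v N c1 : ℝ} (hv : 0 ≤ v) (hc : 0 < c1)
    (h : (v ^ ((1:ℝ)/(d:ℝ)) + 1) ^ d ≤ N) (hvc : v ≤ c1 ^ d) : v * (1 + 1 / c1) ^ d ≤ N := by
  refine le_trans ?_ h
  set a := v ^ ((1:ℝ)/(d:ℝ)) with ha
  have had : a ^ d = v := rpow_inv_pow hd hv
  have ha0 : 0 ≤ a := Real.rpow_nonneg hv _
  have hac : a ≤ c1 := by
    have h1 : a ^ d ≤ c1 ^ d := by rw [had]; exact hvc
    exact le_of_pow_le_pow_left₀ (by omega) hc.le h1
  rw [← had, ← mul_pow]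
  apply pow_le_pow_left₀ (by positivity)
  have : a / c1 ≤ 1 := (div_le_one hc).2 hac
  calc a * (1 + 1 / c1) = a + a / c1 := by ring
    _ ≤ a + 1 := by linarith

lemma grow_large {d : ℕ} (hd : 1 ≤ d) {v N c1 : ℝ} (hv : 0 ≤ v) (hc : 0 < c1)
    (h : (v ^ ((1:ℝ)/(d:ℝ)) + 1) ^ d ≤ N) (hvc : c1 ^ d ≤ v) : v + d * c1 ^ (d - 1) ≤ N := by
  refine le_trans ?_ h
  set a := v ^ ((1:ℝ)/(d:ℝ)) with ha
  have had : a ^ d = v := rpow_inv_pow hd hv
  have ha0 : 0 ≤ a := Real.rpow_nonneg hv _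
  have hac : c1 ≤ a := by
    have h1 : c1 ^ d ≤ a ^ d := by rw [had]; exact hvc
    exact le_of_pow_le_pow_left₀ (by omega) ha0 h1
  have hapos : 0 < a := lt_of_lt_of_le hc hac
  have hb : 1 + (d:ℝ) * (1 / a) ≤ (1 + 1 / a) ^ d :=
    one_add_mul_le_pow (by have : 0 < 1 / a := by positivity
                           linarith) d
  have h1 : (a + 1) ^ d = a ^ d * (1 + 1 / a) ^ d := by
    rw [← mul_pow]; congr 1; field_simp
  have h2 : a ^ d * (1 + (d:ℝ) * (1 / a)) = v + d * a ^ (d - 1) := by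
    have h3 : a ^ d = a ^ (d - 1) * a := by
      rw [← pow_succ]; congr 1; omega
    rw [← had, h3]; field_simp
  have h4 : (d:ℝ) * c1 ^ (d - 1) ≤ d * a ^ (d - 1) :=
    mul_le_mul_of_nonneg_left (pow_le_pow_left₀ hc.le hac _) (Nat.cast_nonneg d)
  calc v + d * c1 ^ (d - 1) ≤ v + d * a ^ (d - 1) := by linarith
    _ = a ^ d * (1 + (d:ℝ) * (1 / a)) := h2.symm
    _ ≤ a ^ d * (1 + 1 / a) ^ d := mul_le_mul_of_nonneg_left hb (by positivity)
    _ = (a + 1) ^ d := h1.symm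

end Pool.Agent.Helper870.Det
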