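import Mathlib
import Pool.Agent.Helper870.Geo
import Pool.Agent.Helper870.Iso

open MeasureTheory ProbabilityTheory

namespace Pool.Agent.Helper870.KNN

open Pool.Agent.Helper870.Det

/-- a finite set with at least `k` elements has at least `k` elements of rank below `k` -/
lemma nearest_card {E : Type*} (T : Set E) (hT : T.Finite) (f : E → ℝ) (k : ℕ) (hk : k ≤ T.ncard) :
    k ≤ {q ∈ T | {z ∈ T | f z < f q}.ncard < k}.ncard := by
  set A := {q ∈ T | {z ∈ T | f z < f q}.ncard < k} with hA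
  have hAT : A ⊆ T := fun _ h => h.1
  by_cases h : T ⊆ A
  · have : A = T := Set.Subset.antisymm hAT h
    rw [this]; exact hk
  · have hne : (T \ A).Nonempty := by
      obtain ⟨x, hx, hxA⟩ := Set.not_subset.1 h
      exact ⟨x, hx, hxA⟩
    obtain ⟨q0, hq0, hmin⟩ := Set.exists_min_image (T \ A) f (hT.subset Set.sdiff_subset) hne
    have h1 : ¬ {z ∈ T | f z < f q0}.ncard < k := fun h2 => hq0.2 ⟨hq0.1, h2⟩
    have h2 : {z ∈ T | f z < f q0} ⊆ A := by
      intro z hz
      by_contra hzA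
      have := hmin z ⟨hz.1, hzA⟩
      exact absurd hz.2 (not_lt.2 this)
    exact (not_lt.1 h1).trans (Set.ncard_le_ncard h2 (hT.subset hAT))

lemma ncard_le_sdiff {E : Type*} (A : Set E) (hA : A.Finite) (x : E) : A.ncard ≤ (A \ {x}).ncard + 1 := by
  have h1 : A ⊆ insert x (A \ {x}) := by
    intro y hy
    by_cases h : y = x
    · left; exact h
    · right; exact ⟨hy, h⟩
  have hfin : (A \ {x}).Finite := hA.subset Set.sdiff_subset
  exact (Set.ncard_le_ncard h1 (hfin.insert x)).trans (Set.ncard_insert_le _ _)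

/-- centre of a cell -/
noncomputable def ctr {d : ℕ} (s : ℝ) (z : Fin d → ℤ) : EuclideanSpace ℝ (Fin d) :=
  WithLp.toLp 2 (fun i => ((z i : ℝ) + 1 / 2) * s)

lemma ctr_apply {d : ℕ} (s : ℝ) (z : Fin d → ℤ) (i : Fin d) : ctr s z i = ((z i : ℝ) + 1 / 2) * s := rfl

section
variable {d : ℕ} {n : ℝ} {m : ℕ}

theorem connected_of_good (hd : 2 ≤ d) (hn : 0 < n) (hm : 0 < m)
    {S : Set (EuclideanSpace ℝ (Fin d))} (hSfin : S.Finite) (hSw : S ⊆ window d n)
    (k L M0 M1 : ℕ) (hM1 : 1 ≤ M1) (hM1m : M1 ≤ m) (hL : M0 ≤ L) (hL2 : 2 * M0 ^ 2 < (L - 1) ^ d)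
    (hL3 : 2 * ((M0 ^ 2 + 1) * (M1 * d + 1)) + 1 ≤ L) (hLm : L + 1 ≤ m)
    (good1 : ∀ z ∈ Finset.Icc (0 : Fin d → ℤ) (fun _ => (m:ℤ) - 1),
      (S ∩ (Metric.closedBall (ctr (side d n m) z) ((5 / 2 * side d n m) * Real.sqrt d) ∩ window d n)).ncard < k)
    (good2 : ∀ w : Fin d → ℤ, (∀ i, 0 ≤ w i ∧ w i + L ≤ m) → ∀ Z ⊆ win L w, Z.card = M0 →
      (S ∩ region n (side d n m) m Z).ncard ≠ 0)
    (good3 : ∀ w : Fin d → ℤ, (∀ i, 0 ≤ w i ∧ w i + M1 ≤ m) →
      ¬ (S ∩ region n (side d n m) m (win M1 w)).ncard ≤ k)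
    (good4 : ∀ w : Fin d → ℤ, (∀ i, 0 ≤ w i ∧ w i + L ≤ m) → ∀ V ⊆ win L w, V.Nonempty →
      ¬ (k ≤ (S ∩ region n (side d n m) m V).ncard ∧
        (S ∩ region n (side d n m) m (nb m V \ V)).ncard = 0)) :
    (knnGraph S k).Connected := by
  classical
  set s := side d n m with hsdef
  have hs : 0 < s := side_pos hn hm
  have : Finite S := hSfin.to_subtype
  have hsd : 0 ≤ Real.sqrt d := Real.sqrt_nonneg _
  -- ranges
  have hidx : ∀ (p : S) i, 0 ≤ idx s m p.1 i ∧ idx s m p.1 i < m := fun p i => idx_range hn hm (hSw p.2) i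
  have hbd : ∀ (p : S) i, (idx s m p.1 i : ℝ) * s ≤ p.1 i ∧ p.1 i ≤ ((idx s m p.1 i : ℝ) + 1) * s :=
    fun p i => idx_bounds hn hm (hSw p.2) i
  have hmem : ∀ (p : S) (V : Finset (Fin d → ℤ)), idx s m p.1 ∈ V ↔ p.1 ∈ S ∩ region n s m V := by
    intro p V
    constructor
    · intro h; exact ⟨p.2, hSw p.2, h⟩
    · intro h; exact h.2.2
  have hncard : ∀ V : Finset (Fin d → ℤ), {p : S | idx s m p.1 ∈ V}.ncard = (S ∩ region n s m V).ncard := by
    intro V
    rw [← Set.ncard_image_of_injective _ Subtype.val_injective]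
    congr 1
    ext x
    simp only [Set.mem_image]
    constructor
    · rintro ⟨p, hp, rfl⟩
      exact (hmem p V).1 hp
    · intro hx
      exact ⟨⟨x, hx.1⟩, (hmem ⟨x, hx.1⟩ V).2 hx, rfl⟩
  -- adjacency of neighbouring cells
  have hadj' : ∀ p q : S, (∀ i, |idx s m p.1 i - idx s m q.1 i| ≤ 1) → p ≠ q → (knnGraph S k).Adj p q := by
    intro p q hpq hne
    refine ⟨hne, Or.inl ⟨fun h => hne (Subtype.ext h.symm), ?_⟩⟩
    have hz : idx s m p.1 ∈ Finset.Icc (0 : Fin d → ℤ) (fun _ => (m:ℤ) - 1) := by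
      rw [Finset.mem_Icc]
      constructor
      · intro i; exact (hidx p i).1
      · intro i; have := (hidx p i).2; change idx s m p.1 i ≤ (m:ℤ) - 1; omega
    refine lt_of_le_of_lt (Set.ncard_le_ncard ?_ (hSfin.subset Set.inter_subset_left)) (good1 _ hz)
    rintro z ⟨hzS, _, hzd⟩
    refine ⟨hzS, ?_, hSw hzS⟩
    rw [Metric.mem_closedBall]
    have h1 : dist p.1 q.1 ≤ (2 * s) * Real.sqrt d := by
      apply dist_le_of_coord _ _ (by positivity)
      intro i
      have h2 := hbd p i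
      have h3 := hbd q i
      have h4 := hpq i
      rw [abs_le] at h4
      have h5 : (idx s m p.1 i : ℝ) ≤ idx s m q.1 i + 1 := by
        have : idx s m p.1 i ≤ idx s m q.1 i + 1 := by omega
        exact_mod_cast this
      have h6 : (idx s m q.1 i : ℝ) ≤ idx s m p.1 i + 1 := by
        have : idx s m q.1 i ≤ idx s m p.1 i + 1 := by omega
        exact_mod_cast this
      rw [abs_le]
      constructor <;> nlinarith
    have h2 : dist p.1 (ctr s (idx s m p.1)) ≤ (1 / 2 * s) * Real.sqrt d := by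
      apply dist_le_of_coord _ _ (by positivity)
      intro i
      have h2 := hbd p i
      rw [ctr_apply, abs_le]
      constructor <;> nlinarith
    calc dist z (ctr s (idx s m p.1)) ≤ dist z p.1 + dist p.1 (ctr s (idx s m p.1)) := dist_triangle _ _ _
      _ ≤ (2 * s) * Real.sqrt d + (1 / 2 * s) * Real.sqrt d := by
        rw [dist_comm z p.1]
        exact add_le_add (hzd.le.trans h1) h2
      _ = (5 / 2 * s) * Real.sqrt d := by ring
  have hadj : ∀ p q : S, (∀ i, |idx s m p.1 i - idx s m q.1 i| ≤ 1) → (knnGraph S k).Reachable p q := by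
    intro p q hpq
    by_cases hne : p = q
    · rw [hne]
    · exact (hadj' p q hpq hne).reachable
  -- windows of side M1 around a point
  have hwin1 : ∀ p : S, ∃ w : Fin d → ℤ, (∀ i, 0 ≤ w i ∧ w i + M1 ≤ m) ∧ idx s m p.1 ∈ win M1 w := by
    intro p
    refine ⟨fun i => min (idx s m p.1 i) ((m:ℤ) - M1), ?_, ?_⟩
    · intro i
      have := hidx p i
      simp only
      constructor <;> omega
    · rw [mem_win]
      intro i
      have := hidx p i
      constructor <;> omega
  -- short edges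
  have hshort1 : ∀ p q : S, IsNearest S k p.1 q.1 → dist p.1 q.1 ≤ (M1 * s) * Real.sqrt d := by
    intro p q hpq
    by_contra hcon
    push Not at hcon
    obtain ⟨w, hw, hpw⟩ := hwin1 p
    have h1 := good3 w hw
    push Not at h1
    have h2 : (S ∩ region n s m (win M1 w)) \ {p.1} ⊆ {z ∈ S | z ≠ p.1 ∧ dist p.1 z < dist p.1 q.1} := by
      rintro z ⟨⟨hzS, hzr⟩, hzp⟩
      refine ⟨hzS, hzp, lt_of_le_of_lt ?_ hcon⟩
      apply dist_le_of_coord _ _ (by positivity)
      intro i
      have h3 := hbd p i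
      have h4 := hbd ⟨z, hzS⟩ i
      have h5 := (mem_win.1 hpw) i
      have h6 := (mem_win.1 hzr.2) i
      simp only at h4
      have h7 : (w i : ℝ) ≤ idx s m p.1 i := by exact_mod_cast h5.1
      have h8 : (idx s m p.1 i : ℝ) + 1 ≤ w i + M1 := by
        have : idx s m p.1 i + 1 ≤ w i + M1 := by omega
        exact_mod_cast this
      have h9 : (w i : ℝ) ≤ idx s m z i := by exact_mod_cast h6.1
      have h10 : (idx s m z i : ℝ) + 1 ≤ w i + M1 := by
        have : idx s m z i + 1 ≤ w i + M1 := by omega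
        exact_mod_cast this
      rw [abs_le]
      constructor <;> nlinarith
    have h3 := Set.ncard_le_ncard h2 (hSfin.subset (fun _ h => h.1))
    have h4 : (S ∩ region n s m (win M1 w)).ncard ≤ ((S ∩ region n s m (win M1 w)) \ {p.1}).ncard + 1 :=
      ncard_le_sdiff _ (hSfin.subset Set.inter_subset_left) _
    have h5 := hpq.2
    omega
  have hsqrt : Real.sqrt d ≤ d := by
    have h1 : (1:ℝ) ≤ d := by exact_mod_cast (by omega : 1 ≤ d)
    rw [Real.sqrt_le_left (by linarith)]
    nlinarith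
  have hshort2 : ∀ p q : S, IsNearest S k p.1 q.1 →
      ∀ i, |idx s m p.1 i - idx s m q.1 i| ≤ ((M1 * d + 1 : ℕ) : ℤ) := by
    intro p q hpq i
    have h1 := hshort1 p q hpq
    have h2 : |p.1 i - q.1 i| ≤ ((M1 * d : ℕ) : ℝ) * s := by
      refine (coord_le_dist _ _ i).trans (h1.trans ?_)
      push_cast
      have : (M1:ℝ) * s * Real.sqrt d ≤ M1 * s * d := mul_le_mul_of_nonneg_left hsqrt (by positivity)
      linarith
    have := idx_lipschitz (m := m) hs p.1 q.1 i (M1 * d) h2
    push_cast at this ⊢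
    exact this
  have hshort : ∀ p q : S, (knnGraph S k).Adj p q →
      ∀ i, |idx s m p.1 i - idx s m q.1 i| ≤ ((M1 * d + 1 : ℕ) : ℤ) := by
    intro p q hpq i
    rcases hpq.2 with h | h
    · exact hshort2 p q h i
    · rw [abs_sub_comm]; exact hshort2 q p h i
  -- number of points
  have hbig0 : k < S.ncard := by
    have h1 := good3 0 (by intro i; simp; exact_mod_cast hM1m)
    push Not at h1
    exact lt_of_lt_of_le h1 (Set.ncard_le_ncard Set.inter_subset_left hSfin)
  have hk : ∀ p : S, k ≤ {q | (knnGraph S k).Reachable p q}.ncard := by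
    intro p
    have h1 : k ≤ (S \ {p.1}).ncard := by
      have := ncard_le_sdiff S hSfin p.1
      omega
    have h2 := nearest_card (S \ {p.1}) (hSfin.subset Set.sdiff_subset) (fun z => dist p.1 z) k h1
    refine h2.trans ?_
    rw [← Set.ncard_image_of_injective {q | (knnGraph S k).Reachable p q} Subtype.val_injective]
    apply Set.ncard_le_ncard _ (Set.toFinite _)
    rintro q ⟨⟨hqS, hqp⟩, hq⟩
    refine ⟨⟨q, hqS⟩, ?_, rfl⟩
    have hadjpq : (knnGraph S k).Adj p ⟨q, hqS⟩ := by
      refine ⟨fun h => hqp (by rw [h]; rfl), Or.inl ⟨hqp, ?_⟩⟩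
      refine lt_of_le_of_lt (le_of_eq ?_) hq
      congr 1
      ext z
      constructor
      · rintro ⟨a, b, c⟩; exact ⟨⟨a, b⟩, c⟩
      · rintro ⟨⟨a, b⟩, c⟩; exact ⟨a, b, c⟩
    exact hadjpq.reachable
  have hpre := preconnected_of (G := knnGraph S k) (idx := fun p : S => idx s m p.1) hd m L M0
    (M1 * d + 1) k hidx hadj hshort (by omega) hL hL2 hL3 hLm
    (by
      intro w hw
      by_contra hcon
      push Not at hcon
      obtain ⟨Z, hZsub, hZcard⟩ := Finset.exists_subset_card_eq hcon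
      apply good2 w hw Z (hZsub.trans (Finset.filter_subset _ _)) hZcard
      rw [← hncard Z]
      have : {p : S | idx s m p.1 ∈ Z} = ∅ := by
        ext p
        simp only [Set.mem_empty_iff_false, iff_false]
        intro hp
        exact (Finset.mem_filter.1 (hZsub hp)).2 p rfl
      rw [this]; simp)
    hk
    (by
      intro w hw V hV hVne hVk
      by_contra hcon
      push Not at hcon
      apply good4 w hw V hV hVne
      refine ⟨by rw [← hncard V]; exact hVk, ?_⟩
      rw [← hncard (nb m V \ V)]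
      have : {p : S | idx s m p.1 ∈ nb m V \ V} = ∅ := by
        ext p
        simp only [Set.mem_empty_iff_false, iff_false]
        exact hcon p
      rw [this]; simp)
  have hne : Nonempty S := by
    have : S.Nonempty := by
      rw [← Set.ncard_pos hSfin]; omega
    exact this.to_subtype
  exact ⟨hpre⟩

end

end Pool.Agent.Helper870.KNN
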