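import Mathlib
import Pool.Agent.Helper870.Defs

open MeasureTheory ProbabilityTheory

namespace Pool.Agent.Helper870.KNN

/-- exponential tail bounds for a Poisson variable -/
lemma poisson_tail {Ω : Type*} [MeasurableSpace Ω] (P : Measure Ω) {N : Ω → ℕ} {μ t : ℝ}
    (hμ : 0 ≤ μ) (ht : 0 < t)
    (law : ∀ j : ℕ, P {ω | N ω = j} = ENNReal.ofReal (Real.exp (-μ) * μ ^ j / (j.factorial : ℝ)))
    (A : Set ℕ) (k : ℕ) (hA : ∀ j ∈ A, t ^ k ≤ t ^ j) :
    P {ω | N ω ∈ A} ≤ ENNReal.ofReal (Real.exp (μ * (t - 1)) / t ^ k) := by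
  have htk : 0 < t ^ k := pow_pos ht k
  have hsum : HasSum (fun j : ℕ => Real.exp (-μ) / t ^ k * ((μ * t) ^ j / (j.factorial : ℝ)))
      (Real.exp (μ * (t - 1)) / t ^ k) := by
    have h1 := (NormedSpace.expSeries_div_hasSum_exp (μ * t)).mul_left (Real.exp (-μ) / t ^ k)
    rw [← Real.exp_eq_exp_ℝ] at h1
    convert! h1 using 1
    rw [div_mul_eq_mul_div, ← Real.exp_add]
    congr 2
    ring
  have hnn : ∀ j : ℕ, 0 ≤ Real.exp (-μ) / t ^ k * ((μ * t) ^ j / (j.factorial : ℝ)) := by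
    intro j
    have : 0 ≤ μ * t := mul_nonneg hμ ht.le
    positivity
  have hcov : {ω | N ω ∈ A} ⊆ ⋃ j : ℕ, {ω | N ω = j ∧ j ∈ A} := by
    intro ω hω
    exact Set.mem_iUnion.2 ⟨N ω, rfl, hω⟩
  calc P {ω | N ω ∈ A} ≤ P (⋃ j : ℕ, {ω | N ω = j ∧ j ∈ A}) := measure_mono hcov
    _ ≤ ∑' j : ℕ, P {ω | N ω = j ∧ j ∈ A} := measure_iUnion_le _
    _ ≤ ∑' j : ℕ, ENNReal.ofReal (Real.exp (-μ) / t ^ k * ((μ * t) ^ j / (j.factorial : ℝ))) := by
        apply ENNReal.tsum_le_tsum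
        intro j
        by_cases hj : j ∈ A
        · calc P {ω | N ω = j ∧ j ∈ A} ≤ P {ω | N ω = j} := measure_mono (fun ω h => h.1)
            _ = ENNReal.ofReal (Real.exp (-μ) * μ ^ j / (j.factorial : ℝ)) := law j
            _ ≤ _ := by
              apply ENNReal.ofReal_le_ofReal
              have h2 : 1 ≤ t ^ j / t ^ k := (one_le_div htk).2 (hA j hj)
              have h3 : Real.exp (-μ) / t ^ k * ((μ * t) ^ j / (j.factorial : ℝ))
                = (Real.exp (-μ) * μ ^ j / (j.factorial : ℝ)) * (t ^ j / t ^ k) := by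
                rw [mul_pow]; field_simp
              rw [h3]
              have h4 : 0 ≤ Real.exp (-μ) * μ ^ j / (j.factorial : ℝ) := by positivity
              nlinarith
        · have : {ω | N ω = j ∧ j ∈ A} = ∅ := by
            ext ω; simp [hj]
          rw [this]; simp
    _ = ENNReal.ofReal (∑' j : ℕ, Real.exp (-μ) / t ^ k * ((μ * t) ^ j / (j.factorial : ℝ))) :=
        (ENNReal.ofReal_tsum_of_nonneg hnn hsum.summable).symm
    _ = ENNReal.ofReal (Real.exp (μ * (t - 1)) / t ^ k) := by rw [hsum.tsum_eq]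

section process

variable {d : ℕ} {Ω : Type} [MeasurableSpace Ω] {P : Measure Ω}
  {S : Set (EuclideanSpace ℝ (Fin d))} {X : Ω → Set (EuclideanSpace ℝ (Fin d))}

/-- upper tail with an upper bound on the mean -/
lemma IsPoissonProcess.tail_ge (h : IsPoissonProcess P S X) {B : Set (EuclideanSpace ℝ (Fin d))}
    (hBS : B ⊆ S) (hB : MeasurableSet B) {μ t : ℝ} (hμ : (volume B).toReal ≤ μ) (ht : 1 ≤ t) (k : ℕ) :
    P {ω | k ≤ (X ω ∩ B).ncard} ≤ ENNReal.ofReal (Real.exp (μ * (t - 1)) / t ^ k) := by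
  have h1 := poisson_tail P (N := fun ω => (X ω ∩ B).ncard) (μ := (volume B).toReal)
    ENNReal.toReal_nonneg (lt_of_lt_of_le one_pos ht) (h.law B hBS hB) (Set.Ici k) k
    (fun j hj => pow_le_pow_right₀ ht hj)
  refine h1.trans (ENNReal.ofReal_le_ofReal ?_)
  have h2 : 0 < t ^ k := pow_pos (by linarith) k
  apply div_le_div_of_nonneg_right _ h2.le
  apply Real.exp_le_exp.2
  apply mul_le_mul_of_nonneg_right hμ (by linarith)

/-- lower tail with a lower bound on the mean -/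
lemma IsPoissonProcess.tail_le (h : IsPoissonProcess P S X) {B : Set (EuclideanSpace ℝ (Fin d))}
    (hBS : B ⊆ S) (hB : MeasurableSet B) {μ t : ℝ} (hμ : μ ≤ (volume B).toReal) (ht0 : 0 < t)
    (ht : t ≤ 1) (k : ℕ) :
    P {ω | (X ω ∩ B).ncard ≤ k} ≤ ENNReal.ofReal (Real.exp (μ * (t - 1)) / t ^ k) := by
  have h1 := poisson_tail P (N := fun ω => (X ω ∩ B).ncard) (μ := (volume B).toReal)
    ENNReal.toReal_nonneg ht0 (h.law B hBS hB) (Set.Iic k) k
    (fun j hj => pow_le_pow_of_le_one ht0.le ht hj)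
  refine h1.trans (ENNReal.ofReal_le_ofReal ?_)
  have h2 : 0 < t ^ k := pow_pos ht0 k
  apply div_le_div_of_nonneg_right _ h2.le
  apply Real.exp_le_exp.2
  nlinarith

lemma IsPoissonProcess.void (h : IsPoissonProcess P S X) {B : Set (EuclideanSpace ℝ (Fin d))}
    (hBS : B ⊆ S) (hB : MeasurableSet B) :
    P {ω | (X ω ∩ B).ncard = 0} = ENNReal.ofReal (Real.exp (-(volume B).toReal)) := by
  have := h.law B hBS hB 0
  simpa using this

/-- many points in one region and none in another one -/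
lemma IsPoissonProcess.pair (h : IsPoissonProcess P S X) {A B : Set (EuclideanSpace ℝ (Fin d))}
    (hAS : A ⊆ S) (hBS : B ⊆ S) (hA : MeasurableSet A) (hB : MeasurableSet B) (hAB : Disjoint A B)
    {t : ℝ} (ht : 1 ≤ t) (k : ℕ) :
    P {ω | k ≤ (X ω ∩ A).ncard ∧ (X ω ∩ B).ncard = 0}
      ≤ ENNReal.ofReal (Real.exp ((volume A).toReal * (t - 1)) / t ^ k *
          Real.exp (-(volume B).toReal)) := by
  have hind := h.indep 2 ![A, B] (by intro i; fin_cases i <;> simp [hAS, hBS])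
    (by intro i; fin_cases i <;> simp [hA, hB])
    (by
      intro i j hij
      fin_cases i <;> fin_cases j
      · exact absurd rfl hij
      · simpa using hAB
      · simpa using hAB.symm
      · exact absurd rfl hij)
  have h2 := hind.indepFun (i := 0) (j := 1) (by decide)
  have h3 := h2.measure_inter_preimage_eq_mul (Set.Ici k) {0} (measurableSet_Ici) (measurableSet_singleton 0)
  have e1 : {ω | k ≤ (X ω ∩ A).ncard ∧ (X ω ∩ B).ncard = 0}
    = (fun ω => (X ω ∩ (![A, B] 0)).ncard) ⁻¹' Set.Ici k ∩ (fun ω => (X ω ∩ (![A, B] 1)).ncard) ⁻¹' {0} := by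
    ext ω; simp
  rw [e1, h3]
  have h4 : P ((fun ω => (X ω ∩ (![A, B] 0)).ncard) ⁻¹' Set.Ici k)
      ≤ ENNReal.ofReal (Real.exp ((volume A).toReal * (t - 1)) / t ^ k) :=
    h.tail_ge hAS hA le_rfl ht k
  have h5 : P ((fun ω => (X ω ∩ (![A, B] 1)).ncard) ⁻¹' {0})
      = ENNReal.ofReal (Real.exp (-(volume B).toReal)) := h.void hBS hB
  rw [h5, ENNReal.ofReal_mul (by positivity)]
  gcongr

end process

/-- volume of a Euclidean ball of radius `ρ √d` -/
lemma volume_closedBall_le {d : ℕ} (x : EuclideanSpace ℝ (Fin d)) {ρ : ℝ} (hρ : 0 < ρ) :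
    (volume (Metric.closedBall x (ρ * Real.sqrt d))).toReal ≤ (5 * ρ) ^ d := by
  set b : ℝ := 1 / (2 * ρ ^ 2) with hb
  have hb0 : 0 < b := by positivity
  have hint := GaussianFourier.integral_rexp_neg_mul_sq_norm (V := EuclideanSpace ℝ (Fin d)) hb0
  rw [finrank_euclideanSpace_fin] at hint
  have hπ := Real.pi_pos
  have hpos : 0 < (Real.pi / b) ^ ((d:ℝ) / 2) := Real.rpow_pos_of_pos (by positivity) _
  have hintegrable : Integrable (fun v : EuclideanSpace ℝ (Fin d) => Real.exp (-b * ‖v‖ ^ 2)) := by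
    by_contra hcon
    rw [integral_undef hcon] at hint
    rw [← hint] at hpos
    exact lt_irrefl _ hpos
  have hmarkov := mul_meas_ge_le_integral_of_nonneg (μ := volume)
    (f := fun v : EuclideanSpace ℝ (Fin d) => Real.exp (-b * ‖v‖ ^ 2))
    (Filter.Eventually.of_forall (fun v => (Real.exp_pos _).le)) hintegrable (Real.exp (-((d:ℝ)/2)))
  rw [hint] at hmarkov
  have hset : Metric.closedBall (0 : EuclideanSpace ℝ (Fin d)) (ρ * Real.sqrt d)
      ⊆ {v : EuclideanSpace ℝ (Fin d) | Real.exp (-((d:ℝ)/2)) ≤ Real.exp (-b * ‖v‖ ^ 2)} := by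
    intro v hv
    rw [mem_closedBall_zero_iff] at hv
    change Real.exp (-((d:ℝ)/2)) ≤ Real.exp (-b * ‖v‖ ^ 2)
    apply Real.exp_le_exp.2
    have h1 : ‖v‖ ^ 2 ≤ ρ ^ 2 * d := by
      calc ‖v‖ ^ 2 ≤ (ρ * Real.sqrt d) ^ 2 := pow_le_pow_left₀ (norm_nonneg v) hv 2
        _ = ρ ^ 2 * d := by rw [mul_pow, Real.sq_sqrt (Nat.cast_nonneg d)]
    have h2 : b * ‖v‖ ^ 2 ≤ b * (ρ ^ 2 * d) := mul_le_mul_of_nonneg_left h1 hb0.le
    have h3 : b * (ρ ^ 2 * d) = d / 2 := by rw [hb]; field_simp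
    linarith
  have hfin : volume {v : EuclideanSpace ℝ (Fin d) | Real.exp (-((d:ℝ)/2)) ≤ Real.exp (-b * ‖v‖ ^ 2)} ≠ ⊤ := by
    exact (hintegrable.measure_ge_lt_top (Real.exp_pos _)).ne
  have hvol0 : (volume (Metric.closedBall (0 : EuclideanSpace ℝ (Fin d)) (ρ * Real.sqrt d))).toReal
      ≤ Real.exp ((d:ℝ)/2) * (Real.pi / b) ^ ((d:ℝ) / 2) := by
    have h1 : (volume (Metric.closedBall (0 : EuclideanSpace ℝ (Fin d)) (ρ * Real.sqrt d))).toReal
      ≤ volume.real {v : EuclideanSpace ℝ (Fin d) | Real.exp (-((d:ℝ)/2)) ≤ Real.exp (-b * ‖v‖ ^ 2)} :=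
      ENNReal.toReal_mono hfin (measure_mono hset)
    have h2 : Real.exp ((d:ℝ)/2) * (Real.exp (-((d:ℝ)/2)) * volume.real {v : EuclideanSpace ℝ (Fin d) | Real.exp (-((d:ℝ)/2)) ≤ Real.exp (-b * ‖v‖ ^ 2)})
      ≤ Real.exp ((d:ℝ)/2) * (Real.pi / b) ^ ((d:ℝ) / 2) :=
      mul_le_mul_of_nonneg_left hmarkov (Real.exp_pos _).le
    rw [← mul_assoc, ← Real.exp_add, add_neg_cancel, Real.exp_zero, one_mul] at h2
    exact h1.trans h2
  have htrans : volume (Metric.closedBall x (ρ * Real.sqrt d))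
      = volume (Metric.closedBall (0 : EuclideanSpace ℝ (Fin d)) (ρ * Real.sqrt d)) :=
    Measure.addHaar_closedBall_center volume x _
  rw [htrans]
  refine hvol0.trans ?_
  have h1 : Real.exp ((d:ℝ)/2) * (Real.pi / b) ^ ((d:ℝ) / 2)
      = (Real.exp 1 * (Real.pi / b)) ^ ((d:ℝ)/2) := by
    rw [Real.mul_rpow (Real.exp_pos _).le (by positivity), ← Real.exp_mul, one_mul]
  rw [h1]
  have h2 : (5 * ρ) ^ d = ((5 * ρ) ^ 2) ^ ((d:ℝ)/2) := by
    rw [← Real.rpow_natCast (5 * ρ) 2, ← Real.rpow_mul (by positivity), ← Real.rpow_natCast]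
    congr 1
    push_cast; ring
  rw [h2]
  apply Real.rpow_le_rpow (by positivity) _ (by positivity)
  rw [hb]
  have h3 : Real.exp 1 * (Real.pi / (1 / (2 * ρ ^ 2))) = (2 * Real.exp 1 * Real.pi) * ρ ^ 2 := by
    field_simp
  rw [h3, mul_pow]
  apply mul_le_mul_of_nonneg_right _ (sq_nonneg ρ)
  have h4 := Real.exp_one_lt_d9
  have h5 := Real.pi_lt_d2
  nlinarith [Real.exp_pos 1]

end Pool.Agent.Helper870.KNN
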