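import Mathlib
import Pool.Agent.Helper870.Prob
import Pool.Agent.Helper870.Conn

open MeasureTheory ProbabilityTheory

namespace Pool.Agent.Helper870.KNN

open Pool.Agent.Helper870.Det

/-- corners of windows of side `L` -/
noncomputable def corners (d m L : ℕ) : Finset (Fin d → ℤ) :=
  Finset.Icc (0 : Fin d → ℤ) (fun _ => (m:ℤ) - L)

lemma mem_corners {d m L : ℕ} {w : Fin d → ℤ} : w ∈ corners d m L ↔ ∀ i, 0 ≤ w i ∧ w i + L ≤ m := by
  rw [corners, Finset.mem_Icc]
  constructor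
  · rintro ⟨h1, h2⟩ i
    have h3 : 0 ≤ w i := h1 i
    have h4 : w i ≤ (m:ℤ) - L := h2 i
    constructor <;> omega
  · intro h
    constructor
    · intro i; exact (h i).1
    · intro i; have := (h i).2; change w i ≤ (m:ℤ) - L; omega

lemma card_corners_le {d m L : ℕ} (hL : 1 ≤ L) : (corners d m L).card ≤ m ^ d := by
  rw [corners, Pi.card_Icc]
  have : m ^ d = ∏ _i : Fin d, m := by simp
  rw [this]
  apply Finset.prod_le_prod'
  intro i _
  rw [Int.card_Icc]
  simp only [Pi.zero_apply]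
  omega

lemma card_win {d L : ℕ} (w : Fin d → ℤ) : (win L w).card = L ^ d := by
  rw [win, Pi.card_Icc]
  have : L ^ d = ∏ _i : Fin d, L := by simp
  rw [this]
  apply Finset.prod_congr rfl
  intro i _
  rw [Int.card_Icc]
  omega

lemma win_range {d m L : ℕ} {w : Fin d → ℤ} (hw : ∀ i, 0 ≤ w i ∧ w i + L ≤ m) :
    ∀ z ∈ win L w, ∀ i, 0 ≤ z i ∧ z i < m := by
  intro z hz i
  have h1 := hw i
  have h2 := (mem_win.1 hz) i
  constructor <;> omega

lemma subset_nb {d m L : ℕ} {w : Fin d → ℤ} (hw : ∀ i, 0 ≤ w i ∧ w i + L ≤ m)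
    {V : Finset (Fin d → ℤ)} (hV : V ⊆ win L w) : V ⊆ nb m V := by
  intro v hv
  rw [nb, Finset.mem_filter, Finset.mem_Icc]
  have h1 := win_range hw v (hV hv)
  refine ⟨⟨fun i => (h1 i).1, fun i => ?_⟩, v, hv, by intro i; simp⟩
  have := (h1 i).2
  change v i ≤ (m:ℤ) - 1
  omega

lemma nb_range {d m : ℕ} {V : Finset (Fin d → ℤ)} : ∀ z ∈ nb m V, ∀ i, 0 ≤ z i ∧ z i < m := by
  intro z hz i
  rw [nb, Finset.mem_filter, Finset.mem_Icc] at hz
  have h1 : 0 ≤ z i := hz.1.1 i
  have h2 : z i ≤ (m:ℤ) - 1 := hz.1.2 i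
  constructor <;> omega

/-- the constant in the exponent -/
noncomputable def gam : ℝ := 1 / 10001

lemma gam_pos : 0 < gam := by unfold gam; norm_num

lemma pow_growth (d k : ℕ) : (1:ℝ) / ((1 + 1 / 10000 : ℝ) ^ d) ^ k ≤ Real.exp (-(gam * (d * k))) := by
  have h1 : Real.exp gam ≤ 1 + 1 / 10000 := by
    have h2 : 1 - gam ≤ Real.exp (-gam) := by
      have := Real.add_one_le_exp (-gam); linarith
    have h3 : 0 < 1 - gam := by unfold gam; norm_num
    have h4 : Real.exp gam ≤ 1 / (1 - gam) := by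
      rw [Real.exp_neg] at h2
      rw [le_div_iff₀ h3]
      calc Real.exp gam * (1 - gam) ≤ Real.exp gam * (Real.exp gam)⁻¹ :=
            mul_le_mul_of_nonneg_left h2 (Real.exp_pos _).le
        _ = 1 := mul_inv_cancel₀ (Real.exp_pos _).ne'
    refine h4.trans ?_
    unfold gam; norm_num
  have h5 : Real.exp (gam * (d * k)) ≤ ((1 + 1 / 10000 : ℝ) ^ d) ^ k := by
    rw [← pow_mul]
    have : gam * (d * k) = ((d * k : ℕ) : ℝ) * gam := by push_cast; ring
    rw [this, Real.exp_nat_mul]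
    exact pow_le_pow_left₀ (Real.exp_pos _).le h1 _
  rw [Real.exp_neg, one_div]
  exact inv_anti₀ (Real.exp_pos _) h5

section
variable {d : ℕ} {n : ℝ} {m : ℕ} {Ω : Type} [MeasurableSpace Ω] {P : Measure Ω}
  {X : Ω → Set (EuclideanSpace ℝ (Fin d))}

lemma event1 (hd : 2 ≤ d) (hX : IsPoissonProcess P (window d n) X) (hn : 0 < n) (hm : 0 < m) (k : ℕ)
    (hv : side d n m ^ d ≤ (1 / 50) ^ d * k) (z : Fin d → ℤ) :
    P {ω | k ≤ (X ω ∩ (Metric.closedBall (ctr (side d n m) z) ((5 / 2 * side d n m) * Real.sqrt d) ∩ window d n)).ncard}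
      ≤ ENNReal.ofReal (Real.exp (-(gam * (d * k)))) := by
  have hs := side_pos (d := d) hn hm
  set s := side d n m with hsdef
  have hvol : (volume (Metric.closedBall (ctr s z) ((5 / 2 * s) * Real.sqrt d) ∩ window d n)).toReal
      ≤ k / 4 ^ d := by
    have h1 := volume_closedBall_le (ctr s z) (ρ := 5 / 2 * s) (by positivity)
    have h2 : (volume (Metric.closedBall (ctr s z) ((5 / 2 * s) * Real.sqrt d) ∩ window d n)).toReal
      ≤ (volume (Metric.closedBall (ctr s z) ((5 / 2 * s) * Real.sqrt d))).toReal := by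
      apply ENNReal.toReal_mono
      · exact (measure_closedBall_lt_top).ne
      · exact measure_mono Set.inter_subset_left
    refine h2.trans (h1.trans ?_)
    have h3 : (5 * (5 / 2 * s)) ^ d = (25 / 2) ^ d * s ^ d := by rw [← mul_pow]; congr 1; ring
    rw [h3]
    calc (25 / 2 : ℝ) ^ d * s ^ d ≤ (25 / 2) ^ d * ((1 / 50) ^ d * k) :=
          mul_le_mul_of_nonneg_left hv (by positivity)
      _ = k / 4 ^ d := by
        rw [← mul_assoc, ← mul_pow]
        have : (25 / 2 * (1 / 50) : ℝ) = 1 / 4 := by norm_num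
        rw [this, one_div, inv_pow]; ring
  have h4d : (1:ℝ) ≤ 4 ^ d := one_le_pow₀ (by norm_num)
  have h1 := hX.tail_ge (B := Metric.closedBall (ctr s z) ((5 / 2 * s) * Real.sqrt d) ∩ window d n)
    Set.inter_subset_right (Metric.isClosed_closedBall.measurableSet.inter (measurableSet_window d n))
    hvol h4d k
  refine h1.trans (ENNReal.ofReal_le_ofReal ?_)
  have h2 : Real.exp ((k:ℝ) / 4 ^ d * (4 ^ d - 1)) ≤ Real.exp 1 ^ k := by
    rw [← Real.exp_nat_mul, mul_one]
    apply Real.exp_le_exp.2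
    rw [div_mul_eq_mul_div, div_le_iff₀ (by positivity)]
    have : (0:ℝ) ≤ k := Nat.cast_nonneg k
    nlinarith
  calc Real.exp ((k:ℝ) / 4 ^ d * (4 ^ d - 1)) / (4 ^ d) ^ k ≤ Real.exp 1 ^ k / (4 ^ d) ^ k :=
        div_le_div_of_nonneg_right h2 (by positivity)
    _ = (Real.exp 1 / 4 ^ d) ^ k := by rw [div_pow]
    _ ≤ (1 / (1 + 1 / 10000) ^ d) ^ k := by
        apply pow_le_pow_left₀ (by positivity)
        rw [div_le_div_iff₀ (by positivity) (by positivity), one_mul]
        have h3 : Real.exp 1 ≤ 2 ^ d := by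
          have h5 := Real.exp_one_lt_three
          have h6 : (2:ℝ) ^ 2 ≤ 2 ^ d := pow_le_pow_right₀ (by norm_num) hd
          linarith
        have h4 : (1 + 1 / 10000 : ℝ) ^ d ≤ 2 ^ d := pow_le_pow_left₀ (by norm_num) (by norm_num) d
        calc Real.exp 1 * (1 + 1 / 10000) ^ d ≤ 2 ^ d * 2 ^ d :=
              mul_le_mul h3 h4 (by positivity) (by positivity)
          _ = 4 ^ d := by rw [← mul_pow]; norm_num
    _ = 1 / ((1 + 1 / 10000 : ℝ) ^ d) ^ k := by rw [div_pow, one_pow]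
    _ ≤ _ := pow_growth d k

lemma event2 (hX : IsPoissonProcess P (window d n) X) (hn : 0 < n) (hm : 0 < m) (k L M0 : ℕ)
    (hv : (1 / 100) ^ d * k ≤ side d n m ^ d) (hM0 : gam * d ≤ M0 * (1 / 100) ^ d)
    {w : Fin d → ℤ} (hw : ∀ i, 0 ≤ w i ∧ w i + L ≤ m) {Z : Finset (Fin d → ℤ)} (hZ : Z ⊆ win L w)
    (hZc : Z.card = M0) :
    P {ω | (X ω ∩ region n (side d n m) m Z).ncard = 0} ≤ ENNReal.ofReal (Real.exp (-(gam * (d * k)))) := by
  rw [hX.void (region_subset _ _ _ _) (measurableSet_region _ _ _ _)]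
  apply ENNReal.ofReal_le_ofReal
  apply Real.exp_le_exp.2
  rw [volume_region hn hm Z (fun z hz => win_range hw z (hZ hz)), hZc]
  have h1 : (M0:ℝ) * ((1 / 100) ^ d * k) ≤ M0 * side d n m ^ d :=
    mul_le_mul_of_nonneg_left hv (Nat.cast_nonneg _)
  have h2 : gam * d * k ≤ M0 * (1 / 100) ^ d * k := mul_le_mul_of_nonneg_right hM0 (Nat.cast_nonneg _)
  linarith

lemma event3 (hd : 2 ≤ d) (hX : IsPoissonProcess P (window d n) X) (hn : 0 < n) (hm : 0 < m) (k : ℕ)
    (hv : (1 / 100) ^ d * k ≤ side d n m ^ d)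
    {w : Fin d → ℤ} (hw : ∀ i, 0 ≤ w i ∧ w i + (400 : ℕ) ≤ m) :
    P {ω | (X ω ∩ region n (side d n m) m (win 400 w)).ncard ≤ k}
      ≤ ENNReal.ofReal (Real.exp (-(gam * (d * k)))) := by
  have hvol : (4:ℝ) ^ d * k ≤ (volume (region n (side d n m) m (win 400 w))).toReal := by
    rw [volume_region hn hm _ (win_range hw), card_win]
    push_cast
    calc (4:ℝ) ^ d * k = 400 ^ d * ((1 / 100) ^ d * k) := by
          rw [← mul_assoc, ← mul_pow]; norm_num
      _ ≤ 400 ^ d * side d n m ^ d := mul_le_mul_of_nonneg_left hv (by positivity)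
  have h1 := hX.tail_le (region_subset _ _ _ _) (measurableSet_region n (side d n m) m (win 400 w))
    hvol (t := 1 / 2) (by norm_num) (by norm_num) k
  refine h1.trans (ENNReal.ofReal_le_ofReal ?_)
  have h2 : (1:ℝ) / (1 / 2) ^ k ≤ Real.exp k := by
    have h3 : (1:ℝ) / (1 / 2) ^ k = 2 ^ k := by rw [one_div_pow, one_div_one_div]
    rw [h3]
    have h4 : (2:ℝ) ≤ Real.exp 1 := by
      have := Real.add_one_le_exp (1:ℝ); linarith
    calc (2:ℝ) ^ k ≤ Real.exp 1 ^ k := pow_le_pow_left₀ (by norm_num) h4 k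
      _ = Real.exp k := by rw [← Real.exp_nat_mul, mul_one]
  calc Real.exp ((4:ℝ) ^ d * k * (1 / 2 - 1)) / (1 / 2) ^ k
      = Real.exp ((4:ℝ) ^ d * k * (1 / 2 - 1)) * (1 / (1 / 2) ^ k) := by ring
    _ ≤ Real.exp ((4:ℝ) ^ d * k * (1 / 2 - 1)) * Real.exp k :=
        mul_le_mul_of_nonneg_left h2 (Real.exp_pos _).le
    _ = Real.exp ((4:ℝ) ^ d * k * (1 / 2 - 1) + k) := by rw [Real.exp_add]
    _ ≤ _ := by
        apply Real.exp_le_exp.2
        have h5 : (1:ℝ) + d * 3 ≤ 4 ^ d := by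
          have := one_add_mul_le_pow (a := (3:ℝ)) (by norm_num) d
          norm_num at this
          exact this
        have hd' : (2:ℝ) ≤ d := by exact_mod_cast hd
        have h6 : gam ≤ 1 / 10 := by unfold gam; norm_num
        have h7 := gam_pos
        have h8 : (d:ℝ) * gam ≤ d * (1 / 10) := mul_le_mul_of_nonneg_left h6 (by linarith)
        have h9 : gam * d - (4:ℝ) ^ d / 2 + 1 ≤ 0 := by nlinarith
        have hk : (0:ℝ) ≤ k := Nat.cast_nonneg k
        have h10 := mul_nonneg hk (neg_nonneg.2 h9)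
        linarith

lemma event4 (hd : 2 ≤ d) (hX : IsPoissonProcess P (window d n) X) (hn : 0 < n) (hm : 0 < m)
    (k L : ℕ) (hLm : L + 1 ≤ m)
    (hv : (1 / 100) ^ d * k ≤ side d n m ^ d)
    {w : Fin d → ℤ} (hw : ∀ i, 0 ≤ w i ∧ w i + L ≤ m) {V : Finset (Fin d → ℤ)} (hV : V ⊆ win L w)
    (hVne : V.Nonempty) :
    P {ω | k ≤ (X ω ∩ region n (side d n m) m V).ncard ∧
        (X ω ∩ region n (side d n m) m (nb m V \ V)).ncard = 0}
      ≤ ENNReal.ofReal (Real.exp (-(gam * (d * k)))) := by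
  have hs := side_pos (d := d) hn hm
  have hiso := nb_card_ge m L hLm w hw V hV hVne
  have hdisj : Disjoint (region n (side d n m) m V) (region n (side d n m) m (nb m V \ V)) := by
    rw [Set.disjoint_left]
    rintro x ⟨_, h1⟩ ⟨_, h2⟩
    exact (Finset.mem_sdiff.1 h2).2 h1
  have hVr : ∀ z ∈ V, ∀ i, 0 ≤ z i ∧ z i < m := fun z hz => win_range hw z (hV hz)
  have hUr : ∀ z ∈ nb m V \ V, ∀ i, 0 ≤ z i ∧ z i < m :=
    fun z hz => nb_range z (Finset.mem_sdiff.1 hz).1
  have hUcard : (((nb m V \ V).card : ℕ) : ℝ) = (nb m V).card - V.card := by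
    rw [Finset.card_sdiff_of_subset (subset_nb hw hV), Nat.cast_sub (Finset.card_le_card (subset_nb hw hV))]
  set v := side d n m ^ d with hvdef
  have hv0 : 0 < v := by positivity
  rcases le_total (V.card : ℝ) ((10000:ℝ) ^ d) with hc | hc
  · have h1 := grow_small (by omega) (Nat.cast_nonneg _) (by norm_num : (0:ℝ) < 10000) hiso hc
    have ht : (1:ℝ) ≤ (1 + 1 / 10000) ^ d := one_le_pow₀ (by norm_num)
    have h2 := hX.pair (region_subset _ _ _ _) (region_subset _ _ _ _)
      (measurableSet_region n (side d n m) m V) (measurableSet_region n (side d n m) m (nb m V \ V))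
      hdisj ht k
    refine h2.trans (ENNReal.ofReal_le_ofReal ?_)
    rw [volume_region hn hm V hVr, volume_region hn hm _ hUr, hUcard, ← hvdef]
    set T := (1 + 1 / 10000 : ℝ) ^ d with hT
    have h3 : Real.exp (V.card * v * (T - 1)) / T ^ k * Real.exp (-(((nb m V).card - V.card) * v))
      = Real.exp (V.card * v * (T - 1) - (((nb m V).card - V.card) * v)) * (1 / T ^ k) := by
      rw [Real.exp_sub, Real.exp_neg]; ring
    rw [h3]
    have h4 : V.card * v * (T - 1) - (((nb m V).card - V.card) * v) ≤ 0 := by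
      have h5 : (V.card * T) * v ≤ (nb m V).card * v := mul_le_mul_of_nonneg_right h1 hv0.le
      linarith
    have h6 : Real.exp (V.card * v * (T - 1) - (((nb m V).card - V.card) * v)) ≤ 1 := Real.exp_le_one_iff.2 h4
    have h7 : 0 ≤ 1 / T ^ k := by positivity
    calc _ ≤ 1 * (1 / T ^ k) := mul_le_mul_of_nonneg_right h6 h7
      _ = 1 / T ^ k := one_mul _
      _ ≤ _ := pow_growth d k
  · have h1 := grow_large (by omega) (Nat.cast_nonneg _) (by norm_num : (0:ℝ) < 10000) hiso hc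
    have h2 := hX.pair (region_subset _ _ _ _) (region_subset _ _ _ _)
      (measurableSet_region n (side d n m) m V) (measurableSet_region n (side d n m) m (nb m V \ V))
      hdisj (le_refl (1:ℝ)) k
    refine h2.trans (ENNReal.ofReal_le_ofReal ?_)
    rw [volume_region hn hm V hVr, volume_region hn hm _ hUr, hUcard, ← hvdef]
    simp only [sub_self, mul_zero, Real.exp_zero, one_pow, div_one, one_mul]
    apply Real.exp_le_exp.2
    have h3 : (d:ℝ) * 10000 ^ (d - 1) * v ≤ ((nb m V).card - V.card) * v :=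
      mul_le_mul_of_nonneg_right (by linarith) hv0.le
    have h4 : (d:ℝ) * 10000 ^ (d - 1) * ((1 / 100) ^ d * k) ≤ (d:ℝ) * 10000 ^ (d - 1) * v :=
      mul_le_mul_of_nonneg_left hv (by positivity)
    have h5 : (1:ℝ) ≤ 10000 ^ (d - 1) * (1 / 100) ^ d := by
      obtain ⟨e, rfl⟩ : ∃ e, d = e + 2 := ⟨d - 2, by omega⟩
      have h6 : (10000:ℝ) ^ (e + 2 - 1) * (1 / 100) ^ (e + 2) = 100 ^ e := by
        have h7 : e + 2 - 1 = e + 1 := by omega
        rw [h7]
        have h8 : (10000:ℝ) ^ (e + 1) = 100 ^ (e + 2) * 100 ^ e := by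
          rw [← pow_add]
          have : (10000:ℝ) = 100 ^ 2 := by norm_num
          rw [this, ← pow_mul]; congr 1; omega
        rw [h8, one_div, inv_pow]
        have : (100:ℝ) ^ (e + 2) ≠ 0 := by positivity
        field_simp
      rw [h6]
      exact one_le_pow₀ (by norm_num)
    have h6 : (d:ℝ) * k ≤ (d:ℝ) * 10000 ^ (d - 1) * ((1 / 100) ^ d * k) := by
      have h7 : (d:ℝ) * 10000 ^ (d - 1) * ((1 / 100) ^ d * k) = (d * k) * (10000 ^ (d - 1) * (1 / 100) ^ d) := by ring
      rw [h7]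
      have h8 : (0:ℝ) ≤ d * k := by positivity
      nlinarith
    have h9 : gam * (d * k) ≤ d * k := by
      have h10 : gam ≤ 1 := by unfold gam; norm_num
      have h8 : (0:ℝ) ≤ d * k := by positivity
      nlinarith
    linarith

end

end Pool.Agent.Helper870.KNN
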