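import Mathlib

open MeasureTheory

namespace Pool.Agent.Helper870.KNN

/-! ### a factorial and Gamma bound -/

lemma exp_le_ratio (p : ℕ) (hp : 1 ≤ p) : Real.exp 1 * (p:ℝ) ^ (p + 1) ≤ ((p:ℝ) + 1) ^ (p + 1) := by
  have hp0 : (0:ℝ) < p := by exact_mod_cast hp
  have hx : 0 < ((p:ℝ) + 1) / p := by positivity
  have h1 := Real.one_sub_inv_le_log_of_pos hx
  have h2 : 1 - (((p:ℝ) + 1) / p)⁻¹ = 1 / (p + 1) := by
    rw [inv_div]; field_simp; ring
  rw [h2] at h1
  have h3 : 1 ≤ ((p + 1 : ℕ) : ℝ) * Real.log (((p:ℝ) + 1) / p) := by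
    push_cast
    have h4 : ((p:ℝ) + 1) * (1 / (p + 1)) = 1 := by field_simp
    calc (1:ℝ) = ((p:ℝ) + 1) * (1 / (p + 1)) := h4.symm
      _ ≤ _ := mul_le_mul_of_nonneg_left h1 (by positivity)
  have h4 : Real.exp 1 ≤ (((p:ℝ) + 1) / p) ^ (p + 1) := by
    have h5 : (((p:ℝ) + 1) / p) ^ (p + 1) = Real.exp (((p + 1 : ℕ) : ℝ) * Real.log (((p:ℝ) + 1) / p)) := by
      rw [Real.exp_nat_mul, Real.exp_log hx]
    rw [h5]
    exact Real.exp_le_exp.2 h3
  rw [div_pow, le_div_iff₀ (by positivity)] at h4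
  exact h4

lemma factorial_bound (p : ℕ) (hp : 1 ≤ p) :
    (p.factorial : ℝ) ≤ Real.exp 1 * p * (p / Real.exp 1) ^ p := by
  induction p, hp using Nat.le_induction with
  | base => simp
  | succ p hp ih =>
    rw [Nat.factorial_succ]
    push_cast
    have h1 := exp_le_ratio p hp
    have he := Real.exp_pos 1
    have h2 : (p:ℝ) * (p / Real.exp 1) ^ p ≤ (((p:ℝ) + 1) / Real.exp 1) ^ (p + 1) := by
      rw [div_pow, div_pow, mul_div_assoc', div_le_div_iff₀ (by positivity) (by positivity)]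
      calc (p:ℝ) * (p:ℝ) ^ p * Real.exp 1 ^ (p + 1)
          = (Real.exp 1 * (p:ℝ) ^ (p + 1)) * Real.exp 1 ^ p := by ring
        _ ≤ ((p:ℝ) + 1) ^ (p + 1) * Real.exp 1 ^ p := mul_le_mul_of_nonneg_right h1 (by positivity)
    calc ((p:ℝ) + 1) * (p.factorial : ℝ) ≤ ((p:ℝ) + 1) * (Real.exp 1 * p * (p / Real.exp 1) ^ p) :=
          mul_le_mul_of_nonneg_left ih (by positivity)
      _ = Real.exp 1 * (p + 1) * (p * (p / Real.exp 1) ^ p) := by ring
      _ ≤ Real.exp 1 * (p + 1) * (((p:ℝ) + 1) / Real.exp 1) ^ (p + 1) :=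
          mul_le_mul_of_nonneg_left h2 (by positivity)

lemma exp_one_sq_le : Real.exp 1 ^ 2 ≤ 8 := by
  have h := Real.exp_one_lt_d9
  have h0 := Real.exp_pos 1
  nlinarith

lemma gamma_bound (d : ℕ) (hd : 2 ≤ d) :
    (2 * Real.exp 1 / d) ^ d * Real.Gamma ((d:ℝ) / 2 + 1) ^ 2 ≤ ((d:ℝ) + 1) ^ 3 := by
  have he := Real.exp_pos 1
  have hG0 : 0 < Real.Gamma ((d:ℝ) / 2 + 1) := Real.Gamma_pos_of_pos (by positivity)
  obtain ⟨q, hq | hq⟩ := Nat.even_or_odd' d
  · -- d = 2 q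
    subst hq
    have hq1 : 1 ≤ q := by omega
    have hq0 : (0:ℝ) < q := by exact_mod_cast hq1
    have h1 : ((2 * q : ℕ) : ℝ) / 2 + 1 = (q:ℝ) + 1 := by push_cast; ring
    rw [h1, Real.Gamma_nat_eq_factorial]
    have h2 := factorial_bound q hq1
    have h3 : (q.factorial : ℝ) ^ 2 ≤ (Real.exp 1 * q * (q / Real.exp 1) ^ q) ^ 2 :=
      pow_le_pow_left₀ (Nat.cast_nonneg _) h2 2
    have h4 : (2 * Real.exp 1 / ((2 * q : ℕ) : ℝ)) ^ (2 * q) * (Real.exp 1 * q * (q / Real.exp 1) ^ q) ^ 2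
        = (Real.exp 1) ^ 2 * q ^ 2 := by
      have h5 : 2 * Real.exp 1 / ((2 * q : ℕ) : ℝ) = (q / Real.exp 1)⁻¹ := by
        push_cast; rw [inv_div]; field_simp
      rw [h5, inv_pow, mul_pow, mul_pow]
      have h6 : ((q / Real.exp 1) ^ q) ^ 2 = ((q:ℝ) / Real.exp 1) ^ (2 * q) := by
        rw [← pow_mul]; ring_nf
      rw [h6]
      have h7 : ((q:ℝ) / Real.exp 1) ^ (2 * q) ≠ 0 := by positivity
      field_simp
    calc (2 * Real.exp 1 / ((2 * q : ℕ) : ℝ)) ^ (2 * q) * (q.factorial : ℝ) ^ 2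
        ≤ (2 * Real.exp 1 / ((2 * q : ℕ) : ℝ)) ^ (2 * q) * (Real.exp 1 * q * (q / Real.exp 1) ^ q) ^ 2 :=
          mul_le_mul_of_nonneg_left h3 (by positivity)
      _ = (Real.exp 1) ^ 2 * q ^ 2 := h4
      _ ≤ 8 * q ^ 2 := mul_le_mul_of_nonneg_right exp_one_sq_le (by positivity)
      _ ≤ (((2 * q : ℕ) : ℝ) + 1) ^ 3 := by
          push_cast
          have : (1:ℝ) ≤ q := by exact_mod_cast hq1
          nlinarith [pow_pos hq0 3, pow_pos hq0 2]
  · -- d = 2 q + 1
    subst hq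
    have hq1 : 1 ≤ q := by omega
    have hq0 : (0:ℝ) < q := by exact_mod_cast hq1
    have h1 : Real.Gamma (((2 * q + 1 : ℕ) : ℝ) / 2 + 1) ≤ ((q + 1).factorial : ℝ) := by
      have h2 : ((2 * q + 1 : ℕ) : ℝ) / 2 + 1 ≤ ((q + 1 : ℕ) : ℝ) + 1 := by push_cast; linarith
      have h3 : (2:ℝ) ≤ ((2 * q + 1 : ℕ) : ℝ) / 2 + 1 := by
        have : (1:ℝ) ≤ q := by exact_mod_cast hq1
        push_cast; linarith
      have h4 := Real.Gamma_strictMonoOn_Ici.monotoneOn (Set.mem_Ici.2 h3) (Set.mem_Ici.2 (h3.trans h2)) h2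
      rw [Real.Gamma_nat_eq_factorial] at h4
      exact h4
    have h2 := factorial_bound (q + 1) (by omega)
    have h3 : Real.Gamma (((2 * q + 1 : ℕ) : ℝ) / 2 + 1) ^ 2
        ≤ (Real.exp 1 * ((q + 1 : ℕ) : ℝ) * (((q + 1 : ℕ) : ℝ) / Real.exp 1) ^ (q + 1)) ^ 2 :=
      pow_le_pow_left₀ hG0.le (h1.trans h2) 2
    set P : ℝ := ((q + 1 : ℕ) : ℝ) with hP
    have hPpos : 0 < P := by rw [hP]; positivity
    set D : ℝ := ((2 * q + 1 : ℕ) : ℝ) with hD
    have hDpos : 0 < D := by rw [hD]; positivity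
    have hDP : D + 1 = 2 * P := by rw [hD, hP]; push_cast; ring
    have h5 : (1 + 1 / D) ^ (2 * q + 1) ≤ Real.exp 1 := by
      have h6 : 1 + 1 / D ≤ Real.exp (1 / D) := by
        have := Real.add_one_le_exp (1 / D); linarith
      calc (1 + 1 / D) ^ (2 * q + 1) ≤ Real.exp (1 / D) ^ (2 * q + 1) :=
            pow_le_pow_left₀ (by positivity) h6 _
        _ = Real.exp 1 := by
          rw [← Real.exp_nat_mul]; congr 1
          rw [← hD]; field_simp
    have h4 : (2 * Real.exp 1 / D) ^ (2 * q + 1) * (Real.exp 1 * P * (P / Real.exp 1) ^ (q + 1)) ^ 2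
        = (1 + 1 / D) ^ (2 * q + 1) * (Real.exp 1 * P ^ 3) := by
      have h7 : 1 + 1 / D = 2 * P / D := by rw [← hDP]; field_simp
      have h8 : (Real.exp 1 * P * (P / Real.exp 1) ^ (q + 1)) ^ 2
          = (Real.exp 1 * P ^ 3) * (P / Real.exp 1) ^ (2 * q + 1) := by
        have h9 : (Real.exp 1 * P * (P / Real.exp 1) ^ (q + 1)) ^ 2
          = (Real.exp 1 * P) ^ 2 * ((P / Real.exp 1) ^ (2 * q + 1) * (P / Real.exp 1)) := by
          rw [mul_pow, ← pow_mul, ← pow_succ]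
          congr 2; ring
        rw [h9]
        field_simp
      have h10 : 2 * P / D = (2 * Real.exp 1 / D) * (P / Real.exp 1) := by field_simp
      rw [h8, h7, h10, mul_pow]
      ring
    calc (2 * Real.exp 1 / D) ^ (2 * q + 1) * Real.Gamma (D / 2 + 1) ^ 2
        ≤ (2 * Real.exp 1 / D) ^ (2 * q + 1) * (Real.exp 1 * P * (P / Real.exp 1) ^ (q + 1)) ^ 2 :=
          mul_le_mul_of_nonneg_left h3 (by positivity)
      _ = (1 + 1 / D) ^ (2 * q + 1) * (Real.exp 1 * P ^ 3) := h4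
      _ ≤ Real.exp 1 * (Real.exp 1 * P ^ 3) := mul_le_mul_of_nonneg_right h5 (by positivity)
      _ = Real.exp 1 ^ 2 * P ^ 3 := by ring
      _ ≤ 8 * P ^ 3 := mul_le_mul_of_nonneg_right exp_one_sq_le (by positivity)
      _ = (D + 1) ^ 3 := by rw [hDP]; ring

/-! ### one-dimensional double integrals -/

/-- the Gaussian weight on the plane -/
noncomputable def gw (a : ℝ) (x : ℝ × ℝ) : ℝ := Real.exp (-a * x.1 ^ 2) * Real.exp (-a * x.2 ^ 2)

lemma gw_pos (a : ℝ) (x : ℝ × ℝ) : 0 < gw a x := mul_pos (Real.exp_pos _) (Real.exp_pos _)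

lemma gw_integrable {a : ℝ} (ha : 0 < a) : Integrable (gw a) := by
  have := (integrable_exp_neg_mul_sq ha).mul_prod (integrable_exp_neg_mul_sq ha)
  exact this

lemma gw_integral {a : ℝ} (ha : 0 < a) : ∫ x, gw a x = Real.pi / a := by
  have h := integral_prod_mul (μ := (volume : Measure ℝ)) (ν := (volume : Measure ℝ))
    (fun s : ℝ => Real.exp (-a * s ^ 2)) (fun s : ℝ => Real.exp (-a * s ^ 2))
  rw [integral_gaussian] at h
  have hpa : 0 ≤ Real.pi / a := by have := Real.pi_pos; positivity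
  rw [Real.mul_self_sqrt hpa] at h
  exact h

lemma gw_measurable (a : ℝ) : Measurable (gw a) := by
  unfold gw; fun_prop

/-- reflection of the first coordinate -/
def refl1 (x : ℝ × ℝ) : ℝ × ℝ := (-x.1, x.2)

lemma refl1_mp : MeasurePreserving refl1 (volume : Measure (ℝ × ℝ)) volume := by
  have h := (Measure.measurePreserving_neg (volume : Measure ℝ)).prod (MeasurePreserving.id (volume : Measure ℝ))
  exact h

lemma refl1_emb : MeasurableEmbedding refl1 := by
  have : refl1 = ((MeasurableEquiv.neg ℝ).prodCongr (MeasurableEquiv.refl ℝ)) := by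
    funext x; rfl
  rw [this]
  exact MeasurableEquiv.measurableEmbedding _

lemma swap_mp : MeasurePreserving (Prod.swap : ℝ × ℝ → ℝ × ℝ) (volume : Measure (ℝ × ℝ)) volume :=
  Measure.measurePreserving_swap

lemma swap_emb : MeasurableEmbedding (Prod.swap : ℝ × ℝ → ℝ × ℝ) :=
  (MeasurableEquiv.prodComm (α := ℝ) (β := ℝ)).measurableEmbedding

/-- open region `0 < s < |t|` -/
def reg : Set (ℝ × ℝ) := {x | 0 < x.1 ∧ x.1 < |x.2|}

lemma reg_meas : MeasurableSet reg := by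
  have h1 : Measurable (fun x : ℝ × ℝ => x.1) := measurable_fst
  have h2 : Measurable (fun x : ℝ × ℝ => |x.2|) := by fun_prop
  exact (measurableSet_lt measurable_const h1).inter (measurableSet_lt h1 h2)

lemma reg_integral {a : ℝ} (ha : 0 < a) : ∫ x in reg, gw a x ≤ Real.pi / a / 4 := by
  have hint := gw_integrable ha
  -- four disjoint copies
  have e1 : ∫ x in refl1 ⁻¹' reg, gw a x = ∫ x in reg, gw a x := by
    have := refl1_mp.setIntegral_preimage_emb refl1_emb (gw a) reg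
    rw [← this]
    congr 1
    funext x; simp [gw, refl1]
  have e2 : ∫ x in Prod.swap ⁻¹' reg, gw a x = ∫ x in reg, gw a x := by
    have := swap_mp.setIntegral_preimage_emb swap_emb (gw a) reg
    rw [← this]
    congr 1
    funext x; simp [gw, mul_comm]
  have e3 : ∫ x in Prod.swap ⁻¹' (refl1 ⁻¹' reg), gw a x = ∫ x in reg, gw a x := by
    have := swap_mp.setIntegral_preimage_emb swap_emb (gw a) (refl1 ⁻¹' reg)
    rw [← e1, ← this]
    congr 1
    funext x; simp [gw, mul_comm]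
  have m0 := reg_meas
  have m1 : MeasurableSet (refl1 ⁻¹' reg) := refl1_mp.measurable reg_meas
  have m2 : MeasurableSet (Prod.swap ⁻¹' reg) := swap_mp.measurable reg_meas
  have m3 : MeasurableSet (Prod.swap ⁻¹' (refl1 ⁻¹' reg)) := swap_mp.measurable m1
  have d01 : Disjoint reg (refl1 ⁻¹' reg) := by
    rw [Set.disjoint_left]
    rintro ⟨s, t⟩ ⟨h1, h2⟩ ⟨h3, h4⟩
    simp only [refl1] at h1 h2 h3 h4
    linarith
  have d02 : Disjoint (reg ∪ refl1 ⁻¹' reg) (Prod.swap ⁻¹' reg ∪ Prod.swap ⁻¹' (refl1 ⁻¹' reg)) := by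
    rw [Set.disjoint_left]
    rintro ⟨s, t⟩ h h'
    have h1 : |s| < |t| := by
      rcases h with ⟨h1, h2⟩ | ⟨h1, h2⟩
      · simp only at h1 h2; rw [abs_of_pos h1]; exact h2
      · simp only [refl1] at h1 h2; rw [abs_of_neg (by linarith)]; exact h2
    have h2 : |t| < |s| := by
      rcases h' with ⟨h1, h2⟩ | ⟨h1, h2⟩
      · simp only [Prod.swap] at h1 h2; rw [abs_of_pos h1]; exact h2
      · simp only [Prod.swap, refl1] at h1 h2; rw [abs_of_neg (a := t) (by linarith)]; exact h2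
    linarith
  have d23 : Disjoint (Prod.swap ⁻¹' reg) (Prod.swap ⁻¹' (refl1 ⁻¹' reg)) :=
    d01.preimage _
  have hsum : ∫ x in (reg ∪ refl1 ⁻¹' reg) ∪ (Prod.swap ⁻¹' reg ∪ Prod.swap ⁻¹' (refl1 ⁻¹' reg)), gw a x
      = 4 * ∫ x in reg, gw a x := by
    rw [setIntegral_union d02 (m2.union m3) hint.integrableOn hint.integrableOn,
      setIntegral_union d01 m1 hint.integrableOn hint.integrableOn,
      setIntegral_union d23 m3 hint.integrableOn hint.integrableOn, e1, e2, e3]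
    ring
  have hle : ∫ x in (reg ∪ refl1 ⁻¹' reg) ∪ (Prod.swap ⁻¹' reg ∪ Prod.swap ⁻¹' (refl1 ⁻¹' reg)), gw a x
      ≤ ∫ x, gw a x := by
    exact setIntegral_le_integral hint (Filter.Eventually.of_forall (fun x => (gw_pos a x).le))
  rw [hsum, gw_integral ha] at hle
  linarith

/-- half plane -/
def halfp : Set (ℝ × ℝ) := {x | 0 < x.1}

lemma halfp_meas : MeasurableSet halfp := measurableSet_lt measurable_const measurable_fst

lemma halfp_integral {a : ℝ} (ha : 0 < a) : ∫ x in halfp, gw a x ≤ Real.pi / a / 2 := by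
  have hint := gw_integrable ha
  have e1 : ∫ x in refl1 ⁻¹' halfp, gw a x = ∫ x in halfp, gw a x := by
    have := refl1_mp.setIntegral_preimage_emb refl1_emb (gw a) halfp
    rw [← this]
    congr 1
    funext x; simp [gw, refl1]
  have m1 : MeasurableSet (refl1 ⁻¹' halfp) := refl1_mp.measurable halfp_meas
  have d01 : Disjoint halfp (refl1 ⁻¹' halfp) := by
    rw [Set.disjoint_left]
    rintro ⟨s, t⟩ h1 h3
    simp only [refl1, halfp, Set.mem_preimage, Set.mem_ofPred_eq] at h1 h3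
    linarith
  have hsum : ∫ x in halfp ∪ refl1 ⁻¹' halfp, gw a x = 2 * ∫ x in halfp, gw a x := by
    rw [setIntegral_union d01 m1 hint.integrableOn hint.integrableOn, e1]; ring
  have hle : ∫ x in halfp ∪ refl1 ⁻¹' halfp, gw a x ≤ ∫ x, gw a x := by
    exact setIntegral_le_integral hint (Filter.Eventually.of_forall (fun x => (gw_pos a x).le))
  rw [hsum, gw_integral ha] at hle
  linarith

lemma null_axis : (volume : Measure (ℝ × ℝ)) {x | x.1 = 0} = 0 := by
  have : {x : ℝ × ℝ | x.1 = 0} = ({0} : Set ℝ) ×ˢ (Set.univ : Set ℝ) := by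
    ext x; simp
  rw [this, Measure.volume_eq_prod, Measure.prod_prod]
  simp

/-- closed half plane -/
def halfc : Set (ℝ × ℝ) := {x | 0 ≤ x.1}

lemma halfc_meas : MeasurableSet halfc := measurableSet_le measurable_const measurable_fst

/-- half closed region -/
def regc : Set (ℝ × ℝ) := {x | 0 ≤ x.1 ∧ x.1 < |x.2|}

lemma regc_meas : MeasurableSet regc := by
  have h1 : Measurable (fun x : ℝ × ℝ => x.1) := measurable_fst
  have h2 : Measurable (fun x : ℝ × ℝ => |x.2|) := by fun_prop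
  exact (measurableSet_le measurable_const h1).inter (measurableSet_lt h1 h2)

lemma halfc_ae : halfc =ᵐ[(volume : Measure (ℝ × ℝ))] halfp := by
  have h : ∀ᵐ x : ℝ × ℝ, ¬ (x.1 = 0) := by
    rw [ae_iff]; simpa using null_axis
  filter_upwards [h] with x hx
  apply propext
  constructor
  · intro h1; exact lt_of_le_of_ne h1 (Ne.symm hx)
  · intro h1; exact le_of_lt h1

lemma regc_ae : regc =ᵐ[(volume : Measure (ℝ × ℝ))] reg := by
  have h : ∀ᵐ x : ℝ × ℝ, ¬ (x.1 = 0) := by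
    rw [ae_iff]; simpa using null_axis
  filter_upwards [h] with x hx
  apply propext
  constructor
  · intro h1; exact ⟨lt_of_le_of_ne h1.1 (Ne.symm hx), h1.2⟩
  · intro h1; exact ⟨le_of_lt h1.1, h1.2⟩

/-- the weight of one boundary coordinate: `1[0 ≤ s] (1 + 1[s < |t|])` times the Gaussian -/
noncomputable def fb (a : ℝ) (x : ℝ × ℝ) : ℝ := halfc.indicator (gw a) x + regc.indicator (gw a) x

lemma fb_integrable {a : ℝ} (ha : 0 < a) : Integrable (fb a) :=
  ((gw_integrable ha).indicator halfc_meas).add ((gw_integrable ha).indicator regc_meas)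

lemma fb_nonneg (a : ℝ) (x : ℝ × ℝ) : 0 ≤ fb a x :=
  add_nonneg (Set.indicator_nonneg (fun _ _ => (gw_pos a _).le) _)
    (Set.indicator_nonneg (fun _ _ => (gw_pos a _).le) _)

lemma fb_measurable (a : ℝ) : Measurable (fb a) :=
  ((gw_measurable a).indicator halfc_meas).add ((gw_measurable a).indicator regc_meas)

lemma fb_integral {a : ℝ} (ha : 0 < a) : ∫ x, fb a x ≤ 3 / 4 * (Real.pi / a) := by
  have h1 : ∫ x, fb a x = (∫ x in halfp, gw a x) + ∫ x in reg, gw a x := by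
    unfold fb
    rw [integral_add ((gw_integrable ha).indicator halfc_meas) ((gw_integrable ha).indicator regc_meas),
      integral_indicator halfc_meas, integral_indicator regc_meas,
      setIntegral_congr_set halfc_ae, setIntegral_congr_set regc_ae]
  rw [h1]
  have := halfp_integral ha
  have := reg_integral ha
  linarith

/-- Fubini for products of functions of pairs of coordinates -/
lemma double_lintegral {d : ℕ} (f : Fin d → ℝ × ℝ → ℝ) (hf : ∀ i, Integrable (f i))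
    (hf0 : ∀ i x, 0 ≤ f i x) (hfm : ∀ i, Measurable (f i)) :
    ∫⁻ y : EuclideanSpace ℝ (Fin d), ∫⁻ u : EuclideanSpace ℝ (Fin d),
      ENNReal.ofReal (∏ i, f i (y i, u i)) = ENNReal.ofReal (∏ i, ∫ x, f i x) := by
  have hmp := EuclideanSpace.volume_preserving_symm_measurableEquiv_toLp (Fin d)
  have hemb := (MeasurableEquiv.toLp 2 (Fin d → ℝ)).symm.measurableEmbedding
  have h1 : ∀ y : EuclideanSpace ℝ (Fin d), ∫⁻ u : EuclideanSpace ℝ (Fin d),
      ENNReal.ofReal (∏ i, f i (y i, u i)) = ∫⁻ u : Fin d → ℝ, ENNReal.ofReal (∏ i, f i (y i, u i)) := by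
    intro y
    exact hmp.lintegral_comp_emb hemb (fun u => ENNReal.ofReal (∏ i, f i (y i, u i)))
  simp_rw [h1]
  have h2 : ∫⁻ y : EuclideanSpace ℝ (Fin d), ∫⁻ u : Fin d → ℝ, ENNReal.ofReal (∏ i, f i (y i, u i))
      = ∫⁻ y : Fin d → ℝ, ∫⁻ u : Fin d → ℝ, ENNReal.ofReal (∏ i, f i (y i, u i)) :=
    hmp.lintegral_comp_emb hemb (fun y => ∫⁻ u : Fin d → ℝ, ENNReal.ofReal (∏ i, f i (y i, u i)))
  rw [h2]
  have hmeas : Measurable (fun z : (Fin d → ℝ) × (Fin d → ℝ) => ENNReal.ofReal (∏ i, f i (z.1 i, z.2 i))) := by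
    apply ENNReal.measurable_ofReal.comp
    apply Finset.measurable_fun_prod
    intro i _
    apply (hfm i).comp
    fun_prop
  have h3 := lintegral_prod (μ := (volume : Measure (Fin d → ℝ))) (ν := (volume : Measure (Fin d → ℝ)))
    (fun z : (Fin d → ℝ) × (Fin d → ℝ) => ENNReal.ofReal (∏ i, f i (z.1 i, z.2 i))) hmeas.aemeasurable
  simp only at h3
  rw [← h3, ← Measure.volume_eq_prod]
  have hmp2 := volume_measurePreserving_arrowProdEquivProdArrow ℝ ℝ (Fin d)
  have h4 := hmp2.lintegral_comp_emb (MeasurableEquiv.arrowProdEquivProdArrow ℝ ℝ (Fin d)).measurableEmbedding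
    (fun z : (Fin d → ℝ) × (Fin d → ℝ) => ENNReal.ofReal (∏ i, f i (z.1 i, z.2 i)))
  rw [← h4]
  have h5 : (fun w : Fin d → ℝ × ℝ => ENNReal.ofReal (∏ i, f i
      (((MeasurableEquiv.arrowProdEquivProdArrow ℝ ℝ (Fin d)) w).1 i,
        ((MeasurableEquiv.arrowProdEquivProdArrow ℝ ℝ (Fin d)) w).2 i)))
      = fun w : Fin d → ℝ × ℝ => ENNReal.ofReal (∏ i, f i (w i)) := by
    funext w; rfl
  rw [h5, ← ofReal_integral_eq_lintegral_ofReal]
  · rw [integral_fintype_prod_volume_eq_prod]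
  · exact Integrable.fintype_prod (fun i => hf i)
  · exact Filter.Eventually.of_forall (fun w => Finset.prod_nonneg (fun i _ => hf0 i _))

end Pool.Agent.Helper870.KNN
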