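import Mathlib
import Pool.Agent.Helper870.Prob
import Pool.Agent.Helper870.Gauss

open MeasureTheory

namespace Pool.Agent.Helper870.KNN

/-- the cone where the coordinates in `B` are nonnegative -/
def Om {d : ℕ} (B : Finset (Fin d)) : Set (EuclideanSpace ℝ (Fin d)) := {u | ∀ i ∈ B, 0 ≤ u i}

lemma Om_closed {d : ℕ} (B : Finset (Fin d)) : IsClosed (Om B) := by
  have : Om B = ⋂ i ∈ B, {u : EuclideanSpace ℝ (Fin d) | 0 ≤ u i} := by
    ext u; simp [Om]
  rw [this]
  apply isClosed_biInter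
  intro i _
  exact isClosed_le continuous_const (by fun_prop)

lemma Om_meas {d : ℕ} (B : Finset (Fin d)) : MeasurableSet (Om B) := (Om_closed B).measurableSet

/-- `q` to the number of coordinates in `B` with `y i < |u i|` -/
noncomputable def pw {d : ℕ} (B : Finset (Fin d)) (q : ℝ) (u y : EuclideanSpace ℝ (Fin d)) : ℝ :=
  ∏ i ∈ B, (if y i < |u i| then q else 1)

lemma pw_pos {d : ℕ} (B : Finset (Fin d)) {q : ℝ} (hq : 0 < q) (u y : EuclideanSpace ℝ (Fin d)) :
    0 < pw B q u y := by
  unfold pw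
  apply Finset.prod_pos
  intro i _
  split_ifs
  · exact hq
  · exact one_pos

lemma pw_mul {d : ℕ} (B : Finset (Fin d)) (u y : EuclideanSpace ℝ (Fin d)) :
    pw B (1 / 2) u y * pw B 2 u y = 1 := by
  unfold pw
  rw [← Finset.prod_mul_distrib]
  apply Finset.prod_eq_one
  intro i _
  split_ifs <;> norm_num

lemma pw_measurable {d : ℕ} (B : Finset (Fin d)) (q : ℝ) (y : EuclideanSpace ℝ (Fin d)) :
    Measurable (fun u => pw B q u y) := by
  unfold pw
  apply Finset.measurable_fun_prod
  intro i _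
  apply Measurable.ite
  · exact measurableSet_lt measurable_const (by fun_prop)
  · exact measurable_const
  · exact measurable_const

/-- flip the signs of the coordinates in `T` -/
noncomputable def flip {d : ℕ} (T : Finset (Fin d)) :
    EuclideanSpace ℝ (Fin d) ≃ₗᵢ[ℝ] EuclideanSpace ℝ (Fin d) := by
  classical
  exact LinearIsometryEquiv.piLpCongrRight 2
    (fun i => if i ∈ T then LinearIsometryEquiv.neg ℝ else LinearIsometryEquiv.refl ℝ ℝ)

lemma flip_apply {d : ℕ} (T : Finset (Fin d)) (u : EuclideanSpace ℝ (Fin d)) (i : Fin d) :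
    flip T u i = if i ∈ T then - u i else u i := by
  classical
  simp only [flip, LinearIsometryEquiv.piLpCongrRight_apply]
  split_ifs with h
  · simp
  · simp

lemma volume_flip {d : ℕ} (B T : Finset (Fin d)) (y : EuclideanSpace ℝ (Fin d)) (ρ : ℝ) :
    volume {u : EuclideanSpace ℝ (Fin d) | u ∈ Metric.closedBall 0 ρ ∧ y + flip T u ∈ Om B}
      = volume (Metric.closedBall y ρ ∩ Om B) := by
  have hmp : MeasurePreserving (fun u => y + flip T u) (volume : Measure (EuclideanSpace ℝ (Fin d))) volume :=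
    (measurePreserving_add_left volume y).comp (flip T).measurePreserving
  have hset : {u : EuclideanSpace ℝ (Fin d) | u ∈ Metric.closedBall 0 ρ ∧ y + flip T u ∈ Om B}
      = (fun u => y + flip T u) ⁻¹' (Metric.closedBall y ρ ∩ Om B) := by
    ext u
    simp only [Set.mem_preimage, Set.mem_inter_iff, Metric.mem_closedBall]
    constructor
    · rintro ⟨h1, h2⟩
      refine ⟨?_, h2⟩
      rw [dist_eq_norm, add_sub_cancel_left, LinearIsometryEquiv.norm_map]
      rwa [dist_zero_right] at h1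
    · rintro ⟨h1, h2⟩
      refine ⟨?_, h2⟩
      rw [dist_eq_norm, add_sub_cancel_left, LinearIsometryEquiv.norm_map] at h1
      rwa [dist_zero_right]
  rw [hset, hmp.measure_preimage (Metric.isClosed_closedBall.measurableSet.inter (Om_meas B)).nullMeasurableSet]

open Classical in
/-- counting good sign patterns -/
lemma count_signs {d : ℕ} (B : Finset (Fin d)) (u y : EuclideanSpace ℝ (Fin d)) (hy : y ∈ Om B) :
    (2:ℝ) ^ B.card * pw B (1 / 2) u y ≤ ((B.powerset.filter (fun T => y + flip T u ∈ Om B)).card : ℝ) := by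
  set G := B.filter (fun i => ¬ (y i < |u i|)) with hG
  set W := (B.filter (fun i => y i < |u i|)).filter (fun i => u i < 0) with hW
  have h1 : (2:ℝ) ^ B.card * pw B (1 / 2) u y = (2:ℝ) ^ G.card := by
    unfold pw
    rw [Finset.prod_ite, Finset.prod_const, Finset.prod_const_one, mul_one]
    have h2 : B.card = (B.filter (fun i => y i < |u i|)).card + G.card := by
      rw [hG, Finset.card_filter_add_card_filter_not]
    rw [h2, pow_add, one_div, inv_pow]
    have : (2:ℝ) ^ (B.filter (fun i => y i < |u i|)).card ≠ 0 := by positivity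
    field_simp
  rw [h1]
  have h2 : (G.powerset.image (fun T => T ∪ W)) ⊆ B.powerset.filter (fun T => y + flip T u ∈ Om B) := by
    intro T hT
    rw [Finset.mem_image] at hT
    obtain ⟨T', hT', rfl⟩ := hT
    rw [Finset.mem_powerset] at hT'
    rw [Finset.mem_filter, Finset.mem_powerset]
    constructor
    · apply Finset.union_subset (hT'.trans (Finset.filter_subset _ _))
      exact (Finset.filter_subset _ _).trans (Finset.filter_subset _ _)
    · intro i hi
      have hyi := hy i hi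
      change 0 ≤ y i + flip (T' ∪ W) u i
      rw [flip_apply]
      by_cases hG' : y i < |u i|
      · have hiT' : i ∉ T' := by
          intro h
          have := hT' h
          rw [hG, Finset.mem_filter] at this
          exact this.2 hG'
        by_cases hneg : u i < 0
        · have : i ∈ T' ∪ W := by
            rw [Finset.mem_union]; right
            rw [hW, Finset.mem_filter, Finset.mem_filter]
            exact ⟨⟨hi, hG'⟩, hneg⟩
          rw [if_pos this]; linarith
        · have : i ∉ T' ∪ W := by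
            rw [Finset.mem_union]
            rintro (h | h)
            · exact hiT' h
            · rw [hW, Finset.mem_filter] at h; exact hneg h.2
          rw [if_neg this]; linarith
      · rw [not_lt] at hG'
        have := abs_le.1 hG'
        split_ifs <;> linarith
  have h3 : (G.powerset.image (fun T => T ∪ W)).card = 2 ^ G.card := by
    rw [Finset.card_image_of_injOn, Finset.card_powerset]
    intro T1 hT1 T2 hT2 h12
    rw [Finset.mem_coe, Finset.mem_powerset] at hT1 hT2
    simp only at h12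
    have hGW : ∀ i ∈ G, i ∉ W := by
      intro i hi hiW
      rw [hG, Finset.mem_filter] at hi
      rw [hW, Finset.mem_filter, Finset.mem_filter] at hiW
      exact hi.2 hiW.1.2
    ext i
    constructor
    · intro hi
      have : i ∈ T2 ∪ W := by rw [← h12]; exact Finset.mem_union_left _ hi
      rcases Finset.mem_union.1 this with h | h
      · exact h
      · exact absurd h (hGW i (hT1 hi))
    · intro hi
      have : i ∈ T1 ∪ W := by rw [h12]; exact Finset.mem_union_left _ hi
      rcases Finset.mem_union.1 this with h | h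
      · exact h
      · exact absurd h (hGW i (hT2 hi))
  have h4 := Finset.card_le_card h2
  rw [h3] at h4
  exact_mod_cast h4

/-- symmetrisation -/
lemma sym_le {d : ℕ} (B : Finset (Fin d)) (y : EuclideanSpace ℝ (Fin d)) (hy : y ∈ Om B) (ρ : ℝ) :
    ∫⁻ u in Metric.closedBall (0 : EuclideanSpace ℝ (Fin d)) ρ, ENNReal.ofReal (pw B (1 / 2) u y)
      ≤ volume (Metric.closedBall y ρ ∩ Om B) := by
  classical
  set K := Metric.closedBall (0 : EuclideanSpace ℝ (Fin d)) ρ with hK
  have hKm : MeasurableSet K := Metric.isClosed_closedBall.measurableSet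
  have hmeasT : ∀ T : Finset (Fin d), MeasurableSet {u : EuclideanSpace ℝ (Fin d) | y + flip T u ∈ Om B} := by
    intro T
    have hc : Continuous (fun u => y + flip T u) := continuous_const.add (flip T).continuous
    exact (Om_meas B).preimage hc.measurable
  have h1 : ∀ T : Finset (Fin d), ∫⁻ u in K, ({u : EuclideanSpace ℝ (Fin d) | y + flip T u ∈ Om B}.indicator 1 u : ENNReal)
      = volume (Metric.closedBall y ρ ∩ Om B) := by
    intro T
    rw [lintegral_indicator_one (hmeasT T), Measure.restrict_apply (hmeasT T), ← volume_flip B T y ρ]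
    congr 1
    ext u
    simp only [Set.mem_inter_iff]
    constructor
    · rintro ⟨a, b⟩; exact ⟨b, a⟩
    · rintro ⟨a, b⟩; exact ⟨b, a⟩
  have h2 : (2:ENNReal) ^ B.card * ∫⁻ u in K, ENNReal.ofReal (pw B (1 / 2) u y)
      ≤ ∑ T ∈ B.powerset, ∫⁻ u in K, ({u : EuclideanSpace ℝ (Fin d) | y + flip T u ∈ Om B}.indicator 1 u : ENNReal) := by
    rw [← lintegral_finsetSum' _ (fun T _ => ((measurable_one.indicator (hmeasT T)).aemeasurable)),
      ← lintegral_const_mul' _ _ (by simp)]
    apply lintegral_mono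
    intro u
    have h3 := count_signs B u y hy
    have h4 : ∑ T ∈ B.powerset, ({u : EuclideanSpace ℝ (Fin d) | y + flip T u ∈ Om B}.indicator 1 u : ENNReal)
      = ((B.powerset.filter (fun T => y + flip T u ∈ Om B)).card : ENNReal) := by
      rw [Finset.card_filter]
      push_cast
      apply Finset.sum_congr rfl
      intro T _
      rw [Set.indicator_apply]
      rfl
    simp only
    rw [h4]
    have h5 : (2:ENNReal) ^ B.card * ENNReal.ofReal (pw B (1 / 2) u y)
      = ENNReal.ofReal ((2:ℝ) ^ B.card * pw B (1 / 2) u y) := by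
      rw [ENNReal.ofReal_mul (by positivity), ENNReal.ofReal_pow (by norm_num)]
      simp
    rw [h5, ← ENNReal.ofReal_natCast]
    exact ENNReal.ofReal_le_ofReal h3
  rw [Finset.sum_congr rfl (fun T _ => h1 T), Finset.sum_const, Finset.card_powerset, nsmul_eq_mul] at h2
  push_cast at h2
  have h2pos : (2:ENNReal) ^ B.card ≠ 0 := by positivity
  have h2fin : (2:ENNReal) ^ B.card ≠ ⊤ := by simp
  exact (ENNReal.mul_le_mul_iff_right h2pos h2fin).1 h2

lemma ball_volume_pos {d : ℕ} {ρ : ℝ} (hρ : 0 < ρ) :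
    0 < (volume (Metric.closedBall (0 : EuclideanSpace ℝ (Fin d)) ρ)).toReal :=
  ENNReal.toReal_pos (Metric.measure_closedBall_pos volume _ hρ).ne' measure_closedBall_lt_top.ne

/-- a point whose truncated ball is small has a large moment integral -/
lemma moment_lower {d : ℕ} (B : Finset (Fin d)) (y : EuclideanSpace ℝ (Fin d)) (hy : y ∈ Om B)
    {ρ θ : ℝ} (hρ : 0 < ρ) (hθ : 0 < θ)
    (hbad : volume (Metric.closedBall y ρ ∩ Om B) ≤ ENNReal.ofReal θ) :
    1 ≤ ENNReal.ofReal (θ / (volume (Metric.closedBall (0 : EuclideanSpace ℝ (Fin d)) ρ)).toReal ^ 2) *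
      ∫⁻ u in Metric.closedBall (0 : EuclideanSpace ℝ (Fin d)) ρ, ENNReal.ofReal (pw B 2 u y) := by
  set K := Metric.closedBall (0 : EuclideanSpace ℝ (Fin d)) ρ with hK
  set V1 := (volume K).toReal with hV1
  have hV1pos : 0 < V1 := ball_volume_pos hρ
  have hVK : volume K = ENNReal.ofReal V1 := (ENNReal.ofReal_toReal measure_closedBall_lt_top.ne).symm
  set l : ℝ := V1 / θ with hl
  have hlpos : 0 < l := by positivity
  set F := ∫⁻ u in K, ENNReal.ofReal (pw B (1 / 2) u y) with hF
  set G := ∫⁻ u in K, ENNReal.ofReal (pw B 2 u y) with hG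
  have hFle : F ≤ ENNReal.ofReal θ := (sym_le B y hy ρ).trans hbad
  have h1 : 2 * ENNReal.ofReal V1 ≤ ENNReal.ofReal l * F + ENNReal.ofReal l⁻¹ * G := by
    have e1 : 2 * ENNReal.ofReal V1 = ∫⁻ _u in K, 2 := by
      rw [setLIntegral_const, hVK]
    have e2 : ENNReal.ofReal l * F = ∫⁻ u in K, ENNReal.ofReal l * ENNReal.ofReal (pw B (1 / 2) u y) := by
      rw [lintegral_const_mul' _ _ ENNReal.ofReal_ne_top]
    have e3 : ENNReal.ofReal l⁻¹ * G = ∫⁻ u in K, ENNReal.ofReal l⁻¹ * ENNReal.ofReal (pw B 2 u y) := by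
      rw [lintegral_const_mul' _ _ ENNReal.ofReal_ne_top]
    rw [e1, e2, e3, ← lintegral_add_left]
    · apply lintegral_mono
      intro u
      simp only
      rw [← ENNReal.ofReal_mul hlpos.le, ← ENNReal.ofReal_mul (by positivity),
        ← ENNReal.ofReal_add (by have := pw_pos B (by norm_num : (0:ℝ) < 1 / 2) u y; positivity)
          (by have := pw_pos B (by norm_num : (0:ℝ) < 2) u y; positivity)]
      have e4 : (2:ENNReal) = ENNReal.ofReal 2 := by simp
      rw [e4]
      apply ENNReal.ofReal_le_ofReal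
      set p := l * pw B (1 / 2) u y with hp
      set q := l⁻¹ * pw B 2 u y with hq
      have hp0 : 0 < p := mul_pos hlpos (pw_pos B (by norm_num) u y)
      have hq0 : 0 < q := mul_pos (inv_pos.2 hlpos) (pw_pos B (by norm_num) u y)
      have hpq : p * q = 1 := by
        have := pw_mul B u y
        calc p * q = (l * l⁻¹) * (pw B (1 / 2) u y * pw B 2 u y) := by rw [hp, hq]; ring
          _ = 1 := by rw [this, mul_inv_cancel₀ hlpos.ne', one_mul]
      nlinarith [sq_nonneg (p - q)]
    · exact (measurable_const.mul (ENNReal.measurable_ofReal.comp (pw_measurable B (1/2) y)))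
  have h2 : ENNReal.ofReal l * F ≤ ENNReal.ofReal V1 := by
    calc ENNReal.ofReal l * F ≤ ENNReal.ofReal l * ENNReal.ofReal θ := by gcongr
      _ = ENNReal.ofReal V1 := by
        rw [← ENNReal.ofReal_mul hlpos.le]; congr 1; rw [hl]; field_simp
  have h3 : ENNReal.ofReal V1 ≤ ENNReal.ofReal l⁻¹ * G := by
    have h4 : ENNReal.ofReal V1 + ENNReal.ofReal V1 ≤ ENNReal.ofReal V1 + ENNReal.ofReal l⁻¹ * G := by
      rw [← two_mul]
      exact h1.trans (add_le_add_left h2 _)
    exact (ENNReal.add_le_add_iff_left ENNReal.ofReal_ne_top).1 h4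
  have h5 : ENNReal.ofReal V1⁻¹ * ENNReal.ofReal V1 = 1 := by
    rw [← ENNReal.ofReal_mul (by positivity), inv_mul_cancel₀ hV1pos.ne']; simp
  calc (1:ENNReal) = ENNReal.ofReal V1⁻¹ * ENNReal.ofReal V1 := h5.symm
    _ ≤ ENNReal.ofReal V1⁻¹ * (ENNReal.ofReal l⁻¹ * G) := by gcongr
    _ = ENNReal.ofReal (θ / V1 ^ 2) * G := by
      rw [← mul_assoc, ← ENNReal.ofReal_mul (by positivity)]
      congr 2
      rw [hl]; field_simp

/-- the product weights -/
noncomputable def fac {d : ℕ} (B : Finset (Fin d)) (a : ℝ) (i : Fin d) : ℝ × ℝ → ℝ := by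
  classical
  exact if i ∈ B then fb a else gw a

lemma norm_sq_sum {d : ℕ} (u : EuclideanSpace ℝ (Fin d)) : ‖u‖ ^ 2 = ∑ i, u i ^ 2 := by
  rw [EuclideanSpace.norm_sq_eq]
  simp

lemma prod_fac {d : ℕ} (B : Finset (Fin d)) (a : ℝ) (u y : EuclideanSpace ℝ (Fin d)) (hy : y ∈ Om B) :
    ∏ i, fac B a i (y i, u i) = Real.exp (-(a * ‖y‖ ^ 2)) * Real.exp (-(a * ‖u‖ ^ 2)) * pw B 2 u y := by
  classical
  have h1 : ∀ i, fac B a i (y i, u i) = gw a (y i, u i) * (if i ∈ B then (if y i < |u i| then 2 else 1) else 1) := by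
    intro i
    unfold fac
    by_cases hi : i ∈ B
    · rw [if_pos hi, if_pos hi]
      have hyi := hy i hi
      unfold fb
      have h2 : (y i, u i) ∈ halfc := hyi
      rw [Set.indicator_of_mem h2]
      by_cases hlt : y i < |u i|
      · have h3 : (y i, u i) ∈ regc := ⟨hyi, hlt⟩
        rw [Set.indicator_of_mem h3, if_pos hlt]; ring
      · have h3 : (y i, u i) ∉ regc := fun h => hlt h.2
        rw [Set.indicator_of_notMem h3, if_neg hlt]; ring
    · rw [if_neg hi, if_neg hi, mul_one]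
  rw [Finset.prod_congr rfl (fun i _ => h1 i), Finset.prod_mul_distrib]
  congr 1
  · have h2 : ∀ i, gw a (y i, u i) = Real.exp (-a * y i ^ 2) * Real.exp (-a * u i ^ 2) := fun i => rfl
    rw [Finset.prod_congr rfl (fun i _ => h2 i), Finset.prod_mul_distrib, ← Real.exp_sum, ← Real.exp_sum,
      ← Finset.mul_sum, ← Finset.mul_sum, ← norm_sq_sum, ← norm_sq_sum]
    congr 2 <;> ring
  · unfold pw
    rw [Finset.prod_ite_mem]
    simp

lemma integral_fac {d : ℕ} (B : Finset (Fin d)) {a : ℝ} (ha : 0 < a) :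
    ∏ i, ∫ x, fac B a i x ≤ (Real.pi / a) ^ d * (3 / 4) ^ B.card := by
  classical
  have hpa : 0 ≤ Real.pi / a := by have := Real.pi_pos; positivity
  have h1 : ∀ i, ∫ x, fac B a i x ≤ (Real.pi / a) * (if i ∈ B then 3 / 4 else 1) := by
    intro i
    unfold fac
    by_cases hi : i ∈ B
    · rw [if_pos hi, if_pos hi]
      have := fb_integral ha
      linarith
    · rw [if_neg hi, if_neg hi, gw_integral ha, mul_one]
  calc ∏ i, ∫ x, fac B a i x ≤ ∏ i : Fin d, ((Real.pi / a) * (if i ∈ B then 3 / 4 else 1)) := by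
        apply Finset.prod_le_prod
        · intro i _
          apply integral_nonneg
          intro x
          unfold fac
          split_ifs
          · exact fb_nonneg a x
          · exact (gw_pos a x).le
        · intro i _; exact h1 i
    _ = (Real.pi / a) ^ d * (3 / 4) ^ B.card := by
        rw [Finset.prod_mul_distrib, Finset.prod_const, Finset.card_univ, Fintype.card_fin,
          Finset.prod_ite_mem, Finset.univ_inter, Finset.prod_const]

/-- volume of the set of bad points -/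
theorem bad_volume {d : ℕ} (B : Finset (Fin d)) {ρ θ R a : ℝ} (hρ : 0 < ρ) (hρR : ρ ≤ R) (hθ : 0 < θ)
    (ha : 0 < a) {A : Set (EuclideanSpace ℝ (Fin d))} (hA : MeasurableSet A)
    (hAsub : ∀ y ∈ A, y ∈ Om B ∧ ‖y‖ ≤ R ∧
      volume (Metric.closedBall y ρ ∩ Om B) ≤ ENNReal.ofReal θ) :
    volume A ≤ ENNReal.ofReal (θ / (volume (Metric.closedBall (0 : EuclideanSpace ℝ (Fin d)) ρ)).toReal ^ 2 *
      (Real.exp (2 * a * R ^ 2) * ((Real.pi / a) ^ d * (3 / 4) ^ B.card))) := by
  classical
  set K := Metric.closedBall (0 : EuclideanSpace ℝ (Fin d)) ρ with hK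
  have hKm : MeasurableSet K := Metric.isClosed_closedBall.measurableSet
  set V1 := (volume K).toReal with hV1
  have hV1pos : 0 < V1 := ball_volume_pos hρ
  have hR : 0 < R := lt_of_lt_of_le hρ hρR
  have hfacint : ∀ i, Integrable (fac B a i) := by
    intro i; unfold fac; split_ifs
    · exact fb_integrable ha
    · exact gw_integrable ha
  have hfacnn : ∀ i x, 0 ≤ fac B a i x := by
    intro i x; unfold fac; split_ifs
    · exact fb_nonneg a x
    · exact (gw_pos a x).le
  have hfacm : ∀ i, Measurable (fac B a i) := by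
    intro i; unfold fac; split_ifs
    · exact fb_measurable a
    · exact gw_measurable a
  have hinner : ∀ y ∈ A, ∫⁻ u in K, ENNReal.ofReal (pw B 2 u y)
      ≤ ∫⁻ u : EuclideanSpace ℝ (Fin d), ENNReal.ofReal (Real.exp (2 * a * R ^ 2)) *
        ENNReal.ofReal (∏ i, fac B a i (y i, u i)) := by
    intro y hy
    obtain ⟨hyOm, hyR, _⟩ := hAsub y hy
    refine le_trans ?_ (setLIntegral_le_lintegral K _)
    apply setLIntegral_mono' hKm
    intro u hu
    rw [prod_fac B a u y hyOm, ← ENNReal.ofReal_mul (Real.exp_pos _).le]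
    apply ENNReal.ofReal_le_ofReal
    rw [mem_closedBall_zero_iff] at hu
    have h1 : ‖u‖ ^ 2 ≤ R ^ 2 := pow_le_pow_left₀ (norm_nonneg _) (hu.trans hρR) 2
    have h2 : ‖y‖ ^ 2 ≤ R ^ 2 := pow_le_pow_left₀ (norm_nonneg _) hyR 2
    have h3 : 1 ≤ Real.exp (2 * a * R ^ 2) * (Real.exp (-(a * ‖y‖ ^ 2)) * Real.exp (-(a * ‖u‖ ^ 2))) := by
      rw [← Real.exp_add, ← Real.exp_add]
      apply Real.one_le_exp
      nlinarith
    have h4 := (pw_pos B (by norm_num : (0:ℝ) < 2) u y).le
    calc pw B 2 u y = 1 * pw B 2 u y := (one_mul _).symm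
      _ ≤ Real.exp (2 * a * R ^ 2) * (Real.exp (-(a * ‖y‖ ^ 2)) * Real.exp (-(a * ‖u‖ ^ 2))) * pw B 2 u y :=
        mul_le_mul_of_nonneg_right h3 h4
      _ = _ := by ring
  calc volume A = ∫⁻ _y in A, 1 := by rw [setLIntegral_one]
    _ ≤ ∫⁻ y in A, ENNReal.ofReal (θ / V1 ^ 2) *
        ∫⁻ u : EuclideanSpace ℝ (Fin d), ENNReal.ofReal (Real.exp (2 * a * R ^ 2)) *
          ENNReal.ofReal (∏ i, fac B a i (y i, u i)) := by
        apply setLIntegral_mono' hA
        intro y hy
        obtain ⟨hyOm, hyR, hyb⟩ := hAsub y hy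
        exact (moment_lower B y hyOm hρ hθ hyb).trans (mul_le_mul' le_rfl (hinner y hy))
    _ ≤ ∫⁻ y : EuclideanSpace ℝ (Fin d), ENNReal.ofReal (θ / V1 ^ 2) *
        ∫⁻ u : EuclideanSpace ℝ (Fin d), ENNReal.ofReal (Real.exp (2 * a * R ^ 2)) *
          ENNReal.ofReal (∏ i, fac B a i (y i, u i)) := setLIntegral_le_lintegral A _
    _ = ENNReal.ofReal (θ / V1 ^ 2) * (ENNReal.ofReal (Real.exp (2 * a * R ^ 2)) *
        ENNReal.ofReal (∏ i, ∫ x, fac B a i x)) := by
        rw [lintegral_const_mul' _ _ ENNReal.ofReal_ne_top]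
        congr 1
        have : ∀ y : EuclideanSpace ℝ (Fin d), ∫⁻ u : EuclideanSpace ℝ (Fin d),
            ENNReal.ofReal (Real.exp (2 * a * R ^ 2)) * ENNReal.ofReal (∏ i, fac B a i (y i, u i))
            = ENNReal.ofReal (Real.exp (2 * a * R ^ 2)) *
              ∫⁻ u : EuclideanSpace ℝ (Fin d), ENNReal.ofReal (∏ i, fac B a i (y i, u i)) :=
          fun y => lintegral_const_mul' _ _ ENNReal.ofReal_ne_top
        simp_rw [this]
        rw [lintegral_const_mul' _ _ ENNReal.ofReal_ne_top,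
          double_lintegral (fac B a) hfacint hfacnn hfacm]
    _ ≤ ENNReal.ofReal (θ / V1 ^ 2) * (ENNReal.ofReal (Real.exp (2 * a * R ^ 2)) *
        ENNReal.ofReal ((Real.pi / a) ^ d * (3 / 4) ^ B.card)) := by
        gcongr
        exact integral_fac B ha
    _ = _ := by
        rw [← ENNReal.ofReal_mul (Real.exp_pos _).le, ← ENNReal.ofReal_mul (by positivity)]

/-- the final form: the bad volume is at most `θ (3/4)^|B| (R/ρ)^(2d) (d+1)^3` -/
theorem bad_volume' {d : ℕ} (hd : 2 ≤ d) (B : Finset (Fin d)) {ρ θ R : ℝ} (hρ : 0 < ρ) (hρR : ρ ≤ R)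
    (hθ : 0 < θ) {A : Set (EuclideanSpace ℝ (Fin d))} (hA : MeasurableSet A)
    (hAsub : ∀ y ∈ A, y ∈ Om B ∧ ‖y‖ ≤ R ∧
      volume (Metric.closedBall y ρ ∩ Om B) ≤ ENNReal.ofReal θ) :
    volume A ≤ ENNReal.ofReal (θ * ((3 / 4) ^ B.card * (R / ρ) ^ (2 * d) * ((d:ℝ) + 1) ^ 3)) := by
  have hR : 0 < R := lt_of_lt_of_le hρ hρR
  have hd0 : (0:ℝ) < d := by positivity
  have hπ := Real.pi_pos
  set a : ℝ := d / (2 * R ^ 2) with ha
  have ha0 : 0 < a := by positivity
  refine (bad_volume B hρ hρR hθ ha0 hA hAsub).trans (ENNReal.ofReal_le_ofReal ?_)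
  have : Nonempty (Fin d) := ⟨⟨0, by omega⟩⟩
  have hV : (volume (Metric.closedBall (0 : EuclideanSpace ℝ (Fin d)) ρ)).toReal
      = ρ ^ d * (Real.sqrt Real.pi ^ d / Real.Gamma ((d:ℝ) / 2 + 1)) := by
    rw [EuclideanSpace.volume_closedBall, ENNReal.toReal_mul, ENNReal.toReal_pow,
      ENNReal.toReal_ofReal hρ.le, ENNReal.toReal_ofReal, Fintype.card_fin]
    have : 0 < Real.Gamma (((Fintype.card (Fin d) : ℕ) : ℝ) / 2 + 1) :=
      Real.Gamma_pos_of_pos (by positivity)
    positivity
  have hG := gamma_bound d hd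
  have hG0 : 0 < Real.Gamma ((d:ℝ) / 2 + 1) := Real.Gamma_pos_of_pos (by positivity)
  have h1 : 2 * a * R ^ 2 = d := by rw [ha]; field_simp
  have h2 : Real.exp (2 * a * R ^ 2) = Real.exp 1 ^ d := by
    rw [h1, ← Real.exp_nat_mul, mul_one]
  have h3 : Real.pi / a = 2 * Real.pi * R ^ 2 / d := by rw [ha]; field_simp
  rw [hV, h2, h3]
  have h4 : (ρ ^ d * (Real.sqrt Real.pi ^ d / Real.Gamma ((d:ℝ) / 2 + 1))) ^ 2
      = ρ ^ (2 * d) * Real.pi ^ d / Real.Gamma ((d:ℝ) / 2 + 1) ^ 2 := by
    rw [mul_pow, div_pow, ← pow_mul, ← pow_mul, mul_comm d 2, pow_mul (Real.sqrt Real.pi) 2 d,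
      Real.sq_sqrt hπ.le]
    ring
  rw [h4]
  have h5 : θ / (ρ ^ (2 * d) * Real.pi ^ d / Real.Gamma ((d:ℝ) / 2 + 1) ^ 2) *
      (Real.exp 1 ^ d * ((2 * Real.pi * R ^ 2 / d) ^ d * (3 / 4) ^ B.card))
      = θ * ((3 / 4) ^ B.card * (R / ρ) ^ (2 * d) *
        ((2 * Real.exp 1 / d) ^ d * Real.Gamma ((d:ℝ) / 2 + 1) ^ 2)) := by
    have h6 : Real.exp 1 ^ d * ((2 * Real.pi * R ^ 2 / d) ^ d * (3 / 4) ^ B.card)
        = (2 * Real.exp 1 / d) ^ d * Real.pi ^ d * R ^ (2 * d) * (3 / 4) ^ B.card := by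
      have h7 : Real.exp 1 * (2 * Real.pi * R ^ 2 / d) = (2 * Real.exp 1 / d) * Real.pi * R ^ 2 := by ring
      rw [← mul_assoc, ← mul_pow, h7, mul_pow, mul_pow, ← pow_mul R 2 d]
    rw [h6, div_pow R ρ]
    set Ga := Real.Gamma ((d:ℝ) / 2 + 1) ^ 2 with hGa
    have hGa0 : Ga ≠ 0 := by rw [hGa]; positivity
    have hpi0 : Real.pi ^ d ≠ 0 := by positivity
    have hr0 : ρ ^ (2 * d) ≠ 0 := by positivity
    generalize (2 * Real.exp 1 / (d:ℝ)) ^ d = E1
    generalize (3 / 4 : ℝ) ^ B.card = E2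
    field_simp
  rw [h5]
  apply mul_le_mul_of_nonneg_left _ hθ.le
  apply mul_le_mul_of_nonneg_left hG (by positivity)

end Pool.Agent.Helper870.KNN
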