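import Mathlib
import Pool.Agent.Helper870.Sym

open MeasureTheory

namespace Pool.Agent.Helper870.KNN

open scoped Pointwise

section cone
variable {d : ℕ} (B : Finset (Fin d))

/-- the truncated cone of radius `s` -/
def tc (s : ℝ) : Set (EuclideanSpace ℝ (Fin d)) := Metric.closedBall 0 s ∩ Om B

lemma tc_meas (s : ℝ) : MeasurableSet (tc B s) :=
  Metric.isClosed_closedBall.measurableSet.inter (Om_meas B)

lemma tc_finite (s : ℝ) : volume (tc B s) ≠ ⊤ :=
  ((measure_mono Set.inter_subset_left).trans_lt measure_closedBall_lt_top).ne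

/-- volume of the unit truncated cone -/
noncomputable def V0 : ℝ := (volume (tc B 1)).toReal

lemma Om_smul {s : ℝ} (hs : 0 ≤ s) {u : EuclideanSpace ℝ (Fin d)} (hu : u ∈ Om B) : s • u ∈ Om B := by
  intro i hi
  have := hu i hi
  change 0 ≤ s * u i
  positivity

lemma Om_add {u v : EuclideanSpace ℝ (Fin d)} (hu : u ∈ Om B) (hv : v ∈ Om B) : u + v ∈ Om B := by
  intro i hi
  exact add_nonneg (hu i hi) (hv i hi)

lemma volume_tc {s : ℝ} (hs : 0 < s) : volume (tc B s) = ENNReal.ofReal (s ^ d * V0 B) := by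
  have h1 : tc B s = s • tc B 1 := by
    ext u
    rw [Set.mem_smul_set_iff_inv_smul_mem₀ hs.ne']
    constructor
    · rintro ⟨h1, h2⟩
      refine ⟨?_, Om_smul B (by positivity) h2⟩
      rw [mem_closedBall_zero_iff] at h1 ⊢
      rw [norm_smul, Real.norm_of_nonneg (by positivity), inv_mul_le_iff₀ hs, mul_one]
      exact h1
    · rintro ⟨h1, h2⟩
      have h3 : u = s • (s⁻¹ • u) := by rw [smul_smul, mul_inv_cancel₀ hs.ne', one_smul]
      refine ⟨?_, ?_⟩
      · rw [mem_closedBall_zero_iff] at h1 ⊢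
        rw [norm_smul, Real.norm_of_nonneg (by positivity), inv_mul_le_iff₀ hs, mul_one] at h1
        exact h1
      · rw [h3]; exact Om_smul B hs.le h2
  rw [h1, Measure.addHaar_smul, finrank_euclideanSpace_fin, abs_of_pos (by positivity), V0,
    ENNReal.ofReal_mul (by positivity), ENNReal.ofReal_toReal (tc_finite B 1)]

lemma V0_nonneg : 0 ≤ V0 B := ENNReal.toReal_nonneg

lemma V0_pos : 0 < V0 B := by
  apply ENNReal.toReal_pos _ (tc_finite B 1)
  have h1 := sym_le B 0 (by intro i _; simp) 1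
  have h2 : ENNReal.ofReal ((1 / 2) ^ B.card) * volume (Metric.closedBall (0 : EuclideanSpace ℝ (Fin d)) 1)
      ≤ ∫⁻ u in Metric.closedBall (0 : EuclideanSpace ℝ (Fin d)) 1, ENNReal.ofReal (pw B (1 / 2) u 0) := by
    rw [← setLIntegral_const]
    apply lintegral_mono
    intro u
    apply ENNReal.ofReal_le_ofReal
    unfold pw
    rw [← Finset.prod_const]
    apply Finset.prod_le_prod
    · intro i _; norm_num
    · intro i _; split_ifs <;> norm_num
  have h3 : 0 < ENNReal.ofReal ((1 / 2) ^ B.card) * volume (Metric.closedBall (0 : EuclideanSpace ℝ (Fin d)) 1) := by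
    apply ENNReal.mul_pos
    · simp
    · exact (Metric.measure_closedBall_pos volume _ one_pos).ne'
  exact (lt_of_lt_of_le h3 (h2.trans h1)).ne'

lemma V0_le (hd : 1 ≤ d) : V0 B ≤ (5 / Real.sqrt d) ^ d := by
  have hsd : 0 < Real.sqrt d := Real.sqrt_pos.2 (by exact_mod_cast hd)
  have h1 := volume_closedBall_le (0 : EuclideanSpace ℝ (Fin d)) (ρ := 1 / Real.sqrt d) (by positivity)
  have h2 : 1 / Real.sqrt d * Real.sqrt d = 1 := by field_simp
  rw [h2] at h1
  calc V0 B ≤ (volume (Metric.closedBall (0 : EuclideanSpace ℝ (Fin d)) 1)).toReal := by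
        apply ENNReal.toReal_mono measure_closedBall_lt_top.ne
        exact measure_mono Set.inter_subset_left
    _ ≤ (5 * (1 / Real.sqrt d)) ^ d := h1
    _ = _ := by congr 1; ring

lemma volume_ball_Om_ge {y : EuclideanSpace ℝ (Fin d)} (hy : y ∈ Om B) {s : ℝ} (hs : 0 < s) :
    ENNReal.ofReal (s ^ d * V0 B) ≤ volume (Metric.closedBall y s ∩ Om B) := by
  rw [← volume_tc B hs, ← measure_preimage_add volume y (Metric.closedBall y s ∩ Om B)]
  apply measure_mono
  rintro u ⟨h2, h3⟩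
  refine ⟨?_, Om_add B hy h3⟩
  rw [Metric.mem_closedBall, dist_eq_norm, add_sub_cancel_left]
  rwa [mem_closedBall_zero_iff] at h2

end cone

/-- radius of the small cluster -/
noncomputable def tau : ℝ := 1 / 400
/-- mesh -/
noncomputable def eta : ℝ := 1 / 2000

/-- an obstruction to connectivity, at unit scale, in the cone `Om B` -/
structure Config {d : ℕ} (B : Finset (Fin d)) where
  D : Set (EuclideanSpace ℝ (Fin d))
  Eh : Set (EuclideanSpace ℝ (Fin d))
  Y : Finset (EuclideanSpace ℝ (Fin d))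
  T : EuclideanSpace ℝ (Fin d) → Set (EuclideanSpace ℝ (Fin d))
  mD : MeasurableSet D
  mE : MeasurableSet Eh
  mT : ∀ y ∈ Y, MeasurableSet (T y)
  sD : D ⊆ tc B 4
  sE : Eh ⊆ tc B 4
  sT : ∀ y ∈ Y, T y ⊆ tc B 4
  dDE : Disjoint D Eh
  dDT : ∀ y ∈ Y, Disjoint D (T y)
  dET : ∀ y ∈ Y, Disjoint Eh (T y)
  vD : volume D = ENNReal.ofReal ((tau / Real.sqrt d) ^ d)
  vE : volume Eh ≤ ENNReal.ofReal (5 / 4 * V0 B)
  vT : ∀ y ∈ Y, ENNReal.ofReal (V0 B / 2) ≤ volume (T y)
  rD : ∀ u ∈ D, ‖u‖ ≤ tau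
  rDD : ∀ u ∈ D, ∀ v ∈ D, dist u v ≤ tau
  out : ∀ u ∈ Om B, u ∉ D → u ∉ Eh → 1 < ‖u‖ ∧ ∃ y ∈ Y, ∀ z ∈ T y, dist z u < ‖u‖ - tau

/-- the small cube -/
def Dh (d : ℕ) : Set (EuclideanSpace ℝ (Fin d)) := {u | ∀ i, 0 ≤ u i ∧ u i ≤ tau / Real.sqrt d}

lemma Dh_closed (d : ℕ) : IsClosed (Dh d) := by
  have : Dh d = ⋂ i, {u : EuclideanSpace ℝ (Fin d) | 0 ≤ u i ∧ u i ≤ tau / Real.sqrt d} := by
    ext u; simp [Dh]
  rw [this]
  apply isClosed_iInter
  intro i
  have hc : Continuous (fun u : EuclideanSpace ℝ (Fin d) => u i) := by fun_prop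
  exact (isClosed_le continuous_const hc).inter (isClosed_le hc continuous_const)

lemma volume_Dh (d : ℕ) : volume (Dh d) = ENNReal.ofReal ((tau / Real.sqrt d) ^ d) := by
  have ht : 0 ≤ tau / Real.sqrt d := by unfold tau; positivity
  have hset : Dh d = (MeasurableEquiv.toLp 2 (Fin d → ℝ)).symm ⁻¹'
      (Set.pi Set.univ (fun _ => Set.Icc 0 (tau / Real.sqrt d))) := by
    ext x
    simp only [Set.mem_preimage, Set.mem_pi, Set.mem_univ, true_implies]
    rfl
  rw [hset]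
  have hmp := EuclideanSpace.volume_preserving_symm_measurableEquiv_toLp (Fin d)
  rw [hmp.measure_preimage_equiv, volume_pi, Measure.pi_pi]
  simp only [Real.volume_Icc, sub_zero, Finset.prod_const, Finset.card_univ, Fintype.card_fin]
  rw [ENNReal.ofReal_pow ht]

lemma tau_mul (d : ℕ) (hd : 1 ≤ d) : tau / Real.sqrt d * Real.sqrt d = tau := by
  have : 0 < Real.sqrt d := Real.sqrt_pos.2 (by exact_mod_cast hd)
  field_simp

lemma dist_le_of_coord' {d : ℕ} (x y : EuclideanSpace ℝ (Fin d)) {r : ℝ} (hr : 0 ≤ r)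
    (h : ∀ i, |x i - y i| ≤ r) : dist x y ≤ r * Real.sqrt d := by
  rw [EuclideanSpace.dist_eq]
  have h1 : ∑ i, dist (x i) (y i) ^ 2 ≤ d * r ^ 2 := by
    calc ∑ i, dist (x i) (y i) ^ 2 ≤ ∑ _i : Fin d, r ^ 2 := by
          apply Finset.sum_le_sum
          intro i _
          rw [Real.dist_eq]
          exact pow_le_pow_left₀ (abs_nonneg _) (h i) 2
      _ = d * r ^ 2 := by simp
  calc Real.sqrt (∑ i, dist (x i) (y i) ^ 2) ≤ Real.sqrt (d * r ^ 2) := Real.sqrt_le_sqrt h1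
    _ = r * Real.sqrt d := by
      rw [Real.sqrt_mul (Nat.cast_nonneg d), Real.sqrt_sq hr, mul_comm]

lemma numeric : ∃ d0 : ℕ, 2 ≤ d0 ∧ ∀ d : ℕ, d0 ≤ d → ∀ c : ℕ, c = (d + 1) / 2 →
    (8 * ((3 / 4 : ℝ) ^ c * ((101 / 100) / (199 / 200)) ^ (2 * d) * ((d:ℝ) + 1) ^ 3) ≤ 1 ∧
      (2:ℝ) < (201 / 200) ^ d) := by
  have h1 : Filter.Tendsto (fun n : ℕ => (n:ℝ) ^ 6 * (4 / 5 : ℝ) ^ n) Filter.atTop (nhds 0) :=
    tendsto_pow_const_mul_const_pow_of_abs_lt_one 6 (by rw [abs_of_pos] <;> norm_num)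
  have h2 : ∀ᶠ n : ℕ in Filter.atTop, (n:ℝ) ^ 6 * (4 / 5 : ℝ) ^ n < 1 / 4096 :=
    h1.eventually_lt_const (by norm_num)
  have h3 : Filter.Tendsto (fun n : ℕ => (201 / 200 : ℝ) ^ n) Filter.atTop Filter.atTop :=
    tendsto_pow_atTop_atTop_of_one_lt (by norm_num)
  have h4 : ∀ᶠ n : ℕ in Filter.atTop, (2:ℝ) < (201 / 200 : ℝ) ^ n := h3.eventually_gt_atTop 2
  obtain ⟨d0, hd0⟩ := Filter.eventually_atTop.1 (h2.and h4)
  refine ⟨max d0 2, le_max_right _ _, ?_⟩
  intro d hd c hc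
  obtain ⟨h5, h6⟩ := hd0 d (le_trans (le_max_left _ _) hd)
  have hd2 : 2 ≤ d := le_trans (le_max_right _ _) hd
  refine ⟨?_, h6⟩
  set X : ℝ := 8 * ((3 / 4 : ℝ) ^ c * ((101 / 100) / (199 / 200)) ^ (2 * d) * ((d:ℝ) + 1) ^ 3) with hX
  have hX0 : 0 ≤ X := by positivity
  have hXsq : X ^ 2 ≤ 1 := by
    have e1 : X ^ 2 = 64 * (((3 / 4 : ℝ) ^ (2 * c)) * (((101 / 100) / (199 / 200)) ^ 4) ^ d * ((d:ℝ) + 1) ^ 6) := by
      rw [hX, mul_pow, mul_pow, mul_pow, ← pow_mul, ← pow_mul, ← pow_mul, ← pow_mul]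
      have e2 : c * 2 = 2 * c := by ring
      have e3 : 2 * d * 2 = 4 * d := by ring
      rw [e2, e3]
      norm_num
    have e2 : (3 / 4 : ℝ) ^ (2 * c) ≤ (3 / 4 : ℝ) ^ d :=
      pow_le_pow_of_le_one (by norm_num) (by norm_num) (by omega)
    have e3 : ((d:ℝ) + 1) ^ 6 ≤ (2 * d) ^ 6 := by
      apply pow_le_pow_left₀ (by positivity)
      have : (1:ℝ) ≤ d := by exact_mod_cast (by omega : 1 ≤ d)
      linarith
    rw [e1]
    calc 64 * (((3 / 4 : ℝ) ^ (2 * c)) * (((101 / 100) / (199 / 200)) ^ 4) ^ d * ((d:ℝ) + 1) ^ 6)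
        ≤ 64 * (((3 / 4 : ℝ) ^ d) * (((101 / 100) / (199 / 200)) ^ 4) ^ d * (2 * d) ^ 6) := by
          gcongr
      _ = 4096 * ((d:ℝ) ^ 6 * ((3 / 4) * ((101 / 100) / (199 / 200)) ^ 4) ^ d) := by
          rw [mul_pow (3 / 4 : ℝ)]; ring
      _ ≤ 4096 * ((d:ℝ) ^ 6 * (4 / 5) ^ d) := by
          gcongr
          norm_num
      _ ≤ 1 := by linarith
  nlinarith

theorem exists_config : ∃ d0 : ℕ, 2 ≤ d0 ∧ ∀ d : ℕ, d0 ≤ d → ∀ B : Finset (Fin d),
    B.card = (d + 1) / 2 → Nonempty (Config B) := by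
  classical
  obtain ⟨d0, hd02, hnum⟩ := numeric
  refine ⟨d0, hd02, ?_⟩
  intro d hd B hB
  have hd2 : 2 ≤ d := le_trans hd02 hd
  obtain ⟨hnum1, hnum2⟩ := hnum d hd B.card hB
  have hV0 := V0_pos B
  have hsd : 0 < Real.sqrt d := Real.sqrt_pos.2 (by exact_mod_cast (by omega : 0 < d))
  have hτ : tau = 1 / 400 := rfl
  have hη : eta = 1 / 2000 := rfl
  -- the net
  have hcompact : IsCompact (tc B 2) := (isCompact_closedBall 0 2).inter_right (Om_closed B)
  obtain ⟨Y0, hY0sub, hY0fin, hY0cov⟩ := hcompact.finite_cover_balls (e := eta) (by rw [hη]; norm_num)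
  set Y : Finset (EuclideanSpace ℝ (Fin d)) := hY0fin.toFinset with hY
  have hYmem : ∀ y, y ∈ Y ↔ y ∈ Y0 := fun y => hY0fin.mem_toFinset
  let Tb : EuclideanSpace ℝ (Fin d) → Set (EuclideanSpace ℝ (Fin d)) :=
    fun y => Metric.closedBall y (‖y‖ - tau - 3 * eta) ∩ Om B
  have hTbm : ∀ y, MeasurableSet (Tb y) := fun y => Metric.isClosed_closedBall.measurableSet.inter (Om_meas B)
  let bad : EuclideanSpace ℝ (Fin d) → Prop := fun y => volume (Tb y) < ENNReal.ofReal (2 * V0 B)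
  let A0 : Set (EuclideanSpace ℝ (Fin d)) := ⋃ y ∈ Y.filter bad, (Metric.closedBall y eta ∩ Om B)
  have hA0m : MeasurableSet A0 := by
    apply Finset.measurableSet_biUnion
    intro y _
    exact Metric.isClosed_closedBall.measurableSet.inter (Om_meas B)
  let Eh : Set (EuclideanSpace ℝ (Fin d)) := (tc B 1 ∪ A0) \ Dh d
  have hDm : MeasurableSet (Dh d) := (Dh_closed d).measurableSet
  have hEm : MeasurableSet Eh := ((tc_meas B 1).union hA0m).diff hDm
  let T : EuclideanSpace ℝ (Fin d) → Set (EuclideanSpace ℝ (Fin d)) := fun y => Tb y \ (Eh ∪ Dh d)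
  have hTm : ∀ y, MeasurableSet (T y) := fun y => (hTbm y).diff (hEm.union hDm)
  -- the small cube
  have hDnorm : ∀ u ∈ Dh d, ‖u‖ ≤ tau := by
    intro u hu
    rw [← dist_zero_right, ← tau_mul d (by omega)]
    apply dist_le_of_coord' _ _ (by rw [hτ]; positivity)
    intro i
    rw [PiLp.zero_apply, sub_zero, abs_of_nonneg (hu i).1]
    exact (hu i).2
  have hDdist : ∀ u ∈ Dh d, ∀ v ∈ Dh d, dist u v ≤ tau := by
    intro u hu v hv
    rw [← tau_mul d (by omega)]
    apply dist_le_of_coord' _ _ (by rw [hτ]; positivity)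
    intro i
    have h1 := hu i
    have h2 := hv i
    rw [abs_le]
    constructor <;> linarith [h1.1, h1.2, h2.1, h2.2]
  have hDsub : Dh d ⊆ tc B tau := by
    intro u hu
    refine ⟨?_, fun i _ => (hu i).1⟩
    rw [mem_closedBall_zero_iff]; exact hDnorm u hu
  have hYnorm : ∀ y ∈ Y, ‖y‖ ≤ 2 ∧ y ∈ Om B := by
    intro y hy
    have := hY0sub ((hYmem y).1 hy)
    exact ⟨mem_closedBall_zero_iff.1 this.1, this.2⟩
  -- growth of test balls
  have hTbge : ∀ y ∈ Om B, 0 < ‖y‖ - tau - 3 * eta →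
      ENNReal.ofReal ((‖y‖ - tau - 3 * eta) ^ d * V0 B) ≤ volume (Tb y) :=
    fun y hy h => volume_ball_Om_ge B hy h
  have hbadnorm : ∀ y ∈ Om B, bad y → ‖y‖ < 201 / 200 + tau + 3 * eta := by
    intro y hy hb
    by_contra hcon
    rw [not_lt] at hcon
    have hpos : 0 < ‖y‖ - tau - 3 * eta := by linarith
    have h1 := (hTbge y hy hpos).trans_lt hb
    rw [ENNReal.ofReal_lt_ofReal_iff (by positivity)] at h1
    have h2 : (‖y‖ - tau - 3 * eta) ^ d < 2 := lt_of_mul_lt_mul_right h1 hV0.le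
    have h3 : (201 / 200 : ℝ) ^ d ≤ (‖y‖ - tau - 3 * eta) ^ d :=
      pow_le_pow_left₀ (by norm_num) (by linarith) d
    linarith
  -- volume of the bad part
  have hA1 : volume (A0 \ Metric.closedBall 0 1) ≤ ENNReal.ofReal (V0 B / 4) := by
    have h1 := bad_volume' hd2 B (ρ := 199 / 200) (θ := 2 * V0 B) (R := 101 / 100) (by norm_num)
      (by norm_num) (by positivity) (A := A0 \ Metric.closedBall 0 1)
      (hA0m.diff Metric.isClosed_closedBall.measurableSet) ?_
    · refine h1.trans (ENNReal.ofReal_le_ofReal ?_)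
      nlinarith
    · rintro y ⟨hyA, hy1⟩
      rw [Set.mem_iUnion₂] at hyA
      obtain ⟨y', hy', hyb, hyOm⟩ := hyA
      rw [Finset.mem_filter] at hy'
      rw [mem_closedBall_zero_iff, not_le] at hy1
      rw [Metric.mem_closedBall] at hyb
      have hn1 : ‖y‖ ≤ ‖y'‖ + eta := by
        have : ‖y‖ - ‖y'‖ ≤ dist y y' := by rw [dist_eq_norm]; exact norm_sub_norm_le y y'
        linarith
      have hn2 : ‖y'‖ < 201 / 200 + tau + 3 * eta := hbadnorm y' (hYnorm y' hy'.1).2 hy'.2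
      refine ⟨hyOm, by rw [hτ, hη] at *; linarith, ?_⟩
      refine (measure_mono ?_).trans hy'.2.le
      apply Set.inter_subset_inter_left
      intro z hz
      rw [Metric.mem_closedBall] at hz ⊢
      have := dist_triangle z y y'
      rw [hτ, hη] at *
      linarith
  have hEvol : volume Eh ≤ ENNReal.ofReal (5 / 4 * V0 B) := by
    have h1 : Eh ⊆ tc B 1 ∪ (A0 \ Metric.closedBall 0 1) := by
      rintro u ⟨h1 | h1, _⟩
      · exact Or.inl h1
      · by_cases h2 : u ∈ Metric.closedBall (0 : EuclideanSpace ℝ (Fin d)) 1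
        · left
          rw [Set.mem_iUnion₂] at h1
          obtain ⟨y', _, h3⟩ := h1
          exact ⟨h2, h3.2⟩
        · exact Or.inr ⟨h1, h2⟩
    calc volume Eh ≤ volume (tc B 1) + volume (A0 \ Metric.closedBall 0 1) :=
          (measure_mono h1).trans (measure_union_le _ _)
      _ ≤ ENNReal.ofReal (V0 B) + ENNReal.ofReal (V0 B / 4) := by
          gcongr
          rw [volume_tc B one_pos]; simp
      _ = ENNReal.ofReal (5 / 4 * V0 B) := by
          rw [← ENNReal.ofReal_add hV0.le (by positivity)]; congr 1; ring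
  have hDvol : volume (Dh d) ≤ ENNReal.ofReal (V0 B / 4) := by
    refine (measure_mono hDsub).trans ?_
    rw [volume_tc B (by rw [hτ]; norm_num)]
    apply ENNReal.ofReal_le_ofReal
    have h1 : tau ^ d ≤ 1 / 4 := by
      have h2 : tau ^ d ≤ tau ^ 1 := pow_le_pow_of_le_one (by rw [hτ]; norm_num) (by rw [hτ]; norm_num) (by omega)
      rw [pow_one] at h2
      rw [hτ] at h2 ⊢
      linarith
    nlinarith
  refine ⟨⟨Dh d, Eh, Y.filter (fun y => ¬ bad y), T, hDm, hEm, fun y _ => hTm y, ?_, ?_, ?_, ?_,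
    ?_, ?_, volume_Dh d, hEvol, ?_, hDnorm, hDdist, ?_⟩⟩
  · intro u hu
    have := hDsub hu
    refine ⟨?_, this.2⟩
    rw [mem_closedBall_zero_iff]
    have := hDnorm u hu
    rw [hτ] at this; linarith
  · rintro u ⟨h1 | h1, _⟩
    · exact ⟨Metric.closedBall_subset_closedBall (by norm_num) h1.1, h1.2⟩
    · rw [Set.mem_iUnion₂] at h1
      obtain ⟨y', hy', h3, h4⟩ := h1
      refine ⟨?_, h4⟩
      rw [Finset.mem_filter] at hy'
      have h5 := (hYnorm y' hy'.1).1
      rw [Metric.mem_closedBall] at h3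
      rw [mem_closedBall_zero_iff]
      have : ‖u‖ - ‖y'‖ ≤ dist u y' := by rw [dist_eq_norm]; exact norm_sub_norm_le u y'
      rw [hη] at h3; linarith
  · rintro y hy u ⟨⟨h1, h2⟩, _⟩
    refine ⟨?_, h2⟩
    rw [Finset.mem_filter] at hy
    have h5 := (hYnorm y hy.1).1
    rw [Metric.mem_closedBall] at h1
    rw [mem_closedBall_zero_iff]
    have : ‖u‖ - ‖y‖ ≤ dist u y := by rw [dist_eq_norm]; exact norm_sub_norm_le u y
    rw [hτ, hη] at h1; linarith
  · rw [Set.disjoint_left]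
    intro u hu hu'
    exact hu'.2 hu
  · intro y _
    rw [Set.disjoint_left]
    intro u hu hu'
    exact hu'.2 (Or.inr hu)
  · intro y _
    rw [Set.disjoint_left]
    intro u hu hu'
    exact hu'.2 (Or.inl hu)
  · intro y hy
    rw [Finset.mem_filter] at hy
    have h1 : ENNReal.ofReal (2 * V0 B) ≤ volume (Tb y) := not_lt.1 hy.2
    have h2 : volume (Tb y) ≤ volume (T y) + volume (Eh ∪ Dh d) := by
      calc volume (Tb y) ≤ volume (T y ∪ (Eh ∪ Dh d)) := measure_mono (by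
            intro u hu
            by_cases h : u ∈ Eh ∪ Dh d
            · exact Or.inr h
            · exact Or.inl ⟨hu, h⟩)
        _ ≤ _ := measure_union_le _ _
    have h3 : volume (Eh ∪ Dh d) ≤ ENNReal.ofReal (3 / 2 * V0 B) := by
      calc volume (Eh ∪ Dh d) ≤ volume Eh + volume (Dh d) := measure_union_le _ _
        _ ≤ ENNReal.ofReal (5 / 4 * V0 B) + ENNReal.ofReal (V0 B / 4) := add_le_add hEvol hDvol
        _ = ENNReal.ofReal (3 / 2 * V0 B) := by
          rw [← ENNReal.ofReal_add (by positivity) (by positivity)]; congr 1; ring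
    have h4 : ENNReal.ofReal (V0 B / 2) + ENNReal.ofReal (3 / 2 * V0 B)
        ≤ volume (T y) + ENNReal.ofReal (3 / 2 * V0 B) := by
      calc ENNReal.ofReal (V0 B / 2) + ENNReal.ofReal (3 / 2 * V0 B) = ENNReal.ofReal (2 * V0 B) := by
            rw [← ENNReal.ofReal_add (by positivity) (by positivity)]; congr 1; ring
        _ ≤ volume (Tb y) := h1
        _ ≤ volume (T y) + volume (Eh ∪ Dh d) := h2
        _ ≤ _ := by gcongr
    exact (ENNReal.add_le_add_iff_right ENNReal.ofReal_ne_top).1 h4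
  · intro u hu huD huE
    have hu1 : 1 < ‖u‖ := by
      by_contra hcon
      rw [not_lt] at hcon
      exact huE ⟨Or.inl ⟨mem_closedBall_zero_iff.2 hcon, hu⟩, huD⟩
    refine ⟨hu1, ?_⟩
    -- the truncated point
    obtain ⟨us, hus1, hus2, hus3, hus4⟩ : ∃ us : EuclideanSpace ℝ (Fin d), us ∈ tc B 2 ∧
        dist us u = ‖u‖ - ‖us‖ ∧ (‖u‖ ≤ 2 → us = u) ∧ (2 < ‖u‖ → ‖us‖ = 2) := by
      by_cases h : ‖u‖ ≤ 2
      · exact ⟨u, ⟨mem_closedBall_zero_iff.2 h, hu⟩, by simp, fun _ => rfl, fun h' => absurd h (not_le.2 h')⟩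
      · rw [not_le] at h
        have hupos : 0 < ‖u‖ := by linarith
        have hn : ‖(2 / ‖u‖) • u‖ = 2 := by
          rw [norm_smul, Real.norm_of_nonneg (by positivity)]; field_simp
        refine ⟨(2 / ‖u‖) • u, ⟨mem_closedBall_zero_iff.2 hn.le, Om_smul B (by positivity) hu⟩, ?_,
          fun h' => absurd h' (not_le.2 h), fun _ => hn⟩
        rw [hn, dist_comm, dist_eq_norm]
        have : u - (2 / ‖u‖) • u = (1 - 2 / ‖u‖) • u := by rw [sub_smul, one_smul]
        rw [this, norm_smul, Real.norm_of_nonneg]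
        · field_simp
        · rw [sub_nonneg, div_le_one hupos]; exact h.le
    have hcov := hY0cov hus1
    rw [Set.mem_iUnion₂] at hcov
    obtain ⟨y', hy', husy⟩ := hcov
    rw [Metric.mem_ball] at husy
    have hy'Y : y' ∈ Y := (hYmem y').2 hy'
    have hy'Om := (hYnorm y' hy'Y).2
    have hn1 : ‖y'‖ ≤ ‖us‖ + eta := by
      have : ‖y'‖ - ‖us‖ ≤ dist y' us := by rw [dist_eq_norm]; exact norm_sub_norm_le y' us
      rw [dist_comm] at this; linarith
    have hn2 : ‖us‖ ≤ ‖y'‖ + eta := by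
      have : ‖us‖ - ‖y'‖ ≤ dist us y' := by rw [dist_eq_norm]; exact norm_sub_norm_le us y'
      linarith
    have hgood : ¬ bad y' := by
      intro hb
      by_cases h : ‖u‖ ≤ 2
      · have := hus3 h
        subst this
        apply huE
        refine ⟨Or.inr ?_, huD⟩
        exact Set.mem_iUnion₂.2 ⟨y', Finset.mem_filter.2 ⟨hy'Y, hb⟩, Metric.mem_closedBall.2 husy.le, hu⟩
      · rw [not_le] at h
        have h1 := hus4 h
        have h2 := hbadnorm y' hy'Om hb
        rw [hτ, hη] at *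
        linarith
    refine ⟨y', Finset.mem_filter.2 ⟨hy'Y, hgood⟩, ?_⟩
    rintro z ⟨⟨hz, _⟩, _⟩
    rw [Metric.mem_closedBall] at hz
    have h1 := dist_triangle z y' us
    have h2 := dist_triangle z us u
    rw [dist_comm y' us] at h1
    rw [hus2] at h2
    have : 0 < eta := by rw [hη]; norm_num
    linarith

end Pool.Agent.Helper870.KNN
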