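import Pool.Agent.Helper870.FADefs

set_option autoImplicit false
set_option linter.unusedSectionVars false

open Finset

noncomputable section

namespace FA
variable {q : ℝ} {A B : Finset ℤ}

theorem wt_nonneg (h0 : 0 ≤ q) (h1 : q ≤ 1) (A U : Finset ℤ) : 0 ≤ wt q A U := by
  unfold wt
  have : 0 ≤ 1 - q := by linarith
  positivity

theorem wt_pos (h0 : 0 < q) (h1 : q < 1) (A U : Finset ℤ) : 0 < wt q A U := by
  unfold wt
  have : 0 < 1 - q := by linarith
  positivity

theorem wt_sum (q : ℝ) (A : Finset ℤ) : ∑ U ∈ A.powerset, wt q A U = 1 := by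
  have h := Finset.sum_pow_mul_eq_add_pow q (1 - q) A
  have e : q + (1 - q) = 1 := by ring
  rw [e, one_pow] at h
  rw [← h]
  refine Finset.sum_congr rfl fun U hU => ?_
  have hU' := Finset.mem_powerset.mp hU
  unfold wt
  rw [Finset.inter_eq_right.mpr hU', Finset.card_sdiff_of_subset hU']

theorem wt_union (q : ℝ) (hd : Disjoint A B) {U V : Finset ℤ} (hU : U ⊆ A) (hV : V ⊆ B) :
    wt q (A ∪ B) (U ∪ V) = wt q A U * wt q B V := by
  have hd' : ∀ x, x ∈ A → x ∉ B := fun x hx hx' => Finset.disjoint_left.mp hd hx hx'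
  have e1 : (A ∪ B) ∩ (U ∪ V) = (A ∩ U) ∪ (B ∩ V) := by
    ext x
    have h1 := @hU x
    have h2 := @hV x
    have h3 := hd' x
    simp only [Finset.mem_inter, Finset.mem_union]
    tauto
  have e2 : (A ∪ B) \ (U ∪ V) = (A \ U) ∪ (B \ V) := by
    ext x
    have h1 := @hU x
    have h2 := @hV x
    have h3 := hd' x
    simp only [Finset.mem_sdiff, Finset.mem_union]
    tauto
  have d1 : Disjoint (A ∩ U) (B ∩ V) :=
    hd.mono Finset.inter_subset_left Finset.inter_subset_left
  have d2 : Disjoint (A \ U) (B \ V) := hd.mono Finset.sdiff_subset Finset.sdiff_subset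
  unfold wt
  rw [e1, e2, Finset.card_union_of_disjoint d1, Finset.card_union_of_disjoint d2, pow_add, pow_add]
  ring

theorem EA_eq_av (q : ℝ) (A : Finset ℤ) (F : Finset ℤ → ℝ) : EA q A F = av q A F ∅ := by
  unfold EA av
  simp

theorem av_av (q : ℝ) (hd : Disjoint A B) (F : Finset ℤ → ℝ) (S : Finset ℤ) :
    av q A (av q B F) S = av q (A ∪ B) F S := by
  have hd' : ∀ x, x ∈ A → x ∉ B := fun x hx hx' => Finset.disjoint_left.mp hd hx hx'
  have key : ∀ U ⊆ A, ∀ V ⊆ B, ((S \ A ∪ U) \ B ∪ V) = (S \ (A ∪ B)) ∪ (U ∪ V) := by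
    intro U hU V hV
    ext x
    have h1 := @hU x
    have h2 := @hV x
    have h3 := hd' x
    simp only [Finset.mem_sdiff, Finset.mem_union]
    tauto
  unfold av
  simp only [Finset.mul_sum]
  rw [← Finset.sum_product']
  refine Finset.sum_nbij' (fun p => p.1 ∪ p.2) (fun W => (W ∩ A, W ∩ B)) ?_ ?_ ?_ ?_ ?_
  · rintro ⟨U, V⟩ h
    simp only [Finset.mem_product, Finset.mem_powerset] at h ⊢
    exact Finset.union_subset_union h.1 h.2
  · intro W _
    simp only [Finset.mem_product, Finset.mem_powerset]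
    exact ⟨Finset.inter_subset_right, Finset.inter_subset_right⟩
  · rintro ⟨U, V⟩ h
    simp only [Finset.mem_product, Finset.mem_powerset] at h
    obtain ⟨hU, hV⟩ := h
    refine Prod.ext ?_ ?_
    · ext x
      have h1 := @hU x
      have h2 := @hV x
      have h3 := hd' x
      simp only [Finset.mem_inter, Finset.mem_union]
      tauto
    · ext x
      have h1 := @hU x
      have h2 := @hV x
      have h3 := hd' x
      simp only [Finset.mem_inter, Finset.mem_union]
      tauto
  · intro W hW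
    have hW' := Finset.mem_powerset.mp hW
    ext x
    have h1 := @hW' x
    simp only [Finset.mem_inter, Finset.mem_union] at h1 ⊢
    tauto
  · rintro ⟨U, V⟩ h
    simp only [Finset.mem_product, Finset.mem_powerset] at h
    obtain ⟨hU, hV⟩ := h
    simp only
    rw [key U hU V hV, wt_union q hd hU hV]
    ring

theorem av_comm_sing (q : ℝ) (x y : ℤ) (F : Finset ℤ → ℝ) (S : Finset ℤ) :
    av q {x} (av q {y} F) S = av q {y} (av q {x} F) S := by
  by_cases h : x = y
  · subst h; rfl
  · have hd : Disjoint ({x} : Finset ℤ) {y} := by simpa using h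
    rw [av_av q hd, av_av q hd.symm, Finset.union_comm]

theorem av_comm_sing_left (q : ℝ) (x : ℤ) (B : Finset ℤ) : ∀ (F : Finset ℤ → ℝ) (S : Finset ℤ),
    av q {x} (av q B F) S = av q B (av q {x} F) S := by
  induction B using Finset.induction_on with
  | empty =>
    intro F S
    have e : ∀ G : Finset ℤ → ℝ, av q ∅ G = G := by
      intro G; funext T; simp [av, wt]
    rw [e, e]
  | insert b B hb ih =>
    intro F S
    have hd : Disjoint ({b} : Finset ℤ) B := by simpa using hb
    have e : ∀ G : Finset ℤ → ℝ, av q (insert b B) G = av q {b} (av q B G) := by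
      intro G; funext T; rw [av_av q hd]; rfl
    rw [e, e, av_comm_sing]
    congr 1
    funext T
    exact ih F T

theorem av_comm (q : ℝ) (A B : Finset ℤ) (F : Finset ℤ → ℝ) (S : Finset ℤ) :
    av q A (av q B F) S = av q B (av q A F) S := by
  induction A using Finset.induction_on generalizing F S with
  | empty =>
    have e : ∀ G : Finset ℤ → ℝ, av q ∅ G = G := by
      intro G; funext T; simp [av, wt]
    rw [e, e]
  | insert a A ha ih =>
    have hd : Disjoint ({a} : Finset ℤ) A := by simpa using ha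
    have e : ∀ G : Finset ℤ → ℝ, av q (insert a A) G = av q {a} (av q A G) := by
      intro G; funext T; rw [av_av q hd]; rfl
    have e2 : av q A (av q B F) = av q B (av q A F) := by funext T; exact ih F T
    rw [e, e, e2, av_comm_sing_left]

/-- the average over `A` only depends on the configuration outside `A` -/
theorem av_out (q : ℝ) (A : Finset ℤ) (F : Finset ℤ → ℝ) (S S' : Finset ℤ) (h : S \ A = S' \ A) :
    av q A F S = av q A F S' := by
  unfold av; rw [h]

theorem av_mul_left (q : ℝ) (A : Finset ℤ) (c F : Finset ℤ → ℝ) (S : Finset ℤ)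
    (hc : ∀ U ⊆ A, c ((S \ A) ∪ U) = c S) :
    av q A (fun T => c T * F T) S = c S * av q A F S := by
  unfold av
  rw [Finset.mul_sum]
  refine Finset.sum_congr rfl fun U hU => ?_
  show wt q A U * (c (S \ A ∪ U) * F (S \ A ∪ U)) = c S * (wt q A U * F (S \ A ∪ U))
  rw [hc U (Finset.mem_powerset.mp hU)]
  ring

theorem av_congr (q : ℝ) (A : Finset ℤ) (F H : Finset ℤ → ℝ) (S : Finset ℤ)
    (h : ∀ U ⊆ A, F ((S \ A) ∪ U) = H ((S \ A) ∪ U)) : av q A F S = av q A H S := by
  unfold av
  refine Finset.sum_congr rfl fun U hU => ?_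
  rw [h U (Finset.mem_powerset.mp hU)]

theorem av_add (q : ℝ) (A : Finset ℤ) (F H : Finset ℤ → ℝ) (S : Finset ℤ) :
    av q A (fun T => F T + H T) S = av q A F S + av q A H S := by
  unfold av
  rw [← Finset.sum_add_distrib]
  refine Finset.sum_congr rfl fun U _ => ?_
  ring

theorem av_smul (q : ℝ) (A : Finset ℤ) (c : ℝ) (F : Finset ℤ → ℝ) (S : Finset ℤ) :
    av q A (fun T => c * F T) S = c * av q A F S := by
  unfold av
  rw [Finset.mul_sum]
  refine Finset.sum_congr rfl fun U _ => ?_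
  ring

theorem av_sum (q : ℝ) (A : Finset ℤ) {ι : Type} (I : Finset ι) (F : ι → Finset ℤ → ℝ) (S : Finset ℤ) :
    av q A (fun T => ∑ i ∈ I, F i T) S = ∑ i ∈ I, av q A (F i) S := by
  unfold av
  rw [Finset.sum_comm]
  refine Finset.sum_congr rfl fun U _ => ?_
  rw [Finset.mul_sum]

theorem av_const (q : ℝ) (A : Finset ℤ) (c : ℝ) (S : Finset ℤ) : av q A (fun _ => c) S = c := by
  unfold av
  rw [← Finset.sum_mul, wt_sum, one_mul]

theorem av_mono (h0 : 0 ≤ q) (h1 : q ≤ 1) (A : Finset ℤ) (F H : Finset ℤ → ℝ) (S : Finset ℤ)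
    (h : ∀ U ⊆ A, F ((S \ A) ∪ U) ≤ H ((S \ A) ∪ U)) : av q A F S ≤ av q A H S := by
  unfold av
  refine Finset.sum_le_sum fun U hU => ?_
  exact mul_le_mul_of_nonneg_left (h U (Finset.mem_powerset.mp hU)) (wt_nonneg h0 h1 _ _)

theorem av_nonneg (h0 : 0 ≤ q) (h1 : q ≤ 1) (A : Finset ℤ) (F : Finset ℤ → ℝ) (S : Finset ℤ)
    (h : ∀ T, 0 ≤ F T) : 0 ≤ av q A F S := by
  unfold av
  exact Finset.sum_nonneg fun U _ => mul_nonneg (wt_nonneg h0 h1 _ _) (h _)

theorem av_sing (q : ℝ) (x : ℤ) (F : Finset ℤ → ℝ) (S : Finset ℤ) :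
    av q {x} F S = q * F (insert x S) + (1 - q) * F (S.erase x) := by
  have hp : ({x} : Finset ℤ).powerset = {∅, {x}} := by
    ext U; simp [Finset.subset_singleton_iff]
  have hne : (∅ : Finset ℤ) ≠ {x} := (Finset.singleton_ne_empty x).symm
  have e1 : S \ {x} ∪ ∅ = S.erase x := by
    rw [Finset.union_empty, Finset.sdiff_singleton_eq_erase]
  have e2 : S \ {x} ∪ {x} = insert x S := by
    ext y
    simp only [Finset.mem_union, Finset.mem_sdiff, Finset.mem_singleton, Finset.mem_insert]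
    tauto
  unfold av
  rw [hp, Finset.sum_pair hne, e1, e2]
  have w1 : wt q {x} ∅ = 1 - q := by simp [wt]
  have w2 : wt q {x} {x} = q := by simp [wt]
  rw [w1, w2]
  ring

theorem av_empty (q : ℝ) (F : Finset ℤ → ℝ) (S : Finset ℤ) : av q ∅ F S = F S := by
  simp [av, wt]

theorem va_sing (q : ℝ) (x : ℤ) (F : Finset ℤ → ℝ) (S : Finset ℤ) :
    va q {x} F S = vx q x F S := by
  unfold va vx
  rw [av_sing, av_sing]
  ring

theorem av_sub' (q : ℝ) (A : Finset ℤ) (F H : Finset ℤ → ℝ) (S : Finset ℤ) :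
    av q A (fun T => F T - H T) S = av q A F S - av q A H S := by
  unfold av
  rw [← Finset.sum_sub_distrib]
  refine Finset.sum_congr rfl fun U _ => ?_
  ring

theorem va_eq (q : ℝ) (A : Finset ℤ) (F : Finset ℤ → ℝ) (S : Finset ℤ) :
    va q A F S = av q A (fun T => (F T - av q A F T) ^ 2) S := by
  have h1 : av q A (fun T => (F T - av q A F T) ^ 2) S =
      av q A (fun T => F T ^ 2 + ((-2 * av q A F S) * F T + (av q A F S) ^ 2)) S := by
    apply av_congr
    intro U hU
    have : av q A F (S \ A ∪ U) = av q A F S := by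
      apply av_out
      ext x
      have h1 := @hU x
      simp only [Finset.mem_sdiff, Finset.mem_union]
      tauto
    rw [this]
    ring
  rw [h1, av_add, av_add, av_smul, av_const]
  unfold va
  ring

theorem va_nonneg (h0 : 0 ≤ q) (h1 : q ≤ 1) (A : Finset ℤ) (F : Finset ℤ → ℝ) (S : Finset ℤ) :
    0 ≤ va q A F S := by
  rw [va_eq]
  exact av_nonneg h0 h1 _ _ _ fun T => sq_nonneg _

/-- law of total variance -/
theorem va_union (q : ℝ) (hd : Disjoint A B) (F : Finset ℤ → ℝ) (S : Finset ℤ) :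
    va q (A ∪ B) F S = av q A (va q B F) S + va q A (av q B F) S := by
  have e : av q A (va q B F) S = av q A (av q B (fun U => F U ^ 2)) S -
      av q A (fun T => (av q B F T) ^ 2) S := by
    rw [← av_sub']; rfl
  rw [e]
  unfold va
  rw [av_av q hd, av_av q hd]
  ring

/-- convexity of the variance -/
theorem va_av_le (h0 : 0 ≤ q) (h1 : q ≤ 1) (hd : Disjoint A B) (F : Finset ℤ → ℝ) (S : Finset ℤ) :
    va q A (av q B F) S ≤ av q B (va q A F) S := by
  obtain ⟨G, hG⟩ : ∃ G : Finset ℤ → ℝ, G = fun T => F T - av q B F T := ⟨_, rfl⟩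
  have a1 : av q B (fun T => G T ^ 2) = va q B F := by
    funext T; rw [va_eq, hG]
  have a2 : av q A G = fun T => av q A F T - av q B (av q A F) T := by
    funext T
    rw [hG, av_sub', av_comm]
  have a3 : av q B (fun T => (av q A G T) ^ 2) S = va q B (av q A F) S := by
    rw [va_eq, a2]
  have a4 : av q B (va q A G) S = av q A (va q B F) S - va q B (av q A F) S := by
    have e : av q B (va q A G) S = av q B (av q A (fun U => G U ^ 2)) S -
        av q B (fun T => (av q A G T) ^ 2) S := by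
      rw [← av_sub']; rfl
    rw [e, a3, av_comm, a1]
  have a5 : 0 ≤ av q B (va q A G) S := av_nonneg h0 h1 _ _ _ fun T => va_nonneg h0 h1 _ _ _
  have a6 := va_union q hd F S
  have a7 := va_union q hd.symm F S
  rw [Finset.union_comm] at a7
  linarith

/-- Cauchy-Schwarz -/
theorem av_cs (h0 : 0 ≤ q) (h1 : q ≤ 1) (A : Finset ℤ) (F H : Finset ℤ → ℝ) (S : Finset ℤ) :
    (av q A (fun T => F T * H T) S) ^ 2 ≤ av q A (fun T => F T ^ 2) S * av q A (fun T => H T ^ 2) S := by
  unfold av
  have h := Finset.sum_mul_sq_le_sq_mul_sq A.powerset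
    (fun U => Real.sqrt (wt q A U) * F (S \ A ∪ U)) (fun U => Real.sqrt (wt q A U) * H (S \ A ∪ U))
  have hs : ∀ U, Real.sqrt (wt q A U) * Real.sqrt (wt q A U) = wt q A U :=
    fun U => Real.mul_self_sqrt (wt_nonneg h0 h1 _ _)
  have e1 : ∀ U ∈ A.powerset, (Real.sqrt (wt q A U) * F (S \ A ∪ U)) *
      (Real.sqrt (wt q A U) * H (S \ A ∪ U)) = wt q A U * (F (S \ A ∪ U) * H (S \ A ∪ U)) := by
    intro U _
    calc _ = (Real.sqrt (wt q A U) * Real.sqrt (wt q A U)) * (F (S \ A ∪ U) * H (S \ A ∪ U)) := by ring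
      _ = _ := by rw [hs]
  have e2 : ∀ (K : Finset ℤ → ℝ), ∀ U ∈ A.powerset, (Real.sqrt (wt q A U) * K (S \ A ∪ U)) ^ 2 =
      wt q A U * (K (S \ A ∪ U)) ^ 2 := by
    intro K U _
    calc _ = (Real.sqrt (wt q A U) * Real.sqrt (wt q A U)) * (K (S \ A ∪ U)) ^ 2 := by ring
      _ = _ := by rw [hs]
  rw [Finset.sum_congr rfl e1, Finset.sum_congr rfl (e2 F), Finset.sum_congr rfl (e2 H)] at h
  exact h

end FA
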