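import Pool.Agent.Helper870.FADefs
import Pool.Agent.Helper870.FAG1

set_option autoImplicit false
set_option linter.unusedSectionVars false

open Finset

noncomputable section

namespace FA

open Classical in
/-- conditioning a finitely supported probability measure -/
def FM.cond {X : Type} (m : FM X) (C : X → Prop) (hC : ∃ x ∈ m.s, C x) : FM X where
  s := m.s.filter C
  w := fun x => m.w x / ∑ y ∈ m.s.filter C, m.w y
  hw := by
    intro x hx
    have hx' := (Finset.mem_filter.1 hx).1
    apply div_pos (m.hw x hx')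
    exact Finset.sum_pos (fun y hy => m.hw y (Finset.mem_filter.1 hy).1) ⟨x, hx⟩
  hone := by
    obtain ⟨x, hx, hcx⟩ := hC
    have hpos : 0 < ∑ y ∈ m.s.filter C, m.w y :=
      Finset.sum_pos (fun y hy => m.hw y (Finset.mem_filter.1 hy).1) ⟨x, Finset.mem_filter.2 ⟨hx, hcx⟩⟩
    rw [← Finset.sum_div]
    exact div_self hpos.ne'

open Classical in
theorem FM.cond_E {X : Type} (m : FM X) (C : X → Prop) (hC : ∃ x ∈ m.s, C x) (F : X → ℝ) :
    (m.cond C hC).E F = m.E (fun x => if C x then F x else 0) / m.E (fun x => if C x then 1 else 0) := by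
  unfold FM.E FM.cond
  simp only [mul_ite, mul_zero, mul_one]
  rw [← Finset.sum_filter, ← Finset.sum_filter, Finset.sum_div]
  apply Finset.sum_congr rfl
  intro x _
  ring

/-- Bernoulli product measure on subsets of `A` -/
def pfm (q : ℝ) (h0 : 0 < q) (h1 : q < 1) (A : Finset ℤ) : FM (Finset ℤ) where
  s := A.powerset
  w := wt q A
  hw := fun U _ => wt_pos h0 h1 A U
  hone := wt_sum q A

theorem pfm_E (q : ℝ) (h0 : 0 < q) (h1 : q < 1) (A : Finset ℤ) (F : Finset ℤ → ℝ) :
    (pfm q h0 h1 A).E F = EA q A F := rfl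

/-- product measure conditioned on having an infected site -/
def nfm (q : ℝ) (h0 : 0 < q) (h1 : q < 1) (A : Finset ℤ) (hA : A.Nonempty) : FM (Finset ℤ) :=
  (pfm q h0 h1 A).cond (fun S => S.Nonempty) ⟨A, Finset.mem_powerset.2 (Finset.Subset.refl A), hA⟩

open Classical in
/-- reflected generator: moves from `C` to its complement are suppressed -/
def MG.refl {X : Type} (G : MG X) (C : X → Prop) : MG X where
  ι := G.ι
  I := G.I
  r := fun i x => if C x ∧ ¬ C (G.T i x) then 0 else G.r i x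
  T := G.T
  N := G.N
  hN := G.hN
  hr := by
    intro i hi x
    split_ifs
    · exact le_refl _
    · exact G.hr i hi x
  hs := by
    intro x
    refine le_trans (Finset.sum_le_sum ?_) (G.hs x)
    intro i hi
    split_ifs
    · exact G.hr i hi x
    · exact le_refl _

/-- indicator of a Boolean constraint -/
def kv (k : ℤ → Finset ℤ → Bool) (x : ℤ) (S : Finset ℤ) : ℝ := if k x S = true then 1 else 0

theorem kv_nonneg (k : ℤ → Finset ℤ → Bool) (x : ℤ) (S : Finset ℤ) : 0 ≤ kv k x S := by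
  unfold kv; split_ifs <;> norm_num

theorem kv_le (k : ℤ → Finset ℤ → Bool) (x : ℤ) (S : Finset ℤ) : kv k x S ≤ 1 := by
  unfold kv; split_ifs <;> norm_num

/-- heat-bath generator on the region `A` with constraint `k` -/
def genK (q : ℝ) (A : Finset ℤ) (k : ℤ → Finset ℤ → Bool) (F : Finset ℤ → ℝ) (S : Finset ℤ) : ℝ :=
  ∑ x ∈ A, kv k x S * (q * F (insert x S) + (1 - q) * F (S.erase x) - F S)

/-- the same as a Markov generator -/
def kG (q : ℝ) (h0 : 0 ≤ q) (h1 : q ≤ 1) (A : Finset ℤ) (k : ℤ → Finset ℤ → Bool) : MG (Finset ℤ) where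
  ι := ℤ × Bool
  I := A ×ˢ (Finset.univ : Finset Bool)
  r := fun p S => kv k p.1 S * (if p.2 then q else 1 - q)
  T := fun p S => if p.2 then insert p.1 S else S.erase p.1
  N := (A.card : ℝ) + 1
  hN := by positivity
  hr := by
    intro i _ x
    apply mul_nonneg (kv_nonneg _ _ _)
    split_ifs <;> linarith
  hs := by
    intro S
    rw [Finset.sum_product]
    have : ∀ x ∈ A, ∑ y : Bool, kv k x S * (if y = true then q else 1 - q) ≤ 1 := by
      intro x _
      rw [Fintype.sum_bool]
      have := kv_le k x S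
      simp
      nlinarith
    calc _ ≤ ∑ x ∈ A, (1:ℝ) := Finset.sum_le_sum this
      _ ≤ _ := by simp

theorem kG_L (q : ℝ) (h0 : 0 ≤ q) (h1 : q ≤ 1) (A : Finset ℤ) (k : ℤ → Finset ℤ → Bool)
    (F : Finset ℤ → ℝ) (S : Finset ℤ) : (kG q h0 h1 A k).L F S = genK q A k F S := by
  unfold MG.L kG genK
  rw [Finset.sum_product]
  apply Finset.sum_congr rfl
  intro x _
  rw [Fintype.sum_bool]
  simp
  ring

/-- constraints on the interval `Icc a b`: `FA-1f` in the bulk, arbitrary boundary condition at the two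
end points (healthy, periodic, or frozen infected neighbours) -/
structure Adm0 (a b : ℤ) (k : ℤ → Finset ℤ → Bool) : Prop where
  ge : ∀ x ∈ Icc a b, ∀ S, cst (Icc a b) x S ≤ kv k x S
  loc : ∀ x ∈ Icc a b, ∀ S, k x S = k x (S ∩ Icc a b)
  self : ∀ x ∈ Icc a b, ∀ S, k x (insert x S) = k x (S.erase x)
  inn : ∀ x, a < x → x < b → ∀ S, kv k x S = cst (Icc a b) x S
  bd : ∀ x ∈ Icc a b, ∀ y ∈ Icc a b, ∀ S, k x (insert y S) ≠ k x (S.erase y) →
    (|x - y| = 1 ∨ (x = a ∧ y = b) ∨ (x = b ∧ y = a))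

/-- moreover a site can only be updated if another site of the interval is infected -/
structure Adm (a b : ℤ) (k : ℤ → Finset ℤ → Bool) : Prop extends Adm0 a b k where
  ne : ∀ x ∈ Icc a b, ∀ S, k x S = true → ∃ y ∈ Icc a b, y ≠ x ∧ y ∈ S

/-- healthy boundary condition -/
def kbox (a b : ℤ) (x : ℤ) (S : Finset ℤ) : Bool :=
  decide ((x - 1 ∈ Icc a b ∧ x - 1 ∈ S) ∨ (x + 1 ∈ Icc a b ∧ x + 1 ∈ S))

/-- predecessor and successor on the cycle `Icc a b` -/
def pr (a b x : ℤ) : ℤ := if x = a then b else x - 1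
def sc (a b x : ℤ) : ℤ := if x = b then a else x + 1

/-- periodic boundary condition -/
def ktor (a b : ℤ) (x : ℤ) (S : Finset ℤ) : Bool := decide (pr a b x ∈ S ∨ sc a b x ∈ S)

end FA

-- ==== END D2 ====
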