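import Pool.Agent.Helper870.FADefs

set_option autoImplicit false
set_option linter.unusedSectionVars false

open Finset

noncomputable section

namespace FA
variable {X : Type}

/-- a finite averaging operator -/
structure AO (X : Type) where
  κ : Type
  K : X → Finset κ
  w : X → κ → ℝ
  c : X → κ → X
  hw : ∀ x, ∀ k ∈ K x, 0 ≤ w x k
  hone : ∀ x, ∑ k ∈ K x, w x k = 1

def AO.R (A : AO X) (F : X → ℝ) (x : X) : ℝ := ∑ k ∈ A.K x, A.w x k * F (A.c x k)

/-- `compR A n F = R_0 (R_1 (... R_{n-1} F))`-type iterated average (order irrelevant when commuting) -/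
def compR (A : ℕ → AO X) : ℕ → (X → ℝ) → X → ℝ
  | 0, F => F
  | n + 1, F => (A n).R (compR A n F)

theorem AO_R_mono (A : AO X) {F H : X → ℝ} (h : ∀ x, F x ≤ H x) (x : X) : A.R F x ≤ A.R H x :=
  Finset.sum_le_sum fun k hk => mul_le_mul_of_nonneg_left (h _) (A.hw x k hk)

theorem AO_R_pos (A : AO X) {F : X → ℝ} (h : ∀ x, 0 < F x) (x : X) : 0 < A.R F x := by
  unfold AO.R
  obtain ⟨k, hk, hk0⟩ : ∃ k ∈ A.K x, A.w x k ≠ 0 := by
    by_contra hcon
    push Not at hcon
    have := A.hone x
    rw [Finset.sum_eq_zero hcon] at this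
    exact zero_ne_one this
  exact Finset.sum_pos' (fun k hk => mul_nonneg (A.hw x k hk) (h _).le)
    ⟨k, hk, mul_pos (lt_of_le_of_ne (A.hw x k hk) (Ne.symm hk0)) (h _)⟩

theorem AO_R_one (A : AO X) (x : X) : A.R (fun _ => 1) x = 1 := by
  unfold AO.R
  simp only [mul_one]
  exact A.hone x

theorem AO_R_inv (A : AO X) (F g : X → ℝ) (x : X) (hg : ∀ k ∈ A.K x, g (A.c x k) = g x) :
    A.R (fun y => F y * g y) x = A.R F x * g x := by
  unfold AO.R
  rw [Finset.sum_mul]
  apply Finset.sum_congr rfl
  intro k hk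
  simp only [hg k hk]; ring

theorem logsum (A : AO X) (F H : X → ℝ) (hF : ∀ x, 0 < F x) (hH : ∀ x, 0 < H x) (x : X) :
    A.R F x * Real.log (A.R F x / A.R H x) ≤ A.R (fun y => F y * Real.log (F y / H y)) x := by
  have ha := AO_R_pos A hF x
  have hb := AO_R_pos A hH x
  obtain ⟨a, haa⟩ : ∃ a, a = A.R F x := ⟨_, rfl⟩
  obtain ⟨b, hbb⟩ : ∃ b, b = A.R H x := ⟨_, rfl⟩
  rw [← haa] at ha
  rw [← hbb] at hb
  rw [← haa, ← hbb]
  have key : ∀ y, F y * Real.log (a / b) + F y - H y * (a / b) ≤ F y * Real.log (F y / H y) := by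
    intro y
    have h1 : 0 < (F y / H y) / (a / b) := div_pos (div_pos (hF y) (hH y)) (div_pos ha hb)
    have h2 := Real.one_sub_inv_le_log_of_pos h1
    rw [Real.log_div (div_pos (hF y) (hH y)).ne' (div_pos ha hb).ne'] at h2
    have h3 := mul_le_mul_of_nonneg_left h2 (hF y).le
    have h4 : F y * (1 - ((F y / H y) / (a / b))⁻¹) = F y - H y * (a / b) := by
      have := (hF y).ne'
      have := (hH y).ne'
      have := ha.ne'
      have := hb.ne'
      field_simp
    rw [h4] at h3
    linarith
  have h5 := AO_R_mono A key x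
  refine le_trans (le_of_eq ?_) h5
  have h6 : A.R (fun y => F y * Real.log (a / b) + F y - H y * (a / b)) x
      = A.R F x * Real.log (a / b) + A.R F x - A.R H x * (a / b) := by
    unfold AO.R
    rw [Finset.sum_mul, Finset.sum_mul, ← Finset.sum_add_distrib, ← Finset.sum_sub_distrib]
    apply Finset.sum_congr rfl
    intro k _
    ring
  rw [h6, ← haa, ← hbb]
  have := hb.ne'
  field_simp
  ring

theorem compR_pos (A : ℕ → AO X) {F : X → ℝ} (h : ∀ x, 0 < F x) (n : ℕ) :
    ∀ x, 0 < compR A n F x := by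
  induction n with
  | zero => exact h
  | succ n ih => exact fun x => AO_R_pos (A n) ih x

theorem compR_logsum (A : ℕ → AO X) (F H : X → ℝ) (hF : ∀ x, 0 < F x) (hH : ∀ x, 0 < H x)
    (n : ℕ) : ∀ x, compR A n F x * Real.log (compR A n F x / compR A n H x)
      ≤ compR A n (fun y => F y * Real.log (F y / H y)) x := by
  induction n with
  | zero => intro x; exact le_refl _
  | succ n ih =>
    intro x
    refine le_trans (logsum (A n) (compR A n F) (compR A n H) (compR_pos A hF n)
      (compR_pos A hH n) x) ?_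
    exact AO_R_mono (A n) ih x

theorem compR_comm (A : ℕ → AO X) (N n i : ℕ) (hn : n ≤ N) (hi : i < N)
    (hcomm : ∀ i j, i < N → j < N → ∀ F : X → ℝ, (A i).R ((A j).R F) = (A j).R ((A i).R F))
    (F : X → ℝ) : (A i).R (compR A n F) = compR A n ((A i).R F) := by
  induction n with
  | zero => rfl
  | succ n ih =>
    show (A i).R ((A n).R (compR A n F)) = (A n).R (compR A n ((A i).R F))
    rw [hcomm i n hi hn, ih (by omega)]

theorem compR_image (A : ℕ → AO X) (N n i : ℕ) (hn : n ≤ N) (hi : i < n)
    (hcomm : ∀ i j, i < N → j < N → ∀ F : X → ℝ, (A i).R ((A j).R F) = (A j).R ((A i).R F))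
    (F : X → ℝ) : ∃ D : X → ℝ, compR A n F = (A i).R D := by
  induction n with
  | zero => omega
  | succ n ih =>
    rcases Nat.lt_succ_iff_lt_or_eq.1 hi with h | h
    · obtain ⟨D, hD⟩ := ih (by omega) h
      refine ⟨(A n).R D, ?_⟩
      show (A n).R (compR A n F) = _
      rw [hD, hcomm n i (by omega) (by omega)]
    · subst h
      exact ⟨compR A i F, rfl⟩

theorem E_R (m : FM X) (A : AO X)
    (hinv : ∀ F H : X → ℝ, m.E (fun x => F x * A.R H x) = m.E (fun x => A.R F x * A.R H x))
    (F : X → ℝ) : m.E (A.R F) = m.E F := by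
  have h := hinv F (fun _ => 1)
  have h1 : A.R (fun _ => 1) = fun _ => 1 := funext fun x => AO_R_one A x
  simp only [h1, mul_one] at h
  exact h.symm

theorem E_compR (m : FM X) (A : ℕ → AO X) (N : ℕ)
    (hinv : ∀ i, i < N → ∀ F H : X → ℝ,
      m.E (fun x => F x * (A i).R H x) = m.E (fun x => (A i).R F x * (A i).R H x))
    (n : ℕ) (hn : n ≤ N) (F g : X → ℝ)
    (hg : ∀ i, i < n → ∀ x, ∀ k ∈ (A i).K x, g ((A i).c x k) = g x) :
    m.E (fun x => compR A n F x * g x) = m.E (fun x => F x * g x) := by
  induction n with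
  | zero => rfl
  | succ n ih =>
    rw [← ih (by omega) (fun i hi => hg i (by omega))]
    rw [← E_R m (A n) (hinv n (by omega)) (fun x => compR A n F x * g x)]
    congr 1
    funext x
    rw [AO_R_inv (A n) (compR A n F) g x (hg n (by omega) x)]
    rfl

theorem E_mono (m : FM X) {F H : X → ℝ} (h : ∀ x, F x ≤ H x) : m.E F ≤ m.E H :=
  Finset.sum_le_sum fun x hx => mul_le_mul_of_nonneg_left (h x) (m.hw x hx).le

theorem E_add (m : FM X) (F H : X → ℝ) : m.E (fun x => F x + H x) = m.E F + m.E H := by
  unfold FM.E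
  rw [← Finset.sum_add_distrib]
  apply Finset.sum_congr rfl
  intro x _
  ring

/-- entropy tensorisation for commuting self-adjoint averaging projections -/
theorem ent_tensor (m : FM X) (A : ℕ → AO X) (n : ℕ)
    (hcomm : ∀ i j, i < n → j < n → ∀ F : X → ℝ, (A i).R ((A j).R F) = (A j).R ((A i).R F))
    (hinv : ∀ i, i < n → ∀ F H : X → ℝ, m.E (fun x => F x * (A i).R H x) = m.E (fun x => (A i).R F x * (A i).R H x))
    (hcst : ∀ i, i < n → ∀ (F : X → ℝ) (x : X), ∀ k ∈ (A i).K x, (A i).R F ((A i).c x k) = (A i).R F x)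
    (h : X → ℝ) (hpos : ∀ x, 0 < h x) :
    m.E (fun x => h x * Real.log (h x / compR A n h x)) ≤
      ∑ i ∈ Finset.range n, m.E (fun x => h x * Real.log (h x / (A i).R h x)) := by
  suffices H : ∀ k, k ≤ n → m.E (fun x => h x * Real.log (h x / compR A k h x)) ≤
      ∑ i ∈ Finset.range k, m.E (fun x => h x * Real.log (h x / (A i).R h x)) from H n le_rfl
  intro k
  induction k with
  | zero =>
    intro _
    simp only [compR, Finset.range_zero, Finset.sum_empty]
    apply le_of_eq
    unfold FM.E
    apply Finset.sum_eq_zero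
    intro x _
    simp only [div_self (hpos x).ne', Real.log_one, mul_zero]
  | succ k ih =>
    intro hk
    rw [Finset.sum_range_succ]
    have hsplit : (fun x => h x * Real.log (h x / compR A (k+1) h x))
        = fun x => h x * Real.log (h x / compR A k h x)
          + h x * Real.log (compR A k h x / (A k).R (compR A k h) x) := by
      funext x
      have h1 := hpos x
      have h2 := compR_pos A hpos k x
      have h3 := AO_R_pos (A k) (compR_pos A hpos k) x
      show h x * Real.log (h x / (A k).R (compR A k h) x) = _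
      rw [Real.log_div h1.ne' h3.ne', Real.log_div h1.ne' h2.ne', Real.log_div h2.ne' h3.ne']
      ring
    rw [hsplit, E_add]
    refine add_le_add (ih (by omega)) ?_
    have hgi : ∀ i, i < k → ∀ x, ∀ j ∈ (A i).K x,
        (fun x => Real.log (compR A k h x / (A k).R (compR A k h) x)) ((A i).c x j)
        = (fun x => Real.log (compR A k h x / (A k).R (compR A k h) x)) x := by
      intro i hi x j hj
      obtain ⟨D, hD⟩ := compR_image A n k i (by omega) hi hcomm h
      have e2 : (A k).R (compR A k h) = (A i).R ((A k).R D) := by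
        rw [hD, hcomm k i (by omega) (by omega)]
      simp only [e2]
      rw [hcst i (by omega) ((A k).R D) x j hj, hD, hcst i (by omega) D x j hj]
    have h1 := E_compR m A n hinv k (by omega) h
      (fun x => Real.log (compR A k h x / (A k).R (compR A k h) x)) hgi
    rw [← h1, compR_comm A n k k (by omega) (by omega) hcomm h]
    refine le_trans (E_mono m (compR_logsum A h ((A k).R h) hpos (AO_R_pos (A k) hpos) k)) ?_
    have h2 := E_compR m A n hinv k (by omega) (fun y => h y * Real.log (h y / (A k).R h y))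
      (fun _ => 1) (fun _ _ _ _ _ => rfl)
    simp only [mul_one] at h2
    exact le_of_eq h2

end FA
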