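import Pool.Agent.Helper870.FADefs
import Pool.Agent.Helper870.FAG1
import Pool.Agent.Helper870.FAD2
import Pool.Agent.Helper870.FAS10
import Pool.Agent.Helper870.FAD4

set_option autoImplicit false
set_option linter.unusedSectionVars false

open Finset

noncomputable section

namespace FA

/-- all blocks contain an infected site -/
def Good (o : ℤ) (ℓ n : ℕ) (S : Finset ℤ) : Prop := ∀ i < n, (S ∩ Bk o ℓ i).Nonempty

/-- union of the blocks -/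
def Bx (o : ℤ) (ℓ n : ℕ) : Finset ℤ := Icc o (o + n * ℓ - 1)

/-- a boundary condition together with a distance -/
structure Sys where
  k : ℤ → ℤ → ℤ → Finset ℤ → Bool
  D : ℤ → ℤ → ℤ → ℤ → ℕ
  adm : ∀ a b : ℤ, a + 2 ≤ b → Adm a b (k a b)
  D1 : ∀ a b z x : ℤ, z ∈ Icc a b → x ∈ Icc a b → (D a b z x : ℤ) ≤ |z - x|
  D2 : ∀ (a b z x : ℤ) (r : ℕ), z ∈ Icc a b → x ∈ Icc a b → (r : ℤ) ≤ z - a → (r : ℤ) ≤ b - z →
    (r : ℤ) ≤ |z - x| → r ≤ D a b z x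

/-- persistence of infection, in semigroup form -/
def PersS (s : Sys) (q : ℝ) (h0 : 0 < q) (h1 : q < 1) (θ c C : ℝ) (N0 : ℤ) : Prop :=
  ∀ a b : ℤ, N0 ≤ b - a → ∀ z ∈ Icc a b, ∃ V : Finset ℤ → ℝ,
    (∀ S, V S = V (S ∩ Icc a b)) ∧ (∀ S, 0 ≤ V S) ∧
    ∀ S, S ⊆ Icc a b → S.Nonempty →
      (∀ x ∈ S, V S ≤ C * Real.exp (θ * (s.D a b z x : ℝ))) ∧
      (∃ x ∈ S, Real.exp (θ * (s.D a b z x : ℝ)) ≤ C * V S) ∧
      ∀ t : ℝ, 0 ≤ t → (kG q h0.le h1.le (Icc a b) (s.k a b)).P t V S ≤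
        C * Real.exp (-(c * t)) * V S + C

end FA
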