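import Pool.Agent.Helper870.FADefs
import Pool.Agent.Helper870.FAG1
import Pool.Agent.Helper870.FAD2
import Pool.Agent.Helper870.FAS10
import Pool.Agent.Helper870.FAD4

set_option autoImplicit false
set_option linter.unusedSectionVars false

open Finset

noncomputable section

-- USES: G1 D2 S10 D4
namespace FA
variable {q : ℝ}

theorem blk_R (h0 : 0 < q) (h1 : q < 1) (B : Finset ℤ) (F : Finset ℤ → ℝ) (S : Finset ℤ) :
    (blk q h0 h1 B).R F S = avN q B F S := by
  unfold AO.R blk avN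
  by_cases h : S ∩ B = ∅
  · simp [h]
  · simp only [h, if_false]
    rw [Finset.sum_div]
    exact Finset.sum_congr rfl fun U _ => by ring

theorem blk_R' (h0 : 0 < q) (h1 : q < 1) (B : Finset ℤ) (F : Finset ℤ → ℝ) :
    (blk q h0 h1 B).R F = avN q B F := funext fun S => blk_R h0 h1 B F S

theorem avN_of_empty (q : ℝ) (B : Finset ℤ) (F : Finset ℤ → ℝ) (S : Finset ℤ) (h : S ∩ B = ∅) :
    avN q B F S = F S := by
  unfold avN
  rw [if_pos h]

theorem avN_of_ne (q : ℝ) (B : Finset ℤ) (F : Finset ℤ → ℝ) (S : Finset ℤ) (h : S ∩ B ≠ ∅) :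
    avN q B F S =
      (∑ U ∈ B.powerset.filter (fun U => U.Nonempty), wt q B U * F ((S \ B) ∪ U)) / Zn q B := by
  unfold avN
  rw [if_neg h]

theorem blk_set1 (B B' S V : Finset ℤ) (hd : Disjoint B B') (hV : V ⊆ B') :
    ((S \ B') ∪ V) ∩ B = S ∩ B := by
  ext x
  have h1 : x ∈ B → x ∉ B' := fun h => Finset.disjoint_left.1 hd h
  have h2 : x ∈ V → x ∈ B' := fun h => hV h
  simp only [Finset.mem_inter, Finset.mem_union, Finset.mem_sdiff]
  tauto

theorem blk_set2 (B B' S U V : Finset ℤ) (hd : Disjoint B B') (hU : U ⊆ B) (hV : V ⊆ B') :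
    (((S \ B) ∪ U) \ B') ∪ V = (((S \ B') ∪ V) \ B) ∪ U := by
  ext x
  have h1 : x ∈ B → x ∉ B' := fun h => Finset.disjoint_left.1 hd h
  have h2 : x ∈ V → x ∈ B' := fun h => hV h
  have h3 : x ∈ U → x ∈ B := fun h => hU h
  simp only [Finset.mem_union, Finset.mem_sdiff]
  tauto

theorem blk_comm_aux (q : ℝ) (B B' : Finset ℤ) (hd : Disjoint B B') (F : Finset ℤ → ℝ)
    (S : Finset ℤ) (h : S ∩ B = ∅) : avN q B (avN q B' F) S = avN q B' (avN q B F) S := by
  rw [avN_of_empty q B _ S h]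
  by_cases h' : S ∩ B' = ∅
  · rw [avN_of_empty q B' _ S h', avN_of_empty q B' _ S h', avN_of_empty q B _ S h]
  · rw [avN_of_ne q B' _ S h', avN_of_ne q B' _ S h']
    congr 1
    refine Finset.sum_congr rfl fun V hV => ?_
    have hV' := Finset.mem_powerset.1 (Finset.mem_filter.1 hV).1
    rw [avN_of_empty q B F _ (by rw [blk_set1 B B' S V hd hV', h])]

theorem blk_comm (h0 : 0 < q) (h1 : q < 1) (B B' : Finset ℤ) (hd : Disjoint B B') (F : Finset ℤ → ℝ) :
    (blk q h0 h1 B).R ((blk q h0 h1 B').R F) = (blk q h0 h1 B').R ((blk q h0 h1 B).R F) := by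
  rw [blk_R', blk_R', blk_R', blk_R']
  funext S
  by_cases h : S ∩ B = ∅
  · exact blk_comm_aux q B B' hd F S h
  by_cases h' : S ∩ B' = ∅
  · exact (blk_comm_aux q B' B hd.symm F S h').symm
  rw [avN_of_ne q B _ S h, avN_of_ne q B' _ S h']
  have e1 : ∀ U ∈ B.powerset.filter (fun U => U.Nonempty), wt q B U * avN q B' F ((S \ B) ∪ U) =
      ∑ V ∈ B'.powerset.filter (fun U => U.Nonempty),
        wt q B U * wt q B' V * F ((((S \ B) ∪ U) \ B') ∪ V) / Zn q B' := by
    intro U hU
    have hU' := Finset.mem_powerset.1 (Finset.mem_filter.1 hU).1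
    rw [avN_of_ne q B' F _ (by rw [blk_set1 B' B S U hd.symm hU']; exact h'),
      Finset.sum_div, Finset.mul_sum]
    exact Finset.sum_congr rfl fun V _ => by ring
  have e2 : ∀ V ∈ B'.powerset.filter (fun U => U.Nonempty), wt q B' V * avN q B F ((S \ B') ∪ V) =
      ∑ U ∈ B.powerset.filter (fun U => U.Nonempty),
        wt q B U * wt q B' V * F ((((S \ B) ∪ U) \ B') ∪ V) / Zn q B := by
    intro V hV
    have hV' := Finset.mem_powerset.1 (Finset.mem_filter.1 hV).1
    rw [avN_of_ne q B F _ (by rw [blk_set1 B B' S V hd hV']; exact h),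
      Finset.sum_div, Finset.mul_sum]
    refine Finset.sum_congr rfl fun U hU => ?_
    have hU' := Finset.mem_powerset.1 (Finset.mem_filter.1 hU).1
    rw [blk_set2 B B' S U V hd hU' hV']
    ring
  rw [Finset.sum_congr rfl e1, Finset.sum_congr rfl e2, Finset.sum_comm, Finset.sum_div,
    Finset.sum_div]
  refine Finset.sum_congr rfl fun V _ => ?_
  rw [Finset.sum_div, Finset.sum_div]
  exact Finset.sum_congr rfl fun U _ => by ring

theorem blk_set3 (B S U : Finset ℤ) (hU : U ⊆ B) : ((S \ B) ∪ U) ∩ B = U := by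
  ext x
  have h3 : x ∈ U → x ∈ B := fun h => hU h
  simp only [Finset.mem_union, Finset.mem_sdiff, Finset.mem_inter]
  tauto

theorem blk_set4 (B S U : Finset ℤ) (hU : U ⊆ B) : ((S \ B) ∪ U) \ B = S \ B := by
  ext x
  have h3 : x ∈ U → x ∈ B := fun h => hU h
  simp only [Finset.mem_union, Finset.mem_sdiff]
  tauto

theorem blk_cst_aux (h0 : 0 < q) (h1 : q < 1) (B : Finset ℤ) (F : Finset ℤ → ℝ) (S U : Finset ℤ)
    (hU : U ∈ (if S ∩ B = ∅ then {∅} else B.powerset.filter (fun U => U.Nonempty) :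
      Finset (Finset ℤ))) :
    avN q B F (if S ∩ B = ∅ then S else (S \ B) ∪ U) = avN q B F S := by
  by_cases h : S ∩ B = ∅
  · rw [if_pos h]
  · rw [if_neg h, Finset.mem_filter, Finset.mem_powerset] at hU
    rw [if_neg h, avN_of_ne q B F S h,
      avN_of_ne q B F _ (by rw [blk_set3 B S U hU.1]; exact hU.2.ne_empty), blk_set4 B S U hU.1]

theorem blk_cst (h0 : 0 < q) (h1 : q < 1) (B : Finset ℤ) (F : Finset ℤ → ℝ) (S : Finset ℤ) :
    ∀ U ∈ (blk q h0 h1 B).K S, (blk q h0 h1 B).R F ((blk q h0 h1 B).c S U) = (blk q h0 h1 B).R F S := by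
  intro U hU
  rw [blk_R, blk_R]
  exact blk_cst_aux h0 h1 B F S U hU

/-- `C` is stable under resampling the (nonempty) block `B` -/
def Stab (A B : Finset ℤ) (C : Finset ℤ → Prop) : Prop :=
  ∀ S, S ⊆ A → C S → (S ∩ B).Nonempty → ∀ U, U ⊆ B → U.Nonempty → C ((S \ B) ∪ U)

theorem blk_inv_split (q : ℝ) (B : Finset ℤ) (G : Finset ℤ → ℝ) (S : Finset ℤ) (hS : S \ B = S) :
    av q B G S = wt q B ∅ * G S +
      ∑ V ∈ B.powerset.filter (fun U => U.Nonempty), wt q B V * G (S ∪ V) := by
  unfold av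
  rw [hS, ← Finset.sum_filter_add_sum_filter_not B.powerset (fun U => U.Nonempty), add_comm]
  congr 1
  have h2 : B.powerset.filter (fun U => ¬ U.Nonempty) = {∅} := by
    ext U
    simp only [Finset.mem_filter, Finset.mem_powerset, Finset.not_nonempty_iff_eq_empty,
      Finset.mem_singleton]
    constructor
    · exact fun h => h.2
    · intro h; subst h; exact ⟨Finset.empty_subset _, rfl⟩
  rw [h2, Finset.sum_singleton, Finset.union_empty]

open Classical in
theorem blk_inv_block (h0 : 0 < q) (h1 : q < 1) (A B : Finset ℤ) (hBA : B ⊆ A)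
    (C : Finset ℤ → Prop) (hst : Stab A B C) (F H : Finset ℤ → ℝ) (S : Finset ℤ)
    (hSA : S ⊆ A \ B) :
    av q B (fun S => if C S then F S * avN q B H S else 0) S =
      av q B (fun S => if C S then avN q B F S * avN q B H S else 0) S := by
  have hSB : S \ B = S := by
    rw [Finset.sdiff_eq_self_iff_disjoint]
    exact Finset.disjoint_of_subset_left hSA Finset.sdiff_disjoint
  have hSB' : S ∩ B = ∅ := by
    rw [← Finset.disjoint_iff_inter_eq_empty, ← Finset.sdiff_eq_self_iff_disjoint]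
    exact hSB
  rw [blk_inv_split q B _ S hSB, blk_inv_split q B _ S hSB]
  congr 1
  · rw [avN_of_empty q B F S hSB']
  · have hN : ∀ (f : Finset ℤ → ℝ) (V : Finset ℤ), V ⊆ B → V.Nonempty →
        avN q B f (S ∪ V) =
          (∑ U ∈ B.powerset.filter (fun U => U.Nonempty), wt q B U * f (S ∪ U)) / Zn q B := by
      intro f V hV hVn
      have e1 : S ∪ V = (S \ B) ∪ V := by rw [hSB]
      rw [e1, avN_of_ne q B f _ (by rw [blk_set3 B S V hV]; exact hVn.ne_empty),
        blk_set4 B S V hV, hSB]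
    by_cases hex : ∃ V0, V0 ⊆ B ∧ V0.Nonempty ∧ C (S ∪ V0)
    · obtain ⟨V0, hV0, hV0n, hCV0⟩ := hex
      have hBn : B.Nonempty := hV0n.mono hV0
      have hZ := Zn_pos' h0 h1 B hBn
      have hall : ∀ V, V ⊆ B → V.Nonempty → C (S ∪ V) := by
        intro V hV hVn
        have hsub : S ∪ V0 ⊆ A := Finset.union_subset (hSA.trans Finset.sdiff_subset)
          (hV0.trans hBA)
        have e1 : S ∪ V0 = (S \ B) ∪ V0 := by rw [hSB]
        have := hst (S ∪ V0) hsub hCV0 (by
          rw [e1, blk_set3 B S V0 hV0]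
          exact hV0n) V hV hVn
        rw [e1, blk_set4 B S V0 hV0, hSB] at this
        exact this
      set rF := (∑ U ∈ B.powerset.filter (fun U => U.Nonempty), wt q B U * F (S ∪ U)) / Zn q B
        with hrF
      set rH := (∑ U ∈ B.powerset.filter (fun U => U.Nonempty), wt q B U * H (S ∪ U)) / Zn q B
        with hrH
      have e1 : ∑ V ∈ B.powerset.filter (fun U => U.Nonempty),
          wt q B V * (if C (S ∪ V) then F (S ∪ V) * avN q B H (S ∪ V) else 0) =
          (∑ V ∈ B.powerset.filter (fun U => U.Nonempty), wt q B V * F (S ∪ V)) * rH := by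
        rw [Finset.sum_mul]
        refine Finset.sum_congr rfl fun V hV => ?_
        rw [Finset.mem_filter, Finset.mem_powerset] at hV
        rw [if_pos (hall V hV.1 hV.2), hN H V hV.1 hV.2]
        ring
      have e2 : ∑ V ∈ B.powerset.filter (fun U => U.Nonempty),
          wt q B V * (if C (S ∪ V) then avN q B F (S ∪ V) * avN q B H (S ∪ V) else 0) =
          (∑ V ∈ B.powerset.filter (fun U => U.Nonempty), wt q B V) * (rF * rH) := by
        rw [Finset.sum_mul]
        refine Finset.sum_congr rfl fun V hV => ?_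
        rw [Finset.mem_filter, Finset.mem_powerset] at hV
        rw [if_pos (hall V hV.1 hV.2), hN H V hV.1 hV.2, hN F V hV.1 hV.2]
      rw [e1, e2, wt_sum_ne, hrF]
      field_simp
    · refine Finset.sum_congr rfl fun V hV => ?_
      rw [Finset.mem_filter, Finset.mem_powerset] at hV
      have hnC : ¬ C (S ∪ V) := fun h => hex ⟨V, hV.1, hV.2, h⟩
      rw [if_neg hnC, if_neg hnC]

theorem blk_inv (h0 : 0 < q) (h1 : q < 1) (A B : Finset ℤ) (hBA : B ⊆ A) (C : Finset ℤ → Prop)
    (hC : ∃ S ∈ (pfm q h0 h1 A).s, C S) (hst : Stab A B C) (F H : Finset ℤ → ℝ) :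
    ((pfm q h0 h1 A).cond C hC).E (fun S => F S * (blk q h0 h1 B).R H S) =
      ((pfm q h0 h1 A).cond C hC).E (fun S => (blk q h0 h1 B).R F S * (blk q h0 h1 B).R H S) := by
  classical
  rw [FM.cond_E, FM.cond_E]
  congr 1
  rw [blk_R', blk_R', pfm_E, pfm_E]
  have hsplit : ∀ G : Finset ℤ → ℝ, EA q A G =
      ∑ S ∈ (A \ B).powerset, wt q (A \ B) S * av q B G S := by
    intro G
    have hd : Disjoint (A \ B) B := Finset.sdiff_disjoint
    have hA : (A \ B) ∪ B = A := Finset.sdiff_union_of_subset hBA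
    rw [EA_eq_av, ← congrArg (fun A' => av q A' G ∅) hA]
    show av q ((A \ B) ∪ B) G ∅ = _
    rw [← av_av q hd G ∅]
    show ∑ U ∈ (A \ B).powerset, wt q (A \ B) U * av q B G ((∅ \ (A \ B)) ∪ U) = _
    simp only [Finset.empty_sdiff, Finset.empty_union]
  rw [hsplit, hsplit]
  refine Finset.sum_congr rfl fun S hS => ?_
  rw [blk_inv_block h0 h1 A B hBA C hst F H S (Finset.mem_powerset.1 hS)]

end FA
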