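import Pool.Agent.Helper870.FADefs
import Pool.Agent.Helper870.FAG1

set_option autoImplicit false
set_option linter.unusedSectionVars false

open Finset

noncomputable section

-- USES: G1
namespace FA
variable {q : ℝ} {A B : Finset ℤ}

theorem tb_sdiff (A S U : Finset ℤ) (hU : U ⊆ A) : ((S \ A) ∪ U) \ A = S \ A := by
  ext x
  simp only [Finset.mem_sdiff, Finset.mem_union]
  constructor
  · rintro ⟨h1 | h1, h2⟩
    · exact h1
    · exact absurd (hU h1) h2
  · rintro ⟨h1, h2⟩
    exact ⟨Or.inl ⟨h1, h2⟩, h2⟩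

theorem tb_av_self (q : ℝ) (A : Finset ℤ) (G : Finset ℤ → ℝ) (S : Finset ℤ)
    (h : ∀ U ⊆ A, G ((S \ A) ∪ U) = G S) : av q A G S = G S := by
  rw [av_congr q A G (fun _ => G S) S h, av_const]

theorem tb_av_av (q : ℝ) (A : Finset ℤ) (F : Finset ℤ → ℝ) (S : Finset ℤ) :
    av q A (av q A F) S = av q A F S :=
  tb_av_self q A (av q A F) S fun U hU => av_out q A F _ _ (tb_sdiff A S U hU)

theorem tb_va_out (q : ℝ) (A : Finset ℤ) (F : Finset ℤ → ℝ) (S S' : Finset ℤ)
    (h : S \ A = S' \ A) : va q A F S = va q A F S' := by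
  unfold va
  rw [av_out q A _ S S' h, av_out q A F S S' h]

theorem tb_av_va (q : ℝ) (A : Finset ℤ) (F : Finset ℤ → ℝ) (S : Finset ℤ) :
    av q A (va q A F) S = va q A F S :=
  tb_av_self q A (va q A F) S fun U hU => tb_va_out q A F _ _ (tb_sdiff A S U hU)

theorem tb_av_fun (q : ℝ) (A : Finset ℤ) (F H : Finset ℤ → ℝ) (S : Finset ℤ)
    (h : ∀ T, F T = H T) : av q A F S = av q A H S :=
  av_congr q A F H S fun U _ => h _

/-- constrained two-block inequality -/
theorem two_block (h0 : 0 < q) (h1 : q < 1) (hd : Disjoint A B) (c : Finset ℤ → ℝ)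
    (hc01 : ∀ S, c S = 0 ∨ c S = 1) (hcB : ∀ S, ∀ V ⊆ B, c ((S \ B) ∪ V) = c S)
    (ε : ℝ) (he0 : 0 < ε) (he1 : ε < 1) (hce : ∀ S, av q A (fun T => 1 - c T) S = ε)
    (F : Finset ℤ → ℝ) (S : Finset ℤ) :
    va q (A ∪ B) F S ≤
      (1 - Real.sqrt ε)⁻¹ * av q (A ∪ B) (fun T => va q A F T + c T * va q B F T) S := by
  set s := Real.sqrt ε with hs
  have hs0 : 0 < s := Real.sqrt_pos.2 he0
  have hs1 : s < 1 := by
    rw [hs, Real.sqrt_lt' one_pos]
    simpa using he1
  have hss : s ^ 2 = ε := Real.sq_sqrt he0.le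
  have hcc : ∀ T, c T * c T = c T := by
    intro T
    rcases hc01 T with h | h <;> rw [h] <;> norm_num
  let k : Finset ℤ → ℝ := fun T => F T - av q B F T
  have hcav : ∀ T, av q A c T = 1 - ε := by
    intro T
    have e1 : av q A (fun T => c T + (1 - c T)) T = 1 := by
      rw [tb_av_fun q A (fun T => c T + (1 - c T)) (fun _ => 1) T (fun U => by ring), av_const]
    rw [av_add, hce] at e1
    have e2 : av q A (fun T => c T) T = av q A c T := rfl
    linarith
  -- pointwise estimate
  have hpt : ∀ T, (av q A k T) ^ 2 ≤ (1 + s) * av q A (fun U => c U * k U ^ 2) T +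
      s * av q A (fun U => (1 - c U) * k U ^ 2) T := by
    intro T
    set P := av q A (fun U => c U * k U ^ 2) T with hP
    set Q := av q A (fun U => (1 - c U) * k U ^ 2) T with hQ
    have ha : (av q A (fun U => c U * k U) T) ^ 2 ≤ (1 - s ^ 2) * P := by
      have e := av_cs h0.le h1.le A c (fun U => c U * k U) T
      have e1 : av q A (fun U => c U * (c U * k U)) T = av q A (fun U => c U * k U) T :=
        tb_av_fun _ _ _ _ _ fun U => by
          rw [← mul_assoc, hcc]
      have e2 : av q A (fun U => c U ^ 2) T = 1 - s ^ 2 := by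
        rw [hss, ← hcav T]
        exact tb_av_fun _ _ _ _ _ fun U => by rw [sq, hcc]
      have e3 : av q A (fun U => (c U * k U) ^ 2) T = P :=
        tb_av_fun _ _ _ _ _ fun U => by rw [mul_pow, sq (c U), hcc]
      rw [e1, e2, e3] at e
      exact e
    have hb : (av q A (fun U => (1 - c U) * k U) T) ^ 2 ≤ s ^ 2 * Q := by
      have hcc' : ∀ U, (1 - c U) * (1 - c U) = 1 - c U := by
        intro U
        have := hcc U
        linear_combination this
      have e := av_cs h0.le h1.le A (fun U => 1 - c U) (fun U => (1 - c U) * k U) T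
      have e1 : av q A (fun U => (1 - c U) * ((1 - c U) * k U)) T =
          av q A (fun U => (1 - c U) * k U) T :=
        tb_av_fun _ _ _ _ _ fun U => by
          rw [← mul_assoc, hcc']
      have e2 : av q A (fun U => (1 - c U) ^ 2) T = s ^ 2 := by
        rw [hss, ← hce T]
        exact tb_av_fun _ _ _ _ _ fun U => by rw [sq, hcc']
      have e3 : av q A (fun U => ((1 - c U) * k U) ^ 2) T = Q :=
        tb_av_fun _ _ _ _ _ fun U => by rw [mul_pow, sq (1 - c U), hcc']
      rw [e1, e2, e3] at e
      exact e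
    have hab : av q A k T = av q A (fun U => c U * k U) T + av q A (fun U => (1 - c U) * k U) T := by
      rw [← av_add]
      exact tb_av_fun _ _ _ _ _ fun U => by ring
    rw [hab]
    set a := av q A (fun U => c U * k U) T
    set b := av q A (fun U => (1 - c U) * k U) T
    have hpos : 0 < s * (1 - s) := mul_pos hs0 (by linarith)
    have e1 : s * (1 - s) * (a + b) ^ 2 ≤ s * a ^ 2 + (1 - s) * b ^ 2 := by
      have : 0 ≤ (s * a - (1 - s) * b) ^ 2 := sq_nonneg _
      nlinarith [this]
    have e2 : s * a ^ 2 ≤ s * ((1 - s ^ 2) * P) := mul_le_mul_of_nonneg_left ha hs0.le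
    have e3 : (1 - s) * b ^ 2 ≤ (1 - s) * (s ^ 2 * Q) :=
      mul_le_mul_of_nonneg_left hb (by linarith)
    have e4 : s * (1 - s) * (a + b) ^ 2 ≤ s * (1 - s) * ((1 + s) * P + s * Q) := by
      calc s * (1 - s) * (a + b) ^ 2 ≤ s * ((1 - s ^ 2) * P) + (1 - s) * (s ^ 2 * Q) := by linarith
        _ = s * (1 - s) * ((1 + s) * P + s * Q) := by ring
    exact le_of_mul_le_mul_left e4 hpos
  set X := av q (A ∪ B) (fun U => c U * k U ^ 2) S with hX
  set Y := av q (A ∪ B) (fun U => (1 - c U) * k U ^ 2) S with hY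
  -- W
  have hW1 : va q B (av q A F) S = av q B (fun T => (av q A k T) ^ 2) S := by
    rw [va_eq]
    apply tb_av_fun
    intro T
    have e1 : av q A F T - av q B (av q A F) T = av q A k T := by
      rw [av_comm q B A F T]
      have e2 : av q A F T = av q A (fun U => k U + av q B F U) T :=
        tb_av_fun _ _ _ _ _ fun U => by simp only [k]; ring
      rw [e2, av_add]
      have e3 : av q A (fun U => av q B F U) T = av q A (av q B F) T := rfl
      rw [e3]
      have e4 : av q A (fun U => k U) T = av q A k T := rfl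
      rw [e4]
      ring
    rw [e1]
  have hW2 : va q B (av q A F) S ≤ (1 + s) * X + s * Y := by
    rw [hW1]
    refine (av_mono h0.le h1.le B _ (fun T => (1 + s) * av q A (fun U => c U * k U ^ 2) T +
      s * av q A (fun U => (1 - c U) * k U ^ 2) T) S (fun U _ => hpt _)).trans (le_of_eq ?_)
    rw [av_add, av_smul, av_smul]
    have e1 : av q B (fun T => av q A (fun U => c U * k U ^ 2) T) S = X := by
      have e2 : av q B (fun T => av q A (fun U => c U * k U ^ 2) T) S =
        av q B (av q A (fun U => c U * k U ^ 2)) S := rfl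
      rw [e2, av_comm, av_av q hd]
    have e3 : av q B (fun T => av q A (fun U => (1 - c U) * k U ^ 2) T) S = Y := by
      have e2 : av q B (fun T => av q A (fun U => (1 - c U) * k U ^ 2) T) S =
        av q B (av q A (fun U => (1 - c U) * k U ^ 2)) S := rfl
      rw [e2, av_comm, av_av q hd]
    rw [e1, e3]
  -- V
  have hvaB : ∀ T, va q B F T = av q B (fun U => k U ^ 2) T := fun T => va_eq q B F T
  have hV1 : va q (A ∪ B) F S = X + Y + va q A (av q B F) S := by
    rw [va_union q hd F S]
    have e1 : av q A (va q B F) S = X + Y := by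
      rw [tb_av_fun q A (va q B F) (av q B (fun U => k U ^ 2)) S hvaB, av_av q hd, hX, hY, ← av_add]
      exact tb_av_fun _ _ _ _ _ fun U => by ring
    rw [e1]
  have hV2 : va q (A ∪ B) F S = av q B (va q A F) S + va q B (av q A F) S := by
    rw [Finset.union_comm A B]
    exact va_union q hd.symm F S
  have hnn : 0 ≤ va q A (av q B F) S := va_nonneg h0.le h1.le A _ S
  -- RHS
  have hR : av q (A ∪ B) (fun T => va q A F T + c T * va q B F T) S =
      av q B (va q A F) S + X := by
    rw [av_add]
    congr 1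
    · have e1 : av q (A ∪ B) (fun T => va q A F T) S = av q (A ∪ B) (va q A F) S := rfl
      rw [e1, ← av_av q hd, av_comm]
      exact tb_av_fun _ _ _ _ _ fun T => tb_av_va q A F T
    · rw [← av_av q hd, hX, ← av_av q hd]
      apply tb_av_fun
      intro T
      rw [av_mul_left q B c (fun T => va q B F T) T (fun U hU => hcB T U hU),
        av_mul_left q B c (fun T => k T ^ 2) T (fun U hU => hcB T U hU)]
      congr 1
      have e1 : av q B (fun T => va q B F T) T = av q B (va q B F) T := rfl
      rw [e1, tb_av_va, hvaB]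
  rw [hR]
  have h1s : 0 < 1 - s := by linarith
  rw [← div_eq_inv_mul, le_div_iff₀ h1s]
  have hsn : 0 ≤ s * va q A (av q B F) S := mul_nonneg hs0.le hnn
  have e5 : s * va q (A ∪ B) F S = s * X + s * Y + s * va q A (av q B F) S := by
    rw [hV1]; ring
  have e6 : va q (A ∪ B) F S * (1 - s) = va q (A ∪ B) F S - s * va q (A ∪ B) F S := by ring
  rw [e6]
  have e7 : (1 + s) * X = X + s * X := by ring
  linarith

end FA
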