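import Pool.Agent.Helper870.FADefs
import Pool.Agent.Helper870.FAG1
import Pool.Agent.Helper870.FAG2

set_option autoImplicit false
set_option linter.unusedSectionVars false

open Finset

noncomputable section

-- USES: G1 G2
namespace FA
variable {q : ℝ}

theorem east_fin_ce01 (a y : ℤ) (S : Finset ℤ) : ce a y S = 0 ∨ ce a y S = 1 := by
  unfold ce; split_ifs <;> simp

theorem east_fin_ce_nonneg (a y : ℤ) (S : Finset ℤ) : 0 ≤ ce a y S := by
  unfold ce; split_ifs <;> norm_num

theorem east_fin_vx_nonneg (h0 : 0 < q) (h1 : q < 1) (y : ℤ) (F : Finset ℤ → ℝ) (S : Finset ℤ) :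
    0 ≤ vx q y F S := by
  unfold vx
  have : 0 < 1 - q := by linarith
  positivity

theorem east_fin_idem (q : ℝ) (A : Finset ℤ) (F : Finset ℤ → ℝ) (S : Finset ℤ) :
    av q A (av q A F) S = av q A F S := by
  have h : av q A (av q A F) S = av q A (fun _ => av q A F S) S := by
    apply av_congr
    intro U hU
    apply av_out
    ext x
    simp only [Finset.mem_sdiff, Finset.mem_union]
    constructor
    · rintro ⟨h1 | h1, h2⟩
      · exact h1
      · exact absurd (hU h1) h2
    · rintro ⟨h1, h2⟩
      exact ⟨Or.inl ⟨h1, h2⟩, h2⟩
  rw [h, av_const]

theorem east_fin_Icc (a b : ℤ) (hab : a < b) : Icc a b = Icc a (b - 1) ∪ {b} := by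
  ext x
  simp only [Finset.mem_Icc, Finset.mem_union, Finset.mem_singleton]
  omega

/-- East chain on bounded intervals: Poincare inequality, constant depending on the length -/
theorem east_fin (h0 : 0 < q) (h1 : q < 1) (n : ℕ) : ∃ C : ℝ, 0 < C ∧ ∀ a b : ℤ, b < a + n →
    ∀ (F : Finset ℤ → ℝ) (S : Finset ℤ),
      va q (Icc a b) F S ≤ C * av q (Icc a b) (fun T => ∑ y ∈ Icc a b, ce a y T * vx q y F T) S := by
  -- the empty interval
  have hemp : ∀ (C : ℝ) (a b : ℤ), b < a → ∀ (F : Finset ℤ → ℝ) (S : Finset ℤ),
      va q (Icc a b) F S ≤
        C * av q (Icc a b) (fun T => ∑ y ∈ Icc a b, ce a y T * vx q y F T) S := by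
    intro C a b hab F S
    rw [Finset.Icc_eq_empty (by omega)]
    unfold va
    rw [av_empty, av_empty, av_empty]
    simp
  induction n with
  | zero =>
    refine ⟨1, one_pos, fun a b hab F S => hemp 1 a b (by simpa using hab) F S⟩
  | succ n ih =>
    obtain ⟨C, hC, hI⟩ := ih
    have hs0 : 0 < 1 - q := by linarith
    have hs1 : Real.sqrt (1 - q) < 1 := by
      rw [Real.sqrt_lt' one_pos]; linarith
    have hK0 : 0 < (1 - Real.sqrt (1 - q))⁻¹ := inv_pos.mpr (by linarith)
    have hK1 : 1 ≤ (1 - Real.sqrt (1 - q))⁻¹ := by
      rw [one_le_inv₀ (by linarith)]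
      have := Real.sqrt_nonneg (1 - q)
      linarith
    set K : ℝ := (1 - Real.sqrt (1 - q))⁻¹ with hKdef
    set M : ℝ := max C 1 with hMdef
    have hM1 : 1 ≤ M := le_max_right _ _
    have hMC : C ≤ M := le_max_left _ _
    refine ⟨K * M, by positivity, fun a b hab F S => ?_⟩
    rcases lt_trichotomy b a with hba | hba | hba
    · exact hemp _ a b hba F S
    · subst hba
      have hIcc : Icc b b = ({b} : Finset ℤ) := by simp
      rw [hIcc, va_sing]
      have h2 : av q {b} (fun T => ∑ y ∈ ({b} : Finset ℤ), ce b y T * vx q y F T) S
          = vx q b F S := by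
        have h3 : av q {b} (fun T => ∑ y ∈ ({b} : Finset ℤ), ce b y T * vx q y F T) S
            = av q {b} (fun _ => vx q b F S) S := by
          apply av_congr
          intro U hU
          rw [Finset.sum_singleton]
          have h4 : ce b b ((S \ {b}) ∪ U) = 1 := by unfold ce; simp
          rw [h4, one_mul]
          unfold vx
          have h5 : insert b ((S \ {b}) ∪ U) = insert b S := by
            ext x
            simp only [Finset.mem_insert, Finset.mem_union, Finset.mem_sdiff,
              Finset.mem_singleton]
            constructor
            · rintro (h | ⟨h, -⟩ | h)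
              · exact Or.inl h
              · exact Or.inr h
              · exact Or.inl (by simpa using hU h)
            · rintro (h | h)
              · exact Or.inl h
              · by_cases hx : x = b
                · exact Or.inl hx
                · exact Or.inr (Or.inl ⟨h, hx⟩)
          have h6 : ((S \ {b}) ∪ U).erase b = S.erase b := by
            ext x
            simp only [Finset.mem_erase, Finset.mem_union, Finset.mem_sdiff,
              Finset.mem_singleton]
            constructor
            · rintro ⟨hx, ⟨h, -⟩ | h⟩
              · exact ⟨hx, h⟩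
              · exact absurd (by simpa using hU h) hx
            · rintro ⟨hx, h⟩
              exact ⟨hx, Or.inl ⟨h, hx⟩⟩
          rw [h5, h6]
        rw [h3, av_const]
      rw [h2]
      have h7 := east_fin_vx_nonneg h0 h1 b F S
      have h8 : 1 ≤ K * M := one_le_mul_of_one_le_of_one_le hK1 hM1
      nlinarith
    · -- the main case
      have hd : Disjoint (Icc a (b - 1)) ({b} : Finset ℤ) := by
        rw [Finset.disjoint_singleton_right, Finset.mem_Icc]
        omega
      have hIcc := east_fin_Icc a b hba
      have hce : ∀ T : Finset ℤ, ce a b T = if b - 1 ∈ T then 1 else 0 := by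
        intro T
        unfold ce
        have : ¬ b = a := by omega
        simp [this]
      have h2b := two_block (q := q) (A := Icc a (b - 1)) (B := {b}) h0 h1 hd (ce a b)
        (fun S => east_fin_ce01 a b S)
        (by
          intro S V hV
          rw [hce, hce]
          have : (b - 1 ∈ (S \ {b}) ∪ V) ↔ b - 1 ∈ S := by
            simp only [Finset.mem_union, Finset.mem_sdiff, Finset.mem_singleton]
            constructor
            · rintro (⟨h, -⟩ | h)
              · exact h
              · have := hV h
                rw [Finset.mem_singleton] at this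
                omega
            · intro h
              exact Or.inl ⟨h, by omega⟩
          simp only [this])
        (1 - q) hs0 (by linarith)
        (by
          intro S
          have hsplit : Icc a (b - 1) = Icc a (b - 1 - 1) ∪ {b - 1} := by
            ext x
            simp only [Finset.mem_Icc, Finset.mem_union, Finset.mem_singleton]
            omega
          rw [hsplit, ← av_av]
          · have h3 : (fun T => av q {b - 1} (fun T => 1 - ce a b T) T) = fun _ => 1 - q := by
              funext T
              rw [av_sing, hce, hce]
              simp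
            have h4 : av q {b - 1} (fun T => 1 - ce a b T) = fun _ => 1 - q := h3
            rw [h4, av_const]
          · rw [Finset.disjoint_singleton_right, Finset.mem_Icc]
            omega)
        F S
      rw [← hIcc] at h2b
      refine h2b.trans ?_
      rw [← hKdef, mul_assoc]
      refine mul_le_mul_of_nonneg_left ?_ hK0.le
      have hb' : b - 1 < a + n := by push_cast at hab; omega
      -- bound the inner average
      have step1 : av q (Icc a b) (fun T => va q (Icc a (b - 1)) F T + ce a b T * va q {b} F T) S
          ≤ av q (Icc a b) (fun T => C * av q (Icc a (b - 1))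
              (fun T => ∑ y ∈ Icc a (b - 1), ce a y T * vx q y F T) T
              + ce a b T * vx q b F T) S := by
        refine av_mono h0.le h1.le _ _ _ _ fun U _ => ?_
        rw [va_sing]
        gcongr
        exact hI a (b - 1) hb' F _
      refine step1.trans ?_
      rw [av_add, av_smul]
      have step2 : av q (Icc a b) (fun T => av q (Icc a (b - 1))
            (fun T => ∑ y ∈ Icc a (b - 1), ce a y T * vx q y F T) T) S
          = av q (Icc a b) (fun T => ∑ y ∈ Icc a (b - 1), ce a y T * vx q y F T) S := by
        rw [hIcc, Finset.union_comm, ← av_av q hd.symm, ← av_av q hd.symm]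
        congr 1
        funext T
        exact east_fin_idem q _ _ T
      rw [step2]
      have hsum : ∀ T, ∑ y ∈ Icc a b, ce a y T * vx q y F T
          = ∑ y ∈ Icc a (b - 1), ce a y T * vx q y F T + ce a b T * vx q b F T := by
        intro T
        rw [hIcc, Finset.sum_union hd, Finset.sum_singleton]
      have step3 : av q (Icc a b) (fun T => ∑ y ∈ Icc a b, ce a y T * vx q y F T) S
          = av q (Icc a b) (fun T => ∑ y ∈ Icc a (b - 1), ce a y T * vx q y F T) S
            + av q (Icc a b) (fun T => ce a b T * vx q b F T) S := by
        rw [← av_add]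
        congr 1
        funext T
        exact hsum T
      rw [step3, mul_add]
      have p1 : 0 ≤ av q (Icc a b) (fun T => ∑ y ∈ Icc a (b - 1), ce a y T * vx q y F T) S :=
        av_nonneg h0.le h1.le _ _ _ fun T => Finset.sum_nonneg fun y _ =>
          mul_nonneg (east_fin_ce_nonneg _ _ _) (east_fin_vx_nonneg h0 h1 _ _ _)
      have p2 : 0 ≤ av q (Icc a b) (fun T => ce a b T * vx q b F T) S :=
        av_nonneg h0.le h1.le _ _ _ fun T =>
          mul_nonneg (east_fin_ce_nonneg _ _ _) (east_fin_vx_nonneg h0 h1 _ _ _)
      refine add_le_add (mul_le_mul_of_nonneg_right hMC p1) ?_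
      nlinarith

end FA
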