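import Pool.Agent.Helper870.FADefs
import Pool.Agent.Helper870.FAG1
import Pool.Agent.Helper870.FAG3
import Pool.Agent.Helper870.FAG4

set_option autoImplicit false
set_option linter.unusedSectionVars false

open Finset

noncomputable section

-- USES: G1 G3 G4
namespace FA
variable {q : ℝ}

theorem g5_sd {A T U : Finset ℤ} (hU : U ⊆ A) : ((T \ A) ∪ U) \ A = T \ A := by
  ext x
  simp only [Finset.mem_sdiff, Finset.mem_union]
  constructor
  · rintro ⟨h1 | h1, h2⟩
    · exact h1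
    · exact absurd (hU h1) h2
  · rintro ⟨h1, h2⟩
    exact ⟨Or.inl ⟨h1, h2⟩, h2⟩

theorem g5_av_idem (q : ℝ) (A : Finset ℤ) (F : Finset ℤ → ℝ) (T : Finset ℤ) :
    av q A (av q A F) T = av q A F T :=
  (av_congr q A (av q A F) (fun _ => av q A F T) T
    (fun _ hU => av_out q A F _ _ (g5_sd hU))).trans (av_const _ _ _ _)

theorem g5_va_out (q : ℝ) (A : Finset ℤ) (F : Finset ℤ → ℝ) (S S' : Finset ℤ)
    (h : S \ A = S' \ A) : va q A F S = va q A F S' := by
  unfold va
  rw [av_out q A _ S S' h, av_out q A F S S' h]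

theorem g5_av_va (q : ℝ) (A : Finset ℤ) (F : Finset ℤ → ℝ) (T : Finset ℤ) :
    av q A (va q A F) T = va q A F T :=
  (av_congr q A (va q A F) (fun _ => va q A F T) T
    (fun _ hU => g5_va_out q A F _ _ (g5_sd hU))).trans (av_const _ _ _ _)

theorem g5_av_sub (q : ℝ) {A B : Finset ℤ} (h : A ⊆ B) (F : Finset ℤ → ℝ) (S : Finset ℤ) :
    av q B (av q A F) S = av q B F S := by
  have hd : Disjoint (B \ A) A := Finset.sdiff_disjoint
  have hB : B = (B \ A) ∪ A := (Finset.sdiff_union_of_subset h).symm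
  have h1 : av q B (av q A F) S = av q (B \ A) (av q A (av q A F)) S := by
    conv_lhs => rw [hB]
    rw [← av_av q hd]
  have h2 : av q A (av q A F) = av q A F := funext fun T => g5_av_idem q A F T
  have h3 : av q B F S = av q (B \ A) (av q A F) S := by
    conv_lhs => rw [hB]
    rw [← av_av q hd]
  rw [h1, h2, h3]

theorem g5_step (h0 : 0 ≤ q) (h1 : q ≤ 1) {J A : Finset ℤ} (h : A ⊆ J) (F : Finset ℤ → ℝ)
    (T : Finset ℤ) : av q J (va q A F) T ≤ va q J F T := by
  have hd : Disjoint (J \ A) A := Finset.sdiff_disjoint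
  have hB : J = (J \ A) ∪ A := (Finset.sdiff_union_of_subset h).symm
  have e1 : av q J (va q A F) T = av q (J \ A) (va q A F) T := by
    conv_lhs => rw [hB]
    rw [← av_av q hd]
    have h2 : av q A (va q A F) = va q A F := funext fun T => g5_av_va q A F T
    rw [h2]
  have e2 : va q J F T = av q (J \ A) (va q A F) T + va q (J \ A) (av q A F) T := by
    conv_lhs => rw [hB]
    rw [va_union q hd]
  rw [e1, e2]
  have := va_nonneg h0 h1 (J \ A) (av q A F) T
  linarith

theorem g5_vx_nonneg (h0 : 0 ≤ q) (h1 : q ≤ 1) (y : ℤ) (F : Finset ℤ → ℝ) (S : Finset ℤ) :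
    0 ≤ vx q y F S := by
  unfold vx
  have : 0 ≤ 1 - q := by linarith
  positivity

theorem g5_ce_nonneg (a y : ℤ) (S : Finset ℤ) : 0 ≤ ce a y S := by
  unfold ce; split_ifs <;> norm_num

theorem g5_z (h0 : 0 ≤ q) (h1 : q ≤ 1) {C2 : ℝ} (hC2 : 0 ≤ C2) (a z e : ℤ)
    {Bg A W : Finset ℤ} (hAJ : A ⊆ Icc (z + 1) e) (hJB : Icc (z + 1) e ⊆ Bg)
    (hJW : Icc (z + 1) e ⊆ W) (χ : Finset ℤ → ℝ) (hχ01 : ∀ T, χ T = 0 ∨ (χ T = 1 ∧ z ∈ T))
    (hχJ : ∀ T, ∀ U ⊆ Icc (z + 1) e, χ ((T \ Icc (z + 1) e) ∪ U) = χ T)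
    (F : Finset ℤ → ℝ)
    (heast : ∀ S, va q (Icc (z + 1) e) F S ≤ C2 * av q (Icc (z + 1) e)
      (fun T => ∑ y ∈ Icc (z + 1) e, ce (z + 1) y T * vx q y F T) S)
    (S : Finset ℤ) :
    av q Bg (fun T => χ T * va q A F T) S ≤
      C2 * av q Bg (fun T => χ T * ∑ y ∈ W, ce a y T * vx q y F T) S := by
  set J : Finset ℤ := Icc (z + 1) e with hJ
  have hχ0 : ∀ T, 0 ≤ χ T := fun T => by
    rcases hχ01 T with h | ⟨h, _⟩ <;> rw [h]
    exact zero_le_one
  -- move to averages over J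
  have e1 : av q Bg (fun T => χ T * va q A F T) S =
      av q Bg (fun T => χ T * av q J (va q A F) T) S := by
    rw [← g5_av_sub q hJB (fun T => χ T * va q A F T)]
    congr 1
    funext T
    exact av_mul_left q J χ (va q A F) T (hχJ T)
  have e2 : ∀ T, χ T * av q J (va q A F) T ≤ C2 * av q J (fun T =>
      χ T * ∑ y ∈ W, ce a y T * vx q y F T) T := by
    intro T
    have a1 : av q J (va q A F) T ≤ C2 * av q J
        (fun T => ∑ y ∈ J, ce (z + 1) y T * vx q y F T) T :=
      (g5_step h0 h1 hAJ F T).trans (heast T)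
    have a2 : χ T * av q J (fun T => ∑ y ∈ J, ce (z + 1) y T * vx q y F T) T =
        av q J (fun T => χ T * ∑ y ∈ J, ce (z + 1) y T * vx q y F T) T :=
      (av_mul_left q J χ _ T (hχJ T)).symm
    have a3 : av q J (fun T => χ T * ∑ y ∈ J, ce (z + 1) y T * vx q y F T) T ≤
        av q J (fun T => χ T * ∑ y ∈ W, ce a y T * vx q y F T) T := by
      refine av_mono h0 h1 _ _ _ _ fun U _ => ?_
      set V := (T \ J) ∪ U
      rcases hχ01 V with h | ⟨h, hz⟩
      · rw [h, zero_mul, zero_mul]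
      · rw [h, one_mul, one_mul]
        refine (Finset.sum_le_sum fun y _ => ?_).trans
          (Finset.sum_le_sum_of_subset_of_nonneg hJW fun y _ _ =>
            mul_nonneg (g5_ce_nonneg a y V) (g5_vx_nonneg h0 h1 y F V))
        refine mul_le_mul_of_nonneg_right ?_ (g5_vx_nonneg h0 h1 y F V)
        unfold ce
        by_cases hy : y = z + 1 ∨ y - 1 ∈ V
        · have hy' : y - 1 ∈ V := by
            rcases hy with hy | hy
            · rw [hy, add_sub_cancel_right]; exact hz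
            · exact hy
          rw [if_pos hy, if_pos (Or.inr hy')]
        · rw [if_neg hy]
          split_ifs <;> norm_num
    calc χ T * av q J (va q A F) T
        ≤ χ T * (C2 * av q J (fun T => ∑ y ∈ J, ce (z + 1) y T * vx q y F T) T) :=
          mul_le_mul_of_nonneg_left a1 (hχ0 T)
      _ = C2 * (χ T * av q J (fun T => ∑ y ∈ J, ce (z + 1) y T * vx q y F T) T) := by ring
      _ = C2 * av q J (fun T => χ T * ∑ y ∈ J, ce (z + 1) y T * vx q y F T) T := by rw [a2]
      _ ≤ _ := mul_le_mul_of_nonneg_left a3 hC2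
  rw [e1]
  refine (av_mono h0 h1 Bg _ (fun T => C2 * av q J (fun T =>
      χ T * ∑ y ∈ W, ce a y T * vx q y F T) T) S fun U _ => e2 _).trans (le_of_eq ?_)
  rw [av_smul]
  congr 1
  exact g5_av_sub q hJB _ S

theorem g5_block (h0 : 0 ≤ q) (h1 : q ≤ 1) {C2 : ℝ} (hC2 : 0 ≤ C2) (a : ℤ)
    {Bg A W Z : Finset ℤ} (c : Finset ℤ → ℝ) (χ : ℤ → Finset ℤ → ℝ)
    (hc : ∀ T, c T ≤ ∑ z ∈ Z, χ z T) (hχ1 : ∀ T, ∑ z ∈ Z, χ z T ≤ 1)
    (F : Finset ℤ → ℝ) (S : Finset ℤ)
    (hz : ∀ z ∈ Z, av q Bg (fun T => χ z T * va q A F T) S ≤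
      C2 * av q Bg (fun T => χ z T * ∑ y ∈ W, ce a y T * vx q y F T) S) :
    av q Bg (fun T => c T * va q A F T) S ≤
      C2 * av q Bg (fun T => ∑ y ∈ W, ce a y T * vx q y F T) S := by
  have a1 : av q Bg (fun T => c T * va q A F T) S ≤
      ∑ z ∈ Z, av q Bg (fun T => χ z T * va q A F T) S := by
    rw [← av_sum]
    refine av_mono h0 h1 _ _ _ _ fun U _ => ?_
    rw [← Finset.sum_mul]
    exact mul_le_mul_of_nonneg_right (hc _) (va_nonneg h0 h1 _ _ _)
  have a2 : ∑ z ∈ Z, C2 * av q Bg (fun T => χ z T * ∑ y ∈ W, ce a y T * vx q y F T) S ≤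
      C2 * av q Bg (fun T => ∑ y ∈ W, ce a y T * vx q y F T) S := by
    rw [← Finset.mul_sum, ← av_sum]
    refine mul_le_mul_of_nonneg_left (av_mono h0 h1 _ _ _ _ fun U _ => ?_) hC2
    rw [← Finset.sum_mul]
    have hn : 0 ≤ ∑ y ∈ W, ce a y (S \ Bg ∪ U) * vx q y F (S \ Bg ∪ U) :=
      Finset.sum_nonneg fun y _ =>
        mul_nonneg (g5_ce_nonneg a y _) (g5_vx_nonneg h0 h1 y F _)
    calc (∑ z ∈ Z, χ z (S \ Bg ∪ U)) * ∑ y ∈ W, ce a y (S \ Bg ∪ U) * vx q y F (S \ Bg ∪ U)
        ≤ 1 * ∑ y ∈ W, ce a y (S \ Bg ∪ U) * vx q y F (S \ Bg ∪ U) :=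
          mul_le_mul_of_nonneg_right (hχ1 _) hn
      _ = _ := one_mul _
  exact a1.trans ((Finset.sum_le_sum hz).trans a2)

open Classical in
/-- `z` is the first infected site to the right of `l` -/
def g5_chi (l z : ℤ) (T : Finset ℤ) : ℝ := if z ∈ T ∧ ∀ w ∈ T, l ≤ w → z ≤ w then 1 else 0

theorem g5_chi01 (l z : ℤ) (T : Finset ℤ) : g5_chi l z T = 0 ∨ (g5_chi l z T = 1 ∧ z ∈ T) := by
  unfold g5_chi
  by_cases h : z ∈ T ∧ ∀ w ∈ T, l ≤ w → z ≤ w
  · rw [if_pos h]; exact Or.inr ⟨rfl, h.1⟩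
  · rw [if_neg h]; exact Or.inl rfl

theorem g5_chiJ (l z e : ℤ) (T : Finset ℤ) (U : Finset ℤ) (hU : U ⊆ Icc (z + 1) e) :
    g5_chi l z ((T \ Icc (z + 1) e) ∪ U) = g5_chi l z T := by
  unfold g5_chi
  have hmem : ∀ w, w ≤ z → (w ∈ (T \ Icc (z + 1) e) ∪ U ↔ w ∈ T) := by
    intro w hw
    rw [Finset.mem_union, Finset.mem_sdiff, Finset.mem_Icc]
    constructor
    · rintro (h | h)
      · exact h.1
      · have := Finset.mem_Icc.1 (hU h)
        omega
    · intro h
      exact Or.inl ⟨h, by omega⟩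
  have hiff : (z ∈ (T \ Icc (z + 1) e) ∪ U ∧ ∀ w ∈ (T \ Icc (z + 1) e) ∪ U, l ≤ w → z ≤ w) ↔
      (z ∈ T ∧ ∀ w ∈ T, l ≤ w → z ≤ w) := by
    rw [hmem z le_rfl]
    refine and_congr_right fun _ => ⟨fun h w hw hl => ?_, fun h w hw hl => ?_⟩
    · by_contra hcon
      push Not at hcon
      have := h w ((hmem w hcon.le).2 hw) hl
      omega
    · by_contra hcon
      push Not at hcon
      have := h w ((hmem w hcon.le).1 hw) hl
      omega
  by_cases h : z ∈ T ∧ ∀ w ∈ T, l ≤ w → z ≤ w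
  · rw [if_pos h, if_pos (hiff.2 h)]
  · rw [if_neg h, if_neg (fun hh => h (hiff.1 hh))]

theorem g5_chi_sum_le (l r : ℤ) (T : Finset ℤ) : ∑ z ∈ Icc l r, g5_chi l z T ≤ 1 := by
  classical
  unfold g5_chi
  rw [Finset.sum_boole]
  have : ((Icc l r).filter (fun z => z ∈ T ∧ ∀ w ∈ T, l ≤ w → z ≤ w)).card ≤ 1 := by
    rw [Finset.card_le_one]
    intro x hx y hy
    rw [Finset.mem_filter, Finset.mem_Icc] at hx hy
    have h1 := hx.2.2 y hy.2.1 hy.1.1
    have h2 := hy.2.2 x hx.2.1 hx.1.1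
    omega
  exact_mod_cast this

theorem g5_chi_le_sum (l r : ℤ) (T : Finset ℤ) :
    (if (T ∩ Icc l r).Nonempty then (1 : ℝ) else 0) ≤ ∑ z ∈ Icc l r, g5_chi l z T := by
  classical
  have hnn : ∀ z ∈ Icc l r, 0 ≤ g5_chi l z T := fun z _ => by
    rcases g5_chi01 l z T with h | ⟨h, _⟩ <;> rw [h]
    exact zero_le_one
  by_cases h : (T ∩ Icc l r).Nonempty
  · rw [if_pos h]
    obtain ⟨x, hx⟩ := h
    rw [Finset.mem_inter, Finset.mem_Icc] at hx
    have hne : (T.filter (fun w => l ≤ w)).Nonempty := ⟨x, Finset.mem_filter.2 ⟨hx.1, hx.2.1⟩⟩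
    set z := (T.filter (fun w => l ≤ w)).min' hne with hz
    have hzm := Finset.mem_filter.1 ((T.filter (fun w => l ≤ w)).min'_mem hne)
    rw [← hz] at hzm
    have hzx : z ≤ x := Finset.min'_le _ _ (Finset.mem_filter.2 ⟨hx.1, hx.2.1⟩)
    have hzI : z ∈ Icc l r := Finset.mem_Icc.2 ⟨hzm.2, hzx.trans hx.2.2⟩
    have h1 : g5_chi l z T = 1 := by
      unfold g5_chi
      rw [if_pos]
      exact ⟨hzm.1, fun w hw hl => Finset.min'_le _ _ (Finset.mem_filter.2 ⟨hw, hl⟩)⟩
    calc (1 : ℝ) = g5_chi l z T := h1.symm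
      _ ≤ _ := Finset.single_le_sum hnn hzI
  · rw [if_neg h]
    exact Finset.sum_nonneg hnn

/-- indicator that a block is not empty -/
def g5_c (A : Finset ℤ) (T : Finset ℤ) : ℝ := if (T ∩ A).Nonempty then 1 else 0

theorem g5_eps (h0 : 0 ≤ q) (h1 : q ≤ 1) (A : Finset ℤ) (S : Finset ℤ) :
    av q A (fun T => 1 - g5_c A T) S = (1 - q) ^ A.card := by
  unfold av
  rw [Finset.sum_eq_single (∅ : Finset ℤ)]
  · have e1 : g5_c A ((S \ A) ∪ ∅) = 0 := by
      unfold g5_c
      rw [if_neg]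
      rw [Finset.not_nonempty_iff_eq_empty, Finset.union_empty]
      ext x
      simp only [Finset.mem_inter, Finset.mem_sdiff, Finset.notMem_empty, iff_false]
      tauto
    change wt q A ∅ * (1 - g5_c A ((S \ A) ∪ ∅)) = _
    rw [e1]
    unfold wt
    simp
  · intro U hU hne
    have hU' := Finset.mem_powerset.1 hU
    obtain ⟨x, hx⟩ := Finset.nonempty_iff_ne_empty.2 hne
    have e1 : g5_c A ((S \ A) ∪ U) = 1 := by
      unfold g5_c
      rw [if_pos]
      exact ⟨x, Finset.mem_inter.2 ⟨Finset.mem_union_right _ hx, hU' hx⟩⟩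
    change wt q A U * (1 - g5_c A ((S \ A) ∪ U)) = _
    rw [e1, sub_self, mul_zero]
  · intro h
    exact absurd (Finset.mem_powerset.2 (Finset.empty_subset A)) h

/-- uniform Poincare inequality for the East chain with infected left boundary -/
theorem east_gap (h0 : 0 < q) (h1 : q < 1) : ∃ C : ℝ, 0 < C ∧ ∀ a b : ℤ,
    ∀ (F : Finset ℤ → ℝ) (S : Finset ℤ),
      va q (Icc a b) F S ≤ C * av q (Icc a b) (fun T => ∑ y ∈ Icc a b, ce a y T * vx q y F T) S := by
  classical
  -- the block size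
  obtain ⟨s, hs1, hs⟩ : ∃ s : ℕ, 1 ≤ s ∧ (1 - q) ^ s ≤ 1 / 8 := by
    obtain ⟨s, hs⟩ := exists_pow_lt_of_lt_one (show (0 : ℝ) < 1 / 8 by norm_num)
      (show 1 - q < 1 by linarith)
    refine ⟨s + 1, by omega, ?_⟩
    rw [pow_succ]
    have hp : 0 ≤ (1 - q) ^ s := pow_nonneg (by linarith) _
    nlinarith
  obtain ⟨C2, hC2, heast⟩ := east_fin h0 h1 (2 * s)
  refine ⟨8 * C2, by positivity, ?_⟩
  intro a b F S
  have hq0 := h0.le
  have hq1 := h1.le
  have hterm : ∀ (y : ℤ) (T : Finset ℤ), 0 ≤ ce a y T * vx q y F T := fun y T =>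
    mul_nonneg (g5_ce_nonneg a y T) (g5_vx_nonneg hq0 hq1 y F T)
  rcases lt_or_ge b a with hab | hab
  · -- empty interval
    have h2 := heast a b (by push_cast; omega) F S
    have h3 : 0 ≤ av q (Icc a b) (fun T => ∑ y ∈ Icc a b, ce a y T * vx q y F T) S :=
      av_nonneg hq0 hq1 _ _ _ fun T => Finset.sum_nonneg fun y _ => hterm y T
    nlinarith
  -- blocks
  have hsZ : (1 : ℤ) ≤ (s : ℤ) := by exact_mod_cast hs1
  obtain ⟨m, hm1, hm2⟩ : ∃ m : ℕ, a + m * s ≤ b ∧ b < a + (m + 1) * s := by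
    refine ⟨((b - a) / s).toNat, ?_, ?_⟩
    · have h3 : 0 ≤ (b - a) / (s : ℤ) := Int.ediv_nonneg (by omega) (by omega)
      rw [Int.toNat_of_nonneg h3]
      have := Int.ediv_mul_le (b - a) (show (s : ℤ) ≠ 0 by omega)
      linarith
    · have h3 : 0 ≤ (b - a) / (s : ℤ) := Int.ediv_nonneg (by omega) (by omega)
      rw [Int.toNat_of_nonneg h3]
      have := Int.lt_ediv_add_one_mul_self (b - a) (show (0 : ℤ) < (s : ℤ) by omega)
      linarith
  let A : ℕ → Finset ℤ := fun i => Icc (a + i * s) (min b (a + i * s + s - 1))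
  have hmemA : ∀ i x, x ∈ A i ↔ a + i * s ≤ x ∧ x ≤ b ∧ x ≤ a + i * s + s - 1 := by
    intro i x
    simp only [A, Finset.mem_Icc, le_min_iff]
  have hmul : ∀ i j : ℕ, i < j → (i : ℤ) * s + s ≤ j * s := by
    intro i j hij
    have h3 : ((i : ℤ) + 1) ≤ j := by exact_mod_cast hij
    nlinarith
  have hdis : ∀ i j, i < j → Disjoint (A i) (A j) := by
    intro i j hij
    rw [Finset.disjoint_left]
    intro x hx hx'
    rw [hmemA] at hx hx'
    have := hmul i j hij
    omega
  have hd : ∀ i j, i < m + 1 → j < m + 1 → i ≠ j → Disjoint (A i) (A j) := by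
    intro i j _ _ hij
    rcases lt_or_gt_of_ne hij with h | h
    · exact hdis i j h
    · exact (hdis j i h).symm
  have hunion : (Finset.range (m + 1)).biUnion A = Icc a b := by
    ext x
    rw [Finset.mem_biUnion, Finset.mem_Icc]
    constructor
    · rintro ⟨i, _, hx⟩
      rw [hmemA] at hx
      have : (0 : ℤ) ≤ (i : ℤ) * s := by positivity
      omega
    · rintro ⟨hx1, hx2⟩
      have h3 : 0 ≤ (x - a) / (s : ℤ) := Int.ediv_nonneg (by omega) (by omega)
      have h4 := Int.ediv_mul_le (x - a) (show (s : ℤ) ≠ 0 by omega)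
      have h5 := Int.lt_ediv_add_one_mul_self (x - a) (show (0 : ℤ) < (s : ℤ) by omega)
      refine ⟨((x - a) / s).toNat, ?_, ?_⟩
      · rw [Finset.mem_range]
        by_contra hcon
        push Not at hcon
        have h6 : ((m : ℤ) + 1) ≤ (x - a) / s := by
          rw [← Int.toNat_of_nonneg h3]
          exact_mod_cast hcon
        have h7 : ((m : ℤ) + 1) * s ≤ (x - a) / s * s := by nlinarith
        linarith
      · rw [hmemA, Int.toNat_of_nonneg h3]
        have h8 : ((x - a) / (s : ℤ) + 1) * s = (x - a) / (s : ℤ) * s + s := by ring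
        rw [h8] at h5
        refine ⟨by linarith, hx2, by linarith⟩
  have hsubA : ∀ i, A i ⊆ Icc a b := by
    intro i x hx
    rw [hmemA] at hx
    rw [Finset.mem_Icc]
    have : (0 : ℤ) ≤ (i : ℤ) * s := by positivity
    omega
  have hfull : ∀ i, i + 1 < m + 1 → A i = Icc (a + i * s) (a + i * s + s - 1) := by
    intro i hi
    have h3 := hmul i m (by omega)
    simp only [A]
    congr 1
    exact min_eq_right (by linarith)
  let c : ℕ → Finset ℤ → ℝ := fun i T => if i = 0 then 1 else g5_c (A (i - 1)) T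
  have hcs : ∀ i T, c (i + 1) T = g5_c (A i) T := by
    intro i T
    simp only [c]
    rw [if_neg (Nat.succ_ne_zero i), Nat.add_sub_cancel]
  have hmain := block_east h0 h1 A (m + 1) hd c (by
      intro i T
      simp only [c]
      split_ifs
      · exact Or.inr rfl
      · unfold g5_c
        split_ifs
        · exact Or.inr rfl
        · exact Or.inl rfl) (fun T => by simp only [c, if_true]) (by
      intro i _ T T' h
      rw [hcs, hcs]
      unfold g5_c
      rw [h]) (by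
      intro i hi T
      have e1 : (fun T => 1 - c (i + 1) T) = fun T => 1 - g5_c (A i) T := by
        funext T; rw [hcs]
      rw [e1, g5_eps hq0 hq1, hfull i hi]
      have : (Icc (a + (i : ℤ) * s) (a + i * s + s - 1)).card = s := by
        rw [Int.card_Icc]
        omega
      rw [this]
      exact hs) F S
  rw [hunion] at hmain
  -- each block
  let t : Finset ℤ → Finset ℤ → ℝ := fun W T => ∑ y ∈ W, ce a y T * vx q y F T
  have ht0 : ∀ W T, 0 ≤ t W T := fun W T => Finset.sum_nonneg fun y _ => hterm y T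
  have hblock0 : av q (Icc a b) (fun T => c 0 T * va q (A 0) F T) S ≤
      C2 * av q (Icc a b) (t (A 0)) S := by
    have e1 : (fun T => c 0 T * va q (A 0) F T) = va q (A 0) F := by
      funext T
      simp only [c, if_true, one_mul]
    rw [e1]
    have e2 : ∀ T, va q (A 0) F T ≤ C2 * av q (A 0) (t (A 0)) T := by
      intro T
      have h3 := heast (a + (0 : ℕ) * s) (min b (a + (0 : ℕ) * s + s - 1)) (by
        have := min_le_right b (a + (0 : ℕ) * (s : ℤ) + s - 1)
        push_cast at *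
        omega) F T
      have e3 : a + ((0 : ℕ) : ℤ) * s = a := by push_cast; ring
      have e4 : A 0 = Icc a (min b (a + (0 : ℕ) * s + s - 1)) := by
        simp only [A]
        rw [e3]
      simp only [t]
      rw [e4]
      rw [e3] at h3 ⊢
      exact h3
    refine (av_mono hq0 hq1 (Icc a b) _ (fun T => C2 * av q (A 0) (t (A 0)) T) S
      fun U _ => e2 _).trans (le_of_eq ?_)
    rw [av_smul]
    congr 1
    exact g5_av_sub q (hsubA 0) _ S
  have hblock : ∀ i, i + 1 < m + 1 → av q (Icc a b) (fun T => c (i + 1) T * va q (A (i + 1)) F T) S ≤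
      C2 * av q (Icc a b) (t (A i ∪ A (i + 1))) S := by
    intro i hi
    set l : ℤ := a + i * s with hl
    have hA : A i = Icc l (l + s - 1) := hfull i hi
    have e1 : (fun T => c (i + 1) T * va q (A (i + 1)) F T) =
        fun T => g5_c (Icc l (l + s - 1)) T * va q (A (i + 1)) F T := by
      funext T
      rw [hcs, hA]
    rw [e1]
    have hi1 : ((i + 1 : ℕ) : ℤ) * s = i * s + s := by push_cast; ring
    have hmemA1 : ∀ x, x ∈ A (i + 1) ↔ l + s ≤ x ∧ x ≤ b ∧ x ≤ l + s + s - 1 := by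
      intro x
      rw [hmemA, hi1]
      constructor
      · rintro ⟨h1, h2, h3⟩
        exact ⟨by linarith, h2, by linarith⟩
      · rintro ⟨h1, h2, h3⟩
        exact ⟨by linarith, h2, by linarith⟩
    have hla : a ≤ l := by
      have : (0 : ℤ) ≤ (i : ℤ) * s := by positivity
      omega
    set e : ℤ := min b (l + s + s - 1) with he
    have heb : e ≤ b := min_le_left _ _
    have hel : e ≤ l + s + s - 1 := min_le_right _ _
    have hmem_e : ∀ x, x ≤ e ↔ x ≤ b ∧ x ≤ l + s + s - 1 := fun x => le_min_iff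
    refine g5_block hq0 hq1 hC2.le a (Z := Icc l (l + s - 1)) _ (g5_chi l)
      (fun T => g5_chi_le_sum l (l + s - 1) T) (fun T => g5_chi_sum_le l (l + s - 1) T) F S ?_
    intro z hz
    rw [Finset.mem_Icc] at hz
    refine g5_z hq0 hq1 hC2.le a z e ?_ ?_ ?_ (g5_chi l z) (g5_chi01 l z)
      (fun T U hU => g5_chiJ l z e T U hU) F (fun T => heast (z + 1) e (by push_cast; omega) F T) S
    · intro x hx
      rw [hmemA1] at hx
      rw [Finset.mem_Icc, hmem_e]
      omega
    · intro x hx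
      rw [Finset.mem_Icc, hmem_e] at hx
      rw [Finset.mem_Icc]
      omega
    · intro x hx
      rw [Finset.mem_Icc, hmem_e] at hx
      rw [Finset.mem_union, hmemA1, hA, Finset.mem_Icc]
      omega
  -- sum up
  have hsum : ∑ i ∈ Finset.range (m + 1), av q (Icc a b) (fun T => c i T * va q (A i) F T) S ≤
      C2 * (2 * av q (Icc a b) (t (Icc a b)) S) := by
    have b1 : ∀ i, i + 1 < m + 1 → av q (Icc a b) (t (A i ∪ A (i + 1))) S ≤
        av q (Icc a b) (t (A i)) S + av q (Icc a b) (t (A (i + 1))) S := by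
      intro i _
      rw [← av_add]
      refine av_mono hq0 hq1 _ _ _ _ fun U _ => ?_
      simp only [t]
      rw [← Finset.sum_union_inter]
      have := Finset.sum_nonneg (s := A i ∩ A (i + 1))
        (f := fun y => ce a y (S \ Icc a b ∪ U) * vx q y F (S \ Icc a b ∪ U))
        (fun y _ => hterm y _)
      linarith
    have b2 : ∑ i ∈ Finset.range (m + 1), av q (Icc a b) (t (A i)) S =
        av q (Icc a b) (t (Icc a b)) S := by
      rw [← av_sum]
      congr 1
      funext T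
      simp only [t]
      rw [← hunion, Finset.sum_biUnion]
      intro i hi j hj hij
      exact hd i j (Finset.mem_range.1 hi) (Finset.mem_range.1 hj) hij
    have b3 : ∀ i, 0 ≤ av q (Icc a b) (t (A i)) S := fun i =>
      av_nonneg hq0 hq1 _ _ _ fun T => ht0 _ T
    rw [Finset.sum_range_succ']
    have b4 : ∑ i ∈ Finset.range m, av q (Icc a b) (fun T => c (i + 1) T * va q (A (i + 1)) F T) S ≤
        ∑ i ∈ Finset.range m, C2 * (av q (Icc a b) (t (A i)) S + av q (Icc a b) (t (A (i + 1))) S) := by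
      refine Finset.sum_le_sum fun i hi => ?_
      have hi' := Finset.mem_range.1 hi
      exact (hblock i (by omega)).trans (mul_le_mul_of_nonneg_left (b1 i (by omega)) hC2.le)
    rw [← Finset.mul_sum, Finset.sum_add_distrib] at b4
    have b5 := b2
    rw [Finset.sum_range_succ] at b5
    have b6 := b2
    rw [Finset.sum_range_succ'] at b6
    have b7 := b3 m
    have b8 : C2 * (∑ i ∈ Finset.range m, av q (Icc a b) (t (A i)) S +
        ∑ i ∈ Finset.range m, av q (Icc a b) (t (A (i + 1))) S) +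
        C2 * av q (Icc a b) (t (A 0)) S ≤ C2 * (2 * av q (Icc a b) (t (Icc a b)) S) := by
      rw [← mul_add]
      refine mul_le_mul_of_nonneg_left ?_ hC2.le
      linarith
    linarith
  rw [av_sum] at hmain
  have hfin : 8 * C2 * av q (Icc a b) (fun T => ∑ y ∈ Icc a b, ce a y T * vx q y F T) S =
      4 * (C2 * (2 * av q (Icc a b) (t (Icc a b)) S)) := by
    simp only [t]
    ring
  rw [hfin]
  exact hmain.trans (mul_le_mul_of_nonneg_left hsum (by norm_num))

end FA
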