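import Pool.Agent.Helper870.FADefs

set_option autoImplicit false
set_option linter.unusedSectionVars false

open Finset

noncomputable section

namespace FA
variable {X : Type} (m : FM X)

open Classical in
/-- conditional expectation on the partition given by `pat` -/
def cond {Y : Type} (pat : X → Y) (h : X → ℝ) (x : X) : ℝ :=
  m.E (fun y => if pat y = pat x then h y else 0) / m.E (fun y => if pat y = pat x then 1 else 0)

theorem ent_E_le {F G : X → ℝ} (h : ∀ x ∈ m.s, F x ≤ G x) : m.E F ≤ m.E G :=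
  Finset.sum_le_sum fun x hx => mul_le_mul_of_nonneg_left (h x hx) (m.hw x hx).le

theorem ent_E_add (F G : X → ℝ) : m.E (fun x => F x + G x) = m.E F + m.E G := by
  unfold FM.E
  rw [← Finset.sum_add_distrib]
  exact Finset.sum_congr rfl fun x _ => mul_add _ _ _

theorem ent_E_smul (c : ℝ) (F : X → ℝ) : m.E (fun x => c * F x) = c * m.E F := by
  unfold FM.E
  rw [Finset.mul_sum]
  exact Finset.sum_congr rfl fun x _ => by ring

theorem ent_E_nonneg {F : X → ℝ} (h : ∀ x ∈ m.s, 0 ≤ F x) : 0 ≤ m.E F :=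
  Finset.sum_nonneg fun x hx => mul_nonneg (m.hw x hx).le (h x hx)

theorem ent_E_pos {F : X → ℝ} (h : ∀ x ∈ m.s, 0 ≤ F x) (x : X) (hx : x ∈ m.s) (hF : 0 < F x) :
    0 < m.E F := by
  refine Finset.sum_pos' (fun x hx => mul_nonneg (m.hw x hx).le (h x hx)) ⟨x, hx, ?_⟩
  exact mul_pos (m.hw x hx) hF

theorem ent_E_one : m.E (fun _ => 1) = 1 := by
  unfold FM.E
  simp only [mul_one]
  exact m.hone

theorem ent_var_ineq (H v : ℝ) (hH : 0 < H) : H * v ≤ H * Real.log H - H + Real.exp v := by
  have h1 := Real.add_one_le_exp (v - Real.log H)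
  rw [Real.exp_sub, Real.exp_log hH, le_div_iff₀ hH] at h1
  linarith

theorem ent_exp_le (a g : ℝ) (hg0 : 0 ≤ g) (hg1 : g ≤ 1) :
    Real.exp (a * g) ≤ 1 + g * Real.exp a := by
  have h1 := convexOn_exp.2 (Set.mem_univ (0 : ℝ)) (Set.mem_univ a) (sub_nonneg.2 hg1) hg0
    (by ring)
  simp only [smul_eq_mul, mul_zero, zero_add, Real.exp_zero, mul_one] at h1
  rw [mul_comm a g]
  linarith

open Classical in
theorem ent_tower {Y : Type} (pat : X → Y) (h k : X → ℝ) :
    m.E (fun x => cond m pat h x * k x) = ∑ y ∈ m.s.image pat,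
      (m.E (fun x => if pat x = y then h x else 0) /
        m.E (fun x => if pat x = y then 1 else 0)) *
        m.E (fun x => if pat x = y then k x else 0) := by
  have h1 : m.E (fun x => cond m pat h x * k x) = ∑ y ∈ m.s.image pat,
      ∑ x ∈ m.s with pat x = y, m.w x * (cond m pat h x * k x) := by
    rw [Finset.sum_fiberwise_of_maps_to (fun x hx => Finset.mem_image_of_mem pat hx)]
    rfl
  rw [h1]
  refine Finset.sum_congr rfl fun y _ => ?_
  have h2 : m.E (fun x => if pat x = y then k x else 0) =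
      ∑ x ∈ m.s with pat x = y, m.w x * k x := by
    unfold FM.E
    rw [Finset.sum_filter]
    refine Finset.sum_congr rfl fun x _ => ?_
    by_cases hxy : pat x = y <;> simp [hxy]
  rw [h2, Finset.mul_sum]
  refine Finset.sum_congr rfl fun x hx => ?_
  rw [Finset.mem_filter] at hx
  unfold cond
  rw [hx.2]
  ring

open Classical in
/-- entropy inequality relative to the conditional laws of a partition -/
theorem ent_ineq_pat {Y : Type} (pat : X → Y) (h : X → ℝ) (hpos : ∀ x, 0 < h x) (hone : m.E h = 1)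
    (g : X → ℝ) (hg0 : ∀ x, 0 ≤ g x) (hg1 : ∀ x, g x ≤ 1) (a : ℝ) (ha : 0 < a)
    (hg : ∀ y : Y, m.E (fun x => if pat x = y then g x else 0) ≤
      Real.exp (-a) * m.E (fun x => if pat x = y then 1 else 0)) :
    m.E (fun x => h x * g x) ≤
      (1 / a) * (m.E (fun x => h x * Real.log (h x / cond m pat h x)) + Real.log 2) := by
  -- positivity
  have hN0 : ∀ y, 0 ≤ m.E (fun x => if pat x = y then h x else 0) := fun y =>
    ent_E_nonneg m fun x _ => by
      split
      · exact (hpos x).le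
      · exact le_rfl
  have hN : ∀ x ∈ m.s, 0 < m.E (fun z => if pat z = pat x then h z else 0) := fun x hx =>
    ent_E_pos m (fun z _ => by
      split
      · exact (hpos z).le
      · exact le_rfl) x hx (by rw [if_pos rfl]; exact hpos x)
  have hD : ∀ x ∈ m.s, 0 < m.E (fun z => if pat z = pat x then (1 : ℝ) else 0) := fun x hx =>
    ent_E_pos m (fun z _ => by
      split
      · exact zero_le_one
      · exact le_rfl) x hx (by rw [if_pos rfl]; exact one_pos)
  have hc : ∀ x ∈ m.s, 0 < cond m pat h x := fun x hx => div_pos (hN x hx) (hD x hx)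
  -- the total mass of the conditional expectation
  have hsum : ∑ y ∈ m.s.image pat, m.E (fun x => if pat x = y then h x else 0) = 1 := by
    rw [← hone]
    have h1 : m.E h = ∑ y ∈ m.s.image pat, ∑ x ∈ m.s with pat x = y, m.w x * h x := by
      rw [Finset.sum_fiberwise_of_maps_to (fun x hx => Finset.mem_image_of_mem pat hx)]
      rfl
    rw [h1]
    refine Finset.sum_congr rfl fun y _ => ?_
    unfold FM.E
    rw [Finset.sum_filter]
    refine Finset.sum_congr rfl fun x _ => ?_
    by_cases hxy : pat x = y <;> simp [hxy]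
  have hE1 : m.E (fun x => cond m pat h x) = 1 := by
    have h1 := ent_tower m pat h (fun _ => 1)
    simp only [mul_one] at h1
    rw [h1]
    refine Eq.trans ?_ hsum
    refine Finset.sum_congr rfl fun y hy => ?_
    obtain ⟨x, hx, rfl⟩ := Finset.mem_image.1 hy
    exact div_mul_cancel₀ _ (hD x hx).ne'
  have hE2 : m.E (fun x => cond m pat h x * g x) ≤ Real.exp (-a) := by
    rw [ent_tower m pat h g]
    calc _ ≤ ∑ y ∈ m.s.image pat, Real.exp (-a) * m.E (fun x => if pat x = y then h x else 0) := by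
          refine Finset.sum_le_sum fun y hy => ?_
          have h1 : 0 ≤ m.E (fun x => if pat x = y then h x else 0) /
              m.E (fun x => if pat x = y then 1 else 0) := by
            obtain ⟨x, hx, rfl⟩ := Finset.mem_image.1 hy
            exact div_nonneg (hN0 _) (hD x hx).le
          refine (mul_le_mul_of_nonneg_left (hg y) h1).trans (le_of_eq ?_)
          obtain ⟨x, hx, rfl⟩ := Finset.mem_image.1 hy
          have h2 := (hD x hx).ne'
          field_simp
      _ = Real.exp (-a) := by rw [← Finset.mul_sum, hsum, mul_one]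
  have hE3 : m.E (fun x => cond m pat h x * Real.exp (a * g x)) ≤ 2 := by
    have h1 : m.E (fun x => cond m pat h x * Real.exp (a * g x)) ≤
        m.E (fun x => cond m pat h x + Real.exp a * (cond m pat h x * g x)) := by
      refine ent_E_le m fun x hx => ?_
      have h2 := mul_le_mul_of_nonneg_left (ent_exp_le a (g x) (hg0 x) (hg1 x)) (hc x hx).le
      linarith
    rw [ent_E_add, ent_E_smul, hE1] at h1
    have h3 : Real.exp a * m.E (fun x => cond m pat h x * g x) ≤ Real.exp a * Real.exp (-a) :=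
      mul_le_mul_of_nonneg_left hE2 (Real.exp_pos a).le
    rw [← Real.exp_add, add_neg_cancel, Real.exp_zero] at h3
    linarith
  -- the main inequality
  have hmain : m.E (fun x => a * (h x * g x)) ≤
      m.E (fun x => (h x * Real.log (h x / cond m pat h x) + (Real.log 2 - 1) * h x) +
        (1 / 2) * (cond m pat h x * Real.exp (a * g x))) := by
    refine ent_E_le m fun x hx => ?_
    have h1 := ent_var_ineq (h x) (Real.log (cond m pat h x) + a * g x - Real.log 2) (hpos x)
    rw [Real.exp_sub, Real.exp_add, Real.exp_log (hc x hx), Real.exp_log (by norm_num)] at h1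
    rw [Real.log_div (hpos x).ne' (hc x hx).ne']
    linarith
  rw [ent_E_smul, ent_E_add, ent_E_add, ent_E_smul, ent_E_smul, hone] at hmain
  rw [one_div, inv_mul_eq_div, le_div_iff₀ ha]
  linarith

theorem ent_phi (w0 : ℝ) (hw0 : 0 < w0) (hw1 : w0 ≤ 1) (y : ℝ) (hy : 0 < y) (hy2 : y ≤ 1 / w0) :
    y * Real.log y - y + 1 ≤ (5 + 4 * Real.log (1 / w0)) * (Real.sqrt y - 1) ^ 2 := by
  obtain ⟨z, hz⟩ : ∃ z, z = Real.sqrt y := ⟨_, rfl⟩
  have hz0 : 0 < z := by rw [hz]; exact Real.sqrt_pos.2 hy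
  have hyz : y = z ^ 2 := by rw [hz, Real.sq_sqrt hy.le]
  have hL : 0 ≤ Real.log (1 / w0) := Real.log_nonneg (by rw [le_div_iff₀ hw0]; linarith)
  rw [← hz]
  subst hyz
  rw [Real.log_pow]
  push_cast
  have hsq : 0 ≤ (z - 1) ^ 2 := sq_nonneg _
  rcases le_total z 2 with h2 | h2
  · have hlog := Real.log_le_sub_one_of_pos hz0
    have h3 : z ^ 2 * (2 * Real.log z) ≤ z ^ 2 * (2 * (z - 1)) := by gcongr
    have h4 : z ^ 2 * (2 * (z - 1)) - z ^ 2 + 1 = (2 * z + 1) * (z - 1) ^ 2 := by ring
    have h5 : (2 * z + 1) * (z - 1) ^ 2 ≤ 5 * (z - 1) ^ 2 :=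
      mul_le_mul_of_nonneg_right (by linarith) hsq
    have h6 : 0 ≤ 4 * Real.log (1 / w0) * (z - 1) ^ 2 := by positivity
    linarith
  · have hlog0 : 0 ≤ Real.log z := Real.log_nonneg (by linarith)
    have h3 : 2 * Real.log z ≤ Real.log (1 / w0) := by
      have h := Real.log_le_log (by positivity) hy2
      rw [Real.log_pow] at h
      exact_mod_cast h
    have h4 : z ^ 2 ≤ 4 * (z - 1) ^ 2 := by nlinarith
    have h5 : z ^ 2 * (2 * Real.log z) ≤ 4 * (z - 1) ^ 2 * Real.log (1 / w0) :=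
      mul_le_mul h4 h3 (by positivity) (by positivity)
    have h6 : 1 - z ^ 2 ≤ 0 := by nlinarith
    linarith

/-- entropy controlled by the variance of the square root -/
theorem ent_le_var (w0 : ℝ) (hw0 : 0 < w0) (hw : ∀ x ∈ m.s, w0 ≤ m.w x) (f : X → ℝ) (hf : ∀ x, 0 < f x) :
    m.Ent f ≤ 2 * (5 + 4 * Real.log (1 / w0)) * m.Var (fun x => Real.sqrt (f x)) := by
  -- the support is nonempty
  obtain ⟨x₀, hx₀⟩ : m.s.Nonempty := by
    by_contra hcon
    rw [Finset.not_nonempty_iff_eq_empty] at hcon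
    have := m.hone
    rw [hcon, Finset.sum_empty] at this
    exact zero_ne_one this
  have hwle : ∀ x ∈ m.s, m.w x ≤ 1 := by
    intro x hx
    rw [← m.hone]
    exact Finset.single_le_sum (fun y hy => (m.hw y hy).le) hx
  have hw1 : w0 ≤ 1 := (hw x₀ hx₀).trans (hwle x₀ hx₀)
  obtain ⟨M, hM⟩ : ∃ M, M = m.E f := ⟨_, rfl⟩
  have hMpos : 0 < M := by
    rw [hM]
    exact ent_E_pos m (fun x _ => (hf x).le) x₀ hx₀ (hf x₀)
  have hfM : ∀ x ∈ m.s, f x / M ≤ 1 / w0 := by
    intro x hx
    rw [div_le_div_iff₀ hMpos hw0, one_mul, hM]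
    have h1 : m.w x * f x ≤ m.E f :=
      Finset.single_le_sum (f := fun x => m.w x * f x)
        (fun y hy => mul_nonneg (m.hw y hy).le (hf y).le) hx
    have h2 : f x * w0 ≤ f x * m.w x := mul_le_mul_of_nonneg_left (hw x hx) (hf x).le
    linarith
  obtain ⟨c, hc⟩ : ∃ c, c = 5 + 4 * Real.log (1 / w0) := ⟨_, rfl⟩
  have hc0 : 0 ≤ c := by
    have hL : 0 ≤ Real.log (1 / w0) := Real.log_nonneg (by rw [le_div_iff₀ hw0]; linarith)
    rw [hc]
    positivity
  -- pointwise inequality
  have hpt : ∀ x ∈ m.s, f x * Real.log (f x) + (-(Real.log M) * f x + (-(1 : ℝ) * f x + M * 1)) ≤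
      c * (f x + (-(2 * Real.sqrt M) * Real.sqrt (f x) + M * 1)) := by
    intro x hx
    have h1 := ent_phi w0 hw0 hw1 (f x / M) (div_pos (hf x) hMpos) (hfM x hx)
    rw [← hc, Real.log_div (hf x).ne' hMpos.ne', Real.sqrt_div (hf x).le] at h1
    have h2 := mul_le_mul_of_nonneg_left h1 hMpos.le
    have hsM : Real.sqrt M ≠ 0 := (Real.sqrt_pos.2 hMpos).ne'
    have hsq : Real.sqrt M ^ 2 = M := Real.sq_sqrt hMpos.le
    have hsf : Real.sqrt (f x) ^ 2 = f x := Real.sq_sqrt (hf x).le
    have h3 : M * (f x / M * (Real.log (f x) - Real.log M) - f x / M + 1) =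
        f x * Real.log (f x) + (-(Real.log M) * f x + (-(1 : ℝ) * f x + M * 1)) := by
      field_simp
      ring
    have h4 : M * (c * (Real.sqrt (f x) / Real.sqrt M - 1) ^ 2) =
        c * (f x + (-(2 * Real.sqrt M) * Real.sqrt (f x) + M * 1)) := by
      have h5 : M * (Real.sqrt (f x) / Real.sqrt M - 1) ^ 2 =
          (Real.sqrt (f x) - Real.sqrt M) ^ 2 := by
        calc M * (Real.sqrt (f x) / Real.sqrt M - 1) ^ 2 =
            Real.sqrt M ^ 2 * (Real.sqrt (f x) / Real.sqrt M - 1) ^ 2 := by rw [hsq]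
          _ = (Real.sqrt M * (Real.sqrt (f x) / Real.sqrt M - 1)) ^ 2 := by ring
          _ = (Real.sqrt (f x) - Real.sqrt M) ^ 2 := by
            congr 1
            field_simp
      calc M * (c * (Real.sqrt (f x) / Real.sqrt M - 1) ^ 2) =
          c * (M * (Real.sqrt (f x) / Real.sqrt M - 1) ^ 2) := by ring
        _ = c * (Real.sqrt (f x) - Real.sqrt M) ^ 2 := by rw [h5]
        _ = c * (Real.sqrt (f x) ^ 2 - 2 * Real.sqrt M * Real.sqrt (f x) + Real.sqrt M ^ 2) := by
          ring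
        _ = _ := by rw [hsf, hsq]; ring
    rw [h3, h4] at h2
    exact h2
  have hE := ent_E_le m hpt
  rw [ent_E_add, ent_E_add, ent_E_add, ent_E_smul, ent_E_smul, ent_E_smul, ent_E_smul, ent_E_add,
    ent_E_add, ent_E_smul, ent_E_smul, ent_E_one, ← hM] at hE
  obtain ⟨s, hs⟩ : ∃ s, s = m.E (fun x => Real.sqrt (f x)) := ⟨_, rfl⟩
  rw [← hs] at hE
  have hvar : m.Var (fun x => Real.sqrt (f x)) = M - s ^ 2 := by
    unfold FM.Var
    rw [← hs, hM]
    congr 1
    unfold FM.E
    refine Finset.sum_congr rfl fun x _ => ?_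
    show m.w x * Real.sqrt (f x) ^ 2 = m.w x * f x
    rw [Real.sq_sqrt (hf x).le]
  have hs0 : 0 ≤ s := by
    rw [hs]
    exact ent_E_nonneg m fun x _ => Real.sqrt_nonneg _
  -- Cauchy-Schwarz
  have hCS : s ^ 2 ≤ M := by
    have h1 : 0 ≤ m.E (fun x => f x + (-(2 * s) * Real.sqrt (f x) + s ^ 2 * 1)) := by
      refine ent_E_nonneg m fun x _ => ?_
      have h2 := Real.sq_sqrt (hf x).le
      have h3 := sq_nonneg (Real.sqrt (f x) - s)
      nlinarith
    rw [ent_E_add, ent_E_add, ent_E_smul, ent_E_smul, ent_E_one, ← hM, ← hs] at h1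
    nlinarith
  have hsM : s ≤ Real.sqrt M := Real.le_sqrt_of_sq_le hCS
  have hsq : Real.sqrt M ^ 2 = M := Real.sq_sqrt hMpos.le
  have hss : s ^ 2 ≤ Real.sqrt M * s := by nlinarith
  rw [hvar]
  unfold FM.Ent
  rw [← hM, ← hc]
  have h6 : c * (M + (-(2 * Real.sqrt M) * s + M * 1)) ≤ c * (2 * (M - s ^ 2)) :=
    mul_le_mul_of_nonneg_left (by linarith) hc0
  linarith

end FA
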