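import Pool.Agent.Helper870.FADefs
import Pool.Agent.Helper870.FAS1

set_option autoImplicit false
set_option linter.unusedSectionVars false

open Finset

noncomputable section

-- USES: S1
namespace FA
namespace MG
variable {X : Type} (G : MG X)

theorem iter_bd (F : X → ℝ) (hF : Bd F) (n : ℕ) : Bd (G.L^[n] F) := by
  obtain ⟨M, hM⟩ := hF
  exact ⟨(2 * G.N) ^ n * M, fun x => G.iter_bound F M hM n x⟩

theorem iter_P (n : ℕ) : ∀ (F : X → ℝ), Bd F → ∀ t : ℝ, G.L^[n] (G.P t F) = G.P t (G.L^[n] F) := by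
  induction n with
  | zero => intro F _ t; rfl
  | succ n ih =>
    intro F hF t
    rw [Function.iterate_succ_apply, Function.iterate_succ_apply]
    have h : G.L (G.P t F) = G.P t (G.L F) := by
      funext x; exact (G.P_comm F hF t x).symm
    rw [h]
    exact ih (G.L F) (G.L_bd F hF) t

theorem binom_fac (s t : ℝ) (k : ℕ) :
    ∑ p ∈ Finset.HasAntidiagonal.antidiagonal k, s ^ p.1 / (p.1.factorial : ℝ) * (t ^ p.2 / (p.2.factorial : ℝ)) =
      (s + t) ^ k / (k.factorial : ℝ) := by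
  rw [(Commute.all s t).add_pow', Finset.sum_div]
  refine Finset.sum_congr rfl fun p hp => ?_
  rw [Finset.HasAntidiagonal.mem_antidiagonal] at hp
  have h := Nat.choose_mul_factorial_mul_factorial (n := k) (k := p.1) (by omega)
  rw [show k - p.1 = p.2 by omega] at h
  have h' : ((k.choose p.1 : ℝ)) * p.1.factorial * p.2.factorial = k.factorial := by
    exact_mod_cast h
  have e1 : (p.1.factorial : ℝ) ≠ 0 := by positivity
  have e2 : (p.2.factorial : ℝ) ≠ 0 := by positivity
  have e3 : (k.factorial : ℝ) ≠ 0 := by positivity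
  rw [nsmul_eq_mul, div_mul_div_comm, div_eq_div_iff (mul_ne_zero e1 e2) e3, ← h']
  ring

theorem P_semigroup (F : X → ℝ) (hF : Bd F) (s t : ℝ) (x : X) :
    G.P (s + t) F x = G.P s (G.P t F) x := by
  obtain ⟨M, hM⟩ := hF
  have hM0 : 0 ≤ M := (abs_nonneg _).trans (hM x)
  set f : ℕ × ℕ → ℝ := fun p => s ^ p.1 / (p.1.factorial : ℝ) *
    (t ^ p.2 / (p.2.factorial : ℝ) * (G.L^[p.2] (G.L^[p.1] F)) x) with hf
  have hsum : Summable f := by
    have h1 := Real.summable_pow_div_factorial (2 * G.N * |s|)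
    have h2 := (Real.summable_pow_div_factorial (2 * G.N * |t|)).mul_right M
    have hN := G.hN
    have h3 := h1.mul_of_nonneg h2 (fun n => by positivity) (fun n => by positivity)
    refine Summable.of_norm_bounded h3 ?_
    rintro ⟨m, n⟩
    rw [hf, Real.norm_eq_abs]
    simp only
    have h4 : |(G.L^[n] (G.L^[m] F)) x| ≤ (2 * G.N) ^ n * ((2 * G.N) ^ m * M) :=
      G.iter_bound _ _ (fun y => G.iter_bound F M hM m y) n x
    rw [abs_mul, abs_mul, abs_div, abs_div, abs_pow, abs_pow, Nat.abs_cast, Nat.abs_cast]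
    calc |s| ^ m / (m.factorial : ℝ) * (|t| ^ n / (n.factorial : ℝ) *
          |(G.L^[n] (G.L^[m] F)) x|)
        ≤ |s| ^ m / (m.factorial : ℝ) * (|t| ^ n / (n.factorial : ℝ) *
          ((2 * G.N) ^ n * ((2 * G.N) ^ m * M))) := by gcongr
      _ = (2 * G.N * |s|) ^ m / (m.factorial : ℝ) *
          ((2 * G.N * |t|) ^ n / (n.factorial : ℝ) * M) := by
        rw [mul_pow (2 * G.N) |s|, mul_pow (2 * G.N) |t|]; ring
  have h1 : G.P s (G.P t F) x = ∑' p : ℕ × ℕ, f p := by
    rw [hsum.tsum_prod]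
    show (∑' m : ℕ, s ^ m / (m.factorial : ℝ) * (G.L^[m] (G.P t F)) x) = _
    refine tsum_congr fun m => ?_
    rw [G.iter_P m F ⟨M, hM⟩ t]
    show s ^ m / (m.factorial : ℝ) *
      (∑' n : ℕ, t ^ n / (n.factorial : ℝ) * (G.L^[n] (G.L^[m] F)) x) = _
    rw [← tsum_mul_left]
  have h2 : ∑' p : ℕ × ℕ, f p = ∑' k : ℕ, ∑ p ∈ Finset.HasAntidiagonal.antidiagonal k, f p := by
    rw [← (Finset.HasAntidiagonal.sigmaAntidiagonalEquivProd (A := ℕ)).tsum_eq f]
    have hs' : Summable fun c => f ((Finset.HasAntidiagonal.sigmaAntidiagonalEquivProd (A := ℕ)) c) :=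
      ((Finset.HasAntidiagonal.sigmaAntidiagonalEquivProd (A := ℕ)).summable_iff).2 hsum
    rw [Summable.tsum_sigma' (fun k => (hasSum_fintype _).summable) hs']
    refine tsum_congr fun k => ?_
    rw [tsum_fintype]
    exact Finset.sum_coe_sort (Finset.HasAntidiagonal.antidiagonal k) f
  rw [h1, h2]
  show (∑' k : ℕ, (s + t) ^ k / (k.factorial : ℝ) * (G.L^[k] F) x) = _
  refine tsum_congr fun k => ?_
  rw [← binom_fac, Finset.sum_mul]
  refine Finset.sum_congr rfl fun p hp => ?_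
  rw [Finset.HasAntidiagonal.mem_antidiagonal] at hp
  rw [hf]
  simp only
  rw [← Function.iterate_add_apply, show p.2 + p.1 = k by omega]
  ring

theorem K_bound (F : X → ℝ) (M : ℝ) (hM : ∀ x, |F x| ≤ M) (x : X) : |G.K F x| ≤ M := by
  have hN := G.hN
  have hM0 : 0 ≤ M := (abs_nonneg _).trans (hM x)
  have h1 : G.N * G.K F x = (G.N - ∑ i ∈ G.I, G.r i x) * F x + ∑ i ∈ G.I, G.r i x * F (G.T i x) := by
    unfold K L
    have : ∑ i ∈ G.I, G.r i x * (F (G.T i x) - F x) =
        ∑ i ∈ G.I, G.r i x * F (G.T i x) - (∑ i ∈ G.I, G.r i x) * F x := by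
      rw [Finset.sum_mul, ← Finset.sum_sub_distrib]
      exact Finset.sum_congr rfl fun i _ => by ring
    rw [this]
    field_simp
    ring
  have h2 : |G.N * G.K F x| ≤ G.N * M := by
    rw [h1]
    have h3 := G.hs x
    calc |(G.N - ∑ i ∈ G.I, G.r i x) * F x + ∑ i ∈ G.I, G.r i x * F (G.T i x)|
        ≤ |(G.N - ∑ i ∈ G.I, G.r i x) * F x| + |∑ i ∈ G.I, G.r i x * F (G.T i x)| := abs_add_le _ _
      _ ≤ (G.N - ∑ i ∈ G.I, G.r i x) * M + ∑ i ∈ G.I, G.r i x * M := by
        refine add_le_add ?_ ?_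
        · rw [abs_mul, abs_of_nonneg (by linarith)]
          exact mul_le_mul_of_nonneg_left (hM x) (by linarith)
        · refine (Finset.abs_sum_le_sum_abs _ _).trans (Finset.sum_le_sum fun i hi => ?_)
          rw [abs_mul, abs_of_nonneg (G.hr i hi x)]
          exact mul_le_mul_of_nonneg_left (hM _) (G.hr i hi x)
      _ = G.N * M := by rw [← Finset.sum_mul]; ring
  rw [abs_mul, abs_of_pos hN] at h2
  exact le_of_mul_le_mul_left h2 hN

theorem K_iter_bound (F : X → ℝ) (M : ℝ) (hM : ∀ x, |F x| ≤ M) (n : ℕ) (x : X) :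
    |(G.K^[n] F) x| ≤ M := by
  induction n generalizing x with
  | zero => exact hM x
  | succ n ih =>
    rw [Function.iterate_succ_apply']
    exact G.K_bound _ M ih x

theorem P_unif_summ (F : X → ℝ) (hF : Bd F) (t : ℝ) (x : X) :
    Summable (fun n : ℕ => Real.exp (-(G.N * t)) * (G.N * t) ^ n / (n.factorial : ℝ) * (G.K^[n] F) x) := by
  obtain ⟨M, hM⟩ := hF
  have h1 := ((Real.summable_pow_div_factorial |G.N * t|).mul_left
    (Real.exp (-(G.N * t)))).mul_right M
  refine Summable.of_norm_bounded h1 fun n => ?_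
  rw [Real.norm_eq_abs, abs_mul, abs_div, abs_mul, abs_pow, Nat.abs_cast, Real.abs_exp,
    mul_div_assoc]
  exact mul_le_mul_of_nonneg_left (G.K_iter_bound F M hM n x) (by positivity)

/-- the generator as a linear map -/
def LL : Module.End ℝ (X → ℝ) where
  toFun := G.L
  map_add' F H := by
    funext x
    simp only [L, Pi.add_apply, ← Finset.sum_add_distrib]
    exact Finset.sum_congr rfl fun i _ => by ring
  map_smul' c F := by
    funext x
    simp only [L, Pi.smul_apply, smul_eq_mul, RingHom.id_apply, Finset.mul_sum]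
    exact Finset.sum_congr rfl fun i _ => by ring

/-- the one-step operator as a linear map -/
def KK : Module.End ℝ (X → ℝ) := 1 + G.N⁻¹ • G.LL

theorem KK_coe : ⇑G.KK = G.K := by
  funext F x
  simp only [KK, LinearMap.add_apply, LinearMap.smul_apply, Module.End.one_apply, Pi.add_apply,
    Pi.smul_apply, smul_eq_mul, K]
  show F x + G.N⁻¹ * G.L F x = _
  rw [div_eq_inv_mul]

theorem LL_coe : ⇑G.LL = G.L := rfl

theorem K_iter (F : X → ℝ) (n : ℕ) (x : X) :
    (G.K^[n] F) x = ∑ p ∈ Finset.HasAntidiagonal.antidiagonal n, (n.choose p.1 : ℝ) *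
      ((G.N⁻¹) ^ p.2 * (G.L^[p.2] F) x) := by
  have h1 : G.K^[n] F = (G.KK ^ n) F := by
    rw [Module.End.pow_apply, KK_coe]
  have h2 : Commute (1 : Module.End ℝ (X → ℝ)) (G.N⁻¹ • G.LL) := Commute.one_left _
  rw [h1, KK, h2.add_pow', LinearMap.sum_apply, Finset.sum_apply]
  refine Finset.sum_congr rfl fun p _ => ?_
  rw [one_pow, one_mul, smul_pow, LinearMap.smul_apply, LinearMap.smul_apply,
    Module.End.pow_apply, LL_coe]
  simp [nsmul_eq_mul]

theorem P_unif (F : X → ℝ) (hF : Bd F) (t : ℝ) (x : X) :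
    G.P t F x = ∑' n : ℕ, Real.exp (-(G.N * t)) * (G.N * t) ^ n / (n.factorial : ℝ) * (G.K^[n] F) x := by
  have hN := G.hN
  have hN' : G.N ≠ 0 := hN.ne'
  have ha : Summable fun n : ℕ => ‖(G.N * t) ^ n / (n.factorial : ℝ)‖ :=
    (Real.summable_pow_div_factorial (G.N * t)).norm
  have hb : Summable fun n : ℕ => ‖t ^ n / (n.factorial : ℝ) * (G.L^[n] F) x‖ :=
    (G.summ F hF t x).norm
  have h1 := tsum_mul_tsum_eq_tsum_sum_antidiagonal_of_summable_norm ha hb
  have h2 : ∑' n : ℕ, (G.N * t) ^ n / (n.factorial : ℝ) = Real.exp (G.N * t) := by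
    rw [Real.exp_eq_exp_ℝ]
    exact (NormedSpace.expSeries_div_hasSum_exp (G.N * t)).tsum_eq
  have h3 : ∀ n : ℕ, ∑ kl ∈ Finset.HasAntidiagonal.antidiagonal n, (G.N * t) ^ kl.1 / (kl.1.factorial : ℝ) *
      (t ^ kl.2 / (kl.2.factorial : ℝ) * (G.L^[kl.2] F) x) =
      (G.N * t) ^ n / (n.factorial : ℝ) * (G.K^[n] F) x := by
    intro n
    rw [K_iter, Finset.mul_sum]
    refine Finset.sum_congr rfl fun p hp => ?_
    rw [Finset.HasAntidiagonal.mem_antidiagonal] at hp
    have h := Nat.choose_mul_factorial_mul_factorial (n := n) (k := p.1) (by omega)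
    rw [show n - p.1 = p.2 by omega] at h
    have h' : ((n.choose p.1 : ℝ)) * p.1.factorial * p.2.factorial = n.factorial := by
      exact_mod_cast h
    have e1 : (p.1.factorial : ℝ) ≠ 0 := by positivity
    have e2 : (p.2.factorial : ℝ) ≠ 0 := by positivity
    have e4 : ((n.choose p.1 : ℝ)) ≠ 0 := by
      have : 0 < n.choose p.1 := Nat.choose_pos (by omega)
      positivity
    rw [← h', show n = p.1 + p.2 by omega, pow_add, mul_pow G.N t p.2, inv_pow]
    rw [show p.1 + p.2 = n by omega]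
    field_simp
  rw [tsum_congr h3, h2] at h1
  have h4 : (fun n : ℕ => Real.exp (-(G.N * t)) * (G.N * t) ^ n / (n.factorial : ℝ) *
      (G.K^[n] F) x) = fun n : ℕ => Real.exp (-(G.N * t)) *
        ((G.N * t) ^ n / (n.factorial : ℝ) * (G.K^[n] F) x) := by
    funext n; ring
  rw [h4, tsum_mul_left, ← h1, ← mul_assoc, ← Real.exp_add]
  rw [neg_add_cancel, Real.exp_zero, one_mul]
  rfl

end MG
end FA
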