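import Pool.Agent.Helper870.FADefs
import Pool.Agent.Helper870.FAG1
import Pool.Agent.Helper870.FAD2
import Pool.Agent.Helper870.FAS1
import Pool.Agent.Helper870.FAS3
import Pool.Agent.Helper870.FAS10
import Pool.Agent.Helper870.FAD4
import Pool.Agent.Helper870.FALB
import Pool.Agent.Helper870.FAD5
import Pool.Agent.Helper870.FACQ1

set_option autoImplicit false
set_option linter.unusedSectionVars false

open Finset

noncomputable section

-- USES: G1 D2 S1 S3 S10 D4 LB D5 CQ1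
namespace FA
variable {q : ℝ}

open Classical in
/-- total rate of the suppressed moves -/
def Vex {X : Type} (G : MG X) (C : X → Prop) (x : X) : ℝ :=
  ∑ i ∈ G.I, if C x ∧ ¬ C (G.T i x) then G.r i x else 0

theorem Vex_diff {X : Type} (G : MG X) (C : X → Prop) (H : X → ℝ) (M : ℝ) (hM : ∀ x, |H x| ≤ M) (x : X) :
    |G.L H x - (G.refl C).L H x| ≤ 2 * M * Vex G C x := by
  classical
  have h1 : G.L H x - (G.refl C).L H x =
      ∑ i ∈ G.I, (if C x ∧ ¬ C (G.T i x) then G.r i x else 0) * (H (G.T i x) - H x) := by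
    have h0 : (G.refl C).L H x =
        ∑ i ∈ G.I, (if C x ∧ ¬ C (G.T i x) then 0 else G.r i x) * (H (G.T i x) - H x) := by
      unfold MG.L MG.refl
      apply Finset.sum_congr rfl
      intro i _
      congr 1
    rw [h0]
    unfold MG.L
    rw [← Finset.sum_sub_distrib]
    apply Finset.sum_congr rfl
    intro i _
    split_ifs <;> ring
  have h4 : Vex G C x = ∑ i ∈ G.I, if C x ∧ ¬ C (G.T i x) then G.r i x else 0 := by
    unfold Vex
    apply Finset.sum_congr rfl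
    intro i _
    congr 1
  rw [h1, h4, Finset.mul_sum]
  refine (Finset.abs_sum_le_sum_abs _ _).trans (Finset.sum_le_sum fun i hi => ?_)
  rw [abs_mul]
  have h2 : |H (G.T i x) - H x| ≤ 2 * M := by
    have a1 := hM (G.T i x)
    have a2 := hM x
    rw [abs_le] at a1 a2 ⊢
    constructor <;> linarith only [a1.1, a1.2, a2.1, a2.2]
  split_ifs with h3
  · rw [abs_of_nonneg (G.hr i hi x), mul_comm]
    exact mul_le_mul_of_nonneg_right h2 (G.hr i hi x)
  · simp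


theorem Vex_nonneg {X : Type} (G : MG X) (C : X → Prop) (x : X) : 0 ≤ Vex G C x := by
  unfold Vex
  apply Finset.sum_nonneg
  intro i hi
  split_ifs
  · exact G.hr i hi x
  · exact le_rfl


theorem Vex_bd {X : Type} (G : MG X) (C : X → Prop) : Bd (Vex G C) := by
  refine ⟨G.N, fun x => ?_⟩
  rw [abs_of_nonneg (Vex_nonneg G C x)]
  refine le_trans ?_ (G.hs x)
  unfold Vex
  apply Finset.sum_le_sum
  intro i hi
  split_ifs
  · exact le_rfl
  · exact G.hr i hi x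


/-- a move destroys goodness only if some block has exactly one infected site -/
theorem Vex_le (h0 : 0 < q) (h1 : q < 1) (o : ℤ) (ℓ n : ℕ) (k : ℤ → Finset ℤ → Bool) (S : Finset ℤ) :
    Vex (kG q h0.le h1.le (Bx o ℓ n) k) (Good o ℓ n) S ≤
      ∑ i ∈ Finset.range n, if (S ∩ Bk o ℓ i).card = 1 then 1 else 0 := by
  classical
  by_cases hG : Good o ℓ n S
  · have h4 : Vex (kG q h0.le h1.le (Bx o ℓ n) k) (Good o ℓ n) S =
        ∑ p ∈ Bx o ℓ n ×ˢ (Finset.univ : Finset Bool),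
          if ¬ Good o ℓ n (if p.2 then insert p.1 S else S.erase p.1) then
            kv k p.1 S * (if p.2 then q else 1 - q) else 0 := by
      unfold Vex kG
      apply Finset.sum_congr rfl
      intro i _
      simp only [hG, true_and]
    have hins : ∀ x, Good o ℓ n (insert x S) := by
      intro x i hi
      exact (hG i hi).mono (Finset.inter_subset_inter_right (Finset.subset_insert x S))
    rw [h4, Finset.sum_product]
    have h5 : ∀ x ∈ Bx o ℓ n, (∑ y : Bool,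
        if ¬ Good o ℓ n (if ((x, y) : ℤ × Bool).2 then insert ((x, y) : ℤ × Bool).1 S
          else S.erase ((x, y) : ℤ × Bool).1) then
            kv k ((x, y) : ℤ × Bool).1 S * (if ((x, y) : ℤ × Bool).2 then q else 1 - q) else 0) ≤
        ∑ i ∈ Finset.range n, if S ∩ Bk o ℓ i = {x} then (1 : ℝ) else 0 := by
      intro x _
      rw [Fintype.sum_bool]
      simp only [if_true, hins x, not_true_eq_false, if_false, zero_add, Bool.false_eq_true]
      by_cases hE : Good o ℓ n (S.erase x)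
      · rw [if_neg (not_not.2 hE)]
        apply Finset.sum_nonneg
        intro i _
        split_ifs <;> norm_num
      · rw [if_pos hE]
        have hE' := hE
        unfold Good at hE'
        push Not at hE'
        obtain ⟨i, hi, he⟩ := hE'
        have hne := hG i hi
        have hsing : S ∩ Bk o ℓ i = {x} := by
          obtain ⟨y, hy⟩ := hne
          have hall : ∀ y ∈ S ∩ Bk o ℓ i, y = x := by
            intro y hy
            by_contra hyx
            have : y ∈ S.erase x ∩ Bk o ℓ i :=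
              Finset.mem_inter.2 ⟨Finset.mem_erase.2 ⟨hyx, (Finset.mem_inter.1 hy).1⟩,
                (Finset.mem_inter.1 hy).2⟩
            rw [he] at this
            exact absurd this (Finset.notMem_empty _)
          apply Finset.eq_singleton_iff_unique_mem.2
          refine ⟨?_, hall⟩
          rw [← hall y hy]
          exact hy
        have h6 : kv k x S * (1 - q) ≤ 1 := by
          have a1 := kv_le k x S
          have a2 := kv_nonneg k x S
          calc kv k x S * (1 - q) ≤ 1 * 1 :=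
                mul_le_mul a1 (by linarith) (by linarith) (by norm_num)
            _ = 1 := by norm_num
        refine h6.trans ?_
        have h7 : (if S ∩ Bk o ℓ i = {x} then (1 : ℝ) else 0) ≤
            ∑ i ∈ Finset.range n, if S ∩ Bk o ℓ i = {x} then (1 : ℝ) else 0 := by
          apply Finset.single_le_sum (f := fun i => if S ∩ Bk o ℓ i = {x} then (1 : ℝ) else 0)
          · intro j _
            show (0 : ℝ) ≤ if S ∩ Bk o ℓ j = {x} then (1 : ℝ) else 0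
            split_ifs <;> norm_num
          · exact Finset.mem_range.2 hi
        rw [if_pos hsing] at h7
        exact h7
    refine (Finset.sum_le_sum h5).trans ?_
    rw [Finset.sum_comm]
    apply Finset.sum_le_sum
    intro i _
    by_cases hc : (S ∩ Bk o ℓ i).card = 1
    · rw [if_pos hc]
      obtain ⟨y, hy⟩ := Finset.card_eq_one.1 hc
      rw [hy]
      have h8 : ∀ x ∈ Bx o ℓ n, (if ({y} : Finset ℤ) = {x} then (1 : ℝ) else 0) =
          if y = x then 1 else 0 := by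
        intro x _
        simp only [Finset.singleton_inj]
      rw [Finset.sum_congr rfl h8, Finset.sum_ite_eq]
      split_ifs <;> norm_num
    · rw [if_neg hc]
      apply le_of_eq
      apply Finset.sum_eq_zero
      intro x _
      rw [if_neg]
      intro h
      apply hc
      rw [h, Finset.card_singleton]
  · have h4 : Vex (kG q h0.le h1.le (Bx o ℓ n) k) (Good o ℓ n) S = 0 := by
      unfold Vex
      apply Finset.sum_eq_zero
      intro i _
      rw [if_neg]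
      exact fun h => hG h.1
    rw [h4]
    apply Finset.sum_nonneg
    intro i _
    split_ifs <;> norm_num


theorem exit_Psum {X : Type} (G : MG X) (F : ℕ → X → ℝ) (n : ℕ) (hF : ∀ i < n, Bd (F i)) (t : ℝ)
    (x : X) : Bd (fun y => ∑ i ∈ Finset.range n, F i y) ∧
    G.P t (fun y => ∑ i ∈ Finset.range n, F i y) x = ∑ i ∈ Finset.range n, G.P t (F i) x := by
  induction n with
  | zero =>
    simp only [Finset.range_zero, Finset.sum_empty]
    exact ⟨⟨0, fun _ => by simp⟩, G.P_const 0 t x⟩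
  | succ n ih =>
    obtain ⟨b1, b2⟩ := ih (fun i hi => hF i (by omega))
    have b3 := hF n (by omega)
    simp only [Finset.sum_range_succ]
    refine ⟨?_, ?_⟩
    · obtain ⟨M1, hM1⟩ := b1
      obtain ⟨M2, hM2⟩ := b3
      refine ⟨M1 + M2, fun y => ?_⟩
      exact (abs_add_le _ _).trans (add_le_add (hM1 y) (hM2 y))
    · rw [G.P_add _ _ b1 b3, b2]

theorem exit_Vbd (V : Finset ℤ → ℝ) (A : Finset ℤ) (h : ∀ S, V S = V (S ∩ A)) : Bd V := by
  refine ⟨∑ U ∈ A.powerset, |V U|, fun S => ?_⟩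
  rw [h S]
  exact Finset.single_le_sum (f := fun U => |V U|) (fun U _ => abs_nonneg _)
    (Finset.mem_powerset.2 Finset.inter_subset_right)

theorem exit_one (h0 : 0 < q) (h1 : q < 1) (s : Sys) (θ c C : ℝ) (hθ : 0 < θ) (hc : 0 < c)
    (hC : 1 ≤ C) (o : ℤ) (ℓ n : ℕ) (V : Finset ℤ → ℝ) (S : Finset ℤ) (z : ℤ)
    (hz0 : z ∈ Icc o (o + n * ℓ - 1)) (hSn : S.Nonempty)
    (hS : S ⊆ Icc o (o + n * ℓ - 1))
    (hz : ∃ x ∈ S, 8 * |z - x| ≤ ℓ) (hV0 : ∀ S, 0 ≤ V S)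
    (hV1 : ∀ x ∈ S, V S ≤ C * Real.exp (θ * (s.D o (o + n * ℓ - 1) z x : ℝ)))
    (t : ℝ) (ht : 0 ≤ t)
    (hV3 : (kG q h0.le h1.le (Icc o (o + n * ℓ - 1)) (s.k o (o + n * ℓ - 1))).P t V S ≤
        C * Real.exp (-(c * t)) * V S + C) :
    (kG q h0.le h1.le (Icc o (o + n * ℓ - 1)) (s.k o (o + n * ℓ - 1))).P t V S ≤
      2 * C ^ 2 * Real.exp (θ * ℓ / 8) := by
  obtain ⟨x, hx, hzx⟩ := hz
  have hD := s.D1 o (o + n * ℓ - 1) z x hz0 (hS hx)
  have hD2 : ((s.D o (o + n * ℓ - 1) z x : ℕ) : ℝ) ≤ ℓ / 8 := by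
    have h2 : 8 * ((s.D o (o + n * ℓ - 1) z x : ℕ) : ℤ) ≤ (ℓ : ℤ) := by linarith
    have h3 : 8 * ((s.D o (o + n * ℓ - 1) z x : ℕ) : ℝ) ≤ (ℓ : ℝ) := by exact_mod_cast h2
    linarith
  have h4 : V S ≤ C * Real.exp (θ * ℓ / 8) := by
    refine (hV1 x hx).trans ?_
    apply mul_le_mul_of_nonneg_left _ (by linarith)
    apply Real.exp_le_exp.2
    calc θ * ((s.D o (o + n * ℓ - 1) z x : ℕ) : ℝ) ≤ θ * (ℓ / 8) :=
          mul_le_mul_of_nonneg_left hD2 hθ.le
      _ = θ * ℓ / 8 := by ring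
  have h5 : Real.exp (-(c * t)) ≤ 1 := by
    rw [Real.exp_le_one_iff]
    have : 0 ≤ c * t := by positivity
    linarith
  have h6 : 1 ≤ Real.exp (θ * ℓ / 8) := Real.one_le_exp (by positivity)
  have h7 : Real.exp (-(c * t)) * V S ≤ 1 * (C * Real.exp (θ * ℓ / 8)) :=
    mul_le_mul h5 h4 (hV0 S) (by norm_num)
  have h8 : C * (Real.exp (-(c * t)) * V S) ≤ C * (1 * (C * Real.exp (θ * ℓ / 8))) :=
    mul_le_mul_of_nonneg_left h7 (by linarith)
  have h9 : C * 1 ≤ C * (C * Real.exp (θ * ℓ / 8)) := by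
    apply mul_le_mul_of_nonneg_left _ (by linarith)
    calc (1 : ℝ) = 1 * 1 := by norm_num
      _ ≤ C * Real.exp (θ * ℓ / 8) := mul_le_mul hC h6 (by norm_num) (by linarith)
  refine hV3.trans ?_
  nlinarith only [h8, h9]

/-- geometry of one block -/
theorem exit_geo (o : ℤ) (ℓ n i : ℕ) (hi : i < n) (hl : 16 ≤ ℓ) :
    (o + i * ℓ + (ℓ / 4 : ℕ) ∈ Icc o (o + n * ℓ - 1) ∧
      ((ℓ / 4 - 2 : ℕ) : ℤ) ≤ (o + i * ℓ + (ℓ / 4 : ℕ)) - o ∧
      ((ℓ / 4 - 2 : ℕ) : ℤ) ≤ (o + n * ℓ - 1) - (o + i * ℓ + (ℓ / 4 : ℕ))) ∧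
    (o + i * ℓ + ℓ - 1 - (ℓ / 4 : ℕ) ∈ Icc o (o + n * ℓ - 1) ∧
      ((ℓ / 4 - 2 : ℕ) : ℤ) ≤ (o + i * ℓ + ℓ - 1 - (ℓ / 4 : ℕ)) - o ∧
      ((ℓ / 4 - 2 : ℕ) : ℤ) ≤ (o + n * ℓ - 1) - (o + i * ℓ + ℓ - 1 - (ℓ / 4 : ℕ))) := by
  have h1 : (i : ℤ) * ℓ + ℓ ≤ n * ℓ := by
    have h2 : (i : ℤ) + 1 ≤ n := by exact_mod_cast hi
    have h3 : (0 : ℤ) ≤ ℓ := by positivity
    nlinarith
  have h2 : (0 : ℤ) ≤ (i : ℤ) * ℓ := by positivity
  simp only [Finset.mem_Icc]
  omega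

theorem exit_far (o : ℤ) (ℓ i : ℕ) (hl : 16 ≤ ℓ) (T : Finset ℤ) (y : ℤ)
    (hy : T ∩ Bk o ℓ i = {y}) :
    (∀ x ∈ T, ((ℓ / 4 - 2 : ℕ) : ℤ) ≤ |(o + i * ℓ + (ℓ / 4 : ℕ)) - x|) ∨
    (∀ x ∈ T, ((ℓ / 4 - 2 : ℕ) : ℤ) ≤ |(o + i * ℓ + ℓ - 1 - (ℓ / 4 : ℕ)) - x|) := by
  have hx : ∀ x ∈ T, x = y ∨ x < o + i * ℓ ∨ o + i * ℓ + ℓ - 1 < x := by
    intro x hx
    by_cases hb : x ∈ Bk o ℓ i
    · left
      have : x ∈ T ∩ Bk o ℓ i := Finset.mem_inter.2 ⟨hx, hb⟩
      rw [hy] at this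
      exact Finset.mem_singleton.1 this
    · right
      unfold Bk at hb
      rw [Finset.mem_Icc] at hb
      omega
  by_cases hz1 : ((ℓ / 4 - 2 : ℕ) : ℤ) ≤ |(o + i * ℓ + (ℓ / 4 : ℕ)) - y|
  · left
    intro x hxT
    rcases hx x hxT with h | h | h
    · rw [h]; exact hz1
    · rw [le_abs]; left; omega
    · rw [le_abs]; right; omega
  · right
    rw [not_le, abs_lt] at hz1
    intro x hxT
    rcases hx x hxT with h | h | h
    · rw [h, le_abs]; left; omega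
    · rw [le_abs]; left; omega
    · rw [le_abs]; right; omega

/-- bad blocks stay rare -/
theorem exit_bound (h0 : 0 < q) (h1 : q < 1) (s : Sys) (θ c C : ℝ) (hθ : 0 < θ) (hc : 0 < c) (hC : 1 ≤ C)
    (N0 : ℤ) (hp : PersS s q h0 h1 θ c C N0) (o : ℤ) (ℓ n : ℕ) (hn : 1 ≤ n) (hl : 16 ≤ ℓ) (hN : N0 ≤ n * ℓ - 1)
    (S : Finset ℤ) (hS : S ⊆ Bx o ℓ n) (hz : ∀ z ∈ Bx o ℓ n, ∃ x ∈ S, 8 * |z - x| ≤ ℓ)
    (t : ℝ) (ht : 0 ≤ t) :
    (kG q h0.le h1.le (Bx o ℓ n) (s.k o (o + n * ℓ - 1))).P t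
      (Vex (kG q h0.le h1.le (Bx o ℓ n) (s.k o (o + n * ℓ - 1))) (Good o ℓ n)) S ≤
      n * (2 * C * (2 * C ^ 2) * Real.exp (3 * θ) * Real.exp (-(θ * ℓ / 8))) := by
  classical
  obtain ⟨b, hb⟩ : ∃ b : ℤ, b = o + n * ℓ - 1 := ⟨_, rfl⟩
  have hnl : (ℓ : ℤ) ≤ n * ℓ := by
    have h2 : (1 : ℤ) ≤ n := by exact_mod_cast hn
    have h3 : (0 : ℤ) ≤ ℓ := by positivity
    nlinarith
  have ho : o ∈ Bx o ℓ n := by
    unfold Bx
    rw [Finset.mem_Icc]
    omega
  have hSn : S.Nonempty := by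
    obtain ⟨x, hx, -⟩ := hz o ho
    exact ⟨x, hx⟩
  have hBx : Bx o ℓ n = Icc o (o + n * ℓ - 1) := rfl
  obtain ⟨G, hG⟩ : ∃ G, G = kG q h0.le h1.le (Bx o ℓ n) (s.k o (o + n * ℓ - 1)) := ⟨_, rfl⟩
  have hcl : ∀ i ∈ G.I, ∀ T ∈ {T : Finset ℤ | T ⊆ Bx o ℓ n}, G.r i T ≠ 0 →
      G.T i T ∈ {T : Finset ℤ | T ⊆ Bx o ℓ n} := by
    rw [hG]
    intro i hi T hT _
    have hi1 : i.1 ∈ Bx o ℓ n := (Finset.mem_product.1 hi).1
    show (if i.2 then insert i.1 T else T.erase i.1) ⊆ Bx o ℓ n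
    split_ifs
    · exact Finset.insert_subset hi1 hT
    · exact (Finset.erase_subset _ _).trans hT
  -- indicator functions
  obtain ⟨bb, hbb⟩ : ∃ bb : ℕ → Finset ℤ → ℝ, bb = fun i T =>
    if (T ∩ Bk o ℓ i).card = 1 then 1 else 0 := ⟨_, rfl⟩
  have hbbd : ∀ i, Bd (bb i) := by
    intro i
    refine ⟨1, fun T => ?_⟩
    rw [hbb]
    show |if (T ∩ Bk o ℓ i).card = 1 then (1 : ℝ) else 0| ≤ 1
    split_ifs <;> norm_num
  obtain ⟨p1, p2⟩ := exit_Psum G bb n (fun i _ => hbbd i) t S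
  have hstep1 : G.P t (Vex G (Good o ℓ n)) S ≤ ∑ i ∈ Finset.range n, G.P t (bb i) S := by
    rw [← p2]
    apply G.P_mono _ _ (Vex_bd G (Good o ℓ n)) p1 _ t ht
    intro T
    rw [hG, hbb]
    exact Vex_le h0 h1 o ℓ n (s.k o (o + n * ℓ - 1)) T
  have hblock : ∀ i ∈ Finset.range n, G.P t (bb i) S ≤
      2 * C * (2 * C ^ 2) * Real.exp (3 * θ) * Real.exp (-(θ * ℓ / 8)) := by
    intro i hi
    have hi' := Finset.mem_range.1 hi
    obtain ⟨⟨g1, g2, g3⟩, ⟨g4, g5, g6⟩⟩ := exit_geo o ℓ n i hi' hl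
    obtain ⟨z1, hz1⟩ : ∃ z1 : ℤ, z1 = o + i * ℓ + (ℓ / 4 : ℕ) := ⟨_, rfl⟩
    obtain ⟨z2, hz2⟩ : ∃ z2 : ℤ, z2 = o + i * ℓ + ℓ - 1 - (ℓ / 4 : ℕ) := ⟨_, rfl⟩
    obtain ⟨r, hr⟩ : ∃ r : ℕ, r = ℓ / 4 - 2 := ⟨_, rfl⟩
    rw [← hz1, ← hr] at g2 g3
    rw [← hz1] at g1
    rw [← hz2] at g4
    rw [← hz2, ← hr] at g5 g6
    have hNN : N0 ≤ (o + n * ℓ - 1) - o := by linarith
    obtain ⟨V1, v11, v12, v13⟩ := hp o (o + n * ℓ - 1) hNN z1 g1
    obtain ⟨V2, v21, v22, v23⟩ := hp o (o + n * ℓ - 1) hNN z2 g4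
    have bV1 := exit_Vbd V1 _ v11
    have bV2 := exit_Vbd V2 _ v21
    have er : 0 < Real.exp (-(θ * r)) := Real.exp_pos _
    have hpt : ∀ T ∈ {T : Finset ℤ | T ⊆ Bx o ℓ n}, bb i T ≤
        (Real.exp (-(θ * r)) * C) * (V1 T + V2 T) := by
      intro T hT
      rw [hbb]
      show (if (T ∩ Bk o ℓ i).card = 1 then (1 : ℝ) else 0) ≤ _
      split_ifs with hcard
      · obtain ⟨y, hy⟩ := Finset.card_eq_one.1 hcard
        have hTn : T.Nonempty := by
          have : y ∈ T ∩ Bk o ℓ i := by rw [hy]; exact Finset.mem_singleton_self y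
          exact ⟨y, (Finset.mem_inter.1 this).1⟩
        have key : ∀ (z : ℤ) (V : Finset ℤ → ℝ), z ∈ Icc o (o + n * ℓ - 1) →
            (r : ℤ) ≤ z - o → (r : ℤ) ≤ (o + n * ℓ - 1) - z → (∀ x ∈ T, (r : ℤ) ≤ |z - x|) →
            (∃ x ∈ T, Real.exp (θ * (s.D o (o + n * ℓ - 1) z x : ℝ)) ≤ C * V T) →
            1 ≤ Real.exp (-(θ * r)) * C * V T := by
          intro z V hzI e1 e2 hfar hex
          obtain ⟨x, hxT, hx⟩ := hex
          have hDr := s.D2 o (o + n * ℓ - 1) z x r hzI (hT hxT) e1 e2 (hfar x hxT)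
          have hDr' : (r : ℝ) ≤ (s.D o (o + n * ℓ - 1) z x : ℝ) := by exact_mod_cast hDr
          have h7 : Real.exp (θ * r) ≤ C * V T := by
            refine le_trans ?_ hx
            exact Real.exp_le_exp.2 (mul_le_mul_of_nonneg_left hDr' hθ.le)
          calc (1 : ℝ) = Real.exp (-(θ * r)) * Real.exp (θ * r) := by
                rw [← Real.exp_add]; simp
            _ ≤ Real.exp (-(θ * r)) * (C * V T) := mul_le_mul_of_nonneg_left h7 er.le
            _ = Real.exp (-(θ * r)) * C * V T := by ring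
        have hfar := exit_far o ℓ i hl T y hy
        rw [← hz1, ← hz2, ← hr] at hfar
        have hEC : 0 ≤ Real.exp (-(θ * r)) * C := by positivity
        rcases hfar with hf | hf
        · have := key z1 V1 g1 g2 g3 hf (v13 T hT hTn).2.1
          have h9 : 0 ≤ (Real.exp (-(θ * r)) * C) * V2 T := mul_nonneg hEC (v22 T)
          rw [mul_add]
          linarith
        · have := key z2 V2 g4 g5 g6 hf (v23 T hT hTn).2.1
          have h9 : 0 ≤ (Real.exp (-(θ * r)) * C) * V1 T := mul_nonneg hEC (v12 T)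
          rw [mul_add]
          linarith
      · have hEC : 0 ≤ Real.exp (-(θ * r)) * C := by positivity
        exact mul_nonneg hEC (add_nonneg (v12 T) (v22 T))
    have bV12 : Bd (fun T => V1 T + V2 T) := by
      obtain ⟨M1, hM1⟩ := bV1
      obtain ⟨M2, hM2⟩ := bV2
      exact ⟨M1 + M2, fun T => (abs_add_le _ _).trans (add_le_add (hM1 T) (hM2 T))⟩
    have bV12' : Bd (fun T => (Real.exp (-(θ * r)) * C) * (V1 T + V2 T)) := by
      obtain ⟨M, hM⟩ := bV12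
      refine ⟨(Real.exp (-(θ * r)) * C) * M, fun T => ?_⟩
      rw [abs_mul, abs_of_nonneg (by positivity : 0 ≤ Real.exp (-(θ * r)) * C)]
      exact mul_le_mul_of_nonneg_left (hM T) (by positivity)
    have hm := G.P_mono_on _ hcl (bb i) _ (hbbd i) bV12' hpt t ht S hS
    rw [G.P_smul _ _ bV12, G.P_add _ _ bV1 bV2] at hm
    have hzin : ∀ z, z ∈ Icc o (o + n * ℓ - 1) → z ∈ Bx o ℓ n := fun z h => h
    have w1 : G.P t V1 S ≤ 2 * C ^ 2 * Real.exp (θ * ℓ / 8) := by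
      rw [hG]
      exact exit_one h0 h1 s θ c C hθ hc hC o ℓ n V1 S z1 g1 hSn hS (hz z1 (hzin z1 g1)) v12
        (v13 S hS hSn).1 t ht ((v13 S hS hSn).2.2 t ht)
    have w2 : G.P t V2 S ≤ 2 * C ^ 2 * Real.exp (θ * ℓ / 8) := by
      rw [hG]
      exact exit_one h0 h1 s θ c C hθ hc hC o ℓ n V2 S z2 g4 hSn hS (hz z2 (hzin z2 g4)) v22
        (v23 S hS hSn).1 t ht ((v23 S hS hSn).2.2 t ht)
    refine hm.trans ?_
    have hrr : Real.exp (-(θ * r)) ≤ Real.exp (3 * θ) * Real.exp (-(θ * ℓ / 4)) := by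
      rw [← Real.exp_add]
      apply Real.exp_le_exp.2
      have h10 : (ℓ : ℝ) ≤ 4 * r + 12 := by
        have : ℓ ≤ 4 * r + 12 := by omega
        exact_mod_cast this
      nlinarith
    calc Real.exp (-(θ * r)) * C * (G.P t V1 S + G.P t V2 S)
        ≤ Real.exp (-(θ * r)) * C * (2 * C ^ 2 * Real.exp (θ * ℓ / 8) +
            2 * C ^ 2 * Real.exp (θ * ℓ / 8)) :=
          mul_le_mul_of_nonneg_left (add_le_add w1 w2) (by positivity)
      _ = Real.exp (-(θ * r)) * (2 * C * (2 * C ^ 2) * Real.exp (θ * ℓ / 8)) := by ring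
      _ ≤ (Real.exp (3 * θ) * Real.exp (-(θ * ℓ / 4))) *
            (2 * C * (2 * C ^ 2) * Real.exp (θ * ℓ / 8)) :=
          mul_le_mul_of_nonneg_right hrr (by positivity)
      _ = 2 * C * (2 * C ^ 2) * Real.exp (3 * θ) *
            (Real.exp (-(θ * ℓ / 4)) * Real.exp (θ * ℓ / 8)) := by ring
      _ = 2 * C * (2 * C ^ 2) * Real.exp (3 * θ) * Real.exp (-(θ * ℓ / 8)) := by
          rw [← Real.exp_add]
          congr 2
          ring
  rw [← hG]
  refine hstep1.trans ((Finset.sum_le_sum hblock).trans ?_)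
  rw [Finset.sum_const, Finset.card_range, nsmul_eq_mul]


end FA
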