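import Pool.Agent.Helper870.FADefs
import Pool.Agent.Helper870.FAS1

set_option autoImplicit false
set_option linter.unusedSectionVars false

open Finset

noncomputable section

-- USES: S1
namespace FA
variable {X : Type} (G : MG X) (m : FM X)

theorem rev_iter (hrev : Rev G m) (n : ℕ) : ∀ F H : X → ℝ,
    m.E (fun x => F x * (G.L^[n] H) x) = m.E (fun x => H x * (G.L^[n] F) x) := by
  induction n with
  | zero =>
    intro F H
    simp only [Function.iterate_zero, id]
    congr 1
    ext x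
    ring
  | succ n ih =>
    intro F H
    rw [Function.iterate_succ_apply', hrev F (G.L^[n] H)]
    have h1 : (fun x => (G.L^[n] H) x * G.L F x) = (fun x => (G.L F) x * (G.L^[n] H) x) := by
      ext x; ring
    rw [h1, ih (G.L F) H, ← Function.iterate_succ_apply]

theorem E_mul_P (F H : X → ℝ) (hH : Bd H) (t : ℝ) :
    m.E (fun x => F x * G.P t H x) =
      ∑' n : ℕ, t ^ n / (n.factorial : ℝ) * m.E (fun x => F x * (G.L^[n] H) x) := by
  have hs : ∀ x ∈ m.s, Summable (fun n : ℕ => m.w x * (F x *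
      (t ^ n / (n.factorial : ℝ) * (G.L^[n] H) x))) := by
    intro x _
    exact ((G.summ H hH t x).mul_left (F x)).mul_left (m.w x)
  calc m.E (fun x => F x * G.P t H x)
      = ∑ x ∈ m.s, ∑' n : ℕ, m.w x * (F x * (t ^ n / (n.factorial : ℝ) * (G.L^[n] H) x)) := by
        unfold FM.E MG.P semi
        refine Finset.sum_congr rfl fun x _ => ?_
        rw [tsum_mul_left, tsum_mul_left]
    _ = ∑' n : ℕ, ∑ x ∈ m.s, m.w x * (F x * (t ^ n / (n.factorial : ℝ) * (G.L^[n] H) x)) := by
        rw [Summable.tsum_finsetSum hs]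
    _ = _ := by
        refine tsum_congr fun n => ?_
        unfold FM.E
        rw [Finset.mul_sum]
        refine Finset.sum_congr rfl fun x _ => ?_
        ring

theorem rev_P (hrev : Rev G m) (F H : X → ℝ) (hF : Bd F) (hH : Bd H) (t : ℝ) :
    m.E (fun x => F x * G.P t H x) = m.E (fun x => H x * G.P t F x) := by
  rw [E_mul_P G m F H hH t, E_mul_P G m H F hF t]
  refine tsum_congr fun n => ?_
  rw [rev_iter G m hrev n F H]

theorem E_P (hrev : Rev G m) (F : X → ℝ) (hF : Bd F) (t : ℝ) : m.E (G.P t F) = m.E F := by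
  have h1 : Bd (fun _ : X => (1 : ℝ)) := ⟨1, fun x => by simp⟩
  have h := rev_P G m hrev (fun _ => 1) F h1 hF t
  have h2 : (fun x => (1 : ℝ) * G.P t F x) = G.P t F := by ext x; ring
  have h3 : (fun x => F x * G.P t (fun _ => (1 : ℝ)) x) = F := by
    ext x
    rw [G.P_const 1 t x]
    ring
  rw [h2, h3] at h
  exact h

theorem E_L (hrev : Rev G m) (F : X → ℝ) : m.E (G.L F) = 0 := by
  have h := hrev (fun _ => 1) F
  have h2 : (fun x => (1 : ℝ) * G.L F x) = G.L F := by ext x; ring
  have h3 : (fun x => F x * G.L (fun _ => (1 : ℝ)) x) = fun _ => 0 := by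
    ext x
    unfold MG.L
    simp
  rw [h2, h3] at h
  rw [h]
  unfold FM.E
  simp

theorem var_nonneg (F : X → ℝ) : 0 ≤ m.Var F := by
  have h1 : m.Var F = ∑ x ∈ m.s, m.w x * (F x - m.E F) ^ 2 := by
    have h2 : ∑ x ∈ m.s, m.w x * (F x - m.E F) ^ 2 =
        ∑ x ∈ m.s, m.w x * (F x) ^ 2 - 2 * m.E F * (∑ x ∈ m.s, m.w x * F x)
          + (m.E F) ^ 2 * ∑ x ∈ m.s, m.w x := by
      rw [Finset.mul_sum, Finset.mul_sum, ← Finset.sum_sub_distrib, ← Finset.sum_add_distrib]
      refine Finset.sum_congr rfl fun x _ => ?_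
      ring
    rw [h2, m.hone]
    unfold FM.Var
    have h3 : (∑ x ∈ m.s, m.w x * F x) = m.E F := rfl
    have h4 : m.E (fun x => F x ^ 2) = ∑ x ∈ m.s, m.w x * (F x) ^ 2 := rfl
    rw [h3, h4]
    ring
  rw [h1]
  exact Finset.sum_nonneg fun x hx => mul_nonneg (m.hw x hx).le (sq_nonneg _)

theorem l2_decay (hrev : Rev G m) (C : ℝ) (hC : 0 < C)
    (hgap : ∀ F : X → ℝ, Bd F → m.Var F ≤ C * Dir G m F) (F : X → ℝ) (hF : Bd F) (t : ℝ) (ht : 0 ≤ t) :
    m.Var (G.P t F) ≤ Real.exp (-(2 * t / C)) * m.Var F := by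
  have hvar : ∀ s, m.Var (G.P s F) = (∑ x ∈ m.s, m.w x * (G.P s F x) ^ 2) - (m.E F) ^ 2 := by
    intro s
    unfold FM.Var
    rw [E_P G m hrev F hF s]
    rfl
  have hder : ∀ s, HasDerivAt (fun s => m.Var (G.P s F)) (-2 * Dir G m (G.P s F)) s := by
    intro s
    have h1 : HasDerivAt (fun s => (∑ x ∈ m.s, m.w x * (G.P s F x) ^ 2) - (m.E F) ^ 2)
        (∑ x ∈ m.s, m.w x * (2 * G.P s F x * G.L (G.P s F) x)) s := by
      refine HasDerivAt.sub_const _ ?_
      refine HasDerivAt.fun_sum fun x _ => ?_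
      refine HasDerivAt.const_mul _ ?_
      have h2 := (G.P_deriv F hF s x).fun_pow 2
      simpa using h2
    have h3 : (∑ x ∈ m.s, m.w x * (2 * G.P s F x * G.L (G.P s F) x)) =
        -2 * Dir G m (G.P s F) := by
      unfold Dir FM.E
      rw [neg_mul_neg, Finset.mul_sum]
      refine Finset.sum_congr rfl fun x _ => ?_
      ring
    rw [h3] at h1
    have h4 : (fun s => m.Var (G.P s F)) =
        (fun s => (∑ x ∈ m.s, m.w x * (G.P s F x) ^ 2) - (m.E F) ^ 2) := funext hvar
    rw [h4]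
    exact h1
  have hexp : ∀ s, HasDerivAt (fun s : ℝ => Real.exp (2 * s / C))
      (Real.exp (2 * s / C) * (2 / C)) s := by
    intro s
    have h1 : HasDerivAt (fun s : ℝ => 2 * s / C) (2 / C) s := by
      have := ((hasDerivAt_id s).const_mul 2).div_const C
      simpa using this
    exact h1.exp
  have hg : ∀ s, HasDerivAt (fun s => Real.exp (2 * s / C) * m.Var (G.P s F))
      (Real.exp (2 * s / C) * (2 / C) * m.Var (G.P s F) +
        Real.exp (2 * s / C) * (-2 * Dir G m (G.P s F))) s := fun s => (hexp s).mul (hder s)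
  have hanti : Antitone (fun s => Real.exp (2 * s / C) * m.Var (G.P s F)) := by
    refine antitone_of_deriv_nonpos (fun s => (hg s).differentiableAt) fun s => ?_
    rw [(hg s).deriv]
    have h1 := hgap (G.P s F) (G.P_bd F hF s)
    have h2 : (2 / C) * m.Var (G.P s F) ≤ 2 * Dir G m (G.P s F) := by
      have : (2 / C) * m.Var (G.P s F) ≤ (2 / C) * (C * Dir G m (G.P s F)) :=
        mul_le_mul_of_nonneg_left h1 (by positivity)
      have h3 : (2 / C) * (C * Dir G m (G.P s F)) = 2 * Dir G m (G.P s F) := by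
        field_simp
      linarith
    have h4 := Real.exp_pos (2 * s / C)
    nlinarith
  have h := hanti ht
  simp only at h
  have h0 : m.Var (G.P 0 F) = m.Var F := by
    have : G.P 0 F = F := funext fun x => G.P_zero F x
    rw [this]
  rw [h0] at h
  have h5 : Real.exp (2 * 0 / C) = 1 := by simp
  rw [h5, one_mul] at h
  have h6 : Real.exp (-(2 * t / C)) * Real.exp (2 * t / C) = 1 := by
    rw [← Real.exp_add]; simp
  calc m.Var (G.P t F) = Real.exp (-(2 * t / C)) * (Real.exp (2 * t / C) * m.Var (G.P t F)) := by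
        rw [← mul_assoc, h6, one_mul]
    _ ≤ Real.exp (-(2 * t / C)) * m.Var F :=
        mul_le_mul_of_nonneg_left h (Real.exp_pos _).le

end FA
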