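import Pool.Agent.Helper870.FADefs
import Pool.Agent.Helper870.FAS1
import Pool.Agent.Helper870.FAS2
import Pool.Agent.Helper870.FAS3
import Pool.Agent.Helper870.FAS5
import Pool.Agent.Helper870.FAS6

set_option autoImplicit false
set_option linter.unusedSectionVars false

open Finset

noncomputable section

-- USES: S1 S2 S3 S5 S6
namespace FA
variable {X : Type} (G : MG X) (m : FM X)

theorem s8_E_pos (F : X → ℝ) (hF : ∀ x, 0 < F x) : 0 < m.E F := by
  unfold FM.E
  apply Finset.sum_pos
  · intro x hx; exact mul_pos (m.hw x hx) (hF x)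
  · by_contra hne
    rw [Finset.not_nonempty_iff_eq_empty] at hne
    have := m.hone
    rw [hne] at this; simp at this

theorem s8_p_pos (C t : ℝ) : 1 < 1 + Real.exp (4 * t / C) := by
  have := Real.exp_pos (4 * t / C); linarith

/-- hypercontractivity from the log-Sobolev inequality (Gross) -/
theorem hyper (hrev : Rev G m) (C : ℝ) (hC : 0 < C)
    (hlsi : ∀ f : X → ℝ, (∀ x, 0 < f x) → Bd f → m.Ent (fun x => f x ^ 2) ≤ C * Dir G m f)
    (g : X → ℝ) (c0 : ℝ) (hc0 : 0 < c0) (hlow : ∀ x, c0 ≤ g x) (hb : Bd g) (t : ℝ) (ht : 0 ≤ t) :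
    m.E (fun x => (G.P t g x) ^ (1 + Real.exp (4 * t / C))) ≤
      (m.E (fun x => g x ^ 2)) ^ ((1 + Real.exp (4 * t / C)) / 2) := by
  set p : ℝ → ℝ := fun s => 1 + Real.exp (4 * s / C) with hp
  have hp1 : ∀ s, 1 < p s := fun s => s8_p_pos C s
  have hpos : ∀ s, 0 ≤ s → ∀ x, 0 < G.P s g x := fun s hs x =>
    lt_of_lt_of_le hc0 (G.P_ge g hb c0 hlow s hs x)
  have hpd : ∀ s, HasDerivAt p (4 / C * Real.exp (4 * s / C)) s := by
    intro s
    have h1 : HasDerivAt (fun s : ℝ => 4 * s / C) (4 / C) s := by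
      have := ((hasDerivAt_id s).const_mul (4:ℝ)).div_const C
      simpa using this
    have := (h1.exp).const_add 1
    simpa [hp, mul_comm] using this
  set A : ℝ → ℝ := fun s => m.E (fun x => (G.P s g x) ^ (p s)) with hA
  have hApos : ∀ s, 0 ≤ s → 0 < A s := fun s hs => s8_E_pos m _ (fun x => Real.rpow_pos_of_pos (hpos s hs x) _)
  let A' : ℝ → ℝ := fun s => (4 / C * Real.exp (4 * s / C)) * m.E (fun x => (G.P s g x) ^ (p s) * Real.log (G.P s g x)) +
    p s * m.E (fun x => (G.P s g x) ^ (p s - 1) * G.L (G.P s g) x)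
  have hAd : ∀ s, 0 ≤ s → HasDerivAt A (A' s) s := by
    intro s hs
    have h1 : ∀ x ∈ m.s, HasDerivAt (fun s => m.w x * (G.P s g x) ^ (p s))
        (m.w x * (G.L (G.P s g) x * p s * (G.P s g x) ^ (p s - 1) +
          (4 / C * Real.exp (4 * s / C)) * (G.P s g x) ^ (p s) * Real.log (G.P s g x))) s := by
      intro x _
      exact ((G.P_deriv g hb s x).rpow (hpd s) (hpos s hs x)).const_mul _
    have h2 := HasDerivAt.fun_sum h1
    have h3 : (fun s => ∑ x ∈ m.s, m.w x * (G.P s g x) ^ (p s)) = A := by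
      funext s; rfl
    rw [h3] at h2
    have h4 : A' s = ∑ i ∈ m.s, m.w i * (G.L (G.P s g) i * p s * G.P s g i ^ (p s - 1) +
          4 / C * Real.exp (4 * s / C) * G.P s g i ^ p s * Real.log (G.P s g i)) := by
      simp only [A', FM.E, Finset.mul_sum]
      rw [← Finset.sum_add_distrib]
      apply Finset.sum_congr rfl
      intro x _
      ring
    rw [h4]
    exact h2
  have hNd : ∀ s, 0 ≤ s → HasDerivAt (fun s => Real.log (A s) / p s)
      ((A' s / A s * p s - Real.log (A s) * (4 / C * Real.exp (4 * s / C))) / p s ^ 2) s := by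
    intro s hs
    exact ((hAd s hs).log (hApos s hs).ne').div (hpd s) (by linarith [hp1 s])
  have hneg : ∀ s, 0 ≤ s → (A' s / A s * p s - Real.log (A s) * (4 / C * Real.exp (4 * s / C))) / p s ^ 2 ≤ 0 := by
    intro s hs
    apply div_nonpos_of_nonpos_of_nonneg _ (sq_nonneg _)
    have hAs := hApos s hs
    have hps : 0 < p s := by linarith [hp1 s]
    set f : X → ℝ := fun x => (G.P s g x) ^ (p s / 2) with hf
    have hfpos : ∀ x, 0 < f x := fun x => Real.rpow_pos_of_pos (hpos s hs x) _
    have hfb : Bd f := by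
      obtain ⟨M, hM⟩ := G.P_bd g hb s
      refine ⟨M ^ (p s / 2), fun x => ?_⟩
      rw [abs_of_pos (hfpos x)]
      apply Real.rpow_le_rpow (hpos s hs x).le _ (by positivity)
      exact (le_abs_self _).trans (hM x)
    have hf2 : (fun x => f x ^ 2) = fun x => (G.P s g x) ^ (p s) := by
      funext x
      show ((G.P s g x) ^ (p s / 2)) ^ 2 = _
      rw [← Real.rpow_natCast, ← Real.rpow_mul (hpos s hs x).le]
      congr 1
      push_cast; ring
    have l1 := hlsi f hfpos hfb
    rw [hf2] at l1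
    have l2 := dir_rpow G m hrev (G.P s g) (hpos s hs) (p s) (hp1 s)
    have hEnt : m.Ent (fun x => (G.P s g x) ^ (p s)) =
        p s * m.E (fun x => (G.P s g x) ^ (p s) * Real.log (G.P s g x)) - A s * Real.log (A s) := by
      unfold FM.Ent
      congr 1
      unfold FM.E
      rw [Finset.mul_sum]
      apply Finset.sum_congr rfl
      intro x _
      show m.w x * ((G.P s g x) ^ (p s) * Real.log ((G.P s g x) ^ (p s))) =
        p s * (m.w x * ((G.P s g x) ^ (p s) * Real.log (G.P s g x)))
      rw [Real.log_rpow (hpos s hs x)]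
      ring
    rw [hEnt] at l1
    set e := Real.exp (4 * s / C) with he
    have hep : 0 < e := Real.exp_pos _
    have hpe : p s = 1 + e := rfl
    set B := m.E (fun x => (G.P s g x) ^ (p s) * Real.log (G.P s g x)) with hB
    set D := m.E (fun x => (G.P s g x) ^ (p s - 1) * G.L (G.P s g) x) with hD
    have hA's : A' s = (4 / C * e) * B + p s * D := rfl
    rw [hA's]
    -- multiply by A
    have l3 : 4 * (p s - 1) * Dir G m f ≤ - (p s ^ 2 * D) := by
      have := mul_le_mul_of_nonneg_left l2 (sq_nonneg (p s))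
      have e1 : p s ^ 2 * (4 * (p s - 1) / p s ^ 2 * Dir G m f) = 4 * (p s - 1) * Dir G m f := by
        field_simp
      have e2 : p s ^ 2 * (-D) = -(p s ^ 2 * D) := by ring
      rw [e1] at this
      rw [← e2]; exact this
    have l4 : (4 / C * e) * (p s * B - A s * Real.log (A s)) ≤ 4 * e * Dir G m f := by
      have := mul_le_mul_of_nonneg_left l1 (show 0 ≤ 4 / C * e by positivity)
      have e1 : 4 / C * e * (C * Dir G m f) = 4 * e * Dir G m f := by field_simp
      rw [e1] at this
      exact this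
    have l5 : 4 * (p s - 1) * Dir G m f = 4 * e * Dir G m f := by rw [hpe]; ring
    have l6 : A s * ((4 / C * e * B + p s * D) / A s * p s - Real.log (A s) * (4 / C * e)) ≤ 0 := by
      have e1 : A s * ((4 / C * e * B + p s * D) / A s * p s - Real.log (A s) * (4 / C * e)) =
        (4 / C * e) * (p s * B - A s * Real.log (A s)) + p s ^ 2 * D := by
        have := hAs.ne'
        field_simp
        ring
      rw [e1]
      linarith
    by_contra hcon
    push Not at hcon
    have := mul_pos hAs hcon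
    linarith
  have hanti : AntitoneOn (fun s => Real.log (A s) / p s) (Set.Ici 0) := by
    apply antitoneOn_of_deriv_nonpos (convex_Ici 0)
    · intro s hs
      exact (hNd s hs).continuousAt.continuousWithinAt
    · intro s hs
      rw [interior_Ici] at hs
      exact (hNd s (le_of_lt hs)).differentiableAt.differentiableWithinAt
    · intro s hs
      rw [interior_Ici] at hs
      rw [(hNd s (le_of_lt hs)).deriv]
      exact hneg s (le_of_lt hs)
  have h0 := hanti (Set.mem_Ici.mpr le_rfl) (Set.mem_Ici.mpr ht) ht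
  simp only at h0
  have hp0 : p 0 = 2 := by simp [hp]; norm_num
  have hA0 : A 0 = m.E (fun x => g x ^ 2) := by
    simp only [hA, hp0]
    congr 1
    funext x
    rw [G.P_zero]
    exact_mod_cast Real.rpow_natCast (g x) 2
  rw [hp0, hA0] at h0
  have hE0 : 0 < m.E (fun x => g x ^ 2) := s8_E_pos m _ (fun x => by
    have := lt_of_lt_of_le hc0 (hlow x); positivity)
  show A t ≤ (m.E (fun x => g x ^ 2)) ^ (p t / 2)
  have hpt : 0 < p t := by linarith [hp1 t]
  rw [Real.rpow_def_of_pos hE0]
  rw [← Real.exp_log (hApos t ht)]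
  apply Real.exp_le_exp.mpr
  rw [div_le_iff₀ hpt] at h0
  calc Real.log (A t) ≤ Real.log (m.E (fun x => g x ^ 2)) / 2 * p t := h0
    _ = _ := by ring

/-- pointwise consequence, nonnegative functions allowed -/
theorem hyper_point (hrev : Rev G m) (C : ℝ) (hC : 0 < C)
    (hlsi : ∀ f : X → ℝ, (∀ x, 0 < f x) → Bd f → m.Ent (fun x => f x ^ 2) ≤ C * Dir G m f)
    (g : X → ℝ) (hg0 : ∀ x, 0 ≤ g x) (hb : Bd g) (t : ℝ) (ht : 0 ≤ t) (x : X) (hx : x ∈ m.s) :
    G.P t g x ≤ (1 / m.w x) ^ (1 / (1 + Real.exp (4 * t / C))) * Real.sqrt (m.E (fun x => g x ^ 2)) := by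
  have hwx := m.hw x hx
  set p : ℝ := 1 + Real.exp (4 * t / C) with hp
  have hp1 : 1 < p := s8_p_pos C t
  have hpp : 0 < p := by linarith
  have key : ∀ δ : ℝ, 0 < δ → G.P t g x ≤ (1 / m.w x) ^ (1 / p) * Real.sqrt (m.E (fun x => (g x + δ) ^ 2)) := by
    intro δ hδ
    have hgb : Bd (fun x => g x + δ) := by
      obtain ⟨M, hM⟩ := hb
      refine ⟨M + δ, fun x => ?_⟩
      calc |g x + δ| ≤ |g x| + |δ| := abs_add_le _ _
        _ ≤ M + δ := by rw [abs_of_pos hδ]; linarith [hM x]
    have h1 := hyper G m hrev C hC hlsi (fun x => g x + δ) δ hδ (fun x => by linarith [hg0 x]) hgb t ht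
    have hcb : Bd (fun _ : X => δ) := ⟨|δ|, fun _ => le_rfl⟩
    have e1 : ∀ y, G.P t (fun x => g x + δ) y = G.P t g y + δ := by
      intro y
      rw [G.P_add g (fun _ => δ) hb hcb t y, G.P_const]
    have hPpos : ∀ y, 0 < G.P t g y + δ := fun y => by
      have := G.P_nonneg g hb hg0 t ht y
      linarith
    set Q := m.E (fun x => (g x + δ) ^ 2) with hQ
    have hQpos : 0 < Q := s8_E_pos m _ (fun x => by have := hg0 x; positivity)
    have h2 : m.w x * (G.P t g x + δ) ^ p ≤ Q ^ (p / 2) := by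
      refine le_trans ?_ h1
      unfold FM.E
      have h3 : ∀ y ∈ m.s, 0 ≤ m.w y * (G.P t (fun x => g x + δ) y) ^ (1 + Real.exp (4 * t / C)) := by
        intro y hy
        rw [e1]
        exact mul_nonneg (m.hw y hy).le (Real.rpow_nonneg (hPpos y).le _)
      have h4 := Finset.single_le_sum h3 hx
      rw [e1] at h4
      exact h4
    have h5 : (G.P t g x + δ) ^ p ≤ (1 / m.w x) * Q ^ (p / 2) := by
      rw [one_div, ← div_eq_inv_mul, le_div_iff₀ hwx, mul_comm]
      exact h2
    have h6 : G.P t g x + δ ≤ ((1 / m.w x) * Q ^ (p / 2)) ^ (1 / p) := by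
      have h7 := Real.rpow_le_rpow (Real.rpow_nonneg (hPpos x).le _) h5 (show 0 ≤ 1 / p by positivity)
      rwa [← Real.rpow_mul (hPpos x).le, mul_one_div_cancel hpp.ne', Real.rpow_one] at h7
    rw [Real.mul_rpow (by positivity) (by positivity), ← Real.rpow_mul hQpos.le] at h6
    have e2 : p / 2 * (1 / p) = 1 / 2 := by field_simp
    rw [e2, ← Real.sqrt_eq_rpow] at h6
    linarith
  -- let δ → 0
  have hcont : Filter.Tendsto (fun δ : ℝ => (1 / m.w x) ^ (1 / p) * Real.sqrt (m.E (fun x => (g x + δ) ^ 2)))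
      (nhdsWithin 0 (Set.Ioi 0)) (nhds ((1 / m.w x) ^ (1 / p) * Real.sqrt (m.E (fun x => (g x + 0) ^ 2)))) := by
    apply Filter.Tendsto.mono_left _ nhdsWithin_le_nhds
    apply Continuous.tendsto (f := fun δ : ℝ => (1 / m.w x) ^ (1 / p) * Real.sqrt (m.E (fun x => (g x + δ) ^ 2)))
    unfold FM.E
    fun_prop
  simp only [add_zero] at hcont
  refine ge_of_tendsto hcont ?_
  filter_upwards [self_mem_nhdsWithin] with δ hδ
  exact key δ hδ

end FA
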