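import Pool.Agent.Helper870.FADefs
import Pool.Agent.Helper870.FAG1
import Pool.Agent.Helper870.FAS1
import Pool.Agent.Helper870.FAS2
import Pool.Agent.Helper870.FAS3
import Pool.Agent.Helper870.FAS4
import Pool.Agent.Helper870.FAS5
import Pool.Agent.Helper870.FAS6
import Pool.Agent.Helper870.FAS8
import Pool.Agent.Helper870.FAD2
import Pool.Agent.Helper870.FAR1
import Pool.Agent.Helper870.FAG6
import Pool.Agent.Helper870.FAD3
import Pool.Agent.Helper870.FAS10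
import Pool.Agent.Helper870.FAD4
import Pool.Agent.Helper870.FALB
import Pool.Agent.Helper870.FAD5
import Pool.Agent.Helper870.FACQ1
import Pool.Agent.Helper870.FACQ2

set_option autoImplicit false
set_option linter.unusedSectionVars false

open Finset

noncomputable section

-- USES: G1 S1 S2 S3 S4 S5 S6 S8 D2 R1 G6 D3 S10 D4 LB D5 CQ1 CQ2
namespace FA
variable {q : ℝ}

section aux
variable {X : Type} (m : FM X)

theorem cp_mono (F H : X → ℝ) (h : ∀ x ∈ m.s, F x ≤ H x) : m.E F ≤ m.E H := by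
  unfold FM.E
  exact Finset.sum_le_sum fun x hx => mul_le_mul_of_nonneg_left (h x hx) (m.hw x hx).le

theorem cp_const (c : ℝ) : m.E (fun _ => c) = c := by
  unfold FM.E
  rw [← Finset.sum_mul, m.hone, one_mul]

theorem cp_abs (F : X → ℝ) (h : ∀ x, |F x| ≤ 1) : |m.E F| ≤ 1 := by
  rw [abs_le]
  constructor
  · have := cp_mono m (fun _ => -1) F (fun x _ => (abs_le.1 (h x)).1)
    rwa [cp_const] at this
  · have := cp_mono m F (fun _ => 1) (fun x _ => (abs_le.1 (h x)).2)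
    rwa [cp_const] at this

theorem cp_sq (F : X → ℝ) (c : ℝ) :
    m.E (fun x => (F x - c) ^ 2) = m.E (fun x => F x ^ 2) - 2 * c * m.E F + c ^ 2 := by
  unfold FM.E
  have h1 : ∀ x, m.w x * (F x - c) ^ 2 =
      m.w x * F x ^ 2 - 2 * c * (m.w x * F x) + c ^ 2 * m.w x := by
    intro x; ring
  simp_rw [h1]
  rw [Finset.sum_add_distrib, Finset.sum_sub_distrib, ← Finset.mul_sum, ← Finset.mul_sum,
    m.hone, mul_one]

theorem cp_center (F : X → ℝ) : m.E (fun x => (F x - m.E F) ^ 2) = m.Var F := by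
  rw [cp_sq]
  unfold FM.Var
  ring

theorem cp_var_le (F : X → ℝ) (h : ∀ x, |F x| ≤ 1) : m.Var F ≤ 1 := by
  unfold FM.Var
  have h1 := cp_mono m (fun x => F x ^ 2) (fun _ => 1) (fun x _ => by
    have := h x
    rw [← sq_abs]
    have h2 := abs_nonneg (F x)
    nlinarith)
  rw [cp_const] at h1
  have h2 := sq_nonneg (m.E F)
  linarith

theorem cp_add (F H : X → ℝ) : m.E (fun x => F x + H x) = m.E F + m.E H := by
  unfold FM.E
  rw [← Finset.sum_add_distrib]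
  apply Finset.sum_congr rfl
  intro x _
  ring

theorem cp_sub (F H : X → ℝ) : m.E (fun x => F x - H x) = m.E F - m.E H := by
  unfold FM.E
  rw [← Finset.sum_sub_distrib]
  apply Finset.sum_congr rfl
  intro x _
  ring

theorem cp_sum {ι : Type} (I : Finset ι) (F : ι → X → ℝ) :
    m.E (fun x => ∑ i ∈ I, F i x) = ∑ i ∈ I, m.E (F i) := by
  unfold FM.E
  rw [Finset.sum_comm]
  apply Finset.sum_congr rfl
  intro x _
  rw [Finset.mul_sum]

end aux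

theorem cp_wt (h0 : 0 < q) (h1 : q < 1) (A S : Finset ℤ) :
    (min q (1 - q)) ^ A.card ≤ wt q A S := by
  have hm : 0 < min q (1 - q) := lt_min h0 (by linarith)
  have hc : (A ∩ S).card + (A \ S).card = A.card := by
    rw [add_comm]
    exact Finset.card_sdiff_add_card_inter A S
  rw [← hc, pow_add]
  unfold wt
  apply mul_le_mul
  · exact pow_le_pow_left₀ hm.le (min_le_left _ _) _
  · exact pow_le_pow_left₀ hm.le (min_le_right _ _) _
  · positivity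
  · positivity

theorem cp_card (o : ℤ) (ℓ n : ℕ) : (Bx o ℓ n).card = n * ℓ := by
  unfold Bx
  rw [Int.card_Icc]
  have h : (o + (n:ℤ) * (ℓ:ℤ) - 1 + 1 - o) = ((n * ℓ : ℕ) : ℤ) := by push_cast; ring
  rw [h, Int.toNat_natCast]

theorem cp_cardB (o : ℤ) (ℓ i : ℕ) : (Bk o ℓ i).card = ℓ := by
  unfold Bk
  rw [Int.card_Icc]
  have h : (o + (i:ℤ) * (ℓ:ℤ) + ℓ - 1 + 1 - (o + (i:ℤ) * (ℓ:ℤ))) = ((ℓ : ℕ) : ℤ) := by ring
  rw [h, Int.toNat_natCast]

theorem cp_emp (A B : Finset ℤ) (hB : B ⊆ A) :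
    EA q A (fun S => if S ∩ B = ∅ then (1:ℝ) else 0) = (1 - q) ^ B.card := by
  rw [EA_eq_av]
  have h1 : A = (A \ B) ∪ B := (Finset.sdiff_union_of_subset hB).symm
  rw [h1, ← av_av q (Finset.sdiff_disjoint) (fun S => if S ∩ B = ∅ then (1:ℝ) else 0) ∅]
  have h2 : (fun S => av q B (fun S => if S ∩ B = ∅ then (1:ℝ) else 0) S) =
      fun _ => (1 - q) ^ B.card := by
    funext S
    unfold av
    have h3 : ∀ U ∈ B.powerset, wt q B U * (if ((S \ B) ∪ U) ∩ B = ∅ then (1:ℝ) else 0) =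
        if U = ∅ then (1 - q) ^ B.card else 0 := by
      intro U hU
      have hUB := Finset.mem_powerset.1 hU
      have h4 : ((S \ B) ∪ U) ∩ B = U := by
        ext x
        simp only [Finset.mem_inter, Finset.mem_union, Finset.mem_sdiff]
        constructor
        · rintro ⟨h | h, h'⟩
          · exact absurd h' h.2
          · exact h
        · intro h
          exact ⟨Or.inr h, hUB h⟩
      rw [h4]
      by_cases hU0 : U = ∅
      · subst hU0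
        simp [wt]
      · rw [if_neg hU0, if_neg hU0, mul_zero]
    rw [Finset.sum_congr rfl h3, Finset.sum_ite_eq']
    rw [if_pos (Finset.empty_mem_powerset B)]
  show av q (A \ B) (fun S => av q B (fun S => if S ∩ B = ∅ then (1:ℝ) else 0) S) ∅ = _
  rw [h2, av_const]

open Classical in
theorem cp_good (h0 : 0 < q) (h1 : q < 1) (o : ℤ) (ℓ n : ℕ) (hq : (n:ℝ) * (1 - q) ^ ℓ ≤ 1 / 2) :
    1 / 2 ≤ (pfm q h0 h1 (Bx o ℓ n)).E (fun S => if Good o ℓ n S then (1:ℝ) else 0) := by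
  have h2 := cp_mono (pfm q h0 h1 (Bx o ℓ n))
    (fun S => 1 - ∑ i ∈ Finset.range n, if S ∩ Bk o ℓ i = ∅ then (1:ℝ) else 0)
    (fun S => if Good o ℓ n S then (1:ℝ) else 0) (by
      intro S _
      have hnn : ∀ i ∈ Finset.range n, (0:ℝ) ≤ if S ∩ Bk o ℓ i = ∅ then (1:ℝ) else 0 := by
        intro i _
        split_ifs <;> norm_num
      show 1 - ∑ i ∈ Finset.range n, (if S ∩ Bk o ℓ i = ∅ then (1:ℝ) else 0) ≤
        if Good o ℓ n S then (1:ℝ) else 0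
      by_cases hg : Good o ℓ n S
      · rw [if_pos hg]
        have := Finset.sum_nonneg hnn
        linarith
      · rw [if_neg hg]
        unfold Good at hg
        push Not at hg
        obtain ⟨i, hi, hi2⟩ := hg
        have h3 := Finset.single_le_sum hnn (Finset.mem_range.2 hi)
        have h4 : S ∩ Bk o ℓ i = ∅ := by
          first
            | exact hi2
            | exact Finset.not_nonempty_iff_eq_empty.1 hi2
        simp only [h4, if_true] at h3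
        linarith)
  refine le_trans ?_ h2
  rw [cp_sub, cp_const, cp_sum]
  have h3 : ∀ i ∈ Finset.range n, (pfm q h0 h1 (Bx o ℓ n)).E
      (fun S => if S ∩ Bk o ℓ i = ∅ then (1:ℝ) else 0) = (1 - q) ^ ℓ := by
    intro i hi
    rw [pfm_E]
    have h4 := cp_emp (q := q) (Bx o ℓ n) (Bk o ℓ i) (bk_sub o ℓ n i (Finset.mem_range.1 hi))
    rw [cp_cardB] at h4
    rw [← h4]
  rw [Finset.sum_congr rfl h3, Finset.sum_const, Finset.card_range, nsmul_eq_mul]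
  linarith

theorem cp_isGood (o : ℤ) (ℓ n : ℕ) (hl : 16 ≤ ℓ) (S : Finset ℤ)
    (hz : ∀ z ∈ Bx o ℓ n, ∃ x ∈ S, 8 * |z - x| ≤ ℓ) : Good o ℓ n S := by
  intro i hi
  have hzB : o + (i:ℤ) * (ℓ:ℤ) + (ℓ:ℤ) / 2 ∈ Bk o ℓ i := by
    unfold Bk
    rw [Finset.mem_Icc]
    omega
  obtain ⟨x, hx, hx2⟩ := hz _ (bk_sub o ℓ n i hi hzB)
  refine ⟨x, Finset.mem_inter.2 ⟨hx, ?_⟩⟩
  unfold Bk
  rw [Finset.mem_Icc]
  have h3 := abs_le.1 (show |o + (i:ℤ) * (ℓ:ℤ) + (ℓ:ℤ) / 2 - x| ≤ (ℓ:ℤ) / 8 by omega)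
  omega

/-- comparison of the two conditioned measures -/
theorem cp_comp (h0 : 0 < q) (h1 : q < 1) (o : ℤ) (ℓ n : ℕ) (hl : 1 ≤ ℓ) (hn : 1 ≤ n)
    (hne : (Bx o ℓ n).Nonempty)
    (hq : (n:ℝ) * (1 - q) ^ ℓ ≤ 1 / 2) (f : Finset ℤ → ℝ) (hf : ∀ x, 0 ≤ f x) :
    ((pfm q h0 h1 (Bx o ℓ n)).cond (Good o ℓ n) (good_ex h0 h1 o ℓ n hl)).E f ≤
      2 * (nfm q h0 h1 (Bx o ℓ n) hne).E f := by
  classical
  unfold nfm
  rw [FM.cond_E, FM.cond_E]
  have hg := cp_good h0 h1 o ℓ n hq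
  set N1 := (pfm q h0 h1 (Bx o ℓ n)).E (fun x => if Good o ℓ n x then f x else 0) with hN1
  set D1 := (pfm q h0 h1 (Bx o ℓ n)).E (fun x => if Good o ℓ n x then (1:ℝ) else 0) with hD1
  have e1 : (pfm q h0 h1 (Bx o ℓ n)).E (fun x => if x.Nonempty then f x else 0) =
    (pfm q h0 h1 (Bx o ℓ n)).E (fun x => if Good o ℓ n x then f x else 0) +
    (pfm q h0 h1 (Bx o ℓ n)).E
      (fun x => (if x.Nonempty then f x else 0) - (if Good o ℓ n x then f x else 0)) := by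
    rw [← cp_add]
    congr 1
    funext x
    ring
  have h2 : N1 ≤ (pfm q h0 h1 (Bx o ℓ n)).E (fun x => if x.Nonempty then f x else 0) := by
    apply cp_mono
    intro x _
    by_cases hx : Good o ℓ n x
    · have hxn : x.Nonempty := by
        obtain ⟨y, hy⟩ := hx 0 (by omega)
        exact ⟨y, (Finset.mem_inter.1 hy).1⟩
      rw [if_pos hx, if_pos hxn]
    · rw [if_neg hx]
      split_ifs
      · exact hf x
      · exact le_refl _
  have h3 : (pfm q h0 h1 (Bx o ℓ n)).E (fun x => if x.Nonempty then (1:ℝ) else 0) ≤ 1 := by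
    have := cp_mono (pfm q h0 h1 (Bx o ℓ n)) (fun x => if x.Nonempty then (1:ℝ) else 0)
      (fun _ => 1) (fun x _ => by
        show (if x.Nonempty then (1:ℝ) else 0) ≤ 1
        split_ifs <;> norm_num)
    rwa [cp_const] at this
  have h4 : D1 ≤ (pfm q h0 h1 (Bx o ℓ n)).E (fun x => if x.Nonempty then (1:ℝ) else 0) := by
    apply cp_mono
    intro x _
    by_cases hx : Good o ℓ n x
    · have hxn : x.Nonempty := by
        obtain ⟨y, hy⟩ := hx 0 (by omega)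
        exact ⟨y, (Finset.mem_inter.1 hy).1⟩
      rw [if_pos hx, if_pos hxn]
    · rw [if_neg hx]
      split_ifs <;> norm_num
  have h5 : 0 ≤ N1 := by
    have := cp_mono (pfm q h0 h1 (Bx o ℓ n)) (fun _ => 0)
      (fun x => if Good o ℓ n x then f x else 0) (fun x _ => by
        show 0 ≤ (if Good o ℓ n x then f x else 0)
        split_ifs
        · exact hf x
        · exact le_refl _)
    rwa [cp_const] at this
  set N2 := (pfm q h0 h1 (Bx o ℓ n)).E (fun x => if x.Nonempty then f x else 0) with hN2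
  set D2 := (pfm q h0 h1 (Bx o ℓ n)).E (fun x => if x.Nonempty then (1:ℝ) else 0) with hD2
  have hD1pos : 0 < D1 := by linarith
  have hD2pos : 0 < D2 := by linarith
  have hN2 : 0 ≤ N2 := h5.trans h2
  have h6 : N1 / D1 ≤ 2 * N2 := by
    rw [div_le_iff₀ hD1pos]
    nlinarith
  have h7 : N2 ≤ N2 / D2 := by
    rw [le_div_iff₀ hD2pos]
    nlinarith
  have h8 : N1 / D1 ≤ 2 * (N2 / D2) := by linarith
  convert h8

theorem cp_w (h0 : 0 < q) (h1 : q < 1) (o : ℤ) (ℓ n : ℕ) (hl : 1 ≤ ℓ) (S : Finset ℤ)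
    (hS : S ⊆ Bx o ℓ n) (hg : Good o ℓ n S) :
    S ∈ ((pfm q h0 h1 (Bx o ℓ n)).cond (Good o ℓ n) (good_ex h0 h1 o ℓ n hl)).s ∧
    1 / ((pfm q h0 h1 (Bx o ℓ n)).cond (Good o ℓ n) (good_ex h0 h1 o ℓ n hl)).w S ≤
      Real.exp ((n * ℓ : ℕ) * Real.log (1 / min q (1 - q))) := by
  classical
  have hmem : S ∈ (pfm q h0 h1 (Bx o ℓ n)).s.filter (Good o ℓ n) :=
    Finset.mem_filter.2 ⟨Finset.mem_powerset.2 hS, hg⟩
  have hmem' : S ∈ ((pfm q h0 h1 (Bx o ℓ n)).cond (Good o ℓ n) (good_ex h0 h1 o ℓ n hl)).s := by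
    unfold FM.cond
    exact Finset.mem_filter.2 ⟨Finset.mem_powerset.2 hS, hg⟩
  refine ⟨hmem', ?_⟩
  have hm : 0 < min q (1 - q) := lt_min h0 (by linarith)
  have hwt := cp_wt h0 h1 (Bx o ℓ n) S
  rw [cp_card] at hwt
  have hw : (min q (1 - q)) ^ (n * ℓ) ≤
      ((pfm q h0 h1 (Bx o ℓ n)).cond (Good o ℓ n) (good_ex h0 h1 o ℓ n hl)).w S := by
    refine hwt.trans ?_
    show wt q (Bx o ℓ n) S ≤ wt q (Bx o ℓ n) S / ∑ y ∈ _, (pfm q h0 h1 (Bx o ℓ n)).w y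
    have hwp := wt_pos h0 h1 (Bx o ℓ n) S
    have hle : ∑ y ∈ (pfm q h0 h1 (Bx o ℓ n)).s.filter (Good o ℓ n),
        (pfm q h0 h1 (Bx o ℓ n)).w y ≤ 1 := by
      rw [← (pfm q h0 h1 (Bx o ℓ n)).hone]
      exact Finset.sum_le_sum_of_subset_of_nonneg (Finset.filter_subset _ _)
        (fun y hy _ => ((pfm q h0 h1 (Bx o ℓ n)).hw y hy).le)
    have hpos : 0 < ∑ y ∈ (pfm q h0 h1 (Bx o ℓ n)).s.filter (Good o ℓ n),
        (pfm q h0 h1 (Bx o ℓ n)).w y :=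
      Finset.sum_pos (fun y hy => (pfm q h0 h1 (Bx o ℓ n)).hw y (Finset.mem_filter.1 hy).1)
        ⟨S, hmem⟩
    have hgoal : wt q (Bx o ℓ n) S ≤ wt q (Bx o ℓ n) S /
        ∑ y ∈ (pfm q h0 h1 (Bx o ℓ n)).s.filter (Good o ℓ n),
        (pfm q h0 h1 (Bx o ℓ n)).w y := by
      rw [le_div_iff₀ hpos]
      nlinarith
    convert hgoal using 2
  have e1 : Real.exp ((n * ℓ : ℕ) * Real.log (1 / min q (1 - q))) =
      1 / (min q (1 - q)) ^ (n * ℓ) := by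
    rw [Real.exp_nat_mul, Real.exp_log (by positivity), one_div, one_div, inv_pow]
  rw [e1]
  exact one_div_le_one_div_of_le (by positivity) hw

theorem cp_core (h0 : 0 < q) (h1 : q < 1) (s : Sys) (θ c C : ℝ) (hθ : 0 < θ) (hc : 0 < c)
    (hC : 1 ≤ C) (N0 : ℤ) (hp : PersS s q h0 h1 θ c C N0) (Cg : ℝ) (hCg : 0 < Cg)
    (hgap : ∀ (a b : ℤ) (hab : a ≤ b)
    (k : ℤ → Finset ℤ → Bool), Adm a b k → ∀ F : Finset ℤ → ℝ,
      (nfm q h0 h1 (Icc a b) (Finset.nonempty_Icc.2 hab)).Var F ≤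
        Cg * Dir (kG q h0.le h1.le (Icc a b) k)
          (nfm q h0 h1 (Icc a b) (Finset.nonempty_Icc.2 hab)) F)
    (K : ℝ) (hK : 0 < K)
    (hlsi : ∀ (o : ℤ) (ℓ n : ℕ) (hl : 1 ≤ ℓ)
    (k : ℤ → Finset ℤ → Bool), Adm o (o + n * ℓ - 1) k → ∀ f : Finset ℤ → ℝ, (∀ S, 0 < f S) →
      ((pfm q h0 h1 (Bx o ℓ n)).cond (Good o ℓ n) (good_ex h0 h1 o ℓ n hl)).Ent (fun S => f S ^ 2) ≤
        K * ℓ * Dir ((kG q h0.le h1.le (Bx o ℓ n) k).refl (Good o ℓ n))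
          ((pfm q h0 h1 (Bx o ℓ n)).cond (Good o ℓ n) (good_ex h0 h1 o ℓ n hl)) f)
    (d n : ℕ) (hd : 0 < d) (hnd : n = 32 * d)
    (hdL : 128 * Real.log (1 / min q (1 - q)) * Cg ≤ 2 * d / K)
    (ℓ : ℕ) (hl : 16 ≤ ℓ) (hN : N0 ≤ n * ℓ - 1) (hq : (n:ℝ) * (1 - q) ^ ℓ ≤ 1 / 2)
    (o : ℤ) (S : Finset ℤ) (hS : S ⊆ Bx o ℓ n)
    (hz : ∀ z ∈ Bx o ℓ n, ∃ x ∈ S, 8 * |z - x| ≤ ℓ)
    (F : Finset ℤ → ℝ) (hF : ∀ T, |F T| ≤ 1) :
    |(kG q h0.le h1.le (Bx o ℓ n) (s.k o (o + n * ℓ - 1))).P (d * ℓ) F S -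
          EN q (Bx o ℓ n) F| ≤ Real.sqrt 2 * Real.exp (-(d * ℓ / (4 * Cg))) +
      2 * 2 * (d * ℓ / 2) *
        (n * (2 * C * (2 * C ^ 2) * Real.exp (3 * θ) * Real.exp (-(θ * ℓ / 8)))) := by
  have hn1 : 1 ≤ n := by omega
  have hl1 : 1 ≤ ℓ := by omega
  have hnl : (16:ℤ) ≤ (n:ℤ) * ℓ := by
    have h2 : 1 * 16 ≤ n * ℓ := Nat.mul_le_mul hn1 hl
    have h3 : (16:ℕ) ≤ n * ℓ := by omega
    exact_mod_cast h3
  have hab : o ≤ o + n * ℓ - 1 := by linarith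
  have hne : (Bx o ℓ n).Nonempty := Finset.nonempty_Icc.2 hab
  have hadm : Adm o (o + n * ℓ - 1) (s.k o (o + n * ℓ - 1)) := s.adm _ _ (by linarith)
  set G := kG q h0.le h1.le (Bx o ℓ n) (s.k o (o + n * ℓ - 1)) with hG
  set m' := nfm q h0 h1 (Bx o ℓ n) hne with hm'
  set m'' := (pfm q h0 h1 (Bx o ℓ n)).cond (Good o ℓ n) (good_ex h0 h1 o ℓ n hl1) with hm''
  set Q := G.refl (Good o ℓ n) with hQ
  have hFb : Bd F := ⟨1, hF⟩
  have hmE : m'.E F = EN q (Bx o ℓ n) F := nfm_E h0 h1 (Bx o ℓ n) hne F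
  rw [← hmE]
  have hm1 : |m'.E F| ≤ 1 := cp_abs m' F hF
  have hdR : (0:ℝ) < d := by exact_mod_cast hd
  have hlR : (0:ℝ) < ℓ := by
    have : 0 < ℓ := by omega
    exact_mod_cast this
  have hT : (0:ℝ) ≤ d * ℓ / 2 := by positivity
  have hrevG : Rev G m' := adm_rev h0 h1 o (o + n * ℓ - 1) hab _ hadm
  have hPF : ∀ x, |G.P (d * ℓ / 2) F x| ≤ 1 := fun x => G.P_bound F 1 hF _ hT x
  have hPFb : Bd (G.P (d * ℓ / 2) F) := ⟨1, hPF⟩
  set H : Finset ℤ → ℝ := fun x => G.P (d * ℓ / 2) F x - m'.E F with hH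
  have hH2 : ∀ x, |H x| ≤ 2 := by
    intro x
    refine (abs_sub _ _).trans ?_
    linarith [hPF x]
  have hHb : Bd H := ⟨2, hH2⟩
  -- step A
  have hA : G.P (d * ℓ) F S - m'.E F = G.P (d * ℓ / 2) H S := by
    have e1 : G.P (d * ℓ / 2) H S = G.P (d * ℓ / 2) (G.P (d * ℓ / 2) F) S +
        G.P (d * ℓ / 2) (fun _ => - m'.E F) S := by
      rw [← G.P_add _ _ hPFb ⟨1, fun x => by rw [abs_neg]; exact hm1⟩]
      rfl
    rw [e1, G.P_const, ← G.P_semigroup F hFb]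
    rw [show (d * ℓ / 2 + d * ℓ / 2 : ℝ) = d * ℓ by ring]
    ring
  rw [hA]
  -- step B
  have hB : |G.P (d * ℓ / 2) H S - Q.P (d * ℓ / 2) H S| ≤ 2 * 2 * (d * ℓ / 2) *
        (n * (2 * C * (2 * C ^ 2) * Real.exp (3 * θ) * Real.exp (-(θ * ℓ / 8)))) := by
    apply MG.duhamel2 G Q (Vex G (Good o ℓ n)) (Vex_bd G _) (Vex_nonneg G _)
      (fun H M hM x => Vex_diff G _ H M hM x) H 2 hH2 _ _ hT S
    intro t ht _
    exact exit_bound h0 h1 s θ c C hθ hc hC N0 hp o ℓ n hn1 hl hN S hS hz t ht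
  -- step C
  have hgood : Good o ℓ n S := cp_isGood o ℓ n hl S hz
  obtain ⟨hSm, hSw⟩ := cp_w h0 h1 o ℓ n hl1 S hS hgood
  have habs : |Q.P (d * ℓ / 2) H S| ≤ Q.P (d * ℓ / 2) (fun x => |H x|) S := by
    have hab' : Bd (fun x => |H x|) := ⟨2, fun x => by rw [abs_abs]; exact hH2 x⟩
    have hab2 : Bd (fun x => -1 * |H x|) := ⟨2, fun x => by
      show |(-1) * (|H x|)| ≤ 2
      rw [neg_one_mul, abs_neg, abs_abs]; exact hH2 x⟩
    rw [abs_le]
    constructor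
    · have h2 := Q.P_mono (fun x => -1 * |H x|) H hab2 hHb (fun x => by
        rw [neg_one_mul]; exact neg_abs_le _) _ hT S
      rw [Q.P_smul _ _ hab'] at h2
      linarith
    · exact Q.P_mono H (fun x => |H x|) hHb hab' (fun x => le_abs_self _) _ hT S
  have hrevQ : Rev Q m'' := by
    apply rev_refl
    exact rev_kG h0 h1 (Bx o ℓ n) _ (fun x hx S => hadm.self x hx S)
  have hyp := hyper_point Q m'' hrevQ (K * ℓ) (by positivity)
    (fun f hf _ => hlsi o ℓ n hl1 _ hadm f hf) (fun x => |H x|) (fun x => abs_nonneg _)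
    ⟨2, fun x => by rw [abs_abs]; exact hH2 x⟩ (d * ℓ / 2) hT S hSm
  have e2 : (4 * (d * ℓ / 2) / (K * ℓ) : ℝ) = 2 * d / K := by
    field_simp
    ring
  rw [e2] at hyp
  simp only [sq_abs] at hyp
  set p := 1 + Real.exp (2 * d / K) with hpdef
  set L1 := Real.log (1 / min q (1 - q)) with hL1
  have hp0 : 0 < p := by positivity
  have hpL : 128 * L1 * Cg ≤ p := by
    have := Real.add_one_le_exp (2 * (d:ℝ) / K)
    linarith
  have hwpos : 0 < m''.w S := m''.hw S hSm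
  have hfac : (1 / m''.w S) ^ (1 / p) ≤ Real.exp (d * ℓ / (4 * Cg)) := by
    have h2 : (1 / m''.w S) ^ (1 / p) ≤ (Real.exp ((n * ℓ : ℕ) * L1)) ^ (1 / p) :=
      Real.rpow_le_rpow (by positivity) hSw (by positivity)
    refine h2.trans ?_
    rw [← Real.exp_mul]
    apply Real.exp_le_exp.2
    rw [hnd]
    push_cast
    rw [mul_one_div, div_le_div_iff₀ hp0 (by positivity)]
    have h3 : (0:ℝ) ≤ d * ℓ := by positivity
    nlinarith
  -- step E
  have hVar : m'.E (fun x => H x ^ 2) ≤ Real.exp (-(d * ℓ / Cg)) := by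
    have e3 : m'.E (G.P (d * ℓ / 2) F) = m'.E F := E_P G m' hrevG F hFb _
    have e4 : m'.E (fun x => H x ^ 2) = m'.Var (G.P (d * ℓ / 2) F) := by
      rw [← cp_center, e3]
    rw [e4]
    have h2 := l2_decay G m' hrevG Cg hCg
      (fun F _ => hgap o (o + n * ℓ - 1) hab _ hadm F) F hFb (d * ℓ / 2) hT
    rw [show (2 * (d * ℓ / 2) / Cg : ℝ) = d * ℓ / Cg by ring] at h2
    refine h2.trans ?_
    have h3 := cp_var_le m' F hF
    have h4 := Real.exp_pos (-(d * ℓ / Cg))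
    nlinarith
  have hcmp := cp_comp h0 h1 o ℓ n hl1 hn1 hne hq (fun x => H x ^ 2) (fun x => sq_nonneg _)
  have hsq : Real.sqrt (m''.E (fun x => H x ^ 2)) ≤
      Real.sqrt 2 * Real.exp (-(d * ℓ / (2 * Cg))) := by
    have h2 : m''.E (fun x => H x ^ 2) ≤ 2 * (Real.exp (-(d * ℓ / (2 * Cg)))) ^ 2 := by
      have e5 : (Real.exp (-(d * ℓ / (2 * Cg)))) ^ 2 = Real.exp (-(d * ℓ / Cg)) := by
        rw [← Real.exp_nat_mul]
        congr 1
        push_cast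
        field_simp
      rw [e5]
      refine hcmp.trans ?_
      linarith
    refine (Real.sqrt_le_sqrt h2).trans ?_
    rw [Real.sqrt_mul (by norm_num), Real.sqrt_sq (Real.exp_pos _).le]
  have hfin : |Q.P (d * ℓ / 2) H S| ≤ Real.sqrt 2 * Real.exp (-(d * ℓ / (4 * Cg))) := by
    refine habs.trans (hyp.trans ?_)
    calc (1 / m''.w S) ^ (1 / p) * Real.sqrt (m''.E (fun x => H x ^ 2)) ≤
          Real.exp (d * ℓ / (4 * Cg)) * (Real.sqrt 2 * Real.exp (-(d * ℓ / (2 * Cg)))) :=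
          mul_le_mul hfac hsq (Real.sqrt_nonneg _) (Real.exp_pos _).le
      _ = Real.sqrt 2 * (Real.exp (d * ℓ / (4 * Cg)) * Real.exp (-(d * ℓ / (2 * Cg)))) := by ring
      _ = Real.sqrt 2 * Real.exp (-(d * ℓ / (4 * Cg))) := by
          rw [← Real.exp_add]
          congr 2
          field_simp
          ring
  have htri : |G.P (d * ℓ / 2) H S| ≤ |Q.P (d * ℓ / 2) H S| +
      |G.P (d * ℓ / 2) H S - Q.P (d * ℓ / 2) H S| := by
    have := abs_add_le (Q.P (d * ℓ / 2) H S) (G.P (d * ℓ / 2) H S - Q.P (d * ℓ / 2) H S)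
    rwa [add_sub_cancel] at this
  linarith

/-- exponential convergence at time `d ℓ` on an interval of `32 d` blocks of length `ℓ`, from every
configuration without long healthy gaps -/
theorem conv_pt (h0 : 0 < q) (h1 : q < 1) (s : Sys) (θ c C : ℝ) (hθ : 0 < θ) (hc : 0 < c) (hC : 1 ≤ C)
    (N0 : ℤ) (hp : PersS s q h0 h1 θ c C N0) :
    ∃ (d : ℕ) (c' C' : ℝ) (ℓ0 : ℕ), 0 < d ∧ 0 < c' ∧ 0 < C' ∧ ∀ ℓ : ℕ, ℓ0 ≤ ℓ → ∀ o : ℤ,
      ∀ S, S ⊆ Bx o ℓ (32 * d) → (∀ z ∈ Bx o ℓ (32 * d), ∃ x ∈ S, 8 * |z - x| ≤ ℓ) →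
      ∀ F : Finset ℤ → ℝ, (∀ T, |F T| ≤ 1) →
        |(kG q h0.le h1.le (Bx o ℓ (32 * d)) (s.k o (o + (32 * d : ℕ) * ℓ - 1))).P (d * ℓ) F S -
          EN q (Bx o ℓ (32 * d)) F| ≤ C' * Real.exp (-(c' * ℓ)) := by
  obtain ⟨Cg, hCg, hgap⟩ := adm_gap h0 h1
  obtain ⟨K, hK, hlsi⟩ := q_lsi h0 h1
  obtain ⟨d0, hd0⟩ := exists_nat_ge (64 * Real.log (1 / min q (1 - q)) * Cg * K)
  set d := d0 + 1 with hd
  have hdpos : 0 < d := by omega
  have hdR : (0:ℝ) < d := by exact_mod_cast hdpos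
  have hdL : 128 * Real.log (1 / min q (1 - q)) * Cg ≤ 2 * d / K := by
    rw [le_div_iff₀ hK]
    have : (d:ℝ) = d0 + 1 := by rw [hd]; push_cast; ring
    rw [this]
    linarith
  obtain ⟨ℓ1, hℓ1⟩ := exists_pow_lt_of_lt_one (show (0:ℝ) < 1 / (2 * ((32 * d : ℕ) : ℝ)) by
    positivity) (show (1 - q) < 1 by linarith)
  set A := 2 * 2 * ((d:ℝ) / 2) * (((32 * d : ℕ) : ℝ) * (2 * C * (2 * C ^ 2) * Real.exp (3 * θ))) *
    (16 / θ) with hA
  have hApos : 0 < A := by positivity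
  refine ⟨d, min (d / (4 * Cg)) (θ / 16), Real.sqrt 2 + A, max (max 16 (N0.toNat + 1)) ℓ1,
    hdpos, lt_min (by positivity) (by positivity), by positivity, ?_⟩
  intro ℓ hℓ o S hS hz F hF
  have hl16 : 16 ≤ ℓ := le_trans (le_trans (le_max_left _ _) (le_max_left _ _)) hℓ
  have hlN : N0.toNat + 1 ≤ ℓ := le_trans (le_trans (le_max_right _ _) (le_max_left _ _)) hℓ
  have hl1 : ℓ1 ≤ ℓ := le_trans (le_max_right _ _) hℓ
  have hN : N0 ≤ ((32 * d : ℕ) : ℤ) * ℓ - 1 := by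
    have h2 : 1 * ℓ ≤ (32 * d) * ℓ := Nat.mul_le_mul_right _ (by omega)
    have h3 : (ℓ : ℤ) ≤ ((32 * d : ℕ) : ℤ) * ℓ := by
      have : ℓ ≤ (32 * d) * ℓ := by omega
      exact_mod_cast this
    have h4 : N0 ≤ (N0.toNat : ℤ) := Int.self_le_toNat N0
    have h5 : ((N0.toNat : ℕ) : ℤ) + 1 ≤ (ℓ : ℤ) := by exact_mod_cast hlN
    linarith
  have hq : ((32 * d : ℕ) : ℝ) * (1 - q) ^ ℓ ≤ 1 / 2 := by
    have h2 : (1 - q) ^ ℓ ≤ (1 - q) ^ ℓ1 :=
      pow_le_pow_of_le_one (by linarith) (by linarith) hl1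
    have h3 : (1 - q) ^ ℓ ≤ 1 / (2 * ((32 * d : ℕ) : ℝ)) := h2.trans hℓ1.le
    have h4 : (0:ℝ) < ((32 * d : ℕ) : ℝ) := by positivity
    calc ((32 * d : ℕ) : ℝ) * (1 - q) ^ ℓ ≤ ((32 * d : ℕ) : ℝ) * (1 / (2 * ((32 * d : ℕ) : ℝ))) :=
          mul_le_mul_of_nonneg_left h3 h4.le
      _ = 1 / 2 := by field_simp
  have hcore := cp_core h0 h1 s θ c C hθ hc hC N0 hp Cg hCg hgap K hK hlsi d (32 * d) hdpos rfl hdL
    ℓ hl16 hN hq o S hS hz F hF
  refine hcore.trans ?_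
  rw [add_mul]
  have hlR : (0:ℝ) < ℓ := by
    have : 0 < ℓ := by omega
    exact_mod_cast this
  apply add_le_add
  · apply mul_le_mul_of_nonneg_left _ (Real.sqrt_nonneg _)
    apply Real.exp_le_exp.2
    have h2 : min (d / (4 * Cg)) (θ / 16) * ℓ ≤ (d / (4 * Cg)) * ℓ :=
      mul_le_mul_of_nonneg_right (min_le_left _ _) hlR.le
    have h3 : (d / (4 * Cg)) * ℓ = d * ℓ / (4 * Cg) := by ring
    linarith
  · have h2 : (ℓ:ℝ) * Real.exp (-(θ * ℓ / 8)) ≤ (16 / θ) * Real.exp (-(θ / 16 * ℓ)) := by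
      have h3 : θ * ℓ / 16 ≤ Real.exp (θ * ℓ / 16) := by
        have := Real.add_one_le_exp (θ * ℓ / 16)
        linarith
      have h4 : Real.exp (-(θ * ℓ / 8)) = Real.exp (-(θ / 16 * ℓ)) * Real.exp (-(θ / 16 * ℓ)) := by
        rw [← Real.exp_add]; congr 1; ring
      have h5 : (ℓ:ℝ) * Real.exp (-(θ / 16 * ℓ)) ≤ 16 / θ := by
        rw [Real.exp_neg, show θ / 16 * ℓ = θ * ℓ / 16 by ring]
        have h6 := Real.exp_pos (θ * ℓ / 16)
        rw [← div_eq_mul_inv, div_le_div_iff₀ h6 hθ]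
        linarith
      rw [h4, ← mul_assoc]
      exact mul_le_mul_of_nonneg_right h5 (Real.exp_pos _).le
    have h7 : Real.exp (-(θ / 16 * ℓ)) ≤ Real.exp (-(min (d / (4 * Cg)) (θ / 16) * ℓ)) := by
      apply Real.exp_le_exp.2
      have : min (d / (4 * Cg)) (θ / 16) * ℓ ≤ (θ / 16) * ℓ :=
        mul_le_mul_of_nonneg_right (min_le_right _ _) hlR.le
      linarith
    have h8 : 2 * 2 * (d * ℓ / 2) * (((32 * d : ℕ) : ℝ) *
        (2 * C * (2 * C ^ 2) * Real.exp (3 * θ) * Real.exp (-(θ * ℓ / 8)))) =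
        (2 * 2 * ((d:ℝ) / 2) * (((32 * d : ℕ) : ℝ) *
          (2 * C * (2 * C ^ 2) * Real.exp (3 * θ)))) * (ℓ * Real.exp (-(θ * ℓ / 8))) := by ring
    rw [h8, hA, mul_assoc _ (16 / θ) _]
    apply mul_le_mul_of_nonneg_left _ (by positivity)
    refine h2.trans ?_
    exact mul_le_mul_of_nonneg_left h7 (by positivity)

end FA
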