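import Pool.Agent.Helper870.FAD9
import Pool.Agent.Helper769.FAF.TDefs

set_option autoImplicit false
set_option linter.unusedSectionVars false

open Finset

noncomputable section

namespace FA

/-- the configuration seen from `y`, looking to the right -/
def envR (y : ℤ) (S : Finset ℤ) : FAF.Env := fun k => decide (y + 1 + k ∈ S)

/-- the configuration seen from `y`, looking to the left -/
def envL (y : ℤ) (S : Finset ℤ) : FAF.Env := fun k => decide (y - 1 - k ∈ S)

open Classical in
/-- weighted exponential distance from `z` to the first infected site to its right, cap `Λ` if there is none -/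
def UR (th Λ : ℝ) (V : FAF.Env → ℝ) (z : ℤ) (S : Finset ℤ) : ℝ :=
  if h : (S.filter (fun y => z ≤ y)).Nonempty then
    Real.exp (th * (((S.filter (fun y => z ≤ y)).min' h - z : ℤ) : ℝ)) *
      V (envR ((S.filter (fun y => z ≤ y)).min' h) S)
  else Λ

open Classical in
/-- the same to the left -/
def UL (th Λ : ℝ) (V : FAF.Env → ℝ) (z : ℤ) (S : Finset ℤ) : ℝ :=
  if h : (S.filter (fun y => y ≤ z)).Nonempty then
    Real.exp (th * ((z - (S.filter (fun y => y ≤ z)).max' h : ℤ) : ℝ)) *
      V (envL ((S.filter (fun y => y ≤ z)).max' h) S)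
  else Λ

/-- two-sided capped function -/
def WZ (th Λ : ℝ) (V : FAF.Env → ℝ) (z : ℤ) (S : Finset ℤ) : ℝ :=
  min Λ (min (UL th Λ V z S) (UR th Λ V z S))

end FA
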