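import Pool.Agent.Helper870.FAD9

set_option autoImplicit false
set_option linter.unusedSectionVars false

open Finset

noncomputable section

namespace FA
namespace Cut

/-- configurations on `{0,...,n}`: `true` is 1 (healthy), `false` is 0 (infected) -/
abbrev Cfg (n : ℕ) := Fin (n + 1) → Bool

/-- value at the site `x`, read from the boundary condition `σ` outside `{0,...,n}` -/
def val (n : ℕ) (σ : ℤ → Bool) (η : Cfg n) (x : ℤ) : Bool :=
  if h : 0 ≤ x ∧ x ≤ (n : ℤ) then η ⟨x.toNat, by omega⟩ else σ x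

/-- the constraint -/
def constr (n : ℕ) (σ : ℤ → Bool) (η : Cfg n) (x : Fin (n + 1)) : ℝ :=
  if val n σ η (((x : ℕ) : ℤ) - 1) = false ∨ val n σ η (((x : ℕ) : ℤ) + 1) = false then 1 else 0

/-- flip rate -/
def rate (q : ℝ) (n : ℕ) (σ : ℤ → Bool) (x : Fin (n + 1)) (η : Cfg n) : ℝ :=
  constr n σ η x * (if η x = true then q else 1 - q)

/-- flipped configuration -/
def flip (n : ℕ) (η : Cfg n) (x : Fin (n + 1)) : Cfg n := Function.update η x (!η x)

/-- generator -/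
def gen (q : ℝ) (n : ℕ) (σ : ℤ → Bool) (f : Cfg n → ℝ) (η : Cfg n) : ℝ :=
  ∑ x : Fin (n + 1), rate q n σ x η * (f (flip n η x) - f η)

/-- semigroup `exp (t gen)` -/
def sem (q : ℝ) (n : ℕ) (σ : ℤ → Bool) (t : ℝ) (f : Cfg n → ℝ) (η : Cfg n) : ℝ :=
  ∑' m : ℕ, t ^ m / (m.factorial : ℝ) * ((gen q n σ)^[m] f) η

/-- transition probabilities -/
def prob (q : ℝ) (n : ℕ) (σ : ℤ → Bool) (t : ℝ) (η ξ : Cfg n) : ℝ :=
  sem q n σ t (fun ζ => if ζ = ξ then 1 else 0) η

/-- product measure: each site infected with probability `q` -/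
def pi (q : ℝ) (n : ℕ) (η : Cfg n) : ℝ := ∏ x : Fin (n + 1), (if η x = true then 1 - q else q)

open Classical in
/-- the product measure conditioned on having an infected site -/
def piC (q : ℝ) (n : ℕ) (η : Cfg n) : ℝ :=
  if ∃ x, η x = false then
    pi q n η / ∑ ζ ∈ (Finset.univ : Finset (Cfg n)).filter (fun ζ => ∃ x, ζ x = false), pi q n ζ
  else 0

/-- total variation distance -/
def TV (n : ℕ) (μ ν : Cfg n → ℝ) : ℝ := (∑ ξ : Cfg n, |μ ξ - ν ξ|) / 2

/-- mixing time of the chain restricted to `Ω`, with stationary law `μ` -/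
def tmix (q : ℝ) (n : ℕ) (σ : ℤ → Bool) (Ω : Set (Cfg n)) (μ : Cfg n → ℝ) (ε : ℝ) : ℝ :=
  sInf {t : ℝ | 0 ≤ t ∧ ∀ η ∈ Ω, TV n (prob q n σ t η) μ ≤ ε}

/-- cutoff -/
def Cutoff (T : ℕ → ℝ → ℝ) : Prop :=
  ∀ ε : ℝ, 0 < ε → ε < 1 / 2 → Filter.Tendsto (fun n : ℕ => T n ε / T n (1 - ε)) Filter.atTop (nhds 1)

/-- the set of infected sites -/
def SI (n : ℕ) (η : Cfg n) : Finset ℤ :=
  (Icc 0 (n : ℤ)).filter (fun x => val n (fun _ => true) η x = false)

end Cut
end FA
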