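import Pool.Agent.Helper870.FADefs

set_option autoImplicit false
set_option linter.unusedSectionVars false

open Finset

noncomputable section

namespace FA
namespace Inf

open MeasureTheory

/-- configurations on `ℤ`: `true` is healthy (1), `false` is infected (0) -/
abbrev Cfg := ℤ → Bool

/-- the constraint: at least one neighbour of `x` is infected -/
def con (x : ℤ) (η : Cfg) : ℝ := if η (x - 1) = false ∨ η (x + 1) = false then 1 else 0

/-- flip rate at `x` -/
def rate (q : ℝ) (x : ℤ) (η : Cfg) : ℝ := con x η * (if η x = true then q else 1 - q)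

/-- configuration flipped at `x` -/
def flip (η : Cfg) (x : ℤ) : Cfg := Function.update η x (!η x)

/-- generator restricted to flips in `[-n,n]` -/
def Lbox (q : ℝ) (n : ℕ) (f : Cfg → ℝ) (η : Cfg) : ℝ :=
  ∑ x ∈ Finset.Icc (-(n : ℤ)) n, rate q x η * (f (flip η x) - f η)

/-- its semigroup, as an exponential series -/
def Pbox (q : ℝ) (n : ℕ) (t : ℝ) (f : Cfg → ℝ) (η : Cfg) : ℝ :=
  ∑' m : ℕ, t ^ m / (m.factorial : ℝ) * ((Lbox q n)^[m] f) η

/-- the infinite-volume semigroup -/
def Pinf (q : ℝ) (t : ℝ) (f : Cfg → ℝ) (η : Cfg) : ℝ :=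
  Filter.limUnder Filter.atTop (fun n : ℕ => Pbox q n t f η)

/-- functions of the coordinates in `[-r,r]` -/
def Loc (r : ℕ) (f : Cfg → ℝ) : Prop :=
  ∀ η η' : Cfg, (∀ x : ℤ, -(r : ℤ) ≤ x → x ≤ r → η x = η' x) → f η = f η'

/-- the full generator on local functions -/
def Lfull (q : ℝ) (f : Cfg → ℝ) (η : Cfg) : ℝ := ∑' x : ℤ, rate q x η * (f (flip η x) - f η)

/-- frozen boundary condition `η` outside `[a,b]` -/
def kfr (a b : ℤ) (η : Cfg) (x : ℤ) (S : Finset ℤ) : Bool :=
  decide ((x - 1 ∈ Finset.Icc a b ∧ x - 1 ∈ S) ∨ (x + 1 ∈ Finset.Icc a b ∧ x + 1 ∈ S) ∨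
    (x - 1 ∉ Finset.Icc a b ∧ η (x - 1) = false) ∨ (x + 1 ∉ Finset.Icc a b ∧ η (x + 1) = false))

/-- infected sites of `η` in `[a,b]` -/
def SI (a b : ℤ) (η : Cfg) : Finset ℤ := (Finset.Icc a b).filter (fun x => η x = false)

/-- configuration with infected set `S` inside `[a,b]` and equal to `η` outside -/
def mix (a b : ℤ) (η : Cfg) (S : Finset ℤ) : Cfg :=
  fun x => if x ∈ Finset.Icc a b then !(decide (x ∈ S)) else η x

/-- a function of the configuration as a function of the infected set -/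
def toF (r : ℕ) (f : Cfg → ℝ) (S : Finset ℤ) : ℝ :=
  f (fun x => if x ∈ Finset.Icc (-(r : ℤ)) r then !(decide (x ∈ S)) else true)

/-- Bernoulli product measure: each site is infected (`false`) with probability `q` -/
def piq (q : ℝ) (h0 : 0 < q) (h1 : q < 1) : Measure Cfg :=
  Measure.infinitePi (fun _ : ℤ => ProbabilityTheory.bernoulliMeasure false true ⟨q, h0.le, h1.le⟩)

end Inf
end FA
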