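import Pool.Agent.Helper870.FADefs
import Pool.Agent.Helper870.FAG1
import Pool.Agent.Helper870.FAD2
import Pool.Agent.Helper870.FAS10
import Pool.Agent.Helper870.FAD4

set_option autoImplicit false
set_option linter.unusedSectionVars false

open Finset

noncomputable section

namespace FA

/-- number of empty blocks with index in `[k1,k2)` -/
def NE (o : ℤ) (ℓ k1 k2 : ℕ) (S : Finset ℤ) : ℕ :=
  ((Finset.Ico k1 k2).filter (fun i => S ∩ Bk o ℓ i = ∅)).card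

/-- the set of empty blocks -/
def pat (o : ℤ) (ℓ n : ℕ) (S : Finset ℤ) : Finset ℕ :=
  (Finset.range n).filter (fun i => S ∩ Bk o ℓ i = ∅)

/-- union of the blocks with index in `[k1,k2)` -/
def Sb (o : ℤ) (ℓ k1 k2 : ℕ) : Finset ℤ := Icc (o + k1 * ℓ) (o + k2 * ℓ - 1)

/-- exactly one of the blocks `i`, `i+1` is empty -/
def Chg (o : ℤ) (ℓ i : ℕ) (S : Finset ℤ) : Prop := ¬ (S ∩ Bk o ℓ i = ∅ ↔ S ∩ Bk o ℓ (i + 1) = ∅)

/-- the block pattern is not constant near `k` -/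
def NG (o : ℤ) (ℓ mg k : ℕ) (S : Finset ℤ) : Prop :=
  ∃ i : ℕ, k ≤ i + mg ∧ i + 1 < k + mg ∧ Chg o ℓ i S

/-- FA-1f isolated on the blocks `[k1,k2)` (healthy boundary) -/
def bG (q : ℝ) (h0 : 0 < q) (h1 : q < 1) (o : ℤ) (ℓ k1 k2 : ℕ) : MG (Finset ℤ) :=
  kG q h0.le h1.le (Sb o ℓ k1 k2) (kbox (o + k1 * ℓ) (o + k2 * ℓ - 1))

theorem Sb_nonempty (o : ℤ) (ℓ n : ℕ) (hl : 1 ≤ ℓ) (hn : 1 ≤ n) : (Sb o ℓ 0 n).Nonempty := by
  refine ⟨o, ?_⟩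
  unfold Sb
  rw [Finset.mem_Icc]
  have : (1:ℤ) ≤ (n:ℤ) * ℓ := by
    have h : 1 * 1 ≤ n * ℓ := Nat.mul_le_mul hn hl
    have h2 : ((1 * 1 : ℕ) : ℤ) ≤ ((n * ℓ : ℕ) : ℤ) := by exact_mod_cast h
    push_cast at h2
    linarith
  constructor <;> push_cast <;> linarith

/-- the conditioned product measure on the blocks `[0,n)` -/
def bm (q : ℝ) (h0 : 0 < q) (h1 : q < 1) (o : ℤ) (ℓ n : ℕ) (hl : 1 ≤ ℓ) (hn : 1 ≤ n) : FM (Finset ℤ) :=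
  nfm q h0 h1 (Sb o ℓ 0 n) (Sb_nonempty o ℓ n hl hn)

end FA
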