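import Pool.Agent.Helper870.FADefs

set_option autoImplicit false
set_option linter.unusedSectionVars false

open Finset

noncomputable section

namespace FA

/-- distance on the cycle `Icc a b` -/
def dT (a b z x : ℤ) : ℕ := min (z - x).natAbs ((b - a + 1).toNat - (z - x).natAbs)

/-- rotation of the cycle `Icc a b` by `m` -/
def rot (a b m x : ℤ) : ℤ := a + (x - a + m) % (b - a + 1)

/-- rotation of configurations -/
def rotS (a b m : ℤ) (S : Finset ℤ) : Finset ℤ := (S ∩ Finset.Icc a b).image (rot a b m)

end FA
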