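import Pool.Agent.Helper870.FAD5

set_option autoImplicit false
set_option linter.unusedSectionVars false

open Finset

noncomputable section

namespace FA

/-- FA-1f on `Icc a b`; the frozen neighbour outside is infected on the left iff `hL`, on the right iff `hR` -/
def kw (hL hR : Bool) (a b x : ℤ) (S : Finset ℤ) : Bool :=
  decide ((x - 1 ∈ Icc a b ∧ x - 1 ∈ S) ∨ (x + 1 ∈ Icc a b ∧ x + 1 ∈ S) ∨ (x = a ∧ hL = true) ∨
    (x = b ∧ hR = true))

/-- its Markov generator -/
def wG (q : ℝ) (h0 : 0 < q) (h1 : q < 1) (hL hR : Bool) (a b : ℤ) : MG (Finset ℤ) :=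
  kG q h0.le h1.le (Icc a b) (kw hL hR a b)

/-- its stationary law: product measure, conditioned on having an infected site if both walls are healthy -/
def wm (q : ℝ) (h0 : 0 < q) (h1 : q < 1) (hL hR : Bool) (a b : ℤ) (hab : a ≤ b) : FM (Finset ℤ) :=
  if (hL || hR) = true then pfm q h0 h1 (Icc a b) else nfm q h0 h1 (Icc a b) (Finset.nonempty_Icc.2 hab)

/-- admissible initial configurations -/
def Okw (hL hR : Bool) (S : Finset ℤ) : Prop := (hL || hR) = true ∨ S.Nonempty

/-- reflection of the interval -/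
def rf (a b : ℤ) (S : Finset ℤ) : Finset ℤ := S.image (fun x => a + b - x)

/-- indicator that no site within distance `r` of `z` is infected -/
def Ne (z : ℤ) (r : ℕ) (T : Finset ℤ) : ℝ := if T ∩ Icc (z - r) (z + r) = ∅ then 1 else 0

/-- infection near the left wall but not a bit further -/
def BadL (hL : Bool) (a : ℤ) (R : ℕ) (T : Finset ℤ) : Prop :=
  (hL = true ∨ (T ∩ Icc a (a + 5 * R)).Nonempty) ∧ T ∩ Icc (a + 5 * R + 1) (a + 20 * R) = ∅

/-- infection near the right wall but not a bit further -/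
def BadR (hR : Bool) (b : ℤ) (R : ℕ) (T : Finset ℤ) : Prop :=
  (hR = true ∨ (T ∩ Icc (b - 5 * R) b).Nonempty) ∧ T ∩ Icc (b - 20 * R) (b - 5 * R - 1) = ∅

/-- weight of the configurations of the group `D` which are infected somewhere in `B` -/
def Zg (q : ℝ) (D B : Finset ℤ) : ℝ := ∑ U ∈ D.powerset.filter (fun U => (U ∩ B).Nonempty), wt q D U

/-- resampling of the group `D` conditioned on being infected somewhere in `B` -/
def gblk (q : ℝ) (h0 : 0 < q) (h1 : q < 1) (D B : Finset ℤ) : AO (Finset ℤ) where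
  κ := Finset ℤ
  K := fun S => if S ∩ D ∩ B = ∅ then {∅} else D.powerset.filter (fun U => (U ∩ B).Nonempty)
  w := fun S U => if S ∩ D ∩ B = ∅ then 1 else wt q D U / Zg q D B
  c := fun S U => if S ∩ D ∩ B = ∅ then S else (S \ D) ∪ U
  hw := by
    intro S U _
    split_ifs with h
    · norm_num
    · exact div_nonneg (wt_pos h0 h1 D U).le
        (Finset.sum_nonneg (fun V _ => (wt_pos h0 h1 D V).le))
  hone := by
    intro S
    split_ifs with h
    · simp
    · rw [← Finset.sum_div]
      apply div_self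
      apply ne_of_gt
      apply Finset.sum_pos (fun V _ => wt_pos h0 h1 D V)
      refine ⟨S ∩ D, ?_⟩
      rw [Finset.mem_filter, Finset.mem_powerset]
      exact ⟨Finset.inter_subset_right, Finset.nonempty_iff_ne_empty.2 h⟩

/-- `C` is stable under resampling the group `D` given an infection in `B` -/
def StabG (A D B : Finset ℤ) (C : Finset ℤ → Prop) : Prop :=
  ∀ S, S ⊆ A → C S → (S ∩ D ∩ B).Nonempty → ∀ U, U ⊆ D → (U ∩ B).Nonempty → C ((S \ D) ∪ U)

end FA
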