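import Pool.Agent.Helper870.FADefs
import Pool.Agent.Helper870.FAG1
import Pool.Agent.Helper870.FAS1
import Pool.Agent.Helper870.FAS2
import Pool.Agent.Helper870.FAS3
import Pool.Agent.Helper870.FAS4
import Pool.Agent.Helper870.FAD2
import Pool.Agent.Helper870.FAOSC
import Pool.Agent.Helper870.FAD6

set_option autoImplicit false
set_option linter.unusedSectionVars false

open Finset

noncomputable section

-- USES: G1 S1 S2 S3 S4 D2 OSC D6
namespace FA
namespace Inf
variable {q : ℝ}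

theorem adm0_fr' (a b : ℤ) (η : Cfg) : Adm0 a b (kfr a b η) where
  ge := by
    intro x _ S
    unfold cst kv kfr
    by_cases h : (x - 1 ∈ Icc a b ∧ x - 1 ∈ S) ∨ (x + 1 ∈ Icc a b ∧ x + 1 ∈ S)
    · rw [if_pos h, if_pos]
      rw [decide_eq_true_eq]
      tauto
    · rw [if_neg h]
      split_ifs <;> norm_num
  loc := by
    intro x _ S
    unfold kfr
    congr 1
    simp only [Finset.mem_inter, eq_iff_iff]
    tauto
  self := by
    intro x _ S
    unfold kfr
    congr 1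
    have h1 : x - 1 ≠ x := by omega
    have h2 : x + 1 ≠ x := by omega
    simp only [Finset.mem_insert, Finset.mem_erase, h1, h2, false_or, ne_eq, not_false_eq_true,
      true_and]
  inn := by
    intro x h1 h2 S
    unfold cst kv kfr
    have h3 : x - 1 ∈ Icc a b := by rw [Finset.mem_Icc]; omega
    have h4 : x + 1 ∈ Icc a b := by rw [Finset.mem_Icc]; omega
    simp only [h3, h4, true_and, not_true, false_and, or_false, decide_eq_true_eq]
  bd := by
    intro x _ y _ S h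
    left
    by_contra hc
    apply h
    have h1 : x - 1 ≠ y := by
      rintro rfl
      apply hc
      rw [show x - (x - 1) = 1 by ring]; rfl
    have h2 : x + 1 ≠ y := by
      rintro rfl
      apply hc
      rw [show x - (x + 1) = -1 by ring]; rfl
    unfold kfr
    congr 1
    simp only [Finset.mem_insert, Finset.mem_erase, h1, h2, false_or, ne_eq, not_false_eq_true,
      true_and]

theorem adm0_fr (a b : ℤ) (hab : a < b) (η : Cfg) : Adm0 a b (kfr a b η) := adm0_fr' a b η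

theorem con_mix (a b : ℤ) (η : Cfg) (S : Finset ℤ) (x : ℤ) :
    con x (mix a b η S) = kv (kfr a b η) x S := by
  have h : ∀ y, mix a b η S y = false ↔ ((y ∈ Finset.Icc a b ∧ y ∈ S) ∨
      (y ∉ Finset.Icc a b ∧ η y = false)) := by
    intro y
    unfold mix
    by_cases hy : y ∈ Finset.Icc a b
    · simp only [hy, if_true, Bool.not_eq_false', decide_eq_true_eq, true_and, not_true, false_and,
        or_false]
    · simp only [hy, if_false, false_and, not_false_eq_true, true_and, false_or]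
  unfold con kv kfr
  simp only [h, decide_eq_true_eq]
  congr 1
  simp only [eq_iff_iff]
  tauto

theorem flip_mix_in (a b : ℤ) (η : Cfg) (S : Finset ℤ) (x : ℤ) (hx : x ∈ Finset.Icc a b)
    (hS : x ∈ S) : flip (mix a b η S) x = mix a b η (S.erase x) := by
  funext y
  unfold flip
  by_cases hy : y = x
  · subst hy
    rw [Function.update_self]
    simp [mix, hx, hS]
  · rw [Function.update_of_ne hy]
    simp [mix, hy]

theorem flip_mix_out (a b : ℤ) (η : Cfg) (S : Finset ℤ) (x : ℤ) (hx : x ∈ Finset.Icc a b)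
    (hS : x ∉ S) : flip (mix a b η S) x = mix a b η (insert x S) := by
  funext y
  unfold flip
  by_cases hy : y = x
  · subst hy
    rw [Function.update_self]
    simp [mix, hx, hS]
  · rw [Function.update_of_ne hy]
    simp [mix, hy]

theorem Lbox_mix (h0 : 0 ≤ q) (h1 : q ≤ 1) (n : ℕ) (f : Cfg → ℝ) (η : Cfg) (S : Finset ℤ) :
    Lbox q n f (mix (-(n : ℤ)) n η S) =
      (kG q h0 h1 (Finset.Icc (-(n : ℤ)) n) (kfr (-(n : ℤ)) n η)).L
        (fun S => f (mix (-(n : ℤ)) n η S)) S := by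
  rw [kG_L]
  unfold Lbox genK
  refine Finset.sum_congr rfl fun x hx => ?_
  unfold rate
  rw [con_mix]
  by_cases hS : x ∈ S
  · have h2 : mix (-(n : ℤ)) n η S x = false := by simp [mix, hx, hS]
    rw [flip_mix_in _ _ _ _ _ hx hS, h2, Finset.insert_eq_of_mem hS]
    simp only [Bool.false_eq_true, if_false]
    ring
  · have h2 : mix (-(n : ℤ)) n η S x = true := by simp [mix, hx, hS]
    rw [flip_mix_out _ _ _ _ _ hx hS, h2, Finset.erase_eq_of_notMem hS]
    simp only [if_true]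
    ring

theorem Lbox_iter (h0 : 0 ≤ q) (h1 : q ≤ 1) (n : ℕ) (η : Cfg) (m : ℕ) : ∀ (f : Cfg → ℝ)
    (S : Finset ℤ), ((Lbox q n)^[m] f) (mix (-(n : ℤ)) n η S) =
      ((kG q h0 h1 (Finset.Icc (-(n : ℤ)) n) (kfr (-(n : ℤ)) n η)).L^[m]
        (fun S => f (mix (-(n : ℤ)) n η S))) S := by
  induction m with
  | zero => intro f S; rfl
  | succ m ih =>
    intro f S
    rw [Function.iterate_succ_apply, Function.iterate_succ_apply, ih (Lbox q n f) S]
    have h2 : (fun S => Lbox q n f (mix (-(n : ℤ)) n η S)) =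
        (kG q h0 h1 (Finset.Icc (-(n : ℤ)) n) (kfr (-(n : ℤ)) n η)).L
        (fun S => f (mix (-(n : ℤ)) n η S)) := funext fun S => Lbox_mix h0 h1 n f η S
    rw [h2]

theorem mix_SI (a b : ℤ) (η : Cfg) : mix a b η (SI a b η) = η := by
  funext x
  unfold mix SI
  by_cases hx : x ∈ Finset.Icc a b
  · rw [if_pos hx]
    by_cases h : η x = false
    · have h2 : x ∈ (Finset.Icc a b).filter (fun x => η x = false) :=
        Finset.mem_filter.2 ⟨hx, h⟩
      rw [decide_eq_true h2, h]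
      rfl
    · have h2 : x ∉ (Finset.Icc a b).filter (fun x => η x = false) := fun h3 =>
        h (Finset.mem_filter.1 h3).2
      rw [decide_eq_false h2]
      rw [Bool.not_eq_false] at h
      rw [h]
      rfl
  · rw [if_neg hx]

theorem Pbox_eq (h0 : 0 ≤ q) (h1 : q ≤ 1) (n : ℕ) (t : ℝ) (f : Cfg → ℝ) (η : Cfg) :
    Pbox q n t f η = (kG q h0 h1 (Finset.Icc (-(n : ℤ)) n) (kfr (-(n : ℤ)) n η)).P t
      (fun S => f (mix (-(n : ℤ)) n η S)) (SI (-(n : ℤ)) n η) := by
  unfold Pbox MG.P semi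
  refine tsum_congr fun m => ?_
  congr 1
  have h2 := Lbox_iter h0 h1 n η m f (SI (-(n : ℤ)) n η)
  rw [mix_SI] at h2
  exact h2

theorem toF_loc (r : ℕ) (f : Cfg → ℝ) (S : Finset ℤ) :
    toF r f S = toF r f (S ∩ Finset.Icc (-(r : ℤ)) r) := by
  unfold toF
  congr 1
  funext x
  by_cases hx : x ∈ Finset.Icc (-(r : ℤ)) r
  · rw [if_pos hx, if_pos hx]
    congr 1
    simp only [Finset.mem_inter, hx, and_true]
  · rw [if_neg hx, if_neg hx]

theorem toF_mix (r : ℕ) (f : Cfg → ℝ) (hf : Loc r f) (n : ℕ) (hn : r ≤ n) (η : Cfg) (S : Finset ℤ) :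
    f (mix (-(n : ℤ)) n η S) = toF r f S := by
  unfold toF
  apply hf
  intro x hx1 hx2
  have h1 : x ∈ Finset.Icc (-(r : ℤ)) r := Finset.mem_Icc.2 ⟨hx1, hx2⟩
  have h2 : x ∈ Finset.Icc (-(n : ℤ)) n := by rw [Finset.mem_Icc]; omega
  simp only [mix, if_pos h1, if_pos h2]

/-- comparison of the frozen box dynamics with any smaller system -/
theorem Pbox_compare (h0 : 0 ≤ q) (h1 : q ≤ 1) (r : ℕ) (f : Cfg → ℝ) (hf : Loc r f) (M : ℝ)
    (hM : ∀ η, |f η| ≤ M) (n : ℕ) (a' b' : ℤ) (m : ℕ) (ha : -(n : ℤ) ≤ a') (hb : b' ≤ n)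
    (hma : a' + m ≤ -(r : ℤ)) (hmb : (r : ℤ) + m ≤ b') (k' : ℤ → Finset ℤ → Bool) (hk' : Adm0 a' b' k')
    (t : ℝ) (ht : 0 ≤ t) (η : Cfg) :
    |Pbox q n t f η - (kG q h0 h1 (Finset.Icc a' b') k').P t (toF r f) (SI a' b' η)| ≤
      4 * M * t * Real.exp (6 * t - m) := by
  have hrn : r ≤ n := by omega
  have e1 : (fun S => f (mix (-(n : ℤ)) n η S)) = toF r f := funext fun S => toF_mix r f hf n hrn η S
  have hloc : ∀ S, toF r f S = toF r f (S ∩ Finset.Icc a' b') := by
    intro S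
    rw [toF_loc r f S, toF_loc r f (S ∩ Finset.Icc a' b')]
    congr 1
    ext x
    simp only [Finset.mem_inter, Finset.mem_Icc]
    constructor
    · rintro ⟨h2, h3, h4⟩
      exact ⟨⟨h2, by omega, by omega⟩, h3, h4⟩
    · rintro ⟨⟨h2, _, _⟩, h3, h4⟩
      exact ⟨h2, h3, h4⟩
  have e2 : SI (-(n : ℤ)) n η ∩ Finset.Icc a' b' = SI a' b' η := by
    ext x
    simp only [SI, Finset.mem_inter, Finset.mem_filter, Finset.mem_Icc]
    constructor
    · rintro ⟨⟨_, h3⟩, h4⟩
      exact ⟨h4, h3⟩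
    · rintro ⟨⟨h3, h4⟩, h5⟩
      exact ⟨⟨⟨by omega, by omega⟩, h5⟩, h3, h4⟩
  have h2 := fs_compare h0 h1 (-(n : ℤ)) n a' b' ha hb (kfr (-(n : ℤ)) n η) k'
    (adm0_fr' _ _ η) hk' (-(r : ℤ)) r m hma (by omega) hmb (toF r f) (toF_loc r f) M
    (fun S => hM _) t ht (SI (-(n : ℤ)) n η)
  rw [P_loc h0 h1 a' b' k' hk' (toF r f) hloc t (SI (-(n : ℤ)) n η), e2] at h2
  rw [Pbox_eq h0 h1, e1]
  exact h2

end Inf
end FA
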