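import Pool.Agent.Helper870.FADefs
import Pool.Agent.Helper870.FAG1
import Pool.Agent.Helper870.FAS1
import Pool.Agent.Helper870.FAS2
import Pool.Agent.Helper870.FAS3
import Pool.Agent.Helper870.FAS4
import Pool.Agent.Helper870.FAS6
import Pool.Agent.Helper870.FAD2
import Pool.Agent.Helper870.FAR1
import Pool.Agent.Helper870.FAG6
import Pool.Agent.Helper870.FAD3
import Pool.Agent.Helper870.FAS10
import Pool.Agent.Helper870.FAD4
import Pool.Agent.Helper870.FALB
import Pool.Agent.Helper870.FAD5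
import Pool.Agent.Helper870.FAOSC
import Pool.Agent.Helper870.FAFIN1
import Pool.Agent.Helper870.FAD6
import Pool.Agent.Helper870.FAINF1
import Pool.Agent.Helper870.FAINF2

set_option autoImplicit false
set_option linter.unusedSectionVars false

open Finset

noncomputable section

-- USES: G1 S1 S2 S3 S4 S6 D2 R1 G6 D3 S10 D4 LB D5 OSC FIN1 D6 INF1 INF2
namespace FA
namespace Inf
open MeasureTheory
variable {q : ℝ}

/-- pointwise exponential convergence for configurations with an infected site at distance at most `κ t` -/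
theorem fin3_pt (h0 : 0 < q) (h1 : q < 1) (s : Sys) (θ c C : ℝ) (hθ : 0 < θ) (hc : 0 < c) (hC : 1 ≤ C)
    (N0 : ℤ) (hp : PersS s q h0 h1 θ c C N0) (r : ℕ) (f : Cfg → ℝ) (hf : Loc r f) :
    ∃ κ c' C' t0 : ℝ, 0 < κ ∧ 0 < c' ∧ 0 < C' ∧ ∀ t : ℝ, t0 ≤ t → ∀ η : Cfg,
      (∃ x : ℤ, (|x| : ℝ) ≤ κ * t ∧ η x = false) →
        |Pinf q t f η - ∫ η', f η' ∂(piq q h0 h1)| ≤ C' * Real.exp (-(c' * t)) := by
  obtain ⟨M0, hM0⟩ := Loc_bd r f hf
  set M : ℝ := max M0 1 with hMdef
  have hM1 : 1 ≤ M := le_max_right _ _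
  have hMpos : 0 < M := by linarith
  have hM : ∀ η, |f η| ≤ M := fun η => (hM0 η).trans (le_max_left _ _)
  set F : Finset ℤ → ℝ := fun T => toF r f T / M with hF
  have hF1 : ∀ T, |F T| ≤ 1 := by
    intro T
    rw [hF]
    change |toF r f T / M| ≤ 1
    rw [abs_div, abs_of_pos hMpos, div_le_one hMpos]
    exact hM _
  have hFloc : ∀ T, F T = F (T ∩ Icc (-(r : ℤ)) r) := by
    intro T
    change toF r f T / M = toF r f (T ∩ Icc (-(r : ℤ)) r) / M
    rw [← toF_loc]
  have hMF : (fun T => M * F T) = toF r f := by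
    funext T
    change M * (toF r f T / M) = toF r f T
    field_simp
  obtain ⟨κ1, c3, C3, t0, hκ1, hc3, hC3, hfin⟩ := fin1 h0 h1 s θ c C hθ hc hC N0 hp r
  refine ⟨min κ1 1, min c3 9, 4 * M * Real.exp r + M * C3, max t0 (max 1 r), lt_min hκ1 one_pos,
    lt_min hc3 (by norm_num), by positivity, ?_⟩
  intro t ht η hη
  obtain ⟨x, hxt, hxη⟩ := hη
  have ht0 : t0 ≤ t := (le_max_left _ _).trans ht
  have ht1 : 1 ≤ t := ((le_max_left _ _).trans (le_max_right _ _)).trans ht
  have htr : (r : ℝ) ≤ t := ((le_max_right _ _).trans (le_max_right _ _)).trans ht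
  have htpos : 0 ≤ t := by linarith
  obtain ⟨R, hR1, hR2⟩ : ∃ R : ℕ, 16 * t ≤ R ∧ (R : ℝ) ≤ 16 * t + 1 :=
    ⟨⌈16 * t⌉₊, Nat.le_ceil _, (Nat.ceil_lt_add_one (by linarith)).le⟩
  have hrR : r ≤ R := by
    have : (r : ℝ) ≤ R := by linarith
    exact_mod_cast this
  have hR2' : 16 ≤ R := by
    have : (16 : ℝ) ≤ R := by linarith
    exact_mod_cast this
  obtain ⟨m, hm⟩ := Nat.exists_eq_add_of_le hrR
  have hadm := s.adm (-(R : ℤ)) R (by omega)
  have e1 := Pinf_compare h0.le h1.le r f hf M hM (-(R : ℤ)) R m (by omega) (by omega) _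
    hadm.toAdm0 t htpos η
  have hxS : x ∈ SI (-(R : ℤ)) R η := by
    unfold SI
    rw [Finset.mem_filter, Finset.mem_Icc]
    refine ⟨?_, hxη⟩
    have h2 : |(x : ℝ)| ≤ R := by
      calc |(x : ℝ)| ≤ min κ1 1 * t := hxt
        _ ≤ 1 * t := mul_le_mul_of_nonneg_right (min_le_right _ _) htpos
        _ ≤ R := by linarith
    rw [abs_le] at h2
    constructor
    · have := h2.1
      exact_mod_cast this
    · exact_mod_cast h2.2
  have hxκ : (|x| : ℝ) ≤ κ1 * t :=
    hxt.trans (mul_le_mul_of_nonneg_right (min_le_left _ _) htpos)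
  have e2 := hfin t ht0 R hR1 hR2 (SI (-(R : ℤ)) R η) (Finset.filter_subset _ _) ⟨x, hxS, hxκ⟩
    F hFloc hF1
  set G := kG q h0.le h1.le (Icc (-(R : ℤ)) R) (s.k (-(R : ℤ)) R) with hG
  have hP : G.P t (toF r f) (SI (-(R : ℤ)) R η) = M * G.P t F (SI (-(R : ℤ)) R η) := by
    rw [← hMF]
    exact G.P_smul M F ⟨1, hF1⟩ t _
  have hEA : EA q (Icc (-(r : ℤ)) r) (toF r f) = M * EA q (Icc (-(r : ℤ)) r) F := by
    rw [← hMF]
    unfold EA
    rw [Finset.mul_sum]
    refine Finset.sum_congr rfl fun U _ => ?_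
    ring
  rw [int_piq h0 h1 r f hf]
  have hmR : (m : ℝ) = R - r := by
    rw [hm]; push_cast; ring
  have e3 : 4 * M * t * Real.exp (6 * t - m) ≤ 4 * M * Real.exp r * Real.exp (-(9 * t)) := by
    have h3 : Real.exp (6 * t - m) ≤ Real.exp (r + -(10 * t)) := by
      apply Real.exp_le_exp.2
      rw [hmR]
      linarith
    have h4 : t ≤ Real.exp t := by
      have := Real.add_one_le_exp t
      linarith
    calc 4 * M * t * Real.exp (6 * t - m) ≤ 4 * M * Real.exp t * Real.exp (r + -(10 * t)) := by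
          apply mul_le_mul _ h3 (Real.exp_pos _).le (by positivity)
          exact mul_le_mul_of_nonneg_left h4 (by positivity)
      _ = 4 * M * Real.exp r * Real.exp (-(9 * t)) := by
          have : Real.exp t * Real.exp (r + -(10 * t)) = Real.exp r * Real.exp (-(9 * t)) := by
            rw [← Real.exp_add, ← Real.exp_add]
            congr 1
            ring
          calc 4 * M * Real.exp t * Real.exp (r + -(10 * t))
              = 4 * M * (Real.exp t * Real.exp (r + -(10 * t))) := by ring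
            _ = 4 * M * (Real.exp r * Real.exp (-(9 * t))) := by rw [this]
            _ = _ := by ring
  have e4 : Real.exp (-(9 * t)) ≤ Real.exp (-(min c3 9 * t)) := by
    apply Real.exp_le_exp.2
    have := mul_le_mul_of_nonneg_right (min_le_right c3 9) htpos
    linarith
  have e5 : Real.exp (-(c3 * t)) ≤ Real.exp (-(min c3 9 * t)) := by
    apply Real.exp_le_exp.2
    have := mul_le_mul_of_nonneg_right (min_le_left c3 9) htpos
    linarith
  have e6 : |G.P t (toF r f) (SI (-(R : ℤ)) R η) - EA q (Icc (-(r : ℤ)) r) (toF r f)| ≤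
      M * (C3 * Real.exp (-(c3 * t))) := by
    rw [hP, hEA, ← mul_sub, abs_mul, abs_of_pos hMpos]
    exact mul_le_mul_of_nonneg_left e2 hMpos.le
  calc |Pinf q t f η - EA q (Icc (-(r : ℤ)) r) (toF r f)|
      ≤ |Pinf q t f η - G.P t (toF r f) (SI (-(R : ℤ)) R η)| +
        |G.P t (toF r f) (SI (-(R : ℤ)) R η) - EA q (Icc (-(r : ℤ)) r) (toF r f)| :=
          abs_sub_le _ _ _
    _ ≤ 4 * M * Real.exp r * Real.exp (-(9 * t)) + M * (C3 * Real.exp (-(c3 * t))) :=
          add_le_add (e1.trans e3) e6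
    _ ≤ 4 * M * Real.exp r * Real.exp (-(min c3 9 * t)) +
        M * (C3 * Real.exp (-(min c3 9 * t))) := by
          apply add_le_add
          · exact mul_le_mul_of_nonneg_left e4 (by positivity)
          · exact mul_le_mul_of_nonneg_left (mul_le_mul_of_nonneg_left e5 hC3.le) hMpos.le
    _ = (4 * M * Real.exp r + M * C3) * Real.exp (-(min c3 9 * t)) := by ring

/-- convergence to equilibrium for every initial law with an infected site, given persistence -/
theorem fin3 (h0 : 0 < q) (h1 : q < 1) (s : Sys) (θ c C : ℝ) (hθ : 0 < θ) (hc : 0 < c) (hC : 1 ≤ C)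
    (N0 : ℤ) (hp : PersS s q h0 h1 θ c C N0)
    (ν : Measure Cfg) [IsProbabilityMeasure ν] (hν : ∀ᵐ η ∂ν, ∃ x : ℤ, η x = false)
    (r : ℕ) (f : Cfg → ℝ) (hf : Loc r f) :
    Filter.Tendsto (fun t : ℝ => ∫ η, Pinf q t f η ∂ν) Filter.atTop
      (nhds (∫ η, f η ∂(piq q h0 h1))) := by
  obtain ⟨M, hM⟩ := Loc_bd r f hf
  obtain ⟨κ, c', C', t0, hκ, hc', hC', hpt⟩ := fin3_pt h0 h1 s θ c C hθ hc hC N0 hp r f hf
  have hI : ∫ _ : Cfg, (∫ η, f η ∂(piq q h0 h1)) ∂ν = ∫ η, f η ∂(piq q h0 h1) := by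
    rw [integral_const, probReal_univ, one_smul]
  rw [← hI]
  refine tendsto_integral_filter_of_dominated_convergence (fun _ => M) ?_ ?_
    (integrable_const M) ?_
  · filter_upwards [Filter.eventually_ge_atTop (0 : ℝ)] with t ht
    exact (Pinf_meas h0.le h1.le r f hf t ht).1.aestronglyMeasurable
  · filter_upwards [Filter.eventually_ge_atTop (0 : ℝ)] with t ht
    refine Filter.Eventually.of_forall fun η => ?_
    rw [Real.norm_eq_abs]
    exact (Pinf_meas h0.le h1.le r f hf t ht).2 M hM η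
  · filter_upwards [hν] with η hη
    obtain ⟨x, hx⟩ := hη
    rw [tendsto_iff_norm_sub_tendsto_zero]
    have hlim : Filter.Tendsto (fun t : ℝ => C' * Real.exp (-(c' * t))) Filter.atTop (nhds 0) := by
      have h2 : Filter.Tendsto (fun t : ℝ => -(c' * t)) Filter.atTop Filter.atBot :=
        Filter.tendsto_neg_atTop_atBot.comp (Filter.tendsto_id.const_mul_atTop hc')
      have h3 := (Real.tendsto_exp_atBot.comp h2).const_mul C'
      rw [mul_zero] at h3
      exact h3
    refine squeeze_zero' (Filter.Eventually.of_forall fun t => norm_nonneg _) ?_ hlim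
    filter_upwards [Filter.eventually_ge_atTop t0, Filter.eventually_ge_atTop (|(x : ℝ)| / κ)]
      with t ht1 ht2
    rw [Real.norm_eq_abs]
    refine hpt t ht1 η ⟨x, ?_, hx⟩
    rw [div_le_iff₀ hκ] at ht2
    linarith

end Inf
end FA
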