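import Pool.Agent.Helper870.FADefs
import Pool.Agent.Helper870.FAG1
import Pool.Agent.Helper870.FAS1
import Pool.Agent.Helper870.FAS2
import Pool.Agent.Helper870.FAS3
import Pool.Agent.Helper870.FAS4
import Pool.Agent.Helper870.FAD2
import Pool.Agent.Helper870.FAOSC
import Pool.Agent.Helper870.FAD6
import Pool.Agent.Helper870.FAINF1
import Pool.Agent.Helper870.FAINF2

set_option autoImplicit false
set_option linter.unusedSectionVars false

open Finset

noncomputable section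

-- USES: G1 S1 S2 S3 S4 D2 OSC D6 INF1 INF2
namespace FA
namespace Inf
variable {q : ℝ}

theorem inf4_lim (h0 : 0 ≤ q) (h1 : q ≤ 1) (r : ℕ) (f : Cfg → ℝ) (hf : Loc r f) (t : ℝ)
    (ht : 0 ≤ t) (η : Cfg) :
    Filter.Tendsto (fun n : ℕ => Pbox q n t f η) Filter.atTop (nhds (Pinf q t f η)) :=
  (Pinf_lim h0 h1 r f hf t ht).tendsto_at η

theorem inf4_bd (r : ℕ) (f : Cfg → ℝ) (hf : Loc r f) (n : ℕ) (η : Cfg) :
    Bd (fun S => f (mix (-(n : ℤ)) n η S)) := by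
  obtain ⟨M, hM⟩ := Loc_bd r f hf
  exact ⟨M, fun S => hM _⟩

theorem Pinf_nonneg (h0 : 0 ≤ q) (h1 : q ≤ 1) (r : ℕ) (f : Cfg → ℝ) (hf : Loc r f) (hf0 : ∀ η, 0 ≤ f η)
    (t : ℝ) (ht : 0 ≤ t) (η : Cfg) : 0 ≤ Pinf q t f η := by
  refine ge_of_tendsto' (inf4_lim h0 h1 r f hf t ht η) fun n => ?_
  rw [Pbox_eq h0 h1]
  exact MG.P_nonneg _ _ (inf4_bd r f hf n η) (fun S => hf0 _) t ht _

theorem Pinf_one (t : ℝ) (η : Cfg) : Pinf q t (fun _ => 1) η = 1 := by
  have e1 : ∀ n : ℕ, Lbox q n (fun _ => (1 : ℝ)) = fun _ => 0 := by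
    intro n
    funext ξ
    unfold Lbox
    exact Finset.sum_eq_zero fun x _ => by rw [sub_self, mul_zero]
  have e2 : ∀ n m : ℕ, (Lbox q n)^[m] (fun _ => (0 : ℝ)) = fun _ => 0 := by
    intro n m
    induction m with
    | zero => rfl
    | succ m ih =>
      rw [Function.iterate_succ_apply]
      have e3 : Lbox q n (fun _ => (0 : ℝ)) = fun _ => 0 := by
        funext ξ
        unfold Lbox
        exact Finset.sum_eq_zero fun x _ => by rw [sub_self, mul_zero]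
      rw [e3, ih]
  have e4 : ∀ n : ℕ, Pbox q n t (fun _ => 1) η = 1 := by
    intro n
    unfold Pbox
    rw [tsum_eq_single 0]
    · simp
    · intro m hm
      obtain ⟨k, rfl⟩ := Nat.exists_eq_succ_of_ne_zero hm
      rw [Function.iterate_succ_apply, e1, e2, mul_zero]
  unfold Pinf
  simp only [e4]
  exact Filter.Tendsto.limUnder_eq tendsto_const_nhds

theorem Pinf_add (h0 : 0 ≤ q) (h1 : q ≤ 1) (r : ℕ) (f g : Cfg → ℝ) (hf : Loc r f) (hg : Loc r g)
    (t : ℝ) (ht : 0 ≤ t) (η : Cfg) : Pinf q t (fun ξ => f ξ + g ξ) η = Pinf q t f η + Pinf q t g η := by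
  have hfg : Loc r (fun ξ => f ξ + g ξ) := fun ξ ξ' h => by
    show f ξ + g ξ = f ξ' + g ξ'
    rw [hf ξ ξ' h, hg ξ ξ' h]
  refine tendsto_nhds_unique (inf4_lim h0 h1 r _ hfg t ht η) ?_
  refine ((inf4_lim h0 h1 r f hf t ht η).add (inf4_lim h0 h1 r g hg t ht η)).congr fun n => ?_
  rw [Pbox_eq h0 h1, Pbox_eq h0 h1, Pbox_eq h0 h1]
  exact (MG.P_add _ _ _ (inf4_bd r f hf n η) (inf4_bd r g hg n η) t _).symm

theorem Pinf_smul (h0 : 0 ≤ q) (h1 : q ≤ 1) (r : ℕ) (f : Cfg → ℝ) (hf : Loc r f) (c : ℝ)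
    (t : ℝ) (ht : 0 ≤ t) (η : Cfg) : Pinf q t (fun ξ => c * f ξ) η = c * Pinf q t f η := by
  have hcf : Loc r (fun ξ => c * f ξ) := fun ξ ξ' h => by
    show c * f ξ = c * f ξ'
    rw [hf ξ ξ' h]
  refine tendsto_nhds_unique (inf4_lim h0 h1 r _ hcf t ht η) ?_
  refine ((inf4_lim h0 h1 r f hf t ht η).const_mul c).congr fun n => ?_
  rw [Pbox_eq h0 h1, Pbox_eq h0 h1]
  exact (MG.P_smul _ c _ (inf4_bd r f hf n η) t _).symm

/-- a function of finitely many coordinates depends on a centred interval -/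
theorem Loc_of_finset (f : Cfg → ℝ) (S : Finset ℤ) (h : ∀ η η' : Cfg, (∀ x ∈ S, η x = η' x) → f η = f η') :
    ∃ r : ℕ, Loc r f := by
  refine ⟨S.sup Int.natAbs, fun η η' hr => h η η' fun x hx => ?_⟩
  have h1 : x.natAbs ≤ S.sup Int.natAbs := Finset.le_sup (f := Int.natAbs) hx
  exact hr x (by omega) (by omega)

theorem Loc_mono (r r' : ℕ) (h : r ≤ r') (f : Cfg → ℝ) (hf : Loc r f) : Loc r' f :=
  fun η η' hr => hf η η' fun x h1 h2 => hr x (by omega) (by omega)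

open MeasureTheory in
/-- from a big-O bound to a bound for all lengths -/
theorem bound_of_isBigO (ν : Measure Cfg) [IsProbabilityMeasure ν] (κ : ℝ)
    (h : (fun l : ℕ => ν.real {η | ∀ x : ℤ, -(l : ℤ) ≤ x → x ≤ l → η x = true}) =O[Filter.atTop]
      (fun l : ℕ => Real.exp (-(κ * l)))) :
    ∃ A : ℝ, ∀ l : ℕ, ν.real {η | ∀ x : ℤ, -(l : ℤ) ≤ x → x ≤ l → η x = true} ≤ A * Real.exp (-(κ * l)) := by
  obtain ⟨c, _, hc⟩ := h.exists_pos
  obtain ⟨l₀, hl₀⟩ := Filter.eventually_atTop.1 hc.bound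
  refine ⟨max c (Real.exp (|κ| * l₀)), fun l => ?_⟩
  rcases le_or_gt l₀ l with hl | hl
  · have h1 := hl₀ l hl
    rw [Real.norm_of_nonneg measureReal_nonneg, Real.norm_of_nonneg (Real.exp_pos _).le] at h1
    exact h1.trans (mul_le_mul_of_nonneg_right (le_max_left _ _) (Real.exp_pos _).le)
  · have h1 : ν.real {η | ∀ x : ℤ, -(l : ℤ) ≤ x → x ≤ l → η x = true} ≤ 1 := measureReal_le_one
    refine h1.trans ?_
    have h2 : Real.exp (|κ| * l₀) * Real.exp (-(κ * l)) ≤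
        max c (Real.exp (|κ| * l₀)) * Real.exp (-(κ * l)) :=
      mul_le_mul_of_nonneg_right (le_max_right _ _) (Real.exp_pos _).le
    refine le_trans ?_ h2
    rw [← Real.exp_add]
    apply Real.one_le_exp
    have h3 : κ * l ≤ |κ| * l₀ := by
      have h4 : (l : ℝ) ≤ l₀ := by exact_mod_cast hl.le
      calc κ * l ≤ |κ| * l := mul_le_mul_of_nonneg_right (le_abs_self κ) (Nat.cast_nonneg _)
        _ ≤ |κ| * l₀ := mul_le_mul_of_nonneg_left h4 (abs_nonneg κ)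
    linarith

end Inf
end FA
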