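import Pool.Agent.Helper870.FADefs
import Pool.Agent.Helper870.FAG1
import Pool.Agent.Helper870.FAG5
import Pool.Agent.Helper870.FAS1
import Pool.Agent.Helper870.FAS2
import Pool.Agent.Helper870.FAS3
import Pool.Agent.Helper870.FAS5
import Pool.Agent.Helper870.FAD2
import Pool.Agent.Helper870.FAR1
import Pool.Agent.Helper870.FAG6
import Pool.Agent.Helper870.FAD3
import Pool.Agent.Helper870.FAS10
import Pool.Agent.Helper870.FAD4
import Pool.Agent.Helper870.FAD5
import Pool.Agent.Helper870.FAD9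

set_option autoImplicit false
set_option linter.unusedSectionVars false

open Finset

noncomputable section

-- USES: G1 G5 S1 S2 S3 S5 D2 R1 G6 D3 S10 D4 D5 D9
namespace FA
variable {q : ℝ}

theorem kw_adm0 (hL hR : Bool) (a b : ℤ) : Adm0 a b (kw hL hR a b) := by
  constructor
  · intro x hx S
    unfold cst kv kw
    by_cases h : (x - 1 ∈ Icc a b ∧ x - 1 ∈ S) ∨ (x + 1 ∈ Icc a b ∧ x + 1 ∈ S)
    · rw [if_pos h, if_pos]
      rw [decide_eq_true_iff]
      rcases h with h | h
      · exact Or.inl h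
      · exact Or.inr (Or.inl h)
    · rw [if_neg h]
      split_ifs <;> norm_num
  · intro x hx S
    unfold kw
    rw [decide_eq_decide]
    simp only [Finset.mem_inter]
    tauto
  · intro x hx S
    unfold kw
    rw [decide_eq_decide]
    have h1 : x - 1 ≠ x := by omega
    have h2 : x + 1 ≠ x := by omega
    simp only [Finset.mem_insert, Finset.mem_erase, h1, h2, false_or, ne_eq, not_false_eq_true,
      true_and]
  · intro x hax hxb S
    unfold cst kv kw
    have h1 : x ≠ a := by omega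
    have h2 : x ≠ b := by omega
    simp only [h1, h2, false_and, or_false, decide_eq_true_eq]
  · intro x hx y hy S hne
    by_contra hcon
    push Not at hcon
    apply hne
    unfold kw
    rw [decide_eq_decide]
    have h0 := hcon.1
    have h1 : x - 1 ≠ y := by
      intro h
      apply h0
      rw [← h]
      have : x - (x - 1) = 1 := by ring
      rw [this, abs_one]
    have h2 : x + 1 ≠ y := by
      intro h
      apply h0
      rw [← h]
      have : x - (x + 1) = -1 := by ring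
      rw [this, abs_neg, abs_one]
    simp only [Finset.mem_insert, Finset.mem_erase, h1, h2, false_or, ne_eq, not_false_eq_true,
      true_and]

theorem kw_box (a b : ℤ) : kw false false a b = kbox a b := by
  funext x S
  unfold kw kbox
  rw [decide_eq_decide]
  simp only [Bool.false_eq_true, and_false, or_false]

theorem wG_rev (h0 : 0 < q) (h1 : q < 1) (hL hR : Bool) (a b : ℤ) (hab : a + 2 ≤ b) :
    Rev (wG q h0 h1 hL hR a b) (wm q h0 h1 hL hR a b (by linarith)) := by
  unfold wG wm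
  by_cases h : (hL || hR) = true
  · rw [if_pos h]
    exact rev_kG h0 h1 (Icc a b) _ (kw_adm0 hL hR a b).self
  · rw [if_neg h]
    have hL' : hL = false := by
      cases hL
      · rfl
      · simp at h
    have hR' : hR = false := by
      cases hR
      · rfl
      · simp at h
    subst hL' hR'
    rw [kw_box]
    exact adm_rev h0 h1 a b (by linarith) (kbox a b) (adm_box a b hab)

theorem K1_E_true (h0 : 0 < q) (h1 : q < 1) (A : Finset ℤ)
    (hC : ∃ S ∈ (pfm q h0 h1 A).s, (fun _ : Finset ℤ => True) S) (F : Finset ℤ → ℝ) :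
    ((pfm q h0 h1 A).cond (fun _ => True) hC).E F = (pfm q h0 h1 A).E F := by
  rw [FM.cond_E]
  simp only [if_true]
  have h2 : (pfm q h0 h1 A).E (fun _ => 1) = 1 := by
    unfold FM.E
    simp only [mul_one]
    exact (pfm q h0 h1 A).hone
  rw [h2, div_one]

theorem K1_dir (h0 : 0 < q) (h1 : q < 1) (A : Finset ℤ) (k : ℤ → Finset ℤ → Bool)
    (hself : ∀ x ∈ A, ∀ S, k x (insert x S) = k x (S.erase x)) (F : Finset ℤ → ℝ) :
    (pfm q h0 h1 A).E (fun S => ∑ x ∈ A, kv k x S * vx q x F S) ≤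
      Dir (kG q h0.le h1.le A k) (pfm q h0 h1 A) F := by
  have hC : ∃ S ∈ (pfm q h0 h1 A).s, (fun _ : Finset ℤ => True) S :=
    ⟨∅, Finset.mem_powerset.2 (Finset.empty_subset A), trivial⟩
  have h2 := dir_cond_ge h0 h1 A k hself (fun _ => True) hC
    (fun _ _ _ _ _ _ => ⟨trivial, trivial⟩)
    (kv k) (fun x S => by unfold kv; split_ifs <;> simp)
    (fun x hx S => by unfold kv; rw [hself x hx S])
    (fun x _ S _ _ h3 => ⟨by
      unfold kv at h3
      by_contra h4
      rw [if_neg h4] at h3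
      norm_num at h3, trivial, trivial⟩) F
  unfold Dir at h2 ⊢
  rw [K1_E_true h0 h1 A hC, K1_E_true h0 h1 A hC] at h2
  exact h2

theorem K1_var (h0 : 0 < q) (h1 : q < 1) (A : Finset ℤ) (F : Finset ℤ → ℝ) :
    (pfm q h0 h1 A).Var F = va q A F ∅ := by
  unfold FM.Var va
  rw [pfm_E, pfm_E, EA_eq_av, EA_eq_av]

theorem K1_Emono (h0 : 0 < q) (h1 : q < 1) (A : Finset ℤ) (F H : Finset ℤ → ℝ)
    (h : ∀ S ⊆ A, F S ≤ H S) : (pfm q h0 h1 A).E F ≤ (pfm q h0 h1 A).E H := by
  unfold FM.E
  refine Finset.sum_le_sum fun S hS => ?_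
  exact mul_le_mul_of_nonneg_left (h S (Finset.mem_powerset.1 hS)) ((pfm q h0 h1 A).hw S hS).le

theorem K1_left (h0 : 0 < q) (h1 : q < 1) (C : ℝ) (hC : 0 < C)
    (hE : ∀ a b : ℤ, ∀ (F : Finset ℤ → ℝ) (S : Finset ℤ),
      va q (Icc a b) F S ≤ C * av q (Icc a b) (fun T => ∑ y ∈ Icc a b, ce a y T * vx q y F T) S)
    (hR : Bool) (a b : ℤ) (F : Finset ℤ → ℝ) :
    (pfm q h0 h1 (Icc a b)).Var F ≤
      C * Dir (kG q h0.le h1.le (Icc a b) (kw true hR a b)) (pfm q h0 h1 (Icc a b)) F := by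
  rw [K1_var]
  refine (hE a b F ∅).trans ?_
  refine mul_le_mul_of_nonneg_left ?_ hC.le
  rw [← EA_eq_av, ← pfm_E q h0 h1]
  refine le_trans ?_ (K1_dir h0 h1 (Icc a b) (kw true hR a b) (kw_adm0 true hR a b).self F)
  refine K1_Emono h0 h1 _ _ _ fun S hS => Finset.sum_le_sum fun y hy => ?_
  have hv : 0 ≤ vx q y F S := by
    unfold vx
    have := mul_pos h0 (sub_pos.mpr h1)
    positivity
  refine mul_le_mul_of_nonneg_right ?_ hv
  unfold ce kv kw
  by_cases h : y = a ∨ y - 1 ∈ S
  · rw [if_pos h, if_pos]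
    rw [decide_eq_true_iff]
    rcases h with h | h
    · exact Or.inr (Or.inr (Or.inl ⟨h, rfl⟩))
    · exact Or.inl ⟨hS h, h⟩
  · rw [if_neg h]
    split_ifs <;> norm_num

theorem K1_rf_mem (a b x : ℤ) (S : Finset ℤ) : x ∈ rf a b S ↔ a + b - x ∈ S := by
  unfold rf
  rw [Finset.mem_image]
  constructor
  · rintro ⟨y, hy, rfl⟩
    have : a + b - (a + b - y) = y := by ring
    rw [this]
    exact hy
  · intro h
    exact ⟨a + b - x, h, by ring⟩

theorem K1_rf_rf (a b : ℤ) (S : Finset ℤ) : rf a b (rf a b S) = S := by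
  ext x
  rw [K1_rf_mem, K1_rf_mem]
  have : a + b - (a + b - x) = x := by ring
  rw [this]

theorem K1_rf_sub (a b : ℤ) (S : Finset ℤ) (hS : S ⊆ Icc a b) : rf a b S ⊆ Icc a b := by
  intro x hx
  rw [K1_rf_mem] at hx
  have h1 := Finset.mem_Icc.1 (hS hx)
  rw [Finset.mem_Icc]
  constructor <;> omega

theorem K1_rf_card (a b : ℤ) (S : Finset ℤ) : (rf a b S).card = S.card := by
  unfold rf
  apply Finset.card_image_of_injective
  intro x y hxy
  simp only at hxy
  omega

theorem K1_rf_wt (a b : ℤ) (S : Finset ℤ) :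
    wt q (Icc a b) (rf a b S) = wt q (Icc a b) S := by
  unfold wt
  have h1 : Icc a b ∩ rf a b S = rf a b (Icc a b ∩ S) := by
    ext x
    rw [Finset.mem_inter, K1_rf_mem, K1_rf_mem, Finset.mem_inter, Finset.mem_Icc, Finset.mem_Icc]
    constructor
    · rintro ⟨⟨h1, h2⟩, h3⟩
      exact ⟨⟨by omega, by omega⟩, h3⟩
    · rintro ⟨⟨h1, h2⟩, h3⟩
      exact ⟨⟨by omega, by omega⟩, h3⟩
  have h2 : Icc a b \ rf a b S = rf a b (Icc a b \ S) := by
    ext x
    rw [Finset.mem_sdiff, K1_rf_mem, K1_rf_mem, Finset.mem_sdiff, Finset.mem_Icc, Finset.mem_Icc]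
    constructor
    · rintro ⟨⟨h1, h2⟩, h3⟩
      exact ⟨⟨by omega, by omega⟩, h3⟩
    · rintro ⟨⟨h1, h2⟩, h3⟩
      exact ⟨⟨by omega, by omega⟩, h3⟩
  rw [h1, h2, K1_rf_card, K1_rf_card]

theorem K1_rf_E (h0 : 0 < q) (h1 : q < 1) (a b : ℤ) (F : Finset ℤ → ℝ) :
    (pfm q h0 h1 (Icc a b)).E (fun S => F (rf a b S)) = (pfm q h0 h1 (Icc a b)).E F := by
  unfold FM.E
  refine Finset.sum_nbij' (rf a b) (rf a b) ?_ ?_ ?_ ?_ ?_
  · intro S hS
    exact Finset.mem_powerset.2 (K1_rf_sub a b S (Finset.mem_powerset.1 hS))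
  · intro S hS
    exact Finset.mem_powerset.2 (K1_rf_sub a b S (Finset.mem_powerset.1 hS))
  · intro S _
    exact K1_rf_rf a b S
  · intro S _
    exact K1_rf_rf a b S
  · intro S _
    show wt q (Icc a b) S * F (rf a b S) = wt q (Icc a b) (rf a b S) * F (rf a b S)
    rw [K1_rf_wt]

theorem K1_rf_vx (a b y : ℤ) (F : Finset ℤ → ℝ) (T : Finset ℤ) :
    vx q y (fun S => F (rf a b S)) T = vx q (a + b - y) F (rf a b T) := by
  unfold vx
  have h1 : rf a b (insert y T) = insert (a + b - y) (rf a b T) := by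
    ext x
    rw [K1_rf_mem, Finset.mem_insert, Finset.mem_insert, K1_rf_mem]
    constructor
    · rintro (h | h)
      · exact Or.inl (by omega)
      · exact Or.inr h
    · rintro (h | h)
      · exact Or.inl (by omega)
      · exact Or.inr h
  have h2 : rf a b (T.erase y) = (rf a b T).erase (a + b - y) := by
    ext x
    rw [K1_rf_mem, Finset.mem_erase, Finset.mem_erase, K1_rf_mem]
    constructor
    · rintro ⟨h, h'⟩
      exact ⟨by omega, h'⟩
    · rintro ⟨h, h'⟩
      exact ⟨by omega, h'⟩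
  simp only [h1, h2]

theorem K1_right (h0 : 0 < q) (h1 : q < 1) (C : ℝ) (hC : 0 < C)
    (hE : ∀ a b : ℤ, ∀ (F : Finset ℤ → ℝ) (S : Finset ℤ),
      va q (Icc a b) F S ≤ C * av q (Icc a b) (fun T => ∑ y ∈ Icc a b, ce a y T * vx q y F T) S)
    (hL : Bool) (a b : ℤ) (F : Finset ℤ → ℝ) :
    (pfm q h0 h1 (Icc a b)).Var F ≤
      C * Dir (kG q h0.le h1.le (Icc a b) (kw hL true a b)) (pfm q h0 h1 (Icc a b)) F := by
  have hvar : (pfm q h0 h1 (Icc a b)).Var F =
      (pfm q h0 h1 (Icc a b)).Var (fun S => F (rf a b S)) := by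
    unfold FM.Var
    rw [K1_rf_E h0 h1 a b F, K1_rf_E h0 h1 a b (fun S => F S ^ 2)]
  rw [hvar, K1_var]
  refine (hE a b (fun S => F (rf a b S)) ∅).trans ?_
  refine mul_le_mul_of_nonneg_left ?_ hC.le
  rw [← EA_eq_av, ← pfm_E q h0 h1]
  refine le_trans ?_ (K1_dir h0 h1 (Icc a b) (kw hL true a b) (kw_adm0 hL true a b).self F)
  rw [← K1_rf_E h0 h1 a b (fun S => ∑ x ∈ Icc a b, kv (kw hL true a b) x S * vx q x F S)]
  refine K1_Emono h0 h1 _ _ _ fun S hS => ?_
  have hsum : ∑ x ∈ Icc a b, kv (kw hL true a b) x (rf a b S) * vx q x F (rf a b S) =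
      ∑ y ∈ Icc a b, kv (kw hL true a b) (a + b - y) (rf a b S) *
        vx q (a + b - y) F (rf a b S) := by
    refine Finset.sum_nbij' (fun x => a + b - x) (fun x => a + b - x) ?_ ?_ ?_ ?_ ?_
    · intro x hx
      rw [Finset.mem_Icc] at hx ⊢
      constructor <;> omega
    · intro x hx
      rw [Finset.mem_Icc] at hx ⊢
      constructor <;> omega
    · intro x _
      ring
    · intro x _
      ring
    · intro x _
      have : a + b - (a + b - x) = x := by ring
      simp only [this]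
  rw [hsum]
  refine Finset.sum_le_sum fun y hy => ?_
  rw [K1_rf_vx]
  have hv : 0 ≤ vx q (a + b - y) F (rf a b S) := by
    unfold vx
    have := mul_pos h0 (sub_pos.mpr h1)
    positivity
  refine mul_le_mul_of_nonneg_right ?_ hv
  unfold ce kv kw
  by_cases h : y = a ∨ y - 1 ∈ S
  · rw [if_pos h, if_pos]
    rw [decide_eq_true_iff]
    rcases h with h | h
    · exact Or.inr (Or.inr (Or.inr ⟨by omega, rfl⟩))
    · refine Or.inr (Or.inl ⟨?_, ?_⟩)
      · have h3 := Finset.mem_Icc.1 (hS h)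
        rw [Finset.mem_Icc]
        constructor <;> omega
      · rw [K1_rf_mem]
        have : a + b - (a + b - y + 1) = y - 1 := by ring
        rw [this]
        exact h
  · rw [if_neg h]
    split_ifs <;> norm_num

/-- uniform Poincare inequality for all boundary conditions -/
theorem wG_gap (h0 : 0 < q) (h1 : q < 1) : ∃ C : ℝ, 0 < C ∧ ∀ (hL hR : Bool) (a b : ℤ) (hab : a + 2 ≤ b)
    (F : Finset ℤ → ℝ), (wm q h0 h1 hL hR a b (by linarith)).Var F ≤
      C * Dir (wG q h0 h1 hL hR a b) (wm q h0 h1 hL hR a b (by linarith)) F := by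
  obtain ⟨C0, hC0, hgap⟩ := adm_gap h0 h1
  obtain ⟨C1, hC1, hE⟩ := east_gap h0 h1
  have henl : ∀ (c C' : ℝ) (G : MG (Finset ℤ)) (m : FM (Finset ℤ)) (F : Finset ℤ → ℝ),
      0 < c → c ≤ C' → m.Var F ≤ c * Dir G m F → m.Var F ≤ C' * Dir G m F := by
    intro c C' G m F hc hcC h
    have h2 : 0 ≤ c * Dir G m F := (var_nonneg m F).trans h
    have h3 : 0 ≤ Dir G m F := by
      by_contra h4
      push Not at h4
      nlinarith
    exact h.trans (mul_le_mul_of_nonneg_right hcC h3)
  refine ⟨C0 + C1, by linarith, ?_⟩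
  intro hL hR a b hab F
  unfold wG wm
  by_cases h : (hL || hR) = true
  · rw [if_pos h]
    apply henl C1 (C0 + C1) _ _ F hC1 (by linarith)
    cases hL
    · cases hR
      · simp at h
      · exact K1_right h0 h1 C1 hC1 hE false a b F
    · exact K1_left h0 h1 C1 hC1 hE hR a b F
  · rw [if_neg h]
    have hL' : hL = false := by
      cases hL
      · rfl
      · simp at h
    have hR' : hR = false := by
      cases hR
      · rfl
      · simp at h
    subst hL' hR'
    rw [kw_box]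
    apply henl C0 (C0 + C1) _ _ F hC0 (by linarith)
    exact hgap a b (by linarith) (kbox a b) (adm_box a b hab) F

end FA
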