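import Pool.Agent.Helper870.FADefs
import Pool.Agent.Helper870.FAG1
import Pool.Agent.Helper870.FAS1
import Pool.Agent.Helper870.FAS2
import Pool.Agent.Helper870.FAS3
import Pool.Agent.Helper870.FAD2
import Pool.Agent.Helper870.FAS10
import Pool.Agent.Helper870.FAD4
import Pool.Agent.Helper870.FAD5
import Pool.Agent.Helper870.FAD9

set_option autoImplicit false
set_option linter.unusedSectionVars false

open Finset

noncomputable section

-- USES: G1 S1 S2 S3 D2 S10 D4 D5 D9
namespace FA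
variable {q : ℝ}

theorem rf_mem (a b x : ℤ) (S : Finset ℤ) : x ∈ rf a b S ↔ a + b - x ∈ S := by
  unfold rf
  rw [Finset.mem_image]
  constructor
  · rintro ⟨y, hy, rfl⟩
    have : a + b - (a + b - y) = y := by ring
    rw [this]; exact hy
  · intro h
    exact ⟨a + b - x, h, by ring⟩

theorem rf_rf (a b : ℤ) (S : Finset ℤ) : rf a b (rf a b S) = S := by
  ext x
  rw [rf_mem, rf_mem]
  have : a + b - (a + b - x) = x := by ring
  rw [this]

theorem rf_sub (a b : ℤ) (S : Finset ℤ) (hS : S ⊆ Icc a b) : rf a b S ⊆ Icc a b := by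
  intro x hx
  rw [rf_mem] at hx
  have := hS hx
  rw [Finset.mem_Icc] at this ⊢
  omega

theorem rf_insert' (a b x : ℤ) (S : Finset ℤ) :
    rf a b (insert x S) = insert (a + b - x) (rf a b S) := by
  ext y
  rw [rf_mem, Finset.mem_insert, Finset.mem_insert, rf_mem]
  have : a + b - y = x ↔ y = a + b - x := by constructor <;> intro h <;> omega
  rw [this]

theorem rf_erase' (a b x : ℤ) (S : Finset ℤ) :
    rf a b (S.erase x) = (rf a b S).erase (a + b - x) := by
  ext y
  rw [rf_mem, Finset.mem_erase, Finset.mem_erase, rf_mem]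
  have : a + b - y = x ↔ y = a + b - x := by constructor <;> intro h <;> omega
  exact and_congr_left' (not_congr this)

theorem rf_kw' (hL hR : Bool) (a b x : ℤ) (S : Finset ℤ) :
    kw hL hR a b x S = kw hR hL a b (a + b - x) (rf a b S) := by
  unfold kw
  rw [decide_eq_decide]
  rw [rf_mem, rf_mem]
  have e1 : a + b - (a + b - x - 1) = x + 1 := by ring
  have e2 : a + b - (a + b - x + 1) = x - 1 := by ring
  rw [e1, e2]
  have m1 : a + b - x - 1 ∈ Icc a b ↔ x + 1 ∈ Icc a b := by
    rw [Finset.mem_Icc, Finset.mem_Icc]; omega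
  have m2 : a + b - x + 1 ∈ Icc a b ↔ x - 1 ∈ Icc a b := by
    rw [Finset.mem_Icc, Finset.mem_Icc]; omega
  have m3 : a + b - x = a ↔ x = b := by omega
  have m4 : a + b - x = b ↔ x = a := by omega
  rw [m1, m2, m3, m4]
  tauto

/-- reflection symmetry -/
theorem wG_refl (h0 : 0 < q) (h1 : q < 1) (hL hR : Bool) (a b : ℤ) (F : Finset ℤ → ℝ) (t : ℝ)
    (S : Finset ℤ) :
    (wG q h0 h1 hL hR a b).P t (fun T => F (rf a b T)) S = (wG q h0 h1 hR hL a b).P t F (rf a b S) := by
  apply MG.P_map (wG q h0 h1 hL hR a b) (wG q h0 h1 hR hL a b) (rf a b) F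
  intro F' T
  unfold wG
  rw [kG_L, kG_L]
  unfold genK
  apply Finset.sum_nbij' (fun x => a + b - x) (fun x => a + b - x)
  · intro x hx
    rw [Finset.mem_Icc] at hx ⊢
    omega
  · intro x hx
    rw [Finset.mem_Icc] at hx ⊢
    omega
  · intro x _
    ring
  · intro x _
    ring
  · intro x _
    beta_reduce
    rw [rf_insert', rf_erase']
    have : kv (kw hL hR a b) x T = kv (kw hR hL a b) (a + b - x) (rf a b T) := by
      unfold kv
      rw [rf_kw']
    rw [this]

theorem rf_card' (a b : ℤ) (S : Finset ℤ) : (rf a b S).card = S.card := by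
  unfold rf
  apply Finset.card_image_of_injective
  intro x y h
  simp only at h
  omega

theorem rf_wt' (q : ℝ) (a b : ℤ) (U : Finset ℤ) :
    wt q (Icc a b) (rf a b U) = wt q (Icc a b) U := by
  unfold wt
  have e1 : Icc a b ∩ rf a b U = rf a b (Icc a b ∩ U) := by
    ext x
    rw [rf_mem, Finset.mem_inter, Finset.mem_inter, rf_mem, Finset.mem_Icc, Finset.mem_Icc]
    constructor
    · rintro ⟨h, h'⟩
      exact ⟨by omega, h'⟩
    · rintro ⟨h, h'⟩
      exact ⟨by omega, h'⟩
  have e2 : Icc a b \ rf a b U = rf a b (Icc a b \ U) := by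
    ext x
    rw [rf_mem, Finset.mem_sdiff, Finset.mem_sdiff, rf_mem, Finset.mem_Icc, Finset.mem_Icc]
    constructor
    · rintro ⟨h, h'⟩
      exact ⟨by omega, h'⟩
    · rintro ⟨h, h'⟩
      exact ⟨by omega, h'⟩
  rw [e1, e2, rf_card', rf_card']

theorem rf_nonempty' (a b : ℤ) (S : Finset ℤ) : (rf a b S).Nonempty ↔ S.Nonempty := by
  unfold rf
  exact Finset.image_nonempty

theorem EA_rf' (q : ℝ) (a b : ℤ) (F : Finset ℤ → ℝ) :
    EA q (Icc a b) (fun T => F (rf a b T)) = EA q (Icc a b) F := by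
  unfold EA
  apply Finset.sum_nbij' (rf a b) (rf a b)
  · intro U hU
    rw [Finset.mem_powerset] at hU ⊢
    exact rf_sub a b U hU
  · intro U hU
    rw [Finset.mem_powerset] at hU ⊢
    exact rf_sub a b U hU
  · intro U _
    exact rf_rf a b U
  · intro U _
    exact rf_rf a b U
  · intro U _
    rw [rf_wt']

theorem EN_rf' (q : ℝ) (a b : ℤ) (F : Finset ℤ → ℝ) :
    EN q (Icc a b) (fun T => F (rf a b T)) = EN q (Icc a b) F := by
  unfold EN
  congr 1
  apply Finset.sum_nbij' (rf a b) (rf a b)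
  · intro U hU
    rw [Finset.mem_filter, Finset.mem_powerset] at hU ⊢
    exact ⟨rf_sub a b U hU.1, (rf_nonempty' a b U).2 hU.2⟩
  · intro U hU
    rw [Finset.mem_filter, Finset.mem_powerset] at hU ⊢
    exact ⟨rf_sub a b U hU.1, (rf_nonempty' a b U).2 hU.2⟩
  · intro U _
    exact rf_rf a b U
  · intro U _
    exact rf_rf a b U
  · intro U _
    rw [rf_wt']

theorem nfm_E' (h0 : 0 < q) (h1 : q < 1) (A : Finset ℤ) (hA : A.Nonempty) (F : Finset ℤ → ℝ) :
    (nfm q h0 h1 A hA).E F = EN q A F := by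
  classical
  unfold nfm
  rw [FM.cond_E, pfm_E, pfm_E]
  unfold EN EA
  simp only [mul_ite, mul_zero, mul_one]
  rw [← Finset.sum_filter, ← Finset.sum_filter]
  congr 1
  unfold Zn
  have h2 := Finset.sum_filter_add_sum_filter_not A.powerset (fun U : Finset ℤ => U.Nonempty)
    (wt q A)
  have h3 : A.powerset.filter (fun U : Finset ℤ => ¬ U.Nonempty) = {∅} := by
    ext U
    simp only [Finset.mem_filter, Finset.mem_powerset, Finset.not_nonempty_iff_eq_empty,
      Finset.mem_singleton]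
    constructor
    · exact fun h => h.2
    · rintro rfl
      exact ⟨Finset.empty_subset _, rfl⟩
  rw [h3, Finset.sum_singleton, wt_sum] at h2
  have h4 : wt q A ∅ = (1 - q) ^ A.card := by
    unfold wt
    simp
  rw [h4] at h2
  linarith

theorem wm_E (h0 : 0 < q) (h1 : q < 1) (hL hR : Bool) (a b : ℤ) (hab : a ≤ b) (F : Finset ℤ → ℝ) :
    (wm q h0 h1 hL hR a b hab).E F = if (hL || hR) = true then EA q (Icc a b) F else EN q (Icc a b) F := by
  unfold wm
  split_ifs with h
  · exact pfm_E q h0 h1 _ F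
  · exact nfm_E' h0 h1 _ _ F

/-- reflection of the stationary laws -/
theorem wm_refl (h0 : 0 < q) (h1 : q < 1) (hL hR : Bool) (a b : ℤ) (hab : a ≤ b) (F : Finset ℤ → ℝ) :
    (wm q h0 h1 hL hR a b hab).E (fun T => F (rf a b T)) = (wm q h0 h1 hR hL a b hab).E F := by
  rw [wm_E, wm_E, Bool.or_comm hR hL, EA_rf', EN_rf']

/-- nonempty configurations stay nonempty when both walls are healthy -/
theorem Okw_closed (h0 : 0 < q) (h1 : q < 1) (hL hR : Bool) (a b : ℤ) :
    ∀ i ∈ (wG q h0 h1 hL hR a b).I, ∀ x ∈ {S : Finset ℤ | S ⊆ Icc a b ∧ Okw hL hR S},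
      (wG q h0 h1 hL hR a b).r i x ≠ 0 → (wG q h0 h1 hL hR a b).T i x ∈ {S : Finset ℤ | S ⊆ Icc a b ∧ Okw hL hR S} := by
  intro i hi S hS hr
  obtain ⟨x, β⟩ := i
  have hx : x ∈ Icc a b := (Finset.mem_product.1 hi).1
  have hr' : kv (kw hL hR a b) x S ≠ 0 := left_ne_zero_of_mul hr
  have hk : kw hL hR a b x S = true := by
    by_contra hk
    apply hr'
    unfold kv
    rw [if_neg hk]
  obtain ⟨hS1, hS2⟩ := hS
  cases β with
  | true =>
    change insert x S ⊆ Icc a b ∧ Okw hL hR (insert x S)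
    exact ⟨Finset.insert_subset hx hS1, Or.inr (Finset.insert_nonempty x S)⟩
  | false =>
    change S.erase x ⊆ Icc a b ∧ Okw hL hR (S.erase x)
    refine ⟨(Finset.erase_subset x S).trans hS1, ?_⟩
    by_cases hLR : (hL || hR) = true
    · exact Or.inl hLR
    · right
      unfold kw at hk
      rw [decide_eq_true_eq] at hk
      rcases hk with h | h | h | h
      · exact ⟨x - 1, Finset.mem_erase.2 ⟨by omega, h.2⟩⟩
      · exact ⟨x + 1, Finset.mem_erase.2 ⟨by omega, h.2⟩⟩
      · exact absurd (by simp [h.2]) hLR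
      · exact absurd (by simp [h.2]) hLR

end FA
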