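import Pool.Agent.Helper870.FADefs
import Pool.Agent.Helper870.FAG1
import Pool.Agent.Helper870.FAS1
import Pool.Agent.Helper870.FAS2
import Pool.Agent.Helper870.FAS3
import Pool.Agent.Helper870.FAS6
import Pool.Agent.Helper870.FAS10
import Pool.Agent.Helper870.FAD2
import Pool.Agent.Helper870.FAR1
import Pool.Agent.Helper870.FAG6
import Pool.Agent.Helper870.FAD3
import Pool.Agent.Helper870.FAD4
import Pool.Agent.Helper870.FAD5
import Pool.Agent.Helper870.FAD8

set_option autoImplicit false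
set_option linter.unusedSectionVars false

open Finset

noncomputable section

-- USES: G1 S1 S2 S3 S6 S10 D2 R1 G6 D3 D4 D5 D8
namespace FA
variable {q : ℝ}

theorem rot_eq16 {a b m x y k : ℤ} (h1 : a ≤ y) (h2 : y ≤ b) (h : y = x + m + k * (b - a + 1)) :
    rot a b m x = y := by
  unfold rot
  have h3 : x - a + m = (y - a) + (-k) * (b - a + 1) := by rw [h]; ring
  rw [h3, Int.add_mul_emod_self_right, Int.emod_eq_of_lt (by linarith) (by linarith)]
  ring

theorem rot_ex16 (a b m x : ℤ) : ∃ k : ℤ, rot a b m x = x + m + k * (b - a + 1) := by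
  refine ⟨-((x - a + m) / (b - a + 1)), ?_⟩
  unfold rot
  rw [Int.emod_def]
  ring

theorem rot_mem16 {a b : ℤ} (m x : ℤ) (hab : a ≤ b) : a ≤ rot a b m x ∧ rot a b m x ≤ b := by
  unfold rot
  have hN : 0 < b - a + 1 := by linarith
  have h1 := Int.emod_nonneg (x - a + m) hN.ne'
  have h2 := Int.emod_lt_of_pos (x - a + m) hN
  constructor <;> linarith

theorem dT_rot (a b m z x : ℤ) (hz : z ∈ Icc a b) (hx : x ∈ Icc a b) :
    dT a b (rot a b m z) (rot a b m x) = dT a b z x := by
  rw [Finset.mem_Icc] at hz hx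
  obtain ⟨k, hk⟩ := rot_ex16 a b m z
  obtain ⟨l, hl⟩ := rot_ex16 a b m x
  have h1 := rot_mem16 m z (hz.1.trans hz.2)
  have h2 := rot_mem16 m x (hz.1.trans hz.2)
  have h3 : rot a b m z - rot a b m x = (z - x) + (k - l) * (b - a + 1) := by
    rw [hk, hl]; ring
  have hN : 0 < b - a + 1 := by linarith
  have h4 : k - l < 2 := by
    by_contra hc
    have : 2 * (b - a + 1) ≤ (k - l) * (b - a + 1) :=
      mul_le_mul_of_nonneg_right (not_lt.1 hc) hN.le
    linarith
  have h5 : -2 < k - l := by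
    by_contra hc
    have : (k - l) * (b - a + 1) ≤ -2 * (b - a + 1) :=
      mul_le_mul_of_nonneg_right (not_lt.1 hc) hN.le
    linarith
  unfold dT
  have h6 : k - l = -1 ∨ k - l = 0 ∨ k - l = 1 := by omega
  rcases h6 with h6 | h6 | h6 <;> rw [h6] at h3 <;> omega

theorem dT_tri (a b x y z : ℤ) (hx : x ∈ Icc a b) (hy : y ∈ Icc a b) (hz : z ∈ Icc a b) :
    dT a b x z ≤ dT a b x y + dT a b y z := by
  rw [Finset.mem_Icc] at hx hy hz
  unfold dT
  omega

theorem rot_mem (a b m x : ℤ) (hx : x ∈ Icc a b) : rot a b m x ∈ Icc a b := by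
  rw [Finset.mem_Icc] at hx ⊢
  exact rot_mem16 m x (hx.1.trans hx.2)

theorem rot_inj (a b m x y : ℤ) (hx : x ∈ Icc a b) (hy : y ∈ Icc a b) (h : rot a b m x = rot a b m y) :
    x = y := by
  rw [Finset.mem_Icc] at hx hy
  obtain ⟨k, hk⟩ := rot_ex16 a b m x
  obtain ⟨l, hl⟩ := rot_ex16 a b m y
  rw [hk, hl] at h
  have hN : 0 < b - a + 1 := by linarith
  have h3 : x - y = (l - k) * (b - a + 1) := by linarith
  have h4 : l - k < 1 := by
    by_contra hc
    have : 1 * (b - a + 1) ≤ (l - k) * (b - a + 1) :=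
      mul_le_mul_of_nonneg_right (not_lt.1 hc) hN.le
    linarith
  have h5 : -1 < l - k := by
    by_contra hc
    have : (l - k) * (b - a + 1) ≤ -1 * (b - a + 1) :=
      mul_le_mul_of_nonneg_right (not_lt.1 hc) hN.le
    linarith
  have h6 : l - k = 0 := by omega
  rw [h6, zero_mul] at h3
  linarith

theorem rot_pr16 (a b m x : ℤ) (hx : x ∈ Icc a b) : pr a b (rot a b m x) = rot a b m (pr a b x) := by
  rw [Finset.mem_Icc] at hx
  obtain ⟨k, hk⟩ := rot_ex16 a b m x
  have h1 := rot_mem16 m x (hx.1.trans hx.2)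
  symm
  unfold pr
  split_ifs with h2 h3 h3
  · apply rot_eq16 (k := k) (by linarith) le_rfl
    linarith
  · apply rot_eq16 (k := k - 1) (by omega) (by omega)
    have : (k - 1) * (b - a + 1) = k * (b - a + 1) - (b - a + 1) := by ring
    linarith
  · apply rot_eq16 (k := k + 1) (by linarith) le_rfl
    have : (k + 1) * (b - a + 1) = k * (b - a + 1) + (b - a + 1) := by ring
    linarith
  · apply rot_eq16 (k := k) (by omega) (by omega)
    linarith

theorem rot_sc16 (a b m x : ℤ) (hx : x ∈ Icc a b) : sc a b (rot a b m x) = rot a b m (sc a b x) := by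
  rw [Finset.mem_Icc] at hx
  obtain ⟨k, hk⟩ := rot_ex16 a b m x
  have h1 := rot_mem16 m x (hx.1.trans hx.2)
  symm
  unfold sc
  split_ifs with h2 h3 h3
  · apply rot_eq16 (k := k) le_rfl (by linarith)
    linarith
  · apply rot_eq16 (k := k + 1) (by omega) (by omega)
    have : (k + 1) * (b - a + 1) = k * (b - a + 1) + (b - a + 1) := by ring
    linarith
  · apply rot_eq16 (k := k - 1) le_rfl (by linarith)
    have : (k - 1) * (b - a + 1) = k * (b - a + 1) - (b - a + 1) := by ring
    linarith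
  · apply rot_eq16 (k := k) (by omega) (by omega)
    linarith

theorem mem_rotS16 (a b m x : ℤ) (hx : x ∈ Icc a b) (S : Finset ℤ) :
    rot a b m x ∈ rotS a b m S ↔ x ∈ S := by
  unfold rotS
  rw [Finset.mem_image]
  constructor
  · rintro ⟨y, hy, hyx⟩
    rw [Finset.mem_inter] at hy
    rw [← rot_inj a b m y x hy.2 hx hyx]
    exact hy.1
  · intro h
    exact ⟨x, Finset.mem_inter.2 ⟨h, hx⟩, rfl⟩

theorem rotS_insert16 (a b m x : ℤ) (hx : x ∈ Icc a b) (S : Finset ℤ) :
    rotS a b m (insert x S) = insert (rot a b m x) (rotS a b m S) := by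
  unfold rotS
  rw [Finset.insert_inter_of_mem hx, Finset.image_insert]

theorem rotS_erase16 (a b m x : ℤ) (hx : x ∈ Icc a b) (S : Finset ℤ) :
    rotS a b m (S.erase x) = (rotS a b m S).erase (rot a b m x) := by
  ext y
  unfold rotS
  simp only [Finset.mem_image, Finset.mem_erase, Finset.mem_inter]
  constructor
  · rintro ⟨z, ⟨⟨hzx, hzS⟩, hzI⟩, rfl⟩
    exact ⟨fun h => hzx (rot_inj a b m z x hzI hx h), z, ⟨hzS, hzI⟩, rfl⟩
  · rintro ⟨hne, z, ⟨hzS, hzI⟩, rfl⟩
    exact ⟨z, ⟨⟨fun h => hne (by rw [h]), hzS⟩, hzI⟩, rfl⟩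

/-- rotation invariance of the periodic dynamics -/
theorem rot_P (h0 : 0 ≤ q) (h1 : q ≤ 1) (a b m : ℤ) (hab : a + 2 ≤ b) (F : Finset ℤ → ℝ) (t : ℝ) (S : Finset ℤ) :
    (kG q h0 h1 (Icc a b) (ktor a b)).P t (fun T => F (rotS a b m T)) S =
      (kG q h0 h1 (Icc a b) (ktor a b)).P t F (rotS a b m S) := by
  apply MG.P_map
  intro F' S
  rw [kG_L, kG_L]
  unfold genK
  have hprI : ∀ x ∈ Icc a b, pr a b x ∈ Icc a b := by
    intro x hx
    rw [Finset.mem_Icc] at hx ⊢
    unfold pr
    split_ifs <;> omega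
  have hscI : ∀ x ∈ Icc a b, sc a b x ∈ Icc a b := by
    intro x hx
    rw [Finset.mem_Icc] at hx ⊢
    unfold sc
    split_ifs <;> omega
  apply Finset.sum_nbij (rot a b m)
  · exact fun x hx => rot_mem a b m x hx
  · intro x hx y hy h
    exact rot_inj a b m x y (Finset.mem_coe.1 hx) (Finset.mem_coe.1 hy) h
  · apply Finset.surjOn_of_injOn_of_card_le
    · intro x hx
      exact Finset.mem_coe.2 (rot_mem a b m x (Finset.mem_coe.1 hx))
    · intro x hx y hy h
      exact rot_inj a b m x y (Finset.mem_coe.1 hx) (Finset.mem_coe.1 hy) h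
    · exact le_rfl
  · intro x hx
    beta_reduce
    rw [rotS_insert16 a b m x hx, rotS_erase16 a b m x hx]
    have hk : kv (ktor a b) x S = kv (ktor a b) (rot a b m x) (rotS a b m S) := by
      unfold kv ktor
      rw [rot_pr16 a b m x hx, rot_sc16 a b m x hx]
      simp only [mem_rotS16 a b m _ (hprI x hx), mem_rotS16 a b m _ (hscI x hx)]
    rw [hk]

/-- the system with periodic boundary condition -/
def sysTor : Sys where
  k := ktor
  D := dT
  adm := adm_tor
  D1 := by
    intro a b z x _ _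
    unfold dT
    rw [← Int.natCast_natAbs]
    exact_mod_cast min_le_left _ _
  D2 := by
    intro a b z x r hz hx h1 h2 h3
    rw [Finset.mem_Icc] at hz hx
    rw [← Int.natCast_natAbs] at h3
    unfold dT
    omega

end FA
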