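import Pool.Agent.Helper870.FADefs
import Pool.Agent.Helper870.FAG1
import Pool.Agent.Helper870.FAS1
import Pool.Agent.Helper870.FAS3
import Pool.Agent.Helper870.FAD2
import Pool.Agent.Helper870.FAS6
import Pool.Agent.Helper870.FAR1
import Pool.Agent.Helper870.FAG6
import Pool.Agent.Helper870.FAD3

set_option autoImplicit false
set_option linter.unusedSectionVars false

open Finset

noncomputable section

-- USES: G1 S1 S3 D2 S6 R1 G6 D3
namespace FA
variable {q : ℝ}

theorem h15446_cl (h0 : 0 < q) (h1 : q < 1) (a b : ℤ) (k : ℤ → Finset ℤ → Bool) :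
    ∀ i ∈ (kG q h0.le h1.le (Icc a b) k).I, ∀ S ∈ {T : Finset ℤ | T ⊆ Icc a b},
      (kG q h0.le h1.le (Icc a b) k).r i S ≠ 0 →
        (kG q h0.le h1.le (Icc a b) k).T i S ∈ {T : Finset ℤ | T ⊆ Icc a b} := by
  rintro ⟨x, c⟩ hi S hS _
  have hx : x ∈ Icc a b := (Finset.mem_product.mp hi).1
  have hS' : S ⊆ Icc a b := hS
  show (if c = true then insert x S else S.erase x) ⊆ Icc a b
  cases c
  · simp only [Bool.false_eq_true, if_false]
    exact (Finset.erase_subset _ _).trans hS'
  · simp only [if_true]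
    exact Finset.insert_subset hx hS'

theorem h15446_cl2 (h0 : 0 < q) (h1 : q < 1) (a b : ℤ) (k : ℤ → Finset ℤ → Bool)
    (hk : Adm a b k) :
    ∀ i ∈ (kG q h0.le h1.le (Icc a b) k).I,
      ∀ S ∈ {T : Finset ℤ | T ⊆ Icc a b ∧ T.Nonempty},
      (kG q h0.le h1.le (Icc a b) k).r i S ≠ 0 →
        (kG q h0.le h1.le (Icc a b) k).T i S ∈ {T : Finset ℤ | T ⊆ Icc a b ∧ T.Nonempty} := by
  rintro ⟨x, c⟩ hi S hS hr
  have hx : x ∈ Icc a b := (Finset.mem_product.mp hi).1
  refine ⟨h15446_cl h0 h1 a b k (x, c) hi S hS.1 hr, ?_⟩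
  have hkt : k x S = true := by
    by_contra hf
    apply hr
    show kv k x S * (if c = true then q else 1 - q) = 0
    unfold kv
    rw [if_neg hf, zero_mul]
  show (if c = true then insert x S else S.erase x).Nonempty
  cases c
  · simp only [Bool.false_eq_true, if_false]
    obtain ⟨y, _, hyx, hyS⟩ := hk.ne x hx S hkt
    exact ⟨y, Finset.mem_erase.mpr ⟨hyx, hyS⟩⟩
  · simp only [if_true]
    exact ⟨x, Finset.mem_insert_self _ _⟩

theorem h15446_bd (A : Finset ℤ) (V : Finset ℤ → ℝ) (hVl : ∀ S, V S = V (S ∩ A)) : Bd V := by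
  refine ⟨∑ T ∈ A.powerset, |V T|, ?_⟩
  intro S
  rw [hVl S]
  exact Finset.single_le_sum (f := fun T => |V T|) (fun T _ => abs_nonneg _)
    (Finset.mem_powerset.mpr Finset.inter_subset_right)

/-- the distance to the infected set grows at most with rate one -/
theorem near_lyap (h0 : 0 < q) (h1 : q < 1) (a b : ℤ) (k : ℤ → Finset ℤ → Bool) (hk : Adm a b k)
    (d : ℤ → ℝ) (hd : ∀ x ∈ Icc a b, ∀ S, k x S = true → ∃ y ∈ Icc a b, y ∈ S ∧ y ≠ x ∧ d y ≤ d x + 1)
    (α : ℝ) (hα : 0 ≤ α) (V : Finset ℤ → ℝ) (hV0 : V ∅ = 0) (hVl : ∀ S, V S = V (S ∩ Icc a b))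
    (hVu : ∀ S, S ⊆ Icc a b → ∀ x ∈ S, V S ≤ Real.exp (α * d x))
    (hVa : ∀ S, S ⊆ Icc a b → S.Nonempty → ∃ x ∈ S, V S = Real.exp (α * d x))
    (t : ℝ) (ht : 0 ≤ t) (S : Finset ℤ) (hS : S ⊆ Icc a b) :
    (kG q h0.le h1.le (Icc a b) k).P t V S ≤ Real.exp ((Real.exp α - 1) * t) * V S := by
  have hea : 1 ≤ Real.exp α := Real.one_le_exp hα
  refine (kG q h0.le h1.le (Icc a b) k).P_lyap {T : Finset ℤ | T ⊆ Icc a b}
    (h15446_cl h0 h1 a b k) V (h15446_bd _ V hVl) (Real.exp α - 1) ?_ t ht S hS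
  intro T hT
  have hT' : T ⊆ Icc a b := hT
  rw [kG_L]
  unfold genK
  rcases T.eq_empty_or_nonempty with hTe | hTn
  · subst hTe
    rw [hV0, mul_zero]
    apply le_of_eq
    apply Finset.sum_eq_zero
    intro x hx
    have hkf : ¬ (k x ∅ = true) := by
      intro hk2
      obtain ⟨y, _, _, hy⟩ := hk.ne x hx ∅ hk2
      exact absurd hy (Finset.notMem_empty y)
    unfold kv
    rw [if_neg hkf, zero_mul]
  · obtain ⟨x0, hx0, hV⟩ := hVa T hT' hTn
    have hVpos : 0 < V T := by rw [hV]; exact Real.exp_pos _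
    have hterm : ∀ x ∈ Icc a b, kv k x T * (q * V (insert x T) + (1 - q) * V (T.erase x) - V T)
        ≤ if x = x0 then (Real.exp α - 1) * V T else 0 := by
      intro x hx
      have hrhs : 0 ≤ if x = x0 then (Real.exp α - 1) * V T else 0 := by
        split_ifs
        · exact mul_nonneg (by linarith) hVpos.le
        · exact le_refl _
      unfold kv
      by_cases hkx : k x T = true
      · rw [if_pos hkx, one_mul]
        have hins : V (insert x T) ≤ V T := by
          rw [hV]
          exact hVu _ (Finset.insert_subset hx hT') x0 (Finset.mem_insert_of_mem hx0)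
        by_cases hxx : x = x0
        · rw [if_pos hxx]
          obtain ⟨y, hy, hyT, hyx, hdy⟩ := hd x hx T hkx
          have her : V (T.erase x) ≤ Real.exp α * V T := by
            refine (hVu _ ((Finset.erase_subset _ _).trans hT') y
              (Finset.mem_erase.mpr ⟨hyx, hyT⟩)).trans ?_
            rw [hV, ← Real.exp_add]
            apply Real.exp_le_exp.mpr
            rw [hxx] at hdy
            nlinarith
          have e1 : q * V (insert x T) ≤ q * V T := mul_le_mul_of_nonneg_left hins h0.le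
          have e2 : (1 - q) * V (T.erase x) ≤ (1 - q) * (Real.exp α * V T) :=
            mul_le_mul_of_nonneg_left her (by linarith)
          have e3 : 0 ≤ q * ((Real.exp α - 1) * V T) :=
            mul_nonneg h0.le (mul_nonneg (by linarith) hVpos.le)
          nlinarith
        · rw [if_neg hxx]
          have her : V (T.erase x) ≤ V T := by
            rw [hV]
            exact hVu _ ((Finset.erase_subset _ _).trans hT') x0
              (Finset.mem_erase.mpr ⟨fun h => hxx h.symm, hx0⟩)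
          have e1 : q * V (insert x T) ≤ q * V T := mul_le_mul_of_nonneg_left hins h0.le
          have e2 : (1 - q) * V (T.erase x) ≤ (1 - q) * V T :=
            mul_le_mul_of_nonneg_left her (by linarith)
          linarith
      · rw [if_neg hkx, zero_mul]
        exact hrhs
    calc _ ≤ ∑ x ∈ Icc a b, if x = x0 then (Real.exp α - 1) * V T else 0 :=
          Finset.sum_le_sum hterm
      _ = (Real.exp α - 1) * V T := by
          rw [Finset.sum_ite_eq', if_pos (hT' hx0)]

/-- inf version -/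
def h15446_W (A : Finset ℤ) (f : ℤ → ℝ) (S : Finset ℤ) : ℝ :=
  if h : (S ∩ A).Nonempty then (S ∩ A).inf' h f else 0

/-- sup version -/
def h15446_V (A : Finset ℤ) (f : ℤ → ℝ) (S : Finset ℤ) : ℝ :=
  if h : (S ∩ A).Nonempty then (S ∩ A).sup' h f else 0

theorem h15446_W_l (A : Finset ℤ) (f : ℤ → ℝ) (S : Finset ℤ) :
    h15446_W A f S = h15446_W A f (S ∩ A) := by
  unfold h15446_W
  have : S ∩ A ∩ A = S ∩ A := by rw [Finset.inter_assoc, Finset.inter_self]
  simp only [this]

theorem h15446_V_l (A : Finset ℤ) (f : ℤ → ℝ) (S : Finset ℤ) :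
    h15446_V A f S = h15446_V A f (S ∩ A) := by
  unfold h15446_V
  have : S ∩ A ∩ A = S ∩ A := by rw [Finset.inter_assoc, Finset.inter_self]
  simp only [this]

theorem h15446_W_le (A : Finset ℤ) (f : ℤ → ℝ) (S : Finset ℤ) (hS : S ⊆ A) (x : ℤ) (hx : x ∈ S) :
    h15446_W A f S ≤ f x := by
  have hx' : x ∈ S ∩ A := Finset.mem_inter.mpr ⟨hx, hS hx⟩
  unfold h15446_W
  rw [dif_pos ⟨x, hx'⟩]
  exact Finset.inf'_le f hx'

theorem h15446_V_ge (A : Finset ℤ) (f : ℤ → ℝ) (S : Finset ℤ) (hS : S ⊆ A) (x : ℤ) (hx : x ∈ S) :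
    f x ≤ h15446_V A f S := by
  have hx' : x ∈ S ∩ A := Finset.mem_inter.mpr ⟨hx, hS hx⟩
  unfold h15446_V
  rw [dif_pos ⟨x, hx'⟩]
  exact Finset.le_sup' f hx'

theorem h15446_W_at (A : Finset ℤ) (f : ℤ → ℝ) (S : Finset ℤ) (hS : S ⊆ A) (hn : S.Nonempty) :
    ∃ x ∈ S, h15446_W A f S = f x := by
  have e : S ∩ A = S := Finset.inter_eq_left.mpr hS
  have hn' : (S ∩ A).Nonempty := by rw [e]; exact hn
  unfold h15446_W
  rw [dif_pos hn']
  obtain ⟨x, hx, hx2⟩ := Finset.exists_mem_eq_inf' hn' f
  exact ⟨x, (Finset.mem_inter.mp hx).1, hx2⟩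

theorem h15446_V_at (A : Finset ℤ) (f : ℤ → ℝ) (S : Finset ℤ) (hS : S ⊆ A) (hn : S.Nonempty) :
    ∃ x ∈ S, h15446_V A f S = f x := by
  have e : S ∩ A = S := Finset.inter_eq_left.mpr hS
  have hn' : (S ∩ A).Nonempty := by rw [e]; exact hn
  unfold h15446_V
  rw [dif_pos hn']
  obtain ⟨x, hx, hx2⟩ := Finset.exists_mem_eq_sup' hn' f
  exact ⟨x, (Finset.mem_inter.mp hx).1, hx2⟩

theorem h15446_W_empty (A : Finset ℤ) (f : ℤ → ℝ) : h15446_W A f ∅ = 0 := by
  unfold h15446_W
  rw [dif_neg]
  rw [Finset.empty_inter]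
  exact Finset.not_nonempty_empty

theorem h15446_V_empty (A : Finset ℤ) (f : ℤ → ℝ) : h15446_V A f ∅ = 0 := by
  unfold h15446_V
  rw [dif_neg]
  rw [Finset.empty_inter]
  exact Finset.not_nonempty_empty

theorem h15446_e : Real.exp 1 - 1 ≤ 2 := by
  have := Real.exp_one_lt_d9
  linarith

/-- in an isolated interval an infected site stays close for a short time -/
theorem near_box (h0 : 0 < q) (h1 : q < 1) (a b : ℤ) (hab : a + 2 ≤ b) (z x : ℤ)
    (S : Finset ℤ) (hS : S ⊆ Icc a b) (hx : x ∈ S) (ρ : ℕ) (t : ℝ) (ht : 0 ≤ t) :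
    (kG q h0.le h1.le (Icc a b) (kbox a b)).P t (fun T => if T ∩ Icc (z - ρ) (z + ρ) = ∅ then 1 else 0) S ≤
      Real.exp (2 * t + |z - x| - ρ) := by
  have hk := adm_box a b hab
  set d : ℤ → ℝ := fun y => ((|z - y| : ℤ) : ℝ) with hd
  set V := h15446_W (Icc a b) (fun y => Real.exp (1 * d y)) with hV
  have hbd : Bd V := h15446_bd (Icc a b) V (fun S => h15446_W_l _ _ S)
  have h2 := near_lyap h0 h1 a b (kbox a b) hk d (by
      intro x hx S hkx
      have h3 : (x - 1 ∈ Icc a b ∧ x - 1 ∈ S) ∨ (x + 1 ∈ Icc a b ∧ x + 1 ∈ S) := by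
        have := of_decide_eq_true hkx
        exact this
      rcases h3 with ⟨h4, h5⟩ | ⟨h4, h5⟩
      · refine ⟨x - 1, h4, h5, by omega, ?_⟩
        have : |z - (x - 1)| ≤ |z - x| + 1 := by
          have h6 : z - (x - 1) = (z - x) + 1 := by ring
          rw [h6]
          refine (abs_add_le _ _).trans ?_
          simp
        have h7 : ((|z - (x - 1)| : ℤ) : ℝ) ≤ ((|z - x| + 1 : ℤ) : ℝ) := by exact_mod_cast this
        simp only [hd]
        rw [Int.cast_add, Int.cast_one] at h7
        exact h7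
      · refine ⟨x + 1, h4, h5, by omega, ?_⟩
        have : |z - (x + 1)| ≤ |z - x| + 1 := by
          have h6 : z - (x + 1) = (z - x) + (-1) := by ring
          rw [h6]
          refine (abs_add_le _ _).trans ?_
          simp
        have h7 : ((|z - (x + 1)| : ℤ) : ℝ) ≤ ((|z - x| + 1 : ℤ) : ℝ) := by exact_mod_cast this
        simp only [hd]
        rw [Int.cast_add, Int.cast_one] at h7
        exact h7)
    1 zero_le_one V (h15446_W_empty _ _) (fun S => h15446_W_l _ _ S)
    (fun S hS x hx => h15446_W_le _ _ S hS x hx)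
    (fun S hS hn => h15446_W_at _ _ S hS hn) t ht S hS
  have hFbd : Bd (fun T : Finset ℤ => if T ∩ Icc (z - ρ) (z + ρ) = ∅ then (1 : ℝ) else 0) := by
    refine ⟨1, fun T => ?_⟩
    simp only
    split_ifs <;> simp
  have hcV : Bd (fun T => Real.exp (-(ρ : ℝ)) * V T) := by
    obtain ⟨M, hM⟩ := hbd
    refine ⟨Real.exp (-(ρ : ℝ)) * M, fun T => ?_⟩
    rw [abs_mul, abs_of_pos (Real.exp_pos _)]
    exact mul_le_mul_of_nonneg_left (hM T) (Real.exp_pos _).le
  have h3 := (kG q h0.le h1.le (Icc a b) (kbox a b)).P_mono_on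
    {T : Finset ℤ | T ⊆ Icc a b ∧ T.Nonempty} (h15446_cl2 h0 h1 a b (kbox a b) hk)
    (fun T => if T ∩ Icc (z - ρ) (z + ρ) = ∅ then (1 : ℝ) else 0)
    (fun T => Real.exp (-(ρ : ℝ)) * V T) hFbd hcV (by
      rintro T ⟨hT, hTn⟩
      obtain ⟨y, hy, hyV⟩ := h15446_W_at (Icc a b) (fun y => Real.exp (1 * d y)) T hT hTn
      have hyV' : V T = Real.exp (1 * d y) := hyV
      show (if T ∩ Icc (z - ρ) (z + ρ) = ∅ then (1 : ℝ) else 0) ≤ Real.exp (-(ρ : ℝ)) * V T
      rw [hyV', ← Real.exp_add]
      split_ifs with he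
      · apply Real.one_le_exp
        have h4 : y ∉ Icc (z - ρ) (z + ρ) := by
          intro h5
          have : y ∈ T ∩ Icc (z - ρ) (z + ρ) := Finset.mem_inter.mpr ⟨hy, h5⟩
          rw [he] at this
          exact absurd this (Finset.notMem_empty y)
        have h5 : (ρ : ℤ) ≤ |z - y| := by
          by_contra h6
          push Not at h6
          apply h4
          rw [abs_lt] at h6
          rw [Finset.mem_Icc]
          constructor <;> omega
        have h6 : (ρ : ℝ) ≤ d y := by
          simp only [hd]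
          exact_mod_cast h5
        linarith
      · exact (Real.exp_pos _).le) t ht S ⟨hS, ⟨x, hx⟩⟩
  refine h3.trans ?_
  rw [(kG q h0.le h1.le (Icc a b) (kbox a b)).P_smul (Real.exp (-(ρ : ℝ))) V hbd t S]
  have h5 : V S ≤ Real.exp (1 * d x) := h15446_W_le _ _ S hS x hx
  calc Real.exp (-(ρ : ℝ)) * (kG q h0.le h1.le (Icc a b) (kbox a b)).P t V S
      ≤ Real.exp (-(ρ : ℝ)) * (Real.exp ((Real.exp 1 - 1) * t) * Real.exp (1 * d x)) := by
        apply mul_le_mul_of_nonneg_left _ (Real.exp_pos _).le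
        exact h2.trans (mul_le_mul_of_nonneg_left h5 (Real.exp_pos _).le)
    _ = Real.exp (-(ρ : ℝ) + ((Real.exp 1 - 1) * t + 1 * d x)) := by
        rw [Real.exp_add, Real.exp_add]
    _ ≤ Real.exp (2 * t + |z - x| - ρ) := by
        apply Real.exp_le_exp.mpr
        have h6 : (Real.exp 1 - 1) * t ≤ 2 * t := mul_le_mul_of_nonneg_right h15446_e ht
        simp only [hd]
        linarith

theorem h15446_far (h0 : 0 < q) (h1 : q < 1) (a b : ℤ) (hab : a + 2 ≤ b) (g : ℤ → ℤ)
    (hinj : Function.Injective g) (hg1 : ∀ x, g (x + 1) ≤ g x + 1) (hg2 : ∀ x, g (x - 1) ≤ g x + 1)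
    (S : Finset ℤ) (hS : S ⊆ Icc a b) (c y : ℤ) (hc : ∀ w ∈ S, c ≤ g w)
    (F : Finset ℤ → ℝ) (hFbd : Bd F)
    (hF : ∀ T, T ⊆ Icc a b → F T ≤ 0 ∨ (F T ≤ 1 ∧ ∃ w ∈ T, g w ≤ y)) (t : ℝ) (ht : 0 ≤ t) :
    (kG q h0.le h1.le (Icc a b) (kbox a b)).P t F S ≤ Real.exp (2 * t - (c - y)) := by
  have hk := adm_box a b hab
  set V := h15446_V (Icc a b) (fun w => Real.exp (-(g w : ℝ))) with hV
  have hbd : Bd V := h15446_bd (Icc a b) V (fun S => h15446_V_l _ _ S)
  have hVnn : ∀ T, T ⊆ Icc a b → 0 ≤ V T := by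
    intro T hT
    rcases T.eq_empty_or_nonempty with hTe | hTn
    · subst hTe
      exact (h15446_V_empty _ _).ge
    · obtain ⟨x0, hx0, hV0⟩ := h15446_V_at (Icc a b) (fun w => Real.exp (-(g w : ℝ))) T hT hTn
      have : V T = Real.exp (-(g x0 : ℝ)) := hV0
      rw [this]
      exact (Real.exp_pos _).le
  have he1 : 0 < Real.exp 1 - 1 := by
    have := Real.add_one_lt_exp (one_ne_zero (α := ℝ))
    linarith
  have h2 : (kG q h0.le h1.le (Icc a b) (kbox a b)).P t V S
      ≤ Real.exp ((Real.exp 1 - 1) * t) * V S := by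
    refine (kG q h0.le h1.le (Icc a b) (kbox a b)).P_lyap {T : Finset ℤ | T ⊆ Icc a b}
      (h15446_cl h0 h1 a b (kbox a b)) V hbd (Real.exp 1 - 1) ?_ t ht S hS
    intro T hT
    have hT' : T ⊆ Icc a b := hT
    rw [kG_L]
    unfold genK
    rcases T.eq_empty_or_nonempty with hTe | hTn
    · subst hTe
      have hV0 : V ∅ = 0 := h15446_V_empty _ _
      rw [hV0, mul_zero]
      apply le_of_eq
      apply Finset.sum_eq_zero
      intro x hx
      have hkf : ¬ (kbox a b x ∅ = true) := by
        intro hk2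
        obtain ⟨y, _, _, hy⟩ := hk.ne x hx ∅ hk2
        exact absurd hy (Finset.notMem_empty y)
      unfold kv
      rw [if_neg hkf, zero_mul]
    · obtain ⟨x0, hx0, hV0'⟩ := h15446_V_at (Icc a b) (fun w => Real.exp (-(g w : ℝ))) T hT' hTn
      have hV0 : V T = Real.exp (-(g x0 : ℝ)) := hV0'
      have hVpos : 0 < V T := by rw [hV0]; exact Real.exp_pos _
      have hmin : ∀ w ∈ T, g x0 ≤ g w := by
        intro w hw
        have h3 : Real.exp (-(g w : ℝ)) ≤ V T :=
          h15446_V_ge (Icc a b) (fun w => Real.exp (-(g w : ℝ))) T hT' w hw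
        rw [hV0] at h3
        have h4 := Real.exp_le_exp.mp h3
        have h5 : (g x0 : ℝ) ≤ (g w : ℝ) := by linarith
        exact_mod_cast h5
      have hterm : ∀ x ∈ Icc a b,
          kv (kbox a b) x T * (q * V (insert x T) + (1 - q) * V (T.erase x) - V T)
          ≤ if g x = g x0 - 1 then (Real.exp 1 - 1) * V T else 0 := by
        intro x hx
        have hrhs : 0 ≤ if g x = g x0 - 1 then (Real.exp 1 - 1) * V T else 0 := by
          split_ifs
          · exact mul_nonneg he1.le hVpos.le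
          · exact le_refl _
        unfold kv
        by_cases hkx : kbox a b x T = true
        · rw [if_pos hkx, one_mul]
          have h3 : (x - 1 ∈ Icc a b ∧ x - 1 ∈ T) ∨ (x + 1 ∈ Icc a b ∧ x + 1 ∈ T) :=
            of_decide_eq_true hkx
          have her : V (T.erase x) ≤ V T := by
            rcases (T.erase x).eq_empty_or_nonempty with hTe | hTn2
            · rw [hTe]
              have : V ∅ = 0 := h15446_V_empty _ _
              rw [this]
              exact hVpos.le
            · obtain ⟨x1, hx1, hV1'⟩ := h15446_V_at (Icc a b)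
                (fun w => Real.exp (-(g w : ℝ))) (T.erase x)
                ((Finset.erase_subset _ _).trans hT') hTn2
              have hV1 : V (T.erase x) = Real.exp (-(g x1 : ℝ)) := hV1'
              rw [hV1]
              exact h15446_V_ge (Icc a b) (fun w => Real.exp (-(g w : ℝ))) T hT' x1
                (Finset.mem_of_mem_erase hx1)
          obtain ⟨x1, hx1, hV1'⟩ := h15446_V_at (Icc a b)
            (fun w => Real.exp (-(g w : ℝ))) (insert x T)
            (Finset.insert_subset hx hT') ⟨x, Finset.mem_insert_self _ _⟩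
          have hV1 : V (insert x T) = Real.exp (-(g x1 : ℝ)) := hV1'
          have e2 : (1 - q) * V (T.erase x) ≤ (1 - q) * V T :=
            mul_le_mul_of_nonneg_left her (by linarith)
          by_cases hlt : g x0 ≤ g x1
          · have hins : V (insert x T) ≤ V T := by
              rw [hV1, hV0]
              apply Real.exp_le_exp.mpr
              have : (g x0 : ℝ) ≤ (g x1 : ℝ) := by exact_mod_cast hlt
              linarith
            have e1 : q * V (insert x T) ≤ q * V T := mul_le_mul_of_nonneg_left hins h0.le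
            linarith
          · have hx1x : x1 = x := by
              rcases Finset.mem_insert.mp hx1 with h | h
              · exact h
              · exact absurd (hmin x1 h) hlt
            subst hx1x
            have hge : g x0 ≤ g x1 + 1 := by
              rcases h3 with ⟨_, h5⟩ | ⟨_, h5⟩
              · exact (hmin _ h5).trans (hg2 x1)
              · exact (hmin _ h5).trans (hg1 x1)
            have heq : g x1 = g x0 - 1 := by omega
            rw [if_pos heq]
            have hins : V (insert x1 T) = Real.exp 1 * V T := by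
              rw [hV1, hV0, ← Real.exp_add, heq]
              congr 1
              push_cast
              ring
            rw [hins]
            have e3 : 0 ≤ (1 - q) * ((Real.exp 1 - 1) * V T) :=
              mul_nonneg (by linarith) (mul_nonneg he1.le hVpos.le)
            nlinarith
        · rw [if_neg hkx, zero_mul]
          exact hrhs
      calc _ ≤ ∑ x ∈ Icc a b, if g x = g x0 - 1 then (Real.exp 1 - 1) * V T else 0 :=
            Finset.sum_le_sum hterm
        _ ≤ (Real.exp 1 - 1) * V T := by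
            rw [← Finset.sum_filter, Finset.sum_const, nsmul_eq_mul]
            have hcard : ((Icc a b).filter (fun x => g x = g x0 - 1)).card ≤ 1 := by
              rw [Finset.card_le_one]
              intro u hu v hv
              apply hinj
              rw [(Finset.mem_filter.mp hu).2, (Finset.mem_filter.mp hv).2]
            have hcard' : ((((Icc a b).filter (fun x => g x = g x0 - 1)).card : ℕ) : ℝ) ≤ 1 := by
              exact_mod_cast hcard
            have h6 : 0 ≤ (Real.exp 1 - 1) * V T := mul_nonneg he1.le hVpos.le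
            nlinarith
  have hcV : Bd (fun T => Real.exp (y : ℝ) * V T) := by
    obtain ⟨M, hM⟩ := hbd
    refine ⟨Real.exp (y : ℝ) * M, fun T => ?_⟩
    rw [abs_mul, abs_of_pos (Real.exp_pos _)]
    exact mul_le_mul_of_nonneg_left (hM T) (Real.exp_pos _).le
  have h3 := (kG q h0.le h1.le (Icc a b) (kbox a b)).P_mono_on
    {T : Finset ℤ | T ⊆ Icc a b} (h15446_cl h0 h1 a b (kbox a b)) F
    (fun T => Real.exp (y : ℝ) * V T) hFbd hcV (by
      intro T hT
      show F T ≤ Real.exp (y : ℝ) * V T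
      rcases hF T hT with h | ⟨h, w, hw, hwy⟩
      · exact h.trans (mul_nonneg (Real.exp_pos _).le (hVnn T hT))
      · refine h.trans ?_
        have h4 : Real.exp (-(g w : ℝ)) ≤ V T :=
          h15446_V_ge (Icc a b) (fun w => Real.exp (-(g w : ℝ))) T hT w hw
        have h5 : (1 : ℝ) ≤ Real.exp (y : ℝ) * Real.exp (-(g w : ℝ)) := by
          rw [← Real.exp_add]
          apply Real.one_le_exp
          have : (g w : ℝ) ≤ (y : ℝ) := by exact_mod_cast hwy
          linarith
        exact h5.trans (mul_le_mul_of_nonneg_left h4 (Real.exp_pos _).le)) t ht S hS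
  refine h3.trans ?_
  rw [(kG q h0.le h1.le (Icc a b) (kbox a b)).P_smul (Real.exp (y : ℝ)) V hbd t S]
  have h5 : V S ≤ Real.exp (-(c : ℝ)) := by
    rcases S.eq_empty_or_nonempty with hTe | hTn
    · subst hTe
      have : V ∅ = 0 := h15446_V_empty _ _
      rw [this]
      exact (Real.exp_pos _).le
    · obtain ⟨x0, hx0, hV0'⟩ := h15446_V_at (Icc a b) (fun w => Real.exp (-(g w : ℝ))) S hS hTn
      have hV0 : V S = Real.exp (-(g x0 : ℝ)) := hV0'
      rw [hV0]
      apply Real.exp_le_exp.mpr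
      have : (c : ℝ) ≤ (g x0 : ℝ) := by exact_mod_cast hc x0 hx0
      linarith
  calc Real.exp (y : ℝ) * (kG q h0.le h1.le (Icc a b) (kbox a b)).P t V S
      ≤ Real.exp (y : ℝ) * (Real.exp ((Real.exp 1 - 1) * t) * Real.exp (-(c : ℝ))) := by
        apply mul_le_mul_of_nonneg_left _ (Real.exp_pos _).le
        exact h2.trans (mul_le_mul_of_nonneg_left h5 (Real.exp_pos _).le)
    _ = Real.exp ((y : ℝ) + ((Real.exp 1 - 1) * t + -(c : ℝ))) := by
        rw [Real.exp_add, Real.exp_add]
    _ ≤ Real.exp (2 * t - (c - y)) := by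
        apply Real.exp_le_exp.mpr
        have h6 : (Real.exp 1 - 1) * t ≤ 2 * t := mul_le_mul_of_nonneg_right h15446_e ht
        linarith

/-- infection does not enter a healthy left end quickly -/
theorem left_box (h0 : 0 < q) (h1 : q < 1) (a b : ℤ) (hab : a + 2 ≤ b) (y z : ℤ) (hyz : y ≤ z)
    (S : Finset ℤ) (hS : S ⊆ Icc a b) (hz : S ∩ Icc a z = ∅) (t : ℝ) (ht : 0 ≤ t) :
    (kG q h0.le h1.le (Icc a b) (kbox a b)).P t (fun T => if T ∩ Icc a y = ∅ then 0 else 1) S ≤
      Real.exp (2 * t - (z - y)) := by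
  refine h15446_far h0 h1 a b hab (fun w => w) (fun u v h => h) (fun x => le_refl _)
    (fun x => by omega) S hS z y ?_ _ ?_ ?_ t ht
  · intro w hw
    by_contra hlt
    push Not at hlt
    have h2 := Finset.mem_Icc.mp (hS hw)
    have h3 : w ∈ S ∩ Icc a z := Finset.mem_inter.mpr ⟨hw, Finset.mem_Icc.mpr ⟨h2.1, hlt.le⟩⟩
    rw [hz] at h3
    exact absurd h3 (Finset.notMem_empty w)
  · refine ⟨1, fun T => ?_⟩
    simp only
    split_ifs <;> simp
  · intro T hT
    by_cases he : T ∩ Icc a y = ∅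
    · left
      rw [if_pos he]
    · right
      rw [if_neg he]
      obtain ⟨w, hw⟩ := Finset.nonempty_iff_ne_empty.mpr he
      have h2 := Finset.mem_inter.mp hw
      exact ⟨le_refl _, w, h2.1, (Finset.mem_Icc.mp h2.2).2⟩

theorem right_box (h0 : 0 < q) (h1 : q < 1) (a b : ℤ) (hab : a + 2 ≤ b) (y z : ℤ) (hyz : z ≤ y)
    (S : Finset ℤ) (hS : S ⊆ Icc a b) (hz : S ∩ Icc z b = ∅) (t : ℝ) (ht : 0 ≤ t) :
    (kG q h0.le h1.le (Icc a b) (kbox a b)).P t (fun T => if T ∩ Icc y b = ∅ then 0 else 1) S ≤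
      Real.exp (2 * t - (y - z)) := by
  have h2 := h15446_far h0 h1 a b hab (fun w => -w) (fun u v h => neg_injective h)
    (fun x => by omega) (fun x => by omega) S hS (-z) (-y) (by
      intro w hw
      by_contra hlt
      push Not at hlt
      have h2 := Finset.mem_Icc.mp (hS hw)
      have h3 : w ∈ S ∩ Icc z b := Finset.mem_inter.mpr ⟨hw, Finset.mem_Icc.mpr ⟨by omega, h2.2⟩⟩
      rw [hz] at h3
      exact absurd h3 (Finset.notMem_empty w))
    (fun T => if T ∩ Icc y b = ∅ then 0 else 1) (by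
      refine ⟨1, fun T => ?_⟩
      simp only
      split_ifs <;> simp) (by
      intro T hT
      by_cases he : T ∩ Icc y b = ∅
      · left
        rw [if_pos he]
      · right
        rw [if_neg he]
        obtain ⟨w, hw⟩ := Finset.nonempty_iff_ne_empty.mpr he
        have h2 := Finset.mem_inter.mp hw
        have h3 := Finset.mem_Icc.mp h2.2
        exact ⟨le_refl _, w, h2.1, by omega⟩) t ht
  refine h2.trans (le_of_eq ?_)
  congr 1
  push_cast
  ring

end FA
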