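import Pool.Agent.Helper870.FADefs
import Pool.Agent.Helper870.FAG1
import Pool.Agent.Helper870.FAS1
import Pool.Agent.Helper870.FAS3
import Pool.Agent.Helper870.FAS6
import Pool.Agent.Helper870.FAS5
import Pool.Agent.Helper870.FAS10
import Pool.Agent.Helper870.FAD2
import Pool.Agent.Helper870.FAR1
import Pool.Agent.Helper870.FAG6
import Pool.Agent.Helper870.FAD3
import Pool.Agent.Helper870.FAD4
import Pool.Agent.Helper870.FAD7

set_option autoImplicit false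
set_option linter.unusedSectionVars false

open Finset

noncomputable section

-- USES: G1 S1 S3 S6 S5 S10 D2 R1 G6 D3 D4 D7
namespace FA
variable {q : ℝ}

open Classical in
/-- probability that the number of empty blocks fails to decrease in the isolated dynamics -/
def Gf (q : ℝ) (h0 : 0 < q) (h1 : q < 1) (o : ℤ) (ℓ j1 j2 : ℕ) (u ρ η : ℝ) (S : Finset ℤ) : ℝ :=
  if S ∩ Sb o ℓ j1 j2 = ∅ then 0 else
    (bG q h0 h1 o ℓ j1 j2).P u
      (fun T => if max η ((NE o ℓ j1 j2 S : ℝ) - ρ) < (NE o ℓ j1 j2 T : ℝ) then 1 else 0) (S ∩ Sb o ℓ j1 j2)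

theorem EA_factor_aux (q : ℝ) (Λ Λ' : Finset ℤ) (hsub : Λ' ⊆ Λ) (F r h : Finset ℤ → ℝ)
    (hF : ∀ S, F S = r (S \ Λ') * h (S ∩ Λ')) : EA q Λ F = EA q (Λ \ Λ') r * EA q Λ' h := by
  have hd : Disjoint (Λ \ Λ') Λ' := Finset.sdiff_disjoint
  have hu : (Λ \ Λ') ∪ Λ' = Λ := Finset.sdiff_union_of_subset hsub
  have h1 : ∀ S, av q Λ' F S = r (S \ Λ') * EA q Λ' h := by
    intro S
    unfold av EA
    rw [Finset.mul_sum]
    refine Finset.sum_congr rfl fun U hU => ?_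
    have hU' := Finset.mem_powerset.mp hU
    have e1 : ((S \ Λ') ∪ U) \ Λ' = S \ Λ' := by
      ext z; simp only [Finset.mem_sdiff, Finset.mem_union]
      constructor
      · rintro ⟨h | h, h2⟩
        · exact h
        · exact absurd (hU' h) h2
      · rintro ⟨h, h2⟩; exact ⟨Or.inl ⟨h, h2⟩, h2⟩
    have e2 : ((S \ Λ') ∪ U) ∩ Λ' = U := by
      ext z; simp only [Finset.mem_inter, Finset.mem_sdiff, Finset.mem_union]
      constructor
      · rintro ⟨h | h, h2⟩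
        · exact absurd h2 h.2
        · exact h
      · intro h; exact ⟨Or.inr h, hU' h⟩
    rw [hF, e1, e2]; ring
  have h2 : EA q Λ F = av q (Λ \ Λ') (av q Λ' F) ∅ := by
    rw [av_av q hd, hu, EA_eq_av]
  rw [h2, show av q Λ' F = fun S => r (S \ Λ') * EA q Λ' h from funext h1]
  generalize EA q Λ' h = K
  unfold av EA
  rw [Finset.sum_mul]
  refine Finset.sum_congr rfl fun U hU => ?_
  have hU' := Finset.mem_powerset.mp hU
  have e1 : ((∅ \ (Λ \ Λ')) ∪ U) \ Λ' = U := by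
    ext z; simp only [Finset.mem_sdiff, Finset.mem_union, Finset.notMem_empty, false_and, false_or]
    constructor
    · rintro ⟨h, _⟩; exact h
    · intro h; exact ⟨h, (Finset.mem_sdiff.mp (hU' h)).2⟩
  beta_reduce
  rw [e1]; ring

theorem EA_nonneg_aux (h0 : 0 < q) (h1 : q < 1) (A : Finset ℤ) (F : Finset ℤ → ℝ)
    (hF : ∀ S, 0 ≤ F S) : 0 ≤ EA q A F :=
  Finset.sum_nonneg fun U _ => mul_nonneg (wt_nonneg h0.le h1.le A U) (hF U)

theorem EA_mono_aux (h0 : 0 < q) (h1 : q < 1) (A : Finset ℤ) (F H : Finset ℤ → ℝ)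
    (hF : ∀ S, F S ≤ H S) : EA q A F ≤ EA q A H :=
  Finset.sum_le_sum fun U _ => mul_le_mul_of_nonneg_left (hF U) (wt_nonneg h0.le h1.le A U)

theorem EA_empty_ind_aux (q : ℝ) (A : Finset ℤ) :
    EA q A (fun U => if U ∩ A = ∅ then 1 else 0) = (1 - q) ^ A.card := by
  unfold EA
  rw [Finset.sum_eq_single ∅]
  · simp [wt]
  · intro U hU hne
    have hU' := Finset.mem_powerset.mp hU
    beta_reduce
    rw [Finset.inter_eq_left.mpr hU', if_neg hne, mul_zero]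
  · intro h
    exact absurd (Finset.mem_powerset.mpr (Finset.empty_subset _)) h

theorem EA_nonempty_ind_aux (q : ℝ) (A : Finset ℤ) :
    EA q A (fun U => if U ∩ A = ∅ then 0 else 1) = 1 - (1 - q) ^ A.card := by
  have h1 := EA_empty_ind_aux q A
  have h2 := wt_sum q A
  have h3 : EA q A (fun U => if U ∩ A = ∅ then 0 else 1) =
      ∑ U ∈ A.powerset, wt q A U - EA q A (fun U => if U ∩ A = ∅ then 1 else 0) := by
    unfold EA
    rw [← Finset.sum_sub_distrib]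
    refine Finset.sum_congr rfl fun U _ => ?_
    beta_reduce
    split_ifs <;> ring
  rw [h3, h1, h2]

theorem mem_Bk_aux (o : ℤ) (ℓ i : ℕ) (z : ℤ) :
    z ∈ Bk o ℓ i ↔ o + i * ℓ ≤ z ∧ z ≤ o + i * ℓ + ℓ - 1 := by
  unfold Bk; rw [Finset.mem_Icc]

theorem mem_Sb_aux (o : ℤ) (ℓ k1 k2 : ℕ) (z : ℤ) :
    z ∈ Sb o ℓ k1 k2 ↔ o + k1 * ℓ ≤ z ∧ z ≤ o + k2 * ℓ - 1 := by
  unfold Sb; rw [Finset.mem_Icc]

theorem card_Bk_aux (o : ℤ) (ℓ i : ℕ) : (Bk o ℓ i).card = ℓ := by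
  unfold Bk
  rw [Int.card_Icc]
  have : (o + (i:ℤ) * ℓ + ℓ - 1 + 1 - (o + i * ℓ)) = (ℓ : ℤ) := by ring
  rw [this, Int.toNat_natCast]

theorem mul_le_aux (i j ℓ : ℕ) (h : i ≤ j) : (i : ℤ) * ℓ ≤ (j : ℤ) * ℓ := by
  have : i * ℓ ≤ j * ℓ := Nat.mul_le_mul_right _ h
  exact_mod_cast this

theorem Bk_sub_aux (o : ℤ) (ℓ i j1 j2 : ℕ) (hi : i ∈ Finset.Ico j1 j2) :
    Bk o ℓ i ⊆ Sb o ℓ j1 j2 := by
  intro z hz
  rw [mem_Bk_aux] at hz
  rw [mem_Sb_aux]
  rw [Finset.mem_Ico] at hi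
  have h1 := mul_le_aux j1 i ℓ hi.1
  have h2 := mul_le_aux (i + 1) j2 ℓ hi.2
  push_cast at h2
  constructor
  · linarith
  · nlinarith

theorem Bk_disj_aux (o : ℤ) (ℓ i j1 j2 : ℕ) (hi : i ∉ Finset.Ico j1 j2) :
    Disjoint (Bk o ℓ i) (Sb o ℓ j1 j2) := by
  rw [Finset.disjoint_left]
  intro z hz hz2
  rw [mem_Bk_aux] at hz
  rw [mem_Sb_aux] at hz2
  apply hi
  rw [Finset.mem_Ico]
  constructor
  · by_contra hcon
    have h2 := mul_le_aux (i + 1) j1 ℓ (by omega)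
    push_cast at h2
    nlinarith
  · by_contra hcon
    have h2 := mul_le_aux j2 i ℓ (by omega)
    linarith

theorem Sb_sdiff_aux (o : ℤ) (ℓ j1 j : ℕ) (hj : j1 ≤ j) :
    Sb o ℓ j1 (j + 1) \ Sb o ℓ j1 j = Bk o ℓ j := by
  ext z
  rw [Finset.mem_sdiff, mem_Sb_aux, mem_Sb_aux, mem_Bk_aux]
  have h1 := mul_le_aux j1 j ℓ hj
  have h2 : ((j + 1 : ℕ) : ℤ) * ℓ = (j : ℤ) * ℓ + ℓ := by push_cast; ring
  rw [h2]
  generalize (j1 : ℤ) * ℓ = A at *
  generalize (j : ℤ) * ℓ = B at *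
  omega

theorem Sb_sub_aux (o : ℤ) (ℓ j1 j2 k1 k2 : ℕ) (h1 : k1 ≤ j1) (h2 : j2 ≤ k2) :
    Sb o ℓ j1 j2 ⊆ Sb o ℓ k1 k2 := by
  intro z hz
  rw [mem_Sb_aux] at *
  have h3 := mul_le_aux k1 j1 ℓ h1
  have h4 := mul_le_aux j2 k2 ℓ h2
  constructor <;> linarith [hz.1, hz.2]

theorem Sb_empty_aux (o : ℤ) (ℓ j : ℕ) : Sb o ℓ j j = ∅ := by
  unfold Sb
  apply Finset.Icc_eq_empty
  linarith

theorem inter_Sb_aux (o : ℤ) (ℓ j1 : ℕ) (S : Finset ℤ) (j : ℕ) (hj : j1 ≤ j)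
    (h : ∀ i ∈ Finset.Ico j1 j, S ∩ Bk o ℓ i = ∅) : S ∩ Sb o ℓ j1 j = ∅ := by
  induction j, hj using Nat.le_induction with
  | base => rw [Sb_empty_aux, Finset.inter_empty]
  | succ j hj ih =>
    have h1 := ih (fun i hi => h i (by
      rw [Finset.mem_Ico] at *; omega))
    have h2 := h j (by rw [Finset.mem_Ico]; omega)
    rw [← Sb_sdiff_aux o ℓ j1 j hj] at h2
    rw [Finset.eq_empty_iff_forall_notMem] at *
    intro z hz
    rw [Finset.mem_inter] at hz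
    by_cases hz2 : z ∈ Sb o ℓ j1 j
    · exact h1 z (Finset.mem_inter.mpr ⟨hz.1, hz2⟩)
    · exact h2 z (Finset.mem_inter.mpr ⟨hz.1, Finset.mem_sdiff.mpr ⟨hz.2, hz2⟩⟩)

theorem inter_in_aux {S A B : Finset ℤ} (h : B ⊆ A) : S ∩ B = (S ∩ A) ∩ B := by
  rw [Finset.inter_assoc, Finset.inter_eq_right.mpr h]

theorem inter_out_aux {S A B : Finset ℤ} (h : Disjoint B A) : S ∩ B = (S \ A) ∩ B := by
  ext z
  simp only [Finset.mem_inter, Finset.mem_sdiff]
  constructor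
  · rintro ⟨h1, h2⟩
    exact ⟨⟨h1, fun h3 => Finset.disjoint_left.mp h h2 h3⟩, h2⟩
  · rintro ⟨⟨h1, _⟩, h2⟩
    exact ⟨h1, h2⟩

theorem EA_Q_aux (q : ℝ) (o : ℤ) (ℓ j1 : ℕ) (J : Finset ℕ) (j : ℕ) (hj : j1 ≤ j) :
    EA q (Sb o ℓ j1 j) (fun T => if (∀ i ∈ Finset.Ico j1 j, (T ∩ Bk o ℓ i = ∅ ↔ i ∈ J))
      then (1:ℝ) else 0) =
      ∏ i ∈ Finset.Ico j1 j, (if i ∈ J then (1 - q) ^ ℓ else 1 - (1 - q) ^ ℓ) := by
  induction j, hj using Nat.le_induction with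
  | base =>
    rw [Sb_empty_aux, Finset.Ico_self, Finset.prod_empty]
    simp [EA, wt]
  | succ j hj ih =>
    rw [Finset.prod_Ico_succ_top hj, ← ih]
    have hsub : Sb o ℓ j1 j ⊆ Sb o ℓ j1 (j + 1) := Sb_sub_aux o ℓ _ _ _ _ le_rfl (Nat.le_succ j)
    rw [EA_factor_aux q _ _ hsub _
      (fun U => if (U ∩ Bk o ℓ j = ∅ ↔ j ∈ J) then (1:ℝ) else 0)
      (fun T => if (∀ i ∈ Finset.Ico j1 j, (T ∩ Bk o ℓ i = ∅ ↔ i ∈ J)) then (1:ℝ) else 0)]
    · rw [Sb_sdiff_aux o ℓ j1 j hj, mul_comm]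
      congr 1
      by_cases hJ : j ∈ J
      · simp only [hJ, iff_true, if_true]
        have := EA_empty_ind_aux q (Bk o ℓ j)
        rwa [card_Bk_aux] at this
      · simp only [hJ, iff_false, if_false]
        have := EA_nonempty_ind_aux q (Bk o ℓ j)
        rw [card_Bk_aux] at this
        rw [← this]
        congr 1
        funext U
        by_cases hU : U ∩ Bk o ℓ j = ∅
        · rw [if_neg (not_not.mpr hU), if_pos hU]
        · rw [if_pos hU, if_neg hU]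
    · intro S
      have hjn : j ∉ Finset.Ico j1 j := by rw [Finset.mem_Ico]; omega
      have e1 := inter_out_aux (S := S) (Bk_disj_aux o ℓ j j1 j hjn)
      have e2 : ∀ i ∈ Finset.Ico j1 j, S ∩ Bk o ℓ i = (S ∩ Sb o ℓ j1 j) ∩ Bk o ℓ i :=
        fun i hi => inter_in_aux (Bk_sub_aux o ℓ i j1 j hi)
      have h3 : (∀ i ∈ Finset.Ico j1 (j + 1), (S ∩ Bk o ℓ i = ∅ ↔ i ∈ J)) ↔
          (((S \ Sb o ℓ j1 j) ∩ Bk o ℓ j = ∅ ↔ j ∈ J) ∧
          ∀ i ∈ Finset.Ico j1 j, ((S ∩ Sb o ℓ j1 j) ∩ Bk o ℓ i = ∅ ↔ i ∈ J)) := by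
        constructor
        · intro h
          refine ⟨?_, fun i hi => ?_⟩
          · rw [← e1]; exact h j (by rw [Finset.mem_Ico]; omega)
          · rw [← e2 i hi]
            exact h i (by rw [Finset.mem_Ico] at *; omega)
        · rintro ⟨h4, h5⟩ i hi
          by_cases hij : i = j
          · rw [hij, e1]; exact h4
          · have hi2 : i ∈ Finset.Ico j1 j := by rw [Finset.mem_Ico] at *; omega
            rw [e2 i hi2]; exact h5 i hi2
      by_cases hA : ((S \ Sb o ℓ j1 j) ∩ Bk o ℓ j = ∅ ↔ j ∈ J)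
      · by_cases hB : ∀ i ∈ Finset.Ico j1 j, ((S ∩ Sb o ℓ j1 j) ∩ Bk o ℓ i = ∅ ↔ i ∈ J)
        · rw [if_pos (h3.mpr ⟨hA, hB⟩), if_pos hA, if_pos hB, one_mul]
        · rw [if_neg (fun h => hB (h3.mp h).2), if_neg hB, mul_zero]
      · rw [if_neg (fun h => hA (h3.mp h).1), if_neg hA, zero_mul]

theorem prod_ind_aux (s J : Finset ℕ) (x : ℝ) :
    ∏ i ∈ s, (if i ∈ J then x else 1) = x ^ (s.filter (fun i => i ∈ J)).card := by
  rw [Finset.prod_ite, Finset.prod_const, Finset.prod_const_one, mul_one]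

theorem EA_g_aux (h0 : 0 < q) (h1 : q < 1) (o : ℤ) (ℓ : ℕ) (j1 j2 : ℕ) (hj : j1 ≤ j2) (M b : ℝ)
    (hb : 0 < b) (hpow : ∀ N : ℕ, (1 - q) ^ N = Real.exp (-(b * N))) :
    EA q (Sb o ℓ j1 j2) (fun T => if M < (NE o ℓ j1 j2 T : ℝ) then (1:ℝ) else 0) ≤
      2 ^ (j2 - j1) * Real.exp (-(b * ℓ * M)) := by
  have hq1 : 0 < 1 - q := by linarith
  have hx0 : 0 < (1 - q) ^ ℓ := pow_pos hq1 _
  have hx1 : (1 - q) ^ ℓ ≤ 1 := pow_le_one₀ hq1.le (by linarith)
  have hle : ∀ T, (if M < (NE o ℓ j1 j2 T : ℝ) then (1:ℝ) else 0) ≤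
      ∑ J ∈ (Finset.Ico j1 j2).powerset, (if M < (J.card : ℝ) then (1:ℝ) else 0) *
        (if (∀ i ∈ Finset.Ico j1 j2, (T ∩ Bk o ℓ i = ∅ ↔ i ∈ J)) then (1:ℝ) else 0) := by
    intro T
    have hnn : ∀ J : Finset ℕ, (0:ℝ) ≤ (if M < (J.card : ℝ) then (1:ℝ) else 0) *
        (if (∀ i ∈ Finset.Ico j1 j2, (T ∩ Bk o ℓ i = ∅ ↔ i ∈ J)) then (1:ℝ) else 0) := by
      intro J
      apply mul_nonneg <;> split_ifs <;> norm_num
    by_cases h : M < (NE o ℓ j1 j2 T : ℝ)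
    · rw [if_pos h]
      have hJ : (Finset.Ico j1 j2).filter (fun i => T ∩ Bk o ℓ i = ∅) ∈
          (Finset.Ico j1 j2).powerset := Finset.mem_powerset.mpr (Finset.filter_subset _ _)
      refine le_trans ?_ (Finset.single_le_sum (fun J _ => hnn J) hJ)
      rw [if_pos (show M < ((((Finset.Ico j1 j2).filter (fun i => T ∩ Bk o ℓ i = ∅)).card : ℕ) : ℝ)
        from h), if_pos, one_mul]
      intro i hi
      rw [Finset.mem_filter]
      exact ⟨fun h => ⟨hi, h⟩, fun h => h.2⟩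
    · rw [if_neg h]
      exact Finset.sum_nonneg (fun J _ => hnn J)
  refine (EA_mono_aux h0 h1 _ _ _ hle).trans ?_
  have hsum : EA q (Sb o ℓ j1 j2) (fun T => ∑ J ∈ (Finset.Ico j1 j2).powerset,
      (if M < (J.card : ℝ) then (1:ℝ) else 0) *
        (if (∀ i ∈ Finset.Ico j1 j2, (T ∩ Bk o ℓ i = ∅ ↔ i ∈ J)) then (1:ℝ) else 0)) =
      ∑ J ∈ (Finset.Ico j1 j2).powerset, (if M < (J.card : ℝ) then (1:ℝ) else 0) *
        EA q (Sb o ℓ j1 j2) (fun T =>
          if (∀ i ∈ Finset.Ico j1 j2, (T ∩ Bk o ℓ i = ∅ ↔ i ∈ J)) then (1:ℝ) else 0) := by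
    unfold EA
    simp_rw [Finset.mul_sum]
    rw [Finset.sum_comm]
    refine Finset.sum_congr rfl fun J _ => Finset.sum_congr rfl fun U _ => ?_
    ring
  rw [hsum]
  have hcard : ((2:ℝ) ^ (j2 - j1) * Real.exp (-(b * ℓ * M))) =
      ∑ J ∈ (Finset.Ico j1 j2).powerset, Real.exp (-(b * ℓ * M)) := by
    rw [Finset.sum_const, Finset.card_powerset, Nat.card_Ico, nsmul_eq_mul]
    push_cast
    rfl
  rw [hcard]
  refine Finset.sum_le_sum fun J hJ => ?_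
  have hJ' := Finset.mem_powerset.mp hJ
  by_cases hM : M < (J.card : ℝ)
  · rw [if_pos hM, one_mul, EA_Q_aux q o ℓ j1 J j2 hj]
    have h2 : ∏ i ∈ Finset.Ico j1 j2, (if i ∈ J then (1 - q) ^ ℓ else 1 - (1 - q) ^ ℓ) ≤
        ∏ i ∈ Finset.Ico j1 j2, (if i ∈ J then (1 - q) ^ ℓ else 1) := by
      apply Finset.prod_le_prod
      · intro i _
        split_ifs <;> linarith
      · intro i _
        split_ifs <;> linarith
    refine h2.trans ?_
    rw [prod_ind_aux]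
    have h3 : (Finset.Ico j1 j2).filter (fun i => i ∈ J) = J := by
      ext i
      rw [Finset.mem_filter]
      exact ⟨fun h => h.2, fun h => ⟨hJ' h, h⟩⟩
    rw [h3, ← pow_mul, hpow]
    apply Real.exp_le_exp.mpr
    push_cast
    have h4 : 0 ≤ b * ℓ := by positivity
    nlinarith [mul_le_mul_of_nonneg_left hM.le h4]
  · rw [if_neg hM, zero_mul]
    exact (Real.exp_pos _).le

theorem E_cov_aux {X : Type} (m : FM X) (F H : X → ℝ) (a b : ℝ) :
    m.E (fun x => (F x - a) * (H x - b)) =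
      m.E (fun x => F x * H x) - a * m.E H - b * m.E F + a * b := by
  unfold FM.E
  have h1 : ∀ x ∈ m.s, m.w x * ((F x - a) * (H x - b)) = m.w x * (F x * H x) -
      a * (m.w x * H x) - b * (m.w x * F x) + (a * b) * m.w x := by
    intro x _; ring
  rw [Finset.sum_congr rfl h1, Finset.sum_add_distrib, Finset.sum_sub_distrib,
    Finset.sum_sub_distrib, ← Finset.mul_sum, ← Finset.mul_sum, ← Finset.mul_sum, m.hone, mul_one]

theorem cov_le_aux {X : Type} (m : FM X) (F H : X → ℝ) :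
    (m.E (fun x => F x * H x) - m.E F * m.E H) ^ 2 ≤ m.Var F * m.Var H := by
  have h : (m.E (fun x => (F x - m.E F) * (H x - m.E H))) ^ 2 ≤
      m.E (fun x => (F x - m.E F) * (F x - m.E F)) *
        m.E (fun x => (H x - m.E H) * (H x - m.E H)) := by
    unfold FM.E
    apply Finset.sum_sq_le_sum_mul_sum_of_sq_eq_mul
    · intro x hx; exact mul_nonneg (m.hw x hx).le (mul_self_nonneg _)
    · intro x hx; exact mul_nonneg (m.hw x hx).le (mul_self_nonneg _)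
    · intro x hx; ring
  rw [E_cov_aux, E_cov_aux, E_cov_aux] at h
  have hv : ∀ F : X → ℝ, m.Var F =
      m.E (fun x => F x * F x) - m.E F * m.E F - m.E F * m.E F + m.E F * m.E F := by
    intro F
    unfold FM.Var
    simp_rw [sq]
    ring
  rw [hv F, hv H]
  refine le_trans (le_of_eq ?_) h
  ring

theorem mix_aux {X : Type} (G : MG X) (m : FM X) (hrev : Rev G m) (C : ℝ) (hC : 0 < C)
    (hgap : ∀ F : X → ℝ, Bd F → m.Var F ≤ C * Dir G m F) (f g : X → ℝ)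
    (hf : ∀ x, f x = 0 ∨ f x = 1) (hg : ∀ x, g x = 0 ∨ g x = 1) (u : ℝ) (hu : 0 ≤ u) :
    m.E (fun x => f x * G.P u g x) ≤
      m.E f * m.E g + Real.sqrt (m.E f * (Real.exp (-(2 * u / C)) * m.E g)) := by
  have hgb : Bd g := ⟨1, fun x => by rcases hg x with h | h <;> rw [h] <;> norm_num⟩
  have h1 := cov_le_aux m f (G.P u g)
  rw [E_P G m hrev g hgb u] at h1
  have hvar : ∀ k : X → ℝ, (∀ x, k x = 0 ∨ k x = 1) → m.Var k ≤ m.E k := by
    intro k hk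
    unfold FM.Var
    have : (fun x => k x ^ 2) = k := by
      funext x
      rcases hk x with h | h <;> rw [h] <;> norm_num
    rw [this]
    nlinarith [sq_nonneg (m.E k)]
  have hE : ∀ k : X → ℝ, (∀ x, k x = 0 ∨ k x = 1) → 0 ≤ m.E k := by
    intro k hk
    exact (var_nonneg m k).trans (hvar k hk)
  have h2 := l2_decay G m hrev C hC hgap g hgb u hu
  have h3 : m.Var (G.P u g) ≤ Real.exp (-(2 * u / C)) * m.E g :=
    h2.trans (mul_le_mul_of_nonneg_left (hvar g hg) (Real.exp_pos _).le)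
  have h4 : (m.E (fun x => f x * G.P u g x) - m.E f * m.E g) ^ 2 ≤
      m.E f * (Real.exp (-(2 * u / C)) * m.E g) :=
    h1.trans (mul_le_mul (hvar f hf) h3 (var_nonneg m _) (hE f hf))
  have h5 := (le_abs_self _).trans (Real.abs_le_sqrt h4)
  linarith

theorem EN_eq_aux (q : ℝ) (A : Finset ℤ) (F : Finset ℤ → ℝ) (hF : F ∅ = 0) :
    EN q A F = EA q A F / Zn q A := by
  unfold EN EA
  congr 1
  apply Finset.sum_filter_of_ne
  intro U _ hne
  by_contra hcon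
  rw [Finset.not_nonempty_iff_eq_empty] at hcon
  rw [hcon, hF, mul_zero] at hne
  exact hne rfl

theorem EN_le_aux (h0 : 0 < q) (h1 : q < 1) (A : Finset ℤ) (hA : A.Nonempty) (F : Finset ℤ → ℝ)
    (hF : ∀ S, 0 ≤ F S) : EN q A F ≤ EA q A F / Zn q A := by
  unfold EN EA
  apply div_le_div_of_nonneg_right _ (Zn_pos' h0 h1 A hA).le
  apply Finset.sum_le_sum_of_subset_of_nonneg (Finset.filter_subset _ _)
  intro U _ _
  exact mul_nonneg (wt_nonneg h0.le h1.le A U) (hF U)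

theorem Zn_ge_aux (h0 : 0 < q) (h1 : q < 1) (A : Finset ℤ) (hA : A.Nonempty) : q ≤ Zn q A := by
  unfold Zn
  have h2 : (1 - q) ^ A.card ≤ (1 - q) ^ 1 :=
    pow_le_pow_of_le_one (by linarith) (by linarith) (Finset.card_pos.2 hA)
  rw [pow_one] at h2
  linarith

theorem Zn_le_aux (h0 : 0 < q) (h1 : q < 1) (A : Finset ℤ) : Zn q A ≤ 1 := by
  unfold Zn
  have : 0 ≤ (1 - q) ^ A.card := pow_nonneg (by linarith) _
  linarith

/-- final arithmetic -/
theorem arith_aux (A B b C u ρ η K q L N0 : ℝ) (hA : 0 < A) (hB : 0 ≤ B) (hb : 0 < b) (hC : 0 < C)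
    (hu : 0 ≤ u) (hη : 0 ≤ η) (hK : 1 ≤ K) (hq0 : 0 < q) (hq1 : q < 1) (hL : 0 ≤ L)
    (hρ : ρ * L ≤ 1 / (C * b) * u)
    (hBle : B ≤ K / q * Real.exp (-(b * L * max η (N0 - ρ))))
    (hAge : 1 / K * Real.exp (-(b * L * N0)) ≤ A) :
    A * B + Real.sqrt (A * (Real.exp (-(2 * u / C)) * B)) ≤
      (K / q * (Real.exp (-(min b (1 / (2 * C)) * L * η)) +
        Real.exp (-(min b (1 / (2 * C)) * u)))) * A := by
  have hK0 : 0 < K := by linarith
  have hKq : 0 < K / q := div_pos hK0 hq0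
  have h1 : B ≤ K / q * Real.exp (-(min b (1 / (2 * C)) * L * η)) := by
    refine hBle.trans (mul_le_mul_of_nonneg_left (Real.exp_le_exp.mpr ?_) hKq.le)
    have h2 : min b (1 / (2 * C)) * L * η ≤ b * L * η :=
      mul_le_mul_of_nonneg_right (mul_le_mul_of_nonneg_right (min_le_left _ _) hL) hη
    have h3 : b * L * η ≤ b * L * max η (N0 - ρ) :=
      mul_le_mul_of_nonneg_left (le_max_left _ _) (mul_nonneg hb.le hL)
    linarith
  have h2 : Real.sqrt (A * (Real.exp (-(2 * u / C)) * B)) ≤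
      (K / q * Real.exp (-(min b (1 / (2 * C)) * u))) * A := by
    apply Real.sqrt_le_iff.mpr
    constructor
    · positivity
    · have h3 : Real.exp (-(2 * u / C)) * B ≤
          (K / q * Real.exp (-(min b (1 / (2 * C)) * u))) ^ 2 * A := by
        have h4 : B ≤ K / q * Real.exp (-(b * L * (N0 - ρ))) := by
          refine hBle.trans (mul_le_mul_of_nonneg_left (Real.exp_le_exp.mpr ?_) hKq.le)
          have := mul_le_mul_of_nonneg_left (le_max_right η (N0 - ρ)) (mul_nonneg hb.le hL)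
          linarith
        have h5 : (K / q * Real.exp (-(min b (1 / (2 * C)) * u))) ^ 2 *
            (1 / K * Real.exp (-(b * L * N0))) ≤
            (K / q * Real.exp (-(min b (1 / (2 * C)) * u))) ^ 2 * A :=
          mul_le_mul_of_nonneg_left hAge (by positivity)
        refine le_trans ?_ h5
        refine (mul_le_mul_of_nonneg_left h4 (Real.exp_pos _).le).trans ?_
        have e1 : Real.exp (-(2 * u / C)) * (K / q * Real.exp (-(b * L * (N0 - ρ)))) =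
            K / q * Real.exp (-(2 * u / C) + -(b * L * (N0 - ρ))) := by
          rw [Real.exp_add]; ring
        have e2 : (K / q * Real.exp (-(min b (1 / (2 * C)) * u))) ^ 2 *
            (1 / K * Real.exp (-(b * L * N0))) =
            K / q * (1 / q) * Real.exp (-(min b (1 / (2 * C)) * u) + -(min b (1 / (2 * C)) * u) +
              -(b * L * N0)) := by
          rw [Real.exp_add, Real.exp_add]
          field_simp
        rw [e1, e2]
        apply mul_le_mul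
        · have : 1 ≤ 1 / q := by rw [le_div_iff₀ hq0]; linarith
          nlinarith
        · apply Real.exp_le_exp.mpr
          have h6 : b * (ρ * L) ≤ b * (1 / (C * b) * u) := mul_le_mul_of_nonneg_left hρ hb.le
          have h7 : b * (1 / (C * b) * u) = u / C := by field_simp
          have h8 : min b (1 / (2 * C)) * u ≤ 1 / (2 * C) * u :=
            mul_le_mul_of_nonneg_right (min_le_right _ _) hu
          have h9 : 1 / (2 * C) * u = (u / C) / 2 := by field_simp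
          have h10 : 2 * u / C = 2 * (u / C) := by ring
          rw [h10]
          nlinarith
        · exact (Real.exp_pos _).le
        · positivity
      calc A * (Real.exp (-(2 * u / C)) * B) ≤
            A * ((K / q * Real.exp (-(min b (1 / (2 * C)) * u))) ^ 2 * A) :=
            mul_le_mul_of_nonneg_left h3 hA.le
        _ = _ := by ring
  have h3 : A * B ≤ A * (K / q * Real.exp (-(min b (1 / (2 * C)) * L * η))) :=
    mul_le_mul_of_nonneg_left h1 hA.le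
  nlinarith

/-- gap volume decreases linearly, started from any block pattern equilibrium -/
theorem lemG (h0 : 0 < q) (h1 : q < 1) : ∃ ϑ c1 : ℝ, ∃ ℓ1 : ℕ, 0 < ϑ ∧ 0 < c1 ∧ ∀ (o : ℤ) (ℓ n : ℕ) (hl : 1 ≤ ℓ)
    (hn : 1 ≤ n), ℓ1 ≤ ℓ → ∀ (j1 j2 : ℕ), j1 < j2 → j2 ≤ n → ∀ (u ρ η : ℝ), 0 ≤ u → 0 ≤ ρ → ρ * ℓ ≤ ϑ * u → 0 ≤ η →
    ∀ y : Finset ℕ,
      (bm q h0 h1 o ℓ n hl hn).E (fun S => if pat o ℓ n S = y then Gf q h0 h1 o ℓ j1 j2 u ρ η S else 0) ≤
        (2 ^ n / q * (Real.exp (-(c1 * ℓ * η)) + Real.exp (-(c1 * u)))) *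
          (bm q h0 h1 o ℓ n hl hn).E (fun S => if pat o ℓ n S = y then 1 else 0) := by
  obtain ⟨C, hC, hgap⟩ := adm_gap h0 h1
  have hq1 : 0 < 1 - q := by linarith
  obtain ⟨b, hb⟩ : ∃ b : ℝ, b = -Real.log (1 - q) := ⟨_, rfl⟩
  have hbpos : 0 < b := by
    have := Real.log_neg hq1 (by linarith)
    rw [hb]; linarith
  have hpow : ∀ N : ℕ, (1 - q) ^ N = Real.exp (-(b * N)) := by
    intro N
    rw [hb, neg_mul, neg_neg, mul_comm, Real.exp_nat_mul, Real.exp_log hq1]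
  obtain ⟨ℓ0, hℓ0⟩ := exists_pow_lt_of_lt_one (by norm_num : (0:ℝ) < 1/2)
    (by linarith : 1 - q < 1)
  refine ⟨1 / (C * b), min b (1 / (2 * C)), max 3 ℓ0, by positivity,
    lt_min hbpos (by positivity), ?_⟩
  intro o ℓ n hl hn hℓ j1 j2 hj hjn u ρ η hu hρ hρu hη y
  have hℓ3 : 3 ≤ ℓ := le_trans (le_max_left _ _) hℓ
  have hx : (1 - q) ^ ℓ ≤ 1 / 2 :=
    (pow_le_pow_of_le_one hq1.le (by linarith) (le_trans (le_max_right _ _) hℓ)).trans hℓ0.le
  have hx0 : 0 < (1 - q) ^ ℓ := pow_pos hq1 _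
  have hE : ∀ F, (bm q h0 h1 o ℓ n hl hn).E F = EN q (Sb o ℓ 0 n) F :=
    fun F => nfm_E h0 h1 _ _ F
  rw [hE, hE]
  have hΛne := Sb_nonempty o ℓ n hl hn
  have hZ := Zn_pos' h0 h1 _ hΛne
  have hBd : 0 ≤ (2:ℝ) ^ n / q * (Real.exp (-(min b (1 / (2 * C)) * ℓ * η)) +
      Real.exp (-(min b (1 / (2 * C)) * u))) := by positivity
  have hIcon : ∀ i ∈ Finset.Ico j1 j2, i ∈ Finset.range n := by
    intro i hi
    rw [Finset.mem_Ico] at hi
    rw [Finset.mem_range]; omega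
  -- if the pattern forces all blocks to be empty
  by_cases hall : ∀ i ∈ Finset.Ico j1 j2, i ∈ y
  · have hz : (fun S => if pat o ℓ n S = y then Gf q h0 h1 o ℓ j1 j2 u ρ η S else 0) =
        fun _ => (0:ℝ) := by
      funext S
      by_cases hS : pat o ℓ n S = y
      · rw [if_pos hS]
        unfold Gf
        rw [if_pos]
        apply inter_Sb_aux o ℓ j1 S j2 hj.le
        intro i hi
        have := hall i hi
        rw [← hS] at this
        exact (Finset.mem_filter.mp this).2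
      · rw [if_neg hS]
    rw [hz]
    have e0 : EN q (Sb o ℓ 0 n) (fun _ => (0:ℝ)) = 0 := by
      unfold EN; simp
    rw [e0]
    apply mul_nonneg hBd
    unfold EN
    apply div_nonneg _ hZ.le
    apply Finset.sum_nonneg
    intro U _
    apply mul_nonneg (wt_nonneg h0.le h1.le _ _)
    beta_reduce
    split_ifs <;> norm_num
  push Not at hall
  obtain ⟨i0, hi0, hi0y⟩ := hall
  have hF1 : (fun S => if pat o ℓ n S = y then Gf q h0 h1 o ℓ j1 j2 u ρ η S else 0) ∅ = 0 := by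
    show (if pat o ℓ n ∅ = y then Gf q h0 h1 o ℓ j1 j2 u ρ η ∅ else 0) = 0
    split_ifs
    · unfold Gf
      rw [if_pos (Finset.empty_inter _)]
    · rfl
  have hF2 : (fun S => if pat o ℓ n S = y then (1:ℝ) else 0) ∅ = 0 := by
    show (if pat o ℓ n ∅ = y then (1:ℝ) else 0) = 0
    rw [if_neg]
    intro h
    apply hi0y
    rw [← h]
    exact Finset.mem_filter.mpr ⟨hIcon i0 hi0, Finset.empty_inter _⟩
  rw [EN_eq_aux q _ _ hF1, EN_eq_aux q _ _ hF2, ← mul_div_assoc]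
  apply div_le_div_of_nonneg_right _ hZ.le
  -- the case where `y` is not a subset of the range
  by_cases hyr : y ⊆ Finset.range n
  swap
  · have hne : ∀ S, pat o ℓ n S ≠ y := by
      intro S h
      apply hyr
      rw [← h]
      exact Finset.filter_subset _ _
    have e1 : EA q (Sb o ℓ 0 n) (fun S => if pat o ℓ n S = y then
        Gf q h0 h1 o ℓ j1 j2 u ρ η S else 0) = 0 := by
      unfold EA
      apply Finset.sum_eq_zero
      intro U _
      beta_reduce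
      rw [if_neg (hne U), mul_zero]
    rw [e1]
    apply mul_nonneg hBd
    apply EA_nonneg_aux h0 h1
    intro S
    split_ifs <;> norm_num
  -- the main case
  obtain ⟨N0, hN0⟩ : ∃ N0 : ℕ, N0 = ((Finset.Ico j1 j2).filter (fun i => i ∈ y)).card := ⟨_, rfl⟩
  obtain ⟨f, hf⟩ : ∃ f : Finset ℤ → ℝ, f = fun T =>
    if (∀ i ∈ Finset.Ico j1 j2, (T ∩ Bk o ℓ i = ∅ ↔ i ∈ y)) then (1:ℝ) else 0 := ⟨_, rfl⟩
  obtain ⟨g, hg⟩ : ∃ g : Finset ℤ → ℝ, g = fun T =>
    if max η ((N0 : ℝ) - ρ) < (NE o ℓ j1 j2 T : ℝ) then (1:ℝ) else 0 := ⟨_, rfl⟩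
  obtain ⟨r, hr⟩ : ∃ r : Finset ℤ → ℝ, r = fun T =>
    if (∀ i ∈ Finset.range n \ Finset.Ico j1 j2, (T ∩ Bk o ℓ i = ∅ ↔ i ∈ y)) then (1:ℝ) else 0 :=
    ⟨_, rfl⟩
  have hpat : ∀ S, pat o ℓ n S = y ↔
      ((∀ i ∈ Finset.range n \ Finset.Ico j1 j2, ((S \ Sb o ℓ j1 j2) ∩ Bk o ℓ i = ∅ ↔ i ∈ y)) ∧
      (∀ i ∈ Finset.Ico j1 j2, ((S ∩ Sb o ℓ j1 j2) ∩ Bk o ℓ i = ∅ ↔ i ∈ y))) := by
    intro S
    have e1 : ∀ i ∈ Finset.range n \ Finset.Ico j1 j2,
        S ∩ Bk o ℓ i = (S \ Sb o ℓ j1 j2) ∩ Bk o ℓ i := fun i hi =>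
      inter_out_aux (Bk_disj_aux o ℓ i j1 j2 (Finset.mem_sdiff.mp hi).2)
    have e2 : ∀ i ∈ Finset.Ico j1 j2, S ∩ Bk o ℓ i = (S ∩ Sb o ℓ j1 j2) ∩ Bk o ℓ i :=
      fun i hi => inter_in_aux (Bk_sub_aux o ℓ i j1 j2 hi)
    constructor
    · intro h
      have h3 : ∀ i ∈ Finset.range n, (S ∩ Bk o ℓ i = ∅ ↔ i ∈ y) := by
        intro i hi
        rw [← h]
        unfold pat
        rw [Finset.mem_filter]
        exact ⟨fun h => ⟨hi, h⟩, fun h => h.2⟩
      exact ⟨fun i hi => by rw [← e1 i hi]; exact h3 i (Finset.mem_sdiff.mp hi).1,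
        fun i hi => by rw [← e2 i hi]; exact h3 i (hIcon i hi)⟩
    · rintro ⟨h3, h4⟩
      ext i
      unfold pat
      rw [Finset.mem_filter]
      by_cases hi : i ∈ Finset.range n
      · by_cases hi2 : i ∈ Finset.Ico j1 j2
        · have := h4 i hi2
          rw [← e2 i hi2] at this
          rw [← this]
          exact ⟨fun h => h.2, fun h => ⟨hi, h⟩⟩
        · have := h3 i (Finset.mem_sdiff.mpr ⟨hi, hi2⟩)
          rw [← e1 i (Finset.mem_sdiff.mpr ⟨hi, hi2⟩)] at this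
          rw [← this]
          exact ⟨fun h => h.2, fun h => ⟨hi, h⟩⟩
      · exact ⟨fun h => absurd h.1 hi, fun h => absurd (hyr h) hi⟩
  have hNE : ∀ S, pat o ℓ n S = y → NE o ℓ j1 j2 S = N0 := by
    intro S h
    rw [hN0]
    unfold NE
    congr 1
    ext i
    rw [Finset.mem_filter, Finset.mem_filter]
    constructor
    · rintro ⟨h2, h3⟩
      refine ⟨h2, ?_⟩
      rw [← h]
      exact Finset.mem_filter.mpr ⟨hIcon i h2, h3⟩
    · rintro ⟨h2, h3⟩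
      refine ⟨h2, ?_⟩
      rw [← h] at h3
      exact (Finset.mem_filter.mp h3).2
  have hSne : ∀ S, pat o ℓ n S = y → S ∩ Sb o ℓ j1 j2 ≠ ∅ := by
    intro S h hS
    apply hi0y
    rw [← h]
    refine Finset.mem_filter.mpr ⟨hIcon i0 hi0, ?_⟩
    rw [inter_in_aux (Bk_sub_aux o ℓ i0 j1 j2 hi0), hS, Finset.empty_inter]
  have hsub : Sb o ℓ j1 j2 ⊆ Sb o ℓ 0 n := Sb_sub_aux o ℓ _ _ _ _ (Nat.zero_le _) hjn
  have hG : ∀ S, pat o ℓ n S = y → Gf q h0 h1 o ℓ j1 j2 u ρ η S =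
      (bG q h0 h1 o ℓ j1 j2).P u g (S ∩ Sb o ℓ j1 j2) := by
    intro S h
    unfold Gf
    rw [if_neg (hSne S h), hNE S h, hg]
  have hfac1 : EA q (Sb o ℓ 0 n) (fun S => if pat o ℓ n S = y then
      Gf q h0 h1 o ℓ j1 j2 u ρ η S else 0) =
      EA q (Sb o ℓ 0 n \ Sb o ℓ j1 j2) r *
        EA q (Sb o ℓ j1 j2) (fun T => f T * (bG q h0 h1 o ℓ j1 j2).P u g T) := by
    apply EA_factor_aux q _ _ hsub
    intro S
    by_cases hS : pat o ℓ n S = y
    · have h2 := (hpat S).mp hS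
      rw [if_pos hS, hG S hS, hr, hf]
      simp only []
      rw [if_pos h2.1, if_pos h2.2, one_mul, one_mul]
    · rw [if_neg hS, hr, hf]
      simp only []
      by_cases hA : (∀ i ∈ Finset.range n \ Finset.Ico j1 j2,
          ((S \ Sb o ℓ j1 j2) ∩ Bk o ℓ i = ∅ ↔ i ∈ y))
      · have hB : ¬ (∀ i ∈ Finset.Ico j1 j2, ((S ∩ Sb o ℓ j1 j2) ∩ Bk o ℓ i = ∅ ↔ i ∈ y)) :=
          fun hB => hS ((hpat S).mpr ⟨hA, hB⟩)
        rw [if_neg hB, zero_mul, mul_zero]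
      · rw [if_neg hA, zero_mul]
  have hfac2 : EA q (Sb o ℓ 0 n) (fun S => if pat o ℓ n S = y then (1:ℝ) else 0) =
      EA q (Sb o ℓ 0 n \ Sb o ℓ j1 j2) r * EA q (Sb o ℓ j1 j2) f := by
    apply EA_factor_aux q _ _ hsub
    intro S
    by_cases hS : pat o ℓ n S = y
    · have h2 := (hpat S).mp hS
      rw [if_pos hS, hr, hf]
      simp only []
      rw [if_pos h2.1, if_pos h2.2, one_mul]
    · rw [if_neg hS, hr, hf]
      simp only []
      by_cases hA : (∀ i ∈ Finset.range n \ Finset.Ico j1 j2,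
          ((S \ Sb o ℓ j1 j2) ∩ Bk o ℓ i = ∅ ↔ i ∈ y))
      · have hB : ¬ (∀ i ∈ Finset.Ico j1 j2, ((S ∩ Sb o ℓ j1 j2) ∩ Bk o ℓ i = ∅ ↔ i ∈ y)) :=
          fun hB => hS ((hpat S).mpr ⟨hA, hB⟩)
        rw [if_neg hB, mul_zero]
      · rw [if_neg hA, zero_mul]
  rw [hfac1, hfac2]
  have hR : 0 ≤ EA q (Sb o ℓ 0 n \ Sb o ℓ j1 j2) r := by
    apply EA_nonneg_aux h0 h1
    intro S
    rw [hr]
    simp only []
    split_ifs <;> norm_num
  -- the block measure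
  have hab : o + (j1 : ℤ) * ℓ + 2 ≤ o + (j2 : ℤ) * ℓ - 1 := by
    have h2 := mul_le_aux (j1 + 1) j2 ℓ hj
    push_cast at h2
    have h3 : (3:ℤ) ≤ ℓ := by exact_mod_cast hℓ3
    nlinarith
  have hab' : o + (j1 : ℤ) * ℓ ≤ o + (j2 : ℤ) * ℓ - 1 := by linarith
  have hadm := adm_box _ _ hab
  have hΛ'ne : (Sb o ℓ j1 j2).Nonempty := Finset.nonempty_Icc.2 hab'
  obtain ⟨m, hm⟩ : ∃ m : FM (Finset ℤ), m = nfm q h0 h1 (Icc (o + (j1 : ℤ) * ℓ)
    (o + (j2 : ℤ) * ℓ - 1)) (Finset.nonempty_Icc.2 hab') := ⟨_, rfl⟩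
  have hmE : ∀ F, m.E F = EN q (Sb o ℓ j1 j2) F := by
    intro F
    rw [hm]
    exact nfm_E h0 h1 _ _ F
  have hrev : Rev (bG q h0 h1 o ℓ j1 j2) m := by
    rw [hm]
    exact adm_rev h0 h1 _ _ hab' _ hadm
  have hgap' : ∀ F : Finset ℤ → ℝ, Bd F → m.Var F ≤ C * Dir (bG q h0 h1 o ℓ j1 j2) m F := by
    intro F _
    rw [hm]
    exact hgap _ _ hab' _ hadm F
  have hf01 : ∀ x, f x = 0 ∨ f x = 1 := by
    intro x; rw [hf]; simp only []; split_ifs <;> simp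
  have hg01 : ∀ x, g x = 0 ∨ g x = 1 := by
    intro x; rw [hg]; simp only []; split_ifs <;> simp
  have hmix := mix_aux (bG q h0 h1 o ℓ j1 j2) m hrev C hC hgap' f g hf01 hg01 u hu
  have hf0 : f ∅ = 0 := by
    rw [hf]
    simp only []
    rw [if_neg]
    intro h
    exact hi0y ((h i0 hi0).mp (Finset.empty_inter _))
  have hZ' := Zn_pos' h0 h1 _ hΛ'ne
  have hEf : m.E f = EA q (Sb o ℓ j1 j2) f / Zn q (Sb o ℓ j1 j2) := by
    rw [hmE, EN_eq_aux q _ _ hf0]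
  have hEfP : m.E (fun x => f x * (bG q h0 h1 o ℓ j1 j2).P u g x) =
      EA q (Sb o ℓ j1 j2) (fun T => f T * (bG q h0 h1 o ℓ j1 j2).P u g T) /
        Zn q (Sb o ℓ j1 j2) := by
    rw [hmE, EN_eq_aux q]
    show f ∅ * _ = 0
    rw [hf0, zero_mul]
  have hfnn : 0 ≤ EA q (Sb o ℓ j1 j2) f := by
    apply EA_nonneg_aux h0 h1
    intro S
    rcases hf01 S with h | h <;> rw [h] <;> norm_num
  have hnle : j2 - j1 ≤ n := by omega
  have hK1 : (1:ℝ) ≤ 2 ^ n := one_le_pow₀ (by norm_num)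
  -- lower bound
  have hAge : 1 / (2:ℝ) ^ n * Real.exp (-(b * ℓ * N0)) ≤ m.E f := by
    rw [hEf]
    have h2 : EA q (Sb o ℓ j1 j2) f =
        ∏ i ∈ Finset.Ico j1 j2, (if i ∈ y then (1 - q) ^ ℓ else 1 - (1 - q) ^ ℓ) := by
      rw [hf]
      exact EA_Q_aux q o ℓ j1 y j2 hj.le
    have h3 : ∏ i ∈ Finset.Ico j1 j2, ((if i ∈ y then (1 - q) ^ ℓ else 1) * (1 / 2)) ≤
        ∏ i ∈ Finset.Ico j1 j2, (if i ∈ y then (1 - q) ^ ℓ else 1 - (1 - q) ^ ℓ) := by
      apply Finset.prod_le_prod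
      · intro i _
        split_ifs <;> linarith
      · intro i _
        split_ifs <;> linarith
    rw [Finset.prod_mul_distrib, prod_ind_aux, Finset.prod_const, Nat.card_Ico, ← hN0, ← pow_mul,
      hpow] at h3
    have h4 : 1 / (2:ℝ) ^ n ≤ (1 / 2) ^ (j2 - j1) := by
      rw [one_div, ← inv_pow, ← one_div]
      exact pow_le_pow_of_le_one (by norm_num) (by norm_num) hnle
    have h5 : EA q (Sb o ℓ j1 j2) f ≤ EA q (Sb o ℓ j1 j2) f / Zn q (Sb o ℓ j1 j2) := by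
      rw [le_div_iff₀ hZ']
      have := Zn_le_aux h0 h1 (Sb o ℓ j1 j2)
      nlinarith
    refine le_trans ?_ h5
    rw [h2]
    refine le_trans ?_ h3
    rw [mul_comm]
    apply mul_le_mul (le_of_eq _) h4 (by positivity) (Real.exp_pos _).le
    congr 1
    push_cast
    ring
  have hA : 0 < m.E f := lt_of_lt_of_le (by positivity) hAge
  have hgnn : 0 ≤ m.E g := by
    have hs : ∀ x, 0 ≤ g x := fun x => by rcases hg01 x with h | h <;> rw [h] <;> norm_num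
    unfold FM.E
    exact Finset.sum_nonneg fun x hx => mul_nonneg (m.hw x hx).le (hs x)
  -- upper bound
  have hBle : m.E g ≤ (2:ℝ) ^ n / q * Real.exp (-(b * ℓ * max η ((N0:ℝ) - ρ))) := by
    have hs : ∀ x, 0 ≤ g x := fun x => by rcases hg01 x with h | h <;> rw [h] <;> norm_num
    rw [hmE]
    refine (EN_le_aux h0 h1 _ hΛ'ne g hs).trans ?_
    have h2 : EA q (Sb o ℓ j1 j2) g ≤
        2 ^ (j2 - j1) * Real.exp (-(b * ℓ * max η ((N0:ℝ) - ρ))) := by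
      rw [hg]
      exact EA_g_aux h0 h1 o ℓ j1 j2 hj.le _ b hbpos hpow
    have h3 : (2:ℝ) ^ (j2 - j1) ≤ 2 ^ n := pow_le_pow_right₀ (by norm_num) hnle
    have h4 : EA q (Sb o ℓ j1 j2) g ≤ 2 ^ n * Real.exp (-(b * ℓ * max η ((N0:ℝ) - ρ))) :=
      h2.trans (mul_le_mul_of_nonneg_right h3 (Real.exp_pos _).le)
    rw [div_mul_eq_mul_div]
    apply div_le_div₀ (by positivity) h4 h0 (Zn_ge_aux h0 h1 _ hΛ'ne)
  have hfin := arith_aux (m.E f) (m.E g) b C u ρ η ((2:ℝ) ^ n) q ℓ N0 hA hgnn hbpos hC hu hη hK1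
    h0 h1 (Nat.cast_nonneg _) hρu hBle hAge
  have hkey := hmix.trans hfin
  rw [hEfP, hEf, ← mul_div_assoc, div_le_div_iff_of_pos_right hZ'] at hkey
  calc EA q (Sb o ℓ 0 n \ Sb o ℓ j1 j2) r *
        EA q (Sb o ℓ j1 j2) (fun T => f T * (bG q h0 h1 o ℓ j1 j2).P u g T) ≤
        EA q (Sb o ℓ 0 n \ Sb o ℓ j1 j2) r * _ := mul_le_mul_of_nonneg_left hkey hR
    _ = _ := by ring

end FA
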