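import Pool.Agent.Helper870.FADefs
import Pool.Agent.Helper870.FAG1
import Pool.Agent.Helper870.FAS6
import Pool.Agent.Helper870.FAS9
import Pool.Agent.Helper870.FAS10
import Pool.Agent.Helper870.FAD2
import Pool.Agent.Helper870.FAR1
import Pool.Agent.Helper870.FAG6
import Pool.Agent.Helper870.FAD3
import Pool.Agent.Helper870.FAD4
import Pool.Agent.Helper870.FALB
import Pool.Agent.Helper870.FALSI
import Pool.Agent.Helper870.FAD5
import Pool.Agent.Helper870.FAD7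

set_option autoImplicit false
set_option linter.unusedSectionVars false

open Finset

noncomputable section

-- USES: G1 S6 S9 S10 D2 R1 G6 D3 D4 LB LSI D5 D7
namespace FA
variable {q : ℝ}

theorem E_congr_15630 {X : Type} (m : FM X) {F H : X → ℝ} (h : ∀ x ∈ m.s, F x = H x) :
    m.E F = m.E H := by
  unfold FM.E
  exact Finset.sum_congr rfl (fun x hx => by rw [h x hx])

theorem E_mono_15630 {X : Type} (m : FM X) {F H : X → ℝ} (h : ∀ x ∈ m.s, F x ≤ H x) :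
    m.E F ≤ m.E H := by
  unfold FM.E
  exact Finset.sum_le_sum (fun x hx => mul_le_mul_of_nonneg_left (h x hx) (m.hw x hx).le)

theorem E_add_15630 {X : Type} (m : FM X) (F H : X → ℝ) :
    m.E (fun x => F x + H x) = m.E F + m.E H := by
  unfold FM.E
  rw [← Finset.sum_add_distrib]
  exact Finset.sum_congr rfl (fun x _ => by ring)

theorem E_smul_15630 {X : Type} (m : FM X) (c : ℝ) (F : X → ℝ) :
    m.E (fun x => c * F x) = c * m.E F := by
  unfold FM.E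
  rw [Finset.mul_sum]
  exact Finset.sum_congr rfl (fun x _ => by ring)

theorem E_const_15630 {X : Type} (m : FM X) (c : ℝ) :
    m.E (fun _ => c) = c := by
  unfold FM.E
  rw [← Finset.sum_mul, m.hone, one_mul]

theorem E_sum_15630 {X ι : Type} (m : FM X) (I : Finset ι) (F : ι → X → ℝ) :
    m.E (fun x => ∑ i ∈ I, F i x) = ∑ i ∈ I, m.E (F i) := by
  unfold FM.E
  rw [Finset.sum_comm]
  exact Finset.sum_congr rfl (fun x _ => by rw [Finset.mul_sum])

theorem E_var_15630 {X : Type} (m : FM X) (F : X → ℝ) :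
    m.E (fun x => (F x - m.E F) ^ 2) = m.E (fun x => F x ^ 2) - (m.E F) ^ 2 := by
  have h1 : m.E (fun x => (F x - m.E F) ^ 2) =
      m.E (fun x => F x ^ 2 + ((-2 * m.E F) * F x + (m.E F) ^ 2)) := by
    apply E_congr_15630
    intro x _
    ring
  rw [h1, E_add_15630 m (fun x => F x ^ 2) (fun x => (-2 * m.E F) * F x + (m.E F) ^ 2),
    E_add_15630 m (fun x => (-2 * m.E F) * F x) (fun _ => (m.E F) ^ 2), E_smul_15630, E_const_15630]
  ring

theorem E_nonneg_15630 {X : Type} (m : FM X) {F : X → ℝ} (h : ∀ x ∈ m.s, 0 ≤ F x) :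
    0 ≤ m.E F := by
  unfold FM.E
  exact Finset.sum_nonneg (fun x hx => mul_nonneg (m.hw x hx).le (h x hx))

theorem E_sq_15630 {X : Type} (m : FM X) (F : X → ℝ) :
    (m.E F) ^ 2 ≤ m.E (fun x => F x ^ 2) := by
  have h1 := E_var_15630 m F
  have h2 : 0 ≤ m.E (fun x => (F x - m.E F) ^ 2) := E_nonneg_15630 m (fun x _ => sq_nonneg _)
  linarith

theorem Bk_mem_15630 {o : ℤ} {ℓ i : ℕ} {x : ℤ} :
    x ∈ Bk o ℓ i ↔ o + i * ℓ ≤ x ∧ x ≤ o + i * ℓ + ℓ - 1 := by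
  unfold Bk
  rw [Finset.mem_Icc]

theorem Sb_mem_15630 {o : ℤ} {ℓ n : ℕ} {x : ℤ} :
    x ∈ Sb o ℓ 0 n ↔ o ≤ x ∧ x ≤ o + n * ℓ - 1 := by
  unfold Sb
  rw [Finset.mem_Icc]
  simp

theorem Bk_disj_15630 (o : ℤ) (ℓ : ℕ) {i j : ℕ} (hij : i ≠ j) :
    Disjoint (Bk o ℓ i) (Bk o ℓ j) := by
  rw [Finset.disjoint_left]
  intro x hx hy
  rw [Bk_mem_15630] at hx hy
  rcases lt_or_gt_of_ne hij with h | h
  · have h2 : (i + 1) * ℓ ≤ j * ℓ := Nat.mul_le_mul_right _ h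
    have h3 : ((i : ℤ) + 1) * ℓ ≤ j * ℓ := by exact_mod_cast h2
    linarith [hx.1, hx.2, hy.1, hy.2]
  · have h2 : (j + 1) * ℓ ≤ i * ℓ := Nat.mul_le_mul_right _ h
    have h3 : ((j : ℤ) + 1) * ℓ ≤ i * ℓ := by exact_mod_cast h2
    linarith [hx.1, hx.2, hy.1, hy.2]

theorem Bk_sub_15630 (o : ℤ) (ℓ : ℕ) {i n : ℕ} (hi : i < n) :
    Bk o ℓ i ⊆ Sb o ℓ 0 n := by
  intro x hx
  rw [Bk_mem_15630] at hx
  rw [Sb_mem_15630]
  have h2 : (i + 1) * ℓ ≤ n * ℓ := Nat.mul_le_mul_right _ hi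
  have h3 : ((i : ℤ) + 1) * ℓ ≤ n * ℓ := by exact_mod_cast h2
  have h4 : (0 : ℤ) ≤ (i : ℤ) * ℓ := by positivity
  constructor <;> linarith [hx.1, hx.2]

theorem Bk_cover_15630 (o : ℤ) (ℓ n : ℕ) {x : ℤ} (hx : x ∈ Sb o ℓ 0 n) :
    ∃ i < n, x ∈ Bk o ℓ i := by
  induction n with
  | zero =>
    rw [Sb_mem_15630] at hx
    exfalso
    push_cast at hx
    linarith [hx.1, hx.2]
  | succ n ih =>
    by_cases h : x ∈ Sb o ℓ 0 n
    · obtain ⟨i, hi, hxi⟩ := ih h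
      exact ⟨i, by omega, hxi⟩
    · refine ⟨n, by omega, ?_⟩
      rw [Sb_mem_15630] at hx h
      rw [Bk_mem_15630]
      push_cast at hx
      constructor
      · by_contra hc
        apply h
        refine ⟨hx.1, ?_⟩
        push Not at hc
        linarith
      · linarith [hx.2]

theorem Sb_biUnion_15630 (o : ℤ) (ℓ n : ℕ) :
    Sb o ℓ 0 n = (Finset.range n).biUnion (Bk o ℓ) := by
  ext x
  rw [Finset.mem_biUnion]
  constructor
  · intro hx
    obtain ⟨i, hi, h⟩ := Bk_cover_15630 o ℓ n hx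
    exact ⟨i, Finset.mem_range.2 hi, h⟩
  · rintro ⟨i, hi, h⟩
    exact Bk_sub_15630 o ℓ (Finset.mem_range.1 hi) h

theorem Sb_sum_15630 (o : ℤ) (ℓ n : ℕ) (g : ℤ → ℝ) :
    ∑ x ∈ Sb o ℓ 0 n, g x = ∑ i ∈ Finset.range n, ∑ x ∈ Bk o ℓ i, g x := by
  rw [Sb_biUnion_15630, Finset.sum_biUnion]
  intro i _ j _ hij
  exact Bk_disj_15630 o ℓ hij

theorem Bk_card_15630 (o : ℤ) (ℓ i : ℕ) : (Bk o ℓ i).card = ℓ := by
  unfold Bk
  rw [Int.card_Icc]
  have : o + (i : ℤ) * ℓ + ℓ - 1 + 1 - (o + i * ℓ) = ℓ := by ring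
  rw [this]
  simp

theorem stab_15630 (A B : Finset ℤ) : Stab A B (fun S => S.Nonempty) := by
  intro S _ _ _ U _ hU
  exact Finset.Nonempty.mono Finset.subset_union_right hU

theorem cst_self_15630 (A : Finset ℤ) (x : ℤ) (S : Finset ℤ) :
    cst A x (insert x S) = cst A x (S.erase x) := by
  unfold cst
  have h1 : x - 1 ≠ x := by omega
  have h2 : x + 1 ≠ x := by omega
  simp [Finset.mem_insert, Finset.mem_erase, h1, h2]

theorem cst01_15630 (A : Finset ℤ) (x : ℤ) (S : Finset ℤ) : cst A x S = 0 ∨ cst A x S = 1 := by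
  unfold cst
  split_ifs
  · right; rfl
  · left; rfl

theorem cst_one_15630 {A : Finset ℤ} {x : ℤ} {S : Finset ℤ} (h : cst A x S = 1) :
    (x - 1 ∈ A ∧ x - 1 ∈ S) ∨ (x + 1 ∈ A ∧ x + 1 ∈ S) := by
  unfold cst at h
  by_contra hc
  rw [if_neg hc] at h
  norm_num at h

theorem cst_mono_15630 {A B : Finset ℤ} (hAB : A ⊆ B) (x : ℤ) (S : Finset ℤ) :
    cst A x S ≤ cst B x S := by
  rcases cst01_15630 A x S with h | h
  · rw [h]; exact cst_nonneg _ _ _
  · have h2 := cst_one_15630 h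
    have h3 : cst B x S = 1 := by
      unfold cst
      rw [if_pos]
      rcases h2 with h2 | h2
      · exact Or.inl ⟨hAB h2.1, h2.2⟩
      · exact Or.inr ⟨hAB h2.1, h2.2⟩
    rw [h, h3]

theorem kbox_self_15630 (a b x : ℤ) (S : Finset ℤ) :
    kbox a b x (insert x S) = kbox a b x (S.erase x) := by
  unfold kbox
  have h1 : x - 1 ≠ x := by omega
  have h2 : x + 1 ≠ x := by omega
  simp [Finset.mem_insert, Finset.mem_erase, h1, h2]

theorem vx_nonneg_15630 (h0 : 0 < q) (h1 : q < 1) (x : ℤ) (F : Finset ℤ → ℝ) (S : Finset ℤ) :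
    0 ≤ vx q x F S := by
  unfold vx
  have : 0 < q * (1 - q) := mul_pos h0 (by linarith)
  positivity

/-- the Dirichlet form bound used twice -/
theorem dir_15630 (h0 : 0 < q) (h1 : q < 1) (o : ℤ) (ℓ n : ℕ) (hl : 1 ≤ ℓ) (hn : 1 ≤ n)
    (κ : ℤ → Finset ℤ → ℝ) (hκ01 : ∀ x S, κ x S = 0 ∨ κ x S = 1)
    (hκself : ∀ x ∈ Sb o ℓ 0 n, ∀ S, κ x (insert x S) = κ x (S.erase x))
    (hdom : ∀ x ∈ Sb o ℓ 0 n, ∀ S, κ x S = 1 → cst (Sb o ℓ 0 n) x S = 1)
    (F : Finset ℤ → ℝ) :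
    (bm q h0 h1 o ℓ n hl hn).E (fun S => ∑ x ∈ Sb o ℓ 0 n, κ x S * vx q x F S) ≤
      Dir (bG q h0 h1 o ℓ 0 n) (bm q h0 h1 o ℓ n hl hn) F := by
  have hne : ∀ (x : ℤ) (S : Finset ℤ), cst (Sb o ℓ 0 n) x S = 1 →
      (insert x S).Nonempty ∧ (S.erase x).Nonempty := by
    intro x S h
    refine ⟨Finset.insert_nonempty _ _, ?_⟩
    rcases cst_one_15630 h with h | h
    · exact ⟨x - 1, Finset.mem_erase.2 ⟨by omega, h.2⟩⟩
    · exact ⟨x + 1, Finset.mem_erase.2 ⟨by omega, h.2⟩⟩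
  have hkb : ∀ (x : ℤ) (S : Finset ℤ), kbox (o + (0 : ℕ) * ℓ) (o + n * ℓ - 1) x S = true ↔
      cst (Sb o ℓ 0 n) x S = 1 := by
    intro x S
    unfold kbox cst Sb
    rw [decide_eq_true_iff]
    constructor
    · intro h
      rw [if_pos h]
    · intro h
      by_contra hc
      rw [if_neg hc] at h
      norm_num at h
  refine dir_cond_ge h0 h1 (Sb o ℓ 0 n) (kbox (o + (0 : ℕ) * ℓ) (o + n * ℓ - 1)) ?_
    (fun S => S.Nonempty)
    ⟨Sb o ℓ 0 n, Finset.mem_powerset.2 (Finset.Subset.refl _), Sb_nonempty o ℓ n hl hn⟩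
    ?_ κ hκ01 hκself ?_ F
  · intro x _ S
    exact kbox_self_15630 _ _ _ _
  · intro x _ S _ _ hk
    exact hne x S ((hkb x S).1 hk)
  · intro x hx S _ _ hk
    have := hdom x hx S hk
    exact ⟨(hkb x S).2 this, hne x S this⟩

end FA

namespace FA
variable {q : ℝ}

theorem avN_self_15630 (h0 : 0 < q) (h1 : q < 1) (B : Finset ℤ) (H : Finset ℤ → ℝ)
    (hH : ∀ S, (S ∩ B).Nonempty → ∀ U, U ⊆ B → U.Nonempty → H ((S \ B) ∪ U) = H S) (S : Finset ℤ) :
    avN q B H S = H S := by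
  unfold avN
  split_ifs with h
  · rfl
  · have hne : (S ∩ B).Nonempty := Finset.nonempty_iff_ne_empty.2 h
    have hB : B.Nonempty := by
      obtain ⟨x, hx⟩ := hne
      exact ⟨x, (Finset.mem_inter.1 hx).2⟩
    have h2 : ∑ U ∈ B.powerset.filter (fun U => U.Nonempty), wt q B U * H ((S \ B) ∪ U) =
        (∑ U ∈ B.powerset.filter (fun U => U.Nonempty), wt q B U) * H S := by
      rw [Finset.sum_mul]
      apply Finset.sum_congr rfl
      intro U hU
      rw [Finset.mem_filter, Finset.mem_powerset] at hU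
      rw [hH S hne U hU.1 hU.2]
    rw [h2, wt_sum_ne, mul_comm, mul_div_assoc, div_self (Zn_pos' h0 h1 B hB).ne', mul_one]

theorem blk_idem_15630 (h0 : 0 < q) (h1 : q < 1) (B : Finset ℤ) (F : Finset ℤ → ℝ) :
    (blk q h0 h1 B).R ((blk q h0 h1 B).R F) = (blk q h0 h1 B).R F := by
  funext S
  show ∑ k ∈ (blk q h0 h1 B).K S, (blk q h0 h1 B).w S k * (blk q h0 h1 B).R F ((blk q h0 h1 B).c S k) = _
  rw [Finset.sum_congr rfl (fun U hU => by rw [blk_cst h0 h1 B F S U hU]), ← Finset.sum_mul,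
    (blk q h0 h1 B).hone S, one_mul]

theorem compR_inv_15630 (h0 : 0 < q) (h1 : q < 1) (o : ℤ) (ℓ n : ℕ) (h : Finset ℤ → ℝ) :
    ∀ i < n, (blk q h0 h1 (Bk o ℓ i)).R (compR (fun i => blk q h0 h1 (Bk o ℓ i)) n h) =
      compR (fun i => blk q h0 h1 (Bk o ℓ i)) n h := by
  induction n with
  | zero => intro i hi; omega
  | succ n ih =>
    intro i hi
    show (blk q h0 h1 (Bk o ℓ i)).R ((blk q h0 h1 (Bk o ℓ n)).R (compR _ n h)) =
      (blk q h0 h1 (Bk o ℓ n)).R (compR _ n h)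
    by_cases hin : i = n
    · subst hin
      exact blk_idem_15630 h0 h1 _ _
    · rw [blk_comm h0 h1 _ _ (Bk_disj_15630 o ℓ hin), ih i (by omega)]

theorem compR_move_15630 (h0 : 0 < q) (h1 : q < 1) (o : ℤ) (ℓ n : ℕ) (h : Finset ℤ → ℝ)
    (i : ℕ) (hi : i < n) (S : Finset ℤ) (hS : (S ∩ Bk o ℓ i).Nonempty) (U : Finset ℤ)
    (hU : U ⊆ Bk o ℓ i) (hU2 : U.Nonempty) :
    compR (fun i => blk q h0 h1 (Bk o ℓ i)) n h ((S \ Bk o ℓ i) ∪ U) =
      compR (fun i => blk q h0 h1 (Bk o ℓ i)) n h S := by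
  have hne : ¬ (S ∩ Bk o ℓ i = ∅) := Finset.nonempty_iff_ne_empty.1 hS
  have h3 := blk_cst h0 h1 (Bk o ℓ i) (compR (fun i => blk q h0 h1 (Bk o ℓ i)) n h) S U (by
    show U ∈ (if S ∩ Bk o ℓ i = ∅ then {∅} else (Bk o ℓ i).powerset.filter (fun U => U.Nonempty))
    rw [if_neg hne, Finset.mem_filter, Finset.mem_powerset]
    exact ⟨hU, hU2⟩)
  rw [compR_inv_15630 h0 h1 o ℓ n h i hi] at h3
  have h4 : (blk q h0 h1 (Bk o ℓ i)).c S U = (S \ Bk o ℓ i) ∪ U := by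
    show (if S ∩ Bk o ℓ i = ∅ then S else (S \ Bk o ℓ i) ∪ U) = _
    rw [if_neg hne]
  rw [h4] at h3
  exact h3

theorem compR_const_15630 (h0 : 0 < q) (h1 : q < 1) (o : ℤ) (ℓ n : ℕ) (h : Finset ℤ → ℝ) (j : ℕ) (hj : j ≤ n) :
    ∀ S S' : Finset ℤ, (∀ i < j, (S ∩ Bk o ℓ i = ∅ ↔ S' ∩ Bk o ℓ i = ∅)) →
      (∀ x, (∀ i < j, x ∉ Bk o ℓ i) → (x ∈ S ↔ x ∈ S')) →
      compR (fun i => blk q h0 h1 (Bk o ℓ i)) n h S = compR (fun i => blk q h0 h1 (Bk o ℓ i)) n h S' := by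
  induction j with
  | zero =>
    intro S S' _ h2
    have : S = S' := by
      ext x
      exact h2 x (fun i hi => by omega)
    rw [this]
  | succ j ih =>
    intro S S' h1' h2
    have key : compR (fun i => blk q h0 h1 (Bk o ℓ i)) n h ((S \ Bk o ℓ j) ∪ (S' ∩ Bk o ℓ j)) =
        compR (fun i => blk q h0 h1 (Bk o ℓ i)) n h S := by
      by_cases he : S ∩ Bk o ℓ j = ∅
      · have he' := (h1' j (by omega)).1 he
        have : (S \ Bk o ℓ j) ∪ (S' ∩ Bk o ℓ j) = S := by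
          rw [he', Finset.union_empty]
          rw [Finset.sdiff_eq_self_iff_disjoint, Finset.disjoint_iff_inter_eq_empty]
          exact he
        rw [this]
      · have he' : ¬ (S' ∩ Bk o ℓ j = ∅) := fun hc => he ((h1' j (by omega)).2 hc)
        exact compR_move_15630 h0 h1 o ℓ n h j (by omega) S (Finset.nonempty_iff_ne_empty.2 he) _
          Finset.inter_subset_right (Finset.nonempty_iff_ne_empty.2 he')
    rw [← key]
    apply ih (by omega)
    · intro i hi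
      have hij : i ≠ j := by omega
      have h3 : ((S \ Bk o ℓ j) ∪ (S' ∩ Bk o ℓ j)) ∩ Bk o ℓ i = S ∩ Bk o ℓ i := by
        ext x
        simp only [Finset.mem_inter, Finset.mem_union, Finset.mem_sdiff]
        have hd : x ∈ Bk o ℓ i → x ∉ Bk o ℓ j := fun hx => Finset.disjoint_left.1 (Bk_disj_15630 o ℓ hij) hx
        tauto
      rw [h3]
      exact h1' i (by omega)
    · intro x hx
      simp only [Finset.mem_inter, Finset.mem_union, Finset.mem_sdiff]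
      by_cases hxj : x ∈ Bk o ℓ j
      · tauto
      · have := h2 x (fun i hi => by
          rcases Nat.lt_succ_iff_lt_or_eq.1 hi with h | h
          · exact hx i h
          · rw [h]; exact hxj)
        tauto

theorem pat_move_15630 (o : ℤ) (ℓ n i : ℕ) (S : Finset ℤ) (hS : (S ∩ Bk o ℓ i).Nonempty)
    (U : Finset ℤ) (hU : U ⊆ Bk o ℓ i) (hU2 : U.Nonempty) :
    pat o ℓ n ((S \ Bk o ℓ i) ∪ U) = pat o ℓ n S := by
  unfold pat
  apply Finset.filter_congr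
  intro j _
  by_cases hij : i = j
  · subst hij
    have h1 : ¬ (S ∩ Bk o ℓ i = ∅) := Finset.nonempty_iff_ne_empty.1 hS
    have h2 : ¬ (((S \ Bk o ℓ i) ∪ U) ∩ Bk o ℓ i = ∅) := by
      rw [← ne_eq, ← Finset.nonempty_iff_ne_empty]
      obtain ⟨x, hx⟩ := hU2
      exact ⟨x, Finset.mem_inter.2 ⟨Finset.mem_union_right _ hx, hU hx⟩⟩
    exact iff_of_false h2 h1
  · have h3 : ((S \ Bk o ℓ i) ∪ U) ∩ Bk o ℓ j = S ∩ Bk o ℓ j := by
      ext x
      simp only [Finset.mem_inter, Finset.mem_union, Finset.mem_sdiff]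
      have hd : x ∈ Bk o ℓ i → x ∉ Bk o ℓ j := fun hx => Finset.disjoint_left.1 (Bk_disj_15630 o ℓ hij) hx
      have hu : x ∈ U → x ∈ Bk o ℓ i := fun hx => hU hx
      tauto
    rw [h3]

/-- the indicator of a pattern -/
def ind_15630 (o : ℤ) (ℓ n : ℕ) (y : Finset ℕ) (S : Finset ℤ) : ℝ := if pat o ℓ n S = y then 1 else 0

theorem bm_R_15630 (h0 : 0 < q) (h1 : q < 1) (o : ℤ) (ℓ n : ℕ) (hl : 1 ≤ ℓ) (hn : 1 ≤ n)
    (i : ℕ) (hi : i < n) (y : Finset ℕ) (F : Finset ℤ → ℝ) :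
    (bm q h0 h1 o ℓ n hl hn).E (fun S => (blk q h0 h1 (Bk o ℓ i)).R F S * ind_15630 o ℓ n y S) =
      (bm q h0 h1 o ℓ n hl hn).E (fun S => F S * ind_15630 o ℓ n y S) := by
  have hR : (blk q h0 h1 (Bk o ℓ i)).R (ind_15630 o ℓ n y) = ind_15630 o ℓ n y := by
    funext S
    rw [blk_R]
    apply avN_self_15630 h0 h1
    intro S hS U hU hU2
    unfold ind_15630
    rw [pat_move_15630 o ℓ n i S hS U hU hU2]
  have := blk_inv h0 h1 (Sb o ℓ 0 n) (Bk o ℓ i) (Bk_sub_15630 o ℓ hi) (fun S => S.Nonempty)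
    ⟨Sb o ℓ 0 n, Finset.mem_powerset.2 (Finset.Subset.refl _), Sb_nonempty o ℓ n hl hn⟩
    (stab_15630 _ _) F (ind_15630 o ℓ n y)
  rw [hR] at this
  exact this.symm

theorem bm_compR_15630 (h0 : 0 < q) (h1 : q < 1) (o : ℤ) (ℓ n : ℕ) (hl : 1 ≤ ℓ) (hn : 1 ≤ n)
    (y : Finset ℕ) (h : Finset ℤ → ℝ) (j : ℕ) (hj : j ≤ n) :
    (bm q h0 h1 o ℓ n hl hn).E (fun S => compR (fun i => blk q h0 h1 (Bk o ℓ i)) j h S * ind_15630 o ℓ n y S) =
      (bm q h0 h1 o ℓ n hl hn).E (fun S => h S * ind_15630 o ℓ n y S) := by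
  induction j with
  | zero => rfl
  | succ j ih =>
    show (bm q h0 h1 o ℓ n hl hn).E (fun S => (blk q h0 h1 (Bk o ℓ j)).R (compR _ j h) S * _) = _
    rw [bm_R_15630 h0 h1 o ℓ n hl hn j (by omega) y]
    exact ih (by omega)

theorem bm_s_15630 (h0 : 0 < q) (h1 : q < 1) (o : ℤ) (ℓ n : ℕ) (hl : 1 ≤ ℓ) (hn : 1 ≤ n) (S : Finset ℤ) :
    S ∈ (bm q h0 h1 o ℓ n hl hn).s ↔ S ⊆ Sb o ℓ 0 n ∧ S.Nonempty := by
  unfold bm nfm FM.cond pfm
  simp

theorem cond_eq_15630 (m : FM (Finset ℤ)) (o : ℤ) (ℓ n : ℕ) (h : Finset ℤ → ℝ) (S : Finset ℤ) :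
    cond m (pat o ℓ n) h S = m.E (fun T => h T * ind_15630 o ℓ n (pat o ℓ n S) T) /
      m.E (ind_15630 o ℓ n (pat o ℓ n S)) := by
  unfold cond
  congr 1
  · apply E_congr_15630
    intro T _
    unfold ind_15630
    by_cases hT : pat o ℓ n T = pat o ℓ n S
    · simp [hT]
    · simp [hT]
  · apply E_congr_15630
    intro T _
    unfold ind_15630
    by_cases hT : pat o ℓ n T = pat o ℓ n S
    · simp [hT]
    · simp [hT]

/-- the iterated block average is the conditional expectation given the pattern of empty blocks -/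
theorem compR_pat (h0 : 0 < q) (h1 : q < 1) (o : ℤ) (ℓ n : ℕ) (hl : 1 ≤ ℓ) (hn : 1 ≤ n)
    (h : Finset ℤ → ℝ) (S : Finset ℤ) (hS : S ⊆ Sb o ℓ 0 n) (hne : S.Nonempty) :
    compR (fun i => blk q h0 h1 (Bk o ℓ i)) n h S = cond (bm q h0 h1 o ℓ n hl hn) (pat o ℓ n) h S := by
  have hSm : S ∈ (bm q h0 h1 o ℓ n hl hn).s := (bm_s_15630 h0 h1 o ℓ n hl hn S).2 ⟨hS, hne⟩
  rw [cond_eq_15630]
  have e3 : (bm q h0 h1 o ℓ n hl hn).E (fun T => h T * ind_15630 o ℓ n (pat o ℓ n S) T) =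
      compR (fun i => blk q h0 h1 (Bk o ℓ i)) n h S *
        (bm q h0 h1 o ℓ n hl hn).E (ind_15630 o ℓ n (pat o ℓ n S)) := by
    rw [← bm_compR_15630 h0 h1 o ℓ n hl hn _ h n le_rfl, ← E_smul_15630]
    apply E_congr_15630
    intro T hT
    rw [bm_s_15630] at hT
    unfold ind_15630
    by_cases hTS : pat o ℓ n T = pat o ℓ n S
    · rw [if_pos hTS, mul_one, mul_one]
      apply compR_const_15630 h0 h1 o ℓ n h n le_rfl
      · intro i hi
        have h5 : i ∈ pat o ℓ n T ↔ i ∈ pat o ℓ n S := by rw [hTS]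
        unfold pat at h5
        simp only [Finset.mem_filter, Finset.mem_range, hi, true_and] at h5
        exact h5
      · intro x hx
        have hx' : x ∉ Sb o ℓ 0 n := by
          intro hc
          obtain ⟨i, hi, hxi⟩ := Bk_cover_15630 o ℓ n hc
          exact hx i hi hxi
        exact iff_of_false (fun hc => hx' (hT.1 hc)) (fun hc => hx' (hS hc))
    · rw [if_neg hTS, mul_zero, mul_zero]
  have e4 : 0 < (bm q h0 h1 o ℓ n hl hn).E (ind_15630 o ℓ n (pat o ℓ n S)) := by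
    unfold FM.E
    apply Finset.sum_pos'
    · intro T hT
      apply mul_nonneg ((bm q h0 h1 o ℓ n hl hn).hw T hT).le
      unfold ind_15630
      split_ifs <;> norm_num
    · refine ⟨S, hSm, ?_⟩
      unfold ind_15630
      rw [if_pos rfl, mul_one]
      exact (bm q h0 h1 o ℓ n hl hn).hw S hSm
  rw [e3, mul_div_assoc, div_self e4.ne', mul_one]

/-- entropy relative to the pattern conditional laws is controlled by the Dirichlet form -/
theorem pat_ent (h0 : 0 < q) (h1 : q < 1) : ∃ K : ℝ, 0 < K ∧ ∀ (o : ℤ) (ℓ n : ℕ) (hl : 1 ≤ ℓ) (hn : 1 ≤ n),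
    3 ≤ n * ℓ → ∀ h : Finset ℤ → ℝ, (∀ S, 0 < h S) →
      (bm q h0 h1 o ℓ n hl hn).E
        (fun S => h S * Real.log (h S / cond (bm q h0 h1 o ℓ n hl hn) (pat o ℓ n) h S)) ≤
      K * ℓ * Dir (bG q h0 h1 o ℓ 0 n) (bm q h0 h1 o ℓ n hl hn) (fun S => Real.sqrt (h S)) := by
  obtain ⟨K, hK, hmain⟩ := lsi_blocks (q := q) h0 h1
  refine ⟨K, hK, ?_⟩
  intro o ℓ n hl hn _ h hpos
  have hA := hmain (Sb o ℓ 0 n) o ℓ n hl (fun i hi => Bk_sub_15630 o ℓ hi) (fun S => S.Nonempty)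
    ⟨Sb o ℓ 0 n, Finset.mem_powerset.2 (Finset.Subset.refl _), Sb_nonempty o ℓ n hl hn⟩
    (fun i _ => stab_15630 _ _) h hpos
  have e1 : (bm q h0 h1 o ℓ n hl hn).E
        (fun S => h S * Real.log (h S / cond (bm q h0 h1 o ℓ n hl hn) (pat o ℓ n) h S)) =
      (bm q h0 h1 o ℓ n hl hn).E
        (fun S => h S * Real.log (h S / compR (fun i => blk q h0 h1 (Bk o ℓ i)) n h S)) := by
    apply E_congr_15630
    intro S hS
    rw [bm_s_15630] at hS
    rw [compR_pat h0 h1 o ℓ n hl hn h S hS.1 hS.2]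
  rw [e1]
  refine le_trans hA ?_
  apply mul_le_mul_of_nonneg_left _ (mul_nonneg hK.le (Nat.cast_nonneg _))
  classical
  -- the combined constraint
  let κ : ℤ → Finset ℤ → ℝ := fun x S => if ∃ i < n, x ∈ Bk o ℓ i ∧ cst (Bk o ℓ i) x S = 1 then 1 else 0
  have hκ : ∀ i < n, ∀ x ∈ Bk o ℓ i, ∀ S, κ x S = cst (Bk o ℓ i) x S := by
    intro i hi x hx S
    show (if ∃ i < n, x ∈ Bk o ℓ i ∧ cst (Bk o ℓ i) x S = 1 then (1:ℝ) else 0) = _
    rcases cst01_15630 (Bk o ℓ i) x S with hc | hc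
    · rw [hc, if_neg]
      rintro ⟨j, _, hxj, hcj⟩
      by_cases hij : i = j
      · subst hij
        rw [hc] at hcj
        norm_num at hcj
      · exact Finset.disjoint_left.1 (Bk_disj_15630 o ℓ hij) hx hxj
    · rw [hc, if_pos]
      exact ⟨i, hi, hx, hc⟩
  have e2 : ∀ S, ∑ i ∈ Finset.range n, ∑ x ∈ Bk o ℓ i, cst (Bk o ℓ i) x S *
        vx q x (fun U => Real.sqrt (h U)) S =
      ∑ x ∈ Sb o ℓ 0 n, κ x S * vx q x (fun U => Real.sqrt (h U)) S := by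
    intro S
    rw [Sb_sum_15630]
    apply Finset.sum_congr rfl
    intro i hi
    apply Finset.sum_congr rfl
    intro x hx
    rw [hκ i (Finset.mem_range.1 hi) x hx S]
  have e3 : ((pfm q h0 h1 (Sb o ℓ 0 n)).cond (fun S => S.Nonempty)
      ⟨Sb o ℓ 0 n, Finset.mem_powerset.2 (Finset.Subset.refl _), Sb_nonempty o ℓ n hl hn⟩).E
        (fun S => ∑ i ∈ Finset.range n, ∑ x ∈ Bk o ℓ i, cst (Bk o ℓ i) x S *
          vx q x (fun U => Real.sqrt (h U)) S) =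
      (bm q h0 h1 o ℓ n hl hn).E (fun S => ∑ x ∈ Sb o ℓ 0 n, κ x S * vx q x (fun U => Real.sqrt (h U)) S) := by
    apply E_congr_15630
    intro S _
    exact e2 S
  rw [e3]
  apply dir_15630 h0 h1 o ℓ n hl hn κ
  · intro x S
    show (if ∃ i < n, x ∈ Bk o ℓ i ∧ cst (Bk o ℓ i) x S = 1 then (1:ℝ) else 0) = 0 ∨
      (if ∃ i < n, x ∈ Bk o ℓ i ∧ cst (Bk o ℓ i) x S = 1 then (1:ℝ) else 0) = 1
    split_ifs
    · right; rfl
    · left; rfl
  · intro x hx S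
    obtain ⟨i, hi, hxi⟩ := Bk_cover_15630 o ℓ n hx
    rw [hκ i hi x hxi, hκ i hi x hxi, cst_self_15630]
  · intro x hx S hk
    obtain ⟨i, hi, hxi⟩ := Bk_cover_15630 o ℓ n hx
    rw [hκ i hi x hxi] at hk
    have h1' := cst_mono_15630 (Bk_sub_15630 o ℓ hi) x S
    have h2' := cst_le (Sb o ℓ 0 n) x S
    linarith

end FA

namespace FA
variable {q : ℝ}

theorem B2_eq_15630 (o : ℤ) (ℓ i : ℕ) :
    Bk o ℓ i ∪ Bk o ℓ (i + 1) = Icc (o + i * ℓ) (o + (i + 2) * ℓ - 1) := by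
  ext x
  rw [Finset.mem_union, Bk_mem_15630, Bk_mem_15630, Finset.mem_Icc]
  push_cast
  have e1 : ((i : ℤ) + 1) * ℓ = i * ℓ + ℓ := by ring
  have e2 : ((i : ℤ) + 2) * ℓ = i * ℓ + 2 * ℓ := by ring
  rw [e1, e2]
  constructor
  · rintro (h | h)
    · constructor
      · exact h.1
      · have : (0:ℤ) ≤ ℓ := by positivity
        linarith [h.2]
    · constructor
      · have : (0:ℤ) ≤ ℓ := by positivity
        linarith [h.1]
      · linarith [h.2]
  · intro h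
    by_cases hx : x ≤ o + i * ℓ + ℓ - 1
    · exact Or.inl ⟨h.1, hx⟩
    · right
      constructor
      · push Not at hx
        linarith
      · linarith [h.2]

open Classical in
/-- probability of a pattern change inside two nonempty blocks -/
theorem EN_chg_15630 (h0 : 0 < q) (h1 : q < 1) (o : ℤ) (ℓ i : ℕ) (hl : 1 ≤ ℓ) :
    EN q (Bk o ℓ i ∪ Bk o ℓ (i + 1)) (fun U => if Chg o ℓ i U then 1 else 0) ≤ 2 * (1 - q) ^ ℓ := by
  have hd : Disjoint (Bk o ℓ i) (Bk o ℓ (i + 1)) := Bk_disj_15630 o ℓ (by omega)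
  have hp0 : 0 < (1 - q) ^ ℓ := pow_pos (by linarith) _
  have hp1 : (1 - q) ^ ℓ < 1 := pow_lt_one₀ (by linarith) (by linarith) (by omega)
  have hc1 : (Bk o ℓ i).card = ℓ := Bk_card_15630 o ℓ i
  have hc2 : (Bk o ℓ (i + 1)).card = ℓ := Bk_card_15630 o ℓ (i + 1)
  have hw1 : ∑ V ∈ (Bk o ℓ i).powerset.filter (fun U => U.Nonempty), wt q (Bk o ℓ i ∪ Bk o ℓ (i + 1)) V =
      (1 - (1 - q) ^ ℓ) * (1 - q) ^ ℓ := by
    have : ∀ V ∈ (Bk o ℓ i).powerset.filter (fun U => U.Nonempty),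
        wt q (Bk o ℓ i ∪ Bk o ℓ (i + 1)) V = wt q (Bk o ℓ i) V * (1 - q) ^ ℓ := by
      intro V hV
      rw [Finset.mem_filter, Finset.mem_powerset] at hV
      have h3 := wt_union q hd hV.1 (Finset.empty_subset (Bk o ℓ (i + 1)))
      rw [Finset.union_empty] at h3
      rw [h3]
      have h4 : wt q (Bk o ℓ (i + 1)) ∅ = (1 - q) ^ ℓ := by
        unfold wt
        simp [hc2]
      rw [h4]
    rw [Finset.sum_congr rfl this, ← Finset.sum_mul, wt_sum_ne]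
    unfold Zn
    rw [hc1]
  have hw2 : ∑ V ∈ (Bk o ℓ (i + 1)).powerset.filter (fun U => U.Nonempty), wt q (Bk o ℓ i ∪ Bk o ℓ (i + 1)) V =
      (1 - q) ^ ℓ * (1 - (1 - q) ^ ℓ) := by
    have : ∀ V ∈ (Bk o ℓ (i + 1)).powerset.filter (fun U => U.Nonempty),
        wt q (Bk o ℓ i ∪ Bk o ℓ (i + 1)) V = (1 - q) ^ ℓ * wt q (Bk o ℓ (i + 1)) V := by
      intro V hV
      rw [Finset.mem_filter, Finset.mem_powerset] at hV
      have h3 := wt_union q hd (Finset.empty_subset (Bk o ℓ i)) hV.1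
      rw [Finset.empty_union] at h3
      rw [h3]
      have h4 : wt q (Bk o ℓ i) ∅ = (1 - q) ^ ℓ := by
        unfold wt
        simp [hc1]
      rw [h4]
    rw [Finset.sum_congr rfl this, ← Finset.mul_sum, wt_sum_ne]
    unfold Zn
    rw [hc2]
  have hsum : ∑ U ∈ (Bk o ℓ i ∪ Bk o ℓ (i + 1)).powerset.filter (fun U => U.Nonempty),
      wt q (Bk o ℓ i ∪ Bk o ℓ (i + 1)) U * (if Chg o ℓ i U then 1 else 0) ≤
      2 * ((1 - q) ^ ℓ * (1 - (1 - q) ^ ℓ)) := by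
    simp only [mul_ite, mul_one, mul_zero]
    rw [← Finset.sum_filter]
    have hsub : ((Bk o ℓ i ∪ Bk o ℓ (i + 1)).powerset.filter (fun U => U.Nonempty)).filter
        (fun U => Chg o ℓ i U) ⊆ (Bk o ℓ i).powerset.filter (fun U => U.Nonempty) ∪
        (Bk o ℓ (i + 1)).powerset.filter (fun U => U.Nonempty) := by
      intro U hU
      simp only [Finset.mem_filter, Finset.mem_powerset, Finset.mem_union] at hU ⊢
      obtain ⟨⟨hU1, hU2⟩, hU3⟩ := hU
      unfold Chg at hU3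
      by_cases he : U ∩ Bk o ℓ i = ∅
      · right
        refine ⟨?_, hU2⟩
        intro x hx
        rcases Finset.mem_union.1 (hU1 hx) with h | h
        · exfalso
          have : x ∈ U ∩ Bk o ℓ i := Finset.mem_inter.2 ⟨hx, h⟩
          rw [he] at this
          simp at this
        · exact h
      · left
        refine ⟨?_, hU2⟩
        have he2 : U ∩ Bk o ℓ (i + 1) = ∅ := by
          by_contra hc
          exact hU3 (iff_of_false he hc)
        intro x hx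
        rcases Finset.mem_union.1 (hU1 hx) with h | h
        · exact h
        · exfalso
          have : x ∈ U ∩ Bk o ℓ (i + 1) := Finset.mem_inter.2 ⟨hx, h⟩
          rw [he2] at this
          simp at this
    calc _ ≤ ∑ U ∈ (Bk o ℓ i).powerset.filter (fun U => U.Nonempty) ∪
          (Bk o ℓ (i + 1)).powerset.filter (fun U => U.Nonempty), wt q (Bk o ℓ i ∪ Bk o ℓ (i + 1)) U :=
          Finset.sum_le_sum_of_subset_of_nonneg hsub (fun U _ _ => (wt_pos h0 h1 _ U).le)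
      _ ≤ ∑ U ∈ (Bk o ℓ i).powerset.filter (fun U => U.Nonempty), wt q (Bk o ℓ i ∪ Bk o ℓ (i + 1)) U +
          ∑ U ∈ (Bk o ℓ (i + 1)).powerset.filter (fun U => U.Nonempty), wt q (Bk o ℓ i ∪ Bk o ℓ (i + 1)) U := by
          rw [← Finset.sum_union_inter]
          have : 0 ≤ ∑ U ∈ (Bk o ℓ i).powerset.filter (fun U => U.Nonempty) ∩
            (Bk o ℓ (i + 1)).powerset.filter (fun U => U.Nonempty), wt q (Bk o ℓ i ∪ Bk o ℓ (i + 1)) U :=
            Finset.sum_nonneg (fun U _ => (wt_pos h0 h1 _ U).le)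
          linarith
      _ = _ := by rw [hw1, hw2]; ring
  have hZ : Zn q (Bk o ℓ i ∪ Bk o ℓ (i + 1)) = (1 - (1 - q) ^ ℓ) * (1 + (1 - q) ^ ℓ) := by
    unfold Zn
    rw [Finset.card_union_of_disjoint hd, hc1, hc2, pow_add]
    ring
  unfold EN
  have hZpos : 0 < (1 - (1 - q) ^ ℓ) * (1 + (1 - q) ^ ℓ) := mul_pos (by linarith) (by linarith)
  rw [hZ, div_le_iff₀ hZpos]
  refine le_trans hsum ?_
  have : (1 - q) ^ ℓ * (1 - (1 - q) ^ ℓ) ≤ (1 - q) ^ ℓ * ((1 - (1 - q) ^ ℓ) * (1 + (1 - q) ^ ℓ)) := by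
    apply mul_le_mul_of_nonneg_left _ hp0.le
    nlinarith
  linarith

open Classical in
/-- local estimate in two neighbouring blocks, the configuration outside being frozen -/
theorem two_15630 (h0 : 0 < q) (h1 : q < 1) (Cg : ℝ) (hCg : 0 < Cg)
    (hgap : ∀ a b : ℤ, a ≤ b → ∀ F : Finset ℤ → ℝ,
      EN q (Icc a b) (fun S => F S ^ 2) - (EN q (Icc a b) F) ^ 2 ≤
        Cg * EN q (Icc a b) (fun S => ∑ x ∈ Icc a b, cst (Icc a b) x S * vx q x F S))
    (o : ℤ) (ℓ i : ℕ) (hl : 1 ≤ ℓ) (f : Finset ℤ → ℝ) (S : Finset ℤ) :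
    avN q (Bk o ℓ i ∪ Bk o ℓ (i + 1)) (fun T => if Chg o ℓ i T then f T ^ 2 else 0) S ≤
      avN q (Bk o ℓ i ∪ Bk o ℓ (i + 1)) (fun T => 2 * Cg * ∑ x ∈ Bk o ℓ i ∪ Bk o ℓ (i + 1),
        cst (Bk o ℓ i ∪ Bk o ℓ (i + 1)) x T * vx q x f T + 4 * (1 - q) ^ ℓ * f T ^ 2) S := by
  have hp0 : 0 < (1 - q) ^ ℓ := pow_pos (by linarith) _
  have hcg : ∀ T, Chg o ℓ i T ↔ Chg o ℓ i (T ∩ (Bk o ℓ i ∪ Bk o ℓ (i + 1))) := by
    intro T
    unfold Chg
    have e1 : T ∩ (Bk o ℓ i ∪ Bk o ℓ (i + 1)) ∩ Bk o ℓ i = T ∩ Bk o ℓ i := by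
      rw [Finset.inter_assoc, Finset.inter_comm (Bk o ℓ i ∪ Bk o ℓ (i + 1)),
        Finset.inter_eq_left.2 Finset.subset_union_left]
    have e2 : T ∩ (Bk o ℓ i ∪ Bk o ℓ (i + 1)) ∩ Bk o ℓ (i + 1) = T ∩ Bk o ℓ (i + 1) := by
      rw [Finset.inter_assoc, Finset.inter_comm (Bk o ℓ i ∪ Bk o ℓ (i + 1)),
        Finset.inter_eq_left.2 Finset.subset_union_right]
    rw [e1, e2]
  have hEN := EN_chg_15630 h0 h1 o ℓ i hl
  have hB : (Bk o ℓ i ∪ Bk o ℓ (i + 1)).Nonempty := by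
    refine ⟨o + i * ℓ, Finset.mem_union_left _ ?_⟩
    rw [Bk_mem_15630]
    have : (1:ℤ) ≤ ℓ := by exact_mod_cast hl
    constructor <;> linarith
  have hab : o + (i : ℤ) * ℓ ≤ o + (i + 2) * ℓ - 1 := by
    have : (1:ℤ) ≤ ℓ := by exact_mod_cast hl
    nlinarith
  have hgap' := hgap _ _ hab
  rw [← B2_eq_15630] at hgap'
  generalize hBB : Bk o ℓ i ∪ Bk o ℓ (i + 1) = B at *
  unfold avN
  split_ifs with hS
  · -- empty on `B`
    have hch : ¬ Chg o ℓ i S := by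
      rw [hcg, hS]
      unfold Chg
      simp
    show (if Chg o ℓ i S then f S ^ 2 else 0) ≤
      2 * Cg * ∑ x ∈ B, cst B x S * vx q x f S + 4 * (1 - q) ^ ℓ * f S ^ 2
    rw [if_neg hch]
    have h3 : 0 ≤ ∑ x ∈ B, cst B x S * vx q x f S :=
      Finset.sum_nonneg (fun x _ => mul_nonneg (cst_nonneg _ _ _) (vx_nonneg_15630 h0 h1 _ _ _))
    positivity
  · let G : Finset ℤ → ℝ := fun U => f ((S \ B) ∪ U)
    have hgapG := hgap' G
    rw [← nfm_E h0 h1 B hB, ← nfm_E h0 h1 B hB, ← nfm_E h0 h1 B hB] at hgapG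
    rw [← nfm_E h0 h1 B hB] at hEN
    have hms : ∀ U ∈ (nfm q h0 h1 B hB).s, U ⊆ B := by
      intro U hU
      unfold nfm FM.cond pfm at hU
      simp at hU
      exact hU.1
    have eL : (∑ U ∈ B.powerset.filter (fun U => U.Nonempty), wt q B U *
        (if Chg o ℓ i ((S \ B) ∪ U) then f ((S \ B) ∪ U) ^ 2 else 0)) / Zn q B =
        (nfm q h0 h1 B hB).E (fun U => if Chg o ℓ i U then G U ^ 2 else 0) := by
      have : (nfm q h0 h1 B hB).E (fun U => if Chg o ℓ i U then G U ^ 2 else 0) =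
          (nfm q h0 h1 B hB).E (fun U => if Chg o ℓ i ((S \ B) ∪ U) then f ((S \ B) ∪ U) ^ 2 else 0) := by
        apply E_congr_15630
        intro U hU
        have hUB := hms U hU
        have e : ((S \ B) ∪ U) ∩ B = U := by
          ext x
          simp only [Finset.mem_inter, Finset.mem_union, Finset.mem_sdiff]
          have : x ∈ U → x ∈ B := fun h => hUB h
          tauto
        have h5 : Chg o ℓ i ((S \ B) ∪ U) ↔ Chg o ℓ i U := by
          rw [hcg, e]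
        by_cases hU' : Chg o ℓ i U
        · rw [if_pos hU', if_pos (h5.2 hU')]
        · rw [if_neg hU', if_neg (fun hc => hU' (h5.1 hc))]
      rw [this, nfm_E]
      rfl
    have eR : (∑ U ∈ B.powerset.filter (fun U => U.Nonempty), wt q B U *
        (2 * Cg * ∑ x ∈ B, cst B x ((S \ B) ∪ U) * vx q x f ((S \ B) ∪ U) +
          4 * (1 - q) ^ ℓ * f ((S \ B) ∪ U) ^ 2)) / Zn q B =
        2 * Cg * (nfm q h0 h1 B hB).E (fun U => ∑ x ∈ B, cst B x U * vx q x G U) +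
          4 * (1 - q) ^ ℓ * (nfm q h0 h1 B hB).E (fun U => G U ^ 2) := by
      rw [← E_smul_15630, ← E_smul_15630, ← E_add_15630]
      have : (nfm q h0 h1 B hB).E (fun U => 2 * Cg * (∑ x ∈ B, cst B x U * vx q x G U) +
            4 * (1 - q) ^ ℓ * G U ^ 2) =
          (nfm q h0 h1 B hB).E (fun U => 2 * Cg * ∑ x ∈ B, cst B x ((S \ B) ∪ U) * vx q x f ((S \ B) ∪ U) +
          4 * (1 - q) ^ ℓ * f ((S \ B) ∪ U) ^ 2) := by
        apply E_congr_15630
        intro U hU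
        have hUB := hms U hU
        congr 2
        apply Finset.sum_congr rfl
        intro x hx
        have e1 : cst B x ((S \ B) ∪ U) = cst B x U := by
          unfold cst
          have p1 : (x - 1 ∈ B ∧ x - 1 ∈ (S \ B) ∪ U) ↔ (x - 1 ∈ B ∧ x - 1 ∈ U) := by
            simp only [Finset.mem_union, Finset.mem_sdiff]
            tauto
          have p2 : (x + 1 ∈ B ∧ x + 1 ∈ (S \ B) ∪ U) ↔ (x + 1 ∈ B ∧ x + 1 ∈ U) := by
            simp only [Finset.mem_union, Finset.mem_sdiff]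
            tauto
          simp only [p1, p2]
        have e2 : vx q x G U = vx q x f ((S \ B) ∪ U) := by
          unfold vx
          show q * (1 - q) * (f ((S \ B) ∪ insert x U) - f ((S \ B) ∪ U.erase x)) ^ 2 = _
          have p1 : (S \ B) ∪ insert x U = insert x ((S \ B) ∪ U) := by
            ext z
            simp only [Finset.mem_union, Finset.mem_sdiff, Finset.mem_insert]
            tauto
          have p2 : (S \ B) ∪ U.erase x = ((S \ B) ∪ U).erase x := by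
            ext z
            simp only [Finset.mem_union, Finset.mem_sdiff, Finset.mem_erase]
            constructor
            · rintro (h | h)
              · exact ⟨fun hc => h.2 (hc ▸ hx), Or.inl h⟩
              · exact ⟨h.1, Or.inr h.2⟩
            · rintro ⟨h, h' | h'⟩
              · exact Or.inl h'
              · exact Or.inr ⟨h, h'⟩
          rw [p1, p2]
        rw [e1, e2]
      rw [this, nfm_E]
      rfl
    rw [eL, eR]
    set M := nfm q h0 h1 B hB with hM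
    have hvar := E_var_15630 M G
    have hsq := E_sq_15630 M G
    have hmono : M.E (fun U => if Chg o ℓ i U then G U ^ 2 else 0) ≤
        2 * M.E (fun U => (G U - M.E G) ^ 2) + (2 * (M.E G) ^ 2) * M.E (fun U => if Chg o ℓ i U then 1 else 0) := by
      rw [← E_smul_15630, ← E_smul_15630, ← E_add_15630]
      apply E_mono_15630
      intro U _
      by_cases hU : Chg o ℓ i U
      · rw [if_pos hU, if_pos hU]
        nlinarith [sq_nonneg (G U - 2 * M.E G)]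
      · rw [if_neg hU, if_neg hU]
        nlinarith [sq_nonneg (G U - M.E G)]
    have h6 : (2 * (M.E G) ^ 2) * M.E (fun U => if Chg o ℓ i U then 1 else 0) ≤
        (2 * (M.E G) ^ 2) * (2 * (1 - q) ^ ℓ) :=
      mul_le_mul_of_nonneg_left hEN (by positivity)
    have h7 : (M.E G) ^ 2 * (4 * (1 - q) ^ ℓ) ≤ M.E (fun U => G U ^ 2) * (4 * (1 - q) ^ ℓ) :=
      mul_le_mul_of_nonneg_right hsq (by positivity)
    linarith

open Classical in
/-- the same estimate, integrated -/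
theorem two_E_15630 (h0 : 0 < q) (h1 : q < 1) (Cg : ℝ) (hCg : 0 < Cg)
    (hgap : ∀ a b : ℤ, a ≤ b → ∀ F : Finset ℤ → ℝ,
      EN q (Icc a b) (fun S => F S ^ 2) - (EN q (Icc a b) F) ^ 2 ≤
        Cg * EN q (Icc a b) (fun S => ∑ x ∈ Icc a b, cst (Icc a b) x S * vx q x F S))
    (o : ℤ) (ℓ n : ℕ) (hl : 1 ≤ ℓ) (hn : 1 ≤ n) (i : ℕ) (hi : i + 1 < n) (f : Finset ℤ → ℝ) :
    (bm q h0 h1 o ℓ n hl hn).E (fun T => if Chg o ℓ i T then f T ^ 2 else 0) ≤
      2 * Cg * (bm q h0 h1 o ℓ n hl hn).E (fun T => ∑ x ∈ Bk o ℓ i ∪ Bk o ℓ (i + 1),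
        cst (Bk o ℓ i ∪ Bk o ℓ (i + 1)) x T * vx q x f T) +
        4 * (1 - q) ^ ℓ * (bm q h0 h1 o ℓ n hl hn).E (fun T => f T ^ 2) := by
  have hBA : Bk o ℓ i ∪ Bk o ℓ (i + 1) ⊆ Sb o ℓ 0 n :=
    Finset.union_subset (Bk_sub_15630 o ℓ (by omega)) (Bk_sub_15630 o ℓ hi)
  have hinv : ∀ F : Finset ℤ → ℝ, (bm q h0 h1 o ℓ n hl hn).E F =
      (bm q h0 h1 o ℓ n hl hn).E (avN q (Bk o ℓ i ∪ Bk o ℓ (i + 1)) F) := by
    intro F
    have := blk_inv h0 h1 (Sb o ℓ 0 n) (Bk o ℓ i ∪ Bk o ℓ (i + 1)) hBA (fun S => S.Nonempty)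
      ⟨Sb o ℓ 0 n, Finset.mem_powerset.2 (Finset.Subset.refl _), Sb_nonempty o ℓ n hl hn⟩
      (stab_15630 _ _) F (fun _ => 1)
    have hR : ∀ S, (blk q h0 h1 (Bk o ℓ i ∪ Bk o ℓ (i + 1))).R (fun _ => 1) S = 1 := by
      intro S
      rw [blk_R]
      exact avN_self_15630 h0 h1 _ (fun _ => 1) (fun _ _ _ _ _ => rfl) S
    have e1 : (bm q h0 h1 o ℓ n hl hn).E F = (bm q h0 h1 o ℓ n hl hn).E
        (fun S => F S * (blk q h0 h1 (Bk o ℓ i ∪ Bk o ℓ (i + 1))).R (fun _ => 1) S) := by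
      apply E_congr_15630
      intro S _
      rw [hR, mul_one]
    have e2 : (bm q h0 h1 o ℓ n hl hn).E (avN q (Bk o ℓ i ∪ Bk o ℓ (i + 1)) F) =
        (bm q h0 h1 o ℓ n hl hn).E
        (fun S => (blk q h0 h1 (Bk o ℓ i ∪ Bk o ℓ (i + 1))).R F S *
          (blk q h0 h1 (Bk o ℓ i ∪ Bk o ℓ (i + 1))).R (fun _ => 1) S) := by
      apply E_congr_15630
      intro S _
      rw [hR, mul_one, blk_R]
    rw [e1, e2]
    exact this
  rw [hinv (fun T => if Chg o ℓ i T then f T ^ 2 else 0), ← E_smul_15630, ← E_smul_15630, ← E_add_15630,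
    hinv (fun T => 2 * Cg * ∑ x ∈ Bk o ℓ i ∪ Bk o ℓ (i + 1),
        cst (Bk o ℓ i ∪ Bk o ℓ (i + 1)) x T * vx q x f T + 4 * (1 - q) ^ ℓ * f T ^ 2)]
  apply E_mono_15630
  intro S _
  exact two_15630 h0 h1 Cg hCg hgap o ℓ i hl f S

open Classical in
/-- expected number of pattern changes -/
theorem pat_chg (h0 : 0 < q) (h1 : q < 1) : ∃ K : ℝ, 0 < K ∧ ∀ (o : ℤ) (ℓ n : ℕ) (hl : 1 ≤ ℓ) (hn : 1 ≤ n),
    3 ≤ n * ℓ → ∀ h : Finset ℤ → ℝ, (∀ S, 0 < h S) → (bm q h0 h1 o ℓ n hl hn).E h = 1 →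
      ∑ i ∈ Finset.range (n - 1), (bm q h0 h1 o ℓ n hl hn).E (fun S => if Chg o ℓ i S then h S else 0) ≤
      K * Dir (bG q h0 h1 o ℓ 0 n) (bm q h0 h1 o ℓ n hl hn) (fun S => Real.sqrt (h S)) +
        4 * n * (1 - q) ^ ℓ := by
  obtain ⟨Cg, hCg, hgap⟩ := fa_gap (q := q) h0 h1
  refine ⟨4 * Cg, by positivity, ?_⟩
  intro o ℓ n hl hn _ h hpos hone
  have hp0 : 0 < (1 - q) ^ ℓ := pow_pos (by linarith) _
  have hsq : ∀ S, Real.sqrt (h S) ^ 2 = h S := fun S => Real.sq_sqrt (hpos S).le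
  set f : Finset ℤ → ℝ := fun S => Real.sqrt (h S) with hf
  set m := bm q h0 h1 o ℓ n hl hn with hm
  have hstep : ∀ i ∈ Finset.range (n - 1), m.E (fun S => if Chg o ℓ i S then h S else 0) ≤
      2 * Cg * (m.E (fun T => ∑ x ∈ Bk o ℓ i, cst (Sb o ℓ 0 n) x T * vx q x f T) +
        m.E (fun T => ∑ x ∈ Bk o ℓ (i + 1), cst (Sb o ℓ 0 n) x T * vx q x f T)) + 4 * (1 - q) ^ ℓ := by
    intro i hi
    rw [Finset.mem_range] at hi
    have h3 := two_E_15630 h0 h1 Cg hCg hgap o ℓ n hl hn i (by omega) f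
    have e1 : m.E (fun S => if Chg o ℓ i S then h S else 0) =
        m.E (fun T => if Chg o ℓ i T then f T ^ 2 else 0) := by
      apply E_congr_15630
      intro S _
      rw [hf]
      simp only [hsq]
    have e2 : m.E (fun T => f T ^ 2) = 1 := by
      rw [← hone]
      apply E_congr_15630
      intro S _
      exact hsq S
    have e3 : m.E (fun T => ∑ x ∈ Bk o ℓ i ∪ Bk o ℓ (i + 1),
        cst (Bk o ℓ i ∪ Bk o ℓ (i + 1)) x T * vx q x f T) ≤
        m.E (fun T => ∑ x ∈ Bk o ℓ i, cst (Sb o ℓ 0 n) x T * vx q x f T) +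
        m.E (fun T => ∑ x ∈ Bk o ℓ (i + 1), cst (Sb o ℓ 0 n) x T * vx q x f T) := by
      rw [← E_add_15630]
      apply E_mono_15630
      intro T _
      rw [← Finset.sum_union (Bk_disj_15630 o ℓ (by omega : i ≠ i + 1))]
      apply Finset.sum_le_sum
      intro x _
      apply mul_le_mul_of_nonneg_right _ (vx_nonneg_15630 h0 h1 _ _ _)
      apply cst_mono_15630
      exact Finset.union_subset (Bk_sub_15630 o ℓ (by omega)) (Bk_sub_15630 o ℓ (by omega))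
    rw [e1]
    rw [← hm] at h3
    rw [e2, mul_one] at h3
    have h4 := mul_le_mul_of_nonneg_left e3 (by positivity : (0:ℝ) ≤ 2 * Cg)
    linarith
  have hD := dir_15630 h0 h1 o ℓ n hl hn (cst (Sb o ℓ 0 n)) (cst01_15630 _)
    (fun x _ S => cst_self_15630 _ x S) (fun x _ S hk => hk) f
  rw [← hm] at hD
  have e4 : m.E (fun S => ∑ x ∈ Sb o ℓ 0 n, cst (Sb o ℓ 0 n) x S * vx q x f S) =
      ∑ i ∈ Finset.range n, m.E (fun T => ∑ x ∈ Bk o ℓ i, cst (Sb o ℓ 0 n) x T * vx q x f T) := by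
    rw [← E_sum_15630]
    apply E_congr_15630
    intro S _
    exact Sb_sum_15630 o ℓ n _
  rw [e4] at hD
  set g : ℕ → ℝ := fun i => m.E (fun T => ∑ x ∈ Bk o ℓ i, cst (Sb o ℓ 0 n) x T * vx q x f T) with hg
  have hg0 : ∀ i, 0 ≤ g i := by
    intro i
    apply E_nonneg_15630
    intro T _
    exact Finset.sum_nonneg (fun x _ => mul_nonneg (cst_nonneg _ _ _) (vx_nonneg_15630 h0 h1 _ _ _))
  have hs1 : ∑ i ∈ Finset.range (n - 1), g i ≤ ∑ i ∈ Finset.range n, g i := by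
    apply Finset.sum_le_sum_of_subset_of_nonneg
    · intro i hi
      rw [Finset.mem_range] at hi ⊢
      omega
    · intro i _ _
      exact hg0 i
  have hs2 : ∑ i ∈ Finset.range (n - 1), g (i + 1) ≤ ∑ i ∈ Finset.range n, g i := by
    obtain ⟨k, hk⟩ : ∃ k, n = k + 1 := ⟨n - 1, by omega⟩
    rw [hk, Nat.add_sub_cancel, Finset.sum_range_succ']
    linarith [hg0 0]
  calc ∑ i ∈ Finset.range (n - 1), m.E (fun S => if Chg o ℓ i S then h S else 0)
      ≤ ∑ i ∈ Finset.range (n - 1), (2 * Cg * (g i + g (i + 1)) + 4 * (1 - q) ^ ℓ) :=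
        Finset.sum_le_sum hstep
    _ = 2 * Cg * (∑ i ∈ Finset.range (n - 1), g i + ∑ i ∈ Finset.range (n - 1), g (i + 1)) +
        ((n - 1 : ℕ) : ℝ) * (4 * (1 - q) ^ ℓ) := by
        rw [Finset.sum_add_distrib, ← Finset.mul_sum, Finset.sum_add_distrib, Finset.sum_const,
          Finset.card_range, nsmul_eq_mul]
    _ ≤ 4 * Cg * ∑ i ∈ Finset.range n, g i + (n : ℝ) * (4 * (1 - q) ^ ℓ) := by
        have h8 : ((n - 1 : ℕ) : ℝ) ≤ n := by exact_mod_cast Nat.sub_le n 1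
        have h9 := mul_le_mul_of_nonneg_right h8 (by positivity : (0:ℝ) ≤ 4 * (1 - q) ^ ℓ)
        have h10 := mul_le_mul_of_nonneg_left (add_le_add hs1 hs2) (by positivity : (0:ℝ) ≤ 2 * Cg)
        linarith
    _ ≤ 4 * Cg * Dir (bG q h0 h1 o ℓ 0 n) m f + 4 * n * (1 - q) ^ ℓ := by
        have h11 := mul_le_mul_of_nonneg_left hD (by positivity : (0:ℝ) ≤ 4 * Cg)
        linarith

end FA
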