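import Pool.Agent.Helper870.FADefs
import Pool.Agent.Helper870.FAG1
import Pool.Agent.Helper870.FAS1
import Pool.Agent.Helper870.FAS2
import Pool.Agent.Helper870.FAS3
import Pool.Agent.Helper870.FAS4
import Pool.Agent.Helper870.FAS6
import Pool.Agent.Helper870.FAS10
import Pool.Agent.Helper870.FAD2
import Pool.Agent.Helper870.FAR1
import Pool.Agent.Helper870.FAG6
import Pool.Agent.Helper870.FAD3
import Pool.Agent.Helper870.FAOSC
import Pool.Agent.Helper870.FAD4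
import Pool.Agent.Helper870.FAD7
import Pool.Agent.Helper870.FARA1
import Pool.Agent.Helper870.FARA2

set_option autoImplicit false
set_option linter.unusedSectionVars false

open Finset

noncomputable section

-- USES: G1 S1 S2 S3 S4 S6 S10 D2 R1 G6 D3 OSC D4 D7 RA1 RA2
namespace FA
variable {q : ℝ}

open Classical in
theorem Bk_sub (o : ℤ) (ℓ i1 i2 i : ℕ) (h1 : i1 ≤ i) (h2 : i < i2) :
    Bk o ℓ i ⊆ Icc (o + i1 * ℓ) (o + i2 * ℓ - 1) := by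
  intro x hx
  unfold Bk at hx
  rw [Finset.mem_Icc] at hx ⊢
  have e1 : (i1 : ℤ) * ℓ ≤ i * ℓ := by exact_mod_cast Nat.mul_le_mul_right ℓ h1
  have e2 : ((i : ℤ) + 1) * ℓ ≤ i2 * ℓ := by exact_mod_cast Nat.mul_le_mul_right ℓ h2
  constructor <;> linarith [hx.1, hx.2]

theorem exists_Bk (o : ℤ) (ℓ i1 i2 : ℕ) (hl : 1 ≤ ℓ) (x : ℤ)
    (hx : x ∈ Icc (o + i1 * ℓ) (o + i2 * ℓ - 1)) :
    ∃ i, i1 ≤ i ∧ i < i2 ∧ x ∈ Bk o ℓ i := by
  rw [Finset.mem_Icc] at hx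
  have h0 : 0 ≤ x - o := by
    have : (0 : ℤ) ≤ i1 * ℓ := by positivity
    linarith [hx.1]
  obtain ⟨m, hm⟩ := Int.eq_ofNat_of_zero_le h0
  obtain ⟨d, hd⟩ : ∃ d, d = m / ℓ := ⟨_, rfl⟩
  have e1 : d * ℓ ≤ m := by rw [hd]; exact Nat.div_mul_le_self m ℓ
  have e2 : m < d * ℓ + ℓ := by rw [hd]; exact Nat.lt_div_mul_add hl
  refine ⟨d, ?_, ?_, ?_⟩
  · rw [hd, Nat.le_div_iff_mul_le hl]
    have : ((i1 * ℓ : ℕ) : ℤ) ≤ m := by push_cast; linarith [hx.1]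
    exact_mod_cast this
  · rw [hd, Nat.div_lt_iff_lt_mul hl]
    have : (m : ℤ) < ((i2 * ℓ : ℕ) : ℤ) := by push_cast; linarith [hx.2]
    exact_mod_cast this
  · unfold Bk
    rw [Finset.mem_Icc]
    have e1' : (d : ℤ) * ℓ ≤ m := by exact_mod_cast e1
    have e2' : (m : ℤ) < (d : ℤ) * ℓ + ℓ := by exact_mod_cast e2
    constructor <;> linarith

theorem NE_eq_sum (o : ℤ) (ℓ k1 k2 : ℕ) (S : Finset ℤ) :
    NE o ℓ k1 k2 S = ∑ i ∈ Finset.Ico k1 k2, if S ∩ Bk o ℓ i = ∅ then 1 else 0 := by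
  unfold NE
  rw [Finset.card_filter]

theorem NE_split (o : ℤ) (ℓ : ℕ) {j1 k1 k2 j2 : ℕ} (h1 : j1 ≤ k1) (h2 : k1 ≤ k2)
    (h3 : k2 ≤ j2) (S : Finset ℤ) :
    NE o ℓ j1 j2 S = NE o ℓ j1 k1 S + NE o ℓ k1 k2 S + NE o ℓ k2 j2 S := by
  simp only [NE_eq_sum]
  rw [Finset.sum_Ico_consecutive _ h1 h2, Finset.sum_Ico_consecutive _ (h1.trans h2) h3]

theorem NE_le (o : ℤ) (ℓ k1 k2 : ℕ) (S : Finset ℤ) : NE o ℓ k1 k2 S ≤ k2 - k1 := by
  unfold NE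
  refine (Finset.card_filter_le _ _).trans ?_
  rw [Nat.card_Ico]

theorem NE_all (o : ℤ) (ℓ k1 k2 : ℕ) (S : Finset ℤ)
    (h : ∀ i, k1 ≤ i → i < k2 → S ∩ Bk o ℓ i = ∅) : NE o ℓ k1 k2 S = k2 - k1 := by
  unfold NE
  rw [Finset.filter_true_of_mem, Nat.card_Ico]
  intro i hi
  rw [Finset.mem_Ico] at hi
  exact h i hi.1 hi.2

theorem NE_none (o : ℤ) (ℓ k1 k2 : ℕ) (S : Finset ℤ)
    (h : ∀ i, k1 ≤ i → i < k2 → S ∩ Bk o ℓ i ≠ ∅) : NE o ℓ k1 k2 S = 0 := by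
  unfold NE
  rw [Finset.filter_false_of_mem, Finset.card_empty]
  intro i hi
  rw [Finset.mem_Ico] at hi
  exact h i hi.1 hi.2

theorem NE_loc (o : ℤ) (ℓ k1 k2 : ℕ) (S A : Finset ℤ)
    (hA : ∀ i, k1 ≤ i → i < k2 → Bk o ℓ i ⊆ A) :
    NE o ℓ k1 k2 S = NE o ℓ k1 k2 (S ∩ A) := by
  unfold NE
  congr 1
  apply Finset.filter_congr
  intro i hi
  rw [Finset.mem_Ico] at hi
  rw [Finset.inter_assoc, Finset.inter_eq_right.mpr (hA i hi.1 hi.2)]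

theorem const_of_not_NG (o : ℤ) (ℓ mg k : ℕ) (hk : mg ≤ k) (S : Finset ℤ)
    (h : ¬ NG o ℓ mg k S) :
    (∀ i, k ≤ i + mg → i < k + mg → S ∩ Bk o ℓ i = ∅) ∨
      (∀ i, k ≤ i + mg → i < k + mg → S ∩ Bk o ℓ i ≠ ∅) := by
  have hc : ∀ i, k ≤ i + mg → i + 1 < k + mg →
      (S ∩ Bk o ℓ i = ∅ ↔ S ∩ Bk o ℓ (i + 1) = ∅) := by
    intro i h1 h2
    by_contra hcon
    exact h ⟨i, h1, h2, hcon⟩
  have hall : ∀ d, (k - mg) + d < k + mg →
      (S ∩ Bk o ℓ (k - mg) = ∅ ↔ S ∩ Bk o ℓ (k - mg + d) = ∅) := by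
    intro d
    induction d with
    | zero => intro _; exact Iff.rfl
    | succ d ih =>
      intro hd
      exact (ih (by omega)).trans (hc (k - mg + d) (by omega) (by omega))
  by_cases hE : S ∩ Bk o ℓ (k - mg) = ∅
  · left
    intro i h1 h2
    obtain ⟨d, rfl⟩ : ∃ d, i = k - mg + d := ⟨i - (k - mg), by omega⟩
    exact (hall d h2).mp hE
  · right
    intro i h1 h2
    obtain ⟨d, rfl⟩ : ∃ d, i = k - mg + d := ⟨i - (k - mg), by omega⟩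
    intro hcon
    exact hE ((hall d h2).mpr hcon)

theorem P_empty (h0 : 0 ≤ q) (h1 : q ≤ 1) (A : Finset ℤ) (a b : ℤ) (F : Finset ℤ → ℝ) (t : ℝ) :
    (kG q h0 h1 A (kbox a b)).P t F ∅ = F ∅ := by
  have h := MG.P_congr_on (kG q h0 h1 A (kbox a b)) {(∅ : Finset ℤ)} (by
    intro i _ x hx hr
    exfalso
    rw [Set.mem_singleton_iff] at hx
    subst hx
    apply hr
    show kv (kbox a b) i.1 ∅ * _ = 0
    have : kv (kbox a b) i.1 ∅ = 0 := by simp [kv, kbox]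
    rw [this, zero_mul]) F (fun _ => F ∅) (by
    intro x hx
    rw [Set.mem_singleton_iff] at hx
    rw [hx]) t ∅ rfl
  rw [h, MG.P_const]

open Classical in
theorem one_step_pw (o : ℤ) (ℓ n : ℕ) (k1 k2 mg j1 j2 : ℕ)
    (hk1 : mg ≤ k1) (hk12 : k1 + 2 * mg ≤ k2) (hk2 : k2 + mg ≤ n)
    (hj1 : j1 = k1 - mg) (hj2 : j2 = k2 + mg)
    (a a' ρ η : ℝ) (hη : 0 ≤ η) (hρ : 0 ≤ ρ) (ha : a - ρ ≤ a') (ha' : η ≤ a')
    (S T : Finset ℤ) :
    max ((NE o ℓ k1 k2 T : ℝ) - a') 0 ≤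
      (max ((NE o ℓ k1 k2 S : ℝ) - a) 0 +
        2 * mg * (if NG o ℓ mg k1 S ∨ NG o ℓ mg k2 S then 1 else 0)) +
      n * ((if max η ((NE o ℓ j1 j2 S : ℝ) - ρ) < (NE o ℓ j1 j2 T : ℝ) then 1 else 0) +
      ((if (∀ i, k1 ≤ i + mg → i < k1 + mg → S ∩ Bk o ℓ i = ∅) then
        (if T ∩ Icc (o + j1 * ℓ) (o + k1 * ℓ - 1) = ∅ then 0 else 1) else 0) +
       (if (∀ i, k2 ≤ i + mg → i < k2 + mg → S ∩ Bk o ℓ i = ∅) then
        (if T ∩ Icc (o + k2 * ℓ) (o + j2 * ℓ - 1) = ∅ then 0 else 1) else 0))) := by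
  have ha'0 : 0 ≤ a' := hη.trans ha'
  have hXn : (NE o ℓ k1 k2 T : ℝ) ≤ n := by
    have := NE_le o ℓ k1 k2 T
    have h2 : NE o ℓ k1 k2 T ≤ n := by omega
    exact_mod_cast h2
  have hn0 : (0 : ℝ) ≤ n := Nat.cast_nonneg _
  have hFn : max ((NE o ℓ k1 k2 T : ℝ) - a') 0 ≤ n := max_le (by linarith) hn0
  obtain ⟨i0, hi0⟩ : ∃ i0 : ℝ, i0 = (if NG o ℓ mg k1 S ∨ NG o ℓ mg k2 S then (1 : ℝ) else 0) :=
    ⟨_, rfl⟩
  obtain ⟨i1, hi1⟩ : ∃ i1 : ℝ, i1 = (if max η ((NE o ℓ j1 j2 S : ℝ) - ρ) <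
    (NE o ℓ j1 j2 T : ℝ) then (1 : ℝ) else 0) := ⟨_, rfl⟩
  obtain ⟨i2, hi2⟩ : ∃ i2 : ℝ, i2 = (if (∀ i, k1 ≤ i + mg → i < k1 + mg → S ∩ Bk o ℓ i = ∅) then
        (if T ∩ Icc (o + j1 * ℓ) (o + k1 * ℓ - 1) = ∅ then (0 : ℝ) else 1) else 0) := ⟨_, rfl⟩
  obtain ⟨i3, hi3⟩ : ∃ i3 : ℝ, i3 = (if (∀ i, k2 ≤ i + mg → i < k2 + mg → S ∩ Bk o ℓ i = ∅) then
        (if T ∩ Icc (o + k2 * ℓ) (o + j2 * ℓ - 1) = ∅ then (0 : ℝ) else 1) else 0) := ⟨_, rfl⟩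
  rw [← hi0, ← hi1, ← hi2, ← hi3]
  have p0 : 0 ≤ i0 := by rw [hi0]; split_ifs <;> norm_num
  have p1 : 0 ≤ i1 := by rw [hi1]; split_ifs <;> norm_num
  have p2 : 0 ≤ i2 := by rw [hi2]; split_ifs <;> norm_num
  have p3 : 0 ≤ i3 := by rw [hi3]; split_ifs <;> norm_num
  have pm : 0 ≤ max ((NE o ℓ k1 k2 S : ℝ) - a) 0 := le_max_right _ _
  have pmg : (0 : ℝ) ≤ 2 * mg * i0 := by positivity
  by_cases c1 : max η ((NE o ℓ j1 j2 S : ℝ) - ρ) < (NE o ℓ j1 j2 T : ℝ)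
  · have : i1 = 1 := by rw [hi1, if_pos c1]
    rw [this]
    nlinarith [mul_nonneg hn0 p2, mul_nonneg hn0 p3]
  have q2 : ((∀ i, k1 ≤ i + mg → i < k1 + mg → S ∩ Bk o ℓ i = ∅) →
      T ∩ Icc (o + j1 * ℓ) (o + k1 * ℓ - 1) = ∅) ∨ i2 = 1 := by
    by_cases hL : (∀ i, k1 ≤ i + mg → i < k1 + mg → S ∩ Bk o ℓ i = ∅)
    · by_cases hT : T ∩ Icc (o + j1 * ℓ) (o + k1 * ℓ - 1) = ∅
      · left; exact fun _ => hT
      · right; rw [hi2, if_pos hL, if_neg hT]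
    · left; exact fun h => absurd h hL
  have q3 : ((∀ i, k2 ≤ i + mg → i < k2 + mg → S ∩ Bk o ℓ i = ∅) →
      T ∩ Icc (o + k2 * ℓ) (o + j2 * ℓ - 1) = ∅) ∨ i3 = 1 := by
    by_cases hL : (∀ i, k2 ≤ i + mg → i < k2 + mg → S ∩ Bk o ℓ i = ∅)
    · by_cases hT : T ∩ Icc (o + k2 * ℓ) (o + j2 * ℓ - 1) = ∅
      · left; exact fun _ => hT
      · right; rw [hi3, if_pos hL, if_neg hT]
    · left; exact fun h => absurd h hL
  rcases q2 with q2 | q2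
  swap
  · rw [q2]
    nlinarith [mul_nonneg hn0 p1, mul_nonneg hn0 p3]
  rcases q3 with q3 | q3
  swap
  · rw [q3]
    nlinarith [mul_nonneg hn0 p1, mul_nonneg hn0 p2]
  have pn : 0 ≤ (n : ℝ) * (i1 + (i2 + i3)) := by positivity
  have hN := not_lt.mp c1
  have sT := NE_split o ℓ (show j1 ≤ k1 by omega) (show k1 ≤ k2 by omega)
    (show k2 ≤ j2 by omega) T
  have sS := NE_split o ℓ (show j1 ≤ k1 by omega) (show k1 ≤ k2 by omega)
    (show k2 ≤ j2 by omega) S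
  have sT' : (NE o ℓ j1 j2 T : ℝ) = NE o ℓ j1 k1 T + NE o ℓ k1 k2 T + NE o ℓ k2 j2 T := by
    exact_mod_cast sT
  have sS' : (NE o ℓ j1 j2 S : ℝ) = NE o ℓ j1 k1 S + NE o ℓ k1 k2 S + NE o ℓ k2 j2 S := by
    exact_mod_cast sS
  have t1 : (0 : ℝ) ≤ NE o ℓ j1 k1 T := Nat.cast_nonneg _
  have t2 : (0 : ℝ) ≤ NE o ℓ k2 j2 T := Nat.cast_nonneg _
  have key : max ((NE o ℓ k1 k2 T : ℝ) - a') 0 ≤
      max ((NE o ℓ k1 k2 S : ℝ) - a) 0 + 2 * mg * i0 := by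
    apply max_le _ (by linarith)
    by_cases hNG : NG o ℓ mg k1 S ∨ NG o ℓ mg k2 S
    · have : i0 = 1 := by rw [hi0, if_pos hNG]
      rw [this]
      have u1 : (NE o ℓ j1 k1 S : ℝ) ≤ mg := by
        have h := NE_le o ℓ j1 k1 S
        have h2 : NE o ℓ j1 k1 S ≤ mg := by omega
        exact_mod_cast h2
      have u2 : (NE o ℓ k2 j2 S : ℝ) ≤ mg := by
        have h := NE_le o ℓ k2 j2 S
        have h2 : NE o ℓ k2 j2 S ≤ mg := by omega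
        exact_mod_cast h2
      have hm := le_max_left ((NE o ℓ k1 k2 S : ℝ) - a) 0
      have hmg0 : (0 : ℝ) ≤ mg := Nat.cast_nonneg _
      rcases le_max_iff.mp hN with h | h
      · linarith
      · linarith
    · have hNG1 : ¬ NG o ℓ mg k1 S := fun h => hNG (Or.inl h)
      have hNG2 : ¬ NG o ℓ mg k2 S := fun h => hNG (Or.inr h)
      have v1 : NE o ℓ j1 k1 S ≤ NE o ℓ j1 k1 T := by
        rcases const_of_not_NG o ℓ mg k1 hk1 S hNG1 with h | h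
        · have hT := q2 h
          rw [NE_all o ℓ j1 k1 T (fun i h1 h2 => ?_)]
          · exact NE_le o ℓ j1 k1 S
          · exact Finset.subset_empty.mp (hT ▸ Finset.inter_subset_inter_left
              (Bk_sub o ℓ j1 k1 i h1 h2))
        · rw [NE_none o ℓ j1 k1 S (fun i h1 h2 => h i (by omega) (by omega))]
          exact Nat.zero_le _
      have v2 : NE o ℓ k2 j2 S ≤ NE o ℓ k2 j2 T := by
        rcases const_of_not_NG o ℓ mg k2 (by omega) S hNG2 with h | h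
        · have hT := q3 h
          rw [NE_all o ℓ k2 j2 T (fun i h1 h2 => ?_)]
          · exact NE_le o ℓ k2 j2 S
          · exact Finset.subset_empty.mp (hT ▸ Finset.inter_subset_inter_left
              (Bk_sub o ℓ k2 j2 i h1 h2))
        · rw [NE_none o ℓ k2 j2 S (fun i h1 h2 => h i (by omega) (by omega))]
          exact Nat.zero_le _
      have v1' : (NE o ℓ j1 k1 S : ℝ) ≤ NE o ℓ j1 k1 T := by exact_mod_cast v1
      have v2' : (NE o ℓ k2 j2 S : ℝ) ≤ NE o ℓ k2 j2 T := by exact_mod_cast v2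
      have hm := le_max_left ((NE o ℓ k1 k2 S : ℝ) - a) 0
      rcases le_max_iff.mp hN with h | h
      · linarith
      · linarith
  linarith

open Classical in

/-- one step in an isolated interval: pointwise bound for the truncated number of empty blocks -/
theorem one_step_pt (h0 : 0 < q) (h1 : q < 1) (o : ℤ) (ℓ n : ℕ) (hl : 3 ≤ ℓ) (k1 k2 mg : ℕ) (hmg : 1 ≤ mg)
    (hk1 : mg ≤ k1) (hk12 : k1 + 2 * mg ≤ k2) (hk2 : k2 + mg ≤ n) (u : ℝ) (hu : 0 ≤ u)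
    (a a' ρ η : ℝ) (hη : 0 ≤ η) (hρ : 0 ≤ ρ) (ha : a - ρ ≤ a') (ha' : η ≤ a')
    (S : Finset ℤ) (hS : S ⊆ Sb o ℓ 0 n) :
    (bG q h0 h1 o ℓ 0 n).P u (fun T => max ((NE o ℓ k1 k2 T : ℝ) - a') 0) S ≤
      max ((NE o ℓ k1 k2 S : ℝ) - a) 0 +
      2 * mg * (if NG o ℓ mg k1 S ∨ NG o ℓ mg k2 S then 1 else 0) +
      ρ * (if NE o ℓ k1 k2 S = k2 - k1 then 1 else 0) +
      n * Gf q h0 h1 o ℓ (k1 - mg) (k2 + mg) u ρ η S +
      n * ((4 * u + 2) * Real.exp (6 * u - mg * ℓ)) := by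
  obtain ⟨j1, hj1⟩ : ∃ j1, j1 = k1 - mg := ⟨_, rfl⟩
  obtain ⟨j2, hj2⟩ : ∃ j2, j2 = k2 + mg := ⟨_, rfl⟩
  rw [← hj1, ← hj2]
  have hℓ1 : 1 ≤ ℓ := by omega
  have ha'0 : 0 ≤ a' := hη.trans ha'
  have hn0 : (0 : ℝ) ≤ n := Nat.cast_nonneg _
  have hXn : ∀ T, (NE o ℓ k1 k2 T : ℝ) ≤ n := by
    intro T
    have := NE_le o ℓ k1 k2 T
    have h2 : NE o ℓ k1 k2 T ≤ n := by omega
    exact_mod_cast h2
  obtain ⟨F, hF⟩ : ∃ F : Finset ℤ → ℝ, F = fun T => max ((NE o ℓ k1 k2 T : ℝ) - a') 0 :=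
    ⟨_, rfl⟩
  have hFT : ∀ T, F T = max ((NE o ℓ k1 k2 T : ℝ) - a') 0 := fun T => by rw [hF]
  rw [← hF]
  have hF0 : ∀ T, 0 ≤ F T := fun T => by rw [hFT]; exact le_max_right _ _
  have hFn : ∀ T, F T ≤ n := by
    intro T
    rw [hFT]
    exact max_le (by linarith [hXn T]) hn0
  have hFM : ∀ T, |F T| ≤ (n : ℝ) := fun T => by rw [abs_of_nonneg (hF0 T)]; exact hFn T
  have hFloc : ∀ T, F T = F (T ∩ Icc (o + k1 * ℓ) (o + k2 * ℓ - 1)) := by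
    intro T
    rw [hFT, hFT, ← NE_loc o ℓ k1 k2 T _ (fun i h1 h2 => Bk_sub o ℓ k1 k2 i h1 h2)]
  have hFloc' : ∀ T, F T = F (T ∩ Icc (o + j1 * ℓ) (o + j2 * ℓ - 1)) := by
    intro T
    rw [hFT, hFT, ← NE_loc o ℓ k1 k2 T _
      (fun i h1 h2 => Bk_sub o ℓ j1 j2 i (by omega) (by omega))]
  have z1 : (0 : ℤ) ≤ (j1 : ℤ) * ℓ := by positivity
  have z2 : (j2 : ℤ) * ℓ ≤ n * ℓ := by
    exact_mod_cast Nat.mul_le_mul_right ℓ (show j2 ≤ n by omega)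
  have z3 : (j1 : ℤ) * ℓ + mg * ℓ = k1 * ℓ := by
    have e : (j1 : ℤ) + mg = k1 := by omega
    rw [← add_mul, e]
  have z4 : (k2 : ℤ) * ℓ + mg * ℓ = j2 * ℓ := by
    have e : (k2 : ℤ) + mg = j2 := by omega
    rw [← add_mul, e]
  have z5 : (k1 : ℤ) * ℓ + 2 * (mg * ℓ) ≤ k2 * ℓ := by
    have e : (((k1 + 2 * mg) * ℓ : ℕ) : ℤ) ≤ ((k2 * ℓ : ℕ) : ℤ) := by
      exact_mod_cast Nat.mul_le_mul_right ℓ hk12
    push_cast at e
    linarith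
  have z6 : (3 : ℤ) ≤ (mg : ℤ) * ℓ := by
    have e : 1 * 3 ≤ mg * ℓ := Nat.mul_le_mul hmg hl
    have e2 : ((1 * 3 : ℕ) : ℤ) ≤ ((mg * ℓ : ℕ) : ℤ) := by exact_mod_cast e
    push_cast at e2
    linarith
  have hadm : Adm (o + ((0 : ℕ) : ℤ) * ℓ) (o + n * ℓ - 1)
      (kbox (o + ((0 : ℕ) : ℤ) * ℓ) (o + n * ℓ - 1)) :=
    adm_box _ _ (by push_cast; linarith)
  have hadm' : Adm (o + (j1 : ℤ) * ℓ) (o + j2 * ℓ - 1)
      (kbox (o + (j1 : ℤ) * ℓ) (o + j2 * ℓ - 1)) :=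
    adm_box _ _ (by linarith)
  have hc := fs_compare h0.le h1.le (o + ((0 : ℕ) : ℤ) * ℓ) (o + n * ℓ - 1) (o + j1 * ℓ)
    (o + j2 * ℓ - 1) (by push_cast; linarith) (by linarith) (kbox _ _) (kbox _ _)
    hadm.toAdm0 hadm'.toAdm0 (o + k1 * ℓ) (o + k2 * ℓ - 1) (mg * ℓ) (by push_cast; linarith)
    (by linarith) (by push_cast; linarith) F hFloc n hFM u hu S
  have hc2 : (bG q h0 h1 o ℓ 0 n).P u F S ≤ (bG q h0 h1 o ℓ j1 j2).P u F S +
      4 * n * u * Real.exp (6 * u - mg * ℓ) := by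
    have h := (abs_le.mp hc).2
    rw [Nat.cast_mul] at h
    have h3 : (bG q h0 h1 o ℓ 0 n).P u F S - (bG q h0 h1 o ℓ j1 j2).P u F S ≤
      4 * n * u * Real.exp (6 * u - mg * ℓ) := h
    linarith
  have hloc : (bG q h0 h1 o ℓ j1 j2).P u F S =
      (bG q h0 h1 o ℓ j1 j2).P u F (S ∩ Sb o ℓ j1 j2) :=
    P_loc h0.le h1.le _ _ _ hadm'.toAdm0 F hFloc' u S
  rw [hloc] at hc2
  have he6 : 0 < Real.exp (6 * u - mg * ℓ) := Real.exp_pos _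
  have hi0 : (0 : ℝ) ≤ 2 * mg * (if NG o ℓ mg k1 S ∨ NG o ℓ mg k2 S then 1 else 0) := by
    split_ifs <;> positivity
  by_cases hS' : S ∩ Sb o ℓ j1 j2 = ∅
  · have hG : Gf q h0 h1 o ℓ j1 j2 u ρ η S = 0 := by
      unfold Gf
      rw [if_pos hS']
    have hX : NE o ℓ k1 k2 S = k2 - k1 := by
      apply NE_all
      intro i h1 h2
      have hs : Bk o ℓ i ⊆ Sb o ℓ j1 j2 := Bk_sub o ℓ j1 j2 i (by omega) (by omega)
      exact Finset.subset_empty.mp (hS' ▸ Finset.inter_subset_inter_left hs)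
    have hX0 : NE o ℓ k1 k2 ∅ = k2 - k1 := by
      apply NE_all
      intro i h1 h2
      exact Finset.empty_inter _
    have hPF : (bG q h0 h1 o ℓ j1 j2).P u F (S ∩ Sb o ℓ j1 j2) = F ∅ := by
      rw [hS']
      exact P_empty h0.le h1.le _ _ _ F u
    rw [hPF, hFT, hX0] at hc2
    rw [hG, hX, if_pos rfl]
    have hm : max (((k2 - k1 : ℕ) : ℝ) - a') 0 ≤ max (((k2 - k1 : ℕ) : ℝ) - a) 0 + ρ := by
      apply max_le
      · have := le_max_left (((k2 - k1 : ℕ) : ℝ) - a) 0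
        linarith
      · have := le_max_right (((k2 - k1 : ℕ) : ℝ) - a) 0
        linarith
    have hne : 0 ≤ (n : ℝ) * Real.exp (6 * u - mg * ℓ) := by positivity
    linarith
  · obtain ⟨f1, hf1⟩ : ∃ f1 : Finset ℤ → ℝ, f1 = fun T =>
      if max η ((NE o ℓ j1 j2 S : ℝ) - ρ) < (NE o ℓ j1 j2 T : ℝ) then 1 else 0 := ⟨_, rfl⟩
    obtain ⟨f2, hf2⟩ : ∃ f2 : Finset ℤ → ℝ, f2 = fun T =>
      (if (∀ i, k1 ≤ i + mg → i < k1 + mg → S ∩ Bk o ℓ i = ∅) then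
        (if T ∩ Icc (o + j1 * ℓ) (o + k1 * ℓ - 1) = ∅ then 0 else 1) else 0) := ⟨_, rfl⟩
    obtain ⟨f3, hf3⟩ : ∃ f3 : Finset ℤ → ℝ, f3 = fun T =>
      (if (∀ i, k2 ≤ i + mg → i < k2 + mg → S ∩ Bk o ℓ i = ∅) then
        (if T ∩ Icc (o + k2 * ℓ) (o + j2 * ℓ - 1) = ∅ then 0 else 1) else 0) := ⟨_, rfl⟩
    have hG : Gf q h0 h1 o ℓ j1 j2 u ρ η S =
        (bG q h0 h1 o ℓ j1 j2).P u f1 (S ∩ Sb o ℓ j1 j2) := by
      unfold Gf
      rw [if_neg hS', hf1]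
    have b1 : ∀ T, |f1 T| ≤ 1 := by
      intro T; rw [hf1]; simp only; split_ifs <;> norm_num
    have b2 : ∀ T, |f2 T| ≤ 1 := by
      intro T; rw [hf2]; simp only; split_ifs <;> norm_num
    have b3 : ∀ T, |f3 T| ≤ 1 := by
      intro T; rw [hf3]; simp only; split_ifs <;> norm_num
    have B1 : Bd f1 := ⟨1, b1⟩
    have B2 : Bd f2 := ⟨1, b2⟩
    have B3 : Bd f3 := ⟨1, b3⟩
    have B4 : Bd (fun T => f2 T + f3 T) := ⟨2, fun T => by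
      have := abs_add_le (f2 T) (f3 T)
      linarith [b2 T, b3 T]⟩
    have B5 : Bd (fun T => f1 T + (f2 T + f3 T)) := ⟨3, fun T => by
      have h5 := abs_add_le (f2 T) (f3 T)
      have h6 := abs_add_le (f1 T) (f2 T + f3 T)
      linarith [b1 T, b2 T, b3 T]⟩
    have B6 : Bd (fun T => (n : ℝ) * (f1 T + (f2 T + f3 T))) := by
      obtain ⟨M, hM⟩ := B5
      refine ⟨n * M, fun T => ?_⟩
      rw [abs_mul, abs_of_nonneg hn0]
      exact mul_le_mul_of_nonneg_left (hM T) hn0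
    obtain ⟨M0, hM0⟩ : ∃ M0 : ℝ, M0 = max ((NE o ℓ k1 k2 S : ℝ) - a) 0 +
      2 * mg * (if NG o ℓ mg k1 S ∨ NG o ℓ mg k2 S then 1 else 0) := ⟨_, rfl⟩
    have B7 : Bd (fun _ : Finset ℤ => M0) := ⟨|M0|, fun _ => le_rfl⟩
    have B8 : Bd (fun T => M0 + (n : ℝ) * (f1 T + (f2 T + f3 T))) := by
      obtain ⟨M, hM⟩ := B6
      refine ⟨|M0| + M, fun T => ?_⟩
      exact (abs_add_le _ _).trans (by linarith [hM T])
    have hFB : Bd F := ⟨n, hFM⟩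
    have hpt : ∀ T, F T ≤ M0 + n * (f1 T + (f2 T + f3 T)) := by
      intro T
      rw [hFT, hM0, hf1, hf2, hf3]
      exact one_step_pw o ℓ n k1 k2 mg j1 j2 hk1 hk12 hk2 hj1 hj2 a a' ρ η hη hρ ha ha' S T
    have hmono := MG.P_mono (bG q h0 h1 o ℓ j1 j2) F _ hFB B8 hpt u hu (S ∩ Sb o ℓ j1 j2)
    rw [MG.P_add _ (fun _ => M0) (fun T => (n : ℝ) * (f1 T + (f2 T + f3 T))) B7 B6,
      MG.P_const, MG.P_smul _ (n : ℝ) (fun T => f1 T + (f2 T + f3 T)) B5,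
      MG.P_add _ f1 (fun T => f2 T + f3 T) B1 B4, MG.P_add _ f2 f3 B2 B3, ← hG] at hmono
    have hP2 : (bG q h0 h1 o ℓ j1 j2).P u f2 (S ∩ Sb o ℓ j1 j2) ≤
        Real.exp (2 * u - mg * ℓ) := by
      by_cases hL : (∀ i, k1 ≤ i + mg → i < k1 + mg → S ∩ Bk o ℓ i = ∅)
      · have e : f2 = fun T => if T ∩ Icc (o + j1 * ℓ) (o + k1 * ℓ - 1) = ∅ then 0 else 1 := by
          rw [hf2]
          funext T
          rw [if_pos hL]
        rw [e]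
        have h5 := left_box h0 h1 (o + j1 * ℓ) (o + j2 * ℓ - 1) (by linarith)
          (o + k1 * ℓ - 1) (o + ((k1 + mg : ℕ) : ℤ) * ℓ - 1) (by push_cast; nlinarith)
          (S ∩ Sb o ℓ j1 j2) Finset.inter_subset_right (by
            rw [Finset.eq_empty_iff_forall_notMem]
            intro x hx
            rw [Finset.mem_inter, Finset.mem_inter] at hx
            obtain ⟨i, hi1, hi2, hi3⟩ := exists_Bk o ℓ j1 (k1 + mg) hℓ1 x hx.2
            have h6 := hL i (by omega) hi2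
            rw [Finset.eq_empty_iff_forall_notMem] at h6
            exact h6 x (Finset.mem_inter.mpr ⟨hx.1.1, hi3⟩)) u hu
        refine h5.trans (le_of_eq ?_)
        congr 1
        push_cast
        ring
      · have e : f2 = fun _ => 0 := by
          rw [hf2]
          funext T
          rw [if_neg hL]
        rw [e, MG.P_const]
        positivity
    have hP3 : (bG q h0 h1 o ℓ j1 j2).P u f3 (S ∩ Sb o ℓ j1 j2) ≤
        Real.exp (2 * u - mg * ℓ) := by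
      by_cases hL : (∀ i, k2 ≤ i + mg → i < k2 + mg → S ∩ Bk o ℓ i = ∅)
      · have e : f3 = fun T => if T ∩ Icc (o + k2 * ℓ) (o + j2 * ℓ - 1) = ∅ then 0 else 1 := by
          rw [hf3]
          funext T
          rw [if_pos hL]
        rw [e]
        have e7 : ((k2 - mg : ℕ) : ℤ) = k2 - mg := by omega
        have h5 := right_box h0 h1 (o + j1 * ℓ) (o + j2 * ℓ - 1) (by linarith)
          (o + k2 * ℓ) (o + ((k2 - mg : ℕ) : ℤ) * ℓ) (by rw [e7]; nlinarith)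
          (S ∩ Sb o ℓ j1 j2) Finset.inter_subset_right (by
            rw [Finset.eq_empty_iff_forall_notMem]
            intro x hx
            rw [Finset.mem_inter, Finset.mem_inter] at hx
            obtain ⟨i, hi1, hi2, hi3⟩ := exists_Bk o ℓ (k2 - mg) j2 hℓ1 x hx.2
            have h6 := hL i (by omega) (by omega)
            rw [Finset.eq_empty_iff_forall_notMem] at h6
            exact h6 x (Finset.mem_inter.mpr ⟨hx.1.1, hi3⟩)) u hu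
        refine h5.trans (le_of_eq ?_)
        rw [e7]
        congr 1
        push_cast
        ring
      · have e : f3 = fun _ => 0 := by
          rw [hf3]
          funext T
          rw [if_neg hL]
        rw [e, MG.P_const]
        positivity
    have he26 : Real.exp (2 * u - mg * ℓ) ≤ Real.exp (6 * u - mg * ℓ) :=
      Real.exp_le_exp.mpr (by linarith)
    have hρi : 0 ≤ ρ * (if NE o ℓ k1 k2 S = k2 - k1 then (1 : ℝ) else 0) := by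
      split_ifs
      · linarith
      · linarith
    have h8 : (n : ℝ) * ((bG q h0 h1 o ℓ j1 j2).P u f2 (S ∩ Sb o ℓ j1 j2) +
        (bG q h0 h1 o ℓ j1 j2).P u f3 (S ∩ Sb o ℓ j1 j2)) ≤
        n * (2 * Real.exp (6 * u - mg * ℓ)) :=
      mul_le_mul_of_nonneg_left (by linarith) hn0
    rw [← hM0]
    linarith


end FA
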