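import Pool.Agent.Helper870.FADefs
import Pool.Agent.Helper870.FAG1
import Pool.Agent.Helper870.FAS1
import Pool.Agent.Helper870.FAS2
import Pool.Agent.Helper870.FAS3
import Pool.Agent.Helper870.FAS4
import Pool.Agent.Helper870.FAS6
import Pool.Agent.Helper870.FAS9
import Pool.Agent.Helper870.FAS10
import Pool.Agent.Helper870.FAD2
import Pool.Agent.Helper870.FAR1
import Pool.Agent.Helper870.FAG6
import Pool.Agent.Helper870.FAD3
import Pool.Agent.Helper870.FAOSC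
import Pool.Agent.Helper870.FAD4
import Pool.Agent.Helper870.FALB
import Pool.Agent.Helper870.FALSI
import Pool.Agent.Helper870.FAD5
import Pool.Agent.Helper870.FAD7
import Pool.Agent.Helper870.FARA1
import Pool.Agent.Helper870.FARA2
import Pool.Agent.Helper870.FARA3
import Pool.Agent.Helper870.FARA5

set_option autoImplicit false
set_option linter.unusedSectionVars false

open Finset

noncomputable section

-- USES: G1 S1 S2 S3 S4 S6 S9 S10 D2 R1 G6 D3 OSC D4 LB LSI D5 D7 RA1 RA2 RA3 RA5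
namespace FA
variable {q : ℝ}


theorem bm_supp (h0 : 0 < q) (h1 : q < 1) (o : ℤ) (ℓ n : ℕ) (hl : 1 ≤ ℓ) (hn : 1 ≤ n) (S : Finset ℤ)
    (hS : S ∈ (bm q h0 h1 o ℓ n hl hn).s) : S ⊆ Sb o ℓ 0 n := by
  unfold bm nfm FM.cond pfm at hS
  simp only [Finset.mem_filter, Finset.mem_powerset] at hS
  exact hS.1

theorem Gf_nonneg (h0 : 0 < q) (h1 : q < 1) (o : ℤ) (ℓ j1 j2 : ℕ) (u ρ η : ℝ) (hu : 0 ≤ u) (S : Finset ℤ) :
    0 ≤ Gf q h0 h1 o ℓ j1 j2 u ρ η S := by
  unfold Gf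
  split_ifs with h
  · exact le_refl _
  · apply MG.P_nonneg _ _ _ _ _ hu
    · refine ⟨1, fun x => ?_⟩
      dsimp only
      split_ifs <;> simp
    · intro x
      split_ifs <;> simp

theorem Gf_le_one (h0 : 0 < q) (h1 : q < 1) (o : ℤ) (ℓ j1 j2 : ℕ) (u ρ η : ℝ) (hu : 0 ≤ u) (S : Finset ℤ) :
    Gf q h0 h1 o ℓ j1 j2 u ρ η S ≤ 1 := by
  unfold Gf
  split_ifs with h
  · norm_num
  · refine le_trans (le_abs_self _) ?_
    apply MG.P_bound _ _ _ _ _ hu
    intro x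
    show |(if _ then (1:ℝ) else 0)| ≤ 1
    split_ifs <;> simp

open Classical in
/-- one step at the level of laws -/
theorem one_step_law (h0 : 0 < q) (h1 : q < 1) : ∃ ϑ c1 K : ℝ, ∃ ℓ1 : ℕ, 0 < ϑ ∧ 0 < c1 ∧ 0 < K ∧
    ∀ (o : ℤ) (ℓ n : ℕ) (hl : 1 ≤ ℓ) (hn : 1 ≤ n), ℓ1 ≤ ℓ → ∀ (k1 k2 mg : ℕ), 1 ≤ mg → mg ≤ k1 →
    k1 + 2 * mg ≤ k2 → k2 + mg ≤ n → ∀ u a a' ρ η α : ℝ, 0 < u → 0 ≤ η → 0 ≤ ρ → ρ * ℓ ≤ ϑ * u →
    a - ρ ≤ a' → η ≤ a' → 0 < α →
    2 ^ n / q * (Real.exp (-(c1 * ℓ * η)) + Real.exp (-(c1 * u))) ≤ Real.exp (-α) →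
    ∀ h : Finset ℤ → ℝ, (∀ S, 0 < h S) → Bd h → (bm q h0 h1 o ℓ n hl hn).E h = 1 →
      (bm q h0 h1 o ℓ n hl hn).E (fun S => h S *
          (bG q h0 h1 o ℓ 0 n).P u (fun T => max ((NE o ℓ k1 k2 T : ℝ) - a') 0) S) ≤
        (bm q h0 h1 o ℓ n hl hn).E (fun S => h S * max ((NE o ℓ k1 k2 S : ℝ) - a) 0) +
        2 * mg * (bm q h0 h1 o ℓ n hl hn).E
          (fun S => if NG o ℓ mg k1 S ∨ NG o ℓ mg k2 S then h S else 0) +
        ρ * (bm q h0 h1 o ℓ n hl hn).E (fun S => if NE o ℓ k1 k2 S = k2 - k1 then h S else 0) +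
        n * (1 / α * (K * ℓ * Dir (bG q h0 h1 o ℓ 0 n) (bm q h0 h1 o ℓ n hl hn)
            (fun S => Real.sqrt (h S)) + Real.log 2) + (4 * u + 2) * Real.exp (6 * u - mg * ℓ)) := by
  obtain ⟨ϑ, c1, ℓ1, hϑ, hc1, hG⟩ := lemG (q := q) h0 h1
  obtain ⟨K, hK, hE⟩ := pat_ent (q := q) h0 h1
  refine ⟨ϑ, c1, K, max ℓ1 3, hϑ, hc1, hK, ?_⟩
  intro o ℓ n hl hn hℓ k1 k2 mg hmg hk1 hk12 hk2 u a a' ρ η α hu hη hρ hρl haa ha' hα hexp h hpos hbd hone
  have hℓ1 : ℓ1 ≤ ℓ := le_trans (le_max_left _ _) hℓ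
  have hℓ3 : 3 ≤ ℓ := le_trans (le_max_right _ _) hℓ
  have h3n : 3 ≤ n * ℓ := by nlinarith
  set m := bm q h0 h1 o ℓ n hl hn with hm
  set g := Gf q h0 h1 o ℓ (k1 - mg) (k2 + mg) u ρ η with hg
  -- the Gf term
  have hGf : m.E (fun S => h S * g S) ≤ 1 / α * (K * ℓ * Dir (bG q h0 h1 o ℓ 0 n) m
      (fun S => Real.sqrt (h S)) + Real.log 2) := by
    have key := ent_ineq_pat m (pat o ℓ n) h hpos hone g (fun x => Gf_nonneg h0 h1 o ℓ _ _ u ρ η hu.le x)
      (fun x => Gf_le_one h0 h1 o ℓ _ _ u ρ η hu.le x) α hα (by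
        intro y
        have hh := hG o ℓ n hl hn hℓ1 (k1 - mg) (k2 + mg) (by omega) hk2 u ρ η hu.le hρ hρl hη y
        have hnn : 0 ≤ m.E (fun S => if pat o ℓ n S = y then 1 else 0) := by
          unfold FM.E
          apply Finset.sum_nonneg
          intro x hx
          apply mul_nonneg (m.hw x hx).le
          show (0:ℝ) ≤ (if _ then (1:ℝ) else 0)
          split_ifs <;> norm_num
        have h2 := mul_le_mul_of_nonneg_right hexp hnn
        have e1 : m.E (fun x => if pat o ℓ n x = y then g x else 0) =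
          (bm q h0 h1 o ℓ n hl hn).E (fun S => if pat o ℓ n S = y then Gf q h0 h1 o ℓ (k1 - mg) (k2 + mg) u ρ η S else 0) := by
          rfl
        refine le_trans ?_ (le_trans hh ?_)
        · apply le_of_eq
          congr 1
          funext S
          split_ifs <;> rfl
        · refine le_trans (le_of_eq ?_) (le_trans h2 (le_of_eq ?_))
          · congr 1
          · congr 1
            apply congrArg
            funext S
            split_ifs <;> rfl)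
    refine le_trans key ?_
    apply mul_le_mul_of_nonneg_left _ (by positivity)
    have h5 := hE o ℓ n hl hn h3n h hpos
    linarith
  -- pointwise
  have hpt : m.E (fun S => h S *
          (bG q h0 h1 o ℓ 0 n).P u (fun T => max ((NE o ℓ k1 k2 T : ℝ) - a') 0) S) ≤
      m.E (fun S => h S * max ((NE o ℓ k1 k2 S : ℝ) - a) 0 +
        2 * mg * (if NG o ℓ mg k1 S ∨ NG o ℓ mg k2 S then h S else 0) +
        ρ * (if NE o ℓ k1 k2 S = k2 - k1 then h S else 0) +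
        n * (h S * g S) + (n * ((4 * u + 2) * Real.exp (6 * u - mg * ℓ))) * h S) := by
    unfold FM.E
    apply Finset.sum_le_sum
    intro S hS
    apply mul_le_mul_of_nonneg_left _ (m.hw S hS).le
    have hsub := bm_supp h0 h1 o ℓ n hl hn S hS
    have h6 := one_step_pt h0 h1 o ℓ n hℓ3 k1 k2 mg hmg hk1 hk12 hk2 u hu.le a a' ρ η hη hρ haa ha' S hsub
    have h7 := mul_le_mul_of_nonneg_left h6 (hpos S).le
    refine le_trans h7 (le_of_eq ?_)
    have e1 : (if NG o ℓ mg k1 S ∨ NG o ℓ mg k2 S then h S else 0) =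
      h S * (if NG o ℓ mg k1 S ∨ NG o ℓ mg k2 S then 1 else 0) := by
      split_ifs <;> simp
    have e2 : (if NE o ℓ k1 k2 S = k2 - k1 then h S else 0) =
      h S * (if NE o ℓ k1 k2 S = k2 - k1 then 1 else 0) := by
      split_ifs <;> simp
    dsimp only
    rw [e1, e2]
    ring
  refine le_trans hpt ?_
  have hadd : ∀ F H : Finset ℤ → ℝ, m.E (fun S => F S + H S) = m.E F + m.E H := by
    intro F H
    unfold FM.E
    rw [← Finset.sum_add_distrib]
    apply Finset.sum_congr rfl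
    intro x _
    ring
  have hmul : ∀ (c : ℝ) (F : Finset ℤ → ℝ), m.E (fun S => c * F S) = c * m.E F := by
    intro c F
    unfold FM.E
    rw [Finset.mul_sum]
    apply Finset.sum_congr rfl
    intro x _
    ring
  have r1 : m.E (fun S => 2 * (mg:ℝ) * (if NG o ℓ mg k1 S ∨ NG o ℓ mg k2 S then h S else 0)) =
      2 * mg * m.E (fun S => if NG o ℓ mg k1 S ∨ NG o ℓ mg k2 S then h S else 0) := hmul _ _
  have r2 : m.E (fun S => ρ * (if NE o ℓ k1 k2 S = k2 - k1 then h S else 0)) =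
      ρ * m.E (fun S => if NE o ℓ k1 k2 S = k2 - k1 then h S else 0) := hmul _ _
  have r3 : m.E (fun S => (n:ℝ) * (h S * g S)) = n * m.E (fun S => h S * g S) := hmul _ _
  have r4 : m.E (fun S => (n * ((4 * u + 2) * Real.exp (6 * u - mg * ℓ))) * h S) =
      (n * ((4 * u + 2) * Real.exp (6 * u - mg * ℓ))) * m.E (fun S => h S) := hmul _ _
  have r0 : m.E (fun S => h S * max ((NE o ℓ k1 k2 S : ℝ) - a) 0 +
        2 * mg * (if NG o ℓ mg k1 S ∨ NG o ℓ mg k2 S then h S else 0) +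
        ρ * (if NE o ℓ k1 k2 S = k2 - k1 then h S else 0) +
        n * (h S * g S) + (n * ((4 * u + 2) * Real.exp (6 * u - mg * ℓ))) * h S) = 
      m.E (fun S => h S * max ((NE o ℓ k1 k2 S : ℝ) - a) 0) +
        m.E (fun S => 2 * mg * (if NG o ℓ mg k1 S ∨ NG o ℓ mg k2 S then h S else 0)) +
        m.E (fun S => ρ * (if NE o ℓ k1 k2 S = k2 - k1 then h S else 0)) +
        m.E (fun S => n * (h S * g S)) + m.E (fun S => (n * ((4 * u + 2) * Real.exp (6 * u - mg * ℓ))) * h S) := by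
    rw [← hadd, ← hadd, ← hadd, ← hadd]
  rw [r0, r1, r2, r3, r4]
  rw [show m.E (fun S => h S) = 1 from hone]
  have hn0 : (0:ℝ) ≤ n := Nat.cast_nonneg n
  have h8 := mul_le_mul_of_nonneg_left hGf hn0
  linarith

end FA
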