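import Pool.Agent.Helper870.FADefs
import Pool.Agent.Helper870.FAG1
import Pool.Agent.Helper870.FAS1
import Pool.Agent.Helper870.FAS5
import Pool.Agent.Helper870.FAS6
import Pool.Agent.Helper870.FAS10
import Pool.Agent.Helper870.FAD2
import Pool.Agent.Helper870.FAR1
import Pool.Agent.Helper870.FAG6
import Pool.Agent.Helper870.FAD3
import Pool.Agent.Helper870.FAD4
import Pool.Agent.Helper870.FAD7

set_option autoImplicit false
set_option linter.unusedSectionVars false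

open Finset

noncomputable section

-- USES: G1 S1 S5 S6 S10 D2 R1 G6 D3 D4 D7
namespace FA
variable {q : ℝ}

open Classical in
/-- initial density: half a point mass, half equilibrium -/
def hin (m : FM (Finset ℤ)) (Λ S0 : Finset ℤ) (S : Finset ℤ) : ℝ :=
  1 / 2 * (if S ∩ Λ = S0 then 1 / m.w S0 else 0) + 1 / 2

theorem bm_mem (h0 : 0 < q) (h1 : q < 1) (o : ℤ) (ℓ n : ℕ) (hl : 1 ≤ ℓ) (hn : 1 ≤ n)
    (S : Finset ℤ) :
    S ∈ (bm q h0 h1 o ℓ n hl hn).s ↔ S ⊆ Sb o ℓ 0 n ∧ S.Nonempty := by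
  unfold bm nfm FM.cond pfm
  simp only [Finset.mem_filter, Finset.mem_powerset]

theorem bm_w (h0 : 0 < q) (h1 : q < 1) (o : ℤ) (ℓ n : ℕ) (hl : 1 ≤ ℓ) (hn : 1 ≤ n)
    (S : Finset ℤ) :
    wt q (Sb o ℓ 0 n) S ≤ (bm q h0 h1 o ℓ n hl hn).w S := by
  classical
  have hw : (bm q h0 h1 o ℓ n hl hn).w S = wt q (Sb o ℓ 0 n) S /
      ∑ y ∈ (Sb o ℓ 0 n).powerset.filter (fun U => U.Nonempty), wt q (Sb o ℓ 0 n) y := by
    unfold bm nfm FM.cond pfm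
    simp only
    congr 1
    apply Finset.sum_congr
    · ext U
      simp only [Finset.mem_filter]
    · intro x _
      rfl
  rw [hw, wt_sum_ne]
  have hZ : 0 < Zn q (Sb o ℓ 0 n) := Zn_pos' h0 h1 _ (Sb_nonempty o ℓ n hl hn)
  have hZ1 : Zn q (Sb o ℓ 0 n) ≤ 1 := by
    unfold Zn
    have : 0 ≤ (1 - q) ^ (Sb o ℓ 0 n).card := pow_nonneg (by linarith) _
    linarith
  rw [le_div_iff₀ hZ]
  exact mul_le_of_le_one_right (wt_pos h0 h1 _ _).le hZ1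

theorem wt_lower (h0 : 0 < q) (h1 : q < 1) (A U : Finset ℤ) :
    (min q (1 - q)) ^ A.card ≤ wt q A U := by
  unfold wt
  have hm : 0 ≤ min q (1 - q) := le_min h0.le (by linarith)
  have hc : A.card = (A ∩ U).card + (A \ U).card := (Finset.card_inter_add_card_sdiff A U).symm
  conv_lhs => rw [hc, pow_add]
  apply mul_le_mul
  · exact pow_le_pow_left₀ hm (min_le_left _ _) _
  · exact pow_le_pow_left₀ hm (min_le_right _ _) _
  · exact pow_nonneg hm _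
  · exact pow_nonneg h0.le _

theorem Sb_card (o : ℤ) (ℓ n : ℕ) : (Sb o ℓ 0 n).card = n * ℓ := by
  unfold Sb
  rw [Int.card_Icc]
  have : o + (n:ℤ) * ℓ - 1 + 1 - (o + ((0:ℕ):ℤ) * ℓ) = ((n * ℓ : ℕ) : ℤ) := by
    push_cast; ring
  rw [this, Int.toNat_natCast]

theorem E_point (h0 : 0 < q) (h1 : q < 1) (o : ℤ) (ℓ n : ℕ) (hl : 1 ≤ ℓ) (hn : 1 ≤ n)
    (S0 : Finset ℤ) (hS0 : S0 ⊆ Sb o ℓ 0 n) (hne : S0.Nonempty) (H : Finset ℤ → ℝ) :
    (bm q h0 h1 o ℓ n hl hn).E (fun S => hin (bm q h0 h1 o ℓ n hl hn) (Sb o ℓ 0 n) S0 S * H S) =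
      1 / 2 * H S0 + 1 / 2 * (bm q h0 h1 o ℓ n hl hn).E H := by
  have hmem := (bm_mem h0 h1 o ℓ n hl hn S0).2 ⟨hS0, hne⟩
  have hpos := (bm q h0 h1 o ℓ n hl hn).hw S0 hmem
  unfold FM.E
  rw [Finset.mul_sum]
  have h2 : ∀ S ∈ (bm q h0 h1 o ℓ n hl hn).s, (bm q h0 h1 o ℓ n hl hn).w S *
      (hin (bm q h0 h1 o ℓ n hl hn) (Sb o ℓ 0 n) S0 S * H S) =
      (if S = S0 then 1 / 2 * H S0 else 0) + 1 / 2 * ((bm q h0 h1 o ℓ n hl hn).w S * H S) := by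
    intro S hS
    have hS' := (bm_mem h0 h1 o ℓ n hl hn S).1 hS
    unfold hin
    rw [Finset.inter_eq_left.2 hS'.1]
    by_cases h : S = S0
    · subst h
      rw [if_pos rfl, if_pos rfl]
      field_simp
    · rw [if_neg h, if_neg h]
      ring
  rw [Finset.sum_congr rfl h2, Finset.sum_add_distrib, Finset.sum_ite_eq', if_pos hmem]

theorem init_law (h0 : 0 < q) (h1 : q < 1) (o : ℤ) (ℓ n : ℕ) (hl : 1 ≤ ℓ) (hn : 1 ≤ n) (h3 : 3 ≤ n * ℓ)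
    (S0 : Finset ℤ) (hS0 : S0 ⊆ Sb o ℓ 0 n) (hne : S0.Nonempty) :
    (∀ S, 1 / 2 ≤ hin (bm q h0 h1 o ℓ n hl hn) (Sb o ℓ 0 n) S0 S) ∧
    Bd (hin (bm q h0 h1 o ℓ n hl hn) (Sb o ℓ 0 n) S0) ∧
    (bm q h0 h1 o ℓ n hl hn).E (hin (bm q h0 h1 o ℓ n hl hn) (Sb o ℓ 0 n) S0) = 1 ∧
    (bm q h0 h1 o ℓ n hl hn).E (fun S => hin (bm q h0 h1 o ℓ n hl hn) (Sb o ℓ 0 n) S0 S *
      Real.log (hin (bm q h0 h1 o ℓ n hl hn) (Sb o ℓ 0 n) S0 S)) ≤ n * ℓ * Real.log (1 / min q (1 - q)) ∧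
    ∀ t : ℝ, ∀ g : Finset ℤ → ℝ, Bd g →
      (bm q h0 h1 o ℓ n hl hn).E (fun S =>
        (bG q h0 h1 o ℓ 0 n).P t (hin (bm q h0 h1 o ℓ n hl hn) (Sb o ℓ 0 n) S0) S * g S) =
      1 / 2 * (bG q h0 h1 o ℓ 0 n).P t g S0 + 1 / 2 * (bm q h0 h1 o ℓ n hl hn).E g := by
  have hmem := (bm_mem h0 h1 o ℓ n hl hn S0).2 ⟨hS0, hne⟩
  have hpos := (bm q h0 h1 o ℓ n hl hn).hw S0 hmem
  have hE := E_point h0 h1 o ℓ n hl hn S0 hS0 hne
  have hwt := bm_w h0 h1 o ℓ n hl hn S0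
  have hEone : (bm q h0 h1 o ℓ n hl hn).E (fun _ => 1) = 1 := by
    unfold FM.E
    simpa using (bm q h0 h1 o ℓ n hl hn).hone
  have hw1 : (bm q h0 h1 o ℓ n hl hn).w S0 ≤ 1 := by
    rw [← (bm q h0 h1 o ℓ n hl hn).hone]
    exact Finset.single_le_sum (f := (bm q h0 h1 o ℓ n hl hn).w)
      (fun x hx => ((bm q h0 h1 o ℓ n hl hn).hw x hx).le) hmem
  have hwt2 : ((bm q h0 h1 o ℓ n hl hn).w S0) ≥ (min q (1 - q)) ^ (n * ℓ) := by
    have := wt_lower h0 h1 (Sb o ℓ 0 n) S0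
    rw [Sb_card] at this
    exact this.trans hwt
  have hrev : Rev (bG q h0 h1 o ℓ 0 n) (bm q h0 h1 o ℓ n hl hn) := by
    have h3' : (3:ℤ) ≤ (n:ℤ) * ℓ := by exact_mod_cast h3
    have hab : o + ((0:ℕ):ℤ) * ℓ + 2 ≤ o + (n:ℤ) * ℓ - 1 := by
      push_cast; linarith
    have hab' : o + ((0:ℕ):ℤ) * ℓ ≤ o + (n:ℤ) * ℓ - 1 := by linarith
    exact adm_rev h0 h1 _ _ hab' _ (adm_box _ _ hab)
  generalize hm : bm q h0 h1 o ℓ n hl hn = m at *
  have hW1 : 1 ≤ 1 / m.w S0 := by rw [le_div_iff₀ hpos]; linarith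
  have hlow : ∀ S, 1 / 2 ≤ hin m (Sb o ℓ 0 n) S0 S := by
    intro S
    unfold hin
    split_ifs
    · linarith
    · linarith
  have hup : ∀ S, hin m (Sb o ℓ 0 n) S0 S ≤ 1 / m.w S0 := by
    intro S
    unfold hin
    split_ifs
    · linarith
    · linarith
  have hBd : Bd (hin m (Sb o ℓ 0 n) S0) := by
    refine ⟨1 / m.w S0, fun S => ?_⟩
    rw [abs_of_nonneg (by linarith [hlow S])]
    exact hup S
  have hEh : m.E (hin m (Sb o ℓ 0 n) S0) = 1 := by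
    have h := hE (fun _ => 1)
    simp only [mul_one] at h
    have h' : m.E (fun S => hin m (Sb o ℓ 0 n) S0 S) = m.E (hin m (Sb o ℓ 0 n) S0) := rfl
    rw [h'] at h
    rw [h, hEone]
    norm_num
  refine ⟨hlow, hBd, hEh, ?_, ?_⟩
  · have hle : m.E (fun S => hin m (Sb o ℓ 0 n) S0 S * Real.log (hin m (Sb o ℓ 0 n) S0 S)) ≤
        Real.log (1 / m.w S0) * m.E (hin m (Sb o ℓ 0 n) S0) := by
      unfold FM.E
      rw [Finset.mul_sum]
      apply Finset.sum_le_sum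
      intro S hS
      have hwS := m.hw S hS
      have h5 : Real.log (hin m (Sb o ℓ 0 n) S0 S) ≤ Real.log (1 / m.w S0) :=
        Real.log_le_log (by linarith [hlow S]) (hup S)
      have h6 : 0 ≤ hin m (Sb o ℓ 0 n) S0 S := by linarith [hlow S]
      have h7 := mul_le_mul_of_nonneg_left h5 h6
      have h8 := mul_le_mul_of_nonneg_left h7 hwS.le
      calc _ ≤ m.w S * (hin m (Sb o ℓ 0 n) S0 S * Real.log (1 / m.w S0)) := h8
        _ = _ := by ring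
    rw [hEh, mul_one] at hle
    refine hle.trans ?_
    have hmin : 0 < min q (1 - q) := lt_min h0 (by linarith)
    have h9 : 1 / m.w S0 ≤ (1 / min q (1 - q)) ^ (n * ℓ) := by
      rw [one_div_pow]
      exact one_div_le_one_div_of_le (pow_pos hmin _) hwt2
    calc Real.log (1 / m.w S0) ≤ Real.log ((1 / min q (1 - q)) ^ (n * ℓ)) :=
          Real.log_le_log (by positivity) h9
      _ = n * ℓ * Real.log (1 / min q (1 - q)) := by
          rw [Real.log_pow]; push_cast; ring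
  · intro t g hg
    have h10 : m.E (fun S => (bG q h0 h1 o ℓ 0 n).P t (hin m (Sb o ℓ 0 n) S0) S * g S) =
        m.E (fun S => g S * (bG q h0 h1 o ℓ 0 n).P t (hin m (Sb o ℓ 0 n) S0) S) := by
      congr 1
      funext S
      ring
    rw [h10, rev_P _ m hrev g (hin m (Sb o ℓ 0 n) S0) hg hBd t, hE, E_P _ m hrev g hg t]

end FA
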