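import Pool.Agent.Helper870.FADefs
import Pool.Agent.Helper870.FAS1
import Pool.Agent.Helper870.FAS2
import Pool.Agent.Helper870.FAS3
import Pool.Agent.Helper870.FAS5
import Pool.Agent.Helper870.FAS6

set_option autoImplicit false
set_option linter.unusedSectionVars false

open Finset

noncomputable section

-- USES: S1 S2 S3 S5 S6
namespace FA
variable {X : Type} (G : MG X) (m : FM X)

theorem aux_E_nonneg (F : X → ℝ) (h : ∀ x, 0 ≤ F x) : 0 ≤ m.E F := by
  unfold FM.E
  exact Finset.sum_nonneg fun x hx => mul_nonneg (m.hw x hx).le (h x)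

theorem aux_ent_nonneg (h : X → ℝ) (hpos : ∀ x, 0 < h x) (hone : m.E h = 1) :
    0 ≤ m.E (fun x => h x * Real.log (h x)) := by
  have h1 : 0 ≤ m.E (fun x => h x * Real.log (h x) - h x + 1) := by
    apply aux_E_nonneg
    intro x
    have h2 := Real.one_sub_inv_le_log_of_pos (hpos x)
    have h3 : h x * (1 - (h x)⁻¹) ≤ h x * Real.log (h x) := mul_le_mul_of_nonneg_left h2 (hpos x).le
    rw [mul_sub, mul_inv_cancel₀ (hpos x).ne'] at h3
    linarith
  have h4 : m.E (fun x => h x * Real.log (h x) - h x + 1) = m.E (fun x => h x * Real.log (h x)) - m.E h + 1 := by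
    unfold FM.E
    have h5 : ∑ x ∈ m.s, m.w x * (h x * Real.log (h x) - h x + 1) =
        ∑ x ∈ m.s, m.w x * (h x * Real.log (h x)) - ∑ x ∈ m.s, m.w x * h x + ∑ x ∈ m.s, m.w x := by
      rw [← Finset.sum_sub_distrib, ← Finset.sum_add_distrib]
      refine Finset.sum_congr rfl fun x _ => ?_
      ring
    rw [h5, m.hone]
  rw [h4, hone] at h1
  linarith

theorem aux_Ent_deriv (hrev : Rev G m) (h : X → ℝ) (c0 : ℝ) (hc0 : 0 < c0) (hlow : ∀ x, c0 ≤ h x) (hb : Bd h)
    (s : ℝ) (hs : 0 ≤ s) :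
    HasDerivAt (fun s => m.E (fun x => G.P s h x * Real.log (G.P s h x)))
      (m.E (fun x => Real.log (G.P s h x) * G.L (G.P s h) x)) s := by
  have hpos : ∀ x, 0 < G.P s h x := fun x => lt_of_lt_of_le hc0 (G.P_ge h hb c0 hlow s hs x)
  have h1 : ∀ x, HasDerivAt (fun s => G.P s h x * Real.log (G.P s h x))
      ((Real.log (G.P s h x) + 1) * G.L (G.P s h) x) s := by
    intro x
    exact (Real.hasDerivAt_mul_log (hpos x).ne').comp s (G.P_deriv h hb s x)
  have h2 : HasDerivAt (fun s => m.E (fun x => G.P s h x * Real.log (G.P s h x)))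
      (m.E (fun x => (Real.log (G.P s h x) + 1) * G.L (G.P s h) x)) s := by
    unfold FM.E
    exact HasDerivAt.fun_sum fun x _ => (h1 x).const_mul (m.w x)
  have h3 : m.E (fun x => (Real.log (G.P s h x) + 1) * G.L (G.P s h) x) =
      m.E (fun x => Real.log (G.P s h x) * G.L (G.P s h) x) + m.E (G.L (G.P s h)) := by
    unfold FM.E
    rw [← Finset.sum_add_distrib]
    refine Finset.sum_congr rfl fun x _ => ?_
    ring
  rw [h3, E_L G m hrev, add_zero] at h2
  exact h2

/-- entropy dissipation on a time grid -/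
theorem ent_grid (hrev : Rev G m) (h : X → ℝ) (c0 : ℝ) (hc0 : 0 < c0) (hlow : ∀ x, c0 ≤ h x) (hb : Bd h)
    (hone : m.E h = 1) (u : ℝ) (hu : 0 < u) (J : ℕ) :
    ∃ σ : ℝ, 0 ≤ σ ∧ σ ≤ u ∧
      ∑ j ∈ Finset.range J, Dir G m (fun x => Real.sqrt (G.P (σ + j * u) h x)) ≤
        m.E (fun x => h x * Real.log (h x)) / (4 * u) := by
  let En : ℝ → ℝ := fun s => m.E (fun x => G.P s h x * Real.log (G.P s h x))
  let D : ℝ → ℝ := fun s => m.E (fun x => Real.log (G.P s h x) * G.L (G.P s h) x)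
  have hEn : ∀ s, 0 ≤ s → HasDerivAt En (D s) s := fun s hs => aux_Ent_deriv G m hrev h c0 hc0 hlow hb s hs
  let Φ : ℝ → ℝ := fun σ => ∑ j ∈ Finset.range J, En (σ + j * u)
  have hΦ : ∀ σ, 0 ≤ σ → HasDerivAt Φ (∑ j ∈ Finset.range J, D (σ + j * u)) σ := by
    intro σ hσ
    refine HasDerivAt.fun_sum fun j _ => ?_
    exact (hEn (σ + j * u) (by positivity)).comp_add_const σ (j * u)
  have hc : ContinuousOn Φ (Set.Icc 0 u) := fun σ hσ => (hΦ σ hσ.1).continuousAt.continuousWithinAt
  obtain ⟨σ, hσ, hslope⟩ := exists_hasDerivAt_eq_slope Φ (fun σ => ∑ j ∈ Finset.range J, D (σ + j * u)) hu hc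
    (fun x hx => hΦ x hx.1.le)
  refine ⟨σ, hσ.1.le, hσ.2.le, ?_⟩
  have htel : Φ u - Φ 0 = En (J * u) - En 0 := by
    show ∑ j ∈ Finset.range J, En (u + j * u) - ∑ j ∈ Finset.range J, En (0 + j * u) = _
    rw [← Finset.sum_sub_distrib]
    have : ∀ j ∈ Finset.range J, En (u + j * u) - En (0 + j * u) = En (((j + 1 : ℕ) : ℝ) * u) - En ((j : ℕ) * u) := by
      intro j _
      congr 2
      · push_cast; ring
      · ring
    rw [Finset.sum_congr rfl this, Finset.sum_range_sub (fun j : ℕ => En ((j : ℝ) * u))]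
    simp
  have hEn0 : En 0 = m.E (fun x => h x * Real.log (h x)) := by
    show m.E (fun x => G.P 0 h x * Real.log (G.P 0 h x)) = _
    simp only [G.P_zero]
  have hEnJ : 0 ≤ En (J * u) := by
    apply aux_ent_nonneg
    · intro x
      exact lt_of_lt_of_le hc0 (G.P_ge h hb c0 hlow _ (by positivity) x)
    · show m.E (G.P (J * u) h) = 1
      rw [E_P G m hrev h hb]; exact hone
  have hdir : ∀ j ∈ Finset.range J, 4 * Dir G m (fun x => Real.sqrt (G.P (σ + j * u) h x)) ≤ - D (σ + j * u) := by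
    intro j _
    apply dir_log G m hrev
    intro x
    exact lt_of_lt_of_le hc0 (G.P_ge h hb c0 hlow _ (by have := hσ.1; positivity) x)
  have hsum := Finset.sum_le_sum hdir
  rw [← Finset.mul_sum, Finset.sum_neg_distrib] at hsum
  have hs2 : ∑ j ∈ Finset.range J, D (σ + j * u) = (En (J * u) - En 0) / u := by
    rw [← htel]
    simpa using hslope
  rw [hs2, hEn0] at hsum
  rw [le_div_iff₀ (by positivity)]
  have h5 : -((En (J * u) - m.E (fun x => h x * Real.log (h x))) / u) * u =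
      m.E (fun x => h x * Real.log (h x)) - En (J * u) := by
    field_simp
    ring
  have h6 := mul_le_mul_of_nonneg_right hsum hu.le
  rw [h5] at h6
  linarith

/-- the entropy of a density is nonnegative -/
theorem ent_nonneg (h : X → ℝ) (hpos : ∀ x, 0 < h x) (hone : m.E h = 1) :
    0 ≤ m.E (fun x => h x * Real.log (h x)) := aux_ent_nonneg m h hpos hone

end FA
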