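import Pool.Agent.Helper870.FADefs
import Pool.Agent.Helper870.FAG1
import Pool.Agent.Helper870.FAS1
import Pool.Agent.Helper870.FAS2
import Pool.Agent.Helper870.FAS3
import Pool.Agent.Helper870.FAS4
import Pool.Agent.Helper870.FAS5
import Pool.Agent.Helper870.FAS6
import Pool.Agent.Helper870.FAS7
import Pool.Agent.Helper870.FAS9
import Pool.Agent.Helper870.FAS10
import Pool.Agent.Helper870.FAD2
import Pool.Agent.Helper870.FAR1
import Pool.Agent.Helper870.FAG6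
import Pool.Agent.Helper870.FAD3
import Pool.Agent.Helper870.FAOSC
import Pool.Agent.Helper870.FAD4
import Pool.Agent.Helper870.FALB
import Pool.Agent.Helper870.FALSI
import Pool.Agent.Helper870.FAD5
import Pool.Agent.Helper870.FAD7
import Pool.Agent.Helper870.FARA1
import Pool.Agent.Helper870.FARA2
import Pool.Agent.Helper870.FARA3
import Pool.Agent.Helper870.FARA5
import Pool.Agent.Helper870.FARA6
import Pool.Agent.Helper870.FARA7a
import Pool.Agent.Helper870.FARA7b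

set_option autoImplicit false
set_option linter.unusedSectionVars false

open Finset

noncomputable section

-- USES: G1 S1 S2 S3 S4 S5 S6 S7 S9 S10 D2 R1 G6 D3 OSC D4 LB LSI D5 D7 RA1 RA2 RA3 RA5 RA6 RA7a RA7b
namespace FA
variable {q : ℝ}

theorem lawA_Emono {X : Type} (m : FM X) (F H : X → ℝ) (h : ∀ x, F x ≤ H x) : m.E F ≤ m.E H := by
  unfold FM.E
  apply Finset.sum_le_sum
  intro x hx
  exact mul_le_mul_of_nonneg_left (h x) (m.hw x hx).le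

theorem lawA_Enn {X : Type} (m : FM X) (F : X → ℝ) (h : ∀ x, 0 ≤ F x) : 0 ≤ m.E F := by
  unfold FM.E
  apply Finset.sum_nonneg
  intro x hx
  exact mul_nonneg (m.hw x hx).le (h x)

theorem lawA_Esmul {X : Type} (m : FM X) (c : ℝ) (F : X → ℝ) :
    m.E (fun x => c * F x) = c * m.E F := by
  unfold FM.E
  rw [Finset.mul_sum]
  apply Finset.sum_congr rfl
  intro x _
  ring

theorem lawA_Dir {X : Type} (G : MG X) (m : FM X) (hrev : Rev G m) (F : X → ℝ) : 0 ≤ Dir G m F := by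
  unfold Dir
  rw [dir_gamma G m hrev F F]
  apply mul_nonneg (by norm_num)
  apply lawA_Enn
  intro x
  apply Finset.sum_nonneg
  intro i hi
  exact mul_nonneg (G.hr i hi x) (mul_self_nonneg _)

theorem lawA_rev (h0 : 0 < q) (h1 : q < 1) (o : ℤ) (ℓ n : ℕ) (hl : 1 ≤ ℓ) (hn : 1 ≤ n)
    (h3 : 3 ≤ n * ℓ) : Rev (bG q h0 h1 o ℓ 0 n) (bm q h0 h1 o ℓ n hl hn) := by
  have h3' : ((3:ℕ):ℤ) ≤ ((n * ℓ : ℕ) : ℤ) := by exact_mod_cast h3
  push_cast at h3'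
  have hab : (o + ((0:ℕ):ℤ) * (ℓ:ℤ)) + 2 ≤ o + (n:ℤ) * ℓ - 1 := by
    push_cast
    linarith
  exact adm_rev h0 h1 (o + ((0:ℕ):ℤ) * (ℓ:ℤ)) (o + (n:ℤ) * ℓ - 1) (by linarith) _
    (adm_box _ _ hab)

theorem lawA_NE (o : ℤ) (ℓ k1 k2 : ℕ) (hl : 1 ≤ ℓ) (S : Finset ℤ) (h : NE o ℓ k1 k2 S = k2 - k1)
    (y : ℤ) (hy : y ∈ S) (hy1 : o + k1 * ℓ ≤ y) (hy2 : y ≤ o + k2 * ℓ - 1) : False := by
  have hall : ∀ i ∈ Finset.Ico k1 k2, S ∩ Bk o ℓ i = ∅ := by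
    have h' : ((Finset.Ico k1 k2).filter (fun i => S ∩ Bk o ℓ i = ∅)).card = (Finset.Ico k1 k2).card := by
      rw [Nat.card_Ico]
      exact h
    intro i hi
    exact (Finset.card_filter_eq_iff.1 h') i hi
  have hlz : (0:ℤ) < (ℓ:ℤ) := by exact_mod_cast hl
  have e1 : (k1:ℤ) ≤ (y - o) / (ℓ:ℤ) := by
    apply Int.le_ediv_of_mul_le hlz
    linarith
  have e2 : (y - o) / (ℓ:ℤ) < (k2:ℤ) := by
    apply Int.ediv_lt_of_lt_mul hlz
    linarith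
  have e0 : 0 ≤ (y - o) / (ℓ:ℤ) := le_trans (by positivity) e1
  obtain ⟨i, hi⟩ := Int.eq_ofNat_of_zero_le e0
  rw [hi] at e1 e2
  have hi1 : i ∈ Finset.Ico k1 k2 := by
    rw [Finset.mem_Ico]
    constructor
    · exact_mod_cast e1
    · exact_mod_cast e2
  have hB := hall i hi1
  have hdm := Int.mul_ediv_add_emod (y - o) (ℓ:ℤ)
  have hm0 := Int.emod_nonneg (y - o) hlz.ne'
  have hm1 := Int.emod_lt_of_pos (y - o) hlz
  rw [hi] at hdm
  have hyB : y ∈ S ∩ Bk o ℓ i := by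
    rw [Finset.mem_inter]
    refine ⟨hy, ?_⟩
    unfold Bk
    rw [Finset.mem_Icc]
    constructor <;> nlinarith
  rw [hB] at hyB
  simp at hyB

theorem lawA_EN (h0 : 0 < q) (h1 : q < 1) (A B : Finset ℤ) (hBA : B ⊆ A) (hA : A.Nonempty)
    (g : Finset ℤ → ℝ) (hg : ∀ S, g S ≤ if S ∩ B = ∅ then 1 else 0) :
    EN q A g ≤ (1 - q) ^ B.card / q := by
  have hZ : q ≤ Zn q A := by
    unfold Zn
    have hc : 1 ≤ A.card := Finset.card_pos.2 hA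
    have : (1 - q) ^ A.card ≤ (1 - q) ^ 1 := pow_le_pow_of_le_one (by linarith) (by linarith) hc
    rw [pow_one] at this
    linarith
  have key : ∑ U ∈ A.powerset, wt q A U * (if U ∩ B = ∅ then (1:ℝ) else 0) = (1 - q) ^ B.card := by
    have e1 : ∑ U ∈ A.powerset, wt q A U * (if U ∩ B = ∅ then (1:ℝ) else 0) =
        EA q A (fun U => if U ∩ B = ∅ then (1:ℝ) else 0) := rfl
    rw [e1, EA_eq_av]
    have e2 : A = (A \ B) ∪ B := by rw [Finset.sdiff_union_of_subset hBA]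
    rw [e2, ← av_av q Finset.sdiff_disjoint]
    have e3 : av q B (fun U => if U ∩ B = ∅ then (1:ℝ) else 0) = fun _ => (1 - q) ^ B.card := by
      funext T
      unfold av
      have e4 : ∀ U ∈ B.powerset, wt q B U * (if ((T \ B) ∪ U) ∩ B = ∅ then (1:ℝ) else 0) =
          if U = ∅ then (1 - q) ^ B.card else 0 := by
        intro U hU
        rw [Finset.mem_powerset] at hU
        have e5 : ((T \ B) ∪ U) ∩ B = U := by
          ext z
          simp only [Finset.mem_inter, Finset.mem_union, Finset.mem_sdiff]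
          constructor
          · rintro ⟨h | h, hz⟩
            · exact absurd hz h.2
            · exact h
          · intro h
            exact ⟨Or.inr h, hU h⟩
        rw [e5]
        split_ifs with hUe
        · subst hUe
          simp [wt]
        · simp
      rw [Finset.sum_congr rfl e4, Finset.sum_ite_eq' B.powerset ∅]
      simp
    rw [e3, av_const]
  have hnum : ∑ U ∈ A.powerset.filter (fun U => U.Nonempty), wt q A U * g U ≤ (1 - q) ^ B.card := by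
    rw [← key]
    calc _ ≤ ∑ U ∈ A.powerset.filter (fun U => U.Nonempty),
          wt q A U * (if U ∩ B = ∅ then (1:ℝ) else 0) := by
          apply Finset.sum_le_sum
          intro U _
          exact mul_le_mul_of_nonneg_left (hg U) (wt_pos h0 h1 A U).le
      _ ≤ _ := by
          apply Finset.sum_le_sum_of_subset_of_nonneg (Finset.filter_subset _ _)
          intro U _ _
          apply mul_nonneg (wt_pos h0 h1 A U).le
          split_ifs <;> norm_num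
  have hpow : 0 ≤ (1 - q) ^ B.card := pow_nonneg (by linarith) _
  unfold EN
  calc _ ≤ (1 - q) ^ B.card / Zn q A := div_le_div_of_nonneg_right hnum (by linarith)
    _ ≤ (1 - q) ^ B.card / q := div_le_div_of_nonneg_left hpow h0 hZ

theorem lawA_e (h0 : 0 < q) (h1 : q < 1) (o : ℤ) (ℓ n Kn : ℕ) (hl : 1 ≤ ℓ) (hn : 1 ≤ n)
    (hn2 : n = 2 * Kn * ℓ) (hKn : 4 ≤ Kn) (S0 : Finset ℤ) (hS0 : S0 ⊆ Sb o ℓ 0 n) (x0 : ℤ)
    (hx0 : x0 ∈ S0) (hxB : x0 ∈ Bk o ℓ (Kn * ℓ)) (k1 k2 : ℕ) (hk1 : k1 < Kn * ℓ - ℓ)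
    (hk2 : Kn * ℓ + ℓ ≤ k2) (t : ℝ) (ht : 0 ≤ t) (ht2 : t ≤ (ℓ:ℝ) ^ 2 / 4) :
    (bm q h0 h1 o ℓ n hl hn).E (fun S => if NE o ℓ k1 k2 S = k2 - k1 then
      (bG q h0 h1 o ℓ 0 n).P t (hin (bm q h0 h1 o ℓ n hl hn) (Sb o ℓ 0 n) S0) S else 0) ≤
    1 / 2 * Real.exp (-(ℓ:ℝ) ^ 2 / 2 + ℓ) + 1 / 2 * ((1 - q) ^ ℓ / q) := by
  have hk : Kn * ℓ = (Kn - 1) * ℓ + ℓ := by
    obtain ⟨m, rfl⟩ : ∃ m, Kn = m + 1 := ⟨Kn - 1, by omega⟩
    simp
    ring
  have h3 : 3 ≤ n * ℓ := by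
    rw [hn2]
    nlinarith [Nat.mul_le_mul hl hl, Nat.mul_le_mul hKn (Nat.mul_le_mul hl hl)]
  have hne : S0.Nonempty := ⟨x0, hx0⟩
  obtain ⟨_, _, _, _, hdual⟩ := init_law h0 h1 o ℓ n hl hn h3 S0 hS0 hne
  have hgbd : Bd (fun S : Finset ℤ => if NE o ℓ k1 k2 S = k2 - k1 then (1:ℝ) else 0) := by
    refine ⟨1, fun S => ?_⟩
    beta_reduce
    split_ifs <;> norm_num
  have e1 : (fun S => if NE o ℓ k1 k2 S = k2 - k1 then
      (bG q h0 h1 o ℓ 0 n).P t (hin (bm q h0 h1 o ℓ n hl hn) (Sb o ℓ 0 n) S0) S else 0) =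
      fun S => (bG q h0 h1 o ℓ 0 n).P t (hin (bm q h0 h1 o ℓ n hl hn) (Sb o ℓ 0 n) S0) S *
        (fun S : Finset ℤ => if NE o ℓ k1 k2 S = k2 - k1 then (1:ℝ) else 0) S := by
    funext S
    simp only [mul_ite, mul_one, mul_zero]
  rw [e1, hdual t _ hgbd]
  have hlz : (1:ℤ) ≤ (ℓ:ℤ) := by exact_mod_cast hl
  have hKnz : (4:ℤ) ≤ (Kn:ℤ) := by exact_mod_cast hKn
  have hk1z : (k1:ℤ) + 1 + ℓ ≤ Kn * ℓ := by
    have : k1 + 1 + ℓ ≤ Kn * ℓ := by omega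
    exact_mod_cast this
  have hk2z : (Kn:ℤ) * ℓ + ℓ ≤ k2 := by exact_mod_cast hk2
  have hxB' := hxB
  unfold Bk at hxB'
  rw [Finset.mem_Icc] at hxB'
  push_cast at hxB'
  obtain ⟨hx1, hx2⟩ := hxB'
  have hk1l : (k1:ℤ) * ℓ + ℓ + ℓ * ℓ ≤ Kn * ℓ * ℓ := by nlinarith
  have hk2l : (Kn:ℤ) * ℓ * ℓ + ℓ * ℓ ≤ k2 * ℓ := by nlinarith
  have hρ : ((ℓ * ℓ - ℓ : ℕ) : ℤ) = (ℓ:ℤ) * ℓ - ℓ := by
    have : ℓ ≤ ℓ * ℓ := Nat.le_mul_of_pos_left ℓ hl
    push_cast [Nat.cast_sub this]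
    ring
  have hρr : ((ℓ * ℓ - ℓ : ℕ) : ℝ) = (ℓ:ℝ) * ℓ - ℓ := by
    have : ℓ ≤ ℓ * ℓ := Nat.le_mul_of_pos_left ℓ hl
    push_cast [Nat.cast_sub this]
    ring
  have hp : (bG q h0 h1 o ℓ 0 n).P t
      (fun S : Finset ℤ => if NE o ℓ k1 k2 S = k2 - k1 then (1:ℝ) else 0) S0 ≤
      Real.exp (-(ℓ:ℝ) ^ 2 / 2 + ℓ) := by
    have h3z : (3:ℤ) ≤ (n:ℤ) * ℓ := by exact_mod_cast h3
    have hnb := near_box h0 h1 (o + ((0:ℕ):ℤ) * (ℓ:ℤ)) (o + (n:ℤ) * ℓ - 1)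
      (by push_cast; linarith) x0 x0 S0 hS0 hx0 (ℓ * ℓ - ℓ) t ht
    calc _ ≤ (bG q h0 h1 o ℓ 0 n).P t (fun T : Finset ℤ =>
        if T ∩ Icc (x0 - ((ℓ * ℓ - ℓ : ℕ):ℤ)) (x0 + ((ℓ * ℓ - ℓ : ℕ):ℤ)) = ∅ then (1:ℝ) else 0) S0 := by
          apply MG.P_mono _ _ _ hgbd _ _ t ht
          · refine ⟨1, fun S => ?_⟩
            beta_reduce
            split_ifs <;> norm_num
          · intro T
            by_cases hT : NE o ℓ k1 k2 T = k2 - k1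
            · have : T ∩ Icc (x0 - ((ℓ * ℓ - ℓ : ℕ):ℤ)) (x0 + ((ℓ * ℓ - ℓ : ℕ):ℤ)) = ∅ := by
                rw [Finset.eq_empty_iff_forall_notMem]
                intro y hy
                rw [Finset.mem_inter, Finset.mem_Icc, hρ] at hy
                obtain ⟨hyT, hy1, hy2⟩ := hy
                exact lawA_NE o ℓ k1 k2 hl T hT y hyT (by linarith) (by linarith)
              rw [if_pos hT, if_pos this]
            · rw [if_neg hT]
              split_ifs <;> norm_num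
      _ ≤ _ := by
          refine le_trans hnb ?_
          apply Real.exp_le_exp.2
          rw [hρr]
          simp only [sub_self, abs_zero]
          push_cast
          nlinarith
  have hE : (bm q h0 h1 o ℓ n hl hn).E
      (fun S : Finset ℤ => if NE o ℓ k1 k2 S = k2 - k1 then (1:ℝ) else 0) ≤ (1 - q) ^ ℓ / q := by
    unfold bm
    rw [nfm_E]
    have hBc : (Bk o ℓ (Kn * ℓ)).card = ℓ := by
      unfold Bk
      rw [Int.card_Icc]
      have : o + ((Kn * ℓ : ℕ):ℤ) * ℓ + ℓ - 1 + 1 - (o + ((Kn * ℓ : ℕ):ℤ) * ℓ) = (ℓ:ℤ) := by ring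
      rw [this]
      simp
    have hnz : (n:ℤ) = 2 * Kn * ℓ := by rw [hn2]; push_cast; ring
    have hBA : Bk o ℓ (Kn * ℓ) ⊆ Sb o ℓ 0 n := by
      intro y hy
      unfold Bk at hy
      unfold Sb
      rw [Finset.mem_Icc] at hy ⊢
      push_cast at hy ⊢
      rw [hnz]
      constructor
      · nlinarith [mul_nonneg (by linarith : (0:ℤ) ≤ (ℓ:ℤ)) (by linarith : (0:ℤ) ≤ (ℓ:ℤ))]
      · have h5 : (ℓ:ℤ) ≤ Kn * ℓ * ℓ := by nlinarith [mul_le_mul hlz hlz (by norm_num) (by linarith)]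
        nlinarith
    have := lawA_EN h0 h1 (Sb o ℓ 0 n) (Bk o ℓ (Kn * ℓ)) hBA (Sb_nonempty o ℓ n hl hn)
      (fun S : Finset ℤ => if NE o ℓ k1 k2 S = k2 - k1 then (1:ℝ) else 0) (by
        intro S
        by_cases hT : NE o ℓ k1 k2 S = k2 - k1
        · have h6 : S ∩ Bk o ℓ (Kn * ℓ) = ∅ := by
            rw [Finset.eq_empty_iff_forall_notMem]
            intro y hy
            rw [Finset.mem_inter] at hy
            obtain ⟨hyT, hy1⟩ := hy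
            unfold Bk at hy1
            rw [Finset.mem_Icc] at hy1
            push_cast at hy1
            exact lawA_NE o ℓ k1 k2 hl S hT y hyT (by nlinarith) (by nlinarith)
          rw [if_pos hT, if_pos h6]
        · rw [if_neg hT]
          split_ifs <;> norm_num)
    rw [hBc] at this
    exact this
  linarith

theorem lawA_event (h0 : 0 < q) (h1 : q < 1) (ε E Q P1 P2 : ℝ) (hε : 0 < ε) (D : ℕ) :
    ∃ ℓ2 : ℕ, ∀ ℓ : ℕ, ℓ2 ≤ ℓ → (D ≤ ℓ ∧ 4 ≤ ℓ ∧ P1 ≤ (ℓ:ℝ) ∧ P2 * ((ℓ:ℝ) * (1 - q) ^ ℓ) ≤ 1 ∧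
      E * (Real.exp (-(ℓ:ℝ)) + (1 - q) ^ ℓ / q) ≤ ε / 8 ∧ E * Q ≤ ε * ℓ / 8) := by
  have t1 : Filter.Tendsto (fun ℓ : ℕ => (ℓ:ℝ)) Filter.atTop Filter.atTop := tendsto_natCast_atTop_atTop
  have t2 : Filter.Tendsto (fun ℓ : ℕ => P2 * ((ℓ:ℝ) * (1 - q) ^ ℓ)) Filter.atTop (nhds (P2 * 0)) := by
    apply Filter.Tendsto.const_mul
    exact tendsto_self_mul_const_pow_of_lt_one (by linarith) (by linarith)
  have t3 : Filter.Tendsto (fun ℓ : ℕ => E * (Real.exp (-(ℓ:ℝ)) + (1 - q) ^ ℓ / q)) Filter.atTop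
      (nhds (E * (0 + 0 / q))) := by
    apply Filter.Tendsto.const_mul
    apply Filter.Tendsto.add
    · exact Real.tendsto_exp_neg_atTop_nhds_zero.comp t1
    · apply Filter.Tendsto.div_const
      exact tendsto_pow_atTop_nhds_zero_of_lt_one (by linarith) (by linarith)
  rw [mul_zero] at t2
  simp only [zero_div, add_zero, mul_zero] at t3
  have f1 := Filter.eventually_ge_atTop (α := ℕ) D
  have f2 := Filter.eventually_ge_atTop (α := ℕ) 4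
  have f3 := t1.eventually_ge_atTop P1
  have f4 := t2.eventually_le_const (by norm_num : (0:ℝ) < 1)
  have f5 := t3.eventually_le_const (by positivity : (0:ℝ) < ε / 8)
  have f6 := t1.eventually_ge_atTop (E * Q * 8 / ε)
  obtain ⟨ℓ2, h⟩ := Filter.eventually_atTop.1 (f1.and (f2.and (f3.and (f4.and (f5.and f6)))))
  refine ⟨ℓ2, fun ℓ hℓ => ?_⟩
  obtain ⟨g1, g2, g3, g4, g5, g6⟩ := h ℓ hℓ
  refine ⟨g1, g2, g3, g4, g5, ?_⟩
  rw [div_le_iff₀ hε] at g6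
  linarith

theorem lawA_num (l d k c g K3 L1 K c1 u α J SN SD : ℝ) (hl : 1 ≤ l) (hd : 40 ≤ d)
    (hdl : d ≤ l) (hk : 4 ≤ k) (hc : 1 ≤ c) (hg0 : 0 ≤ g) (hg : g ≤ 15 * l / d) (hgl : 14 * u ≤ g * l)
    (hK3 : 0 < K3) (hL1 : 0 ≤ L1) (hK : 0 < K) (hc1 : 0 < c1) (hu : u = l ^ 2 / d)
    (hα : α = c1 * l ^ 2 / (2 * d)) (hJ0 : 0 ≤ J) (hJ : J ≤ c * d)
    (hSN : SN ≤ 4 * g / l * (K3 * k * L1 * d / 2 + 1)) (hSD : SD ≤ k * L1 * d / 2) :
    2 * g * SN + 2 * k * l * (1 / α * (K * l * SD + J * Real.log 2) +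
      J * ((4 * u + 2) * Real.exp (6 * u - g * l))) ≤
    1800 * l * (K3 * k * L1 + 1) / d + (2 * k ^ 2 * K * L1 * d ^ 2 / c1 + 4 * k * c * d ^ 2 / c1 +
      4 * k * c * d) := by
  have hl0 : 0 < l := by linarith
  have hd0 : 0 < d := by linarith
  have hα0 : 0 < α := by rw [hα]; positivity
  have hu0 : 0 < u := by rw [hu]; positivity
  have p1 : 2 * g * SN ≤ 1800 * l * (K3 * k * L1 + 1) / d := by
    have hb : 0 ≤ K3 * k * L1 * d / 2 + 1 := by positivity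
    calc 2 * g * SN ≤ 2 * g * (4 * g / l * (K3 * k * L1 * d / 2 + 1)) :=
          mul_le_mul_of_nonneg_left hSN (by positivity)
      _ = 8 * (g * g) / l * (K3 * k * L1 * d / 2 + 1) := by ring
      _ ≤ 8 * ((15 * l / d) * (15 * l / d)) / l * (K3 * k * L1 * d / 2 + 1) := by
          have : g * g ≤ (15 * l / d) * (15 * l / d) := mul_le_mul hg hg hg0 (by positivity)
          gcongr
      _ = 1800 * l * (K3 * k * L1 / 2 + 1 / d) / d := by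
          field_simp
          ring
      _ ≤ 1800 * l * (K3 * k * L1 + 1) / d := by
          have e1 : 1 / d ≤ 1 := by
            rw [div_le_iff₀ hd0]; linarith
          have e2 : 0 ≤ K3 * k * L1 := by positivity
          gcongr
          linarith
  have p2 : 2 * k * l * (1 / α * (K * l * SD)) ≤ 2 * k ^ 2 * K * L1 * d ^ 2 / c1 := by
    have e1 : 2 * k * l * (1 / α * (K * l * SD)) = 4 * k * d * K / c1 * SD := by
      rw [hα]
      field_simp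
      ring
    rw [e1]
    calc 4 * k * d * K / c1 * SD ≤ 4 * k * d * K / c1 * (k * L1 * d / 2) :=
          mul_le_mul_of_nonneg_left hSD (by positivity)
      _ = 2 * k ^ 2 * K * L1 * d ^ 2 / c1 := by ring
  have p3 : 2 * k * l * (1 / α * (J * Real.log 2)) ≤ 4 * k * c * d ^ 2 / c1 := by
    have e1 : 2 * k * l * (1 / α * (J * Real.log 2)) = 4 * k * d / (c1 * l) * (J * Real.log 2) := by
      rw [hα]
      field_simp
      ring
    rw [e1]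
    have e2 : J * Real.log 2 ≤ c * d := by
      have h2 : Real.log 2 ≤ 1 := by
        have := Real.log_two_lt_d9
        linarith
      have h20 : 0 ≤ Real.log 2 := Real.log_nonneg (by norm_num)
      calc J * Real.log 2 ≤ J * 1 := mul_le_mul_of_nonneg_left h2 hJ0
        _ ≤ c * d := by linarith
    calc 4 * k * d / (c1 * l) * (J * Real.log 2) ≤ 4 * k * d / (c1 * 1) * (c * d) := by
          have e3 : 4 * k * d / (c1 * l) ≤ 4 * k * d / (c1 * 1) := by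
            gcongr
          have e4 : 0 ≤ 4 * k * d / (c1 * 1) := by positivity
          have e5 : 0 ≤ J * Real.log 2 := mul_nonneg hJ0 (Real.log_nonneg (by norm_num))
          exact mul_le_mul e3 e2 e5 e4
      _ = 4 * k * c * d ^ 2 / c1 := by
          rw [mul_one]; ring
  have p4 : 2 * k * l * (J * ((4 * u + 2) * Real.exp (6 * u - g * l))) ≤ 4 * k * c * d := by
    have hlu : l ≤ u := by
      rw [hu, le_div_iff₀ hd0]
      nlinarith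
    have e1 : (4 * u + 2) * Real.exp (6 * u - g * l) ≤ 2 * Real.exp (-l) := by
      have e2 : 4 * u + 2 ≤ 2 * Real.exp (4 * u) := by
        have := Real.add_one_le_exp (4 * u)
        linarith
      calc (4 * u + 2) * Real.exp (6 * u - g * l) ≤ 2 * Real.exp (4 * u) * Real.exp (6 * u - g * l) :=
            mul_le_mul_of_nonneg_right e2 (Real.exp_pos _).le
        _ = 2 * Real.exp (4 * u + (6 * u - g * l)) := by rw [Real.exp_add]; ring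
        _ ≤ 2 * Real.exp (-l) := by
            apply mul_le_mul_of_nonneg_left _ (by norm_num)
            apply Real.exp_le_exp.2
            linarith
    have e3 : l * Real.exp (-l) ≤ 1 := by
      rw [Real.exp_neg, ← div_eq_mul_inv, div_le_one (Real.exp_pos _)]
      have := Real.add_one_le_exp l
      linarith
    have e4 : 0 ≤ (4 * u + 2) * Real.exp (6 * u - g * l) := by positivity
    calc 2 * k * l * (J * ((4 * u + 2) * Real.exp (6 * u - g * l)))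
        ≤ 2 * k * l * ((c * d) * (2 * Real.exp (-l))) := by
          apply mul_le_mul_of_nonneg_left _ (by positivity)
          exact mul_le_mul hJ e1 e4 (by positivity)
      _ = 4 * k * c * d * (l * Real.exp (-l)) := by ring
      _ ≤ 4 * k * c * d * 1 := by
          apply mul_le_mul_of_nonneg_left e3 (by positivity)
      _ = _ := by ring
  have e : 2 * g * SN + 2 * k * l * (1 / α * (K * l * SD + J * Real.log 2) +
      J * ((4 * u + 2) * Real.exp (6 * u - g * l))) =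
      2 * g * SN + 2 * k * l * (1 / α * (K * l * SD)) + 2 * k * l * (1 / α * (J * Real.log 2)) +
      2 * k * l * (J * ((4 * u + 2) * Real.exp (6 * u - g * l))) := by ring
  rw [e]
  linarith

theorem lawA_pow (h0 : 0 < q) (n : ℕ) (a b c α : ℝ) (h1 : b ≤ a) (h2 : c = b)
    (h3 : b = 2 * α) (h4 : (n:ℝ) + 1 + 1 / q ≤ α) :
    2 ^ n / q * (Real.exp (-a) + Real.exp (-c)) ≤ Real.exp (-α) := by
  have e1 : Real.exp (-a) ≤ Real.exp (-b) := Real.exp_le_exp.2 (by linarith)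
  have e2 : (2:ℝ) ^ n ≤ Real.exp n := by
    have : (2:ℝ) ≤ Real.exp 1 := by
      have := Real.add_one_le_exp (1:ℝ)
      linarith
    calc (2:ℝ) ^ n ≤ (Real.exp 1) ^ n := pow_le_pow_left₀ (by norm_num) this n
      _ = Real.exp n := by rw [← Real.exp_nat_mul, mul_one]
  have e3 : 1 / q ≤ Real.exp (1 / q) := by
    have := Real.add_one_le_exp (1 / q)
    linarith
  have e4 : (2:ℝ) ≤ Real.exp 1 := by
    have := Real.add_one_le_exp (1:ℝ)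
    linarith
  rw [h2]
  have hq : 0 < 1 / q := by positivity
  calc 2 ^ n / q * (Real.exp (-a) + Real.exp (-b)) ≤ 2 ^ n / q * (Real.exp (-b) + Real.exp (-b)) := by
        apply mul_le_mul_of_nonneg_left _ (by positivity)
        linarith
    _ = 2 ^ n * (1 / q) * 2 * Real.exp (-b) := by ring
    _ ≤ Real.exp n * Real.exp (1 / q) * Real.exp 1 * Real.exp (-b) := by
        gcongr
    _ = Real.exp (n + 1 / q + 1 + -b) := by
        rw [Real.exp_add, Real.exp_add, Real.exp_add]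
    _ ≤ Real.exp (-α) := by
        apply Real.exp_le_exp.2
        linarith

theorem lawA_NEle (o : ℤ) (ℓ k1 k2 : ℕ) (S : Finset ℤ) : NE o ℓ k1 k2 S ≤ k2 - k1 := by
  unfold NE
  refine le_trans (Finset.card_filter_le _ _) ?_
  rw [Nat.card_Ico]

theorem lawA_Bd (o : ℤ) (ℓ k1 k2 : ℕ) (a : ℝ) :
    Bd (fun T : Finset ℤ => max ((NE o ℓ k1 k2 T : ℝ) - a) 0) := by
  refine ⟨((k2 - k1 : ℕ) : ℝ) + |a|, fun T => ?_⟩
  beta_reduce
  have h1 : ((NE o ℓ k1 k2 T : ℕ) : ℝ) ≤ ((k2 - k1 : ℕ) : ℝ) := by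
    exact_mod_cast lawA_NEle o ℓ k1 k2 T
  have h2 := neg_abs_le a
  have h3 := abs_nonneg a
  have h4 : (0:ℝ) ≤ ((k2 - k1 : ℕ) : ℝ) := Nat.cast_nonneg _
  rw [abs_of_nonneg (le_max_right _ _)]
  apply max_le <;> linarith

open Classical in
theorem lawA_core (m : FM (Finset ℤ)) (P : MG (Finset ℤ)) (hrev : Rev P m) (hh : Finset ℤ → ℝ)
    (hlow : ∀ S, 1 / 2 ≤ hh S) (hbd : Bd hh) (hone : m.E hh = 1) (B1 ε1 : ℝ) (S0 : Finset ℤ)
    (hent : m.E (fun S => hh S * Real.log (hh S)) ≤ B1)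
    (hdual : ∀ t : ℝ, ∀ g : Finset ℤ → ℝ, Bd g →
      m.E (fun S => P.P t hh S * g S) = 1 / 2 * P.P t g S0 + 1 / 2 * m.E g)
    (K K3 ρ η α u b4 : ℝ) (hK : 0 < K) (hK3 : 0 < K3) (o : ℤ) (ℓ n Kn J J1 mg : ℕ) (hl : 1 ≤ ℓ)
    (hn2 : n = 2 * Kn * ℓ) (hKn : 4 ≤ Kn)
    (hE : ∀ k1 k2 : ℕ, k1 < Kn * ℓ - ℓ → Kn * ℓ + ℓ ≤ k2 → ∀ t : ℝ, 0 ≤ t → t ≤ (ℓ:ℝ) ^ 2 / 4 →
      m.E (fun S => if NE o ℓ k1 k2 S = k2 - k1 then P.P t hh S else 0) ≤ ε1) (hε1 : 0 ≤ ε1)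
    (hmg : 1 ≤ mg) (hmg2 : 2 * mg ≤ ℓ) (hu : 0 < u) (hJ1 : 0 < J1) (hJu : (J1:ℝ) * u ≤ (ℓ:ℝ) ^ 2 / 4)
    (hη : η = (ℓ:ℝ) / 16) (hρ : 0 ≤ ρ) (hρJ1 : ρ * J1 ≤ ℓ) (hρJ : 4 * (ℓ:ℝ) ≤ ρ * J) (hα : 0 < α)
    (hS : ∀ (k1 k2 : ℕ), mg ≤ k1 → k1 + 2 * mg ≤ k2 → k2 + mg ≤ n → ∀ a a' : ℝ,
      a - ρ ≤ a' → η ≤ a' → ∀ h : Finset ℤ → ℝ, (∀ S, 0 < h S) → Bd h → m.E h = 1 →
      m.E (fun S => h S * P.P u (fun T => max ((NE o ℓ k1 k2 T : ℝ) - a') 0) S) ≤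
        m.E (fun S => h S * max ((NE o ℓ k1 k2 S : ℝ) - a) 0) +
        2 * mg * m.E (fun S => if NG o ℓ mg k1 S ∨ NG o ℓ mg k2 S then h S else 0) +
        ρ * m.E (fun S => if NE o ℓ k1 k2 S = k2 - k1 then h S else 0) +
        n * (1 / α * (K * ℓ * Dir P m (fun S => Real.sqrt (h S)) + Real.log 2) +
          (4 * u + 2) * Real.exp (6 * u - mg * ℓ)))
    (hC : ∀ h : Finset ℤ → ℝ, (∀ S, 0 < h S) → m.E h = 1 →
      ∑ i ∈ Finset.range (n - 1), m.E (fun S => if Chg o ℓ i S then h S else 0) ≤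
      K3 * Dir P m (fun S => Real.sqrt (h S)) + b4) :
    ∃ (s : ℝ) (k1 k2 : ℕ) (SN SD : ℝ), J * u ≤ s ∧ s ≤ (J + 1) * u ∧
      k1 < Kn * ℓ - ℓ ∧ Kn * ℓ + ℓ ≤ k2 ∧ k2 ≤ n ∧ SD ≤ B1 / (4 * u) ∧
      SN ≤ 4 * mg / ℓ * (K3 * SD + J * b4) ∧
      P.P s (fun T => max ((NE o ℓ k1 k2 T : ℝ) - ℓ / 16) 0) S0 ≤
        2 * (Real.exp (J / J1) * ((2 * mg * SN + n * (1 / α * (K * ℓ * SD + J * Real.log 2) +
          J * ((4 * u + 2) * Real.exp (6 * u - mg * ℓ)))) + ρ * J1 * ε1)) := by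
  have hP : ∀ t : ℝ, 0 ≤ t → ∀ S, 1 / 2 ≤ P.P t hh S :=
    fun t ht S => MG.P_ge P hh hbd (1 / 2) hlow t ht S
  have hPpos : ∀ t : ℝ, 0 ≤ t → ∀ S, 0 < P.P t hh S := fun t ht S => by linarith [hP t ht S]
  have hPbd : ∀ t : ℝ, Bd (P.P t hh) := fun t => MG.P_bd P hh hbd t
  have hPone : ∀ t : ℝ, m.E (P.P t hh) = 1 := fun t => by rw [E_P P m hrev hh hbd t, hone]
  obtain ⟨σ, hσ0, hσu, hsum⟩ := ent_grid P m hrev hh (1 / 2) (by norm_num) hlow hbd hone u hu J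
  have hs0 : ∀ j : ℕ, 0 ≤ σ + j * u := fun j => by positivity
  obtain ⟨k1, k2, hk1, hk1', hk2, hk2', hsel⟩ := sel m o ℓ n Kn mg J hl hKn hn2 hmg (by omega)
    (fun j => P.P (σ + j * u) hh) (fun j S => (hPpos _ (hs0 j) S).le)
  have hKl : 4 * ℓ ≤ Kn * ℓ := Nat.mul_le_mul_right ℓ hKn
  have hn3 : n = Kn * ℓ + Kn * ℓ := by rw [hn2]; ring
  have hlr : (1:ℝ) ≤ (ℓ:ℝ) := by exact_mod_cast hl
  have hw1 : 2 * (ℓ:ℝ) ≤ (k2:ℝ) - k1 := by
    have : k1 + 2 * ℓ ≤ k2 := by omega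
    have h2 : (k1:ℝ) + 2 * ℓ ≤ k2 := by exact_mod_cast this
    linarith
  have hw2 : (k2:ℝ) - k1 ≤ 4 * (ℓ:ℝ) := by
    have : k2 ≤ k1 + 4 * ℓ := by omega
    have h2 : (k2:ℝ) ≤ k1 + 4 * ℓ := by exact_mod_cast this
    linarith
  have hk12 : k1 ≤ k2 := by omega
  have hcast : ((k2 - k1 : ℕ) : ℝ) = (k2:ℝ) - k1 := by push_cast [Nat.cast_sub hk12]; ring
  have hη0 : 0 ≤ η := by rw [hη]; positivity
  obtain ⟨SD, hSD⟩ : ∃ SD : ℝ, SD = ∑ j ∈ Finset.range J,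
    Dir P m (fun x => Real.sqrt (P.P (σ + j * u) hh x)) := ⟨_, rfl⟩
  obtain ⟨SN, hSN⟩ : ∃ SN : ℝ, SN = ∑ j ∈ Finset.range J,
    m.E (fun S => if NG o ℓ mg k1 S ∨ NG o ℓ mg k2 S then P.P (σ + j * u) hh S else 0) := ⟨_, rfl⟩
  refine ⟨σ + J * u, k1, k2, SN, SD, by linarith, by linarith, hk1', hk2, by omega, ?_, ?_, ?_⟩
  · rw [hSD]
    refine le_trans hsum ?_
    gcongr
  · rw [hSN]
    refine le_trans hsel ?_
    apply mul_le_mul_of_nonneg_left _ (by positivity)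
    calc ∑ j ∈ Finset.range J, ∑ i ∈ Finset.range (n - 1),
          m.E (fun S => if Chg o ℓ i S then P.P (σ + j * u) hh S else 0)
        ≤ ∑ j ∈ Finset.range J, (K3 * Dir P m (fun x => Real.sqrt (P.P (σ + j * u) hh x)) + b4) := by
          apply Finset.sum_le_sum
          intro j _
          exact hC _ (hPpos _ (hs0 j)) (hPone _)
      _ = K3 * SD + J * b4 := by
          rw [Finset.sum_add_distrib, ← Finset.mul_sum, hSD]
          simp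
  · let a : ℕ → ℝ := fun j => max ((k2:ℝ) - k1 - ρ * j) η
    let G : ℕ → ℝ := fun j => m.E (fun S => P.P (σ + j * u) hh S * max ((NE o ℓ k1 k2 S : ℝ) - a j) 0)
    let A : ℕ → ℝ := fun j => 2 * mg * m.E (fun S => if NG o ℓ mg k1 S ∨ NG o ℓ mg k2 S then
      P.P (σ + j * u) hh S else 0) + n * (1 / α * (K * ℓ * Dir P m (fun x =>
        Real.sqrt (P.P (σ + j * u) hh x)) + Real.log 2) + (4 * u + 2) * Real.exp (6 * u - mg * ℓ))
    let e : ℕ → ℝ := fun j => m.E (fun S => if NE o ℓ k1 k2 S = k2 - k1 then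
      P.P (σ + j * u) hh S else 0)
    have hG : ∀ j, 0 ≤ G j := by
      intro j
      apply lawA_Enn
      intro S
      exact mul_nonneg (hPpos _ (hs0 j) S).le (le_max_right _ _)
    have hA : ∀ j, 0 ≤ A j := by
      intro j
      have hD := lawA_Dir P m hrev (fun x => Real.sqrt (P.P (σ + j * u) hh x))
      have hN : 0 ≤ m.E (fun S => if NG o ℓ mg k1 S ∨ NG o ℓ mg k2 S then
          P.P (σ + j * u) hh S else 0) := by
        apply lawA_Enn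
        intro S
        split_ifs
        · exact (hPpos _ (hs0 j) S).le
        · exact le_refl _
      have hl2 : 0 ≤ Real.log 2 := Real.log_nonneg (by norm_num)
      change 0 ≤ 2 * mg * m.E (fun S => if NG o ℓ mg k1 S ∨ NG o ℓ mg k2 S then
        P.P (σ + j * u) hh S else 0) + n * (1 / α * (K * ℓ * Dir P m (fun x =>
        Real.sqrt (P.P (σ + j * u) hh x)) + Real.log 2) + (4 * u + 2) * Real.exp (6 * u - mg * ℓ))
      positivity
    have hG0 : G 0 ≤ 0 := by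
      have : G 0 ≤ m.E (fun _ => 0) := by
        apply lawA_Emono
        intro S
        have h1 : ((NE o ℓ k1 k2 S : ℕ) : ℝ) ≤ ((k2 - k1 : ℕ) : ℝ) := by
          exact_mod_cast lawA_NEle o ℓ k1 k2 S
        rw [hcast] at h1
        have h2 : (k2:ℝ) - k1 ≤ a 0 := by
          have : (k2:ℝ) - k1 - ρ * ((0:ℕ):ℝ) ≤ a 0 := le_max_left _ _
          simpa using this
        rw [max_eq_right (by linarith), mul_zero]
      refine le_trans this ?_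
      unfold FM.E
      simp
    have hstep : ∀ j < J, G (j + 1) ≤ G j + A j + ρ * e j := by
      intro j _
      have hF := lawA_Bd o ℓ k1 k2 (a (j + 1))
      have e1 : G (j + 1) = m.E (fun S => P.P (σ + j * u) hh S *
          P.P u (fun T => max ((NE o ℓ k1 k2 T : ℝ) - a (j + 1)) 0) S) := by
        rw [← rev_P P m hrev _ _ hF (hPbd (σ + j * u)) u]
        change m.E _ = m.E _
        congr 1
        funext S
        rw [← MG.P_semigroup P hh hbd u (σ + j * u) S]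
        have e2 : σ + ((j + 1 : ℕ) : ℝ) * u = u + (σ + j * u) := by push_cast; ring
        rw [e2]
        ring
      rw [e1]
      have h4 := hS k1 k2 (by omega) (by omega) (by omega) (a j) (a (j + 1))
        (by
          have e3 : a (j + 1) = max ((k2:ℝ) - k1 - ρ * ((j + 1 : ℕ):ℝ)) η := rfl
          have e4 : a j = max ((k2:ℝ) - k1 - ρ * (j:ℝ)) η := rfl
          rw [e3, e4, sub_le_iff_le_add]
          apply max_le
          · have := le_max_left ((k2:ℝ) - k1 - ρ * ((j + 1 : ℕ):ℝ)) η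
            push_cast at this ⊢
            linarith
          · have := le_max_right ((k2:ℝ) - k1 - ρ * ((j + 1 : ℕ):ℝ)) η
            linarith)
        (le_max_right _ _) (P.P (σ + j * u) hh) (hPpos _ (hs0 j)) (hPbd _) (hPone _)
      refine le_trans h4 (le_of_eq ?_)
      change _ = m.E (fun S => P.P (σ + j * u) hh S * max ((NE o ℓ k1 k2 S : ℝ) - a j) 0) +
        (2 * mg * m.E (fun S => if NG o ℓ mg k1 S ∨ NG o ℓ mg k2 S then
          P.P (σ + j * u) hh S else 0) + n * (1 / α * (K * ℓ * Dir P m (fun x =>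
        Real.sqrt (P.P (σ + j * u) hh x)) + Real.log 2) + (4 * u + 2) * Real.exp (6 * u - mg * ℓ))) +
        ρ * m.E (fun S => if NE o ℓ k1 k2 S = k2 - k1 then P.P (σ + j * u) hh S else 0)
      ring
    have he1 : ∀ j < J1, e j ≤ ε1 := by
      intro j hj
      apply hE k1 k2 hk1' hk2 _ (hs0 j)
      have h5 : (j:ℝ) + 1 ≤ J1 := by exact_mod_cast hj
      have h6 : ((j:ℝ) + 1) * u ≤ J1 * u := mul_le_mul_of_nonneg_right h5 hu.le
      linarith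
    have he2 : ∀ j, J1 ≤ j → j < J → ρ * e j ≤ G j / J1 := by
      intro j hj _
      have hJ1r : (0:ℝ) < (J1:ℝ) := by exact_mod_cast hJ1
      rw [le_div_iff₀ hJ1r]
      have e5 : ρ * e j * J1 = m.E (fun S => ρ * J1 * (if NE o ℓ k1 k2 S = k2 - k1 then
          P.P (σ + j * u) hh S else 0)) := by
        rw [lawA_Esmul]
        ring
      rw [e5]
      apply lawA_Emono
      intro S
      have hp := hPpos _ (hs0 j) S
      split_ifs with hX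
      · have h7 : ((NE o ℓ k1 k2 S : ℕ) : ℝ) = (k2:ℝ) - k1 := by rw [hX, hcast]
        have h8 : a j ≤ (k2:ℝ) - k1 - ρ * J1 := by
          have e4 : a j = max ((k2:ℝ) - k1 - ρ * (j:ℝ)) η := rfl
          rw [e4]
          apply max_le
          · have : (J1:ℝ) ≤ j := by exact_mod_cast hj
            have := mul_le_mul_of_nonneg_left this hρ
            linarith
          · rw [hη]
            linarith
        have h9 : ρ * J1 ≤ max ((NE o ℓ k1 k2 S : ℝ) - a j) 0 := by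
          refine le_trans ?_ (le_max_left _ _)
          rw [h7]
          linarith
        rw [mul_comm]
        exact mul_le_mul_of_nonneg_left h9 hp.le
      · rw [mul_zero]
        exact mul_nonneg hp.le (le_max_right _ _)
    have hg := gron J J1 hJ1 G A e ρ ε1 hρ hε1 hG hA hG0 hstep he1 he2
    have hsumA : ∑ j ∈ Finset.range J, A j = 2 * mg * SN + n * (1 / α * (K * ℓ * SD + J * Real.log 2) +
          J * ((4 * u + 2) * Real.exp (6 * u - mg * ℓ))) := by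
      rw [hSN, hSD]
      simp only [A, Finset.sum_add_distrib, ← Finset.mul_sum, Finset.sum_const, Finset.card_range,
        nsmul_eq_mul]
      ring
    rw [hsumA] at hg
    have haJ : a J = (ℓ:ℝ) / 16 := by
      have e4 : a J = max ((k2:ℝ) - k1 - ρ * (J:ℝ)) η := rfl
      rw [e4, max_eq_right (by linarith), hη]
    have hF := lawA_Bd o ℓ k1 k2 ((ℓ:ℝ) / 16)
    have hd := hdual (σ + J * u) _ hF
    have hGJ : G J = m.E (fun S => P.P (σ + J * u) hh S *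
        (fun T : Finset ℤ => max ((NE o ℓ k1 k2 T : ℝ) - (ℓ:ℝ) / 16) 0) S) := by
      change m.E (fun S => P.P (σ + J * u) hh S * max ((NE o ℓ k1 k2 S : ℝ) - a J) 0) = _
      rw [haJ]
    have hnn : 0 ≤ m.E (fun T : Finset ℤ => max ((NE o ℓ k1 k2 T : ℝ) - (ℓ:ℝ) / 16) 0) := by
      apply lawA_Enn
      intro T
      exact le_max_right _ _
    rw [← hGJ] at hd
    linarith

/-- main estimate: after time of order `ℓ²` almost all blocks near the infected site are nonempty -/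
theorem lawA (h0 : 0 < q) (h1 : q < 1) : ∃ c0 : ℕ, 1 ≤ c0 ∧ ∀ Kn : ℕ, 4 ≤ Kn → ∀ ε : ℝ, 0 < ε →
    ∃ ℓ2 : ℕ, ∀ ℓ : ℕ, ℓ2 ≤ ℓ → 1 ≤ ℓ → ∀ (o : ℤ) (S0 : Finset ℤ), S0 ⊆ Sb o ℓ 0 (2 * Kn * ℓ) →
      ∀ x0 ∈ S0, x0 ∈ Bk o ℓ (Kn * ℓ) →
      ∃ (s : ℝ) (k1 k2 : ℕ), (c0 : ℝ) * ℓ ^ 2 - ε * ℓ ^ 2 ≤ s ∧ s ≤ c0 * ℓ ^ 2 ∧ 0 ≤ s ∧
        k1 < Kn * ℓ - ℓ ∧ Kn * ℓ + ℓ ≤ k2 ∧ k2 ≤ 2 * Kn * ℓ ∧
        (bG q h0 h1 o ℓ 0 (2 * Kn * ℓ)).P s (fun T => max ((NE o ℓ k1 k2 T : ℝ) - ℓ / 16) 0) S0 ≤ ε * ℓ := by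
  obtain ⟨ϑ, c1, K, ℓ1, hϑ, hc1, hK, hstep⟩ := one_step_law h0 h1
  obtain ⟨K3, hK3, hchg⟩ := pat_chg h0 h1
  obtain ⟨v, hv0, hv1, hvϑ⟩ : ∃ v : ℝ, 0 < v ∧ v ≤ 1 ∧ v ≤ ϑ :=
    ⟨min ϑ 1, lt_min hϑ one_pos, min_le_right _ _, min_le_left _ _⟩
  obtain ⟨c0, hc01, hc0⟩ : ∃ c0 : ℕ, 1 ≤ c0 ∧ 5 + v ≤ c0 * v := by
    refine ⟨⌈5 / v⌉₊ + 1, by omega, ?_⟩
    have := Nat.le_ceil (5 / v)
    rw [div_le_iff₀ hv0] at this
    push_cast
    linarith
  refine ⟨c0, hc01, ?_⟩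
  intro Kn hKn ε hε
  obtain ⟨L1, hL1def⟩ : ∃ L1 : ℝ, L1 = Real.log (1 / min q (1 - q)) := ⟨_, rfl⟩
  have hL1 : 0 ≤ L1 := by
    rw [hL1def]
    apply Real.log_nonneg
    rw [le_div_iff₀ (lt_min h0 (by linarith)), one_mul]
    exact le_trans (min_le_left _ _) h1.le
  obtain ⟨Δ, hΔ⟩ := exists_nat_ge (max 40 (max (1 / ε)
    (Real.exp (8 * c0) * (1800 * (K3 * Kn * L1 + 1)) * 8 / ε)))
  have hΔ1 : (40:ℝ) ≤ Δ := le_trans (le_max_left _ _) hΔ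
  have hΔ2 : 1 / ε ≤ Δ := le_trans (le_trans (le_max_left _ _) (le_max_right _ _)) hΔ
  have hΔ3 : Real.exp (8 * c0) * (1800 * (K3 * Kn * L1 + 1)) * 8 / ε ≤ Δ :=
    le_trans (le_trans (le_max_right _ _) (le_max_right _ _)) hΔ
  have hΔn : 40 ≤ Δ := by exact_mod_cast hΔ1
  have hΔ0 : (0:ℝ) < Δ := by linarith
  have hKnr : (4:ℝ) ≤ Kn := by exact_mod_cast hKn
  have hc0r : (1:ℝ) ≤ c0 := by exact_mod_cast hc01
  obtain ⟨ℓ2, hℓ2⟩ := lawA_event h0 h1 ε (Real.exp (8 * c0))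
    (2 * (Kn:ℝ) ^ 2 * K * L1 * (Δ:ℝ) ^ 2 / c1 + 4 * Kn * c0 * (Δ:ℝ) ^ 2 / c1 + 4 * Kn * c0 * Δ)
    ((2 * Kn + 1 + 1 / q) * (2 * Δ) / c1) (c0 * Δ * (4 * (2 * Kn))) hε Δ
  refine ⟨max ℓ2 ℓ1, ?_⟩
  intro ℓ hℓ hl o S0 hS0 x0 hx0 hxB
  obtain ⟨g1, g2, g3, g4, g5, g6⟩ := hℓ2 ℓ (le_trans (le_max_left _ _) hℓ)
  have hℓℓ1 : ℓ1 ≤ ℓ := le_trans (le_max_right _ _) hℓ
  have hn : 1 ≤ 2 * Kn * ℓ := Nat.mul_pos (Nat.mul_pos (by norm_num) (by omega)) hl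
  have h3 : 3 ≤ 2 * Kn * ℓ * ℓ := by
    have : 2 * 4 * 1 * 1 ≤ 2 * Kn * ℓ * ℓ :=
      Nat.mul_le_mul (Nat.mul_le_mul (Nat.mul_le_mul_left 2 hKn) hl) hl
    omega
  have hlr : (1:ℝ) ≤ (ℓ:ℝ) := by exact_mod_cast hl
  have hl0 : (0:ℝ) < (ℓ:ℝ) := by linarith
  have hl4 : (4:ℝ) ≤ (ℓ:ℝ) := by exact_mod_cast g2
  have hΔl : (Δ:ℝ) ≤ (ℓ:ℝ) := by exact_mod_cast g1
  have hdΔ : 1 ≤ (ℓ:ℝ) / Δ := by
    rw [le_div_iff₀ hΔ0]; linarith
  obtain ⟨u, hu⟩ : ∃ u : ℝ, u = (ℓ:ℝ) ^ 2 / Δ := ⟨_, rfl⟩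
  obtain ⟨ρ, hρ⟩ : ∃ ρ : ℝ, ρ = v * ℓ / Δ := ⟨_, rfl⟩
  obtain ⟨α, hα⟩ : ∃ α : ℝ, α = c1 * (ℓ:ℝ) ^ 2 / (2 * Δ) := ⟨_, rfl⟩
  have hu0 : 0 < u := by rw [hu]; positivity
  have hρ0 : 0 ≤ ρ := by rw [hρ]; positivity
  have hα0 : 0 < α := by rw [hα]; positivity
  obtain ⟨mg, hmg1, hmg2, hmg3⟩ : ∃ mg : ℕ, 1 ≤ mg ∧ 14 * u ≤ mg * ℓ ∧ (mg:ℝ) ≤ 15 * ℓ / Δ := by
    refine ⟨⌈14 * (ℓ:ℝ) / Δ⌉₊, ?_, ?_, ?_⟩
    · exact Nat.ceil_pos.2 (by positivity)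
    · rw [hu]
      have := Nat.le_ceil (14 * (ℓ:ℝ) / Δ)
      calc 14 * ((ℓ:ℝ) ^ 2 / Δ) = 14 * ℓ / Δ * ℓ := by ring
        _ ≤ _ := mul_le_mul_of_nonneg_right this (by positivity)
    · have h5 := (Nat.ceil_lt_add_one (by positivity : 0 ≤ 14 * (ℓ:ℝ) / Δ)).le
      have h6 : 15 * (ℓ:ℝ) / Δ = 14 * ℓ / Δ + ℓ / Δ := by ring
      rw [h6]
      linarith
  have hmg4 : 2 * mg ≤ ℓ := by
    have h5 : 15 * (ℓ:ℝ) / Δ ≤ 15 * ℓ / 40 := by
      apply div_le_div_of_nonneg_left (by positivity) (by norm_num) hΔ1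
    have h6 : 2 * (mg:ℝ) ≤ ℓ := by linarith
    exact_mod_cast h6
  obtain ⟨J1, hJ1a, hJ1b, hJ1c⟩ : ∃ J1 : ℕ, 0 < J1 ∧ 4 * (J1 + 1) ≤ Δ ∧ Δ ≤ 8 * J1 :=
    ⟨Δ / 4 - 1, by omega, by omega, by omega⟩
  obtain ⟨J, hJ⟩ : ∃ J : ℕ, J + 1 = c0 * Δ := by
    have : 1 * 40 ≤ c0 * Δ := Nat.mul_le_mul hc01 hΔn
    exact ⟨c0 * Δ - 1, by omega⟩
  have hJr : (J:ℝ) + 1 = c0 * Δ := by exact_mod_cast hJ
  have hJ1br : 4 * ((J1:ℝ) + 1) ≤ Δ := by exact_mod_cast hJ1b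
  have hJ1cr : (Δ:ℝ) ≤ 8 * J1 := by exact_mod_cast hJ1c
  have hJ1r : (0:ℝ) < J1 := by exact_mod_cast hJ1a
  have hJJ : (J:ℝ) / J1 ≤ 8 * c0 := by
    rw [div_le_iff₀ hJ1r]
    have : (c0:ℝ) * Δ ≤ c0 * (8 * J1) := mul_le_mul_of_nonneg_left hJ1cr (by positivity)
    linarith
  have hJu : (J1:ℝ) * u ≤ (ℓ:ℝ) ^ 2 / 4 := by
    have e1 : (ℓ:ℝ) ^ 2 / 4 = Δ / 4 * u := by
      rw [hu]; field_simp
    rw [e1]
    exact mul_le_mul_of_nonneg_right (by linarith) hu0.le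
  have hρJ1 : ρ * J1 ≤ ℓ := by
    calc ρ * J1 ≤ (1 * ℓ / Δ) * Δ := by
          rw [hρ]
          apply mul_le_mul _ (by linarith) hJ1r.le (by positivity)
          gcongr
      _ = ℓ := by field_simp
  have hρJ : 4 * (ℓ:ℝ) ≤ ρ * J := by
    have e1 : (J:ℝ) = c0 * Δ - 1 := by linarith
    have e2 : ρ * J = c0 * v * ℓ - v * ℓ / Δ := by
      rw [hρ, e1]; field_simp
    rw [e2]
    have e3 : (5 + v) * ℓ ≤ c0 * v * ℓ := mul_le_mul_of_nonneg_right hc0 hl0.le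
    have e4 : v * ℓ / Δ ≤ v * ℓ := by
      apply div_le_self (by positivity)
      linarith
    linarith
  have hρϑ : ρ * ℓ ≤ ϑ * u := by
    have e1 : ρ * ℓ = v * u := by rw [hρ, hu]; ring
    rw [e1]
    exact mul_le_mul_of_nonneg_right hvϑ hu0.le
  have hpow : 2 ^ (2 * Kn * ℓ) / q * (Real.exp (-(c1 * ℓ * ((ℓ:ℝ) / 16))) + Real.exp (-(c1 * u))) ≤
      Real.exp (-α) := by
    apply lawA_pow h0 (2 * Kn * ℓ) _ (c1 * u) _ α
    · have e1 : u ≤ (ℓ:ℝ) ^ 2 / 16 := by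
        rw [hu]
        exact div_le_div_of_nonneg_left (by positivity) (by norm_num) (by linarith)
      have e2 := mul_le_mul_of_nonneg_left e1 hc1.le
      calc c1 * u ≤ c1 * ((ℓ:ℝ) ^ 2 / 16) := e2
        _ = _ := by ring
    · rfl
    · rw [hu, hα]
      field_simp
    · have e1 : (2 * Kn + 1 + 1 / q) * (2 * Δ) ≤ ℓ * c1 := by
        rw [div_le_iff₀ hc1] at g3
        exact g3
      have e2 : 2 * (Kn:ℝ) + 1 + 1 / q ≤ ℓ * c1 / (2 * Δ) := by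
        rw [le_div_iff₀ (by positivity)]
        exact e1
      have e3 : α = ℓ * c1 / (2 * Δ) * ℓ := by
        rw [hα]; ring
      have e4 : 0 < 1 / q := by positivity
      rw [e3]
      push_cast
      calc 2 * (Kn:ℝ) * ℓ + 1 + 1 / q ≤ (2 * (Kn:ℝ) + 1 + 1 / q) * ℓ := by nlinarith
        _ ≤ _ := mul_le_mul_of_nonneg_right e2 hl0.le
  have hne : S0.Nonempty := ⟨x0, hx0⟩
  have hrev := lawA_rev h0 h1 o ℓ (2 * Kn * ℓ) hl hn h3
  obtain ⟨hlow, hbd, hone, hent, hdual⟩ := init_law h0 h1 o ℓ (2 * Kn * ℓ) hl hn h3 S0 hS0 hne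
  have hE := lawA_e h0 h1 o ℓ (2 * Kn * ℓ) Kn hl hn rfl hKn S0 hS0 x0 hx0 hxB
  have h1q : (0:ℝ) < 1 - q := by linarith
  obtain ⟨s, k1, k2, SN, SD, hs1, hs2, hk1, hk2, hk2', hSD, hSN, hfin⟩ :=
    lawA_core (bm q h0 h1 o ℓ (2 * Kn * ℓ) hl hn) (bG q h0 h1 o ℓ 0 (2 * Kn * ℓ)) hrev _ hlow hbd hone
      _ (1 / 2 * Real.exp (-(ℓ:ℝ) ^ 2 / 2 + ℓ) + 1 / 2 * ((1 - q) ^ ℓ / q)) S0 hent hdual K K3 ρ
      ((ℓ:ℝ) / 16) α u (4 * ((2 * Kn * ℓ : ℕ) : ℝ) * (1 - q) ^ ℓ) hK hK3 o ℓ (2 * Kn * ℓ) Kn J J1 mg hl rfl hKn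
      hE (by positivity) hmg1 hmg4 hu0 hJ1a hJu rfl hρ0 hρJ1 hρJ hα0
      (fun k1 k2 a1 a2 a3 a a' a4 a5 h a6 a7 a8 => hstep o ℓ (2 * Kn * ℓ) hl hn hℓℓ1 k1 k2 mg hmg1 a1 a2 a3
        u a a' ρ ((ℓ:ℝ) / 16) α hu0 (by positivity) hρ0 hρϑ a4 a5 hα0 hpow h a6 a7 a8)
      (fun h a1 a2 => hchg o ℓ (2 * Kn * ℓ) hl hn h3 h a1 a2)
  have hs0 : 0 ≤ s := le_trans (by positivity) hs1
  refine ⟨s, k1, k2, ?_, ?_, hs0, hk1, hk2, hk2', ?_⟩
  · refine le_trans ?_ hs1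
    have e1 : (J:ℝ) = c0 * Δ - 1 := by linarith
    have e2 : (J:ℝ) * u = c0 * (ℓ:ℝ) ^ 2 - 1 / Δ * (ℓ:ℝ) ^ 2 := by
      rw [hu, e1]; field_simp
    rw [e2]
    have e3 : 1 / (Δ:ℝ) ≤ ε := by
      rw [div_le_iff₀ hε] at hΔ2
      rw [div_le_iff₀ hΔ0]
      linarith
    have e4 := mul_le_mul_of_nonneg_right e3 (by positivity : (0:ℝ) ≤ (ℓ:ℝ) ^ 2)
    linarith
  · refine le_trans hs2 (le_of_eq ?_)
    rw [hJr, hu]
    field_simp
  · refine le_trans hfin ?_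
    have hSD' : SD ≤ Kn * L1 * Δ / 2 := by
      refine le_trans hSD (le_of_eq ?_)
      rw [← hL1def, hu]
      push_cast
      field_simp
      ring
    have hSN' : SN ≤ 4 * mg / ℓ * (K3 * Kn * L1 * Δ / 2 + 1) := by
      refine le_trans hSN ?_
      apply mul_le_mul_of_nonneg_left _ (by positivity)
      have e1 : K3 * SD ≤ K3 * (Kn * L1 * Δ / 2) := mul_le_mul_of_nonneg_left hSD' hK3.le
      have e2 : (J:ℝ) * (4 * ((2 * Kn * ℓ : ℕ) : ℝ) * (1 - q) ^ ℓ) ≤ 1 := by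
        refine le_trans ?_ g4
        push_cast
        have e3 : (J:ℝ) ≤ c0 * Δ := by linarith
        calc (J:ℝ) * (4 * (2 * Kn * ℓ) * (1 - q) ^ ℓ) ≤ (c0 * Δ) * (4 * (2 * Kn * ℓ) * (1 - q) ^ ℓ) :=
              mul_le_mul_of_nonneg_right e3 (by positivity)
          _ = _ := by ring
      linarith
    have hJ' : (J:ℝ) ≤ c0 * Δ := by linarith
    have hnum := lawA_num ℓ Δ Kn c0 mg K3 L1 K c1 u α J SN SD hlr hΔ1 hΔl hKnr hc0r (by positivity)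
      hmg3 hmg2 hK3 hL1 hK hc1 hu hα (by positivity) hJ' hSN' hSD'
    obtain ⟨Q, hQ⟩ : ∃ Q : ℝ, Q = 2 * (Kn:ℝ) ^ 2 * K * L1 * (Δ:ℝ) ^ 2 / c1 +
      4 * Kn * c0 * (Δ:ℝ) ^ 2 / c1 + 4 * Kn * c0 * Δ := ⟨_, rfl⟩
    rw [← hQ] at hnum g6
    obtain ⟨Z, hZ⟩ : ∃ Z : ℝ, Z = Real.exp (-(ℓ:ℝ)) + (1 - q) ^ ℓ / q := ⟨_, rfl⟩
    rw [← hZ] at g5
    have hZ0 : 0 ≤ Z := by rw [hZ]; positivity
    have hε1 : 1 / 2 * Real.exp (-(ℓ:ℝ) ^ 2 / 2 + ℓ) + 1 / 2 * ((1 - q) ^ ℓ / q) ≤ Z := by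
      have e1 : Real.exp (-(ℓ:ℝ) ^ 2 / 2 + ℓ) ≤ Real.exp (-(ℓ:ℝ)) := by
        apply Real.exp_le_exp.2
        nlinarith
      have e2 : 0 ≤ (1 - q) ^ ℓ / q := by positivity
      have e3 := Real.exp_pos (-(ℓ:ℝ))
      rw [hZ]
      linarith
    have hE0 := Real.exp_pos (8 * (c0:ℝ))
    have hb1 : ρ * J1 * (1 / 2 * Real.exp (-(ℓ:ℝ) ^ 2 / 2 + ℓ) + 1 / 2 * ((1 - q) ^ ℓ / q)) ≤ ℓ * Z :=
      mul_le_mul hρJ1 hε1 (by positivity) (by positivity)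
    have hb2 : Real.exp (8 * c0) * (1800 * ℓ * (K3 * Kn * L1 + 1) / Δ) ≤ ε * ℓ / 8 := by
      rw [div_le_iff₀ hε] at hΔ3
      have e1 : Real.exp (8 * c0) * (1800 * ℓ * (K3 * Kn * L1 + 1) / Δ) =
        (Real.exp (8 * c0) * (1800 * (K3 * Kn * L1 + 1)) * 8) * (ℓ / (8 * Δ)) := by
        field_simp
      rw [e1]
      calc _ ≤ (Δ * ε) * (ℓ / (8 * Δ)) := mul_le_mul_of_nonneg_right hΔ3 (by positivity)
        _ = ε * ℓ / 8 := by field_simp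
    have hb3 : Real.exp (8 * c0) * (ℓ * Z) ≤ ε * ℓ / 8 := by
      have := mul_le_mul_of_nonneg_right g5 hl0.le
      calc Real.exp (8 * c0) * (ℓ * Z) = Real.exp (8 * c0) * Z * ℓ := by ring
        _ ≤ ε / 8 * ℓ := this
        _ = _ := by ring
    have hexp : Real.exp (J / J1) ≤ Real.exp (8 * c0) := Real.exp_le_exp.2 hJJ
    have hn' : (((2 * Kn * ℓ : ℕ) : ℝ)) = 2 * Kn * ℓ := by push_cast; ring
    rw [hn']
    have hQ0 : 0 ≤ Q := by rw [hQ]; positivity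
    calc _ ≤ 2 * (Real.exp (J / J1) * ((1800 * ℓ * (K3 * Kn * L1 + 1) / Δ + Q) + ℓ * Z)) := by
          apply mul_le_mul_of_nonneg_left _ (by norm_num)
          apply mul_le_mul_of_nonneg_left _ (Real.exp_pos _).le
          linarith
      _ ≤ 2 * (Real.exp (8 * c0) * ((1800 * ℓ * (K3 * Kn * L1 + 1) / Δ + Q) + ℓ * Z)) := by
          apply mul_le_mul_of_nonneg_left _ (by norm_num)
          apply mul_le_mul_of_nonneg_right hexp (by positivity)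
      _ = 2 * (Real.exp (8 * c0) * (1800 * ℓ * (K3 * Kn * L1 + 1) / Δ) + Real.exp (8 * c0) * Q +
          Real.exp (8 * c0) * (ℓ * Z)) := by ring
      _ ≤ 2 * (ε * ℓ / 8 + ε * ℓ / 8 + ε * ℓ / 8) := by
          apply mul_le_mul_of_nonneg_left _ (by norm_num)
          linarith
      _ ≤ ε * ℓ := by
          have : 0 < ε * ℓ := by positivity
          linarith


end FA
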