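import Pool.Agent.Helper870.FADefs
import Pool.Agent.Helper870.FAG1
import Pool.Agent.Helper870.FAS1
import Pool.Agent.Helper870.FAS2
import Pool.Agent.Helper870.FAS3
import Pool.Agent.Helper870.FAS6
import Pool.Agent.Helper870.FAS10
import Pool.Agent.Helper870.FAD2
import Pool.Agent.Helper870.FAR1
import Pool.Agent.Helper870.FAG6
import Pool.Agent.Helper870.FAD3
import Pool.Agent.Helper870.FAD4
import Pool.Agent.Helper870.FAD7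
import Pool.Agent.Helper870.FARA1
import Pool.Agent.Helper870.FARA7c

set_option autoImplicit false
set_option linter.unusedSectionVars false

open Finset

noncomputable section

-- USES: G1 S1 S2 S3 S6 S10 D2 R1 G6 D3 D4 D7 RA1 RA7c
namespace FA
variable {q : ℝ}

theorem propA_count (o : ℤ) (ℓ KL k1 k2 : ℕ) (hl : 48 ≤ ℓ) (hk1 : k1 < KL - ℓ)
    (hk2 : KL + ℓ ≤ k2) (x0 z : ℤ) (hx0 : x0 ∈ Bk o ℓ KL)
    (hz : 8 * |z - x0| ≤ 5 * (ℓ : ℤ) ^ 2) (T : Finset ℤ)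
    (hT : ∀ y ∈ T, (ℓ : ℤ) ^ 2 < 8 * |z - y|) :
    3 * (ℓ : ℝ) / 16 ≤ (NE o ℓ k1 k2 T : ℝ) := by
  have hLpos : (0:ℤ) < (ℓ : ℤ) := by omega
  obtain ⟨j, hj1, hj2⟩ : ∃ j : ℤ, j * (ℓ : ℤ) ≤ z - o ∧ z - o < (j + 1) * (ℓ : ℤ) :=
    ⟨(z - o) / (ℓ : ℤ), Int.ediv_mul_le _ hLpos.ne', Int.lt_ediv_add_one_mul_self _ hLpos⟩
  obtain ⟨m, hm⟩ : ∃ m : ℕ, m = ℓ / 8 - 1 := ⟨_, rfl⟩
  have hm1 : 8 * (m + 1) ≤ ℓ := by omega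
  have hm2 : ℓ ≤ 8 * (m + 1) + 7 := by omega
  unfold Bk at hx0
  rw [Finset.mem_Icc] at hx0
  obtain ⟨hx1, hx2⟩ := hx0
  have hz1 : 8 * (z - x0) ≤ 5 * (ℓ : ℤ) ^ 2 := by
    have := le_abs_self (z - x0); linarith
  have hz2 : -(5 * (ℓ : ℤ) ^ 2) ≤ 8 * (z - x0) := by
    have := neg_abs_le (z - x0); linarith
  have h3 : 8 * (KL : ℤ) - 5 * ℓ < 8 * (j + 1) := by
    have h : (8 * (KL : ℤ) - 5 * ℓ) * ℓ < (8 * (j + 1)) * ℓ := by nlinarith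
    exact lt_of_mul_lt_mul_right h hLpos.le
  have h4 : 8 * j < 8 * (KL : ℤ) + 8 + 5 * ℓ := by
    have h : (8 * j) * (ℓ : ℤ) < (8 * (KL : ℤ) + 8 + 5 * ℓ) * ℓ := by nlinarith
    exact lt_of_mul_lt_mul_right h hLpos.le
  have hj0 : 0 ≤ j := by omega
  lift j to ℕ using hj0
  have hsub : Finset.Ico (j - m) (j + m + 1) ⊆
      (Finset.Ico k1 k2).filter (fun i => T ∩ Bk o ℓ i = ∅) := by
    intro i hi
    rw [Finset.mem_Ico] at hi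
    rw [Finset.mem_filter, Finset.mem_Ico]
    refine ⟨⟨by omega, by omega⟩, ?_⟩
    rw [Finset.eq_empty_iff_forall_notMem]
    intro y hy
    rw [Finset.mem_inter] at hy
    have h := hT y hy.1
    have hy2 := hy.2
    unfold Bk at hy2
    rw [Finset.mem_Icc] at hy2
    have e1 : ((j : ℤ) + 1 - i) * ℓ ≤ ((m : ℤ) + 1) * ℓ :=
      mul_le_mul_of_nonneg_right (by omega) hLpos.le
    have e2 : ((i : ℤ) + 1 - j) * ℓ ≤ ((m : ℤ) + 1) * ℓ :=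
      mul_le_mul_of_nonneg_right (by omega) hLpos.le
    have e3 : 8 * (((m : ℤ) + 1) * ℓ) ≤ (ℓ : ℤ) ^ 2 := by
      have : (8 * ((m : ℤ) + 1)) * ℓ ≤ (ℓ : ℤ) * ℓ :=
        mul_le_mul_of_nonneg_right (by exact_mod_cast hm1) hLpos.le
      nlinarith
    have e4 : 8 * (z - y) ≤ (ℓ : ℤ) ^ 2 := by nlinarith [hy2.1, hy2.2]
    have e5 : 8 * (-(z - y)) ≤ (ℓ : ℤ) ^ 2 := by nlinarith [hy2.1, hy2.2]
    rcases abs_cases (z - y) with ⟨h5, -⟩ | ⟨h5, -⟩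
    · rw [h5] at h; linarith
    · rw [h5] at h; linarith
  have hcard := Finset.card_le_card hsub
  rw [Nat.card_Ico] at hcard
  have h6 : 2 * m + 1 ≤ NE o ℓ k1 k2 T := by
    unfold NE
    omega
  have h7 : (2 * (m : ℝ) + 1) ≤ (NE o ℓ k1 k2 T : ℝ) := by exact_mod_cast h6
  have h8 : (ℓ : ℝ) ≤ 8 * ((m : ℝ) + 1) + 7 := by exact_mod_cast hm2
  have h9 : (48 : ℝ) ≤ ℓ := by exact_mod_cast hl
  linarith

theorem propA_exp (ε : ℝ) (hε : 0 < ε) (ℓ : ℕ) (h1 : 64 / ε ≤ ℓ) (h2 : 48 ≤ ℓ) :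
    Real.exp (1 - 3 * (ℓ : ℝ) ^ 2 / 32) ≤ ε / 2 := by
  have hl : (48 : ℝ) ≤ ℓ := by exact_mod_cast h2
  have h3 : Real.exp (1 - 3 * (ℓ : ℝ) ^ 2 / 32) =
      Real.exp 1 * (Real.exp (3 * (ℓ : ℝ) ^ 2 / 32))⁻¹ := by
    rw [← Real.exp_neg, ← Real.exp_add]
    congr 1
  have h4 : 3 * (ℓ : ℝ) ^ 2 / 32 ≤ Real.exp (3 * (ℓ : ℝ) ^ 2 / 32) := by
    have := Real.add_one_le_exp (3 * (ℓ : ℝ) ^ 2 / 32)
    linarith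
  have h5 : (Real.exp (3 * (ℓ : ℝ) ^ 2 / 32))⁻¹ ≤ (3 * (ℓ : ℝ) ^ 2 / 32)⁻¹ := by
    apply inv_anti₀ _ h4
    positivity
  have h6 : Real.exp 1 ≤ 3 := by
    have := Real.exp_one_lt_d9
    linarith
  rw [h3]
  calc Real.exp 1 * (Real.exp (3 * (ℓ : ℝ) ^ 2 / 32))⁻¹ ≤ 3 * (3 * (ℓ : ℝ) ^ 2 / 32)⁻¹ :=
        mul_le_mul h6 h5 (by positivity) (by norm_num)
    _ = 32 / (ℓ : ℝ) ^ 2 := by field_simp
    _ ≤ ε / 2 := by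
        rw [div_le_iff₀ hε] at h1
        rw [div_le_iff₀ (by positivity)]
        nlinarith

theorem propA_cl (h0 : 0 < q) (h1 : q < 1) (A : Finset ℤ) (k : ℤ → Finset ℤ → Bool) :
    ∀ i ∈ (kG q h0.le h1.le A k).I, ∀ T ∈ {T : Finset ℤ | T ⊆ A},
      (kG q h0.le h1.le A k).r i T ≠ 0 →
      (kG q h0.le h1.le A k).T i T ∈ {T : Finset ℤ | T ⊆ A} := by
  rintro ⟨x, b⟩ hi T hT _
  have hi' : (x, b) ∈ A ×ˢ (Finset.univ : Finset Bool) := hi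
  rw [Finset.mem_product] at hi'
  have hT' : T ⊆ A := hT
  show (if b then insert x T else T.erase x) ⊆ A
  split_ifs
  · exact Finset.insert_subset hi'.1 hT'
  · exact (Finset.erase_subset _ _).trans hT'

/-- infection spreads linearly: isolated box version -/
theorem propA (h0 : 0 < q) (h1 : q < 1) : ∃ c0 : ℕ, 1 ≤ c0 ∧ ∀ Kn : ℕ, 4 ≤ Kn → ∀ ε : ℝ, 0 < ε →
    ∃ ℓ2 : ℕ, ∀ ℓ : ℕ, ℓ2 ≤ ℓ → 1 ≤ ℓ → ∀ (o : ℤ) (S0 : Finset ℤ), S0 ⊆ Sb o ℓ 0 (2 * Kn * ℓ) →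
      ∀ x0 ∈ S0, x0 ∈ Bk o ℓ (Kn * ℓ) → ∀ z : ℤ, 8 * |z - x0| ≤ 5 * (ℓ : ℤ) ^ 2 →
        (bG q h0 h1 o ℓ 0 (2 * Kn * ℓ)).P (c0 * (ℓ : ℝ) ^ 2)
          (fun T => if T ∩ Icc (z - (ℓ : ℤ) ^ 2 / 4) (z + (ℓ : ℤ) ^ 2 / 4) = ∅ then 1 else 0) S0 ≤ ε := by
  obtain ⟨c0, hc0, hA⟩ := lawA (q := q) h0 h1
  refine ⟨c0, hc0, fun Kn hKn ε hε => ?_⟩
  have hε' : 0 < min (ε / 32) (1 / 64 : ℝ) := lt_min (by positivity) (by norm_num)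
  obtain ⟨ℓ2, hA⟩ := hA Kn hKn _ hε'
  obtain ⟨N3, hN3⟩ := exists_nat_ge (64 / ε)
  refine ⟨ℓ2 + N3 + 48, fun ℓ hℓ hℓ1 o S0 hS0 x0 hx0 hx0B z hz => ?_⟩
  obtain ⟨s, k1, k2, hs1, hs2, hs0, hk1, hk2, hk3, hP⟩ :=
    hA ℓ (by omega) hℓ1 o S0 hS0 x0 hx0 hx0B
  have hℓ48 : 48 ≤ ℓ := by omega
  have hℓε : 64 / ε ≤ ℓ := hN3.trans (by exact_mod_cast (by omega : N3 ≤ ℓ))
  have hℓR : (48 : ℝ) ≤ ℓ := by exact_mod_cast hℓ48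
  have hℓpos : (0 : ℝ) < ℓ := by linarith
  set G := bG q h0 h1 o ℓ 0 (2 * Kn * ℓ) with hG
  set F : Finset ℤ → ℝ :=
    fun T => if T ∩ Icc (z - (ℓ : ℤ) ^ 2 / 4) (z + (ℓ : ℤ) ^ 2 / 4) = ∅ then 1 else 0 with hF
  have hF1 : ∀ T, |F T| ≤ 1 := by
    intro T
    rw [hF]
    simp only
    split_ifs <;> simp
  have hFb : Bd F := ⟨1, hF1⟩
  set τ : ℝ := c0 * (ℓ : ℝ) ^ 2 - s with hτ
  have hτ0 : 0 ≤ τ := by rw [hτ]; linarith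
  have hτ1 : τ ≤ (ℓ : ℝ) ^ 2 / 64 := by
    have h2 : min (ε / 32) (1 / 64 : ℝ) * (ℓ : ℝ) ^ 2 ≤ (1 / 64) * (ℓ : ℝ) ^ 2 :=
      mul_le_mul_of_nonneg_right (min_le_right _ _) (by positivity)
    rw [hτ]
    linarith
  have hsum : (c0 : ℝ) * (ℓ : ℝ) ^ 2 = s + τ := by rw [hτ]; ring
  rw [hsum, MG.P_semigroup G F hFb]
  -- closed class
  have hCl : ∀ i ∈ G.I, ∀ T ∈ {T : Finset ℤ | T ⊆ Sb o ℓ 0 (2 * Kn * ℓ)}, G.r i T ≠ 0 →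
      G.T i T ∈ {T : Finset ℤ | T ⊆ Sb o ℓ 0 (2 * Kn * ℓ)} := by
    exact propA_cl h0 h1 (Sb o ℓ 0 (2 * Kn * ℓ)) _
  have hNEb : ∀ T : Finset ℤ, (NE o ℓ k1 k2 T : ℝ) ≤ k2 := by
    intro T
    have : NE o ℓ k1 k2 T ≤ k2 := by
      unfold NE
      refine (Finset.card_filter_le _ _).trans ?_
      rw [Nat.card_Ico]
      omega
    exact_mod_cast this
  have hmaxb : Bd (fun T : Finset ℤ => max ((NE o ℓ k1 k2 T : ℝ) - ℓ / 16) 0) := by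
    refine ⟨k2, fun T => ?_⟩
    rw [abs_of_nonneg (le_max_right _ _)]
    apply max_le
    · have := hNEb T
      have h2 : (0:ℝ) ≤ (ℓ : ℝ) / 16 := by positivity
      linarith
    · positivity
  have hsmulb : Bd (fun T : Finset ℤ => 8 / (ℓ : ℝ) * max ((NE o ℓ k1 k2 T : ℝ) - ℓ / 16) 0) := by
    obtain ⟨M, hM⟩ := hmaxb
    refine ⟨8 / (ℓ : ℝ) * M, fun T => ?_⟩
    rw [abs_mul, abs_of_nonneg (by positivity : (0:ℝ) ≤ 8 / (ℓ : ℝ))]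
    exact mul_le_mul_of_nonneg_left (hM T) (by positivity)
  have hconstb : Bd (fun _ : Finset ℤ => ε / 2) := ⟨ε / 2, fun _ => by rw [abs_of_pos (by positivity)]⟩
  have hHb : Bd (fun T : Finset ℤ => ε / 2 + 8 / (ℓ : ℝ) * max ((NE o ℓ k1 k2 T : ℝ) - ℓ / 16) 0) := by
    obtain ⟨M, hM⟩ := hsmulb
    refine ⟨ε / 2 + M, fun T => ?_⟩
    refine (abs_add_le _ _).trans ?_
    rw [abs_of_pos (by positivity : (0:ℝ) < ε / 2)]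
    linarith [hM T]
  have key : ∀ T ∈ {T : Finset ℤ | T ⊆ Sb o ℓ 0 (2 * Kn * ℓ)},
      G.P τ F T ≤ ε / 2 + 8 / (ℓ : ℝ) * max ((NE o ℓ k1 k2 T : ℝ) - ℓ / 16) 0 := by
    intro T hT
    have hT' : T ⊆ Sb o ℓ 0 (2 * Kn * ℓ) := hT
    by_cases hy : ∃ y ∈ T, 8 * |z - y| ≤ (ℓ : ℤ) ^ 2
    · obtain ⟨y, hyT, hyz⟩ := hy
      have hab : o + ((0 : ℕ) : ℤ) * ℓ + 2 ≤ o + ((2 * Kn * ℓ : ℕ) : ℤ) * ℓ - 1 := by
        have h8 : 8 ≤ 2 * Kn * ℓ * ℓ := by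
          have e1 : 2 * 4 * 1 ≤ 2 * Kn * ℓ := Nat.mul_le_mul (by omega) hℓ1
          have e2 : 8 * 1 ≤ 2 * Kn * ℓ * ℓ := Nat.mul_le_mul e1 hℓ1
          omega
        have h9 : (8 : ℤ) ≤ ((2 * Kn * ℓ : ℕ) : ℤ) * ℓ := by exact_mod_cast h8
        push_cast at h9 ⊢
        linarith
      have hnb := near_box h0 h1 (o + ((0 : ℕ) : ℤ) * ℓ) (o + ((2 * Kn * ℓ : ℕ) : ℤ) * ℓ - 1) hab z y
        T hT' hyT (ℓ ^ 2 / 4) τ hτ0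
      have hρ : (((ℓ ^ 2 / 4 : ℕ)) : ℤ) = (ℓ : ℤ) ^ 2 / 4 := by push_cast; rfl
      rw [hρ] at hnb
      have hle : G.P τ F T ≤ Real.exp (2 * τ + ((|z - y| : ℤ) : ℝ) - ((ℓ ^ 2 / 4 : ℕ) : ℝ)) := by
        have := hnb
        exact this
      have e1 : 8 * ((|z - y| : ℤ) : ℝ) ≤ (ℓ : ℝ) ^ 2 := by exact_mod_cast hyz
      have e2 : (ℓ : ℝ) ^ 2 / 4 - 1 ≤ ((ℓ ^ 2 / 4 : ℕ) : ℝ) := by
        have h3 : ℓ ^ 2 ≤ 4 * (ℓ ^ 2 / 4) + 3 := by omega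
        have h4 : (ℓ : ℝ) ^ 2 ≤ 4 * ((ℓ ^ 2 / 4 : ℕ) : ℝ) + 3 := by exact_mod_cast h3
        linarith
      have e3 : 2 * τ + ((|z - y| : ℤ) : ℝ) - ((ℓ ^ 2 / 4 : ℕ) : ℝ) ≤ 1 - 3 * (ℓ : ℝ) ^ 2 / 32 := by
        linarith
      have e4 := hle.trans ((Real.exp_le_exp.2 e3).trans (propA_exp ε hε ℓ hℓε hℓ48))
      have e5 : 0 ≤ 8 / (ℓ : ℝ) * max ((NE o ℓ k1 k2 T : ℝ) - ℓ / 16) 0 := by positivity
      linarith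
    · push Not at hy
      have hcount := propA_count o ℓ (Kn * ℓ) k1 k2 hℓ48 hk1 hk2 x0 z hx0B hz T hy
      have h1' : G.P τ F T ≤ 1 := (le_abs_self _).trans (MG.P_bound G F 1 hF1 τ hτ0 T)
      have h2 : (ℓ : ℝ) / 8 ≤ max ((NE o ℓ k1 k2 T : ℝ) - ℓ / 16) 0 := by
        refine le_trans ?_ (le_max_left _ _)
        linarith
      have h3 : (1:ℝ) ≤ 8 / (ℓ : ℝ) * max ((NE o ℓ k1 k2 T : ℝ) - ℓ / 16) 0 := by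
        calc (1:ℝ) = 8 / (ℓ : ℝ) * ((ℓ : ℝ) / 8) := by field_simp
          _ ≤ _ := mul_le_mul_of_nonneg_left h2 (by positivity)
      linarith
  have hmono := MG.P_mono_on G _ hCl (G.P τ F)
    (fun T : Finset ℤ => ε / 2 + 8 / (ℓ : ℝ) * max ((NE o ℓ k1 k2 T : ℝ) - ℓ / 16) 0)
    (MG.P_bd G F hFb τ) hHb key s hs0 S0 hS0
  have hsplit : G.P s (fun T : Finset ℤ => ε / 2 + 8 / (ℓ : ℝ) *
      max ((NE o ℓ k1 k2 T : ℝ) - ℓ / 16) 0) S0 = ε / 2 + 8 / (ℓ : ℝ) *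
      G.P s (fun T : Finset ℤ => max ((NE o ℓ k1 k2 T : ℝ) - ℓ / 16) 0) S0 := by
    rw [MG.P_add G (fun _ => ε / 2) _ hconstb hsmulb, MG.P_const,
      MG.P_smul G _ _ hmaxb]
  rw [hsplit] at hmono
  have hfin : 8 / (ℓ : ℝ) * G.P s (fun T : Finset ℤ => max ((NE o ℓ k1 k2 T : ℝ) - ℓ / 16) 0) S0 ≤
      ε / 4 := by
    have e1 : 8 / (ℓ : ℝ) * G.P s (fun T : Finset ℤ => max ((NE o ℓ k1 k2 T : ℝ) - ℓ / 16) 0) S0 ≤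
        8 / (ℓ : ℝ) * (min (ε / 32) (1 / 64 : ℝ) * ℓ) :=
      mul_le_mul_of_nonneg_left hP (by positivity)
    have e2 : 8 / (ℓ : ℝ) * (min (ε / 32) (1 / 64 : ℝ) * ℓ) = 8 * min (ε / 32) (1 / 64 : ℝ) := by
      field_simp
    have e3 := min_le_left (ε / 32) (1 / 64 : ℝ)
    linarith
  linarith

end FA
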