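import Pool.Agent.Helper870.FADefs
import Pool.Agent.Helper870.FAG1
import Pool.Agent.Helper870.FAS1
import Pool.Agent.Helper870.FAS2
import Pool.Agent.Helper870.FAS3
import Pool.Agent.Helper870.FAS4
import Pool.Agent.Helper870.FAS6
import Pool.Agent.Helper870.FAS10
import Pool.Agent.Helper870.FAD2
import Pool.Agent.Helper870.FAR1
import Pool.Agent.Helper870.FAG6
import Pool.Agent.Helper870.FAD3
import Pool.Agent.Helper870.FAOSC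
import Pool.Agent.Helper870.FAD4
import Pool.Agent.Helper870.FAD5
import Pool.Agent.Helper870.FAD7
import Pool.Agent.Helper870.FAD8
import Pool.Agent.Helper870.FARA7d
import Pool.Agent.Helper870.FARB1

set_option autoImplicit false
set_option linter.unusedSectionVars false

open Finset

noncomputable section

-- USES: G1 S1 S2 S3 S4 S6 S10 D2 R1 G6 D3 OSC D4 D5 D7 D8 RA7d RB1
namespace FA
variable {q : ℝ}

theorem j16082_closed (h0 : 0 ≤ q) (h1 : q ≤ 1) (a b : ℤ) (k : ℤ → Finset ℤ → Bool) :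
    ∀ i ∈ (kG q h0 h1 (Icc a b) k).I, ∀ T ∈ {T : Finset ℤ | T ⊆ Icc a b},
      (kG q h0 h1 (Icc a b) k).r i T ≠ 0 →
        (kG q h0 h1 (Icc a b) k).T i T ∈ {T : Finset ℤ | T ⊆ Icc a b} := by
  intro p hp T hT _
  have hp1 : p.1 ∈ Icc a b := (Finset.mem_product.1 hp).1
  show (if p.2 then insert p.1 T else T.erase p.1) ⊆ Icc a b
  have hT' : T ⊆ Icc a b := hT
  split_ifs
  · exact Finset.insert_subset hp1 hT'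
  · exact (Finset.erase_subset _ _).trans hT'

theorem j16082_w {a b z x0 : ℤ} {e : ℕ} (hz : z ∈ Icc a b) (h1 : a + e ≤ x0) (h2 : x0 + e ≤ b)
    (he : e ≤ dT a b z x0) :
    ∃ w : ℤ, (w = x0 + e ∨ w = x0 - e) ∧ dT a b z w + e ≤ dT a b z x0 := by
  rw [mem_Icc] at hz
  unfold dT at *
  by_cases h : x0 ≤ z
  · by_cases h' : (z - x0).natAbs ≤ (b - a + 1).toNat - (z - x0).natAbs
    · refine ⟨x0 + e, Or.inl rfl, ?_⟩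
      omega
    · refine ⟨x0 - e, Or.inr rfl, ?_⟩
      omega
  · by_cases h' : (z - x0).natAbs ≤ (b - a + 1).toNat - (z - x0).natAbs
    · refine ⟨x0 - e, Or.inr rfl, ?_⟩
      omega
    · refine ⟨x0 + e, Or.inl rfl, ?_⟩
      omega

theorem j16082_small (c0 : ℕ) (ε : ℝ) (hε : 0 < ε) : ∃ ℓB : ℕ, ∀ ℓ : ℕ, ℓB ≤ ℓ → 1 ≤ ℓ →
    4 * 1 * (c0 * (ℓ : ℝ) ^ 2) *
      Real.exp (6 * (c0 * (ℓ : ℝ) ^ 2) - (((7 * c0 + 4) * ℓ ^ 2 : ℕ) : ℝ)) ≤ ε := by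
  obtain ⟨ℓB, hB⟩ := exists_nat_ge (8 * (c0 : ℝ) / ε)
  refine ⟨ℓB, fun ℓ hℓ h1 => ?_⟩
  have hc : (0:ℝ) ≤ c0 := Nat.cast_nonneg _
  have h1' : (1:ℝ) ≤ ℓ := by exact_mod_cast h1
  obtain ⟨x, hx⟩ : ∃ x : ℝ, x = (ℓ : ℝ) ^ 2 := ⟨_, rfl⟩
  have hxl : (ℓ : ℝ) ≤ x := by rw [hx]; nlinarith
  have hx1 : 1 ≤ x := h1'.trans hxl
  have hx0 : 0 < x := by linarith
  have hxe : 8 * (c0 : ℝ) / ε ≤ x := by
    have : (ℓB : ℝ) ≤ ℓ := by exact_mod_cast hℓ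
    linarith
  have hexp : Real.exp (6 * (c0 * (ℓ : ℝ) ^ 2) - (((7 * c0 + 4) * ℓ ^ 2 : ℕ) : ℝ)) ≤ 2 / x ^ 2 := by
    have e1 : Real.exp (6 * (c0 * (ℓ : ℝ) ^ 2) - (((7 * c0 + 4) * ℓ ^ 2 : ℕ) : ℝ)) ≤
        Real.exp (-x) := by
      refine Real.exp_le_exp.2 ?_
      push_cast
      rw [← hx]
      nlinarith [mul_nonneg hc hx0.le]
    have e2 : Real.exp (-x) ≤ 2 / x ^ 2 := by
      rw [Real.exp_neg, inv_eq_one_div, div_le_div_iff₀ (Real.exp_pos x) (by positivity)]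
      have := Real.quadratic_le_exp_of_nonneg hx0.le
      nlinarith
    exact e1.trans e2
  calc 4 * 1 * (c0 * (ℓ : ℝ) ^ 2) *
      Real.exp (6 * (c0 * (ℓ : ℝ) ^ 2) - (((7 * c0 + 4) * ℓ ^ 2 : ℕ) : ℝ))
      ≤ 4 * 1 * (c0 * (ℓ : ℝ) ^ 2) * (2 / x ^ 2) :=
        mul_le_mul_of_nonneg_left hexp (by positivity)
    _ = 8 * c0 / x := by
        rw [← hx]
        field_simp
        ring
    _ ≤ ε := by
        rw [div_le_iff₀ hx0]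
        rw [div_le_iff₀ hε] at hxe
        linarith

/-- the comparison step, in the rotated picture -/
theorem j16082_step (h0 : 0 < q) (h1 : q < 1) (c0 Kn : ℕ) (hK : Kn = 7 * c0 + 5) (ε : ℝ)
    (hε : 0 < ε) (ℓ : ℕ) (hℓ : 3 ≤ ℓ) (hc0 : 1 ≤ c0)
    (hA : ∀ (o : ℤ) (S0 : Finset ℤ), S0 ⊆ Sb o ℓ 0 (2 * Kn * ℓ) →
      ∀ x0 ∈ S0, x0 ∈ Bk o ℓ (Kn * ℓ) → ∀ z : ℤ, 8 * |z - x0| ≤ 5 * (ℓ : ℤ) ^ 2 →
        (bG q h0 h1 o ℓ 0 (2 * Kn * ℓ)).P (c0 * (ℓ : ℝ) ^ 2)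
          (fun T => if T ∩ Icc (z - (ℓ : ℤ) ^ 2 / 4) (z + (ℓ : ℤ) ^ 2 / 4) = ∅ then 1 else 0) S0 ≤
          ε / 2)
    (hB : 4 * 1 * (c0 * (ℓ : ℝ) ^ 2) *
      Real.exp (6 * (c0 * (ℓ : ℝ) ^ 2) - (((7 * c0 + 4) * ℓ ^ 2 : ℕ) : ℝ)) ≤ ε / 2)
    (a b : ℤ) (hab : 2 * (Kn : ℤ) * ℓ ^ 2 ≤ b - a + 1) (S : Finset ℤ) (z : ℤ) (hz : z ∈ Icc a b)
    (x0 : ℤ) (hx0 : x0 = a + Kn * (ℓ : ℤ) ^ 2) (hx0S : x0 ∈ S) (hd : ℓ ^ 2 ≤ dT a b z x0) :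
    (kG q h0.le h1.le (Icc a b) (ktor a b)).P (c0 * (ℓ : ℝ) ^ 2)
      (fun T => if ∀ x ∈ T, 4 * dT a b z x0 < 4 * dT a b z x + ℓ ^ 2 then 1 else 0) S ≤ ε := by
  obtain ⟨L, hL⟩ : ∃ L : ℕ, L = ℓ ^ 2 := ⟨_, rfl⟩
  have hL9 : 9 ≤ L := by rw [hL]; nlinarith
  have hLz : ((ℓ : ℤ)) ^ 2 = (L : ℤ) := by rw [hL]; push_cast; ring
  obtain ⟨X, hX⟩ : ∃ X : ℕ, X = Kn * L := ⟨_, rfl⟩
  have hX12 : 12 * L ≤ X := by rw [hX]; exact Nat.mul_le_mul_right L (by omega)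
  have hXz : (Kn : ℤ) * (ℓ : ℤ) ^ 2 = (X : ℤ) := by rw [hLz, hX]; push_cast; ring
  have hab' : 2 * (X : ℤ) ≤ b - a + 1 := by
    calc 2 * (X : ℤ) = 2 * (Kn : ℤ) * ℓ ^ 2 := by rw [← hXz]; ring
      _ ≤ b - a + 1 := hab
  rw [hXz] at hx0
  rw [← hL] at hd
  obtain ⟨e, he⟩ : ∃ e : ℕ, e = 5 * L / 8 := ⟨_, rfl⟩
  obtain ⟨w, hw, hdw⟩ := j16082_w (x0 := x0) (e := e) hz (by omega) (by omega) (by omega)
  have hwab : w ∈ Icc a b := by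
    rw [mem_Icc]
    omega
  obtain ⟨F2, hF2⟩ : ∃ F2 : Finset ℤ → ℝ, F2 = fun T =>
    if T ∩ Icc (w - (ℓ : ℤ) ^ 2 / 4) (w + (ℓ : ℤ) ^ 2 / 4) = ∅ then 1 else 0 := ⟨_, rfl⟩
  have hF2b : ∀ T, |F2 T| ≤ 1 := by
    intro T
    rw [hF2]
    simp only
    split_ifs <;> simp
  have hle : ∀ T, (if ∀ x ∈ T, 4 * dT a b z x0 < 4 * dT a b z x + ℓ ^ 2 then (1:ℝ) else 0) ≤
      F2 T := by
    intro T
    rw [hF2]
    simp only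
    split_ifs with g1 g2 g2
    · exact le_refl _
    · exfalso
      obtain ⟨x, hx⟩ := Finset.nonempty_iff_ne_empty.2 g2
      rw [Finset.mem_inter, mem_Icc, hLz] at hx
      obtain ⟨hxT, hx1, hx2⟩ := hx
      have hxab : x ∈ Icc a b := by
        rw [mem_Icc]
        omega
      have g3 := g1 x hxT
      rw [← hL] at g3
      have g4 := dT_tri a b z w x hz hwab hxab
      have g5 : dT a b w x ≤ (w - x).natAbs := min_le_left _ _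
      omega
    · norm_num
    · exact le_refl _
  have hbd1 : Bd (fun T : Finset ℤ =>
      if ∀ x ∈ T, 4 * dT a b z x0 < 4 * dT a b z x + ℓ ^ 2 then (1:ℝ) else 0) := by
    refine ⟨1, fun T => ?_⟩
    simp only
    split_ifs <;> simp
  have hbd2 : Bd F2 := ⟨1, hF2b⟩
  have ht : 0 ≤ (c0 : ℝ) * (ℓ : ℝ) ^ 2 := by positivity
  have s1 := MG.P_mono (kG q h0.le h1.le (Icc a b) (ktor a b)) _ F2 hbd1 hbd2 hle
    (c0 * (ℓ : ℝ) ^ 2) ht S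
  refine s1.trans ?_
  -- the box
  have ha' : a + ((0 : ℕ) : ℤ) * ℓ = a := by simp
  have hb' : a + ((2 * Kn * ℓ : ℕ) : ℤ) * ℓ - 1 = a + 2 * (X : ℤ) - 1 := by
    rw [← hXz]; push_cast; ring
  have hn : (((7 * c0 + 4) * ℓ ^ 2 : ℕ) : ℤ) = (X : ℤ) - L := by
    rw [← hL, hX, hK]; push_cast; ring
  have hF2loc : ∀ T, F2 T = F2 (T ∩ Icc (w - (ℓ : ℤ) ^ 2 / 4) (w + (ℓ : ℤ) ^ 2 / 4)) := by
    intro T
    rw [hF2]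
    simp only
    rw [Finset.inter_assoc, Finset.inter_self]
  have hcmp : |(kG q h0.le h1.le (Icc a b) (ktor a b)).P (c0 * (ℓ : ℝ) ^ 2) F2 S -
      (bG q h0 h1 a ℓ 0 (2 * Kn * ℓ)).P (c0 * (ℓ : ℝ) ^ 2) F2 S| ≤
      4 * 1 * (c0 * (ℓ : ℝ) ^ 2) *
        Real.exp (6 * (c0 * (ℓ : ℝ) ^ 2) - (((7 * c0 + 4) * ℓ ^ 2 : ℕ) : ℝ)) := by
    have k1 : a ≤ a + ((0 : ℕ) : ℤ) * ℓ := by omega
    have k2 : a + ((2 * Kn * ℓ : ℕ) : ℤ) * ℓ - 1 ≤ b := by omega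
    have k3 : a + ((0 : ℕ) : ℤ) * ℓ + 2 ≤ a + ((2 * Kn * ℓ : ℕ) : ℤ) * ℓ - 1 := by omega
    have k4 : a + ((0 : ℕ) : ℤ) * ℓ + (((7 * c0 + 4) * ℓ ^ 2 : ℕ) : ℤ) ≤
        w - (ℓ : ℤ) ^ 2 / 4 := by
      rw [hn, hLz, ha']
      omega
    have k5 : w + (ℓ : ℤ) ^ 2 / 4 + (((7 * c0 + 4) * ℓ ^ 2 : ℕ) : ℤ) ≤
        a + ((2 * Kn * ℓ : ℕ) : ℤ) * ℓ - 1 := by
      rw [hn, hLz, hb']
      omega
    have k6 : w - (ℓ : ℤ) ^ 2 / 4 ≤ w + (ℓ : ℤ) ^ 2 / 4 := by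
      rw [hLz]
      omega
    exact fs_compare h0.le h1.le a b (a + ((0 : ℕ) : ℤ) * ℓ)
      (a + ((2 * Kn * ℓ : ℕ) : ℤ) * ℓ - 1) k1 k2
      (ktor a b) (kbox (a + ((0 : ℕ) : ℤ) * ℓ) (a + ((2 * Kn * ℓ : ℕ) : ℤ) * ℓ - 1))
      (adm_tor a b (by omega)).toAdm0
      (adm_box _ _ k3).toAdm0 (w - (ℓ : ℤ) ^ 2 / 4) (w + (ℓ : ℤ) ^ 2 / 4)
      ((7 * c0 + 4) * ℓ ^ 2) k4 k6 k5 F2 hF2loc 1 hF2b _ ht S
  have hSbI : Sb a ℓ 0 (2 * Kn * ℓ) = Icc a (a + 2 * (X : ℤ) - 1) := by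
    unfold Sb
    rw [ha', hb']
  have hloc2 : (bG q h0 h1 a ℓ 0 (2 * Kn * ℓ)).P (c0 * (ℓ : ℝ) ^ 2) F2 S =
      (bG q h0 h1 a ℓ 0 (2 * Kn * ℓ)).P (c0 * (ℓ : ℝ) ^ 2) F2 (S ∩ Sb a ℓ 0 (2 * Kn * ℓ)) := by
    have k3 : a + ((0 : ℕ) : ℤ) * ℓ + 2 ≤ a + ((2 * Kn * ℓ : ℕ) : ℤ) * ℓ - 1 := by omega
    refine P_loc h0.le h1.le (a + ((0 : ℕ) : ℤ) * ℓ)
      (a + ((2 * Kn * ℓ : ℕ) : ℤ) * ℓ - 1) _ (adm_box _ _ k3).toAdm0 F2 ?_ _ S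
    intro T
    have hsub : Icc (w - (ℓ : ℤ) ^ 2 / 4) (w + (ℓ : ℤ) ^ 2 / 4) ⊆
        Icc (a + ((0 : ℕ) : ℤ) * ℓ) (a + ((2 * Kn * ℓ : ℕ) : ℤ) * ℓ - 1) := by
      rw [ha', hb', hLz]
      intro x hx
      rw [mem_Icc] at hx ⊢
      omega
    rw [hF2]
    simp only
    rw [Finset.inter_assoc, Finset.inter_eq_right.2 hsub]
  have hx0Sb : x0 ∈ S ∩ Sb a ℓ 0 (2 * Kn * ℓ) := by
    rw [Finset.mem_inter, hSbI, mem_Icc]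
    exact ⟨hx0S, by omega, by omega⟩
  have hx0Bk : x0 ∈ Bk a ℓ (Kn * ℓ) := by
    unfold Bk
    have e1 : a + ((Kn * ℓ : ℕ) : ℤ) * ℓ = a + X := by rw [← hXz]; push_cast; ring
    rw [mem_Icc, e1]
    omega
  have hfin := hA a (S ∩ Sb a ℓ 0 (2 * Kn * ℓ)) Finset.inter_subset_right x0 hx0Sb hx0Bk w (by
    rw [hLz]
    rcases hw with hw | hw
    · rw [hw, add_sub_cancel_left, abs_of_nonneg (by positivity)]
      omega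
    · rw [hw, show x0 - (e : ℤ) - x0 = -(e : ℤ) by ring, abs_neg, abs_of_nonneg (by positivity)]
      omega)
  rw [← hF2] at hfin
  rw [hloc2] at hcmp
  have := (abs_le.1 hcmp).2
  linarith

/-- one macroscopic step on the cycle: the infection approaches any distant site -/
theorem propT (h0 : 0 < q) (h1 : q < 1) : ∃ c0 Kn : ℕ, 1 ≤ c0 ∧ ∀ ε : ℝ, 0 < ε →
    ∃ ℓ2 : ℕ, ∀ ℓ : ℕ, ℓ2 ≤ ℓ → ∀ a b : ℤ, 2 * (Kn : ℤ) * ℓ ^ 2 ≤ b - a + 1 → ∀ S, S ⊆ Icc a b →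
      ∀ z ∈ Icc a b, ∀ x0 ∈ S, ℓ ^ 2 ≤ dT a b z x0 →
        (kG q h0.le h1.le (Icc a b) (ktor a b)).P (c0 * (ℓ : ℝ) ^ 2)
          (fun T => if ∀ x ∈ T, 4 * dT a b z x0 < 4 * dT a b z x + ℓ ^ 2 then 1 else 0) S ≤ ε := by 
  obtain ⟨c0, hc0, hA⟩ := propA h0 h1
  refine ⟨c0, 7 * c0 + 5, hc0, fun ε hε => ?_⟩
  obtain ⟨ℓA, hAℓ⟩ := hA (7 * c0 + 5) (by omega) (ε / 2) (by linarith)
  obtain ⟨ℓB, hB⟩ := j16082_small c0 (ε / 2) (by linarith)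
  refine ⟨ℓA + ℓB + 3, fun ℓ hℓ a b hab S hS z hz x0 hx0 hd => ?_⟩
  obtain ⟨X, hX⟩ : ∃ X : ℤ, X = ((7 * c0 + 5 : ℕ) : ℤ) * (ℓ : ℤ) ^ 2 := ⟨_, rfl⟩
  have hℓ3 : (3:ℤ) ≤ ℓ := by exact_mod_cast (by omega : 3 ≤ ℓ)
  have hX0 : 0 < X := by
    rw [hX]
    positivity
  have hXN : X < b - a + 1 := by
    have : 2 * X ≤ b - a + 1 := by
      calc 2 * X = 2 * ((7 * c0 + 5 : ℕ) : ℤ) * (ℓ : ℤ) ^ 2 := by rw [hX]; ring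
        _ ≤ b - a + 1 := hab
    linarith
  have hX2 : 3 ≤ X := by
    have h1 : (1:ℤ) ≤ ((7 * c0 + 5 : ℕ) : ℤ) := by exact_mod_cast (by omega : 1 ≤ 7 * c0 + 5)
    have h2 : (9:ℤ) ≤ (ℓ : ℤ) ^ 2 := by nlinarith
    rw [hX]
    nlinarith
  have hab2 : a + 2 ≤ b := by omega
  have hx0ab : x0 ∈ Icc a b := hS hx0
  obtain ⟨m, hm⟩ : ∃ m : ℤ, m = X - (x0 - a) := ⟨_, rfl⟩
  have hrx : rot a b m x0 = a + X := by
    unfold rot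
    rw [hm, show x0 - a + (X - (x0 - a)) = X by ring, Int.emod_eq_of_lt hX0.le hXN]
  have hcong := MG.P_congr_on (kG q h0.le h1.le (Icc a b) (ktor a b))
    {T : Finset ℤ | T ⊆ Icc a b} (j16082_closed h0.le h1.le a b (ktor a b))
    (fun T => if ∀ x ∈ T, 4 * dT a b z x0 < 4 * dT a b z x + ℓ ^ 2 then (1:ℝ) else 0)
    (fun T => (fun T' : Finset ℤ => if ∀ x ∈ T', 4 * dT a b (rot a b m z) (rot a b m x0) <
      4 * dT a b (rot a b m z) x + ℓ ^ 2 then (1:ℝ) else 0) (rotS a b m T)) (by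
        intro T hT
        have hT' : T ⊆ Icc a b := hT
        have hiff : (∀ x ∈ T, 4 * dT a b z x0 < 4 * dT a b z x + ℓ ^ 2) ↔
            (∀ x ∈ rotS a b m T, 4 * dT a b (rot a b m z) (rot a b m x0) <
              4 * dT a b (rot a b m z) x + ℓ ^ 2) := by
          unfold rotS
          rw [Finset.inter_eq_left.2 hT', Finset.forall_mem_image, dT_rot a b m z x0 hz hx0ab]
          refine forall₂_congr fun x hx => ?_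
          rw [dT_rot a b m z x hz (hT' hx)]
        simp only [hiff]) (c0 * (ℓ : ℝ) ^ 2) S hS
  rw [hcong]
  have hrot := rot_P h0.le h1.le a b m hab2
    (fun T' : Finset ℤ => if ∀ x ∈ T', 4 * dT a b (rot a b m z) (rot a b m x0) <
      4 * dT a b (rot a b m z) x + ℓ ^ 2 then (1:ℝ) else 0) (c0 * (ℓ : ℝ) ^ 2) S
  rw [hrot]
  refine j16082_step h0 h1 c0 (7 * c0 + 5) rfl ε hε ℓ (by omega) hc0
    (hAℓ ℓ (by omega) (by omega)) (hB ℓ (by omega) (by omega)) a b hab (rotS a b m S)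
    (rot a b m z) (rot_mem a b m z hz) (rot a b m x0) (by rw [hrx, hX]) ?_ ?_
  · unfold rotS
    exact Finset.mem_image_of_mem _ (Finset.mem_inter.2 ⟨hx0, hx0ab⟩)
  · rw [dT_rot a b m z x0 hz hx0ab]
    exact hd

end FA
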