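import Pool.Agent.Helper870.FADefs
import Pool.Agent.Helper870.FAG1
import Pool.Agent.Helper870.FAS1
import Pool.Agent.Helper870.FAS2
import Pool.Agent.Helper870.FAS3
import Pool.Agent.Helper870.FAS6
import Pool.Agent.Helper870.FAS10
import Pool.Agent.Helper870.FAD2
import Pool.Agent.Helper870.FAR1
import Pool.Agent.Helper870.FAG6
import Pool.Agent.Helper870.FAD3
import Pool.Agent.Helper870.FAD4
import Pool.Agent.Helper870.FAD5
import Pool.Agent.Helper870.FAD8
import Pool.Agent.Helper870.FARA1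
import Pool.Agent.Helper870.FARB1
import Pool.Agent.Helper870.FARB2

set_option autoImplicit false
set_option linter.unusedSectionVars false

open Finset

noncomputable section

-- USES: G1 S1 S2 S3 S6 S10 D2 R1 G6 D3 D4 D5 D8 RA1 RB1 RB2
namespace FA
variable {q : ℝ}

/-- Lyapunov function -/
def Vt (a b z : ℤ) (α : ℝ) (S : Finset ℤ) : ℝ :=
  if h : (S ∩ Icc a b).Nonempty then
    Real.exp (α * (((S ∩ Icc a b).inf' h (fun x => dT a b z x) : ℕ) : ℝ)) else 0

theorem Vt_empty (a b z : ℤ) (α : ℝ) : Vt a b z α ∅ = 0 := by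
  unfold Vt
  simp

theorem Vt_loc (a b z : ℤ) (α : ℝ) (S : Finset ℤ) : Vt a b z α S = Vt a b z α (S ∩ Icc a b) := by
  unfold Vt
  have : S ∩ Icc a b ∩ Icc a b = S ∩ Icc a b := by
    ext x; simp
  simp only [this]

theorem Vt_nonneg (a b z : ℤ) (α : ℝ) (S : Finset ℤ) : 0 ≤ Vt a b z α S := by
  unfold Vt
  split_ifs
  · positivity
  · exact le_refl _

theorem Vt_le (a b z : ℤ) (α : ℝ) (hα : 0 ≤ α) (S : Finset ℤ) (hS : S ⊆ Icc a b) (x : ℤ) (hx : x ∈ S) :
    Vt a b z α S ≤ Real.exp (α * (dT a b z x : ℝ)) := by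
  have hx' : x ∈ S ∩ Icc a b := Finset.mem_inter.2 ⟨hx, hS hx⟩
  unfold Vt
  rw [dif_pos ⟨x, hx'⟩]
  apply Real.exp_le_exp.2
  apply mul_le_mul_of_nonneg_left _ hα
  exact_mod_cast Finset.inf'_le _ hx'

theorem Vt_att (a b z : ℤ) (S : Finset ℤ) (hS : S ⊆ Icc a b) (hne : S.Nonempty) :
    ∃ x ∈ S, ∀ α : ℝ, Vt a b z α S = Real.exp (α * (dT a b z x : ℝ)) := by
  have h : (S ∩ Icc a b).Nonempty := by
    obtain ⟨x, hx⟩ := hne
    exact ⟨x, Finset.mem_inter.2 ⟨hx, hS hx⟩⟩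
  obtain ⟨x, hx, hx2⟩ := Finset.exists_mem_eq_inf' h (fun x => dT a b z x)
  refine ⟨x, (Finset.mem_inter.1 hx).1, fun α => ?_⟩
  unfold Vt
  rw [dif_pos h, hx2]

theorem Vt_sq (a b z : ℤ) (α : ℝ) (S : Finset ℤ) : Vt a b z (2 * α) S = Vt a b z α S ^ 2 := by
  unfold Vt
  split_ifs
  · rw [← Real.exp_nat_mul]
    congr 1
    push_cast
    ring
  · simp

theorem dT_le (a b z x : ℤ) : dT a b z x ≤ (b - a + 1).toNat := by
  unfold dT
  omega

theorem Vt_bd (a b z : ℤ) (α : ℝ) (hα : 0 ≤ α) : Bd (Vt a b z α) := by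
  refine ⟨Real.exp (α * ((b - a + 1).toNat : ℝ)), fun S => ?_⟩
  rw [abs_of_nonneg (Vt_nonneg a b z α S)]
  by_cases h : (S ∩ Icc a b).Nonempty
  · obtain ⟨x, hx⟩ := h
    rw [Vt_loc]
    refine le_trans (Vt_le a b z α hα _ Finset.inter_subset_right x hx) ?_
    apply Real.exp_le_exp.2
    apply mul_le_mul_of_nonneg_left _ hα
    exact_mod_cast dT_le a b z x
  · unfold Vt
    rw [dif_neg h]
    positivity

/-- the closed class -/
def Cl (a b : ℤ) : Set (Finset ℤ) := {S | S ⊆ Icc a b ∧ S.Nonempty}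

theorem Cl_closed (h0 : 0 < q) (h1 : q < 1) (a b : ℤ) (k : ℤ → Finset ℤ → Bool) (hk : Adm a b k) :
    ∀ i ∈ (kG q h0.le h1.le (Icc a b) k).I, ∀ x ∈ Cl a b,
      (kG q h0.le h1.le (Icc a b) k).r i x ≠ 0 → (kG q h0.le h1.le (Icc a b) k).T i x ∈ Cl a b := by
  rintro ⟨x, β⟩ hi S ⟨hS, hne⟩ hr
  have hx : x ∈ Icc a b := (Finset.mem_product.1 hi).1
  have hkx : k x S = true := by
    by_contra hcon
    apply hr
    show kv k x S * _ = 0
    unfold kv
    rw [if_neg hcon, zero_mul]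
  obtain ⟨y, hy, hyx, hyS⟩ := hk.ne x hx S hkx
  show (if β = true then insert x S else S.erase x) ∈ Cl a b
  cases β
  · simp only [Bool.false_eq_true, if_false]
    exact ⟨(Finset.erase_subset _ _).trans hS, ⟨y, Finset.mem_erase.2 ⟨hyx, hyS⟩⟩⟩
  · simp only [if_true]
    exact ⟨Finset.insert_subset hx hS, ⟨x, Finset.mem_insert_self _ _⟩⟩

theorem dT_nb (a b : ℤ) (hab : a + 2 ≤ b) (x : ℤ) (hx : x ∈ Icc a b) (S : Finset ℤ)
    (h : ktor a b x S = true) (z : ℤ) (hz : z ∈ Icc a b) :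
    ∃ y ∈ Icc a b, y ∈ S ∧ y ≠ x ∧ (dT a b z y : ℝ) ≤ (dT a b z x : ℝ) + 1 := by
  unfold ktor at h
  have h' := of_decide_eq_true h
  have hx' := Finset.mem_Icc.1 hx
  have hz' := Finset.mem_Icc.1 hz
  rcases h' with h' | h'
  · refine ⟨pr a b x, ?_, h', ?_, ?_⟩
    · unfold pr; split_ifs <;> simp <;> omega
    · unfold pr; split_ifs <;> omega
    · have h2 : dT a b z (pr a b x) ≤ dT a b z x + dT a b x (pr a b x) := by
        apply dT_tri a b z x (pr a b x) hz hx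
        unfold pr; split_ifs <;> simp <;> omega
      have h3 : dT a b x (pr a b x) ≤ 1 := by
        unfold dT pr; split_ifs <;> omega
      have : dT a b z (pr a b x) ≤ dT a b z x + 1 := by omega
      exact_mod_cast this
  · refine ⟨sc a b x, ?_, h', ?_, ?_⟩
    · unfold sc; split_ifs <;> simp <;> omega
    · unfold sc; split_ifs <;> omega
    · have h2 : dT a b z (sc a b x) ≤ dT a b z x + dT a b x (sc a b x) := by
        apply dT_tri a b z x (sc a b x) hz hx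
        unfold sc; split_ifs <;> simp <;> omega
      have h3 : dT a b x (sc a b x) ≤ 1 := by
        unfold dT sc; split_ifs <;> omega
      have : dT a b z (sc a b x) ≤ dT a b z x + 1 := by omega
      exact_mod_cast this

theorem Vt_lyap (h0 : 0 < q) (h1 : q < 1) (a b : ℤ) (hab : a + 2 ≤ b) (z : ℤ) (hz : z ∈ Icc a b)
    (α : ℝ) (hα : 0 ≤ α) (t : ℝ) (ht : 0 ≤ t) (S : Finset ℤ) (hS : S ⊆ Icc a b) :
    (kG q h0.le h1.le (Icc a b) (ktor a b)).P t (Vt a b z α) S ≤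
      Real.exp ((Real.exp α - 1) * t) * Vt a b z α S := by
  apply near_lyap h0 h1 a b (ktor a b) (adm_tor a b hab) (fun x => (dT a b z x : ℝ)) _ α hα
    (Vt a b z α) (Vt_empty a b z α) (Vt_loc a b z α) _ _ t ht S hS
  · intro x hx S' hk
    exact dT_nb a b hab x hx S' hk z hz
  · intro S' hS' x hx
    exact Vt_le a b z α hα S' hS' x hx
  · intro S' hS' hne
    obtain ⟨x, hx, hx2⟩ := Vt_att a b z S' hS' hne
    exact ⟨x, hx, hx2 α⟩

/-- one step drift -/
theorem Vt_drift (h0 : 0 < q) (h1 : q < 1) (c0 Kn : ℕ) (hc0 : 1 ≤ c0) (δ ε : ℝ)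
    (hδ : δ = Real.exp (-(4 * c0)) / 10) (hε : ε = δ / 10) (ℓ : ℕ) (hℓ2 : 2 ≤ ℓ)
    (hp : ∀ a b : ℤ, 2 * (Kn : ℤ) * ℓ ^ 2 ≤ b - a + 1 → ∀ S, S ⊆ Icc a b →
      ∀ z ∈ Icc a b, ∀ x0 ∈ S, ℓ ^ 2 ≤ dT a b z x0 →
        (kG q h0.le h1.le (Icc a b) (ktor a b)).P (c0 * (ℓ : ℝ) ^ 2)
          (fun T => if ∀ x ∈ T, 4 * dT a b z x0 < 4 * dT a b z x + ℓ ^ 2 then 1 else 0) S ≤ ε)
    (a b : ℤ) (hab : a + 2 ≤ b) (hN : 2 * (Kn : ℤ) * ℓ ^ 2 ≤ b - a + 1) (z : ℤ) (hz : z ∈ Icc a b)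
    (S : Finset ℤ) (hS : S ∈ Cl a b) :
    (kG q h0.le h1.le (Icc a b) (ktor a b)).P (c0 * (ℓ : ℝ) ^ 2) (Vt a b z (1 / (ℓ : ℝ) ^ 2)) S ≤
      9 / 10 * Vt a b z (1 / (ℓ : ℝ) ^ 2) S + Real.exp (2 * c0) * Real.exp 1 := by
  set G := kG q h0.le h1.le (Icc a b) (ktor a b) with hG
  have hℓ : (2 : ℝ) ≤ ℓ := by exact_mod_cast hℓ2
  set R : ℝ := (ℓ : ℝ) ^ 2 with hR
  have hR4 : (4 : ℝ) ≤ R := by rw [hR]; nlinarith
  have hR0 : (0 : ℝ) < R := by linarith
  set θ : ℝ := 1 / R with hθ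
  have hθ0 : 0 < θ := by positivity
  have hθR : θ * R = 1 := by rw [hθ]; field_simp
  have hθ4 : θ ≤ 1 / 4 := by
    rw [hθ]
    exact one_div_le_one_div_of_le (by norm_num) hR4
  have hc0' : (1 : ℝ) ≤ c0 := by exact_mod_cast hc0
  set T : ℝ := c0 * R with hT
  have hT0 : 0 ≤ T := by positivity
  have e1 : Real.exp θ - 1 ≤ 2 * θ := by
    have := Real.abs_exp_sub_one_le (x := θ) (by rw [abs_of_pos hθ0]; linarith)
    rw [abs_of_pos hθ0] at this
    exact (le_abs_self _).trans this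
  have e2 : Real.exp (2 * θ) - 1 ≤ 4 * θ := by
    have := Real.abs_exp_sub_one_le (x := 2 * θ) (by rw [abs_of_pos (by linarith)]; linarith)
    rw [abs_of_pos (by linarith : (0 : ℝ) < 2 * θ)] at this
    linarith [(le_abs_self (Real.exp (2 * θ) - 1)).trans this]
  have hPV : G.P T (Vt a b z θ) S ≤ Real.exp (2 * c0) * Vt a b z θ S := by
    refine (Vt_lyap h0 h1 a b hab z hz θ hθ0.le T hT0 S hS.1).trans ?_
    apply mul_le_mul_of_nonneg_right _ (Vt_nonneg _ _ _ _ _)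
    apply Real.exp_le_exp.2
    calc (Real.exp θ - 1) * T ≤ (2 * θ) * T := mul_le_mul_of_nonneg_right e1 hT0
      _ = 2 * c0 * (θ * R) := by rw [hT]; ring
      _ = 2 * c0 := by rw [hθR, mul_one]
  have hPV2 : G.P T (Vt a b z (2 * θ)) S ≤ Real.exp (4 * c0) * Vt a b z (2 * θ) S := by
    refine (Vt_lyap h0 h1 a b hab z hz (2 * θ) (by linarith) T hT0 S hS.1).trans ?_
    apply mul_le_mul_of_nonneg_right _ (Vt_nonneg _ _ _ _ _)
    apply Real.exp_le_exp.2
    calc (Real.exp (2 * θ) - 1) * T ≤ (4 * θ) * T := mul_le_mul_of_nonneg_right e2 hT0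
      _ = 4 * c0 * (θ * R) := by rw [hT]; ring
      _ = 4 * c0 := by rw [hθR, mul_one]
  obtain ⟨x0, hx0, hx0V⟩ := Vt_att a b z S hS.1 hS.2
  have hVS : 0 < Vt a b z θ S := by rw [hx0V]; positivity
  by_cases hy : ℓ ^ 2 ≤ dT a b z x0
  · -- far away
    have hprob := hp a b hN S hS.1 z hz x0 hx0 hy
    set Ind : Finset ℤ → ℝ :=
      (fun T => if ∀ x ∈ T, 4 * dT a b z x0 < 4 * dT a b z x + ℓ ^ 2 then 1 else 0) with hInd
    have hIbd : Bd Ind := by
      refine ⟨1, fun T' => ?_⟩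
      rw [hInd]
      dsimp only
      split_ifs <;> simp
    have hδ0 : 0 < δ := by rw [hδ]; positivity
    set v := Vt a b z θ S with hv
    have hpt : ∀ T' ∈ Cl a b, Vt a b z θ T' ≤
        (4 / 5) * v + ((δ / 2 / v) * Vt a b z (2 * θ) T' + (v / (2 * δ)) * Ind T') := by
      intro T' hT'
      have h1 : 0 ≤ (δ / 2 / v) * Vt a b z (2 * θ) T' :=
        mul_nonneg (by positivity) (Vt_nonneg _ _ _ _ _)
      by_cases hE : ∀ x ∈ T', 4 * dT a b z x0 < 4 * dT a b z x + ℓ ^ 2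
      · have h2 : Ind T' = 1 := by rw [hInd]; simp only; rw [if_pos hE]
        rw [h2, mul_one, Vt_sq]
        have h3 : Vt a b z θ T' ≤ (δ / 2 / v) * Vt a b z θ T' ^ 2 + v / (2 * δ) := by
          have h4 : (δ / 2 / v) * Vt a b z θ T' ^ 2 + v / (2 * δ) - Vt a b z θ T' =
              (δ * Vt a b z θ T' - v) ^ 2 / (2 * δ * v) := by
            field_simp
            ring
          have h5 : 0 ≤ (δ * Vt a b z θ T' - v) ^ 2 / (2 * δ * v) := by positivity
          linarith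
        have h6 : 0 ≤ (4 / 5) * v := by positivity
        linarith
      · push Not at hE
        obtain ⟨x, hx, hxy⟩ := hE
        have h2 : Ind T' = 0 := by
          rw [hInd]; simp only; rw [if_neg]
          push Not
          exact ⟨x, hx, hxy⟩
        rw [h2, mul_zero, add_zero]
        have h3 : Vt a b z θ T' ≤ (4 / 5) * v := by
          refine (Vt_le a b z θ hθ0.le T' hT'.1 x hx).trans ?_
          rw [hv, hx0V]
          have h4 : (4 * (dT a b z x : ℝ) + R) ≤ 4 * (dT a b z x0 : ℝ) := by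
            rw [hR]; exact_mod_cast hxy
          have h5 : θ * (dT a b z x : ℝ) ≤ -(1/4) + θ * (dT a b z x0 : ℝ) := by
            have := mul_le_mul_of_nonneg_left h4 hθ0.le
            nlinarith
          have h6 : Real.exp (-(1/4)) ≤ 4 / 5 := by
            rw [Real.exp_neg]
            have h7 : (5 / 4 : ℝ) ≤ Real.exp (1 / 4) := by
              have := Real.add_one_le_exp (1 / 4 : ℝ)
              linarith
            calc (Real.exp (1/4))⁻¹ ≤ (5 / 4 : ℝ)⁻¹ := inv_anti₀ (by norm_num) h7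
              _ = 4 / 5 := by norm_num
          calc Real.exp (θ * (dT a b z x : ℝ)) ≤ Real.exp (-(1/4) + θ * (dT a b z x0 : ℝ)) :=
                Real.exp_le_exp.2 h5
            _ = Real.exp (-(1/4)) * Real.exp (θ * (dT a b z x0 : ℝ)) := Real.exp_add _ _
            _ ≤ _ := mul_le_mul_of_nonneg_right h6 (Real.exp_pos _).le
        linarith
    have hbd1 : Bd (Vt a b z θ) := Vt_bd a b z θ hθ0.le
    have hbd2 : Bd (Vt a b z (2 * θ)) := Vt_bd a b z (2 * θ) (by linarith)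
    have hbds : ∀ (c : ℝ) (F : Finset ℤ → ℝ), Bd F → Bd (fun T' => c * F T') := by
      rintro c F ⟨M, hM⟩
      refine ⟨|c| * M, fun x => ?_⟩
      rw [abs_mul]
      exact mul_le_mul_of_nonneg_left (hM x) (abs_nonneg _)
    have hbda : ∀ (F H : Finset ℤ → ℝ), Bd F → Bd H → Bd (fun T' => F T' + H T') := by
      rintro F H ⟨M, hM⟩ ⟨M', hM'⟩
      exact ⟨M + M', fun x => (abs_add_le _ _).trans (add_le_add (hM x) (hM' x))⟩
    have hbdc : ∀ (c : ℝ), Bd (fun _ : Finset ℤ => c) := fun c => ⟨|c|, fun _ => le_refl _⟩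
    have hb3 := hbds (δ / 2 / v) _ hbd2
    have hb4 := hbds (v / (2 * δ)) _ hIbd
    have hb5 := hbda _ _ hb3 hb4
    have hmono := G.P_mono_on (Cl a b) (Cl_closed h0 h1 a b (ktor a b) (adm_tor a b hab))
      (Vt a b z θ) (fun T' => (4 / 5) * v + ((δ / 2 / v) * Vt a b z (2 * θ) T' + (v / (2 * δ)) * Ind T'))
      hbd1 (hbda _ _ (hbdc _) hb5) hpt T hT0 S hS
    have hcomp : G.P T (fun T' => (4 / 5) * v + ((δ / 2 / v) * Vt a b z (2 * θ) T' + (v / (2 * δ)) * Ind T')) S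
        = (4 / 5) * v + ((δ / 2 / v) * G.P T (Vt a b z (2 * θ)) S + (v / (2 * δ)) * G.P T Ind S) := by
      have c1 := G.P_add (fun _ => (4 / 5) * v)
        (fun T' => (δ / 2 / v) * Vt a b z (2 * θ) T' + (v / (2 * δ)) * Ind T') (hbdc _) hb5 T S
      have c2 := G.P_add (fun T' => (δ / 2 / v) * Vt a b z (2 * θ) T')
        (fun T' => (v / (2 * δ)) * Ind T') hb3 hb4 T S
      have c3 := G.P_smul (δ / 2 / v) (Vt a b z (2 * θ)) hbd2 T S
      have c4 := G.P_smul (v / (2 * δ)) Ind hIbd T S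
      have c5 := G.P_const ((4 / 5) * v) T S
      rw [c1, c2, c3, c4, c5]
    rw [hcomp] at hmono
    have hA : (δ / 2 / v) * G.P T (Vt a b z (2 * θ)) S ≤ (1 / 20) * v := by
      calc (δ / 2 / v) * G.P T (Vt a b z (2 * θ)) S
          ≤ (δ / 2 / v) * (Real.exp (4 * c0) * Vt a b z (2 * θ) S) :=
            mul_le_mul_of_nonneg_left hPV2 (by positivity)
        _ = (Real.exp (-(4 * c0)) * Real.exp (4 * c0)) * v / 20 := by
            rw [Vt_sq, ← hv, hδ]
            field_simp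
            ring
        _ = (1 / 20) * v := by
            rw [← Real.exp_add]
            simp
            ring
    have hB : (v / (2 * δ)) * G.P T Ind S ≤ (1 / 20) * v := by
      calc (v / (2 * δ)) * G.P T Ind S ≤ (v / (2 * δ)) * ε :=
            mul_le_mul_of_nonneg_left hprob (by positivity)
        _ = (1 / 20) * v := by
            rw [hε]
            field_simp
            norm_num
    have hC : 0 < Real.exp (2 * c0) * Real.exp 1 := by positivity
    linarith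
  · -- close
    push Not at hy
    have h3 : Vt a b z θ S ≤ Real.exp 1 := by
      rw [hx0V]
      apply Real.exp_le_exp.2
      have : (dT a b z x0 : ℝ) ≤ R := by
        rw [hR]; exact_mod_cast hy.le
      calc θ * (dT a b z x0 : ℝ) ≤ θ * R := mul_le_mul_of_nonneg_left this hθ0.le
        _ = 1 := hθR
    calc G.P T (Vt a b z θ) S ≤ Real.exp (2 * c0) * Vt a b z θ S := hPV
      _ ≤ Real.exp (2 * c0) * Real.exp 1 := mul_le_mul_of_nonneg_left h3 (Real.exp_pos _).le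
      _ ≤ _ := by
        have := hVS.le
        linarith

/-- persistence of the infection on cycles -/
theorem pers_tor (h0 : 0 < q) (h1 : q < 1) : ∃ (θ c C : ℝ) (N0 : ℤ), 0 < θ ∧ 0 < c ∧ 1 ≤ C ∧
    PersS sysTor q h0 h1 θ c C N0 := by
  obtain ⟨c0, Kn, hc0, hprop⟩ := propT h0 h1
  set δ : ℝ := Real.exp (-(4 * c0)) / 10 with hδ
  set ε : ℝ := δ / 10 with hε
  have hδ0 : 0 < δ := by positivity
  have hε0 : 0 < ε := by positivity
  obtain ⟨ℓ2, hℓ2⟩ := hprop ε hε0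
  set ℓ : ℕ := max ℓ2 2 with hℓ
  have hp := hℓ2 ℓ (le_max_left _ _)
  have h2ℓ : 2 ≤ ℓ := le_max_right _ _
  have hℓr : (2 : ℝ) ≤ ℓ := by exact_mod_cast h2ℓ
  have hc0' : (1 : ℝ) ≤ c0 := by exact_mod_cast hc0
  set R : ℝ := (ℓ : ℝ) ^ 2 with hR
  have hR4 : (4 : ℝ) ≤ R := by rw [hR]; nlinarith
  have hR0 : (0 : ℝ) < R := by linarith
  set T : ℝ := c0 * R with hT
  have hT0 : 0 < T := by positivity
  set C1 : ℝ := Real.exp (2 * c0) * Real.exp 1 with hC1
  have hC10 : 0 < C1 := by positivity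
  set L9 : ℝ := - Real.log (9 / 10) with hL9
  have hL90 : 0 < L9 := by
    rw [hL9]
    have := Real.log_neg (by norm_num : (0:ℝ) < 9 / 10) (by norm_num)
    linarith
  have hexp2 : 1 ≤ Real.exp (2 * c0) := Real.one_le_exp (by positivity)
  refine ⟨1 / R, L9 / T, max (Real.exp (2 * c0) * (10 / 9)) (10 * C1), 2 * (Kn : ℤ) * ℓ ^ 2 + 2,
    by positivity, by positivity, ?_, ?_⟩
  · refine le_trans ?_ (le_max_left _ _)
    linarith
  intro a b hN z hz
  have hKn : 0 ≤ 2 * (Kn : ℤ) * ℓ ^ 2 := by positivity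
  have hab : a + 2 ≤ b := by linarith
  have hN' : 2 * (Kn : ℤ) * ℓ ^ 2 ≤ b - a + 1 := by linarith
  set G := kG q h0.le h1.le (Icc a b) (ktor a b) with hG
  set θ : ℝ := 1 / R with hθ
  have hθ0 : 0 < θ := by positivity
  have hθR : θ * R = 1 := by rw [hθ]; field_simp
  have hθ4 : θ ≤ 1 / 4 := by
    rw [hθ]
    exact one_div_le_one_div_of_le (by norm_num) hR4
  have hcl := Cl_closed h0 h1 a b (ktor a b) (adm_tor a b hab)
  have hdr : ∀ S ∈ Cl a b, G.P T (Vt a b z θ) S ≤ 9 / 10 * Vt a b z θ S + C1 := by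
    intro S hS
    exact Vt_drift h0 h1 c0 Kn hc0 δ ε hδ hε ℓ h2ℓ hp a b hab hN' z hz S hS
  have hbd : Bd (Vt a b z θ) := Vt_bd a b z θ hθ0.le
  have hbds : ∀ (c : ℝ) (F : Finset ℤ → ℝ), Bd F → Bd (fun T' => c * F T') := by
    rintro c F ⟨M, hM⟩
    refine ⟨|c| * M, fun x => ?_⟩
    rw [abs_mul]
    exact mul_le_mul_of_nonneg_left (hM x) (abs_nonneg _)
  have hbda : ∀ (F H : Finset ℤ → ℝ), Bd F → Bd H → Bd (fun T' => F T' + H T') := by
    rintro F H ⟨M, hM⟩ ⟨M', hM'⟩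
    exact ⟨M + M', fun x => (abs_add_le _ _).trans (add_le_add (hM x) (hM' x))⟩
  have hbdc : ∀ (c : ℝ), Bd (fun _ : Finset ℤ => c) := fun c => ⟨|c|, fun _ => le_refl _⟩
  have haff : ∀ (c e t : ℝ) (S : Finset ℤ), G.P t (fun T' => c * Vt a b z θ T' + e) S =
      c * G.P t (Vt a b z θ) S + e := by
    intro c e t S
    have c1 := G.P_add (fun T' => c * Vt a b z θ T') (fun _ => e) (hbds c _ hbd) (hbdc e) t S
    have c2 := G.P_smul c (Vt a b z θ) hbd t S
    have c3 := G.P_const e t S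
    rw [c1, c2, c3]
  have hbaff : ∀ (c e : ℝ), Bd (fun T' => c * Vt a b z θ T' + e) := fun c e =>
    hbda _ _ (hbds c _ hbd) (hbdc e)
  have hiter : ∀ k : ℕ, ∀ S ∈ Cl a b, G.P (k * T) (Vt a b z θ) S ≤
      (9 / 10 : ℝ) ^ k * Vt a b z θ S + 10 * C1 := by
    intro k
    induction k with
    | zero =>
      intro S hS
      simp only [Nat.cast_zero, zero_mul, pow_zero, one_mul]
      rw [G.P_zero]
      linarith
    | succ k ih =>
      intro S hS
      have e1 : ((k + 1 : ℕ) : ℝ) * T = k * T + T := by push_cast; ring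
      rw [e1, G.P_semigroup _ hbd]
      have m1 := G.P_mono_on (Cl a b) hcl (G.P T (Vt a b z θ))
        (fun T' => 9 / 10 * Vt a b z θ T' + C1) (G.P_bd _ hbd T) (hbaff _ _) hdr (k * T)
        (by positivity) S hS
      rw [haff] at m1
      have m2 := ih S hS
      calc _ ≤ _ := m1
        _ ≤ 9 / 10 * ((9 / 10 : ℝ) ^ k * Vt a b z θ S + 10 * C1) + C1 := by linarith
        _ = _ := by ring
  refine ⟨Vt a b z θ, Vt_loc a b z θ, Vt_nonneg a b z θ, ?_⟩
  intro S hS hne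
  have hSC : S ∈ Cl a b := ⟨hS, hne⟩
  obtain ⟨x0, hx0, hx0V⟩ := Vt_att a b z S hS hne
  have hCge : 1 ≤ max (Real.exp (2 * c0) * (10 / 9)) (10 * C1) := by
    refine le_trans ?_ (le_max_left _ _)
    linarith
  refine ⟨?_, ?_, ?_⟩
  · intro x hx
    refine (Vt_le a b z θ hθ0.le S hS x hx).trans ?_
    show Real.exp (θ * (dT a b z x : ℝ)) ≤ _ * Real.exp (θ * (dT a b z x : ℝ))
    exact le_mul_of_one_le_left (Real.exp_pos _).le hCge
  · refine ⟨x0, hx0, ?_⟩
    show Real.exp (θ * (dT a b z x0 : ℝ)) ≤ _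
    rw [hx0V]
    exact le_mul_of_one_le_left (Real.exp_pos _).le hCge
  · intro t ht
    show G.P t (Vt a b z θ) S ≤ _
    set k : ℕ := ⌊t / T⌋₊ with hk
    have hk1 : (k : ℝ) ≤ t / T := Nat.floor_le (by positivity)
    have hk2 : t / T < k + 1 := Nat.lt_floor_add_one _
    have hk1' : (k : ℝ) * T ≤ t := by
      rwa [le_div_iff₀ hT0] at hk1
    have hk2' : t < (k + 1) * T := by
      rwa [div_lt_iff₀ hT0] at hk2
    set s' : ℝ := t - k * T with hs'
    have hs0 : 0 ≤ s' := by linarith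
    have hsT : s' ≤ T := by
      have : (k + 1 : ℝ) * T = k * T + T := by ring
      linarith
    have ets : t = s' + k * T := by rw [hs']; ring
    have e1 : Real.exp θ - 1 ≤ 2 * θ := by
      have := Real.abs_exp_sub_one_le (x := θ) (by rw [abs_of_pos hθ0]; linarith)
      rw [abs_of_pos hθ0] at this
      exact (le_abs_self _).trans this
    have hexp0 : 0 ≤ Real.exp θ - 1 := by
      have := Real.one_le_exp hθ0.le
      linarith
    have hPV : G.P s' (Vt a b z θ) S ≤ Real.exp (2 * c0) * Vt a b z θ S := by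
      refine (Vt_lyap h0 h1 a b hab z hz θ hθ0.le s' hs0 S hS).trans ?_
      apply mul_le_mul_of_nonneg_right _ (Vt_nonneg _ _ _ _ _)
      apply Real.exp_le_exp.2
      calc (Real.exp θ - 1) * s' ≤ (Real.exp θ - 1) * T := mul_le_mul_of_nonneg_left hsT hexp0
        _ ≤ (2 * θ) * T := mul_le_mul_of_nonneg_right e1 hT0.le
        _ = 2 * c0 * (θ * R) := by rw [hT]; ring
        _ = 2 * c0 := by rw [hθR, mul_one]
    have hstep : G.P t (Vt a b z θ) S ≤ (9 / 10 : ℝ) ^ k * G.P s' (Vt a b z θ) S + 10 * C1 := by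
      conv_lhs => rw [ets]
      rw [G.P_semigroup _ hbd]
      have m1 := G.P_mono_on (Cl a b) hcl (G.P (k * T) (Vt a b z θ))
        (fun T' => (9 / 10 : ℝ) ^ k * Vt a b z θ T' + 10 * C1) (G.P_bd _ hbd _) (hbaff _ _)
        (hiter k) s' hs0 S hSC
      rw [haff] at m1
      exact m1
    have hpow : (9 / 10 : ℝ) ^ k ≤ (10 / 9) * Real.exp (-(L9 / T * t)) := by
      have h9 : (9 / 10 : ℝ) = Real.exp (-L9) := by
        rw [hL9, neg_neg, Real.exp_log (by norm_num)]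
      have h10 : (10 / 9 : ℝ) = Real.exp L9 := by
        rw [hL9, Real.exp_neg, Real.exp_log (by norm_num)]
        norm_num
      rw [h9, h10, ← Real.exp_nat_mul, ← Real.exp_add]
      apply Real.exp_le_exp.2
      have : L9 / T * t = L9 * (t / T) := by ring
      rw [this]
      nlinarith
    have hVS : 0 ≤ Vt a b z θ S := Vt_nonneg _ _ _ _ _
    calc G.P t (Vt a b z θ) S ≤ (9 / 10 : ℝ) ^ k * G.P s' (Vt a b z θ) S + 10 * C1 := hstep
      _ ≤ (9 / 10 : ℝ) ^ k * (Real.exp (2 * c0) * Vt a b z θ S) + 10 * C1 := by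
        have := mul_le_mul_of_nonneg_left hPV (by positivity : (0:ℝ) ≤ (9 / 10 : ℝ) ^ k)
        linarith
      _ ≤ ((10 / 9) * Real.exp (-(L9 / T * t))) * (Real.exp (2 * c0) * Vt a b z θ S) + 10 * C1 := by
        have := mul_le_mul_of_nonneg_right hpow
          (by positivity : (0:ℝ) ≤ Real.exp (2 * c0) * Vt a b z θ S)
        linarith
      _ = (Real.exp (2 * c0) * (10 / 9)) * (Real.exp (-(L9 / T * t)) * Vt a b z θ S) + 10 * C1 := by
        ring
      _ ≤ max (Real.exp (2 * c0) * (10 / 9)) (10 * C1) * (Real.exp (-(L9 / T * t)) * Vt a b z θ S) +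
          max (Real.exp (2 * c0) * (10 / 9)) (10 * C1) := by
        have h5 := mul_le_mul_of_nonneg_right (le_max_left (Real.exp (2 * c0) * (10 / 9)) (10 * C1))
          (by positivity : (0:ℝ) ≤ Real.exp (-(L9 / T * t)) * Vt a b z θ S)
        have h6 := le_max_right (Real.exp (2 * c0) * (10 / 9)) (10 * C1)
        linarith
      _ = _ := by ring

end FA
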