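import Pool.Agent.Helper870.FADefs
import Pool.Agent.Helper870.FAG1
import Pool.Agent.Helper870.FAS1
import Pool.Agent.Helper870.FAS2
import Pool.Agent.Helper870.FAS3
import Pool.Agent.Helper870.FAS4
import Pool.Agent.Helper870.FAD2
import Pool.Agent.Helper870.FAOSC
import Pool.Agent.Helper870.FAD3
import Pool.Agent.Helper870.FAS10
import Pool.Agent.Helper870.FAD4
import Pool.Agent.Helper870.FAD5
import Pool.Agent.Helper870.FAD8
import Pool.Agent.Helper870.FARB1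
import Pool.Agent.Helper870.FARB3
import Pool.Agent.Helper870.FAD9
import Pool.Agent.Helper870.FAK1
import Pool.Agent.Helper870.FAK1r

set_option autoImplicit false
set_option linter.unusedSectionVars false

open Finset

noncomputable section

-- USES: G1 S1 S2 S3 S4 D2 OSC D3 S10 D4 D5 D8 RB1 RB3 D9 K1 K1r
namespace FA
variable {q : ℝ}

theorem K2_Ne_nonneg (z : ℤ) (r : ℕ) (T : Finset ℤ) : 0 ≤ Ne z r T := by
  unfold Ne; split_ifs <;> norm_num

theorem K2_Ne_le (z : ℤ) (r : ℕ) (T : Finset ℤ) : Ne z r T ≤ 1 := by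
  unfold Ne; split_ifs <;> norm_num

theorem K2_Ne_abs (z : ℤ) (r : ℕ) (T : Finset ℤ) : |Ne z r T| ≤ 1 :=
  abs_le.2 ⟨by linarith [K2_Ne_nonneg z r T], K2_Ne_le z r T⟩

theorem K2_Ne_bd (z : ℤ) (r : ℕ) : Bd (Ne z r) := ⟨1, K2_Ne_abs z r⟩

theorem K2_Ne_zero {z x : ℤ} {r : ℕ} {T : Finset ℤ} (hx : x ∈ T) (h1 : z - r ≤ x) (h2 : x ≤ z + r) :
    Ne z r T = 0 := by
  unfold Ne
  rw [if_neg]
  intro h
  have : x ∈ T ∩ Icc (z - r) (z + r) := Finset.mem_inter.2 ⟨hx, Finset.mem_Icc.2 ⟨h1, h2⟩⟩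
  rw [h] at this
  simp at this

theorem K2_Ne_cases (z : ℤ) (r : ℕ) (T : Finset ℤ) :
    (Ne z r T = 0 ∧ ∃ x ∈ T, z - r ≤ x ∧ x ≤ z + r) ∨ (Ne z r T = 1 ∧ ∀ x ∈ T, ¬ (z - r ≤ x ∧ x ≤ z + r)) := by
  unfold Ne
  by_cases h : T ∩ Icc (z - r) (z + r) = ∅
  · right
    rw [if_pos h]
    refine ⟨rfl, ?_⟩
    intro x hx hxx
    have : x ∈ T ∩ Icc (z - r) (z + r) := Finset.mem_inter.2 ⟨hx, Finset.mem_Icc.2 hxx⟩
    rw [h] at this
    simp at this
  · left
    rw [if_neg h]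
    refine ⟨rfl, ?_⟩
    obtain ⟨x, hx⟩ := Finset.nonempty_iff_ne_empty.2 h
    rw [Finset.mem_inter, Finset.mem_Icc] at hx
    exact ⟨x, hx.1, hx.2⟩

theorem K2_Ne_loc (z : ℤ) (r : ℕ) (T : Finset ℤ) : Ne z r T = Ne z r (T ∩ Icc (z - r) (z + r)) := by
  unfold Ne
  rw [Finset.inter_assoc, Finset.inter_self]

theorem K2_V_bd (V : Finset ℤ → ℝ) (a b : ℤ) (hV : ∀ S, V S = V (S ∩ Icc a b)) : Bd V := by
  refine ⟨∑ U ∈ (Icc a b).powerset, |V U|, ?_⟩
  intro S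
  rw [hV S]
  exact Finset.single_le_sum (f := fun U => |V U|) (fun U _ => abs_nonneg _)
    (Finset.mem_powerset.2 Finset.inter_subset_right)

theorem K2_tor_closed (h0 : 0 < q) (h1 : q < 1) (a b : ℤ) (hab : a + 2 ≤ b) :
    ∀ i ∈ (kG q h0.le h1.le (Icc a b) (ktor a b)).I,
      ∀ x ∈ {S : Finset ℤ | S ⊆ Icc a b ∧ S.Nonempty},
        (kG q h0.le h1.le (Icc a b) (ktor a b)).r i x ≠ 0 →
        (kG q h0.le h1.le (Icc a b) (ktor a b)).T i x ∈ {S : Finset ℤ | S ⊆ Icc a b ∧ S.Nonempty} := by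
  rintro ⟨y, e⟩ hi T ⟨hT1, hT2⟩ hr
  have hy : y ∈ Icc a b := by
    have := (Finset.mem_product.1 hi).1
    exact this
  have hk : ktor a b y T = true := by
    by_contra hk
    apply hr
    show kv (ktor a b) y T * _ = 0
    unfold kv
    rw [if_neg hk, zero_mul]
  obtain ⟨w, hw1, hw2, hw3⟩ := (adm_tor a b hab).ne y hy T hk
  cases e with
  | true =>
    show insert y T ∈ {S : Finset ℤ | S ⊆ Icc a b ∧ S.Nonempty}
    refine ⟨?_, Finset.insert_nonempty _ _⟩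
    exact Finset.insert_subset hy hT1
  | false =>
    show T.erase y ∈ {S : Finset ℤ | S ⊆ Icc a b ∧ S.Nonempty}
    refine ⟨(Finset.erase_subset _ _).trans hT1, ⟨w, Finset.mem_erase.2 ⟨hw2, hw3⟩⟩⟩

theorem K2_w_closed (h0 : 0 < q) (h1 : q < 1) (hL hR : Bool) (a b : ℤ) :
    ∀ i ∈ (wG q h0 h1 hL hR a b).I, ∀ x ∈ {S : Finset ℤ | S ⊆ Icc a b},
        (wG q h0 h1 hL hR a b).r i x ≠ 0 →
        (wG q h0 h1 hL hR a b).T i x ∈ {S : Finset ℤ | S ⊆ Icc a b} := by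
  rintro ⟨y, e⟩ hi T hT1 hr
  have hy : y ∈ Icc a b := by
    have := (Finset.mem_product.1 hi).1
    exact this
  cases e with
  | true =>
    show insert y T ⊆ Icc a b
    exact Finset.insert_subset hy hT1
  | false =>
    show T.erase y ⊆ Icc a b
    exact (Finset.erase_subset _ _).trans hT1

theorem K2_torus (h0 : 0 < q) (h1 : q < 1) (θ cp Cp : ℝ) (N0 : ℤ) (hθ : 0 < θ)
    (hCp : 1 ≤ Cp) (hp : PersS sysTor q h0 h1 θ cp Cp N0) (a b : ℤ) (r : ℕ) (z : ℤ)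
    (hza : a + r ≤ z) (hzb : z + r ≤ b) (hab : a + 2 ≤ b) (hN : N0 ≤ b - a)
    (S : Finset ℤ) (hS : S ⊆ Icc a b) (ρ : ℝ)
    (hx : ∃ x ∈ S, ((|x - z| : ℤ) : ℝ) ≤ ρ) (t : ℝ) (ht0 : 0 ≤ t) :
    (kG q h0.le h1.le (Icc a b) (ktor a b)).P t (Ne z r) S ≤
      Cp * Real.exp (-(θ * r)) * (Cp * Real.exp (-(cp * t)) * (Cp * Real.exp (θ * ρ)) + Cp) := by
  have hr0 : (0:ℤ) ≤ r := Int.natCast_nonneg r
  have hz : z ∈ Icc a b := Finset.mem_Icc.2 ⟨by linarith, by linarith⟩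
  obtain ⟨V, hVloc, hV0, hV⟩ := hp a b hN z hz
  have hVb : Bd V := K2_V_bd V a b hVloc
  have hpt : ∀ T ∈ {S : Finset ℤ | S ⊆ Icc a b ∧ S.Nonempty},
      Ne z r T ≤ (Cp * Real.exp (-(θ * r))) * V T := by
    rintro T ⟨hT1, hT2⟩
    rcases K2_Ne_cases z r T with ⟨h, -⟩ | ⟨h, hno⟩
    · rw [h]
      have := hV0 T
      positivity
    · rw [h]
      obtain ⟨-, ⟨x, hxT, hxV⟩, -⟩ := hV T hT1 hT2
      have hx1 := hno x hxT
      have hxI := hT1 hxT
      have hD : r ≤ sysTor.D a b z x := by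
        apply sysTor.D2 a b z x r hz hxI (by linarith) (by linarith)
        by_contra hlt
        push Not at hlt
        have h3 := abs_lt.1 hlt
        apply hx1
        constructor <;> linarith
      have hD' : (r : ℝ) ≤ (sysTor.D a b z x : ℝ) := by exact_mod_cast hD
      have h4 : Real.exp (θ * r) ≤ Cp * V T := by
        refine le_trans ?_ hxV
        apply Real.exp_le_exp.2
        exact mul_le_mul_of_nonneg_left hD' hθ.le
      have h5 : Real.exp (-(θ * r)) * Real.exp (θ * r) = 1 := by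
        rw [← Real.exp_add]; simp
      have h6 : 0 < Real.exp (-(θ * r)) := Real.exp_pos _
      calc (1:ℝ) = Real.exp (-(θ * r)) * Real.exp (θ * r) := h5.symm
        _ ≤ Real.exp (-(θ * r)) * (Cp * V T) := mul_le_mul_of_nonneg_left h4 h6.le
        _ = _ := by ring
  obtain ⟨x, hxS, hxz⟩ := hx
  have hSne : S.Nonempty := ⟨x, hxS⟩
  obtain ⟨hV1, -, hV3⟩ := hV S hS hSne
  have hVS : V S ≤ Cp * Real.exp (θ * ρ) := by
    refine (hV1 x hxS).trans ?_
    apply mul_le_mul_of_nonneg_left _ (by linarith)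
    apply Real.exp_le_exp.2
    apply mul_le_mul_of_nonneg_left _ hθ.le
    have h7 := sysTor.D1 a b z x hz (hS hxS)
    have h8 : ((sysTor.D a b z x : ℕ) : ℝ) ≤ ((|z - x| : ℤ) : ℝ) := by exact_mod_cast h7
    rw [abs_sub_comm] at h8
    exact h8.trans hxz
  have hc := Real.exp_pos (-(θ * r))
  have hBd2 : Bd (fun T => (Cp * Real.exp (-(θ * r))) * V T) := by
    obtain ⟨M, hM⟩ := hVb
    refine ⟨(Cp * Real.exp (-(θ * r))) * M, ?_⟩
    intro T
    rw [abs_mul, abs_of_pos (by positivity : (0:ℝ) < Cp * Real.exp (-(θ * r)))]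
    exact mul_le_mul_of_nonneg_left (hM T) (by positivity)
  calc (kG q h0.le h1.le (Icc a b) (ktor a b)).P t (Ne z r) S
      ≤ (kG q h0.le h1.le (Icc a b) (ktor a b)).P t (fun T => (Cp * Real.exp (-(θ * r))) * V T) S :=
        MG.P_mono_on _ _ (K2_tor_closed h0 h1 a b hab) _ _ (K2_Ne_bd z r) hBd2 hpt t ht0 S ⟨hS, hSne⟩
    _ = (Cp * Real.exp (-(θ * r))) * (kG q h0.le h1.le (Icc a b) (ktor a b)).P t V S :=
        MG.P_smul _ _ _ hVb _ _
    _ ≤ (Cp * Real.exp (-(θ * r))) * (Cp * Real.exp (-(cp * t)) * V S + Cp) :=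
        mul_le_mul_of_nonneg_left (hV3 t ht0) (by positivity)
    _ ≤ _ := by
        apply mul_le_mul_of_nonneg_left _ (by positivity)
        have : Cp * Real.exp (-(cp * t)) * V S ≤ Cp * Real.exp (-(cp * t)) * (Cp * Real.exp (θ * ρ)) :=
          mul_le_mul_of_nonneg_left hVS (by positivity)
        linarith

theorem K2_aux (h0 : 0 < q) (h1 : q < 1) (θ cp Cp : ℝ) (N0 : ℤ) (hθ : 0 < θ)
    (hCp : 1 ≤ Cp) (hp : PersS sysTor q h0 h1 θ cp Cp N0) (hL hR : Bool) (a b : ℤ) (R r : ℕ)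
    (hR1 : 1 ≤ R) (hr : r ≤ 2 * R) (z : ℤ)
    (hza : a + 4 * R ≤ z) (hzb : z + 4 * R ≤ b) (hN : N0 ≤ b - a)
    (S : Finset ℤ) (hS : S ⊆ Icc a b) (ρ : ℝ)
    (hx : ∃ x ∈ S, ((|x - z| : ℤ) : ℝ) ≤ ρ) (t : ℝ) (ht0 : 0 ≤ t) (ht : t ≤ R / 16) :
    (wG q h0 h1 hL hR a b).P t (Ne z r) S ≤ Real.exp (-(1 / 2 * R)) +
      Cp * Real.exp (-(θ * r)) * (Cp * Real.exp (-(cp * t)) * (Cp * Real.exp (θ * ρ)) + Cp) := by
  have hR1' : (1:ℤ) ≤ R := by exact_mod_cast hR1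
  have hr' : (r:ℤ) ≤ 2 * R := by exact_mod_cast hr
  have hr0 : (0:ℤ) ≤ r := Int.natCast_nonneg r
  have hab : a + 2 ≤ b := by linarith
  have h1' := K2_torus h0 h1 θ cp Cp N0 hθ hCp hp a b r z (by linarith) (by linarith) hab hN S hS ρ hx t ht0
  have h2 := fs_compare h0.le h1.le a b a b le_rfl le_rfl (kw hL hR a b) (ktor a b)
    (kw_adm0 hL hR a b) (adm_tor a b hab).toAdm0 (z - r) (z + r) (2 * R) (by push_cast; linarith)
    (by linarith) (by push_cast; linarith) (Ne z r) (K2_Ne_loc z r) 1 (K2_Ne_abs z r) t ht0 S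
  have h3 := (abs_le.1 h2).2
  have hRr : (1:ℝ) ≤ R := by exact_mod_cast hR1
  have h4 : 4 * 1 * t * Real.exp (6 * t - (2 * R : ℕ)) ≤ Real.exp (-(1 / 2 * R)) := by
    push_cast
    have e1 : Real.exp (6 * t - 2 * R) ≤ Real.exp (-(13 / 8 * R)) := by
      apply Real.exp_le_exp.2; linarith
    have e2 : (R : ℝ) ≤ Real.exp R := by linarith [Real.add_one_le_exp (R : ℝ)]
    have e3 : 4 * 1 * t ≤ Real.exp R := by linarith
    calc 4 * 1 * t * Real.exp (6 * t - 2 * R) ≤ Real.exp R * Real.exp (-(13 / 8 * R)) :=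
          mul_le_mul e3 e1 (Real.exp_pos _).le (Real.exp_pos _).le
      _ = Real.exp (-(5 / 8 * R)) := by rw [← Real.exp_add]; congr 1; ring
      _ ≤ _ := by apply Real.exp_le_exp.2; linarith
  show (kG q h0.le h1.le (Icc a b) (kw hL hR a b)).P t (Ne z r) S ≤ _
  linarith

/-- one short time step in the bulk -/
theorem bulk1 (h0 : 0 < q) (h1 : q < 1) : ∃ κ c C : ℝ, 0 < κ ∧ κ ≤ 1 / 2 ∧ 0 < c ∧ 1 ≤ C ∧
    ∀ (hL hR : Bool) (a b : ℤ) (R : ℕ), 1 ≤ R → ∀ z : ℤ, a + 4 * R ≤ z → z + 4 * R ≤ b →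
    ∀ S, S ⊆ Icc a b → (∃ x ∈ S, ((|x - z| : ℤ) : ℝ) ≤ (1 + κ) * R) →
      (wG q h0 h1 hL hR a b).P (R / 16) (Ne z R) S ≤ C * Real.exp (-(c * R)) ∧
      ∀ t : ℝ, 0 ≤ t → t ≤ R / 16 →
        (wG q h0 h1 hL hR a b).P t (Ne z (2 * R)) S ≤ C * Real.exp (-(c * R)) := by
  obtain ⟨θ, cp, Cp, N0, hθ, hcp, hCp, hp⟩ := pers_tor (q := q) h0 h1
  obtain ⟨κ, hκ0, hκ1, hκ2⟩ : ∃ κ : ℝ, 0 < κ ∧ κ ≤ 1 / 2 ∧ θ * κ ≤ cp / 32 := by
    refine ⟨min (1 / 2) (cp / (32 * θ)), ?_, min_le_left _ _, ?_⟩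
    · apply lt_min <;> positivity
    · calc θ * min (1 / 2) (cp / (32 * θ)) ≤ θ * (cp / (32 * θ)) :=
            mul_le_mul_of_nonneg_left (min_le_right _ _) hθ.le
        _ = cp / 32 := by field_simp
  obtain ⟨c, hc0, hc1, hc2, hc3⟩ : ∃ c : ℝ, 0 < c ∧ c ≤ 1 / 2 ∧ c ≤ θ / 2 ∧ c ≤ cp / 32 := by
    refine ⟨min (1 / 2) (min (θ / 2) (cp / 32)), ?_, min_le_left _ _, ?_, ?_⟩
    · apply lt_min _ (lt_min _ _) <;> positivity
    · exact (min_le_right _ _).trans (min_le_left _ _)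
    · exact (min_le_right _ _).trans (min_le_right _ _)
  have hN00 : (0:ℝ) ≤ |(N0 : ℝ)| := abs_nonneg _
  have hCp3 : 1 ≤ Cp ^ 3 := one_le_pow₀ hCp
  have hCp2 : Cp ^ 2 ≤ Cp ^ 3 := pow_le_pow_right₀ hCp (by norm_num)
  refine ⟨κ, c, 3 * Cp ^ 3 + Real.exp (c * |(N0 : ℝ)|), hκ0, hκ1, hc0, ?_, ?_⟩
  · have := Real.exp_pos (c * |(N0 : ℝ)|)
    linarith
  intro hL hR a b R hR1 z hza hzb S hS hx
  have hRr : (1:ℝ) ≤ R := by exact_mod_cast hR1
  have hR1' : (1:ℤ) ≤ R := by exact_mod_cast hR1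
  have hexpc : 0 < Real.exp (-(c * R)) := Real.exp_pos _
  by_cases hN : N0 ≤ b - a
  · have hhalf : Real.exp (-(1 / 2 * (R:ℝ))) ≤ Real.exp (-(c * R)) := by
      apply Real.exp_le_exp.2
      nlinarith
    have fin : ∀ x1 x2 : ℝ, x1 ≤ Cp ^ 3 * Real.exp (-(c * R)) → x2 ≤ Cp ^ 2 * Real.exp (-(c * R)) →
        Real.exp (-(1 / 2 * (R:ℝ))) + (x1 + x2) ≤
          (3 * Cp ^ 3 + Real.exp (c * |(N0 : ℝ)|)) * Real.exp (-(c * R)) := by
      intro x1 x2 hx1 hx2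
      have e1 : Cp ^ 2 * Real.exp (-(c * R)) ≤ Cp ^ 3 * Real.exp (-(c * R)) :=
        mul_le_mul_of_nonneg_right hCp2 hexpc.le
      have e2 : 1 * Real.exp (-(c * R)) ≤ Cp ^ 3 * Real.exp (-(c * R)) :=
        mul_le_mul_of_nonneg_right hCp3 hexpc.le
      have e3 : 0 < Real.exp (c * |(N0 : ℝ)|) * Real.exp (-(c * R)) := by positivity
      linarith
    refine ⟨?_, ?_⟩
    · refine (K2_aux h0 h1 θ cp Cp N0 hθ hCp hp hL hR a b R R hR1 (by omega) z hza hzb hN S hS _ hx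
        (R / 16) (by positivity) le_rfl).trans ?_
      have e : Cp * Real.exp (-(θ * R)) * (Cp * Real.exp (-(cp * (R / 16))) *
          (Cp * Real.exp (θ * ((1 + κ) * R))) + Cp) =
          Cp ^ 3 * Real.exp (-(θ * R) + -(cp * (R / 16)) + θ * ((1 + κ) * R)) +
          Cp ^ 2 * Real.exp (-(θ * R)) := by
        rw [Real.exp_add, Real.exp_add]; ring
      rw [e]
      apply fin
      · apply mul_le_mul_of_nonneg_left _ (by positivity)
        apply Real.exp_le_exp.2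
        nlinarith
      · apply mul_le_mul_of_nonneg_left _ (by positivity)
        apply Real.exp_le_exp.2
        nlinarith
    · intro t ht0 ht
      refine (K2_aux h0 h1 θ cp Cp N0 hθ hCp hp hL hR a b R (2 * R) hR1 le_rfl z hza hzb hN S hS _ hx
        t ht0 ht).trans ?_
      have e : Cp * Real.exp (-(θ * (2 * R : ℕ))) * (Cp * Real.exp (-(cp * t)) *
          (Cp * Real.exp (θ * ((1 + κ) * R))) + Cp) =
          Cp ^ 3 * Real.exp (-(θ * (2 * R : ℕ)) + -(cp * t) + θ * ((1 + κ) * R)) +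
          Cp ^ 2 * Real.exp (-(θ * (2 * R : ℕ))) := by
        rw [Real.exp_add, Real.exp_add]; ring
      rw [e]
      push_cast
      have hct : 0 ≤ cp * t := by positivity
      have hkk : κ * R ≤ 1 / 2 * R := mul_le_mul_of_nonneg_right hκ1 (by linarith)
      have hkk2 : θ * (κ * R) ≤ θ * (1 / 2 * R) := mul_le_mul_of_nonneg_left hkk hθ.le
      have hcc : c * R ≤ θ / 2 * R := mul_le_mul_of_nonneg_right hc2 (by linarith)
      have hθR : 0 < θ * R := by positivity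
      apply fin
      · apply mul_le_mul_of_nonneg_left _ (by positivity)
        apply Real.exp_le_exp.2
        nlinarith
      · apply mul_le_mul_of_nonneg_left _ (by positivity)
        apply Real.exp_le_exp.2
        nlinarith
  · push Not at hN
    have hRN : (R:ℝ) ≤ |(N0:ℝ)| := by
      have e1 : (R:ℤ) ≤ N0 := by linarith
      have e2 : (R:ℝ) ≤ (N0:ℝ) := by exact_mod_cast e1
      exact e2.trans (le_abs_self _)
    have hbig : 1 ≤ (3 * Cp ^ 3 + Real.exp (c * |(N0 : ℝ)|)) * Real.exp (-(c * R)) := by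
      have e1 : (1:ℝ) ≤ Real.exp (c * |(N0 : ℝ)|) * Real.exp (-(c * R)) := by
        rw [← Real.exp_add]
        apply Real.one_le_exp
        nlinarith
      have e2 : 0 < 3 * Cp ^ 3 * Real.exp (-(c * R)) := by positivity
      linarith
    refine ⟨?_, ?_⟩
    · exact ((abs_le.1 (MG.P_bound _ _ 1 (K2_Ne_abs z R) (R / 16) (by positivity) S)).2).trans hbig
    · intro t ht0 ht
      exact ((abs_le.1 (MG.P_bound _ _ 1 (K2_Ne_abs z (2 * R)) t ht0 S)).2).trans hbig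

/-- persistence and linear spread of the infection in the bulk -/
theorem bulk (h0 : 0 < q) (h1 : q < 1) : ∃ κ c C : ℝ, 0 < κ ∧ 0 < c ∧ 1 ≤ C ∧
    ∀ (hL hR : Bool) (a b : ℤ) (R : ℕ), 1 ≤ R → ∀ (J : ℕ) (S : Finset ℤ), S ⊆ Icc a b → ∀ x ∈ S, ∀ z : ℤ,
      a + 4 * R + 1 ≤ x → x + 4 * R + 1 ≤ b → a + 4 * R + 1 ≤ z → z + 4 * R + 1 ≤ b →
      ∀ t : ℝ, 0 ≤ t → 16 * t ≤ J * R → ((|z - x| : ℤ) : ℝ) ≤ κ * t →
        (wG q h0 h1 hL hR a b).P t (Ne z (2 * R)) S ≤ C * (J + 1) * Real.exp (-(c * R)) := by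
  obtain ⟨κ, c, C, hκ0, hκ1, hc, hC, hb⟩ := bulk1 (q := q) h0 h1
  refine ⟨κ, c, C + Real.exp (c * (2 / κ)), hκ0, hc, ?_, ?_⟩
  · have := Real.exp_pos (c * (2 / κ))
    linarith
  intro hL hR a b R hR1 J S hS x hxS z hxa hxb hza hzb t ht0 htJ hzx
  have hRr : (1:ℝ) ≤ R := by exact_mod_cast hR1
  have hexpc : 0 < Real.exp (-(c * R)) := Real.exp_pos _
  have hJ0 : (0:ℝ) ≤ J := Nat.cast_nonneg J
  by_cases hsmall : κ * R < 2
  · have e0 : (R:ℝ) ≤ 2 / κ := by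
      rw [le_div_iff₀ hκ0]; linarith
    have hbig : 1 ≤ (C + Real.exp (c * (2 / κ))) * (J + 1) * Real.exp (-(c * R)) := by
      have e1 : (1:ℝ) ≤ Real.exp (c * (2 / κ)) * Real.exp (-(c * R)) := by
        rw [← Real.exp_add]
        apply Real.one_le_exp
        nlinarith
      have e2 : 0 ≤ C * (J + 1) * Real.exp (-(c * R)) := by positivity
      have e3 : 0 ≤ Real.exp (c * (2 / κ)) * J * Real.exp (-(c * R)) := by positivity
      nlinarith
    exact ((abs_le.1 (MG.P_bound _ _ 1 (K2_Ne_abs z (2 * R)) t ht0 S)).2).trans hbig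
  push Not at hsmall
  obtain ⟨m, hm1, hm2⟩ : ∃ m : ℕ, (m : ℝ) ≤ κ * R ∧ κ * R / 2 ≤ m := by
    refine ⟨⌊κ * R⌋₊, Nat.floor_le (by positivity), ?_⟩
    have := Nat.lt_floor_add_one (κ * R)
    linarith
  have hG : ∀ (s : ℝ) (F : Finset ℤ → ℝ), Bd F → Bd ((wG q h0 h1 hL hR a b).P s F) :=
    fun s F hF => MG.P_bd _ F hF s
  have hstep : ∀ (s u : ℝ) (F : Finset ℤ → ℝ) (z' : ℤ) (B : ℝ), 0 ≤ s → 0 ≤ u → 0 ≤ B →
      (∀ T, F T ≤ 1) → Bd F →
      (∀ T ⊆ Icc a b, (∃ y ∈ T, z' - R ≤ y ∧ y ≤ z' + R) → (wG q h0 h1 hL hR a b).P u F T ≤ B) →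
      (wG q h0 h1 hL hR a b).P (s + u) F S ≤ B + (wG q h0 h1 hL hR a b).P s (Ne z' R) S := by
    intro s u F z' B hs hu hB hF1 hFb hF
    rw [MG.P_semigroup _ F hFb]
    have hBd : Bd (fun T => B + Ne z' R T) := by
      refine ⟨B + 1, ?_⟩
      intro T
      rw [abs_of_nonneg (by linarith [K2_Ne_nonneg z' R T])]
      linarith [K2_Ne_le z' R T]
    have hBdB : Bd (fun _ : Finset ℤ => B) := ⟨|B|, fun _ => le_rfl⟩
    calc (wG q h0 h1 hL hR a b).P s ((wG q h0 h1 hL hR a b).P u F) S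
        ≤ (wG q h0 h1 hL hR a b).P s (fun T => B + Ne z' R T) S := by
          apply MG.P_mono_on _ _ (K2_w_closed h0 h1 hL hR a b) _ _ (hG u F hFb) hBd _ s hs S hS
          intro T hT
          rcases K2_Ne_cases z' R T with ⟨h, hy⟩ | ⟨h, hno⟩
          · show (wG q h0 h1 hL hR a b).P u F T ≤ B + Ne z' R T
            rw [h, add_zero]
            exact hF T hT hy
          · show (wG q h0 h1 hL hR a b).P u F T ≤ B + Ne z' R T
            rw [h]
            have e1 : (wG q h0 h1 hL hR a b).P u F T ≤ (wG q h0 h1 hL hR a b).P u (fun _ => 1) T :=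
              MG.P_mono _ _ _ hFb ⟨1, fun _ => by simp⟩ hF1 u hu T
            rw [MG.P_const] at e1
            linarith
      _ = (wG q h0 h1 hL hR a b).P s (fun _ => B) S + (wG q h0 h1 hL hR a b).P s (Ne z' R) S :=
          MG.P_add _ _ _ hBdB (K2_Ne_bd z' R) _ _
      _ = _ := by rw [MG.P_const]
  have hR0 : (0:ℤ) ≤ R := Int.natCast_nonneg R
  have hm0 : (0:ℤ) ≤ m := Int.natCast_nonneg m
  have hB0 : 0 ≤ C * Real.exp (-(c * R)) := by positivity
  -- iteration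
  have hiter : ∀ (i : ℕ) (z' : ℤ), a + 4 * R + 1 ≤ z' → z' + 4 * R + 1 ≤ b → |z' - x| ≤ R + i * m →
      (wG q h0 h1 hL hR a b).P (i * ((R:ℝ) / 16)) (Ne z' R) S ≤ i * (C * Real.exp (-(c * R))) := by
    intro i
    induction i with
    | zero =>
      intro z' _ _ hz'
      have e1 : |z' - x| ≤ R := by simpa using hz'
      have e2 := abs_le.1 e1
      simp only [Nat.cast_zero, zero_mul]
      rw [MG.P_zero, K2_Ne_zero hxS (by linarith) (by linarith)]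
    | succ i ih =>
      intro z' hz1 hz2 hz'
      obtain ⟨z'', hz3, hz4, hz5, hz6⟩ : ∃ z'' : ℤ, a + 4 * R + 1 ≤ z'' ∧ z'' + 4 * R + 1 ≤ b ∧
          |z'' - x| ≤ R + i * m ∧ |z'' - z'| ≤ m := by
        have him : (0:ℤ) ≤ i * m := by positivity
        push_cast at hz'
        have hz'' := abs_le.1 hz'
        by_cases h : |x - z'| ≤ m
        · refine ⟨x, hxa, hxb, ?_, h⟩
          simp only [sub_self, abs_zero]
          linarith
        · push Not at h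
          rcases lt_or_ge z' x with hlt | hge
          · rw [abs_of_pos (by linarith)] at h
            refine ⟨z' + m, by linarith, by linarith, ?_, ?_⟩
            · rw [abs_le]; constructor <;> nlinarith
            · simp
          · rw [abs_sub_comm, abs_of_nonneg (by linarith)] at h
            refine ⟨z' - m, by linarith, by linarith, ?_, ?_⟩
            · rw [abs_le]; constructor <;> nlinarith
            · simp
      have e1 : ((i + 1 : ℕ) : ℝ) * ((R:ℝ) / 16) = i * ((R:ℝ) / 16) + (R:ℝ) / 16 := by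
        push_cast; ring
      rw [e1]
      refine (hstep (i * ((R:ℝ) / 16)) ((R:ℝ) / 16) (Ne z' R) z'' (C * Real.exp (-(c * R)))
        (by positivity) (by positivity) hB0 (K2_Ne_le z' R) (K2_Ne_bd z' R) ?_).trans ?_
      · rintro T hT ⟨y, hyT, hy1, hy2⟩
        refine (hb hL hR a b R hR1 z' (by linarith) (by linarith) T hT ⟨y, hyT, ?_⟩).1
        have e2 : |y - z'| ≤ R + m := by
          have := abs_le.1 hz6
          rw [abs_le]; constructor <;> linarith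
        have e3 : ((|y - z'| : ℤ) : ℝ) ≤ R + m := by exact_mod_cast e2
        linarith
      · have := ih z'' hz3 hz4 hz5
        push_cast
        linarith
  -- decomposition of t
  have hτ : (0:ℝ) < (R:ℝ) / 16 := by positivity
  obtain ⟨j, hj1, hj2⟩ : ∃ j : ℕ, (j:ℝ) * ((R:ℝ) / 16) ≤ t ∧ t ≤ j * ((R:ℝ) / 16) + (R:ℝ) / 16 := by
    refine ⟨⌊t / ((R:ℝ) / 16)⌋₊, ?_, ?_⟩
    · have := Nat.floor_le (a := t / ((R:ℝ) / 16)) (by positivity)
      calc _ ≤ t / ((R:ℝ) / 16) * ((R:ℝ) / 16) := mul_le_mul_of_nonneg_right this hτ.le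
        _ = t := by field_simp
    · have := (Nat.lt_floor_add_one (t / ((R:ℝ) / 16))).le
      calc t = t / ((R:ℝ) / 16) * ((R:ℝ) / 16) := by field_simp
        _ ≤ (⌊t / ((R:ℝ) / 16)⌋₊ + 1) * ((R:ℝ) / 16) := mul_le_mul_of_nonneg_right this hτ.le
        _ = _ := by ring
  have hjJ : (j:ℝ) ≤ J := by
    have e1 : (j:ℝ) * R ≤ J * R := by linarith
    exact le_of_mul_le_mul_right e1 (by linarith)
  have hzx' : |z - x| ≤ R + j * m := by
    have e1 : κ * t ≤ κ * (j * ((R:ℝ) / 16) + (R:ℝ) / 16) := mul_le_mul_of_nonneg_left hj2 hκ0.le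
    have e2 : (j:ℝ) * (κ * R / 2) ≤ j * m := mul_le_mul_of_nonneg_left hm2 (Nat.cast_nonneg j)
    have e3 : (0:ℝ) ≤ j * (κ * R) := by positivity
    have e4 : κ * R ≤ 1 / 2 * R := mul_le_mul_of_nonneg_right hκ1 (by linarith)
    have e5 : ((|z - x| : ℤ) : ℝ) ≤ ((R + j * m : ℤ) : ℝ) := by
      push_cast
      push_cast at hzx
      nlinarith
    exact_mod_cast e5
  have hfin := hstep (j * ((R:ℝ) / 16)) (t - j * ((R:ℝ) / 16)) (Ne z (2 * R)) z (C * Real.exp (-(c * R)))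
    (by positivity) (by linarith) hB0 (K2_Ne_le z (2 * R)) (K2_Ne_bd z (2 * R)) (by
      rintro T hT ⟨y, hyT, hy1, hy2⟩
      refine (hb hL hR a b R hR1 z (by linarith) (by linarith) T hT ⟨y, hyT, ?_⟩).2 _
        (by linarith) (by linarith)
      have e2 : |y - z| ≤ R := by
        rw [abs_le]; constructor <;> linarith
      have e3 : ((|y - z| : ℤ) : ℝ) ≤ R := by exact_mod_cast e2
      nlinarith)
  rw [add_sub_cancel] at hfin
  have hit := hiter j z hza hzb hzx'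
  have hE := Real.exp_pos (c * (2 / κ))
  have f1 : (j:ℝ) * (C * Real.exp (-(c * R))) ≤ J * (C * Real.exp (-(c * R))) :=
    mul_le_mul_of_nonneg_right hjJ hB0
  have f2 : 0 ≤ Real.exp (c * (2 / κ)) * (J + 1) * Real.exp (-(c * R)) := by positivity
  calc (wG q h0 h1 hL hR a b).P t (Ne z (2 * R)) S
      ≤ C * Real.exp (-(c * R)) + J * (C * Real.exp (-(c * R))) := by linarith
    _ ≤ _ := by nlinarith

end FA
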