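import Pool.Agent.Helper870.FADefs
import Pool.Agent.Helper870.FAG1
import Pool.Agent.Helper870.FAS1
import Pool.Agent.Helper870.FAS2
import Pool.Agent.Helper870.FAS3
import Pool.Agent.Helper870.FAS4
import Pool.Agent.Helper870.FAS5
import Pool.Agent.Helper870.FAD2
import Pool.Agent.Helper870.FAOSC
import Pool.Agent.Helper870.FAR1
import Pool.Agent.Helper870.FAD3
import Pool.Agent.Helper870.FAS10
import Pool.Agent.Helper870.FAD4
import Pool.Agent.Helper870.FAD5
import Pool.Agent.Helper870.FAD9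
import Pool.Agent.Helper870.FAK1
import Pool.Agent.Helper870.FAK1r
import Pool.Agent.Helper870.FAK2

set_option autoImplicit false
set_option linter.unusedSectionVars false

open Finset

noncomputable section




namespace FA
variable {q : ℝ}

theorem K3_abs (h0 : 0 ≤ q) (h1 : q ≤ 1) {u v w ε : ℝ} (hu0 : 0 ≤ u) (hu : u ≤ ε) (hv0 : 0 ≤ v)
    (hv : v ≤ ε) (hw0 : 0 ≤ w) (hw : w ≤ ε) : |q * u + (1 - q) * v - w| ≤ ε := by
  have a1 : 0 ≤ q * u := mul_nonneg h0 hu0
  have a2 : 0 ≤ (1 - q) * v := mul_nonneg (by linarith) hv0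
  have a3 : q * u ≤ q * ε := mul_le_mul_of_nonneg_left hu h0
  have a4 : (1 - q) * v ≤ (1 - q) * ε := mul_le_mul_of_nonneg_left hv (by linarith)
  rw [abs_le]
  constructor <;> linarith

theorem K3_loc (hL : Bool) (a b : ℤ) (R : ℕ) (hb : a + 20 * R ≤ b) (T : Finset ℤ) :
    BadL hL a R T ↔ BadL hL a R (T ∩ Icc a b) := by
  unfold BadL
  have e1 : (T ∩ Icc a b) ∩ Icc a (a + 5 * R) = T ∩ Icc a (a + 5 * R) := by
    ext x
    simp only [mem_inter, mem_Icc]
    constructor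
    · rintro ⟨⟨h1, _⟩, h2⟩; exact ⟨h1, h2⟩
    · rintro ⟨h1, h2⟩; exact ⟨⟨h1, by omega, by omega⟩, h2⟩
  have e2 : (T ∩ Icc a b) ∩ Icc (a + 5 * R + 1) (a + 20 * R) = T ∩ Icc (a + 5 * R + 1) (a + 20 * R) := by
    ext x
    simp only [mem_inter, mem_Icc]
    constructor
    · rintro ⟨⟨h1, _⟩, h2⟩; exact ⟨h1, h2⟩
    · rintro ⟨h1, h2⟩; exact ⟨⟨h1, by omega, by omega⟩, h2⟩
  rw [e1, e2]

/-- decoupled constraint -/
def K3k (hL hR : Bool) (a β b x : ℤ) (S : Finset ℤ) : Bool :=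
  if x ≤ β then kw hL false a β x S else kw false hR (β + 1) b x S

theorem K3_k_eq (hL hR : Bool) (a β b y : ℤ) (S : Finset ℤ) (ha : a < β) (hb : β + 1 < b)
    (hy : y ∈ Icc a b) (h2 : y = β → β + 1 ∉ S) (h3 : y = β + 1 → β ∉ S) :
    K3k hL hR a β b y S = kw hL hR a b y S := by
  rw [mem_Icc] at hy
  unfold K3k kw
  split_ifs with hyb
  · rw [decide_eq_decide]
    simp only [mem_Icc]
    constructor
    · rintro (h | h | h | h)
      · exact Or.inl ⟨by omega, h.2⟩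
      · exact Or.inr (Or.inl ⟨by omega, h.2⟩)
      · exact Or.inr (Or.inr (Or.inl h))
      · exact absurd h.2 (by decide)
    · rintro (h | h | h | h)
      · exact Or.inl ⟨by omega, h.2⟩
      · refine Or.inr (Or.inl ⟨?_, h.2⟩)
        by_contra hc
        have : y = β := by omega
        subst this
        exact h2 rfl h.2
      · exact Or.inr (Or.inr (Or.inl h))
      · exfalso; omega
  · rw [decide_eq_decide]
    simp only [mem_Icc]
    constructor
    · rintro (h | h | h | h)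
      · exact Or.inl ⟨by omega, h.2⟩
      · exact Or.inr (Or.inl ⟨by omega, h.2⟩)
      · exact absurd h.2 (by decide)
      · exact Or.inr (Or.inr (Or.inr h))
    · rintro (h | h | h | h)
      · refine Or.inl ⟨?_, h.2⟩
        by_contra hc
        have : y = β + 1 := by omega
        subst this
        refine h3 rfl ?_
        have := h.2
        rwa [add_sub_cancel_right] at this
      · exact Or.inr (Or.inl ⟨by omega, h.2⟩)
      · exfalso; omega
      · exact Or.inr (Or.inr (Or.inr h))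

theorem K3_term (h0 : 0 ≤ q) (h1 : q ≤ 1) (k k' : ℤ → Finset ℤ → Bool) (y w : ℤ) (hwy : w ≠ y)
    (H : Finset ℤ → ℝ) (ε : ℝ) (hH0 : ∀ T, 0 ≤ H T) (hε : ∀ T, w ∈ T → H T ≤ ε) (hε0 : 0 ≤ ε)
    (x : Finset ℤ) (hk : w ∉ x → k y x = k' y x) :
    |(kv k y x - kv k' y x) * (q * H (insert y x) + (1 - q) * H (x.erase y) - H x)| ≤ ε := by
  by_cases hw : w ∈ x
  · rw [abs_mul]
    have b1 : |kv k y x - kv k' y x| ≤ 1 := by
      have := kv_nonneg k y x
      have := kv_le k y x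
      have := kv_nonneg k' y x
      have := kv_le k' y x
      rw [abs_le]; constructor <;> linarith
    have b2 : |q * H (insert y x) + (1 - q) * H (x.erase y) - H x| ≤ ε :=
      K3_abs h0 h1 (hH0 _) (hε _ (mem_insert_of_mem hw)) (hH0 _) (hε _ (mem_erase.2 ⟨hwy, hw⟩))
        (hH0 _) (hε _ hw)
    calc _ ≤ 1 * ε := mul_le_mul b1 b2 (abs_nonneg _) (by norm_num)
      _ = ε := one_mul _
  · have : kv k y x = kv k' y x := by unfold kv; rw [hk hw]
    rw [this, sub_self, zero_mul, abs_zero]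
    exact hε0

theorem K3_stepA (h0 : 0 < q) (h1 : q < 1) (hL hR : Bool) (a β b : ℤ) (ha : a < β) (hb : β + 1 < b)
    (H : Finset ℤ → ℝ) (ε : ℝ) (hH0 : ∀ T, 0 ≤ H T) (hε : ∀ T, (β ∈ T ∨ β + 1 ∈ T) → H T ≤ ε)
    (hε0 : 0 ≤ ε) (x : Finset ℤ) :
    |(kG q h0.le h1.le (Icc a b) (K3k hL hR a β b)).L H x - (wG q h0 h1 hL hR a b).L H x| ≤ 2 * ε := by
  unfold wG
  rw [kG_L, kG_L]
  unfold genK
  rw [← Finset.sum_sub_distrib]
  have e : ∀ y ∈ Icc a b, kv (K3k hL hR a β b) y x *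
        (q * H (insert y x) + (1 - q) * H (x.erase y) - H x) -
      kv (kw hL hR a b) y x * (q * H (insert y x) + (1 - q) * H (x.erase y) - H x) =
      (kv (K3k hL hR a β b) y x - kv (kw hL hR a b) y x) *
        (q * H (insert y x) + (1 - q) * H (x.erase y) - H x) := fun y _ => by ring
  rw [Finset.sum_congr rfl e]
  have hsub : ({β, β + 1} : Finset ℤ) ⊆ Icc a b := by
    intro y hy
    rw [mem_insert, mem_singleton] at hy
    rw [mem_Icc]
    omega
  rw [← Finset.sum_subset hsub]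
  · rw [Finset.sum_pair (by omega)]
    have t1 := K3_term h0.le h1.le (K3k hL hR a β b) (kw hL hR a b) β (β + 1) (by omega) H ε hH0
      (fun T hT => hε T (Or.inr hT)) hε0 x
      (fun hx => K3_k_eq hL hR a β b β x ha hb (hsub (by simp)) (fun _ => hx) (fun h => by omega))
    have t2 := K3_term h0.le h1.le (K3k hL hR a β b) (kw hL hR a b) (β + 1) β (by omega) H ε hH0
      (fun T hT => hε T (Or.inl hT)) hε0 x
      (fun hx => K3_k_eq hL hR a β b (β + 1) x ha hb (hsub (by simp)) (fun h => by omega)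
        (fun _ => hx))
    refine (abs_add_le _ _).trans ?_
    linarith
  · intro y hy hny
    rw [mem_insert, mem_singleton, not_or] at hny
    have : K3k hL hR a β b y x = kw hL hR a b y x :=
      K3_k_eq hL hR a β b y x ha hb hy (fun h => absurd h hny.1) (fun h => absurd h hny.2)
    have : kv (K3k hL hR a β b) y x = kv (kw hL hR a b) y x := by unfold kv; rw [this]
    rw [this, sub_self, zero_mul]

theorem K3_map (h0 : 0 < q) (h1 : q < 1) (hL hR : Bool) (a β b : ℤ) (hβb : β ≤ b)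
    (F' : Finset ℤ → ℝ) (x : Finset ℤ) :
    (kG q h0.le h1.le (Icc a b) (K3k hL hR a β b)).L (fun x => F' (x ∩ Icc a β)) x =
      (wG q h0 h1 hL false a β).L F' (x ∩ Icc a β) := by
  unfold wG
  rw [kG_L, kG_L]
  unfold genK
  rw [← Finset.sum_subset (Icc_subset_Icc_right hβb)]
  · refine Finset.sum_congr rfl fun y hy => ?_
    have hyβ : y ≤ β := (mem_Icc.1 hy).2
    have e1 : kv (K3k hL hR a β b) y x = kv (kw hL false a β) y (x ∩ Icc a β) := by
      unfold kv
      rw [← (kw_adm0 hL false a β).loc y hy x]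
      unfold K3k
      rw [if_pos hyβ]
    beta_reduce
    rw [e1, Finset.insert_inter_of_mem hy, Finset.erase_inter]
  · intro y hy hny
    have hyβ : β < y := by
      rw [mem_Icc] at hy hny
      omega
    have hny' : y ∉ Icc a β := by rw [mem_Icc]; omega
    have e1 : (insert y x) ∩ Icc a β = x ∩ Icc a β := Finset.insert_inter_of_notMem hny'
    have e2 : (x.erase y) ∩ Icc a β = x ∩ Icc a β := by
      ext z
      simp only [mem_inter, mem_erase]
      constructor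
      · rintro ⟨⟨_, h⟩, h'⟩; exact ⟨h, h'⟩
      · rintro ⟨h, h'⟩
        exact ⟨⟨fun hz => hny' (hz ▸ h'), h⟩, h'⟩
    beta_reduce
    rw [e1, e2]
    ring

theorem K3_point {X : Type} (m : FM X) (H : X → ℝ) (U : X) (hU : U ∈ m.s) :
    m.w U * (H U - m.E H) ^ 2 ≤ m.Var H := by
  have e : m.Var H = ∑ x ∈ m.s, m.w x * (H x - m.E H) ^ 2 := by
    have h0 : ∀ μ : ℝ, ∑ x ∈ m.s, m.w x * (H x - μ) ^ 2 =
        (∑ x ∈ m.s, m.w x * H x ^ 2) - 2 * μ * (∑ x ∈ m.s, m.w x * H x) +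
          μ ^ 2 * ∑ x ∈ m.s, m.w x := by
      intro μ
      rw [Finset.mul_sum, Finset.mul_sum, ← Finset.sum_sub_distrib, ← Finset.sum_add_distrib]
      exact Finset.sum_congr rfl fun x _ => by ring
    have h1 : ∑ x ∈ m.s, m.w x * (H x - m.E H) ^ 2 =
        m.E (fun x => H x ^ 2) - 2 * m.E H * (∑ x ∈ m.s, m.w x * H x) +
          (m.E H) ^ 2 * ∑ x ∈ m.s, m.w x := h0 _
    rw [h1, m.hone]
    unfold FM.Var
    have : ∑ x ∈ m.s, m.w x * H x = m.E H := rfl
    rw [this]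
    ring
  rw [e]
  exact Finset.single_le_sum (f := fun x => m.w x * (H x - m.E H) ^ 2)
    (fun x hx => mul_nonneg (m.hw x hx).le (sq_nonneg _)) hU

theorem K3_var {X : Type} (m : FM X) (H : X → ℝ) (hH : ∀ x, |H x| ≤ 1) : m.Var H ≤ 1 := by
  unfold FM.Var FM.E
  have h1 : ∑ x ∈ m.s, m.w x * H x ^ 2 ≤ ∑ x ∈ m.s, m.w x := by
    refine Finset.sum_le_sum fun x hx => ?_
    have : H x ^ 2 ≤ 1 := by
      rw [← sq_abs]
      have := hH x
      have := abs_nonneg (H x)
      nlinarith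
    have := (m.hw x hx).le
    nlinarith
  rw [m.hone] at h1
  have := sq_nonneg (∑ x ∈ m.s, m.w x * H x)
  linarith

theorem K3_wt (h0 : 0 < q) (p0 : ℝ) (hp0 : 0 < p0) (hp1 : p0 ≤ q) (hp2 : p0 ≤ 1 - q)
    (A U : Finset ℤ) : p0 ^ A.card ≤ wt q A U := by
  unfold wt
  have e : A.card = (A ∩ U).card + (A \ U).card := by
    rw [Finset.card_inter_add_card_sdiff]
  rw [e, pow_add]
  exact mul_le_mul (pow_le_pow_left₀ hp0.le hp1 _) (pow_le_pow_left₀ hp0.le hp2 _) (by positivity)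
    (by positivity)

theorem K3_mem (h0 : 0 < q) (h1 : q < 1) (hL : Bool) (a β : ℤ) (hab : a ≤ β) (U : Finset ℤ)
    (hU : U ⊆ Icc a β) (hU2 : hL = true ∨ U.Nonempty) :
    U ∈ (wm q h0 h1 hL false a β hab).s := by
  cases hL
  · simp only [wm, Bool.or_self, Bool.false_eq_true, if_false]
    simp only [nfm, FM.cond, pfm]
    exact (@Finset.mem_filter _ (fun S : Finset ℤ => S.Nonempty)
      (fun a => Classical.propDecidable _) (Icc a β).powerset U).2
      ⟨mem_powerset.2 hU, hU2.resolve_left (by decide)⟩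
  · simp only [wm, Bool.true_or, if_true]
    simp only [pfm]
    rw [mem_powerset]
    exact hU

theorem K3_w (h0 : 0 < q) (h1 : q < 1) (hL : Bool) (a β : ℤ) (hab : a ≤ β) (U : Finset ℤ)
    (p0 : ℝ) (hp0 : 0 < p0) (hp1 : p0 ≤ q) (hp2 : p0 ≤ 1 - q) :
    p0 ^ (Icc a β).card ≤ (wm q h0 h1 hL false a β hab).w U := by
  cases hL
  · simp only [wm, Bool.or_self, Bool.false_eq_true, if_false]
    simp only [nfm, FM.cond, pfm]
    refine (K3_wt h0 p0 hp0 hp1 hp2 (Icc a β) U).trans ?_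
    have hs : ∑ y ∈ (Icc a β).powerset.filter (fun S => S.Nonempty), wt q (Icc a β) y ≤ 1 := by
      rw [← wt_sum q (Icc a β)]
      exact Finset.sum_le_sum_of_subset_of_nonneg (Finset.filter_subset _ _)
        (fun V _ _ => wt_nonneg h0.le h1.le _ _)
    have hs0 : 0 < ∑ y ∈ (Icc a β).powerset.filter (fun S => S.Nonempty), wt q (Icc a β) y := by
      rw [wt_sum_ne]
      exact Zn_pos' h0 h1 _ (Finset.nonempty_Icc.2 hab)
    have hw := wt_nonneg h0.le h1.le (Icc a β) U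
    have key : ∀ r : ℝ, 0 < r → r ≤ 1 → wt q (Icc a β) U ≤ wt q (Icc a β) U / r := by
      intro r hr0 hr1
      rw [le_div_iff₀ hr0]
      nlinarith
    refine key _ ?_ ?_
    · convert hs0
    · convert hs
  · simp only [wm, Bool.true_or, if_true]
    simp only [pfm]
    exact K3_wt h0 p0 hp0 hp1 hp2 (Icc a β) U

theorem K3_EA (h0 : 0 < q) (h1 : q < 1) (A D : Finset ℤ) (hD : D ⊆ A) (F1 : Finset ℤ → ℝ)
    (hF1 : ∀ U, U ∩ D = ∅ → F1 U ≤ 1) (hF0 : ∀ U, ¬ (U ∩ D = ∅) → F1 U ≤ 0) :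
    EA q A F1 ≤ (1 - q) ^ D.card := by
  unfold EA
  have h2 : ∑ U ∈ A.powerset, wt q A U * F1 U ≤ ∑ U ∈ (A \ D).powerset, wt q A U := by
    rw [← Finset.sum_filter_add_sum_filter_not A.powerset (fun U => U ∩ D = ∅)]
    have e1 : A.powerset.filter (fun U => U ∩ D = ∅) = (A \ D).powerset := by
      ext U
      simp only [mem_filter, mem_powerset]
      rw [← Finset.disjoint_iff_inter_eq_empty, Finset.subset_sdiff]
    rw [e1]
    have n1 : ∑ U ∈ A.powerset.filter (fun U => ¬ (U ∩ D = ∅)), wt q A U * F1 U ≤ 0 := by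
      refine Finset.sum_nonpos fun U hU => ?_
      exact mul_nonpos_of_nonneg_of_nonpos (wt_nonneg h0.le h1.le _ _) (hF0 U (mem_filter.1 hU).2)
    have n2 : ∑ U ∈ (A \ D).powerset, wt q A U * F1 U ≤ ∑ U ∈ (A \ D).powerset, wt q A U := by
      refine Finset.sum_le_sum fun U hU => ?_
      rw [mem_powerset, Finset.subset_sdiff, Finset.disjoint_iff_inter_eq_empty] at hU
      have := wt_nonneg h0.le h1.le A U
      have := hF1 U hU.2
      nlinarith
    linarith
  refine h2.trans (le_of_eq ?_)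
  have h3 : ∀ U ∈ (A \ D).powerset, wt q A U = (1 - q) ^ D.card * wt q (A \ D) U := by
    intro U hU
    rw [mem_powerset] at hU
    have := wt_union q (A := D) (B := A \ D) Finset.disjoint_sdiff (Finset.empty_subset D) hU
    rw [Finset.union_sdiff_of_subset hD, Finset.empty_union] at this
    rw [this]
    congr 1
    simp [wt]
  rw [Finset.sum_congr rfl h3, ← Finset.mul_sum, wt_sum, mul_one]

theorem K3_E (h0 : 0 < q) (h1 : q < 1) (hL : Bool) (a β : ℤ) (hab : a ≤ β) (D : Finset ℤ)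
    (hD : D ⊆ Icc a β) (F1 : Finset ℤ → ℝ) (hF : ∀ U, 0 ≤ F1 U)
    (hF1 : ∀ U, U ∩ D = ∅ → F1 U ≤ 1) (hF0 : ∀ U, ¬ (U ∩ D = ∅) → F1 U ≤ 0) :
    (wm q h0 h1 hL false a β hab).E F1 ≤ (1 - q) ^ D.card / q := by
  have hEA := K3_EA h0 h1 (Icc a β) D hD F1 hF1 hF0
  have hpow : 0 ≤ (1 - q) ^ D.card := pow_nonneg (by linarith) _
  rw [wm_E]
  split_ifs
  · refine hEA.trans ?_
    rw [le_div_iff₀ h0]
    nlinarith
  · unfold EN
    have hZ : q ≤ Zn q (Icc a β) := by
      unfold Zn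
      have hc : 1 ≤ (Icc a β).card := Finset.card_pos.2 (Finset.nonempty_Icc.2 hab)
      have : (1 - q) ^ (Icc a β).card ≤ (1 - q) ^ 1 :=
        pow_le_pow_of_le_one (by linarith) (by linarith) hc
      rw [pow_one] at this
      linarith
    have hs : ∑ U ∈ (Icc a β).powerset.filter (fun U => U.Nonempty), wt q (Icc a β) U * F1 U ≤
        (1 - q) ^ D.card := by
      refine le_trans ?_ hEA
      exact Finset.sum_le_sum_of_subset_of_nonneg (Finset.filter_subset _ _)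
        (fun V _ _ => mul_nonneg (wt_nonneg h0.le h1.le _ _) (hF V))
    exact div_le_div₀ hpow hs h0 hZ

open Classical in
/-- the observable after decoupling -/
def K3F (hL : Bool) (a β : ℤ) (R : ℕ) (U : Finset ℤ) : ℝ :=
  if (hL = true ∨ U.Nonempty) ∧ U ∩ Icc (a + 5 * R + 1) β = ∅ then 1 else 0

theorem K3F_nonneg (hL : Bool) (a β : ℤ) (R : ℕ) (U : Finset ℤ) : 0 ≤ K3F hL a β R U := by
  unfold K3F; split_ifs <;> norm_num

theorem K3F_le (hL : Bool) (a β : ℤ) (R : ℕ) (U : Finset ℤ) : K3F hL a β R U ≤ 1 := by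
  unfold K3F; split_ifs <;> norm_num

theorem K3F_abs (hL : Bool) (a β : ℤ) (R : ℕ) (U : Finset ℤ) : |K3F hL a β R U| ≤ 1 := by
  rw [abs_of_nonneg (K3F_nonneg _ _ _ _ _)]
  exact K3F_le _ _ _ _ _

theorem K3_H (h0 : 0 < q) (h1 : q < 1) (Cg : ℝ) (hCg : 0 < Cg)
    (hgap : ∀ (hL hR : Bool) (a b : ℤ) (hab : a + 2 ≤ b)
      (F : Finset ℤ → ℝ), (wm q h0 h1 hL hR a b (by linarith)).Var F ≤
      Cg * Dir (wG q h0 h1 hL hR a b) (wm q h0 h1 hL hR a b (by linarith)) F)
    (p0 : ℝ) (hp0 : 0 < p0) (hp1 : p0 ≤ q) (hp2 : p0 ≤ 1 - q) (hL : Bool) (a β : ℤ) (R : ℕ)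
    (hR : 1 ≤ R) (hβ : β = a + 12 * R) (U : Finset ℤ) (hU : U ⊆ Icc a β) (t : ℝ)
    (ht : Cg * (13 * (-Real.log p0) + 2) / 2 * R ≤ t) :
    (wG q h0 h1 hL false a β).P t (K3F hL a β R) U ≤ Real.exp (-(R : ℝ)) + (1 - q) ^ (7 * R) / q := by
  have hp3 : p0 < 1 := lt_of_le_of_lt hp1 h1
  have hL1 : 0 < -Real.log p0 := neg_pos.2 (Real.log_neg hp0 hp3)
  have hRpos : (1 : ℝ) ≤ R := by exact_mod_cast hR
  have ht0 : 0 ≤ t := le_trans (by positivity) ht
  have hab : a + 2 ≤ β := by omega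
  have hab' : a ≤ β := by omega
  have hbd : Bd (K3F hL a β R) := ⟨1, K3F_abs hL a β R⟩
  have hq1 : 0 < 1 - q := by linarith
  by_cases hU2 : hL = true ∨ U.Nonempty
  · have hUm := K3_mem h0 h1 hL a β hab' U hU hU2
    have hpt := K3_point (wm q h0 h1 hL false a β hab') ((wG q h0 h1 hL false a β).P t (K3F hL a β R)) U hUm
    have hrev := wG_rev h0 h1 hL false a β hab
    have hE := E_P (wG q h0 h1 hL false a β) (wm q h0 h1 hL false a β hab') hrev (K3F hL a β R) hbd t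
    have hdec := l2_decay (wG q h0 h1 hL false a β) (wm q h0 h1 hL false a β hab') hrev Cg hCg
      (fun F _ => hgap hL false a β hab F) (K3F hL a β R) hbd t ht0
    have hvar := K3_var (wm q h0 h1 hL false a β hab') (K3F hL a β R) (K3F_abs hL a β R)
    have hw := K3_w h0 h1 hL a β hab' U p0 hp0 hp1 hp2
    have hcard : (Icc a β).card = 12 * R + 1 := by rw [Int.card_Icc]; omega
    rw [hcard] at hw
    rw [hE] at hpt
    have hEle := K3_E h0 h1 hL a β hab' (Icc (a + 5 * R + 1) β)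
      (Icc_subset_Icc_left (by omega)) (K3F hL a β R) (K3F_nonneg hL a β R)
      (fun V _ => K3F_le hL a β R V) (fun V hV => by
        unfold K3F
        rw [if_neg (fun h => hV h.2)])
    have hcard2 : (Icc (a + 5 * R + 1) β).card = 7 * R := by rw [Int.card_Icc]; omega
    rw [hcard2] at hEle
    set d := (wG q h0 h1 hL false a β).P t (K3F hL a β R) U - (wm q h0 h1 hL false a β hab').E (K3F hL a β R) with hd
    have h5 : p0 ^ (12 * R + 1) * d ^ 2 ≤ Real.exp (-(2 * t / Cg)) := by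
      calc p0 ^ (12 * R + 1) * d ^ 2 ≤ (wm q h0 h1 hL false a β hab').w U * d ^ 2 :=
            mul_le_mul_of_nonneg_right hw (sq_nonneg _)
        _ ≤ _ := hpt
        _ ≤ _ := hdec
        _ ≤ Real.exp (-(2 * t / Cg)) * 1 :=
            mul_le_mul_of_nonneg_left hvar (Real.exp_nonneg _)
        _ = _ := mul_one _
    have h6 : p0 ^ (12 * R + 1) = Real.exp (-((12 * R + 1) * (-Real.log p0))) := by
      rw [← Real.exp_log hp0, ← Real.exp_nat_mul, Real.log_exp]
      congr 1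
      push_cast
      ring
    have h7 : d ^ 2 ≤ Real.exp (-(R : ℝ)) ^ 2 := by
      have hpos : 0 < p0 ^ (12 * R + 1) := pow_pos hp0 _
      have h8 : d ^ 2 ≤ Real.exp (-(2 * t / Cg)) / p0 ^ (12 * R + 1) := by
        rw [le_div_iff₀ hpos, mul_comm]; exact h5
      refine h8.trans ?_
      rw [h6, ← Real.exp_sub, ← Real.exp_nat_mul]
      apply Real.exp_le_exp.2
      have h9 : (13 * (-Real.log p0) + 2) * R ≤ 2 * t / Cg := by
        rw [le_div_iff₀ hCg]
        linarith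
      have h10 : (12 * (R : ℝ) + 1) * (-Real.log p0) ≤ 13 * R * (-Real.log p0) :=
        mul_le_mul_of_nonneg_right (by linarith) hL1.le
      push_cast
      linarith
    have h11 : d ≤ Real.exp (-(R : ℝ)) := by
      by_contra hcon
      push Not at hcon
      have := Real.exp_pos (-(R : ℝ))
      nlinarith
    linarith
  · have hLf : hL = false := by
      cases hL
      · rfl
      · exact absurd (Or.inl rfl) hU2
    have hUe : U = ∅ := by
      rw [← Finset.not_nonempty_iff_eq_empty]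
      exact fun h => hU2 (Or.inr h)
    subst hLf hUe
    have hz : (wG q h0 h1 false false a β).P t (K3F false a β R) ∅ =
        (wG q h0 h1 false false a β).P t (fun _ => 0) ∅ := by
      refine MG.P_congr_on _ ({∅} : Set (Finset ℤ)) ?_ _ _ ?_ t ∅ rfl
      · rintro i _ x hx hr
        exfalso
        apply hr
        rw [Set.mem_singleton_iff] at hx
        subst hx
        show kv (kw false false a β) i.1 ∅ * _ = 0
        have : kw false false a β i.1 ∅ = false := by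
          unfold kw
          simp
        unfold kv
        rw [this]
        simp
      · rintro x hx
        rw [Set.mem_singleton_iff] at hx
        subst hx
        unfold K3F
        rw [if_neg]
        rintro ⟨h, _⟩
        exact hU2 h
    rw [hz, MG.P_const]
    positivity

theorem K3_near (h0 : 0 < q) (h1 : q < 1) (hL hR : Bool) (a b : ℤ) (R : ℕ) (hR1 : 1 ≤ R)
    (hb : a + 30 * R ≤ b) (F : Finset ℤ → ℝ) (hFdef : ∀ T, (BadL hL a R T → F T = 1) ∧ (¬ BadL hL a R T → F T = 0))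
    (ε s : ℝ) (hs : 0 ≤ s) (w : ℤ) (hw1 : a + 12 * R ≤ w) (hw2 : w ≤ a + 12 * R + 1)
    (hbulk : ∀ S : Finset ℤ, S ⊆ Icc a b → w ∈ S →
      (wG q h0 h1 hL hR a b).P s (Ne w (2 * R)) S ≤ ε)
    (T : Finset ℤ) (hT : w ∈ T) : (wG q h0 h1 hL hR a b).P s F T ≤ ε := by
  have hFabs : ∀ T, |F T| ≤ 1 := by
    intro T
    by_cases h : BadL hL a R T
    · rw [(hFdef T).1 h]; norm_num
    · rw [(hFdef T).2 h]; norm_num
  have hloc : ∀ S, F S = F (S ∩ Icc a b) := by
    intro S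
    by_cases h : BadL hL a R S
    · rw [(hFdef S).1 h, (hFdef _).1 ((K3_loc hL a b R (by omega) S).1 h)]
    · rw [(hFdef S).2 h, (hFdef _).2 (fun h' => h ((K3_loc hL a b R (by omega) S).2 h'))]
  have e1 : (wG q h0 h1 hL hR a b).P s F T = (wG q h0 h1 hL hR a b).P s F (T ∩ Icc a b) :=
    P_loc h0.le h1.le a b (kw hL hR a b) (kw_adm0 hL hR a b) F hloc s T
  rw [e1]
  have hNe : ∀ S, |Ne w (2 * R) S| ≤ 1 := by
    intro S; unfold Ne; split_ifs <;> norm_num
  refine le_trans (MG.P_mono _ F (Ne w (2 * R)) ⟨1, hFabs⟩ ⟨1, hNe⟩ ?_ s hs _)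
    (hbulk _ Finset.inter_subset_right (mem_inter.2 ⟨hT, mem_Icc.2 ⟨by omega, by omega⟩⟩))
  intro S
  by_cases h : BadL hL a R S
  · rw [(hFdef S).1 h]
    unfold Ne
    rw [if_pos]
    rw [← Finset.subset_empty, ← h.2]
    apply Finset.inter_subset_inter_left
    intro y hy
    rw [mem_Icc] at hy ⊢
    push_cast at hy
    omega
  · rw [(hFdef S).2 h]
    unfold Ne
    split_ifs <;> norm_num

theorem K3_num (c C L2 : ℝ) (hc : 0 < c) (hC : 1 ≤ C) (hL2 : 0 < L2) (h0 : 0 < q) (R J : ℕ)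
    (t : ℝ) (ht : 16 * t ≤ J * R) (X : ℝ)
    (hX : X ≤ Real.exp (-(R : ℝ)) + Real.exp (-(7 * R * L2)) / q +
      t * (2 * (C * (J + 1) * Real.exp (-(c * R))))) :
    X ≤ (1 + 1 / q + C / c) * ((J : ℝ) + 1) ^ 2 *
      Real.exp (-(min 1 (min (7 * L2) (c / 2)) * R)) := by
  have hR0 : (0 : ℝ) ≤ R := Nat.cast_nonneg R
  have hJ0 : (0 : ℝ) ≤ J := Nat.cast_nonneg J
  set c' := min 1 (min (7 * L2) (c / 2)) with hc'
  have k1 : c' ≤ 1 := min_le_left _ _
  have k2 : c' ≤ 7 * L2 := (min_le_right _ _).trans (min_le_left _ _)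
  have k3 : c' ≤ c / 2 := (min_le_right _ _).trans (min_le_right _ _)
  set E := Real.exp (-(c' * R)) with hE
  have hE0 : 0 < E := Real.exp_pos _
  have b1 : Real.exp (-(R : ℝ)) ≤ E := Real.exp_le_exp.2 (by nlinarith)
  have b2 : Real.exp (-(7 * R * L2)) ≤ E := Real.exp_le_exp.2 (by nlinarith)
  have b3 : Real.exp (-(c / 2 * R)) ≤ E := Real.exp_le_exp.2 (by nlinarith)
  have b4 : (R : ℝ) * Real.exp (-(c * R)) ≤ 2 / c * E := by
    have e1 : Real.exp (-(c * R)) = Real.exp (-(c / 2 * R)) * Real.exp (-(c / 2 * R)) := by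
      rw [← Real.exp_add]; congr 1; ring
    have e2 : c / 2 * R * Real.exp (-(c / 2 * R)) ≤ 1 := by
      have := Real.add_one_le_exp (c / 2 * R)
      have hp := Real.exp_pos (-(c / 2 * R))
      have h2 : Real.exp (c / 2 * R) * Real.exp (-(c / 2 * R)) = 1 := by
        rw [← Real.exp_add, add_neg_cancel, Real.exp_zero]
      nlinarith
    have e3 : (R : ℝ) * Real.exp (-(c / 2 * R)) ≤ 2 / c := by
      rw [le_div_iff₀ hc]
      nlinarith
    rw [e1, ← mul_assoc]
    exact mul_le_mul e3 b3 (Real.exp_pos _).le (by positivity)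
  have b5 : t * (2 * (C * (J + 1) * Real.exp (-(c * R)))) ≤ C / c * ((J : ℝ) + 1) ^ 2 * E := by
    have p1 : 0 ≤ 2 * (C * ((J : ℝ) + 1) * Real.exp (-(c * R))) := by positivity
    have t1 : t ≤ J * R / 16 := by linarith
    calc t * (2 * (C * (J + 1) * Real.exp (-(c * R))))
        ≤ (J * R / 16) * (2 * (C * (J + 1) * Real.exp (-(c * R)))) :=
          mul_le_mul_of_nonneg_right t1 p1
      _ = (C * J * (J + 1) / 8) * (R * Real.exp (-(c * R))) := by ring
      _ ≤ (C * J * (J + 1) / 8) * (2 / c * E) :=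
          mul_le_mul_of_nonneg_left b4 (by positivity)
      _ = C / c * (J * (J + 1) / 4) * E := by field_simp; ring
      _ ≤ C / c * ((J : ℝ) + 1) ^ 2 * E := by
          apply mul_le_mul_of_nonneg_right _ hE0.le
          apply mul_le_mul_of_nonneg_left _ (by positivity)
          nlinarith
  have b6 : Real.exp (-(7 * R * L2)) / q ≤ 1 / q * E := by
    rw [div_mul_eq_mul_div, one_mul]
    exact div_le_div_of_nonneg_right b2 h0.le
  have hJ1 : (1 : ℝ) ≤ ((J : ℝ) + 1) ^ 2 := by nlinarith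
  have b7 : 0 < 1 / q := by positivity
  calc X ≤ E + 1 / q * E + C / c * ((J : ℝ) + 1) ^ 2 * E := by linarith
    _ ≤ ((J : ℝ) + 1) ^ 2 * E + 1 / q * (((J : ℝ) + 1) ^ 2 * E) + C / c * ((J : ℝ) + 1) ^ 2 * E := by
        have : E ≤ ((J : ℝ) + 1) ^ 2 * E := by nlinarith
        have := mul_le_mul_of_nonneg_left this b7.le
        linarith
    _ = _ := by ring

theorem K3_refl (hR : Bool) (a b : ℤ) (R : ℕ) (T : Finset ℤ) :
    BadL hR a R (rf a b T) ↔ BadR hR b R T := by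
  unfold BadL BadR
  refine and_congr (or_congr Iff.rfl ?_) ?_
  · constructor
    · rintro ⟨x, hx⟩
      rw [mem_inter, rf_mem, mem_Icc] at hx
      exact ⟨a + b - x, mem_inter.2 ⟨hx.1, mem_Icc.2 ⟨by omega, by omega⟩⟩⟩
    · rintro ⟨x, hx⟩
      rw [mem_inter, mem_Icc] at hx
      refine ⟨a + b - x, mem_inter.2 ⟨?_, mem_Icc.2 ⟨by omega, by omega⟩⟩⟩
      rw [rf_mem, sub_sub_cancel]
      exact hx.1
  · rw [← Finset.not_nonempty_iff_eq_empty, ← Finset.not_nonempty_iff_eq_empty, not_iff_not]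
    constructor
    · rintro ⟨x, hx⟩
      rw [mem_inter, rf_mem, mem_Icc] at hx
      exact ⟨a + b - x, mem_inter.2 ⟨hx.1, mem_Icc.2 ⟨by omega, by omega⟩⟩⟩
    · rintro ⟨x, hx⟩
      rw [mem_inter, mem_Icc] at hx
      refine ⟨a + b - x, mem_inter.2 ⟨?_, mem_Icc.2 ⟨by omega, by omega⟩⟩⟩
      rw [rf_mem, sub_sub_cancel]
      exact hx.1

end FA


-- USES: G1 S1 S2 S3 S4 S5 D2 OSC R1 D3 S10 D4 D5 D9 K1 K1r K2
namespace FA
variable {q : ℝ}

open Classical in
/-- the infection does not stay near the left wall -/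
theorem escL (h0 : 0 < q) (h1 : q < 1) : ∃ (c C : ℝ) (C1 : ℕ), 0 < c ∧ 1 ≤ C ∧ 1 ≤ C1 ∧
    ∀ (hL hR : Bool) (a b : ℤ) (R : ℕ), 1 ≤ R → a + 30 * R ≤ b → ∀ (J : ℕ) (S : Finset ℤ), S ⊆ Icc a b →
      ∀ t : ℝ, (C1 : ℝ) * R ≤ t → 16 * t ≤ J * R →
        (wG q h0 h1 hL hR a b).P t (fun T => if BadL hL a R T then 1 else 0) S ≤
          C * (J + 1) ^ 2 * Real.exp (-(c * R)) := by
  obtain ⟨κ, c, C, hκ, hc, hC, hbulk⟩ := bulk h0 h1
  obtain ⟨Cg, hCg, hgap⟩ := wG_gap h0 h1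
  have hq1 : 0 < 1 - q := by linarith
  set p0 := min q (1 - q) with hp0def
  have hp0 : 0 < p0 := lt_min h0 hq1
  have hp1 : p0 ≤ q := min_le_left _ _
  have hp2 : p0 ≤ 1 - q := min_le_right _ _
  have hL2 : 0 < -Real.log (1 - q) := neg_pos.2 (Real.log_neg hq1 (by linarith))
  obtain ⟨C1, hC1⟩ := exists_nat_ge (max 1 (Cg * (13 * (-Real.log p0) + 2) / 2))
  have hC1a : (1 : ℝ) ≤ C1 := (le_max_left _ _).trans hC1
  have hC1b : Cg * (13 * (-Real.log p0) + 2) / 2 ≤ C1 := (le_max_right _ _).trans hC1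
  refine ⟨min 1 (min (7 * (-Real.log (1 - q))) (c / 2)), 1 + 1 / q + C / c, C1,
    lt_min one_pos (lt_min (by positivity) (by positivity)), ?_, by exact_mod_cast hC1a, ?_⟩
  · have : 0 < 1 / q := by positivity
    have : 0 < C / c := by positivity
    linarith
  intro hL hR a b R hR1 hab J S hS t ht1 ht2
  have hRpos : (1 : ℝ) ≤ R := by exact_mod_cast hR1
  have ht0 : 0 ≤ t := le_trans (by positivity) ht1
  apply K3_num c C (-Real.log (1 - q)) hc hC hL2 h0 R J t ht2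
  set F : Finset ℤ → ℝ := fun T => if BadL hL a R T then 1 else 0 with hF
  have hFdef : ∀ T, (BadL hL a R T → F T = 1) ∧ (¬ BadL hL a R T → F T = 0) := by
    intro T
    exact ⟨fun h => if_pos h, fun h => if_neg h⟩
  have hF0 : ∀ T, 0 ≤ F T := by
    intro T
    by_cases h : BadL hL a R T
    · rw [(hFdef T).1 h]; norm_num
    · rw [(hFdef T).2 h]
  have hFabs : ∀ T, |F T| ≤ 1 := by
    intro T
    by_cases h : BadL hL a R T
    · rw [(hFdef T).1 h]; norm_num
    · rw [(hFdef T).2 h]; norm_num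
  obtain ⟨β, hβ⟩ : ∃ β : ℤ, β = a + 12 * R := ⟨_, rfl⟩
  set ε := C * (J + 1) * Real.exp (-(c * R)) with hε
  have hε0 : 0 ≤ ε := by positivity
  have hst : ∀ s, 0 ≤ s → s ≤ t → ∀ x,
      |(kG q h0.le h1.le (Icc a b) (K3k hL hR a β b)).L ((wG q h0 h1 hL hR a b).P s F) x -
        (wG q h0 h1 hL hR a b).L ((wG q h0 h1 hL hR a b).P s F) x| ≤ 2 * ε := by
    intro s hs0 hst x
    refine K3_stepA h0 h1 hL hR a β b (by omega) (by omega) _ ε
      (fun T => MG.P_nonneg _ F ⟨1, hFabs⟩ hF0 s hs0 T) ?_ hε0 x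
    have hs16 : 16 * s ≤ J * R := by linarith
    have hnear : ∀ w : ℤ, a + 12 * R ≤ w → w ≤ a + 12 * R + 1 → ∀ T, w ∈ T →
        (wG q h0 h1 hL hR a b).P s F T ≤ ε := by
      intro w hw1 hw2 T hT
      refine K3_near h0 h1 hL hR a b R hR1 hab F hFdef ε s hs0 w hw1 hw2 ?_ T hT
      intro S' hS' hwS'
      exact hbulk hL hR a b R hR1 J S' hS' w hwS' w (by omega) (by omega) (by omega) (by omega) s
        hs0 hs16 (by simp; positivity)
    rintro T (hT | hT)
    · exact hnear β (by omega) (by omega) T hT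
    · exact hnear (β + 1) (by omega) (by omega) T hT
  have hduh := MG.duhamel1 (kG q h0.le h1.le (Icc a b) (K3k hL hR a β b)) (wG q h0 h1 hL hR a b) F
    ⟨1, hFabs⟩ t (2 * ε) ht0 hst S
  have hmono : (kG q h0.le h1.le (Icc a b) (K3k hL hR a β b)).P t F S ≤
      (kG q h0.le h1.le (Icc a b) (K3k hL hR a β b)).P t (fun T => K3F hL a β R (T ∩ Icc a β)) S := by
    refine MG.P_mono _ F _ ⟨1, hFabs⟩ ⟨1, fun T => K3F_abs _ _ _ _ _⟩ ?_ t ht0 S
    intro T
    by_cases h : BadL hL a R T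
    · rw [(hFdef T).1 h]
      unfold K3F
      rw [if_pos]
      refine ⟨h.1.imp id ?_, ?_⟩
      · rintro ⟨x, hx⟩
        refine ⟨x, ?_⟩
        rw [mem_inter, mem_Icc] at hx ⊢
        exact ⟨hx.1, hx.2.1, by omega⟩
      · rw [← Finset.subset_empty, ← h.2]
        intro x hx
        rw [mem_inter, mem_inter, mem_Icc, mem_Icc] at hx
        rw [mem_inter, mem_Icc]
        exact ⟨hx.1.1, by omega, by omega⟩
    · rw [(hFdef T).2 h]
      exact K3F_nonneg _ _ _ _ _
  have hmap : (kG q h0.le h1.le (Icc a b) (K3k hL hR a β b)).P t (fun T => K3F hL a β R (T ∩ Icc a β)) S =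
      (wG q h0 h1 hL false a β).P t (K3F hL a β R) (S ∩ Icc a β) :=
    MG.P_map _ (wG q h0 h1 hL false a β) (fun T => T ∩ Icc a β) (K3F hL a β R)
      (fun F' x => K3_map h0 h1 hL hR a β b (by omega) F' x) t S
  have hH := K3_H h0 h1 Cg hCg hgap p0 hp0 hp1 hp2 hL a β R hR1 hβ (S ∩ Icc a β)
    Finset.inter_subset_right t (le_trans (mul_le_mul_of_nonneg_right hC1b (by positivity)) ht1)
  have hpow : (1 - q) ^ (7 * R) = Real.exp (-(7 * R * (-Real.log (1 - q)))) := by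
    rw [← Real.exp_log hq1, ← Real.exp_nat_mul, Real.log_exp]
    congr 1
    push_cast
    ring
  rw [hpow] at hH
  rw [hmap] at hmono
  have := (abs_le.1 hduh).1
  linarith

open Classical in
/-- the infection does not stay near the right wall -/
theorem escR (h0 : 0 < q) (h1 : q < 1) : ∃ (c C : ℝ) (C1 : ℕ), 0 < c ∧ 1 ≤ C ∧ 1 ≤ C1 ∧
    ∀ (hL hR : Bool) (a b : ℤ) (R : ℕ), 1 ≤ R → a + 30 * R ≤ b → ∀ (J : ℕ) (S : Finset ℤ), S ⊆ Icc a b →
      ∀ t : ℝ, (C1 : ℝ) * R ≤ t → 16 * t ≤ J * R →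
        (wG q h0 h1 hL hR a b).P t (fun T => if BadR hR b R T then 1 else 0) S ≤
          C * (J + 1) ^ 2 * Real.exp (-(c * R)) := by
  obtain ⟨c, C, C1, hc, hC, hC1, h⟩ := escL h0 h1
  refine ⟨c, C, C1, hc, hC, hC1, ?_⟩
  intro hL hR a b R hR1 hab J S hS t ht1 ht2
  have h2 := h hR hL a b R hR1 hab J (rf a b S) (rf_sub a b S hS) t ht1 ht2
  rw [← wG_refl h0 h1 hL hR a b] at h2
  have e : (fun T : Finset ℤ => if BadR hR b R T then (1 : ℝ) else 0) =
      (fun T => (fun T => if BadL hR a R T then (1 : ℝ) else 0) (rf a b T)) := by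
    funext T
    exact if_congr (K3_refl hR a b R T).symm rfl rfl
  rw [e]
  exact h2

end FA
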