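import Pool.Agent.Helper870.FADefs
import Pool.Agent.Helper870.FAG1
import Pool.Agent.Helper870.FAD2
import Pool.Agent.Helper870.FAS10
import Pool.Agent.Helper870.FAD4
import Pool.Agent.Helper870.FAD5
import Pool.Agent.Helper870.FAD9
import Pool.Agent.Helper870.FAD10

set_option autoImplicit false
set_option linter.unusedSectionVars false

open Finset

noncomputable section

-- USES: G1 D2 S10 D4 D5 D9 D10
namespace FA
variable {q : ℝ}

/-- generator of a function which is dominated -/
theorem genK_le (h0 : 0 < q) (h1 : q < 1) (A : Finset ℤ) (k : ℤ → Finset ℤ → Bool) (F G : Finset ℤ → ℝ)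
    (S : Finset ℤ) (hle : ∀ T, F T ≤ G T) (heq : F S = G S) : genK q A k F S ≤ genK q A k G S := by
  unfold genK
  apply Finset.sum_le_sum
  intro x _
  apply mul_le_mul_of_nonneg_left _ (kv_nonneg k x S)
  have a1 := mul_le_mul_of_nonneg_left (hle (insert x S)) h0.le
  have a2 := mul_le_mul_of_nonneg_left (hle (S.erase x)) (sub_nonneg.2 h1.le)
  rw [heq]
  linarith

theorem UR_eq (th Λ : ℝ) (V : FAF.Env → ℝ) (z y : ℤ) (S : Finset ℤ) (hzy : z ≤ y) (hy : y ∈ S)
    (hfirst : ∀ u, z ≤ u → u < y → u ∉ S) :
    UR th Λ V z S = Real.exp (th * ((y - z : ℤ) : ℝ)) * V (envR y S) := by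
  unfold UR
  have hmem : y ∈ S.filter (fun y => z ≤ y) := Finset.mem_filter.2 ⟨hy, hzy⟩
  have hne : (S.filter (fun y => z ≤ y)).Nonempty := ⟨y, hmem⟩
  have hmin : (S.filter (fun y => z ≤ y)).min' hne = y := by
    apply le_antisymm (Finset.min'_le _ _ hmem)
    apply Finset.le_min'
    intro b hb
    rw [Finset.mem_filter] at hb
    by_contra hc
    push Not at hc
    exact hfirst b hb.2 hc hb.1
  rw [dif_pos hne, hmin]

theorem UL_eq (th Λ : ℝ) (V : FAF.Env → ℝ) (z y : ℤ) (S : Finset ℤ) (hzy : y ≤ z) (hy : y ∈ S)
    (hfirst : ∀ u, u ≤ z → y < u → u ∉ S) :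
    UL th Λ V z S = Real.exp (th * ((z - y : ℤ) : ℝ)) * V (envL y S) := by
  unfold UL
  have hmem : y ∈ S.filter (fun y => y ≤ z) := Finset.mem_filter.2 ⟨hy, hzy⟩
  have hne : (S.filter (fun y => y ≤ z)).Nonempty := ⟨y, hmem⟩
  have hmax : (S.filter (fun y => y ≤ z)).max' hne = y := by
    apply le_antisymm _ (Finset.le_max' _ _ hmem)
    apply Finset.max'_le
    intro b hb
    rw [Finset.mem_filter] at hb
    by_contra hc
    push Not at hc
    exact hfirst b hb.2 hc hb.1
  rw [dif_pos hne, hmax]

theorem UR_none (th Λ : ℝ) (V : FAF.Env → ℝ) (z : ℤ) (S : Finset ℤ) (h : ∀ y ∈ S, y < z) :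
    UR th Λ V z S = Λ := by
  unfold UR
  rw [dif_neg]
  rintro ⟨y, hy⟩
  rw [Finset.mem_filter] at hy
  exact absurd hy.2 (not_le.2 (h y hy.1))

theorem UL_none (th Λ : ℝ) (V : FAF.Env → ℝ) (z : ℤ) (S : Finset ℤ) (h : ∀ y ∈ S, z < y) :
    UL th Λ V z S = Λ := by
  unfold UL
  rw [dif_neg]
  rintro ⟨y, hy⟩
  rw [Finset.mem_filter] at hy
  exact absurd hy.2 (not_le.2 (h y hy.1))

theorem coreR_dep {m : ℕ} {V : FAF.Env → ℝ} (hV : FAF.Dep m V) (th Λ : ℝ) (z y : ℤ)
    (S T : Finset ℤ) (hzy : z ≤ y) (hy : y ∈ S) (hfirst : ∀ u, z ≤ u → u < y → u ∉ S)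
    (hag : ∀ u, z ≤ u → u ≤ y + m → (u ∈ T ↔ u ∈ S)) :
    UR th Λ V z T = UR th Λ V z S := by
  rw [UR_eq th Λ V z y S hzy hy hfirst, UR_eq th Λ V z y T hzy ((hag y hzy (by omega)).2 hy)
    (fun u h1 h2 h3 => hfirst u h1 h2 ((hag u h1 (by omega)).1 h3))]
  congr 1
  apply hV
  intro i hi
  unfold envR
  rw [decide_eq_decide]
  exact hag _ (by omega) (by omega)

/-- one-sided drift inequality, looking to the right -/
theorem coreR (h0 : 0 < q) (h1 : q < 1) (th c Λ : ℝ) (m : ℕ) (V : FAF.Env → ℝ) (hD : FAF.Drift q th c m V)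
    (A : Finset ℤ) (k : ℤ → Finset ℤ → Bool) (S : Finset ℤ) (z y : ℤ) (hzy : z < y) (hy : y ∈ S)
    (hfirst : ∀ u, z ≤ u → u < y → u ∉ S) (hA : ∀ u, z ≤ u → u ≤ y + m → u ∈ A)
    (hk : ∀ u, z ≤ u → u ≤ y + m → kv k u S = if u - 1 ∈ S ∨ u + 1 ∈ S then 1 else 0) :
    genK q A k (UR th Λ V z) S ≤ -c * UR th Λ V z S +
      (if z - 1 ∈ S ∧ z + 1 < y then 2 else 0) := by
  obtain ⟨hdep, hlo, hhi, hdr⟩ := hD
  have hUS := UR_eq th Λ V z y S hzy.le hy hfirst
  set w : FAF.Env := envR y S with hw
  set e : ℝ := Real.exp (th * ((y - z : ℤ) : ℝ)) with he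
  have he0 : 0 < e := Real.exp_pos _
  have hw0 : ∀ j : ℕ, (w j = true ↔ y + 1 + j ∈ S) := by
    intro j
    rw [hw]
    unfold envR
    simp
  let t : ℤ → ℝ := fun u => kv k u S * (q * UR th Λ V z (insert u S) +
    (1 - q) * UR th Λ V z (S.erase u) - UR th Λ V z S)
  have hsum : genK q A k (UR th Λ V z) S = ∑ u ∈ Icc z (y + m), t u := by
    unfold genK
    symm
    apply Finset.sum_subset
    · intro u hu
      rw [Finset.mem_Icc] at hu
      exact hA u hu.1 hu.2
    · intro u _ hu
      rw [Finset.mem_Icc] at hu
      have g1 : UR th Λ V z (insert u S) = UR th Λ V z S := by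
        apply coreR_dep hdep th Λ z y S _ hzy.le hy hfirst
        intro v hv1 hv2
        have hne : v ≠ u := by
          rintro rfl
          exact hu ⟨hv1, hv2⟩
        rw [Finset.mem_insert]
        constructor
        · rintro (h | h)
          · exact absurd h hne
          · exact h
        · intro h
          exact Or.inr h
      have g2 : UR th Λ V z (S.erase u) = UR th Λ V z S := by
        apply coreR_dep hdep th Λ z y S _ hzy.le hy hfirst
        intro v hv1 hv2
        have hne : v ≠ u := by
          rintro rfl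
          exact hu ⟨hv1, hv2⟩
        rw [Finset.mem_erase]
        exact ⟨fun h => h.2, fun h => ⟨hne, h⟩⟩
      show kv k u S * (q * UR th Λ V z (insert u S) +
        (1 - q) * UR th Λ V z (S.erase u) - UR th Λ V z S) = 0
      rw [g1, g2]
      ring
  have hsplit : Icc z (y + m) = Icc z (y - 1) ∪ ({y} ∪ Icc (y + 1) (y + m)) := by
    ext u
    simp only [Finset.mem_union, Finset.mem_Icc, Finset.mem_singleton]
    omega
  have hd1 : Disjoint (Icc z (y - 1)) ({y} ∪ Icc (y + 1) (y + m)) := by
    rw [Finset.disjoint_left]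
    intro u hu hu'
    simp only [Finset.mem_union, Finset.mem_Icc, Finset.mem_singleton] at hu hu'
    omega
  have hd2 : Disjoint ({y} : Finset ℤ) (Icc (y + 1) (y + m)) := by
    rw [Finset.disjoint_left]
    intro u hu hu'
    simp only [Finset.mem_Icc, Finset.mem_singleton] at hu hu'
    omega
  -- part I
  have hI : ∑ u ∈ Icc z (y - 1), t u ≤
      e * (q * (Real.exp (-th) * V (FAF.cons true w) - V w)) +
        (if z - 1 ∈ S ∧ z + 1 < y then 2 else 0) := by
    have hterm : ∀ u ∈ Icc z (y - 1), t u ≤
        (if u = y - 1 then e * (q * (Real.exp (-th) * V (FAF.cons true w) - V w)) else 0) +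
        (if u = z then (if z - 1 ∈ S ∧ z + 1 < y then (2 : ℝ) else 0) else 0) := by
      intro u hu
      rw [Finset.mem_Icc] at hu
      have huS : u ∉ S := hfirst u hu.1 (by omega)
      have her : S.erase u = S := Finset.erase_eq_of_notMem huS
      have hE0 : (0 : ℝ) ≤ (if u = z then (if z - 1 ∈ S ∧ z + 1 < y then (2 : ℝ) else 0) else 0) := by
        split_ifs <;> norm_num
      have htu : t u = kv k u S * (q * (UR th Λ V z (insert u S) - UR th Λ V z S)) := by
        show kv k u S * (q * UR th Λ V z (insert u S) +
          (1 - q) * UR th Λ V z (S.erase u) - UR th Λ V z S) = _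
        rw [her]
        ring
      by_cases c1 : u = y - 1
      · have hkv : kv k u S = 1 := by
          rw [hk u hu.1 (by omega), if_pos]
          right
          rw [c1]
          simpa using hy
        have hUi : UR th Λ V z (insert u S) =
            Real.exp (th * ((u - z : ℤ) : ℝ)) * V (envR u (insert u S)) := by
          apply UR_eq th Λ V z u _ hu.1 (Finset.mem_insert_self _ _)
          intro v hv1 hv2 hv3
          rw [Finset.mem_insert] at hv3
          rcases hv3 with h | h
          · omega
          · exact hfirst v hv1 (by omega) h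
        have henv : envR u (insert u S) = FAF.cons true w := by
          funext j
          unfold FAF.cons envR
          by_cases hj : j = 0
          · subst hj
            rw [if_pos rfl]
            have : u + 1 + ((0 : ℕ) : ℤ) = y := by push_cast; omega
            rw [this]
            simp [hy]
          · rw [if_neg hj, hw]
            unfold envR
            rw [decide_eq_decide, Finset.mem_insert]
            have e1 : u + 1 + (j : ℤ) = y + 1 + ((j - 1 : ℕ) : ℤ) := by omega
            rw [e1]
            constructor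
            · rintro (h | h)
              · omega
              · exact h
            · exact fun h => Or.inr h
        have hexp : Real.exp (th * ((u - z : ℤ) : ℝ)) = e * Real.exp (-th) := by
          rw [he, ← Real.exp_add]
          congr 1
          rw [c1]
          push_cast
          ring
        rw [htu, hkv, hUi, henv, hexp, hUS, if_pos c1]
        have e3 : 1 * (q * (e * Real.exp (-th) * V (FAF.cons true w) - e * V w)) =
            e * (q * (Real.exp (-th) * V (FAF.cons true w) - V w)) := by ring
        rw [e3]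
        linarith
      · rw [if_neg c1, zero_add]
        by_cases c2 : u = z
        · rw [if_pos c2]
          have hz1 : z + 1 ∉ S := hfirst (z + 1) (by omega) (by omega)
          by_cases c3 : z - 1 ∈ S
          · have hkv : kv k u S = 1 := by
              rw [hk u hu.1 (by omega), if_pos]
              left
              rw [c2]
              exact c3
            rw [if_pos ⟨c3, by omega⟩]
            have hUi : UR th Λ V z (insert u S) =
                Real.exp (th * ((u - z : ℤ) : ℝ)) * V (envR u (insert u S)) := by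
              apply UR_eq th Λ V z u _ hu.1 (Finset.mem_insert_self _ _)
              intro v hv1 hv2 hv3
              omega
            have hexp : Real.exp (th * ((u - z : ℤ) : ℝ)) = 1 := by
              rw [c2]
              simp
            have hV2 := hhi (envR u (insert u S))
            have hV0 : 0 ≤ V w := by linarith [hlo w]
            have hU0 : 0 ≤ e * V w := mul_nonneg he0.le hV0
            rw [htu, hkv, hUi, hexp, hUS]
            nlinarith
          · have hkv : kv k u S = 0 := by
              rw [hk u hu.1 (by omega), if_neg]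
              rintro (h | h)
              · rw [c2] at h
                exact c3 h
              · rw [c2] at h
                exact hz1 h
            rw [htu, hkv, zero_mul]
            split_ifs <;> norm_num
        · rw [if_neg c2]
          have hkv : kv k u S = 0 := by
            rw [hk u hu.1 (by omega), if_neg]
            rintro (h | h)
            · exact hfirst (u - 1) (by omega) (by omega) h
            · exact hfirst (u + 1) (by omega) (by omega) h
          rw [htu, hkv, zero_mul]
    refine (Finset.sum_le_sum hterm).trans ?_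
    rw [Finset.sum_add_distrib, Finset.sum_ite_eq', Finset.sum_ite_eq',
      if_pos (Finset.mem_Icc.2 ⟨by omega, le_refl _⟩), if_pos (Finset.mem_Icc.2 ⟨le_refl _, by omega⟩)]
  -- part II
  have hII : t y = e * (if w 0 = true then (1 - q) * (Real.exp th * V (FAF.tl w) - V w) else 0) := by
    have hins : insert y S = S := Finset.insert_eq_self.2 hy
    have hy1 : y - 1 ∉ S := hfirst (y - 1) (by omega) (by omega)
    have hty : t y = kv k y S * ((1 - q) * (UR th Λ V z (S.erase y) - UR th Λ V z S)) := by
      show kv k y S * (q * UR th Λ V z (insert y S) +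
        (1 - q) * UR th Λ V z (S.erase y) - UR th Λ V z S) = _
      rw [hins]
      ring
    by_cases c1 : w 0 = true
    · have hy2 : y + 1 ∈ S := by
        have := (hw0 0).1 c1
        simpa using this
      have hkv : kv k y S = 1 := by
        rw [hk y hzy.le (by omega), if_pos (Or.inr hy2)]
      have hUi : UR th Λ V z (S.erase y) =
          Real.exp (th * ((y + 1 - z : ℤ) : ℝ)) * V (envR (y + 1) (S.erase y)) := by
        apply UR_eq th Λ V z (y + 1) _ (by omega) (Finset.mem_erase.2 ⟨by omega, hy2⟩)
        intro v hv1 hv2 hv3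
        rw [Finset.mem_erase] at hv3
        exact hfirst v hv1 (by omega) hv3.2
      have henv : envR (y + 1) (S.erase y) = FAF.tl w := by
        funext j
        unfold FAF.tl envR
        rw [hw]
        unfold envR
        rw [decide_eq_decide, Finset.mem_erase]
        have e1 : y + 1 + 1 + (j : ℤ) = y + 1 + ((j + 1 : ℕ) : ℤ) := by push_cast; ring
        rw [e1]
        exact ⟨fun h => h.2, fun h => ⟨by omega, h⟩⟩
      have hexp : Real.exp (th * ((y + 1 - z : ℤ) : ℝ)) = e * Real.exp th := by
        rw [he, ← Real.exp_add]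
        congr 1
        push_cast
        ring
      rw [hty, hkv, hUi, henv, hexp, hUS, if_pos c1]
      ring
    · have hy2 : y + 1 ∉ S := by
        intro h
        apply c1
        rw [hw0]
        simpa using h
      have hkv : kv k y S = 0 := by
        rw [hk y hzy.le (by omega), if_neg]
        rintro (h | h)
        · exact hy1 h
        · exact hy2 h
      rw [hty, hkv, if_neg c1, zero_mul, mul_zero]
  -- part III
  have hIII : ∑ u ∈ Icc (y + 1) (y + m), t u = e * ∑ j ∈ range m, FAF.cr w j *
      (q * V (FAF.up w j true) + (1 - q) * V (FAF.up w j false) - V w) := by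
    have himg : Icc (y + 1) (y + m) = (range m).image (fun j : ℕ => y + 1 + (j : ℤ)) := by
      ext u
      rw [Finset.mem_Icc, Finset.mem_image]
      constructor
      · rintro ⟨h2, h3⟩
        refine ⟨(u - (y + 1)).toNat, ?_, ?_⟩
        · rw [Finset.mem_range]
          omega
        · omega
      · rintro ⟨j, hj, rfl⟩
        rw [Finset.mem_range] at hj
        omega
    rw [himg, Finset.sum_image (by
      intro a _ b _ hab
      have hab' : y + 1 + (a : ℤ) = y + 1 + (b : ℤ) := hab
      omega), Finset.mul_sum]
    apply Finset.sum_congr rfl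
    intro j hj
    rw [Finset.mem_range] at hj
    have hkv : kv k (y + 1 + (j : ℤ)) S = FAF.cr w j := by
      rw [hk _ (by omega) (by omega)]
      unfold FAF.cr
      have hiff : (y + 1 + (j : ℤ) - 1 ∈ S ∨ y + 1 + (j : ℤ) + 1 ∈ S) ↔
          (j = 0 ∨ w (j - 1) = true ∨ w (j + 1) = true) := by
        rw [hw0, hw0]
        have e2 : y + 1 + ((j + 1 : ℕ) : ℤ) = y + 1 + (j : ℤ) + 1 := by push_cast; ring
        rw [e2]
        by_cases hj0 : j = 0
        · subst hj0
          constructor
          · intro _
            exact Or.inl rfl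
          · intro _
            left
            have : y + 1 + ((0 : ℕ) : ℤ) - 1 = y := by push_cast; ring
            rw [this]
            exact hy
        · have e1 : y + 1 + ((j - 1 : ℕ) : ℤ) = y + 1 + (j : ℤ) - 1 := by omega
          rw [e1]
          constructor
          · rintro (h | h)
            · exact Or.inr (Or.inl h)
            · exact Or.inr (Or.inr h)
          · rintro (h | h | h)
            · exact absurd h hj0
            · exact Or.inl h
            · exact Or.inr h
      by_cases hc : (j = 0 ∨ w (j - 1) = true ∨ w (j + 1) = true)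
      · rw [if_pos hc, if_pos (hiff.2 hc)]
      · rw [if_neg hc, if_neg (fun h => hc (hiff.1 h))]
    have hU1 : UR th Λ V z (insert (y + 1 + (j : ℤ)) S) = e * V (FAF.up w j true) := by
      rw [UR_eq th Λ V z y (insert (y + 1 + (j : ℤ)) S) hzy.le (Finset.mem_insert_of_mem hy)]
      · congr 2
        funext i
        unfold FAF.up envR
        by_cases hij : i = j
        · subst hij
          simp
        · rw [if_neg hij, hw]
          unfold envR
          rw [decide_eq_decide, Finset.mem_insert]
          constructor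
          · rintro (h | h)
            · exfalso
              apply hij
              omega
            · exact h
          · exact fun h => Or.inr h
      · intro v hv1 hv2 hv3
        rw [Finset.mem_insert] at hv3
        rcases hv3 with h | h
        · omega
        · exact hfirst v hv1 hv2 h
    have hU2 : UR th Λ V z (S.erase (y + 1 + (j : ℤ))) = e * V (FAF.up w j false) := by
      rw [UR_eq th Λ V z y (S.erase (y + 1 + (j : ℤ))) hzy.le (Finset.mem_erase.2 ⟨by omega, hy⟩)]
      · congr 2
        funext i
        unfold FAF.up envR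
        by_cases hij : i = j
        · subst hij
          simp
        · rw [if_neg hij, hw]
          unfold envR
          rw [decide_eq_decide, Finset.mem_erase]
          constructor
          · exact fun h => h.2
          · refine fun h => ⟨?_, h⟩
            intro h'
            apply hij
            omega
      · intro v hv1 hv2 hv3
        rw [Finset.mem_erase] at hv3
        exact hfirst v hv1 hv2 hv3.2
    show kv k (y + 1 + (j : ℤ)) S * (q * UR th Λ V z (insert (y + 1 + (j : ℤ)) S) +
      (1 - q) * UR th Λ V z (S.erase (y + 1 + (j : ℤ))) - UR th Λ V z S) = _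
    rw [hkv, hU1, hU2, hUS]
    ring
  rw [hsum, hsplit, Finset.sum_union hd1, Finset.sum_union hd2, Finset.sum_singleton, hII, hIII]
  have hfin := mul_le_mul_of_nonneg_left (hdr w) he0.le
  rw [hUS]
  have e4 : -c * (e * V w) = e * (-c * V w) := by ring
  rw [e4]
  have e5 : e * (q * (Real.exp (-th) * V (FAF.cons true w) - V w)
      + (if w 0 = true then (1 - q) * (Real.exp th * V (FAF.tl w) - V w) else 0)
      + ∑ k ∈ range m, FAF.cr w k * (q * V (FAF.up w k true) + (1 - q) * V (FAF.up w k false) - V w)) =
      e * (q * (Real.exp (-th) * V (FAF.cons true w) - V w))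
      + e * (if w 0 = true then (1 - q) * (Real.exp th * V (FAF.tl w) - V w) else 0)
      + e * ∑ k ∈ range m, FAF.cr w k *
        (q * V (FAF.up w k true) + (1 - q) * V (FAF.up w k false) - V w) := by ring
  rw [e5] at hfin
  linarith

theorem mem_neg_image (S : Finset ℤ) (x : ℤ) : x ∈ S.image (fun x : ℤ => -x) ↔ -x ∈ S := by
  rw [Finset.mem_image]
  constructor
  · rintro ⟨u, hu, rfl⟩
    rwa [neg_neg]
  · intro h
    exact ⟨-x, h, neg_neg x⟩

theorem neg_image_image (S : Finset ℤ) :
    (S.image (fun x : ℤ => -x)).image (fun x : ℤ => -x) = S := by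
  ext x
  rw [mem_neg_image, mem_neg_image, neg_neg]

theorem UL_refl (th Λ : ℝ) (V : FAF.Env → ℝ) (z : ℤ) (S : Finset ℤ) :
    UL th Λ V z S = UR th Λ V (-z) (S.image (fun x : ℤ => -x)) := by
  by_cases h : (S.filter (fun y => y ≤ z)).Nonempty
  · have hmem := Finset.max'_mem _ h
    have hmax : ∀ b ∈ S, b ≤ z → b ≤ (S.filter (fun y => y ≤ z)).max' h :=
      fun b hb hbz => Finset.le_max' _ _ (Finset.mem_filter.2 ⟨hb, hbz⟩)
    generalize (S.filter (fun y => y ≤ z)).max' h = y at hmem hmax
    rw [Finset.mem_filter] at hmem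
    obtain ⟨hy, hyz⟩ := hmem
    rw [UL_eq th Λ V z y S hyz hy (fun u h1 h2 h3 => absurd (hmax u h3 h1) (not_le.2 h2)),
      UR_eq th Λ V (-z) (-y) _ (by omega) (by rw [mem_neg_image, neg_neg]; exact hy)
        (fun u h1 h2 h3 => by
          rw [mem_neg_image] at h3
          have := hmax (-u) h3 (by omega)
          omega)]
    congr 2
    · congr 1
      push_cast
      ring
    · funext j
      unfold envL envR
      rw [decide_eq_decide, mem_neg_image]
      have : -(-y + 1 + (j : ℤ)) = y - 1 - j := by ring
      rw [this]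
  · have h2 : ∀ y ∈ S, z < y := by
      intro y hy
      by_contra hc
      push Not at hc
      exact h ⟨y, Finset.mem_filter.2 ⟨hy, hc⟩⟩
    rw [UL_none th Λ V z S h2, UR_none]
    intro y hy
    rw [mem_neg_image] at hy
    have := h2 _ hy
    omega

theorem genK_refl (A : Finset ℤ) (k : ℤ → Finset ℤ → Bool) (F : Finset ℤ → ℝ) (S : Finset ℤ) :
    genK q A k (fun T => F (T.image (fun x : ℤ => -x))) S =
      genK q (A.image (fun x : ℤ => -x)) (fun x T => k (-x) (T.image (fun x : ℤ => -x))) F
        (S.image (fun x : ℤ => -x)) := by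
  unfold genK
  have hinj : Function.Injective (fun x : ℤ => -x) := neg_injective
  rw [Finset.sum_image (fun a _ b _ hab => hinj hab)]
  apply Finset.sum_congr rfl
  intro x _
  have e1 : kv (fun x T => k (-x) (T.image (fun x : ℤ => -x))) (-x) (S.image (fun x : ℤ => -x)) =
      kv k x S := by
    unfold kv
    simp only [neg_image_image, neg_neg]
  rw [e1]
  beta_reduce
  rw [Finset.image_insert, Finset.image_erase hinj]

/-- one-sided drift inequality, looking to the left -/
theorem coreL (h0 : 0 < q) (h1 : q < 1) (th c Λ : ℝ) (m : ℕ) (V : FAF.Env → ℝ) (hD : FAF.Drift q th c m V)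
    (A : Finset ℤ) (k : ℤ → Finset ℤ → Bool) (S : Finset ℤ) (z y : ℤ) (hzy : y < z) (hy : y ∈ S)
    (hfirst : ∀ u, u ≤ z → y < u → u ∉ S) (hA : ∀ u, u ≤ z → y - m ≤ u → u ∈ A)
    (hk : ∀ u, u ≤ z → y - m ≤ u → kv k u S = if u - 1 ∈ S ∨ u + 1 ∈ S then 1 else 0) :
    genK q A k (UL th Λ V z) S ≤ -c * UL th Λ V z S +
      (if z + 1 ∈ S ∧ y < z - 1 then 2 else 0) := by
  have hF : (UL th Λ V z) = fun T => UR th Λ V (-z) (T.image (fun x : ℤ => -x)) := by
    funext T
    exact UL_refl th Λ V z T
  rw [hF, genK_refl]
  have hmain := coreR h0 h1 th c Λ m V hD (A.image (fun x : ℤ => -x))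
    (fun x T => k (-x) (T.image (fun x : ℤ => -x))) (S.image (fun x : ℤ => -x)) (-z) (-y)
    (by omega) (by rw [mem_neg_image, neg_neg]; exact hy)
    (fun u g1 g2 g3 => by
      rw [mem_neg_image] at g3
      exact hfirst (-u) (by omega) (by omega) g3)
    (fun u g1 g2 => by
      rw [mem_neg_image]
      exact hA (-u) (by omega) (by omega))
    (fun u g1 g2 => by
      have e1 : kv (fun x T => k (-x) (T.image (fun x : ℤ => -x))) u (S.image (fun x : ℤ => -x)) =
          kv k (-u) S := by
        unfold kv
        simp only [neg_image_image]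
      rw [e1, hk (-u) (by omega) (by omega)]
      have e2 : (-u - 1 ∈ S ∨ -u + 1 ∈ S) ↔
          (u - 1 ∈ S.image (fun x : ℤ => -x) ∨ u + 1 ∈ S.image (fun x : ℤ => -x)) := by
        rw [mem_neg_image, mem_neg_image]
        have e3 : -(u - 1) = -u + 1 := by ring
        have e4 : -(u + 1) = -u - 1 := by ring
        rw [e3, e4]
        exact or_comm
      by_cases hc : (-u - 1 ∈ S ∨ -u + 1 ∈ S)
      · rw [if_pos hc, if_pos (e2.1 hc)]
      · rw [if_neg hc, if_neg (fun h => hc (e2.2 h))])
  refine hmain.trans (le_of_eq ?_)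
  congr 1
  have e5 : (-z - 1 ∈ S.image (fun x : ℤ => -x) ∧ -z + 1 < -y) ↔ (z + 1 ∈ S ∧ y < z - 1) := by
    rw [mem_neg_image]
    have e6 : -(-z - 1) = z + 1 := by ring
    rw [e6]
    constructor
    · rintro ⟨a1, a2⟩
      exact ⟨a1, by omega⟩
    · rintro ⟨a1, a2⟩
      exact ⟨a1, by omega⟩
  by_cases hc : (z + 1 ∈ S ∧ y < z - 1)
  · rw [if_pos hc, if_pos (e5.2 hc)]
  · rw [if_neg hc, if_neg (fun h => hc (e5.1 h))]

end FA
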