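import Pool.Agent.Helper870.FADefs
import Pool.Agent.Helper870.FAG1
import Pool.Agent.Helper870.FAD2
import Pool.Agent.Helper870.FAS10
import Pool.Agent.Helper870.FAD4
import Pool.Agent.Helper870.FAD5
import Pool.Agent.Helper870.FAD9
import Pool.Agent.Helper870.FAD10
import Pool.Agent.Helper870.FAK9a

set_option autoImplicit false
set_option linter.unusedSectionVars false

open Finset

noncomputable section

-- USES: G1 D2 S10 D4 D5 D9 D10 K9a
namespace FA
variable {q : ℝ}

theorem last258 (S : Finset ℤ) (z : ℤ) :
    (∀ y ∈ S, z < y) ∨ ∃ y ∈ S, y ≤ z ∧ ∀ u, u ≤ z → y < u → u ∉ S := by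
  by_cases h : (S.filter (fun y => y ≤ z)).Nonempty
  · right
    have hm := Finset.max'_mem _ h
    rw [Finset.mem_filter] at hm
    refine ⟨_, hm.1, hm.2, fun u hu hyu huS => ?_⟩
    have := Finset.le_max' (S.filter (fun y => y ≤ z)) u (Finset.mem_filter.mpr ⟨huS, hu⟩)
    exact absurd this (not_le.mpr hyu)
  · left
    intro y hy
    by_contra hlt
    exact h ⟨y, Finset.mem_filter.mpr ⟨hy, not_lt.mp hlt⟩⟩

theorem first258 (S : Finset ℤ) (z : ℤ) :
    (∀ y ∈ S, y < z) ∨ ∃ y ∈ S, z ≤ y ∧ ∀ u, z ≤ u → u < y → u ∉ S := by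
  by_cases h : (S.filter (fun y => z ≤ y)).Nonempty
  · right
    have hm := Finset.min'_mem _ h
    rw [Finset.mem_filter] at hm
    refine ⟨_, hm.1, hm.2, fun u hu hyu huS => ?_⟩
    have := Finset.min'_le (S.filter (fun y => z ≤ y)) u (Finset.mem_filter.mpr ⟨huS, hu⟩)
    exact absurd this (not_le.mpr hyu)
  · left
    intro y hy
    by_contra hlt
    exact h ⟨y, Finset.mem_filter.mpr ⟨hy, not_lt.mp hlt⟩⟩

theorem UL_cases258 (th Λ : ℝ) (V : FAF.Env → ℝ) (z : ℤ) (S : Finset ℤ) :
    (UL th Λ V z S = Λ ∧ ∀ y ∈ S, z < y) ∨ ∃ y ∈ S, y ≤ z ∧ (∀ u, u ≤ z → y < u → u ∉ S) ∧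
      UL th Λ V z S = Real.exp (th * ((z - y : ℤ) : ℝ)) * V (envL y S) := by
  rcases last258 S z with h | ⟨y, hy, hyz, hf⟩
  · exact Or.inl ⟨UL_none th Λ V z S h, h⟩
  · exact Or.inr ⟨y, hy, hyz, hf, UL_eq th Λ V z y S hyz hy hf⟩

theorem UR_cases258 (th Λ : ℝ) (V : FAF.Env → ℝ) (z : ℤ) (S : Finset ℤ) :
    (UR th Λ V z S = Λ ∧ ∀ y ∈ S, y < z) ∨ ∃ y ∈ S, z ≤ y ∧ (∀ u, z ≤ u → u < y → u ∉ S) ∧
      UR th Λ V z S = Real.exp (th * ((y - z : ℤ) : ℝ)) * V (envR y S) := by
  rcases first258 S z with h | ⟨y, hy, hyz, hf⟩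
  · exact Or.inl ⟨UR_none th Λ V z S h, h⟩
  · exact Or.inr ⟨y, hy, hyz, hf, UR_eq th Λ V z y S hyz hy hf⟩

theorem kv_kw258 (hL hR : Bool) (a b u : ℤ) (T : Finset ℤ) (h1 : a < u) (h2 : u < b) :
    kv (kw hL hR a b) u T = if u - 1 ∈ T ∨ u + 1 ∈ T then 1 else 0 := by
  have e1 : u - 1 ∈ Icc a b := mem_Icc.mpr ⟨by omega, by omega⟩
  have e2 : u + 1 ∈ Icc a b := mem_Icc.mpr ⟨by omega, by omega⟩
  have e3 : ¬ u = a := by omega
  have e4 : ¬ u = b := by omega
  unfold kv kw
  simp only [e1, e2, e3, e4, true_and, false_and, or_false, decide_eq_true_eq]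

theorem WZ_nonneg (th Λ : ℝ) (hΛ : 0 ≤ Λ) (V : FAF.Env → ℝ) (hV : ∀ z, 1 / 2 ≤ V z) (z : ℤ) (S : Finset ℤ) :
    0 ≤ WZ th Λ V z S := by
  unfold WZ
  refine le_min hΛ (le_min ?_ ?_)
  · rcases UL_cases258 th Λ V z S with ⟨h, -⟩ | ⟨y, -, -, -, h⟩
    · rw [h]; exact hΛ
    · rw [h]
      exact mul_nonneg (Real.exp_pos _).le (le_trans (by norm_num) (hV _))
  · rcases UR_cases258 th Λ V z S with ⟨h, -⟩ | ⟨y, -, -, -, h⟩
    · rw [h]; exact hΛ
    · rw [h]
      exact mul_nonneg (Real.exp_pos _).le (le_trans (by norm_num) (hV _))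

theorem WZ_le_cap (th Λ : ℝ) (V : FAF.Env → ℝ) (z : ℤ) (S : Finset ℤ) : WZ th Λ V z S ≤ Λ :=
  min_le_left _ _

theorem WZ_le (th Λ : ℝ) (hth : 0 < th) (V : FAF.Env → ℝ) (hV : ∀ z, 1 / 2 ≤ V z) (hV2 : ∀ z, V z ≤ 2) (z : ℤ)
    (S : Finset ℤ) (x : ℤ) (hx : x ∈ S) : WZ th Λ V z S ≤ 2 * Real.exp (th * ((|z - x| : ℤ) : ℝ)) := by
  have key : ∀ d e : ℤ, d ≤ e → ∀ w, Real.exp (th * (d : ℝ)) * V w ≤ 2 * Real.exp (th * (e : ℝ)) := by
    intro d e hde w
    have h1 : Real.exp (th * (d : ℝ)) ≤ Real.exp (th * (e : ℝ)) := by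
      apply Real.exp_le_exp.mpr
      apply mul_le_mul_of_nonneg_left _ hth.le
      exact_mod_cast hde
    have h2 := hV2 w
    have h3 := hV w
    have h4 := Real.exp_pos (th * (d : ℝ))
    nlinarith
  rcases le_total x z with hxz | hxz
  · refine ((min_le_right _ _).trans (min_le_left _ _)).trans ?_
    rcases UL_cases258 th Λ V z S with ⟨-, h⟩ | ⟨y, hy, hyz, hf, h⟩
    · exact absurd (h x hx) (not_lt.mpr hxz)
    · rw [h]
      have hxy : x ≤ y := by
        by_contra hc
        exact hf x hxz (not_le.mp hc) hx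
      refine key _ _ ?_ _
      exact (by linarith : z - y ≤ z - x).trans (le_abs_self _)
  · refine ((min_le_right _ _).trans (min_le_right _ _)).trans ?_
    rcases UR_cases258 th Λ V z S with ⟨-, h⟩ | ⟨y, hy, hyz, hf, h⟩
    · exact absurd (h x hx) (not_lt.mpr hxz)
    · rw [h]
      have hxy : y ≤ x := by
        by_contra hc
        exact hf x hxz (not_le.mp hc) hx
      refine key _ _ ?_ _
      have := neg_abs_le (z - x)
      linarith

/-- a long gap makes the function large -/
theorem Ne_le_WZ (th Λ : ℝ) (hth : 0 < th) (V : FAF.Env → ℝ) (hV : ∀ z, 1 / 2 ≤ V z) (hV2 : ∀ z, V z ≤ 2) (z : ℤ)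
    (r : ℕ) (hΛ : Real.exp (th * r) ≤ Λ) (S : Finset ℤ) :
    Ne z r S ≤ 2 * Real.exp (-(th * r)) * WZ th Λ V z S := by
  have hΛ0 : 0 ≤ Λ := (Real.exp_pos _).le.trans hΛ
  have hW := WZ_nonneg th Λ hΛ0 V hV z S
  unfold Ne
  split_ifs with hS
  · have hn : ∀ y ∈ S, y < z - r ∨ z + r < y := by
      intro y hy
      by_contra hc
      push Not at hc
      have : y ∈ S ∩ Icc (z - r) (z + r) := mem_inter.mpr ⟨hy, mem_Icc.mpr hc⟩
      rw [hS] at this
      simp at this
    have hpos := Real.exp_pos (th * r)
    have key : ∀ d : ℤ, (r : ℤ) ≤ d → ∀ w, Real.exp (th * r) / 2 ≤ Real.exp (th * (d : ℝ)) * V w := by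
      intro d hd w
      have h1 : Real.exp (th * r) ≤ Real.exp (th * (d : ℝ)) := by
        apply Real.exp_le_exp.mpr
        apply mul_le_mul_of_nonneg_left _ hth.le
        exact_mod_cast hd
      have h3 := hV w
      nlinarith
    have h1 : Real.exp (th * r) / 2 ≤ WZ th Λ V z S := by
      unfold WZ
      refine le_min (by linarith) (le_min ?_ ?_)
      · rcases UL_cases258 th Λ V z S with ⟨h, -⟩ | ⟨y, hy, hyz, -, h⟩
        · rw [h]; linarith
        · rw [h]
          refine key _ ?_ _
          have := hn y hy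
          omega
      · rcases UR_cases258 th Λ V z S with ⟨h, -⟩ | ⟨y, hy, hyz, -, h⟩
        · rw [h]; linarith
        · rw [h]
          refine key _ ?_ _
          have := hn y hy
          omega
    have h2 : 2 * Real.exp (-(th * r)) * (Real.exp (th * r) / 2) = 1 := by
      have : Real.exp (-(th * r)) * Real.exp (th * r) = 1 := by
        rw [← Real.exp_add]; simp
      linarith
    rw [← h2]
    exact mul_le_mul_of_nonneg_left h1 (by positivity)
  · positivity

/-- locality -/
theorem WZ_loc258 (th Λ : ℝ) (m : ℕ) (V : FAF.Env → ℝ) (hDep : FAF.Dep m V) (z : ℤ) (S S' : Finset ℤ)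
    (hz : z ∈ S) (hz' : z ∈ S') (h : ∀ v, z - m ≤ v → v ≤ z + m → (v ∈ S ↔ v ∈ S')) :
    WZ th Λ V z S = WZ th Λ V z S' := by
  have e1 : V (envL z S) = V (envL z S') := by
    apply hDep
    intro i hi
    unfold envL
    have := h (z - 1 - i) (by omega) (by omega)
    simp only [this]
  have e2 : V (envR z S) = V (envR z S') := by
    apply hDep
    intro i hi
    unfold envR
    have := h (z + 1 + i) (by omega) (by omega)
    simp only [this]
  unfold WZ
  rw [UL_eq th Λ V z z S le_rfl hz (fun u h1 h2 => absurd h2 (not_lt.mpr h1)),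
    UL_eq th Λ V z z S' le_rfl hz' (fun u h1 h2 => absurd h2 (not_lt.mpr h1)),
    UR_eq th Λ V z z S le_rfl hz (fun u h1 h2 => absurd h2 (not_lt.mpr h1)),
    UR_eq th Λ V z z S' le_rfl hz' (fun u h1 h2 => absurd h2 (not_lt.mpr h1)), e1, e2]

open Classical in
/-- two-sided drift inequality on the interval with walls -/
theorem W_gen (h0 : 0 < q) (h1 : q < 1) (th c : ℝ) (m : ℕ) (V : FAF.Env → ℝ) (hD : FAF.Drift q th c m V)
    (hth : 0 < th) (hth1 : th ≤ 1) (hc : 0 < c) (hc1 : c ≤ 1) (hL hR : Bool) (a b z : ℤ) (R : ℕ)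
    (hm : m + 1 ≤ 5 * R) (ha : a + 30 * R ≤ z) (hb : z + 30 * R ≤ b) (Λ : ℝ)
    (hΛ : 2 * Real.exp (th * ((b - a + 1 : ℤ) : ℝ)) ≤ Λ) (T : Finset ℤ) (hT : T ⊆ Icc a b) (hok : Okw hL hR T) :
    (wG q h0 h1 hL hR a b).L (WZ th Λ V z) T ≤ -c * WZ th Λ V z T + (12 * m + 10) +
      ((b - a + 2 : ℤ) : ℝ) * Λ * ((if BadL hL a R T then 1 else 0) + (if BadR hR b R T then 1 else 0)) := by
  have hD' := hD
  obtain ⟨hDep, hV, hV2, -⟩ := hD'
  have hR1 : 1 ≤ R := by omega
  have hΛ0 : 0 ≤ Λ := le_trans (by positivity) hΛ
  have hgen : (wG q h0 h1 hL hR a b).L (WZ th Λ V z) T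
      = genK q (Icc a b) (kw hL hR a b) (WZ th Λ V z) T := by
    unfold wG
    exact kG_L q h0.le h1.le (Icc a b) (kw hL hR a b) _ T
  rw [hgen]
  set W := WZ th Λ V z with hW
  have hW0 : ∀ S, 0 ≤ W S := fun S => WZ_nonneg th Λ hΛ0 V hV z S
  have hWc : ∀ S, W S ≤ Λ := fun S => WZ_le_cap th Λ V z S
  have hm0 : (0 : ℝ) ≤ m := Nat.cast_nonneg m
  by_cases hbad : BadL hL a R T ∨ BadR hR b R T
  · have h1' : genK q (Icc a b) (kw hL hR a b) W T ≤ ((b - a + 1 : ℤ) : ℝ) * (Λ - W T) := by
      unfold genK
      have hterm : ∀ u ∈ Icc a b, kv (kw hL hR a b) u T *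
          (q * W (insert u T) + (1 - q) * W (T.erase u) - W T) ≤ Λ - W T := by
        intro u _
        have hk0 := kv_nonneg (kw hL hR a b) u T
        have hk1 := kv_le (kw hL hR a b) u T
        have hin : q * W (insert u T) + (1 - q) * W (T.erase u) - W T ≤ Λ - W T := by
          have e1 := mul_le_mul_of_nonneg_left (hWc (insert u T)) h0.le
          have e2 := mul_le_mul_of_nonneg_left (hWc (T.erase u)) (by linarith : 0 ≤ 1 - q)
          linarith
        calc _ ≤ kv (kw hL hR a b) u T * (Λ - W T) := mul_le_mul_of_nonneg_left hin hk0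
          _ ≤ 1 * (Λ - W T) := mul_le_mul_of_nonneg_right hk1 (sub_nonneg.2 (hWc T))
          _ = _ := one_mul _
      refine (Finset.sum_le_card_nsmul _ _ _ hterm).trans (le_of_eq ?_)
      rw [nsmul_eq_mul, Int.card_Icc]
      congr 1
      have : ((b + 1 - a).toNat : ℤ) = b - a + 1 := by omega
      exact_mod_cast this
    have h2 : (1 : ℝ) ≤ (if BadL hL a R T then (1:ℝ) else 0) + (if BadR hR b R T then 1 else 0) := by
      rcases hbad with h | h
      · rw [if_pos h]; split_ifs <;> norm_num
      · rw [if_pos h]; split_ifs <;> norm_num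
    have hB : ((b - a + 2 : ℤ) : ℝ) = ((b - a + 1 : ℤ) : ℝ) + 1 := by push_cast; ring
    have hB0 : (0 : ℝ) ≤ ((b - a + 1 : ℤ) : ℝ) := by
      exact_mod_cast (by omega : (0 : ℤ) ≤ b - a + 1)
    have h3 : 0 ≤ ((b - a + 2 : ℤ) : ℝ) * Λ := mul_nonneg (by rw [hB]; linarith) hΛ0
    have h4 := le_mul_of_one_le_right h3 h2
    have h5 : c * W T ≤ Λ := by
      have := hWc T
      have := hW0 T
      nlinarith
    have h6 : 0 ≤ ((b - a + 1 : ℤ) : ℝ) * W T := mul_nonneg hB0 (hW0 T)
    refine h1'.trans ?_
    have h7 : ((b - a + 1 : ℤ) : ℝ) * (Λ - W T) + c * W T ≤ ((b - a + 2 : ℤ) : ℝ) * Λ := by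
      rw [hB]
      linarith [mul_sub ((b - a + 1 : ℤ) : ℝ) Λ (W T), add_mul ((b - a + 1 : ℤ) : ℝ) 1 Λ]
    linarith
  · have hbL : ¬ BadL hL a R T := fun h => hbad (Or.inl h)
    have hbR : ¬ BadR hR b R T := fun h => hbad (Or.inr h)
    rw [if_neg hbL, if_neg hbR]
    have hTne : T.Nonempty := by
      rcases hok with h | h
      · by_contra hne
        rw [Finset.not_nonempty_iff_eq_empty] at hne
        rw [Bool.or_eq_true] at h
        rcases h with h | h
        · exact hbL ⟨Or.inl h, by rw [hne]; simp⟩
        · exact hbR ⟨Or.inl h, by rw [hne]; simp⟩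
      · exact h
    have hgoal : genK q (Icc a b) (kw hL hR a b) W T ≤ -c * W T + (12 * m + 10) := by
      by_cases hz : z ∈ T
      · have hW2 : ∀ S : Finset ℤ, z ∈ S → W S ≤ 2 := by
          intro S hS
          have := WZ_le th Λ hth V hV hV2 z S z hS
          simpa using this
        have hWT := hW2 T hz
        have hterm : ∀ u ∈ Icc a b, kv (kw hL hR a b) u T *
            (q * W (insert u T) + (1 - q) * W (T.erase u) - W T) ≤
            (if u ∈ Icc (z - m) (z + m) then (2:ℝ) else 0) + (if u = z then (6:ℝ) else 0) := by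
          intro u hu
          have hk0 := kv_nonneg (kw hL hR a b) u T
          have hk1 := kv_le (kw hL hR a b) u T
          by_cases huz : u = z
          · subst huz
            rw [if_pos (mem_Icc.mpr ⟨by omega, by omega⟩), if_pos rfl]
            rw [kv_kw258 hL hR a b u T (by omega) (by omega)]
            split_ifs with hcon
            · have hE : W (T.erase u) ≤ 6 := by
                have hexp : Real.exp th ≤ 3 := by
                  have := Real.exp_le_exp.mpr hth1
                  have := Real.exp_one_lt_d9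
                  linarith
                rcases hcon with hx | hx
                · have := WZ_le th Λ hth V hV hV2 u (T.erase u) (u - 1)
                    (mem_erase.mpr ⟨by omega, hx⟩)
                  have e : (|u - (u - 1)| : ℤ) = 1 := by
                    rw [show u - (u - 1) = 1 by ring]; simp
                  rw [e, Int.cast_one, mul_one] at this
                  exact this.trans (by linarith)
                · have := WZ_le th Λ hth V hV hV2 u (T.erase u) (u + 1)
                    (mem_erase.mpr ⟨by omega, hx⟩)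
                  have e : (|u - (u + 1)| : ℤ) = 1 := by
                    rw [show u - (u + 1) = -1 by ring]; simp
                  rw [e, Int.cast_one, mul_one] at this
                  exact this.trans (by linarith)
              rw [insert_eq_of_mem hz, one_mul]
              have e0 := hW0 T
              have e1 := hW0 (T.erase u)
              nlinarith
            · rw [zero_mul]
              norm_num
          · rw [if_neg huz, add_zero]
            by_cases hum : u ∈ Icc (z - m) (z + m)
            · rw [if_pos hum]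
              have e1 := hW2 (insert u T) (mem_insert_of_mem hz)
              have e2 := hW2 (T.erase u) (mem_erase.mpr ⟨Ne.symm huz, hz⟩)
              have e0 := hW0 T
              have hin : q * W (insert u T) + (1 - q) * W (T.erase u) - W T ≤ 2 := by
                have f1 := mul_le_mul_of_nonneg_left e1 h0.le
                have f2 := mul_le_mul_of_nonneg_left e2 (by linarith : 0 ≤ 1 - q)
                linarith
              nlinarith
            · rw [if_neg hum]
              have hum' : u < z - m ∨ z + m < u := by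
                by_contra hcc
                push Not at hcc
                exact hum (mem_Icc.mpr hcc)
              have e1 : W (insert u T) = W T := by
                refine WZ_loc258 th Λ m V hDep z _ _ (mem_insert_of_mem hz) hz ?_
                intro v hv1 hv2
                rw [mem_insert]
                constructor
                · rintro (h | h)
                  · omega
                  · exact h
                · exact Or.inr
              have e2 : W (T.erase u) = W T := by
                refine WZ_loc258 th Λ m V hDep z _ _ (mem_erase.mpr ⟨Ne.symm huz, hz⟩) hz ?_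
                intro v hv1 hv2
                rw [mem_erase]
                constructor
                · exact fun h => h.2
                · intro h
                  exact ⟨by omega, h⟩
              rw [e1, e2]
              have : q * W T + (1 - q) * W T - W T = 0 := by ring
              rw [this, mul_zero]
        have hsum : genK q (Icc a b) (kw hL hR a b) W T ≤ 2 * (2 * m + 1) + 6 := by
          unfold genK
          refine (sum_le_sum hterm).trans ?_
          rw [sum_add_distrib]
          have s1 : ∑ u ∈ Icc a b, (if u ∈ Icc (z - m) (z + m) then (2:ℝ) else 0)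
              ≤ 2 * (2 * m + 1) := by
            rw [sum_ite_mem, sum_const, nsmul_eq_mul]
            have hcard : (Icc a b ∩ Icc (z - m) (z + m)).card ≤ 2 * m + 1 := by
              refine (card_le_card inter_subset_right).trans ?_
              rw [Int.card_Icc]
              omega
            have : (((Icc a b ∩ Icc (z - m) (z + m)).card : ℕ) : ℝ) ≤ 2 * m + 1 := by
              exact_mod_cast hcard
            linarith
          have s2 : ∑ u ∈ Icc a b, (if u = z then (6:ℝ) else 0) ≤ 6 := by
            rw [sum_ite_eq']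
            split_ifs <;> norm_num
          linarith
        have : c * W T ≤ 2 := by
          have := hW0 T
          nlinarith
        linarith
      · obtain ⟨x, hx⟩ := hTne
        have hxI := Finset.mem_Icc.mp (hT hx)
        have hWx := WZ_le th Λ hth V hV hV2 z T x hx
        have hWlt : W T < Λ := by
          have g1 : (|z - x| : ℤ) < b - a + 1 := by
            rw [abs_lt]
            constructor <;> omega
          have g2 : Real.exp (th * ((|z - x| : ℤ):ℝ)) < Real.exp (th * ((b-a+1:ℤ):ℝ)) := by
            apply Real.exp_lt_exp.mpr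
            apply mul_lt_mul_of_pos_left _ hth
            exact_mod_cast g1
          linarith
        have hmin : W T = UL th Λ V z T ∨ W T = UR th Λ V z T := by
          have hdef : W T = min Λ (min (UL th Λ V z T) (UR th Λ V z T)) := rfl
          rcases min_choice Λ (min (UL th Λ V z T) (UR th Λ V z T)) with h | h
          · rw [h] at hdef
            exact absurd hdef hWlt.ne
          · rw [h] at hdef
            rcases min_choice (UL th Λ V z T) (UR th Λ V z T) with h' | h'
            · left; rw [hdef, h']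
            · right; rw [hdef, h']
        rcases hmin with hWT | hWT
        · rcases UL_cases258 th Λ V z T with ⟨h, -⟩ | ⟨y, hyT, hyz, hfirst, hUL⟩
          · rw [h] at hWT
            exact absurd hWT hWlt.ne
          · have hyz' : y < z := lt_of_le_of_ne hyz (fun h => hz (h ▸ hyT))
            have hyI := mem_Icc.mp (hT hyT)
            have hym : a + 1 ≤ y - m := by
              by_contra hcon
              apply hbL
              refine ⟨Or.inr ⟨y, mem_inter.mpr ⟨hyT, mem_Icc.mpr ⟨hyI.1, by omega⟩⟩⟩, ?_⟩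
              rw [Finset.eq_empty_iff_forall_notMem]
              intro u hu
              rw [mem_inter, mem_Icc] at hu
              exact hfirst u (by omega) (by omega) hu.1
            have hcore := coreL h0 h1 th c Λ m V hD (Icc a b) (kw hL hR a b) T z y hyz' hyT hfirst
              (fun u hu1 hu2 => mem_Icc.mpr ⟨by omega, by omega⟩)
              (fun u hu1 hu2 => by
                rw [kv_kw258 hL hR a b u T (by omega) (by omega)])
            have hg := genK_le h0 h1 (Icc a b) (kw hL hR a b) W (UL th Λ V z) T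
              (fun S => (min_le_right _ _).trans (min_le_left _ _)) hWT
            have hif : (if z + 1 ∈ T ∧ y < z - 1 then (2:ℝ) else 0) ≤ 2 := by
              split_ifs <;> norm_num
            rw [← hWT] at hcore
            linarith
        · rcases UR_cases258 th Λ V z T with ⟨h, -⟩ | ⟨y, hyT, hyz, hfirst, hUR⟩
          · rw [h] at hWT
            exact absurd hWT hWlt.ne
          · have hyz' : z < y := lt_of_le_of_ne hyz (fun h => hz (h ▸ hyT))
            have hyI := mem_Icc.mp (hT hyT)
            have hym : y + m + 1 ≤ b := by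
              by_contra hcon
              apply hbR
              refine ⟨Or.inr ⟨y, mem_inter.mpr ⟨hyT, mem_Icc.mpr ⟨by omega, hyI.2⟩⟩⟩, ?_⟩
              rw [Finset.eq_empty_iff_forall_notMem]
              intro u hu
              rw [mem_inter, mem_Icc] at hu
              exact hfirst u (by omega) (by omega) hu.1
            have hcore := coreR h0 h1 th c Λ m V hD (Icc a b) (kw hL hR a b) T z y hyz' hyT hfirst
              (fun u hu1 hu2 => mem_Icc.mpr ⟨by omega, by omega⟩)
              (fun u hu1 hu2 => by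
                rw [kv_kw258 hL hR a b u T (by omega) (by omega)])
            have hg := genK_le h0 h1 (Icc a b) (kw hL hR a b) W (UR th Λ V z) T
              (fun S => (min_le_right _ _).trans (min_le_right _ _)) hWT
            have hif : (if z - 1 ∈ T ∧ z + 1 < y then (2:ℝ) else 0) ≤ 2 := by
              split_ifs <;> norm_num
            rw [← hWT] at hcore
            linarith
    linarith

end FA
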