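import Pool.Agent.Helper870.FADefs
import Pool.Agent.Helper870.FAG1
import Pool.Agent.Helper870.FAS1
import Pool.Agent.Helper870.FAS2
import Pool.Agent.Helper870.FAS3
import Pool.Agent.Helper870.FAD2
import Pool.Agent.Helper870.FAS10
import Pool.Agent.Helper870.FAD4
import Pool.Agent.Helper870.FAD5
import Pool.Agent.Helper870.FAD9
import Pool.Agent.Helper870.FAK1r
import Pool.Agent.Helper870.FAK3
import Pool.Agent.Helper870.FAK7
import Pool.Agent.Helper870.FAD10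
import Pool.Agent.Helper870.FAK9b

set_option autoImplicit false
set_option linter.unusedSectionVars false

open Finset

noncomputable section

-- USES: G1 S1 S2 S3 D2 S10 D4 D5 D9 K1r K3 K7 D10 K9b
namespace FA
variable {q : ℝ}

open Classical in
theorem front_up_pt (θ Λ : ℝ) (hθ : 0 < θ) (hΛ : 0 ≤ Λ) (V : FAF.Env → ℝ) (hV : ∀ z, 1 / 2 ≤ V z)
    (hV2 : ∀ z, V z ≤ 2) (hL hR : Bool) (n : ℕ) (z : ℤ) (R : ℕ) (hz0 : 20 * (R : ℤ) ≤ z)
    (hz1 : z + 20 * (R : ℤ) ≤ n) (T : Finset ℤ) (hT : T ⊆ Icc 0 (n : ℤ)) (hok : Okw hL hR T) :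
    WZ θ Λ V z T ≤ 2 * Real.exp (θ * ((if hL = true ∧ hR = true then 1 / 2 else 1) * n)) +
      Λ * ((if BadL hL 0 R T then 1 else 0) + (if BadR hR n R T then 1 else 0)) := by
  have hcap := WZ_le_cap θ Λ V z T
  have he : 0 < 2 * Real.exp (θ * ((if hL = true ∧ hR = true then 1 / 2 else 1) * n)) := by
    positivity
  have hR0 : (0 : ℤ) ≤ R := Int.natCast_nonneg R
  by_cases hbL : BadL hL 0 R T
  · rw [if_pos hbL]
    have h2 : (0 : ℝ) ≤ (if BadR hR n R T then (1 : ℝ) else 0) := by split_ifs <;> norm_num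
    nlinarith
  by_cases hbR : BadR hR n R T
  · rw [if_pos hbR]
    have h2 : (0 : ℝ) ≤ (if BadL hL 0 R T then (1 : ℝ) else 0) := by split_ifs <;> norm_num
    nlinarith
  rw [if_neg hbL, if_neg hbR, add_zero, mul_zero, add_zero]
  -- a bound from a point
  have hpt : ∀ x ∈ T, ∀ D : ℝ, ((|z - x| : ℤ) : ℝ) ≤ D →
      WZ θ Λ V z T ≤ 2 * Real.exp (θ * D) := by
    intro x hx D hD
    refine (WZ_le θ Λ hθ V hV hV2 z T x hx).trans ?_
    have := mul_le_mul_of_nonneg_left hD hθ.le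
    have h3 := Real.exp_le_exp.mpr this
    linarith
  by_cases hb : hL = true ∧ hR = true
  · rw [if_pos hb]
    have h1 : (T ∩ Icc (0 + 5 * (R : ℤ) + 1) (0 + 20 * R)).Nonempty := by
      rw [Finset.nonempty_iff_ne_empty]
      intro h
      exact hbL ⟨Or.inl hb.1, h⟩
    have h2 : (T ∩ Icc ((n : ℤ) - 20 * R) (n - 5 * R - 1)).Nonempty := by
      rw [Finset.nonempty_iff_ne_empty]
      intro h
      exact hbR ⟨Or.inl hb.2, h⟩
    obtain ⟨x, hx⟩ := h1
    obtain ⟨y, hy⟩ := h2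
    rw [Finset.mem_inter, Finset.mem_Icc] at hx hy
    rcases le_total (2 * z) n with h | h
    · apply hpt x hx.1
      have e1 : |z - x| ≤ z := by
        rw [abs_le]
        constructor <;> linarith [hx.2.1, hx.2.2]
      have e2 : ((|z - x| : ℤ) : ℝ) ≤ (z : ℝ) := by exact_mod_cast e1
      have e3 : 2 * (z : ℝ) ≤ n := by exact_mod_cast h
      linarith
    · apply hpt y hy.1
      have e1 : |z - y| ≤ n - z := by
        rw [abs_le]
        constructor <;> linarith [hy.2.1, hy.2.2]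
      have e2 : ((|z - y| : ℤ) : ℝ) ≤ (n : ℝ) - z := by exact_mod_cast e1
      have e3 : (n : ℝ) ≤ 2 * (z : ℝ) := by exact_mod_cast h
      linarith
  · rw [if_neg hb, one_mul]
    have hne : T.Nonempty := by
      by_contra hT0
      rw [Finset.not_nonempty_iff_eq_empty] at hT0
      rcases hok with h | h
      · rw [Bool.or_eq_true] at h
        rcases h with h | h
        · apply hbL
          refine ⟨Or.inl h, ?_⟩
          rw [hT0, Finset.empty_inter]
        · apply hbR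
          refine ⟨Or.inl h, ?_⟩
          rw [hT0, Finset.empty_inter]
      · rw [hT0] at h
        exact absurd h Finset.not_nonempty_empty
    obtain ⟨x, hx⟩ := hne
    have hx' := hT hx
    rw [Finset.mem_Icc] at hx'
    apply hpt x hx
    have e1 : |z - x| ≤ n := by
      rw [abs_le]
      constructor <;> linarith [hx'.1, hx'.2]
    exact_mod_cast e1

theorem front_up_ind (p : Finset ℤ → Prop) [DecidablePred p] :
    Bd (fun T => if p T then (1 : ℝ) else 0) := by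
  refine ⟨1, fun T => ?_⟩
  dsimp only
  split_ifs <;> norm_num

theorem front_up_Bd_add {X : Type} (F H : X → ℝ) (hF : Bd F) (hH : Bd H) :
    Bd (fun x => F x + H x) := by
  obtain ⟨M, hM⟩ := hF
  obtain ⟨M', hM'⟩ := hH
  exact ⟨M + M', fun x => (abs_add_le _ _).trans (add_le_add (hM x) (hM' x))⟩

theorem front_up_Bd_smul {X : Type} (c : ℝ) (F : X → ℝ) (hF : Bd F) :
    Bd (fun x => c * F x) := by
  obtain ⟨M, hM⟩ := hF
  refine ⟨|c| * M, fun x => ?_⟩
  rw [abs_mul]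
  exact mul_le_mul_of_nonneg_left (hM x) (abs_nonneg c)

theorem front_up_Bd_const {X : Type} (c : ℝ) : Bd (fun _ : X => c) := ⟨|c|, fun _ => le_refl _⟩

theorem front_up_Ne_Bd (z : ℤ) (r : ℕ) : Bd (Ne z r) := by
  refine ⟨1, fun T => ?_⟩
  unfold Ne
  split_ifs <;> norm_num

open Classical in
/-- the core estimate for one system -/
theorem front_up_core (h0 : 0 < q) (h1 : q < 1) (θ l : ℝ) (m : ℕ) (V : FAF.Env → ℝ)
    (hD : FAF.Drift q θ l m V) (hθ : 0 < θ) (hθ1 : θ ≤ 1) (hl : 0 < l) (hl1 : l ≤ 1)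
    (hL hR : Bool) (n R J : ℕ) (c' C' : ℝ) (C1 : ℕ)
    (hescL : ∀ (J : ℕ) (S : Finset ℤ), S ⊆ Icc 0 (n : ℤ) →
      ∀ t : ℝ, (C1 : ℝ) * R ≤ t → 16 * t ≤ J * R →
        (wG q h0 h1 hL hR 0 n).P t (fun T => if BadL hL 0 R T then 1 else 0) S ≤
          C' * (J + 1) ^ 2 * Real.exp (-(c' * R)))
    (hescR : ∀ (J : ℕ) (S : Finset ℤ), S ⊆ Icc 0 (n : ℤ) →
      ∀ t : ℝ, (C1 : ℝ) * R ≤ t → 16 * t ≤ J * R →
        (wG q h0 h1 hL hR 0 n).P t (fun T => if BadR hR n R T then 1 else 0) S ≤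
          C' * (J + 1) ^ 2 * Real.exp (-(c' * R)))
    (hC' : 0 ≤ C') (z : ℤ) (hz0 : 30 * (R : ℤ) ≤ z) (hz1 : z + 30 * (R : ℤ) ≤ n)
    (hm : m + 1 ≤ 5 * R) (t : ℝ) (hs : (C1 : ℝ) * R ≤ t) (hJ : 16 * t ≤ J * R)
    (S : Finset ℤ) (hS : S ⊆ Icc 0 (n : ℤ)) (hok : Okw hL hR S)
    (hdist : θ * ((if hL = true ∧ hR = true then 1 / 2 else 1) * n) ≤ l * (t - C1 * R))
    (M1 : ℝ) (hM1 : ((n : ℝ) + 2) * ((2 * Real.exp (θ * (n + 1))) *
      (C' * (J + 1) ^ 2 * Real.exp (-(c' * R)))) ≤ M1) :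
    (wG q h0 h1 hL hR 0 n).P t (WZ θ (2 * Real.exp (θ * (n + 1))) V z) S ≤
      2 + 2 * M1 + (12 * m + 10 + 2 * M1) / l := by
  set G := wG q h0 h1 hL hR 0 n with hG
  set Λ : ℝ := 2 * Real.exp (θ * (n + 1)) with hΛd
  set ε : ℝ := C' * (J + 1) ^ 2 * Real.exp (-(c' * R)) with hεd
  have hΛ : 0 < Λ := by positivity
  have hε : 0 ≤ ε := by positivity
  have hn0 : (0 : ℝ) ≤ n := Nat.cast_nonneg n
  have hR0 : (0 : ℝ) ≤ R := Nat.cast_nonneg R
  have hRz : (0 : ℤ) ≤ R := Int.natCast_nonneg R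
  have hC10 : (0 : ℝ) ≤ C1 := Nat.cast_nonneg C1
  have hs0 : (0 : ℝ) ≤ C1 * R := by positivity
  have hΛε : Λ * ε ≤ M1 := by
    have h2 : Λ * ε ≤ ((n : ℝ) + 2) * (Λ * ε) := by
      have : 0 ≤ Λ * ε := by positivity
      exact le_mul_of_one_le_left this (by linarith)
    exact h2.trans hM1
  have hV : ∀ z, 1 / 2 ≤ V z := hD.2.1
  have hV2 : ∀ z, V z ≤ 2 := hD.2.2.1
  have hWb : Bd (WZ θ Λ V z) := by
    refine ⟨Λ, fun T => ?_⟩
    rw [abs_of_nonneg (WZ_nonneg θ Λ hΛ.le V hV z T)]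
    exact WZ_le_cap θ Λ V z T
  have iL : Bd (fun T => if BadL hL 0 R T then (1 : ℝ) else 0) := front_up_ind _
  have iR : Bd (fun T => if BadR hR n R T then (1 : ℝ) else 0) := front_up_ind _
  have iLR : Bd (fun T => (if BadL hL 0 R T then (1 : ℝ) else 0) +
      (if BadR hR n R T then (1 : ℝ) else 0)) := front_up_Bd_add _ _ iL iR
  -- the generator inequality
  have hgen : ∀ T ∈ {S : Finset ℤ | S ⊆ Icc 0 (n : ℤ) ∧ Okw hL hR S},
      G.L (WZ θ Λ V z) T ≤ -l * WZ θ Λ V z T + (12 * m + 10) +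
        (((n : ℝ) + 2) * Λ) * ((if BadL hL 0 R T then 1 else 0) +
          (if BadR hR n R T then 1 else 0)) := by
    intro T hT
    have h2 := W_gen h0 h1 θ l m V hD hθ hθ1 hl hl1 hL hR 0 n z R hm (by linarith) hz1 Λ
      (by
        rw [hΛd]
        apply le_of_eq
        push_cast
        ring_nf) T hT.1 hT.2
    have e : ((((n : ℤ) - 0 + 2 : ℤ)) : ℝ) = (n : ℝ) + 2 := by
      push_cast
      ring
    rw [e] at h2
    exact h2
  -- bad events
  have hbad : ∀ s : ℝ, (C1 : ℝ) * R ≤ s → s ≤ t →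
      G.P s (fun T => (if BadL hL 0 R T then (1 : ℝ) else 0) +
        (if BadR hR n R T then (1 : ℝ) else 0)) S ≤ 2 * ε := by
    intro s hs1 hs2
    rw [G.P_add _ _ iL iR]
    have e1 := hescL J S hS s hs1 (by linarith)
    have e2 := hescR J S hS s hs1 (by linarith)
    linarith
  have hB : ∀ s : ℝ, (C1 : ℝ) * R ≤ s → s ≤ t →
      G.P s (fun T => (((n : ℝ) + 2) * Λ) * ((if BadL hL 0 R T then (1 : ℝ) else 0) +
        (if BadR hR n R T then (1 : ℝ) else 0))) S ≤ 2 * M1 := by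
    intro s hs1 hs2
    rw [G.P_smul _ _ iLR]
    have e1 := hbad s hs1 hs2
    have e2 := mul_le_mul_of_nonneg_left e1 (show 0 ≤ ((n : ℝ) + 2) * Λ by positivity)
    refine e2.trans ?_
    calc ((n : ℝ) + 2) * Λ * (2 * ε) = 2 * (((n : ℝ) + 2) * (Λ * ε)) := by ring
      _ ≤ 2 * M1 := by linarith
  have hM10 : 0 ≤ M1 := le_trans (by positivity) hΛε
  have hly := MG.lyap_bad G {S : Finset ℤ | S ⊆ Icc 0 (n : ℤ) ∧ Okw hL hR S}
    (Okw_closed h0 h1 hL hR 0 n) (WZ θ Λ V z)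
    (fun T => (((n : ℝ) + 2) * Λ) * ((if BadL hL 0 R T then (1 : ℝ) else 0) +
        (if BadR hR n R T then (1 : ℝ) else 0))) hWb (front_up_Bd_smul _ _ iLR) l (12 * m + 10) hl
    (by positivity) hgen S ⟨hS, hok⟩ (C1 * R) t (2 * M1) hs0 hs (by positivity) hB
  -- the value at time `s0`
  have hP0 : G.P (C1 * R) (WZ θ Λ V z) S ≤
      2 * Real.exp (θ * ((if hL = true ∧ hR = true then 1 / 2 else 1) * n)) + 2 * M1 := by
    have hcst : Bd (fun _ : Finset ℤ =>
        2 * Real.exp (θ * ((if hL = true ∧ hR = true then 1 / 2 else 1) * n))) :=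
      front_up_Bd_const _
    have e1 := MG.P_mono_on G {S : Finset ℤ | S ⊆ Icc 0 (n : ℤ) ∧ Okw hL hR S}
      (Okw_closed h0 h1 hL hR 0 n) (WZ θ Λ V z)
      (fun T => 2 * Real.exp (θ * ((if hL = true ∧ hR = true then 1 / 2 else 1) * n)) +
        Λ * ((if BadL hL 0 R T then 1 else 0) + (if BadR hR n R T then 1 else 0)))
      hWb (front_up_Bd_add _ _ hcst (front_up_Bd_smul _ _ iLR))
      (fun T hT => front_up_pt θ Λ hθ hΛ.le V hV hV2 hL hR n z R (by linarith) (by linarith) T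
        hT.1 hT.2) (C1 * R) hs0 S ⟨hS, hok⟩
    rw [G.P_add _ _ hcst (front_up_Bd_smul _ _ iLR), G.P_const, G.P_smul _ _ iLR] at e1
    have e2 := hbad (C1 * R) le_rfl hs
    have e3 := mul_le_mul_of_nonneg_left e2 hΛ.le
    have e4 : Λ * (2 * ε) = 2 * (Λ * ε) := by ring
    linarith
  have hexp1 : Real.exp (-(l * (t - C1 * R))) ≤ 1 := by
    rw [Real.exp_le_one_iff]
    have : 0 ≤ l * (t - C1 * R) := mul_nonneg hl.le (by linarith)
    linarith
  have hexp0 : 0 ≤ Real.exp (-(l * (t - C1 * R))) := (Real.exp_pos _).le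
  have hfirst : Real.exp (-(l * (t - C1 * R))) * G.P (C1 * R) (WZ θ Λ V z) S ≤ 2 + 2 * M1 := by
    calc Real.exp (-(l * (t - C1 * R))) * G.P (C1 * R) (WZ θ Λ V z) S ≤
          Real.exp (-(l * (t - C1 * R))) *
          (2 * Real.exp (θ * ((if hL = true ∧ hR = true then 1 / 2 else 1) * n)) + 2 * M1) :=
          mul_le_mul_of_nonneg_left hP0 hexp0
      _ = 2 * (Real.exp (-(l * (t - C1 * R))) *
            Real.exp (θ * ((if hL = true ∧ hR = true then 1 / 2 else 1) * n))) +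
            Real.exp (-(l * (t - C1 * R))) * (2 * M1) := by ring
      _ ≤ 2 * 1 + 1 * (2 * M1) := by
          apply add_le_add
          · apply mul_le_mul_of_nonneg_left _ (by norm_num)
            rw [← Real.exp_add, Real.exp_le_one_iff]
            linarith
          · exact mul_le_mul_of_nonneg_right hexp1 (by positivity)
      _ = 2 + 2 * M1 := by ring
  linarith

open Classical in
/-- after time slightly more than (distance)/v all healthy gaps in the bulk are short -/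
theorem front_up (h0 : 0 < q) (h1 : q < 1) (v : ℝ) (hv : 0 < v)
    (hsp : ∀ a : ℝ, 0 < a → a < v → ∃ θ0 : ℝ, 0 < θ0 ∧ ∀ θ : ℝ, 0 < θ → θ < θ0 →
      ∃ (m : ℕ) (V : FAF.Env → ℝ), FAF.Drift q θ (θ * a) m V)
    (δ η K : ℝ) (hδ : 0 < δ) (hη : 0 < η) :
    ∃ (c C : ℝ) (n0 : ℕ), 0 < c ∧ 0 < C ∧ ∀ n : ℕ, n0 ≤ n → ∀ (hL hR : Bool) (S : Finset ℤ),
      S ⊆ Icc 0 (n : ℤ) → Okw hL hR S → ∀ z : ℤ, δ * n ≤ (z : ℝ) → (z : ℝ) ≤ n - δ * n →
      ∀ t : ℝ, (1 + η) * (if hL = true ∧ hR = true then 1 / 2 else 1) * n / v ≤ t → t ≤ K * n →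
        (wG q h0 h1 hL hR 0 n).P t (Ne z ⌊δ * n⌋₊) S ≤ C * Real.exp (-(c * n)) := by
  obtain ⟨cL, CL, C1L, hcL, hCL, hC1L, hescL⟩ := escL h0 h1
  obtain ⟨cR, CR, C1R, hcR, hCR, hC1R, hescR⟩ := escR h0 h1
  set c' := min cL cR with hc'd
  set C' := max CL CR with hC'd
  set C1 := max C1L C1R with hC1d
  have hc' : 0 < c' := lt_min hcL hcR
  have hC' : 1 ≤ C' := hCL.trans (le_max_left _ _)
  have hC1 : 1 ≤ C1 := hC1L.trans (le_max_left _ _)
  have hC1r : (1 : ℝ) ≤ C1 := by exact_mod_cast hC1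
  -- combined bounds
  have hmon : ∀ (cc CC : ℝ) (R J : ℕ), c' ≤ cc → CC ≤ C' →
      CC * ((J : ℝ) + 1) ^ 2 * Real.exp (-(cc * R)) ≤ C' * (J + 1) ^ 2 * Real.exp (-(c' * R)) := by
    intro cc CC R J hcc hCC
    have hR0 : (0 : ℝ) ≤ R := Nat.cast_nonneg R
    have e1 : Real.exp (-(cc * R)) ≤ Real.exp (-(c' * R)) := by
      apply Real.exp_le_exp.mpr
      have := mul_le_mul_of_nonneg_right hcc hR0
      linarith
    have e2 : CC * ((J : ℝ) + 1) ^ 2 ≤ C' * (J + 1) ^ 2 :=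
      mul_le_mul_of_nonneg_right hCC (by positivity)
    have e3 : 0 ≤ C' * ((J : ℝ) + 1) ^ 2 := by positivity
    exact mul_le_mul e2 e1 (Real.exp_pos _).le e3
  -- the constants
  have hη2 : 0 < 1 + η / 2 := by linarith
  set a : ℝ := v / (1 + η / 2) with had
  have ha : 0 < a := div_pos hv hη2
  have hav : a < v := by
    rw [had, div_lt_iff₀ hη2]
    nlinarith
  have hav2 : a * (1 + η / 2) = v := by
    rw [had]
    field_simp
  set η' : ℝ := (1 + η) / (1 + η / 2) - 1 with hη'd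
  have hη'e : (η' + 1) * (1 + η / 2) = 1 + η := by
    rw [hη'd]
    field_simp
    ring
  have hη' : 0 < η' := by
    by_contra hcon
    push Not at hcon
    nlinarith
  have hη'1 : η' ≤ 1 := by
    by_contra hcon
    push Not at hcon
    nlinarith
  obtain ⟨θ0, hθ0, hθV⟩ := hsp a ha hav
  obtain ⟨δ1, hδ1, hδ1δ, hδ1v⟩ : ∃ δ1 : ℝ, 0 < δ1 ∧ 60 * δ1 ≤ δ ∧ v * C1 * δ1 ≤ η' / 2 := by
    have hvC : 0 < v * C1 := by positivity
    refine ⟨min (δ / 60) (η' / 2 / (v * C1)), lt_min (by positivity) (by positivity), ?_, ?_⟩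
    · have := min_le_left (δ / 60) (η' / 2 / (v * C1))
      linarith
    · have := min_le_right (δ / 60) (η' / 2 / (v * C1))
      rw [le_div_iff₀ hvC] at this
      linarith
  obtain ⟨θ, hθ, hθθ0, hθ1, hθa, hθc⟩ : ∃ θ : ℝ, 0 < θ ∧ θ < θ0 ∧ θ ≤ 1 ∧ θ * a ≤ 1 ∧
      θ ≤ c' * δ1 / 8 := by
    refine ⟨min (min (θ0 / 2) 1) (min (1 / a) (c' * δ1 / 8)),
      lt_min (lt_min (by positivity) one_pos) (lt_min (by positivity) (by positivity)), ?_, ?_, ?_, ?_⟩
    · have e1 : min (min (θ0 / 2) 1) (min (1 / a) (c' * δ1 / 8)) ≤ θ0 / 2 :=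
        (min_le_left _ _).trans (min_le_left _ _)
      linarith
    · exact (min_le_left _ _).trans (min_le_right _ _)
    · have e1 : min (min (θ0 / 2) 1) (min (1 / a) (c' * δ1 / 8)) ≤ 1 / a :=
        (min_le_right _ _).trans (min_le_left _ _)
      rwa [le_div_iff₀ ha] at e1
    · exact (min_le_right _ _).trans (min_le_right _ _)
  obtain ⟨m, V, hD⟩ := hθV θ hθ hθθ0
  set l : ℝ := θ * a with hld
  have hl : 0 < l := mul_pos hθ ha
  set J : ℕ := ⌈32 * K / δ1⌉₊ with hJd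
  have hJ : 32 * K / δ1 ≤ J := Nat.le_ceil _
  set κ : ℝ := 3 / 8 * (c' * δ1) with hκd
  have hκ : 0 < κ := by positivity
  set M1 : ℝ := (2 * (C' * ((J : ℝ) + 1) ^ 2) * Real.exp 1) * (1 / κ + 2) with hM1d
  have hM1 : 0 < M1 := by positivity
  set C2 : ℝ := 2 + 2 * M1 + (12 * m + 10 + 2 * M1) / l with hC2d
  have hC2 : 0 < C2 := by positivity
  obtain ⟨n0, hn0⟩ := exists_nat_ge (max 1 (max (2 / δ1) ((m + 1) / δ1)))
  refine ⟨θ * δ, 2 * Real.exp 1 * C2, n0, by positivity, by positivity, ?_⟩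
  intro n hn hL hR S hS hok z hz0 hz1 t ht0 ht1
  have hnr : (n0 : ℝ) ≤ n := by exact_mod_cast hn
  have hn1 : (1 : ℝ) ≤ n := (le_max_left _ _).trans (hn0.trans hnr)
  have hn2 : 2 / δ1 ≤ n := ((le_max_left _ _).trans (le_max_right _ _)).trans (hn0.trans hnr)
  have hn3 : (m + 1) / δ1 ≤ n := ((le_max_right _ _).trans (le_max_right _ _)).trans (hn0.trans hnr)
  rw [div_le_iff₀ hδ1] at hn2 hn3
  have hnpos : (0 : ℝ) < n := by linarith
  have hδ2 : δ ≤ 1 / 2 := by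
    have : δ * n ≤ n - δ * n := hz0.trans hz1
    by_contra hcon
    push Not at hcon
    have := mul_lt_mul_of_pos_right hcon hnpos
    linarith
  -- `R`
  set R : ℕ := ⌊δ1 * n⌋₊ with hRd
  have hRle : (R : ℝ) ≤ δ1 * n := Nat.floor_le (by positivity)
  have hRlt : δ1 * n < R + 1 := Nat.lt_floor_add_one _
  have hRhalf : δ1 * n / 2 ≤ R := by linarith
  have hR1 : 1 ≤ R := by
    have : (0 : ℝ) < R := by linarith
    exact_mod_cast this
  have hm5 : m + 1 ≤ 5 * R := by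
    have : (m : ℝ) + 1 ≤ 5 * R := by linarith
    exact_mod_cast this
  have h60 : 60 * δ1 * n ≤ δ * n := mul_le_mul_of_nonneg_right hδ1δ hnpos.le
  have hδn : 0 ≤ δ1 * n := by positivity
  have hz0' : 30 * (R : ℤ) ≤ z := by
    have : 30 * (R : ℝ) ≤ z := by linarith
    exact_mod_cast this
  have hz1' : z + 30 * (R : ℤ) ≤ n := by
    have : (z : ℝ) + 30 * (R : ℝ) ≤ n := by linarith
    exact_mod_cast this
  have h30 : (0 : ℤ) + 30 * (R : ℤ) ≤ n := by linarith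
  have h16 : ∀ s : ℝ, s ≤ t → 16 * s ≤ J * R := by
    intro s hst
    have e1 : 32 * K ≤ J * δ1 := by
      rwa [div_le_iff₀ hδ1] at hJ
    have hJ0 : (0 : ℝ) ≤ J := Nat.cast_nonneg J
    have e2 : (J : ℝ) * (δ1 * n / 2) ≤ J * R := mul_le_mul_of_nonneg_left hRhalf hJ0
    have e3 := mul_le_mul_of_nonneg_right e1 (show 0 ≤ (n : ℝ) / 2 by positivity)
    linarith
  -- the factor
  set ρ : ℝ := (if hL = true ∧ hR = true then 1 / 2 else 1) with hρd
  have hρ : 1 / 2 ≤ ρ := by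
    rw [hρd]
    split_ifs <;> norm_num
  have hs0v : (C1 : ℝ) * R * v ≤ η' * (ρ * n) := by
    have e1 : (C1 : ℝ) * R * v ≤ C1 * (δ1 * n) * v := by
      have : (C1 : ℝ) * R ≤ C1 * (δ1 * n) := mul_le_mul_of_nonneg_left hRle (by positivity)
      exact mul_le_mul_of_nonneg_right this hv.le
    have e2 : (C1 : ℝ) * (δ1 * n) * v = (v * C1 * δ1) * n := by ring
    have e3 : (v * C1 * δ1) * n ≤ η' / 2 * n := mul_le_mul_of_nonneg_right hδ1v hnpos.le
    have e4 : η' / 2 * n ≤ η' * (ρ * n) := by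
      have h8 : 0 ≤ η' * n := by positivity
      have := mul_le_mul_of_nonneg_left hρ h8
      linarith
    linarith
  have htv : (1 + η) * (ρ * n) ≤ t * v := by
    rw [div_le_iff₀ hv] at ht0
    linarith
  have hρn : 0 < ρ * n := by positivity
  have hs : (C1 : ℝ) * R ≤ t := by
    have : (C1 : ℝ) * R * v ≤ t * v := by
      have h8 : η' ≤ 1 + η := by linarith
      have := mul_le_mul_of_nonneg_right h8 hρn.le
      linarith
    exact le_of_mul_le_mul_right this hv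
  have ht : 0 ≤ t := le_trans (by positivity) hs
  have hdist : θ * (ρ * n) ≤ l * (t - C1 * R) := by
    have e1 : a * t * (1 + η / 2) = t * v := by rw [← hav2]; ring
    have e2 : (1 + η) * (ρ * n) ≤ a * t * (1 + η / 2) := by rw [e1]; exact htv
    have e3 : (η' + 1) * (ρ * n) ≤ a * t := by
      have : ((η' + 1) * (ρ * n)) * (1 + η / 2) ≤ (a * t) * (1 + η / 2) := by
        calc ((η' + 1) * (ρ * n)) * (1 + η / 2) = ((η' + 1) * (1 + η / 2)) * (ρ * n) := by ring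
          _ = (1 + η) * (ρ * n) := by rw [hη'e]
          _ ≤ _ := e2
      exact le_of_mul_le_mul_right this hη2
    have e4 : a * (C1 * R) ≤ η' * (ρ * n) := by
      have : a * (C1 * R) ≤ v * (C1 * R) := mul_le_mul_of_nonneg_right hav.le (by positivity)
      linarith
    have e5 : ρ * n ≤ a * (t - C1 * R) := by linarith
    calc θ * (ρ * n) ≤ θ * (a * (t - C1 * R)) := mul_le_mul_of_nonneg_left e5 hθ.le
      _ = l * (t - C1 * R) := by rw [hld]; ring
  -- the error constant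
  have hM1' : ((n : ℝ) + 2) * ((2 * Real.exp (θ * (n + 1))) *
      (C' * ((J : ℝ) + 1) ^ 2 * Real.exp (-(c' * R)))) ≤ M1 := by
    have e1 : Real.exp (θ * (n + 1)) * Real.exp (-(c' * R)) ≤ Real.exp 1 * Real.exp (-(κ * n)) := by
      rw [← Real.exp_add, ← Real.exp_add]
      apply Real.exp_le_exp.mpr
      have f1 : c' * (δ1 * n / 2) ≤ c' * R := mul_le_mul_of_nonneg_left hRhalf hc'.le
      have f2 : θ * n ≤ c' * δ1 / 8 * n := mul_le_mul_of_nonneg_right hθc hnpos.le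
      rw [hκd]
      linarith
    have e2 : ((n : ℝ) + 2) * Real.exp (-(κ * n)) ≤ 1 / κ + 2 := by
      have f1 : κ * n + 1 ≤ Real.exp (κ * n) := Real.add_one_le_exp _
      have f2 : Real.exp (-(κ * n)) = (Real.exp (κ * n))⁻¹ := Real.exp_neg _
      have f3 : 0 < Real.exp (κ * n) := Real.exp_pos _
      rw [f2, ← div_eq_mul_inv, div_le_iff₀ f3]
      have f4 : (n : ℝ) ≤ 1 / κ * Real.exp (κ * n) := by
        rw [one_div, ← div_eq_inv_mul, le_div_iff₀ hκ]
        linarith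
      have f6 : 0 ≤ κ * n := by positivity
      have f5 : 2 ≤ 2 * Real.exp (κ * n) := by linarith
      linarith
    calc ((n : ℝ) + 2) * ((2 * Real.exp (θ * (n + 1))) *
          (C' * ((J : ℝ) + 1) ^ 2 * Real.exp (-(c' * R)))) =
        (2 * (C' * ((J : ℝ) + 1) ^ 2)) * ((n : ℝ) + 2) *
          (Real.exp (θ * (n + 1)) * Real.exp (-(c' * R))) := by ring
      _ ≤ (2 * (C' * ((J : ℝ) + 1) ^ 2)) * ((n : ℝ) + 2) *
          (Real.exp 1 * Real.exp (-(κ * n))) :=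
          mul_le_mul_of_nonneg_left e1 (by positivity)
      _ = (2 * (C' * ((J : ℝ) + 1) ^ 2) * Real.exp 1) * (((n : ℝ) + 2) * Real.exp (-(κ * n))) := by
          ring
      _ ≤ (2 * (C' * ((J : ℝ) + 1) ^ 2) * Real.exp 1) * (1 / κ + 2) :=
          mul_le_mul_of_nonneg_left e2 (by positivity)
  have hcore := front_up_core h0 h1 θ l m V hD hθ hθ1 hl hθa hL hR n R J c' C' C1
    (fun J S hS t ht hJ => by
      have e1 : (C1L : ℝ) * R ≤ t := by
        have f1 : (C1L : ℝ) ≤ C1 := by exact_mod_cast le_max_left C1L C1R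
        have f2 : (C1L : ℝ) * R ≤ C1 * R := mul_le_mul_of_nonneg_right f1 (Nat.cast_nonneg R)
        linarith
      exact (hescL hL hR 0 n R hR1 h30 J S hS t e1 hJ).trans
        (hmon cL CL R J (min_le_left _ _) (le_max_left _ _)))
    (fun J S hS t ht hJ => by
      have e1 : (C1R : ℝ) * R ≤ t := by
        have f1 : (C1R : ℝ) ≤ C1 := by exact_mod_cast le_max_right C1L C1R
        have f2 : (C1R : ℝ) * R ≤ C1 * R := mul_le_mul_of_nonneg_right f1 (Nat.cast_nonneg R)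
        linarith
      exact (hescR hL hR 0 n R hR1 h30 J S hS t e1 hJ).trans
        (hmon cR CR R J (min_le_right _ _) (le_max_right _ _)))
    (by linarith) z hz0' hz1' hm5 t hs (h16 t le_rfl) S hS hok hdist M1 hM1'
  -- from `W` to the gap indicator
  set Λ : ℝ := 2 * Real.exp (θ * (n + 1)) with hΛd
  have hΛ : 0 < Λ := by positivity
  have hV : ∀ z, 1 / 2 ≤ V z := hD.2.1
  have hV2 : ∀ z, V z ≤ 2 := hD.2.2.1
  set r : ℕ := ⌊δ * n⌋₊ with hrd
  have hrle : (r : ℝ) ≤ δ * n := Nat.floor_le (by positivity)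
  have hrlt : δ * n < r + 1 := Nat.lt_floor_add_one _
  have hrΛ : Real.exp (θ * r) ≤ Λ := by
    have e1 : Real.exp (θ * r) ≤ Real.exp (θ * (n + 1)) := by
      apply Real.exp_le_exp.mpr
      apply mul_le_mul_of_nonneg_left _ hθ.le
      have := mul_le_mul_of_nonneg_right hδ2 hnpos.le
      linarith
    have e2 : 0 < Real.exp (θ * ((n : ℝ) + 1)) := Real.exp_pos _
    rw [hΛd]
    linarith
  have hWb : Bd (WZ θ Λ V z) := by
    refine ⟨Λ, fun T => ?_⟩
    rw [abs_of_nonneg (WZ_nonneg θ Λ hΛ.le V hV z T)]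
    exact WZ_le_cap θ Λ V z T
  have hfin := MG.P_mono (wG q h0 h1 hL hR 0 n) (Ne z r)
    (fun T => 2 * Real.exp (-(θ * r)) * WZ θ Λ V z T) (front_up_Ne_Bd z r)
    (front_up_Bd_smul _ _ hWb) (fun T => Ne_le_WZ θ Λ hθ V hV hV2 z r hrΛ T) t ht S
  rw [MG.P_smul _ _ _ hWb] at hfin
  refine hfin.trans ?_
  have e1 : 2 * Real.exp (-(θ * r)) * (wG q h0 h1 hL hR 0 n).P t (WZ θ Λ V z) S ≤
      2 * Real.exp (-(θ * r)) * C2 := mul_le_mul_of_nonneg_left hcore (by positivity)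
  have e2 : Real.exp (-(θ * r)) ≤ Real.exp 1 * Real.exp (-(θ * δ * n)) := by
    rw [← Real.exp_add]
    apply Real.exp_le_exp.mpr
    have := mul_le_mul_of_nonneg_left hrlt.le hθ.le
    linarith
  calc 2 * Real.exp (-(θ * r)) * (wG q h0 h1 hL hR 0 n).P t (WZ θ Λ V z) S ≤
        2 * Real.exp (-(θ * r)) * C2 := e1
    _ ≤ 2 * (Real.exp 1 * Real.exp (-(θ * δ * n))) * C2 := by
        apply mul_le_mul_of_nonneg_right _ hC2.le
        linarith
    _ = 2 * Real.exp 1 * C2 * Real.exp (-(θ * δ * n)) := by ring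

end FA
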