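import Pool.Agent.Helper870.FADefs
import Pool.Agent.Helper870.FAG1
import Pool.Agent.Helper870.FAD2
import Pool.Agent.Helper870.FAS10
import Pool.Agent.Helper870.FAD4
import Pool.Agent.Helper870.FALB
import Pool.Agent.Helper870.FAD5
import Pool.Agent.Helper870.FAD9

set_option autoImplicit false
set_option linter.unusedSectionVars false

open Finset

noncomputable section

-- USES: G1 D2 S10 D4 LB D5 D9
namespace FA
variable {q : ℝ}

/-- group average -/
def avG (q : ℝ) (D B : Finset ℤ) (F : Finset ℤ → ℝ) (S : Finset ℤ) : ℝ :=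
  if S ∩ D ∩ B = ∅ then F S else
    (∑ U ∈ D.powerset.filter (fun U => (U ∩ B).Nonempty), wt q D U * F ((S \ D) ∪ U)) / Zg q D B

theorem gblk_Rav (h0 : 0 < q) (h1 : q < 1) (D B : Finset ℤ) (F : Finset ℤ → ℝ) (S : Finset ℤ) :
    (gblk q h0 h1 D B).R F S = avG q D B F S := by
  unfold AO.R gblk avG
  by_cases h : S ∩ D ∩ B = ∅
  · simp [h]
  · simp only [h, if_false]
    rw [Finset.sum_div]
    exact Finset.sum_congr rfl fun U _ => by ring

theorem gblk_Rav' (h0 : 0 < q) (h1 : q < 1) (D B : Finset ℤ) (F : Finset ℤ → ℝ) :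
    (gblk q h0 h1 D B).R F = avG q D B F := funext fun S => gblk_Rav h0 h1 D B F S

theorem avG_of_empty (q : ℝ) (D B : Finset ℤ) (F : Finset ℤ → ℝ) (S : Finset ℤ)
    (h : S ∩ D ∩ B = ∅) : avG q D B F S = F S := by
  unfold avG
  rw [if_pos h]

theorem avG_of_ne (q : ℝ) (D B : Finset ℤ) (F : Finset ℤ → ℝ) (S : Finset ℤ)
    (h : S ∩ D ∩ B ≠ ∅) :
    avG q D B F S =
      (∑ U ∈ D.powerset.filter (fun U => (U ∩ B).Nonempty), wt q D U * F ((S \ D) ∪ U)) /
        Zg q D B := by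
  unfold avG
  rw [if_neg h]

theorem gblk_set1 (D B D' S V : Finset ℤ) (hd : Disjoint D D') (hV : V ⊆ D') :
    ((S \ D') ∪ V) ∩ D ∩ B = S ∩ D ∩ B := by
  ext x
  have h1 : x ∈ D → x ∉ D' := fun h => Finset.disjoint_left.1 hd h
  have h2 : x ∈ V → x ∈ D' := fun h => hV h
  simp only [Finset.mem_inter, Finset.mem_union, Finset.mem_sdiff]
  tauto

theorem gblk_set2 (B B' S U V : Finset ℤ) (hd : Disjoint B B') (hU : U ⊆ B) (hV : V ⊆ B') :
    (((S \ B) ∪ U) \ B') ∪ V = (((S \ B') ∪ V) \ B) ∪ U := by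
  ext x
  have h1 : x ∈ B → x ∉ B' := fun h => Finset.disjoint_left.1 hd h
  have h2 : x ∈ V → x ∈ B' := fun h => hV h
  have h3 : x ∈ U → x ∈ B := fun h => hU h
  simp only [Finset.mem_union, Finset.mem_sdiff]
  tauto

theorem gblk_set3 (D B S U : Finset ℤ) (hU : U ⊆ D) : ((S \ D) ∪ U) ∩ D ∩ B = U ∩ B := by
  ext x
  have h3 : x ∈ U → x ∈ D := fun h => hU h
  simp only [Finset.mem_union, Finset.mem_sdiff, Finset.mem_inter]
  tauto

theorem gblk_set4 (D S U : Finset ℤ) (hU : U ⊆ D) : ((S \ D) ∪ U) \ D = S \ D := by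
  ext x
  have h3 : x ∈ U → x ∈ D := fun h => hU h
  simp only [Finset.mem_union, Finset.mem_sdiff]
  tauto

theorem gblk_comm_aux (q : ℝ) (D B D' B' : Finset ℤ) (hd : Disjoint D D') (F : Finset ℤ → ℝ)
    (S : Finset ℤ) (h : S ∩ D ∩ B = ∅) :
    avG q D B (avG q D' B' F) S = avG q D' B' (avG q D B F) S := by
  rw [avG_of_empty q D B _ S h]
  by_cases h' : S ∩ D' ∩ B' = ∅
  · rw [avG_of_empty q D' B' _ S h', avG_of_empty q D' B' _ S h', avG_of_empty q D B _ S h]
  · rw [avG_of_ne q D' B' _ S h', avG_of_ne q D' B' _ S h']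
    congr 1
    refine Finset.sum_congr rfl fun V hV => ?_
    have hV' := Finset.mem_powerset.1 (Finset.mem_filter.1 hV).1
    rw [avG_of_empty q D B F _ (by rw [gblk_set1 D B D' S V hd hV', h])]

theorem gblk_comm (h0 : 0 < q) (h1 : q < 1) (D B D' B' : Finset ℤ) (hd : Disjoint D D') (F : Finset ℤ → ℝ) :
    (gblk q h0 h1 D B).R ((gblk q h0 h1 D' B').R F) = (gblk q h0 h1 D' B').R ((gblk q h0 h1 D B).R F) := by
  rw [gblk_Rav', gblk_Rav', gblk_Rav', gblk_Rav']
  funext S
  by_cases h : S ∩ D ∩ B = ∅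
  · exact gblk_comm_aux q D B D' B' hd F S h
  by_cases h' : S ∩ D' ∩ B' = ∅
  · exact (gblk_comm_aux q D' B' D B hd.symm F S h').symm
  rw [avG_of_ne q D B _ S h, avG_of_ne q D' B' _ S h']
  have e1 : ∀ U ∈ D.powerset.filter (fun U => (U ∩ B).Nonempty),
      wt q D U * avG q D' B' F ((S \ D) ∪ U) =
      ∑ V ∈ D'.powerset.filter (fun U => (U ∩ B').Nonempty),
        wt q D U * wt q D' V * F ((((S \ D) ∪ U) \ D') ∪ V) / Zg q D' B' := by
    intro U hU
    have hU' := Finset.mem_powerset.1 (Finset.mem_filter.1 hU).1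
    rw [avG_of_ne q D' B' F _ (by rw [gblk_set1 D' B' D S U hd.symm hU']; exact h'),
      Finset.sum_div, Finset.mul_sum]
    exact Finset.sum_congr rfl fun V _ => by ring
  have e2 : ∀ V ∈ D'.powerset.filter (fun U => (U ∩ B').Nonempty),
      wt q D' V * avG q D B F ((S \ D') ∪ V) =
      ∑ U ∈ D.powerset.filter (fun U => (U ∩ B).Nonempty),
        wt q D U * wt q D' V * F ((((S \ D) ∪ U) \ D') ∪ V) / Zg q D B := by
    intro V hV
    have hV' := Finset.mem_powerset.1 (Finset.mem_filter.1 hV).1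
    rw [avG_of_ne q D B F _ (by rw [gblk_set1 D B D' S V hd hV']; exact h),
      Finset.sum_div, Finset.mul_sum]
    refine Finset.sum_congr rfl fun U hU => ?_
    have hU' := Finset.mem_powerset.1 (Finset.mem_filter.1 hU).1
    rw [gblk_set2 D D' S U V hd hU' hV']
    ring
  rw [Finset.sum_congr rfl e1, Finset.sum_congr rfl e2, Finset.sum_comm, Finset.sum_div,
    Finset.sum_div]
  refine Finset.sum_congr rfl fun V _ => ?_
  rw [Finset.sum_div, Finset.sum_div]
  exact Finset.sum_congr rfl fun U _ => by ring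


theorem gblk_cst_aux (D B : Finset ℤ) (F : Finset ℤ → ℝ) (S U : Finset ℤ)
    (hU : U ∈ (if S ∩ D ∩ B = ∅ then {∅} else D.powerset.filter (fun U => (U ∩ B).Nonempty) :
      Finset (Finset ℤ))) :
    avG q D B F (if S ∩ D ∩ B = ∅ then S else (S \ D) ∪ U) = avG q D B F S := by
  by_cases h : S ∩ D ∩ B = ∅
  · rw [if_pos h]
  · rw [if_neg h, Finset.mem_filter, Finset.mem_powerset] at hU
    rw [if_neg h, avG_of_ne q D B F S h,
      avG_of_ne q D B F _ (by rw [gblk_set3 D B S U hU.1]; exact hU.2.ne_empty),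
      gblk_set4 D S U hU.1]

theorem gblk_cst (h0 : 0 < q) (h1 : q < 1) (D B : Finset ℤ) (F : Finset ℤ → ℝ) (S : Finset ℤ) :
    ∀ U ∈ (gblk q h0 h1 D B).K S, (gblk q h0 h1 D B).R F ((gblk q h0 h1 D B).c S U) = (gblk q h0 h1 D B).R F S := by
  intro U hU
  rw [gblk_Rav, gblk_Rav]
  exact gblk_cst_aux D B F S U hU


theorem gblk_inv_split (q : ℝ) (D B : Finset ℤ) (G : Finset ℤ → ℝ) (S : Finset ℤ)
    (hS : S \ D = S) :
    av q D G S = ∑ V ∈ D.powerset.filter (fun U => ¬ (U ∩ B).Nonempty), wt q D V * G (S ∪ V) +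
      ∑ V ∈ D.powerset.filter (fun U => (U ∩ B).Nonempty), wt q D V * G (S ∪ V) := by
  unfold av
  rw [hS, ← Finset.sum_filter_add_sum_filter_not D.powerset (fun U => (U ∩ B).Nonempty), add_comm]

open Classical in
theorem gblk_inv_block (h0 : 0 < q) (h1 : q < 1) (A D B : Finset ℤ) (hDA : D ⊆ A)
    (C : Finset ℤ → Prop) (hst : StabG A D B C) (F H : Finset ℤ → ℝ) (S : Finset ℤ)
    (hSA : S ⊆ A \ D) :
    av q D (fun S => if C S then F S * avG q D B H S else 0) S =
      av q D (fun S => if C S then avG q D B F S * avG q D B H S else 0) S := by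
  have hSB : S \ D = S := by
    rw [Finset.sdiff_eq_self_iff_disjoint]
    exact Finset.disjoint_of_subset_left hSA Finset.sdiff_disjoint
  have hU3 : ∀ V, V ⊆ D → (S ∪ V) ∩ D ∩ B = V ∩ B := by
    intro V hV
    have e1 : S ∪ V = (S \ D) ∪ V := by rw [hSB]
    rw [e1, gblk_set3 D B S V hV]
  rw [gblk_inv_split q D B _ S hSB, gblk_inv_split q D B _ S hSB]
  congr 1
  · refine Finset.sum_congr rfl fun V hV => ?_
    rw [Finset.mem_filter, Finset.mem_powerset, Finset.not_nonempty_iff_eq_empty] at hV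
    rw [avG_of_empty q D B F _ (by rw [hU3 V hV.1, hV.2])]
  · have hN : ∀ (f : Finset ℤ → ℝ) (V : Finset ℤ), V ⊆ D → (V ∩ B).Nonempty →
        avG q D B f (S ∪ V) =
          (∑ U ∈ D.powerset.filter (fun U => (U ∩ B).Nonempty), wt q D U * f (S ∪ U)) /
            Zg q D B := by
      intro f V hV hVn
      have e1 : S ∪ V = (S \ D) ∪ V := by rw [hSB]
      rw [e1, avG_of_ne q D B f _ (by rw [gblk_set3 D B S V hV]; exact hVn.ne_empty),
        gblk_set4 D S V hV, hSB]
    by_cases hex : ∃ V0, V0 ⊆ D ∧ (V0 ∩ B).Nonempty ∧ C (S ∪ V0)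
    · obtain ⟨V0, hV0, hV0n, hCV0⟩ := hex
      have hZ : 0 < Zg q D B := by
        unfold Zg
        apply Finset.sum_pos (fun V _ => wt_pos h0 h1 D V)
        exact ⟨V0, by rw [Finset.mem_filter, Finset.mem_powerset]; exact ⟨hV0, hV0n⟩⟩
      have hall : ∀ V, V ⊆ D → (V ∩ B).Nonempty → C (S ∪ V) := by
        intro V hV hVn
        have hsub : S ∪ V0 ⊆ A := Finset.union_subset (hSA.trans Finset.sdiff_subset)
          (hV0.trans hDA)
        have e1 : S ∪ V0 = (S \ D) ∪ V0 := by rw [hSB]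
        have := hst (S ∪ V0) hsub hCV0 (by
          rw [hU3 V0 hV0]
          exact hV0n) V hV hVn
        rw [e1, gblk_set4 D S V0 hV0, hSB] at this
        exact this
      obtain ⟨rF, hrF⟩ : ∃ rF, rF = (∑ U ∈ D.powerset.filter (fun U => (U ∩ B).Nonempty),
        wt q D U * F (S ∪ U)) / Zg q D B := ⟨_, rfl⟩
      obtain ⟨rH, hrH⟩ : ∃ rH, rH = (∑ U ∈ D.powerset.filter (fun U => (U ∩ B).Nonempty),
        wt q D U * H (S ∪ U)) / Zg q D B := ⟨_, rfl⟩
      have e1 : ∑ V ∈ D.powerset.filter (fun U => (U ∩ B).Nonempty),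
          wt q D V * (if C (S ∪ V) then F (S ∪ V) * avG q D B H (S ∪ V) else 0) =
          (∑ V ∈ D.powerset.filter (fun U => (U ∩ B).Nonempty), wt q D V * F (S ∪ V)) * rH := by
        rw [Finset.sum_mul]
        refine Finset.sum_congr rfl fun V hV => ?_
        rw [Finset.mem_filter, Finset.mem_powerset] at hV
        rw [if_pos (hall V hV.1 hV.2), hN H V hV.1 hV.2, ← hrH]
        ring
      have e2 : ∑ V ∈ D.powerset.filter (fun U => (U ∩ B).Nonempty),
          wt q D V * (if C (S ∪ V) then avG q D B F (S ∪ V) * avG q D B H (S ∪ V) else 0) =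
          (∑ V ∈ D.powerset.filter (fun U => (U ∩ B).Nonempty), wt q D V) * (rF * rH) := by
        rw [Finset.sum_mul]
        refine Finset.sum_congr rfl fun V hV => ?_
        rw [Finset.mem_filter, Finset.mem_powerset] at hV
        rw [if_pos (hall V hV.1 hV.2), hN H V hV.1 hV.2, hN F V hV.1 hV.2, ← hrH, ← hrF]
      have e3 : ∑ V ∈ D.powerset.filter (fun U => (U ∩ B).Nonempty), wt q D V = Zg q D B := rfl
      have e4 : ∑ V ∈ D.powerset.filter (fun U => (U ∩ B).Nonempty), wt q D V * F (S ∪ V) =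
          Zg q D B * rF := by
        rw [hrF]
        field_simp
      rw [e1, e2, e3, e4]
      ring
    · refine Finset.sum_congr rfl fun V hV => ?_
      rw [Finset.mem_filter, Finset.mem_powerset] at hV
      have hnC : ¬ C (S ∪ V) := fun h => hex ⟨V, hV.1, hV.2, h⟩
      rw [if_neg hnC, if_neg hnC]

theorem gblk_inv (h0 : 0 < q) (h1 : q < 1) (A D B : Finset ℤ) (hDA : D ⊆ A) (C : Finset ℤ → Prop)
    (hC : ∃ S ∈ (pfm q h0 h1 A).s, C S) (hst : StabG A D B C) (F H : Finset ℤ → ℝ) :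
    ((pfm q h0 h1 A).cond C hC).E (fun S => F S * (gblk q h0 h1 D B).R H S) =
      ((pfm q h0 h1 A).cond C hC).E (fun S => (gblk q h0 h1 D B).R F S * (gblk q h0 h1 D B).R H S) := by
  classical
  rw [FM.cond_E, FM.cond_E]
  congr 1
  rw [gblk_Rav', gblk_Rav', pfm_E, pfm_E]
  have hsplit : ∀ G : Finset ℤ → ℝ, EA q A G =
      ∑ S ∈ (A \ D).powerset, wt q (A \ D) S * av q D G S := by
    intro G
    have hd : Disjoint (A \ D) D := Finset.sdiff_disjoint
    have hA : (A \ D) ∪ D = A := Finset.sdiff_union_of_subset hDA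
    rw [EA_eq_av, ← congrArg (fun A' => av q A' G ∅) hA]
    show av q ((A \ D) ∪ D) G ∅ = _
    rw [← av_av q hd G ∅]
    show ∑ U ∈ (A \ D).powerset, wt q (A \ D) U * av q D G ((∅ \ (A \ D)) ∪ U) = _
    simp only [Finset.empty_sdiff, Finset.empty_union]
  rw [hsplit, hsplit]
  refine Finset.sum_congr rfl fun S hS => ?_
  rw [gblk_inv_block h0 h1 A D B hDA C hst F H S (Finset.mem_powerset.1 hS)]


open Classical in
/-- the group average as a conditional expectation -/
theorem gblk_R (h0 : 0 < q) (h1 : q < 1) (D B : Finset ℤ) (F : Finset ℤ → ℝ) (S : Finset ℤ)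
    (hS : (S ∩ D ∩ B).Nonempty) (hC : ∃ U ∈ (pfm q h0 h1 D).s, (U ∩ B).Nonempty) :
    (gblk q h0 h1 D B).R F S =
      ((pfm q h0 h1 D).cond (fun U => (U ∩ B).Nonempty) hC).E (fun U => F ((S \ D) ∪ U)) := by
  rw [gblk_Rav, avG_of_ne q D B F S hS.ne_empty, FM.cond_E, pfm_E, pfm_E]
  unfold EA Zg
  simp only [mul_ite, mul_zero, mul_one]
  rw [← Finset.sum_filter, ← Finset.sum_filter]


end FA
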