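import Pool.Agent.Helper870.FADefs
import Pool.Agent.Helper870.FAG1
import Pool.Agent.Helper870.FAG5
import Pool.Agent.Helper870.FAG6
import Pool.Agent.Helper870.FAD2

set_option autoImplicit false
set_option linter.unusedSectionVars false

open Finset

noncomputable section

-- USES: G1 G5 G6 D2
namespace FA
variable {q : ℝ}

theorem Icc_insert_left352 (a b : ℤ) (hab : a ≤ b) : Icc a b = {a} ∪ Icc (a + 1) b := by
  ext x
  simp only [Finset.mem_union, Finset.mem_singleton, Finset.mem_Icc]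
  omega

theorem disj_left352 (a b : ℤ) : Disjoint ({a} : Finset ℤ) (Icc (a + 1) b) := by
  rw [Finset.disjoint_singleton_left, Finset.mem_Icc]
  omega

theorem vx_nonneg352 (h0 : 0 ≤ q) (h1 : q ≤ 1) (x : ℤ) (F : Finset ℤ → ℝ) (S : Finset ℤ) :
    0 ≤ vx q x F S := by
  unfold vx
  exact mul_nonneg (mul_nonneg h0 (by linarith)) (sq_nonneg _)

/-- the local estimate -/
theorem local_est352 (h0 : 0 < q) (h1 : q < 1) (x b : ℤ) (hxb : x + 1 ≤ b) (F D : Finset ℤ → ℝ)
    (hD : ∀ T : Finset ℤ, x + 1 ∈ T → x ∉ T → vx q x F T ≤ D T) :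
    (av q (Icc (x + 1) b) F {x} - av q (Icc (x + 1 + 1) b) F {x + 1}) ^ 2 ≤
      2 / q * va q (Icc (x + 1) b) F {x} +
      2 / (q * (1 - q)) * av q (Icc (x + 1 + 1) b) D {x + 1} := by
  have hr : 0 < 1 - q := by linarith
  obtain ⟨m1, hm1⟩ : ∃ m1, m1 = av q (Icc (x + 1 + 1) b) F (insert (x + 1) {x}) := ⟨_, rfl⟩
  obtain ⟨m0, hm0⟩ : ∃ m0, m0 = av q (Icc (x + 1 + 1) b) F {x} := ⟨_, rfl⟩
  have he : ({x} : Finset ℤ).erase (x + 1) = {x} := by
    apply Finset.erase_eq_of_notMem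
    rw [Finset.mem_singleton]
    omega
  have hF : av q (Icc (x + 1) b) F {x} = q * m1 + (1 - q) * m0 := by
    rw [Icc_insert_left352 (x + 1) b hxb, ← av_av q (disj_left352 (x + 1) b), av_sing, he, hm1, hm0]
  have hv : q * (1 - q) * (m1 - m0) ^ 2 ≤ va q (Icc (x + 1) b) F {x} := by
    rw [Icc_insert_left352 (x + 1) b hxb, va_union q (disj_left352 (x + 1) b), va_sing]
    have e1 : vx q (x + 1) (av q (Icc (x + 1 + 1) b) F) {x} = q * (1 - q) * (m1 - m0) ^ 2 := by
      unfold vx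
      rw [he, hm1, hm0]
    rw [e1]
    have := av_nonneg h0.le h1.le {x + 1} (va q (Icc (x + 1 + 1) b) F) {x}
      (fun T => va_nonneg h0.le h1.le _ _ _)
    linarith
  have h2 : (m1 - av q (Icc (x + 1 + 1) b) F {x + 1}) ^ 2 ≤
      1 / (q * (1 - q)) * av q (Icc (x + 1 + 1) b) D {x + 1} := by
    have e1 : m1 - av q (Icc (x + 1 + 1) b) F {x + 1} =
        av q (Icc (x + 1 + 1) b) (fun T => F (insert x T) - F T) {x + 1} := by
      have e2 : (fun T => F (insert x T) - F T) = (fun T => F (insert x T) + (-1) * F T) := by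
        funext T
        ring
      rw [e2, av_add q _ (fun T => F (insert x T)) (fun T => (-1) * F T), av_smul]
      have e3 : m1 = av q (Icc (x + 1 + 1) b) (fun T => F (insert x T)) {x + 1} := by
        rw [hm1]
        unfold av
        refine Finset.sum_congr rfl (fun U _ => ?_)
        congr 2
        ext y
        by_cases hy : y ∈ U
        · simp [hy]
        · simp only [Finset.mem_union, Finset.mem_sdiff, Finset.mem_insert, Finset.mem_singleton,
            Finset.mem_Icc, hy, or_false]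
          omega
      rw [← e3]
      ring
    have e4 : (av q (Icc (x + 1 + 1) b) (fun T => F (insert x T) - F T) {x + 1}) ^ 2 ≤
        av q (Icc (x + 1 + 1) b) (fun T => (F (insert x T) - F T) ^ 2) {x + 1} := by
      have := va_nonneg h0.le h1.le (Icc (x + 1 + 1) b) (fun T => F (insert x T) - F T) {x + 1}
      unfold va at this
      linarith
    have e5 : av q (Icc (x + 1 + 1) b) (fun T => (F (insert x T) - F T) ^ 2) {x + 1} ≤
        av q (Icc (x + 1 + 1) b) (fun T => 1 / (q * (1 - q)) * D T) {x + 1} := by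
      refine av_mono h0.le h1.le _ _ _ _ (fun U hU => ?_)
      have hm : x + 1 ∈ ({x + 1} \ Icc (x + 1 + 1) b ∪ U : Finset ℤ) := by
        refine Finset.mem_union_left _ (Finset.mem_sdiff.2 ⟨Finset.mem_singleton_self _, ?_⟩)
        rw [Finset.mem_Icc]
        omega
      have hn : x ∉ ({x + 1} \ Icc (x + 1 + 1) b ∪ U : Finset ℤ) := by
        intro h
        rw [Finset.mem_union] at h
        rcases h with h | h
        · simp only [Finset.mem_sdiff, Finset.mem_singleton] at h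
          omega
        · have := Finset.mem_Icc.1 (hU h)
          omega
      have h3 := hD _ hm hn
      unfold vx at h3
      rw [Finset.erase_eq_of_notMem hn] at h3
      rw [one_div, ← div_eq_inv_mul, le_div_iff₀ (by positivity)]
      linarith
    rw [e1]
    refine e4.trans (e5.trans ?_)
    rw [av_smul]
  have h1' : (av q (Icc (x + 1) b) F {x} - m1) ^ 2 ≤ 1 / q * va q (Icc (x + 1) b) F {x} := by
    rw [hF]
    rw [one_div, ← div_eq_inv_mul, le_div_iff₀ h0]
    have e1 : q * m1 + (1 - q) * m0 - m1 = -(1 - q) * (m1 - m0) := by ring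
    rw [e1]
    have e2 : (-(1 - q) * (m1 - m0)) ^ 2 * q = (1 - q) * (q * (1 - q) * (m1 - m0) ^ 2) := by ring
    rw [e2]
    have e3 : 0 ≤ q * (1 - q) * (m1 - m0) ^ 2 := by positivity
    nlinarith
  have h3 : (av q (Icc (x + 1) b) F {x} - av q (Icc (x + 1 + 1) b) F {x + 1}) ^ 2 ≤
      2 * (av q (Icc (x + 1) b) F {x} - m1) ^ 2 +
      2 * (m1 - av q (Icc (x + 1 + 1) b) F {x + 1}) ^ 2 := by
    nlinarith [sq_nonneg ((av q (Icc (x + 1) b) F {x} - m1) -
      (m1 - av q (Icc (x + 1 + 1) b) F {x + 1}))]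
  have e6 : 2 / q * va q (Icc (x + 1) b) F {x} = 2 * (1 / q * va q (Icc (x + 1) b) F {x}) := by
    ring
  have e7 : 2 / (q * (1 - q)) * av q (Icc (x + 1 + 1) b) D {x + 1} =
      2 * (1 / (q * (1 - q)) * av q (Icc (x + 1 + 1) b) D {x + 1}) := by ring
  rw [e6, e7]
  linarith


theorem av_leftmost352 (F' F : Finset ℤ → ℝ) (b' b : ℤ) (hb : b' ≤ b) :
    ∀ (m : ℕ) (a : ℤ), (b' + 1 - a).toNat = m →
      (∀ U ⊆ Icc a b, (∃ u ∈ U, u ≤ b') → F' U = F U) →
      (∀ U ⊆ Icc a b, (∀ u ∈ U, b' < u) → F' U = 0) → av q (Icc a b) F' ∅ =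
      ∑ x ∈ Icc a b', q * (1 - q) ^ (x - a).toNat * av q (Icc (x + 1) b) F {x} := by
  intro m
  induction m with
  | zero =>
    intro a ha hF hF0
    have : Icc a b' = ∅ := by
      apply Finset.Icc_eq_empty
      omega
    rw [this, Finset.sum_empty]
    have h1 : av q (Icc a b) F' ∅ = av q (Icc a b) (fun _ => 0) ∅ := by
      refine av_congr q _ _ _ _ (fun U hU => ?_)
      rw [Finset.empty_sdiff, Finset.empty_union]
      apply hF0 U hU
      intro u hu
      have := Finset.mem_Icc.1 (hU hu)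
      omega
    rw [h1, av_const]
  | succ m ih =>
    intro a ha hF hF0
    have hab' : a ≤ b' := by omega
    have hab : a ≤ b := by omega
    have hsub : Icc (a + 1) b ⊆ Icc a b := by
      intro y hy
      rw [Finset.mem_Icc] at hy ⊢
      omega
    have ih' := ih (a + 1) (by omega) (fun U hU => hF U (hU.trans hsub))
      (fun U hU => hF0 U (hU.trans hsub))
    rw [Icc_insert_left352 a b hab, ← av_av q (disj_left352 a b), av_sing,
      Icc_insert_left352 a b' hab', Finset.sum_union (disj_left352 a b'), Finset.sum_singleton]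
    have e1 : (∅ : Finset ℤ).erase a = ∅ := by simp
    have e2 : (insert a ∅ : Finset ℤ) = {a} := rfl
    rw [e1, e2, ih']
    congr 1
    · rw [sub_self, Int.toNat_zero, pow_zero, mul_one]
      congr 1
      refine av_congr q _ _ _ _ (fun U hU => hF _ ?_ ?_)
      · intro y hy
        rw [Finset.mem_union, Finset.mem_sdiff, Finset.mem_singleton] at hy
        rcases hy with hy | hy
        · rw [hy.1, Finset.mem_Icc]
          omega
        · exact hsub (hU hy)
      · refine ⟨a, Finset.mem_union_left _ ?_, hab'⟩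
        rw [Finset.mem_sdiff, Finset.mem_singleton, Finset.mem_Icc]
        omega
    · rw [Finset.mul_sum]
      refine Finset.sum_congr rfl (fun x hx => ?_)
      rw [Finset.mem_Icc] at hx
      have : (x - a).toNat = (x - (a + 1)).toNat + 1 := by omega
      rw [this, pow_succ]
      ring

theorem av_range352 (F' F : Finset ℤ → ℝ) (a : ℤ) (n : ℕ) (b : ℤ) (hb : a + n ≤ b)
    (hF : ∀ U : Finset ℤ, (U ∩ Icc a (a + n)).Nonempty → F' U = F U)
    (hF0 : ∀ U : Finset ℤ, ¬ (U ∩ Icc a (a + n)).Nonempty → F' U = 0) :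
    av q (Icc a b) F' ∅ = ∑ k ∈ Finset.range (n + 1), q * (1 - q) ^ k *
      av q (Icc (a + k + 1) b) F {a + (k : ℤ)} := by
  rw [av_leftmost352 F' F (a + n) b hb _ a rfl]
  · refine Finset.sum_bij' (fun (x : ℤ) _ => (x - a).toNat) (fun (k : ℕ) _ => a + (k : ℤ))
      ?_ ?_ ?_ ?_ ?_
    · intro x hx
      rw [Finset.mem_Icc] at hx
      rw [Finset.mem_range]
      omega
    · intro k hk
      rw [Finset.mem_range] at hk
      rw [Finset.mem_Icc]
      omega
    · intro x hx
      rw [Finset.mem_Icc] at hx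
      omega
    · intro k hk
      omega
    · intro x hx
      rw [Finset.mem_Icc] at hx
      have : a + ((x - a).toNat : ℤ) = x := by omega
      rw [this]
  · rintro U hU ⟨u, hu, hub⟩
    apply hF
    refine ⟨u, Finset.mem_inter.2 ⟨hu, Finset.mem_Icc.2 ⟨?_, hub⟩⟩⟩
    exact (Finset.mem_Icc.1 (hU hu)).1
  · intro U _ hu
    apply hF0
    rintro ⟨u, hu'⟩
    rw [Finset.mem_inter, Finset.mem_Icc] at hu'
    have := hu u hu'.1
    omega

theorem cond_range352 (h0 : 0 < q) (h1 : q < 1) (a : ℤ) (n : ℕ) (b : ℤ) (hb : a + n ≤ b)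
    (hC : ∃ S ∈ (pfm q h0 h1 (Icc a b)).s, (S ∩ Icc a (a + n)).Nonempty) (F : Finset ℤ → ℝ) :
    ((pfm q h0 h1 (Icc a b)).cond (fun S => (S ∩ Icc a (a + n)).Nonempty) hC).E F =
      ∑ k ∈ Finset.range (n + 1), q * (1 - q) ^ k / (∑ k ∈ Finset.range (n + 1), q * (1 - q) ^ k) *
      av q (Icc (a + k + 1) b) F {a + (k : ℤ)} := by
  rw [FM.cond_E, pfm_E, pfm_E, EA_eq_av, EA_eq_av, av_range352 _ F a n b hb]
  · rw [av_range352 _ (fun _ => 1) a n b hb]
    · simp only [av_const, mul_one]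
      rw [Finset.sum_div]
      exact Finset.sum_congr rfl fun k _ => by ring
    · intro U hU
      exact if_pos hU
    · intro U hU
      exact if_neg hU
  · intro U hU
    exact if_pos hU
  · intro U hU
    exact if_neg hU

open Classical in
/-- Poincare inequality for FA-1f on `Icc a b`, conditioned on an infected site in the prefix `Icc a b'` -/
theorem gap_pre (h0 : 0 < q) (h1 : q < 1) : ∃ C : ℝ, 0 < C ∧ ∀ a b' b : ℤ, a ≤ b' → b' ≤ b →
    ∀ (hC : ∃ S ∈ (pfm q h0 h1 (Icc a b)).s, (S ∩ Icc a b').Nonempty) (F : Finset ℤ → ℝ),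
      ((pfm q h0 h1 (Icc a b)).cond (fun S => (S ∩ Icc a b').Nonempty) hC).Var F ≤
        C * ((pfm q h0 h1 (Icc a b)).cond (fun S => (S ∩ Icc a b').Nonempty) hC).E
          (fun S => ∑ x ∈ Icc a b, cst (Icc a b) x S *
            (if (S.erase x ∩ Icc a b').Nonempty then 1 else 0) * vx q x F S) := by
  have hr : 0 < 1 - q := by linarith
  obtain ⟨Γ, hΓ, hgap⟩ := east_gap h0 h1
  refine ⟨Γ + 4 / q ^ 2 * (2 / q * Γ + 2 / (q * (1 - q))), by positivity, ?_⟩
  intro a b' b hab hb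
  obtain ⟨n, rfl⟩ : ∃ n : ℕ, b' = a + n := ⟨(b' - a).toNat, by omega⟩
  intro hC F
  obtain ⟨D, hD⟩ : ∃ D : Finset ℤ → ℝ, ∀ S, D S = ∑ x ∈ Icc a b,
    cst (Icc a b) x S * (if (S.erase x ∩ Icc a (a + n)).Nonempty then 1 else 0) * vx q x F S :=
      ⟨_, fun _ => rfl⟩
  simp only [← hD]
  obtain ⟨Z, hZ⟩ : ∃ Z : ℝ, Z = ∑ k ∈ Finset.range (n + 1), q * (1 - q) ^ k := ⟨_, rfl⟩
  have hZ0 : 0 < Z := by
    rw [hZ]
    exact Finset.sum_pos (fun k _ => by positivity) ⟨0, by simp⟩
  obtain ⟨P, hP⟩ : ∃ P : ℕ → ℝ, ∀ k, P k = q * (1 - q) ^ k / Z := ⟨_, fun _ => rfl⟩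
  have hPpos : ∀ k, 0 < P k := fun k => by rw [hP]; positivity
  have hPs : ∀ k, P (k + 1) ≤ P k := by
    intro k
    have : P (k + 1) = (1 - q) * P k := by
      rw [hP, hP, pow_succ]
      ring
    rw [this]
    have := hPpos k
    nlinarith
  have hterm : ∀ x S, 0 ≤ cst (Icc a b) x S *
      (if (S.erase x ∩ Icc a (a + n)).Nonempty then 1 else 0) * vx q x F S := by
    intro x S
    refine mul_nonneg (mul_nonneg (cst_nonneg _ _ _) ?_) (vx_nonneg352 h0.le h1.le _ _ _)
    split_ifs <;> norm_num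
  have hD0 : ∀ S, 0 ≤ D S := by
    intro S
    rw [hD]
    exact Finset.sum_nonneg (fun x _ => hterm x S)
  unfold FM.Var
  rw [cond_range352 h0 h1 a n b hb hC, cond_range352 h0 h1 a n b hb hC,
    cond_range352 h0 h1 a n b hb hC]
  simp only [← hZ, ← hP]
  obtain ⟨Fh, hFh⟩ : ∃ Fh : ℕ → ℝ, ∀ k : ℕ,
    Fh k = av q (Icc (a + k + 1) b) F {a + (k : ℤ)} := ⟨_, fun _ => rfl⟩
  obtain ⟨v, hv⟩ : ∃ v : ℕ → ℝ, ∀ k : ℕ,
    v k = va q (Icc (a + k + 1) b) F {a + (k : ℤ)} := ⟨_, fun _ => rfl⟩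
  obtain ⟨d, hd⟩ : ∃ d : ℕ → ℝ, ∀ k : ℕ,
    d k = av q (Icc (a + k + 1) b) D {a + (k : ℤ)} := ⟨_, fun _ => rfl⟩
  have hv0 : ∀ k, 0 ≤ v k := by
    intro k
    rw [hv]
    exact va_nonneg h0.le h1.le _ _ _
  have hd0 : ∀ k, 0 ≤ d k := by
    intro k
    rw [hd]
    exact av_nonneg h0.le h1.le _ _ _ hD0
  have e1 : ∀ k : ℕ, av q (Icc (a + k + 1) b) (fun S => F S ^ 2) {a + (k : ℤ)} =
      v k + Fh k ^ 2 := by
    intro k
    rw [hv, hFh]
    unfold va
    ring
  simp only [e1, ← hFh, ← hd]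
  -- local energies
  have hi : ∀ k ∈ Finset.range (n + 1), v k ≤ Γ * d k := by
    intro k hk
    rw [Finset.mem_range] at hk
    rw [hv, hd]
    refine (hgap (a + k + 1) b F {a + (k : ℤ)}).trans ?_
    refine mul_le_mul_of_nonneg_left ?_ hΓ.le
    refine av_mono h0.le h1.le _ _ _ _ (fun U hU => ?_)
    have hmem : a + (k : ℤ) ∈ ({a + (k : ℤ)} \ Icc (a + k + 1) b ∪ U : Finset ℤ) := by
      refine Finset.mem_union_left _ (Finset.mem_sdiff.2 ⟨Finset.mem_singleton_self _, ?_⟩)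
      rw [Finset.mem_Icc]
      omega
    rw [hD]
    have hsub : Icc (a + (k : ℤ) + 1) b ⊆ Icc a b := by
      intro y hy
      rw [Finset.mem_Icc] at hy ⊢
      omega
    refine le_trans (Finset.sum_le_sum (fun y hy => ?_))
      (Finset.sum_le_sum_of_subset_of_nonneg hsub (fun y _ _ => hterm y _))
    refine mul_le_mul_of_nonneg_right ?_ (vx_nonneg352 h0.le h1.le _ _ _)
    rw [Finset.mem_Icc] at hy
    have hne : ((({a + (k : ℤ)} \ Icc (a + k + 1) b ∪ U : Finset ℤ).erase y) ∩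
        Icc a (a + n)).Nonempty := by
      refine ⟨a + k, Finset.mem_inter.2 ⟨Finset.mem_erase.2 ⟨by omega, hmem⟩,
        Finset.mem_Icc.2 (by omega)⟩⟩
    rw [if_pos hne, mul_one]
    unfold ce cst
    split_ifs with h2 h3 h3
    · exact le_rfl
    · exfalso
      apply h3
      left
      rcases h2 with h2 | h2
      · rw [h2, add_sub_cancel_right]
        exact ⟨Finset.mem_Icc.2 (by omega), hmem⟩
      · exact ⟨Finset.mem_Icc.2 (by omega), h2⟩
    · norm_num
    · exact le_rfl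
  have hloc : ∀ k ∈ Finset.range n, (Fh k - Fh (k + 1)) ^ 2 ≤ 2 / q * v k +
      2 / (q * (1 - q)) * d (k + 1) := by
    intro k hk
    rw [Finset.mem_range] at hk
    rw [hFh, hFh, hv, hd]
    push_cast
    have := local_est352 h0 h1 (a + k) b (by omega) F D (fun T hT1 hT2 => by
      rw [hD]
      have hne : ((T.erase (a + k)) ∩ Icc a (a + n)).Nonempty := by
        refine ⟨a + k + 1, Finset.mem_inter.2 ⟨Finset.mem_erase.2 ⟨by omega, hT1⟩,
          Finset.mem_Icc.2 (by omega)⟩⟩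
      have h4 : vx q (a + k) F T = cst (Icc a b) (a + k) T *
          (if (T.erase (a + k) ∩ Icc a (a + n)).Nonempty then 1 else 0) * vx q (a + k) F T := by
        rw [if_pos hne, mul_one]
        unfold cst
        rw [if_pos, one_mul]
        right
        exact ⟨Finset.mem_Icc.2 (by omega), hT1⟩
      rw [h4]
      exact Finset.single_le_sum (f := fun x => cst (Icc a b) x T *
          (if (T.erase x ∩ Icc a (a + n)).Nonempty then 1 else 0) * vx q x F T)
        (fun y _ => hterm y T) (Finset.mem_Icc.2 (by omega)))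
    rw [← add_assoc a (k : ℤ) 1]
    exact this
  have hpoin := geom_poincare h0 h1 n Fh _ hZ
  simp only [← hP] at hpoin
  obtain ⟨E, hE⟩ : ∃ E, E = ∑ k ∈ Finset.range (n + 1), P k * d k := ⟨_, rfl⟩
  rw [← hE]
  have s1 : ∑ k ∈ Finset.range (n + 1), P k * v k ≤ Γ * E := by
    rw [hE, Finset.mul_sum]
    refine Finset.sum_le_sum (fun k hk => ?_)
    have := mul_le_mul_of_nonneg_left (hi k hk) (hPpos k).le
    linarith
  have s2 : ∑ k ∈ Finset.range n, P (k + 1) * (Fh k - Fh (k + 1)) ^ 2 ≤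
      (2 / q * Γ + 2 / (q * (1 - q))) * E := by
    have t1 : ∑ k ∈ Finset.range n, P (k + 1) * (Fh k - Fh (k + 1)) ^ 2 ≤
        ∑ k ∈ Finset.range n, (2 / q * (P k * v k) + 2 / (q * (1 - q)) * (P (k + 1) * d (k + 1))) := by
      refine Finset.sum_le_sum (fun k hk => ?_)
      have u1 := mul_le_mul_of_nonneg_left (hloc k hk) (hPpos (k + 1)).le
      have u2 := mul_le_mul_of_nonneg_right (hPs k) (hv0 k)
      have u3 : 0 < 2 / q := by positivity
      have u4 := mul_le_mul_of_nonneg_left u2 u3.le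
      linarith
    refine t1.trans ?_
    rw [Finset.sum_add_distrib, ← Finset.mul_sum, ← Finset.mul_sum]
    have t2 : ∑ k ∈ Finset.range n, P k * v k ≤ ∑ k ∈ Finset.range (n + 1), P k * v k := by
      rw [Finset.sum_range_succ]
      have := mul_nonneg (hPpos n).le (hv0 n)
      linarith
    have t3 : ∑ k ∈ Finset.range n, P (k + 1) * d (k + 1) ≤ E := by
      rw [hE, Finset.sum_range_succ']
      have := mul_nonneg (hPpos 0).le (hd0 0)
      linarith
    have u3 : 0 < 2 / q := by positivity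
    have u4 : 0 < 2 / (q * (1 - q)) := by positivity
    have u5 := mul_le_mul_of_nonneg_left (t2.trans s1) u3.le
    have u6 := mul_le_mul_of_nonneg_left t3 u4.le
    linarith
  have s3 : ∑ k ∈ Finset.range (n + 1), P k * (v k + Fh k ^ 2) =
      ∑ k ∈ Finset.range (n + 1), P k * v k + ∑ k ∈ Finset.range (n + 1), P k * Fh k ^ 2 := by
    rw [← Finset.sum_add_distrib]
    refine Finset.sum_congr rfl (fun k _ => ?_)
    ring
  rw [s3]
  have u3 : 0 < 4 / q ^ 2 := by positivity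
  have s4 := mul_le_mul_of_nonneg_left s2 u3.le
  linarith

/-- reflection of configurations -/
def rf352 (c : ℤ) (S : Finset ℤ) : Finset ℤ := S.image (fun x => c - x)

theorem mem_rf352 (c : ℤ) (S : Finset ℤ) (y : ℤ) : y ∈ rf352 c S ↔ c - y ∈ S := by
  unfold rf352
  rw [Finset.mem_image]
  constructor
  · rintro ⟨x, hx, rfl⟩
    rw [sub_sub_cancel]
    exact hx
  · intro h
    exact ⟨c - y, h, by ring⟩

theorem rf_rf352 (c : ℤ) (S : Finset ℤ) : rf352 c (rf352 c S) = S := by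
  ext y
  rw [mem_rf352, mem_rf352, sub_sub_cancel]

theorem card_rf352 (c : ℤ) (S : Finset ℤ) : (rf352 c S).card = S.card := by
  unfold rf352
  apply Finset.card_image_of_injective
  intro x y h
  simp only at h
  omega

theorem rf_Icc352 (a b : ℤ) : rf352 (a + b) (Icc a b) = Icc a b := by
  ext y
  rw [mem_rf352, Finset.mem_Icc, Finset.mem_Icc]
  omega

theorem rf_inter352 (c : ℤ) (S T : Finset ℤ) :
    rf352 c (S ∩ T) = rf352 c S ∩ rf352 c T := by
  ext y
  simp only [mem_rf352, Finset.mem_inter]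

theorem rf_sdiff352 (c : ℤ) (S T : Finset ℤ) :
    rf352 c (S \ T) = rf352 c S \ rf352 c T := by
  ext y
  simp only [mem_rf352, Finset.mem_sdiff]

theorem rf_insert352 (c x : ℤ) (S : Finset ℤ) :
    rf352 c (insert x S) = insert (c - x) (rf352 c S) := by
  ext y
  simp only [mem_rf352, Finset.mem_insert]
  constructor
  · rintro (h | h)
    · left; omega
    · right; exact h
  · rintro (h | h)
    · left; omega
    · right; exact h

theorem rf_erase352 (c x : ℤ) (S : Finset ℤ) :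
    rf352 c (S.erase x) = (rf352 c S).erase (c - x) := by
  ext y
  simp only [mem_rf352, Finset.mem_erase]
  constructor
  · rintro ⟨h, h'⟩
    exact ⟨by omega, h'⟩
  · rintro ⟨h, h'⟩
    exact ⟨by omega, h'⟩

theorem rf_nonempty352 (c : ℤ) (S : Finset ℤ) : (rf352 c S).Nonempty ↔ S.Nonempty := by
  unfold rf352
  exact Finset.image_nonempty

theorem wt_rf352 (q : ℝ) (a b : ℤ) (U : Finset ℤ) :
    wt q (Icc a b) (rf352 (a + b) U) = wt q (Icc a b) U := by
  unfold wt
  have e1 : (Icc a b ∩ rf352 (a + b) U).card = (Icc a b ∩ U).card := by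
    conv_lhs => rw [← rf_Icc352 a b]
    rw [← rf_inter352, card_rf352]
  have e2 : (Icc a b \ rf352 (a + b) U).card = (Icc a b \ U).card := by
    conv_lhs => rw [← rf_Icc352 a b]
    rw [← rf_sdiff352, card_rf352]
  rw [e1, e2]

theorem EA_rf352 (q : ℝ) (a b : ℤ) (F : Finset ℤ → ℝ) :
    EA q (Icc a b) (fun S => F (rf352 (a + b) S)) = EA q (Icc a b) F := by
  unfold EA
  have hsub : ∀ U ∈ (Icc a b).powerset, rf352 (a + b) U ∈ (Icc a b).powerset := by
    intro U hU
    rw [Finset.mem_powerset] at hU ⊢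
    intro y hy
    rw [mem_rf352] at hy
    have := Finset.mem_Icc.1 (hU hy)
    rw [Finset.mem_Icc]
    omega
  refine Finset.sum_bij' (fun U _ => rf352 (a + b) U) (fun U _ => rf352 (a + b) U)
    hsub hsub (fun U _ => rf_rf352 _ _) (fun U _ => rf_rf352 _ _) ?_
  intro U _
  rw [wt_rf352]

theorem cst_rf352 (a b x : ℤ) (S : Finset ℤ) :
    cst (Icc a b) (a + b - x) (rf352 (a + b) S) = cst (Icc a b) x S := by
  unfold cst
  have : ((a + b - x - 1 ∈ Icc a b ∧ a + b - x - 1 ∈ rf352 (a + b) S) ∨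
      (a + b - x + 1 ∈ Icc a b ∧ a + b - x + 1 ∈ rf352 (a + b) S)) ↔
      ((x - 1 ∈ Icc a b ∧ x - 1 ∈ S) ∨ (x + 1 ∈ Icc a b ∧ x + 1 ∈ S)) := by
    have e1 : a + b - (a + b - x - 1) = x + 1 := by ring
    have e2 : a + b - (a + b - x + 1) = x - 1 := by ring
    rw [mem_rf352, mem_rf352, e1, e2]
    simp only [Finset.mem_Icc]
    constructor
    · rintro (⟨h, h'⟩ | ⟨h, h'⟩)
      · right; exact ⟨by omega, h'⟩
      · left; exact ⟨by omega, h'⟩
    · rintro (⟨h, h'⟩ | ⟨h, h'⟩)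
      · right; exact ⟨by omega, h'⟩
      · left; exact ⟨by omega, h'⟩
  simp only [this]

theorem vx_rf352 (q : ℝ) (c x : ℤ) (F : Finset ℤ → ℝ) (S : Finset ℤ) :
    vx q (c - x) F (rf352 c S) = vx q x (fun T => F (rf352 c T)) S := by
  unfold vx
  simp only [rf_insert352, rf_erase352]

theorem condE_rf352 (h0 : 0 < q) (h1 : q < 1) (a b : ℤ) (C C' : Finset ℤ → Prop)
    (hCC : ∀ S, C' (rf352 (a + b) S) ↔ C S)
    (hC : ∃ S ∈ (pfm q h0 h1 (Icc a b)).s, C S) (hC' : ∃ S ∈ (pfm q h0 h1 (Icc a b)).s, C' S)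
    (F : Finset ℤ → ℝ) :
    ((pfm q h0 h1 (Icc a b)).cond C' hC').E F =
      ((pfm q h0 h1 (Icc a b)).cond C hC).E (fun S => F (rf352 (a + b) S)) := by
  classical
  rw [FM.cond_E, FM.cond_E]
  simp only [pfm_E]
  rw [← EA_rf352 q a b, ← EA_rf352 q a b (fun x => if C' x then (1 : ℝ) else 0)]
  simp only [hCC]

open Classical in
/-- the same for a suffix `Icc a' b` -/
theorem gap_suf (h0 : 0 < q) (h1 : q < 1) : ∃ C : ℝ, 0 < C ∧ ∀ a a' b : ℤ, a ≤ a' → a' ≤ b →
    ∀ (hC : ∃ S ∈ (pfm q h0 h1 (Icc a b)).s, (S ∩ Icc a' b).Nonempty) (F : Finset ℤ → ℝ),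
      ((pfm q h0 h1 (Icc a b)).cond (fun S => (S ∩ Icc a' b).Nonempty) hC).Var F ≤
        C * ((pfm q h0 h1 (Icc a b)).cond (fun S => (S ∩ Icc a' b).Nonempty) hC).E
          (fun S => ∑ x ∈ Icc a b, cst (Icc a b) x S *
            (if (S.erase x ∩ Icc a' b).Nonempty then 1 else 0) * vx q x F S) := by
  obtain ⟨C, hCpos, hgap⟩ := gap_pre h0 h1
  refine ⟨C, hCpos, ?_⟩
  intro a a' b ha hb hC F
  have hI : rf352 (a + b) (Icc a (a + b - a')) = Icc a' b := by
    ext y
    rw [mem_rf352, Finset.mem_Icc, Finset.mem_Icc]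
    omega
  have hCC : ∀ S : Finset ℤ, ((rf352 (a + b) S) ∩ Icc a' b).Nonempty ↔
      (S ∩ Icc a (a + b - a')).Nonempty := by
    intro S
    rw [← hI, ← rf_inter352, rf_nonempty352]
  have hC0 : ∃ S ∈ (pfm q h0 h1 (Icc a b)).s, (S ∩ Icc a (a + b - a')).Nonempty := by
    refine ⟨Icc a b, Finset.mem_powerset.2 (Finset.Subset.refl _), a, ?_⟩
    rw [Finset.mem_inter, Finset.mem_Icc, Finset.mem_Icc]
    omega
  have h := hgap a (a + b - a') b (by omega) (by omega) hC0 (fun S => F (rf352 (a + b) S))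
  have hE : ∀ G : Finset ℤ → ℝ,
      ((pfm q h0 h1 (Icc a b)).cond (fun S => (S ∩ Icc a' b).Nonempty) hC).E G =
      ((pfm q h0 h1 (Icc a b)).cond (fun S => (S ∩ Icc a (a + b - a')).Nonempty) hC0).E
        (fun S => G (rf352 (a + b) S)) := fun G =>
    condE_rf352 h0 h1 a b (fun S => (S ∩ Icc a (a + b - a')).Nonempty)
      (fun S => (S ∩ Icc a' b).Nonempty) hCC hC0 hC G
  unfold FM.Var at h ⊢
  rw [hE, hE, hE]
  have hD : ∀ S : Finset ℤ, (∑ x ∈ Icc a b, cst (Icc a b) x (rf352 (a + b) S) *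
      (if ((rf352 (a + b) S).erase x ∩ Icc a' b).Nonempty then (1 : ℝ) else 0) *
        vx q x F (rf352 (a + b) S)) =
      ∑ x ∈ Icc a b, cst (Icc a b) x S *
        (if (S.erase x ∩ Icc a (a + b - a')).Nonempty then (1 : ℝ) else 0) *
          vx q x (fun T => F (rf352 (a + b) T)) S := by
    intro S
    have hmem : ∀ x ∈ Icc a b, a + b - x ∈ Icc a b := by
      intro x hx
      rw [Finset.mem_Icc] at hx ⊢
      omega
    refine Finset.sum_bij' (fun x _ => a + b - x) (fun x _ => a + b - x) hmem hmem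
      (fun x _ => by ring) (fun x _ => by ring) ?_
    intro x _
    have e0 : a + b - (a + b - x) = x := by ring
    have e1 := cst_rf352 a b (a + b - x) S
    have e2 := vx_rf352 q (a + b) (a + b - x) F S
    rw [e0] at e1 e2
    have e3 : ((rf352 (a + b) S).erase x ∩ Icc a' b).Nonempty ↔
        (S.erase (a + b - x) ∩ Icc a (a + b - a')).Nonempty := by
      rw [← hCC, rf_erase352, e0]
    rw [e1, e2]
    simp only [e3]
  simp only [hD]
  exact h

end FA
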