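import Pool.Agent.Helper870.FADefs
import Pool.Agent.Helper870.FAG1
import Pool.Agent.Helper870.FAS9
import Pool.Agent.Helper870.FAD2
import Pool.Agent.Helper870.FAS10
import Pool.Agent.Helper870.FAD4
import Pool.Agent.Helper870.FALB
import Pool.Agent.Helper870.FAD5
import Pool.Agent.Helper870.FAD9
import Pool.Agent.Helper870.FAK5
import Pool.Agent.Helper870.FAK6a

set_option autoImplicit false
set_option linter.unusedSectionVars false

open Finset

noncomputable section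

-- USES: G1 S9 D2 S10 D4 LB D5 D9 K5 K6a
namespace FA
variable {q : ℝ}

theorem grp_aux_cst {D S U : Finset ℤ} (x : ℤ) :
    cst D x ((S \ D) ∪ U) = cst D x U := by
  have key : ∀ y : ℤ, (y ∈ D ∧ y ∈ (S \ D) ∪ U) ↔ (y ∈ D ∧ y ∈ U) := by
    intro y
    rw [Finset.mem_union, Finset.mem_sdiff]
    tauto
  unfold cst
  simp only [key]

theorem grp_aux_inter {D B S U : Finset ℤ} (hB : B ⊆ D) (x : ℤ) :
    ((S \ D) ∪ U).erase x ∩ B = U.erase x ∩ B := by
  ext y
  simp only [Finset.mem_inter, Finset.mem_erase, Finset.mem_union, Finset.mem_sdiff]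
  constructor
  · rintro ⟨⟨h1, h2 | h2⟩, h3⟩
    · exact absurd (hB h3) h2.2
    · exact ⟨⟨h1, h2⟩, h3⟩
  · rintro ⟨⟨h1, h2⟩, h3⟩
    exact ⟨⟨h1, Or.inr h2⟩, h3⟩

theorem grp_aux_vx {D S U : Finset ℤ} {x : ℤ} (hx : x ∈ D) (q : ℝ) (f : Finset ℤ → ℝ) :
    vx q x (fun V => Real.sqrt (f ((S \ D) ∪ V))) U =
      vx q x (fun V => Real.sqrt (f V)) ((S \ D) ∪ U) := by
  have h1 : insert x ((S \ D) ∪ U) = (S \ D) ∪ insert x U := by
    rw [Finset.union_insert]
  have h2 : ((S \ D) ∪ U).erase x = (S \ D) ∪ U.erase x := by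
    rw [Finset.erase_union_distrib, Finset.erase_eq_of_notMem]
    rw [Finset.mem_sdiff]
    exact fun h => h.2 hx
  unfold vx
  rw [h1, h2]

theorem grp_aux_wt (h0 : 0 < q) (h1 : q < 1) (D U : Finset ℤ) :
    (min q (1 - q)) ^ D.card ≤ wt q D U := by
  have hm : 0 ≤ min q (1 - q) := le_min h0.le (by linarith)
  unfold wt
  rw [← Finset.card_inter_add_card_sdiff D U, pow_add]
  apply mul_le_mul
  · exact pow_le_pow_left₀ hm (min_le_left _ _) _
  · exact pow_le_pow_left₀ hm (min_le_right _ _) _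
  · exact pow_nonneg hm _
  · exact pow_nonneg h0.le _

open Classical in
theorem grp_aux_w (h0 : 0 < q) (h1 : q < 1) (D : Finset ℤ) (C : Finset ℤ → Prop)
    (hC : ∃ U ∈ (pfm q h0 h1 D).s, C U) :
    ∀ x ∈ ((pfm q h0 h1 D).cond C hC).s, (min q (1 - q)) ^ D.card ≤
      ((pfm q h0 h1 D).cond C hC).w x := by
  intro x hx
  have e : ((pfm q h0 h1 D).cond C hC).w x =
      wt q D x / ∑ y ∈ D.powerset.filter C, wt q D y := rfl
  rw [e]
  have hx' : x ∈ D.powerset.filter C := hx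
  have hpos : 0 < ∑ y ∈ D.powerset.filter C, wt q D y :=
    Finset.sum_pos (fun y _ => wt_pos h0 h1 D y) ⟨x, hx'⟩
  have hle : ∑ y ∈ D.powerset.filter C, wt q D y ≤ 1 := by
    rw [← wt_sum q D]
    exact Finset.sum_le_sum_of_subset_of_nonneg (Finset.filter_subset _ _)
      (fun y _ _ => (wt_pos h0 h1 D y).le)
  rw [le_div_iff₀ hpos]
  have h2 := grp_aux_wt h0 h1 D x
  have h3 : 0 ≤ (min q (1 - q)) ^ D.card := pow_nonneg (le_min h0.le (by linarith)) _
  calc (min q (1 - q)) ^ D.card * ∑ y ∈ D.powerset.filter C, wt q D y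
      ≤ (min q (1 - q)) ^ D.card * 1 := mul_le_mul_of_nonneg_left hle h3
    _ = (min q (1 - q)) ^ D.card := mul_one _
    _ ≤ _ := h2

open Classical in
/-- log-Sobolev inequality in one group -/
theorem grp_lsi (h0 : 0 < q) (h1 : q < 1) : ∃ K : ℝ, 0 < K ∧ ∀ a a' b' b : ℤ, a ≤ a' → a' ≤ b' → b' ≤ b →
    (a' = a ∨ b' = b) → ∀ f : Finset ℤ → ℝ, (∀ S, 0 < f S) → ∀ S : Finset ℤ,
    (S ∩ Icc a b ∩ Icc a' b').Nonempty →
      (gblk q h0 h1 (Icc a b) (Icc a' b')).R (fun T => f T * Real.log (f T)) S -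
        (gblk q h0 h1 (Icc a b) (Icc a' b')).R f S *
          Real.log ((gblk q h0 h1 (Icc a b) (Icc a' b')).R f S) ≤
      K * ((b - a + 1 : ℤ) : ℝ) * (gblk q h0 h1 (Icc a b) (Icc a' b')).R
        (fun T => ∑ x ∈ Icc a b, cst (Icc a b) x T *
          (if (T.erase x ∩ Icc a' b').Nonempty then 1 else 0) * vx q x (fun U => Real.sqrt (f U)) T) S := by
  obtain ⟨C1, hC1, hgap1⟩ := gap_pre h0 h1
  obtain ⟨C2, hC2, hgap2⟩ := gap_suf h0 h1
  have hm0 : 0 < min q (1 - q) := lt_min h0 (by linarith)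
  have hm1 : min q (1 - q) < 1 := lt_of_le_of_lt (min_le_left _ _) h1
  obtain ⟨L0, hL0⟩ : ∃ L0, L0 = Real.log (1 / min q (1 - q)) := ⟨_, rfl⟩
  have hL0pos : 0 ≤ L0 := by
    rw [hL0]
    apply Real.log_nonneg
    rw [le_div_iff₀ hm0]
    linarith
  have hCm : 0 < max C1 C2 := lt_of_lt_of_le hC1 (le_max_left _ _)
  refine ⟨2 * (5 + 4 * L0) * max C1 C2, by positivity, ?_⟩
  intro a a' b' b haa' ha'b' hb'b hor f hf S hS
  have hBD : Icc a' b' ⊆ Icc a b := Finset.Icc_subset_Icc haa' hb'b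
  have hC : ∃ U ∈ (pfm q h0 h1 (Icc a b)).s, (U ∩ Icc a' b').Nonempty :=
    ⟨S ∩ Icc a b, Finset.mem_powerset.2 Finset.inter_subset_right, hS⟩
  obtain ⟨m, hm⟩ : ∃ m, m = (pfm q h0 h1 (Icc a b)).cond
    (fun U => (U ∩ Icc a' b').Nonempty) hC := ⟨_, rfl⟩
  obtain ⟨g, hg⟩ : ∃ g : Finset ℤ → ℝ, g = fun U => f ((S \ Icc a b) ∪ U) := ⟨_, rfl⟩
  have hgpos : ∀ U, 0 < g U := by
    intro U
    rw [hg]
    exact hf _
  have e1 : (gblk q h0 h1 (Icc a b) (Icc a' b')).R (fun T => f T * Real.log (f T)) S =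
      m.E (fun U => g U * Real.log (g U)) := by
    rw [hm, hg]
    exact gblk_R h0 h1 _ _ _ S hS hC
  have e2 : (gblk q h0 h1 (Icc a b) (Icc a' b')).R f S = m.E g := by
    rw [hm, hg]
    exact gblk_R h0 h1 _ _ _ S hS hC
  have e3 : (gblk q h0 h1 (Icc a b) (Icc a' b')).R
        (fun T => ∑ x ∈ Icc a b, cst (Icc a b) x T *
          (if (T.erase x ∩ Icc a' b').Nonempty then 1 else 0) *
            vx q x (fun U => Real.sqrt (f U)) T) S =
      m.E (fun U => ∑ x ∈ Icc a b, cst (Icc a b) x U *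
          (if (U.erase x ∩ Icc a' b').Nonempty then 1 else 0) *
            vx q x (fun V => Real.sqrt (g V)) U) := by
    rw [gblk_R h0 h1 _ _ _ S hS hC, ← hm]
    unfold FM.E
    apply Finset.sum_congr rfl
    intro U _
    congr 1
    apply Finset.sum_congr rfl
    intro x hx
    rw [grp_aux_cst, grp_aux_inter hBD, hg, grp_aux_vx hx]
  rw [e1, e2, e3]
  have hlt := ent_le_var m ((min q (1 - q)) ^ (Icc a b).card) (pow_pos hm0 _)
    (by rw [hm]; exact grp_aux_w h0 h1 (Icc a b) _ hC) g hgpos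
  have hn : ((Icc a b).card : ℝ) = ((b - a + 1 : ℤ) : ℝ) := by
    rw [Int.card_Icc]
    have : (((b + 1 - a).toNat : ℤ) : ℝ) = ((b - a + 1 : ℤ) : ℝ) := by
      congr 1
      omega
    rw [← this]
    rfl
  have hn1 : (1:ℝ) ≤ ((b - a + 1 : ℤ) : ℝ) := by
    have : (1:ℤ) ≤ b - a + 1 := by omega
    exact_mod_cast this
  obtain ⟨n, hnn⟩ : ∃ n : ℝ, n = ((b - a + 1 : ℤ) : ℝ) := ⟨_, rfl⟩
  rw [← hnn] at hn hn1 ⊢
  have hlog : Real.log (1 / (min q (1 - q)) ^ (Icc a b).card) = n * L0 := by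
    rw [← one_div_pow, Real.log_pow, hn, hL0]
  rw [hlog] at hlt
  obtain ⟨EE, hEE⟩ : ∃ EE, EE = m.E (fun U => ∑ x ∈ Icc a b, cst (Icc a b) x U *
          (if (U.erase x ∩ Icc a' b').Nonempty then 1 else 0) *
            vx q x (fun V => Real.sqrt (g V)) U) := ⟨_, rfl⟩
  rw [← hEE]
  have hEE0 : 0 ≤ EE := by
    rw [hEE]
    unfold FM.E
    apply Finset.sum_nonneg
    intro U hU
    apply mul_nonneg (m.hw U hU).le
    apply Finset.sum_nonneg
    intro x _
    apply mul_nonneg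
    · apply mul_nonneg (cst_nonneg _ _ _)
      split_ifs <;> norm_num
    · unfold vx
      have : 0 < 1 - q := by linarith
      positivity
  have hvar : m.Var (fun x => Real.sqrt (g x)) ≤ max C1 C2 * EE := by
    rcases hor with h | h
    · subst h
      have := hgap1 a' b' b ha'b' hb'b hC (fun x => Real.sqrt (g x))
      rw [← hm, ← hEE] at this
      exact le_trans this (mul_le_mul_of_nonneg_right (le_max_left _ _) hEE0)
    · subst h
      have := hgap2 a a' b' haa' ha'b' hC (fun x => Real.sqrt (g x))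
      rw [← hm, ← hEE] at this
      exact le_trans this (mul_le_mul_of_nonneg_right (le_max_right _ _) hEE0)
  have hEnt : m.E (fun U => g U * Real.log (g U)) - m.E g * Real.log (m.E g) = m.Ent g := rfl
  rw [hEnt]
  have hfac : 2 * (5 + 4 * (n * L0)) ≤ 2 * (5 + 4 * L0) * n := by
    nlinarith
  have hfac0 : 0 ≤ 2 * (5 + 4 * (n * L0)) := by
    have : 0 ≤ n * L0 := mul_nonneg (by linarith) hL0pos
    linarith
  calc m.Ent g ≤ 2 * (5 + 4 * (n * L0)) * m.Var (fun x => Real.sqrt (g x)) := hlt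
    _ ≤ 2 * (5 + 4 * (n * L0)) * (max C1 C2 * EE) := mul_le_mul_of_nonneg_left hvar hfac0
    _ ≤ (2 * (5 + 4 * L0) * n) * (max C1 C2 * EE) :=
        mul_le_mul_of_nonneg_right hfac (mul_nonneg hCm.le hEE0)
    _ = _ := by ring

end FA
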