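import Pool.Agent.Helper870.FADefs
import Pool.Agent.Helper870.FAG1
import Pool.Agent.Helper870.FAD2
import Pool.Agent.Helper870.FAR1
import Pool.Agent.Helper870.FAS10
import Pool.Agent.Helper870.FAD4
import Pool.Agent.Helper870.FALB
import Pool.Agent.Helper870.FAD5
import Pool.Agent.Helper870.FAD9
import Pool.Agent.Helper870.FAK6a
import Pool.Agent.Helper870.FAK6b

set_option autoImplicit false
set_option linter.unusedSectionVars false

open Finset

noncomputable section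

-- USES: G1 D2 R1 S10 D4 LB D5 D9 K6a K6b
namespace FA
variable {q : ℝ}

/-- left end points of the groups -/
def WLe (a b o : ℤ) (ℓ N : ℕ) (j : ℕ) : ℤ := if j = 0 then a else if N ≤ j then b + 1 else o + j * ℓ

/-- the groups -/
def WLD (a b o : ℤ) (ℓ N : ℕ) (i : ℕ) : Finset ℤ := Icc (WLe a b o ℓ N i) (WLe a b o ℓ N (i + 1) - 1)

/-- unions of the first groups -/
def WLX (a b o : ℤ) (ℓ N : ℕ) (j : ℕ) : Finset ℤ := Icc a (WLe a b o ℓ N j - 1)

/-- the geometric assumptions -/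
structure WLg (a b o : ℤ) (ℓ N : ℕ) : Prop where
  hl : 1 ≤ ℓ
  hN : 2 ≤ N
  h1 : a ≤ o
  h2 : o - a ≤ 2 * ℓ
  h3 : o + N * ℓ - 1 ≤ b
  h4 : b - (o + N * ℓ - 1) ≤ 2 * ℓ

theorem WL_mul {N i ℓ : ℕ} (hi : i < N) : ((i : ℤ)) * ℓ + ℓ ≤ (N : ℤ) * ℓ := by
  have h1 : (i : ℤ) + 1 ≤ N := by exact_mod_cast hi
  have h2 : ((i : ℤ) + 1) * ℓ ≤ (N : ℤ) * ℓ := mul_le_mul_of_nonneg_right h1 (by positivity)
  have h3 : ((i : ℤ) + 1) * ℓ = (i : ℤ) * ℓ + ℓ := by ring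
  omega

theorem WL_ends {a b o : ℤ} {ℓ N : ℕ} (g : WLg a b o ℓ N) {i : ℕ} (hi : i < N) :
    WLe a b o ℓ N i ≤ o + i * ℓ ∧ o + i * ℓ + ℓ ≤ WLe a b o ℓ N (i + 1) ∧
      WLe a b o ℓ N (i + 1) - WLe a b o ℓ N i ≤ 3 * ℓ ∧
      (o + i * ℓ = WLe a b o ℓ N i ∨ o + i * ℓ + ℓ - 1 = WLe a b o ℓ N (i + 1) - 1) ∧
      a ≤ WLe a b o ℓ N i ∧ WLe a b o ℓ N (i + 1) ≤ b + 1 := by
  obtain ⟨hl, hN, h1, h2, h3, h4⟩ := g
  have hm := WL_mul (ℓ := ℓ) hi
  have hc : ((i + 1 : ℕ) : ℤ) * ℓ = (i : ℤ) * ℓ + ℓ := by push_cast; ring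
  have hp : (0 : ℤ) ≤ (i : ℤ) * ℓ := by positivity
  have hl' : (1 : ℤ) ≤ ℓ := by exact_mod_cast hl
  unfold WLe
  rcases Nat.eq_zero_or_pos i with h0 | h0
  · subst h0
    rw [if_pos rfl, if_neg (by omega), if_neg (by omega)]
    simp only [Nat.cast_zero, zero_mul, zero_add, Nat.cast_one, one_mul] at *
    omega
  · rw [if_neg (by omega), if_neg (by omega), if_neg (by omega)]
    by_cases hiN : N ≤ i + 1
    · rw [if_pos hiN]
      have hNi : N = i + 1 := by omega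
      have hNi' : (N : ℤ) * ℓ = (i : ℤ) * ℓ + ℓ := by rw [hNi]; exact hc
      omega
    · rw [if_neg hiN, hc]
      omega

theorem WL_mono {a b o : ℤ} {ℓ N : ℕ} (g : WLg a b o ℓ N) :
    ∀ j i : ℕ, i ≤ j → j ≤ N → WLe a b o ℓ N i ≤ WLe a b o ℓ N j := by
  intro j
  induction j with
  | zero => intro i hi _; rw [Nat.le_zero.1 hi]
  | succ j ih =>
    intro i hi hj
    rcases Nat.lt_or_ge i (j + 1) with h | h
    · have h1 := ih i (by omega) (by omega)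
      have h2 := WL_ends g (show j < N by omega)
      omega
    · rw [show i = j + 1 by omega]

theorem WL_bk_sub {a b o : ℤ} {ℓ N : ℕ} (g : WLg a b o ℓ N) {i : ℕ} (hi : i < N) :
    Bk o ℓ i ⊆ WLD a b o ℓ N i := by
  have h := WL_ends g hi
  intro x hx
  unfold Bk at hx
  unfold WLD
  rw [Finset.mem_Icc] at hx ⊢
  omega

theorem WL_D_sub {a b o : ℤ} {ℓ N : ℕ} (g : WLg a b o ℓ N) {i : ℕ} (hi : i < N) :
    WLD a b o ℓ N i ⊆ Icc a b := by
  have h := WL_ends g hi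
  intro x hx
  unfold WLD at hx
  rw [Finset.mem_Icc] at hx ⊢
  omega

theorem WL_disj {a b o : ℤ} {ℓ N : ℕ} (g : WLg a b o ℓ N) {i j : ℕ} (hi : i < N) (hj : j < N)
    (hij : i ≠ j) : Disjoint (WLD a b o ℓ N i) (WLD a b o ℓ N j) := by
  rw [Finset.disjoint_left]
  intro x hx hy
  unfold WLD at hx hy
  rw [Finset.mem_Icc] at hx hy
  rcases Nat.lt_or_gt_of_ne hij with h | h
  · have := WL_mono g j (i + 1) (by omega) (by omega)
    omega
  · have := WL_mono g i (j + 1) (by omega) (by omega)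
    omega

theorem WL_X_zero (a b o : ℤ) (ℓ N : ℕ) : WLX a b o ℓ N 0 = ∅ := by
  unfold WLX WLe
  rw [if_pos rfl]
  apply Finset.Icc_eq_empty
  omega

theorem WL_X_last {a b o : ℤ} {ℓ N : ℕ} (g : WLg a b o ℓ N) : WLX a b o ℓ N N = Icc a b := by
  have hN := g.hN
  unfold WLX WLe
  rw [if_neg (by omega), if_pos le_rfl]
  congr 1
  omega

theorem WL_X_succ {a b o : ℤ} {ℓ N : ℕ} (g : WLg a b o ℓ N) {j : ℕ} (hj : j < N) :
    WLX a b o ℓ N (j + 1) = WLX a b o ℓ N j ∪ WLD a b o ℓ N j := by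
  have h := WL_ends g hj
  have hl : (1 : ℤ) ≤ ℓ := by exact_mod_cast g.hl
  ext x
  unfold WLX WLD
  rw [Finset.mem_union, Finset.mem_Icc, Finset.mem_Icc, Finset.mem_Icc]
  constructor
  · intro hx
    by_cases h4 : x ≤ WLe a b o ℓ N j - 1
    · left; omega
    · right; omega
  · intro hx
    rcases hx with hx | hx <;> omega

theorem WL_X_disj {a b o : ℤ} {ℓ N : ℕ} (g : WLg a b o ℓ N) {j : ℕ} (hj : j < N) :
    Disjoint (WLX a b o ℓ N j) (WLD a b o ℓ N j) := by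
  rw [Finset.disjoint_left]
  intro x hx hy
  unfold WLX at hx
  unfold WLD at hy
  rw [Finset.mem_Icc] at hx hy
  omega

theorem WL_union {a b o : ℤ} {ℓ N : ℕ} (g : WLg a b o ℓ N) :
    (Finset.range N).biUnion (WLD a b o ℓ N) = Icc a b := by
  have key : ∀ j ≤ N, (Finset.range j).biUnion (WLD a b o ℓ N) = WLX a b o ℓ N j := by
    intro j
    induction j with
    | zero => intro _; rw [WL_X_zero]; simp
    | succ j ih =>
      intro hj
      rw [Finset.range_add_one, Finset.biUnion_insert, ih (by omega), WL_X_succ g (by omega),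
        Finset.union_comm]
  rw [key N le_rfl, WL_X_last g]

theorem WL_good_stab {a b o : ℤ} {ℓ N : ℕ} (g : WLg a b o ℓ N) {i : ℕ} (hi : i < N) :
    StabG (Icc a b) (WLD a b o ℓ N i) (Bk o ℓ i) (Good o ℓ N) := by
  intro S hS hg hne U hU hUn j hj
  by_cases hij : j = i
  · subst hij
    obtain ⟨y, hy⟩ := hUn
    rw [Finset.mem_inter] at hy
    exact ⟨y, Finset.mem_inter.2 ⟨Finset.mem_union_right _ hy.1, hy.2⟩⟩
  · obtain ⟨y, hy⟩ := hg j hj
    rw [Finset.mem_inter] at hy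
    refine ⟨y, Finset.mem_inter.2 ⟨Finset.mem_union_left _ ?_, hy.2⟩⟩
    rw [Finset.mem_sdiff]
    refine ⟨hy.1, ?_⟩
    exact Finset.disjoint_left.1 (WL_disj g hj hi hij) (WL_bk_sub g hj hy.2)

theorem WL_idem (h0 : 0 < q) (h1 : q < 1) (D B : Finset ℤ) (F : Finset ℤ → ℝ) :
    (gblk q h0 h1 D B).R ((gblk q h0 h1 D B).R F) = (gblk q h0 h1 D B).R F := by
  funext S
  have : (gblk q h0 h1 D B).R ((gblk q h0 h1 D B).R F) S =
      ∑ U ∈ (gblk q h0 h1 D B).K S, (gblk q h0 h1 D B).w S U *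
        (gblk q h0 h1 D B).R F ((gblk q h0 h1 D B).c S U) := rfl
  rw [this]
  rw [Finset.sum_congr rfl (fun U hU => by rw [gblk_cst h0 h1 D B F S U hU]),
    ← Finset.sum_mul, (gblk q h0 h1 D B).hone S, one_mul]

/-- the averaging operators -/
def WLA (q : ℝ) (h0 : 0 < q) (h1 : q < 1) (a b o : ℤ) (ℓ N : ℕ) (i : ℕ) : AO (Finset ℤ) :=
  gblk q h0 h1 (WLD a b o ℓ N i) (Bk o ℓ i)

theorem WL_comm (h0 : 0 < q) (h1 : q < 1) {a b o : ℤ} {ℓ N : ℕ} (g : WLg a b o ℓ N) {i j : ℕ}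
    (hi : i < N) (hj : j < N) (F : Finset ℤ → ℝ) :
    (WLA q h0 h1 a b o ℓ N i).R ((WLA q h0 h1 a b o ℓ N j).R F) =
      (WLA q h0 h1 a b o ℓ N j).R ((WLA q h0 h1 a b o ℓ N i).R F) := by
  by_cases hij : i = j
  · subst hij; rfl
  · exact gblk_comm h0 h1 _ _ _ _ (WL_disj g hi hj hij) F

theorem WL_fix (h0 : 0 < q) (h1 : q < 1) {a b o : ℤ} {ℓ N : ℕ} (g : WLg a b o ℓ N)
    (h : Finset ℤ → ℝ) : ∀ n ≤ N, ∀ i < n, (WLA q h0 h1 a b o ℓ N i).R
      (compR (WLA q h0 h1 a b o ℓ N) n h) = compR (WLA q h0 h1 a b o ℓ N) n h := by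
  intro n
  induction n with
  | zero => intro _ i hi; omega
  | succ n ih =>
    intro hn i hi
    have hd : compR (WLA q h0 h1 a b o ℓ N) (n + 1) h =
      (WLA q h0 h1 a b o ℓ N n).R (compR (WLA q h0 h1 a b o ℓ N) n h) := rfl
    rw [hd]
    by_cases hin : i = n
    · subst hin
      exact WL_idem h0 h1 _ _ _
    · rw [WL_comm h0 h1 g (by omega) (by omega), ih (by omega) i (by omega)]

theorem WL_fix_inv (h0 : 0 < q) (h1 : q < 1) (D B : Finset ℤ) (g : Finset ℤ → ℝ)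
    (hg : (gblk q h0 h1 D B).R g = g) (S U : Finset ℤ) (hS : (S ∩ D ∩ B).Nonempty) (hU : U ⊆ D)
    (hUn : (U ∩ B).Nonempty) : g ((S \ D) ∪ U) = g S := by
  have hne : ¬ (S ∩ D ∩ B = ∅) := hS.ne_empty
  have hmem : U ∈ (gblk q h0 h1 D B).K S := by
    have : (gblk q h0 h1 D B).K S = D.powerset.filter (fun U => (U ∩ B).Nonempty) := if_neg hne
    rw [this]
    exact Finset.mem_filter.2 ⟨Finset.mem_powerset.2 hU, hUn⟩
  have h3 := gblk_cst h0 h1 D B g S U hmem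
  have h4 : (gblk q h0 h1 D B).c S U = (S \ D) ∪ U := if_neg hne
  rw [h4, hg] at h3
  exact h3

theorem WL_const (h0 : 0 < q) (h1 : q < 1) {a b o : ℤ} {ℓ N : ℕ} (G : WLg a b o ℓ N)
    (g : Finset ℤ → ℝ) (hg : ∀ i < N, (WLA q h0 h1 a b o ℓ N i).R g = g) (S S' : Finset ℤ)
    (hS : S ⊆ Icc a b) (hS' : S' ⊆ Icc a b) (hGS : Good o ℓ N S) (hGS' : Good o ℓ N S') :
    g S' = g S := by
  have key : ∀ j ≤ N, g ((S \ WLX a b o ℓ N j) ∪ (S' ∩ WLX a b o ℓ N j)) = g S := by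
    intro j
    induction j with
    | zero =>
      intro _
      rw [WL_X_zero]
      simp
    | succ j ih =>
      intro hj
      have hd := WL_X_disj G (show j < N by omega)
      have hd' := Finset.disjoint_right.1 hd
      rw [← ih (by omega)]
      have e : (S \ WLX a b o ℓ N (j + 1)) ∪ (S' ∩ WLX a b o ℓ N (j + 1)) =
          ((((S \ WLX a b o ℓ N j) ∪ (S' ∩ WLX a b o ℓ N j)) \ WLD a b o ℓ N j) ∪
            (S' ∩ WLD a b o ℓ N j)) := by
        rw [WL_X_succ G (by omega)]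
        ext x
        have := @hd' x
        simp only [Finset.mem_union, Finset.mem_sdiff, Finset.mem_inter]
        tauto
      rw [e]
      apply WL_fix_inv h0 h1 (WLD a b o ℓ N j) (Bk o ℓ j) g (hg j (by omega)) _ _ ?_
        Finset.inter_subset_right
      · obtain ⟨y, hy⟩ := hGS' j (by omega)
        rw [Finset.mem_inter] at hy
        exact ⟨y, Finset.mem_inter.2 ⟨Finset.mem_inter.2 ⟨hy.1,
          WL_bk_sub G (show j < N by omega) hy.2⟩, hy.2⟩⟩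
      · obtain ⟨y, hy⟩ := hGS j (by omega)
        rw [Finset.mem_inter] at hy
        have hyD := WL_bk_sub G (show j < N by omega) hy.2
        refine ⟨y, Finset.mem_inter.2 ⟨Finset.mem_inter.2 ⟨Finset.mem_union_left _
          (Finset.mem_sdiff.2 ⟨hy.1, hd' hyD⟩), hyD⟩, hy.2⟩⟩
  have h3 := key N le_rfl
  rw [WL_X_last G, Finset.sdiff_eq_empty_iff_subset.2 hS, Finset.empty_union,
    Finset.inter_eq_left.2 hS'] at h3
  exact h3

theorem WL_E_congr {X : Type} (m : FM X) (F H : X → ℝ) (h : ∀ x ∈ m.s, F x = H x) :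
    m.E F = m.E H := by
  unfold FM.E
  exact Finset.sum_congr rfl (fun x hx => by rw [h x hx])

theorem WL_E_const {X : Type} (m : FM X) (c : ℝ) : m.E (fun _ => c) = c := by
  unfold FM.E
  rw [← Finset.sum_mul, m.hone, one_mul]

theorem WL_E_mono {X : Type} (m : FM X) (F H : X → ℝ) (h : ∀ x ∈ m.s, F x ≤ H x) :
    m.E F ≤ m.E H := by
  unfold FM.E
  exact Finset.sum_le_sum fun x hx => mul_le_mul_of_nonneg_left (h x hx) (m.hw x hx).le

theorem WL_E_smul {X : Type} (m : FM X) (a : ℝ) (F : X → ℝ) :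
    m.E (fun x => a * F x) = a * m.E F := by
  unfold FM.E
  rw [Finset.mul_sum]
  exact Finset.sum_congr rfl fun x _ => by ring

theorem WL_E_sub {X : Type} (m : FM X) (F H : X → ℝ) :
    m.E (fun x => F x - H x) = m.E F - m.E H := by
  unfold FM.E
  rw [← Finset.sum_sub_distrib]
  exact Finset.sum_congr rfl fun x _ => by ring

theorem WL_E_sum {X : Type} (m : FM X) {ι : Type} (I : Finset ι) (F : ι → X → ℝ) :
    m.E (fun x => ∑ i ∈ I, F i x) = ∑ i ∈ I, m.E (F i) := by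
  unfold FM.E
  rw [Finset.sum_comm]
  exact Finset.sum_congr rfl fun x _ => by rw [Finset.mul_sum]

theorem WL_R_pos {X : Type} (A : AO X) (F : X → ℝ) (hF : ∀ x, 0 < F x) (x : X) : 0 < A.R F x := by
  unfold AO.R
  have h1 : ∃ k ∈ A.K x, 0 < A.w x k := by
    by_contra hc
    have h2 : ∑ k ∈ A.K x, A.w x k ≤ 0 := by
      apply Finset.sum_nonpos
      intro k hk
      by_contra h3
      exact hc ⟨k, hk, not_le.1 h3⟩
    rw [A.hone x] at h2
    norm_num at h2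
  obtain ⟨k, hk, hk0⟩ := h1
  exact Finset.sum_pos' (fun k hk => mul_nonneg (A.hw x k hk) (hF _).le)
    ⟨k, hk, mul_pos hk0 (hF _)⟩

theorem WL_R_nonneg {X : Type} (A : AO X) (F : X → ℝ) (hF : ∀ x, 0 ≤ F x) (x : X) :
    0 ≤ A.R F x := by
  unfold AO.R
  exact Finset.sum_nonneg fun k hk => mul_nonneg (A.hw x k hk) (hF _)

theorem WL_R_one {X : Type} (A : AO X) (x : X) : A.R (fun _ => 1) x = 1 := by
  unfold AO.R
  simp only [mul_one]
  exact A.hone x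

theorem WL_cond_mem (h0 : 0 < q) (h1 : q < 1) (A : Finset ℤ) (C : Finset ℤ → Prop)
    (hC : ∃ S ∈ (pfm q h0 h1 A).s, C S) (S : Finset ℤ)
    (hS : S ∈ ((pfm q h0 h1 A).cond C hC).s) : S ⊆ A ∧ C S := by
  classical
  have h : S ∈ (A.powerset.filter C) := by
    unfold FM.cond pfm at hS
    simp only at hS
    rw [Finset.mem_filter] at hS ⊢
    exact hS
  rw [Finset.mem_filter, Finset.mem_powerset] at h
  exact h

theorem WL_E_R (h0 : 0 < q) (h1 : q < 1) {a b o : ℤ} {ℓ N : ℕ} (g : WLg a b o ℓ N)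
    (hC : ∃ S ∈ (pfm q h0 h1 (Icc a b)).s, Good o ℓ N S) {i : ℕ} (hi : i < N)
    (F : Finset ℤ → ℝ) :
    ((pfm q h0 h1 (Icc a b)).cond (Good o ℓ N) hC).E ((WLA q h0 h1 a b o ℓ N i).R F) =
      ((pfm q h0 h1 (Icc a b)).cond (Good o ℓ N) hC).E F := by
  have h := gblk_inv h0 h1 (Icc a b) (WLD a b o ℓ N i) (Bk o ℓ i) (WL_D_sub g hi) (Good o ℓ N) hC
    (WL_good_stab g hi) F (fun _ => 1)
  simp only [WL_R_one, mul_one] at h
  exact h.symm

theorem WL_E_compR (h0 : 0 < q) (h1 : q < 1) {a b o : ℤ} {ℓ N : ℕ} (g : WLg a b o ℓ N)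
    (hC : ∃ S ∈ (pfm q h0 h1 (Icc a b)).s, Good o ℓ N S) (h : Finset ℤ → ℝ) :
    ∀ j ≤ N, ((pfm q h0 h1 (Icc a b)).cond (Good o ℓ N) hC).E
      (compR (WLA q h0 h1 a b o ℓ N) j h) =
        ((pfm q h0 h1 (Icc a b)).cond (Good o ℓ N) hC).E h := by
  intro j
  induction j with
  | zero => intro _; rfl
  | succ j ih =>
    intro hj
    have hd : compR (WLA q h0 h1 a b o ℓ N) (j + 1) h =
      (WLA q h0 h1 a b o ℓ N j).R (compR (WLA q h0 h1 a b o ℓ N) j h) := rfl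
    rw [hd, WL_E_R h0 h1 g hC (by omega), ih (by omega)]

theorem WL_compR_good (h0 : 0 < q) (h1 : q < 1) {a b o : ℤ} {ℓ N : ℕ} (g : WLg a b o ℓ N)
    (hC : ∃ S ∈ (pfm q h0 h1 (Icc a b)).s, Good o ℓ N S) (h : Finset ℤ → ℝ)
    (S : Finset ℤ) (hS : S ⊆ Icc a b) (hg : Good o ℓ N S) :
    compR (WLA q h0 h1 a b o ℓ N) N h S =
      ((pfm q h0 h1 (Icc a b)).cond (Good o ℓ N) hC).E h := by
  rw [← WL_E_compR h0 h1 g hC h N le_rfl]
  rw [WL_E_congr _ _ (fun _ => compR (WLA q h0 h1 a b o ℓ N) N h S) ?_, WL_E_const]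
  intro T hT
  obtain ⟨hT1, hT2⟩ := WL_cond_mem h0 h1 _ _ _ T hT
  exact WL_const h0 h1 g _ (WL_fix h0 h1 g h N le_rfl) S T hS hT1 hg hT2

theorem WL_nbr {x y : ℤ} (hy : y ≠ x) (S : Finset ℤ) : (y ∈ insert x S) ↔ (y ∈ S.erase x) := by
  rw [Finset.mem_insert, Finset.mem_erase]
  constructor
  · rintro (h | h)
    · exact absurd h hy
    · exact ⟨hy, h⟩
  · rintro ⟨_, h⟩
    exact Or.inr h

theorem WL_cst_self (A : Finset ℤ) (x : ℤ) (S : Finset ℤ) :
    cst A x (insert x S) = cst A x (S.erase x) := by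
  unfold cst
  simp only [WL_nbr (show x - 1 ≠ x by omega), WL_nbr (show x + 1 ≠ x by omega)]

theorem WL_kw_self (hL hR : Bool) (a b x : ℤ) (S : Finset ℤ) :
    kw hL hR a b x (insert x S) = kw hL hR a b x (S.erase x) := by
  unfold kw
  simp only [WL_nbr (show x - 1 ≠ x by omega), WL_nbr (show x + 1 ≠ x by omega)]

theorem WL_cst_one_iff (A : Finset ℤ) (x : ℤ) (S : Finset ℤ) :
    cst A x S = 1 ↔ ((x - 1 ∈ A ∧ x - 1 ∈ S) ∨ (x + 1 ∈ A ∧ x + 1 ∈ S)) := by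
  unfold cst
  split_ifs with h
  · simp [h]
  · simp [h]

theorem WL_cst_zo (A : Finset ℤ) (x : ℤ) (S : Finset ℤ) : cst A x S = 0 ∨ cst A x S = 1 := by
  unfold cst
  split_ifs with h
  · right; rfl
  · left; rfl

/-- the local coefficient -/
def WLc (D B : Finset ℤ) (x : ℤ) (S : Finset ℤ) : ℝ :=
  cst D x S * (if (S.erase x ∩ B).Nonempty then 1 else 0)

theorem WL_c_nonneg (D B : Finset ℤ) (x : ℤ) (S : Finset ℤ) : 0 ≤ WLc D B x S := by
  unfold WLc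
  apply mul_nonneg (cst_nonneg _ _ _)
  split_ifs <;> norm_num

open Classical in
/-- the union of the group constraints -/
def WLk (a b o : ℤ) (ℓ N : ℕ) (x : ℤ) (S : Finset ℤ) : ℝ :=
  if ∃ i < N, x ∈ WLD a b o ℓ N i ∧ cst (WLD a b o ℓ N i) x S = 1 ∧
    (S.erase x ∩ Bk o ℓ i).Nonempty then 1 else 0

theorem WL_k_eq {a b o : ℤ} {ℓ N : ℕ} (g : WLg a b o ℓ N) (x : ℤ) (S : Finset ℤ) (i : ℕ)
    (hi : i < N) (hx : x ∈ WLD a b o ℓ N i) :
    WLk a b o ℓ N x S = WLc (WLD a b o ℓ N i) (Bk o ℓ i) x S := by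
  unfold WLk WLc
  by_cases hc : cst (WLD a b o ℓ N i) x S = 1 ∧ (S.erase x ∩ Bk o ℓ i).Nonempty
  · rw [if_pos ⟨i, hi, hx, hc⟩, hc.1, if_pos hc.2, mul_one]
  · rw [if_neg]
    · by_cases h2 : (S.erase x ∩ Bk o ℓ i).Nonempty
      · have h3 : cst (WLD a b o ℓ N i) x S = 0 := by
          rcases WL_cst_zo (WLD a b o ℓ N i) x S with h | h
          · exact h
          · exact absurd ⟨h, h2⟩ hc
        rw [h3, zero_mul]
      · rw [if_neg h2, mul_zero]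
    · rintro ⟨j, hj, hxj, hcj⟩
      by_cases hij : i = j
      · subst hij
        exact hc hcj
      · exact Finset.disjoint_left.1 (WL_disj g hi hj hij) hx hxj

theorem WL_k_sum {a b o : ℤ} {ℓ N : ℕ} (g : WLg a b o ℓ N) (S : Finset ℤ) (v : ℤ → ℝ) :
    ∑ x ∈ Icc a b, WLk a b o ℓ N x S * v x =
      ∑ i ∈ Finset.range N, ∑ x ∈ WLD a b o ℓ N i, WLc (WLD a b o ℓ N i) (Bk o ℓ i) x S * v x := by
  rw [← WL_union g, Finset.sum_biUnion]
  · apply Finset.sum_congr rfl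
    intro i hi
    apply Finset.sum_congr rfl
    intro x hx
    rw [WL_k_eq g x S i (Finset.mem_range.1 hi) hx]
  · intro i hi j hj hij
    exact WL_disj g (Finset.mem_range.1 (Finset.mem_coe.1 hi))
      (Finset.mem_range.1 (Finset.mem_coe.1 hj)) hij

theorem WL_dir (h0 : 0 < q) (h1 : q < 1) (hL hR : Bool) {a b o : ℤ} {ℓ N : ℕ}
    (g : WLg a b o ℓ N) (hC : ∃ S ∈ (pfm q h0 h1 (Icc a b)).s, Good o ℓ N S)
    (f : Finset ℤ → ℝ) :
    ((pfm q h0 h1 (Icc a b)).cond (Good o ℓ N) hC).E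
        (fun S => ∑ x ∈ Icc a b, WLk a b o ℓ N x S * vx q x f S) ≤
      Dir ((wG q h0 h1 hL hR a b).refl (Good o ℓ N))
          ((pfm q h0 h1 (Icc a b)).cond (Good o ℓ N) hC) f := by
  apply dir_refl_ge h0 h1 (Icc a b) (kw hL hR a b) (fun x _ S => WL_kw_self hL hR a b x S)
    (Good o ℓ N) hC (WLk a b o ℓ N)
  · intro x S
    unfold WLk
    split_ifs
    · right; rfl
    · left; rfl
  · intro x _ S
    unfold WLk
    simp only [WL_cst_self, Finset.erase_insert_eq_erase, Finset.erase_idem]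
  · intro x hx S hS hG hkap
    have hex : ∃ i < N, x ∈ WLD a b o ℓ N i ∧ cst (WLD a b o ℓ N i) x S = 1 ∧
        (S.erase x ∩ Bk o ℓ i).Nonempty := by
      by_contra hcon
      unfold WLk at hkap
      rw [if_neg hcon] at hkap
      norm_num at hkap
    obtain ⟨i, hi, hxi, hc, hne⟩ := hex
    rw [WL_cst_one_iff] at hc
    refine ⟨?_, ?_, ?_⟩
    · unfold kw
      rw [decide_eq_true_eq]
      rcases hc with ⟨h2, h3⟩ | ⟨h2, h3⟩
      · exact Or.inl ⟨WL_D_sub g hi h2, h3⟩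
      · exact Or.inr (Or.inl ⟨WL_D_sub g hi h2, h3⟩)
    · intro j hj
      obtain ⟨z, hz⟩ := hG j hj
      rw [Finset.mem_inter] at hz
      exact ⟨z, Finset.mem_inter.2 ⟨Finset.mem_insert_of_mem hz.1, hz.2⟩⟩
    · intro j hj
      by_cases hij : i = j
      · subst hij
        exact hne
      · obtain ⟨z, hz⟩ := hG j hj
        rw [Finset.mem_inter] at hz
        refine ⟨z, Finset.mem_inter.2 ⟨Finset.mem_erase.2 ⟨?_, hz.1⟩, hz.2⟩⟩
        intro hzx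
        subst hzx
        exact Finset.disjoint_left.1 (WL_disj g hi hj hij) hxi (WL_bk_sub g hj hz.2)

/-- the entropy estimate -/
theorem WL_blocks (h0 : 0 < q) (h1 : q < 1) : ∃ K : ℝ, 0 < K ∧ ∀ (a b o : ℤ) (ℓ N : ℕ),
    WLg a b o ℓ N → ∀ (hC : ∃ S ∈ (pfm q h0 h1 (Icc a b)).s, Good o ℓ N S)
    (h : Finset ℤ → ℝ), (∀ S, 0 < h S) →
      ((pfm q h0 h1 (Icc a b)).cond (Good o ℓ N) hC).E
        (fun S => h S * Real.log (h S / compR (WLA q h0 h1 a b o ℓ N) N h S)) ≤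
      K * ℓ * ((pfm q h0 h1 (Icc a b)).cond (Good o ℓ N) hC).E
        (fun S => ∑ i ∈ Finset.range N, ∑ x ∈ WLD a b o ℓ N i,
          WLc (WLD a b o ℓ N i) (Bk o ℓ i) x S * vx q x (fun U => Real.sqrt (h U)) S) := by
  obtain ⟨K, hK, hlsi⟩ := grp_lsi (q := q) h0 h1
  refine ⟨3 * K, by positivity, ?_⟩
  intro a b o ℓ N g hC h hpos
  obtain ⟨m, hm⟩ : ∃ m, m = (pfm q h0 h1 (Icc a b)).cond (Good o ℓ N) hC := ⟨_, rfl⟩
  have hsupp : ∀ S ∈ m.s, S ⊆ Icc a b ∧ Good o ℓ N S := by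
    intro S hS
    rw [hm] at hS
    exact WL_cond_mem h0 h1 _ _ _ S hS
  rw [← hm]
  have hinv : ∀ i, i < N → ∀ F H : Finset ℤ → ℝ,
      m.E (fun x => F x * (WLA q h0 h1 a b o ℓ N i).R H x) =
        m.E (fun x => (WLA q h0 h1 a b o ℓ N i).R F x * (WLA q h0 h1 a b o ℓ N i).R H x) := by
    intro i hi F H
    rw [hm]
    exact gblk_inv h0 h1 (Icc a b) (WLD a b o ℓ N i) (Bk o ℓ i) (WL_D_sub g hi) (Good o ℓ N) hC
      (WL_good_stab g hi) F H
  have h1' := ent_tensor m (WLA q h0 h1 a b o ℓ N) N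
    (fun i j hi hj F => WL_comm h0 h1 g hi hj F) hinv
    (fun i hi F x k hk => gblk_cst h0 h1 _ _ F x k hk) h hpos
  refine h1'.trans ?_
  rw [WL_E_sum, Finset.mul_sum]
  refine Finset.sum_le_sum fun i hi => ?_
  have hi' : i < N := Finset.mem_range.1 hi
  obtain ⟨R, hR⟩ : ∃ R : (Finset ℤ → ℝ) → Finset ℤ → ℝ,
      R = (WLA q h0 h1 a b o ℓ N i).R := ⟨_, rfl⟩
  have hRinv : ∀ F, m.E (R F) = m.E F := by
    intro F
    have h2 := hinv i hi' F (fun _ => 1)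
    simp only [WL_R_one, mul_one] at h2
    rw [hR, h2]
  have hRpos : ∀ S, 0 < R h S := by
    intro S; rw [hR]; exact WL_R_pos _ _ hpos S
  have hRG : R (fun S => Real.log (R h S)) = fun S => Real.log (R h S) := by
    funext S
    rw [hR]
    have h3 : ∀ k ∈ (WLA q h0 h1 a b o ℓ N i).K S,
        (WLA q h0 h1 a b o ℓ N i).R h ((WLA q h0 h1 a b o ℓ N i).c S k) =
        (WLA q h0 h1 a b o ℓ N i).R h S := fun k hk => gblk_cst h0 h1 _ _ h S k hk
    have h4 : (WLA q h0 h1 a b o ℓ N i).R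
        (fun S => Real.log ((WLA q h0 h1 a b o ℓ N i).R h S)) S =
        ∑ k ∈ (WLA q h0 h1 a b o ℓ N i).K S, (WLA q h0 h1 a b o ℓ N i).w S k *
          Real.log ((WLA q h0 h1 a b o ℓ N i).R h ((WLA q h0 h1 a b o ℓ N i).c S k)) := rfl
    rw [h4, Finset.sum_congr rfl fun k hk => by rw [h3 k hk], ← Finset.sum_mul,
      (WLA q h0 h1 a b o ℓ N i).hone, one_mul]
  have hE1 : m.E (fun S => h S * Real.log (R h S)) = m.E (fun S => R h S * Real.log (R h S)) := by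
    have h5 := hinv i hi' h (fun S => Real.log (R h S))
    rw [← hR, hRG] at h5
    exact h5
  have hE2 : m.E (fun S => h S * Real.log (h S / R h S)) =
      m.E (fun S => R (fun T => h T * Real.log (h T)) S - R h S * Real.log (R h S)) := by
    have h6 : (fun S => h S * Real.log (h S / R h S)) =
        fun S => h S * Real.log (h S) - h S * Real.log (R h S) := by
      funext S
      rw [Real.log_div (hpos S).ne' (hRpos S).ne']
      ring
    rw [h6, WL_E_sub, hE1, WL_E_sub, ← hRinv (fun T => h T * Real.log (h T))]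
  have hE3 : m.E (fun S => h S * Real.log (h S / (WLA q h0 h1 a b o ℓ N i).R h S)) =
      m.E (fun S => h S * Real.log (h S / R h S)) := by rw [hR]
  have hvx : ∀ x (F : Finset ℤ → ℝ) T, 0 ≤ vx q x F T := by
    intro x F T
    unfold vx
    have : 0 ≤ q * (1 - q) := mul_nonneg h0.le (by linarith)
    positivity
  rw [hE3, hE2, ← hRinv (fun S => ∑ x ∈ WLD a b o ℓ N i,
    WLc (WLD a b o ℓ N i) (Bk o ℓ i) x S * vx q x (fun U => Real.sqrt (h U)) S), ← WL_E_smul]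
  apply WL_E_mono
  intro S hS
  obtain ⟨hS1, hS2⟩ := hsupp S hS
  have hend := WL_ends g hi'
  have hl' : (1 : ℤ) ≤ ℓ := by exact_mod_cast g.hl
  have hgl := hlsi (WLe a b o ℓ N i) (o + i * ℓ) (o + i * ℓ + ℓ - 1)
    (WLe a b o ℓ N (i + 1) - 1) hend.1 (by omega) (by omega) hend.2.2.2.1 h hpos S (by
      obtain ⟨y, hy⟩ := hS2 i hi'
      rw [Finset.mem_inter] at hy
      exact ⟨y, Finset.mem_inter.2 ⟨Finset.mem_inter.2 ⟨hy.1, WL_bk_sub g hi' hy.2⟩, hy.2⟩⟩)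
  rw [hR]
  refine le_trans hgl ?_
  have hnn : 0 ≤ (WLA q h0 h1 a b o ℓ N i).R (fun S => ∑ x ∈ WLD a b o ℓ N i,
      WLc (WLD a b o ℓ N i) (Bk o ℓ i) x S * vx q x (fun U => Real.sqrt (h U)) S) S :=
    WL_R_nonneg _ _ (fun T => Finset.sum_nonneg fun x _ =>
      mul_nonneg (WL_c_nonneg _ _ _ _) (hvx _ _ _)) S
  have hlen : ((WLe a b o ℓ N (i + 1) - 1 - WLe a b o ℓ N i + 1 : ℤ) : ℝ) ≤ 3 * ℓ := by
    have : WLe a b o ℓ N (i + 1) - 1 - WLe a b o ℓ N i + 1 ≤ 3 * (ℓ : ℤ) := by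
      have := hend.2.2.1
      omega
    exact_mod_cast this
  have hfin : K * ((WLe a b o ℓ N (i + 1) - 1 - WLe a b o ℓ N i + 1 : ℤ) : ℝ) ≤ 3 * K * ℓ := by
    nlinarith
  exact mul_le_mul_of_nonneg_right hfin hnn

theorem goodw_ex (h0 : 0 < q) (h1 : q < 1) (a b o : ℤ) (ℓ N : ℕ) (hl : 1 ≤ ℓ) (hao : a ≤ o)
    (hob : o + N * ℓ - 1 ≤ b) : ∃ S ∈ (pfm q h0 h1 (Icc a b)).s, Good o ℓ N S := by
  refine ⟨Icc a b, Finset.mem_powerset.2 (Finset.Subset.refl _), ?_⟩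
  intro i hi
  have hm := WL_mul (ℓ := ℓ) hi
  have hp : (0 : ℤ) ≤ (i : ℤ) * ℓ := by positivity
  have hl' : (1 : ℤ) ≤ ℓ := by exact_mod_cast hl
  refine ⟨o + i * ℓ, ?_⟩
  unfold Bk
  rw [Finset.mem_inter, Finset.mem_Icc, Finset.mem_Icc]
  omega

/-- log-Sobolev inequality for the chain on `Icc a b` reflected at the set of configurations with all the
middle blocks nonempty -/
theorem w_lsi (h0 : 0 < q) (h1 : q < 1) : ∃ K : ℝ, 0 < K ∧ ∀ (hL hR : Bool) (a b o : ℤ) (ℓ N : ℕ), 1 ≤ ℓ →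
    2 ≤ N → a ≤ o → o - a ≤ 2 * ℓ → o + N * ℓ - 1 ≤ b → b - (o + N * ℓ - 1) ≤ 2 * ℓ →
    ∀ (hC : ∃ S ∈ (pfm q h0 h1 (Icc a b)).s, Good o ℓ N S) (f : Finset ℤ → ℝ), (∀ S, 0 < f S) →
      ((pfm q h0 h1 (Icc a b)).cond (Good o ℓ N) hC).Ent (fun S => f S ^ 2) ≤
        K * ℓ * Dir ((wG q h0 h1 hL hR a b).refl (Good o ℓ N))
          ((pfm q h0 h1 (Icc a b)).cond (Good o ℓ N) hC) f := by
  obtain ⟨K, hK, hmain⟩ := WL_blocks (q := q) h0 h1
  refine ⟨K, hK, ?_⟩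
  intro hL hR a b o ℓ N hl hN ha1 ha2 hb1 hb2 hC f hf
  have g : WLg a b o ℓ N := ⟨hl, hN, ha1, ha2, hb1, hb2⟩
  have hA := hmain a b o ℓ N g hC (fun S => f S ^ 2) (fun S => by have := hf S; positivity)
  have hE := WL_dir h0 h1 hL hR g hC f
  have hpos : ∀ S, 0 < f S ^ 2 := fun S => by have := hf S; positivity
  have hcR : ∀ S ∈ ((pfm q h0 h1 (Icc a b)).cond (Good o ℓ N) hC).s,
      compR (WLA q h0 h1 a b o ℓ N) N (fun S => f S ^ 2) S =
      ((pfm q h0 h1 (Icc a b)).cond (Good o ℓ N) hC).E (fun S => f S ^ 2) := by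
    intro S hS
    obtain ⟨hS1, hS2⟩ := WL_cond_mem h0 h1 _ _ _ S hS
    exact WL_compR_good h0 h1 g hC _ S hS1 hS2
  generalize ((pfm q h0 h1 (Icc a b)).cond (Good o ℓ N) hC) = m at *
  have hmne : m.s.Nonempty := by
    rw [Finset.nonempty_iff_ne_empty]
    intro he
    have := m.hone
    rw [he] at this
    norm_num at this
  have hc : 0 < m.E (fun S => f S ^ 2) := by
    unfold FM.E
    exact Finset.sum_pos (fun x hx => mul_pos (m.hw x hx) (hpos x)) hmne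
  have e1 : m.Ent (fun S => f S ^ 2) =
      m.E (fun S => f S ^ 2 * Real.log (f S ^ 2 /
        compR (WLA q h0 h1 a b o ℓ N) N (fun S => f S ^ 2) S)) := by
    rw [WL_E_congr m _ (fun S => f S ^ 2 * Real.log (f S ^ 2) +
      (f S ^ 2) * (- Real.log (m.E (fun S => f S ^ 2)))) ?_]
    · unfold FM.Ent FM.E
      simp only [mul_add]
      rw [Finset.sum_add_distrib]
      have : ∑ x ∈ m.s, m.w x * (f x ^ 2 * -Real.log (∑ x ∈ m.s, m.w x * f x ^ 2)) =
          (∑ x ∈ m.s, m.w x * f x ^ 2) * -Real.log (∑ x ∈ m.s, m.w x * f x ^ 2) := by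
        rw [Finset.sum_mul]
        exact Finset.sum_congr rfl (fun x _ => by ring)
      rw [this]
      ring
    · intro S hS
      rw [hcR S hS, Real.log_div (hpos S).ne' hc.ne']
      ring
  have e2 : ∀ S, Real.sqrt (f S ^ 2) = f S := fun S => Real.sqrt_sq (hf S).le
  simp only [e2] at hA
  have e3 : (fun S => ∑ i ∈ Finset.range N, ∑ x ∈ WLD a b o ℓ N i,
      WLc (WLD a b o ℓ N i) (Bk o ℓ i) x S * vx q x f S) =
      (fun S => ∑ x ∈ Icc a b, WLk a b o ℓ N x S * vx q x f S) := by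
    funext S
    exact (WL_k_sum g S (fun x => vx q x f S)).symm
  have e4 : (fun U => f U) = f := rfl
  rw [e1]
  refine le_trans hA ?_
  have hKl : 0 ≤ K * ℓ := by positivity
  apply mul_le_mul_of_nonneg_left _ hKl
  rw [e4, e3]
  exact hE

end FA
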