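import Pool.Agent.Helper870.FADefs
import Pool.Agent.Helper870.FAG1
import Pool.Agent.Helper870.FAS1
import Pool.Agent.Helper870.FAS2
import Pool.Agent.Helper870.FAS3
import Pool.Agent.Helper870.FAS4
import Pool.Agent.Helper870.FAS5
import Pool.Agent.Helper870.FAS6
import Pool.Agent.Helper870.FAS8
import Pool.Agent.Helper870.FAD2
import Pool.Agent.Helper870.FAR1
import Pool.Agent.Helper870.FAS10
import Pool.Agent.Helper870.FAD4
import Pool.Agent.Helper870.FALB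
import Pool.Agent.Helper870.FAD5
import Pool.Agent.Helper870.FACQ1
import Pool.Agent.Helper870.FACQ2
import Pool.Agent.Helper870.FAD9
import Pool.Agent.Helper870.FAK1
import Pool.Agent.Helper870.FAK1r
import Pool.Agent.Helper870.FAK6c
import Pool.Agent.Helper870.FAK7

set_option autoImplicit false
set_option linter.unusedSectionVars false

open Finset

noncomputable section

-- USES: G1 S1 S2 S3 S4 S5 S6 S8 D2 R1 S10 D4 LB D5 CQ1 CQ2 D9 K1 K1r K6c K7
namespace FA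
variable {q : ℝ}

section aux8
variable {X : Type} (m : FM X)

theorem k8_mono (F H : X → ℝ) (h : ∀ x ∈ m.s, F x ≤ H x) : m.E F ≤ m.E H := by
  unfold FM.E
  exact Finset.sum_le_sum fun x hx => mul_le_mul_of_nonneg_left (h x hx) (m.hw x hx).le

theorem k8_const (c : ℝ) : m.E (fun _ => c) = c := by
  unfold FM.E
  rw [← Finset.sum_mul, m.hone, one_mul]

theorem k8_abs (F : X → ℝ) (h : ∀ x, |F x| ≤ 1) : |m.E F| ≤ 1 := by
  rw [abs_le]
  constructor
  · have := k8_mono m (fun _ => -1) F (fun x _ => (abs_le.1 (h x)).1)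
    rwa [k8_const] at this
  · have := k8_mono m F (fun _ => 1) (fun x _ => (abs_le.1 (h x)).2)
    rwa [k8_const] at this

theorem k8_sq (F : X → ℝ) (c : ℝ) :
    m.E (fun x => (F x - c) ^ 2) = m.E (fun x => F x ^ 2) - 2 * c * m.E F + c ^ 2 := by
  unfold FM.E
  have h1 : ∀ x, m.w x * (F x - c) ^ 2 =
      m.w x * F x ^ 2 - 2 * c * (m.w x * F x) + c ^ 2 * m.w x := by
    intro x; ring
  simp_rw [h1]
  rw [Finset.sum_add_distrib, Finset.sum_sub_distrib, ← Finset.mul_sum, ← Finset.mul_sum,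
    m.hone, mul_one]

theorem k8_center (F : X → ℝ) : m.E (fun x => (F x - m.E F) ^ 2) = m.Var F := by
  rw [k8_sq]
  unfold FM.Var
  ring

theorem k8_var_le (F : X → ℝ) (h : ∀ x, |F x| ≤ 1) : m.Var F ≤ 1 := by
  unfold FM.Var
  have h1 := k8_mono m (fun x => F x ^ 2) (fun _ => 1) (fun x _ => by
    have := h x
    rw [← sq_abs]
    have h2 := abs_nonneg (F x)
    nlinarith)
  rw [k8_const] at h1
  have h2 := sq_nonneg (m.E F)
  linarith

theorem k8_add (F H : X → ℝ) : m.E (fun x => F x + H x) = m.E F + m.E H := by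
  unfold FM.E
  rw [← Finset.sum_add_distrib]
  apply Finset.sum_congr rfl
  intro x _
  ring

theorem k8_sub (F H : X → ℝ) : m.E (fun x => F x - H x) = m.E F - m.E H := by
  unfold FM.E
  rw [← Finset.sum_sub_distrib]
  apply Finset.sum_congr rfl
  intro x _
  ring

theorem k8_sum {ι : Type} (I : Finset ι) (F : ι → X → ℝ) :
    m.E (fun x => ∑ i ∈ I, F i x) = ∑ i ∈ I, m.E (F i) := by
  unfold FM.E
  rw [Finset.sum_comm]
  apply Finset.sum_congr rfl
  intro x _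
  rw [Finset.mul_sum]

end aux8

theorem k8_wt (h0 : 0 < q) (h1 : q < 1) (A S : Finset ℤ) :
    (min q (1 - q)) ^ A.card ≤ wt q A S := by
  have hm : 0 < min q (1 - q) := lt_min h0 (by linarith)
  have hc : (A ∩ S).card + (A \ S).card = A.card := by
    rw [add_comm]
    exact Finset.card_sdiff_add_card_inter A S
  rw [← hc, pow_add]
  unfold wt
  apply mul_le_mul
  · exact pow_le_pow_left₀ hm.le (min_le_left _ _) _
  · exact pow_le_pow_left₀ hm.le (min_le_right _ _) _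
  · positivity
  · positivity

theorem k8_cardB (o : ℤ) (ℓ i : ℕ) : (Bk o ℓ i).card = ℓ := by
  unfold Bk
  rw [Int.card_Icc]
  have h : (o + (i:ℤ) * (ℓ:ℤ) + ℓ - 1 + 1 - (o + (i:ℤ) * (ℓ:ℤ))) = ((ℓ : ℕ) : ℤ) := by ring
  rw [h, Int.toNat_natCast]

theorem k8_emp (A B : Finset ℤ) (hB : B ⊆ A) :
    EA q A (fun S => if S ∩ B = ∅ then (1:ℝ) else 0) = (1 - q) ^ B.card := by
  rw [EA_eq_av]
  have h1 : A = (A \ B) ∪ B := (Finset.sdiff_union_of_subset hB).symm
  rw [h1, ← av_av q (Finset.sdiff_disjoint) (fun S => if S ∩ B = ∅ then (1:ℝ) else 0) ∅]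
  have h2 : (fun S => av q B (fun S => if S ∩ B = ∅ then (1:ℝ) else 0) S) =
      fun _ => (1 - q) ^ B.card := by
    funext S
    unfold av
    have h3 : ∀ U ∈ B.powerset, wt q B U * (if ((S \ B) ∪ U) ∩ B = ∅ then (1:ℝ) else 0) =
        if U = ∅ then (1 - q) ^ B.card else 0 := by
      intro U hU
      have hUB := Finset.mem_powerset.1 hU
      have h4 : ((S \ B) ∪ U) ∩ B = U := by
        ext x
        simp only [Finset.mem_inter, Finset.mem_union, Finset.mem_sdiff]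
        constructor
        · rintro ⟨h | h, h'⟩
          · exact absurd h' h.2
          · exact h
        · intro h
          exact ⟨Or.inr h, hUB h⟩
      rw [h4]
      by_cases hU0 : U = ∅
      · subst hU0
        simp [wt]
      · rw [if_neg hU0, if_neg hU0, mul_zero]
    rw [Finset.sum_congr rfl h3, Finset.sum_ite_eq']
    rw [if_pos (Finset.empty_mem_powerset B)]
  show av q (A \ B) (fun S => av q B (fun S => if S ∩ B = ∅ then (1:ℝ) else 0) S) ∅ = _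
  rw [h2, av_const]

open Classical in
theorem k8_good (h0 : 0 < q) (h1 : q < 1) (A : Finset ℤ) (o : ℤ) (ℓ n : ℕ)
    (hB : ∀ i < n, Bk o ℓ i ⊆ A) (hq : (n:ℝ) * (1 - q) ^ ℓ ≤ 1 / 2) :
    1 / 2 ≤ (pfm q h0 h1 A).E (fun S => if Good o ℓ n S then (1:ℝ) else 0) := by
  have h2 := k8_mono (pfm q h0 h1 A)
    (fun S => 1 - ∑ i ∈ Finset.range n, if S ∩ Bk o ℓ i = ∅ then (1:ℝ) else 0)
    (fun S => if Good o ℓ n S then (1:ℝ) else 0) (by
      intro S _
      have hnn : ∀ i ∈ Finset.range n, (0:ℝ) ≤ if S ∩ Bk o ℓ i = ∅ then (1:ℝ) else 0 := by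
        intro i _
        split_ifs <;> norm_num
      show 1 - ∑ i ∈ Finset.range n, (if S ∩ Bk o ℓ i = ∅ then (1:ℝ) else 0) ≤
        if Good o ℓ n S then (1:ℝ) else 0
      by_cases hg : Good o ℓ n S
      · rw [if_pos hg]
        have := Finset.sum_nonneg hnn
        linarith
      · rw [if_neg hg]
        unfold Good at hg
        push Not at hg
        obtain ⟨i, hi, hi2⟩ := hg
        have h3 := Finset.single_le_sum hnn (Finset.mem_range.2 hi)
        have h4 : S ∩ Bk o ℓ i = ∅ := by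
          first
            | exact hi2
            | exact Finset.not_nonempty_iff_eq_empty.1 hi2
        simp only [h4, if_true] at h3
        linarith)
  refine le_trans ?_ h2
  rw [k8_sub, k8_const, k8_sum]
  have h3 : ∀ i ∈ Finset.range n, (pfm q h0 h1 A).E
      (fun S => if S ∩ Bk o ℓ i = ∅ then (1:ℝ) else 0) = (1 - q) ^ ℓ := by
    intro i hi
    rw [pfm_E]
    have h4 := k8_emp (q := q) A (Bk o ℓ i) (hB i (Finset.mem_range.1 hi))
    rw [k8_cardB] at h4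
    rw [← h4]
  rw [Finset.sum_congr rfl h3, Finset.sum_const, Finset.card_range, nsmul_eq_mul]
  linarith

/-- comparison of the two conditioned measures -/
theorem k8_comp (h0 : 0 < q) (h1 : q < 1) (hL hR : Bool) (a b : ℤ) (hab : a ≤ b) (o : ℤ)
    (ℓ n : ℕ) (hn : 1 ≤ n) (hB : ∀ i < n, Bk o ℓ i ⊆ Icc a b)
    (hC : ∃ S ∈ (pfm q h0 h1 (Icc a b)).s, Good o ℓ n S)
    (hq : (n:ℝ) * (1 - q) ^ ℓ ≤ 1 / 2) (f : Finset ℤ → ℝ) (hf : ∀ x, 0 ≤ f x) :
    ((pfm q h0 h1 (Icc a b)).cond (Good o ℓ n) hC).E f ≤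
      2 * (wm q h0 h1 hL hR a b hab).E f := by
  classical
  have hg := k8_good h0 h1 (Icc a b) o ℓ n hB hq
  unfold wm
  split_ifs with hLR
  · rw [FM.cond_E]
    set N1 := (pfm q h0 h1 (Icc a b)).E (fun x => if Good o ℓ n x then f x else 0) with hN1
    set D1 := (pfm q h0 h1 (Icc a b)).E (fun x => if Good o ℓ n x then (1:ℝ) else 0) with hD1
    have h2 : N1 ≤ (pfm q h0 h1 (Icc a b)).E f := by
      apply k8_mono
      intro x _
      split_ifs
      · exact le_refl _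
      · exact hf x
    have h5 : 0 ≤ N1 := by
      have := k8_mono (pfm q h0 h1 (Icc a b)) (fun _ => 0)
        (fun x => if Good o ℓ n x then f x else 0) (fun x _ => by
          show 0 ≤ (if Good o ℓ n x then f x else 0)
          split_ifs
          · exact hf x
          · exact le_refl _)
      rwa [k8_const] at this
    have hD1pos : 0 < D1 := by linarith
    have h6 : N1 / D1 ≤ 2 * N1 := by
      rw [div_le_iff₀ hD1pos]
      nlinarith
    have h8 : N1 / D1 ≤ 2 * (pfm q h0 h1 (Icc a b)).E f := by linarith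
    convert h8
  · unfold nfm
    rw [FM.cond_E, FM.cond_E]
    set N1 := (pfm q h0 h1 (Icc a b)).E (fun x => if Good o ℓ n x then f x else 0) with hN1
    set D1 := (pfm q h0 h1 (Icc a b)).E (fun x => if Good o ℓ n x then (1:ℝ) else 0) with hD1
    have h2 : N1 ≤ (pfm q h0 h1 (Icc a b)).E (fun x => if x.Nonempty then f x else 0) := by
      apply k8_mono
      intro x _
      by_cases hx : Good o ℓ n x
      · have hxn : x.Nonempty := by
          obtain ⟨y, hy⟩ := hx 0 (by omega)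
          exact ⟨y, (Finset.mem_inter.1 hy).1⟩
        rw [if_pos hx, if_pos hxn]
      · rw [if_neg hx]
        split_ifs
        · exact hf x
        · exact le_refl _
    have h3 : (pfm q h0 h1 (Icc a b)).E (fun x => if x.Nonempty then (1:ℝ) else 0) ≤ 1 := by
      have := k8_mono (pfm q h0 h1 (Icc a b)) (fun x => if x.Nonempty then (1:ℝ) else 0)
        (fun _ => 1) (fun x _ => by
          show (if x.Nonempty then (1:ℝ) else 0) ≤ 1
          split_ifs <;> norm_num)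
      rwa [k8_const] at this
    have h4 : D1 ≤ (pfm q h0 h1 (Icc a b)).E (fun x => if x.Nonempty then (1:ℝ) else 0) := by
      apply k8_mono
      intro x _
      by_cases hx : Good o ℓ n x
      · have hxn : x.Nonempty := by
          obtain ⟨y, hy⟩ := hx 0 (by omega)
          exact ⟨y, (Finset.mem_inter.1 hy).1⟩
        rw [if_pos hx, if_pos hxn]
      · rw [if_neg hx]
        split_ifs <;> norm_num
    have h5 : 0 ≤ N1 := by
      have := k8_mono (pfm q h0 h1 (Icc a b)) (fun _ => 0)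
        (fun x => if Good o ℓ n x then f x else 0) (fun x _ => by
          show 0 ≤ (if Good o ℓ n x then f x else 0)
          split_ifs
          · exact hf x
          · exact le_refl _)
      rwa [k8_const] at this
    set N2 := (pfm q h0 h1 (Icc a b)).E (fun x => if x.Nonempty then f x else 0) with hN2
    set D2 := (pfm q h0 h1 (Icc a b)).E (fun x => if x.Nonempty then (1:ℝ) else 0) with hD2
    have hD1pos : 0 < D1 := by linarith
    have hD2pos : 0 < D2 := by linarith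
    have hN2 : 0 ≤ N2 := h5.trans h2
    have h6 : N1 / D1 ≤ 2 * N2 := by
      rw [div_le_iff₀ hD1pos]
      nlinarith
    have h7 : N2 ≤ N2 / D2 := by
      rw [le_div_iff₀ hD2pos]
      nlinarith
    have h8 : N1 / D1 ≤ 2 * (N2 / D2) := by linarith
    convert h8

theorem k8_w (h0 : 0 < q) (h1 : q < 1) (A : Finset ℤ) (o : ℤ) (ℓ n : ℕ)
    (hC : ∃ S ∈ (pfm q h0 h1 A).s, Good o ℓ n S) (S : Finset ℤ)
    (hS : S ⊆ A) (hg : Good o ℓ n S) :
    S ∈ ((pfm q h0 h1 A).cond (Good o ℓ n) hC).s ∧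
    1 / ((pfm q h0 h1 A).cond (Good o ℓ n) hC).w S ≤
      Real.exp ((A.card : ℕ) * Real.log (1 / min q (1 - q))) := by
  classical
  have hmem : S ∈ (pfm q h0 h1 A).s.filter (Good o ℓ n) :=
    Finset.mem_filter.2 ⟨Finset.mem_powerset.2 hS, hg⟩
  have hmem' : S ∈ ((pfm q h0 h1 A).cond (Good o ℓ n) hC).s := by
    unfold FM.cond
    exact Finset.mem_filter.2 ⟨Finset.mem_powerset.2 hS, hg⟩
  refine ⟨hmem', ?_⟩
  have hm : 0 < min q (1 - q) := lt_min h0 (by linarith)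
  have hwt := k8_wt h0 h1 A S
  have hw : (min q (1 - q)) ^ A.card ≤
      ((pfm q h0 h1 A).cond (Good o ℓ n) hC).w S := by
    refine hwt.trans ?_
    show wt q A S ≤ wt q A S / ∑ y ∈ _, (pfm q h0 h1 A).w y
    have hwp := wt_pos h0 h1 A S
    have hle : ∑ y ∈ (pfm q h0 h1 A).s.filter (Good o ℓ n),
        (pfm q h0 h1 A).w y ≤ 1 := by
      rw [← (pfm q h0 h1 A).hone]
      exact Finset.sum_le_sum_of_subset_of_nonneg (Finset.filter_subset _ _)
        (fun y hy _ => ((pfm q h0 h1 A).hw y hy).le)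
    have hpos : 0 < ∑ y ∈ (pfm q h0 h1 A).s.filter (Good o ℓ n),
        (pfm q h0 h1 A).w y :=
      Finset.sum_pos (fun y hy => (pfm q h0 h1 A).hw y (Finset.mem_filter.1 hy).1)
        ⟨S, hmem⟩
    have hgoal : wt q A S ≤ wt q A S /
        ∑ y ∈ (pfm q h0 h1 A).s.filter (Good o ℓ n),
        (pfm q h0 h1 A).w y := by
      rw [le_div_iff₀ hpos]
      nlinarith
    convert hgoal using 2
  have e1 : Real.exp ((A.card : ℕ) * Real.log (1 / min q (1 - q))) =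
      1 / (min q (1 - q)) ^ A.card := by
    rw [Real.exp_nat_mul, Real.exp_log (by positivity), one_div, one_div, inv_pow]
  rw [e1]
  exact one_div_le_one_div_of_le (by positivity) hw

/-- a move destroys goodness only if some block has exactly one infected site -/
theorem k8_Vex (h0 : 0 < q) (h1 : q < 1) (A : Finset ℤ) (o : ℤ) (ℓ n : ℕ)
    (k : ℤ → Finset ℤ → Bool) (S : Finset ℤ) :
    Vex (kG q h0.le h1.le A k) (Good o ℓ n) S ≤
      ∑ i ∈ Finset.range n, if (S ∩ Bk o ℓ i).card = 1 then 1 else 0 := by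
  classical
  by_cases hG : Good o ℓ n S
  · have h4 : Vex (kG q h0.le h1.le A k) (Good o ℓ n) S =
        ∑ p ∈ A ×ˢ (Finset.univ : Finset Bool),
          if ¬ Good o ℓ n (if p.2 then insert p.1 S else S.erase p.1) then
            kv k p.1 S * (if p.2 then q else 1 - q) else 0 := by
      unfold Vex kG
      apply Finset.sum_congr rfl
      intro i _
      simp only [hG, true_and]
    have hins : ∀ x, Good o ℓ n (insert x S) := by
      intro x i hi
      exact (hG i hi).mono (Finset.inter_subset_inter_right (Finset.subset_insert x S))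
    rw [h4, Finset.sum_product]
    have h5 : ∀ x ∈ A, (∑ y : Bool,
        if ¬ Good o ℓ n (if ((x, y) : ℤ × Bool).2 then insert ((x, y) : ℤ × Bool).1 S
          else S.erase ((x, y) : ℤ × Bool).1) then
            kv k ((x, y) : ℤ × Bool).1 S * (if ((x, y) : ℤ × Bool).2 then q else 1 - q) else 0) ≤
        ∑ i ∈ Finset.range n, if S ∩ Bk o ℓ i = {x} then (1 : ℝ) else 0 := by
      intro x _
      rw [Fintype.sum_bool]
      simp only [if_true, hins x, not_true_eq_false, if_false, zero_add, Bool.false_eq_true]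
      by_cases hE : Good o ℓ n (S.erase x)
      · rw [if_neg (not_not.2 hE)]
        apply Finset.sum_nonneg
        intro i _
        split_ifs <;> norm_num
      · rw [if_pos hE]
        have hE' := hE
        unfold Good at hE'
        push Not at hE'
        obtain ⟨i, hi, he⟩ := hE'
        have hne := hG i hi
        have hsing : S ∩ Bk o ℓ i = {x} := by
          obtain ⟨y, hy⟩ := hne
          have hall : ∀ y ∈ S ∩ Bk o ℓ i, y = x := by
            intro y hy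
            by_contra hyx
            have : y ∈ S.erase x ∩ Bk o ℓ i :=
              Finset.mem_inter.2 ⟨Finset.mem_erase.2 ⟨hyx, (Finset.mem_inter.1 hy).1⟩,
                (Finset.mem_inter.1 hy).2⟩
            rw [he] at this
            exact absurd this (Finset.notMem_empty _)
          apply Finset.eq_singleton_iff_unique_mem.2
          refine ⟨?_, hall⟩
          rw [← hall y hy]
          exact hy
        have h6 : kv k x S * (1 - q) ≤ 1 := by
          have a1 := kv_le k x S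
          have a2 := kv_nonneg k x S
          calc kv k x S * (1 - q) ≤ 1 * 1 :=
                mul_le_mul a1 (by linarith) (by linarith) (by norm_num)
            _ = 1 := by norm_num
        refine h6.trans ?_
        have h7 : (if S ∩ Bk o ℓ i = {x} then (1 : ℝ) else 0) ≤
            ∑ i ∈ Finset.range n, if S ∩ Bk o ℓ i = {x} then (1 : ℝ) else 0 := by
          apply Finset.single_le_sum (f := fun i => if S ∩ Bk o ℓ i = {x} then (1 : ℝ) else 0)
          · intro j _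
            show (0 : ℝ) ≤ if S ∩ Bk o ℓ j = {x} then (1 : ℝ) else 0
            split_ifs <;> norm_num
          · exact Finset.mem_range.2 hi
        rw [if_pos hsing] at h7
        exact h7
    refine (Finset.sum_le_sum h5).trans ?_
    rw [Finset.sum_comm]
    apply Finset.sum_le_sum
    intro i _
    by_cases hc : (S ∩ Bk o ℓ i).card = 1
    · rw [if_pos hc]
      obtain ⟨y, hy⟩ := Finset.card_eq_one.1 hc
      rw [hy]
      have h8 : ∀ x ∈ A, (if ({y} : Finset ℤ) = {x} then (1 : ℝ) else 0) =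
          if y = x then 1 else 0 := by
        intro x _
        simp only [Finset.singleton_inj]
      rw [Finset.sum_congr rfl h8, Finset.sum_ite_eq]
      split_ifs <;> norm_num
    · rw [if_neg hc]
      apply le_of_eq
      apply Finset.sum_eq_zero
      intro x _
      rw [if_neg]
      intro h
      apply hc
      rw [h, Finset.card_singleton]
  · have h4 : Vex (kG q h0.le h1.le A k) (Good o ℓ n) S = 0 := by
      unfold Vex
      apply Finset.sum_eq_zero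
      intro i _
      rw [if_neg]
      exact fun h => hG h.1
    rw [h4]
    apply Finset.sum_nonneg
    intro i _
    split_ifs <;> norm_num

theorem k8_Psum {X : Type} (G : MG X) (F : ℕ → X → ℝ) (n : ℕ) (hF : ∀ i < n, Bd (F i)) (t : ℝ)
    (x : X) : Bd (fun y => ∑ i ∈ Finset.range n, F i y) ∧
    G.P t (fun y => ∑ i ∈ Finset.range n, F i y) x = ∑ i ∈ Finset.range n, G.P t (F i) x := by
  induction n with
  | zero =>
    simp only [Finset.range_zero, Finset.sum_empty]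
    exact ⟨⟨0, fun _ => by simp⟩, G.P_const 0 t x⟩
  | succ n ih =>
    obtain ⟨b1, b2⟩ := ih (fun i hi => hF i (by omega))
    have b3 := hF n (by omega)
    simp only [Finset.sum_range_succ]
    refine ⟨?_, ?_⟩
    · obtain ⟨M1, hM1⟩ := b1
      obtain ⟨M2, hM2⟩ := b3
      refine ⟨M1 + M2, fun y => ?_⟩
      exact (abs_add_le _ _).trans (add_le_add (hM1 y) (hM2 y))
    · rw [G.P_add _ _ b1 b3, b2]

theorem k8_Ne_bd (z : ℤ) (r : ℕ) : Bd (Ne z r) := by
  refine ⟨1, fun T => ?_⟩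
  unfold Ne
  split_ifs <;> norm_num

theorem k8_Ne_nonneg (z : ℤ) (r : ℕ) (T : Finset ℤ) : 0 ≤ Ne z r T := by
  unfold Ne
  split_ifs <;> norm_num

theorem k8_Ne_le (z : ℤ) (r : ℕ) (T : Finset ℤ) : Ne z r T ≤ 1 := by
  unfold Ne
  split_ifs <;> norm_num

theorem k8_Ne_sub (z : ℤ) (r : ℕ) (T B : Finset ℤ) (h1 : Icc (z - r) (z + r) ⊆ B)
    (h : T ∩ B = ∅) : Ne z r T = 1 := by
  unfold Ne
  rw [if_pos]
  apply Finset.eq_empty_of_forall_notMem
  intro x hx
  rw [Finset.mem_inter] at hx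
  have : x ∈ T ∩ B := Finset.mem_inter.2 ⟨hx.1, h1 hx.2⟩
  rw [h] at this
  exact absurd this (Finset.notMem_empty _)

theorem k8_one (o : ℤ) (ℓ i r : ℕ) (hl : 64 ≤ ℓ) (hr : 16 * r ≤ ℓ) (T : Finset ℤ)
    (hc : (T ∩ Bk o ℓ i).card = 1) :
    1 ≤ Ne (o + i * ℓ + ℓ / 4) r T + Ne (o + i * ℓ + ℓ - 1 - ℓ / 4) r T := by
  obtain ⟨y, hy⟩ := Finset.card_eq_one.1 hc
  have key : ∀ z : ℤ, Icc (z - r) (z + r) ⊆ Bk o ℓ i → y ∉ Icc (z - r) (z + r) →
      Ne z r T = 1 := by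
    intro z hz hyz
    unfold Ne
    rw [if_pos]
    apply Finset.eq_empty_of_forall_notMem
    intro x hx
    rw [Finset.mem_inter] at hx
    have h2 : x ∈ T ∩ Bk o ℓ i := Finset.mem_inter.2 ⟨hx.1, hz hx.2⟩
    rw [hy, Finset.mem_singleton] at h2
    subst h2
    exact hyz hx.2
  have s1 : Icc ((o + i * ℓ + ℓ / 4 : ℤ) - r) (o + i * ℓ + ℓ / 4 + r) ⊆ Bk o ℓ i := by
    unfold Bk
    apply Finset.Icc_subset_Icc <;> omega
  have s2 : Icc ((o + i * ℓ + ℓ - 1 - ℓ / 4 : ℤ) - r) (o + i * ℓ + ℓ - 1 - ℓ / 4 + r) ⊆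
      Bk o ℓ i := by
    unfold Bk
    apply Finset.Icc_subset_Icc <;> omega
  by_cases hy1 : y ∈ Icc ((o + i * ℓ + ℓ / 4 : ℤ) - r) (o + i * ℓ + ℓ / 4 + r)
  · have hy2 : y ∉ Icc ((o + i * ℓ + ℓ - 1 - ℓ / 4 : ℤ) - r) (o + i * ℓ + ℓ - 1 - ℓ / 4 + r) := by
      rw [Finset.mem_Icc] at hy1 ⊢
      omega
    rw [key _ s2 hy2]
    linarith [k8_Ne_nonneg (o + i * ℓ + ℓ / 4) r T]
  · rw [key _ s1 hy1]
    linarith [k8_Ne_nonneg (o + i * ℓ + ℓ - 1 - ℓ / 4) r T]

theorem k8_zero (o : ℤ) (ℓ i r : ℕ) (hl : 64 ≤ ℓ) (hr : 16 * r ≤ ℓ) (T : Finset ℤ)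
    (hc : T ∩ Bk o ℓ i = ∅) : Ne (o + i * ℓ + ℓ / 4) r T = 1 := by
  apply k8_Ne_sub _ _ _ _ _ hc
  unfold Bk
  apply Finset.Icc_subset_Icc <;> omega

end FA
namespace FA
variable {q : ℝ}

/-- hypercontractive bound for the reflected chain on good configurations -/
theorem k8_hyp (h0 : 0 < q) (h1 : q < 1) (Cg : ℝ) (hCg : 0 < Cg)
    (hgap : ∀ (hL hR : Bool) (a b : ℤ) (hab : a + 2 ≤ b)
      (F : Finset ℤ → ℝ), (wm q h0 h1 hL hR a b (by linarith)).Var F ≤
        Cg * Dir (wG q h0 h1 hL hR a b) (wm q h0 h1 hL hR a b (by linarith)) F)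
    (K : ℝ) (hK : 0 < K)
    (hlsi : ∀ (hL hR : Bool) (a b o : ℤ) (ℓ N : ℕ), 1 ≤ ℓ →
    2 ≤ N → a ≤ o → o - a ≤ 2 * ℓ → o + N * ℓ - 1 ≤ b → b - (o + N * ℓ - 1) ≤ 2 * ℓ →
    ∀ (hC : ∃ S ∈ (pfm q h0 h1 (Icc a b)).s, Good o ℓ N S) (f : Finset ℤ → ℝ), (∀ S, 0 < f S) →
      ((pfm q h0 h1 (Icc a b)).cond (Good o ℓ N) hC).Ent (fun S => f S ^ 2) ≤
        K * ℓ * Dir ((wG q h0 h1 hL hR a b).refl (Good o ℓ N))
          ((pfm q h0 h1 (Icc a b)).cond (Good o ℓ N) hC) f)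
    (n : ℕ) (hL hR : Bool) (ℓ N : ℕ) (hl : 64 ≤ ℓ) (hN : 2 ≤ N)
    (hN1 : (N + 2) * ℓ ≤ n + 1) (hN2 : n + 1 < (N + 3) * ℓ)
    (hq : (N:ℝ) * (1 - q) ^ ℓ ≤ 1 / 2)
    (T : ℝ) (hT : 0 ≤ T)
    (hexp : ((n:ℝ) + 1) * Real.log (1 / min q (1 - q)) * (2 * Cg) ≤
      T * (1 + Real.exp (4 * T / (K * ℓ))))
    (F : Finset ℤ → ℝ) (hF : ∀ T, |F T| ≤ 1)
    (S : Finset ℤ) (hS : S ⊆ Icc 0 (n:ℤ)) (hg : Good (ℓ:ℤ) ℓ N S) :
    |((wG q h0 h1 hL hR 0 n).refl (Good (ℓ:ℤ) ℓ N)).P T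
      (fun x => (wG q h0 h1 hL hR 0 n).P T F x -
        (wm q h0 h1 hL hR 0 n (Int.natCast_nonneg n)).E F) S| ≤
      Real.sqrt 2 * Real.exp (-(T / (2 * Cg))) := by
  have hl1 : 1 ≤ ℓ := by omega
  have hlR : (0:ℝ) < ℓ := by
    have : 0 < ℓ := by omega
    exact_mod_cast this
  have hN1z : ((N:ℤ) + 2) * ℓ ≤ n + 1 := by exact_mod_cast hN1
  have hN2z : (n:ℤ) + 1 < ((N:ℤ) + 3) * ℓ := by exact_mod_cast hN2
  have hlz : (64:ℤ) ≤ ℓ := by exact_mod_cast hl
  have hNz : (2:ℤ) ≤ N := by exact_mod_cast hN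
  have hob : (ℓ:ℤ) + N * ℓ - 1 ≤ n := by nlinarith
  have hob2 : (n:ℤ) - ((ℓ:ℤ) + N * ℓ - 1) ≤ 2 * ℓ := by nlinarith
  have hn2 : (0:ℤ) + 2 ≤ n := by nlinarith
  have hBk : ∀ i < N, Bk (ℓ:ℤ) ℓ i ⊆ Icc 0 (n:ℤ) := by
    intro i hi
    refine (bk_sub (ℓ:ℤ) ℓ N i hi).trans ?_
    unfold Bx
    exact Finset.Icc_subset_Icc (by omega) hob
  have hC : ∃ S ∈ (pfm q h0 h1 (Icc 0 (n:ℤ))).s, Good (ℓ:ℤ) ℓ N S :=
    goodw_ex h0 h1 0 n ℓ ℓ N hl1 (by omega) hob
  set G := wG q h0 h1 hL hR 0 n with hG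
  set m' := wm q h0 h1 hL hR 0 n (Int.natCast_nonneg n) with hm'
  set m'' := (pfm q h0 h1 (Icc 0 (n:ℤ))).cond (Good (ℓ:ℤ) ℓ N) hC with hm''
  set Q := G.refl (Good (ℓ:ℤ) ℓ N) with hQ
  have hFb : Bd F := ⟨1, hF⟩
  have hm1 : |m'.E F| ≤ 1 := k8_abs m' F hF
  have hrevG : Rev G m' := wG_rev h0 h1 hL hR 0 n hn2
  have hPF : ∀ x, |G.P T F x| ≤ 1 := fun x => G.P_bound F 1 hF _ hT x
  have hPFb : Bd (G.P T F) := ⟨1, hPF⟩
  set H : Finset ℤ → ℝ := fun x => G.P T F x - m'.E F with hH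
  have hH2 : ∀ x, |H x| ≤ 2 := by
    intro x
    refine (abs_sub _ _).trans ?_
    linarith [hPF x]
  have hHb : Bd H := ⟨2, hH2⟩
  obtain ⟨hSm, hSw⟩ := k8_w h0 h1 (Icc 0 (n:ℤ)) ℓ ℓ N hC S hS hg
  have habs : |Q.P T H S| ≤ Q.P T (fun x => |H x|) S := by
    have hab' : Bd (fun x => |H x|) := ⟨2, fun x => by rw [abs_abs]; exact hH2 x⟩
    have hab2 : Bd (fun x => -1 * |H x|) := ⟨2, fun x => by
      show |(-1) * (|H x|)| ≤ 2
      rw [neg_one_mul, abs_neg, abs_abs]; exact hH2 x⟩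
    rw [abs_le]
    constructor
    · have h2 := Q.P_mono (fun x => -1 * |H x|) H hab2 hHb (fun x => by
        rw [neg_one_mul]; exact neg_abs_le _) _ hT S
      rw [Q.P_smul _ _ hab'] at h2
      linarith
    · exact Q.P_mono H (fun x => |H x|) hHb hab' (fun x => le_abs_self _) _ hT S
  have hrevQ : Rev Q m'' := by
    apply rev_refl
    exact rev_kG h0 h1 (Icc 0 (n:ℤ)) _ (fun x hx S => (kw_adm0 hL hR 0 n).self x hx S)
  have hyp := hyper_point Q m'' hrevQ (K * ℓ) (by positivity)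
    (fun f hf _ => hlsi hL hR 0 n ℓ ℓ N hl1 hN (by omega) (by omega) hob hob2 hC f hf)
    (fun x => |H x|) (fun x => abs_nonneg _)
    ⟨2, fun x => by rw [abs_abs]; exact hH2 x⟩ T hT S hSm
  simp only [sq_abs] at hyp
  set p := 1 + Real.exp (4 * T / (K * ℓ)) with hpdef
  set L1 := Real.log (1 / min q (1 - q)) with hL1
  have hp0 : 0 < p := by positivity
  have hwpos : 0 < m''.w S := m''.hw S hSm
  have hcard : ((Icc 0 (n:ℤ)).card : ℝ) = (n:ℝ) + 1 := by
    rw [Int.card_Icc]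
    have h : ((n:ℤ) + 1 - 0) = ((n + 1 : ℕ) : ℤ) := by push_cast; ring
    rw [h, Int.toNat_natCast]
    push_cast
    ring
  rw [hcard] at hSw
  have hfac : (1 / m''.w S) ^ (1 / p) ≤ Real.exp (T / (2 * Cg)) := by
    have h2 : (1 / m''.w S) ^ (1 / p) ≤ (Real.exp (((n:ℝ) + 1) * L1)) ^ (1 / p) :=
      Real.rpow_le_rpow (by positivity) hSw (by positivity)
    refine h2.trans ?_
    rw [← Real.exp_mul]
    apply Real.exp_le_exp.2
    rw [mul_one_div, div_le_div_iff₀ hp0 (by positivity)]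
    exact hexp
  have hVar : m'.E (fun x => H x ^ 2) ≤ Real.exp (-(2 * T / Cg)) := by
    have e3 : m'.E (G.P T F) = m'.E F := E_P G m' hrevG F hFb _
    have e4 : m'.E (fun x => H x ^ 2) = m'.Var (G.P T F) := by
      rw [← k8_center, e3]
    rw [e4]
    have h2 := l2_decay G m' hrevG Cg hCg
      (fun F _ => hgap hL hR 0 n hn2 F) F hFb T hT
    refine h2.trans ?_
    have h3 := k8_var_le m' F hF
    have h4 := Real.exp_pos (-(2 * T / Cg))
    nlinarith
  have hcmp := k8_comp h0 h1 hL hR 0 n (Int.natCast_nonneg n) ℓ ℓ N (by omega) hBk hC hq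
    (fun x => H x ^ 2) (fun x => sq_nonneg _)
  have hsq : Real.sqrt (m''.E (fun x => H x ^ 2)) ≤
      Real.sqrt 2 * Real.exp (-(T / Cg)) := by
    have h2 : m''.E (fun x => H x ^ 2) ≤ 2 * (Real.exp (-(T / Cg))) ^ 2 := by
      have e5 : (Real.exp (-(T / Cg))) ^ 2 = Real.exp (-(2 * T / Cg)) := by
        rw [← Real.exp_nat_mul]
        congr 1
        push_cast
        ring
      rw [e5]
      refine hcmp.trans ?_
      linarith
    refine (Real.sqrt_le_sqrt h2).trans ?_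
    rw [Real.sqrt_mul (by norm_num), Real.sqrt_sq (Real.exp_pos _).le]
  refine habs.trans (hyp.trans ?_)
  calc (1 / m''.w S) ^ (1 / p) * Real.sqrt (m''.E (fun x => H x ^ 2)) ≤
        Real.exp (T / (2 * Cg)) * (Real.sqrt 2 * Real.exp (-(T / Cg))) :=
        mul_le_mul hfac hsq (Real.sqrt_nonneg _) (Real.exp_pos _).le
    _ = Real.sqrt 2 * (Real.exp (T / (2 * Cg)) * Real.exp (-(T / Cg))) := by ring
    _ = Real.sqrt 2 * Real.exp (-(T / (2 * Cg))) := by
        rw [← Real.exp_add]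
        congr 2
        field_simp
        ring

theorem k8_core (h0 : 0 < q) (h1 : q < 1) (Cg : ℝ) (hCg : 0 < Cg)
    (hgap : ∀ (hL hR : Bool) (a b : ℤ) (hab : a + 2 ≤ b)
      (F : Finset ℤ → ℝ), (wm q h0 h1 hL hR a b (by linarith)).Var F ≤
        Cg * Dir (wG q h0 h1 hL hR a b) (wm q h0 h1 hL hR a b (by linarith)) F)
    (K : ℝ) (hK : 0 < K)
    (hlsi : ∀ (hL hR : Bool) (a b o : ℤ) (ℓ N : ℕ), 1 ≤ ℓ →
    2 ≤ N → a ≤ o → o - a ≤ 2 * ℓ → o + N * ℓ - 1 ≤ b → b - (o + N * ℓ - 1) ≤ 2 * ℓ →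
    ∀ (hC : ∃ S ∈ (pfm q h0 h1 (Icc a b)).s, Good o ℓ N S) (f : Finset ℤ → ℝ), (∀ S, 0 < f S) →
      ((pfm q h0 h1 (Icc a b)).cond (Good o ℓ N) hC).Ent (fun S => f S ^ 2) ≤
        K * ℓ * Dir ((wG q h0 h1 hL hR a b).refl (Good o ℓ N))
          ((pfm q h0 h1 (Icc a b)).cond (Good o ℓ N) hC) f)
    (n : ℕ) (hL hR : Bool) (ℓ N r : ℕ) (hl : 64 ≤ ℓ) (hN : 2 ≤ N) (hr : 16 * r ≤ ℓ)
    (hN1 : (N + 2) * ℓ ≤ n + 1) (hN2 : n + 1 < (N + 3) * ℓ)
    (hq : (N:ℝ) * (1 - q) ^ ℓ ≤ 1 / 2)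
    (T : ℝ) (hT : 0 ≤ T)
    (hexp : ((n:ℝ) + 1) * Real.log (1 / min q (1 - q)) * (2 * Cg) ≤
      T * (1 + Real.exp (4 * T / (K * ℓ))))
    (F : Finset ℤ → ℝ) (hF : ∀ T, |F T| ≤ 1)
    (S : Finset ℤ) (hS : S ⊆ Icc 0 (n:ℤ)) (hOk : Okw hL hR S) (t1 e1 : ℝ) (ht1 : 0 ≤ t1)
    (hP : ∀ s : ℝ, t1 ≤ s → s ≤ t1 + T → ∀ z : ℤ, (ℓ:ℤ) ≤ z → z ≤ n - ℓ →
      (wG q h0 h1 hL hR 0 n).P s (Ne z r) S ≤ e1) :
    |(wG q h0 h1 hL hR 0 n).P (t1 + 2 * T) F S -
      (wm q h0 h1 hL hR 0 n (Int.natCast_nonneg n)).E F| ≤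
      2 * 2 * T * (2 * N * e1) + (2 * N * e1 + Real.sqrt 2 * Real.exp (-(T / (2 * Cg)))) := by
  have hl1 : 1 ≤ ℓ := by omega
  have hN1z : ((N:ℤ) + 2) * ℓ ≤ n + 1 := by exact_mod_cast hN1
  have hlz : (64:ℤ) ≤ ℓ := by exact_mod_cast hl
  have hNz : (2:ℤ) ≤ N := by exact_mod_cast hN
  have hrz : 16 * (r:ℤ) ≤ ℓ := by exact_mod_cast hr
  have hob : (ℓ:ℤ) + N * ℓ - 1 ≤ n - ℓ := by nlinarith
  -- the hypercontractive bound
  have hhyp := fun (S' : Finset ℤ) (hS' : S' ⊆ Icc 0 (n:ℤ)) (hg : Good (ℓ:ℤ) ℓ N S') =>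
    k8_hyp h0 h1 Cg hCg hgap K hK hlsi n hL hR ℓ N hl hN hN1 hN2 hq T hT hexp F hF S' hS' hg
  set G := wG q h0 h1 hL hR 0 n with hG
  set m' := wm q h0 h1 hL hR 0 n (Int.natCast_nonneg n) with hm'
  set Q := G.refl (Good (ℓ:ℤ) ℓ N) with hQ
  set A0 := Real.sqrt 2 * Real.exp (-(T / (2 * Cg))) with hA0
  have hA0p : 0 ≤ A0 := by positivity
  have hFb : Bd F := ⟨1, hF⟩
  have hm1 : |m'.E F| ≤ 1 := k8_abs m' F hF
  have hPF : ∀ x, |G.P T F x| ≤ 1 := fun x => G.P_bound F 1 hF _ hT x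
  have hPFb : Bd (G.P T F) := ⟨1, hPF⟩
  set H : Finset ℤ → ℝ := fun x => G.P T F x - m'.E F with hH
  have hH2 : ∀ x, |H x| ≤ 2 := by
    intro x
    refine (abs_sub _ _).trans ?_
    linarith [hPF x]
  have hHb : Bd H := ⟨2, hH2⟩
  have hA : G.P (t1 + 2 * T) F S - m'.E F = G.P (t1 + T) H S := by
    have e1 : G.P (t1 + T) H S = G.P (t1 + T) (G.P T F) S +
        G.P (t1 + T) (fun _ => - m'.E F) S := by
      rw [← G.P_add _ _ hPFb ⟨1, fun x => by rw [abs_neg]; exact hm1⟩]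
      rfl
    rw [e1, G.P_const, ← G.P_semigroup F hFb]
    rw [show (t1 + T + T : ℝ) = t1 + 2 * T by ring]
    ring
  rw [hA]
  -- the centres
  set z1 : ℕ → ℤ := fun i => (ℓ:ℤ) + i * ℓ + ℓ / 4 with hz1
  set z2 : ℕ → ℤ := fun i => (ℓ:ℤ) + i * ℓ + ℓ - 1 - ℓ / 4 with hz2
  have hz1r : ∀ i < N, (ℓ:ℤ) ≤ z1 i ∧ z1 i ≤ n - ℓ := by
    intro i hi
    have hi' : (i:ℤ) + 1 ≤ N := by exact_mod_cast hi
    have h2 : ((i:ℤ) + 1) * ℓ ≤ N * ℓ := mul_le_mul_of_nonneg_right hi' (by omega)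
    have h3 : (0:ℤ) ≤ (i:ℤ) * ℓ := by positivity
    have h4 : ((i:ℤ) + 1) * ℓ = (i:ℤ) * ℓ + ℓ := by ring
    rw [h4] at h2
    simp only [hz1]
    generalize (i:ℤ) * ℓ = u at *
    generalize (N:ℤ) * ℓ = v at *
    omega
  have hz2r : ∀ i < N, (ℓ:ℤ) ≤ z2 i ∧ z2 i ≤ n - ℓ := by
    intro i hi
    have hi' : (i:ℤ) + 1 ≤ N := by exact_mod_cast hi
    have h2 : ((i:ℤ) + 1) * ℓ ≤ N * ℓ := mul_le_mul_of_nonneg_right hi' (by omega)
    have h3 : (0:ℤ) ≤ (i:ℤ) * ℓ := by positivity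
    have h4 : ((i:ℤ) + 1) * ℓ = (i:ℤ) * ℓ + ℓ := by ring
    rw [h4] at h2
    simp only [hz2]
    generalize (i:ℤ) * ℓ = u at *
    generalize (N:ℤ) * ℓ = v at *
    omega
  have hb1 : ∀ i < N, Bd (fun T' => Ne (z1 i) r T' + Ne (z2 i) r T') := by
    intro i _
    refine ⟨2, fun T' => ?_⟩
    show |Ne (z1 i) r T' + Ne (z2 i) r T'| ≤ 2
    have a1 := k8_Ne_nonneg (z1 i) r T'
    have a2 := k8_Ne_nonneg (z2 i) r T'
    have a3 := k8_Ne_le (z1 i) r T'
    have a4 := k8_Ne_le (z2 i) r T'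
    rw [abs_le]
    constructor <;> linarith
  -- the Duhamel step
  have hVb : ∀ s : ℝ, t1 ≤ s → s ≤ t1 + T → G.P s (Vex G (Good (ℓ:ℤ) ℓ N)) S ≤ 2 * N * e1 := by
    intro s hs1 hs2
    have hs0 : 0 ≤ s := ht1.trans hs1
    obtain ⟨c1, c2⟩ := k8_Psum G (fun i T' => Ne (z1 i) r T' + Ne (z2 i) r T') N hb1 s S
    have hle : ∀ T', Vex G (Good (ℓ:ℤ) ℓ N) T' ≤
        ∑ i ∈ Finset.range N, (Ne (z1 i) r T' + Ne (z2 i) r T') := by
      intro T'
      refine (k8_Vex h0 h1 (Icc 0 (n:ℤ)) ℓ ℓ N (kw hL hR 0 n) T').trans ?_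
      apply Finset.sum_le_sum
      intro i _
      split_ifs with hc
      · exact k8_one ℓ ℓ i r hl hr T' hc
      · have a1 := k8_Ne_nonneg (z1 i) r T'
        have a2 := k8_Ne_nonneg (z2 i) r T'
        linarith
    refine (G.P_mono _ _ (Vex_bd G _) c1 hle s hs0 S).trans ?_
    rw [c2]
    have h5 : ∀ i ∈ Finset.range N, G.P s (fun T' => Ne (z1 i) r T' + Ne (z2 i) r T') S ≤
        2 * e1 := by
      intro i hi
      have hi' := Finset.mem_range.1 hi
      rw [G.P_add _ _ (k8_Ne_bd _ _) (k8_Ne_bd _ _)]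
      have a1 := hP s hs1 hs2 (z1 i) (hz1r i hi').1 (hz1r i hi').2
      have a2 := hP s hs1 hs2 (z2 i) (hz2r i hi').1 (hz2r i hi').2
      linarith
    refine (Finset.sum_le_sum h5).trans ?_
    rw [Finset.sum_const, Finset.card_range, nsmul_eq_mul]
    apply le_of_eq
    ring
  have hB : |G.P (t1 + T) H S - G.P t1 (Q.P T H) S| ≤ 2 * 2 * T * (2 * N * e1) :=
    MG.duhamel_avg G Q (Vex G (Good (ℓ:ℤ) ℓ N)) (Vex_bd G _) (Vex_nonneg G _)
      (fun H M hM x => Vex_diff G _ H M hM x) H 2 hH2 t1 T _ ht1 hT S hVb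
  -- the remaining average
  have hQb : ∀ T', |Q.P T H T'| ≤ 2 := fun T' => Q.P_bound H 2 hH2 _ hT T'
  have hQbd : Bd (Q.P T H) := ⟨2, hQb⟩
  have hb2 : ∀ i < N, Bd (fun T' => 2 * Ne (z1 i) r T') := by
    intro i _
    refine ⟨2, fun T' => ?_⟩
    show |2 * Ne (z1 i) r T'| ≤ 2
    have a1 := k8_Ne_nonneg (z1 i) r T'
    have a3 := k8_Ne_le (z1 i) r T'
    rw [abs_le]
    constructor <;> linarith
  obtain ⟨c1, c2⟩ := k8_Psum G (fun i T' => 2 * Ne (z1 i) r T') N hb2 t1 S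
  have hUbd : Bd (fun T' => (∑ i ∈ Finset.range N, 2 * Ne (z1 i) r T') + A0) := by
    obtain ⟨M, hM⟩ := c1
    refine ⟨M + A0, fun T' => ?_⟩
    refine (abs_add_le _ _).trans ?_
    rw [abs_of_nonneg hA0p]
    linarith [hM T']
  have hUbd' : Bd (fun T' => -1 * ((∑ i ∈ Finset.range N, 2 * Ne (z1 i) r T') + A0)) := by
    obtain ⟨M, hM⟩ := hUbd
    refine ⟨M, fun T' => ?_⟩
    show |-1 * ((∑ i ∈ Finset.range N, 2 * Ne (z1 i) r T') + A0)| ≤ M
    rw [neg_one_mul, abs_neg]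
    exact hM T'
  have hpt : ∀ T' ∈ {S : Finset ℤ | S ⊆ Icc 0 (n:ℤ) ∧ Okw hL hR S},
      |Q.P T H T'| ≤ (∑ i ∈ Finset.range N, 2 * Ne (z1 i) r T') + A0 := by
    intro T' hT'
    have hnn : ∀ i ∈ Finset.range N, (0:ℝ) ≤ 2 * Ne (z1 i) r T' := by
      intro i _
      have := k8_Ne_nonneg (z1 i) r T'
      linarith
    by_cases hg : Good (ℓ:ℤ) ℓ N T'
    · have h3 := hhyp T' hT'.1 hg
      have h4 := Finset.sum_nonneg hnn
      exact h3.trans (by linarith)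
    · unfold Good at hg
      push Not at hg
      obtain ⟨i, hi, hi2⟩ := hg
      have h3 := Finset.single_le_sum hnn (Finset.mem_range.2 hi)
      have h4 : Ne (z1 i) r T' = 1 := k8_zero ℓ ℓ i r hl hr T' hi2
      rw [h4] at h3
      have := hQb T'
      linarith
  have hcl := Okw_closed h0 h1 hL hR 0 (n:ℤ)
  have hup : G.P t1 (fun T' => (∑ i ∈ Finset.range N, 2 * Ne (z1 i) r T') + A0) S ≤
      2 * N * e1 + A0 := by
    rw [G.P_add _ _ c1 ⟨A0, fun _ => by rw [abs_of_nonneg hA0p]⟩, G.P_const, c2]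
    have h5 : ∀ i ∈ Finset.range N, G.P t1 (fun T' => 2 * Ne (z1 i) r T') S ≤ 2 * e1 := by
      intro i hi
      have hi' := Finset.mem_range.1 hi
      rw [G.P_smul _ _ (k8_Ne_bd _ _)]
      have a1 := hP t1 le_rfl (by linarith) (z1 i) (hz1r i hi').1 (hz1r i hi').2
      linarith
    have h6 := Finset.sum_le_sum h5
    rw [Finset.sum_const, Finset.card_range, nsmul_eq_mul] at h6
    linarith
  have hC1 : |G.P t1 (Q.P T H) S| ≤ 2 * N * e1 + A0 := by
    rw [abs_le]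
    constructor
    · have h3 := G.P_mono_on _ hcl
        (fun T' => -1 * ((∑ i ∈ Finset.range N, 2 * Ne (z1 i) r T') + A0)) (Q.P T H) hUbd' hQbd
        (fun T' hT' => by
          have := (abs_le.1 (hpt T' hT')).1
          linarith) t1 ht1 S ⟨hS, hOk⟩
      rw [G.P_smul _ _ hUbd] at h3
      linarith
    · exact (G.P_mono_on _ hcl (Q.P T H) _ hQbd hUbd
        (fun T' hT' => (abs_le.1 (hpt T' hT')).2) t1 ht1 S ⟨hS, hOk⟩).trans hup
  have htri : |G.P (t1 + T) H S| ≤ |G.P (t1 + T) H S - G.P t1 (Q.P T H) S| +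
      |G.P t1 (Q.P T H) S| := by
    have := abs_add_le (G.P (t1 + T) H S - G.P t1 (Q.P T H) S) (G.P t1 (Q.P T H) S)
    rwa [sub_add_cancel] at this
  linarith

end FA
namespace FA
variable {q : ℝ}

/-- total variation convergence within time `ε n`, given that long healthy gaps are unlikely -/
theorem conv_w (h0 : 0 < q) (h1 : q < 1) (ε : ℝ) (hε : 0 < ε) :
    ∃ (δ c C : ℝ) (n0 : ℕ), 0 < δ ∧ δ < 1 / 4 ∧ 0 < c ∧ 0 < C ∧ ∀ n : ℕ, n0 ≤ n → ∀ (hL hR : Bool)
      (S : Finset ℤ), S ⊆ Icc 0 (n : ℤ) → Okw hL hR S → ∀ t1 e1 : ℝ, 0 ≤ t1 → 0 ≤ e1 →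
      (∀ s : ℝ, t1 ≤ s → s ≤ t1 + ε * n → ∀ z : ℤ, δ * n ≤ (z : ℝ) → (z : ℝ) ≤ n - δ * n →
        (wG q h0 h1 hL hR 0 n).P s (Ne z ⌊δ * n⌋₊) S ≤ e1) →
      ∀ F : Finset ℤ → ℝ, (∀ T, |F T| ≤ 1) →
        |(wG q h0 h1 hL hR 0 n).P (t1 + ε * n) F S -
          (wm q h0 h1 hL hR 0 n (Int.natCast_nonneg n)).E F| ≤ C * (n * e1 + Real.exp (-(c * n))) := by
  obtain ⟨Cg, hCg, hgap⟩ := wG_gap h0 h1
  obtain ⟨K, hK, hlsi⟩ := w_lsi h0 h1
  have hm : 0 < min q (1 - q) := lt_min h0 (by linarith)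
  have hmin : min q (1 - q) < 1 := (min_le_left _ _).trans_lt h1
  have hL1 : 0 < Real.log (1 / min q (1 - q)) := by
    apply Real.log_pos
    rw [lt_div_iff₀ hm]
    linarith
  set L1 := Real.log (1 / min q (1 - q)) with hL1def
  set d := min (1 / 8) (ε ^ 2 / (4 * L1 * Cg * K)) with hd
  have hdpos : 0 < d := lt_min (by norm_num) (by positivity)
  have hd8 : d ≤ 1 / 8 := min_le_left _ _
  have hd2 : d ≤ ε ^ 2 / (4 * L1 * Cg * K) := min_le_right _ _
  obtain ⟨ℓ1, hℓ1⟩ := exists_pow_lt_of_lt_one (show (0:ℝ) < d / 4 by positivity)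
    (show (1 - q) < 1 by linarith)
  refine ⟨d / 16, ε / (4 * Cg), 8 * ε / d + 4 / d + 2, ⌈((max 64 ℓ1 : ℕ) + 1 : ℝ) / d⌉₊,
    by positivity, by linarith, by positivity, by positivity, ?_⟩
  intro n hn hL hR S hS hOk t1 e1 ht1 he1 hP F hF
  have hn1 : ((max 64 ℓ1 : ℕ) + 1 : ℝ) / d ≤ n := (Nat.le_ceil _).trans (by exact_mod_cast hn)
  have hdn : ((max 64 ℓ1 : ℕ) + 1 : ℝ) ≤ d * n := by
    rw [div_le_iff₀ hdpos] at hn1
    linarith
  have hnR : (0:ℝ) ≤ n := Nat.cast_nonneg n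
  have hdn0 : 0 ≤ d * n := by positivity
  set ℓ := ⌊d * n⌋₊ with hℓ
  have hmaxℓ : max 64 ℓ1 ≤ ℓ := by
    apply Nat.le_floor
    linarith
  have hl : 64 ≤ ℓ := (le_max_left _ _).trans hmaxℓ
  have hl1 : ℓ1 ≤ ℓ := (le_max_right _ _).trans hmaxℓ
  have hℓle : (ℓ:ℝ) ≤ d * n := Nat.floor_le hdn0
  have hℓlt : d * n < ℓ + 1 := Nat.lt_floor_add_one _
  have hlR : (64:ℝ) ≤ ℓ := by exact_mod_cast hl
  have hlpos : 0 < ℓ := by omega
  have h8 : 8 * ℓ ≤ n := by
    have : (8:ℝ) * ℓ ≤ n := by nlinarith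
    exact_mod_cast this
  have hn1' : 1 ≤ n := by omega
  have hn1R : (1:ℝ) ≤ n := by exact_mod_cast hn1'
  have hdiv : 8 ≤ (n + 1) / ℓ := (Nat.le_div_iff_mul_le hlpos).2 (by omega)
  obtain ⟨N, hNdef⟩ : ∃ N, (n + 1) / ℓ = N + 2 := ⟨(n + 1) / ℓ - 2, by omega⟩
  have hN : 2 ≤ N := by omega
  have hN1 : (N + 2) * ℓ ≤ n + 1 := by
    rw [← hNdef]
    exact Nat.div_mul_le_self _ _
  have hN2 : n + 1 < (N + 3) * ℓ := by
    have h3 := Nat.div_add_mod (n + 1) ℓ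
    have h4 := Nat.mod_lt (n + 1) hlpos
    rw [hNdef] at h3
    nlinarith
  have hNd : (N:ℝ) ≤ 2 / d := by
    rw [le_div_iff₀ hdpos]
    have h3 : ((N:ℝ) + 2) * ℓ ≤ n + 1 := by exact_mod_cast hN1
    have h4 : (N:ℝ) * ℓ ≤ n := by nlinarith
    have h5 : d * n / 2 ≤ ℓ := by linarith
    have hN0 : (0:ℝ) ≤ N := Nat.cast_nonneg N
    have h6 : (N:ℝ) * (d * n / 2) ≤ n := (mul_le_mul_of_nonneg_left h5 hN0).trans h4
    have h7 : (N * d) * n ≤ 2 * n := by linarith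
    exact le_of_mul_le_mul_right h7 (by linarith)
  have hq : (N:ℝ) * (1 - q) ^ ℓ ≤ 1 / 2 := by
    have h2 : (1 - q) ^ ℓ ≤ (1 - q) ^ ℓ1 :=
      pow_le_pow_of_le_one (by linarith) (by linarith) hl1
    have h3 : (1 - q) ^ ℓ ≤ d / 4 := h2.trans hℓ1.le
    calc (N:ℝ) * (1 - q) ^ ℓ ≤ (2 / d) * (d / 4) :=
          mul_le_mul hNd h3 (by
            have : (0:ℝ) ≤ 1 - q := by linarith
            positivity) (by positivity)
      _ = 1 / 2 := by field_simp; norm_num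
  set r := ⌊d / 16 * n⌋₊ with hr
  have hr16 : 16 * r ≤ ℓ := by
    have h2 : (r:ℝ) ≤ d / 16 * n := Nat.floor_le (by positivity)
    have h3 : (16:ℝ) * r < ℓ + 1 := by linarith
    have h4 : 16 * r < ℓ + 1 := by exact_mod_cast h3
    omega
  set T := ε * n / 2 with hT
  have hT0 : 0 ≤ T := by positivity
  have hexp : ((n:ℝ) + 1) * L1 * (2 * Cg) ≤ T * (1 + Real.exp (4 * T / (K * ℓ))) := by
    have hlR' : (0:ℝ) < ℓ := by linarith
    have h2 : 4 * L1 * Cg * 2 / ε ≤ 4 * T / (K * ℓ) := by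
      have h3 : 4 * T / (K * ℓ) = 2 * ε * n / (K * ℓ) := by rw [hT]; ring
      rw [h3, div_le_div_iff₀ hε (by positivity)]
      have h4 : d * (4 * L1 * Cg * K) ≤ ε ^ 2 := by
        rwa [le_div_iff₀ (by positivity)] at hd2
      calc 4 * L1 * Cg * 2 * (K * ℓ) = 2 * (4 * L1 * Cg * K) * ℓ := by ring
        _ ≤ 2 * (4 * L1 * Cg * K) * (d * n) := mul_le_mul_of_nonneg_left hℓle (by positivity)
        _ = 2 * (d * (4 * L1 * Cg * K)) * n := by ring
        _ ≤ 2 * ε ^ 2 * n := by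
            apply mul_le_mul_of_nonneg_right _ hnR
            linarith
        _ = 2 * ε * n * ε := by ring
    have h5 := Real.add_one_le_exp (4 * T / (K * ℓ))
    have h6 : 4 * L1 * Cg * 2 / ε ≤ 1 + Real.exp (4 * T / (K * ℓ)) := by linarith
    calc ((n:ℝ) + 1) * L1 * (2 * Cg) ≤ (2 * n) * L1 * (2 * Cg) := by
          apply mul_le_mul_of_nonneg_right _ (by positivity)
          apply mul_le_mul_of_nonneg_right _ hL1.le
          linarith
      _ = T * (4 * L1 * Cg * 2 / ε) := by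
          rw [hT]
          field_simp
          try ring
      _ ≤ _ := mul_le_mul_of_nonneg_left h6 hT0
  have hcore := k8_core h0 h1 Cg hCg hgap K hK hlsi n hL hR ℓ N r hl hN hr16 hN1 hN2 hq T hT0 hexp
    F hF S hS hOk t1 e1 ht1 (by
      intro s hs1 hs2 z hz1 hz2
      apply hP s hs1 (by rw [hT] at hs2; linarith)
      · have h3 : (ℓ:ℝ) ≤ z := by exact_mod_cast hz1
        linarith
      · have h3 : (z:ℝ) ≤ n - ℓ := by exact_mod_cast hz2
        linarith)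
  rw [show t1 + 2 * T = t1 + ε * n by rw [hT]; ring] at hcore
  refine hcore.trans ?_
  have hexpT : Real.exp (-(T / (2 * Cg))) = Real.exp (-(ε / (4 * Cg) * n)) := by
    congr 1
    rw [hT]
    field_simp
    try ring
  rw [hexpT]
  have hE := Real.exp_pos (-(ε / (4 * Cg) * n))
  have hs2 : Real.sqrt 2 ≤ 2 := by
    rw [Real.sqrt_le_left (by norm_num)]
    norm_num
  have hNe : (N:ℝ) * e1 ≤ 2 / d * e1 := mul_le_mul_of_nonneg_right hNd he1
  have hne : 0 ≤ (n:ℝ) * e1 := by positivity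
  have h1e : e1 ≤ n * e1 := by nlinarith
  have t2 : 2 * 2 * T * (2 * N * e1) ≤ 8 * ε / d * (n * e1) := by
    have e2 : 2 * 2 * T * (2 * N * e1) = (4 * ε * n) * (N * e1) := by rw [hT]; ring
    have e3 : 8 * ε / d * (n * e1) = (4 * ε * n) * (2 / d * e1) := by ring
    rw [e2, e3]
    exact mul_le_mul_of_nonneg_left hNe (by positivity)
  have t3 : 2 * N * e1 ≤ 4 / d * (n * e1) := by
    have e3 : 4 / d * (n * e1) = 2 * (2 / d * (n * e1)) := by ring
    rw [e3]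
    have h5 : 2 / d * e1 ≤ 2 / d * (n * e1) := mul_le_mul_of_nonneg_left h1e (by positivity)
    linarith
  have t4 : Real.sqrt 2 * Real.exp (-(ε / (4 * Cg) * n)) ≤ 2 * Real.exp (-(ε / (4 * Cg) * n)) :=
    mul_le_mul_of_nonneg_right hs2 hE.le
  have t5 : 0 ≤ 8 * ε / d * Real.exp (-(ε / (4 * Cg) * n)) := by positivity
  have t6 : 0 ≤ 4 / d * Real.exp (-(ε / (4 * Cg) * n)) := by positivity
  calc 2 * 2 * T * (2 * N * e1) + (2 * N * e1 + Real.sqrt 2 * Real.exp (-(ε / (4 * Cg) * n)))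
      ≤ 8 * ε / d * (n * e1) + (4 / d * (n * e1) + 2 * Real.exp (-(ε / (4 * Cg) * n))) := by
        linarith
    _ ≤ (8 * ε / d + 4 / d + 2) * (n * e1 + Real.exp (-(ε / (4 * Cg) * n))) := by
        nlinarith

end FA
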