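import Pool.Agent.Helper870.FADefs
import Pool.Agent.Helper870.FAG1
import Pool.Agent.Helper870.FAS1
import Pool.Agent.Helper870.FAS2
import Pool.Agent.Helper870.FAS3
import Pool.Agent.Helper870.FAD2
import Pool.Agent.Helper870.FAS10
import Pool.Agent.Helper870.FAD4
import Pool.Agent.Helper870.FAD5
import Pool.Agent.Helper870.FAD9
import Pool.Agent.Helper870.FAD10
import Pool.Agent.Helper870.FAK8
import Pool.Agent.Helper870.FAK10

set_option autoImplicit false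
set_option linter.unusedSectionVars false

open Finset

noncomputable section

-- USES: G1 S1 S2 S3 D2 S10 D4 D5 D9 D10 K8 K10
namespace FA
variable {q : ℝ}


lemma upper_small (C c c' C' ε : ℝ) (hC : 0 < C) (hc : 0 < c) (hc' : 0 < c') (hC' : 0 < C') (hε : 0 < ε) :
    ∃ n1 : ℕ, ∀ n : ℕ, n1 ≤ n → C * (n * (C' * Real.exp (-(c' * n))) + Real.exp (-(c * n))) ≤ ε := by
  obtain ⟨n1, hn1⟩ := exists_nat_gt (C * (2 * C' / c' ^ 2 + 1 / c) / ε)
  have hpos : 0 < C * (2 * C' / c' ^ 2 + 1 / c) / ε := by positivity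
  refine ⟨n1, ?_⟩
  intro n hn
  have hn' : C * (2 * C' / c' ^ 2 + 1 / c) / ε < (n : ℝ) := lt_of_lt_of_le hn1 (by exact_mod_cast hn)
  have hn0 : (0 : ℝ) < n := hpos.trans hn'
  have h1 : Real.exp (-(c' * n)) ≤ 2 / (c' * n) ^ 2 := by
    have h := Real.quadratic_le_exp_of_nonneg (x := c' * n) (by positivity)
    have h2 : (c' * n) ^ 2 / 2 ≤ Real.exp (c' * n) := by
      have : 0 < c' * n := by positivity
      linarith
    rw [Real.exp_neg]
    have h3 : (Real.exp (c' * n))⁻¹ ≤ ((c' * n) ^ 2 / 2)⁻¹ := by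
      apply inv_anti₀ (by positivity) h2
    refine h3.trans (le_of_eq ?_)
    field_simp
  have h2 : Real.exp (-(c * n)) ≤ 1 / (c * n) := by
    have h := Real.add_one_le_exp (c * n)
    rw [Real.exp_neg, ← one_div]
    apply one_div_le_one_div_of_le (by positivity)
    linarith
  have h3 : (n : ℝ) * (C' * Real.exp (-(c' * n))) ≤ (2 * C' / c' ^ 2) / n := by
    calc (n : ℝ) * (C' * Real.exp (-(c' * n))) ≤ n * (C' * (2 / (c' * n) ^ 2)) := by
          apply mul_le_mul_of_nonneg_left _ hn0.le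
          exact mul_le_mul_of_nonneg_left h1 hC'.le
      _ = _ := by field_simp
  have h4 : 1 / (c * n) = (1 / c) / n := by field_simp
  rw [h4] at h2
  calc _ ≤ C * ((2 * C' / c' ^ 2) / n + (1 / c) / n) :=
        mul_le_mul_of_nonneg_left (add_le_add h3 h2) hC.le
    _ = C * (2 * C' / c' ^ 2 + 1 / c) / n := by ring
    _ ≤ ε := by
      rw [div_le_iff₀ hn0]
      rw [div_lt_iff₀ hε] at hn'
      linarith

open Classical in
lemma upper_d (h0 : 0 < q) (h1 : q < 1) (v : ℝ) (hv : 0 < v)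
    (hsp : ∀ a : ℝ, 0 < a → a < v → ∃ θ0 : ℝ, 0 < θ0 ∧ ∀ θ : ℝ, 0 < θ → θ < θ0 →
      ∃ (m : ℕ) (V : FAF.Env → ℝ), FAF.Drift q θ (θ * a) m V)
    (η ε : ℝ) (hη : 0 < η) (hε : 0 < ε) (d : ℝ) (hd : 0 < d) (hd1 : d ≤ 1) :
    ∃ n0 : ℕ, ∀ n : ℕ, n0 ≤ n → ∀ (hL hR : Bool), (if hL = true ∧ hR = true then (1 / 2 : ℝ) else 1) = d →
      ∀ (S : Finset ℤ),
      S ⊆ Icc 0 (n : ℤ) → Okw hL hR S → ∀ F : Finset ℤ → ℝ, (∀ T, |F T| ≤ 1) →
        |(wG q h0 h1 hL hR 0 n).P ((1 + η) * d * n / v) F S -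
          (wm q h0 h1 hL hR 0 n (Int.natCast_nonneg n)).E F| ≤ ε := by
  obtain ⟨δ, c, C, n0, hδ, hδ4, hc, hC, H⟩ := conv_w h0 h1 ((η / 2) * d / v) (by positivity)
  obtain ⟨c', C', n0', hc', hC', H'⟩ := front_up h0 h1 v hv hsp δ (η / 2) ((1 + η) / v + 1) hδ (by positivity)
  obtain ⟨n1, hn1⟩ := upper_small C c c' C' ε hC hc hc' hC' hε
  refine ⟨max n0 (max n0' n1), ?_⟩
  intro n hn hL hR hdd S hS hok F hF
  have hna : n0 ≤ n := (le_max_left _ _).trans hn
  have hnb : n0' ≤ n := (le_max_left _ _).trans ((le_max_right _ _).trans hn)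
  have hnc : n1 ≤ n := (le_max_right _ _).trans ((le_max_right _ _).trans hn)
  have hn0 : (0 : ℝ) ≤ n := Nat.cast_nonneg n
  have hsum : (1 + η / 2) * d * n / v + (η / 2) * d / v * n = (1 + η) * d * n / v := by ring
  have key := H n hna hL hR S hS hok ((1 + η / 2) * d * n / v) (C' * Real.exp (-(c' * n)))
    (by positivity) (by positivity) (by
      intro s hs1 hs2 z hz1 hz2
      apply H' n hnb hL hR S hS hok z hz1 hz2 s
      · rw [hdd]; exact hs1
      · rw [hsum] at hs2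
        refine hs2.trans ?_
        have h3 : (1 + η) * d * n / v ≤ (1 + η) / v * n := by
          have : (1 + η) * d * n / v = ((1 + η) / v * n) * d := by ring
          rw [this]
          have h4 : 0 ≤ (1 + η) / v * n := by positivity
          nlinarith
        have h5 : ((1 + η) / v + 1) * n = (1 + η) / v * n + n := by ring
        rw [h5]; linarith) F hF
  rw [hsum] at key
  exact key.trans (hn1 n hnc)

open Classical in
/-- upper bound on the mixing time -/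
theorem upper (h0 : 0 < q) (h1 : q < 1) (v : ℝ) (hv : 0 < v)
    (hsp : ∀ a : ℝ, 0 < a → a < v → ∃ θ0 : ℝ, 0 < θ0 ∧ ∀ θ : ℝ, 0 < θ → θ < θ0 →
      ∃ (m : ℕ) (V : FAF.Env → ℝ), FAF.Drift q θ (θ * a) m V)
    (η ε : ℝ) (hη : 0 < η) (hε : 0 < ε) :
    ∃ n0 : ℕ, ∀ n : ℕ, n0 ≤ n → ∀ (hL hR : Bool) (S : Finset ℤ),
      S ⊆ Icc 0 (n : ℤ) → Okw hL hR S → ∀ F : Finset ℤ → ℝ, (∀ T, |F T| ≤ 1) →
        |(wG q h0 h1 hL hR 0 n).P ((1 + η) * (if hL = true ∧ hR = true then 1 / 2 else 1) * n / v) F S -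
          (wm q h0 h1 hL hR 0 n (Int.natCast_nonneg n)).E F| ≤ ε := by
  obtain ⟨na, Ha⟩ := upper_d h0 h1 v hv hsp η ε hη hε (1 / 2) (by norm_num) (by norm_num)
  obtain ⟨nb, Hb⟩ := upper_d h0 h1 v hv hsp η ε hη hε 1 (by norm_num) (by norm_num)
  refine ⟨max na nb, ?_⟩
  intro n hn hL hR S hS hok F hF
  by_cases hh : hL = true ∧ hR = true
  · rw [if_pos hh]
    exact Ha n ((le_max_left _ _).trans hn) hL hR (if_pos hh) S hS hok F hF
  · rw [if_neg hh]
    exact Hb n ((le_max_right _ _).trans hn) hL hR (if_neg hh) S hS hok F hF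


end FA
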