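import Pool.Agent.Helper870.FADefs
import Pool.Agent.Helper870.FAG1
import Pool.Agent.Helper870.FAD2
import Pool.Agent.Helper870.FAS10
import Pool.Agent.Helper870.FAD4
import Pool.Agent.Helper870.FAD5
import Pool.Agent.Helper870.FAD9
import Pool.Agent.Helper870.FAD10
import Pool.Agent.Helper870.FAK9a

set_option autoImplicit false
set_option linter.unusedSectionVars false

open Finset

noncomputable section

-- USES: G1 D2 S10 D4 D5 D9 D10 K9a
namespace FA
variable {q : ℝ}

theorem K12_max (S : Finset ℤ) (z : ℤ) : (∀ y ∈ S, z < y) ∨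
    ∃ X ∈ S, X ≤ z ∧ ∀ u, u ≤ z → X < u → u ∉ S := by
  by_cases he : (S.filter (fun y => y ≤ z)).Nonempty
  · right
    have hXm := Finset.max'_mem _ he
    rw [Finset.mem_filter] at hXm
    refine ⟨_, hXm.1, hXm.2, ?_⟩
    intro u hu hXu huS
    exact absurd (Finset.le_max' _ u (Finset.mem_filter.2 ⟨huS, hu⟩)) (not_le.2 hXu)
  · left
    intro y hy
    by_contra hc
    exact he ⟨y, Finset.mem_filter.2 ⟨hy, not_lt.1 hc⟩⟩

theorem K12_min (S : Finset ℤ) (z : ℤ) : (∀ y ∈ S, y < z) ∨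
    ∃ X ∈ S, z ≤ X ∧ ∀ u, z ≤ u → u < X → u ∉ S := by
  by_cases he : (S.filter (fun y => z ≤ y)).Nonempty
  · right
    have hXm := Finset.min'_mem _ he
    rw [Finset.mem_filter] at hXm
    refine ⟨_, hXm.1, hXm.2, ?_⟩
    intro u hu hXu huS
    exact absurd (Finset.min'_le _ u (Finset.mem_filter.2 ⟨huS, hu⟩)) (not_le.2 hXu)
  · left
    intro y hy
    by_contra hc
    exact he ⟨y, Finset.mem_filter.2 ⟨hy, not_lt.1 hc⟩⟩

theorem K12_UL_congr (th Λ : ℝ) (V : FAF.Env → ℝ) (z : ℤ) (S S' : Finset ℤ)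
    (h : ∀ y, y ≤ z → (y ∈ S ↔ y ∈ S')) : UL th Λ V z S = UL th Λ V z S' := by
  rcases K12_max S z with hn | ⟨X, hX, hXh, hmax⟩
  · rw [UL_none _ _ _ _ _ hn, UL_none]
    intro y hy
    by_contra hc
    have hc' := not_lt.1 hc
    exact hc (hn y ((h y hc').2 hy))
  · rw [UL_eq _ _ _ _ X _ hXh hX hmax, UL_eq _ _ _ _ X S' hXh ((h X hXh).1 hX)
      (fun u hu hXu huS => hmax u hu hXu ((h u hu).2 huS))]
    congr 2
    funext k
    unfold envL
    rw [decide_eq_decide]
    exact h _ (by omega)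

theorem K12_UR_congr (th Λ : ℝ) (V : FAF.Env → ℝ) (z : ℤ) (S S' : Finset ℤ)
    (h : ∀ y, z ≤ y → (y ∈ S ↔ y ∈ S')) : UR th Λ V z S = UR th Λ V z S' := by
  rcases K12_min S z with hn | ⟨X, hX, hXh, hmax⟩
  · rw [UR_none _ _ _ _ _ hn, UR_none]
    intro y hy
    by_contra hc
    have hc' := not_lt.1 hc
    exact hc (hn y ((h y hc').2 hy))
  · rw [UR_eq _ _ _ _ X _ hXh hX hmax, UR_eq _ _ _ _ X S' hXh ((h X hXh).1 hX)
      (fun u hu hXu huS => hmax u hu hXu ((h u hu).2 huS))]
    congr 2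
    funext k
    unfold envR
    rw [decide_eq_decide]
    exact h _ (by omega)

theorem K12_UL_bound (θ : ℝ) (hθ : 0 < θ) (V : FAF.Env → ℝ) (hV2 : ∀ z, V z ≤ 2) (h M : ℤ)
    (hM : 0 ≤ M) (T : Finset ℤ) (hT : ∀ y ∈ T, y ≤ h → y ≤ M) :
    UL (-θ) (Real.exp (-(θ * h))) V h T ≤ 2 * Real.exp (θ * M) * Real.exp (-(θ * h)) := by
  have hM' : (0:ℝ) ≤ M := by exact_mod_cast hM
  rcases K12_max T h with hn | ⟨X, hX, hXh, hmax⟩
  · rw [UL_none _ _ _ _ _ hn]
    have h1 : 1 ≤ Real.exp (θ * M) := Real.one_le_exp (by positivity)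
    have h2 := Real.exp_pos (-(θ * h))
    nlinarith
  · rw [UL_eq _ _ _ _ X _ hXh hX hmax]
    have hXM := hT X hX hXh
    have e : Real.exp (-θ * ((h - X : ℤ) : ℝ)) ≤ Real.exp (θ * M) * Real.exp (-(θ * h)) := by
      rw [← Real.exp_add]
      apply Real.exp_le_exp.2
      push_cast
      have h5 : (X:ℝ) ≤ M := by exact_mod_cast hXM
      nlinarith
    have h3 := Real.exp_pos (-θ * ((h - X : ℤ) : ℝ))
    have h4 := hV2 (envL X T)
    calc _ ≤ Real.exp (-θ * ((h - X : ℤ) : ℝ)) * 2 := mul_le_mul_of_nonneg_left h4 h3.le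
      _ ≤ _ := by linarith

theorem K12_UR_bound (θ : ℝ) (hθ : 0 < θ) (V : FAF.Env → ℝ) (hV2 : ∀ z, V z ≤ 2) (n : ℕ) (h M : ℤ)
    (hM : 0 ≤ M) (T : Finset ℤ) (hT : ∀ y ∈ T, h ≤ y → (n : ℤ) - M ≤ y) :
    UR (-θ) (Real.exp (-(θ * (n - h)))) V h T ≤
      2 * Real.exp (θ * M) * Real.exp (-(θ * (n - h))) := by
  have hM' : (0:ℝ) ≤ M := by exact_mod_cast hM
  rcases K12_min T h with hn | ⟨X, hX, hXh, hmax⟩
  · rw [UR_none _ _ _ _ _ hn]
    have h1 : 1 ≤ Real.exp (θ * M) := Real.one_le_exp (by positivity)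
    have h2 := Real.exp_pos (-(θ * (n - h)))
    nlinarith
  · rw [UR_eq _ _ _ _ X _ hXh hX hmax]
    have hXM := hT X hX hXh
    have e : Real.exp (-θ * ((X - h : ℤ) : ℝ)) ≤
        Real.exp (θ * M) * Real.exp (-(θ * (n - h))) := by
      rw [← Real.exp_add]
      apply Real.exp_le_exp.2
      push_cast
      have h5 : (n:ℝ) - M ≤ X := by exact_mod_cast hXM
      nlinarith
    have h3 := Real.exp_pos (-θ * ((X - h : ℤ) : ℝ))
    have h4 := hV2 (envR X T)
    calc _ ≤ Real.exp (-θ * ((X - h : ℤ) : ℝ)) * 2 := mul_le_mul_of_nonneg_left h4 h3.le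
      _ ≤ _ := by linarith

theorem K12_UL_nonneg (th Λ : ℝ) (hΛ : 0 ≤ Λ) (V : FAF.Env → ℝ) (hV : ∀ z, 1 / 2 ≤ V z) (z : ℤ)
    (S : Finset ℤ) : 0 ≤ UL th Λ V z S := by
  rcases K12_max S z with hn | ⟨X, hX, hXh, hmax⟩
  · rw [UL_none _ _ _ _ _ hn]; exact hΛ
  · rw [UL_eq _ _ _ _ X _ hXh hX hmax]
    exact mul_nonneg (Real.exp_pos _).le (by linarith [hV (envL X S)])

theorem K12_UR_nonneg (th Λ : ℝ) (hΛ : 0 ≤ Λ) (V : FAF.Env → ℝ) (hV : ∀ z, 1 / 2 ≤ V z) (z : ℤ)
    (S : Finset ℤ) : 0 ≤ UR th Λ V z S := by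
  rcases K12_min S z with hn | ⟨X, hX, hXh, hmax⟩
  · rw [UR_none _ _ _ _ _ hn]; exact hΛ
  · rw [UR_eq _ _ _ _ X _ hXh hX hmax]
    exact mul_nonneg (Real.exp_pos _).le (by linarith [hV (envR X S)])

theorem K12_kv (hL hR : Bool) (n : ℕ) (T : Finset ℤ) (hT : T ⊆ Icc 0 (n:ℤ)) (u : ℤ)
    (h0 : ¬ (u = 0 ∧ hL = true)) (hn : ¬ (u = n ∧ hR = true)) :
    kv (kw hL hR 0 n) u T = if u - 1 ∈ T ∨ u + 1 ∈ T then 1 else 0 := by
  unfold kv kw
  by_cases hc : u - 1 ∈ T ∨ u + 1 ∈ T
  · rw [if_pos hc, if_pos]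
    rw [decide_eq_true_eq]
    rcases hc with h | h
    · exact Or.inl ⟨hT h, h⟩
    · exact Or.inr (Or.inl ⟨hT h, h⟩)
  · rw [if_neg hc, if_neg]
    rw [decide_eq_true_eq]
    rintro (h | h | h | h)
    · exact hc (Or.inl h.2)
    · exact hc (Or.inr h.2)
    · exact h0 h
    · exact hn h

theorem K12_term (h0 : 0 < q) (h1 : q < 1) (k x y z D : ℝ) (hk0 : 0 ≤ k) (hk1 : k ≤ 1)
    (hx : x ≤ D) (hy : y ≤ D) (hz : 0 ≤ z) (hD : 0 ≤ D) :
    k * (q * x + (1 - q) * y - z) ≤ D := by
  have h2 : q * x + (1 - q) * y - z ≤ D := by nlinarith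
  calc k * (q * x + (1 - q) * y - z) ≤ k * D := mul_le_mul_of_nonneg_left h2 hk0
    _ ≤ D := by nlinarith

/-- growth bound for the left front, seen from `h` -/
theorem low_genL (h0 : 0 < q) (h1 : q < 1) (θ a : ℝ) (hθ : 0 < θ) (hθ1 : θ ≤ 1) (ha : 0 < a) (m : ℕ) (V : FAF.Env → ℝ)
    (hD : FAF.Drift q (-θ) (-(θ * a)) m V) : ∃ C0 : ℝ, 0 ≤ C0 ∧ ∀ (hL hR : Bool) (n : ℕ) (h : ℤ),
      0 ≤ h → h ≤ n → (h < n ∨ hR = false) → ∀ T : Finset ℤ, T ⊆ Icc 0 (n : ℤ) →
      T ∩ Icc (h - 2) (h + 1) = ∅ →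
      (wG q h0 h1 hL hR 0 n).L (UL (-θ) (Real.exp (-(θ * h))) V h) T ≤
        θ * a * UL (-θ) (Real.exp (-(θ * h))) V h T + C0 * Real.exp (-(θ * h)) := by
  have hV1 := hD.2.1
  have hV2 := hD.2.2.1
  refine ⟨(m + 2) * (2 * Real.exp (m + 1)), by positivity, ?_⟩
  intro hL hR n h hh0 hhn hw T hT hTI
  unfold wG
  rw [kG_L]
  have hnot : ∀ u, h - 2 ≤ u → u ≤ h + 1 → u ∉ T := by
    intro u h1 h2 h3
    have : u ∈ T ∩ Icc (h - 2) (h + 1) := by
      rw [Finset.mem_inter, Finset.mem_Icc]; exact ⟨h3, h1, h2⟩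
    rw [hTI] at this
    exact absurd this (Finset.notMem_empty u)
  have hU0 : ∀ S, 0 ≤ UL (-θ) (Real.exp (-(θ * h))) V h S :=
    fun S => K12_UL_nonneg _ _ (Real.exp_pos _).le V hV1 h S
  have hkn : ∀ u : ℤ, u ≤ h → ¬ (u = n ∧ hR = true) := by
    rintro u hu ⟨h2, h3⟩
    rcases hw with h4 | h4
    · omega
    · rw [h4] at h3; exact absurd h3 (by decide)
  by_cases hP : ∀ y ∈ T, y ≤ h → y ≤ m
  · set D := 2 * Real.exp (m + 1) * Real.exp (-(θ * h)) with hDdef
    have hD0 : 0 ≤ D := by positivity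
    have hb : ∀ S : Finset ℤ, (∀ y ∈ S, y ≤ h → y ≤ m + 1) →
        UL (-θ) (Real.exp (-(θ * h))) V h S ≤ D := by
      intro S hS
      have h2 := K12_UL_bound θ hθ V hV2 h (m + 1) (by positivity) S hS
      refine h2.trans ?_
      rw [hDdef]
      have h3 : Real.exp (θ * ((m + 1 : ℤ) : ℝ)) ≤ Real.exp (m + 1) := by
        apply Real.exp_le_exp.2
        push_cast
        have : (0:ℝ) ≤ (m : ℝ) + 1 := by positivity
        nlinarith
      have h4 := Real.exp_pos (-(θ * h))
      nlinarith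
    have hterm : ∀ u ∈ Icc (0:ℤ) n, kv (kw hL hR 0 n) u T *
        (q * UL (-θ) (Real.exp (-(θ * h))) V h (insert u T) +
          (1 - q) * UL (-θ) (Real.exp (-(θ * h))) V h (T.erase u) -
          UL (-θ) (Real.exp (-(θ * h))) V h T) ≤ if u ≤ m + 1 then D else 0 := by
      intro u hu
      rw [Finset.mem_Icc] at hu
      by_cases huh : h < u
      · rw [K12_UL_congr (-θ) _ V h (insert u T) T (by
            intro y hy
            rw [Finset.mem_insert]
            exact ⟨fun h5 => h5.resolve_left (by omega), Or.inr⟩),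
          K12_UL_congr (-θ) _ V h (T.erase u) T (by
            intro y hy
            rw [Finset.mem_erase]
            exact ⟨fun h5 => h5.2, fun h5 => ⟨by omega, h5⟩⟩)]
        have h6 : kv (kw hL hR 0 n) u T *
          (q * UL (-θ) (Real.exp (-(θ * h))) V h T +
            (1 - q) * UL (-θ) (Real.exp (-(θ * h))) V h T -
            UL (-θ) (Real.exp (-(θ * h))) V h T) = 0 := by ring
        rw [h6]
        split_ifs
        · exact hD0
        · exact le_refl _
      · have huh' : u ≤ h := not_lt.1 huh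
        by_cases hum : u ≤ m + 1
        · rw [if_pos hum]
          apply K12_term h0 h1 _ _ _ _ _ (kv_nonneg _ _ _) (kv_le _ _ _) _ _ (hU0 T) hD0
          · apply hb
            intro y hy hyh
            rw [Finset.mem_insert] at hy
            rcases hy with rfl | hy
            · exact hum
            · have := hP y hy hyh
              omega
          · apply hb
            intro y hy hyh
            have := hP y (Finset.mem_erase.1 hy).2 hyh
            omega
        · rw [if_neg hum]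
          have hkv : kv (kw hL hR 0 n) u T = 0 := by
            rw [K12_kv hL hR n T hT u (by omega) (hkn u huh'), if_neg]
            rintro (h7 | h7)
            · have := hP _ h7 (by omega)
              omega
            · by_cases h8 : u + 1 ≤ h
              · have := hP _ h7 h8
                omega
              · exact hnot (u + 1) (by omega) (by omega) h7
          rw [hkv, zero_mul]
    have hcard : (((Icc (0:ℤ) n).filter (fun u => u ≤ (m:ℤ) + 1)).card : ℝ) ≤ m + 2 := by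
      have hsub : (Icc (0:ℤ) n).filter (fun u => u ≤ (m:ℤ) + 1) ⊆ Icc 0 ((m:ℤ) + 1) := by
        intro u hu
        rw [Finset.mem_filter, Finset.mem_Icc] at hu
        rw [Finset.mem_Icc]
        exact ⟨hu.1.1, hu.2⟩
      have h9 := Finset.card_le_card hsub
      rw [Int.card_Icc] at h9
      have h10 : ((m:ℤ) + 1 + 1 - 0).toNat = m + 2 := by omega
      rw [h10] at h9
      exact_mod_cast h9
    unfold genK
    calc _ ≤ ∑ u ∈ Icc (0:ℤ) n, (if u ≤ (m:ℤ) + 1 then D else 0) := Finset.sum_le_sum hterm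
      _ = (((Icc (0:ℤ) n).filter (fun u => u ≤ (m:ℤ) + 1)).card : ℝ) * D := by
        rw [← Finset.sum_filter, Finset.sum_const, nsmul_eq_mul]
      _ ≤ (m + 2) * D := mul_le_mul_of_nonneg_right hcard hD0
      _ ≤ _ := by
        have h11 : 0 ≤ θ * a * UL (-θ) (Real.exp (-(θ * h))) V h T :=
          mul_nonneg (by positivity) (hU0 T)
        rw [hDdef]
        have h12 : ((m:ℝ) + 2) * (2 * Real.exp (m + 1) * Real.exp (-(θ * h))) =
          (m + 2) * (2 * Real.exp (m + 1)) * Real.exp (-(θ * h)) := by ring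
        linarith
  · push Not at hP
    obtain ⟨y, hyT, hyh, hym⟩ := hP
    rcases K12_max T h with hn | ⟨X, hX, hXh, hmax⟩
    · exact absurd (hn y hyT) (by omega)
    · have hXy : y ≤ X := by
        by_contra hc
        exact hmax y hyh (by omega) hyT
      have hXh' : X < h := by
        by_contra hc
        exact hnot X (by omega) (by omega) hX
      have hcore := coreL h0 h1 (-θ) (-(θ * a)) (Real.exp (-(θ * h))) m V hD (Icc (0:ℤ) n)
        (kw hL hR 0 n) T h X hXh' hX hmax (by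
          intro u hu1 hu2
          rw [Finset.mem_Icc]
          omega) (by
          intro u hu1 hu2
          exact K12_kv hL hR n T hT u (by omega) (hkn u hu1))
      rw [if_neg (fun h5 => hnot (h + 1) (by omega) (by omega) h5.1)] at hcore
      have h6 : 0 ≤ ((m:ℝ) + 2) * (2 * Real.exp (m + 1)) * Real.exp (-(θ * h)) := by positivity
      linarith

/-- growth bound for the right front, seen from `h` -/
theorem low_genR (h0 : 0 < q) (h1 : q < 1) (θ a : ℝ) (hθ : 0 < θ) (hθ1 : θ ≤ 1) (ha : 0 < a) (m : ℕ) (V : FAF.Env → ℝ)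
    (hD : FAF.Drift q (-θ) (-(θ * a)) m V) : ∃ C0 : ℝ, 0 ≤ C0 ∧ ∀ (hL hR : Bool) (n : ℕ) (h : ℤ),
      0 ≤ h → h ≤ n → (0 < h ∨ hL = false) → ∀ T : Finset ℤ, T ⊆ Icc 0 (n : ℤ) →
      T ∩ Icc (h - 1) (h + 2) = ∅ →
      (wG q h0 h1 hL hR 0 n).L (UR (-θ) (Real.exp (-(θ * (n - h)))) V h) T ≤
        θ * a * UR (-θ) (Real.exp (-(θ * (n - h)))) V h T + C0 * Real.exp (-(θ * (n - h))) := by
  have hV1 := hD.2.1
  have hV2 := hD.2.2.1
  refine ⟨(m + 2) * (2 * Real.exp (m + 1)), by positivity, ?_⟩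
  intro hL hR n h hh0 hhn hw T hT hTI
  unfold wG
  rw [kG_L]
  have hnot : ∀ u, h - 1 ≤ u → u ≤ h + 2 → u ∉ T := by
    intro u h1 h2 h3
    have : u ∈ T ∩ Icc (h - 1) (h + 2) := by
      rw [Finset.mem_inter, Finset.mem_Icc]; exact ⟨h3, h1, h2⟩
    rw [hTI] at this
    exact absurd this (Finset.notMem_empty u)
  have hU0 : ∀ S, 0 ≤ UR (-θ) (Real.exp (-(θ * (n - h)))) V h S :=
    fun S => K12_UR_nonneg _ _ (Real.exp_pos _).le V hV1 h S
  have hkn : ∀ u : ℤ, h ≤ u → ¬ (u = 0 ∧ hL = true) := by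
    rintro u hu ⟨h2, h3⟩
    rcases hw with h4 | h4
    · omega
    · rw [h4] at h3; exact absurd h3 (by decide)
  by_cases hP : ∀ y ∈ T, h ≤ y → (n:ℤ) - m ≤ y
  · set D := 2 * Real.exp (m + 1) * Real.exp (-(θ * (n - h))) with hDdef
    have hD0 : 0 ≤ D := by positivity
    have hb : ∀ S : Finset ℤ, (∀ y ∈ S, h ≤ y → (n:ℤ) - (m + 1) ≤ y) →
        UR (-θ) (Real.exp (-(θ * (n - h)))) V h S ≤ D := by
      intro S hS
      have h2 := K12_UR_bound θ hθ V hV2 n h (m + 1) (by positivity) S hS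
      refine h2.trans ?_
      rw [hDdef]
      have h3 : Real.exp (θ * ((m + 1 : ℤ) : ℝ)) ≤ Real.exp (m + 1) := by
        apply Real.exp_le_exp.2
        push_cast
        have : (0:ℝ) ≤ (m : ℝ) + 1 := by positivity
        nlinarith
      have h4 := Real.exp_pos (-(θ * (n - h)))
      nlinarith
    have hterm : ∀ u ∈ Icc (0:ℤ) n, kv (kw hL hR 0 n) u T *
        (q * UR (-θ) (Real.exp (-(θ * (n - h)))) V h (insert u T) +
          (1 - q) * UR (-θ) (Real.exp (-(θ * (n - h)))) V h (T.erase u) -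
          UR (-θ) (Real.exp (-(θ * (n - h)))) V h T) ≤
          if (n:ℤ) - (m + 1) ≤ u then D else 0 := by
      intro u hu
      rw [Finset.mem_Icc] at hu
      by_cases huh : u < h
      · rw [K12_UR_congr (-θ) _ V h (insert u T) T (by
            intro y hy
            rw [Finset.mem_insert]
            exact ⟨fun h5 => h5.resolve_left (by omega), Or.inr⟩),
          K12_UR_congr (-θ) _ V h (T.erase u) T (by
            intro y hy
            rw [Finset.mem_erase]
            exact ⟨fun h5 => h5.2, fun h5 => ⟨by omega, h5⟩⟩)]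
        have h6 : kv (kw hL hR 0 n) u T *
          (q * UR (-θ) (Real.exp (-(θ * (n - h)))) V h T +
            (1 - q) * UR (-θ) (Real.exp (-(θ * (n - h)))) V h T -
            UR (-θ) (Real.exp (-(θ * (n - h)))) V h T) = 0 := by ring
        rw [h6]
        split_ifs
        · exact hD0
        · exact le_refl _
      · have huh' : h ≤ u := not_lt.1 huh
        by_cases hum : (n:ℤ) - (m + 1) ≤ u
        · rw [if_pos hum]
          apply K12_term h0 h1 _ _ _ _ _ (kv_nonneg _ _ _) (kv_le _ _ _) _ _ (hU0 T) hD0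
          · apply hb
            intro y hy hyh
            rw [Finset.mem_insert] at hy
            rcases hy with rfl | hy
            · exact hum
            · have := hP y hy hyh
              omega
          · apply hb
            intro y hy hyh
            have := hP y (Finset.mem_erase.1 hy).2 hyh
            omega
        · rw [if_neg hum]
          have hkv : kv (kw hL hR 0 n) u T = 0 := by
            rw [K12_kv hL hR n T hT u (hkn u huh') (by omega), if_neg]
            rintro (h7 | h7)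
            · by_cases h8 : h ≤ u - 1
              · have := hP _ h7 h8
                omega
              · exact hnot (u - 1) (by omega) (by omega) h7
            · have := hP _ h7 (by omega)
              omega
          rw [hkv, zero_mul]
    have hcard : (((Icc (0:ℤ) n).filter (fun u => (n:ℤ) - (m + 1) ≤ u)).card : ℝ) ≤ m + 2 := by
      have hsub : (Icc (0:ℤ) n).filter (fun u => (n:ℤ) - (m + 1) ≤ u) ⊆
          Icc ((n:ℤ) - (m + 1)) n := by
        intro u hu
        rw [Finset.mem_filter, Finset.mem_Icc] at hu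
        rw [Finset.mem_Icc]
        exact ⟨hu.2, hu.1.2⟩
      have h9 := Finset.card_le_card hsub
      rw [Int.card_Icc] at h9
      have h10 : ((n:ℤ) + 1 - ((n:ℤ) - (m + 1))).toNat = m + 2 := by omega
      rw [h10] at h9
      exact_mod_cast h9
    unfold genK
    calc _ ≤ ∑ u ∈ Icc (0:ℤ) n, (if (n:ℤ) - (m + 1) ≤ u then D else 0) :=
          Finset.sum_le_sum hterm
      _ = (((Icc (0:ℤ) n).filter (fun u => (n:ℤ) - (m + 1) ≤ u)).card : ℝ) * D := by
        rw [← Finset.sum_filter, Finset.sum_const, nsmul_eq_mul]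
      _ ≤ (m + 2) * D := mul_le_mul_of_nonneg_right hcard hD0
      _ ≤ _ := by
        have h11 : 0 ≤ θ * a * UR (-θ) (Real.exp (-(θ * (n - h)))) V h T :=
          mul_nonneg (by positivity) (hU0 T)
        rw [hDdef]
        have h12 : ((m:ℝ) + 2) * (2 * Real.exp (m + 1) * Real.exp (-(θ * (n - h)))) =
          (m + 2) * (2 * Real.exp (m + 1)) * Real.exp (-(θ * (n - h))) := by ring
        linarith
  · push Not at hP
    obtain ⟨y, hyT, hyh, hym⟩ := hP
    rcases K12_min T h with hn | ⟨X, hX, hXh, hmax⟩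
    · exact absurd (hn y hyT) (by omega)
    · have hXy : X ≤ y := by
        by_contra hc
        exact hmax y hyh (by omega) hyT
      have hXh' : h < X := by
        by_contra hc
        exact hnot X (by omega) (by omega) hX
      have hcore := coreR h0 h1 (-θ) (-(θ * a)) (Real.exp (-(θ * (n - h)))) m V hD (Icc (0:ℤ) n)
        (kw hL hR 0 n) T h X hXh' hX hmax (by
          intro u hu1 hu2
          rw [Finset.mem_Icc]
          omega) (by
          intro u hu1 hu2
          exact K12_kv hL hR n T hT u (hkn u hu1) (by omega))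
      rw [if_neg (fun h5 => hnot (h - 1) (by omega) (by omega) h5.1)] at hcore
      have h6 : 0 ≤ ((m:ℝ) + 2) * (2 * Real.exp (m + 1)) * Real.exp (-(θ * (n - h))) := by
        positivity
      linarith

end FA
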