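import Pool.Agent.Helper870.FADefs
import Pool.Agent.Helper870.FAG1
import Pool.Agent.Helper870.FAS1
import Pool.Agent.Helper870.FAS2
import Pool.Agent.Helper870.FAS3
import Pool.Agent.Helper870.FAD2
import Pool.Agent.Helper870.FAS10
import Pool.Agent.Helper870.FAD4
import Pool.Agent.Helper870.FAD5
import Pool.Agent.Helper870.FAD9
import Pool.Agent.Helper870.FAK1r
import Pool.Agent.Helper870.FAK7
import Pool.Agent.Helper870.FAD10
import Pool.Agent.Helper870.FAK9a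
import Pool.Agent.Helper870.FAK12a

set_option autoImplicit false
set_option linter.unusedSectionVars false

open Finset

noncomputable section

-- USES: G1 S1 S2 S3 D2 S10 D4 D5 D9 K1r K7 D10 K9a K12a
namespace FA
variable {q : ℝ}

theorem lo_first (T : Finset ℤ) (h x : ℤ) (hx : x ∈ T) (hxh : x ≤ h) :
    ∃ y ∈ T, x ≤ y ∧ y ≤ h ∧ ∀ u, u ≤ h → y < u → u ∉ T := by
  have hne : (T.filter (fun y => y ≤ h)).Nonempty := ⟨x, Finset.mem_filter.2 ⟨hx, hxh⟩⟩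
  refine ⟨(T.filter (fun y => y ≤ h)).max' hne, ?_, ?_, ?_, ?_⟩
  · exact (Finset.mem_filter.1 (Finset.max'_mem _ hne)).1
  · exact Finset.le_max' _ _ (Finset.mem_filter.2 ⟨hx, hxh⟩)
  · exact (Finset.mem_filter.1 (Finset.max'_mem _ hne)).2
  · intro u hu hyu huT
    exact absurd (Finset.le_max' _ _ (Finset.mem_filter.2 ⟨huT, hu⟩)) (not_le.2 hyu)

theorem lo_first' (T : Finset ℤ) (h x : ℤ) (hx : x ∈ T) (hxh : h ≤ x) :
    ∃ y ∈ T, y ≤ x ∧ h ≤ y ∧ ∀ u, h ≤ u → u < y → u ∉ T := by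
  have hne : (T.filter (fun y => h ≤ y)).Nonempty := ⟨x, Finset.mem_filter.2 ⟨hx, hxh⟩⟩
  refine ⟨(T.filter (fun y => h ≤ y)).min' hne, ?_, ?_, ?_, ?_⟩
  · exact (Finset.mem_filter.1 (Finset.min'_mem _ hne)).1
  · exact Finset.min'_le _ _ (Finset.mem_filter.2 ⟨hx, hxh⟩)
  · exact (Finset.mem_filter.1 (Finset.min'_mem _ hne)).2
  · intro u hu hyu huT
    exact absurd (Finset.min'_le _ _ (Finset.mem_filter.2 ⟨huT, hu⟩)) (not_le.2 hyu)

theorem lo_UL_ge (θ Λ : ℝ) (hθ : 0 ≤ θ) (V : FAF.Env → ℝ) (hV : ∀ z, 1 / 2 ≤ V z) (h x : ℤ)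
    (T : Finset ℤ) (hx : x ∈ T) (hxh : x ≤ h) :
    1 / 2 * Real.exp (-(θ * ((h : ℝ) - x))) ≤ UL (-θ) Λ V h T := by
  obtain ⟨y, hy, hxy, hyh, hf⟩ := lo_first T h x hx hxh
  rw [UL_eq (-θ) Λ V h y T hyh hy hf]
  have h1 : Real.exp (-(θ * ((h : ℝ) - x))) ≤ Real.exp (-θ * ((h - y : ℤ) : ℝ)) := by
    apply Real.exp_le_exp.2
    push_cast
    have : (x : ℝ) ≤ y := by exact_mod_cast hxy
    nlinarith
  have h2 := hV (envL y T)
  have h3 := Real.exp_pos (-(θ * ((h : ℝ) - x)))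
  have h4 := Real.exp_pos (-θ * ((h - y : ℤ) : ℝ))
  nlinarith

theorem lo_UR_ge (θ Λ : ℝ) (hθ : 0 ≤ θ) (V : FAF.Env → ℝ) (hV : ∀ z, 1 / 2 ≤ V z) (h x : ℤ)
    (T : Finset ℤ) (hx : x ∈ T) (hxh : h ≤ x) :
    1 / 2 * Real.exp (-(θ * ((x : ℝ) - h))) ≤ UR (-θ) Λ V h T := by
  obtain ⟨y, hy, hxy, hyh, hf⟩ := lo_first' T h x hx hxh
  rw [UR_eq (-θ) Λ V h y T hyh hy hf]
  have h1 : Real.exp (-(θ * ((x : ℝ) - h))) ≤ Real.exp (-θ * ((y - h : ℤ) : ℝ)) := by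
    apply Real.exp_le_exp.2
    push_cast
    have : (y : ℝ) ≤ x := by exact_mod_cast hxy
    nlinarith
  have h2 := hV (envR y T)
  have h3 := Real.exp_pos (-(θ * ((x : ℝ) - h)))
  have h4 := Real.exp_pos (-θ * ((y - h : ℤ) : ℝ))
  nlinarith

theorem lo_UL_bd (θ Λ : ℝ) (hθ : 0 ≤ θ) (hΛ : 0 ≤ Λ) (V : FAF.Env → ℝ) (hV : ∀ z, 1 / 2 ≤ V z)
    (hV2 : ∀ z, V z ≤ 2) (h : ℤ) (T : Finset ℤ) :
    0 ≤ UL (-θ) Λ V h T ∧ UL (-θ) Λ V h T ≤ max Λ 2 := by
  by_cases hex : ∃ x ∈ T, x ≤ h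
  · obtain ⟨x, hx, hxh⟩ := hex
    obtain ⟨y, hy, hxy, hyh, hf⟩ := lo_first T h x hx hxh
    rw [UL_eq (-θ) Λ V h y T hyh hy hf]
    have h1 : Real.exp (-θ * ((h - y : ℤ) : ℝ)) ≤ 1 := by
      apply Real.exp_le_one_iff.2
      have : (0 : ℝ) ≤ ((h - y : ℤ) : ℝ) := by exact_mod_cast sub_nonneg.2 hyh
      nlinarith
    have h2 := hV (envL y T)
    have h3 := hV2 (envL y T)
    have h4 := Real.exp_pos (-θ * ((h - y : ℤ) : ℝ))
    constructor
    · positivity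
    · refine le_trans ?_ (le_max_right _ _)
      nlinarith
  · push Not at hex
    rw [UL_none (-θ) Λ V h T hex]
    exact ⟨hΛ, le_max_left _ _⟩

theorem lo_UR_bd (θ Λ : ℝ) (hθ : 0 ≤ θ) (hΛ : 0 ≤ Λ) (V : FAF.Env → ℝ) (hV : ∀ z, 1 / 2 ≤ V z)
    (hV2 : ∀ z, V z ≤ 2) (h : ℤ) (T : Finset ℤ) :
    0 ≤ UR (-θ) Λ V h T ∧ UR (-θ) Λ V h T ≤ max Λ 2 := by
  by_cases hex : ∃ x ∈ T, h ≤ x
  · obtain ⟨x, hx, hxh⟩ := hex
    obtain ⟨y, hy, hxy, hyh, hf⟩ := lo_first' T h x hx hxh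
    rw [UR_eq (-θ) Λ V h y T hyh hy hf]
    have h1 : Real.exp (-θ * ((y - h : ℤ) : ℝ)) ≤ 1 := by
      apply Real.exp_le_one_iff.2
      have : (0 : ℝ) ≤ ((y - h : ℤ) : ℝ) := by exact_mod_cast sub_nonneg.2 hyh
      nlinarith
    have h2 := hV (envR y T)
    have h3 := hV2 (envR y T)
    have h4 := Real.exp_pos (-θ * ((y - h : ℤ) : ℝ))
    constructor
    · positivity
    · refine le_trans ?_ (le_max_right _ _)
      nlinarith
  · push Not at hex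
    rw [UR_none (-θ) Λ V h T hex]
    exact ⟨hΛ, le_max_left _ _⟩

theorem lo_step (h0 : 0 < q) (h1 : q < 1) (hL hR : Bool) (n : ℕ) (l κ c δ : ℝ)
    (U : Finset ℤ → ℝ) (hUb : Bd U) (hU0 : ∀ T, 0 ≤ U T) (hl : 0 ≤ l) (hc : 0 ≤ c) (hδ : 0 < δ)
    (hδκ : δ ≤ κ)
    (hgen : ∀ T : Finset ℤ, T ⊆ Icc 0 (n : ℤ) → U T < κ →
      (wG q h0 h1 hL hR 0 n).L U T ≤ l * U T + c)
    (D : Finset ℤ) (hD : ∀ T : Finset ℤ, T ⊆ Icc 0 (n : ℤ) → T ∩ D ≠ ∅ → δ ≤ U T)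
    (S : Finset ℤ) (hS : S ⊆ Icc 0 (n : ℤ)) (t : ℝ) (ht : 0 ≤ t) :
    1 - Real.exp (l * t) * (U S + c * t) / δ ≤
      (wG q h0 h1 hL hR 0 n).P t (fun T => if T ∩ D = ∅ then 1 else 0) S := by
  have hκ : 0 < κ := lt_of_lt_of_le hδ hδκ
  have hcl : ∀ i ∈ (wG q h0 h1 hL hR 0 n).I, ∀ x ∈ {T : Finset ℤ | T ⊆ Icc 0 (n : ℤ)},
      (wG q h0 h1 hL hR 0 n).r i x ≠ 0 →
        (wG q h0 h1 hL hR 0 n).T i x ∈ {T : Finset ℤ | T ⊆ Icc 0 (n : ℤ)} := by
    rintro ⟨z, b⟩ hi T hT _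
    have hz : z ∈ Icc (0 : ℤ) n := (Finset.mem_product.1 hi).1
    show (if b then insert z T else T.erase z) ⊆ Icc 0 (n : ℤ)
    have hT' : T ⊆ Icc 0 (n : ℤ) := hT
    cases b
    · exact (Finset.erase_subset _ _).trans hT'
    · exact Finset.insert_subset hz hT'
  obtain ⟨M, hM⟩ := hUb
  obtain ⟨W, hW⟩ : ∃ W : Finset ℤ → ℝ, W = fun T => min (U T) κ := ⟨_, rfl⟩
  have hWU : ∀ T, W T ≤ U T := fun T => by rw [hW]; exact min_le_left _ _
  have hWκ : ∀ T, W T ≤ κ := fun T => by rw [hW]; exact min_le_right _ _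
  have hW0 : ∀ T, 0 ≤ W T := fun T => by rw [hW]; exact le_min (hU0 T) hκ.le
  have hWb : Bd W := ⟨κ, fun T => by rw [abs_of_nonneg (hW0 T)]; exact hWκ T⟩
  have hLW : ∀ T ∈ {T : Finset ℤ | T ⊆ Icc 0 (n : ℤ)},
      (wG q h0 h1 hL hR 0 n).L W T ≤ l * W T + c := by
    intro T hT
    by_cases hlt : U T < κ
    · have hWT : W T = U T := by rw [hW]; exact min_eq_left hlt.le
      have h2 := hgen T hT hlt
      rw [hWT]
      refine le_trans ?_ h2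
      show (kG q h0.le h1.le (Icc 0 (n : ℤ)) (kw hL hR 0 n)).L W T ≤
        (kG q h0.le h1.le (Icc 0 (n : ℤ)) (kw hL hR 0 n)).L U T
      rw [kG_L, kG_L]
      exact genK_le h0 h1 _ _ _ _ _ hWU hWT
    · have hWT : W T = κ := by rw [hW]; exact min_eq_right (not_lt.1 hlt)
      have h3 : (wG q h0 h1 hL hR 0 n).L W T ≤ 0 := by
        show (kG q h0.le h1.le (Icc 0 (n : ℤ)) (kw hL hR 0 n)).L W T ≤ 0
        rw [kG_L]
        refine le_trans (genK_le h0 h1 _ _ W (fun _ => κ) T hWκ hWT) (le_of_eq ?_)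
        unfold genK
        apply Finset.sum_eq_zero
        intro x _
        ring
      have : 0 ≤ l * W T + c := by
        have := hW0 T
        positivity
      linarith
  have hgrow := MG.lyap_grow (wG q h0 h1 hL hR 0 n) {T : Finset ℤ | T ⊆ Icc 0 (n : ℤ)} hcl W hWb
    (fun T _ => hW0 T) l c hl hc hLW S hS t ht
  have hF : ∀ T ∈ {T : Finset ℤ | T ⊆ Icc 0 (n : ℤ)},
      1 + (-(1 / δ)) * W T ≤ (fun T => if T ∩ D = ∅ then (1 : ℝ) else 0) T := by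
    intro T hT
    by_cases hTD : T ∩ D = ∅
    · simp only [hTD, if_true]
      have := hW0 T
      have h5 : 0 ≤ 1 / δ * W T := by positivity
      linarith
    · simp only [hTD, if_false]
      have h4 : δ ≤ W T := by
        rw [hW]; exact le_min (hD T hT hTD) hδκ
      have h5 : 1 ≤ 1 / δ * W T := by
        rw [one_div, ← div_eq_inv_mul, one_le_div hδ]
        exact h4
      linarith
  have hbF : Bd (fun T : Finset ℤ => if T ∩ D = ∅ then (1 : ℝ) else 0) :=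
    ⟨1, fun T => by dsimp only; split_ifs <;> simp⟩
  have hbc : Bd (fun _ : Finset ℤ => (1 : ℝ)) := ⟨1, fun T => by simp⟩
  have hbW : Bd (fun T : Finset ℤ => (-(1 / δ)) * W T) := by
    refine ⟨1 / δ * κ, fun T => ?_⟩
    rw [abs_mul, abs_neg, abs_of_pos (by positivity : 0 < 1 / δ), abs_of_nonneg (hW0 T)]
    exact mul_le_mul_of_nonneg_left (hWκ T) (by positivity)
  have hb2 : Bd (fun T : Finset ℤ => 1 + (-(1 / δ)) * W T) := by
    obtain ⟨M', hM'⟩ := hbW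
    refine ⟨1 + M', fun T => ?_⟩
    refine (abs_add_le _ _).trans ?_
    rw [abs_one]
    exact add_le_add le_rfl (hM' T)
  have hm := MG.P_mono_on (wG q h0 h1 hL hR 0 n) {T : Finset ℤ | T ⊆ Icc 0 (n : ℤ)} hcl
    (fun T => 1 + (-(1 / δ)) * W T) (fun T => if T ∩ D = ∅ then (1 : ℝ) else 0) hb2 hbF hF t ht S hS
  rw [MG.P_add _ (fun _ => (1 : ℝ)) (fun T => (-(1 / δ)) * W T) hbc hbW, MG.P_const,
    MG.P_smul _ _ W hWb] at hm
  refine le_trans ?_ hm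
  have h6 : (wG q h0 h1 hL hR 0 n).P t W S ≤ Real.exp (l * t) * (U S + c * t) := by
    refine hgrow.trans ?_
    apply mul_le_mul_of_nonneg_left _ (Real.exp_pos _).le
    have := hWU S
    linarith
  have h7 : 1 / δ * (wG q h0 h1 hL hR 0 n).P t W S ≤ 1 / δ * (Real.exp (l * t) * (U S + c * t)) :=
    mul_le_mul_of_nonneg_left h6 (by positivity)
  have h8 : 1 / δ * (Real.exp (l * t) * (U S + c * t)) =
      Real.exp (l * t) * (U S + c * t) / δ := by ring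
  linarith

theorem lo_avD (q : ℝ) (D S : Finset ℤ) :
    av q D (fun T => if T ∩ D = ∅ then (1 : ℝ) else 0) S = (1 - q) ^ D.card := by
  unfold av
  rw [Finset.sum_eq_single ∅]
  · have h1 : ((S \ D) ∪ ∅) ∩ D = ∅ := by
      ext x; simp
    dsimp only
    rw [if_pos h1, mul_one]
    unfold wt
    simp
  · intro U hU hne
    dsimp only
    rw [if_neg, mul_zero]
    intro h2
    apply hne
    rw [Finset.mem_powerset] at hU
    rw [Finset.eq_empty_iff_forall_notMem] at h2 ⊢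
    intro x hx
    exact h2 x (Finset.mem_inter.2 ⟨Finset.mem_union_right _ hx, hU hx⟩)
  · intro h
    exact absurd (Finset.empty_mem_powerset _) h

theorem lo_EA (q : ℝ) (A D : Finset ℤ) (hD : D ⊆ A) :
    EA q A (fun T => if T ∩ D = ∅ then (1 : ℝ) else 0) = (1 - q) ^ D.card := by
  rw [EA_eq_av]
  have h1 : (A \ D) ∪ D = A := Finset.sdiff_union_of_subset hD
  have h2 := av_av q (Finset.sdiff_disjoint : Disjoint (A \ D) D)
    (fun T => if T ∩ D = ∅ then (1 : ℝ) else 0) ∅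
  rw [h1] at h2
  rw [← h2]
  have h3 : av q D (fun T => if T ∩ D = ∅ then (1 : ℝ) else 0) = fun _ => (1 - q) ^ D.card := by
    funext S
    exact lo_avD q D S
  rw [h3, av_const]

theorem lo_E (h0 : 0 < q) (h1 : q < 1) (hL hR : Bool) (n : ℕ) (D : Finset ℤ)
    (hD : D ⊆ Icc 0 (n : ℤ)) :
    (wm q h0 h1 hL hR 0 n (Int.natCast_nonneg n)).E (fun T => if T ∩ D = ∅ then (1 : ℝ) else 0) ≤
      (1 - q) ^ D.card / q := by
  rw [wm_E]
  have hp : 0 ≤ (1 - q) ^ D.card := pow_nonneg (by linarith) _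
  split_ifs with h
  · rw [lo_EA q _ D hD]
    rw [le_div_iff₀ h0]
    nlinarith
  · unfold EN
    have hZ : q ≤ Zn q (Icc 0 (n : ℤ)) := by
      unfold Zn
      have hcard : 1 ≤ (Icc (0 : ℤ) n).card := by
        rw [Int.card_Icc]; omega
      have := pow_le_pow_of_le_one (by linarith : 0 ≤ 1 - q) (by linarith) hcard
      rw [pow_one] at this
      linarith
    have hnum : ∑ U ∈ (Icc 0 (n : ℤ)).powerset.filter (fun U => U.Nonempty),
        wt q (Icc 0 (n : ℤ)) U * (if U ∩ D = ∅ then (1 : ℝ) else 0) ≤ (1 - q) ^ D.card := by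
      rw [← lo_EA q _ D hD]
      unfold EA
      apply Finset.sum_le_sum_of_subset_of_nonneg (Finset.filter_subset _ _)
      intro U _ _
      apply mul_nonneg (wt_nonneg h0.le h1.le _ _)
      split_ifs <;> norm_num
    calc _ ≤ (1 - q) ^ D.card / Zn q (Icc 0 (n : ℤ)) :=
          div_le_div_of_nonneg_right hnum (by linarith)
      _ ≤ _ := div_le_div_of_nonneg_left hp h0 hZ

theorem lo_asym (h0 : 0 < q) (h1 : q < 1) (θ v η ε A C : ℝ) (hθ : 0 < θ) (hv : 0 < v)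
    (hη : 0 < η) (hε : 0 < ε) :
    ∃ l0 : ℝ, ∀ l : ℝ, l0 ≤ l → 0 ≤ l ∧ 4 ≤ ⌊η * l / 8⌋₊ ∧
      (1 - q) ^ (⌊η * l / 8⌋₊ + 1) / q ≤ ε / 2 ∧
      2 * A * (1 + C * (l / v)) * Real.exp (-(3 * θ * η / 8 * l)) ≤ ε / 2 := by
  have hb : 0 < 3 * θ * η / 8 := by positivity
  have hfl : Filter.Tendsto (fun l : ℝ => ⌊η * l / 8⌋₊) Filter.atTop Filter.atTop := by
    apply tendsto_nat_floor_atTop.comp
    have h2 : (fun l : ℝ => η * l / 8) = fun l => (η / 8) * l := by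
      funext l; ring
    rw [h2]
    exact Filter.tendsto_id.const_mul_atTop (by positivity)
  have hpw : Filter.Tendsto (fun r : ℕ => (1 - q) ^ (r + 1) / q) Filter.atTop (nhds 0) := by
    have h2 := tendsto_pow_atTop_nhds_zero_of_lt_one (by linarith : 0 ≤ 1 - q)
      (by linarith : 1 - q < 1)
    have h3 := ((Filter.tendsto_add_atTop_iff_nat 1).2 h2).div_const q
    rwa [zero_div] at h3
  have he1 : ∀ᶠ l : ℝ in Filter.atTop, (1 - q) ^ (⌊η * l / 8⌋₊ + 1) / q < ε / 2 :=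
    hfl.eventually (hpw.eventually (gt_mem_nhds (by positivity)))
  have he2 : ∀ᶠ l : ℝ in Filter.atTop, 4 ≤ ⌊η * l / 8⌋₊ :=
    hfl.eventually (Filter.eventually_ge_atTop 4)
  have hx : Filter.Tendsto (fun l : ℝ => (3 * θ * η / 8) * l) Filter.atTop Filter.atTop :=
    Filter.tendsto_id.const_mul_atTop hb
  have k0 := (Real.tendsto_pow_mul_exp_neg_atTop_nhds_zero 0).comp hx
  have k1 := (Real.tendsto_pow_mul_exp_neg_atTop_nhds_zero 1).comp hx
  have k2 := (k0.const_mul (2 * A)).add (k1.const_mul (2 * A * C / (v * (3 * θ * η / 8))))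
  rw [mul_zero, mul_zero, add_zero] at k2
  have he3 : ∀ᶠ l : ℝ in Filter.atTop,
      2 * A * (1 + C * (l / v)) * Real.exp (-(3 * θ * η / 8 * l)) < ε / 2 := by
    have h3 := k2.eventually (gt_mem_nhds (show (0 : ℝ) < ε / 2 by positivity))
    filter_upwards [h3] with l hl
    refine lt_of_le_of_lt (le_of_eq ?_) hl
    simp only [Function.comp, pow_zero, one_mul, pow_one]
    have hb' : (3 * θ * η / 8) ≠ 0 := hb.ne'
    field_simp
  obtain ⟨l0, hl0⟩ := Filter.eventually_atTop.1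
    ((((Filter.eventually_ge_atTop (0 : ℝ)).and he2).and he1).and he3)
  refine ⟨l0, fun l hl => ?_⟩
  obtain ⟨⟨⟨h2, h3⟩, h4⟩, h5⟩ := hl0 l hl
  exact ⟨h2, h3, h4.le, h5.le⟩

theorem lo_est (θ v η A C l t X : ℝ) (r : ℕ) (hθ : 0 < θ) (hv : 0 < v) (hη : 0 < η)
    (hA : 0 ≤ A) (hC : 0 ≤ C) (hl : 0 ≤ l) (ht : 0 ≤ t) (ht2 : t ≤ (1 - η) * l / v)
    (hr : (r : ℝ) ≤ η * l / 8) (hX : X ≤ A * Real.exp (-(θ * l)) * (1 + C * t)) :
    Real.exp (θ * (v * (1 + η / 2)) * t) * X / (1 / 2 * Real.exp (-(θ * r))) ≤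
      2 * A * (1 + C * (l / v)) * Real.exp (-(3 * θ * η / 8 * l)) := by
  have htl : t * v ≤ (1 - η) * l := by rwa [le_div_iff₀ hv] at ht2
  have htl2 : t ≤ l / v := by
    rw [le_div_iff₀ hv]
    nlinarith
  have e1 : Real.exp (θ * (v * (1 + η / 2)) * t) ≤ Real.exp (θ * l * (1 - η / 2)) := by
    apply Real.exp_le_exp.2
    have h1 : (v * (1 + η / 2)) * t ≤ l * (1 - η / 2) := by
      have h2 : (v * (1 + η / 2)) * t = (t * v) * (1 + η / 2) := by ring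
      rw [h2]
      have h3 : (t * v) * (1 + η / 2) ≤ ((1 - η) * l) * (1 + η / 2) :=
        mul_le_mul_of_nonneg_right htl (by positivity)
      have h4 : 0 ≤ η ^ 2 * l := by positivity
      nlinarith
    have h5 := mul_le_mul_of_nonneg_left h1 hθ.le
    calc θ * (v * (1 + η / 2)) * t = θ * ((v * (1 + η / 2)) * t) := by ring
      _ ≤ θ * (l * (1 - η / 2)) := h5
      _ = _ := by ring
  have e2 : X ≤ A * Real.exp (-(θ * l)) * (1 + C * (l / v)) := by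
    refine hX.trans (mul_le_mul_of_nonneg_left ?_ (by positivity))
    have := mul_le_mul_of_nonneg_left htl2 hC
    linarith
  have e3 : Real.exp (θ * r) ≤ Real.exp (θ * (η * l / 8)) :=
    Real.exp_le_exp.2 (mul_le_mul_of_nonneg_left hr hθ.le)
  have e4 : Real.exp (θ * (v * (1 + η / 2)) * t) * X / (1 / 2 * Real.exp (-(θ * r))) =
      2 * (Real.exp (θ * (v * (1 + η / 2)) * t) * X) * Real.exp (θ * r) := by
    rw [Real.exp_neg]
    have := (Real.exp_pos (θ * r)).ne'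
    field_simp
  rw [e4]
  have hY : 0 ≤ A * Real.exp (-(θ * l)) * (1 + C * (l / v)) := by positivity
  have e5 : Real.exp (θ * (v * (1 + η / 2)) * t) * X ≤
      Real.exp (θ * l * (1 - η / 2)) * (A * Real.exp (-(θ * l)) * (1 + C * (l / v))) := by
    calc _ ≤ Real.exp (θ * (v * (1 + η / 2)) * t) * (A * Real.exp (-(θ * l)) * (1 + C * (l / v))) :=
          mul_le_mul_of_nonneg_left e2 (Real.exp_pos _).le
      _ ≤ _ := mul_le_mul_of_nonneg_right e1 hY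
  have e6 : 2 * (Real.exp (θ * (v * (1 + η / 2)) * t) * X) * Real.exp (θ * r) ≤
      2 * (Real.exp (θ * l * (1 - η / 2)) * (A * Real.exp (-(θ * l)) * (1 + C * (l / v)))) *
        Real.exp (θ * (η * l / 8)) := by
    calc _ ≤ 2 * (Real.exp (θ * l * (1 - η / 2)) * (A * Real.exp (-(θ * l)) * (1 + C * (l / v)))) *
          Real.exp (θ * r) := mul_le_mul_of_nonneg_right
            (mul_le_mul_of_nonneg_left e5 (by norm_num)) (Real.exp_pos _).le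
      _ ≤ _ := mul_le_mul_of_nonneg_left e3 (by positivity)
  refine e6.trans (le_of_eq ?_)
  have e7 : Real.exp (-(3 * θ * η / 8 * l)) = Real.exp (θ * l * (1 - η / 2)) *
      Real.exp (-(θ * l)) * Real.exp (θ * (η * l / 8)) := by
    rw [← Real.exp_add, ← Real.exp_add]
    congr 1
    ring
  rw [e7]
  ring

theorem lo_floor (η l : ℝ) (hη : 0 ≤ η) (hl : 0 ≤ l) : ((⌊η * l / 8⌋₊ : ℕ) : ℝ) ≤ η * l / 8 :=
  Nat.floor_le (by positivity)

theorem lo_A (h0 : 0 < q) (h1 : q < 1) (θ v η ε C0 C : ℝ) (hθ : 0 < θ) (hv : 0 < v)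
    (hη : 0 < η) (hη1 : η < 1) (hC0 : 0 ≤ C0) (hCC : C0 ≤ C) (m : ℕ) (V : FAF.Env → ℝ)
    (hD : FAF.Drift q (-θ) (-(θ * (v * (1 + η / 2)))) m V)
    (hG : ∀ (hL hR : Bool) (n : ℕ) (h : ℤ),
      0 ≤ h → h ≤ n → (h < n ∨ hR = false) → ∀ T : Finset ℤ, T ⊆ Icc 0 (n : ℤ) →
      T ∩ Icc (h - 2) (h + 1) = ∅ →
      (wG q h0 h1 hL hR 0 n).L (UL (-θ) (Real.exp (-(θ * h))) V h) T ≤
        θ * (v * (1 + η / 2)) * UL (-θ) (Real.exp (-(θ * h))) V h T + C0 * Real.exp (-(θ * h)))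
    (hL : Bool) (n : ℕ) (r : ℕ) (hr4 : 4 ≤ r) (hr : (r : ℝ) ≤ η * n / 8)
    (has1 : (1 - q) ^ (r + 1) / q ≤ ε / 2)
    (has2 : 2 * (2 * Real.exp 1) * (1 + C * (n / v)) * Real.exp (-(3 * θ * η / 8 * n)) ≤ ε / 2)
    (t : ℝ) (ht : 0 ≤ t) (ht2 : t ≤ (1 - η) * n / v) :
    1 - ε ≤ (wG q h0 h1 hL false 0 n).P t
        (fun T => if T ∩ Icc ((n : ℤ) - r) n = ∅ then (1 : ℝ) else 0) {0} -
      (wm q h0 h1 hL false 0 n (Int.natCast_nonneg n)).E
        (fun T => if T ∩ Icc ((n : ℤ) - r) n = ∅ then (1 : ℝ) else 0) := by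
  obtain ⟨-, hV, hV2, -⟩ := hD
  have hn0 : (0 : ℝ) ≤ n := Nat.cast_nonneg n
  have hrn : (r : ℤ) ≤ n := by
    have : (r : ℝ) ≤ n := by nlinarith
    exact_mod_cast this
  have hr4' : (4 : ℝ) ≤ r := by exact_mod_cast hr4
  have hsub : Icc ((n : ℤ) - r) n ⊆ Icc 0 (n : ℤ) := by
    apply Finset.Icc_subset_Icc_left
    omega
  have hE := lo_E h0 h1 hL false n (Icc ((n : ℤ) - r) n) hsub
  have hcard : (Icc ((n : ℤ) - r) n).card = r + 1 := by
    rw [Int.card_Icc]; omega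
  rw [hcard] at hE
  have hΛ : 0 ≤ Real.exp (-(θ * ((n : ℤ) : ℝ))) := (Real.exp_pos _).le
  have hbd := lo_UL_bd θ (Real.exp (-(θ * ((n : ℤ) : ℝ)))) hθ.le hΛ V hV hV2 n
  have hstep := lo_step h0 h1 hL false n (θ * (v * (1 + η / 2))) (1 / 2 * Real.exp (-(θ * 4)))
    (C0 * Real.exp (-(θ * ((n : ℤ) : ℝ)))) (1 / 2 * Real.exp (-(θ * r)))
    (UL (-θ) (Real.exp (-(θ * ((n : ℤ) : ℝ)))) V n)
    ⟨_, fun T => by rw [abs_of_nonneg (hbd T).1]; exact (hbd T).2⟩ (fun T => (hbd T).1)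
    (by positivity) (by positivity) (by positivity)
    (by
      apply mul_le_mul_of_nonneg_left _ (by norm_num)
      apply Real.exp_le_exp.2
      nlinarith)
    (by
      intro T hT hlt
      apply hG hL false n n (Int.natCast_nonneg n) le_rfl (Or.inr rfl) T hT
      rw [Finset.eq_empty_iff_forall_notMem]
      intro x hx
      rw [Finset.mem_inter, Finset.mem_Icc] at hx
      obtain ⟨hxT, hx1, hx2⟩ := hx
      have hxn := (Finset.mem_Icc.1 (hT hxT)).2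
      have h5 := lo_UL_ge θ (Real.exp (-(θ * ((n : ℤ) : ℝ)))) hθ.le V hV n x T hxT hxn
      have h6 : Real.exp (-(θ * 4)) ≤ Real.exp (-(θ * (((n : ℤ) : ℝ) - x))) := by
        apply Real.exp_le_exp.2
        have : ((n : ℤ) : ℝ) - x ≤ 4 := by
          have : (n : ℤ) - x ≤ 4 := by omega
          exact_mod_cast this
        nlinarith
      linarith)
    (Icc ((n : ℤ) - r) n)
    (by
      intro T hT hne
      obtain ⟨x, hx⟩ := Finset.nonempty_iff_ne_empty.2 hne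
      rw [Finset.mem_inter, Finset.mem_Icc] at hx
      obtain ⟨hxT, hx1, hx2⟩ := hx
      refine le_trans ?_ (lo_UL_ge θ (Real.exp (-(θ * ((n : ℤ) : ℝ)))) hθ.le V hV n x T hxT hx2)
      apply mul_le_mul_of_nonneg_left _ (by norm_num)
      apply Real.exp_le_exp.2
      have : ((n : ℤ) : ℝ) - x ≤ r := by
        have : (n : ℤ) - x ≤ r := by omega
        exact_mod_cast this
      nlinarith)
    {0} (by
      intro x hx
      rw [Finset.mem_singleton] at hx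
      rw [hx, Finset.mem_Icc]
      omega) t ht
  have hU0 : UL (-θ) (Real.exp (-(θ * ((n : ℤ) : ℝ)))) V n {0} ≤ 2 * Real.exp (-(θ * n)) := by
    rw [UL_eq (-θ) _ V n 0 {0} (Int.natCast_nonneg n) (Finset.mem_singleton_self _)
      (fun u _ hu h => by rw [Finset.mem_singleton] at h; omega)]
    have h5 := hV2 (envL 0 {0})
    have h6 : Real.exp (-θ * (((n : ℤ) - 0 : ℤ) : ℝ)) = Real.exp (-(θ * n)) := by
      congr 1
      push_cast
      ring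
    rw [h6]
    have := Real.exp_pos (-(θ * (n : ℝ)))
    nlinarith
  have hX : UL (-θ) (Real.exp (-(θ * ((n : ℤ) : ℝ)))) V n {0} +
      C0 * Real.exp (-(θ * ((n : ℤ) : ℝ))) * t ≤
      2 * Real.exp 1 * Real.exp (-(θ * n)) * (1 + C * t) := by
    have h5 : C0 * Real.exp (-(θ * ((n : ℤ) : ℝ))) * t = C0 * t * Real.exp (-(θ * n)) := by
      push_cast; ring
    rw [h5]
    have h6 : C0 * t ≤ C * t := mul_le_mul_of_nonneg_right hCC ht
    have h7 : 0 ≤ C0 * t := by positivity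
    have h8 : (1 : ℝ) ≤ Real.exp 1 := Real.one_le_exp (by norm_num)
    have h9 := Real.exp_pos (-(θ * (n : ℝ)))
    have h10 : 2 + C0 * t ≤ 2 * Real.exp 1 * (1 + C * t) := by nlinarith
    calc _ ≤ (2 + C0 * t) * Real.exp (-(θ * n)) := by linarith
      _ ≤ (2 * Real.exp 1 * (1 + C * t)) * Real.exp (-(θ * n)) :=
        mul_le_mul_of_nonneg_right h10 h9.le
      _ = _ := by ring
  have hest := lo_est θ v η (2 * Real.exp 1) C n t _ r hθ hv hη (by positivity)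
    (hC0.trans hCC) hn0 ht ht2 hr hX
  linarith

set_option maxHeartbeats 1000000 in
theorem lo_C (h0 : 0 < q) (h1 : q < 1) (θ v η ε C0 C1 : ℝ) (hθ : 0 < θ) (hθ1 : θ ≤ 1) (hv : 0 < v)
    (hη : 0 < η) (hη1 : η < 1) (hC0 : 0 ≤ C0) (hC1 : 0 ≤ C1) (m : ℕ) (V : FAF.Env → ℝ)
    (hD : FAF.Drift q (-θ) (-(θ * (v * (1 + η / 2)))) m V)
    (hG : ∀ (hL hR : Bool) (n : ℕ) (h : ℤ),
      0 ≤ h → h ≤ n → (h < n ∨ hR = false) → ∀ T : Finset ℤ, T ⊆ Icc 0 (n : ℤ) →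
      T ∩ Icc (h - 2) (h + 1) = ∅ →
      (wG q h0 h1 hL hR 0 n).L (UL (-θ) (Real.exp (-(θ * h))) V h) T ≤
        θ * (v * (1 + η / 2)) * UL (-θ) (Real.exp (-(θ * h))) V h T + C0 * Real.exp (-(θ * h)))
    (hG' : ∀ (hL hR : Bool) (n : ℕ) (h : ℤ),
      0 ≤ h → h ≤ n → (0 < h ∨ hL = false) → ∀ T : Finset ℤ, T ⊆ Icc 0 (n : ℤ) →
      T ∩ Icc (h - 1) (h + 2) = ∅ →
      (wG q h0 h1 hL hR 0 n).L (UR (-θ) (Real.exp (-(θ * (n - h)))) V h) T ≤
        θ * (v * (1 + η / 2)) * UR (-θ) (Real.exp (-(θ * (n - h)))) V h T +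
          C1 * Real.exp (-(θ * (n - h))))
    (n : ℕ) (hn2 : 2 ≤ n) (r : ℕ) (hr4 : 4 ≤ r) (hr : (r : ℝ) ≤ η * ((n : ℝ) / 2) / 8)
    (has1 : (1 - q) ^ (r + 1) / q ≤ ε / 2)
    (has2 : 2 * (2 * Real.exp 1) * (1 + (C0 + C1) * (((n : ℝ) / 2) / v)) *
      Real.exp (-(3 * θ * η / 8 * ((n : ℝ) / 2))) ≤ ε / 2)
    (t : ℝ) (ht : 0 ≤ t) (ht2 : t ≤ (1 - η) * ((n : ℝ) / 2) / v) :
    1 - ε ≤ (wG q h0 h1 true true 0 n).P t
        (fun T => if T ∩ Icc (((n / 2 : ℕ) : ℤ) - r) ((n / 2 : ℕ) : ℤ) = ∅ then (1 : ℝ) else 0) ∅ -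
      (wm q h0 h1 true true 0 n (Int.natCast_nonneg n)).E
        (fun T => if T ∩ Icc (((n / 2 : ℕ) : ℤ) - r) ((n / 2 : ℕ) : ℤ) = ∅ then (1 : ℝ) else 0) := by
  obtain ⟨-, hV, hV2, -⟩ := hD
  have hn0 : (0 : ℝ) ≤ n := Nat.cast_nonneg n
  obtain ⟨k, hk⟩ : ∃ k : ℕ, k = n / 2 := ⟨_, rfl⟩
  rw [← hk]
  obtain ⟨h, hh⟩ : ∃ h : ℤ, h = (k : ℤ) := ⟨_, rfl⟩
  rw [← hh]
  have hk1 : n ≤ 2 * k + 1 := by omega
  have hk2 : 2 * k ≤ n := by omega
  have hh0 : 0 ≤ h := by omega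
  have hhn : h + 1 ≤ n := by omega
  have hhr : ((n : ℝ) - 1) / 2 ≤ (h : ℝ) := by
    have : (n : ℝ) ≤ 2 * k + 1 := by exact_mod_cast hk1
    rw [hh]; push_cast; linarith
  have hhr2 : (h : ℝ) ≤ (n : ℝ) / 2 := by
    have : 2 * (k : ℝ) ≤ n := by exact_mod_cast hk2
    rw [hh]; push_cast; linarith
  have hn2' : (2 : ℝ) ≤ n := by exact_mod_cast hn2
  have hrh : (r : ℤ) ≤ h := by
    have : (r : ℝ) ≤ h := by nlinarith
    exact_mod_cast this
  have hr4' : (4 : ℝ) ≤ r := by exact_mod_cast hr4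
  have hsub : Icc (h - r) h ⊆ Icc 0 (n : ℤ) := by
    apply Finset.Icc_subset_Icc <;> omega
  have hE := lo_E h0 h1 true true n (Icc (h - r) h) hsub
  have hcard : (Icc (h - r) h).card = r + 1 := by
    rw [Int.card_Icc]; omega
  rw [hcard] at hE
  obtain ⟨Λ1, hΛ1⟩ : ∃ Λ1, Λ1 = Real.exp (-(θ * (h : ℝ))) := ⟨_, rfl⟩
  obtain ⟨Λ2, hΛ2⟩ : ∃ Λ2, Λ2 = Real.exp (-(θ * ((n : ℝ) - ((h + 1 : ℤ) : ℝ)))) := ⟨_, rfl⟩
  have p1 : 0 < Λ1 := by rw [hΛ1]; exact Real.exp_pos _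
  have p2 : 0 < Λ2 := by rw [hΛ2]; exact Real.exp_pos _
  have hbd1 := lo_UL_bd θ Λ1 hθ.le p1.le V hV hV2 h
  have hbd2 := lo_UR_bd θ Λ2 hθ.le p2.le V hV hV2 (h + 1)
  have hκ1 : (1 / 2 : ℝ) * Real.exp (-(θ * 4)) ≤ 1 / 2 := by
    have : Real.exp (-(θ * 4)) ≤ 1 := Real.exp_le_one_iff.2 (by nlinarith)
    linarith
  have hstep := lo_step h0 h1 true true n (θ * (v * (1 + η / 2))) (1 / 2 * Real.exp (-(θ * 4)))
    (C0 * Λ1 + C1 * Λ2) (1 / 2 * Real.exp (-(θ * r)))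
    (fun T => UL (-θ) Λ1 V h T + UR (-θ) Λ2 V (h + 1) T)
    ⟨max Λ1 2 + max Λ2 2, fun T => by
      rw [abs_of_nonneg (add_nonneg (hbd1 T).1 (hbd2 T).1)]
      exact add_le_add (hbd1 T).2 (hbd2 T).2⟩ (fun T => add_nonneg (hbd1 T).1 (hbd2 T).1)
    (by positivity) (by positivity) (by positivity)
    (by
      apply mul_le_mul_of_nonneg_left _ (by norm_num)
      apply Real.exp_le_exp.2
      nlinarith)
    (by
      intro T hT hlt
      have hno : ∀ x ∈ T, h - 2 ≤ x → x ≤ h + 3 → False := by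
        intro x hxT hx1 hx2
        rcases le_or_gt x h with hxh | hxh
        · have h5 := lo_UL_ge θ Λ1 hθ.le V hV h x T hxT hxh
          have h6 : Real.exp (-(θ * 4)) ≤ Real.exp (-(θ * ((h : ℝ) - x))) := by
            apply Real.exp_le_exp.2
            have : (h : ℝ) - x ≤ 4 := by
              have : h - x ≤ 4 := by omega
              exact_mod_cast this
            nlinarith
          have h7 := (hbd2 T).1
          linarith
        · have h5 := lo_UR_ge θ Λ2 hθ.le V hV (h + 1) x T hxT (by omega)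
          have h6 : Real.exp (-(θ * 4)) ≤ Real.exp (-(θ * ((x : ℝ) - ((h + 1 : ℤ) : ℝ)))) := by
            apply Real.exp_le_exp.2
            have : (x : ℝ) - ((h + 1 : ℤ) : ℝ) ≤ 4 := by
              have : x - (h + 1) ≤ 4 := by omega
              exact_mod_cast this
            nlinarith
          have h7 := (hbd1 T).1
          linarith
      have e1 : T ∩ Icc (h - 2) (h + 1) = ∅ := by
        rw [Finset.eq_empty_iff_forall_notMem]
        intro x hx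
        rw [Finset.mem_inter, Finset.mem_Icc] at hx
        exact hno x hx.1 hx.2.1 (by omega)
      have e2 : T ∩ Icc (h + 1 - 1) (h + 1 + 2) = ∅ := by
        rw [Finset.eq_empty_iff_forall_notMem]
        intro x hx
        rw [Finset.mem_inter, Finset.mem_Icc] at hx
        exact hno x hx.1 (by omega) (by omega)
      have g1 := hG true true n h hh0 (by omega) (Or.inl (by omega)) T hT e1
      have g2 := hG' true true n (h + 1) (by omega) hhn (Or.inl (by omega)) T hT e2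
      rw [← hΛ1] at g1
      rw [← hΛ2] at g2
      have g3 : (wG q h0 h1 true true 0 n).L
          (fun T => UL (-θ) Λ1 V h T + UR (-θ) Λ2 V (h + 1) T) T =
          (wG q h0 h1 true true 0 n).L (UL (-θ) Λ1 V h) T +
          (wG q h0 h1 true true 0 n).L (UR (-θ) Λ2 V (h + 1)) T := by
        unfold MG.L
        rw [← Finset.sum_add_distrib]
        refine Finset.sum_congr rfl (fun i _ => ?_)
        ring
      rw [g3]
      linarith)
    (Icc (h - r) h)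
    (by
      intro T hT hne
      obtain ⟨x, hx⟩ := Finset.nonempty_iff_ne_empty.2 hne
      rw [Finset.mem_inter, Finset.mem_Icc] at hx
      obtain ⟨hxT, hx1, hx2⟩ := hx
      have h5 := lo_UL_ge θ Λ1 hθ.le V hV h x T hxT hx2
      have h6 := (hbd2 T).1
      have h7 : 1 / 2 * Real.exp (-(θ * r)) ≤ 1 / 2 * Real.exp (-(θ * ((h : ℝ) - x))) := by
        apply mul_le_mul_of_nonneg_left _ (by norm_num)
        apply Real.exp_le_exp.2
        have : (h : ℝ) - x ≤ r := by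
          have : h - x ≤ r := by omega
          exact_mod_cast this
        nlinarith
      linarith)
    ∅ (Finset.empty_subset _) t ht
  have hU0 : UL (-θ) Λ1 V h ∅ + UR (-θ) Λ2 V (h + 1) ∅ = Λ1 + Λ2 := by
    rw [UL_none _ _ _ _ _ (by simp), UR_none _ _ _ _ _ (by simp)]
  have q1 : Λ1 ≤ Real.exp 1 * Real.exp (-(θ * ((n : ℝ) / 2))) := by
    rw [hΛ1, ← Real.exp_add]
    apply Real.exp_le_exp.2
    have w1 : (n : ℝ) / 2 - h ≤ 1 := by linarith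
    have w2 := mul_le_mul_of_nonneg_left w1 hθ.le
    linarith
  have q2 : Λ2 ≤ Real.exp 1 * Real.exp (-(θ * ((n : ℝ) / 2))) := by
    rw [hΛ2, ← Real.exp_add]
    apply Real.exp_le_exp.2
    push_cast
    have w1 : (n : ℝ) / 2 - (n - (h + 1)) ≤ 1 := by linarith
    have w2 := mul_le_mul_of_nonneg_left w1 hθ.le
    linarith
  have hX : (UL (-θ) Λ1 V h ∅ + UR (-θ) Λ2 V (h + 1) ∅) + (C0 * Λ1 + C1 * Λ2) * t ≤
      2 * Real.exp 1 * Real.exp (-(θ * ((n : ℝ) / 2))) * (1 + (C0 + C1) * t) := by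
    rw [hU0]
    obtain ⟨Z, hZ⟩ : ∃ Z, Z = Real.exp 1 * Real.exp (-(θ * ((n : ℝ) / 2))) := ⟨_, rfl⟩
    rw [← hZ] at q1 q2
    have hZ0 : 0 < Z := lt_of_lt_of_le p1 q1
    have r1 : C0 * Λ1 ≤ C0 * Z := mul_le_mul_of_nonneg_left q1 hC0
    have r2 : C1 * Λ2 ≤ C1 * Z := mul_le_mul_of_nonneg_left q2 hC1
    have r3 : (C0 * Λ1 + C1 * Λ2) * t ≤ ((C0 + C1) * Z) * t := by
      apply mul_le_mul_of_nonneg_right _ ht
      linarith
    have r4 : 0 ≤ (C0 + C1) * Z * t := by positivity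
    have r5 : 2 * Real.exp 1 * Real.exp (-(θ * ((n : ℝ) / 2))) * (1 + (C0 + C1) * t) =
        2 * Z + 2 * ((C0 + C1) * Z * t) := by
      rw [hZ]; ring
    rw [r5]
    linarith
  have hest := lo_est θ v η (2 * Real.exp 1) (C0 + C1) ((n : ℝ) / 2) t _ r hθ hv hη (by positivity)
    (by positivity) (by positivity) ht ht2 hr hX
  linarith

open Classical in
/-- lower bound on the mixing time -/
theorem lower (h0 : 0 < q) (h1 : q < 1) (v : ℝ) (hv : 0 < v)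
    (hsp : ∀ a : ℝ, v < a → ∃ θ0 : ℝ, 0 < θ0 ∧ ∀ θ : ℝ, 0 < θ → θ < θ0 →
      ∃ (m : ℕ) (V : FAF.Env → ℝ), FAF.Drift q (-θ) (-(θ * a)) m V)
    (η ε : ℝ) (hη : 0 < η) (hη1 : η < 1) (hε : 0 < ε) :
    ∃ n0 : ℕ, ∀ n : ℕ, n0 ≤ n → ∀ (hL hR : Bool), ∃ S : Finset ℤ, S ⊆ Icc 0 (n : ℤ) ∧ Okw hL hR S ∧
      ∃ F : Finset ℤ → ℝ, (∀ T, 0 ≤ F T ∧ F T ≤ 1) ∧ ∀ t : ℝ, 0 ≤ t →
        t ≤ (1 - η) * (if hL = true ∧ hR = true then 1 / 2 else 1) * n / v →
        1 - ε ≤ (wG q h0 h1 hL hR 0 n).P t F S - (wm q h0 h1 hL hR 0 n (Int.natCast_nonneg n)).E F := by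
  have ha : 0 < v * (1 + η / 2) := by positivity
  obtain ⟨θ0, hθ0, hsp'⟩ := hsp (v * (1 + η / 2)) (by nlinarith)
  obtain ⟨θ, hθ⟩ : ∃ θ, θ = min (θ0 / 2) 1 := ⟨_, rfl⟩
  have hθp : 0 < θ := by rw [hθ]; exact lt_min (by positivity) one_pos
  have hθ1 : θ ≤ 1 := by rw [hθ]; exact min_le_right _ _
  have hθ2 : θ < θ0 := by
    have : θ ≤ θ0 / 2 := by rw [hθ]; exact min_le_left _ _
    linarith
  obtain ⟨m, V, hD⟩ := hsp' θ hθp hθ2
  obtain ⟨C0, hC0, hG⟩ := low_genL h0 h1 θ (v * (1 + η / 2)) hθp hθ1 ha m V hD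
  obtain ⟨C1, hC1, hG'⟩ := low_genR h0 h1 θ (v * (1 + η / 2)) hθp hθ1 ha m V hD
  obtain ⟨l0, hl0⟩ := lo_asym h0 h1 θ v η ε (2 * Real.exp 1) (C0 + C1) hθp hv hη hε
  refine ⟨max 2 ⌈2 * l0⌉₊, fun n hn hL hR => ?_⟩
  have hn2 : 2 ≤ n := (le_max_left _ _).trans hn
  have hnl : 2 * l0 ≤ n := (Nat.le_ceil _).trans (by exact_mod_cast (le_max_right _ _).trans hn)
  obtain ⟨a1, a2, a3, a4⟩ := hl0 ((n : ℝ) / 2) (by linarith)
  obtain ⟨b1, b2, b3, b4⟩ := hl0 (n : ℝ) (by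
    have : (0 : ℝ) ≤ n := Nat.cast_nonneg n
    linarith)
  have hF : ∀ (D : Finset ℤ) (T : Finset ℤ), 0 ≤ (if T ∩ D = ∅ then (1 : ℝ) else 0) ∧
      (if T ∩ D = ∅ then (1 : ℝ) else 0) ≤ 1 := by
    intro D T
    split_ifs <;> norm_num
  have hmainA : ∀ (hL : Bool) (t : ℝ), 0 ≤ t → t ≤ (1 - η) * n / v →
      1 - ε ≤ (wG q h0 h1 hL false 0 n).P t
        (fun T => if T ∩ Icc ((n : ℤ) - ⌊η * (n : ℝ) / 8⌋₊) n = ∅ then (1 : ℝ) else 0) {0} -
      (wm q h0 h1 hL false 0 n (Int.natCast_nonneg n)).E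
        (fun T => if T ∩ Icc ((n : ℤ) - ⌊η * (n : ℝ) / 8⌋₊) n = ∅ then (1 : ℝ) else 0) :=
    fun hL t ht ht2 => lo_A h0 h1 θ v η ε C0 (C0 + C1) hθp hv hη hη1 hC0 (by linarith) m V hD hG hL n
      ⌊η * (n : ℝ) / 8⌋₊ b2 (lo_floor η n hη.le b1) b3 b4 t ht ht2
  have hsing : ({0} : Finset ℤ) ⊆ Icc 0 (n : ℤ) := by
    intro x hx
    rw [Finset.mem_singleton] at hx
    rw [hx, Finset.mem_Icc]
    omega
  cases hR with
  | false =>
    refine ⟨{0}, hsing, Or.inr (Finset.singleton_nonempty _), _, hF (Icc ((n : ℤ) - ⌊η * (n : ℝ) / 8⌋₊) n), ?_⟩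
    intro t ht ht2
    have h2 : ¬ (hL = true ∧ false = true) := by simp
    rw [if_neg h2, mul_one] at ht2
    exact hmainA hL t ht ht2
  | true =>
    cases hL with
    | false =>
      refine ⟨rf 0 n {0}, rf_sub _ _ _ hsing, Or.inl rfl,
        fun T => (fun T => if T ∩ Icc ((n : ℤ) - ⌊η * (n : ℝ) / 8⌋₊) n = ∅ then (1 : ℝ) else 0)
          (rf 0 n T), fun T => hF _ (rf 0 n T), ?_⟩
      intro t ht ht2
      have h2 : ¬ (false = true ∧ true = true) := by simp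
      rw [if_neg h2, mul_one] at ht2
      have h3 := hmainA true t ht ht2
      rw [wG_refl h0 h1 false true 0 n (fun T => if T ∩ Icc ((n : ℤ) - ⌊η * (n : ℝ) / 8⌋₊) n = ∅
        then (1 : ℝ) else 0) t, rf_rf,
        wm_refl h0 h1 false true 0 n (Int.natCast_nonneg n) (fun T =>
          if T ∩ Icc ((n : ℤ) - ⌊η * (n : ℝ) / 8⌋₊) n = ∅ then (1 : ℝ) else 0)]
      exact h3
    | true =>
      refine ⟨∅, Finset.empty_subset _, Or.inl rfl, _,
        hF (Icc (((n / 2 : ℕ) : ℤ) - ⌊η * ((n : ℝ) / 2) / 8⌋₊) ((n / 2 : ℕ) : ℤ)), ?_⟩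
      intro t ht ht2
      have h2 : (true = true ∧ true = true) := by simp
      rw [if_pos h2] at ht2
      exact lo_C h0 h1 θ v η ε C0 C1 hθp hθ1 hv hη hη1 hC0 hC1 m V hD hG hG' n hn2
        ⌊η * ((n : ℝ) / 2) / 8⌋₊ a2 (lo_floor η ((n : ℝ) / 2) hη.le a1) a3 a4 t ht
        (by
          refine ht2.trans (le_of_eq ?_)
          ring)

end FA
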