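import Pool.Agent.Helper870.FADefs
import Pool.Agent.Helper870.FAG1
import Pool.Agent.Helper870.FAS1
import Pool.Agent.Helper870.FAS2
import Pool.Agent.Helper870.FAS3
import Pool.Agent.Helper870.FAD2
import Pool.Agent.Helper870.FAS10
import Pool.Agent.Helper870.FAD4
import Pool.Agent.Helper870.FAD5
import Pool.Agent.Helper870.FAD9
import Pool.Agent.Helper870.FAK1r
import Pool.Agent.Helper870.FAD11

set_option autoImplicit false
set_option linter.unusedSectionVars false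

open Finset

noncomputable section

-- USES: G1 S1 S2 S3 D2 S10 D4 D5 D9 K1r D11
namespace FA
namespace Cut
variable {q : ℝ}


theorem K13_reidx {M : Type} [AddCommMonoid M] (n : ℕ) (g : ℤ → M) :
    ∑ x ∈ Icc (0:ℤ) n, g x = ∑ x : Fin (n + 1), g ((x : ℕ) : ℤ) := by
  symm
  refine Finset.sum_bij (fun (x : Fin (n + 1)) _ => ((x : ℕ) : ℤ)) ?_ ?_ ?_ ?_
  · intro x _
    rw [Finset.mem_Icc]
    have := x.2
    omega
  · intro x _ y _ h
    exact Fin.ext (by exact_mod_cast h)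
  · intro y hy
    rw [Finset.mem_Icc] at hy
    refine ⟨⟨y.toNat, by omega⟩, Finset.mem_univ _, ?_⟩
    show ((y.toNat : ℕ) : ℤ) = y
    omega
  · intro x _
    rfl

theorem K13_reidx_prod (n : ℕ) (g : ℤ → ℝ) :
    ∏ x ∈ Icc (0:ℤ) n, g x = ∏ x : Fin (n + 1), g ((x : ℕ) : ℤ) := by
  symm
  refine Finset.prod_bij (fun (x : Fin (n + 1)) _ => ((x : ℕ) : ℤ)) ?_ ?_ ?_ ?_
  · intro x _
    rw [Finset.mem_Icc]
    have := x.2
    omega
  · intro x _ y _ h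
    exact Fin.ext (by exact_mod_cast h)
  · intro y hy
    rw [Finset.mem_Icc] at hy
    refine ⟨⟨y.toNat, by omega⟩, Finset.mem_univ _, ?_⟩
    show ((y.toNat : ℕ) : ℤ) = y
    omega
  · intro x _
    rfl

theorem K13_val (n : ℕ) (σ : ℤ → Bool) (η : Cfg n) (x : Fin (n + 1)) :
    val n σ η ((x : ℕ) : ℤ) = η x := by
  have h := x.2
  unfold val
  rw [dif_pos ⟨by omega, by omega⟩]
  congr 1

theorem K13_val_out (n : ℕ) (σ : ℤ → Bool) (η : Cfg n) (y : ℤ) (h : ¬ (0 ≤ y ∧ y ≤ (n:ℤ))) :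
    val n σ η y = σ y := by
  unfold val
  rw [dif_neg h]

theorem K13_cast (n : ℕ) (y : ℤ) (h : 0 ≤ y ∧ y ≤ (n:ℤ)) : ∃ x : Fin (n + 1), ((x : ℕ) : ℤ) = y :=
  ⟨⟨y.toNat, by omega⟩, by show ((y.toNat : ℕ) : ℤ) = y; omega⟩

theorem K13_mem (n : ℕ) (η : Cfg n) (x : Fin (n + 1)) : ((x : ℕ) : ℤ) ∈ SI n η ↔ η x = false := by
  have h := x.2
  unfold SI
  rw [Finset.mem_filter, K13_val, Finset.mem_Icc]
  constructor
  · exact fun h => h.2
  · exact fun h' => ⟨⟨by omega, by omega⟩, h'⟩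

theorem K13_sub (n : ℕ) (η : Cfg n) : SI n η ⊆ Icc 0 (n:ℤ) := Finset.filter_subset _ _

theorem K13_ext (n : ℕ) (S T : Finset ℤ) (hS : S ⊆ Icc 0 (n:ℤ)) (hT : T ⊆ Icc 0 (n:ℤ))
    (h : ∀ x : Fin (n + 1), ((x : ℕ) : ℤ) ∈ S ↔ ((x : ℕ) : ℤ) ∈ T) : S = T := by
  ext y
  by_cases hy : y ∈ Icc 0 (n:ℤ)
  · obtain ⟨x, rfl⟩ := K13_cast n y (Finset.mem_Icc.1 hy)
    exact h x
  · exact ⟨fun h => absurd (hS h) hy, fun h => absurd (hT h) hy⟩

theorem K13_in (n : ℕ) (x : Fin (n + 1)) : ((x : ℕ) : ℤ) ∈ Icc 0 (n:ℤ) := by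
  have := x.2
  rw [Finset.mem_Icc]
  omega

theorem K13_flip_t (n : ℕ) (η : Cfg n) (x : Fin (n + 1)) (h : η x = true) :
    SI n (flip n η x) = insert ((x : ℕ) : ℤ) (SI n η) := by
  refine K13_ext n _ _ (K13_sub n _) (Finset.insert_subset (K13_in n x) (K13_sub n _)) (fun y => ?_)
  rw [K13_mem, Finset.mem_insert, K13_mem]
  unfold flip
  by_cases hxy : y = x
  · subst hxy
    simp [h]
  · have h2 : ((y : ℕ) : ℤ) ≠ ((x : ℕ) : ℤ) := fun h => hxy (Fin.ext (by exact_mod_cast h))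
    rw [Function.update_of_ne hxy]
    simp only [h2, false_or]

theorem K13_flip_f (n : ℕ) (η : Cfg n) (x : Fin (n + 1)) (h : η x = false) :
    SI n (flip n η x) = (SI n η).erase ((x : ℕ) : ℤ) := by
  refine K13_ext n _ _ (K13_sub n _) ((Finset.erase_subset _ _).trans (K13_sub n _)) (fun y => ?_)
  rw [K13_mem, Finset.mem_erase, K13_mem]
  unfold flip
  by_cases hxy : y = x
  · subst hxy
    simp [h]
  · have h2 : ((y : ℕ) : ℤ) ≠ ((x : ℕ) : ℤ) := fun h => hxy (Fin.ext (by exact_mod_cast h))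
    rw [Function.update_of_ne hxy]
    simp only [ne_eq, h2, not_false_eq_true, true_and]

theorem K13_nb (n : ℕ) (σ : ℤ → Bool) (η : Cfg n) (y : ℤ) :
    val n σ η y = false ↔ (y ∈ Icc 0 (n:ℤ) ∧ y ∈ SI n η) ∨ (y ∉ Icc 0 (n:ℤ) ∧ σ y = false) := by
  by_cases hy : y ∈ Icc 0 (n:ℤ)
  · obtain ⟨x, rfl⟩ := K13_cast n y (Finset.mem_Icc.1 hy)
    rw [K13_val, K13_mem]
    simp only [hy, true_and, not_true_eq_false, false_and, or_false]
  · rw [K13_val_out n σ η y (by rwa [Finset.mem_Icc] at hy)]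
    simp only [hy, false_and, not_false_eq_true, true_and, false_or]

theorem K13_constr (n : ℕ) (σ : ℤ → Bool) (η : Cfg n) (x : Fin (n + 1)) :
    constr n σ η x = kv (kw (!σ (-1)) (!σ ((n : ℤ) + 1)) 0 n) ((x : ℕ) : ℤ) (SI n η) := by
  have hx := x.2
  have h : (val n σ η (((x : ℕ) : ℤ) - 1) = false ∨ val n σ η (((x : ℕ) : ℤ) + 1) = false) ↔
      kw (!σ (-1)) (!σ ((n : ℤ) + 1)) 0 n ((x : ℕ) : ℤ) (SI n η) = true := by
    unfold kw
    rw [decide_eq_true_iff, K13_nb, K13_nb]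
    have h1 : ((((x : ℕ) : ℤ) - 1 ∉ Icc 0 (n:ℤ)) ∧ σ (((x : ℕ) : ℤ) - 1) = false) ↔
        (((x : ℕ) : ℤ) = 0 ∧ (!σ (-1)) = true) := by
      rw [Finset.mem_Icc]
      constructor
      · rintro ⟨h1, h2⟩
        have h3 : ((x : ℕ) : ℤ) = 0 := by omega
        rw [h3] at h2
        refine ⟨h3, ?_⟩
        rw [zero_sub] at h2
        rw [h2]; rfl
      · rintro ⟨h1, h2⟩
        refine ⟨by omega, ?_⟩
        rw [h1, zero_sub]
        simpa using h2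
    have h2 : ((((x : ℕ) : ℤ) + 1 ∉ Icc 0 (n:ℤ)) ∧ σ (((x : ℕ) : ℤ) + 1) = false) ↔
        (((x : ℕ) : ℤ) = n ∧ (!σ ((n : ℤ) + 1)) = true) := by
      rw [Finset.mem_Icc]
      constructor
      · rintro ⟨h1, h2⟩
        have h3 : ((x : ℕ) : ℤ) = n := by omega
        rw [h3] at h2
        refine ⟨h3, ?_⟩
        rw [h2]; rfl
      · rintro ⟨h1, h2⟩
        refine ⟨by omega, ?_⟩
        rw [h1]
        simpa using h2
    rw [h1, h2]
    tauto
  unfold constr kv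
  by_cases hc : (val n σ η (((x : ℕ) : ℤ) - 1) = false ∨ val n σ η (((x : ℕ) : ℤ) + 1) = false)
  · rw [if_pos hc, if_pos (h.1 hc)]
  · rw [if_neg hc, if_neg (fun h' => hc (h.2 h'))]

theorem K13_gen (h0 : 0 < q) (h1 : q < 1) (n : ℕ) (σ : ℤ → Bool) (F : Finset ℤ → ℝ) (η : Cfg n) :
    gen q n σ (fun ζ => F (SI n ζ)) η =
      (wG q h0 h1 (!σ (-1)) (!σ ((n : ℤ) + 1)) 0 n).L F (SI n η) := by
  unfold wG
  rw [kG_L]
  unfold genK gen
  rw [K13_reidx]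
  refine Finset.sum_congr rfl (fun x _ => ?_)
  unfold rate
  rw [← K13_constr]
  rcases hx : η x with _ | _
  · have h2 : insert ((x : ℕ) : ℤ) (SI n η) = SI n η := Finset.insert_eq_of_mem ((K13_mem n η x).2 hx)
    beta_reduce
    rw [K13_flip_f n η x hx, h2]
    simp
    ring
  · have h2 : (SI n η).erase ((x : ℕ) : ℤ) = SI n η :=
      Finset.erase_eq_of_notMem (fun h => by rw [K13_mem, hx] at h; exact absurd h (by simp))
    beta_reduce
    rw [K13_flip_t n η x hx, h2]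
    simp
    ring

theorem K13_iter (h0 : 0 < q) (h1 : q < 1) (n : ℕ) (σ : ℤ → Bool) (m : ℕ) (F : Finset ℤ → ℝ) :
    (gen q n σ)^[m] (fun ζ => F (SI n ζ)) =
      fun ζ => (((wG q h0 h1 (!σ (-1)) (!σ ((n : ℤ) + 1)) 0 n).L)^[m] F) (SI n ζ) := by
  induction m generalizing F with
  | zero => rfl
  | succ m ih =>
    rw [Function.iterate_succ_apply, Function.iterate_succ_apply, ← ih]
    congr 1
    funext ζ
    exact K13_gen h0 h1 n σ F ζ

/-- the configuration with the given set of infected sites -/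
def K13_BI (n : ℕ) (T : Finset ℤ) : Cfg n := fun x => !(decide (((x : ℕ) : ℤ) ∈ T))

theorem K13_BI_SI (n : ℕ) (η : Cfg n) : K13_BI n (SI n η) = η := by
  funext x
  unfold K13_BI
  rcases hx : η x with _ | _
  · have h := (K13_mem n η x).2 hx
    simp [h]
  · have h : ((x : ℕ) : ℤ) ∉ SI n η := fun h => by rw [K13_mem, hx] at h; exact absurd h (by simp)
    simp [h]

theorem K13_SI_BI (n : ℕ) (T : Finset ℤ) (hT : T ⊆ Icc 0 (n:ℤ)) : SI n (K13_BI n T) = T := by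
  refine K13_ext n _ _ (K13_sub n _) hT (fun x => ?_)
  rw [K13_mem]
  unfold K13_BI
  simp

theorem K13_wt (n : ℕ) (ξ : Cfg n) : wt q (Icc 0 (n:ℤ)) (SI n ξ) = pi q n ξ := by
  have h1 : wt q (Icc 0 (n:ℤ)) (SI n ξ) = ∏ x ∈ Icc 0 (n:ℤ), (if x ∈ SI n ξ then q else 1 - q) := by
    rw [Finset.prod_ite, Finset.prod_const, Finset.prod_const, Finset.filter_mem_eq_inter,
      Finset.filter_notMem_eq_sdiff]
    rfl
  rw [h1, K13_reidx_prod]
  unfold pi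
  refine Finset.prod_congr rfl (fun x _ => ?_)
  rcases hx : ξ x with _ | _
  · rw [if_pos ((K13_mem n ξ x).2 hx)]
    simp
  · rw [if_neg (fun h => by rw [K13_mem, hx] at h; exact absurd h (by simp))]
    simp

theorem K13_pisum (n : ℕ) (G : Finset ℤ → ℝ) :
    ∑ ξ : Cfg n, pi q n ξ * G (SI n ξ) = ∑ U ∈ (Icc 0 (n:ℤ)).powerset, wt q (Icc 0 (n:ℤ)) U * G U := by
  refine Finset.sum_bij (fun ξ _ => SI n ξ) ?_ ?_ ?_ ?_
  · intro ξ _
    exact Finset.mem_powerset.2 (K13_sub n ξ)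
  · intro ξ _ η _ h
    have h2 : SI n ξ = SI n η := h
    rw [← K13_BI_SI n ξ, h2, K13_BI_SI]
  · intro U hU
    exact ⟨K13_BI n U, Finset.mem_univ _, K13_SI_BI n U (Finset.mem_powerset.1 hU)⟩
  · intro ξ _
    rw [K13_wt]

theorem K13_bd (n : ℕ) (g : Cfg n → ℝ) : Bd (fun T => g (K13_BI n T)) := by
  refine ⟨∑ ξ : Cfg n, |g ξ|, fun T => ?_⟩
  exact Finset.single_le_sum (f := fun ξ => |g ξ|) (fun _ _ => abs_nonneg _) (Finset.mem_univ _)

theorem K13_P_sum {X ι : Type} (G : MG X) (s : Finset ι) (c : ι → ℝ) (f : ι → X → ℝ)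
    (hf : ∀ i, Bd (f i)) (t : ℝ) (x : X) :
    Bd (fun y => ∑ i ∈ s, c i * f i y) ∧
    G.P t (fun y => ∑ i ∈ s, c i * f i y) x = ∑ i ∈ s, c i * G.P t (f i) x := by
  classical
  have hbd1 : ∀ i, Bd (fun y => c i * f i y) := by
    intro i
    obtain ⟨M, hM⟩ := hf i
    refine ⟨|c i| * M, fun y => ?_⟩
    rw [abs_mul]
    exact mul_le_mul_of_nonneg_left (hM y) (abs_nonneg _)
  induction s using Finset.induction_on with
  | empty =>
    simp only [Finset.sum_empty]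
    exact ⟨⟨0, fun _ => by simp⟩, G.P_const 0 t x⟩
  | insert a s ha ih =>
    have e : (fun y => ∑ i ∈ insert a s, c i * f i y) =
        fun y => (fun y => c a * f a y) y + (fun y => ∑ i ∈ s, c i * f i y) y := by
      funext y
      rw [Finset.sum_insert ha]
    rw [e, Finset.sum_insert ha]
    constructor
    · obtain ⟨M1, hM1⟩ := hbd1 a
      obtain ⟨M2, hM2⟩ := ih.1
      exact ⟨M1 + M2, fun y => (abs_add_le _ _).trans (add_le_add (hM1 y) (hM2 y))⟩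
    · rw [G.P_add _ _ (hbd1 a) ih.1, G.P_smul _ _ (hf a), ih.2]

theorem K13_sem_g (h0 : 0 < q) (h1 : q < 1) (n : ℕ) (σ : ℤ → Bool) (t : ℝ) (g : Cfg n → ℝ) (η : Cfg n) :
    sem q n σ t g η = (wG q h0 h1 (!σ (-1)) (!σ ((n : ℤ) + 1)) 0 n).P t (fun T => g (K13_BI n T)) (SI n η) := by
  have e : g = fun ζ => (fun T => g (K13_BI n T)) (SI n ζ) := by
    funext ζ
    show g ζ = g (K13_BI n (SI n ζ))
    rw [K13_BI_SI]
  unfold sem MG.P semi
  refine tsum_congr (fun m => ?_)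
  have h2 := congrFun (K13_iter h0 h1 n σ m (fun T => g (K13_BI n T))) η
  rw [← e] at h2
  rw [h2]

theorem K13_lin (h0 : 0 < q) (h1 : q < 1) (n : ℕ) (σ : ℤ → Bool) (t : ℝ) (g : Cfg n → ℝ) (η : Cfg n) :
    sem q n σ t g η = ∑ ξ : Cfg n, g ξ * prob q n σ t η ξ := by
  rw [K13_sem_g h0 h1]
  have h2 := (K13_P_sum (wG q h0 h1 (!σ (-1)) (!σ ((n : ℤ) + 1)) 0 n) (Finset.univ : Finset (Cfg n)) g
    (fun ξ T => if K13_BI n T = ξ then (1:ℝ) else 0)
    (fun ξ => K13_bd n (fun ζ => if ζ = ξ then (1:ℝ) else 0)) t (SI n η)).2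
  have e : (fun T => ∑ ξ : Cfg n, g ξ * (if K13_BI n T = ξ then (1:ℝ) else 0)) =
      fun T => g (K13_BI n T) := by
    funext T
    simp
  rw [← e]
  refine h2.trans (Finset.sum_congr rfl (fun ξ _ => ?_))
  unfold prob
  rw [K13_sem_g h0 h1]

/-- the chain on configurations is the chain on sets of infected sites -/
theorem sem_eq (h0 : 0 < q) (h1 : q < 1) (n : ℕ) (σ : ℤ → Bool) (t : ℝ) (F : Finset ℤ → ℝ) (η : Cfg n) :
    sem q n σ t (fun ζ => F (SI n ζ)) η =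
      (wG q h0 h1 (!σ (-1)) (!σ ((n : ℤ) + 1)) 0 n).P t F (SI n η) := by
  unfold sem MG.P semi
  refine tsum_congr (fun m => ?_)
  rw [K13_iter h0 h1 n σ m F]

theorem SI_surj (n : ℕ) (S : Finset ℤ) (hS : S ⊆ Icc 0 (n : ℤ)) : ∃ η : Cfg n, SI n η = S := by
  exact ⟨K13_BI n S, K13_SI_BI n S hS⟩

theorem SI_inj (n : ℕ) (η ξ : Cfg n) (h : SI n η = SI n ξ) : η = ξ := by
  rw [← K13_BI_SI n η, h, K13_BI_SI]

theorem SI_nonempty (n : ℕ) (η : Cfg n) : (SI n η).Nonempty ↔ ∃ x, η x = false := by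
  constructor
  · rintro ⟨y, hy⟩
    obtain ⟨x, rfl⟩ := K13_cast n y (Finset.mem_Icc.1 (K13_sub n η hy))
    exact ⟨x, (K13_mem n η x).1 hy⟩
  · rintro ⟨x, hx⟩
    exact ⟨_, (K13_mem n η x).2 hx⟩

theorem mean_a (h0 : 0 < q) (h1 : q < 1) (n : ℕ) (hL hR : Bool) (hh : (hL || hR) = true) (F : Finset ℤ → ℝ) :
    ∑ ξ : Cfg n, pi q n ξ * F (SI n ξ) = (wm q h0 h1 hL hR 0 n (Int.natCast_nonneg n)).E F := by
  rw [wm_E, if_pos hh, K13_pisum]
  rfl

theorem mean_b (h0 : 0 < q) (h1 : q < 1) (n : ℕ) (F : Finset ℤ → ℝ) :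
    ∑ ξ : Cfg n, piC q n ξ * F (SI n ξ) = (wm q h0 h1 false false 0 n (Int.natCast_nonneg n)).E F := by
  classical
  rw [wm_E, if_neg (by simp)]
  unfold EN
  have hZ : ∑ ζ ∈ (Finset.univ : Finset (Cfg n)).filter (fun ζ => ∃ x, ζ x = false), pi q n ζ =
      Zn q (Icc 0 (n:ℤ)) := by
    rw [← wt_sum_ne, Finset.sum_filter, Finset.sum_filter]
    have h2 := K13_pisum (q := q) n (fun U => if U.Nonempty then 1 else 0)
    simp only [mul_ite, mul_one, mul_zero, SI_nonempty] at h2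
    exact h2
  have h3 := K13_pisum (q := q) n (fun U => if U.Nonempty then F U else 0)
  simp only [mul_ite, mul_zero, SI_nonempty] at h3
  rw [Finset.sum_filter, ← h3, Finset.sum_div]
  refine Finset.sum_congr rfl (fun ξ _ => ?_)
  unfold piC
  rw [hZ]
  by_cases hx : ∃ x, ξ x = false
  · rw [if_pos hx, if_pos hx]
    ring
  · rw [if_neg hx, if_neg hx]
    ring

/-- total variation bound from test functions -/
theorem tv_upper (h0 : 0 < q) (h1 : q < 1) (n : ℕ) (σ : ℤ → Bool) (t : ℝ) (η : Cfg n) (μ : Cfg n → ℝ) (ε : ℝ)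
    (m : FM (Finset ℤ)) (hm : ∀ F : Finset ℤ → ℝ, ∑ ξ : Cfg n, μ ξ * F (SI n ξ) = m.E F)
    (h : ∀ F : Finset ℤ → ℝ, (∀ T, |F T| ≤ 1) →
      |(wG q h0 h1 (!σ (-1)) (!σ ((n : ℤ) + 1)) 0 n).P t F (SI n η) - m.E F| ≤ ε) :
    TV n (prob q n σ t η) μ ≤ ε / 2 := by
  have h2 := h (fun T => (fun ξ => if 0 ≤ prob q n σ t η ξ - μ ξ then (1:ℝ) else -1) (K13_BI n T))
    (fun T => by
      show |if 0 ≤ prob q n σ t η (K13_BI n T) - μ (K13_BI n T) then (1:ℝ) else -1| ≤ 1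
      split_ifs
      · simp
      · simp)
  have h4 := K13_sem_g h0 h1 n σ t (fun ξ => if 0 ≤ prob q n σ t η ξ - μ ξ then (1:ℝ) else -1) η
  rw [← hm, ← h4, K13_lin h0 h1, ← Finset.sum_sub_distrib] at h2
  have e : ∑ ξ : Cfg n, ((if 0 ≤ prob q n σ t η ξ - μ ξ then (1:ℝ) else -1) * prob q n σ t η ξ -
      μ ξ * (fun ξ => if 0 ≤ prob q n σ t η ξ - μ ξ then (1:ℝ) else -1) (K13_BI n (SI n ξ))) =
      ∑ ξ : Cfg n, |prob q n σ t η ξ - μ ξ| := by
    refine Finset.sum_congr rfl (fun ξ _ => ?_)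
    rw [K13_BI_SI]
    show (if 0 ≤ prob q n σ t η ξ - μ ξ then (1:ℝ) else -1) * prob q n σ t η ξ -
      μ ξ * (if 0 ≤ prob q n σ t η ξ - μ ξ then (1:ℝ) else -1) = _
    by_cases hp : 0 ≤ prob q n σ t η ξ - μ ξ
    · rw [if_pos hp, abs_of_nonneg hp]; ring
    · rw [if_neg hp, abs_of_neg (not_le.1 hp)]; ring
  rw [e] at h2
  unfold TV
  have h3 := (le_abs_self _).trans h2
  linarith

/-- test functions are bounded by total variation -/
theorem tv_lower (h0 : 0 < q) (h1 : q < 1) (n : ℕ) (σ : ℤ → Bool) (t : ℝ) (η : Cfg n) (μ : Cfg n → ℝ)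
    (m : FM (Finset ℤ)) (hm : ∀ F : Finset ℤ → ℝ, ∑ ξ : Cfg n, μ ξ * F (SI n ξ) = m.E F)
    (F : Finset ℤ → ℝ) (hF : ∀ T, 0 ≤ F T ∧ F T ≤ 1) :
    (wG q h0 h1 (!σ (-1)) (!σ ((n : ℤ) + 1)) 0 n).P t F (SI n η) - m.E F ≤ TV n (prob q n σ t η) μ := by
  rw [← sem_eq h0 h1, ← hm, K13_lin h0 h1, ← Finset.sum_sub_distrib]
  have hp1 : ∑ ξ : Cfg n, prob q n σ t η ξ = 1 := by
    have h2 := K13_lin h0 h1 n σ t (fun _ => 1) η
    rw [K13_sem_g h0 h1, MG.P_const] at h2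
    simp only [one_mul] at h2
    exact h2.symm
  have hm1 : ∑ ξ : Cfg n, μ ξ = 1 := by
    have h2 := hm (fun _ => 1)
    simp only [mul_one] at h2
    rw [h2]
    unfold FM.E
    simp only [mul_one]
    exact m.hone
  unfold TV
  have h3 : ∑ ξ : Cfg n, (F (SI n ξ) * prob q n σ t η ξ - μ ξ * F (SI n ξ)) ≤
      ∑ ξ : Cfg n, (|prob q n σ t η ξ - μ ξ| + (prob q n σ t η ξ - μ ξ)) / 2 := by
    refine Finset.sum_le_sum (fun ξ _ => ?_)
    obtain ⟨hF0, hF1⟩ := hF (SI n ξ)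
    rcases abs_cases (prob q n σ t η ξ - μ ξ) with ⟨ha, hb⟩ | ⟨ha, hb⟩
    · rw [ha]; nlinarith
    · rw [ha]; nlinarith
  refine h3.trans (le_of_eq ?_)
  rw [← Finset.sum_div, Finset.sum_add_distrib, Finset.sum_sub_distrib, hp1, hm1]
  ring

end Cut
end FA
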