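import Pool.Agent.Helper870.FADefs
import Pool.Agent.Helper870.FAG1
import Pool.Agent.Helper870.FAS1
import Pool.Agent.Helper870.FAS2
import Pool.Agent.Helper870.FAS3
import Pool.Agent.Helper870.FAD2
import Pool.Agent.Helper870.FAS10
import Pool.Agent.Helper870.FAD4
import Pool.Agent.Helper870.FAD5
import Pool.Agent.Helper870.FAD9
import Pool.Agent.Helper870.FAK1r
import Pool.Agent.Helper870.FAD10
import Pool.Agent.Helper870.FAK11
import Pool.Agent.Helper870.FAK12b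
import Pool.Agent.Helper870.FAD11
import Pool.Agent.Helper870.FAK13a

set_option autoImplicit false
set_option linter.unusedSectionVars false

open Finset

noncomputable section

-- USES: G1 S1 S2 S3 D2 S10 D4 D5 D9 K1r D10 K11 K12b D11 K13a
namespace FA
namespace Cut
variable {q : ℝ}

open Classical in
theorem cut_gen (h0 : 0 < q) (h1 : q < 1) (v : ℝ) (hv : 0 < v)
    (hsp1 : ∀ a : ℝ, 0 < a → a < v → ∃ θ0 : ℝ, 0 < θ0 ∧ ∀ θ : ℝ, 0 < θ → θ < θ0 →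
      ∃ (m : ℕ) (V : FAF.Env → ℝ), FAF.Drift q θ (θ * a) m V)
    (hsp2 : ∀ a : ℝ, v < a → ∃ θ0 : ℝ, 0 < θ0 ∧ ∀ θ : ℝ, 0 < θ → θ < θ0 →
      ∃ (m : ℕ) (V : FAF.Env → ℝ), FAF.Drift q (-θ) (-(θ * a)) m V)
    (σ : ℕ → ℤ → Bool) (Ω : ∀ n, Set (Cfg n)) (μ : ∀ n, Cfg n → ℝ)
    (hm : ∀ n, ∀ F : Finset ℤ → ℝ, ∑ ξ : Cfg n, μ n ξ * F (SI n ξ) =
      (wm q h0 h1 (!σ n (-1)) (!σ n ((n : ℤ) + 1)) 0 n (Int.natCast_nonneg n)).E F)
    (hΩ : ∀ n, ∀ η : Cfg n, Okw (!σ n (-1)) (!σ n ((n : ℤ) + 1)) (SI n η) ↔ η ∈ Ω n) :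
    Cutoff (fun n ε => tmix q n (σ n) (Ω n) (μ n) ε) := by
  intro ε hε hε2
  -- the upper bound
  have hU : ∀ η' : ℝ, 0 < η' → ∃ n0 : ℕ, ∀ n : ℕ, n0 ≤ n →
      (1 + η') * (if (!σ n (-1)) = true ∧ (!σ n ((n : ℤ) + 1)) = true then 1 / 2 else 1) * n / v ∈
        {t : ℝ | 0 ≤ t ∧ ∀ η ∈ Ω n, TV n (prob q n (σ n) t η) (μ n) ≤ ε} := by
    intro η' hη'
    obtain ⟨n0, hn0⟩ := upper h0 h1 v hv hsp1 η' ε hη' hε
    refine ⟨n0, fun n hn => ⟨?_, ?_⟩⟩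
    · split_ifs <;> positivity
    · intro η hη
      have h2 := tv_upper h0 h1 n (σ n) ((1 + η') * (if (!σ n (-1)) = true ∧
        (!σ n ((n : ℤ) + 1)) = true then 1 / 2 else 1) * n / v) η (μ n) ε _ (hm n)
        (fun F hF => hn0 n hn _ _ (SI n η) (Finset.filter_subset _ _) ((hΩ n η).mpr hη) F hF)
      linarith
  have hbdd : ∀ n (c : ℝ), BddBelow {t : ℝ | 0 ≤ t ∧ ∀ η ∈ Ω n, TV n (prob q n (σ n) t η) (μ n) ≤ c} :=
    fun n c => ⟨0, fun t ht => ht.1⟩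
  have hsub : ∀ n, {t : ℝ | 0 ≤ t ∧ ∀ η ∈ Ω n, TV n (prob q n (σ n) t η) (μ n) ≤ ε} ⊆
      {t : ℝ | 0 ≤ t ∧ ∀ η ∈ Ω n, TV n (prob q n (σ n) t η) (μ n) ≤ 1 - ε} := by
    intro n t ht
    exact ⟨ht.1, fun η hη => (ht.2 η hη).trans (by linarith)⟩
  have hL : ∀ η' : ℝ, 0 < η' → η' < 1 → ∃ n0 : ℕ, ∀ n : ℕ, n0 ≤ n →
      ∀ t ∈ {t : ℝ | 0 ≤ t ∧ ∀ η ∈ Ω n, TV n (prob q n (σ n) t η) (μ n) ≤ 1 - ε},
      (1 - η') * (if (!σ n (-1)) = true ∧ (!σ n ((n : ℤ) + 1)) = true then 1 / 2 else 1) * n / v ≤ t := by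
    intro η' hη' hη1
    obtain ⟨n0, hn0⟩ := lower h0 h1 v hv hsp2 η' (ε / 2) hη' hη1 (by linarith)
    refine ⟨n0, fun n hn t ht => ?_⟩
    obtain ⟨S, hS, hSok, F, hF, hF2⟩ := hn0 n hn (!σ n (-1)) (!σ n ((n : ℤ) + 1))
    obtain ⟨η, rfl⟩ := SI_surj n S hS
    by_contra hc
    push Not at hc
    have h2 := hF2 t ht.1 hc.le
    have h3 := tv_lower h0 h1 n (σ n) t η (μ n) _ (hm n) F hF
    have h4 := ht.2 η ((hΩ n η).mp hSok)
    linarith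
  rw [Metric.tendsto_atTop]
  intro δ hδ
  set η' : ℝ := min (1 / 2) (δ / 8) with hη'
  have hη0 : 0 < η' := lt_min (by norm_num) (by linarith)
  have hη2 : η' ≤ 1 / 2 := min_le_left _ _
  have hη8 : η' ≤ δ / 8 := min_le_right _ _
  obtain ⟨n1, hn1⟩ := hU η' hη0
  obtain ⟨n2, hn2⟩ := hL η' hη0 (by linarith)
  refine ⟨max (max n1 n2) 1, fun n hn => ?_⟩
  have hnn1 : n1 ≤ n := (le_max_left _ _).trans ((le_max_left _ _).trans hn)
  have hnn2 : n2 ≤ n := (le_max_right _ _).trans ((le_max_left _ _).trans hn)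
  have hn1' : 1 ≤ n := (le_max_right _ _).trans hn
  have hU1 := hn1 n hnn1
  have hL1 := hn2 n hnn2
  set d : ℝ := if (!σ n (-1)) = true ∧ (!σ n ((n : ℤ) + 1)) = true then 1 / 2 else 1 with hd
  have hdpos : 0 < d := by rw [hd]; split_ifs <;> norm_num
  have hnpos : (0 : ℝ) < n := by exact_mod_cast hn1'
  have hT1 : tmix q n (σ n) (Ω n) (μ n) ε ≤ (1 + η') * d * n / v := csInf_le (hbdd n ε) hU1
  have hT2 : (1 - η') * d * n / v ≤ tmix q n (σ n) (Ω n) (μ n) (1 - ε) :=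
    le_csInf ⟨_, hsub n hU1⟩ hL1
  have hT3 : tmix q n (σ n) (Ω n) (μ n) (1 - ε) ≤ tmix q n (σ n) (Ω n) (μ n) ε :=
    csInf_le_csInf (hbdd n (1 - ε)) ⟨_, hU1⟩ (hsub n)
  have hDpos : 0 < d * n / v := by positivity
  have e1 : (1 + η') * d * n / v = (1 + η') * (d * n / v) := by ring
  have e2 : (1 - η') * d * n / v = (1 - η') * (d * n / v) := by ring
  rw [e1] at hT1
  rw [e2] at hT2
  set D := d * n / v with hD
  set A := tmix q n (σ n) (Ω n) (μ n) ε with hA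
  set B := tmix q n (σ n) (Ω n) (μ n) (1 - ε) with hB
  have hBpos : 0 < B := lt_of_lt_of_le (mul_pos (by linarith) hDpos) hT2
  show dist (A / B) 1 < δ
  rw [Real.dist_eq, abs_of_nonneg]
  · rw [sub_lt_iff_lt_add, div_lt_iff₀ hBpos]
    nlinarith
  · rw [sub_nonneg, le_div_iff₀ hBpos]
    linarith

/-- cutoff, given sharp exponential control of the front -/
theorem cutoff_main (h0 : 0 < q) (h1 : q < 1) (v : ℝ) (hv : 0 < v)
    (hsp1 : ∀ a : ℝ, 0 < a → a < v → ∃ θ0 : ℝ, 0 < θ0 ∧ ∀ θ : ℝ, 0 < θ → θ < θ0 →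
      ∃ (m : ℕ) (V : FAF.Env → ℝ), FAF.Drift q θ (θ * a) m V)
    (hsp2 : ∀ a : ℝ, v < a → ∃ θ0 : ℝ, 0 < θ0 ∧ ∀ θ : ℝ, 0 < θ → θ < θ0 →
      ∃ (m : ℕ) (V : FAF.Env → ℝ), FAF.Drift q (-θ) (-(θ * a)) m V) :
    (∀ σ : ℕ → ℤ → Bool, (∀ n, σ n (-1) = false ∨ σ n ((n : ℤ) + 1) = false) →
      Cutoff (fun n ε => tmix q n (σ n) Set.univ (pi q n) ε)) ∧
    Cutoff (fun n ε => tmix q n (fun _ => true) {η | ∃ x, η x = false} (piC q n) ε) := by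
  constructor
  · intro σ hσ
    have hh : ∀ n, ((!σ n (-1)) || (!σ n ((n : ℤ) + 1))) = true := by
      intro n
      rcases hσ n with h | h <;> simp [h]
    exact cut_gen h0 h1 v hv hsp1 hsp2 σ (fun n => Set.univ) (fun n => pi q n)
      (fun n F => mean_a h0 h1 n _ _ (hh n) F)
      (fun n η => ⟨fun _ => trivial, fun _ => Or.inl (hh n)⟩)
  · exact cut_gen h0 h1 v hv hsp1 hsp2 (fun _ _ => true) (fun n => {η | ∃ x, η x = false})
      (fun n => piC q n) (fun n F => mean_b h0 h1 n F)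
      (fun n η => by
        constructor
        · rintro (h | h)
          · exact absurd h (by simp)
          · exact (SI_nonempty n η).mp h
        · intro h
          exact Or.inr ((SI_nonempty n η).mpr h))

end Cut
end FA
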