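import Pool.Agent.Helper870.FADefs
import Pool.Agent.Helper870.FAS10
import Pool.Agent.Helper870.FAG1
import Pool.Agent.Helper870.FAD2
import Pool.Agent.Helper870.FAD4
import Pool.Agent.Helper870.FAD7

set_option autoImplicit false
set_option linter.unusedSectionVars false

open Finset

noncomputable section

-- USES: S10 G1 D2 D4 D7
namespace FA

/-- discrete Gronwall with a delayed start -/
theorem gron (J J1 : ℕ) (hJ1 : 0 < J1) (G A e : ℕ → ℝ) (ρ ε1 : ℝ) (hρ : 0 ≤ ρ) (hε : 0 ≤ ε1)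
    (hG : ∀ j, 0 ≤ G j) (hA : ∀ j, 0 ≤ A j) (hG0 : G 0 ≤ 0)
    (hstep : ∀ j < J, G (j + 1) ≤ G j + A j + ρ * e j)
    (he1 : ∀ j < J1, e j ≤ ε1) (he2 : ∀ j, J1 ≤ j → j < J → ρ * e j ≤ G j / J1) :
    G J ≤ Real.exp (J / J1) * (∑ j ∈ Finset.range J, A j + ρ * J1 * ε1) := by
  have hJ1' : (0 : ℝ) < J1 := by exact_mod_cast hJ1
  set c : ℝ := 1 + 1 / J1 with hc
  have hc1 : 1 ≤ c := by
    rw [hc]
    have : (0 : ℝ) ≤ 1 / J1 := by positivity
    linarith
  have hc0 : 0 < c := by linarith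
  have key : ∀ j, j ≤ J → G j ≤ c ^ j * (∑ i ∈ Finset.range j, A i + ρ * ((min j J1 : ℕ) : ℝ) * ε1) := by
    intro j
    induction j with
    | zero =>
      intro _
      simpa using hG0
    | succ j ih =>
      intro hj
      have ih' := ih (by omega)
      have hst := hstep j (by omega)
      have hcj : 1 ≤ c ^ (j + 1) := one_le_pow₀ hc1
      have hcjj : c ^ j ≤ c ^ (j + 1) := pow_le_pow_right₀ hc1 (by omega)
      have hS : 0 ≤ ∑ i ∈ Finset.range j, A i + ρ * ((min j J1 : ℕ) : ℝ) * ε1 := by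
        have h1 : 0 ≤ ∑ i ∈ Finset.range j, A i := Finset.sum_nonneg fun i _ => hA i
        have h2 : 0 ≤ ρ * ((min j J1 : ℕ) : ℝ) * ε1 := by positivity
        linarith
      rw [Finset.sum_range_succ]
      rcases Nat.lt_or_ge j J1 with hlt | hge
      · have m1 : min j J1 = j := by omega
        have m2 : min (j + 1) J1 = j + 1 := by omega
        rw [m1] at ih' hS
        rw [m2]
        have h1 := he1 j hlt
        have h2 : ρ * e j ≤ ρ * ε1 := mul_le_mul_of_nonneg_left h1 hρ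
        have h3 : c ^ j * (∑ i ∈ Finset.range j, A i + ρ * (j : ℝ) * ε1) ≤
            c ^ (j + 1) * (∑ i ∈ Finset.range j, A i + ρ * (j : ℝ) * ε1) :=
          mul_le_mul_of_nonneg_right hcjj hS
        have h4 : A j + ρ * ε1 ≤ c ^ (j + 1) * (A j + ρ * ε1) := by
          have : 0 ≤ A j + ρ * ε1 := by
            have := hA j
            positivity
          nlinarith
        push_cast
        calc G (j + 1) ≤ c ^ (j + 1) * (∑ i ∈ Finset.range j, A i + ρ * (j : ℝ) * ε1) +
              c ^ (j + 1) * (A j + ρ * ε1) := by linarith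
          _ = _ := by ring
      · have m1 : min j J1 = J1 := by omega
        have m2 : min (j + 1) J1 = J1 := by omega
        rw [m1] at ih' hS
        rw [m2]
        have h1 := he2 j hge (by omega)
        have h2 : G j + G j / J1 = c * G j := by rw [hc]; ring
        have h3 : c * G j ≤ c * (c ^ j * (∑ i ∈ Finset.range j, A i + ρ * (J1 : ℝ) * ε1)) :=
          mul_le_mul_of_nonneg_left ih' hc0.le
        have h4 : A j ≤ c ^ (j + 1) * A j := by
          have := hA j
          nlinarith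
        calc G (j + 1) ≤ c * (c ^ j * (∑ i ∈ Finset.range j, A i + ρ * (J1 : ℝ) * ε1)) +
              c ^ (j + 1) * A j := by linarith
          _ = _ := by ring
  have hfin := key J le_rfl
  have hexp : c ^ J ≤ Real.exp (J / J1) := by
    have h1 : c ≤ Real.exp (1 / J1) := by
      have := Real.add_one_le_exp (1 / (J1 : ℝ))
      linarith
    calc c ^ J ≤ (Real.exp (1 / J1)) ^ J := pow_le_pow_left₀ hc0.le h1 J
      _ = Real.exp (J / J1) := by
          rw [← Real.exp_nat_mul]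
          congr 1
          ring
  have hmin : ((min J J1 : ℕ) : ℝ) ≤ J1 := by exact_mod_cast min_le_right J J1
  have hsum : 0 ≤ ∑ i ∈ Finset.range J, A i := Finset.sum_nonneg fun i _ => hA i
  have h5 : ρ * ((min J J1 : ℕ) : ℝ) * ε1 ≤ ρ * J1 * ε1 :=
    mul_le_mul_of_nonneg_right (mul_le_mul_of_nonneg_left hmin hρ) hε
  have h6 : 0 ≤ ∑ i ∈ Finset.range J, A i + ρ * J1 * ε1 := by positivity
  calc G J ≤ c ^ J * (∑ i ∈ Finset.range J, A i + ρ * ((min J J1 : ℕ) : ℝ) * ε1) := hfin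
    _ ≤ c ^ J * (∑ i ∈ Finset.range J, A i + ρ * J1 * ε1) := by
        apply mul_le_mul_of_nonneg_left _ (by positivity)
        linarith
    _ ≤ _ := mul_le_mul_of_nonneg_right hexp h6

open Classical in
theorem sel_pt (o : ℤ) (ℓ n mg a : ℕ) (hn : a + ℓ + mg ≤ n) (S : Finset ℤ) (h : ℝ) (hh : 0 ≤ h) :
    ∑ k ∈ Finset.Ico a (a + ℓ), (if NG o ℓ mg k S then h else 0) ≤
      2 * mg * ∑ i ∈ Finset.range (n - 1), (if Chg o ℓ i S then h else 0) := by
  have h1 : ∀ k ∈ Finset.Ico a (a + ℓ), (if NG o ℓ mg k S then h else 0) ≤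
      ∑ i ∈ Finset.range (n - 1), (if (k ≤ i + mg ∧ i + 1 < k + mg) then
        (if Chg o ℓ i S then h else 0) else 0) := by
    intro k hk
    rw [Finset.mem_Ico] at hk
    by_cases hNG : NG o ℓ mg k S
    · rw [if_pos hNG]
      obtain ⟨i, hi1, hi2, hi3⟩ := hNG
      have hmem : i ∈ Finset.range (n - 1) := by
        rw [Finset.mem_range]
        omega
      have := Finset.single_le_sum (f := fun i => (if (k ≤ i + mg ∧ i + 1 < k + mg) then
        (if Chg o ℓ i S then h else 0) else 0)) (fun j _ => by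
          split_ifs <;> first | exact hh | exact le_refl _) hmem
      refine le_trans ?_ this
      rw [if_pos ⟨hi1, hi2⟩, if_pos hi3]
    · rw [if_neg hNG]
      apply Finset.sum_nonneg
      intro j _
      split_ifs <;> first | exact hh | exact le_refl _
  refine (Finset.sum_le_sum h1).trans ?_
  rw [Finset.sum_comm, Finset.mul_sum]
  apply Finset.sum_le_sum
  intro i _
  rw [← Finset.sum_filter, Finset.sum_const, nsmul_eq_mul]
  have hcard : ((Finset.Ico a (a + ℓ)).filter (fun k => k ≤ i + mg ∧ i + 1 < k + mg)).card ≤ 2 * mg := by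
    have hsub : (Finset.Ico a (a + ℓ)).filter (fun k => k ≤ i + mg ∧ i + 1 < k + mg) ⊆
        Finset.Ico (i + 2 - mg) (i + mg + 1) := by
      intro k hk
      rw [Finset.mem_filter] at hk
      rw [Finset.mem_Ico]
      omega
    have := Finset.card_le_card hsub
    rw [Nat.card_Ico] at this
    omega
  have hnn : 0 ≤ (if Chg o ℓ i S then h else 0) := by
    split_ifs <;> first | exact hh | exact le_refl _
  apply mul_le_mul_of_nonneg_right _ hnn
  exact_mod_cast hcard

open Classical in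
theorem sel_one (m : FM (Finset ℤ)) (o : ℤ) (ℓ n mg J a : ℕ) (hl : 1 ≤ ℓ) (hn : a + ℓ + mg ≤ n)
    (H : ℕ → Finset ℤ → ℝ) (hH : ∀ j S, 0 ≤ H j S) :
    ∃ k : ℕ, a ≤ k ∧ k < a + ℓ ∧
      ∑ j ∈ Finset.range J, m.E (fun S => if NG o ℓ mg k S then H j S else 0) ≤
        2 * mg / ℓ * ∑ j ∈ Finset.range J, ∑ i ∈ Finset.range (n - 1),
          m.E (fun S => if Chg o ℓ i S then H j S else 0) := by
  set B : ℝ := ∑ j ∈ Finset.range J, ∑ i ∈ Finset.range (n - 1),
          m.E (fun S => if Chg o ℓ i S then H j S else 0) with hB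
  have hl0 : (0 : ℝ) < ℓ := by exact_mod_cast hl
  have hne : (Finset.Ico a (a + ℓ)).Nonempty := by
    rw [Finset.nonempty_Ico]
    omega
  have hsum : ∑ k ∈ Finset.Ico a (a + ℓ), ∑ j ∈ Finset.range J,
      m.E (fun S => if NG o ℓ mg k S then H j S else 0) ≤
      ∑ _k ∈ Finset.Ico a (a + ℓ), 2 * mg / ℓ * B := by
    rw [Finset.sum_const, Nat.card_Ico, nsmul_eq_mul, Nat.add_sub_cancel_left]
    have e1 : (ℓ : ℝ) * (2 * mg / ℓ * B) = 2 * mg * B := by field_simp
    rw [e1, Finset.sum_comm, hB, Finset.mul_sum]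
    apply Finset.sum_le_sum
    intro j _
    unfold FM.E
    rw [Finset.sum_comm, Finset.sum_comm (s := Finset.range (n - 1)), Finset.mul_sum]
    apply Finset.sum_le_sum
    intro x hx
    rw [← Finset.mul_sum, ← Finset.mul_sum]
    have := mul_le_mul_of_nonneg_left (sel_pt o ℓ n mg a hn x (H j x) (hH j x)) (m.hw x hx).le
    calc _ ≤ _ := this
      _ = _ := by ring
  obtain ⟨k, hk, hle⟩ := Finset.exists_le_of_sum_le hne hsum
  rw [Finset.mem_Ico] at hk
  exact ⟨k, hk.1, hk.2, hle⟩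

open Classical in
/-- choice of the window ends by averaging -/
theorem sel (m : FM (Finset ℤ)) (o : ℤ) (ℓ n Kn mg J : ℕ) (hl : 1 ≤ ℓ) (hK : 4 ≤ Kn) (hn : n = 2 * Kn * ℓ)
    (hmg : 1 ≤ mg) (hmg2 : mg ≤ ℓ) (H : ℕ → Finset ℤ → ℝ) (hH : ∀ j S, 0 ≤ H j S) :
    ∃ k1 k2 : ℕ, Kn * ℓ - 2 * ℓ ≤ k1 ∧ k1 < Kn * ℓ - ℓ ∧ Kn * ℓ + ℓ ≤ k2 ∧ k2 < Kn * ℓ + 2 * ℓ ∧
      ∑ j ∈ Finset.range J, m.E (fun S => if NG o ℓ mg k1 S ∨ NG o ℓ mg k2 S then H j S else 0) ≤
        4 * mg / ℓ * ∑ j ∈ Finset.range J, ∑ i ∈ Finset.range (n - 1),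
          m.E (fun S => if Chg o ℓ i S then H j S else 0) := by
  have hKl : 4 * ℓ ≤ Kn * ℓ := Nat.mul_le_mul_right ℓ hK
  have hn' : n = Kn * ℓ + Kn * ℓ := by rw [hn]; ring
  obtain ⟨k1, a1, a2, a3⟩ := sel_one m o ℓ n mg J (Kn * ℓ - 2 * ℓ) hl (by omega) H hH
  obtain ⟨k2, b1, b2, b3⟩ := sel_one m o ℓ n mg J (Kn * ℓ + ℓ) hl (by omega) H hH
  refine ⟨k1, k2, a1, by omega, b1, by omega, ?_⟩
  have hsplit : ∑ j ∈ Finset.range J, m.E (fun S => if NG o ℓ mg k1 S ∨ NG o ℓ mg k2 S then H j S else 0) ≤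
      ∑ j ∈ Finset.range J, m.E (fun S => if NG o ℓ mg k1 S then H j S else 0) +
      ∑ j ∈ Finset.range J, m.E (fun S => if NG o ℓ mg k2 S then H j S else 0) := by
    rw [← Finset.sum_add_distrib]
    apply Finset.sum_le_sum
    intro j _
    unfold FM.E
    rw [← Finset.sum_add_distrib]
    apply Finset.sum_le_sum
    intro x hx
    rw [← mul_add]
    apply mul_le_mul_of_nonneg_left _ (m.hw x hx).le
    have := hH j x
    by_cases c1 : NG o ℓ mg k1 x
    · by_cases c2 : NG o ℓ mg k2 x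
      · simp only [c1, c2, or_self, if_true]
        linarith
      · simp only [c1, c2, true_or, if_true, if_false]
        linarith
    · by_cases c2 : NG o ℓ mg k2 x
      · simp only [c1, c2, or_true, if_true, if_false]
        linarith
      · simp only [c1, c2, or_self, if_false]
        linarith
  refine hsplit.trans ((add_le_add a3 b3).trans (le_of_eq ?_))
  ring

end FA
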