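import Pool.Agent.Helper870.FADefs
import Pool.Agent.Helper870.FAG1
import Pool.Agent.Helper870.FAS9
import Pool.Agent.Helper870.FAD2
import Pool.Agent.Helper870.FAS10
import Pool.Agent.Helper870.FAD4
import Pool.Agent.Helper870.FALB
import Pool.Agent.Helper870.FAD5
import Pool.Agent.Helper870.FAD9
import Pool.Agent.Helper870.FAK5

set_option autoImplicit false
set_option linter.unusedSectionVars false

open Finset

noncomputable section

-- USES: G1 S9 D2 S10 D4 LB D5 D9 K5
namespace FA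
variable {q : ℝ}

theorem u352_wt_lb (h0 : 0 < q) (h1 : q < 1) (A U : Finset ℤ) :
    (min q (1 - q)) ^ A.card ≤ wt q A U := by
  have hν : 0 < min q (1 - q) := lt_min h0 (by linarith)
  have hr : 0 < 1 - q := by linarith
  unfold wt
  have hc : A.card = (A ∩ U).card + (A \ U).card :=
    (Finset.card_inter_add_card_sdiff A U).symm
  conv_lhs => rw [hc, pow_add]
  exact mul_le_mul (pow_le_pow_left₀ hν.le (min_le_left _ _) _)
    (pow_le_pow_left₀ hν.le (min_le_right _ _) _) (by positivity) (by positivity)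

theorem u352_split (q : ℝ) {A B : Finset ℤ} (hd : Disjoint A B) (F : Finset ℤ → ℝ) :
    EA q (A ∪ B) F = ∑ w ∈ A.powerset, wt q A w * EA q B (fun y => F (w ∪ y)) := by
  rw [EA_eq_av, ← av_av q hd]
  show ∑ U ∈ A.powerset, wt q A U * av q B F ((∅ \ A) ∪ U) = _
  refine Finset.sum_congr rfl fun U hU => ?_
  rw [Finset.mem_powerset] at hU
  congr 1
  unfold av EA
  refine Finset.sum_congr rfl fun y _ => ?_
  have : ((∅ \ A) ∪ U) \ B = U := by
    rw [Finset.empty_sdiff, Finset.empty_union]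
    exact Finset.sdiff_eq_self_of_disjoint (Finset.disjoint_of_subset_left hU hd)
  rw [this]

theorem u352_T (q : ℝ) {A B : Finset ℤ} (hd : Disjoint A B) (G' G : Finset ℤ → ℝ)
    (hG : ∀ S : Finset ℤ, (S ∩ A).Nonempty → G' S = G S)
    (hG0 : ∀ S : Finset ℤ, ¬ (S ∩ A).Nonempty → G' S = 0) :
    EA q (A ∪ B) G' = ∑ w ∈ A.powerset.filter (fun w => w.Nonempty), wt q A w *
      EA q B (fun y => G (w ∪ y)) := by
  rw [u352_split q hd, Finset.sum_filter]
  refine Finset.sum_congr rfl fun w hw => ?_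
  rw [Finset.mem_powerset] at hw
  by_cases hne : w.Nonempty
  · rw [if_pos hne]
    congr 1
    unfold EA
    refine Finset.sum_congr rfl fun y _ => ?_
    congr 1
    apply hG
    obtain ⟨x, hx⟩ := hne
    exact ⟨x, Finset.mem_inter.2 ⟨Finset.mem_union_left _ hx, hw hx⟩⟩
  · rw [if_neg hne]
    rw [Finset.not_nonempty_iff_eq_empty] at hne
    subst hne
    have : EA q B (fun y => G' (∅ ∪ y)) = 0 := by
      unfold EA
      apply Finset.sum_eq_zero
      intro y hy
      rw [Finset.mem_powerset] at hy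
      have h0 : G' (∅ ∪ y) = 0 := by
        apply hG0
        rintro ⟨x, hx⟩
        rw [Finset.mem_inter, Finset.empty_union] at hx
        exact (Finset.disjoint_left.1 hd hx.2) (hy hx.1)
      simp only [h0, mul_zero]
    rw [this, mul_zero]

theorem u352_log1 {s t : ℝ} (ht : 0 < t) (hst : t ≤ s) :
    2 * (s - t) ≤ (Real.log s - Real.log t) * (s + t) := by
  have hs : 0 < s := lt_of_lt_of_le ht hst
  have h1 := Real.le_log_one_add_of_nonneg (x := s / t - 1) (by
    rw [sub_nonneg, le_div_iff₀ ht, one_mul]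
    exact hst)
  have h2 : 1 + (s / t - 1) = s / t := by ring
  rw [h2, Real.log_div hs.ne' ht.ne'] at h1
  have h3 : 2 * (s / t - 1) / (s / t - 1 + 2) = 2 * (s - t) / (s + t) := by
    have : s + t ≠ 0 := by positivity
    have h4 : s / t - 1 + 2 = (s + t) / t := by
      field_simp
      ring
    rw [h4]
    field_simp
  rw [h3, div_le_iff₀ (by positivity)] at h1
  exact h1

theorem u352_log {a b : ℝ} (ha : 0 < a) (hb : 0 < b) :
    4 * (Real.sqrt a - Real.sqrt b) ^ 2 ≤ (Real.log a - Real.log b) * (a - b) := by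
  wlog hab : b ≤ a generalizing a b
  · have := this hb ha (le_of_not_ge hab)
    nlinarith
  · have hs : 0 < Real.sqrt a := Real.sqrt_pos.2 ha
    have ht : 0 < Real.sqrt b := Real.sqrt_pos.2 hb
    have hst : Real.sqrt b ≤ Real.sqrt a := Real.sqrt_le_sqrt hab
    have h1 := u352_log1 ht hst
    have ha2 : Real.sqrt a * Real.sqrt a = a := Real.mul_self_sqrt ha.le
    have hb2 : Real.sqrt b * Real.sqrt b = b := Real.mul_self_sqrt hb.le
    have hla : Real.log a = 2 * Real.log (Real.sqrt a) := by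
      rw [Real.log_sqrt ha.le]
      ring
    have hlb : Real.log b = 2 * Real.log (Real.sqrt b) := by
      rw [Real.log_sqrt hb.le]
      ring
    have h2 : a - b = (Real.sqrt a - Real.sqrt b) * (Real.sqrt a + Real.sqrt b) := by
      nlinarith
    rw [hla, hlb, h2]
    have h3 : 0 ≤ Real.sqrt a - Real.sqrt b := by linarith
    have h4 := mul_le_mul_of_nonneg_left h1 h3
    nlinarith

theorem u352_tan {x μ : ℝ} (hx : 0 < x) (hμ : 0 < μ) :
    μ * Real.log μ + (Real.log μ + 1) * (x - μ) ≤ x * Real.log x := by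
  have h1 := Real.log_le_sub_one_of_pos (div_pos hμ hx)
  rw [Real.log_div hμ.ne' hx.ne'] at h1
  have h2 := mul_le_mul_of_nonneg_left h1 hx.le
  have h3 : x * (μ / x - 1) = μ - x := by
    field_simp
  rw [h3] at h2
  nlinarith

theorem u352_EA_nonneg (h0 : 0 < q) (h1 : q < 1) (A : Finset ℤ) (F : Finset ℤ → ℝ)
    (hF : ∀ S, 0 ≤ F S) : 0 ≤ EA q A F := by
  unfold EA
  exact Finset.sum_nonneg fun U _ => mul_nonneg (wt_nonneg h0.le h1.le A U) (hF U)

theorem u352_EA_pos (h0 : 0 < q) (h1 : q < 1) (A : Finset ℤ) (F : Finset ℤ → ℝ)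
    (hF : ∀ S, 0 < F S) : 0 < EA q A F := by
  unfold EA
  exact Finset.sum_pos (fun U _ => mul_pos (wt_pos h0 h1 A U) (hF U))
    ⟨∅, Finset.empty_mem_powerset A⟩

/-- the crude entropy bound on one block -/
theorem u352_crude (h0 : 0 < q) (h1 : q < 1) (B : Finset ℤ) (f : Finset ℤ → ℝ)
    (hf : ∀ S, 0 < f S) :
    EA q B (fun y => f y * Real.log (f y)) - EA q B f * Real.log (EA q B f) ≤
      B.card * Real.log (1 / min q (1 - q)) * EA q B f := by
  have hν : 0 < min q (1 - q) := lt_min h0 (by linarith)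
  have hY := u352_EA_pos h0 h1 B f hf
  obtain ⟨Y, hYd⟩ : ∃ Y, Y = EA q B f := ⟨_, rfl⟩
  rw [← hYd] at hY ⊢
  have h2 : EA q B (fun y => f y * Real.log (f y)) ≤
      EA q B (fun y => f y) * (Real.log Y + B.card * Real.log (1 / min q (1 - q))) := by
    unfold EA
    rw [Finset.sum_mul]
    apply Finset.sum_le_sum
    intro y hy
    have h3 : (min q (1 - q)) ^ B.card * f y ≤ Y := by
      have h4 : wt q B y * f y ≤ Y := by
        rw [hYd]
        unfold EA
        exact Finset.single_le_sum (f := fun U => wt q B U * f U)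
          (fun U _ => mul_nonneg (wt_nonneg h0.le h1.le B U) (hf U).le) hy
      exact (mul_le_mul_of_nonneg_right (u352_wt_lb h0 h1 B y) (hf y).le).trans h4
    have h5 : Real.log (f y) ≤ Real.log Y + B.card * Real.log (1 / min q (1 - q)) := by
      have h6 := Real.log_le_log (mul_pos (pow_pos hν _) (hf y)) h3
      rw [Real.log_mul (pow_pos hν _).ne' (hf y).ne', Real.log_pow] at h6
      rw [one_div, Real.log_inv]
      linarith
    have h7 : 0 ≤ wt q B y * f y := mul_nonneg (wt_nonneg h0.le h1.le B y) (hf y).le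
    have h8 := mul_le_mul_of_nonneg_left h5 h7
    linarith
  have h9 : EA q B (fun y => f y) = Y := hYd.symm
  rw [h9] at h2
  linarith

/-- entropy of the second block of length `b` given the first one, up to the event that the first is healthy -/
theorem blk2_ent (h0 : 0 < q) (h1 : q < 1) : ∃ K : ℝ, 0 < K ∧ ∀ (b : ℕ), 1 ≤ b → ∀ f : Finset ℤ → ℝ,
    (∀ S, 0 < f S) →
      EA q (Icc 0 ((b : ℤ) - 1)) (fun w =>
        EA q (Icc (b : ℤ) (2 * b - 1)) (fun y => f (w ∪ y) * Real.log (f (w ∪ y))) -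
        EA q (Icc (b : ℤ) (2 * b - 1)) (fun y => f (w ∪ y)) *
          Real.log (EA q (Icc (b : ℤ) (2 * b - 1)) (fun y => f (w ∪ y)))) ≤
      K * b * EA q (Icc 0 (2 * (b : ℤ) - 1)) (fun S => ∑ x ∈ Icc 0 (2 * (b : ℤ) - 1),
        cst (Icc 0 (2 * (b : ℤ) - 1)) x S * (q * (1 - q) * ((f (insert x S) - f (S.erase x)) *
          (Real.log (f (insert x S)) - Real.log (f (S.erase x)))))) +
      K * b * ((1 - q) ^ b * EA q (Icc (b : ℤ) (2 * b - 1)) f) := by
  classical
  obtain ⟨C, hC0, hgap⟩ := gap_pre h0 h1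
  have hr : 0 < 1 - q := by linarith
  have hν : 0 < min q (1 - q) := lt_min h0 hr
  have hν1 : min q (1 - q) < 1 := lt_of_le_of_lt (min_le_left _ _) h1
  obtain ⟨ℓ, hℓ⟩ : ∃ ℓ, ℓ = Real.log (1 / min q (1 - q)) := ⟨_, rfl⟩
  have hℓ0 : 0 < ℓ := by
    rw [hℓ]
    exact Real.log_pos (by rw [lt_div_iff₀ hν, one_mul]; exact hν1)
  refine ⟨2 * (5 + 8 * ℓ) * C + ℓ, by positivity, ?_⟩
  intro b hb f hf
  have hb1 : (1 : ℝ) ≤ b := by exact_mod_cast hb
  obtain ⟨A, hA⟩ : ∃ A, A = Icc (0 : ℤ) ((b : ℤ) - 1) := ⟨_, rfl⟩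
  obtain ⟨B, hB⟩ : ∃ B, B = Icc (b : ℤ) (2 * b - 1) := ⟨_, rfl⟩
  obtain ⟨D, hD⟩ : ∃ D, D = Icc (0 : ℤ) (2 * (b : ℤ) - 1) := ⟨_, rfl⟩
  have hAB : Disjoint A B := by
    rw [hA, hB, Finset.disjoint_left]
    intro x hx hy
    rw [Finset.mem_Icc] at hx hy
    omega
  have hDAB : D = A ∪ B := by
    rw [hA, hB, hD]
    ext x
    simp only [Finset.mem_union, Finset.mem_Icc]
    omega
  have hBcard : B.card = b := by
    rw [hB, Int.card_Icc]
    omega
  have hAcard : A.card = b := by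
    rw [hA, Int.card_Icc]
    omega
  have hDcard : D.card = 2 * b := by
    rw [hD, Int.card_Icc]
    omega
  have hAne : A.Nonempty := by
    rw [← Finset.card_pos, hAcard]
    omega
  have hC : ∃ S ∈ (pfm q h0 h1 (Icc 0 (2 * (b : ℤ) - 1))).s,
      (S ∩ Icc 0 ((b : ℤ) - 1)).Nonempty := by
    refine ⟨Icc 0 (2 * (b : ℤ) - 1), Finset.mem_powerset.2 (Finset.Subset.refl _), 0, ?_⟩
    rw [Finset.mem_inter, Finset.mem_Icc, Finset.mem_Icc]
    omega
  have hg := hgap 0 ((b : ℤ) - 1) (2 * (b : ℤ) - 1) (by omega) (by omega) hC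
    (fun S => Real.sqrt (f S))
  rw [← hA, ← hD] at hC
  simp only [← hA, ← hB, ← hD] at hg ⊢
  obtain ⟨m, hm⟩ : ∃ m, m = (pfm q h0 h1 D).cond (fun S => (S ∩ A).Nonempty) hC := ⟨_, rfl⟩
  rw [← hm] at hg
  obtain ⟨T, hT⟩ : ∃ T : (Finset ℤ → ℝ) → ℝ, ∀ G, T G =
    ∑ w ∈ A.powerset.filter (fun w => w.Nonempty), wt q A w * EA q B (fun y => G (w ∪ y)) :=
    ⟨_, fun _ => rfl⟩
  have hTE : ∀ G' G : Finset ℤ → ℝ, (∀ S : Finset ℤ, (S ∩ A).Nonempty → G' S = G S) →
      (∀ S : Finset ℤ, ¬ (S ∩ A).Nonempty → G' S = 0) → EA q D G' = T G := by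
    intro G' G h2 h3
    rw [hDAB, hT]
    exact u352_T q hAB G' G h2 h3
  obtain ⟨Z, hZ⟩ : ∃ Z, Z = T (fun _ => 1) := ⟨_, rfl⟩
  have hEA1 : ∀ (A : Finset ℤ), EA q A (fun _ => (1 : ℝ)) = 1 := by
    intro A
    unfold EA
    simp only [mul_one]
    exact wt_sum q A
  have hZZ : Z = ∑ w ∈ A.powerset.filter (fun w => w.Nonempty), wt q A w := by
    rw [hZ, hT]
    refine Finset.sum_congr rfl fun w _ => ?_
    rw [hEA1, mul_one]
  have hZpos : 0 < Z := by
    rw [hZZ, wt_sum_ne]
    exact Zn_pos' h0 h1 A hAne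
  have hZ1 : Z ≤ 1 := by
    rw [hZZ, ← wt_sum q A]
    exact Finset.sum_le_sum_of_subset_of_nonneg (Finset.filter_subset _ _)
      (fun w _ _ => wt_nonneg h0.le h1.le A w)
  have hmE : ∀ G : Finset ℤ → ℝ, Z * m.E G = T G := by
    intro G
    rw [hm, FM.cond_E, pfm_E, pfm_E, hTE _ G, hTE _ (fun _ => 1), ← hZ]
    · field_simp
    · intro S hS
      exact if_pos hS
    · intro S hS
      exact if_neg hS
    · intro S hS
      exact if_pos hS
    · intro S hS
      exact if_neg hS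
  -- the quantities `Y w`, `L w`
  obtain ⟨Y, hY⟩ : ∃ Y : Finset ℤ → ℝ, ∀ w, Y w = EA q B (fun y => f (w ∪ y)) := ⟨_, fun _ => rfl⟩
  obtain ⟨L, hL⟩ : ∃ L : Finset ℤ → ℝ, ∀ w, L w =
    EA q B (fun y => f (w ∪ y) * Real.log (f (w ∪ y))) := ⟨_, fun _ => rfl⟩
  simp only [← hY, ← hL]
  have hYpos : ∀ w, 0 < Y w := by
    intro w
    rw [hY]
    exact u352_EA_pos h0 h1 B _ fun S => hf _
  -- splitting off the empty configuration
  have hsplit : EA q A (fun w => L w - Y w * Real.log (Y w)) =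
      (1 - q) ^ b * (L ∅ - Y ∅ * Real.log (Y ∅)) +
      ∑ w ∈ A.powerset.filter (fun w => w.Nonempty), wt q A w *
        (L w - Y w * Real.log (Y w)) := by
    unfold EA
    rw [← Finset.sum_filter_add_sum_filter_not A.powerset (fun U => U.Nonempty), add_comm]
    have h2 : A.powerset.filter (fun U => ¬ U.Nonempty) = {∅} := by
      ext U
      simp only [Finset.mem_filter, Finset.mem_powerset, Finset.not_nonempty_iff_eq_empty,
        Finset.mem_singleton]
      constructor
      · exact fun h => h.2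
      · intro h; subst h; exact ⟨Finset.empty_subset _, rfl⟩
    rw [h2, Finset.sum_singleton]
    have h3 : wt q A ∅ = (1 - q) ^ b := by simp [wt, hAcard]
    rw [h3]
  have hYe : Y ∅ = EA q B f := by
    rw [hY]
    simp only [Finset.empty_union]
  have hLe : L ∅ = EA q B (fun y => f y * Real.log (f y)) := by
    rw [hL]
    simp only [Finset.empty_union]
  have hempty : L ∅ - Y ∅ * Real.log (Y ∅) ≤ b * ℓ * EA q B f := by
    have := u352_crude h0 h1 B f hf
    rw [hBcard, ← hℓ] at this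
    rw [hYe, hLe]
    exact this
  -- Jensen for the nonempty part
  have hTf : T f = ∑ w ∈ A.powerset.filter (fun w => w.Nonempty), wt q A w * Y w := by
    rw [hT]
    exact Finset.sum_congr rfl fun w _ => by rw [hY]
  have hTfl : T (fun S => f S * Real.log (f S)) =
      ∑ w ∈ A.powerset.filter (fun w => w.Nonempty), wt q A w * L w := by
    rw [hT]
    exact Finset.sum_congr rfl fun w _ => by rw [hL]
  have hTfpos : 0 < T f := by
    rw [hTf]
    refine Finset.sum_pos (fun w _ => mul_pos (wt_pos h0 h1 A w) (hYpos w)) ⟨A, ?_⟩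
    exact Finset.mem_filter.2 ⟨Finset.mem_powerset.2 (Finset.Subset.refl _), hAne⟩
  obtain ⟨μ, hμ⟩ : ∃ μ, μ = m.E f := ⟨_, rfl⟩
  have hμT : Z * μ = T f := by rw [hμ]; exact hmE f
  have hμpos : 0 < μ := by
    have : 0 < Z * μ := by rw [hμT]; exact hTfpos
    exact (mul_pos_iff_of_pos_left hZpos).1 this
  have hjen : Z * (μ * Real.log μ) ≤
      ∑ w ∈ A.powerset.filter (fun w => w.Nonempty), wt q A w * (Y w * Real.log (Y w)) := by
    have h2 : ∑ w ∈ A.powerset.filter (fun w => w.Nonempty), wt q A w *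
        (μ * Real.log μ + (Real.log μ + 1) * (Y w - μ)) ≤
        ∑ w ∈ A.powerset.filter (fun w => w.Nonempty), wt q A w * (Y w * Real.log (Y w)) := by
      apply Finset.sum_le_sum
      intro w _
      exact mul_le_mul_of_nonneg_left (u352_tan (hYpos w) hμpos) (wt_nonneg h0.le h1.le A w)
    refine le_trans (le_of_eq ?_) h2
    have h3 : ∑ w ∈ A.powerset.filter (fun w => w.Nonempty), wt q A w *
        (μ * Real.log μ + (Real.log μ + 1) * (Y w - μ)) =
        Z * (μ * Real.log μ) + (Real.log μ + 1) * (T f - Z * μ) := by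
      rw [hTf, hZZ, Finset.sum_mul, Finset.sum_mul, ← Finset.sum_sub_distrib, Finset.mul_sum,
        ← Finset.sum_add_distrib]
      exact Finset.sum_congr rfl fun w _ => by ring
    rw [h3, hμT]
    ring
  have hnon : ∑ w ∈ A.powerset.filter (fun w => w.Nonempty), wt q A w *
        (L w - Y w * Real.log (Y w)) ≤ Z * m.Ent f := by
    have h2 : Z * m.Ent f = T (fun S => f S * Real.log (f S)) - Z * (μ * Real.log μ) := by
      unfold FM.Ent
      rw [mul_sub, hmE, ← hμ]
    rw [h2, hTfl]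
    have h3 : ∑ w ∈ A.powerset.filter (fun w => w.Nonempty), wt q A w *
        (L w - Y w * Real.log (Y w)) =
        (∑ w ∈ A.powerset.filter (fun w => w.Nonempty), wt q A w * L w) -
        ∑ w ∈ A.powerset.filter (fun w => w.Nonempty), wt q A w * (Y w * Real.log (Y w)) := by
      rw [← Finset.sum_sub_distrib]
      exact Finset.sum_congr rfl fun w _ => by ring
    rw [h3]
    linarith
  -- entropy versus variance
  have hw0 : ∀ x ∈ m.s, (min q (1 - q)) ^ (2 * b) ≤ m.w x := by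
    intro x hx
    rw [hm] at hx ⊢
    have h2 : ((pfm q h0 h1 D).cond (fun S => (S ∩ A).Nonempty) hC).w x =
        wt q D x / ∑ y ∈ D.powerset.filter (fun S => (S ∩ A).Nonempty), wt q D y := by
      unfold FM.cond pfm
      simp only
      congr 1
      apply Finset.sum_congr _ (fun _ _ => rfl)
      ext y
      simp only [Finset.mem_filter]
    rw [h2]
    have h3 : ∑ y ∈ D.powerset.filter (fun S => (S ∩ A).Nonempty), wt q D y ≤ 1 := by
      rw [← wt_sum q D]
      exact Finset.sum_le_sum_of_subset_of_nonneg (Finset.filter_subset _ _)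
        (fun w _ _ => wt_nonneg h0.le h1.le D w)
    have h4 : 0 < ∑ y ∈ D.powerset.filter (fun S => (S ∩ A).Nonempty), wt q D y := by
      refine Finset.sum_pos (fun w _ => wt_pos h0 h1 D w) ⟨A, ?_⟩
      rw [Finset.mem_filter, Finset.mem_powerset, Finset.inter_self]
      refine ⟨?_, hAne⟩
      rw [hDAB]
      exact Finset.subset_union_left
    have h5 := u352_wt_lb h0 h1 D x
    rw [hDcard] at h5
    refine h5.trans ?_
    rw [le_div_iff₀ h4]
    have := mul_le_mul_of_nonneg_left h3 (wt_nonneg h0.le h1.le D x)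
    linarith
  have hent := ent_le_var m ((min q (1 - q)) ^ (2 * b)) (pow_pos hν _) hw0 f hf
  have hlog : Real.log (1 / (min q (1 - q)) ^ (2 * b)) = 2 * b * ℓ := by
    rw [hℓ, one_div, one_div, Real.log_inv, Real.log_inv, Real.log_pow]
    push_cast
    ring
  rw [hlog] at hent
  -- the Dirichlet forms
  obtain ⟨A1, hA1⟩ : ∃ A1 : Finset ℤ → ℝ, ∀ S, A1 S = ∑ x ∈ D, cst D x S *
    (if (S.erase x ∩ A).Nonempty then 1 else 0) * vx q x (fun S => Real.sqrt (f S)) S :=
    ⟨_, fun _ => rfl⟩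
  obtain ⟨A2, hA2⟩ : ∃ A2 : Finset ℤ → ℝ, ∀ S, A2 S = ∑ x ∈ D, cst D x S *
    (q * (1 - q) * ((f (insert x S) - f (S.erase x)) *
          (Real.log (f (insert x S)) - Real.log (f (S.erase x))))) :=
    ⟨_, fun _ => rfl⟩
  simp only [← hA2]
  have hg' : m.Var (fun S => Real.sqrt (f S)) ≤ C * m.E A1 := by
    have : A1 = fun S => ∑ x ∈ D, cst D x S *
      (if (S.erase x ∩ A).Nonempty then 1 else 0) * vx q x (fun S => Real.sqrt (f S)) S :=
      funext hA1
    rw [this]
    exact hg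
  have hv0 : ∀ x S, vx q x (fun S => Real.sqrt (f S)) S ≤
      q * (1 - q) * ((f (insert x S) - f (S.erase x)) *
          (Real.log (f (insert x S)) - Real.log (f (S.erase x)))) := by
    intro x S
    unfold vx
    apply mul_le_mul_of_nonneg_left _ (by positivity)
    have h2 := u352_log (hf (insert x S)) (hf (S.erase x))
    have h3 : 0 ≤ (Real.sqrt (f (insert x S)) - Real.sqrt (f (S.erase x))) ^ 2 := sq_nonneg _
    linarith
  have hvn : ∀ x S, 0 ≤ vx q x (fun S => Real.sqrt (f S)) S := by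
    intro x S
    unfold vx
    positivity
  have hA12 : ∀ S, A1 S ≤ A2 S := by
    intro S
    rw [hA1, hA2]
    apply Finset.sum_le_sum
    intro x _
    have h2 : cst D x S * (if (S.erase x ∩ A).Nonempty then (1 : ℝ) else 0) ≤ cst D x S := by
      split_ifs
      · rw [mul_one]
      · rw [mul_zero]; exact cst_nonneg _ _ _
    exact (mul_le_mul_of_nonneg_right h2 (hvn x S)).trans
      (mul_le_mul_of_nonneg_left (hv0 x S) (cst_nonneg _ _ _))
  have hA20 : ∀ S, 0 ≤ A2 S := by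
    intro S
    rw [hA2]
    exact Finset.sum_nonneg fun x _ => mul_nonneg (cst_nonneg _ _ _) ((hvn x S).trans (hv0 x S))
  have hTA : Z * m.E A1 ≤ EA q D A2 := by
    have h2 : EA q D (fun S => if (S ∩ A).Nonempty then A1 S else 0) = T A1 :=
      hTE _ A1 (fun S hS => if_pos hS) (fun S hS => if_neg hS)
    rw [hmE, ← h2]
    unfold EA
    apply Finset.sum_le_sum
    intro S _
    apply mul_le_mul_of_nonneg_left _ (wt_nonneg h0.le h1.le D S)
    show (if (S ∩ A).Nonempty then A1 S else 0) ≤ A2 S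
    split_ifs
    · exact hA12 S
    · exact hA20 S
  have hEAf : 0 ≤ EA q B f := u352_EA_nonneg h0 h1 B f fun S => (hf S).le
  have hEA2 : 0 ≤ EA q D A2 := u352_EA_nonneg h0 h1 D A2 hA20
  have hZent : Z * m.Ent f ≤ 2 * (5 + 8 * ℓ) * C * b * EA q D A2 := by
    have k0 : 0 ≤ 2 * (5 + 4 * (2 * b * ℓ)) := by positivity
    have k1 : m.Ent f ≤ 2 * (5 + 4 * (2 * b * ℓ)) * (C * m.E A1) :=
      hent.trans (mul_le_mul_of_nonneg_left hg' k0)
    have k2 : Z * m.Ent f ≤ 2 * (5 + 4 * (2 * b * ℓ)) * C * (Z * m.E A1) := by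
      have := mul_le_mul_of_nonneg_left k1 hZpos.le
      linarith
    have k3 : 2 * (5 + 4 * (2 * b * ℓ)) * C * (Z * m.E A1) ≤
        2 * (5 + 4 * (2 * b * ℓ)) * C * EA q D A2 :=
      mul_le_mul_of_nonneg_left hTA (by positivity)
    have k4 : 2 * (5 + 4 * (2 * b * ℓ)) * C ≤ 2 * (5 + 8 * ℓ) * C * b := by
      have : 5 + 4 * (2 * b * ℓ) ≤ (5 + 8 * ℓ) * b := by nlinarith
      nlinarith
    have k5 := mul_le_mul_of_nonneg_right k4 hEA2
    linarith
  rw [hsplit]
  have hfin1 : (1 - q) ^ b * (L ∅ - Y ∅ * Real.log (Y ∅)) ≤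
      ℓ * b * ((1 - q) ^ b * EA q B f) := by
    have := mul_le_mul_of_nonneg_left hempty (pow_nonneg hr.le b)
    linarith
  have hfin2 : 0 ≤ 2 * (5 + 8 * ℓ) * C * b * ((1 - q) ^ b * EA q B f) := by positivity
  have hfin3 : 0 ≤ ℓ * b * EA q D A2 := by positivity
  have hfin4 : (2 * (5 + 8 * ℓ) * C + ℓ) * b * EA q D A2 +
      (2 * (5 + 8 * ℓ) * C + ℓ) * b * ((1 - q) ^ b * EA q B f) =
      2 * (5 + 8 * ℓ) * C * b * EA q D A2 + ℓ * b * EA q D A2 +
      (2 * (5 + 8 * ℓ) * C * b * ((1 - q) ^ b * EA q B f) +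
        ℓ * b * ((1 - q) ^ b * EA q B f)) := by ring
  rw [hfin4]
  linarith

end FA
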