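import Pool.Agent.Helper769.FAF.P_E_lift
import Pool.Agent.Helper769.FAF.P_Pf_mono
import Pool.Agent.Helper769.FAF.P_Pb_mono
import Pool.Agent.Helper769.FAF.P_pos

set_option autoImplicit false
set_option linter.unusedSectionVars false

open Finset

noncomputable section

namespace FAF

/-- total production seen in the window -/
def Pn (q : ℝ) (μ : Fam) (n : ℕ) : ℝ := Pf q μ n + ∑ k ∈ range n, Pb q μ (n + 1) k

end FAF
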