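import Pool.Agent.Helper870.FADefs
import Pool.Agent.Helper870.FAG1
import Pool.Agent.Helper870.FAD2
import Pool.Agent.Helper870.FAS10
import Pool.Agent.Helper870.FAD4
import Pool.Agent.Helper870.FAD5
import Pool.Agent.Helper870.FAD9
import Pool.Agent.Helper870.FAU2c
import Pool.Agent.Helper870.FAUD

set_option autoImplicit false
set_option linter.unusedSectionVars false

open Finset

noncomputable section

-- USES: G1 D2 S10 D4 D5 D9 U2c UD
namespace FAF

theorem h208_Ph_nonneg (a b : ℝ) (ha : 0 < a) (hb : 0 < b) : 0 ≤ Ph a b := by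
  unfold Ph
  rcases le_total a b with h | h
  · have h1 := Real.log_le_log ha h
    exact mul_nonneg_of_nonpos_of_nonpos (by linarith) (by linarith)
  · have h1 := Real.log_le_log hb h
    exact mul_nonneg (by linarith) (by linarith)

theorem h208_Ph_add_aux (a b c d : ℝ) (ha : 0 < a) (hb : 0 < b) (hc : 0 < c) (hd : 0 < d) :
    (a + c) * (Real.log (a + c) - Real.log (b + d)) ≤
      a * (Real.log a - Real.log b) + c * (Real.log c - Real.log d) := by
  have hR : 0 < (a + c) / (b + d) := by positivity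
  have hlR : Real.log ((a + c) / (b + d)) = Real.log (a + c) - Real.log (b + d) :=
    Real.log_div (by positivity) (by positivity)
  obtain ⟨R, hRd⟩ : ∃ R, R = (a + c) / (b + d) := ⟨_, rfl⟩
  rw [← hRd] at hR hlR
  have h1 : Real.log (b * R / a) = Real.log b + Real.log R - Real.log a := by
    rw [Real.log_div (by positivity) ha.ne', Real.log_mul hb.ne' hR.ne']
  have h2 : Real.log (d * R / c) = Real.log d + Real.log R - Real.log c := by
    rw [Real.log_div (by positivity) hc.ne', Real.log_mul hd.ne' hR.ne']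
  have h3 : Real.log (b * R / a) ≤ b * R / a - 1 := Real.log_le_sub_one_of_pos (by positivity)
  have h4 : Real.log (d * R / c) ≤ d * R / c - 1 := Real.log_le_sub_one_of_pos (by positivity)
  have h5 : a * Real.log (b * R / a) ≤ b * R - a := by
    have := mul_le_mul_of_nonneg_left h3 ha.le
    have e : a * (b * R / a - 1) = b * R - a := by field_simp
    linarith
  have h6 : c * Real.log (d * R / c) ≤ d * R - c := by
    have := mul_le_mul_of_nonneg_left h4 hc.le
    have e : c * (d * R / c - 1) = d * R - c := by field_simp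
    linarith
  have h7 : (b + d) * R = a + c := by
    rw [hRd]
    field_simp
  rw [h1] at h5
  rw [h2] at h6
  rw [← hlR]
  nlinarith

theorem h208_Ph_add (a b c d : ℝ) (ha : 0 < a) (hb : 0 < b) (hc : 0 < c) (hd : 0 < d) :
    Ph (a + c) (b + d) ≤ Ph a b + Ph c d := by
  have h1 := h208_Ph_add_aux a b c d ha hb hc hd
  have h2 := h208_Ph_add_aux b a d c hb ha hd hc
  unfold Ph
  nlinarith

theorem h208_cr_nonneg (z : Env) (k : ℕ) : 0 ≤ cr z k := by
  unfold cr
  split_ifs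
  · exact zero_le_one
  · exact le_rfl

theorem h208_Pb_nonneg (q : ℝ) (h0 : 0 < q) (h1 : q < 1) (μ : Fam) (hp : ∀ n z, 0 < μ.p n z)
    (N k : ℕ) : 0 ≤ Pb q μ N k := by
  unfold Pb
  refine Finset.sum_nonneg fun z _ => mul_nonneg (h208_cr_nonneg z k) ?_
  exact h208_Ph_nonneg _ _ (mul_pos h0 (hp _ _)) (mul_pos (by linarith) (hp _ _))

theorem h208_comm (w : Env) (N k : ℕ) (b c : Bool) (h : k ≠ N) :
    up (up w N b) k c = up (up w k c) N b := by
  funext j
  unfold up
  by_cases h1 : j = k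
  · subst h1
    simp [h]
  · simp [h1]

/-- word with prefix `x` on `[0,r)` and infected set `U` after it -/
def h208_wd (r : ℕ) (x : Env) (U : Finset ℤ) : Env :=
  fun k => if k < r then x k else decide (((k - r : ℕ) : ℤ) ∈ U)

theorem h208_wd_up (r n : ℕ) (x : Env) (U : Finset ℤ) :
    up (h208_wd r x U) (r + n) true = h208_wd r x (insert (n : ℤ) U) := by
  funext j
  unfold up h208_wd
  by_cases h : j = r + n
  · subst h
    have h1 : ¬ (r + n < r) := by omega
    have h2 : (r + n - r : ℕ) = n := by omega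
    simp [h2]
  · rw [if_neg h]
    by_cases h1 : j < r
    · simp [h1]
    · have h2 : ((j - r : ℕ) : ℤ) ≠ n := by omega
      simp only [h1, if_false, mem_insert, h2, false_or]

theorem h208_wd_up_false (r n : ℕ) (x : Env) (U : Finset ℤ) (hn : (n : ℤ) ∉ U) :
    up (h208_wd r x U) (r + n) false = h208_wd r x U := by
  funext j
  unfold up h208_wd
  by_cases h : j = r + n
  · subst h
    have h2 : (r + n - r : ℕ) = n := by omega
    simp [h2, hn]
  · rw [if_neg h]

theorem h208_wd_apply (r n : ℕ) (x : Env) (U : Finset ℤ) :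
    h208_wd r x U (r + n) = decide ((n : ℤ) ∈ U) := by
  unfold h208_wd
  have h2 : (r + n - r : ℕ) = n := by omega
  simp [h2]

theorem h208_Icc_succ (m n : ℕ) (h : m ≤ n) :
    Icc (m : ℤ) (((n + 1 : ℕ) : ℤ) - 1) = insert (n : ℤ) (Icc (m : ℤ) ((n : ℤ) - 1)) := by
  ext i
  simp only [mem_Icc, mem_insert]
  push_cast
  omega

theorem h208_sum_wd (r n : ℕ) (H : Env → ℝ) :
    ∑ z ∈ W (r + n), H z =
      ∑ x ∈ W r, ∑ U ∈ (Icc (0 : ℤ) ((n : ℤ) - 1)).powerset, H (h208_wd r x U) := by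
  induction n generalizing H with
  | zero =>
    have e : Icc (0 : ℤ) (((0 : ℕ) : ℤ) - 1) = ∅ := Finset.Icc_eq_empty (by norm_num)
    rw [e, powerset_empty, add_zero]
    apply sum_congr rfl
    intro x hx
    rw [sum_singleton]
    congr 1
    funext k
    unfold h208_wd
    split_ifs with h
    · rfl
    · simp [(mem_W r x).1 hx k (by omega)]
  | succ n ih =>
    have e := h208_Icc_succ 0 n (Nat.zero_le n)
    rw [Nat.cast_zero] at e
    rw [← add_assoc, sum_succ, ih, e]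
    apply sum_congr rfl
    intro x _
    rw [sum_powerset_insert (by simp), ← sum_add_distrib]
    apply sum_congr rfl
    intro U hU
    rw [h208_wd_up, h208_wd_up_false]
    intro h
    have := mem_powerset.1 hU h
    simp at this

theorem h208_p_wd (μ : Fam) (r m n : ℕ) (hmn : m ≤ n) (x : Env) (w : Finset ℤ)
    (hw : ∀ i ∈ w, i < m) :
    μ.p (r + m) (h208_wd r x w) =
      ∑ y ∈ (Icc (m : ℤ) ((n : ℤ) - 1)).powerset, μ.p (r + n) (h208_wd r x (w ∪ y)) := by
  induction n, hmn using Nat.le_induction with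
  | base =>
    have e : Icc (m : ℤ) ((m : ℤ) - 1) = ∅ := Finset.Icc_eq_empty (by omega)
    rw [e, powerset_empty, sum_singleton, union_empty]
  | succ n hn ih =>
    rw [ih, h208_Icc_succ m n hn, sum_powerset_insert (by simp), ← sum_add_distrib]
    apply sum_congr rfl
    intro y hy
    have h1 : (n : ℤ) ∉ w ∪ y := by
      intro h
      rcases mem_union.1 h with h | h
      · have := hw _ h; omega
      · have := mem_powerset.1 hy h
        simp at this
    rw [μ.con (r + n), h208_wd_up, h208_wd_up_false _ _ _ _ h1, union_insert, ← add_assoc]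

theorem h208_wt_insert (q : ℝ) (A U : Finset ℤ) (a : ℤ) (ha : a ∉ A) :
    FA.wt q (insert a A) U = FA.wt q A U * (if a ∈ U then q else 1 - q) := by
  unfold FA.wt
  by_cases h : a ∈ U
  · rw [insert_inter_of_mem h, insert_sdiff_of_mem _ h, if_pos h,
      card_insert_of_notMem (fun h' => ha (mem_inter.1 h').1), pow_succ]
    ring
  · rw [insert_inter_of_notMem h, insert_sdiff_of_notMem _ h, if_neg h,
      card_insert_of_notMem (fun h' => ha (mem_sdiff.1 h').1), pow_succ]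
    ring

theorem h208_wt_congr (q : ℝ) (A U V : Finset ℤ) (h : ∀ i ∈ A, i ∈ U ↔ i ∈ V) :
    FA.wt q A U = FA.wt q A V := by
  unfold FA.wt
  have h1 : A ∩ U = A ∩ V := by
    ext i
    simp only [mem_inter]
    constructor
    · rintro ⟨h2, h3⟩; exact ⟨h2, (h i h2).1 h3⟩
    · rintro ⟨h2, h3⟩; exact ⟨h2, (h i h2).2 h3⟩
  have h2 : A \ U = A \ V := by
    ext i
    simp only [mem_sdiff]
    constructor
    · rintro ⟨h2, h3⟩; exact ⟨h2, fun h4 => h3 ((h i h2).2 h4)⟩
    · rintro ⟨h2, h3⟩; exact ⟨h2, fun h4 => h3 ((h i h2).1 h4)⟩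
  rw [h1, h2]

theorem h208_wt_prod (q : ℝ) (r m n : ℕ) (hmn : m ≤ n) (x : Env) (U : Finset ℤ) :
    ∏ k ∈ Ico (r + m) (r + n), rb q (h208_wd r x U k) =
      FA.wt q (Icc (m : ℤ) ((n : ℤ) - 1)) U := by
  induction n, hmn using Nat.le_induction with
  | base =>
    have e : Icc (m : ℤ) ((m : ℤ) - 1) = ∅ := Finset.Icc_eq_empty (by omega)
    rw [e, Ico_self, prod_empty]
    simp [FA.wt]
  | succ n hn ih =>
    rw [h208_Icc_succ m n hn, h208_wt_insert _ _ _ _ (by simp), ← ih, ← add_assoc,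
      prod_Ico_succ_top (by omega), h208_wd_apply]
    congr 1
    unfold rb
    simp

theorem h208_EA_union (q : ℝ) {A B : Finset ℤ} (hd : Disjoint A B) (F : Finset ℤ → ℝ) :
    FA.EA q (A ∪ B) F = FA.EA q A (fun w => FA.EA q B (fun y => F (w ∪ y))) := by
  rw [FA.EA_eq_av, ← FA.av_av q hd]
  unfold FA.EA FA.av
  apply sum_congr rfl
  intro w hw
  congr 1
  apply sum_congr rfl
  intro y hy
  congr 2
  have h1 : (∅ \ A ∪ w) \ B = w := by
    ext i
    simp only [mem_sdiff, mem_union, notMem_empty, false_and, false_or]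
    constructor
    · exact fun h => h.1
    · intro h
      exact ⟨h, fun h2 => (disjoint_left.1 hd) (mem_powerset.1 hw h) h2⟩
  rw [h1]

/-- bulk production of the last site of the window -/
theorem Pb_last (q : ℝ) (h0 : 0 < q) (h1 : q < 1) (μ : Fam) (hp : ∀ n z, 0 < μ.p n z) (k : ℕ) :
    Pb q μ (k + 1) k ≤ Pb q μ (k + 2) k := by
  unfold Pb
  rw [Finset.sum_filter, Finset.sum_filter, sum_succ (k + 1)]
  apply Finset.sum_le_sum
  intro w hw
  have hkN : k ≠ k + 1 := by omega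
  have e : ∀ b, (up w (k + 1) b) k = w k := by
    intro b
    simp [up]
  rw [e, e]
  by_cases hwk : w k = false
  · rw [if_pos hwk, if_pos hwk, if_pos hwk]
    have hc : ∀ b, cr w k ≤ cr (up w (k + 1) b) k := by
      intro b
      have hf : w (k + 1) = false := (mem_W (k + 1) w).1 hw (k + 1) le_rfl
      have hm : (up w (k + 1) b) (k - 1) = w (k - 1) := by
        unfold up
        rw [if_neg (by omega)]
      unfold cr
      rw [hm]
      by_cases h : k = 0 ∨ w (k - 1) = true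
      · rw [if_pos (by tauto), if_pos (by tauto)]
      · rw [if_neg (by rw [hf]; simpa using h)]
        split_ifs <;> norm_num
    have hq : 0 < 1 - q := by linarith
    rw [h208_comm w (k + 1) k false true hkN, h208_comm w (k + 1) k true true hkN,
      μ.con (k + 1) w, μ.con (k + 1) (up w k true), mul_add, mul_add]
    have p1 := mul_pos h0 (hp (k + 1 + 1) (up w (k + 1) false))
    have p2 := mul_pos hq (hp (k + 1 + 1) (up (up w k true) (k + 1) false))
    have p3 := mul_pos h0 (hp (k + 1 + 1) (up w (k + 1) true))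
    have p4 := mul_pos hq (hp (k + 1 + 1) (up (up w k true) (k + 1) true))
    refine (mul_le_mul_of_nonneg_left (h208_Ph_add _ _ _ _ p1 p2 p3 p4)
      (h208_cr_nonneg w k)).trans ?_
    rw [mul_add]
    exact add_le_add (mul_le_mul_of_nonneg_right (hc false) (h208_Ph_nonneg _ _ p1 p2))
      (mul_le_mul_of_nonneg_right (hc true) (h208_Ph_nonneg _ _ p3 p4))
  · rw [if_neg hwk, if_neg hwk, if_neg hwk, add_zero]

theorem h208_Pb_le_Pn (q : ℝ) (h0 : 0 < q) (h1 : q < 1) (μ : Fam) (hp : ∀ n z, 0 < μ.p n z)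
    (n : ℕ) : Pb q μ (n + 2) n ≤ Pn q μ (n + 1) - Pn q μ n := by
  unfold Pn
  rw [sum_range_succ]
  have hf := Pf_mono q h0 h1 μ hp n
  have hs : ∑ k ∈ range n, Pb q μ (n + 1) k ≤ ∑ k ∈ range n, Pb q μ (n + 1 + 1) k := by
    apply sum_le_sum
    intro k hk
    exact Pb_mono q h0 h1 μ hp (n + 1) k (by have := mem_range.1 hk; omega)
  have e : Pb q μ (n + 2) n = Pb q μ (n + 1 + 1) n := rfl
  linarith

theorem Pn_mono (q : ℝ) (h0 : 0 < q) (h1 : q < 1) (μ : Fam) (hp : ∀ n z, 0 < μ.p n z) (n : ℕ) :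
    Pn q μ n ≤ Pn q μ (n + 1) := by
  have h := h208_Pb_le_Pn q h0 h1 μ hp n
  have h' := h208_Pb_nonneg q h0 h1 μ hp (n + 2) n
  linarith

theorem Pb_le_Pn (q : ℝ) (h0 : 0 < q) (h1 : q < 1) (μ : Fam) (hp : ∀ n z, 0 < μ.p n z) (n : ℕ) :
    Pb q μ (n + 2) n ≤ Pn q μ (n + 1) - Pn q μ n :=
  h208_Pb_le_Pn q h0 h1 μ hp n

/-- the density on a block, given the prefix `x` -/
def h208_fx (q : ℝ) (μ : Fam) (r b : ℕ) (x : Env) (U : Finset ℤ) : ℝ :=
  μ.p (r + 2 * b) (h208_wd r x U) / FA.wt q (Icc (0 : ℤ) (2 * (b : ℤ) - 1)) U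

theorem h208_fx_pos {q : ℝ} (h0 : 0 < q) (h1 : q < 1) (μ : Fam) (hp : ∀ n z, 0 < μ.p n z)
    (r b : ℕ) (x : Env) (U : Finset ℤ) : 0 < h208_fx q μ r b x U :=
  div_pos (hp _ _) (FA.wt_pos h0 h1 _ _)

theorem h208_D_eq (b : ℕ) : Icc (0 : ℤ) (2 * (b : ℤ) - 1) =
    Icc (0 : ℤ) ((b : ℤ) - 1) ∪ Icc (b : ℤ) (2 * (b : ℤ) - 1) := by
  ext i
  simp only [mem_Icc, mem_union]
  omega

theorem h208_D_disj (b : ℕ) :
    Disjoint (Icc (0 : ℤ) ((b : ℤ) - 1)) (Icc (b : ℤ) (2 * (b : ℤ) - 1)) := by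
  rw [disjoint_left]
  intro i hi hj
  simp only [mem_Icc] at hi hj
  omega

theorem h208_wt_D (q : ℝ) (b : ℕ) {w y : Finset ℤ} (hw : w ⊆ Icc (0 : ℤ) ((b : ℤ) - 1))
    (hy : y ⊆ Icc (b : ℤ) (2 * (b : ℤ) - 1)) :
    FA.wt q (Icc (0 : ℤ) (2 * (b : ℤ) - 1)) (w ∪ y) =
      FA.wt q (Icc (0 : ℤ) ((b : ℤ) - 1)) w * FA.wt q (Icc (b : ℤ) (2 * (b : ℤ) - 1)) y := by
  rw [h208_D_eq, FA.wt_union q (h208_D_disj b) hw hy]

theorem h208_ps {q : ℝ} (h0 : 0 < q) (h1 : q < 1) (μ : Fam) (r b : ℕ) (x : Env)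
    {w : Finset ℤ} (hw : w ⊆ Icc (0 : ℤ) ((b : ℤ) - 1)) :
    μ.p (r + b) (h208_wd r x w) = FA.wt q (Icc (0 : ℤ) ((b : ℤ) - 1)) w *
      FA.EA q (Icc (b : ℤ) (2 * (b : ℤ) - 1)) (fun y => h208_fx q μ r b x (w ∪ y)) := by
  have e : ((2 * b : ℕ) : ℤ) = 2 * (b : ℤ) := by push_cast; ring
  rw [h208_p_wd μ r b (2 * b) (by omega) x w (by
    intro i hi
    have := mem_Icc.1 (hw hi)
    omega), e]
  unfold FA.EA
  rw [mul_sum]
  apply sum_congr rfl
  intro y hy
  unfold h208_fx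
  beta_reduce
  rw [h208_wt_D q b hw (mem_powerset.1 hy)]
  have p1 := FA.wt_pos h0 h1 (Icc (0 : ℤ) ((b : ℤ) - 1)) w
  have p2 := FA.wt_pos h0 h1 (Icc (b : ℤ) (2 * (b : ℤ) - 1)) y
  field_simp

/-- telescoping of `al` -/
theorem h208_tel (q : ℝ) (h0 : 0 < q) (h1 : q < 1) (μ : Fam) (s n : ℕ) (h : s ≤ n) (z : Env) :
    ∑ m ∈ Ico s n, al q μ m z =
      Real.log (μ.p n z) - Real.log (μ.p s z) - Real.log (∏ k ∈ Ico s n, rb q (z k)) := by
  induction n, h using Nat.le_induction with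
  | base => simp
  | succ n hn ih =>
    rw [sum_Ico_succ_top hn, prod_Ico_succ_top hn, ih]
    have hb : ∀ c : Bool, 0 < rb q c := by
      intro c
      unfold rb
      split_ifs
      · exact h0
      · linarith
    rw [Real.log_mul (prod_ne_zero_iff.2 (fun k _ => (hb _).ne')) (hb _).ne']
    unfold al
    ring

theorem h208_al_dep (q : ℝ) (μ : Fam) (m : ℕ) : Dep (m + 1) (al q μ m) := by
  intro z w h
  unfold al
  rw [μ.dep (m + 1) z w h, μ.dep m z w (fun i hi => h i (by omega)), h m (by omega)]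

theorem h208_p_congr (μ : Fam) (r m : ℕ) (x : Env) (U V : Finset ℤ)
    (h : ∀ i : ℤ, 0 ≤ i → i < m → (i ∈ U ↔ i ∈ V)) :
    μ.p (r + m) (h208_wd r x U) = μ.p (r + m) (h208_wd r x V) := by
  apply μ.dep
  intro k hk
  unfold h208_wd
  split_ifs with h1
  · rfl
  · have := h ((k - r : ℕ) : ℤ) (by omega) (by omega)
    simp [this]

theorem h208_lhs (q : ℝ) (h0 : 0 < q) (h1 : q < 1) (μ : Fam) (hp : ∀ n z, 0 < μ.p n z)
    (r b : ℕ) :
    ∑ m ∈ Finset.Ico (r + b) (r + 2 * b), μ.E (m + 1) (al q μ m) =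
      ∑ x ∈ W r, FA.EA q (Icc 0 ((b : ℤ) - 1)) (fun w =>
        FA.EA q (Icc (b : ℤ) (2 * b - 1)) (fun y => h208_fx q μ r b x (w ∪ y) *
          Real.log (h208_fx q μ r b x (w ∪ y))) -
        FA.EA q (Icc (b : ℤ) (2 * b - 1)) (fun y => h208_fx q μ r b x (w ∪ y)) *
          Real.log (FA.EA q (Icc (b : ℤ) (2 * b - 1)) (fun y => h208_fx q μ r b x (w ∪ y)))) := by
  have e1 : ∀ m ∈ Finset.Ico (r + b) (r + 2 * b), μ.E (m + 1) (al q μ m) =
      μ.E (r + 2 * b) (al q μ m) := by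
    intro m hm
    rw [E_lift μ (m + 1) (r + 2 * b) (by have := mem_Ico.1 hm; omega) _ (h208_al_dep q μ m)]
  rw [sum_congr rfl e1]
  have ec : ((2 * b : ℕ) : ℤ) = 2 * (b : ℤ) := by push_cast; ring
  unfold Fam.E
  rw [sum_comm, h208_sum_wd, ec]
  apply sum_congr rfl
  intro x _
  have e2 : ∀ U ∈ (Icc (0 : ℤ) (2 * (b : ℤ) - 1)).powerset,
      ∑ m ∈ Finset.Ico (r + b) (r + 2 * b), μ.p (r + 2 * b) (h208_wd r x U) *
        al q μ m (h208_wd r x U) = FA.wt q (Icc (0 : ℤ) (2 * (b : ℤ) - 1)) U *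
        (h208_fx q μ r b x U * (Real.log (μ.p (r + 2 * b) (h208_wd r x U)) -
          Real.log (μ.p (r + b) (h208_wd r x U)) -
          Real.log (FA.wt q (Icc (b : ℤ) (2 * (b : ℤ) - 1)) U))) := by
    intro U _
    rw [← mul_sum, h208_tel q h0 h1 μ _ _ (by omega), h208_wt_prod q r b (2 * b) (by omega), ec]
    unfold h208_fx
    have p1 := FA.wt_pos h0 h1 (Icc (0 : ℤ) (2 * (b : ℤ) - 1)) U
    field_simp
  rw [sum_congr rfl e2]
  have e3 := h208_EA_union q (h208_D_disj b) (fun U => (h208_fx q μ r b x U *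
        (Real.log (μ.p (r + 2 * b) (h208_wd r x U)) -
          Real.log (μ.p (r + b) (h208_wd r x U)) -
          Real.log (FA.wt q (Icc (b : ℤ) (2 * (b : ℤ) - 1)) U))))
  rw [← h208_D_eq] at e3
  refine Eq.trans ?_ (e3.trans ?_)
  · rfl
  · unfold FA.EA
    apply sum_congr rfl
    intro w hw
    congr 1
    beta_reduce
    rw [sum_mul, ← sum_sub_distrib]
    apply sum_congr rfl
    intro y hy
    have hw' := mem_powerset.1 hw
    have hy' := mem_powerset.1 hy
    have l1 : Real.log (μ.p (r + 2 * b) (h208_wd r x (w ∪ y))) =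
        Real.log (h208_fx q μ r b x (w ∪ y)) +
          (Real.log (FA.wt q (Icc (0 : ℤ) ((b : ℤ) - 1)) w) +
          Real.log (FA.wt q (Icc (b : ℤ) (2 * (b : ℤ) - 1)) y)) := by
      rw [← Real.log_mul (FA.wt_pos h0 h1 _ _).ne' (FA.wt_pos h0 h1 _ _).ne',
        ← h208_wt_D q b hw' hy',
        ← Real.log_mul (h208_fx_pos h0 h1 μ hp _ _ _ _).ne' (FA.wt_pos h0 h1 _ _).ne']
      congr 1
      unfold h208_fx
      have p1 := FA.wt_pos h0 h1 (Icc (0 : ℤ) (2 * (b : ℤ) - 1)) (w ∪ y)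
      field_simp
    have hEA : 0 < FA.EA q (Icc (b : ℤ) (2 * (b : ℤ) - 1))
        (fun y => h208_fx q μ r b x (w ∪ y)) := by
      unfold FA.EA
      exact sum_pos (fun y _ => mul_pos (FA.wt_pos h0 h1 _ _) (h208_fx_pos h0 h1 μ hp _ _ _ _))
        ⟨∅, empty_mem_powerset _⟩
    have l2 : Real.log (μ.p (r + b) (h208_wd r x (w ∪ y))) =
        Real.log (FA.wt q (Icc (0 : ℤ) ((b : ℤ) - 1)) w) +
        Real.log (FA.EA q (Icc (b : ℤ) (2 * (b : ℤ) - 1))
          (fun y => h208_fx q μ r b x (w ∪ y))) := by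
      rw [← Real.log_mul (FA.wt_pos h0 h1 _ _).ne' hEA.ne', ← h208_ps h0 h1 μ r b x hw']
      congr 1
      apply h208_p_congr
      intro i hi0 hi
      rw [mem_union]
      constructor
      · rintro (h | h)
        · exact h
        · have := mem_Icc.1 (hy' h); omega
      · exact fun h => Or.inl h
    have l3 : FA.wt q (Icc (b : ℤ) (2 * (b : ℤ) - 1)) (w ∪ y) =
        FA.wt q (Icc (b : ℤ) (2 * (b : ℤ) - 1)) y := by
      apply h208_wt_congr
      intro i hi
      rw [mem_union]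
      constructor
      · rintro (h | h)
        · have := mem_Icc.1 (hw' h)
          have := mem_Icc.1 hi
          omega
        · exact h
      · exact fun h => Or.inr h
    rw [l1, l2, l3]
    unfold FA.EA
    beta_reduce
    ring



theorem h208_cst_le_cr (r b j : ℕ) (x : Env) (U : Finset ℤ) :
    FA.cst (Icc (0 : ℤ) (2 * (b : ℤ) - 1)) (j : ℤ) U ≤ cr (h208_wd r x U) (r + j) := by
  unfold FA.cst cr
  split_ifs with h1 h2
  · exact le_rfl
  · exfalso
    apply h2
    rcases h1 with ⟨h3, h4⟩ | ⟨h3, h4⟩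
    · have := mem_Icc.1 h3
      right; left
      have e : r + j - 1 = r + (j - 1) := by omega
      rw [e, h208_wd_apply]
      have e2 : ((j - 1 : ℕ) : ℤ) = (j : ℤ) - 1 := by omega
      rw [e2]
      simp [h4]
    · right; right
      have e : r + j + 1 = r + (j + 1) := by omega
      rw [e, h208_wd_apply]
      push_cast
      simp [h4]
  · norm_num
  · exact le_rfl

theorem h208_site (q : ℝ) (h0 : 0 < q) (h1 : q < 1) (μ : Fam) (hp : ∀ n z, 0 < μ.p n z)
    (r b j : ℕ) (hj : j < 2 * b) (x : Env) :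
    FA.EA q (Icc (0 : ℤ) (2 * (b : ℤ) - 1)) (fun S =>
        FA.cst (Icc (0 : ℤ) (2 * (b : ℤ) - 1)) (j : ℤ) S * (q * (1 - q) *
          ((h208_fx q μ r b x (insert (j : ℤ) S) - h208_fx q μ r b x (S.erase (j : ℤ))) *
          (Real.log (h208_fx q μ r b x (insert (j : ℤ) S)) -
            Real.log (h208_fx q μ r b x (S.erase (j : ℤ))))))) ≤
    ∑ U ∈ (Icc (0 : ℤ) (2 * (b : ℤ) - 1)).powerset,
      (if (h208_wd r x U) (r + j) = false then cr (h208_wd r x U) (r + j) *
        Ph (q * μ.p (r + 2 * b) (h208_wd r x U))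
          ((1 - q) * μ.p (r + 2 * b) (up (h208_wd r x U) (r + j) true)) else 0) := by
  obtain ⟨D, hD⟩ : ∃ D, D = Icc (0 : ℤ) (2 * (b : ℤ) - 1) := ⟨_, rfl⟩
  rw [← hD]
  have hjD : (j : ℤ) ∈ D := by rw [hD, mem_Icc]; omega
  have hins : insert (j : ℤ) (D.erase (j : ℤ)) = D := insert_erase hjD
  unfold FA.EA
  have hps : ∀ F : Finset ℤ → ℝ, ∑ U ∈ D.powerset, F U =
      ∑ U ∈ (D.erase (j : ℤ)).powerset, (F U + F (insert (j : ℤ) U)) := by
    intro F
    conv_lhs => rw [← hins]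
    rw [sum_powerset_insert (notMem_erase _ _), sum_add_distrib]
  rw [hps, hps]
  apply sum_le_sum
  intro U hU
  beta_reduce
  have hjU : (j : ℤ) ∉ U := fun h => notMem_erase _ _ (mem_powerset.1 hU h)
  have w0 : FA.wt q D U = FA.wt q (D.erase (j : ℤ)) U * (1 - q) := by
    have := h208_wt_insert q (D.erase (j : ℤ)) U (j : ℤ) (notMem_erase _ _)
    rw [hins, if_neg hjU] at this
    exact this
  have w1 : FA.wt q D (insert (j : ℤ) U) = FA.wt q (D.erase (j : ℤ)) U * q := by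
    have := h208_wt_insert q (D.erase (j : ℤ)) (insert (j : ℤ) U) (j : ℤ) (notMem_erase _ _)
    rw [hins, if_pos (mem_insert_self _ _)] at this
    rw [this]
    congr 1
    apply h208_wt_congr
    intro i hi
    rw [mem_insert]
    constructor
    · rintro (h | h)
      · exact absurd h (ne_of_mem_erase hi)
      · exact h
    · exact fun h => Or.inr h
  have c1 : FA.cst D (j : ℤ) (insert (j : ℤ) U) = FA.cst D (j : ℤ) U := by
    unfold FA.cst
    have n1 : (j : ℤ) - 1 ≠ j := by omega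
    have n2 : (j : ℤ) + 1 ≠ j := by omega
    simp only [mem_insert, n1, n2, false_or]
  have er : U.erase (j : ℤ) = U := erase_eq_of_notMem hjU
  have er2 : (insert (j : ℤ) U).erase (j : ℤ) = U := erase_insert hjU
  have ins2 : insert (j : ℤ) (insert (j : ℤ) U) = insert (j : ℤ) U := insert_idem _ _
  have a0 : (h208_wd r x U) (r + j) = false := by rw [h208_wd_apply]; simp [hjU]
  have a1 : (h208_wd r x (insert (j : ℤ) U)) (r + j) ≠ false := by
    rw [h208_wd_apply]; simp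
  rw [if_pos a0, if_neg a1, add_zero, er, er2, ins2, c1, w0, w1, h208_wd_up]
  have hwp := FA.wt_pos h0 h1 (D.erase (j : ℤ)) U
  have hq : 0 < 1 - q := by linarith
  have f0p := h208_fx_pos h0 h1 μ hp r b x U
  have f1p := h208_fx_pos h0 h1 μ hp r b x (insert (j : ℤ) U)
  have p0 : μ.p (r + 2 * b) (h208_wd r x U) =
      FA.wt q (D.erase (j : ℤ)) U * (1 - q) * h208_fx q μ r b x U := by
    unfold h208_fx
    rw [← hD, w0]
    field_simp
  have p1 : μ.p (r + 2 * b) (h208_wd r x (insert (j : ℤ) U)) =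
      FA.wt q (D.erase (j : ℤ)) U * q * h208_fx q μ r b x (insert (j : ℤ) U) := by
    unfold h208_fx
    rw [← hD, w1]
    field_simp
  have hle := h208_cst_le_cr r b j x U
  rw [← hD] at hle
  rw [p0, p1]
  generalize h208_fx q μ r b x U = f0 at f0p ⊢
  generalize h208_fx q μ r b x (insert (j : ℤ) U) = f1 at f1p ⊢
  generalize FA.wt q (D.erase (j : ℤ)) U = w' at hwp ⊢
  generalize FA.cst D (j : ℤ) U = c at hle ⊢
  generalize cr (h208_wd r x U) (r + j) = c' at hle ⊢
  have hPh : Ph (q * (w' * (1 - q) * f0)) ((1 - q) * (w' * q * f1)) =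
      w' * (q * (1 - q) * ((f1 - f0) * (Real.log f1 - Real.log f0))) := by
    have e0 : q * (w' * (1 - q) * f0) = (w' * (q * (1 - q))) * f0 := by ring
    have e1 : (1 - q) * (w' * q * f1) = (w' * (q * (1 - q))) * f1 := by ring
    have hcp : 0 < w' * (q * (1 - q)) := by positivity
    rw [e0, e1]
    unfold Ph
    rw [Real.log_mul hcp.ne' f0p.ne', Real.log_mul hcp.ne' f1p.ne']
    ring
  have hPhn : 0 ≤ w' * (q * (1 - q) * ((f1 - f0) * (Real.log f1 - Real.log f0))) := by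
    rw [← hPh]
    exact h208_Ph_nonneg _ _ (by positivity) (by positivity)
  rw [hPh]
  have := mul_le_mul_of_nonneg_right hle hPhn
  refine le_trans (le_of_eq ?_) this
  ring

theorem h208_sum_site (q : ℝ) (h0 : 0 < q) (h1 : q < 1) (μ : Fam) (hp : ∀ n z, 0 < μ.p n z)
    (r b j : ℕ) (hj : j < 2 * b) :
    ∑ x ∈ W r, FA.EA q (Icc (0 : ℤ) (2 * (b : ℤ) - 1)) (fun S =>
        FA.cst (Icc (0 : ℤ) (2 * (b : ℤ) - 1)) (j : ℤ) S * (q * (1 - q) *
          ((h208_fx q μ r b x (insert (j : ℤ) S) - h208_fx q μ r b x (S.erase (j : ℤ))) *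
          (Real.log (h208_fx q μ r b x (insert (j : ℤ) S)) -
            Real.log (h208_fx q μ r b x (S.erase (j : ℤ))))))) ≤
      Pb q μ (r + 2 * b) (r + j) := by
  refine (sum_le_sum (fun x _ => h208_site q h0 h1 μ hp r b j hj x)).trans (le_of_eq ?_)
  unfold Pb
  have ec : ((2 * b : ℕ) : ℤ) = 2 * (b : ℤ) := by push_cast; ring
  rw [sum_filter, h208_sum_wd, ec]

theorem h208_sum_Icc (n : ℕ) (g : ℤ → ℝ) :
    ∑ i ∈ Icc (0 : ℤ) ((n : ℤ) - 1), g i = ∑ j ∈ range n, g (j : ℤ) := by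
  induction n with
  | zero =>
    have e : Icc (0 : ℤ) (((0 : ℕ) : ℤ) - 1) = ∅ := Finset.Icc_eq_empty (by norm_num)
    rw [e]; simp
  | succ n ih =>
    have e := h208_Icc_succ 0 n (Nat.zero_le n)
    rw [Nat.cast_zero] at e
    rw [e, sum_insert (by simp), ih, sum_range_succ, add_comm]

theorem h208_Pb_mono' (q : ℝ) (h0 : 0 < q) (h1 : q < 1) (μ : Fam) (hp : ∀ n z, 0 < μ.p n z)
    (k M M' : ℕ) (hk : k + 2 ≤ M) (h : M ≤ M') : Pb q μ M k ≤ Pb q μ M' k := by
  induction M', h using Nat.le_induction with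
  | base => exact le_rfl
  | succ n hn ih => exact ih.trans (Pb_mono q h0 h1 μ hp n k (by omega))

theorem h208_sumPb (q : ℝ) (h0 : 0 < q) (h1 : q < 1) (μ : Fam) (hp : ∀ n z, 0 < μ.p n z)
    (r c : ℕ) :
    ∑ j ∈ range c, Pb q μ (r + c) (r + j) ≤ Pn q μ (r + c) - Pn q μ r := by
  unfold Pn
  rw [sum_range_add]
  have hf : Pf q μ r ≤ Pf q μ (r + c) :=
    monotone_nat_of_le_succ (fun n => Pf_mono q h0 h1 μ hp n) (by omega)
  have hs : ∑ k ∈ range r, Pb q μ (r + 1) k ≤ ∑ k ∈ range r, Pb q μ (r + c + 1) k := by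
    apply sum_le_sum
    intro k hk
    exact h208_Pb_mono' q h0 h1 μ hp k (r + 1) (r + c + 1)
      (by have := mem_range.1 hk; omega) (by omega)
  have ht : ∑ j ∈ range c, Pb q μ (r + c) (r + j) ≤
      ∑ j ∈ range c, Pb q μ (r + c + 1) (r + j) := by
    apply sum_le_sum
    intro j hj
    have hj' := mem_range.1 hj
    by_cases hh : r + j + 2 ≤ r + c
    · exact Pb_mono q h0 h1 μ hp (r + c) (r + j) hh
    · have e : r + c = (r + j) + 1 := by omega
      rw [e]
      exact Pb_last q h0 h1 μ hp (r + j)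
  linarith

theorem h208_last {q : ℝ} (h0 : 0 < q) (h1 : q < 1) (μ : Fam) (r b : ℕ) (x : Env) :
    (1 - q) ^ b * FA.EA q (Icc (b : ℤ) (2 * (b : ℤ) - 1)) (h208_fx q μ r b x) =
      μ.p (r + b) (h208_wd r x ∅) := by
  rw [h208_ps h0 h1 μ r b x (empty_subset _)]
  congr 1
  · unfold FA.wt
    rw [inter_empty, sdiff_empty, card_empty, pow_zero, one_mul, Int.card_Icc]
    congr 1
    omega
  · simp only [empty_union]

theorem h208_zr (μ : Fam) (r b : ℕ) :
    μ.E (r + b) (ind (zr r b)) = ∑ x ∈ W r, μ.p (r + b) (h208_wd r x ∅) := by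
  unfold Fam.E
  rw [h208_sum_wd]
  apply sum_congr rfl
  intro x _
  rw [sum_eq_single ∅]
  · have : zr r b (h208_wd r x ∅) := by
      intro j hj _
      unfold h208_wd
      rw [if_neg (by omega)]
      simp
    unfold ind
    rw [if_pos this, mul_one]
  · intro U hU hne
    have : ¬ zr r b (h208_wd r x U) := by
      intro hz
      obtain ⟨i, hi⟩ := nonempty_iff_ne_empty.2 hne
      have hi' := mem_Icc.1 (mem_powerset.1 hU hi)
      obtain ⟨j, rfl⟩ := Int.eq_ofNat_of_zero_le hi'.1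
      have := hz (r + j) (by omega) (by omega)
      rw [h208_wd_apply] at this
      simp [hi] at this
    unfold ind
    rw [if_neg this, mul_zero]
  · intro h
    exact absurd (empty_mem_powerset _) h

/-- entropy of a block is controlled by the production -/
theorem U2 (q : ℝ) (h0 : 0 < q) (h1 : q < 1) : ∃ K : ℝ, 0 < K ∧ ∀ μ : Fam, (∀ n z, 0 < μ.p n z) →
    ∀ s b : ℕ, 1 ≤ b → b ≤ s →
      ∑ m ∈ Finset.Ico s (s + b), μ.E (m + 1) (al q μ m) ≤
        K * b * (Pn q μ (s + b) - Pn q μ (s - b)) + K * b * μ.E s (ind (zr (s - b) b)) := by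
  obtain ⟨K, hK, hblk⟩ := FA.blk2_ent h0 h1
  refine ⟨K, hK, fun μ hp s b hb hbs => ?_⟩
  obtain ⟨r, rfl⟩ := Nat.exists_eq_add_of_le' hbs
  have e1 : r + b + b = r + 2 * b := by ring
  rw [Nat.add_sub_cancel, e1, h208_lhs q h0 h1 μ hp]
  refine (sum_le_sum (fun x _ => hblk b hb (h208_fx q μ r b x)
    (fun U => h208_fx_pos h0 h1 μ hp r b x U))).trans ?_
  rw [sum_add_distrib, ← mul_sum, ← mul_sum]
  have hKb : 0 ≤ K * (b : ℝ) := by positivity
  refine add_le_add (mul_le_mul_of_nonneg_left ?_ hKb) (mul_le_mul_of_nonneg_left ?_ hKb)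
  · have ec : ((2 * b : ℕ) : ℤ) = 2 * (b : ℤ) := by push_cast; ring
    refine le_trans ?_ (h208_sumPb q h0 h1 μ hp r (2 * b))
    have e2 : ∀ x ∈ W r, FA.EA q (Icc 0 (2 * (b : ℤ) - 1)) (fun S =>
        ∑ i ∈ Icc 0 (2 * (b : ℤ) - 1), FA.cst (Icc 0 (2 * (b : ℤ) - 1)) i S * (q * (1 - q) *
          ((h208_fx q μ r b x (insert i S) - h208_fx q μ r b x (S.erase i)) *
          (Real.log (h208_fx q μ r b x (insert i S)) -
            Real.log (h208_fx q μ r b x (S.erase i)))))) =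
        ∑ j ∈ range (2 * b), FA.EA q (Icc 0 (2 * (b : ℤ) - 1)) (fun S =>
        FA.cst (Icc 0 (2 * (b : ℤ) - 1)) (j : ℤ) S * (q * (1 - q) *
          ((h208_fx q μ r b x (insert (j : ℤ) S) - h208_fx q μ r b x (S.erase (j : ℤ))) *
          (Real.log (h208_fx q μ r b x (insert (j : ℤ) S)) -
            Real.log (h208_fx q μ r b x (S.erase (j : ℤ))))))) := by
      intro x _
      rw [← h208_sum_Icc (2 * b) (fun i => FA.EA q (Icc 0 (2 * (b : ℤ) - 1)) (fun S =>
        FA.cst (Icc 0 (2 * (b : ℤ) - 1)) i S * (q * (1 - q) *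
          ((h208_fx q μ r b x (insert i S) - h208_fx q μ r b x (S.erase i)) *
          (Real.log (h208_fx q μ r b x (insert i S)) -
            Real.log (h208_fx q μ r b x (S.erase i))))))), ec]
      unfold FA.EA
      rw [sum_comm]
      apply sum_congr rfl
      intro U _
      beta_reduce
      rw [mul_sum]
    rw [sum_congr rfl e2, sum_comm]
    exact sum_le_sum (fun j hj => h208_sum_site q h0 h1 μ hp r b j (mem_range.1 hj))
  · rw [h208_zr]
    exact sum_le_sum (fun x _ => (h208_last h0 h1 μ r b x).le)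

end FAF
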