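import Pool.Agent.Helper870.FADefs

set_option autoImplicit false
set_option linter.unusedSectionVars false

open Finset

noncomputable section

namespace FA


/-- error bound -/
def sr_E (C c : ℝ) (x b : ℕ) : ℝ := C * (x + b + 1) ^ 2 * Real.exp (-(c * b))

theorem sr_E_nonneg (C c : ℝ) (hC : 0 ≤ C) (x b : ℕ) : 0 ≤ sr_E C c x b := by
  unfold sr_E; positivity

theorem sr_E_le (C c : ℝ) (hC : 0 ≤ C) (hc : 0 < c) (R : ℝ) (hR : 0 ≤ R) (x b : ℕ) (hb : 1 ≤ b)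
    (hx : (x : ℝ) ≤ R * b) :
    sr_E C c x b ≤ C * (R + 2) ^ 2 * (24 / c ^ 4) / (b : ℝ) ^ 2 := by
  have hb' : (1:ℝ) ≤ b := by exact_mod_cast hb
  have hb0 : (0:ℝ) < b := by linarith
  unfold sr_E
  have h1 : (x + b + 1 : ℝ) ≤ (R + 2) * b := by nlinarith
  have hx0 : (0:ℝ) ≤ x := Nat.cast_nonneg x
  have h2 : (x + b + 1 : ℝ) ^ 2 ≤ ((R + 2) * b) ^ 2 := pow_le_pow_left₀ (by positivity) h1 2
  have h3 := Real.pow_div_factorial_le_exp (x := c * b) (by positivity) 4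
  have h4 : ((4:ℕ).factorial : ℝ) = 24 := by norm_num [Nat.factorial]
  rw [h4] at h3
  have h5 : Real.exp (-(c * b)) ≤ 24 / (c * b) ^ 4 := by
    rw [Real.exp_neg, inv_eq_one_div, div_le_div_iff₀ (Real.exp_pos _) (by positivity)]
    rw [div_le_iff₀ (by norm_num)] at h3
    linarith
  calc C * (x + b + 1 : ℝ) ^ 2 * Real.exp (-(c * b))
      ≤ C * ((R + 2) * b) ^ 2 * (24 / (c * b) ^ 4) := by
        have := Real.exp_nonneg (-(c * b))
        gcongr
    _ = C * (R + 2) ^ 2 * (24 / c ^ 4) / (b : ℝ) ^ 2 := by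
        field_simp

theorem sr_pL (P a T : ℕ → ℝ) (e : ℕ → ℕ → ℝ) (L K C c : ℝ) (hK : 1 ≤ K) (hC : 0 ≤ C)
    (hc : 0 < c) (hP : Monotone P) (ha : ∀ n, 0 ≤ a n)
    (h1 : ∀ n, P n ≤ L + T n + K * a (n + 1))
    (hT2 : ∀ ε : ℝ, 0 < ε → ∃ δ : ℝ, 0 < δ ∧ ∀ n, P (n + 1) - P n ≤ δ → T n ≤ ε)
    (h3 : ∀ s b : ℕ, 1 ≤ b → b ≤ s →
      ∑ m ∈ Finset.Ico s (s + b), a m ≤ K * b * (P (s + b) - P (s - b)) + K * b * e (s - b) b)
    (h4 : ∀ s b : ℕ, e s b ≤ sr_E C c s b) (p : ℝ) (hp : ∀ n, P n ≤ p)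
    (hlim : Filter.Tendsto P Filter.atTop (nhds p)) : p ≤ L := by
  by_contra hcon
  push Not at hcon
  obtain ⟨ε, hε⟩ : ∃ ε, ε = (p - L) / 4 := ⟨_, rfl⟩
  have hε0 : 0 < ε := by rw [hε]; linarith
  obtain ⟨δ, hδ, hT'⟩ := hT2 ε hε0
  have ev1 : ∀ᶠ n in Filter.atTop, p - δ < P n := hlim.eventually (lt_mem_nhds (by linarith))
  have hK2 : 0 < 2 * K ^ 2 + 1 := by positivity
  have ev2 : ∀ᶠ n in Filter.atTop, p - ε / (2 * K ^ 2 + 1) < P n :=
    hlim.eventually (lt_mem_nhds (by have := div_pos hε0 hK2; linarith))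
  obtain ⟨G, hG⟩ : ∃ G, G = C * ((1:ℝ) + 2) ^ 2 * (24 / c ^ 4) := ⟨_, rfl⟩
  have hG0 : 0 ≤ G := by rw [hG]; positivity
  have ev3 : ∀ᶠ n : ℕ in Filter.atTop, (2 * K ^ 2 * G) / (n:ℝ) < ε :=
    (tendsto_const_div_atTop_nhds_zero_nat (2 * K ^ 2 * G)).eventually (gt_mem_nhds hε0)
  obtain ⟨b, ⟨⟨hb1, hb2⟩, hb3⟩, hb4⟩ :=
    (((ev1.and ev2).and ev3).and (Filter.eventually_ge_atTop 2)).exists
  obtain ⟨b', rfl⟩ : ∃ b', b = b' + 1 := ⟨b - 1, by omega⟩
  have hb'1 : (1:ℝ) ≤ b' := by exact_mod_cast (by omega : 1 ≤ b')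
  have hbR : ((b' + 1 : ℕ) : ℝ) = b' + 1 := by push_cast; ring
  -- bounds
  have hEb : sr_E C c (b' + 1) (b' + 1) ≤ G / ((b' + 1 : ℕ) : ℝ) ^ 2 := by
    rw [hG]
    exact sr_E_le C c hC hc 1 zero_le_one (b' + 1) (b' + 1) (by omega) (by rw [one_mul])
  have hE0 := sr_E_nonneg C c hC (b' + 1) (b' + 1)
  have hEε : 2 * K ^ 2 * sr_E C c (b' + 1) (b' + 1) < ε := by
    refine lt_of_le_of_lt ?_ hb3
    have h5 : G / ((b' + 1 : ℕ) : ℝ) ^ 2 ≤ G / ((b' + 1 : ℕ) : ℝ) := by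
      apply div_le_div_of_nonneg_left hG0 (by positivity)
      rw [hbR]
      nlinarith
    calc 2 * K ^ 2 * sr_E C c (b' + 1) (b' + 1) ≤ 2 * K ^ 2 * (G / ((b' + 1 : ℕ) : ℝ)) := by
          apply mul_le_mul_of_nonneg_left (hEb.trans h5) (by positivity)
      _ = _ := by ring
  have hQε : (2 * K ^ 2 + 1) * (p - P (b' + 1)) < ε := by
    have : p - P (b' + 1) < ε / (2 * K ^ 2 + 1) := by linarith
    rw [lt_div_iff₀ hK2] at this
    linarith
  have hQ0 : 0 ≤ p - P (b' + 1) := by linarith [hp (b' + 1)]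
  -- block sum
  have hS := h3 (2 * (b' + 1)) (b' + 1) (by omega) (by omega)
  have e1 : 2 * (b' + 1) - (b' + 1) = b' + 1 := by omega
  rw [e1, Finset.sum_Ico_eq_sum_range] at hS
  have e2 : 2 * (b' + 1) + (b' + 1) - 2 * (b' + 1) = b' + 1 := by omega
  rw [e2, Finset.sum_range_succ'] at hS
  obtain ⟨i, hi, hai⟩ : ∃ i ∈ Finset.range b', a (2 * (b' + 1) + (i + 1)) ≤
      2 * K * ((p - P (b' + 1)) + sr_E C c (b' + 1) (b' + 1)) := by
    apply Finset.exists_le_of_sum_le (Finset.nonempty_range_iff.mpr (by omega))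
    rw [Finset.sum_const, Finset.card_range, nsmul_eq_mul]
    have h6 := ha (2 * (b' + 1) + 0)
    have h7 := hp (2 * (b' + 1) + (b' + 1))
    have h8 := h4 (b' + 1) (b' + 1)
    have h9 : K * ((b' + 1 : ℕ) : ℝ) * (P (2 * (b' + 1) + (b' + 1)) - P (b' + 1)) ≤
        K * ((b' + 1 : ℕ) : ℝ) * (p - P (b' + 1)) :=
      mul_le_mul_of_nonneg_left (by linarith) (by positivity)
    have h10 : K * ((b' + 1 : ℕ) : ℝ) * e (b' + 1) (b' + 1) ≤
        K * ((b' + 1 : ℕ) : ℝ) * sr_E C c (b' + 1) (b' + 1) :=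
      mul_le_mul_of_nonneg_left h8 (by positivity)
    have h11 : K * ((b' + 1 : ℕ) : ℝ) * ((p - P (b' + 1)) + sr_E C c (b' + 1) (b' + 1)) ≤
        b' * (2 * K * ((p - P (b' + 1)) + sr_E C c (b' + 1) (b' + 1))) := by
      rw [hbR]
      have : 0 ≤ K * (p - P (b' + 1) + sr_E C c (b' + 1) (b' + 1)) * (b' - 1) :=
        mul_nonneg (mul_nonneg (by linarith) (by linarith)) (by linarith)
      nlinarith
    linarith
  have hi' := Finset.mem_range.mp hi
  have k1 := h1 (2 * (b' + 1) + i)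
  have k2 : P (b' + 1) ≤ P (2 * (b' + 1) + i) := hP (by omega)
  have k3 : T (2 * (b' + 1) + i) ≤ ε := by
    apply hT'
    have := hp (2 * (b' + 1) + i + 1)
    linarith
  have k4 : K * a (2 * (b' + 1) + i + 1) ≤
      K * (2 * K * ((p - P (b' + 1)) + sr_E C c (b' + 1) (b' + 1))) :=
    mul_le_mul_of_nonneg_left hai (by linarith)
  have k5 : 4 * ε = p - L := by rw [hε]; ring
  nlinarith

theorem sr_rec (P a : ℕ → ℝ) (e : ℕ → ℕ → ℝ) (L K C c : ℝ) (hK : 1 ≤ K) (hC : 0 ≤ C)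
    (hP : Monotone P) (ha : ∀ n, 0 ≤ a n)
    (h2 : ∀ n, L ≤ P (n + 1) + K * (P (n + 1) - P n) + K * a n + K * a (n + 1))
    (h3 : ∀ s b : ℕ, 1 ≤ b → b ≤ s →
      ∑ m ∈ Finset.Ico s (s + b), a m ≤ K * b * (P (s + b) - P (s - b)) + K * b * e (s - b) b)
    (h4 : ∀ s b : ℕ, e s b ≤ sr_E C c s b) (p : ℝ) (hp : ∀ n, P n ≤ p) (hpL : p ≤ L)
    (x b : ℕ) (hb : 1 ≤ b) (hbK : 4 * K ≤ b) :
    p - P (x + 2 * b) ≤ (2 * K ^ 2 + 1 / 4) / (2 * K ^ 2 + 3 / 4) * (p - P x) + sr_E C c x b := by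
  obtain ⟨b', rfl⟩ : ∃ b', b = b' + 1 := ⟨b - 1, by omega⟩
  have hbR : ((b' + 1 : ℕ) : ℝ) = b' + 1 := by push_cast; ring
  have hE0 := sr_E_nonneg C c hC x (b' + 1)
  have hS := h3 (x + (b' + 1)) (b' + 1) hb (by omega)
  have e1 : x + (b' + 1) - (b' + 1) = x := by omega
  have e2 : x + (b' + 1) + (b' + 1) - (x + (b' + 1)) = b' + 1 := by omega
  have e3 : x + (b' + 1) + (b' + 1) = x + 2 * (b' + 1) := by omega
  rw [Finset.sum_Ico_eq_sum_range, e2, e1, e3] at hS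
  set S := ∑ k ∈ Finset.range (b' + 1), a (x + (b' + 1) + k) with hSdef
  have s1 : ∑ k ∈ Finset.range b', a (x + (b' + 1) + k) ≤ S := by
    rw [hSdef, Finset.sum_range_succ]
    linarith [ha (x + (b' + 1) + b')]
  have s2 : ∑ k ∈ Finset.range b', a (x + (b' + 1) + k + 1) ≤ S := by
    rw [hSdef, Finset.sum_range_succ']
    have := ha (x + (b' + 1) + 0)
    have e4 : ∑ k ∈ Finset.range b', a (x + (b' + 1) + (k + 1)) =
        ∑ k ∈ Finset.range b', a (x + (b' + 1) + k + 1) := rfl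
    linarith
  have s3 : ∑ k ∈ Finset.range b', (P (x + (b' + 1) + k + 1) - P (x + (b' + 1) + k)) =
      P (x + (b' + 1) + b') - P (x + (b' + 1)) := by
    exact Finset.sum_range_sub (fun k => P (x + (b' + 1) + k)) b'
  have s4 : (b' : ℝ) * (p - P (x + 2 * (b' + 1))) ≤
      ∑ k ∈ Finset.range b', (K * (P (x + (b' + 1) + k + 1) - P (x + (b' + 1) + k)) +
        K * a (x + (b' + 1) + k) + K * a (x + (b' + 1) + k + 1)) := by
    have : (b' : ℝ) * (p - P (x + 2 * (b' + 1))) =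
        ∑ k ∈ Finset.range b', (p - P (x + 2 * (b' + 1))) := by
      rw [Finset.sum_const, Finset.card_range, nsmul_eq_mul]
    rw [this]
    apply Finset.sum_le_sum
    intro k hk
    have hk' := Finset.mem_range.mp hk
    have t1 := h2 (x + (b' + 1) + k)
    have t2 : P (x + (b' + 1) + k + 1) ≤ P (x + 2 * (b' + 1)) := hP (by omega)
    linarith
  rw [Finset.sum_add_distrib, Finset.sum_add_distrib, ← Finset.mul_sum, ← Finset.mul_sum,
    ← Finset.mul_sum, s3] at s4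
  have s5 : P (x + (b' + 1) + b') - P (x + (b' + 1)) ≤ p - P x := by
    have t1 := hp (x + (b' + 1) + b')
    have t2 : P x ≤ P (x + (b' + 1)) := hP (by omega)
    linarith
  have s6 := h4 x (b' + 1)
  set Qx := p - P x with hQx
  set Qy := p - P (x + 2 * (b' + 1)) with hQy
  have hQx0 : 0 ≤ Qx := by linarith [hp x]
  have hQy0 : 0 ≤ Qy := by linarith [hp (x + 2 * (b' + 1))]
  have s7 : P (x + 2 * (b' + 1)) - P x = Qx - Qy := by rw [hQx, hQy]; ring
  rw [s7] at hS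
  set E := sr_E C c x (b' + 1) with hE
  set B : ℝ := ((b' + 1 : ℕ) : ℝ) with hB
  have hB0 : 0 < B := by rw [hB]; positivity
  have hb'B : (b' : ℝ) = B - 1 := by rw [hbR]; ring
  have s8 : S ≤ K * B * (Qx - Qy) + K * B * E := by
    have : K * B * e x (b' + 1) ≤ K * B * E := mul_le_mul_of_nonneg_left s6 (by positivity)
    linarith
  have s9 : (B - 1) * Qy ≤ K * Qx + 2 * K * (K * B * (Qx - Qy) + K * B * E) := by
    rw [hb'B] at s4
    have t1 := mul_le_mul_of_nonneg_left s5 (by linarith : 0 ≤ K)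
    have t2 := mul_le_mul_of_nonneg_left s1 (by linarith : 0 ≤ K)
    have t3 := mul_le_mul_of_nonneg_left s2 (by linarith : 0 ≤ K)
    have t4 := mul_le_mul_of_nonneg_left s8 (by linarith : 0 ≤ 2 * K)
    linarith
  have hden : 0 < 2 * K ^ 2 + 3 / 4 := by positivity
  have s10 : B * ((2 * K ^ 2 + 3 / 4) * Qy) ≤
      B * ((2 * K ^ 2 + 1 / 4) * Qx + (2 * K ^ 2 + 3 / 4) * E) := by
    have t1 : 0 ≤ (B / 4 - 1) * Qy := mul_nonneg (by linarith) hQy0
    have t2 : 0 ≤ (B / 4 - K) * Qx := mul_nonneg (by linarith) hQx0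
    have t3 : 0 ≤ B * (3 / 4 * E) := by positivity
    nlinarith
  have s11 := le_of_mul_le_mul_left s10 hB0
  have s12 : Qy ≤ ((2 * K ^ 2 + 1 / 4) * Qx + (2 * K ^ 2 + 3 / 4) * E) / (2 * K ^ 2 + 3 / 4) := by
    rw [le_div_iff₀ hden]; linarith
  calc Qy ≤ _ := s12
    _ = _ := by field_simp

theorem sr_iter (Q : ℕ → ℝ) (κ Eb : ℝ) (x b : ℕ) (hκ0 : 0 ≤ κ) (hκ1 : κ ≤ 1) (hE : 0 ≤ Eb)
    (M : ℕ) (h : ∀ i < M, Q (x + 2 * i * b + 2 * b) ≤ κ * Q (x + 2 * i * b) + Eb) :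
    ∀ j ≤ M, Q (x + 2 * j * b) ≤ κ ^ j * Q x + j * Eb := by
  intro j
  induction j with
  | zero => intro _; simp
  | succ j ih =>
    intro hj
    have h1 := ih (by omega)
    have h2 := h j (by omega)
    have e1 : x + 2 * (j + 1) * b = x + 2 * j * b + 2 * b := by ring
    rw [e1]
    have h3 := mul_le_mul_of_nonneg_left h1 hκ0
    have h4 : κ * (j * Eb) ≤ 1 * (j * Eb) := mul_le_mul_of_nonneg_right hκ1 (by positivity)
    push_cast
    calc Q (x + 2 * j * b + 2 * b) ≤ κ * Q (x + 2 * j * b) + Eb := h2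
      _ ≤ κ * (κ ^ j * Q x + j * Eb) + Eb := by linarith
      _ = κ ^ (j + 1) * Q x + κ * (j * Eb) + Eb := by ring
      _ ≤ κ ^ (j + 1) * Q x + (j + 1) * Eb := by linarith

theorem sr_geom (U : ℕ → ℝ) (D : ℝ) (hU : ∀ k, 0 ≤ U k)
    (h : ∀ k, U (k + 1) ≤ U k / 2 + D / 2 ^ k) (n : ℕ) :
    ∑ k ∈ Finset.range n, U k ≤ 2 * U 0 + 4 * |D| := by
  have key : ∀ n, ∑ k ∈ Finset.range n, U k + 2 * U n ≤ 2 * U 0 + 4 * |D| * (1 - 1 / 2 ^ n) := by
    intro n
    induction n with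
    | zero => simp
    | succ n ih =>
      rw [Finset.sum_range_succ]
      have h1 := h n
      have h2 : D / 2 ^ n ≤ |D| / 2 ^ n :=
        div_le_div_of_nonneg_right (le_abs_self D) (by positivity)
      have h3 : (1:ℝ) / 2 ^ (n + 1) = 1 / 2 ^ n / 2 := by rw [pow_succ]; field_simp
      rw [h3]
      have h4 : |D| / 2 ^ n = |D| * (1 / 2 ^ n) := by ring
      nlinarith
  have h1 := key n
  have h2 : 0 ≤ |D| * (1 / 2 ^ n) := by positivity
  nlinarith [hU n]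

/-- an entropy recursion forcing summability -/
theorem seq_rec (P a T : ℕ → ℝ) (e : ℕ → ℕ → ℝ) (L K C c A0 : ℝ) (hK : 1 ≤ K) (hC : 0 ≤ C) (hc : 0 < c)
    (hP : Monotone P) (ha : ∀ n, 0 ≤ a n) (hA : ∀ n, a n ≤ A0)
    (h1 : ∀ n, P n ≤ L + T n + K * a (n + 1)) (hT : ∀ n, T n ≤ K)
    (hT2 : ∀ ε : ℝ, 0 < ε → ∃ δ : ℝ, 0 < δ ∧ ∀ n, P (n + 1) - P n ≤ δ → T n ≤ ε)
    (h2 : ∀ n, L ≤ P (n + 1) + K * (P (n + 1) - P n) + K * a n + K * a (n + 1))
    (h3 : ∀ s b : ℕ, 1 ≤ b → b ≤ s →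
      ∑ m ∈ Finset.Ico s (s + b), a m ≤ K * b * (P (s + b) - P (s - b)) + K * b * e (s - b) b)
    (h4 : ∀ s b : ℕ, e s b ≤ C * (s + b + 1) ^ 2 * Real.exp (-(c * b))) :
    Summable a := by
  have h4' : ∀ s b : ℕ, e s b ≤ sr_E C c s b := h4
  have hbd : ∀ n, P n ≤ L + K + K * A0 := fun n => by
    have t1 := h1 n
    have t2 := hT n
    have t3 := mul_le_mul_of_nonneg_left (hA (n + 1)) (by linarith : 0 ≤ K)
    linarith
  obtain ⟨p, hp, hlim⟩ : ∃ p, (∀ n, P n ≤ p) ∧ Filter.Tendsto P Filter.atTop (nhds p) := by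
    have hB : BddAbove (Set.range P) := ⟨L + K + K * A0, by rintro _ ⟨n, rfl⟩; exact hbd n⟩
    exact ⟨⨆ n, P n, fun n => le_ciSup hB n, tendsto_atTop_ciSup hP hB⟩
  have hpL : p ≤ L := sr_pL P a T e L K C c hK hC hc hP ha h1 hT2 h3 h4' p hp hlim
  have hrec := sr_rec P a e L K C c hK hC hP ha h2 h3 h4' p hp hpL
  obtain ⟨κ, hκ⟩ : ∃ κ, κ = (2 * K ^ 2 + 1 / 4) / (2 * K ^ 2 + 3 / 4) := ⟨_, rfl⟩
  rw [← hκ] at hrec
  have hκ0 : 0 ≤ κ := by rw [hκ]; positivity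
  have hκ1 : κ < 1 := by
    rw [hκ, div_lt_one (by positivity)]; linarith
  obtain ⟨M, hM⟩ := exists_pow_lt_of_lt_one (by norm_num : (0:ℝ) < 1 / 4) hκ1
  have hM1 : 1 ≤ M := by
    by_contra hcon
    have : M = 0 := by omega
    rw [this] at hM
    norm_num at hM
  obtain ⟨G, hG⟩ : ∃ G, G = C * ((4 * M : ℝ) + 2) ^ 2 * (24 / c ^ 4) := ⟨_, rfl⟩
  have hG0 : 0 ≤ G := by rw [hG]; positivity
  have hEG : ∀ x b : ℕ, 1 ≤ b → x ≤ 4 * M * b → sr_E C c x b ≤ G / (b:ℝ) ^ 2 := by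
    intro x b hb hx
    rw [hG]
    exact sr_E_le C c hC hc (4 * M) (by positivity) x b hb (by exact_mod_cast hx)
  obtain ⟨Q, hQ⟩ : ∃ Q : ℕ → ℝ, ∀ n, Q n = p - P n := ⟨fun n => p - P n, fun _ => rfl⟩
  have hQ0 : ∀ n, 0 ≤ Q n := fun n => by rw [hQ]; linarith [hp n]
  have hQa : ∀ m n, m ≤ n → Q n ≤ Q m := fun m n h => by rw [hQ, hQ]; linarith [hP h]
  have hstep : ∀ b : ℕ, 1 ≤ b → 4 * K ≤ b →
      Q (4 * M * b) ≤ 1 / 4 * Q (2 * M * b) + M * (G / (b:ℝ) ^ 2) := by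
    intro b hb hbK
    have t1 := sr_iter Q κ (G / (b:ℝ) ^ 2) (2 * M * b) b hκ0 hκ1.le (by positivity) M
      (fun i hi => by
        have t2 := hrec (2 * M * b + 2 * i * b) b hb hbK
        have t3 := hEG (2 * M * b + 2 * i * b) b hb (by nlinarith)
        rw [hQ, hQ]
        linarith) M le_rfl
    have e1 : 2 * M * b + 2 * M * b = 4 * M * b := by ring
    rw [e1] at t1
    have t4 := mul_le_mul_of_nonneg_right hM.le (hQ0 (2 * M * b))
    linarith
  -- the threshold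
  obtain ⟨k0, hk0⟩ : ∃ k0 : ℕ, 4 * K ≤ (2:ℝ) ^ k0 :=
    (pow_unbounded_of_one_lt (4 * K) (by norm_num : (1:ℝ) < 2)).imp fun _ h => h.le
  have hk0' : ∀ k, 4 * K ≤ (((2 ^ (k0 + k) : ℕ)) : ℝ) := by
    intro k
    push_cast
    rw [pow_add]
    have : (1:ℝ) ≤ 2 ^ k := one_le_pow₀ (by norm_num)
    nlinarith [pow_pos (by norm_num : (0:ℝ) < 2) k0]
  obtain ⟨U, hU⟩ : ∃ U : ℕ → ℝ, ∀ k, U k = 2 ^ (k0 + k) * Q (2 * M * 2 ^ (k0 + k)) :=
    ⟨fun k => 2 ^ (k0 + k) * Q (2 * M * 2 ^ (k0 + k)), fun _ => rfl⟩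
  have hU0 : ∀ k, 0 ≤ U k := fun k => by
    rw [hU]; exact mul_nonneg (by positivity) (hQ0 _)
  have hUrec : ∀ k, U (k + 1) ≤ U k / 2 + (2 * M * G) / 2 ^ k := by
    intro k
    rw [hU, hU]
    have t1 := hstep (2 ^ (k0 + k)) Nat.one_le_two_pow (hk0' k)
    have e1 : 2 * M * 2 ^ (k0 + (k + 1)) = 4 * M * 2 ^ (k0 + k) := by
      rw [← add_assoc, pow_succ]; ring
    rw [e1]
    push_cast at t1
    have hpos : (0:ℝ) < 2 ^ (k0 + k) := by positivity
    have t2 := mul_le_mul_of_nonneg_left t1 (by positivity : (0:ℝ) ≤ 2 * 2 ^ (k0 + k))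
    have e2 : (2:ℝ) ^ (k0 + (k + 1)) = 2 * 2 ^ (k0 + k) := by
      rw [← add_assoc, pow_succ]; ring
    rw [e2]
    have e3 : 2 * (2:ℝ) ^ (k0 + k) * (1 / 4 * Q (2 * M * 2 ^ (k0 + k)) +
        M * (G / (2 ^ (k0 + k)) ^ 2)) = 2 ^ (k0 + k) * Q (2 * M * 2 ^ (k0 + k)) / 2 +
        2 * M * G / 2 ^ (k0 + k) := by
      field_simp
      ring
    rw [e3] at t2
    refine t2.trans ?_
    have t3 : 2 * M * G / (2:ℝ) ^ (k0 + k) ≤ 2 * M * G / 2 ^ k := by
      apply div_le_div_of_nonneg_left (by positivity) (by positivity)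
      exact pow_le_pow_right₀ (by norm_num) (by omega)
    linarith
  have hUsum := sr_geom U (2 * M * G) hU0 hUrec
  -- block sums
  have hblock : ∀ k, ∑ n ∈ Finset.Ico (2 * M * 2 ^ (k0 + k + 1)) (2 * M * 2 ^ (k0 + k + 2)), a n
      ≤ 4 * M * K * U k + 2 * M * K * G / 2 ^ k := by
    intro k
    obtain ⟨b, hb⟩ : ∃ b : ℕ, b = 2 ^ (k0 + k + 1) := ⟨_, rfl⟩
    have hb1 : 1 ≤ b := by rw [hb]; exact Nat.one_le_two_pow
    have e1 : 2 * M * 2 ^ (k0 + k + 2) = 2 * M * b + 2 * M * b := by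
      rw [hb, pow_succ 2 (k0 + k + 1)]; ring
    rw [e1, ← hb]
    have hQb : Q (M * b) * b = 2 * U k := by
      rw [hU, hb]
      have : M * 2 ^ (k0 + k + 1) = 2 * M * 2 ^ (k0 + k) := by rw [pow_succ]; ring
      rw [this]
      push_cast
      rw [pow_succ]
      ring
    have hb0 : (0:ℝ) < b := by exact_mod_cast hb1
    -- partial block sums
    have part : ∀ i ≤ 2 * M, ∑ n ∈ Finset.Ico (2 * M * b) (2 * M * b + i * b), a n ≤
        i * (K * (2 * U k) + K * (G / b)) := by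
      intro i
      induction i with
      | zero => intro _; simp
      | succ i ih =>
        intro hi
        have t1 := ih (by omega)
        have t2 := h3 (2 * M * b + i * b) b hb1 (by nlinarith)
        have e2 : 2 * M * b + (i + 1) * b = 2 * M * b + i * b + b := by ring
        rw [e2, ← Finset.sum_Ico_consecutive a (by omega : 2 * M * b ≤ 2 * M * b + i * b)
          (by omega : 2 * M * b + i * b ≤ 2 * M * b + i * b + b)]
        have t3 : K * b * (P (2 * M * b + i * b + b) - P (2 * M * b + i * b - b)) ≤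
            K * (2 * U k) := by
          have t4 : P (2 * M * b + i * b + b) - P (2 * M * b + i * b - b) ≤ Q (M * b) := by
            have t5 : M * b ≤ 2 * M * b + i * b - b := by
              have : b ≤ M * b := Nat.le_mul_of_pos_left b hM1
              have e3 : 2 * M * b = M * b + M * b := by ring
              rw [e3]
              omega
            have t6 := hQa _ _ t5
            rw [hQ (2 * M * b + i * b - b)] at t6
            have t7 := hp (2 * M * b + i * b + b)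
            linarith
          calc _ ≤ K * b * Q (M * b) := mul_le_mul_of_nonneg_left t4 (by positivity)
            _ = K * (Q (M * b) * b) := by ring
            _ = _ := by rw [hQb]
        have t8 : K * b * e (2 * M * b + i * b - b) b ≤ K * (G / b) := by
          have t9 : e (2 * M * b + i * b - b) b ≤ G / (b:ℝ) ^ 2 := by
            refine (h4' _ _).trans (hEG _ _ hb1 ?_)
            have : i * b ≤ 2 * M * b := Nat.mul_le_mul_right _ (by omega)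
            have e3 : 4 * M * b = 2 * M * b + 2 * M * b := by ring
            rw [e3]
            omega
          calc _ ≤ K * b * (G / (b:ℝ) ^ 2) := mul_le_mul_of_nonneg_left t9 (by positivity)
            _ = _ := by field_simp
        push_cast
        linarith
    have t1 := part (2 * M) le_rfl
    refine t1.trans ?_
    have hGb : G / (b:ℝ) ≤ G / 2 ^ k := by
      apply div_le_div_of_nonneg_left hG0 (by positivity)
      rw [hb]
      push_cast
      exact pow_le_pow_right₀ (by norm_num) (by omega)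
    have t2 : (2 * M : ℝ) * (K * (G / b)) ≤ 2 * M * (K * (G / 2 ^ k)) := by
      have : 0 ≤ K := by linarith
      gcongr
    push_cast
    calc (2 * M : ℝ) * (K * (2 * U k) + K * (G / b)) =
          4 * M * K * U k + 2 * M * (K * (G / b)) := by ring
      _ ≤ 4 * M * K * U k + 2 * M * (K * (G / 2 ^ k)) := by linarith
      _ = _ := by ring
  -- partial sums
  obtain ⟨A1, hA1⟩ : ∃ A1, A1 = ∑ n ∈ Finset.range (2 * M * 2 ^ (k0 + 1)), a n := ⟨_, rfl⟩
  have hpart : ∀ j, ∑ n ∈ Finset.range (2 * M * 2 ^ (k0 + j + 1)), a n ≤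
      A1 + 4 * M * K * ∑ k ∈ Finset.range j, U k + 4 * M * K * G * (1 - 1 / 2 ^ j) := by
    intro j
    induction j with
    | zero => rw [hA1]; simp
    | succ j ih =>
      have t1 := hblock j
      have e1 : k0 + (j + 1) + 1 = k0 + j + 2 := by omega
      rw [e1, Finset.range_eq_Ico, ← Finset.sum_Ico_consecutive a (Nat.zero_le _)
        (Nat.mul_le_mul_left (2 * M) (Nat.pow_le_pow_right (by norm_num)
          (by omega : k0 + j + 1 ≤ k0 + j + 2))), ← Finset.range_eq_Ico,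
        Finset.sum_range_succ]
      have e2 : (1:ℝ) / 2 ^ (j + 1) = 1 / 2 ^ j / 2 := by rw [pow_succ]; field_simp
      rw [e2]
      have e3 : 2 * M * K * G / 2 ^ j = 4 * M * K * G * (1 / 2 ^ j - 1 / 2 ^ j / 2) := by ring
      rw [e3] at t1
      linarith
  refine summable_of_sum_range_le (c := A1 + 4 * M * K * (2 * U 0 + 4 * |2 * M * G|) +
    4 * M * K * G) ha ?_
  intro n
  obtain ⟨j, hj⟩ : ∃ j, n ≤ 2 * M * 2 ^ (k0 + j + 1) := by
    refine ⟨n, ?_⟩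
    have t1 : n < 2 ^ n := Nat.lt_two_pow_self
    have t2 : 2 ^ n ≤ 2 ^ (k0 + n + 1) := Nat.pow_le_pow_right (by norm_num) (by omega)
    have t3 : 2 ^ (k0 + n + 1) ≤ 2 * M * 2 ^ (k0 + n + 1) :=
      Nat.le_mul_of_pos_left _ (by omega)
    omega
  have t1 : ∑ i ∈ Finset.range n, a i ≤ ∑ n ∈ Finset.range (2 * M * 2 ^ (k0 + j + 1)), a n :=
    Finset.sum_le_sum_of_subset_of_nonneg (Finset.range_mono hj) (fun i _ _ => ha i)
  have t2 := hpart j
  have hK0 : 0 ≤ K := by linarith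
  have t3 : 4 * M * K * ∑ k ∈ Finset.range j, U k ≤ 4 * M * K * (2 * U 0 + 4 * |2 * M * G|) :=
    mul_le_mul_of_nonneg_left (hUsum j) (by positivity)
  have t4 : 4 * M * K * G * (1 - 1 / 2 ^ j) ≤ 4 * M * K * G := by
    have : 0 ≤ 4 * M * K * G * (1 / 2 ^ j) := by positivity
    linarith
  linarith

end FA
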