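import Pool.Agent.Helper870.FAUD
import Pool.Agent.Helper769.FAF.P_pos
import Pool.Agent.Helper769.FAF.P_E_al_nonneg
import Pool.Agent.Helper769.FAF.P_al_le
import Pool.Agent.Helper769.FAF.P_E_one
import Pool.Agent.Helper769.FAF.P_Tb_le
import Pool.Agent.Helper769.FAF.P_Db_le_one
import Pool.Agent.Helper769.FAF.P_Db_le_sqrt
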