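import Pool.Agent.Helper870.FADefs
import Pool.Agent.Helper870.FAU3s
import Pool.Agent.Helper870.FAUD
import Pool.Agent.Helper870.FAU2
import Pool.Agent.Helper870.FAUE

set_option autoImplicit false
set_option linter.unusedSectionVars false

open Finset

noncomputable section

-- USES: U3s UD U2 UE
namespace FAF

/-- summability of the conditional entropies for every invariant law -/
theorem summable_al_of (q : ℝ) (h0 : 0 < q) (h1 : q < 1)
    (hU1a : ∀ μ : Fam, Inv q μ → (∀ n z, 0 < μ.p n z) → ∀ n : ℕ,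
      Pf q μ n + ∑ k ∈ range n, Pb q μ (n + 1) k ≤
        - Real.log (1 - q) * μ.E 1 (phi q) + Tb q μ n + (1 - q) * μ.E (n + 2) (al q μ (n + 1)))
    (hU1b : ∃ K : ℝ, 0 < K ∧ ∀ μ : Fam, Inv q μ → (∀ n z, 0 < μ.p n z) → ∀ n : ℕ,
      - Real.log (1 - q) * μ.E 1 (phi q) ≤
        (Pf q μ (n + 1) + ∑ k ∈ range (n + 1), Pb q μ (n + 2) k) + K * Pb q μ (n + 2) n
          + q * μ.E (n + 1) (al q μ n) + K * μ.E (n + 2) (al q μ (n + 1)))
    (μ : Fam) (hI : Inv q μ)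
    (hgap : ∃ C c : ℝ, 0 < c ∧ ∀ s b : ℕ, μ.E (s + b) (ind (zr s b)) ≤ C * (s + b + 1) ^ 2 * Real.exp (-(c * b))) :
    Summable (fun n : ℕ => μ.E (n + 1) (al q μ n)) := by
  have hp := pos q h0 h1 μ hI
  obtain ⟨K1, hK1, hU1b'⟩ := hU1b
  obtain ⟨K2, hK2, hU2⟩ := U2 q h0 h1
  obtain ⟨C, c, hc, hg⟩ := hgap
  have hl1 : 0 ≤ Real.log (1 / q) := Real.log_nonneg (by rw [le_div_iff₀ h0]; linarith)
  have hl2 : 0 ≤ Real.log (1 / (1 - q)) :=
    Real.log_nonneg (by rw [le_div_iff₀ (by linarith)]; linarith)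
  obtain ⟨A0, hA0⟩ : ∃ A0 : ℝ, A0 = Real.log (1 / q) + Real.log (1 / (1 - q)) := ⟨_, rfl⟩
  obtain ⟨K0, hK0⟩ : ∃ K0 : ℝ, K0 = 1 + Real.log (1 / q) + Real.log (1 / (1 - q)) := ⟨_, rfl⟩
  have hK0' : 1 ≤ K0 := by rw [hK0]; linarith
  obtain ⟨K, hK⟩ : ∃ K : ℝ, K = 1 + K1 + K2 + K0 := ⟨_, rfl⟩
  have hmono : Monotone (fun n => Pn q μ n) := monotone_nat_of_le_succ fun n => Pn_mono q h0 h1 μ hp n
  have ha : ∀ n, 0 ≤ μ.E (n + 1) (al q μ n) := fun n => E_al_nonneg q h0 h1 μ hp n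
  have hind : ∀ (n : ℕ) (Q : Env → Prop), 0 ≤ μ.E n (ind Q) := by
    intro n Q
    unfold Fam.E
    refine Finset.sum_nonneg fun z _ => mul_nonneg (μ.nn n z) ?_
    unfold ind
    split_ifs <;> norm_num
  have hPb0 : ∀ n, Pb q μ (n + 2) n ≤ Pn q μ (n + 1) - Pn q μ n := fun n => Pb_le_Pn q h0 h1 μ hp n
  have hP0 : ∀ n, 0 ≤ Pn q μ (n + 1) - Pn q μ n := fun n => sub_nonneg.2 (hmono (Nat.le_succ n))
  refine FA.seq_rec (fun n => Pn q μ n) (fun n => μ.E (n + 1) (al q μ n)) (fun n => Tb q μ n)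
    (fun s b => μ.E (s + b) (ind (zr s b))) (-Real.log (1 - q) * μ.E 1 (phi q)) K (max C 0) c A0
    (by rw [hK]; linarith) (le_max_right _ _) hc hmono ha ?_ ?_ ?_ ?_ ?_ ?_ ?_
  · intro n
    have h2 := E_mono μ (n + 1) (al q μ n) (fun z => A0 * (fun _ => (1 : ℝ)) z) (fun z _ => by
      have := al_le q h0 h1 μ hp n z
      simp only [mul_one]
      rw [hA0]; exact this)
    rw [E_smul, E_one, mul_one] at h2
    exact h2
  · intro n
    have h2 := hU1a μ hI hp n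
    have h3 := ha (n + 1)
    have h4 : (1 - q) * μ.E (n + 2) (al q μ (n + 1)) ≤ K * μ.E (n + 2) (al q μ (n + 1)) := by
      apply mul_le_mul_of_nonneg_right _ h3
      rw [hK]; linarith
    show Pf q μ n + ∑ k ∈ range n, Pb q μ (n + 1) k ≤ _
    have e : μ.E (n + 1 + 1) (al q μ (n + 1)) = μ.E (n + 2) (al q μ (n + 1)) := rfl
    simp only [e]
    linarith
  · intro n
    have h2 := Tb_le q h0 h1 μ hp n
    have h3 := Db_le_one q h0 h1 μ (n + 2) n (by omega)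
    have h4 : Real.sqrt (Db q μ (n + 2) n) ≤ 1 := Real.sqrt_le_one.2 h3
    rw [← hK0] at h2
    have h5 : K0 * Real.sqrt (Db q μ (n + 2) n) ≤ K0 * 1 := by gcongr
    have h6 : K0 ≤ K := by rw [hK]; linarith
    linarith
  · intro ε hε
    refine ⟨(ε / K0) ^ 4, by positivity, fun n hn => ?_⟩
    have h2 := Tb_le q h0 h1 μ hp n
    rw [← hK0] at h2
    have h3 := Db_le_sqrt q h0 h1 μ hp (n + 2) n (by omega)
    have h4 : Pb q μ (n + 2) n ≤ (ε / K0) ^ 4 := (hPb0 n).trans hn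
    have hx : 0 ≤ ε / K0 := by positivity
    have h5 : Real.sqrt (Pb q μ (n + 2) n) ≤ (ε / K0) ^ 2 := by
      have e4 : (ε / K0) ^ 4 = ((ε / K0) ^ 2) ^ 2 := by ring
      calc Real.sqrt (Pb q μ (n + 2) n) ≤ Real.sqrt ((ε / K0) ^ 4) := Real.sqrt_le_sqrt h4
        _ = (ε / K0) ^ 2 := by rw [e4, Real.sqrt_sq (by positivity)]
    have h6 : Real.sqrt (Db q μ (n + 2) n) ≤ ε / K0 := by
      calc Real.sqrt (Db q μ (n + 2) n) ≤ Real.sqrt ((ε / K0) ^ 2) :=
            Real.sqrt_le_sqrt (h3.trans h5)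
        _ = ε / K0 := Real.sqrt_sq hx
    have h7 : K0 * Real.sqrt (Db q μ (n + 2) n) ≤ K0 * (ε / K0) := by gcongr
    have h8 : K0 * (ε / K0) = ε := by
      field_simp
    linarith
  · intro n
    have h2 := hU1b' μ hI hp n
    have h3 := ha (n + 1)
    have h3' : 0 ≤ μ.E (n + 2) (al q μ (n + 1)) := h3
    have h4 := ha n
    have e1 : Pf q μ (n + 1) + ∑ k ∈ range (n + 1), Pb q μ (n + 2) k = Pn q μ (n + 1) := rfl
    rw [e1] at h2
    have h5 : K1 * Pb q μ (n + 2) n ≤ K * (Pn q μ (n + 1) - Pn q μ n) := by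
      calc K1 * Pb q μ (n + 2) n ≤ K1 * (Pn q μ (n + 1) - Pn q μ n) := by
            apply mul_le_mul_of_nonneg_left (hPb0 n) hK1.le
        _ ≤ K * (Pn q μ (n + 1) - Pn q μ n) := by
            apply mul_le_mul_of_nonneg_right _ (hP0 n)
            rw [hK]; linarith
    have h6 : q * μ.E (n + 1) (al q μ n) ≤ K * μ.E (n + 1) (al q μ n) := by
      apply mul_le_mul_of_nonneg_right _ h4
      rw [hK]; linarith
    have h7 : K1 * μ.E (n + 2) (al q μ (n + 1)) ≤ K * μ.E (n + 2) (al q μ (n + 1)) := by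
      apply mul_le_mul_of_nonneg_right _ h3'
      rw [hK]; linarith
    have e : μ.E (n + 1 + 1) (al q μ (n + 1)) = μ.E (n + 2) (al q μ (n + 1)) := rfl
    simp only [e]
    linarith
  · intro s b hb hbs
    have h2 := hU2 μ hp s b hb hbs
    have e : s - b + b = s := Nat.sub_add_cancel hbs
    simp only [e]
    have h3 : 0 ≤ (b : ℝ) * (Pn q μ (s + b) - Pn q μ (s - b)) :=
      mul_nonneg (Nat.cast_nonneg b) (sub_nonneg.2 (hmono (by omega)))
    have h4 : 0 ≤ (b : ℝ) * μ.E s (ind (zr (s - b) b)) :=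
      mul_nonneg (Nat.cast_nonneg b) (hind _ _)
    have h5 : K2 ≤ K := by rw [hK]; linarith
    have h6 := mul_le_mul_of_nonneg_right h5 h3
    have h7 := mul_le_mul_of_nonneg_right h5 h4
    have e1 : K2 * b * (Pn q μ (s + b) - Pn q μ (s - b)) =
      K2 * (b * (Pn q μ (s + b) - Pn q μ (s - b))) := by ring
    have e2 : K2 * b * μ.E s (ind (zr (s - b) b)) = K2 * (b * μ.E s (ind (zr (s - b) b))) := by ring
    have e3 : K * b * (Pn q μ (s + b) - Pn q μ (s - b)) =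
      K * (b * (Pn q μ (s + b) - Pn q μ (s - b))) := by ring
    have e4 : K * b * μ.E s (ind (zr (s - b) b)) = K * (b * μ.E s (ind (zr (s - b) b))) := by ring
    rw [e1, e2] at h2
    rw [e3, e4]
    linarith
  · intro s b
    refine (hg s b).trans ?_
    have h2 : 0 ≤ ((s : ℝ) + b + 1) ^ 2 * Real.exp (-(c * b)) := by positivity
    have h3 : C ≤ max C 0 := le_max_left _ _
    have h4 := mul_le_mul_of_nonneg_right h3 h2
    calc C * ((s : ℝ) + b + 1) ^ 2 * Real.exp (-(c * b))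
        = C * (((s : ℝ) + b + 1) ^ 2 * Real.exp (-(c * b))) := by ring
      _ ≤ max C 0 * (((s : ℝ) + b + 1) ^ 2 * Real.exp (-(c * b))) := h4
      _ = _ := by ring

end FAF
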