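import Mathlib
import Pool.Agent.Helper870.Config
import Pool.Agent.Helper870.Conn

open MeasureTheory

namespace Pool.Agent.Helper870.KNN

/-- the copy of `A` scaled by `r` and moved to `x` -/
def sc {d : ℕ} (x : EuclideanSpace ℝ (Fin d)) (r : ℝ) (A : Set (EuclideanSpace ℝ (Fin d))) :
    Set (EuclideanSpace ℝ (Fin d)) := {y | r⁻¹ • (y - x) ∈ A}

section
variable {d : ℕ} {B : Finset (Fin d)}

lemma sc_meas (x : EuclideanSpace ℝ (Fin d)) (r : ℝ) {A : Set (EuclideanSpace ℝ (Fin d))}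
    (hA : MeasurableSet A) : MeasurableSet (sc x r A) := by
  have hc : Continuous (fun y : EuclideanSpace ℝ (Fin d) => r⁻¹ • (y - x)) := by fun_prop
  exact hA.preimage hc.measurable

lemma sc_disjoint (x : EuclideanSpace ℝ (Fin d)) (r : ℝ) {A A' : Set (EuclideanSpace ℝ (Fin d))}
    (h : Disjoint A A') : Disjoint (sc x r A) (sc x r A') := by
  rw [Set.disjoint_left] at h ⊢
  intro y hy hy'
  exact h hy hy'

lemma sc_volume (x : EuclideanSpace ℝ (Fin d)) {r : ℝ} (hr : 0 < r) (A : Set (EuclideanSpace ℝ (Fin d))) :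
    volume (sc x r A) = ENNReal.ofReal (r ^ d) * volume A := by
  have h1 : sc x r A = (fun y => -x + y) ⁻¹' ((fun y => r⁻¹ • y) ⁻¹' A) := by
    ext y
    simp only [sc, Set.mem_preimage]
    rw [neg_add_eq_sub]
    rfl
  rw [h1, measure_preimage_add, Measure.addHaar_preimage_smul _ (by positivity)]
  congr 2
  rw [finrank_euclideanSpace_fin, inv_pow, inv_inv, abs_of_pos (by positivity)]

lemma dist_sc (x : EuclideanSpace ℝ (Fin d)) {r : ℝ} (hr : 0 < r) (y z : EuclideanSpace ℝ (Fin d)) :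
    dist y z = r * dist (r⁻¹ • (y - x)) (r⁻¹ • (z - x)) := by
  rw [dist_eq_norm, dist_eq_norm, ← smul_sub, norm_smul, Real.norm_of_nonneg (by positivity),
    sub_sub_sub_cancel_right]
  field_simp

lemma Config.Y_nonempty (hd : 1 ≤ d) (C : Config B) : ∃ y, y ∈ C.Y := by
  classical
  let i0 : Fin d := ⟨0, by omega⟩
  let u : EuclideanSpace ℝ (Fin d) := EuclideanSpace.single i0 5
  have hn : ‖u‖ = 5 := by simp [u]
  have hOm : u ∈ Om B := by
    intro i _
    simp only [u, EuclideanSpace.single_apply]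
    split_ifs <;> norm_num
  have h1 : u ∉ tc B 4 := by
    intro h
    have := mem_closedBall_zero_iff.1 h.1
    rw [hn] at this
    norm_num at this
  obtain ⟨_, y, hy, _⟩ := C.out u hOm (fun h => h1 (C.sD h)) (fun h => h1 (C.sE h))
  exact ⟨y, hy⟩

theorem not_connected {n : ℝ} (hd : 1 ≤ d) (C : Config B) (x : EuclideanSpace ℝ (Fin d)) {r : ℝ} (hr : 0 < r)
    (hx : ∀ i ∈ B, x i = 0) {S : Set (EuclideanSpace ℝ (Fin d))} (hSfin : S.Finite)
    (hSw : S ⊆ window d n) (k : ℕ) (h1 : (S ∩ sc x r C.D).ncard = k + 1)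
    (h2 : (S ∩ sc x r C.Eh).ncard = 0) (h3 : ∀ y ∈ C.Y, k < (S ∩ sc x r (C.T y)).ncard) :
    ¬ (knnGraph S k).Connected := by
  intro hconn
  have hrinv : 0 < r⁻¹ := inv_pos.2 hr
  have hE : ∀ y ∈ S, y ∉ sc x r C.Eh := by
    intro y hy hyE
    rw [Set.ncard_eq_zero (hSfin.subset Set.inter_subset_left)] at h2
    have : y ∈ S ∩ sc x r C.Eh := ⟨hy, hyE⟩
    rw [h2] at this
    exact this
  have hOm : ∀ y ∈ S, r⁻¹ • (y - x) ∈ Om B := by
    intro y hy i hi
    have h4 := (hSw hy i).1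
    have h5 := hx i hi
    change 0 ≤ r⁻¹ * (y i - x i)
    rw [h5, sub_zero]
    positivity
  have hτ : tau = 1 / 400 := rfl
  -- the cluster is closed under adjacency
  have hclosed : ∀ p q : S, (knnGraph S k).Adj p q → p.1 ∈ sc x r C.D → q.1 ∈ sc x r C.D := by
    intro p q hpq hp
    by_contra hq
    obtain ⟨hq1, y', hy', hT⟩ := C.out _ (hOm q.1 q.2) hq (hE q.1 q.2)
    set up := r⁻¹ • (p.1 - x) with hup
    set uq := r⁻¹ • (q.1 - x) with huq
    have hup1 : ‖up‖ ≤ tau := C.rD up hp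
    have hpq_dist : ‖uq‖ - tau ≤ dist up uq := by
      have : ‖uq‖ - ‖up‖ ≤ dist uq up := by rw [dist_eq_norm]; exact norm_sub_norm_le uq up
      rw [dist_comm] at this; linarith
    rcases hpq.2 with h | h
    · -- q among the nearest of p
      have hsub : (S ∩ sc x r C.D) \ {p.1} ⊆ {z ∈ S | z ≠ p.1 ∧ dist p.1 z < dist p.1 q.1} := by
        rintro z ⟨⟨hzS, hzD⟩, hzp⟩
        refine ⟨hzS, hzp, ?_⟩
        rw [dist_sc x hr p.1 z, dist_sc x hr p.1 q.1]
        apply mul_lt_mul_of_pos_left _ hr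
        have h4 := C.rDD up hp _ hzD
        have h5 : tau < 1 - tau := by rw [hτ]; norm_num
        calc dist up (r⁻¹ • (z - x)) ≤ tau := h4
          _ < ‖uq‖ - tau := by linarith
          _ ≤ dist up uq := hpq_dist
      have h4 := Set.ncard_le_ncard hsub (hSfin.subset (fun _ h => h.1))
      have h5 := ncard_le_sdiff (S ∩ sc x r C.D) (hSfin.subset Set.inter_subset_left) p.1
      have h6 := h.2
      omega
    · -- p among the nearest of q
      have hsub : (S ∩ sc x r (C.T y')) \ {q.1} ⊆ {z ∈ S | z ≠ q.1 ∧ dist q.1 z < dist q.1 p.1} := by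
        rintro z ⟨⟨hzS, hzD⟩, hzp⟩
        refine ⟨hzS, hzp, ?_⟩
        rw [dist_comm q.1 z, dist_comm q.1 p.1, dist_sc x hr z q.1, dist_sc x hr p.1 q.1]
        apply mul_lt_mul_of_pos_left _ hr
        exact lt_of_lt_of_le (hT _ hzD) hpq_dist
      have h4 := Set.ncard_le_ncard hsub (hSfin.subset (fun _ h => h.1))
      have h5 := ncard_le_sdiff (S ∩ sc x r (C.T y')) (hSfin.subset Set.inter_subset_left) q.1
      have h6 := h.2
      have h7 := h3 y' hy'
      omega
  -- points inside and outside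
  obtain ⟨p, hpS, hpD⟩ : (S ∩ sc x r C.D).Nonempty := by
    rw [← Set.ncard_pos (hSfin.subset Set.inter_subset_left)]; omega
  obtain ⟨y0, hy0⟩ := C.Y_nonempty hd
  obtain ⟨q, hqS, hqT⟩ : (S ∩ sc x r (C.T y0)).Nonempty := by
    rw [← Set.ncard_pos (hSfin.subset Set.inter_subset_left)]
    have := h3 y0 hy0; omega
  have hreach := hconn.preconnected ⟨p, hpS⟩ ⟨q, hqS⟩
  have hall : ∀ z : S, (knnGraph S k).Reachable ⟨p, hpS⟩ z → z.1 ∈ sc x r C.D := by
    intro z hz
    rw [SimpleGraph.reachable_iff_reflTransGen] at hz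
    induction hz with
    | refl => exact hpD
    | tail _ hbc ih => exact hclosed _ _ hbc ih
  have hqD := hall _ hreach
  exact (Set.disjoint_left.1 (sc_disjoint x r (C.dDT y0 hy0))) hqD hqT

/-- scaled copies at a location on the face lie in the window -/
lemma sc_window {n : ℝ} {x : EuclideanSpace ℝ (Fin d)} {r : ℝ} (hr : 0 < r)
    (hx : ∀ i ∈ B, x i = 0) (hx' : ∀ i ∉ B, 4 * r ≤ x i ∧ x i + 4 * r ≤ n ^ ((1:ℝ) / d))
    (hn : 4 * r ≤ n ^ ((1:ℝ) / d)) {A : Set (EuclideanSpace ℝ (Fin d))} (hA : A ⊆ tc B 4) :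
    sc x r A ⊆ window d n := by
  intro y hy i
  have h1 := hA hy
  have h2 := mem_closedBall_zero_iff.1 h1.1
  rw [norm_smul, Real.norm_of_nonneg (by positivity), inv_mul_le_iff₀ hr] at h2
  have h3 : |y i - x i| ≤ 4 * r := by
    have h4 := coord_le_dist y x i
    rw [dist_eq_norm] at h4
    linarith
  rw [abs_le] at h3
  by_cases hi : i ∈ B
  · have h4 := h1.2 i hi
    change 0 ≤ r⁻¹ * (y i - x i) at h4
    have h5 : 0 ≤ y i - x i := by
      by_contra hcon
      rw [not_le] at hcon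
      have := mul_neg_of_pos_of_neg (inv_pos.2 hr) hcon
      linarith
    rw [hx i hi] at h3 h5
    constructor <;> linarith
  · have h4 := hx' i hi
    constructor <;> linarith

/-- scaled copies at distant locations are disjoint -/
lemma sc_far_disjoint {x x' : EuclideanSpace ℝ (Fin d)} {r : ℝ} (hr : 0 < r) {i : Fin d}
    (hi : 8 * r < |x i - x' i|) {A A' : Set (EuclideanSpace ℝ (Fin d))} (hA : A ⊆ tc B 4)
    (hA' : A' ⊆ tc B 4) : Disjoint (sc x r A) (sc x' r A') := by
  rw [Set.disjoint_left]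
  intro y hy hy'
  have key : ∀ (z : EuclideanSpace ℝ (Fin d)) (A'' : Set (EuclideanSpace ℝ (Fin d))), A'' ⊆ tc B 4 →
      y ∈ sc z r A'' → |y i - z i| ≤ 4 * r := by
    intro z A'' hA'' hyz
    have h1 := hA'' hyz
    have h2 := mem_closedBall_zero_iff.1 h1.1
    rw [norm_smul, Real.norm_of_nonneg (by positivity), inv_mul_le_iff₀ hr] at h2
    have h4 := coord_le_dist y z i
    rw [dist_eq_norm] at h4
    linarith
  have h1 := key x A hA hy
  have h2 := key x' A' hA' hy'
  have h3 : |x i - x' i| ≤ |y i - x i| + |y i - x' i| := by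
    have : x i - x' i = -(y i - x i) + (y i - x' i) := by ring
    rw [this]
    refine (abs_add_le _ _).trans ?_
    rw [abs_neg]
  linarith

end

end Pool.Agent.Helper870.KNN
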