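import Mathlib
import Pool.Agent.Helper870.LowDet
import Pool.Agent.Helper870.Prob

open MeasureTheory ProbabilityTheory

namespace Pool.Agent.Helper870.KNN

/-- second moment bound for pairwise independent events of equal probability -/
lemma chebyshev {Ω E : Type*} [MeasurableSpace Ω] (P : Measure Ω) [IsProbabilityMeasure P]
    (L : Finset E) (H : E → Set Ω) (hH : ∀ x ∈ L, MeasurableSet (H x)) {p : ℝ} (hp : 0 < p)
    (hPH : ∀ x ∈ L, P (H x) = ENNReal.ofReal p) (hL : L.Nonempty)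
    (hind : Set.Pairwise (L : Set E) (fun x y => IndepFun ((H x).indicator (1 : Ω → ℝ)) ((H y).indicator (1 : Ω → ℝ)) P)) :
    P {ω | ∀ x ∈ L, ω ∉ H x} ≤ ENNReal.ofReal (1 / (L.card * p)) := by
  classical
  have hLc : (0:ℝ) < L.card := by exact_mod_cast hL.card_pos
  let I : E → Ω → ℝ := fun x => (H x).indicator (1 : Ω → ℝ)
  have hImeas : ∀ x ∈ L, Measurable (I x) := fun x hx => measurable_one.indicator (hH x hx)
  have hIbd : ∀ x ω, ‖I x ω‖ ≤ 1 := by
    intro x ω
    simp only [I, Set.indicator_apply]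
    split_ifs <;> simp
  have hIL2 : ∀ x ∈ L, MemLp (I x) 2 P := by
    intro x hx
    exact MemLp.of_bound (hImeas x hx).aestronglyMeasurable 1 (Filter.Eventually.of_forall (hIbd x))
  have hEI : ∀ x ∈ L, ∫ ω, I x ω ∂P = p := by
    intro x hx
    simp only [I]
    rw [integral_indicator_one (hH x hx), Measure.real, hPH x hx, ENNReal.toReal_ofReal hp.le]
  have hVI : ∀ x ∈ L, variance (I x) P ≤ p := by
    intro x hx
    refine (variance_le_expectation_sq (hImeas x hx).aestronglyMeasurable).trans ?_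
    have h1 : (fun ω => (I x ω) ^ 2) = I x := by
      funext ω
      simp only [I, Set.indicator_apply]
      split_ifs <;> simp
    have h2 : ∫ ω, ((I x) ^ 2) ω ∂P = ∫ ω, I x ω ∂P := by
      congr 1
    rw [h2, hEI x hx]
  let Z : Ω → ℝ := ∑ x ∈ L, I x
  have hZL2 : MemLp Z 2 P := memLp_finsetSum' L hIL2
  have hEZ : ∫ ω, Z ω ∂P = L.card * p := by
    have h1 : ∀ ω, Z ω = ∑ x ∈ L, I x ω := fun ω => Finset.sum_apply _ _ _
    simp_rw [h1]
    rw [integral_finsetSum L (fun x hx => (hIL2 x hx).integrable (by norm_num)),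
      Finset.sum_congr rfl hEI, Finset.sum_const, nsmul_eq_mul]
  have hVZ : variance Z P ≤ L.card * p := by
    have h1 : variance Z P = ∑ x ∈ L, variance (I x) P := IndepFun.variance_sum hIL2 hind
    rw [h1]
    calc ∑ x ∈ L, variance (I x) P ≤ ∑ _x ∈ L, p := Finset.sum_le_sum hVI
      _ = L.card * p := by rw [Finset.sum_const, nsmul_eq_mul]
  have hpos : 0 < L.card * p := by positivity
  have hcheb := meas_ge_le_variance_div_sq hZL2 hpos
  have hsub : {ω | ∀ x ∈ L, ω ∉ H x} ⊆ {ω | (L.card:ℝ) * p ≤ |Z ω - ∫ ω', Z ω' ∂P|} := by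
    intro ω hω
    have h1 : Z ω = 0 := by
      have : Z ω = ∑ x ∈ L, I x ω := Finset.sum_apply _ _ _
      rw [this]
      apply Finset.sum_eq_zero
      intro x hx
      exact Set.indicator_of_notMem (hω x hx) _
    change (L.card:ℝ) * p ≤ |Z ω - ∫ ω', Z ω' ∂P|
    rw [h1, hEZ, zero_sub, abs_neg, abs_of_pos hpos]
  refine (measure_mono hsub).trans (hcheb.trans (ENNReal.ofReal_le_ofReal ?_))
  calc variance Z P / (L.card * p) ^ 2 ≤ (L.card * p) / (L.card * p) ^ 2 :=
        div_le_div_of_nonneg_right hVZ (by positivity)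
    _ = 1 / (L.card * p) := by field_simp

section
variable {d : ℕ} {B : Finset (Fin d)} {Ω : Type} [MeasurableSpace Ω] {P : Measure Ω}
  {S : Set (EuclideanSpace ℝ (Fin d))} {X : Ω → Set (EuclideanSpace ℝ (Fin d))}

/-- probability of exactly `k+1` points in a region and none in another -/
noncomputable def p0 (μD μE : ℝ) (k : ℕ) : ℝ :=
  (Real.exp (-μD) * μD ^ (k + 1) / ((k + 1).factorial : ℝ)) * Real.exp (-μE)

lemma IsPoissonProcess.two (h : IsPoissonProcess P S X) {D E : Set (EuclideanSpace ℝ (Fin d))}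
    (hD : D ⊆ S) (hE : E ⊆ S) (mD : MeasurableSet D) (mE : MeasurableSet E) (hDE : Disjoint D E) (k : ℕ) :
    P {ω | (X ω ∩ D).ncard = k + 1 ∧ (X ω ∩ E).ncard = 0}
      = ENNReal.ofReal (p0 (volume D).toReal (volume E).toReal k) := by
  have hind := h.indep 2 ![D, E] (by intro i; fin_cases i <;> simp [hD, hE])
    (by intro i; fin_cases i <;> simp [mD, mE])
    (by
      intro i j hij
      fin_cases i <;> fin_cases j
      · exact absurd rfl hij
      · simpa using hDE
      · simpa using hDE.symm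
      · exact absurd rfl hij)
  have h2 := hind.indepFun (i := 0) (j := 1) (by decide)
  have h3 := h2.measure_inter_preimage_eq_mul {k + 1} {0} (measurableSet_singleton _) (measurableSet_singleton _)
  have e1 : {ω | (X ω ∩ D).ncard = k + 1 ∧ (X ω ∩ E).ncard = 0}
    = (fun ω => (X ω ∩ (![D, E] 0)).ncard) ⁻¹' {k + 1} ∩ (fun ω => (X ω ∩ (![D, E] 1)).ncard) ⁻¹' {0} := by
    ext ω; simp
  rw [e1, h3]
  have h4 : P ((fun ω => (X ω ∩ (![D, E] 0)).ncard) ⁻¹' {k + 1})
      = ENNReal.ofReal (Real.exp (-(volume D).toReal) * (volume D).toReal ^ (k + 1) / ((k + 1).factorial : ℝ)) :=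
    h.law D hD mD (k + 1)
  have h5 : P ((fun ω => (X ω ∩ (![D, E] 1)).ncard) ⁻¹' {0})
      = ENNReal.ofReal (Real.exp (-(volume E).toReal)) := h.void hE mE
  rw [h4, h5, p0, ENNReal.ofReal_mul (by positivity)]

lemma IsPoissonProcess.three (h : IsPoissonProcess P S X) {D E T : Set (EuclideanSpace ℝ (Fin d))}
    (hD : D ⊆ S) (hE : E ⊆ S) (hT : T ⊆ S) (mD : MeasurableSet D) (mE : MeasurableSet E)
    (mT : MeasurableSet T) (hDE : Disjoint D E) (hDT : Disjoint D T) (hET : Disjoint E T) (k : ℕ)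
    (hvT : 2 * (k:ℝ) ≤ (volume T).toReal) :
    P {ω | ((X ω ∩ D).ncard = k + 1 ∧ (X ω ∩ E).ncard = 0) ∧ (X ω ∩ T).ncard ≤ k}
      ≤ ENNReal.ofReal (p0 (volume D).toReal (volume E).toReal k * (Real.exp (-(k:ℝ)) * 2 ^ k)) := by
  have hind := h.indep 3 ![D, E, T] (by intro i; fin_cases i <;> simp [hD, hE, hT])
    (by intro i; fin_cases i <;> simp [mD, mE, mT])
    (by
      intro i j hij
      fin_cases i <;> fin_cases j
      · exact absurd rfl hij
      · simpa using hDE
      · simpa using hDT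
      · simpa using hDE.symm
      · exact absurd rfl hij
      · simpa using hET
      · simpa using hDT.symm
      · simpa using hET.symm
      · exact absurd rfl hij)
  have h3 := hind.measure_inter_preimage_eq_mul Finset.univ
    (sets := ![({k + 1} : Set ℕ), ({0} : Set ℕ), Set.Iic k])
    (by intro i _; exact MeasurableSet.of_discrete)
  have e1 : {ω | ((X ω ∩ D).ncard = k + 1 ∧ (X ω ∩ E).ncard = 0) ∧ (X ω ∩ T).ncard ≤ k}
    = ⋂ i ∈ (Finset.univ : Finset (Fin 3)), (fun ω => (X ω ∩ (![D, E, T] i)).ncard) ⁻¹'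
        (![({k + 1} : Set ℕ), ({0} : Set ℕ), Set.Iic k] i) := by
    ext ω
    simp only [Finset.mem_univ, Set.iInter_true, Set.mem_iInter, Set.mem_preimage, Fin.forall_fin_succ]
    simp
    constructor
    · rintro ⟨⟨a, b⟩, c⟩; exact ⟨a, b, c⟩
    · rintro ⟨a, b, c⟩; exact ⟨⟨a, b⟩, c⟩
  rw [e1, h3, Fin.prod_univ_three]
  have h4 : P ((fun ω => (X ω ∩ (![D, E, T] 0)).ncard) ⁻¹' (![({k + 1} : Set ℕ), ({0} : Set ℕ), Set.Iic k] 0))
      = ENNReal.ofReal (Real.exp (-(volume D).toReal) * (volume D).toReal ^ (k + 1) / ((k + 1).factorial : ℝ)) :=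
    h.law D hD mD (k + 1)
  have h5 : P ((fun ω => (X ω ∩ (![D, E, T] 1)).ncard) ⁻¹' (![({k + 1} : Set ℕ), ({0} : Set ℕ), Set.Iic k] 1))
      = ENNReal.ofReal (Real.exp (-(volume E).toReal)) := h.void hE mE
  have h6 : P ((fun ω => (X ω ∩ (![D, E, T] 2)).ncard) ⁻¹' (![({k + 1} : Set ℕ), ({0} : Set ℕ), Set.Iic k] 2))
      ≤ ENNReal.ofReal (Real.exp (-(k:ℝ)) * 2 ^ k) := by
    refine (h.tail_le hT mT hvT (t := 1 / 2) (by norm_num) (by norm_num) k).trans (le_of_eq ?_)
    congr 1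
    have h7 : 2 * (k:ℝ) * (1 / 2 - 1) = -k := by ring
    rw [h7, one_div_pow]
    field_simp
  rw [h4, h5]
  calc _ ≤ ENNReal.ofReal (Real.exp (-(volume D).toReal) * (volume D).toReal ^ (k + 1) / ((k + 1).factorial : ℝ)) *
        ENNReal.ofReal (Real.exp (-(volume E).toReal)) * ENNReal.ofReal (Real.exp (-(k:ℝ)) * 2 ^ k) :=
        mul_le_mul' le_rfl h6
    _ = _ := by
        rw [p0, ← ENNReal.ofReal_mul (by positivity), ← ENNReal.ofReal_mul (by positivity)]

open Classical in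
theorem lower_bound_prob {n : ℝ} [IsProbabilityMeasure P] (hd : 1 ≤ d) (C : Config B)
    (hX : IsPoissonProcess P (window d n) X) {r : ℝ} (hr : 0 < r) (k : ℕ) (hk : 1 ≤ k)
    (hrV : r ^ d * V0 B = 4 * k) (hn : 4 * r ≤ n ^ ((1:ℝ) / d))
    (L : Finset (EuclideanSpace ℝ (Fin d))) (hLne : L.Nonempty)
    (hLx : ∀ x ∈ L, (∀ i ∈ B, x i = 0) ∧ ∀ i ∉ B, 4 * r ≤ x i ∧ x i + 4 * r ≤ n ^ ((1:ℝ) / d))
    (hLfar : ∀ x ∈ L, ∀ x' ∈ L, x ≠ x' → ∃ i, 8 * r < |x i - x' i|)
    {p : ℝ} (hp : p = p0 (r ^ d * (tau / Real.sqrt d) ^ d) (r ^ d * (volume C.Eh).toReal) k)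
    (hR1 : k ≤ L.card * p) (hR2 : L.card * p ≤ k + 1) :
    P {ω | (knnGraph (X ω) k).Connected}
      ≤ ENNReal.ofReal (1 / k + (k + 1) * (C.Y.card * (Real.exp (-(k:ℝ)) * 2 ^ k))) := by
  have hk0 : (0:ℝ) < k := by exact_mod_cast hk
  have hLc : (0:ℝ) < L.card := by exact_mod_cast hLne.card_pos
  have hp0 : 0 < p := by
    by_contra hcon
    rw [not_lt] at hcon
    have : (L.card:ℝ) * p ≤ 0 := mul_nonpos_of_nonneg_of_nonpos hLc.le hcon
    linarith
  have hrd : 0 < r ^ d := pow_pos hr d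
  let H : EuclideanSpace ℝ (Fin d) → Set Ω := fun x =>
    {ω | (X ω ∩ sc x r C.D).ncard = k + 1 ∧ (X ω ∩ sc x r C.Eh).ncard = 0}
  have wD : ∀ x ∈ L, sc x r C.D ⊆ window d n := fun x hx => sc_window hr (hLx x hx).1 (hLx x hx).2 hn C.sD
  have wE : ∀ x ∈ L, sc x r C.Eh ⊆ window d n := fun x hx => sc_window hr (hLx x hx).1 (hLx x hx).2 hn C.sE
  have wT : ∀ x ∈ L, ∀ y ∈ C.Y, sc x r (C.T y) ⊆ window d n :=
    fun x hx y hy => sc_window hr (hLx x hx).1 (hLx x hx).2 hn (C.sT y hy)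
  have vD : ∀ x, (volume (sc x r C.D)).toReal = r ^ d * (tau / Real.sqrt d) ^ d := by
    intro x
    rw [sc_volume x hr, C.vD, ← ENNReal.ofReal_mul hrd.le, ENNReal.toReal_ofReal]
    have : 0 ≤ tau := by unfold tau; norm_num
    positivity
  have vE : ∀ x, (volume (sc x r C.Eh)).toReal = r ^ d * (volume C.Eh).toReal := by
    intro x
    rw [sc_volume x hr, ENNReal.toReal_mul, ENNReal.toReal_ofReal hrd.le]
  have vT : ∀ x, ∀ y ∈ C.Y, 2 * (k:ℝ) ≤ (volume (sc x r (C.T y))).toReal := by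
    intro x y hy
    rw [sc_volume x hr, ENNReal.toReal_mul, ENNReal.toReal_ofReal hrd.le]
    have h1 : V0 B / 2 ≤ (volume (C.T y)).toReal := by
      rw [← ENNReal.ofReal_le_iff_le_toReal]
      · exact C.vT y hy
      · exact ((measure_mono (C.sT y hy)).trans_lt (lt_top_iff_ne_top.2 (tc_finite B 4))).ne
    have h2 : r ^ d * (V0 B / 2) ≤ r ^ d * (volume (C.T y)).toReal := mul_le_mul_of_nonneg_left h1 hrd.le
    linarith
  have hHm : ∀ x ∈ L, MeasurableSet (H x) := by
    intro x hx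
    have h1 := hX.measurable _ (wD x hx) (sc_meas x r C.mD)
    have h2 := hX.measurable _ (wE x hx) (sc_meas x r C.mE)
    exact (h1 (measurableSet_singleton (k + 1))).inter (h2 (measurableSet_singleton 0))
  have hPH : ∀ x ∈ L, P (H x) = ENNReal.ofReal p := by
    intro x hx
    have := hX.two (wD x hx) (wE x hx) (sc_meas x r C.mD) (sc_meas x r C.mE)
      (sc_disjoint x r C.dDE) k
    rw [vD, vE, ← hp] at this
    exact this
  have hind : Set.Pairwise (L : Set (EuclideanSpace ℝ (Fin d)))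
      (fun x y => IndepFun ((H x).indicator (1 : Ω → ℝ)) ((H y).indicator (1 : Ω → ℝ)) P) := by
    intro x hx x' hx' hne
    rw [Finset.mem_coe] at hx hx'
    obtain ⟨i, hi⟩ := hLfar x hx x' hx' hne
    have h4 := hX.indep 4 ![sc x r C.D, sc x r C.Eh, sc x' r C.D, sc x' r C.Eh]
      (by intro j; fin_cases j <;> simp [wD x hx, wE x hx, wD x' hx', wE x' hx'])
      (by intro j; fin_cases j <;> simp [sc_meas x r C.mD, sc_meas x r C.mE, sc_meas x' r C.mD, sc_meas x' r C.mE])
      (by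
        have a1 := sc_disjoint x r C.dDE
        have a2 := sc_disjoint x' r C.dDE
        have a3 := sc_far_disjoint hr hi C.sD C.sD
        have a4 := sc_far_disjoint hr hi C.sD C.sE
        have a5 := sc_far_disjoint hr hi C.sE C.sD
        have a6 := sc_far_disjoint hr hi C.sE C.sE
        intro j l hjl
        fin_cases j <;> fin_cases l
        · exact absurd rfl hjl
        · simpa using a1
        · simpa using a3
        · simpa using a4
        · simpa using a1.symm
        · exact absurd rfl hjl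
        · simpa using a5
        · simpa using a6
        · simpa using a3.symm
        · simpa using a5.symm
        · exact absurd rfl hjl
        · simpa using a2
        · simpa using a4.symm
        · simpa using a6.symm
        · simpa using a2.symm
        · exact absurd rfl hjl)
    have hm : ∀ j : Fin 4, Measurable (fun ω => (X ω ∩ (![sc x r C.D, sc x r C.Eh, sc x' r C.D, sc x' r C.Eh] j)).ncard) := by
      intro j
      fin_cases j
      · exact hX.measurable _ (wD x hx) (sc_meas x r C.mD)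
      · exact hX.measurable _ (wE x hx) (sc_meas x r C.mE)
      · exact hX.measurable _ (wD x' hx') (sc_meas x' r C.mD)
      · exact hX.measurable _ (wE x' hx') (sc_meas x' r C.mE)
    have h5 := h4.indepFun_prodMk_prodMk hm 0 1 2 3 (by decide) (by decide) (by decide) (by decide)
    let φ : ℕ × ℕ → ℝ := fun z => if z.1 = k + 1 ∧ z.2 = 0 then 1 else 0
    have hφ : Measurable φ := Measurable.of_discrete
    have h6 := h5.comp hφ hφ
    have e : ∀ z : EuclideanSpace ℝ (Fin d), (H z).indicator (1 : Ω → ℝ)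
      = fun ω => φ ((X ω ∩ sc z r C.D).ncard, (X ω ∩ sc z r C.Eh).ncard) := by
      intro z
      funext ω
      simp only [φ, Set.indicator_apply, H, Set.mem_ofPred_eq]
      rfl
    rw [e x, e x']
    exact h6
  have hch := chebyshev P L H hHm hp0 hPH hLne hind
  let F : EuclideanSpace ℝ (Fin d) → EuclideanSpace ℝ (Fin d) → Set Ω := fun x y =>
    {ω | ((X ω ∩ sc x r C.D).ncard = k + 1 ∧ (X ω ∩ sc x r C.Eh).ncard = 0) ∧
      (X ω ∩ sc x r (C.T y)).ncard ≤ k}
  have hF : ∀ x ∈ L, ∀ y ∈ C.Y, P (F x y) ≤ ENNReal.ofReal (p * (Real.exp (-(k:ℝ)) * 2 ^ k)) := by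
    intro x hx y hy
    have := hX.three (wD x hx) (wE x hx) (wT x hx y hy) (sc_meas x r C.mD) (sc_meas x r C.mE)
      (sc_meas x r (C.mT y hy)) (sc_disjoint x r C.dDE) (sc_disjoint x r (C.dDT y hy))
      (sc_disjoint x r (C.dET y hy)) k (vT x y hy)
    rw [vD, vE, ← hp] at this
    exact this
  have hcover : {ω | (knnGraph (X ω) k).Connected} ⊆
      {ω | ∀ x ∈ L, ω ∉ H x} ∪ ⋃ x ∈ L, ⋃ y ∈ C.Y, F x y := by
    intro ω hω
    by_contra hcon
    rw [Set.mem_union, not_or] at hcon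
    obtain ⟨h1, h2⟩ := hcon
    have h1' : ∃ x ∈ L, ω ∈ H x := by
      by_contra hno
      apply h1
      intro x hx hxH
      exact hno ⟨x, hx, hxH⟩
    obtain ⟨x, hx, hxH⟩ := h1'
    refine not_connected (n := n) hd C x hr (hLx x hx).1 (hX.finite ω) (hX.subset ω) k hxH.1 hxH.2 ?_ hω
    intro y hy
    by_contra hyk
    rw [not_lt] at hyk
    apply h2
    exact Set.mem_iUnion₂.2 ⟨x, hx, Set.mem_iUnion₂.2 ⟨y, hy, hxH, hyk⟩⟩
  have hpe : 0 ≤ p * (Real.exp (-(k:ℝ)) * 2 ^ k) := by positivity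
  calc P {ω | (knnGraph (X ω) k).Connected}
      ≤ P {ω | ∀ x ∈ L, ω ∉ H x} + P (⋃ x ∈ L, ⋃ y ∈ C.Y, F x y) :=
        (measure_mono hcover).trans (measure_union_le _ _)
    _ ≤ ENNReal.ofReal (1 / (L.card * p)) +
        ∑ x ∈ L, ∑ y ∈ C.Y, ENNReal.ofReal (p * (Real.exp (-(k:ℝ)) * 2 ^ k)) := by
        refine add_le_add hch ?_
        refine (measure_biUnion_finset_le _ _).trans (Finset.sum_le_sum ?_)
        intro x hx
        refine (measure_biUnion_finset_le _ _).trans (Finset.sum_le_sum ?_)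
        intro y hy
        exact hF x hx y hy
    _ = ENNReal.ofReal (1 / (L.card * p) + L.card * (C.Y.card * (p * (Real.exp (-(k:ℝ)) * 2 ^ k)))) := by
        rw [Finset.sum_const, Finset.sum_const, nsmul_eq_mul, nsmul_eq_mul,
          ← ENNReal.ofReal_natCast, ← ENNReal.ofReal_natCast, ← ENNReal.ofReal_mul (by positivity),
          ← ENNReal.ofReal_mul (by positivity), ← ENNReal.ofReal_add (by positivity) (by positivity)]
    _ ≤ ENNReal.ofReal (1 / k + (k + 1) * (C.Y.card * (Real.exp (-(k:ℝ)) * 2 ^ k))) := by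
        apply ENNReal.ofReal_le_ofReal
        apply add_le_add
        · exact one_div_le_one_div_of_le hk0 hR1
        · have h1 : (L.card:ℝ) * (C.Y.card * (p * (Real.exp (-(k:ℝ)) * 2 ^ k)))
            = (L.card * p) * (C.Y.card * (Real.exp (-(k:ℝ)) * 2 ^ k)) := by ring
          rw [h1]
          exact mul_le_mul_of_nonneg_right hR2 (by positivity)

end

end Pool.Agent.Helper870.KNN
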