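import Mathlib
import Pool.Agent.Helper870.Bound

open MeasureTheory ProbabilityTheory

namespace Pool.Agent.Helper870.KNN

open Pool.Agent.Helper870.Det

lemma measure_biUnion_const {Ω ι : Type*} [MeasurableSpace Ω] (P : Measure Ω) (I : Finset ι)
    (A : ι → Set Ω) (b : ENNReal) (h : ∀ i ∈ I, P (A i) ≤ b) (K : ℕ) (hK : I.card ≤ K) :
    P (⋃ i ∈ I, A i) ≤ K * b := by
  calc P (⋃ i ∈ I, A i) ≤ ∑ i ∈ I, P (A i) := measure_biUnion_finset_le I A
    _ ≤ I.card • b := Finset.sum_le_card_nsmul I _ b h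
    _ = I.card * b := by rw [nsmul_eq_mul]
    _ ≤ K * b := by gcongr

section
variable {d : ℕ} {n : ℝ} {m : ℕ} {Ω : Type} [MeasurableSpace Ω] {P : Measure Ω}
  {X : Ω → Set (EuclideanSpace ℝ (Fin d))}

theorem union_bound (hd : 2 ≤ d) (hX : IsPoissonProcess P (window d n) X) (hn : 0 < n) (hm : 0 < m)
    (k L M0 : ℕ) (hM1m : 400 ≤ m) (hL : M0 ≤ L) (hL2 : 2 * M0 ^ 2 < (L - 1) ^ d)
    (hL3 : 2 * ((M0 ^ 2 + 1) * (400 * d + 1)) + 1 ≤ L) (hLm : L + 1 ≤ m)
    (hM0 : gam * d ≤ M0 * (1 / 100) ^ d)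
    (hv1 : (1 / 100) ^ d * k ≤ side d n m ^ d) (hv2 : side d n m ^ d ≤ (1 / 50) ^ d * k) :
    P {ω | ¬ (knnGraph (X ω) k).Connected} ≤
      ENNReal.ofReal (m ^ d * ((2 + 2 * 2 ^ (L ^ d)) * Real.exp (-(gam * (d * k))))) := by
  classical
  set b := ENNReal.ofReal (Real.exp (-(gam * (d * k)))) with hb
  set A1 : Set Ω := ⋃ z ∈ Finset.Icc (0 : Fin d → ℤ) (fun _ => (m:ℤ) - 1),
    {ω | k ≤ (X ω ∩ (Metric.closedBall (ctr (side d n m) z) ((5 / 2 * side d n m) * Real.sqrt d) ∩ window d n)).ncard} with hA1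
  set A2 : Set Ω := ⋃ w ∈ corners d m L, ⋃ Z ∈ ((win L w).powerset.filter (fun Z => Z.card = M0)),
    {ω | (X ω ∩ region n (side d n m) m Z).ncard = 0} with hA2
  set A3 : Set Ω := ⋃ w ∈ corners d m 400,
    {ω | (X ω ∩ region n (side d n m) m (win 400 w)).ncard ≤ k} with hA3
  set A4 : Set Ω := ⋃ w ∈ corners d m L, ⋃ V ∈ ((win L w).powerset.filter (fun V => V.Nonempty)),
    {ω | k ≤ (X ω ∩ region n (side d n m) m V).ncard ∧
        (X ω ∩ region n (side d n m) m (nb m V \ V)).ncard = 0} with hA4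
  have hcover : {ω | ¬ (knnGraph (X ω) k).Connected} ⊆ A1 ∪ A2 ∪ A3 ∪ A4 := by
    intro ω hω
    by_contra hcon
    simp only [Set.mem_union, not_or] at hcon
    obtain ⟨⟨⟨h1, h2⟩, h3⟩, h4⟩ := hcon
    apply hω
    apply connected_of_good hd hn hm (hX.finite ω) (hX.subset ω) k L M0 400 (by norm_num) hM1m hL hL2 hL3 hLm
    · intro z hz
      by_contra hcon
      push Not at hcon
      apply h1
      rw [hA1]
      exact Set.mem_iUnion₂.2 ⟨z, hz, hcon⟩
    · intro w hw Z hZ hZc h0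
      apply h2
      rw [hA2]
      refine Set.mem_iUnion₂.2 ⟨w, mem_corners.2 hw, Set.mem_iUnion₂.2 ⟨Z, ?_, h0⟩⟩
      rw [Finset.mem_filter, Finset.mem_powerset]
      exact ⟨hZ, hZc⟩
    · intro w hw h0
      apply h3
      rw [hA3]
      exact Set.mem_iUnion₂.2 ⟨w, mem_corners.2 hw, h0⟩
    · intro w hw V hV hVne h0
      apply h4
      rw [hA4]
      refine Set.mem_iUnion₂.2 ⟨w, mem_corners.2 hw, Set.mem_iUnion₂.2 ⟨V, ?_, h0⟩⟩
      rw [Finset.mem_filter, Finset.mem_powerset]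
      exact ⟨hV, hVne⟩
  have hL1 : 1 ≤ L := by omega
  have hcard0 : (Finset.Icc (0 : Fin d → ℤ) (fun _ => (m:ℤ) - 1)).card ≤ m ^ d := by
    have := card_corners_le (d := d) (m := m) (L := 1) le_rfl
    simpa [corners] using this
  have hB1 : P A1 ≤ ((m ^ d : ℕ) : ENNReal) * b := by
    rw [hA1]
    exact measure_biUnion_const P _ _ b (fun z _ => event1 hd hX hn hm k hv2 z) _ hcard0
  have hB3 : P A3 ≤ ((m ^ d : ℕ) : ENNReal) * b := by
    rw [hA3]
    exact measure_biUnion_const P _ _ b (fun w hw => event3 hd hX hn hm k hv1 (mem_corners.1 hw)) _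
      (card_corners_le (by norm_num))
  have hB2 : P A2 ≤ ((m ^ d : ℕ) : ENNReal) * (((2 ^ (L ^ d) : ℕ) : ENNReal) * b) := by
    rw [hA2]
    apply measure_biUnion_const P _ _ _ _ _ (card_corners_le hL1)
    intro w hw
    apply measure_biUnion_const P _ _ b _ _ _
    · intro Z hZ
      rw [Finset.mem_filter, Finset.mem_powerset] at hZ
      exact event2 hX hn hm k L M0 hv1 hM0 (mem_corners.1 hw) hZ.1 hZ.2
    · refine (Finset.card_filter_le _ _).trans ?_
      rw [Finset.card_powerset, card_win]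
  have hB4 : P A4 ≤ ((m ^ d : ℕ) : ENNReal) * (((2 ^ (L ^ d) : ℕ) : ENNReal) * b) := by
    rw [hA4]
    apply measure_biUnion_const P _ _ _ _ _ (card_corners_le hL1)
    intro w hw
    apply measure_biUnion_const P _ _ b _ _ _
    · intro V hV
      rw [Finset.mem_filter, Finset.mem_powerset] at hV
      exact event4 hd hX hn hm k L hLm hv1 (mem_corners.1 hw) hV.1 hV.2
    · refine (Finset.card_filter_le _ _).trans ?_
      rw [Finset.card_powerset, card_win]
  have hexp : 0 ≤ Real.exp (-(gam * (d * k))) := (Real.exp_pos _).le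
  calc P {ω | ¬ (knnGraph (X ω) k).Connected} ≤ P (A1 ∪ A2 ∪ A3 ∪ A4) := measure_mono hcover
    _ ≤ P A1 + P A2 + P A3 + P A4 := by
        refine (measure_union_le _ _).trans ?_
        gcongr
        refine (measure_union_le _ _).trans ?_
        gcongr
        exact measure_union_le _ _
    _ ≤ ((m ^ d : ℕ) : ENNReal) * b + ((m ^ d : ℕ) : ENNReal) * (((2 ^ (L ^ d) : ℕ) : ENNReal) * b)
        + ((m ^ d : ℕ) : ENNReal) * b + ((m ^ d : ℕ) : ENNReal) * (((2 ^ (L ^ d) : ℕ) : ENNReal) * b) := by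
        gcongr
    _ = ENNReal.ofReal (m ^ d * ((2 + 2 * 2 ^ (L ^ d)) * Real.exp (-(gam * (d * k))))) := by
        rw [hb]
        have e1 : ((m ^ d : ℕ) : ENNReal) = ENNReal.ofReal ((m:ℝ) ^ d) := by
          rw [← ENNReal.ofReal_natCast]; push_cast; rfl
        have e2 : ((2 ^ (L ^ d) : ℕ) : ENNReal) = ENNReal.ofReal ((2:ℝ) ^ (L ^ d)) := by
          rw [← ENNReal.ofReal_natCast]; push_cast; rfl
        rw [e1, e2, ← ENNReal.ofReal_mul (by positivity), ← ENNReal.ofReal_mul (by positivity),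
          ← ENNReal.ofReal_mul (by positivity), ← ENNReal.ofReal_add (by positivity) (by positivity),
          ← ENNReal.ofReal_add (by positivity) (by positivity),
          ← ENNReal.ofReal_add (by positivity) (by positivity)]
        congr 1
        ring

end

/-- larger `k` gives more edges -/
lemma knnGraph_mono {d : ℕ} (S : Set (EuclideanSpace ℝ (Fin d))) {k k' : ℕ} (h : k ≤ k') :
    knnGraph S k ≤ knnGraph S k' := by
  intro x y hxy
  refine ⟨hxy.1, ?_⟩
  rcases hxy.2 with h1 | h1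
  · exact Or.inl ⟨h1.1, lt_of_lt_of_le h1.2 h⟩
  · exact Or.inr ⟨h1.1, lt_of_lt_of_le h1.2 h⟩

/-- the constant -/
noncomputable def bigC : ℝ := 2 / gam

/-- **Upper bound.** -/
theorem upper (d : ℕ) (hd : 2 ≤ d) (c : ℝ) (hc : bigC / d ≤ c) :
    Whp d (fun n S => (knnGraph S ⌊c * Real.log n⌋₊).Connected) := by
  have hg := gam_pos
  have hd0 : (0:ℝ) < d := by positivity
  -- parameters
  obtain ⟨M0, hM0⟩ : ∃ M0 : ℕ, gam * d ≤ M0 * (1 / 100 : ℝ) ^ d := by
    obtain ⟨M0, hM0⟩ := exists_nat_ge (gam * d / (1 / 100 : ℝ) ^ d)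
    refine ⟨M0, ?_⟩
    rwa [div_le_iff₀ (by positivity)] at hM0
  obtain ⟨L, hLdef⟩ : ∃ L : ℕ, L = 2 * ((M0 ^ 2 + 1) * (400 * d + 1)) + M0 + 2 := ⟨_, rfl⟩
  have hL3 : 2 * ((M0 ^ 2 + 1) * (400 * d + 1)) + 1 ≤ L := by omega
  have hL : M0 ≤ L := by omega
  have hL2 : 2 * M0 ^ 2 < (L - 1) ^ d := by
    have h1 : 2 * M0 ^ 2 + 1 ≤ L - 1 := by
      have h2 : M0 ^ 2 + 1 ≤ (M0 ^ 2 + 1) * (400 * d + 1) := Nat.le_mul_of_pos_right _ (by omega)
      omega
    have h3 : L - 1 ≤ (L - 1) ^ d := Nat.le_self_pow (by omega) _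
    omega
  intro ε hε
  -- the constant in the bound
  set K : ℝ := (2 + 2 * 2 ^ (L ^ d)) * Real.exp (gam * d) with hK
  have hK0 : 0 < K := by positivity
  set c0 : ℝ := bigC / d with hc0
  have hc0pos : 0 < c0 := by rw [hc0]; unfold bigC; positivity
  -- eventual conditions
  have hlog : Filter.Tendsto (fun n : ℝ => Real.log n) Filter.atTop Filter.atTop := Real.tendsto_log_atTop
  have hlittle : ∀ A : ℝ, 0 < A → ∀ᶠ n : ℝ in Filter.atTop, A * Real.log n ≤ n := by
    intro A hA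
    have h1 := Real.isLittleO_log_id_atTop.def (c := 1 / A) (by positivity)
    filter_upwards [h1, Filter.eventually_ge_atTop (1:ℝ)] with n hn hn1
    have h2 : 0 ≤ Real.log n := Real.log_nonneg hn1
    rw [Real.norm_of_nonneg h2, id, Real.norm_of_nonneg (by linarith)] at hn
    calc A * Real.log n ≤ A * (1 / A * n) := mul_le_mul_of_nonneg_left hn hA.le
      _ = n := by field_simp
  have hev : ∀ᶠ n : ℝ in Filter.atTop,
      (1 ≤ n ∧ (100:ℝ) ^ d + 1 ≤ c0 * Real.log n) ∧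
      ((L + 400 : ℝ) ^ d * c0) * Real.log n ≤ n ∧ K / ε ≤ n := by
    refine Filter.Eventually.and (Filter.Eventually.and (Filter.eventually_ge_atTop 1) ?_)
      (Filter.Eventually.and (hlittle _ (by positivity)) (Filter.eventually_ge_atTop _))
    have h1 := hlog.eventually_ge_atTop (((100:ℝ) ^ d + 1) / c0)
    filter_upwards [h1] with n hn
    rw [div_le_iff₀ hc0pos] at hn
    linarith
  obtain ⟨n₀, hn₀⟩ := Filter.eventually_atTop.1 hev
  refine ⟨n₀, ?_⟩
  intro n hn Ω _ P _ X hX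
  obtain ⟨⟨hn1, hlogn⟩, hbign, hKn⟩ := hn₀ n hn
  have hn0 : 0 < n := by linarith
  set k : ℕ := ⌊c0 * Real.log n⌋₊ with hkdef
  have hlogn0 : 0 ≤ Real.log n := Real.log_nonneg hn1
  have hklo : c0 * Real.log n < k + 1 := Nat.lt_floor_add_one _
  have hkhi : (k:ℝ) ≤ c0 * Real.log n := Nat.floor_le (by positivity)
  have hk100 : (100:ℝ) ^ d ≤ k := by linarith
  have hkpos : (0:ℝ) < k := lt_of_lt_of_le (by positivity) hk100
  -- number of cells per side
  set x : ℝ := (n / ((1 / 100) ^ d * k)) ^ ((1:ℝ) / d) with hx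
  have hσk : 0 < (1 / 100 : ℝ) ^ d * k := by positivity
  have hxd : x ^ d = n / ((1 / 100) ^ d * k) := by
    rw [hx]; exact rpow_inv_pow (by omega) (by positivity)
  have hx0 : 0 ≤ x := by rw [hx]; positivity
  have hxL : (L:ℝ) + 400 ≤ x := by
    have h1 : ((L:ℝ) + 400) ^ d ≤ x ^ d := by
      rw [hxd, le_div_iff₀ hσk]
      have h2 : ((L:ℝ) + 400) ^ d * ((1 / 100) ^ d * k) ≤ ((L:ℝ) + 400) ^ d * k := by
        apply mul_le_mul_of_nonneg_left _ (by positivity)
        have h3 : (1 / 100 : ℝ) ^ d ≤ 1 := pow_le_one₀ (by norm_num) (by norm_num)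
        nlinarith
      have h4 : ((L:ℝ) + 400) ^ d * k ≤ ((L:ℝ) + 400) ^ d * (c0 * Real.log n) :=
        mul_le_mul_of_nonneg_left hkhi (by positivity)
      linarith
    exact le_of_pow_le_pow_left₀ (by omega) hx0 h1
  set m : ℕ := ⌊x⌋₊ with hmdef
  have hmlo : x < m + 1 := Nat.lt_floor_add_one _
  have hmhi : (m:ℝ) ≤ x := Nat.floor_le hx0
  have hmL : L + 400 ≤ m := by
    apply Nat.le_floor
    push_cast; exact hxL
  have hm : 0 < m := by omega
  have hmpos : (0:ℝ) < m := by exact_mod_cast hm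
  have hside : side d n m ^ d = n / (m:ℝ) ^ d := by
    unfold side
    rw [div_pow, rpow_inv_pow (by omega) hn0.le]
  have hv1 : (1 / 100 : ℝ) ^ d * k ≤ side d n m ^ d := by
    rw [hside, le_div_iff₀ (by positivity)]
    have h1 : (m:ℝ) ^ d ≤ x ^ d := pow_le_pow_left₀ hmpos.le hmhi d
    rw [hxd, le_div_iff₀ hσk] at h1
    linarith
  have hv2 : side d n m ^ d ≤ (1 / 50 : ℝ) ^ d * k := by
    rw [hside, div_le_iff₀ (by positivity)]
    have h0 : x ≤ 2 * m := by
      have : (1:ℝ) ≤ m := by exact_mod_cast hm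
      linarith
    have h1 : x ^ d ≤ (2 * m) ^ d := pow_le_pow_left₀ hx0 h0 d
    rw [hxd, div_le_iff₀ hσk, mul_pow] at h1
    have h2 : (1 / 50 : ℝ) ^ d = 2 ^ d * (1 / 100) ^ d := by rw [← mul_pow]; norm_num
    rw [h2]
    linarith
  have hub := union_bound hd hX hn0 hm k L M0 (by omega) hL hL2 hL3 (by omega) hM0 hv1 hv2
  have hmono : {ω | ¬ (knnGraph (X ω) ⌊c * Real.log n⌋₊).Connected}
      ⊆ {ω | ¬ (knnGraph (X ω) k).Connected} := by
    intro ω hω hcon
    apply hω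
    apply hcon.mono
    apply knnGraph_mono
    apply Nat.floor_le_floor
    exact mul_le_mul_of_nonneg_right hc hlogn0
  refine (measure_mono hmono).trans (hub.trans (ENNReal.ofReal_le_ofReal ?_))
  -- numerical estimate
  have hmd : (m:ℝ) ^ d ≤ n := by
    have h1 : (m:ℝ) ^ d ≤ x ^ d := pow_le_pow_left₀ hmpos.le hmhi d
    refine h1.trans ?_
    rw [hxd, div_le_iff₀ hσk]
    have h2 : 1 ≤ (1 / 100 : ℝ) ^ d * k := by
      have h3 : (1 / 100 : ℝ) ^ d * 100 ^ d ≤ (1 / 100 : ℝ) ^ d * k :=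
        mul_le_mul_of_nonneg_left hk100 (by positivity)
      rw [← mul_pow] at h3
      norm_num at h3
      exact h3
    nlinarith
  have hexp : Real.exp (-(gam * (d * k))) ≤ Real.exp (gam * d) * (n⁻¹ * n⁻¹) := by
    have h1 : n⁻¹ * n⁻¹ = Real.exp (-(2 * Real.log n)) := by
      rw [← mul_inv, Real.exp_neg, two_mul, Real.exp_add, Real.exp_log hn0]
    rw [h1, ← Real.exp_add]
    apply Real.exp_le_exp.2
    have h2 : d * (c0 * Real.log n) < d * (k + 1) := mul_lt_mul_of_pos_left hklo hd0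
    have h3 : d * (c0 * Real.log n) = bigC * Real.log n := by rw [hc0]; field_simp
    rw [h3] at h2
    have h4 : gam * (bigC * Real.log n) = 2 * Real.log n := by unfold bigC; field_simp
    have h5 : gam * (bigC * Real.log n) < gam * (d * (k + 1)) := mul_lt_mul_of_pos_left h2 hg
    rw [h4] at h5
    linarith
  calc (m:ℝ) ^ d * ((2 + 2 * 2 ^ (L ^ d)) * Real.exp (-(gam * (d * k))))
      ≤ n * ((2 + 2 * 2 ^ (L ^ d)) * (Real.exp (gam * d) * (n⁻¹ * n⁻¹))) := by
        apply mul_le_mul hmd _ (by positivity) hn0.le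
        exact mul_le_mul_of_nonneg_left hexp (by positivity)
    _ = K / n := by rw [hK]; field_simp
    _ ≤ ε := by
        rw [div_le_iff₀ hn0]
        rw [div_le_iff₀ hε] at hKn
        linarith

end Pool.Agent.Helper870.KNN
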