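import Mathlib
import Pool.Agent.Helper870.LowProb
import Pool.Agent.Helper870.Upper

open MeasureTheory ProbabilityTheory

namespace Pool.Agent.Helper870.KNN

open Pool.Agent.Helper870.Det

section
variable {d : ℕ} {B : Finset (Fin d)}

lemma exp_eight : (2000:ℝ) ≤ Real.exp 8 := by
  have h1 : (2.7:ℝ) ≤ Real.exp 1 := by
    have := Real.exp_one_gt_d9
    linarith
  have h2 : Real.exp 8 = Real.exp 1 ^ 8 := by rw [← Real.exp_nat_mul]; norm_num
  rw [h2]
  calc (2000:ℝ) ≤ 2.7 ^ 8 := by norm_num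
    _ ≤ Real.exp 1 ^ 8 := pow_le_pow_left₀ (by norm_num) h1 8

lemma p0_lower (hd : 1 ≤ d) (C : Config B) {r : ℝ} (hr : 0 < r) (k : ℕ) (hk : 1 ≤ k)
    (hrV : r ^ d * V0 B = 4 * k) :
    Real.exp (-(14 * (d * (k + 1)))) ≤ p0 (r ^ d * (tau / Real.sqrt d) ^ d) (r ^ d * (volume C.Eh).toReal) k
    ∧ p0 (r ^ d * (tau / Real.sqrt d) ^ d) (r ^ d * (volume C.Eh).toReal) k ≤ 1 := by
  have hV0 := V0_pos B
  have hk0 : (1:ℝ) ≤ k := by exact_mod_cast hk
  have hd0 : (1:ℝ) ≤ d := by exact_mod_cast hd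
  have hrd : 0 < r ^ d := pow_pos hr d
  have hτ : tau = 1 / 400 := rfl
  have hsd : 0 < Real.sqrt d := Real.sqrt_pos.2 (by linarith)
  set v := (tau / Real.sqrt d) ^ d with hv
  have hv0 : 0 < v := by rw [hv, hτ]; positivity
  -- upper bound for v
  have hv1 : v ≤ tau ^ d * V0 B := by
    have h1 : C.D ⊆ tc B tau := by
      intro u hu
      exact ⟨mem_closedBall_zero_iff.2 (C.rD u hu), (C.sD hu).2⟩
    have h2 := measure_mono (μ := volume) h1
    rw [C.vD, volume_tc B (by rw [hτ]; norm_num)] at h2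
    have hnn : 0 ≤ tau ^ d * V0 B := by rw [hτ]; positivity
    exact (ENNReal.ofReal_le_ofReal_iff hnn).1 h2
  have hv2 : (1 / 2000) ^ d * V0 B ≤ v := by
    have h1 := V0_le B hd
    have h2 : v = (1 / 2000) ^ d * (5 / Real.sqrt d) ^ d := by
      rw [hv, ← mul_pow, hτ]; congr 1; ring
    rw [h2]
    exact mul_le_mul_of_nonneg_left h1 (by positivity)
  set μD := r ^ d * v with hμD
  set μE := r ^ d * (volume C.Eh).toReal with hμE
  have hμD0 : 0 < μD := by positivity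
  have hμE0 : 0 ≤ μE := by positivity
  have hμDk : μD ≤ k := by
    have h1 : tau ^ d ≤ 1 / 4 := by
      have h2 : tau ^ d ≤ tau ^ 1 := pow_le_pow_of_le_one (by rw [hτ]; norm_num) (by rw [hτ]; norm_num) hd
      rw [pow_one] at h2
      rw [hτ] at h2 ⊢
      linarith
    calc μD ≤ r ^ d * (tau ^ d * V0 B) := mul_le_mul_of_nonneg_left hv1 hrd.le
      _ = tau ^ d * (4 * k) := by rw [← hrV]; ring
      _ ≤ 1 / 4 * (4 * k) := mul_le_mul_of_nonneg_right h1 (by positivity)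
      _ = k := by ring
  have hμDlo : (1 / 2000) ^ d * (4 * k) ≤ μD := by
    calc (1 / 2000) ^ d * (4 * (k:ℝ)) = r ^ d * ((1 / 2000) ^ d * V0 B) := by rw [← hrV]; ring
      _ ≤ μD := mul_le_mul_of_nonneg_left hv2 hrd.le
  have hμEk : μE ≤ 5 * k := by
    have h1 : (volume C.Eh).toReal ≤ 5 / 4 * V0 B :=
      ENNReal.toReal_le_of_le_ofReal (by positivity) C.vE
    calc μE ≤ r ^ d * (5 / 4 * V0 B) := mul_le_mul_of_nonneg_left h1 hrd.le
      _ = 5 * k := by
        have : r ^ d * (5 / 4 * V0 B) = 5 / 4 * (r ^ d * V0 B) := by ring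
        rw [this, hrV]; ring
  constructor
  · -- lower bound
    have h1 : ((1 / 2000 : ℝ) ^ d) ^ (k + 1) ≤ μD ^ (k + 1) / ((k + 1).factorial : ℝ) := by
      have h2 : (((k + 1).factorial : ℕ) : ℝ) ≤ ((k:ℝ) + 1) ^ (k + 1) := by
        have := Nat.factorial_le_pow (k + 1)
        have h3 : (((k + 1).factorial : ℕ) : ℝ) ≤ (((k + 1) ^ (k + 1) : ℕ) : ℝ) := by exact_mod_cast this
        push_cast at h3
        exact h3
      have h3 : (1 / 2000 : ℝ) ^ d * (k + 1) ≤ μD := by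
        refine le_trans ?_ hμDlo
        apply mul_le_mul_of_nonneg_left _ (by positivity)
        linarith
      have hfac : (0:ℝ) < ((k + 1).factorial : ℝ) := by exact_mod_cast Nat.factorial_pos _
      rw [le_div_iff₀ hfac]
      calc ((1 / 2000 : ℝ) ^ d) ^ (k + 1) * ((k + 1).factorial : ℝ)
          ≤ ((1 / 2000 : ℝ) ^ d) ^ (k + 1) * ((k:ℝ) + 1) ^ (k + 1) :=
            mul_le_mul_of_nonneg_left h2 (by positivity)
        _ = ((1 / 2000 : ℝ) ^ d * (k + 1)) ^ (k + 1) := by rw [← mul_pow]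
        _ ≤ μD ^ (k + 1) := pow_le_pow_left₀ (by positivity) h3 _
    have h2 : Real.exp (-(8 * (d * (k + 1)))) ≤ ((1 / 2000 : ℝ) ^ d) ^ (k + 1) := by
      rw [← pow_mul]
      have h3 : Real.exp (-(8 * (d * (k + 1)))) = Real.exp (-8) ^ (d * (k + 1)) := by
        rw [← Real.exp_nat_mul]; congr 1; push_cast; ring
      rw [h3]
      apply pow_le_pow_left₀ (Real.exp_pos _).le
      rw [Real.exp_neg, one_div]
      exact inv_anti₀ (by norm_num) exp_eight
    have h3 : Real.exp (-(k:ℝ)) ≤ Real.exp (-μD) := Real.exp_le_exp.2 (by linarith)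
    have h4 : Real.exp (-(5 * (k:ℝ))) ≤ Real.exp (-μE) := Real.exp_le_exp.2 (by linarith)
    have h5 : p0 μD μE k = Real.exp (-μD) * (μD ^ (k + 1) / ((k + 1).factorial : ℝ)) * Real.exp (-μE) := by
      rw [p0]; ring
    rw [h5]
    calc Real.exp (-(14 * (d * (k + 1))))
        ≤ Real.exp (-(k:ℝ) + -(8 * (d * (k + 1))) + -(5 * (k:ℝ))) := by
          apply Real.exp_le_exp.2
          nlinarith
      _ = Real.exp (-(k:ℝ)) * Real.exp (-(8 * (d * (k + 1)))) * Real.exp (-(5 * (k:ℝ))) := by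
          rw [Real.exp_add, Real.exp_add]
      _ ≤ Real.exp (-μD) * (μD ^ (k + 1) / ((k + 1).factorial : ℝ)) * Real.exp (-μE) := by
          apply mul_le_mul _ h4 (Real.exp_pos _).le (by positivity)
          exact mul_le_mul h3 (h2.trans h1) (Real.exp_pos _).le (Real.exp_pos _).le
  · have h1 := Real.pow_div_factorial_le_exp μD hμD0.le (k + 1)
    rw [p0]
    have h2 : Real.exp (-μD) * μD ^ (k + 1) / ((k + 1).factorial : ℝ) ≤ 1 := by
      calc Real.exp (-μD) * μD ^ (k + 1) / ((k + 1).factorial : ℝ)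
          = Real.exp (-μD) * (μD ^ (k + 1) / ((k + 1).factorial : ℝ)) := by ring
        _ ≤ Real.exp (-μD) * Real.exp μD := mul_le_mul_of_nonneg_left h1 (Real.exp_pos _).le
        _ = 1 := by rw [← Real.exp_add]; simp
    have h3 : Real.exp (-μE) ≤ 1 := Real.exp_le_one_iff.2 (by linarith)
    calc _ ≤ 1 * 1 := mul_le_mul h2 h3 (Real.exp_pos _).le zero_le_one
      _ = 1 := one_mul 1

open Classical in
/-- many separated locations on a face -/
lemma exists_locations (B : Finset (Fin d)) {r N : ℝ} (hr : 0 < r) (m R : ℕ) (hm : 9 * m * r ≤ N)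
    (hR : R ≤ m ^ (d - B.card)) (_hR1 : 1 ≤ R) :
    ∃ L : Finset (EuclideanSpace ℝ (Fin d)), L.card = R ∧
      (∀ x ∈ L, (∀ i ∈ B, x i = 0) ∧ ∀ i ∉ B, 4 * r ≤ x i ∧ x i + 4 * r ≤ N) ∧
      (∀ x ∈ L, ∀ x' ∈ L, x ≠ x' → ∃ i, 8 * r < |x i - x' i|) := by
  let Z : Finset (Fin d → ℕ) := Fintype.piFinset (fun i => if i ∈ B then {0} else Finset.range m)
  let loc : (Fin d → ℕ) → EuclideanSpace ℝ (Fin d) := fun z =>
    WithLp.toLp 2 (fun i => if i ∈ B then 0 else (4 + 9 * (z i : ℝ)) * r)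
  have hloc : ∀ z i, loc z i = if i ∈ B then 0 else (4 + 9 * (z i : ℝ)) * r := fun z i => rfl
  have hZcard : Z.card = m ^ (d - B.card) := by
    simp only [Z]
    rw [Fintype.card_piFinset]
    have : ∀ i : Fin d, (if i ∈ B then ({0} : Finset ℕ) else Finset.range m).card
        = if i ∈ B then 1 else m := by
      intro i; split_ifs <;> simp
    rw [Finset.prod_congr rfl (fun i _ => this i), Finset.prod_ite, Finset.prod_const_one, one_mul,
      Finset.prod_const]
    congr 1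
    have h1 : (Finset.univ.filter (fun i => i ∉ B)) = Bᶜ := by ext i; simp
    rw [h1, Finset.card_compl, Fintype.card_fin]
  have hsep : ∀ z ∈ Z, ∀ z' ∈ Z, z ≠ z' → ∃ i, 8 * r < |loc z i - loc z' i| := by
    intro z hz z' hz' hne
    obtain ⟨i, hi⟩ := Function.ne_iff.1 hne
    have hz1 := (Fintype.mem_piFinset.1 hz) i
    have hz2 := (Fintype.mem_piFinset.1 hz') i
    have hiB : i ∉ B := by
      intro h
      rw [if_pos h, Finset.mem_singleton] at hz1 hz2
      exact hi (hz1.trans hz2.symm)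
    refine ⟨i, ?_⟩
    rw [hloc, hloc, if_neg hiB, if_neg hiB]
    have h1 : (4 + 9 * (z i : ℝ)) * r - (4 + 9 * (z' i : ℝ)) * r = 9 * r * ((z i : ℝ) - z' i) := by ring
    rw [h1, abs_mul, abs_of_pos (by positivity)]
    have h2 : (1:ℝ) ≤ |(z i : ℝ) - z' i| := by
      have h3 : (1:ℤ) ≤ |(z i : ℤ) - z' i| := Int.one_le_abs (by omega)
      exact_mod_cast h3
    nlinarith
  have hinj : Set.InjOn loc Z := by
    intro z hz z' hz' h
    by_contra hne
    obtain ⟨i, hi⟩ := hsep z hz z' hz' hne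
    rw [h] at hi
    simp at hi
    linarith
  have hcard : R ≤ (Z.image loc).card := by
    rw [Finset.card_image_of_injOn hinj, hZcard]; exact hR
  obtain ⟨L, hL, hLcard⟩ := Finset.exists_subset_card_eq hcard
  refine ⟨L, hLcard, ?_, ?_⟩
  · intro x hx
    obtain ⟨z, hz, rfl⟩ := Finset.mem_image.1 (hL hx)
    constructor
    · intro i hi
      rw [hloc, if_pos hi]
    · intro i hi
      have hz1 := (Fintype.mem_piFinset.1 hz) i
      rw [if_neg hi, Finset.mem_range] at hz1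
      rw [hloc, if_neg hi]
      have h1 : (z i : ℝ) + 1 ≤ m := by exact_mod_cast hz1
      have h0 : (0:ℝ) ≤ z i := Nat.cast_nonneg _
      constructor
      · nlinarith
      · nlinarith
  · intro x hx x' hx' hne
    obtain ⟨z, hz, rfl⟩ := Finset.mem_image.1 (hL hx)
    obtain ⟨z', hz', rfl⟩ := Finset.mem_image.1 (hL hx')
    exact hsep z hz z' hz' (fun h => hne (by rw [h]))

end

/-- the error tends to zero -/
lemma error_tendsto (Y : ℕ) {ε : ℝ} (hε : 0 < ε) : ∃ k1 : ℕ, ∀ k : ℕ, k1 ≤ k →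
    1 / (k:ℝ) + (k + 1) * (Y * (Real.exp (-(k:ℝ)) * 2 ^ k)) ≤ ε := by
  set s : ℝ := Real.exp (-1) * 2 with hs
  have hs0 : 0 < s := by positivity
  have hs1 : s < 1 := by
    rw [hs, Real.exp_neg, ← div_eq_inv_mul, div_lt_one (Real.exp_pos 1)]
    have := Real.exp_one_gt_d9
    linarith
  have h1 : Filter.Tendsto (fun k : ℕ => (k:ℝ) * s ^ k) Filter.atTop (nhds 0) :=
    tendsto_self_mul_const_pow_of_lt_one hs0.le hs1
  have h2 : Filter.Tendsto (fun k : ℕ => s ^ k) Filter.atTop (nhds 0) :=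
    tendsto_pow_atTop_nhds_zero_of_lt_one hs0.le hs1
  have h3 : Filter.Tendsto (fun k : ℕ => 1 / (k:ℝ)) Filter.atTop (nhds 0) :=
    tendsto_one_div_atTop_nhds_zero_nat
  have h4 : Filter.Tendsto (fun k : ℕ => 1 / (k:ℝ) + (Y:ℝ) * ((k:ℝ) * s ^ k + s ^ k)) Filter.atTop (nhds 0) := by
    have := h3.add ((h1.add h2).const_mul (Y:ℝ))
    simpa using this
  obtain ⟨k1, hk1⟩ := Filter.eventually_atTop.1 (h4.eventually_lt_const hε)
  refine ⟨k1, fun k hk => ?_⟩
  have h5 := (hk1 k hk).le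
  have h6 : Real.exp (-(k:ℝ)) * 2 ^ k = s ^ k := by
    rw [hs, mul_pow, ← Real.exp_nat_mul]; congr 2; ring
  rw [h6]
  calc _ = 1 / (k:ℝ) + (Y:ℝ) * ((k:ℝ) * s ^ k + s ^ k) := by ring
    _ ≤ ε := h5

/-- **Lower bound.** -/
theorem lower : ∃ d0 : ℕ, 2 ≤ d0 ∧ ∀ d : ℕ, d0 ≤ d → ∀ c : ℝ, c ≤ (1 / 90) / d →
    Whp d (fun n S => ¬ (knnGraph S ⌊c * Real.log n⌋₊).Connected) := by
  classical
  obtain ⟨d0, hd02, hconf⟩ := exists_config
  refine ⟨d0, hd02, ?_⟩
  intro d hd c hc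
  have hd2 : 2 ≤ d := le_trans hd02 hd
  have hdr : (2:ℝ) ≤ d := by exact_mod_cast hd2
  obtain ⟨B, -, hB⟩ := Finset.exists_subset_card_eq
    (s := (Finset.univ : Finset (Fin d))) (n := (d + 1) / 2) (by rw [Finset.card_univ, Fintype.card_fin]; omega)
  obtain ⟨C⟩ := hconf d hd B hB
  have hV0 := V0_pos B
  intro ε hε
  obtain ⟨k1, hk1⟩ := error_tendsto C.Y.card hε
  set c0 : ℝ := (1 / 90) / d with hc0
  have hc0pos : 0 < c0 := by positivity
  set A : ℝ := Real.exp (45 * d) * 18 ^ d * 4 / V0 B with hA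
  have hApos : 0 < A := by positivity
  have hlog : Filter.Tendsto (fun n : ℝ => Real.log n) Filter.atTop Filter.atTop := Real.tendsto_log_atTop
  have hev : ∀ᶠ n : ℝ in Filter.atTop, 1 ≤ n ∧ ((k1:ℝ) + 2) ≤ c0 * Real.log n ∧
      A * Real.log n ≤ n ^ (1 / 2 : ℝ) := by
    refine Filter.Eventually.and (Filter.eventually_ge_atTop 1) (Filter.Eventually.and ?_ ?_)
    · have h1 := hlog.eventually_ge_atTop (((k1:ℝ) + 2) / c0)
      filter_upwards [h1] with n hn
      rw [div_le_iff₀ hc0pos] at hn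
      linarith
    · have h1 := (isLittleO_log_rpow_atTop (r := 1 / 2) (by norm_num)).def (c := 1 / A) (by positivity)
      filter_upwards [h1, Filter.eventually_ge_atTop (1:ℝ)] with n hn hn1
      have h2 : 0 ≤ Real.log n := Real.log_nonneg hn1
      rw [Real.norm_of_nonneg h2, Real.norm_of_nonneg (by positivity)] at hn
      calc A * Real.log n ≤ A * (1 / A * n ^ (1 / 2 : ℝ)) := mul_le_mul_of_nonneg_left hn hApos.le
        _ = n ^ (1 / 2 : ℝ) := by field_simp
  obtain ⟨n₀, hn₀⟩ := Filter.eventually_atTop.1 hev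
  refine ⟨n₀, ?_⟩
  intro n hn Ω _ P _ X hX
  obtain ⟨hn1, hklog, hAn⟩ := hn₀ n hn
  have hn0 : 0 < n := by linarith
  have hlogn0 : 0 ≤ Real.log n := Real.log_nonneg hn1
  set k : ℕ := ⌊c0 * Real.log n⌋₊ with hkdef
  have hklo : c0 * Real.log n < k + 1 := Nat.lt_floor_add_one _
  have hkhi : (k:ℝ) ≤ c0 * Real.log n := Nat.floor_le (by positivity)
  have hkk1 : k1 + 1 ≤ k := by
    apply Nat.le_floor
    push_cast; linarith
  have hk : 1 ≤ k := by omega
  have hk0 : (1:ℝ) ≤ k := by exact_mod_cast hk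
  -- scale
  set r : ℝ := (4 * k / V0 B) ^ ((1:ℝ) / d) with hr
  have hr0 : 0 < r := by rw [hr]; positivity
  have hrd : r ^ d = 4 * k / V0 B := by rw [hr]; exact rpow_inv_pow (by omega) (by positivity)
  have hrV : r ^ d * V0 B = 4 * k := by rw [hrd]; field_simp
  set N : ℝ := n ^ ((1:ℝ) / d) with hN
  have hN0 : 0 < N := by rw [hN]; positivity
  have hNd : N ^ d = n := by rw [hN]; exact rpow_inv_pow (by omega) hn0.le
  obtain ⟨hplo, hphi⟩ := p0_lower (by omega : 1 ≤ d) C hr0 k hk hrV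
  set p := p0 (r ^ d * (tau / Real.sqrt d) ^ d) (r ^ d * (volume C.Eh).toReal) k with hp
  have hppos : 0 < p := lt_of_lt_of_le (Real.exp_pos _) hplo
  set R : ℕ := ⌈(k:ℝ) / p⌉₊ with hRdef
  have hRlo : (k:ℝ) / p ≤ R := Nat.le_ceil _
  have hRhi : (R:ℝ) < k / p + 1 := Nat.ceil_lt_add_one (by positivity)
  have hR1 : (k:ℝ) ≤ R * p := by rwa [div_le_iff₀ hppos] at hRlo
  have hR2 : (R:ℝ) * p ≤ k + 1 := by
    have h1 : (R:ℝ) * p ≤ (k / p + 1) * p := mul_le_mul_of_nonneg_right hRhi.le hppos.le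
    have h2 : ((k:ℝ) / p + 1) * p = k + p := by field_simp
    linarith
  have hRpos : 1 ≤ R := by
    rw [hRdef]
    exact Nat.one_le_iff_ne_zero.2 (Nat.ceil_pos.2 (by positivity)).ne'
  have hRexp : (R:ℝ) ≤ Real.exp (15 * (d * (k + 1))) := by
    have h1 : (k:ℝ) / p ≤ k * Real.exp (14 * (d * (k + 1))) := by
      rw [div_le_iff₀ hppos]
      have h2 : 1 ≤ Real.exp (14 * (d * (k + 1))) * p := by
        calc (1:ℝ) = Real.exp (14 * (d * (k + 1))) * Real.exp (-(14 * (d * (k + 1)))) := by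
              rw [← Real.exp_add]; simp
          _ ≤ _ := mul_le_mul_of_nonneg_left hplo (Real.exp_pos _).le
      nlinarith
    have h2 : 1 ≤ Real.exp (14 * (d * ((k:ℝ) + 1))) := Real.one_le_exp (by positivity)
    calc (R:ℝ) ≤ k * Real.exp (14 * (d * (k + 1))) + 1 := by linarith
      _ ≤ (k + 1) * Real.exp (14 * (d * (k + 1))) := by linarith
      _ ≤ Real.exp k * Real.exp (14 * (d * (k + 1))) :=
          mul_le_mul_of_nonneg_right (Real.add_one_le_exp _) (Real.exp_pos _).le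
      _ = Real.exp (k + 14 * (d * (k + 1))) := by rw [Real.exp_add]
      _ ≤ _ := by
          apply Real.exp_le_exp.2
          nlinarith
  -- grid size
  have hkey : Real.exp (45 * (d * (k + 1))) ≤ n * V0 B / (18 ^ d * (4 * k)) := by
    rw [le_div_iff₀ (by positivity)]
    have h1 : Real.exp (45 * (d * ((k:ℝ) + 1))) ≤ Real.exp (45 * d) * n ^ (1 / 2 : ℝ) := by
      rw [Real.rpow_def_of_pos hn0, ← Real.exp_add]
      apply Real.exp_le_exp.2
      have h2 : (d:ℝ) * k ≤ d * (c0 * Real.log n) := mul_le_mul_of_nonneg_left hkhi (by linarith)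
      have h3 : (d:ℝ) * (c0 * Real.log n) = 1 / 90 * Real.log n := by rw [hc0]; field_simp
      rw [h3] at h2
      linarith
    have hklogn : (k:ℝ) ≤ Real.log n := by
      have h2 : c0 ≤ 1 := by
        rw [hc0, div_le_iff₀ (by linarith)]; linarith
      nlinarith
    have h2 : n = n ^ (1 / 2 : ℝ) * n ^ (1 / 2 : ℝ) := by
      rw [← Real.rpow_add hn0]; norm_num
    have hnh : 0 < n ^ (1 / 2 : ℝ) := Real.rpow_pos_of_pos hn0 _
    calc Real.exp (45 * (d * ((k:ℝ) + 1))) * (18 ^ d * (4 * k))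
        ≤ (Real.exp (45 * d) * n ^ (1 / 2 : ℝ)) * (18 ^ d * (4 * Real.log n)) := by
          gcongr
      _ = (A * Real.log n) * n ^ (1 / 2 : ℝ) * V0 B := by
          rw [hA]; field_simp
      _ ≤ n ^ (1 / 2 : ℝ) * n ^ (1 / 2 : ℝ) * V0 B := by
          gcongr
      _ = n * V0 B := by rw [← h2]
  set q : ℝ := N / (18 * r) with hq
  have hq0 : 0 < q := by positivity
  have hqd : q ^ d = n * V0 B / (18 ^ d * (4 * k)) := by
    rw [hq, div_pow, mul_pow, hNd, hrd]; field_simp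
  have hq1 : 1 ≤ q := by
    have h1 : 1 ≤ q ^ d := by
      rw [hqd]; exact (Real.one_le_exp (by positivity)).trans hkey
    by_contra hcon
    rw [not_le] at hcon
    have := pow_lt_one₀ hq0.le hcon (by omega : d ≠ 0)
    linarith
  set m : ℕ := ⌊2 * q⌋₊ with hm
  have hmlo : q ≤ m := by
    have := Nat.lt_floor_add_one (2 * q)
    rw [← hm] at this
    linarith
  have hmhi : (m:ℝ) ≤ 2 * q := Nat.floor_le (by positivity)
  have h9 : 9 * m * r ≤ N := by
    have h1 : 9 * (m:ℝ) * r ≤ 9 * (2 * q) * r := by gcongr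
    have h2 : 9 * (2 * q) * r = N := by rw [hq]; field_simp; ring
    linarith
  have hRm : R ≤ m ^ (d - B.card) := by
    have h1 : (R:ℝ) ^ 3 ≤ ((m:ℝ) ^ (d - B.card)) ^ 3 := by
      calc (R:ℝ) ^ 3 ≤ Real.exp (15 * (d * (k + 1))) ^ 3 := pow_le_pow_left₀ (Nat.cast_nonneg _) hRexp 3
        _ = Real.exp (45 * (d * (k + 1))) := by rw [← Real.exp_nat_mul]; congr 1; push_cast; ring
        _ ≤ q ^ d := by rw [hqd]; exact hkey
        _ ≤ (m:ℝ) ^ d := pow_le_pow_left₀ hq0.le hmlo d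
        _ ≤ (m:ℝ) ^ ((d - B.card) * 3) := by
            apply pow_le_pow_right₀ (hq1.trans hmlo)
            rw [hB]; omega
        _ = ((m:ℝ) ^ (d - B.card)) ^ 3 := by rw [pow_mul]
    have h2 : (R:ℝ) ≤ (m:ℝ) ^ (d - B.card) := le_of_pow_le_pow_left₀ (by norm_num) (by positivity) h1
    exact_mod_cast h2
  obtain ⟨L, hLcard, hLx, hLfar⟩ := exists_locations B hr0 m R h9 hRm hRpos
  have hLne : L.Nonempty := by
    rw [← Finset.card_pos]; omega
  have h4r : 4 * r ≤ n ^ ((1:ℝ) / d) := by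
    rw [← hN]
    have : N = 18 * q * r := by rw [hq]; field_simp
    nlinarith
  have hfinal := lower_bound_prob (by omega) C hX hr0 k hk hrV h4r L hLne hLx hLfar hp
    (by rw [hLcard]; exact hR1) (by rw [hLcard]; exact hR2)
  have hmono : {ω | ¬ ¬ (knnGraph (X ω) ⌊c * Real.log n⌋₊).Connected}
      ⊆ {ω | (knnGraph (X ω) k).Connected} := by
    intro ω hω
    have h1 : (knnGraph (X ω) ⌊c * Real.log n⌋₊).Connected := not_not.1 hω
    apply h1.mono
    apply knnGraph_mono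
    apply Nat.floor_le_floor
    exact mul_le_mul_of_nonneg_right hc hlogn0
  refine (measure_mono hmono).trans (hfinal.trans (ENNReal.ofReal_le_ofReal ?_))
  exact hk1 k (by omega)

end Pool.Agent.Helper870.KNN
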